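import Mathlib

section

/-!
# Stepanov's bound for quadratic character sums

`F` a finite field of odd characteristic `p` with `p ^ m * p ^ n` elements, `m ≤ n`, `f ∈ F[X]` not of
the form `c g ^ 2`. Then `|∑ χ(f(x))| ≤ 4 (deg f) p ^ n`.
-/

namespace Pool.Agent.Lib.MP_89bcae_ag.Stepanov14

open Polynomial Finset

variable {F : Type*} [Field F]

/-- the polynomial with the given coefficients -/
noncomputable def pol {H : ℕ} (c : Fin H → F) : F[X] := ((degreeLTEquiv F H).symm c : degreeLT F H)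

theorem pol_sub {H : ℕ} (c c' : Fin H → F) : pol (c - c') = pol c - pol c' := by
  simp [pol]

theorem pol_eq_zero {H : ℕ} {c : Fin H → F} (h : pol c = 0) : c = 0 := by
  simpa [pol] using h

theorem natDegree_pol_le {H : ℕ} (c : Fin H → F) : (pol c).natDegree ≤ H - 1 := by
  rcases Nat.eq_zero_or_pos H with rfl | hH
  · have : c = 0 := Subsingleton.elim _ _
    rw [this, pol, map_zero, ZeroMemClass.coe_zero, natDegree_zero]
  · by_cases h0 : pol c = 0
    · rw [h0]; simp
    · have h1 : (pol c) ∈ degreeLT F H := ((degreeLTEquiv F H).symm c).2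
      rw [mem_degreeLT] at h1
      have := (natDegree_lt_iff_degree_lt h0).2 h1
      omega

theorem sum_zero {N : ℕ} : ∀ (I : ℕ) (u : ℕ → F[X]),
    (∀ i < I, X ^ N ∣ u i → u i = 0) → ∑ i ∈ range I, u i * X ^ (i * N) = 0 →
    ∀ i < I, u i = 0 := by
  intro I
  induction I with
  | zero => intro u _ _ i hi; omega
  | succ I ih =>
    intro u hu hs
    rw [sum_range_succ'] at hs
    have e1 : ∑ i ∈ range I, u (i + 1) * X ^ ((i + 1) * N) =
        (∑ i ∈ range I, u (i + 1) * X ^ (i * N)) * X ^ N := by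
      rw [sum_mul]
      refine sum_congr rfl fun i _ => ?_
      rw [add_mul, one_mul, pow_add, mul_assoc]
    rw [e1, zero_mul, pow_zero, mul_one] at hs
    have h0 : u 0 = 0 := by
      apply hu 0 (by omega)
      rw [eq_neg_of_add_eq_zero_right hs]
      exact (dvd_neg.2 (dvd_mul_left _ _))
    rw [h0, add_zero] at hs
    have hs' : ∑ i ∈ range I, u (i + 1) * X ^ (i * N) = 0 := by
      rcases mul_eq_zero.1 hs with h | h
      · exact h
      · exact absurd h (pow_ne_zero _ X_ne_zero)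
    intro i hi
    rcases Nat.eq_zero_or_pos i with rfl | hpos
    · exact h0
    · obtain ⟨j, rfl⟩ := Nat.exists_eq_add_of_lt hpos
      have := ih (fun i => u (i + 1)) (fun i hi => hu (i + 1) (by omega)) hs' j (by omega)
      simpa [add_comm] using this

section
variable {p : ℕ} [Fact p.Prime] [CharP F p]

/-- `h + k f ^ ((Q' - 1) / 2)` is not divisible by `X ^ Q'` -/
theorem eq_zero_of_dvd {n Q₂ : ℕ} (hQ : p ^ n = 2 * Q₂ + 1) {f h k : F[X]}
    (hf0 : f.eval 0 ≠ 0) (hf : ¬ ∃ (c : F) (g : F[X]), f = C c * g ^ 2)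
    (hh : 2 * h.natDegree + f.natDegree < p ^ n) (hk : 2 * k.natDegree < p ^ n)
    (hdvd : X ^ p ^ n ∣ h + k * f ^ Q₂) : h = 0 ∧ k = 0 := by
  set c : F := (f.eval 0) ^ p ^ n with hc
  have hc0 : c ≠ 0 := pow_ne_zero _ hf0
  have h1 : X ^ p ^ n ∣ h ^ 2 * f - k ^ 2 * f ^ p ^ n := by
    have e : h ^ 2 * f - k ^ 2 * f ^ p ^ n = (h + k * f ^ Q₂) * ((h - k * f ^ Q₂) * f) := by
      rw [hQ]
      ring
    rw [e]
    exact Dvd.dvd.mul_right hdvd _
  have h2 : X ^ p ^ n ∣ f ^ p ^ n - C c := by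
    have e : f ^ p ^ n - C c = (f - C (f.eval 0)) ^ p ^ n := by
      rw [sub_pow_char_pow, hc, C_pow]
    rw [e]
    apply pow_dvd_pow_of_dvd
    have := X_sub_C_dvd_sub_C_eval (a := (0 : F)) (p := f)
    simpa using this
  have h3 : X ^ p ^ n ∣ h ^ 2 * f - C c * k ^ 2 := by
    have e : h ^ 2 * f - C c * k ^ 2 =
        (h ^ 2 * f - k ^ 2 * f ^ p ^ n) + (f ^ p ^ n - C c) * k ^ 2 := by ring
    rw [e]
    exact dvd_add h1 (Dvd.dvd.mul_right h2 _)
  have h4 : h ^ 2 * f - C c * k ^ 2 = 0 := by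
    by_contra hne
    have h5 := natDegree_le_of_dvd h3 hne
    rw [natDegree_X_pow] at h5
    have h6 : (h ^ 2 * f - C c * k ^ 2).natDegree < p ^ n := by
      refine lt_of_le_of_lt (natDegree_sub_le _ _) (max_lt ?_ ?_)
      · refine lt_of_le_of_lt natDegree_mul_le ?_
        refine lt_of_le_of_lt (Nat.add_le_add_right natDegree_pow_le _) hh
      · refine lt_of_le_of_lt (natDegree_C_mul_le _ _) ?_
        exact lt_of_le_of_lt natDegree_pow_le hk
    omega
  have h5 : h ^ 2 * f = C c * k ^ 2 := sub_eq_zero.1 h4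
  by_cases hh0 : h = 0
  · refine ⟨hh0, ?_⟩
    rw [hh0] at h5
    have : C c * k ^ 2 = 0 := by rw [← h5]; ring
    rcases mul_eq_zero.1 this with h | h
    · exact absurd (C_eq_zero.1 h) hc0
    · exact pow_eq_zero_iff (two_ne_zero) |>.1 h
  · exfalso
    have h6 : h ^ 2 ∣ k ^ 2 := by
      have : k ^ 2 = h ^ 2 * (f * C c⁻¹) := by
        rw [← mul_assoc, h5, mul_comm (C c * k ^ 2), ← mul_assoc, ← C_mul, inv_mul_cancel₀ hc0,
          C_1, one_mul]
      rw [this]
      exact dvd_mul_right _ _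
    obtain ⟨g, rfl⟩ := (IsIntegrallyClosed.pow_dvd_pow_iff two_ne_zero).1 h6
    apply hf
    refine ⟨c, g, ?_⟩
    have : h ^ 2 * f = h ^ 2 * (C c * g ^ 2) := by rw [h5]; ring
    exact mul_left_cancel₀ (pow_ne_zero 2 hh0) this

variable [Fintype F] [DecidableEq F]

/-- the auxiliary polynomial -/
noncomputable def auxS (p m M₂ : ℕ) (f : F[X]) (a : F) {I H : ℕ} (c c' : Fin I → Fin H → F) : F[X] :=
  ∑ i : Fin I, (pol (c i) ^ p ^ m * f ^ M₂ + C a * pol (c' i) ^ p ^ m) * X ^ (i : ℕ)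

omit [Fintype F] [DecidableEq F] in
theorem auxS_sub (m M₂ : ℕ) (f : F[X]) (a : F) {I H : ℕ} (c c' e e' : Fin I → Fin H → F) :
    auxS p m M₂ f a (c - e) (c' - e') = auxS p m M₂ f a c c' - auxS p m M₂ f a e e' := by
  unfold auxS
  rw [← sum_sub_distrib]
  refine sum_congr rfl fun i _ => ?_
  rw [Pi.sub_apply, Pi.sub_apply, pol_sub, pol_sub, sub_pow_char_pow, sub_pow_char_pow]
  ring

omit [Fact p.Prime] [CharP F p] [Fintype F] [DecidableEq F] in
theorem natDegree_auxS_lt (m M₂ : ℕ) (f : F[X]) (a : F) {I H : ℕ} (hI : 0 < I)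
    (c c' : Fin I → Fin H → F) :
    (auxS p m M₂ f a c c').natDegree < p ^ m * (H - 1) + f.natDegree * M₂ + I := by
  have : (auxS p m M₂ f a c c').natDegree ≤ p ^ m * (H - 1) + f.natDegree * M₂ + (I - 1) := by
    apply natDegree_sum_le_of_forall_le
    intro i _
    have hi := i.2
    refine natDegree_mul_le.trans ?_
    rw [natDegree_X_pow]
    have h1 : (pol (c i) ^ p ^ m * f ^ M₂).natDegree ≤ p ^ m * (H - 1) + f.natDegree * M₂ := by
      refine natDegree_mul_le.trans (Nat.add_le_add ?_ ?_)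
      · exact natDegree_pow_le.trans (Nat.mul_le_mul_left _ (natDegree_pol_le _))
      · refine natDegree_pow_le.trans ?_
        rw [mul_comm]
    have h2 : (C a * pol (c' i) ^ p ^ m).natDegree ≤ p ^ m * (H - 1) + f.natDegree * M₂ := by
      refine (natDegree_C_mul_le _ _).trans ?_
      refine (natDegree_pow_le.trans (Nat.mul_le_mul_left _ (natDegree_pol_le _))).trans ?_
      omega
    have h3 := (natDegree_add_le (pol (c i) ^ p ^ m * f ^ M₂) (C a * pol (c' i) ^ p ^ m)).trans
      (max_le h1 h2)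
    omega
  omega

/-- the number of `x` with `f(x) ^ ((Q - 1) / 2) = a` -/
theorem count_le {m n M₂ Q₂ : ℕ} (hQ : p ^ n = 2 * Q₂ + 1)
    (hcard : Fintype.card F = p ^ m * p ^ n) {f : F[X]}
    (hf0 : f.eval 0 ≠ 0) (hf : ¬ ∃ (c : F) (g : F[X]), f = C c * g ^ 2) {a : F} (ha : a ≠ 0)
    {H I : ℕ} (hI : 0 < I) (hH : 2 * (H - 1) + f.natDegree < p ^ n)
    (hPH : p ^ m * (H - 1) + f.natDegree * M₂ + I < 2 * I * H) :
    (univ.filter fun x : F => (f.eval x) ^ (p ^ m * Q₂ + M₂) = a).card ≤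
      (I - 1) * p ^ n + (H - 1) + f.natDegree * Q₂ := by
  have hp : 0 < p ^ n := by omega
  -- pigeonhole
  obtain ⟨⟨c, c'⟩, ⟨e, e'⟩, hne, hΦ⟩ := Fintype.exists_ne_map_eq_of_card_lt
    (fun cc : (Fin I → Fin H → F) × (Fin I → Fin H → F) =>
      fun j : Fin (p ^ m * (H - 1) + f.natDegree * M₂ + I) =>
        (auxS p m M₂ f a cc.1 cc.2).coeff j) (by
      rw [Fintype.card_prod]
      simp only [Fintype.card_fun, Fintype.card_fin]
      rw [← pow_mul, ← pow_add]
      apply Nat.pow_lt_pow_right Fintype.one_lt_card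
      calc _ < 2 * I * H := hPH
        _ = H * I + H * I := by ring)
  have hS : auxS p m M₂ f a (c - e) (c' - e') = 0 := by
    have h1 := natDegree_auxS_lt (p := p) m M₂ f a hI (c - e) (c' - e')
    rw [auxS_sub] at h1 ⊢
    ext j
    rw [coeff_zero]
    by_cases hj : j < p ^ m * (H - 1) + f.natDegree * M₂ + I
    · have := congrFun hΦ ⟨j, hj⟩
      simp only at this
      rw [coeff_sub, this, sub_self]
    · exact coeff_eq_zero_of_natDegree_lt (by omega)
  -- the polynomials
  set h : ℕ → F[X] := fun i => if hi : i < I then pol ((c - e) ⟨i, hi⟩) else 0 with hhdef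
  set k : ℕ → F[X] := fun i => if hi : i < I then pol ((c' - e') ⟨i, hi⟩) else 0 with hkdef
  have hh : ∀ i, (h i).natDegree ≤ H - 1 := by
    intro i
    simp only [hhdef]
    split_ifs with hi
    · exact natDegree_pol_le _
    · simp
  have hk : ∀ i, (k i).natDegree ≤ H - 1 := by
    intro i
    simp only [hkdef]
    split_ifs with hi
    · exact natDegree_pol_le _
    · simp
  have hSeval : ∀ x : F, ∑ i ∈ range I, ((h i).eval x ^ p ^ m * f.eval x ^ M₂ +
      a * (k i).eval x ^ p ^ m) * x ^ i = 0 := by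
    intro x
    have h1 := congrArg (eval x) hS
    rw [auxS, eval_finsetSum, eval_zero] at h1
    rw [← h1, ← Fin.sum_univ_eq_sum_range (fun i => ((h i).eval x ^ p ^ m * f.eval x ^ M₂ +
      a * (k i).eval x ^ p ^ m) * x ^ i)]
    refine sum_congr rfl fun i _ => ?_
    simp only [eval_mul, eval_add, eval_pow, eval_C, eval_X]
    simp only [hhdef, hkdef, i.2, dif_pos, Fin.eta]
  set R : F[X] := ∑ i ∈ range I, (h i + k i * f ^ Q₂) * X ^ (i * p ^ n) with hR
  have hR0 : R ≠ 0 := by
    intro hR0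
    have hz : ∀ i < I, X ^ p ^ n ∣ h i + k i * f ^ Q₂ → h i = 0 ∧ k i = 0 := by
      intro i _ hi
      refine eq_zero_of_dvd hQ hf0 hf ?_ ?_ hi
      · have := hh i; omega
      · have := hk i; omega
    have h1 := sum_zero I (fun i => h i + k i * f ^ Q₂) (fun i hi hd => by
      obtain ⟨e1, e2⟩ := hz i hi hd
      simp only [e1, e2]; ring) hR0
    have h2 : ∀ i < I, h i = 0 ∧ k i = 0 := fun i hi => hz i hi (by
      have := h1 i hi
      rw [this]; exact dvd_zero _)
    apply hne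
    have h3 : c - e = 0 := by
      funext i
      apply pol_eq_zero
      have := (h2 i i.2).1
      simpa only [hhdef, i.2, dif_pos, Fin.eta] using this
    have h4 : c' - e' = 0 := by
      funext i
      apply pol_eq_zero
      have := (h2 i i.2).2
      simpa only [hkdef, i.2, dif_pos, Fin.eta] using this
    rw [sub_eq_zero.1 h3, sub_eq_zero.1 h4]
  -- vanishing
  have hvan : ∀ x : F, (f.eval x) ^ (p ^ m * Q₂ + M₂) = a → R.eval x = 0 := by
    intro x hx
    have hfx : f.eval x ≠ 0 := by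
      intro h0
      rw [h0] at hx
      rcases Nat.eq_zero_or_pos (p ^ m * Q₂ + M₂) with h' | h'
      · have : Q₂ = 0 := by
          have hpm : 0 < p ^ m := pow_pos (Nat.Prime.pos Fact.out) m
          by_contra hq
          have : 0 < p ^ m * Q₂ := Nat.mul_pos hpm (by omega)
          omega
        have h1n : n = 0 := by
          by_contra hn
          have := Nat.one_lt_pow hn (Nat.Prime.one_lt (Fact.out : p.Prime))
          omega
        have : 2 * (H - 1) + f.natDegree < 1 := by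
          rw [h1n, pow_zero] at hH; exact hH
        have hfd : f.natDegree = 0 := by omega
        exact hf ⟨f.coeff 0, 1, by
          rw [one_pow, mul_one]
          exact eq_C_of_natDegree_eq_zero hfd⟩
      · rw [zero_pow (by omega)] at hx
        exact ha hx.symm
    have h1 : (f.eval x) ^ M₂ * (iterateFrobenius F p m (R.eval x)) = 0 := by
      rw [← hSeval x, hR, eval_finsetSum, map_sum, mul_sum]
      refine sum_congr rfl fun i _ => ?_
      simp only [eval_mul, eval_add, eval_pow, eval_X, map_mul, map_add, map_pow,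
        iterateFrobenius_def]
      have e1 : (x ^ p ^ m) ^ (i * p ^ n) = x ^ i := by
        rw [← pow_mul, show p ^ m * (i * p ^ n) = (p ^ m * p ^ n) * i by ring, pow_mul, ← hcard,
          FiniteField.pow_card]
      have e2 : f.eval x ^ M₂ * (f.eval x ^ p ^ m) ^ Q₂ = a := by
        rw [← pow_mul, ← pow_add, add_comm, hx]
      rw [e1, ← e2]
      ring
    rcases mul_eq_zero.1 h1 with h | h
    · exact absurd h (pow_ne_zero _ hfx)
    · rw [iterateFrobenius_def] at h
      exact pow_eq_zero_iff (pow_pos (Nat.Prime.pos Fact.out) m).ne' |>.1 h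
  -- count
  have hdeg : R.natDegree ≤ (I - 1) * p ^ n + (H - 1) + f.natDegree * Q₂ := by
    apply natDegree_sum_le_of_forall_le
    intro i hi
    rw [mem_range] at hi
    refine natDegree_mul_le.trans ?_
    rw [natDegree_X_pow]
    have h1 : (h i + k i * f ^ Q₂).natDegree ≤ (H - 1) + f.natDegree * Q₂ := by
      refine (natDegree_add_le _ _).trans (max_le ?_ ?_)
      · exact (hh i).trans (Nat.le_add_right _ _)
      · refine natDegree_mul_le.trans (Nat.add_le_add (hk i) ?_)
        refine natDegree_pow_le.trans ?_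
        rw [mul_comm]
    have h2 : i * p ^ n ≤ (I - 1) * p ^ n := Nat.mul_le_mul_right _ (by omega)
    omega
  refine le_trans ?_ hdeg
  apply card_le_degree_of_subset_roots
  intro x hx
  rw [mem_val, mem_filter] at hx
  rw [mem_roots hR0]
  exact hvan x hx.2

/-- Stepanov's bound, `f(0) ≠ 0` -/
theorem char_sum_aux {m n : ℕ} (hp2 : p ≠ 2) (hmn : m ≤ n)
    (hcard : Fintype.card F = p ^ m * p ^ n) {f : F[X]} (hf0 : f.eval 0 ≠ 0)
    (hf : ¬ ∃ (c : F) (g : F[X]), f = C c * g ^ 2) :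
    |∑ x : F, quadraticChar F (f.eval x)| ≤ 4 * (f.natDegree + 1) * p ^ n := by
  have hpp : p.Prime := Fact.out
  have hodd : Odd p := hpp.odd_of_ne_two hp2
  obtain ⟨M₂, hM⟩ := hodd.pow (n := m)
  obtain ⟨Q₂, hQ⟩ := hodd.pow (n := n)
  have hchar : ringChar F ≠ 2 := by
    rw [ringChar.eq F p]; exact hp2
  have hmn' : p ^ m ≤ p ^ n := Nat.pow_le_pow_right hpp.pos hmn
  set d := f.natDegree with hd
  have hcardle : |∑ x : F, quadraticChar F (f.eval x)| ≤ Fintype.card F := by
    refine (abs_sum_le_sum_abs _ _).trans ?_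
    rw [Fintype.card_eq_sum_ones]
    push_cast
    refine sum_le_sum fun x _ => ?_
    rcases eq_or_ne (f.eval x) 0 with h | h
    · rw [h]; simp
    · rcases quadraticChar_dichotomy h with h' | h' <;> rw [h'] <;> simp
  by_cases hbig : p ^ m ≤ 4 * (d + 1)
  · refine hcardle.trans ?_
    rw [hcard]
    push_cast
    have : ((p : ℤ) ^ m) ≤ 4 * (d + 1) := by exact_mod_cast hbig
    gcongr
  · rw [not_le] at hbig
    have hd1 : d < p ^ n := by omega
    have hhalf : Fintype.card F / 2 = p ^ m * Q₂ + M₂ := by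
      rw [hcard, hQ, mul_add, mul_one]
      nth_rewrite 2 [hM]
      have : p ^ m * (2 * Q₂) = 2 * (p ^ m * Q₂) := by ring
      omega
    have hcount : ∀ a : F, a ≠ 0 → 2 * (univ.filter fun x : F =>
        (f.eval x) ^ (p ^ m * Q₂ + M₂) = a).card ≤ p ^ m * p ^ n + 3 * d * p ^ n := by
      intro a ha
      have h1 := count_le (H := (p ^ n + 1 - d) / 2) (I := M₂ + 1 + d) hQ hcard hf0 hf ha
        (by omega) (by omega) (by
          rw [← hd]
          obtain ⟨H, hH⟩ : ∃ H, (p ^ n + 1 - d) / 2 = H + 1 := ⟨(p ^ n + 1 - d) / 2 - 1, by omega⟩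
          have hM2 : 2 * d + 2 ≤ M₂ := by omega
          have h3 : M₂ ≤ 2 * H := by omega
          have h4 : d * M₂ ≤ d * (2 * H) := Nat.mul_le_mul_left _ h3
          rw [hH, Nat.add_sub_cancel, hM]
          nlinarith)
      rw [← hd] at h1
      have h2 : 2 * ((p ^ n + 1 - d) / 2 - 1) ≤ p ^ n := by omega
      have h3 : (M₂ + 1 + d - 1) * p ^ n = (M₂ + d) * p ^ n := by
        rw [show M₂ + 1 + d - 1 = M₂ + d by omega]
      have h4 : p ^ m * p ^ n = 2 * (M₂ * p ^ n) + p ^ n := by rw [hM]; ring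
      have h5 : (M₂ + d) * p ^ n = M₂ * p ^ n + d * p ^ n := by ring
      have h6 : 2 * (d * Q₂) ≤ d * p ^ n := by
        rw [hQ]
        nlinarith
      have h7 : 3 * d * p ^ n = 3 * (d * p ^ n) := by ring
      omega
    -- the three sets
    have hval : ∀ x : F, (f.eval x) ^ (p ^ m * Q₂ + M₂) = (quadraticChar F (f.eval x) : F) := by
      intro x
      rw [quadraticChar_eq_pow_of_char_ne_two' hchar, hhalf]
    set N1 := (univ.filter fun x : F => (f.eval x) ^ (p ^ m * Q₂ + M₂) = 1).card with hN1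
    set N2 := (univ.filter fun x : F => (f.eval x) ^ (p ^ m * Q₂ + M₂) = -1).card with hN2
    have h1 := hcount 1 one_ne_zero
    have h2 := hcount (-1) (neg_ne_zero.2 one_ne_zero)
    rw [← hN1] at h1
    rw [← hN2] at h2
    have hne1 : (1 : F) ≠ -1 := by
      intro h
      have := Ring.neg_one_ne_one_of_char_ne_two hchar
      exact this h.symm
    have hf' : f ≠ 0 := by
      rintro rfl
      exact hf0 (by simp)
    have hzero : (univ.filter fun x : F => f.eval x = 0).card ≤ d := by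
      apply card_le_degree_of_subset_roots
      intro x hx
      rw [mem_val, mem_filter] at hx
      rw [mem_roots hf']
      exact hx.2
    have hchi : ∀ x : F, quadraticChar F (f.eval x) =
        (if (f.eval x) ^ (p ^ m * Q₂ + M₂) = 1 then 1 else 0) -
        (if (f.eval x) ^ (p ^ m * Q₂ + M₂) = -1 then 1 else 0) := by
      intro x
      rw [hval]
      rcases eq_or_ne (f.eval x) 0 with h | h
      · rw [h]; simp
      · rcases quadraticChar_dichotomy h with h' | h'
        · rw [h']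
          simp [hne1]
        · rw [h']
          simp [hne1.symm]
    have hone : ∀ x : F, (1 : ℕ) ≤
        (if (f.eval x) ^ (p ^ m * Q₂ + M₂) = 1 then 1 else 0) +
        (if (f.eval x) ^ (p ^ m * Q₂ + M₂) = -1 then 1 else 0) +
        (if f.eval x = 0 then 1 else 0) := by
      intro x
      rw [hval]
      rcases eq_or_ne (f.eval x) 0 with h | h
      · rw [h]; simp
      · rcases quadraticChar_dichotomy h with h' | h' <;> rw [h'] <;> simp [h, hne1, hne1.symm]
    have hsum : ∑ x : F, quadraticChar F (f.eval x) = (N1 : ℤ) - N2 := by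
      rw [sum_congr rfl fun x _ => hchi x, sum_sub_distrib, hN1, hN2, card_filter, card_filter]
      push_cast
      rfl
    have htot : p ^ m * p ^ n ≤ N1 + N2 + d := by
      rw [← hcard]
      calc Fintype.card F = ∑ x : F, 1 := Fintype.card_eq_sum_ones
        _ ≤ ∑ x : F, ((if (f.eval x) ^ (p ^ m * Q₂ + M₂) = 1 then 1 else 0) +
            (if (f.eval x) ^ (p ^ m * Q₂ + M₂) = -1 then 1 else 0) +
            (if f.eval x = 0 then 1 else 0)) := sum_le_sum fun x _ => hone x
        _ = N1 + N2 + (univ.filter fun x : F => f.eval x = 0).card := by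
            rw [sum_add_distrib, sum_add_distrib, hN1, hN2, card_filter, card_filter, card_filter]
        _ ≤ _ := Nat.add_le_add_left hzero _
    rw [hsum, abs_le]
    have hd2 : d ≤ d * p ^ n := Nat.le_mul_of_pos_right _ (by omega)
    have e3 : 3 * d * p ^ n = 3 * (d * p ^ n) := by ring
    have e4 : (4 * (d + 1) * p ^ n : ℤ) = ((4 * (d * p ^ n) + 4 * p ^ n : ℕ) : ℤ) := by
      push_cast; ring
    rw [e4]
    constructor <;> omega

/-- **Stepanov's bound for quadratic character sums.** `F` a finite field of odd characteristic `p`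
with `p ^ m * p ^ n` elements, `m ≤ n`, `f` not a constant times a square. -/
theorem char_sum_pn {m n : ℕ} (hp2 : p ≠ 2) (hmn : m ≤ n)
    (hcard : Fintype.card F = p ^ m * p ^ n) {f : F[X]}
    (hf : ¬ ∃ (c : F) (g : F[X]), f = C c * g ^ 2) :
    |∑ x : F, quadraticChar F (f.eval x)| ≤ 4 * (f.natDegree + 1) * p ^ n := by
  have hpp : p.Prime := Fact.out
  have hf' : f ≠ 0 := by
    rintro rfl
    exact hf ⟨0, 0, by simp⟩
  by_cases hbig : ∃ x : F, f.eval x ≠ 0
  · obtain ⟨y, hy⟩ := hbig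
    have h1 := char_sum_aux (f := f.comp (X + C y)) hp2 hmn hcard (by simpa using hy) (by
      rintro ⟨c, g, hg⟩
      apply hf
      refine ⟨c, g.comp (X - C y), ?_⟩
      have h2 := congrArg (fun u => u.comp (X - C y)) hg
      simp only [comp_assoc, add_comp, X_comp, C_comp, sub_add_cancel, comp_X, mul_comp,
        pow_comp] at h2
      exact h2)
    rw [natDegree_comp, natDegree_X_add_C, mul_one] at h1
    have h3 : ∑ x : F, quadraticChar F ((f.comp (X + C y)).eval x) =
        ∑ x : F, quadraticChar F (f.eval x) := by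
      simp only [eval_comp, eval_add, eval_X, eval_C]
      exact Equiv.sum_comp (Equiv.addRight y) (fun x => quadraticChar F (f.eval x))
    rw [h3] at h1
    exact h1
  · push Not at hbig
    simp only [hbig, quadraticChar_zero, sum_const_zero, abs_zero]
    positivity

/-- **Stepanov's bound for quadratic character sums.** `F` a finite field of odd characteristic `p`
with `p ^ κ` elements, `2 m ≤ κ`, `f` not a constant times a square. -/
theorem char_sum {κ m : ℕ} (hp2 : p ≠ 2) (hmκ : 2 * m ≤ κ)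
    (hcard : Fintype.card F = p ^ κ) {f : F[X]}
    (hf : ¬ ∃ (c : F) (g : F[X]), f = C c * g ^ 2) :
    |((∑ x : F, quadraticChar F (f.eval x) : ℤ) : ℝ)| ≤
      4 * (f.natDegree + 1) * Fintype.card F / p ^ m := by
  have hpp : p.Prime := Fact.out
  have h1 := char_sum_pn (m := m) (n := κ - m) hp2 (by omega) (by
    rw [hcard, ← pow_add]; congr 1; omega) hf
  have h2 : (Fintype.card F : ℝ) / p ^ m = p ^ (κ - m) := by
    rw [hcard]
    push_cast
    have : (p : ℝ) ≠ 0 := by exact_mod_cast hpp.ne_zero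
    rw [div_eq_iff (pow_ne_zero _ this), ← pow_add]
    congr 1
    omega
  rw [mul_div_assoc, h2]
  exact_mod_cast h1

end

end Pool.Agent.Lib.MP_89bcae_ag.Stepanov14

end

section

/-!
ROW A01 (120-220 lines). Automorphisms of finite order congruent to `1` modulo `π²`, and modulo `π`.

Setting: `B` commutative ring, `H` a `B`-module, `ℓ` prime, `z` in `B` with `∑_{i<ℓ} z^i = 0`,
`p = 1 - z`; `p` is injective on `H` and `⋂ p^n H = 0`.
(1) `exists_pi_identity`: there are `v`, `w` in `B` with `p v = ℓ`, `p^(ℓ-1) = ℓ (-1 + p w)`.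
 PROOF. `v = ∑_{k<ℓ} ∑_{i<k} z^i` (`(1 - z) ∑_{i<k} z^i = 1 - z^k`). In `ℤ[X]`,
 `(1 - X)^(ℓ-1) - ∑_{i<ℓ} X^i` is divisible by `ℓ` (modulo `ℓ`: `(1-X)^ℓ = 1 - X^ℓ =
 (1-X) ∑ X^i`, cancel `1 - X`), equal to `ℓ W`; at `X = 1`: `W(1) = -1`, so
 `W = -1 + (1 - X) W₂`; evaluate at `z`.
(2) `ℓ` is injective on `H`: `ℓ x = 0 → p^(ℓ-1) x = 0`. For `n` prime to `ℓ` and `X` in `B`,
 `n + p X` is injective on `H`: if `(n + pX) y = 0` then `n y ∈ pH`, `ℓ y = p v y ∈ pH`, so
 `y = p y₁` (Bezout), `(n + pX) y₁ = 0` by injectivity of `p`, and so on: `y ∈ ⋂ p^n H = 0`.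
(3) `sq_case`: `W = 1 + p² Y`, `W^M x = x`, `M > 0` imply `Y x = 0`.
 PROOF. `W^ℓ = 1 + ℓ p² Y (1 + p X₁)`: binomial theorem: the terms `C(ℓ,j) p^{2j} Y^j`,
 `2 ≤ j < ℓ`, are divisible by `ℓ p² Y · p`; `p^{2ℓ} Y^ℓ = p^{ℓ-1} p^{ℓ+1} Y^ℓ = ℓ (-1+pw) p^{ℓ+1} Y^ℓ`
 too. By induction `W^{ℓ^s} = 1 + ℓ^s p² Y (1 + p X_s)`, and for `M'` prime to `ℓ`,
 `(1 + p² Y')^{M'} = 1 + p² Y' (M' + p X')`. With `M = ℓ^s M'`:
 `0 = (W^M - 1) x = ℓ^s p² (1 + pX)(M' + pX') Y x`; all factors are injective by (2).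
(4) `fst_case`: `W = 1 + p N`, `W^M x = x`, `M > 0` imply `(N^ℓ - N) x ∈ p H`.
 PROOF. `W^ℓ = 1 + ℓ p N + ∑_{2≤j<ℓ} C(ℓ,j) p^j N^j + p^ℓ N^ℓ` and `p^ℓ = ℓ p (-1 + p w)`:
 `W^ℓ = 1 + ℓ p (N - N^ℓ + p X) = 1 + p² Y` with `Y = v (N - N^ℓ + p X)`, and
 `(W^ℓ)^M x = x`, so `Y x = 0` by (3), `p Y = ℓ (N - N^ℓ + pX)`, so `(N^ℓ - N) x = p X x`.
-/

open Polynomial

namespace Pool.Agent.Lib.MP_89bcae_ag.Sup

variable {B H : Type*} [CommRing B] [AddCommGroup H] [Module B H] {ℓ : ℕ}

private lemma A01_poly (hℓ : ℓ.Prime) : ∃ W : ℤ[X],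
    (1 - X) ^ (ℓ - 1) - ∑ i ∈ Finset.range ℓ, (X : ℤ[X]) ^ i = C (ℓ : ℤ) * W := by
  have : Fact ℓ.Prime := ⟨hℓ⟩
  have h1 : ((1 - X : (ZMod ℓ)[X])) ^ (ℓ - 1) = ∑ i ∈ Finset.range ℓ, (X : (ZMod ℓ)[X]) ^ i := by
    have h2 : (1 - X : (ZMod ℓ)[X]) * (1 - X) ^ (ℓ - 1) =
        (1 - X) * ∑ i ∈ Finset.range ℓ, (X : (ZMod ℓ)[X]) ^ i := by
      rw [mul_neg_geom_sum, ← pow_succ', Nat.sub_add_cancel hℓ.one_le, sub_pow_char, one_pow]
    have h3 : (1 - X : (ZMod ℓ)[X]) ≠ 0 := by
      intro h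
      have := congrArg (eval 0) h
      simp at this
    exact mul_left_cancel₀ h3 h2
  have h4 : C (ℓ : ℤ) ∣ (1 - X) ^ (ℓ - 1) - ∑ i ∈ Finset.range ℓ, (X : ℤ[X]) ^ i := by
    rw [C_dvd_iff_dvd_coeff]
    intro i
    rw [← ZMod.intCast_zmod_eq_zero_iff_dvd]
    have h5 : Polynomial.map (Int.castRingHom (ZMod ℓ))
        ((1 - X) ^ (ℓ - 1) - ∑ i ∈ Finset.range ℓ, (X : ℤ[X]) ^ i) = 0 := by
      rw [Polynomial.map_sub, Polynomial.map_pow, Polynomial.map_sub, Polynomial.map_one,
        Polynomial.map_X, Polynomial.map_sum, h1]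
      simp only [Polynomial.map_pow, Polynomial.map_X, sub_self]
    have h6 := congrArg (fun q => coeff q i) h5
    simp only [coeff_map, coeff_zero] at h6
    exact h6
  obtain ⟨W, hW⟩ := h4
  exact ⟨W, hW⟩

lemma exists_pi_identity (hℓ : ℓ.Prime) (z : B) (hz : ∑ i ∈ Finset.range ℓ, z ^ i = 0) :
    ∃ v w : B, (1 - z) * v = ℓ ∧ (1 - z) ^ (ℓ - 1) = ℓ * (-1 + (1 - z) * w) := by
  obtain ⟨W, hW⟩ := A01_poly hℓ
  have hW1 : eval 1 W = -1 := by
    have h1 := congrArg (eval (1 : ℤ)) hW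
    have h2 : ℓ - 1 ≠ 0 := Nat.sub_ne_zero_of_lt hℓ.one_lt
    simp only [eval_sub, eval_pow, eval_one, eval_X, sub_self, eval_finsetSum, one_pow,
      Finset.sum_const, Finset.card_range, eval_mul, eval_C, zero_pow h2, smul_eq_mul,
      nsmul_eq_mul, mul_one] at h1
    have h3 : (ℓ : ℤ) ≠ 0 := by exact_mod_cast hℓ.ne_zero
    have h4 : (ℓ : ℤ) * (eval 1 W + 1) = 0 := by linarith
    have h5 := (mul_eq_zero.1 h4).resolve_left h3
    linarith
  obtain ⟨W2, hW2⟩ := (X_sub_C_dvd_sub_C_eval (a := (1 : ℤ)) (p := W))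
  rw [hW1] at hW2
  have hWz : aeval z W = -1 + (1 - z) * (-aeval z W2) := by
    have h1 := congrArg (aeval z) hW2
    simp only [map_sub, map_mul, aeval_X, aeval_C, map_neg, map_one] at h1
    have h2 : aeval z W = (z - 1) * aeval z W2 - 1 := by
      rw [← h1]
      ring
    rw [h2]
    ring
  refine ⟨∑ k ∈ Finset.range ℓ, ∑ i ∈ Finset.range k, z ^ i, -aeval z W2, ?_, ?_⟩
  · rw [Finset.mul_sum]
    simp only [mul_neg_geom_sum, Finset.sum_sub_distrib, Finset.sum_const, Finset.card_range,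
      nsmul_eq_mul, mul_one]
    rw [hz, sub_zero]
  · have h1 := congrArg (aeval z) hW
    simp only [map_sub, map_mul, map_pow, map_sum, aeval_X, aeval_C, map_one, hz, sub_zero] at h1
    rw [h1, hWz]
    simp

private lemma A01_bin (hℓ : ℓ.Prime) (u : B) :
    ∃ R : B, (1 + u) ^ ℓ = 1 + ℓ * u * (1 + u * R) + u ^ ℓ := by
  have h1 := add_pow_prime_eq hℓ u (1 : B)
  refine ⟨∑ k ∈ (Finset.Ioo 0 ℓ).erase 1, u ^ (k - 2) * ((ℓ.choose k / ℓ : ℕ) : B), ?_⟩
  have h2 : (1 : ℕ) ∈ Finset.Ioo 0 ℓ := Finset.mem_Ioo.2 ⟨one_pos, hℓ.one_lt⟩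
  have h3 : ∑ k ∈ Finset.Ioo 0 ℓ, u ^ (k - 1) * (1 : B) ^ (ℓ - k - 1) *
      ((ℓ.choose k / ℓ : ℕ) : B) = 1 + u * ∑ k ∈ (Finset.Ioo 0 ℓ).erase 1, u ^ (k - 2) *
      ((ℓ.choose k / ℓ : ℕ) : B) := by
    rw [← Finset.add_sum_erase _ _ h2, Finset.mul_sum]
    congr 1
    · rw [Nat.choose_one_right, Nat.div_self hℓ.pos]
      simp
    · refine Finset.sum_congr rfl fun k hk => ?_
      rw [Finset.mem_erase, Finset.mem_Ioo] at hk
      have h4 : k - 1 = (k - 2) + 1 := by omega
      rw [h4, pow_succ]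
      ring
  rw [h3] at h1
  rw [add_comm, h1]
  ring

section

variable {z : B}

private lemma A01_inj_pow (hinj : ∀ x : H, (1 - z) • x = 0 → x = 0) (n : ℕ) (x : H)
    (h : (1 - z) ^ n • x = 0) : x = 0 := by
  induction n with
  | zero => simpa using h
  | succ n ih =>
    rw [pow_succ', mul_smul] at h
    exact ih (hinj _ h)

private lemma A01_inj_unit (hℓ : ℓ.Prime) (hz : ∑ i ∈ Finset.range ℓ, z ^ i = 0)
    (hinj : ∀ x : H, (1 - z) • x = 0 → x = 0)
    (hsep : ∀ x : H, (∀ n : ℕ, ∃ y : H, x = (1 - z) ^ n • y) → x = 0)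
    (a : ℤ) (ha : IsCoprime a (ℓ : ℤ)) (X : B) (y : H) (h : ((a : B) + (1 - z) * X) • y = 0) :
    y = 0 := by
  obtain ⟨v, w, hv, -⟩ := exists_pi_identity (B := B) hℓ z hz
  obtain ⟨c, d, hcd⟩ := ha
  have key : ∀ n : ℕ, ∃ y' : H, y = (1 - z) ^ n • y' ∧ ((a : B) + (1 - z) * X) • y' = 0 := by
    intro n
    induction n with
    | zero => exact ⟨y, by simp, h⟩
    | succ n ih =>
      obtain ⟨y', h1, h2⟩ := ih
      have h3 : ((c : B) * (a : B) + (d : B) * (ℓ : B)) = 1 := by
        exact_mod_cast congrArg (fun q : ℤ => (q : B)) hcd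
      have h4 : y' = (1 - z) • ((-(c : B) * X + d * v) • y') := by
        have h5 : (1 - z) * (-(c : B) * X + d * v) = 1 - (c : B) * ((a : B) + (1 - z) * X) := by
          linear_combination (d : B) * hv + h3
        rw [← mul_smul, h5, sub_smul, one_smul, mul_smul, h2, smul_zero, sub_zero]
      refine ⟨(-(c : B) * X + d * v) • y', ?_, ?_⟩
      · rw [pow_succ, mul_smul, ← h4]
        exact h1
      · rw [← mul_smul, mul_comm, mul_smul, h2, smul_zero]
  refine hsep y fun n => ?_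
  obtain ⟨y', h1, -⟩ := key n
  exact ⟨y', h1⟩

private lemma A01_inj_l (hℓ : ℓ.Prime) (hz : ∑ i ∈ Finset.range ℓ, z ^ i = 0)
    (hinj : ∀ x : H, (1 - z) • x = 0 → x = 0) (x : H) (h : (ℓ : B) • x = 0) : x = 0 := by
  obtain ⟨v, w, -, hw⟩ := exists_pi_identity (B := B) hℓ z hz
  refine A01_inj_pow hinj (ℓ - 1) x ?_
  rw [hw, mul_comm, mul_smul, h, smul_zero]

private lemma A01_inj_l_pow (hℓ : ℓ.Prime) (hz : ∑ i ∈ Finset.range ℓ, z ^ i = 0)
    (hinj : ∀ x : H, (1 - z) • x = 0 → x = 0) (s : ℕ) (x : H) (h : (ℓ : B) ^ s • x = 0) :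
    x = 0 := by
  induction s with
  | zero => simpa using h
  | succ n ih =>
    rw [pow_succ', mul_smul] at h
    exact ih (A01_inj_l hℓ hz hinj _ h)

private lemma A01_pow_l (hℓ : ℓ.Prime) (hz : ∑ i ∈ Finset.range ℓ, z ^ i = 0) (Y : B) :
    ∃ X : B, (1 + (1 - z) ^ 2 * Y) ^ ℓ = 1 + ℓ * ((1 - z) ^ 2 * Y) * (1 + (1 - z) * X) := by
  obtain ⟨v, w, -, hw⟩ := exists_pi_identity (B := B) hℓ z hz
  obtain ⟨R, hR⟩ := A01_bin hℓ ((1 - z) ^ 2 * Y)
  obtain ⟨m, hm⟩ : ∃ m, ℓ = m + 2 := ⟨ℓ - 2, by have := hℓ.two_le; omega⟩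
  have h1 : ((1 - z) ^ 2 * Y) ^ ℓ = ℓ * ((1 - z) ^ 2 * Y) *
      ((1 - z) * ((-1 + (1 - z) * w) * (1 - z) ^ m * Y ^ (ℓ - 1))) := by
    have h2 : ((1 - z) ^ 2 * Y) ^ ℓ = ((1 - z) ^ 2 * Y) * ((1 - z) ^ (ℓ - 1) *
        (1 - z) ^ (ℓ - 1) * Y ^ (ℓ - 1)) := by
      obtain ⟨k, hk⟩ : ∃ k, ℓ = k + 1 := ⟨ℓ - 1, by have := hℓ.one_le; omega⟩
      rw [hk]
      simp only [Nat.add_sub_cancel]
      rw [pow_succ', mul_pow, ← pow_mul]
      ring
    have h3 : (1 - z) ^ (ℓ - 1) * (1 - z) ^ (ℓ - 1) =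
        (ℓ * (-1 + (1 - z) * w)) * ((1 - z) * (1 - z) ^ m) := by
      nth_rewrite 1 [hw]
      congr 1
      rw [← pow_succ']
      congr 1
      omega
    rw [h2, h3]
    ring
  refine ⟨(1 - z) * Y * R + (-1 + (1 - z) * w) * (1 - z) ^ m * Y ^ (ℓ - 1), ?_⟩
  rw [hR, h1]
  ring

private lemma A01_pow_ls (hℓ : ℓ.Prime) (hz : ∑ i ∈ Finset.range ℓ, z ^ i = 0) (Y : B) (s : ℕ) :
    ∃ X : B, (1 + (1 - z) ^ 2 * Y) ^ (ℓ ^ s) =
      1 + (1 - z) ^ 2 * ((ℓ : B) ^ s * Y * (1 + (1 - z) * X)) := by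
  induction s with
  | zero => exact ⟨0, by simp⟩
  | succ s ih =>
    obtain ⟨X, hX⟩ := ih
    obtain ⟨X', hX'⟩ := A01_pow_l hℓ hz ((ℓ : B) ^ s * Y * (1 + (1 - z) * X))
    refine ⟨X + X' + (1 - z) * X * X', ?_⟩
    rw [show ℓ ^ (s + 1) = ℓ ^ s * ℓ from pow_succ _ _, pow_mul, hX, hX']
    ring

private lemma A01_pow_M (u : B) (M : ℕ) : ∃ R : B, (1 + u) ^ M = 1 + u * (M + u * R) := by
  induction M with
  | zero => exact ⟨0, by simp⟩
  | succ n ih =>
    obtain ⟨R, hR⟩ := ih
    refine ⟨R + n + u * R, ?_⟩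
    rw [pow_succ, hR]
    push_cast
    ring

private lemma A01_fix {W : B} {x : H} (h : W • x = x) (n : ℕ) : W ^ n • x = x := by
  induction n with
  | zero => simp
  | succ n ih => rw [pow_succ, mul_smul, h, ih]

end

lemma sq_case (hℓ : ℓ.Prime) (z : B) (hz : ∑ i ∈ Finset.range ℓ, z ^ i = 0)
    (hinj : ∀ x : H, (1 - z) • x = 0 → x = 0)
    (hsep : ∀ x : H, (∀ n : ℕ, ∃ y : H, x = (1 - z) ^ n • y) → x = 0)
    (Y : B) (x : H) (M : ℕ) (hM : 0 < M) (hx : (1 + (1 - z) ^ 2 * Y) ^ M • x = x) :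
    Y • x = 0 := by
  obtain ⟨s, M', hM', hMe⟩ := Nat.exists_eq_pow_mul_and_not_dvd hM.ne' ℓ hℓ.ne_one
  obtain ⟨X, hX⟩ := A01_pow_ls hℓ hz Y s
  obtain ⟨R, hR⟩ := A01_pow_M ((1 - z) ^ 2 * ((ℓ : B) ^ s * Y * (1 + (1 - z) * X))) M'
  have hcop : IsCoprime (M' : ℤ) (ℓ : ℤ) := by
    rw [Nat.isCoprime_iff_coprime]
    exact ((Nat.Prime.coprime_iff_not_dvd hℓ).2 hM').symm
  rw [hMe, pow_mul, hX, hR, add_smul, one_smul, add_eq_left] at hx
  have e : (1 - z) ^ 2 * ((ℓ : B) ^ s * Y * (1 + (1 - z) * X)) *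
      ((M' : B) + (1 - z) ^ 2 * ((ℓ : B) ^ s * Y * (1 + (1 - z) * X)) * R) =
      (1 - z) ^ 2 * ((ℓ : B) ^ s * ((((1 : ℤ) : B) + (1 - z) * X) * ((((M' : ℤ) : B) + (1 - z) *
        ((1 - z) * ((ℓ : B) ^ s * Y * (1 + (1 - z) * X)) * R)) * Y))) := by
    push_cast
    ring
  rw [e, mul_smul, mul_smul, mul_smul, mul_smul] at hx
  have h1 := A01_inj_pow hinj _ _ hx
  have h2 := A01_inj_l_pow hℓ hz hinj _ _ h1
  have h3 := A01_inj_unit hℓ hz hinj hsep 1 isCoprime_one_left _ _ h2
  exact A01_inj_unit hℓ hz hinj hsep _ hcop _ _ h3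

lemma fst_case (hℓ : ℓ.Prime) (z : B) (hz : ∑ i ∈ Finset.range ℓ, z ^ i = 0)
    (hinj : ∀ x : H, (1 - z) • x = 0 → x = 0)
    (hsep : ∀ x : H, (∀ n : ℕ, ∃ y : H, x = (1 - z) ^ n • y) → x = 0)
    (N : B) (x : H) (M : ℕ) (hM : 0 < M) (hx : (1 + (1 - z) * N) ^ M • x = x) :
    ∃ y : H, (N ^ ℓ - N) • x = (1 - z) • y := by
  obtain ⟨v, w, hv, hw⟩ := exists_pi_identity (B := B) hℓ z hz
  obtain ⟨R, hR⟩ := A01_bin hℓ ((1 - z) * N)
  have h1 : ((1 - z) * N) ^ ℓ = ℓ * ((1 - z) * ((-1 + (1 - z) * w) * N ^ ℓ)) := by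
    have h2 : (1 - z) ^ ℓ = (1 - z) * (1 - z) ^ (ℓ - 1) := by
      rw [← pow_succ', Nat.sub_add_cancel hℓ.one_le]
    rw [mul_pow, h2, hw]
    ring
  have hW : (1 + (1 - z) * N) ^ ℓ = 1 + (1 - z) ^ 2 * (v * (N - N ^ ℓ + (1 - z) *
      (N * N * R + w * N ^ ℓ))) := by
    have h3 : (1 + (1 - z) * N) ^ ℓ = 1 + (ℓ : B) * ((1 - z) * (N - N ^ ℓ + (1 - z) *
      (N * N * R + w * N ^ ℓ))) := by
      rw [hR, h1]
      ring
    rw [h3, ← hv]
    ring
  have hx' : (1 + (1 - z) ^ 2 * (v * (N - N ^ ℓ + (1 - z) *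
      (N * N * R + w * N ^ ℓ)))) ^ M • x = x := by
    rw [← hW, ← pow_mul, mul_comm ℓ M, pow_mul]
    exact A01_fix hx ℓ
  have h4 := sq_case hℓ z hz hinj hsep _ x M hM hx'
  have h5 : (N - N ^ ℓ + (1 - z) * (N * N * R + w * N ^ ℓ)) • x = 0 := by
    refine A01_inj_l hℓ hz hinj _ ?_
    rw [← hv, ← mul_smul, mul_assoc, mul_smul, h4, smul_zero]
  refine ⟨(N * N * R + w * N ^ ℓ) • x, ?_⟩
  rw [← mul_smul, ← sub_eq_zero, ← sub_smul]
  have e : N ^ ℓ - N - (1 - z) * (N * N * R + w * N ^ ℓ) =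
      -(N - N ^ ℓ + (1 - z) * (N * N * R + w * N ^ ℓ)) := by ring
  rw [e, neg_smul, h5, neg_zero]

end Pool.Agent.Lib.MP_89bcae_ag.Sup

end

section

/-!
ROW A02 (60-120 lines). Commuting endomorphisms `n` of a finite vector space over `ZMod ℓ` with
`n ^ ℓ = n` have a common eigenvector.

PROOF. Let `W` be a nonzero submodule stable under all the `n i`, with the smallest number of elements
(`V` is finite). For each `i`, the polynomial `X^ℓ - X = ∏_{c} (X - c)` over `ZMod ℓ` kills `n i`, so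
some `n i - c` is not injective on `W` (else the product would be injective and zero on `W ≠ 0`).
Its kernel in `W` is stable under all `n j` (they commute), nonzero, so equal to `W` by minimality:
`n i` is the scalar `c = a i` on `W`. Take any nonzero `x` in `W`.
-/

open Polynomial in
/-- the factorisation of `X^ℓ - X` -/
private lemma A02_prod (ℓ : ℕ) [Fact ℓ.Prime] :
    (∏ c : ZMod ℓ, (X - C c) : (ZMod ℓ)[X]) = X ^ ℓ - X := by
  have hℓ : 1 < ℓ := (Fact.out : ℓ.Prime).one_lt
  have hr := FiniteField.roots_X_pow_card_sub_X (ZMod ℓ)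
  rw [ZMod.card] at hr
  have hm : (X ^ ℓ - X : (ZMod ℓ)[X]).Monic :=
    monic_X_pow_sub (by rw [degree_X]; exact_mod_cast hℓ)
  have hd := FiniteField.X_pow_card_sub_X_natDegree_eq (ZMod ℓ) hℓ
  have hc : (X ^ ℓ - X : (ZMod ℓ)[X]).roots.card = (X ^ ℓ - X : (ZMod ℓ)[X]).natDegree := by
    rw [hr, hd]
    change (Finset.univ : Finset (ZMod ℓ)).card = ℓ
    rw [Finset.card_univ, ZMod.card]
  have h := prod_multiset_X_sub_C_of_monic_of_roots_card_eq hm hc
  rw [hr] at h
  exact h

namespace Pool.Agent.Lib.MP_89bcae_ag.Sup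

open Polynomial in
private lemma A02_eig {R V : Type*} [CommRing R] [AddCommGroup V] [Module R V]
    (f : V →ₗ[R] V) (W : Submodule R V) (hW : ∀ x ∈ W, f x ∈ W) (s : Finset R) :
    ∀ y ∈ W, y ≠ 0 → (aeval f (∏ c ∈ s, (X - C c : R[X]))) y = 0 →
      ∃ c : R, ∃ z ∈ W, z ≠ 0 ∧ f z = c • z := by
  classical
  induction s using Finset.induction_on with
  | empty =>
    intro y _ hy0 h
    exfalso
    rw [Finset.prod_empty, map_one] at h
    exact hy0 h
  | insert c s hc ih =>
    intro y hy hy0 h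
    rw [Finset.prod_insert hc, mul_comm, map_mul] at h
    have e : aeval f (X - C c : R[X]) y = f y - c • y := by
      rw [map_sub, aeval_X, aeval_C]
      rfl
    change aeval f (∏ c ∈ s, (X - C c : R[X])) (aeval f (X - C c : R[X]) y) = 0 at h
    rw [e] at h
    by_cases hz : f y - c • y = 0
    · exact ⟨c, y, hy, hy0, sub_eq_zero.1 hz⟩
    · exact ih _ (W.sub_mem (hW y hy) (W.smul_mem c hy)) hz h

lemma exists_common_eigenvector {ℓ : ℕ} [Fact ℓ.Prime] {V I : Type*} [AddCommGroup V]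
    [Module (ZMod ℓ) V] [Finite V] (n : I → V →ₗ[ZMod ℓ] V) (hcomm : ∀ i j, n i * n j = n j * n i)
    (hpow : ∀ i, n i ^ ℓ = n i) (hV : ∃ x : V, x ≠ 0) :
    ∃ x : V, x ≠ 0 ∧ ∃ a : I → ZMod ℓ, ∀ i, n i x = a i • x := by
  classical
  haveI : Finite (Submodule (ZMod ℓ) V) :=
    Finite.of_injective (fun W : Submodule (ZMod ℓ) V => (W : Set V)) SetLike.coe_injective
  set S : Set (Submodule (ZMod ℓ) V) := {W | (∃ x ∈ W, x ≠ 0) ∧ ∀ i, ∀ x ∈ W, n i x ∈ W} with hS
  have hSne : S.Nonempty := by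
    obtain ⟨x, hx⟩ := hV
    exact ⟨⊤, ⟨x, Submodule.mem_top, hx⟩, fun i x _ => Submodule.mem_top⟩
  obtain ⟨W, ⟨⟨x, hxW, hx0⟩, hWst⟩, hmin⟩ := (Set.toFinite S).exists_minimal hSne
  refine ⟨x, hx0, ?_⟩
  have key : ∀ i, ∃ c : ZMod ℓ, ∀ y ∈ W, n i y = c • y := by
    intro i
    have h0 : (Polynomial.aeval (n i) (∏ c : ZMod ℓ, (Polynomial.X - Polynomial.C c))) x = 0 := by
      rw [A02_prod, map_sub, map_pow, Polynomial.aeval_X, hpow i, sub_self]
      rfl
    obtain ⟨c, z, hzW, hz0, hz⟩ := A02_eig (n i) W (hWst i) Finset.univ x hxW hx0 h0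
    refine ⟨c, ?_⟩
    set W' : Submodule (ZMod ℓ) V := W ⊓ LinearMap.ker (n i - c • LinearMap.id) with hW'
    have hmem : ∀ y, y ∈ W' ↔ y ∈ W ∧ n i y = c • y := fun y => by
      rw [hW', Submodule.mem_inf, LinearMap.mem_ker]
      simp only [LinearMap.sub_apply, LinearMap.smul_apply, LinearMap.id_apply, sub_eq_zero]
    have hW'S : W' ∈ S := by
      refine ⟨⟨z, (hmem z).2 ⟨hzW, hz⟩, hz0⟩, fun j y hy => ?_⟩
      rw [hmem] at hy ⊢
      refine ⟨hWst j y hy.1, ?_⟩
      have e1 : n i (n j y) = n j (n i y) := by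
        have := LinearMap.congr_fun (hcomm i j) y
        exact this
      rw [e1, hy.2, map_smul]
    have hle : W ≤ W' := hmin hW'S inf_le_left
    intro y hy
    exact ((hmem y).1 (hle hy)).2
  choose a ha using key
  exact ⟨a, fun i => ha i x hxW⟩

end Pool.Agent.Lib.MP_89bcae_ag.Sup

end

section

/-!
# Counting with quadratic characters; missed values of a cubic polynomial
-/

namespace Pool.Agent.Lib.MP_89bcae_ag.Count14

open Polynomial Finset

section char

variable {k L F : Type*} [Field k] [Field L] [Field F] [Algebra k L] [Algebra L F] [Algebra k F]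
  [IsScalarTower k L F]

omit [Field k] [Algebra k L] [Algebra k F] [IsScalarTower k L F] in
theorem not_const_sq {H : L[X]} {v : F} (hodd : Odd ((H.map (algebraMap L F)).rootMultiplicity v)) :
    ¬ ∃ (c : L) (g : L[X]), H = C c * g ^ 2 := by
  rintro ⟨c, g, rfl⟩
  rcases eq_or_ne (C c * g ^ 2) 0 with h0 | h0
  · rw [h0] at hodd
    simp at hodd
  · have h1 : (C c * g ^ 2).map (algebraMap L F) ≠ 0 :=
      (Polynomial.map_ne_zero_iff (algebraMap L F).injective).2 h0
    rw [Polynomial.map_mul, map_C, Polynomial.map_pow] at h1 hodd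
    rw [rootMultiplicity_mul h1, rootMultiplicity_C, zero_add, sq, rootMultiplicity_mul (by
      have := right_ne_zero_of_mul h1
      rwa [sq] at this)] at hodd
    exact (Nat.not_even_iff_odd.2 hodd) ⟨_, rfl⟩

theorem prod_not_const_sq {h : ℕ → k[X]} {v : ℕ → F} {J : Finset ℕ} (hJ : J.Nonempty)
    (h0 : ∀ i ∈ J, h i ≠ 0)
    (hv : ∀ i ∈ J, Odd (((h i).map (algebraMap k F)).rootMultiplicity (v i)))
    (hvj : ∀ i ∈ J, ∀ j ∈ J, j < i → ¬ ((h j).map (algebraMap k F)).IsRoot (v i)) :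
    ¬ ∃ (c : L) (g : L[X]), (∏ i ∈ J, h i).map (algebraMap k L) = C c * g ^ 2 := by
  set i := J.max' hJ with hi
  have hiJ : i ∈ J := J.max'_mem hJ
  apply not_const_sq (F := F) (v := v i)
  rw [Polynomial.map_map, ← IsScalarTower.algebraMap_eq, ← mul_prod_erase J h hiJ,
    Polynomial.map_mul]
  have hne : ∏ j ∈ J.erase i, h j ≠ 0 := prod_ne_zero_iff.2 fun j hj => h0 j (mem_of_mem_erase hj)
  have hne' : (h i).map (algebraMap k F) * (∏ j ∈ J.erase i, h j).map (algebraMap k F) ≠ 0 :=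
    mul_ne_zero ((Polynomial.map_ne_zero_iff (algebraMap k F).injective).2 (h0 i hiJ))
      ((Polynomial.map_ne_zero_iff (algebraMap k F).injective).2 hne)
  rw [rootMultiplicity_mul hne']
  have h2 : ((∏ j ∈ J.erase i, h j).map (algebraMap k F)).rootMultiplicity (v i) = 0 := by
    apply rootMultiplicity_eq_zero
    rw [Polynomial.map_prod, IsRoot.def, eval_prod]
    apply prod_ne_zero_iff.2
    intro j hj
    have hj' := mem_of_mem_erase hj
    exact hvj i hiJ j hj' (lt_of_le_of_ne (J.le_max' j hj') (ne_of_mem_erase hj))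
  rw [h2, add_zero]
  exact hv i hiJ

/-- Counting: the number of `α ∈ L` for which all `h i (α)`, `i ∈ S`, are squares. -/
theorem count_squares [Fintype L] {p : ℕ} [Fact p.Prime] [CharP L p] (hp2 : p ≠ 2)
    {m n : ℕ} (hmn : m ≤ n) (hcard : Fintype.card L = p ^ m * p ^ n)
    {h : ℕ → k[X]} {v : ℕ → F} {S : Finset ℕ}
    (h0 : ∀ i ∈ S, h i ≠ 0)
    (hv : ∀ i ∈ S, Odd (((h i).map (algebraMap k F)).rootMultiplicity (v i)))
    (hvj : ∀ i ∈ S, ∀ j ∈ S, j < i → ¬ ((h j).map (algebraMap k F)).IsRoot (v i))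
    {A : Finset L} (hA : ∀ α ∈ A, ∀ i ∈ S, IsSquare (aeval α (h i))) :
    2 ^ S.card * A.card ≤ Fintype.card L +
      2 ^ S.card * (4 * ((∑ i ∈ S, (h i).natDegree) + 1) * p ^ n + ∑ i ∈ S, (h i).natDegree) := by
  classical
  set Dg := ∑ i ∈ S, (h i).natDegree with hDg
  -- the part of `A` where all values are nonzero
  obtain ⟨P, hP⟩ : ∃ P : L → Prop, ∀ α, P α ↔ ∀ i ∈ S, aeval α (h i) ≠ 0 :=
    ⟨fun α => ∀ i ∈ S, aeval α (h i) ≠ 0, fun _ => Iff.rfl⟩
  set A₀ := A.filter P with hA₀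
  have hAA : A.card ≤ A₀.card + Dg := by
    have h1 : A ⊆ A₀ ∪ S.biUnion fun i => (univ.filter fun α : L => aeval α (h i) = 0) := by
      intro α hα
      by_cases hz : ∀ i ∈ S, aeval α (h i) ≠ 0
      · exact mem_union_left _ (mem_filter.2 ⟨hα, (hP α).2 hz⟩)
      · push Not at hz
        obtain ⟨i, hi, hz⟩ := hz
        exact mem_union_right _ (mem_biUnion.2 ⟨i, hi, mem_filter.2 ⟨mem_univ _, hz⟩⟩)
    refine (card_le_card h1).trans ((card_union_le _ _).trans (Nat.add_le_add_left ?_ _))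
    refine card_biUnion_le.trans (sum_le_sum fun i hi => ?_)
    have h2 : ((h i).map (algebraMap k L)).natDegree = (h i).natDegree := natDegree_map _
    rw [← h2]
    apply card_le_degree_of_subset_roots
    intro α hα
    rw [mem_val, mem_filter] at hα
    rw [mem_roots ((Polynomial.map_ne_zero_iff (algebraMap k L).injective).2 (h0 i hi)), IsRoot.def,
      eval_map_algebraMap]
    exact hα.2
  have hprod : (2 : ℤ) ^ S.card * A₀.card ≤
      ∑ α : L, ∏ i ∈ S, (1 + quadraticChar L (aeval α (h i))) := by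
    have h1 : ∀ α : L, (0 : ℤ) ≤ ∏ i ∈ S, (1 + quadraticChar L (aeval α (h i))) := by
      intro α
      apply prod_nonneg
      intro i _
      rcases eq_or_ne (aeval α (h i)) 0 with h | h
      · rw [h]; simp
      · rcases quadraticChar_dichotomy h with h' | h' <;> rw [h'] <;> norm_num
    calc (2 : ℤ) ^ S.card * A₀.card = ∑ α ∈ A₀, (2 : ℤ) ^ S.card := by
          rw [sum_const, nsmul_eq_mul, mul_comm]
      _ = ∑ α ∈ A₀, ∏ i ∈ S, (1 + quadraticChar L (aeval α (h i))) := by
          refine sum_congr rfl fun α hα => ?_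
          rw [← prod_const]
          refine prod_congr rfl fun i hi => ?_
          rw [mem_filter, hP] at hα
          rw [(quadraticChar_one_iff_isSquare (hα.2 i hi)).2 (hA α hα.1 i hi)]
          norm_num
      _ ≤ _ := sum_le_sum_of_subset_of_nonneg (subset_univ _) fun α _ _ => h1 α
  have hexp : ∑ α : L, ∏ i ∈ S, (1 + quadraticChar L (aeval α (h i))) =
      ∑ J ∈ S.powerset, ∑ α : L, quadraticChar L
        (((∏ i ∈ J, h i).map (algebraMap k L)).eval α) := by
    rw [sum_comm]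
    refine sum_congr rfl fun α _ => ?_
    rw [prod_one_add]
    refine sum_congr rfl fun J _ => ?_
    rw [← map_prod, Polynomial.map_prod, eval_prod]
    simp only [eval_map_algebraMap]
  have hbound : ∀ J ∈ S.powerset, J.Nonempty → ∑ α : L, quadraticChar L
        (((∏ i ∈ J, h i).map (algebraMap k L)).eval α) ≤ (4 * (Dg + 1) * p ^ n : ℕ) := by
    intro J hJS hJ
    rw [mem_powerset] at hJS
    have h1 := Stepanov14.char_sum_pn hp2 hmn hcard
      (prod_not_const_sq (L := L) (h := h) (v := v) hJ (fun i hi => h0 i (hJS hi))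
        (fun i hi => hv i (hJS hi)) (fun i hi j hj => hvj i (hJS hi) j (hJS hj)))
    have h2 : ((∏ i ∈ J, h i).map (algebraMap k L)).natDegree ≤ Dg := by
      rw [natDegree_map]
      refine (natDegree_prod_le _ _).trans ?_
      exact sum_le_sum_of_subset hJS
    refine (le_abs_self _).trans (h1.trans ?_)
    push_cast
    gcongr
  have htot : ∑ J ∈ S.powerset, ∑ α : L, quadraticChar L
        (((∏ i ∈ J, h i).map (algebraMap k L)).eval α) ≤
      Fintype.card L + 2 ^ S.card * (4 * (Dg + 1) * p ^ n : ℕ) := by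
    rw [← sum_erase_add _ _ (empty_mem_powerset S), add_comm]
    apply add_le_add
    · simp
    · refine (sum_le_sum (g := fun _ => ((4 * (Dg + 1) * p ^ n : ℕ) : ℤ)) ?_).trans ?_
      · intro J hJ
        rw [mem_erase] at hJ
        exact hbound J hJ.2 (nonempty_iff_ne_empty.2 hJ.1)
      · rw [sum_const, nsmul_eq_mul]
        apply mul_le_mul_of_nonneg_right _ (by positivity)
        have : (S.powerset.erase ∅).card ≤ 2 ^ S.card := by
          rw [← card_powerset]
          exact card_le_card (erase_subset _ _)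
        exact_mod_cast this
  have hfin : (2 : ℤ) ^ S.card * A₀.card ≤
      Fintype.card L + 2 ^ S.card * (4 * (Dg + 1) * p ^ n : ℕ) :=
    hprod.trans (hexp.trans_le htot)
  have hfin' : 2 ^ S.card * A₀.card ≤ Fintype.card L + 2 ^ S.card * (4 * (Dg + 1) * p ^ n) := by
    exact_mod_cast hfin
  calc 2 ^ S.card * A.card ≤ 2 ^ S.card * (A₀.card + Dg) := Nat.mul_le_mul_left _ hAA
    _ = 2 ^ S.card * A₀.card + 2 ^ S.card * Dg := by ring
    _ ≤ Fintype.card L + 2 ^ S.card * (4 * (Dg + 1) * p ^ n) + 2 ^ S.card * Dg :=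
        Nat.add_le_add_right hfin' _
    _ = _ := by ring

end char

section cubic

variable {K : Type*} [Field K] [Fintype K] [DecidableEq K]

/-- A cubic polynomial function with one collision has many collisions. -/
theorem collisions (h2 : (2 : K) ≠ 0) (a b c : K) {x₀ y₀ : K} (hne : x₀ ≠ y₀)
    (hcol : x₀ ^ 3 + a * x₀ ^ 2 + b * x₀ + c = y₀ ^ 3 + a * y₀ ^ 2 + b * y₀ + c) :
    Fintype.card K ≤ (univ.filter fun z : K × K => z.1 ≠ z.2 ∧
      z.1 ^ 3 + a * z.1 ^ 2 + b * z.1 + c = z.2 ^ 3 + a * z.2 ^ 2 + b * z.2 + c).card + 5 := by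
  set s := x₀ + y₀ with hs
  set u := x₀ - y₀ with hu
  have hu0 : u ≠ 0 := sub_ne_zero.2 hne
  have hconic : u ^ 2 + 3 * s ^ 2 + 4 * a * s + 4 * b = 0 := by
    have h1 : u * (u ^ 2 + 3 * s ^ 2 + 4 * a * s + 4 * b) = 0 := by
      rw [hs, hu]
      linear_combination 4 * hcol
    exact (mul_eq_zero.1 h1).resolve_left hu0
  -- the bad slopes
  set P : K[X] := (X ^ 2 + C 3) * (C (2 * u) * X + C (6 * s + 4 * a)) *
    (C u * X ^ 2 + C (6 * s + 4 * a) * X - C (3 * u)) with hP
  have hP1 : (X ^ 2 + C 3 : K[X]).natDegree = 2 := by compute_degree!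
  have hP1' : (X ^ 2 + C 3 : K[X]) ≠ 0 := by
    intro h; rw [h] at hP1; simp at hP1
  have h2u : 2 * u ≠ 0 := mul_ne_zero h2 hu0
  have hP2 : (C (2 * u) * X + C (6 * s + 4 * a) : K[X]).natDegree = 1 := by compute_degree!
  have hP2' : (C (2 * u) * X + C (6 * s + 4 * a) : K[X]) ≠ 0 := by
    intro h; rw [h] at hP2; simp at hP2
  have hP3 : (C u * X ^ 2 + C (6 * s + 4 * a) * X - C (3 * u) : K[X]).natDegree = 2 := by
    compute_degree!
  have hP3' : (C u * X ^ 2 + C (6 * s + 4 * a) * X - C (3 * u) : K[X]) ≠ 0 := by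
    intro h; rw [h] at hP3; simp at hP3
  have hP0 : P ≠ 0 := mul_ne_zero (mul_ne_zero hP1' hP2') hP3'
  have hPdeg : P.natDegree = 5 := by
    rw [hP, natDegree_mul (mul_ne_zero hP1' hP2') hP3', natDegree_mul hP1' hP2', hP1, hP2, hP3]
  have hroots : (univ.filter fun l : K => P.eval l = 0).card ≤ 5 := by
    rw [← hPdeg]
    apply card_le_degree_of_subset_roots
    intro l hl
    rw [mem_val, mem_filter] at hl
    rw [mem_roots hP0]
    exact hl.2
  have htot : Fintype.card K = (univ.filter fun l : K => P.eval l ≠ 0).card +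
      (univ.filter fun l : K => P.eval l = 0).card := by
    have := card_filter_add_card_filter_not (s := (univ : Finset K)) (fun l : K => P.eval l ≠ 0)
    simp only [not_not] at this
    rw [this, card_univ]
  rw [htot]
  refine Nat.add_le_add ?_ hroots
  -- the map `l ↦` second intersection point
  set δ : K → K := fun l => -(2 * l * u + 6 * s + 4 * a) / (l ^ 2 + 3) with hδ
  refine card_le_card_of_injOn
    (fun l => ((s + δ l + (u + l * δ l)) / 2, (s + δ l - (u + l * δ l)) / 2)) ?_ ?_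
  · intro l hl
    have hl' : P.eval l ≠ 0 := by simpa using hl
    have hev : P.eval l = (l ^ 2 + 3) * (2 * u * l + (6 * s + 4 * a)) *
        (u * l ^ 2 + (6 * s + 4 * a) * l - 3 * u) := by
      rw [hP]
      simp only [eval_mul, eval_add, eval_sub, eval_pow, eval_X, eval_C]
    rw [hev] at hl'
    have hl1 : l ^ 2 + 3 ≠ 0 := left_ne_zero_of_mul (left_ne_zero_of_mul hl')
    have hl3 : u * l ^ 2 + (6 * s + 4 * a) * l - 3 * u ≠ 0 := right_ne_zero_of_mul hl'
    have hδl : δ l * (l ^ 2 + 3) = -(2 * l * u + 6 * s + 4 * a) := by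
      rw [hδ]
      exact div_mul_cancel₀ _ hl1
    have hul : u + l * δ l ≠ 0 := by
      intro h0
      apply hl3
      have : (u + l * δ l) * (l ^ 2 + 3) = 0 := by rw [h0, zero_mul]
      linear_combination (-1 : K) * this + l * hδl
    have hcon : (u + l * δ l) ^ 2 + 3 * (s + δ l) ^ 2 + 4 * a * (s + δ l) + 4 * b = 0 := by
      linear_combination hconic + δ l * hδl
    simp only [coe_filter, mem_univ, true_and, Set.mem_ofPred_eq]
    refine ⟨?_, ?_⟩
    · intro h
      apply hul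
      have h3 : (2 : K) * ((s + δ l + (u + l * δ l)) / 2) = 2 * ((s + δ l - (u + l * δ l)) / 2) := by
        rw [h]
      rw [mul_div_cancel₀ _ h2, mul_div_cancel₀ _ h2] at h3
      have h4 : (2 : K) * (u + l * δ l) = 0 := by linear_combination h3
      exact (mul_eq_zero.1 h4).resolve_left h2
    · set x := (s + δ l + (u + l * δ l)) / 2 with hx
      set y := (s + δ l - (u + l * δ l)) / 2 with hy
      have e1 : u + l * δ l = x - y := by
        rw [hx, hy]
        field_simp
        ring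
      have e2 : s + δ l = x + y := by
        rw [hx, hy]
        field_simp
        ring
      rw [e1, e2] at hcon
      have h4 : (4 : K) ≠ 0 := by
        have : (4 : K) = 2 * 2 := by norm_num
        rw [this]; exact mul_ne_zero h2 h2
      have h5 : (4 : K) * ((x ^ 3 + a * x ^ 2 + b * x + c) - (y ^ 3 + a * y ^ 2 + b * y + c)) = 0 := by
        linear_combination (x - y) * hcon
      exact sub_eq_zero.1 ((mul_eq_zero.1 h5).resolve_left h4)
  · intro l hl l' hl' heq
    have hl0 : P.eval l ≠ 0 := by simpa using hl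
    have hl0' : P.eval l' ≠ 0 := by simpa using hl'
    have hev : ∀ l, P.eval l = (l ^ 2 + 3) * (2 * u * l + (6 * s + 4 * a)) *
        (u * l ^ 2 + (6 * s + 4 * a) * l - 3 * u) := by
      intro l
      rw [hP]
      simp only [eval_mul, eval_add, eval_sub, eval_pow, eval_X, eval_C]
    rw [hev] at hl0
    have hl1 : l ^ 2 + 3 ≠ 0 := left_ne_zero_of_mul (left_ne_zero_of_mul hl0)
    have hl2 : 2 * u * l + (6 * s + 4 * a) ≠ 0 := right_ne_zero_of_mul (left_ne_zero_of_mul hl0)
    have hδ0 : δ l ≠ 0 := by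
      rw [hδ]
      apply div_ne_zero _ hl1
      rw [neg_ne_zero]
      intro h; apply hl2; linear_combination h
    simp only [Prod.mk.injEq] at heq
    obtain ⟨e1, e2⟩ := heq
    have e3 : (s + δ l + (u + l * δ l)) = (s + δ l' + (u + l' * δ l')) := by
      have := congrArg (fun z => z * 2) e1
      simpa only [div_mul_cancel₀ _ h2] using this
    have e4 : (s + δ l - (u + l * δ l)) = (s + δ l' - (u + l' * δ l')) := by
      have := congrArg (fun z => z * 2) e2
      simpa only [div_mul_cancel₀ _ h2] using this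
    have e5 : δ l = δ l' := by
      have : (2 : K) * (δ l - δ l') = 0 := by linear_combination e3 + e4
      exact sub_eq_zero.1 ((mul_eq_zero.1 this).resolve_left h2)
    have e6 : l * δ l = l' * δ l := by
      have : (2 : K) * (l * δ l - l' * δ l') = 0 := by linear_combination e3 - e4
      have h7 := sub_eq_zero.1 ((mul_eq_zero.1 this).resolve_left h2)
      rw [← e5] at h7
      exact h7
    exact mul_right_cancel₀ hδ0 e6

/-- A cubic polynomial function with one collision misses about one third of the values. -/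
theorem missed (h2 : (2 : K) ≠ 0) (a b c : K) {x₀ y₀ : K} (hne : x₀ ≠ y₀)
    (hcol : x₀ ^ 3 + a * x₀ ^ 2 + b * x₀ + c = y₀ ^ 3 + a * y₀ ^ 2 + b * y₀ + c) :
    Fintype.card K ≤ 3 * (univ.filter fun v : K =>
      ∀ x : K, x ^ 3 + a * x ^ 2 + b * x + c ≠ v).card + 5 := by
  have hc := collisions h2 a b c hne hcol
  set G : K → K := fun x => x ^ 3 + a * x ^ 2 + b * x + c with hG
  set ν : K → ℤ := fun v => ((univ.filter fun x : K => G x = v).card : ℤ) with hν
  have hν3 : ∀ v, ν v ≤ 3 := by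
    intro v
    have h3 : (X ^ 3 + C a * X ^ 2 + C b * X + C (c - v) : K[X]).natDegree = 3 := by
      compute_degree!
    have h0 : (X ^ 3 + C a * X ^ 2 + C b * X + C (c - v) : K[X]) ≠ 0 := by
      intro h; rw [h] at h3; simp at h3
    have : (univ.filter fun x : K => G x = v).card ≤ 3 := by
      rw [← h3]
      apply card_le_degree_of_subset_roots
      intro x hx
      rw [mem_val, mem_filter] at hx
      rw [mem_roots h0, IsRoot.def]
      simp only [eval_add, eval_mul, eval_pow, eval_X, eval_C]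
      have := hx.2
      rw [hG] at this
      linear_combination this
    show ((univ.filter fun x : K => G x = v).card : ℤ) ≤ 3
    exact_mod_cast this
  have hpt : ∀ v, ν v * ν v - 4 * ν v + 3 ≤ 3 * (if ∀ x : K, G x ≠ v then 1 else 0) := by
    intro v
    have h0 : 0 ≤ ν v := by positivity
    have h3 := hν3 v
    split_ifs with h
    · have : ν v = 0 := by
        rw [hν]
        simp only [Nat.cast_eq_zero, card_eq_zero]
        exact filter_eq_empty_iff.2 fun x _ => h x
      rw [this]; norm_num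
    · push Not at h
      obtain ⟨x, hx⟩ := h
      have : 1 ≤ ν v := by
        rw [hν]
        have : 0 < (univ.filter fun x : K => G x = v).card :=
          card_pos.2 ⟨x, mem_filter.2 ⟨mem_univ _, hx⟩⟩
        simp only
        omega
      nlinarith
  have hsum1 : ∑ v, ν v = Fintype.card K := by
    have := card_eq_sum_card_fiberwise (f := G) (s := (univ : Finset K)) (t := univ)
      (fun x _ => mem_coe.2 (mem_univ _))
    rw [card_univ] at this
    rw [this]
    push_cast
    rfl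
  have hsum2 : ∑ v, ν v * ν v = ((univ.filter fun z : K × K => z.1 ≠ z.2 ∧
      G z.1 = G z.2).card : ℤ) + Fintype.card K := by
    have e1 : ∀ v, ν v * ν v = ∑ x : K, ∑ y : K, if G x = v then (if G y = v then 1 else 0) else 0 := by
      intro v
      rw [hν]
      simp only [card_filter]
      push_cast
      rw [sum_mul_sum]
      refine sum_congr rfl fun x _ => sum_congr rfl fun y _ => ?_
      split_ifs <;> simp
    rw [sum_congr rfl fun v _ => e1 v, sum_comm]
    have e2 : ∀ x : K, ∑ v : K, ∑ y : K, (if G x = v then (if G y = v then 1 else 0) else 0 : ℤ) =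
        ∑ y : K, ((if x ≠ y ∧ G x = G y then 1 else 0) + (if x = y then 1 else 0)) := by
      intro x
      rw [sum_comm]
      refine sum_congr rfl fun y _ => ?_
      rw [sum_ite_eq]
      simp only [mem_univ, if_true]
      by_cases hxy : x = y
      · subst hxy; simp
      · simp [hxy, eq_comm]
    rw [sum_congr rfl fun x _ => e2 x]
    simp only [sum_add_distrib]
    congr 1
    · rw [card_filter, ← univ_product_univ, sum_product]
      push_cast
      rfl
    · simp
  have hmain : ∑ v, (ν v * ν v - 4 * ν v + 3) ≤ 3 * ((univ.filter fun v : K =>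
      ∀ x : K, G x ≠ v).card : ℤ) := by
    rw [card_filter]
    push_cast
    rw [mul_sum]
    exact sum_le_sum fun v _ => hpt v
  rw [sum_add_distrib, sum_sub_distrib, ← mul_sum, hsum1, hsum2, sum_const, nsmul_eq_mul,
    card_univ] at hmain
  have hc' : (Fintype.card K : ℤ) ≤ ((univ.filter fun z : K × K => z.1 ≠ z.2 ∧
      G z.1 = G z.2).card : ℤ) + 5 := by exact_mod_cast hc
  have : (Fintype.card K : ℤ) ≤ 3 * ((univ.filter fun v : K =>
      ∀ x : K, G x ≠ v).card : ℤ) + 5 := by linarith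
  exact_mod_cast this

end cubic

end Pool.Agent.Lib.MP_89bcae_ag.Count14

end

section

/-!
# The polynomials `H_i` and their special roots
-/

namespace Pool.Agent.Lib.MP_89bcae_ag.Frob14

open Polynomial Finset

variable (k F : Type*) [Field k] [Fintype k] [Field F] [Algebra k F]

/-- the elements with `x ^ (q ^ i) = x`, `q = |k|` -/
noncomputable def fixS (i : ℕ) : Finset F := by
  classical
  exact (X ^ (Fintype.card k ^ i) - X : F[X]).roots.toFinset

variable {k F}

theorem one_lt_q_pow {i : ℕ} (hi : 0 < i) : 1 < Fintype.card k ^ i :=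
  Nat.one_lt_pow (by omega) Fintype.one_lt_card

omit [Algebra k F] in
theorem mem_fixS {i : ℕ} (hi : 0 < i) {x : F} : x ∈ fixS k F i ↔ x ^ (Fintype.card k ^ i) = x := by
  classical
  rw [fixS, Multiset.mem_toFinset, mem_roots (FiniteField.X_pow_card_sub_X_ne_zero F
    (one_lt_q_pow hi)), IsRoot.def, eval_sub, eval_pow, eval_X, sub_eq_zero]

theorem card_fixS [IsAlgClosed F] {i : ℕ} (hi : 0 < i) :
    (fixS k F i).card = Fintype.card k ^ i := by
  classical
  have hsep : (X ^ (Fintype.card k ^ i) - X : F[X]).Separable := by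
    obtain ⟨p, hp⟩ := CharP.exists k
    have : Fact p.Prime := ⟨CharP.char_is_prime k p⟩
    have : CharP F p := charP_of_injective_algebraMap (algebraMap k F).injective p
    apply galois_poly_separable p
    obtain ⟨n, hn, hq⟩ := FiniteField.card k p
    rw [hq]
    exact dvd_pow (dvd_pow_self p n.2.ne') hi.ne'
  rw [fixS, Multiset.toFinset_card_of_nodup (nodup_roots hsep),
    ← (IsAlgClosed.splits _).natDegree_eq_card_roots,
    FiniteField.X_pow_card_sub_X_natDegree_eq F (one_lt_q_pow hi)]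

omit [Field k] [Algebra k F] in
theorem frob_iterate (i : ℕ) (x : F) :
    (fun y : F => y ^ Fintype.card k)^[i] x = x ^ (Fintype.card k ^ i) := by
  rw [pow_iterate]

/-- the Frobenius map is injective -/
theorem frob_injective : Function.Injective (fun y : F => y ^ Fintype.card k) := by
  intro a b h
  apply (FiniteField.frobeniusAlgHom k F : F →+* F).injective
  simpa using h

theorem mem_range_of_pow_eq {x : F} (hx : x ^ Fintype.card k = x) :
    x ∈ (algebraMap k F).range := by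
  classical
  -- the image of `k` has `q` elements, all roots of `X ^ q - X`
  have h0 : (X ^ (Fintype.card k) - X : F[X]) ≠ 0 :=
    FiniteField.X_pow_card_sub_X_ne_zero F Fintype.one_lt_card
  have hsub : (univ.image (algebraMap k F)) ⊆ (X ^ (Fintype.card k) - X : F[X]).roots.toFinset := by
    intro y hy
    rw [mem_image] at hy
    obtain ⟨c, _, rfl⟩ := hy
    rw [Multiset.mem_toFinset, mem_roots h0, IsRoot.def, eval_sub, eval_pow, eval_X, ← map_pow,
      FiniteField.pow_card, sub_self]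
  have hcard : (X ^ (Fintype.card k) - X : F[X]).roots.toFinset.card ≤
      (univ.image (algebraMap k F)).card := by
    rw [card_image_of_injective _ (algebraMap k F).injective, card_univ]
    refine (Multiset.toFinset_card_le _).trans ((card_roots' _).trans ?_)
    rw [FiniteField.X_pow_card_sub_X_natDegree_eq F Fintype.one_lt_card]
  have heq := eq_of_subset_of_card_le hsub hcard
  have : x ∈ (X ^ (Fintype.card k) - X : F[X]).roots.toFinset := by
    rw [Multiset.mem_toFinset, mem_roots h0, IsRoot.def, eval_sub, eval_pow, eval_X, hx, sub_self]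
  rw [← heq, mem_image] at this
  obtain ⟨c, _, rfl⟩ := this
  exact ⟨c, rfl⟩

theorem aeval_pow_q (g : k[X]) (x : F) (i : ℕ) :
    aeval (x ^ (Fintype.card k ^ i)) g = (aeval x g) ^ (Fintype.card k ^ i) := by
  induction i with
  | zero => simp
  | succ i ih =>
    rw [pow_succ, pow_mul, pow_mul, ← ih]
    have := FiniteField.frobeniusAlgHom k F
    have h1 := (aeval_algHom_apply (FiniteField.frobeniusAlgHom k F)
      (x ^ (Fintype.card k ^ i)) g)
    simpa using h1

/-- the polynomial `∏ (X - g(c)) (X - c)` over the `c` with `c ^ (q ^ i) = c` -/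
noncomputable def HF (F : Type*) [Field F] [Algebra k F] (g : k[X]) (i : ℕ) : F[X] :=
  ∏ c ∈ fixS k F i, ((X - C (aeval c g)) * (X - C c))

theorem HF_map_frob (g : k[X]) {i : ℕ} (hi : 0 < i) :
    (HF F g i).map (FiniteField.frobeniusAlgHom k F : F →+* F) = HF F g i := by
  classical
  unfold HF
  rw [Polynomial.map_prod]
  refine prod_bij (fun c _ => c ^ Fintype.card k) ?_ ?_ ?_ ?_
  · intro c hc
    rw [mem_fixS hi] at hc ⊢
    rw [← pow_mul, mul_comm, pow_mul, hc]
  · intro c _ c' _ h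
    exact frob_injective (k := k) h
  · -- surjective: injective self map of a finite set
    intro c hc
    have hinj : Set.InjOn (fun y : F => y ^ Fintype.card k) (fixS k F i : Set F) :=
      (frob_injective (k := k)).injOn
    have hmaps : Set.MapsTo (fun y : F => y ^ Fintype.card k) (fixS k F i : Set F) (fixS k F i) := by
      intro y hy
      rw [mem_coe, mem_fixS hi] at hy ⊢
      simp only
      rw [← pow_mul, mul_comm, pow_mul, hy]
    obtain ⟨y, hy, hyc⟩ := (Finset.surjOn_of_injOn_of_card_le _ hmaps hinj le_rfl) hc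
    exact ⟨y, hy, hyc⟩
  · intro c _
    have h1 := aeval_pow_q (F := F) g c 1
    rw [pow_one] at h1
    rw [Polynomial.map_mul, Polynomial.map_sub, Polynomial.map_sub, map_X, map_C, map_C, h1]
    simp

theorem HF_monic (g : k[X]) (i : ℕ) : (HF F g i).Monic := by
  apply monic_prod_of_monic
  intro c _
  exact (monic_X_sub_C _).mul (monic_X_sub_C _)

theorem HF_natDegree [IsAlgClosed F] (g : k[X]) {i : ℕ} (hi : 0 < i) :
    (HF F g i).natDegree = 2 * Fintype.card k ^ i := by
  unfold HF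
  rw [natDegree_prod_of_monic _ _ fun c _ => (monic_X_sub_C _).mul (monic_X_sub_C _)]
  rw [sum_congr rfl (g := fun _ => 2) fun c _ => by
    rw [(monic_X_sub_C _).natDegree_mul (monic_X_sub_C _), natDegree_X_sub_C, natDegree_X_sub_C]]
  rw [sum_const, card_fixS hi, smul_eq_mul, mul_comm]

/-- descent to `k` -/
theorem exists_H (F : Type*) [Field F] [Algebra k F] (g : k[X]) {i : ℕ} (hi : 0 < i) :
    ∃ h : k[X], h.map (algebraMap k F) = HF F g i := by
  have : HF F g i ∈ lifts (algebraMap k F) := by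
    rw [lifts_iff_coeff_lifts]
    intro n
    have h1 := congrArg (fun P : F[X] => P.coeff n) (HF_map_frob (F := F) g hi)
    simp only [coeff_map] at h1
    have h2 : (HF F g i).coeff n ^ Fintype.card k = (HF F g i).coeff n := by
      simpa using h1
    exact mem_range_of_pow_eq h2
  exact (mem_lifts _).1 this

/-- `H_i` over `k` -/
noncomputable def H (F : Type*) [Field F] [Algebra k F] (g : k[X]) (i : ℕ) : k[X] :=
  if hi : 0 < i then (exists_H F g hi).choose else 1

theorem H_map (g : k[X]) {i : ℕ} (hi : 0 < i) :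
    (H F g i).map (algebraMap k F) = HF F g i := by
  rw [H, dif_pos hi]
  exact (exists_H F g hi).choose_spec

theorem H_monic (g : k[X]) {i : ℕ} (hi : 0 < i) : (H F g i).Monic := by
  apply monic_of_injective (algebraMap k F).injective
  rw [H_map g hi]
  exact HF_monic g i

theorem H_natDegree [IsAlgClosed F] (g : k[X]) {i : ℕ} (hi : 0 < i) :
    (H F g i).natDegree = 2 * Fintype.card k ^ i := by
  rw [← natDegree_map (algebraMap k F), H_map g hi, HF_natDegree g hi]

/-- values of `H_i` -/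
theorem aeval_H (g : k[X]) {i : ℕ} (hi : 0 < i) (α : F) :
    aeval α (H F g i) = ∏ c ∈ fixS k F i, ((α - aeval c g) * (α - c)) := by
  rw [← eval_map_algebraMap, H_map g hi, HF, eval_prod]
  simp

/-- roots of `H_j` lie in the field with `q ^ j` elements -/
theorem HF_root {g : k[X]} {j : ℕ} (hj : 0 < j) {v : F} (hv : (HF F g j).IsRoot v) :
    v ^ (Fintype.card k ^ j) = v := by
  rw [IsRoot.def, HF, eval_prod, prod_eq_zero_iff] at hv
  obtain ⟨c, hc, h⟩ := hv
  rw [mem_fixS hj] at hc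
  rw [eval_mul, mul_eq_zero] at h
  rcases h with h | h
  · simp only [eval_sub, eval_X, eval_C, sub_eq_zero] at h
    rw [h, ← aeval_pow_q, hc]
  · simp only [eval_sub, eval_X, eval_C, sub_eq_zero] at h
    rw [h, hc]

theorem HF_rootMultiplicity {g : k[X]} {i : ℕ} (hi : 0 < i) {v : F}
    (hv : v ^ (Fintype.card k ^ i) = v)
    (hmiss : ∀ x : F, x ^ (Fintype.card k ^ i) = x → aeval x g ≠ v) :
    (HF F g i).rootMultiplicity v = 1 := by
  classical
  have hvS : v ∈ fixS k F i := (mem_fixS hi).2 hv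
  have h0 := (HF_monic (F := F) g i).ne_zero
  have e : HF F g i = (X - C v) * ((X - C (aeval v g)) *
      ∏ c ∈ (fixS k F i).erase v, ((X - C (aeval c g)) * (X - C c))) := by
    rw [HF, ← mul_prod_erase _ _ hvS]
    ring
  rw [e] at h0 ⊢
  rw [rootMultiplicity_mul h0, rootMultiplicity_X_sub_C_self]
  rw [rootMultiplicity_eq_zero, add_zero]
  rw [IsRoot.def, eval_mul, eval_prod]
  apply mul_ne_zero
  · simp only [eval_sub, eval_X, eval_C]
    exact sub_ne_zero.2 (hmiss v hv).symm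
  · apply prod_ne_zero_iff.2
    intro c hc
    rw [mem_erase, mem_fixS hi] at hc
    rw [eval_mul]
    apply mul_ne_zero
    · simp only [eval_sub, eval_X, eval_C]
      exact sub_ne_zero.2 (hmiss c hc.2).symm
    · simp only [eval_sub, eval_X, eval_C]
      exact sub_ne_zero.2 (Ne.symm hc.1)

end Pool.Agent.Lib.MP_89bcae_ag.Frob14

end

section

/-!
ROW A03 (150-300 lines). The abstract eigenvector theorem.

Setting: `H` abelian group with an endomorphism `Z`, `∑_{i<ℓ} Z^i = 0`, and an action of a group `G`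
commuting with `Z`; `p = 1 - Z` is injective and `⋂ p^n H = 0`; `e : H → (ι → ZMod ℓ)`, `ι` finite,
additive with kernel `p H`; `e (u • x) = e x`; each `u` has finite order on each `x`; `H ≠ 0`.
CONCLUSION: there are `x` with `e x ≠ 0` and `a : G → ZMod ℓ` such that for all `u`:
`u • x - x = p y` implies `e y = a u • e x`.

PROOF. For `u` in `G` and `x` in `H`, `e (u x - x) = 0`, so `u x - x = p (N_u x)` for a unique
`N_u x`; `N_u` is an endomorphism of `H` commuting with `Z`.
(a) The subring `B` of `End H` generated by `Z` and `N_u` is commutative; `fst_case` in `B`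
(`W = 1 + p N_u` = action of `u`, of finite order on `x`) gives `(N_u^ℓ - N_u) x ∈ p H`, so
`e (N_u^ℓ x) = e (N_u x)`.
(b) For `u`, `u'` let `c = u u' u⁻¹ u'⁻¹` and `Y = [N_u, N_{u'}] (u' u)⁻¹` in `End H` : `p² [N_u, N_{u'}] =
u u' - u' u` (as operators) `= (c - 1) u' u`, so `c = 1 + p² Y` as an operator; `Y` commutes with
`Z`; `B` generated by `Z` and `Y`; `c` has finite order on each `x`, so `Y x = 0` by `sq_case` for
all `x`: `N_u N_{u'} = N_{u'} N_u`.
(c) `V = e(H)` (a finite `ZMod ℓ`-module, the range of `e`), `n_u : V → V` induced by `N_u`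
(`N_u p H ⊆ p H`). They commute and `n_u^ℓ = n_u`. `V ≠ 0`: otherwise `H = p H`, so every element is in
`⋂ p^n H = 0`. Apply `exists_common_eigenvector`.
-/

open Polynomial

namespace Pool.Agent.Lib.MP_89bcae_ag.Sup

section A03

variable {ℓ : ℕ} {H : Type*} [AddCommGroup H]

private lemma A03_comm {z Y : Module.End ℤ H} (hc : z * Y = Y * z) :
    ∀ a ∈ ({z, Y} : Set (Module.End ℤ H)), ∀ b ∈ ({z, Y} : Set (Module.End ℤ H)),
      a * b = b * a := by
  rintro a (rfl | rfl) b (rfl | rfl)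
  · rfl
  · exact hc
  · exact hc.symm
  · rfl

private lemma A03_sq (hℓ : ℓ.Prime) (z Y : Module.End ℤ H) (hc : z * Y = Y * z)
    (hz : ∑ i ∈ Finset.range ℓ, z ^ i = 0) (hinj : ∀ x : H, (1 - z) x = 0 → x = 0)
    (hsep : ∀ x : H, (∀ n : ℕ, ∃ y : H, x = ((1 - z) ^ n) y) → x = 0)
    (x : H) (M : ℕ) (hM : 0 < M)
    (hx : ((1 + (1 - z) ^ 2 * Y) ^ M : Module.End ℤ H) x = x) : Y x = 0 := by
  letI instB : CommRing (Algebra.adjoin ℤ ({z, Y} : Set (Module.End ℤ H))) :=
    { (inferInstance : Ring (Algebra.adjoin ℤ ({z, Y} : Set (Module.End ℤ H)))) with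
      mul_comm := (Algebra.isMulCommutative_adjoin ℤ (A03_comm hc)).is_comm.comm }
  let zB : Algebra.adjoin ℤ ({z, Y} : Set (Module.End ℤ H)) :=
    ⟨z, Algebra.subset_adjoin (Or.inl rfl)⟩
  let YB : Algebra.adjoin ℤ ({z, Y} : Set (Module.End ℤ H)) :=
    ⟨Y, Algebra.subset_adjoin (Or.inr rfl)⟩
  have hzB : ∑ i ∈ Finset.range ℓ, zB ^ i = 0 := by
    apply Subtype.ext
    push_cast
    exact hz
  exact sq_case (B := Algebra.adjoin ℤ ({z, Y} : Set (Module.End ℤ H))) (H := H) hℓ zB hzB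
    (fun x hx => hinj x hx) (fun x hx => hsep x hx) YB x M hM hx

private lemma A03_fst (hℓ : ℓ.Prime) (z N : Module.End ℤ H) (hc : z * N = N * z)
    (hz : ∑ i ∈ Finset.range ℓ, z ^ i = 0) (hinj : ∀ x : H, (1 - z) x = 0 → x = 0)
    (hsep : ∀ x : H, (∀ n : ℕ, ∃ y : H, x = ((1 - z) ^ n) y) → x = 0)
    (x : H) (M : ℕ) (hM : 0 < M)
    (hx : ((1 + (1 - z) * N) ^ M : Module.End ℤ H) x = x) :
    ∃ y : H, (N ^ ℓ - N) x = (1 - z) y := by
  letI instB : CommRing (Algebra.adjoin ℤ ({z, N} : Set (Module.End ℤ H))) :=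
    { (inferInstance : Ring (Algebra.adjoin ℤ ({z, N} : Set (Module.End ℤ H)))) with
      mul_comm := (Algebra.isMulCommutative_adjoin ℤ (A03_comm hc)).is_comm.comm }
  let zB : Algebra.adjoin ℤ ({z, N} : Set (Module.End ℤ H)) :=
    ⟨z, Algebra.subset_adjoin (Or.inl rfl)⟩
  let NB : Algebra.adjoin ℤ ({z, N} : Set (Module.End ℤ H)) :=
    ⟨N, Algebra.subset_adjoin (Or.inr rfl)⟩
  have hzB : ∑ i ∈ Finset.range ℓ, zB ^ i = 0 := by
    apply Subtype.ext
    push_cast
    exact hz
  exact fst_case (B := Algebra.adjoin ℤ ({z, N} : Set (Module.End ℤ H))) (H := H) hℓ zB hzB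
    (fun x hx => hinj x hx) (fun x hx => hsep x hx) NB x M hM hx

end A03

theorem exists_eigen {ℓ : ℕ} [Fact ℓ.Prime] {H G ι : Type*} [AddCommGroup H] [Group G]
    [DistribMulAction G H] [Finite ι] (Z : H →+ H)
    (hZ : ∀ x, ∑ i ∈ Finset.range ℓ, Z^[i] x = 0) (hZG : ∀ (u : G) x, Z (u • x) = u • Z x)
    (hinj : ∀ x, Z x = x → x = 0)
    (hsep : ∀ x : H, (∀ n : ℕ, ∃ y : H, x = (fun h => h - Z h)^[n] y) → x = 0)
    (e : H →+ (ι → ZMod ℓ)) (he : ∀ x, e x = 0 ↔ ∃ y, x = y - Z y)
    (hGe : ∀ (u : G) x, e (u • x) = e x)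
    (hfin : ∀ (u : G) (x : H), ∃ M : ℕ, 0 < M ∧ u ^ M • x = x) (hne : ∃ x : H, x ≠ 0) :
    ∃ x : H, e x ≠ 0 ∧ ∃ a : G → ZMod ℓ, ∀ u y, u • x - x = y - Z y → e y = a u • e x := by
  classical
  have hℓ : ℓ.Prime := Fact.out
  set z : Module.End ℤ H := Z.toIntLinearMap with hz_def
  have z_apply : ∀ x, z x = Z x := fun x => rfl
  have hz : ∑ i ∈ Finset.range ℓ, z ^ i = 0 := by
    ext x
    rw [LinearMap.sum_apply, LinearMap.zero_apply, ← hZ x]
    refine Finset.sum_congr rfl fun i _ => ?_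
    rw [Module.End.pow_apply]
    rfl
  have p_apply : ∀ x, (1 - z) x = x - Z x := fun x => rfl
  have hinj' : ∀ x : H, (1 - z) x = 0 → x = 0 := fun x hx => by
    rw [p_apply, sub_eq_zero] at hx
    exact hinj x hx.symm
  have hsep' : ∀ x : H, (∀ n : ℕ, ∃ y : H, x = ((1 - z) ^ n) y) → x = 0 := fun x hx => by
    refine hsep x fun n => ?_
    obtain ⟨y, hy⟩ := hx n
    refine ⟨y, ?_⟩
    rw [hy, Module.End.pow_apply]
    rfl
  -- injectivity of p in the form of cancellation
  have pcancel : ∀ x y : H, x - Z x = y - Z y → x = y := fun x y h => by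
    have : (1 - z) (x - y) = 0 := by
      rw [p_apply, map_sub]
      have : x - y - (Z x - Z y) = (x - Z x) - (y - Z y) := by abel
      rw [this, h, sub_self]
    exact sub_eq_zero.1 (hinj' _ this)
  have hex : ∀ (u : G) (x : H), ∃ y, u • x - x = y - Z y := fun u x => by
    rw [← he, map_sub, hGe, sub_self]
  choose N0 hN0 using hex
  have hN0u : ∀ (u : G) (x y : H), u • x - x = y - Z y → y = N0 u x := fun u x y h =>
    pcancel _ _ (by rw [← h, hN0])
  let N : G → Module.End ℤ H := fun u => AddMonoidHom.toIntLinearMap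
    { toFun := N0 u
      map_zero' := ((hN0u u 0 0 (by simp)).symm)
      map_add' := fun x y => (hN0u u (x + y) (N0 u x + N0 u y) (by
        rw [smul_add, map_add]
        have h1 := hN0 u x
        have h2 := hN0 u y
        have : u • x + u • y - (x + y) = (u • x - x) + (u • y - y) := by abel
        rw [this, h1, h2]
        abel)).symm }
  have N_apply : ∀ u x, u • x - x = N u x - Z (N u x) := fun u x => hN0 u x
  have N_uniq : ∀ u x y, u • x - x = y - Z y → y = N u x := fun u x y h => hN0u u x y h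
  let U : G → Module.End ℤ H := fun u => (DistribSMul.toAddMonoidHom H u).toIntLinearMap
  have U_apply : ∀ u x, U u x = u • x := fun u x => rfl
  have U_mul : ∀ u v, U (u * v) = U u * U v := fun u v => by
    ext x
    change (u * v) • x = u • (v • x)
    rw [mul_smul]
  have U_one : U 1 = 1 := by
    ext x
    change (1 : G) • x = x
    rw [one_smul]
  have U_pow : ∀ u (M : ℕ), U u ^ M = U (u ^ M) := fun u M => by
    induction M with
    | zero => rw [pow_zero, pow_zero, U_one]
    | succ M ih => rw [pow_succ, pow_succ, U_mul, ih]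
  have U_eq : ∀ u, U u = 1 + (1 - z) * N u := fun u => by
    ext x
    change u • x = x + (N u x - Z (N u x))
    rw [← N_apply]
    abel
  have zU : ∀ u, z * U u = U u * z := fun u => by
    ext x
    exact hZG u x
  have zN : ∀ u, z * N u = N u * z := fun u => by
    ext x
    change Z (N u x) = N u (Z x)
    apply N_uniq
    rw [← hZG, ← map_sub, N_apply, map_sub]
  have hp_N : ∀ u, (1 - z) * N u = N u * (1 - z) := fun u => by
    rw [sub_mul, mul_sub, one_mul, mul_one, zN]
  have hpe : ∀ y, e ((1 - z) y) = 0 := fun y => (he _).2 ⟨y, rfl⟩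
  -- (a)
  have hA : ∀ u x, e ((N u ^ ℓ) x) = e (N u x) := by
    intro u x
    obtain ⟨M, hM, hMx⟩ := hfin u x
    obtain ⟨y, hy⟩ := A03_fst hℓ z (N u) (zN u) hz hinj' hsep' x M hM (by
      rw [← U_eq, U_pow, U_apply, hMx])
    have h1 := hpe y
    rw [← hy, LinearMap.sub_apply, map_sub, sub_eq_zero] at h1
    exact h1
  -- (b)
  have hB : ∀ u v, N u * N v = N v * N u := by
    intro u v
    set D : Module.End ℤ H := N u * N v - N v * N u with hD
    set Y : Module.End ℤ H := D * U (v * u)⁻¹ with hY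
    have zD : z * D = D * z := by
      rw [hD, mul_sub, sub_mul, ← mul_assoc, ← mul_assoc, zN, zN, mul_assoc, mul_assoc, mul_assoc,
        mul_assoc, zN, zN]
    have zY : z * Y = Y * z := by
      rw [hY, ← mul_assoc, zD, mul_assoc, mul_assoc, zU]
    have hUv : U (v * u)⁻¹ * U (v * u) = 1 := by rw [← U_mul, inv_mul_cancel, U_one]
    have hUv' : U (v * u) * U (v * u)⁻¹ = 1 := by rw [← U_mul, mul_inv_cancel, U_one]
    have h1 : (1 - z) ^ 2 * D = U (u * v) - U (v * u) := by
      have e1 : U (u * v) = (1 + (1 - z) * N u) * (1 + (1 - z) * N v) := by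
        rw [U_mul, U_eq u, U_eq v]
      have e2 : U (v * u) = (1 + (1 - z) * N v) * (1 + (1 - z) * N u) := by
        rw [U_mul, U_eq u, U_eq v]
      have e3 : (1 - z) * N u * ((1 - z) * N v) = (1 - z) ^ 2 * (N u * N v) := by
        rw [mul_assoc, ← mul_assoc (N u), ← hp_N, pow_two, mul_assoc, mul_assoc]
      have e4 : (1 - z) * N v * ((1 - z) * N u) = (1 - z) ^ 2 * (N v * N u) := by
        rw [mul_assoc, ← mul_assoc (N v), ← hp_N, pow_two, mul_assoc, mul_assoc]
      rw [e1, e2, hD, mul_sub, add_mul, add_mul, mul_add, mul_add, mul_add, mul_add, e3, e4]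
      simp only [one_mul, mul_one]
      abel
    set c : G := (u * v) * (v * u)⁻¹ with hc
    have h2 : 1 + (1 - z) ^ 2 * Y = U c := by
      rw [hY, ← mul_assoc, h1, sub_mul, hUv', ← U_mul]
      abel
    have h3 : ∀ x, Y x = 0 := by
      intro x
      obtain ⟨M, hM, hMx⟩ := hfin c x
      exact A03_sq hℓ z Y zY hz hinj' hsep' x M hM (by rw [h2, U_pow, U_apply, hMx])
    have h4 : Y = 0 := LinearMap.ext h3
    have h5 : D = 0 := by
      calc D = D * (U (v * u)⁻¹ * U (v * u)) := by rw [hUv, mul_one]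
        _ = Y * U (v * u) := by rw [hY, mul_assoc]
        _ = 0 := by rw [h4, zero_mul]
    exact sub_eq_zero.1 h5
  -- (c)
  let V : Submodule (ZMod ℓ) (ι → ZMod ℓ) := AddSubgroup.toZModSubmodule ℓ e.range
  let e' : H →+ V := e.rangeRestrict
  have he'v : ∀ x, ((e' x : V) : ι → ZMod ℓ) = e x := fun x => rfl
  have hsurj : Function.Surjective e' := e.rangeRestrict_surjective
  have hker : ∀ x, e' x = 0 ↔ e x = 0 := fun x => by
    rw [← he'v]
    exact ⟨fun h => by rw [h]; rfl, fun h => Subtype.ext h⟩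
  have hwd : ∀ u, e'.ker ≤ (e'.comp (N u).toAddMonoidHom).ker := by
    intro u x hx
    rw [AddMonoidHom.mem_ker, hker, he] at hx
    obtain ⟨y, rfl⟩ := hx
    rw [AddMonoidHom.mem_ker, AddMonoidHom.comp_apply, hker]
    have : (N u).toAddMonoidHom (y - Z y) = (1 - z) (N u y) := by
      change (N u * (1 - z)) y = ((1 - z) * N u) y
      rw [hp_N]
    rw [this]
    exact hpe _
  let n0 : G → V →+ V := fun u => (AddMonoidHom.liftOfSurjective e' hsurj) ⟨_, hwd u⟩
  have hn0 : ∀ u x, n0 u (e' x) = e' (N u x) := fun u x =>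
    AddMonoidHom.liftOfRightInverse_comp_apply e' _ _ ⟨_, hwd u⟩ x
  let n : G → V →ₗ[ZMod ℓ] V := fun u => (n0 u).toZModLinearMap ℓ
  have hn : ∀ u x, n u (e' x) = e' (N u x) := fun u x => hn0 u x
  have hncomm : ∀ u v, n u * n v = n v * n u := by
    intro u v
    ext1 w
    obtain ⟨x, rfl⟩ := hsurj w
    change n u (n v (e' x)) = n v (n u (e' x))
    rw [hn, hn, hn, hn]
    have := LinearMap.congr_fun (hB u v) x
    exact congrArg e' this
  have hnpow_apply : ∀ u (k : ℕ) x, (n u ^ k) (e' x) = e' ((N u ^ k) x) := by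
    intro u k
    induction k with
    | zero => intro x; rw [pow_zero, pow_zero]; rfl
    | succ k ih =>
      intro x
      rw [pow_succ, pow_succ]
      change (n u ^ k) (n u (e' x)) = e' ((N u ^ k) (N u x))
      rw [hn, ih]
  have hnpow : ∀ u, n u ^ ℓ = n u := by
    intro u
    ext1 w
    obtain ⟨x, rfl⟩ := hsurj w
    rw [hnpow_apply, hn]
    apply Subtype.ext
    exact hA u x
  have hVne : ∃ w : V, w ≠ 0 := by
    by_contra hcon
    push Not at hcon
    obtain ⟨x, hx⟩ := hne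
    apply hx
    have hall : ∀ y : H, ∃ y', y = (1 - z) y' := fun y => (he y).1 ((hker y).1 (hcon (e' y)))
    refine hsep' x fun k => ?_
    induction k with
    | zero => exact ⟨x, by rw [pow_zero]; rfl⟩
    | succ k ih =>
      obtain ⟨y, hy⟩ := ih
      obtain ⟨y', hy'⟩ := hall y
      refine ⟨y', ?_⟩
      rw [pow_succ]
      change x = ((1 - z) ^ k) ((1 - z) y')
      rw [← hy']
      exact hy
  obtain ⟨w, hw0, a, ha⟩ := exists_common_eigenvector n hncomm hnpow hVne
  obtain ⟨x, rfl⟩ := hsurj w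
  refine ⟨x, fun h => hw0 ((hker x).2 h), a, fun u y hy => ?_⟩
  have h1 := N_uniq u x y hy
  have h2 := ha u
  rw [hn] at h2
  have h3 := congrArg (Subtype.val) h2
  rw [h1]
  exact h3

end Pool.Agent.Lib.MP_89bcae_ag.Sup

end

section

/-!
# Counting the exceptional elements
-/

namespace Pool.Agent.Lib.MP_89bcae_ag.Frob14

open Polynomial Finset

open scoped Classical

section fix

variable (k F : Type*) [Field k] [Fintype k] [Field F] [Algebra k F]

/-- the subfield with `q ^ i` elements -/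
def fixI (i : ℕ) : IntermediateField k F where
  toSubalgebra := AlgHom.equalizer (FiniteField.frobeniusAlgHom k F ^ i) (AlgHom.id k F)
  inv_mem' := by
    intro x hx
    change (FiniteField.frobeniusAlgHom k F ^ i) x⁻¹ = x⁻¹
    rw [map_inv₀]
    congr 1

variable {k F}

theorem frobPow_apply (i : ℕ) (x : F) :
    (FiniteField.frobeniusAlgHom k F ^ i) x = x ^ (Fintype.card k ^ i) := by
  induction i generalizing x with
  | zero => simp
  | succ i ih =>
    rw [pow_succ, AlgHom.mul_apply, ih]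
    simp only [FiniteField.frobeniusAlgHom_apply]
    rw [← pow_mul, pow_succ, mul_comm]

theorem mem_fixI {i : ℕ} {x : F} : x ∈ fixI k F i ↔ x ^ (Fintype.card k ^ i) = x := by
  rw [← frobPow_apply]
  rfl

theorem coe_fixI {i : ℕ} (hi : 0 < i) : ((fixI k F i : IntermediateField k F) : Set F) =
    (fixS k F i : Set F) := by
  ext x
  rw [SetLike.mem_coe, mem_fixI, mem_coe, mem_fixS hi]

theorem finite_fixI {i : ℕ} (hi : 0 < i) : Finite (fixI k F i) := by
  have : ((fixI k F i : IntermediateField k F) : Set F).Finite := by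
    rw [coe_fixI hi]; exact finite_toSet _
  exact this.to_subtype

theorem natCard_fixI [IsAlgClosed F] {i : ℕ} (hi : 0 < i) :
    Nat.card (fixI k F i) = Fintype.card k ^ i := by
  have h1 : Nat.card (fixI k F i) = ((fixI k F i : IntermediateField k F) : Set F).ncard := rfl
  rw [h1, coe_fixI hi, Set.ncard_coe_finset, card_fixS hi]

omit [Fintype k] in
theorem eq_cubic {g : k[X]} (hg : g.Monic) (hdeg : g.natDegree = 3) :
    g = X ^ 3 + C (g.coeff 2) * X ^ 2 + C (g.coeff 1) * X + C (g.coeff 0) := by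
  conv_lhs => rw [g.as_sum_range_C_mul_X_pow, hdeg]
  simp only [sum_range_succ, range_zero, sum_empty, zero_add, pow_zero, mul_one, pow_one]
  have : g.coeff 3 = 1 := by rw [← hdeg]; exact hg
  rw [this, C_1, one_mul]
  ring

theorem missed_card [IsAlgClosed F] (h2 : (2 : k) ≠ 0) {g : k[X]} (hg : g.Monic)
    (hdeg : g.natDegree = 3) (hcol : ∃ x y : k, x ≠ y ∧ g.eval x = g.eval y) {i : ℕ} (hi : 0 < i) :
    Fintype.card k ^ i ≤
      3 * {v ∈ fixS k F i | ∀ x : F, x ^ (Fintype.card k ^ i) = x → aeval x g ≠ v}.card + 5 := by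
  have := finite_fixI (k := k) (F := F) hi
  let _ : Fintype (fixI k F i) := Fintype.ofFinite _
  obtain ⟨x, y, hxy, hcol⟩ := hcol
  let K := fixI k F i
  have hev : ∀ z : K, z ^ 3 + algebraMap k K (g.coeff 2) * z ^ 2 + algebraMap k K (g.coeff 1) * z +
      algebraMap k K (g.coeff 0) = aeval z g := by
    intro z
    conv_rhs => rw [eq_cubic hg hdeg]
    simp
  have h2' : (2 : K) ≠ 0 := by
    have := (map_ne_zero (algebraMap k K)).2 h2
    rwa [map_ofNat] at this
  have h1 := Count14.missed h2' (algebraMap k K (g.coeff 2)) (algebraMap k K (g.coeff 1))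
    (algebraMap k K (g.coeff 0)) (x₀ := algebraMap k K x) (y₀ := algebraMap k K y)
    (fun h => hxy ((algebraMap k K).injective h)) (by
      rw [hev, hev, aeval_algebraMap_apply, aeval_algebraMap_apply, coe_aeval_eq_eval,
        coe_aeval_eq_eval, hcol])
  rw [← Nat.card_eq_fintype_card, natCard_fixI hi] at h1
  refine h1.trans ?_
  gcongr ?_ + _
  apply Nat.mul_le_mul_left
  apply card_le_card_of_injOn (fun z : K => (z : F))
  · intro v hv
    simp only [coe_filter, mem_univ, true_and, Set.mem_ofPred_eq] at hv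
    simp only [coe_filter, Set.mem_ofPred_eq]
    refine ⟨(mem_fixS hi).2 (mem_fixI.1 v.2), ?_⟩
    intro x hx h
    apply hv ⟨x, mem_fixI.2 hx⟩
    rw [hev]
    apply Subtype.ext
    rw [← h]
    exact (aeval_algebraMap_apply F (⟨x, mem_fixI.2 hx⟩ : K) g).symm
  · intro a _ b _ h
    exact Subtype.ext h

theorem two_mul_sum_pow_le {q : ℕ} (hq : 3 ≤ q) (m : ℕ) :
    2 * ∑ d ∈ Icc 1 m, q ^ d ≤ 3 * q ^ m := by
  induction m with
  | zero => simp
  | succ m ih =>
    have e : Icc 1 (m + 1) = insert (m + 1) (Icc 1 m) := by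
      ext a
      simp only [mem_insert, mem_Icc]
      omega
    rw [e, sum_insert (by simp), pow_succ]
    nlinarith [pow_pos (show 0 < q by omega) m]

theorem small_card [IsAlgClosed F] (i : ℕ) (hi : 0 < i) :
    {v ∈ fixS k F i | ∃ j, 0 < j ∧ j < i ∧ v ^ (Fintype.card k ^ j) = v}.card ≤
      ∑ d ∈ Icc 1 (i / 2), Fintype.card k ^ d := by
  have hsub : {v ∈ fixS k F i | ∃ j, 0 < j ∧ j < i ∧ v ^ (Fintype.card k ^ j) = v} ⊆
      (Icc 1 (i / 2)).biUnion fun d => fixS k F d := by
    intro v hv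
    rw [mem_filter, mem_fixS hi] at hv
    obtain ⟨hvi, j, hj0, hji, hvj⟩ := hv
    set f : F → F := fun y => y ^ Fintype.card k with hf
    have hpi : Function.IsPeriodicPt f i v := by
      rw [Function.IsPeriodicPt, Function.IsFixedPt, hf, frob_iterate]; exact hvi
    have hpj : Function.IsPeriodicPt f j v := by
      rw [Function.IsPeriodicPt, Function.IsFixedPt, hf, frob_iterate]; exact hvj
    have hdi := hpi.minimalPeriod_dvd
    have hdj := Nat.le_of_dvd hj0 hpj.minimalPeriod_dvd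
    have hd0 := hpi.minimalPeriod_pos hi
    rw [mem_biUnion]
    refine ⟨Function.minimalPeriod f v, ?_, ?_⟩
    · rw [mem_Icc]
      refine ⟨hd0, ?_⟩
      obtain ⟨m, hm⟩ := hdi
      have hm2 : 2 ≤ m := by
        by_contra h
        have h' : m ≤ 1 := by omega
        have : Function.minimalPeriod f v * m ≤ Function.minimalPeriod f v * 1 :=
          Nat.mul_le_mul_left _ h'
        omega
      rw [Nat.le_div_iff_mul_le (by norm_num)]
      conv_rhs => rw [hm]
      exact Nat.mul_le_mul_left _ hm2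
    · rw [mem_fixS hd0]
      have := Function.isPeriodicPt_minimalPeriod f v
      rw [Function.IsPeriodicPt, Function.IsFixedPt, hf, frob_iterate] at this
      exact this
  refine (card_le_card hsub).trans (card_biUnion_le.trans (le_of_eq ?_))
  refine sum_congr rfl fun d hd => ?_
  rw [mem_Icc] at hd
  exact card_fixS (by omega)

/-- the elements of exact degree `i` that are not values of `g` on the field with `q ^ i`
elements -/
theorem good_count [IsAlgClosed F] (h2 : (2 : k) ≠ 0) {g : k[X]} (hg : g.Monic)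
    (hdeg : g.natDegree = 3) (hcol : ∃ x y : k, x ≠ y ∧ g.eval x = g.eval y) {i : ℕ} (hi : 0 < i) :
    2 * Fintype.card k ^ i ≤
      6 * {v ∈ fixS k F i | (∀ x : F, x ^ (Fintype.card k ^ i) = x → aeval x g ≠ v) ∧
        ∀ j, 0 < j → j < i → v ^ (Fintype.card k ^ j) ≠ v}.card +
      9 * Fintype.card k ^ (i / 2) + 10 := by
  have hq : 3 ≤ Fintype.card k := by
    by_contra h
    have h1 : Fintype.card k = 2 := by
      have := Fintype.one_lt_card (α := k)
      omega
    have h3 : (Fintype.card k : k) = 0 := FiniteField.cast_card_eq_zero k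
    rw [h1] at h3
    exact h2 (by exact_mod_cast h3)
  have h1 := missed_card (F := F) h2 hg hdeg hcol hi
  have h3 := small_card (k := k) (F := F) i hi
  have h4 := two_mul_sum_pow_le hq (i / 2)
  have h5 : {v ∈ fixS k F i | ∀ x : F, x ^ (Fintype.card k ^ i) = x → aeval x g ≠ v}.card ≤
      {v ∈ fixS k F i | (∀ x : F, x ^ (Fintype.card k ^ i) = x → aeval x g ≠ v) ∧
        ∀ j, 0 < j → j < i → v ^ (Fintype.card k ^ j) ≠ v}.card +
      {v ∈ fixS k F i | ∃ j, 0 < j ∧ j < i ∧ v ^ (Fintype.card k ^ j) = v}.card := by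
    refine (card_le_card ?_).trans (card_union_le _ _)
    intro v hv
    rw [mem_filter] at hv
    rw [mem_union, mem_filter, mem_filter]
    by_cases h : ∃ j, 0 < j ∧ j < i ∧ v ^ (Fintype.card k ^ j) = v
    · exact Or.inr ⟨hv.1, h⟩
    · push Not at h
      exact Or.inl ⟨hv.1, hv.2, h⟩
  omega

theorem exists_special [IsAlgClosed F] (h2 : (2 : k) ≠ 0) {g : k[X]} (hg : g.Monic)
    (hdeg : g.natDegree = 3) (hcol : ∃ x y : k, x ≠ y ∧ g.eval x = g.eval y) {i : ℕ} (hi : 3 ≤ i) :
    ∃ v : F, v ^ (Fintype.card k ^ i) = v ∧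
      (∀ x : F, x ^ (Fintype.card k ^ i) = x → aeval x g ≠ v) ∧
      ∀ j, 0 < j → j < i → v ^ (Fintype.card k ^ j) ≠ v := by
  have hq : 3 ≤ Fintype.card k := by
    by_contra h
    have h1 : Fintype.card k = 2 := by
      have := Fintype.one_lt_card (α := k)
      omega
    have h3 : (Fintype.card k : k) = 0 := FiniteField.cast_card_eq_zero k
    rw [h1] at h3
    exact h2 (by exact_mod_cast h3)
  have h1 := good_count (F := F) h2 hg hdeg hcol (i := i) (by omega)
  have h3 : 9 * Fintype.card k ^ (i / 2) ≤ Fintype.card k ^ i := by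
    calc 9 * Fintype.card k ^ (i / 2) ≤ Fintype.card k ^ 2 * Fintype.card k ^ (i / 2) := by
          apply Nat.mul_le_mul_right
          calc 9 = 3 ^ 2 := by norm_num
            _ ≤ _ := Nat.pow_le_pow_left hq 2
      _ = Fintype.card k ^ (2 + i / 2) := by rw [pow_add]
      _ ≤ _ := Nat.pow_le_pow_right (by omega) (by omega)
  have h4 : 27 ≤ Fintype.card k ^ i := by
    calc 27 = 3 ^ 3 := by norm_num
      _ ≤ Fintype.card k ^ 3 := Nat.pow_le_pow_left hq 3
      _ ≤ _ := Nat.pow_le_pow_right (by omega) hi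
  have h5 : 0 < {v ∈ fixS k F i | (∀ x : F, x ^ (Fintype.card k ^ i) = x → aeval x g ≠ v) ∧
        ∀ j, 0 < j → j < i → v ^ (Fintype.card k ^ j) ≠ v}.card := by omega
  obtain ⟨v, hv⟩ := card_pos.1 h5
  rw [mem_filter, mem_fixS (by omega)] at hv
  exact ⟨v, hv.1, hv.2.1, hv.2.2⟩

end fix

end Pool.Agent.Lib.MP_89bcae_ag.Frob14

end
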