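import Mathlib
import Pool.Agent.Lib.MP_89bcae_ag.Rk.K011
import Pool.Agent.Lib.MP_89bcae_ag.Rk.K012

/-!
The kernel of `π = 1 - Z`: parts (B) and (C) of the explanations in R17.
-/

open Polynomial IsDedekindDomain

open scoped Classical

namespace Pool.Agent.Lib.MP_89bcae_ag.Sup

universe u

variable {ℓ : ℕ} {E : Type u} [Field E] {f : E[X]} [hG : IsGood ℓ f]

lemma R18_rot_ramPt (ζ : E) (hζ : ζ ^ ℓ = 1) {θ : E} (hθ : f.eval θ = 0) :
    (ramPt hG.prime.ne_zero hθ : Pt ℓ f).rot ζ hζ = ramPt hG.prime.ne_zero hθ := by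
  ext
  · rfl
  · simp [Pt.rot, ramPt]

lemma R18_ordR_rot (ζ : E) (hζ : ζ ^ ℓ = 1) (h0 : ζ ≠ 0) (θ : E) (h : (Fn ℓ f)ˣ) :
    ordR θ (rotU ζ hζ h0 h) = ordR θ h := by
  unfold ordR
  split_ifs with hθ
  · rw [ord_rotU, R18_rot_ramPt]
  · rfl

lemma R18_ordR_iter (ζ : E) (hζ : ζ ^ ℓ = 1) (h0 : ζ ≠ 0) (θ : E) (h : (Fn ℓ f)ˣ) (i : ℕ) :
    ordR θ ((rotU ζ hζ h0)^[i] h) = ordR θ h := by
  induction i with
  | zero => rfl
  | succ i ih => rw [Function.iterate_succ_apply', R18_ordR_rot, ih]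

lemma R18_lc_iter (ζ : E) (hζ : ζ ^ ℓ = 1) (h0 : ζ ≠ 0) {θ : E} (hθ : f.eval θ = 0)
    (h : (Fn ℓ f)ˣ) (i : ℕ) :
    (lc θ ((rotU ζ hζ h0)^[i] h) : E) = (ζ ^ ordR θ h) ^ i * lc θ h := by
  induction i with
  | zero => simp
  | succ i ih =>
    rw [Function.iterate_succ_apply', (lc_spec hθ).2.2.2.2.1, ih, R18_ordR_iter, pow_succ]
    ring

/-- The leading coefficient of a norm. -/
lemma R18_lc_nrm (ζ : E) (hζ : ζ ^ ℓ = 1) (h0 : ζ ≠ 0) {θ : E} (hθ : f.eval θ = 0)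
    (h : (Fn ℓ f)ˣ) :
    (lc θ (nrm ζ hζ h0 h) : E) =
      (ζ ^ ordR θ h) ^ (∑ i ∈ Finset.range ℓ, i) * (lc θ h : E) ^ ℓ := by
  rw [nrm, map_prod, Units.coe_prod, Finset.prod_congr rfl fun i _ => R18_lc_iter ζ hζ h0 hθ h i,
    Finset.prod_mul_distrib, Finset.prod_pow_eq_pow_sum, Finset.prod_const, Finset.card_range]

lemma R18_xprod_sub (D D' : Pt ℓ f →₀ ℤ) : xprod (D - D') = xprod D / xprod D' := by
  rw [eq_div_iff_mul_eq', ← xprod_add, sub_add_cancel]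

lemma R18_div_div (h h' : (Fn ℓ f)ˣ) : div (h / h') = div h - div h' := by
  rw [div_eq_mul_inv, div_mul, div_inv, sub_eq_add_neg]

/-- Extraction of roots of constants: normalization of the norm. -/
lemma R18_exists_normalized (ζ : E) (hζ : ζ ^ ℓ = 1) (h0 : ζ ≠ 0) (h : (Fn ℓ f)ˣ) (c : Eˣ)
    (g : (Fn ℓ f)ˣ) (hn : nrm ζ hζ h0 h = cstU c * g) :
    ∃ h' : (Fn ℓ f)ˣ, div h' = div h ∧ nrm ζ hζ h0 h' = g := by
  have := hG.alg
  obtain ⟨d, hd⟩ := IsAlgClosed.exists_pow_nat_eq (c : E) hG.prime.pos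
  have hd0 : d ≠ 0 := by
    rintro rfl
    rw [zero_pow hG.prime.ne_zero] at hd
    exact c.ne_zero hd.symm
  have hdc : (Units.mk0 d hd0) ^ ℓ = c := by
    ext
    simpa using hd
  refine ⟨h * cstU (Units.mk0 d hd0)⁻¹, ?_, ?_⟩
  · rw [div_mul, div_cstU, add_zero]
  · rw [nrm_mul, nrm_cstU, hn, inv_pow, hdc, map_inv]
    rw [mul_comm (cstU c) g, mul_inv_cancel_right]

lemma zJ_ram (ζ : E) (hζ : ζ ^ ℓ = 1) (e : E → ℤ) : zJ ζ hζ (ram e : Jac ℓ f) = ram e := by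
  rw [ram, zJ_cl, mapDomain_rot_ramDiv]

/-- (B) -/
lemma exists_ram_of_zJ_eq (ζ : E) (hζ : IsPrimitiveRoot ζ ℓ) (Q : Jac ℓ f)
    (hQ : zJ ζ hζ.pow_eq_one Q = Q) : ∃ e : E → ℤ, Q = ram e := by
  have h0 : ζ ≠ 0 := hζ.ne_zero hG.prime.ne_zero
  obtain ⟨D, rfl⟩ := cl_surjective Q
  rw [zJ_cl] at hQ
  have h1 : cl (D - D.mapDomain (Pt.rot ζ hζ.pow_eq_one)) = 0 := by
    rw [map_sub, hQ, sub_self]
  obtain ⟨h, hh⟩ := exists_div_of_cl_eq_zero _ h1
  obtain ⟨c, hc⟩ := exists_nrm_eq ζ hζ h0 h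
  have hx : xprod (div h) = 1 := by
    rw [hh, R18_xprod_sub, xprod_rot, div_self']
  obtain ⟨h', hdiv, hn⟩ := R18_exists_normalized ζ hζ.pow_eq_one h0 h c _ hc
  rw [hx] at hn
  have hord : ∀ θ, f.eval θ = 0 → ordR θ h' = 0 := by
    intro θ hθ
    have h2 : ord (ramPt hG.prime.ne_zero hθ) h' = 0 := by
      rw [← div_apply, hdiv, hh, Finsupp.sub_apply]
      nth_rw 2 [← R18_rot_ramPt ζ hζ.pow_eq_one hθ]
      rw [Finsupp.mapDomain_apply, sub_self]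
      intro P P' hP
      have hx := congrArg Pt.x hP
      have hy := congrArg Pt.y hP
      simp only [Pt.rot] at hx hy
      exact Pt.ext hx (mul_left_cancel₀ h0 hy)
    rw [ordR, dif_pos hθ, h2]
  have hlc : ∀ θ, f.eval θ = 0 → ∃ n : ℤ, (lc θ h' : E) = ζ ^ n := by
    intro θ hθ
    have h3 := R18_lc_nrm ζ hζ.pow_eq_one h0 hθ h'
    rw [hn, hord θ hθ, map_one, zpow_zero, one_pow, one_mul, Units.val_one] at h3
    have : NeZero ℓ := ⟨hG.prime.ne_zero⟩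
    obtain ⟨i, _, hi⟩ := hζ.eq_pow_of_pow_eq_one h3.symm
    exact ⟨i, by rw [← hi, zpow_natCast]⟩
  choose! n hn' using hlc
  exact ⟨_, cl_eq_ram ζ hζ h0 D h' (by rw [hdiv, hh]) hn n hn'⟩

/-- (C) -/
lemma ram_eq_zero_iff (ζ : E) (hζ : IsPrimitiveRoot ζ ℓ) (e : E → ℤ) :
    (ram e : Jac ℓ f) = 0 ↔
      ∃ c : ℤ, ∀ θ, f.eval θ = 0 → (ℓ : ℤ) ∣ e θ - c := by
  have h0 : ζ ≠ 0 := hζ.ne_zero hG.prime.ne_zero
  constructor
  · intro he
    obtain ⟨h, hh⟩ := exists_div_of_cl_eq_zero _ he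
    have hu : div ((rotU ζ hζ.pow_eq_one h0).symm h / h) = 0 := by
      rw [R18_div_div, div_rotU_symm, hh, mapDomain_rot_ramDiv, sub_self]
    have hdg : dg (div ((rotU ζ hζ.pow_eq_one h0).symm h / h)) = 0 := by
      rw [hu, dg, Finsupp.sum_zero_index]
    obtain ⟨c, hc⟩ := exists_const_of_dg_eq_zero ζ hζ _ hdg
    have hord : ∀ P, ord P ((rotU ζ hζ.pow_eq_one h0).symm h / h) = 0 := by
      intro P
      rw [← div_apply, hu, Finsupp.zero_apply]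
    have hc1 : (((rotU ζ hζ.pow_eq_one h0).symm h / h : (Fn ℓ f)ˣ) : Fn ℓ f) = cst c := by
      rcases hc with hc | ⟨w, hw, hwd⟩
      · exact hc
      · exfalso
        have hwn : ∀ P, 0 ≤ ord P w := by
          intro P
          by_cases hc0 : c = 0
          · rw [hc0, map_zero, sub_zero] at hw
            rw [Units.ext hw, hord]
          · have h5 := ord_add P ((rotU ζ hζ.pow_eq_one h0).symm h / h)
              (cstU (Units.mk0 (-c) (neg_ne_zero.2 hc0))) w (by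
                rw [hw, cstU, Units.coe_map, Units.val_mk0, MonoidHom.coe_coe, map_neg,
                  sub_eq_add_neg])
            rw [hord, ord_cstU, min_self] at h5
            exact h5
        refine absurd hwd (not_lt.2 ?_)
        exact Finset.sum_nonneg fun P _ => hwn P
    have hc0 : c ≠ 0 := by
      rintro rfl
      rw [map_zero] at hc1
      exact Units.ne_zero _ hc1
    have h6 : (rotU ζ hζ.pow_eq_one h0).symm h / h = cstU (Units.mk0 c hc0) := by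
      ext
      rw [hc1, cstU, Units.coe_map, Units.val_mk0, MonoidHom.coe_coe]
    have h7 : h = cstU (Units.mk0 c hc0) * rotU ζ hζ.pow_eq_one h0 h := by
      have h8 := congrArg (rotU ζ hζ.pow_eq_one h0) (eq_mul_of_div_eq h6)
      rw [MulEquiv.apply_symm_apply, map_mul, rotU_cstU] at h8
      exact h8
    have h9 : ∀ θ, f.eval θ = 0 → c * ζ ^ e θ = 1 := by
      intro θ hθ
      have h10 : ordR θ h = e θ := by
        rw [ordR, dif_pos hθ, ← div_apply, hh, ramDiv_apply, if_pos (by rfl)]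
        rfl
      have h11 := congrArg (fun u => (lc θ u : E)) h7
      simp only [map_mul, Units.val_mul, (lc_spec hθ).1, (lc_spec hθ).2.2.2.2.1, Units.val_mk0,
        h10] at h11
      have h12 := (lc θ h).ne_zero
      rw [← mul_assoc] at h11
      exact (mul_eq_right₀ h12).1 h11.symm
    obtain ⟨θ₀, hθ₀⟩ := IsGood.exists_root (ℓ := ℓ) (f := f)
    refine ⟨e θ₀, fun θ hθ => ?_⟩
    rw [← hζ.zpow_eq_one_iff_dvd, zpow_sub₀ h0]
    have h13 := h9 θ hθ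
    have h14 := h9 θ₀ hθ₀
    rw [← h14] at h13
    rw [mul_left_cancel₀ hc0 h13, div_self (zpow_ne_zero _ h0)]
  · rintro ⟨c, hc⟩
    rw [ram_congr e (fun _ => c * 1) (fun θ hθ => by simpa using hc θ hθ), ram, ramDiv_smul,
      map_zsmul, ← div_yU, cl_div, smul_zero]

lemma ram_add (e e' : E → ℤ) : (ram fun θ => e θ + e' θ : Jac ℓ f) = ram e + ram e' := by
  rw [ram, ramDiv_add, map_add, ← ram, ← ram]

lemma ram_sub (e e' : E → ℤ) : (ram fun θ => e θ - e' θ : Jac ℓ f) = ram e - ram e' := by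
  rw [ram, ramDiv_sub, map_sub, ← ram, ← ram]

lemma symJ_ram (σ : Sym f) (e : E → ℤ) :
    symJ σ (ram e : Jac ℓ f) = ram fun θ => e (((σ⁻¹ : Sym f) : E ≃+* E) θ) := by
  rw [ram, symJ_cl, mapDomain_sym_ramDiv, ← ram]

lemma smul_ram (e : E → ℤ) : ℓ • (ram e : Jac ℓ f) = 0 := by
  have h1 : (ram (fun θ => (ℓ : ℤ) * e θ) : Jac ℓ f) = ram fun _ => 0 :=
    ram_congr _ _ fun θ _ => ⟨e θ, by ring⟩
  have h2 : (ram (fun _ => 0) : Jac ℓ f) = 0 := by
    have h3 : (ramDiv (fun _ => 0) : Pt ℓ f →₀ ℤ) = 0 := by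
      ext P
      simp
    rw [ram, h3, map_zero]
  rw [h2, ram, ramDiv_smul, map_zsmul, ← ram, natCast_zsmul] at h1
  exact h1

end Pool.Agent.Lib.MP_89bcae_ag.Sup
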