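import Mathlib
import Pool.Agent.Lib.MP_89bcae_ag.Rk.K017

/-!
ROW G10 (120-220 lines). The field `L(θ) = F(θ)` for a root `θ` of `g(x) = t`; rational functions of `θ`.

PROOFS. (1) `θ` is transcendental over `F`: else `θ` would be in (the image of) `F` and `t = g(θ)` too,
but `t` is transcendental over `F`. (2) `L(θ)` is generated by `F`, `t = g(θ)`, `θ`, so it is the field of
the quotients `A(θ)/B(θ)`. An element fixed by the stabilizer of `θ` in `Aut(Ω/L)`, i.e. by
`Aut(Ω/L(θ))`, is purely inseparable over `L(θ)` (`Ω` is an algebraic closure of `L(θ)`; all conjugates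
are equal), so some `p^s`-th power is in `L(θ)`, `p` the characteristic exponent. The same for
`Aut(Ω/L)` and `L`. (3) unique factorization in `F[X]`: multiplicity of the prime `X - β` in
`∏ (X - β)^{n_β} B^ℓ = c A^ℓ` (clear the negative exponents; `θ` is transcendental so the identity holds
in `F[X]`).
-/

open Polynomial IsDedekindDomain

open scoped Classical

namespace Pool.Agent.Lib.MP_89bcae_ag.Sup

universe u

variable {k F L Ω : Type u} [Field k] [Field F] [Algebra k F] [Field L] [Algebra F[X] L]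
  [Field Ω] [Algebra L Ω] [IsAlgClosure k F] [IsFractionRing F[X] L] [IsAlgClosure L Ω]
  [Algebra F Ω] {ℓ : ℕ} {g D : k[X]} {ζ : k}

omit [IsAlgClosure k F] [IsFractionRing F[X] L] [IsAlgClosure L Ω] in
private lemma g10_aeval_tA (hF : CompatF F L Ω) (p : F[X]) :
    aeval (tA F L Ω) p = algebraMap L Ω (algebraMap F[X] L p) := by
  have h : ((aeval (tA F L Ω) : F[X] →ₐ[F] Ω) : F[X] →+* Ω) =
      (algebraMap L Ω).comp (algebraMap F[X] L) := by
    apply Polynomial.ringHom_ext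
    · intro a
      simp [hF a]
    · simp [tA]
  exact congrArg (fun φ : F[X] →+* Ω => φ p) h

private lemma g10_tA_inj (hF : CompatF F L Ω) :
    Function.Injective (aeval (tA F L Ω) : F[X] →ₐ[F] Ω) := by
  intro p q hpq
  rw [g10_aeval_tA hF, g10_aeval_tA hF] at hpq
  exact IsFractionRing.injective F[X] L ((algebraMap L Ω).injective hpq)

private lemma g10_d_ne (hF : CompatF F L Ω) (H : GlobHyp ℓ g D ζ) :
    aeval (tA F L Ω) (D.map (algebraMap k F)) ≠ 0 := by
  intro h
  rw [← map_zero (aeval (tA F L Ω) : F[X] →ₐ[F] Ω)] at h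
  have h1 := g10_tA_inj hF h
  rw [Polynomial.map_eq_zero] at h1
  exact H.pos (by rw [h1, natDegree_zero])

private lemma g10_deg_ne (H : GlobHyp ℓ g D ζ) : (g.map (algebraMap k F)).natDegree ≠ 0 := by
  rw [natDegree_map]
  intro h
  have h1 := H.cop
  rw [h, Nat.coprime_zero_left] at h1
  exact H.prime.one_lt.ne' h1

private lemma g10_root (hF : CompatF F L Ω) (H : GlobHyp ℓ g D ζ) {θ : Ω}
    (hθ : θ ∈ rts (cOver k F L Ω g D)) : aeval θ (g.map (algebraMap k F)) = tA F L Ω := by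
  have hd := g10_d_ne (k := k) hF H
  rw [cOver_eq_locPoly hF, mem_rts (locPoly_ne_zero (H.monic.map _) (g10_deg_ne H) hd),
    eval_locPoly_eq_zero hd] at hθ
  exact hθ

/-- (1) -/
lemma aeval_root_injective (hF : CompatF F L Ω) (H : GlobHyp ℓ g D ζ) {θ : Ω}
    (hθ : θ ∈ rts (cOver k F L Ω g D)) : Function.Injective (aeval θ : F[X] →ₐ[F] Ω) := by
  have hFalg : IsAlgClosed F := IsAlgClosure.isAlgClosed k
  rw [injective_iff_map_eq_zero]
  intro p hp
  by_contra hp0
  have halg : IsAlgebraic F θ := ⟨p, hp0, hp⟩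
  have hirr : Irreducible (minpoly F θ) := minpoly.irreducible halg.isIntegral
  obtain ⟨r, hr⟩ := minpoly.mem_range_of_degree_eq_one F θ
    (IsAlgClosed.degree_eq_one_of_irreducible F hirr)
  have h1 := g10_root hF H hθ
  rw [← hr, aeval_algebraMap_apply] at h1
  have h2 : aeval (tA F L Ω) (X - C (aeval r (g.map (algebraMap k F)))) = 0 := by
    rw [map_sub, aeval_X, aeval_C, ← h1, sub_self]
  rw [← map_zero (aeval (tA F L Ω) : F[X] →ₐ[F] Ω)] at h2
  exact X_sub_C_ne_zero _ (g10_tA_inj hF h2)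

/-- Elements fixed by all automorphisms are purely inseparable. -/
private lemma g10_pow (K Ω' : Type u) [Field K] [Field Ω'] [Algebra K Ω'] [IsAlgClosure K Ω']
    (x : Ω') (hx : ∀ σ : Ω' ≃ₐ[K] Ω', σ x = x) :
    ∃ (s : ℕ) (y : K), x ^ ringExpChar K ^ s = algebraMap K Ω' y := by
  have h1 : IsAlgClosed Ω' := IsAlgClosure.isAlgClosed K
  have h2 : Algebra.IsAlgebraic K Ω' := IsAlgClosure.isAlgebraic
  have h3 : Normal K Ω' := IsAlgClosure.normal K Ω'
  have hint : IsIntegral K x := (Algebra.IsAlgebraic.isAlgebraic x).isIntegral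
  have h4 : (minpoly K x).natSepDegree = 1 := by
    rw [natSepDegree_eq_of_isAlgClosed Ω', Finset.card_eq_one]
    refine ⟨x, ?_⟩
    ext y
    rw [Multiset.mem_toFinset, Finset.mem_singleton, mem_aroots]
    constructor
    · rintro ⟨-, hy⟩
      have h5 : IsConjRoot K x y := (isConjRoot_iff_aeval_eq_zero hint).mpr hy
      obtain ⟨σ, hσ⟩ := isConjRoot_iff_exists_algEquiv.mp h5
      have h6 := hx σ
      exact σ.injective (hσ.trans h6.symm)
    · rintro rfl
      exact ⟨minpoly.ne_zero hint, minpoly.aeval K _⟩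
  obtain ⟨s, y, hy⟩ := (minpoly.natSepDegree_eq_one_iff_pow_mem (ringExpChar K)).mp h4
  exact ⟨s, y, hy.symm⟩

omit [IsAlgClosure k F] [IsAlgClosure L Ω] in
private lemma g10_mem (hF : CompatF F L Ω) {θ : Ω} (q : F[X])
    (hθ : aeval θ q = tA F L Ω) (y : Ω)
    (hy : y ∈ IntermediateField.adjoin L {θ}) : y ∈ IntermediateField.adjoin F {θ} := by
  have hθm : θ ∈ IntermediateField.adjoin F {θ} :=
    IntermediateField.mem_adjoin_simple_self F θ
  have hpoly : ∀ p : F[X], aeval θ p ∈ IntermediateField.adjoin F {θ} := by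
    intro p
    rw [IntermediateField.mem_adjoin_simple_iff]
    exact ⟨p, 1, by simp⟩
  have hL : ∀ l : L, algebraMap L Ω l ∈ IntermediateField.adjoin F {θ} := by
    intro l
    obtain ⟨a, b, -, rfl⟩ := IsFractionRing.div_surjective (A := F[X]) l
    rw [map_div₀, ← g10_aeval_tA hF, ← g10_aeval_tA hF, ← hθ, ← aeval_comp, ← aeval_comp]
    exact div_mem (hpoly _) (hpoly _)
  have hLpoly : ∀ p : L[X], aeval θ p ∈ IntermediateField.adjoin F {θ} := by
    intro p
    rw [aeval_eq_sum_range]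
    refine sum_mem fun i _ => ?_
    rw [Algebra.smul_def]
    exact mul_mem (hL _) (pow_mem hθm _)
  rw [IntermediateField.mem_adjoin_simple_iff] at hy
  obtain ⟨r, s, rfl⟩ := hy
  exact div_mem (hLpoly _) (hLpoly _)

/-- (2) -/
lemma exists_pow_eq_quot (hF : CompatF F L Ω) (H : GlobHyp ℓ g D ζ) {θ : Ω}
    (hθ : θ ∈ rts (cOver k F L Ω g D)) (x : Ω)
    (hx : ∀ σ : Ω ≃ₐ[L] Ω, σ θ = θ → σ x = x) :
    ∃ (s : ℕ) (A B : F[X]), B ≠ 0 ∧ x ^ ringExpChar k ^ s = aeval θ A / aeval θ B := by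
  have h1 : IsAlgClosed Ω := IsAlgClosure.isAlgClosed L
  have h2 : Algebra.IsAlgebraic L Ω := IsAlgClosure.isAlgebraic
  set E := IntermediateField.adjoin L {θ} with hE
  have h3 : Algebra.IsAlgebraic E Ω := Algebra.IsAlgebraic.tower_top (K := L) E
  have h4 : IsAlgClosure E Ω := ⟨h1, h3⟩
  have hθE : θ ∈ E := IntermediateField.mem_adjoin_simple_self L θ
  obtain ⟨s, y, hy⟩ := g10_pow E Ω x (by
    intro σ
    have h5 := hx (σ.restrictScalars L) (by
      have h6 := σ.commutes ⟨θ, hθE⟩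
      exact h6)
    exact h5)
  have hch : ringExpChar E = ringExpChar k := by
    have h6 : ExpChar E (ringExpChar k) :=
      expChar_of_injective_ringHom (f := ((algebraMap L E).comp ((algebraMap F[X] L).comp
        (C.comp (algebraMap k F))))) (RingHom.injective _) (ringExpChar k)
    exact ringExpChar.eq E (ringExpChar k)
  rw [hch] at hy
  have h7 := g10_mem hF (g.map (algebraMap k F)) (g10_root hF H hθ) (algebraMap E Ω y) y.2
  rw [IntermediateField.mem_adjoin_simple_iff] at h7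
  obtain ⟨A, B, hAB⟩ := h7
  by_cases hB : B = 0
  · refine ⟨s, 0, 1, one_ne_zero, ?_⟩
    rw [hy, hAB, hB]
    simp
  · exact ⟨s, A, B, hB, by rw [hy, hAB]⟩

/-- (2) for `L` -/
lemma exists_pow_mem_L (x : Ω) (hx : ∀ σ : Ω ≃ₐ[L] Ω, σ x = x) :
    ∃ (s : ℕ) (y : L), x ^ ringExpChar L ^ s = algebraMap L Ω y :=
  g10_pow L Ω x hx

private lemma g10_mult_pow {K : Type u} [Field K] (P : K[X]) (n : ℕ) (b : K) (h : P ^ n ≠ 0) :
    rootMultiplicity b (P ^ n) = n * rootMultiplicity b P := by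
  by_cases hP : P = 0
  · subst hP
    have hn : n = 0 := by
      by_contra hn
      exact h (zero_pow hn)
    subst hn
    simp
  · clear h
    induction n with
    | zero => simp
    | succ n ih =>
      rw [pow_succ, rootMultiplicity_mul (mul_ne_zero (pow_ne_zero _ hP) hP), ih]
      ring

private lemma g10_mult_prod {K : Type u} [Field K] (S : Finset K) (m : K → ℕ) (b : K)
    (hb : b ∈ S) : rootMultiplicity b (∏ β ∈ S, (X - C β) ^ m β) = m b := by
  have h0 : ∏ β ∈ S, (X - C β) ^ m β ≠ 0 :=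
    Finset.prod_ne_zero_iff.mpr fun β _ => pow_ne_zero _ (X_sub_C_ne_zero β)
  rw [← Finset.mul_prod_erase S _ hb] at h0 ⊢
  rw [rootMultiplicity_mul h0, rootMultiplicity_X_sub_C_pow]
  have h1 : rootMultiplicity b (∏ β ∈ S.erase b, (X - C β) ^ m β) = 0 := by
    apply rootMultiplicity_eq_zero
    rw [IsRoot.def, eval_prod, Finset.prod_eq_zero_iff]
    rintro ⟨β, hβ, h2⟩
    rw [eval_pow, eval_sub, eval_X, eval_C] at h2
    have h3 : b - β = 0 := by
      by_contra h4
      exact pow_ne_zero _ h4 h2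
    exact (Finset.mem_erase.mp hβ).1 (sub_eq_zero.mp h3).symm
  rw [h1, add_zero]

/-- (3) -/
lemma dvd_of_prod_eq_pow {A : Type u} [Field A] [Algebra F A] {θ : A}
    (hθ : Function.Injective (aeval θ : F[X] →ₐ[F] A)) {ℓ : ℕ} (S : Finset F) (n : F → ℤ)
    (c : F) (hc : c ≠ 0) (P Q : F[X]) (hQ : Q ≠ 0)
    (h : ∏ β ∈ S, (θ - algebraMap F A β) ^ n β = algebraMap F A c * (aeval θ P / aeval θ Q) ^ ℓ) :
    ∀ β ∈ S, (ℓ : ℤ) ∣ n β := by
  intro b hb
  have hQ0 : aeval θ Q ≠ 0 := by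
    intro h0
    rw [← map_zero (aeval θ : F[X] →ₐ[F] A)] at h0
    exact hQ (hθ h0)
  have hθβ : ∀ β : F, θ - algebraMap F A β ≠ 0 := by
    intro β h0
    have h1 : aeval θ (X - C β) = 0 := by
      rw [map_sub, aeval_X, aeval_C, h0]
    rw [← map_zero (aeval θ : F[X] →ₐ[F] A)] at h1
    exact X_sub_C_ne_zero β (hθ h1)
  have hz : ∀ β : F, (θ - algebraMap F A β) ^ n β * (θ - algebraMap F A β) ^ (-(n β)).toNat =
      (θ - algebraMap F A β) ^ (n β).toNat := by
    intro β
    rw [← zpow_natCast, ← zpow_natCast, ← zpow_add₀ (hθβ β)]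
    congr 1
    omega
  have hprod : (∏ β ∈ S, (θ - algebraMap F A β) ^ n β) *
      ∏ β ∈ S, (θ - algebraMap F A β) ^ (-(n β)).toNat =
      ∏ β ∈ S, (θ - algebraMap F A β) ^ (n β).toNat := by
    rw [← Finset.prod_mul_distrib]
    exact Finset.prod_congr rfl fun β _ => hz β
  have hae : ∀ m : F → ℕ, aeval θ (∏ β ∈ S, (X - C β) ^ m β) =
      ∏ β ∈ S, (θ - algebraMap F A β) ^ m β := by
    intro m
    rw [map_prod]
    refine Finset.prod_congr rfl fun β _ => ?_
    rw [map_pow, map_sub, aeval_X, aeval_C]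
  have hpol : (∏ β ∈ S, (X - C β) ^ (n β).toNat) * Q ^ ℓ =
      C c * P ^ ℓ * ∏ β ∈ S, (X - C β) ^ (-(n β)).toNat := by
    apply hθ
    rw [map_mul, map_mul, map_mul, hae, hae, aeval_C, map_pow, map_pow, ← hprod, h, div_pow]
    field_simp
  have hL0 : (∏ β ∈ S, (X - C β) ^ (n β).toNat) * Q ^ ℓ ≠ 0 :=
    mul_ne_zero (Finset.prod_ne_zero_iff.mpr fun β _ => pow_ne_zero _ (X_sub_C_ne_zero β))
      (pow_ne_zero _ hQ)
  have hR0 : C c * P ^ ℓ * ∏ β ∈ S, (X - C β) ^ (-(n β)).toNat ≠ 0 := by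
    rw [← hpol]
    exact hL0
  have hcP : C c * P ^ ℓ ≠ 0 := left_ne_zero_of_mul hR0
  have hP0 : P ^ ℓ ≠ 0 := right_ne_zero_of_mul hcP
  have hm := congrArg (rootMultiplicity b) hpol
  rw [rootMultiplicity_mul hL0, rootMultiplicity_mul hR0, rootMultiplicity_mul hcP,
    rootMultiplicity_C, zero_add, g10_mult_pow Q ℓ b (pow_ne_zero _ hQ), g10_mult_pow P ℓ b hP0,
    g10_mult_prod S _ b hb, g10_mult_prod S _ b hb] at hm
  refine ⟨(rootMultiplicity b P : ℤ) - rootMultiplicity b Q, ?_⟩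
  have hm' : (((n b).toNat : ℤ)) + ℓ * rootMultiplicity b Q =
      ℓ * rootMultiplicity b P + ((-(n b)).toNat : ℤ) := by
    exact_mod_cast hm
  have hn : n b = ((n b).toNat : ℤ) - ((-(n b)).toNat : ℤ) := by omega
  rw [mul_sub]
  linarith

/-- The product over the roots `θ` of `θ - β`. -/
lemma prod_rts_sub (hF : CompatF F L Ω) (H : GlobHyp ℓ g D ζ) (β : F) :
    ∏ θ ∈ rts (cOver k F L Ω g D), (θ - algebraMap F Ω β) =
      (-1) ^ g.natDegree * (algebraMap F Ω (aeval β g) - tA F L Ω) := by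
  have h1 : IsAlgClosed Ω := IsAlgClosure.isAlgClosed L
  have hd := g10_d_ne (k := k) hF H
  have hgood : IsGood ℓ (cOver k F L Ω g D) := isGood_cOver H
  have hs : (locPoly (g.map (algebraMap k F)) (tA F L Ω)
      (aeval (tA F L Ω) (D.map (algebraMap k F)))).Separable := by
    rw [← cOver_eq_locPoly hF]
    exact hgood.separable
  have h2 := eval_sub_eq_prod (H.monic.map (algebraMap k F)) (g10_deg_ne H) hd hs
    (algebraMap F Ω β)
  have h3 := card_rts (H.monic.map (algebraMap k F)) (g10_deg_ne H) hd hs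
  rw [natDegree_map] at h3
  rw [cOver_eq_locPoly hF, ← h3]
  have h4 : algebraMap F Ω (aeval β g) = aeval (algebraMap F Ω β) (g.map (algebraMap k F)) := by
    rw [aeval_algebraMap_apply, aeval_map_algebraMap]
  rw [h4, h2, ← Finset.prod_const, ← Finset.prod_mul_distrib]
  refine Finset.prod_congr rfl fun θ _ => ?_
  ring

lemma tA_injective (hF : CompatF F L Ω) :
    Function.Injective (aeval (tA F L Ω) : F[X] →ₐ[F] Ω) :=
  g10_tA_inj hF

end Pool.Agent.Lib.MP_89bcae_ag.Sup
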