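import Mathlib

section

/-!
# The ramification index is at most the order of the inertia group
-/

open Algebra MulAction

open scoped Pointwise

namespace Pool.Agent.Lib.MP_89bcae_ag

attribute [local instance] Ideal.Quotient.field in
/-- In a finite Galois extension the ramification index is at most the order of the inertia
group. -/
theorem ramificationIdx_le_card_inertia7 {R S G : Type*} [CommRing R] [CommRing S] [Algebra R S]
    [Group G] [MulSemiringAction G S] [IsGaloisGroup G R S] [Finite G] [IsDomain R] [IsDomain S]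
    [Module.Finite R S] [Module.Flat R S] (p : Ideal R) (P : Ideal S) [P.LiesOver p] [p.IsMaximal]
    [P.IsMaximal] : P.ramificationIdx R ≤ Nat.card (P.inertia G) := by
  have hdeg : P.inertiaDeg R = Module.finrank (R ⧸ p) (S ⧸ P) :=
    Ideal.inertiaDeg_eq_of_isMaximal p P
  have hpos : 0 < P.inertiaDeg R := P.inertiaDeg_pos R
  have hfin : FiniteDimensional (R ⧸ p) (S ⧸ P) := by
    apply Module.finite_of_finrank_pos
    rw [← hdeg]
    exact hpos
  have h1 : ((P.inertia G).subgroupOf (stabilizer G P)).index ≤ P.inertiaDeg R := by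
    have h2 : (P.inertia (stabilizer G P)).index = _ := Nat.card_congr
      (Ideal.Quotient.stabilizerQuotientInertiaEquiv G p P).toEquiv
    rw [AddSubgroup.subgroupOf_inertia, h2, hdeg, Nat.card_eq_fintype_card]
    exact AlgEquiv.card_le
  have h3 : Nat.card (stabilizer G P) = Nat.card (P.inertia G) *
      ((P.inertia G).subgroupOf (stabilizer G P)).index := by
    rw [← ((P.inertia G).subgroupOf (stabilizer G P)).card_mul_index,
      Nat.card_congr (Subgroup.subgroupOfEquivOfLe (Ideal.inertia_le_stabilizer (M := G) P)).toEquiv]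
  have h4 : (p.primesOver S).ncard * Nat.card (stabilizer G P) = Nat.card G := by
    rw [← IsInvariant.orbit_eq_primesOver R S G p P]
    simpa using Nat.card_congr (MulAction.orbitProdStabilizerEquivGroup G P)
  have h5 := Ideal.ncard_primesOver_mul_ramificationIdxIn_mul_inertiaDegIn p S G
  rw [Ideal.ramificationIdxIn_eq_ramificationIdx p P G, Ideal.inertiaDegIn_eq_inertiaDeg p P G] at h5
  have h6 : (p.primesOver S).ncard ≠ 0 := by
    intro h
    rw [h, zero_mul] at h4
    exact Nat.card_pos.ne h4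
  have h7 : P.ramificationIdx R * P.inertiaDeg R = Nat.card (stabilizer G P) :=
    Nat.eq_of_mul_eq_mul_left (Nat.pos_of_ne_zero h6) (h5.trans h4.symm)
  rw [h3] at h7
  have h8 : P.ramificationIdx R * P.inertiaDeg R ≤ Nat.card (P.inertia G) * P.inertiaDeg R := by
    rw [h7]
    exact Nat.mul_le_mul_left _ h1
  exact Nat.le_of_mul_le_mul_right h8 hpos

end Pool.Agent.Lib.MP_89bcae_ag

end

section

/-!
# A place of a Galois extension with its inertia group
-/

open Polynomial IsDedekindDomain WithZero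

open scoped Classical Pointwise

namespace Pool.Agent.Lib.MP_89bcae_ag

set_option linter.style.haveILetI false
set_option linter.unusedSectionVars false

lemma finite_quotient7 {R A : Type*} [CommRing R] [CommRing A] [Algebra R A] [Module.Finite R A]
    (p : Ideal R) (P : Ideal A) [P.LiesOver p] [Finite (R ⧸ p)] : Finite (A ⧸ P) := by
  haveI : Module.Finite (R ⧸ p) (A ⧸ P) := inferInstance
  exact Module.finite_of_finite (R ⧸ p)

lemma ramificationIdx_dvd_log7 {A B K L : Type*} [CommRing A] [IsDedekindDomain A] [CommRing B]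
    [IsDedekindDomain B] [Algebra A B] [Module.IsTorsionFree A B] [Field K] [Algebra A K]
    [IsFractionRing A K] [Field L]
    [Algebra B L] [IsFractionRing B L] [Algebra K L] [Algebra A L] [IsScalarTower A K L]
    [IsScalarTower A B L] (v : HeightOneSpectrum A) (w : HeightOneSpectrum B)
    [w.asIdeal.LiesOver v.asIdeal] (x : K) {c : ℕ} (hc : v.asIdeal.ramificationIdx' w.asIdeal = c) :
    (c : ℤ) ∣ log (w.valuation L (algebraMap K L x)) := by
  have h3 := HeightOneSpectrum.valuation_liesOver L v w x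
  rw [← h3, log_pow, hc]
  exact ⟨_, nsmul_eq_mul _ _⟩

/-- A place of a finite Galois extension, its ramification index and its inertia group. -/
theorem exists_place7 (R k K : Type*) [CommRing R] [IsDomain R] [IsDiscreteValuationRing R]
    [Finite (IsLocalRing.ResidueField R)] [Field k]
    [Algebra R k] [IsFractionRing R k] [Field K] [Algebra k K] [Algebra R K] [IsScalarTower R k K]
    [FiniteDimensional k K] [IsGalois k K] :
    ∃ (W : Valuation K ℤᵐ⁰) (e : ℕ) (I : Subgroup (K ≃ₐ[k] K)), 0 < e ∧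
      (∀ r : R, W (algebraMap R K r) =
        (IsDiscreteValuationRing.maximalIdeal R).intValuation r ^ e) ∧
      (∀ σ ∈ I, ∀ x : K, W x ≤ 1 → W (σ x - x) < 1) ∧ e ≤ Nat.card I ∧
      ∀ y : K, y ≠ 0 → (∀ σ ∈ I, σ y = y) → (Nat.card I : ℤ) ∣ log (W y) := by
  -- the integral closure
  set B := integralClosure R K with hB
  haveI : IsDedekindDomain B := integralClosure.isDedekindDomain R k K
  haveI : Module.Finite R B := IsIntegralClosure.finite R k K B
  haveI : IsFractionRing B K := integralClosure.isFractionRing_of_finite_extension k K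
  haveI : SMulCommClass (K ≃ₐ[k] K) R K := ⟨fun σ r x => by
    rw [AlgEquiv.smul_def, AlgEquiv.smul_def, Algebra.smul_def, Algebra.smul_def, map_mul,
      IsScalarTower.algebraMap_apply R k K, AlgEquiv.commutes]⟩
  haveI : IsGaloisGroup (K ≃ₐ[k] K) R B := IsGaloisGroup.of_isFractionRing _ _ _ k K
  have hinjK : Function.Injective (algebraMap R K) := by
    rw [IsScalarTower.algebraMap_eq R k K]
    exact (algebraMap k K).injective.comp (IsFractionRing.injective R k)
  have hinjB : Function.Injective (algebraMap B K) := Subtype.val_injective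
  haveI : FaithfulSMul R B := by
    rw [faithfulSMul_iff_algebraMap_injective]
    intro x y hxy
    exact hinjK (congrArg (algebraMap B K) hxy)
  haveI : Module.IsTorsionFree R B := inferInstance
  haveI : Module.Flat R B := inferInstance
  let v : HeightOneSpectrum R := IsDiscreteValuationRing.maximalIdeal R
  have hvmax : v.asIdeal.IsMaximal := v.isMaximal
  obtain ⟨P, hPmax, hPv⟩ := Ideal.exists_maximal_ideal_liesOver_of_isIntegral (S := B) v.asIdeal
  have hP0 : P ≠ ⊥ := Ideal.ne_bot_of_liesOver_of_ne_bot v.ne_bot P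
  let w : HeightOneSpectrum B := ⟨P, hPmax.isPrime, hP0⟩
  have hwv : w.asIdeal.LiesOver v.asIdeal := hPv
  set e := v.asIdeal.ramificationIdx' w.asIdeal with hedef
  -- the ramification index
  have he : e ≤ Nat.card (P.inertia (K ≃ₐ[k] K)) := by
    rw [hedef, Ideal.ramificationIdx'_eq_ramificationIdx v.asIdeal w.asIdeal v.ne_bot]
    exact ramificationIdx_le_card_inertia7 v.asIdeal P
  have he0 : e ≠ 0 := Ideal.IsDedekindDomain.ramificationIdx'_ne_zero_of_liesOver w.asIdeal v.ne_bot
  set W := w.valuation K with hW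
  have hWk : ∀ r : R, w.valuation K (algebraMap R K r) = v.intValuation r ^ e := by
    intro r
    have h1 := HeightOneSpectrum.valuation_liesOver K v w (algebraMap R k r)
    rw [← IsScalarTower.algebraMap_apply] at h1
    rw [← h1]
    congr 1
    exact HeightOneSpectrum.valuation_of_algebraMap (K := k) v r
  set I := P.inertia (K ≃ₐ[k] K) with hI
  refine ⟨W, e, I, Nat.pos_of_ne_zero he0, hWk, ?_, he, ?_⟩
  · -- the inertia group
    intro σ hσ x hx
    obtain ⟨n, ⟨d, hd⟩, hnd⟩ := HeightOneSpectrum.exists_primeCompl_mul_eq_of_integer w x hx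
    have hd' : W (algebraMap B K d) = 1 := HeightOneSpectrum.valuation_eq_one_iff_notMem w |>.mpr hd
    have hσB : ∀ b : B, algebraMap B K (σ • b) = σ (algebraMap B K b) := fun b => rfl
    have hlt : ∀ b : B, W (σ (algebraMap B K b) - algebraMap B K b) < 1 := by
      intro b
      rw [← hσB, ← map_sub]
      exact (w.valuation_lt_one_iff_mem _).mpr (hσ b)
    have hσd : W (σ (algebraMap B K d)) = 1 := by
      have h1 : σ (algebraMap B K d) =
          algebraMap B K d + (σ (algebraMap B K d) - algebraMap B K d) := by ring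
      rw [h1, Valuation.map_add_eq_of_lt_left _ (by rw [hd']; exact hlt d), hd']
    have h1 : (σ x - x) * (σ (algebraMap B K d) * algebraMap B K d) =
        (σ (algebraMap B K n) - algebraMap B K n) * algebraMap B K d -
          algebraMap B K n * (σ (algebraMap B K d) - algebraMap B K d) := by
      have h2 : σ x * σ (algebraMap B K d) = σ (algebraMap B K n) := by
        rw [← map_mul]
        exact congrArg σ hnd
      have h3 : x * algebraMap B K d = algebraMap B K n := hnd
      linear_combination (algebraMap B K d) * h2 - σ (algebraMap B K d) * h3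
    have h2 := congrArg W h1
    rw [map_mul, map_mul, hσd, hd', mul_one, mul_one] at h2
    rw [h2]
    refine lt_of_le_of_lt (W.map_sub _ _) (max_lt ?_ ?_)
    · rw [map_mul, hd', mul_one]
      exact hlt n
    · rw [map_mul]
      exact lt_of_le_of_lt (mul_le_of_le_one_left' (w.valuation_le_one n)) (hlt d)
  · -- the fixed field
    intro y hy0 hy
    let E := FixedPoints.intermediateField (F := k) (E := K) I
    have hyE : y ∈ E := fun σ => hy σ σ.2
    haveI : IsGaloisGroup I E K := IsGaloisGroup.subgroup (K ≃ₐ[k] K) k K I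
    set A' := integralClosure R E with hA'
    haveI : IsDedekindDomain A' := integralClosure.isDedekindDomain R k E
    haveI : Module.Finite R A' := IsIntegralClosure.finite R k E A'
    haveI : IsFractionRing A' E := integralClosure.isFractionRing_of_finite_extension k E
    haveI hsRE : IsScalarTower R E K := IsScalarTower.of_algebraMap_eq fun r => by
      rw [IsScalarTower.algebraMap_apply R k K, IsScalarTower.algebraMap_apply R k E]
      rfl
    letI algAB : Algebra A' B := RingHom.toAlgebra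
      { toFun := fun a => ⟨algebraMap E K a, a.2.map (IsScalarTower.toAlgHom R E K)⟩
        map_one' := rfl
        map_mul' := fun _ _ => rfl
        map_zero' := rfl
        map_add' := fun _ _ => rfl }
    haveI st1 : IsScalarTower A' B K := IsScalarTower.of_algebraMap_eq fun _ => rfl
    haveI st2 : IsScalarTower R A' B := IsScalarTower.of_algebraMap_eq fun r => by
      apply Subtype.ext
      change algebraMap R K r = algebraMap E K (algebraMap R E r)
      rw [← IsScalarTower.algebraMap_apply]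
    haveI : Module.Finite A' B := Module.Finite.of_restrictScalars_finite R A' B
    haveI : Algebra.IsIntegral A' B := inferInstance
    haveI : IsGaloisGroup I A' B := IsGaloisGroup.of_isFractionRing I A' B E K
    haveI : FaithfulSMul A' B := by
      rw [faithfulSMul_iff_algebraMap_injective]
      intro x z hxz
      apply Subtype.ext
      have h5 : algebraMap E K (x : E) = algebraMap E K (z : E) := congrArg (algebraMap B K) hxz
      exact (algebraMap E K).injective h5
    haveI : FaithfulSMul R A' := by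
      rw [faithfulSMul_iff_algebraMap_injective]
      intro x z hxz
      apply hinjK
      have h5 := congrArg (fun a : A' => algebraMap E K (a : E)) hxz
      change algebraMap E K (algebraMap R E x) = algebraMap E K (algebraMap R E z) at h5
      rwa [← IsScalarTower.algebraMap_apply, ← IsScalarTower.algebraMap_apply] at h5
    haveI : Module.IsTorsionFree A' B := inferInstance
    haveI : Module.Flat A' B := inferInstance
    set P' := P.under A' with hP'
    haveI hPP' : P.LiesOver P' := ⟨rfl⟩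
    haveI hP'max : P'.IsMaximal := Ideal.IsMaximal.under A' P
    haveI hP'v : P'.LiesOver v.asIdeal := by
      refine ⟨?_⟩
      rw [hP', Ideal.under_under]
      exact hPv.over
    have hP'0 : P' ≠ ⊥ := Ideal.ne_bot_of_liesOver_of_ne_bot v.ne_bot P'
    let v' : HeightOneSpectrum A' := ⟨P', hP'max.isPrime, hP'0⟩
    have hwv' : w.asIdeal.LiesOver v'.asIdeal := hPP'
    haveI : Finite (R ⧸ v.asIdeal) := inferInstanceAs (Finite (IsLocalRing.ResidueField R))
    haveI : Finite (A' ⧸ P') := finite_quotient7 v.asIdeal P'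
    have h1 := Ideal.card_inertia_eq_ramificationIdxIn (G := I) P' P
    rw [Ideal.ramificationIdxIn_eq_ramificationIdx P' P I,
      ← Ideal.ramificationIdx'_eq_ramificationIdx P' P hP'0] at h1
    have h2 : Nat.card (P.inertia I) = Nat.card I := by
      apply Nat.card_congr
      refine (Equiv.subtypeUnivEquiv ?_)
      intro σ
      exact σ.2
    exact ramificationIdx_dvd_log7 (K := E) (L := K) v' w (⟨y, hyE⟩ : E) (h1.symm.trans h2)

end Pool.Agent.Lib.MP_89bcae_ag

end

section

/-!
# Cycles on a fibre of `g` at a place where the leading coefficient has a simple zero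
-/

open Polynomial WithZero

open scoped Classical Pointwise

set_option linter.unusedSimpArgs false
set_option linter.unusedVariables false
set_option linter.unusedSectionVars false
set_option linter.style.haveILetI false

namespace Pool.Agent.Lib.MP_89bcae_ag

section Aux

variable {K κ : Type*} [Field K] [Field κ] {v : Valuation K ℤᵐ⁰} {q : v.integer →+* κ}

/-- Distinct roots of a polynomial with separable reduction have distinct reductions. -/
lemma inj_red8 {O κ : Type*} [CommRing O] [IsDomain O] [Field κ] (q : O →+* κ) {G : O[X]}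
    (hs : (G.map q).Separable) {x y : O} (hx : G.eval x = 0) (hy : G.eval y = 0)
    (hxy : q x = q y) : x = y := by
  by_contra hne
  obtain ⟨H, hH⟩ := dvd_iff_isRoot.mpr hx
  rw [hH, eval_mul, eval_sub, eval_X, eval_C] at hy
  have h1 : H.IsRoot y := (mul_eq_zero.mp hy).resolve_left fun h => hne (sub_eq_zero.mp h).symm
  obtain ⟨H', hH'⟩ := dvd_iff_isRoot.mpr h1
  have h2 : G.map q = (X - C (q x)) * ((X - C (q x)) * H'.map q) := by
    conv_lhs => rw [hH, hH']
    rw [Polynomial.map_mul, Polynomial.map_mul, Polynomial.map_sub, Polynomial.map_sub, map_X,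
      map_C, map_C, hxy]
  rw [h2] at hs
  have h3 : (X - C (q x)) * (X - C (q x)) ∣ (X - C (q x)) * ((X - C (q x)) * H'.map q) := by
    rw [← mul_assoc]
    exact Dvd.intro _ rfl
  exact not_isUnit_X_sub_C _ (hs.squarefree _ h3)

/-- The factorisation of a polynomial over the valuation ring whose leading coefficient is not a
unit: there is exactly one root which is not integral. -/
theorem exists_pole8 (hq : ∀ x : v.integer, q x = 0 ↔ v x < 1) {D : v.integer[X]} {A : Finset K}
    {a : K} (hD : D.map v.integer.subtype = C a * ∏ α ∈ A, (X - C α)) {n : ℕ} (hn : A.card = n + 1)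
    (hdeg : (D.map q).natDegree = n) (hlc : q (D.coeff n) ≠ 0) :
    ∃ α₀ ∈ A, 1 < v α₀ ∧ v (a * α₀) = 1 ∧ ∀ α ∈ A, α ≠ α₀ → v α ≤ 1 := by
  have hq1 : ∀ x : v.integer, q x ≠ 0 ↔ v x = 1 := fun x => by
    rw [Ne, hq, not_lt]
    exact ⟨fun h => le_antisymm x.2 h, fun h => h.ge⟩
  obtain ⟨A', hA'⟩ : ∃ A', A' = A.filter fun α => v α ≤ 1 := ⟨_, rfl⟩
  obtain ⟨J, hJ⟩ : ∃ J, J = A.filter fun α => ¬ v α ≤ 1 := ⟨_, rfl⟩
  obtain ⟨β, hβ⟩ : ∃ β : K → v.integer, ∀ x (hx : v x ≤ 1), β x = ⟨x, hx⟩ :=
    ⟨fun x => if hx : v x ≤ 1 then ⟨x, hx⟩ else 0, fun x hx => dif_pos hx⟩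
  have hβs : ∀ x, v x ≤ 1 → v.integer.subtype (β x) = x := fun x hx => by rw [hβ x hx]; rfl
  have hJ1 : ∀ α ∈ J, 1 < v α ∧ α ≠ 0 ∧ v α⁻¹ < 1 := by
    intro α hα
    rw [hJ, Finset.mem_filter, not_le] at hα
    have h1 : α ≠ 0 := by
      rintro rfl
      rw [map_zero] at hα
      exact absurd hα.2 (not_lt.mpr zero_le_one)
    refine ⟨hα.2, h1, ?_⟩
    rw [map_inv₀]
    exact inv_lt_one_of_one_lt₀ hα.2
  obtain ⟨Q, hQ⟩ : ∃ Q : v.integer[X],
    Q = (∏ α ∈ A', (X - C (β α))) * ∏ α ∈ J, (1 - C (β α⁻¹) * X) := ⟨_, rfl⟩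
  obtain ⟨c, hc⟩ : ∃ c : K, c = a * ∏ α ∈ J, (-α) := ⟨_, rfl⟩
  have hDQ : D.map v.integer.subtype = C c * Q.map v.integer.subtype := by
    have h1 : ∏ α ∈ A, (X - C α : K[X]) = (∏ α ∈ A', (X - C α)) * ∏ α ∈ J, (X - C α) := by
      rw [hA', hJ, Finset.prod_filter_mul_prod_filter_not]
    have h2 : Q.map v.integer.subtype = (∏ α ∈ A', (X - C α)) * ∏ α ∈ J, (1 - C α⁻¹ * X) := by
      rw [hQ, Polynomial.map_mul, Polynomial.map_prod, Polynomial.map_prod]
      congr 1
      · refine Finset.prod_congr rfl fun α hα => ?_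
        rw [hA', Finset.mem_filter] at hα
        rw [Polynomial.map_sub, map_X, map_C, hβs α hα.2]
      · refine Finset.prod_congr rfl fun α hα => ?_
        rw [Polynomial.map_sub, Polynomial.map_one, Polynomial.map_mul, map_X, map_C,
          hβs _ (hJ1 α hα).2.2.le]
    have h3 : ∏ α ∈ J, (X - C α : K[X]) = C (∏ α ∈ J, (-α)) * ∏ α ∈ J, (1 - C α⁻¹ * X) := by
      rw [map_prod, ← Finset.prod_mul_distrib]
      refine Finset.prod_congr rfl fun α hα => ?_
      have h4 : C α * C α⁻¹ = (1 : K[X]) := by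
        rw [← C_mul, mul_inv_cancel₀ (hJ1 α hα).2.1, C_1]
      rw [C_neg]
      linear_combination (-X) * h4
    rw [hD, h1, h2, h3, hc, C_mul]
    ring
  have hQq : Q.map q = ∏ α ∈ A', (X - C (q (β α))) := by
    rw [hQ, Polynomial.map_mul, Polynomial.map_prod, Polynomial.map_prod]
    have h1 : ∏ α ∈ J, (1 - C (β α⁻¹) * X : v.integer[X]).map q = 1 := by
      refine Finset.prod_eq_one fun α hα => ?_
      have h2 : q (β α⁻¹) = 0 := by
        rw [hq, hβ _ (hJ1 α hα).2.2.le]
        exact (hJ1 α hα).2.2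
      rw [Polynomial.map_sub, Polynomial.map_one, Polynomial.map_mul, map_X, map_C, h2, C_0,
        zero_mul, sub_zero]
    rw [h1, mul_one]
    refine Finset.prod_congr rfl fun α _ => ?_
    rw [Polynomial.map_sub, map_X, map_C]
  have hQmon : (Q.map q).Monic := by
    rw [hQq]
    exact monic_prod_X_sub_C _ _
  have hQdeg : (Q.map q).natDegree = A'.card := by
    rw [hQq, natDegree_prod_of_monic _ _ fun α _ => monic_X_sub_C _]
    simp
  have hcoef : ∀ i, ((D.coeff i : v.integer) : K) = c * ((Q.coeff i : v.integer) : K) := by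
    intro i
    have h1 := congrArg (fun p => coeff p i) hDQ
    simp only [coeff_map, coeff_C_mul] at h1
    exact h1
  have hc1 : v c ≤ 1 := by
    have h1 : v ((Q.coeff A'.card : v.integer) : K) = 1 := by
      rw [← hq1]
      have h2 : (Q.map q).coeff A'.card = 1 := by
        rw [← hQdeg]
        exact hQmon
      rw [coeff_map] at h2
      rw [h2]
      exact one_ne_zero
    have h3 := congrArg v (hcoef A'.card)
    rw [map_mul, h1, mul_one] at h3
    rw [← h3]
    exact (D.coeff A'.card).2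
  have hc2 : 1 ≤ v c := by
    have h1 : v ((D.coeff n : v.integer) : K) = 1 := (hq1 _).mp hlc
    have h3 := congrArg v (hcoef n)
    rw [map_mul, h1] at h3
    rw [h3]
    exact mul_le_of_le_one_right' (Q.coeff n).2
  have hc3 : v c = 1 := le_antisymm hc1 hc2
  have hDO : D = C (⟨c, hc1⟩ : v.integer) * Q := by
    apply Polynomial.map_injective v.integer.subtype Subtype.val_injective
    rw [hDQ, Polynomial.map_mul, map_C]
    rfl
  have hcq : q ⟨c, hc1⟩ ≠ 0 := (hq1 _).mpr hc3
  have hcard : A'.card = n := by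
    rw [← hdeg, hDO, Polynomial.map_mul, map_C, natDegree_C_mul hcq, hQdeg]
  have hJcard : J.card = 1 := by
    have h1 : A'.card + J.card = A.card := by
      rw [hA', hJ]
      exact Finset.card_filter_add_card_filter_not _
    omega
  obtain ⟨α₀, hα₀⟩ := Finset.card_eq_one.mp hJcard
  have hm : α₀ ∈ J := by rw [hα₀]; exact Finset.mem_singleton_self _
  refine ⟨α₀, ?_, (hJ1 α₀ hm).1, ?_, fun α hα hne => ?_⟩
  · rw [hJ, Finset.mem_filter] at hm
    exact hm.1
  · rw [hc, hα₀, Finset.prod_singleton, mul_neg, Valuation.map_neg] at hc3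
    exact hc3
  · by_contra hcon
    have h1 : α ∈ J := by
      rw [hJ, Finset.mem_filter]
      exact ⟨hα, hcon⟩
    rw [hα₀, Finset.mem_singleton] at h1
    exact hne h1

/-- The value of a polynomial over the valuation ring at an element outside of it. -/
lemma val_eval8 (h : v.integer[X]) {d : ℕ} (hd : h.natDegree ≤ d)
    (hc : v ((h.coeff d : v.integer) : K) = 1) {x : K} (hx : 1 < v x) :
    v ((h.map v.integer.subtype).eval x) = v x ^ d := by
  have hx0 : v x ≠ 0 := (zero_lt_one.trans hx).ne'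
  rw [eval_map, eval₂_eq_sum_range' v.integer.subtype (Nat.lt_succ_of_le hd), Finset.sum_range_succ]
  have h1 : v (v.integer.subtype (h.coeff d) * x ^ d) = v x ^ d := by
    rw [map_mul, map_pow]
    have h2 : v (v.integer.subtype (h.coeff d)) = 1 := hc
    rw [h2, one_mul]
  have h3 : v (∑ i ∈ Finset.range d, v.integer.subtype (h.coeff i) * x ^ i) <
      v (v.integer.subtype (h.coeff d) * x ^ d) := by
    rw [h1]
    apply Valuation.map_sum_lt v (pow_ne_zero d hx0)
    intro i hi
    rw [Finset.mem_range] at hi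
    rw [map_mul, map_pow]
    have h4 : v (v.integer.subtype (h.coeff i)) ≤ 1 := (h.coeff i).2
    calc v (v.integer.subtype (h.coeff i)) * v x ^ i ≤ v x ^ i := mul_le_of_le_one_left' h4
      _ < v x ^ d := pow_lt_pow_right₀ hx hi
  rw [add_comm, Valuation.map_add_eq_of_lt_left _ h3, h1]

/-- The differences of the elements of the fibre over the pole. -/
lemma val_sub8 {g : v.integer[X]} (hg : g.Monic) {m : ℕ} (hm : g.natDegree = m)
    (hm1 : v (m : K) = 1) {α₀ : K} (hα₀ : 1 < v α₀) {T : Finset K}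
    (hT : g.map v.integer.subtype - C α₀ = ∏ b ∈ T, (X - C b)) {x : K} (hx : x ∈ T) {y : K}
    (hy : y ∈ T) (hxy : x ≠ y) : v (x - y) = v x := by
  have hm0 : m ≠ 0 := by
    rintro rfl
    rw [Nat.cast_zero, map_zero] at hm1
    exact zero_ne_one hm1
  have hTcard : T.card = m := by
    have h1 := congrArg natDegree hT
    rw [natDegree_sub_C, hg.natDegree_map, hm, natDegree_prod_of_monic _ _
      fun α _ => monic_X_sub_C _] at h1
    simpa using h1.symm
  have hTeval : ∀ z ∈ T, (g.map v.integer.subtype).eval z = α₀ := by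
    intro z hz
    have h1 := congrArg (eval z) hT
    rw [eval_sub, eval_C, eval_prod, Finset.prod_eq_zero hz (by simp), sub_eq_zero] at h1
    exact h1
  have hint : ∀ z : K, v z ≤ 1 → v ((g.map v.integer.subtype).eval z) ≤ 1 := by
    intro z hz
    have h1 : (g.map v.integer.subtype).eval z = v.integer.subtype (g.eval ⟨z, hz⟩) := by
      rw [eval_map, ← eval₂_at_apply]
      rfl
    rw [h1]
    exact (g.eval ⟨z, hz⟩).2
  have hTv : ∀ z ∈ T, 1 < v z := by
    intro z hz
    by_contra hcon
    rw [not_lt] at hcon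
    have h1 := hint z hcon
    rw [hTeval z hz] at h1
    exact absurd hα₀ (not_lt.mpr h1)
  have hTpow : ∀ z ∈ T, v z ^ m = v α₀ := by
    intro z hz
    rw [← hTeval z hz]
    refine (val_eval8 g hm.le ?_ (hTv z hz)).symm
    have h1 : g.coeff m = 1 := by rw [← hm]; exact hg
    rw [h1]
    exact map_one v
  have hTeq : ∀ z ∈ T, v z = v x := by
    intro z hz
    exact (pow_left_inj₀ zero_le zero_le hm0).mp ((hTpow z hz).trans (hTpow x hx).symm)
  have hx0 : v x ≠ 0 := (zero_lt_one.trans (hTv x hx)).ne'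
  -- the derivative
  have hder : (derivative (g.map v.integer.subtype)).eval x = ∏ z ∈ T.erase x, (x - z) := by
    have h1 := congrArg derivative hT
    rw [derivative_sub, derivative_C, sub_zero, ← Finset.mul_prod_erase T _ hx, derivative_mul,
      derivative_sub, derivative_X, derivative_C, sub_zero, one_mul] at h1
    rw [h1, eval_add, eval_mul, eval_sub, eval_X, eval_C, sub_self, zero_mul, add_zero, eval_prod]
    simp
  have hval : v (∏ z ∈ T.erase x, (x - z)) = v x ^ (m - 1) := by
    rw [← hder, derivative_map]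
    refine val_eval8 (derivative g) ?_ ?_ (hTv x hx)
    · have h1 := natDegree_derivative_le g
      omega
    · rw [coeff_derivative]
      have h1 : g.coeff (m - 1 + 1) = 1 := by
        rw [Nat.sub_add_cancel (Nat.pos_of_ne_zero hm0), ← hm]
        exact hg
      have h2 : ((m - 1 : ℕ) : v.integer) + 1 = (m : v.integer) := by
        rw [← Nat.cast_succ]
        congr 1
        omega
      rw [h1, one_mul, h2]
      exact hm1
  have hle : ∀ z ∈ T.erase x, v ((x - z) / x) ≤ 1 := by
    intro z hz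
    rw [Finset.mem_erase] at hz
    rw [map_div₀]
    apply div_le_one_of_le₀
    · refine (v.map_sub x z).trans (max_le le_rfl (hTeq z hz.2).le)
    · exact zero_le
  have hprod : ∏ z ∈ T.erase x, v ((x - z) / x) = 1 := by
    have h1 : ∏ z ∈ T.erase x, v ((x - z) / x) = v (∏ z ∈ T.erase x, (x - z)) / v x ^ (m - 1) := by
      rw [map_prod]
      simp only [map_div₀]
      rw [Finset.prod_div_distrib, Finset.prod_const, Finset.card_erase_of_mem hx, hTcard]
    rw [h1, hval, div_self (pow_ne_zero _ hx0)]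
  have hall := (Finset.prod_eq_one_iff_of_le_one' hle).mp hprod y
    (Finset.mem_erase.mpr ⟨hxy.symm, hy⟩)
  rw [map_div₀, div_eq_one_iff_eq hx0] at hall
  exact hall

/-- **The inertia group is transitive on the fibre over the pole.** -/
theorem exists_cycle_aux8 {k : Type*} [Field k] [Algebra k K]
    (hq : ∀ x : v.integer, q x = 0 ↔ v x < 1) (I : Subgroup (K ≃ₐ[k] K)) [Finite I]
    (hI1 : ∀ σ ∈ I, ∀ x, v (σ x) = v x) (hI2 : ∀ σ ∈ I, ∀ x, v x ≤ 1 → v (σ x - x) < 1)
    {e : ℕ} (he0 : 0 < e) (he : e ≤ Nat.card I) {g D : v.integer[X]} (hg : g.Monic)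
    (hgm : v (g.natDegree : K) = 1) {S A : Finset K} {a : K} (ha : v a = exp (-(e : ℤ)))
    (hD : D.map v.integer.subtype = C a * ∏ α ∈ A, (X - C α)) {n : ℕ} (hn : A.card = n + 1)
    (hdeg : (D.map q).natDegree = n) (hlc : q (D.coeff n) ≠ 0)
    (hgS : ∀ α ∈ A, g.map v.integer.subtype - C α =
      ∏ b ∈ S.filter (fun b => (g.map v.integer.subtype).eval b = α), (X - C b))
    (hsep : ((D.comp g).map q).Separable)
    (hgσ : ∀ σ ∈ I, ∀ x, (g.map v.integer.subtype).eval (σ x) =
      σ ((g.map v.integer.subtype).eval x))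
    (hDσ : ∀ σ ∈ I, ∀ x, (D.map v.integer.subtype).eval (σ x) =
      σ ((D.map v.integer.subtype).eval x))
    (hgen : ∀ σ ∈ I, (∀ b ∈ S, σ b = b) → σ = 1)
    (hSA : ∀ b ∈ S, (g.map v.integer.subtype).eval b ∈ A) :
    ∃ α₀ ∈ A, ∀ x ∈ S, ∀ y ∈ S, (g.map v.integer.subtype).eval x = α₀ →
      (g.map v.integer.subtype).eval y = α₀ → ∃ σ ∈ I, σ x = y ∧
        ∀ b ∈ S, (g.map v.integer.subtype).eval b ≠ α₀ → σ b = b := by
  obtain ⟨α₀, hα₀A, hα₀1, haα₀, hα₀u⟩ := exists_pole8 hq hD hn hdeg hlc
  obtain ⟨m, hm⟩ : ∃ m, g.natDegree = m := ⟨_, rfl⟩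
  rw [hm] at hgm
  have hm0 : m ≠ 0 := by
    rintro rfl
    rw [Nat.cast_zero, map_zero] at hgm
    exact zero_ne_one hgm
  set gK := g.map v.integer.subtype with hgK
  obtain ⟨T, hT⟩ : ∃ T, T = S.filter fun b => gK.eval b = α₀ := ⟨_, rfl⟩
  have hTmem : ∀ b, b ∈ T ↔ gK.eval b = α₀ := by
    intro b
    rw [hT, Finset.mem_filter]
    constructor
    · exact fun h => h.2
    · intro h
      refine ⟨?_, h⟩
      have h1 := congrArg (eval b) (hgS α₀ hα₀A)
      rw [eval_sub, eval_C, h, sub_self, eval_prod, eq_comm, Finset.prod_eq_zero_iff] at h1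
      obtain ⟨b', hb', h2⟩ := h1
      rw [eval_sub, eval_X, eval_C, sub_eq_zero] at h2
      rw [h2]
      exact (Finset.mem_filter.mp hb').1
  have hTprod : gK - C α₀ = ∏ b ∈ T, (X - C b) := by rw [hT]; exact hgS α₀ hα₀A
  have hTcard : T.card = m := by
    have h1 := congrArg natDegree hTprod
    rw [natDegree_sub_C, hg.natDegree_map, hm, natDegree_prod_of_monic _ _
      fun α _ => monic_X_sub_C _] at h1
    simpa using h1.symm
  have hTsub := fun {x : K} (hx : x ∈ T) {y : K} (hy : y ∈ T) (hxy : x ≠ y) =>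
    val_sub8 hg hm hgm hα₀1 hTprod hx hy hxy
  have hev : ∀ (p : v.integer[X]) (z : K) (hz : v z ≤ 1),
      (p.map v.integer.subtype).eval z = ((p.eval ⟨z, hz⟩ : v.integer) : K) := by
    intro p z hz
    have h1 : (p.map v.integer.subtype).eval z = v.integer.subtype (p.eval ⟨z, hz⟩) := by
      rw [eval_map, ← eval₂_at_apply]
      rfl
    exact h1
  have hTv : ∀ z ∈ T, 1 < v z := by
    intro z hz
    by_contra hcon
    rw [not_lt] at hcon
    have h1 := (g.eval ⟨z, hcon⟩).2
    have h2 : v (gK.eval z) ≤ 1 := by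
      rw [hev g z hcon]
      exact h1
    rw [(hTmem z).mp hz] at h2
    exact absurd hα₀1 (not_lt.mpr h2)
  have hgcoeff : v ((g.coeff m : v.integer) : K) = 1 := by
    have h1 : g.coeff m = 1 := by rw [← hm]; exact hg
    rw [h1]
    exact map_one v
  have hTpow : ∀ z ∈ T, v z ^ m = v α₀ := by
    intro z hz
    rw [← (hTmem z).mp hz]
    exact (val_eval8 g hm.le hgcoeff (hTv z hz)).symm
  -- the roots in the other fibres
  have hother : ∀ b ∈ S, gK.eval b ≠ α₀ → v b ≤ 1 := by
    intro b hb hne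
    by_contra hcon
    rw [not_le] at hcon
    have h1 : v (gK.eval b) = v b ^ m := val_eval8 g hm.le hgcoeff hcon
    have h2 := hα₀u _ (hSA b hb) hne
    rw [h1] at h2
    exact absurd (one_lt_pow₀ hcon hm0) (not_lt.mpr h2)
  have hAev : ∀ α ∈ A, (D.map v.integer.subtype).eval α = 0 := by
    intro α hα
    rw [hD, eval_mul, eval_prod, Finset.prod_eq_zero hα (by simp), mul_zero]
  have hA0 : a ≠ 0 := by
    intro h0
    rw [h0, map_zero] at ha
    exact exp_ne_zero ha.symm
  have hAmem : ∀ α, (D.map v.integer.subtype).eval α = 0 → α ∈ A := by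
    intro α hα
    rw [hD, eval_mul, eval_C, eval_prod, mul_eq_zero, Finset.prod_eq_zero_iff] at hα
    rcases hα with hα | ⟨α', h1, h2⟩
    · exact absurd hα hA0
    · rw [eval_sub, eval_X, eval_C, sub_eq_zero] at h2
      rw [h2]
      exact h1
  have hσA : ∀ σ ∈ I, ∀ α ∈ A, σ α ∈ A := by
    intro σ hσ α hα
    apply hAmem
    rw [hDσ σ hσ, hAev α hα, map_zero]
  have hσα₀ : ∀ σ ∈ I, σ α₀ = α₀ := by
    intro σ hσ
    by_contra hne
    have h1 := hα₀u _ (hσA σ hσ α₀ hα₀A) hne
    rw [hI1 σ hσ] at h1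
    exact absurd hα₀1 (not_lt.mpr h1)
  have hσT : ∀ σ ∈ I, ∀ x ∈ T, σ x ∈ T := by
    intro σ hσ x hx
    rw [hTmem, hgσ σ hσ, (hTmem x).mp hx, hσα₀ σ hσ]
  have hfix : ∀ σ ∈ I, ∀ b ∈ S, gK.eval b ≠ α₀ → σ b = b := by
    intro σ hσ b hb hne
    have h1 := hother b hb hne
    have h2 : v (σ b) ≤ 1 := by rw [hI1 σ hσ]; exact h1
    have hroot : ∀ (z : K) (hz : v z ≤ 1), gK.eval z ∈ A →
        (D.comp g).eval (⟨z, hz⟩ : v.integer) = 0 := by
      intro z hz hzA
      have h3 := hev (D.comp g) z hz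
      rw [Polynomial.map_comp, eval_comp, hAev _ hzA] at h3
      exact Subtype.ext h3.symm
    have h4 : gK.eval (σ b) ∈ A := by
      rw [hgσ σ hσ]
      exact hσA σ hσ _ (hSA b hb)
    have h5 := inj_red8 q hsep (hroot (σ b) h2 h4) (hroot b h1 (hSA b hb)) (by
      rw [← sub_eq_zero, ← map_sub, hq]
      exact hI2 σ hσ b h1)
    exact congrArg Subtype.val h5
  have hone : ∀ σ ∈ I, ∀ x ∈ T, σ x = x → σ = 1 := by
    intro σ hσ x hx hσx
    apply hgen σ hσ
    intro b hb
    by_cases hbα : gK.eval b = α₀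
    · have hbT : b ∈ T := (hTmem b).mpr hbα
      by_contra hne
      have hx0 : x ≠ 0 := by
        rintro rfl
        have h1 := hTv 0 hx
        rw [map_zero] at h1
        exact absurd h1 (not_lt.mpr zero_le_one)
      have hvx0 : v x ≠ 0 := (Valuation.ne_zero_iff v).mpr hx0
      have hvb : v b = v x :=
        (pow_left_inj₀ zero_le zero_le hm0).mp ((hTpow b hbT).trans (hTpow x hx).symm)
      have h1 : v (b / x) ≤ 1 := by rw [map_div₀, hvb, div_self hvx0]
      have h2 := hI2 σ hσ (b / x) h1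
      rw [map_div₀, hσx, ← sub_div, map_div₀, div_lt_one₀ (zero_lt_iff.mpr hvx0)] at h2
      have h3 := hTsub (hσT σ hσ b hbT) hbT hne
      have h4 : v (σ b) = v x := (hI1 σ hσ b).trans hvb
      rw [h3, h4] at h2
      exact lt_irrefl _ h2
    · exact hfix σ hσ b hb hbα
  -- the count
  obtain ⟨x₀, hx₀⟩ : T.Nonempty := by
    rw [← Finset.card_pos, hTcard]
    exact Nat.pos_of_ne_zero hm0
  have hme : m ≤ e := by
    have h1 := hTpow x₀ hx₀
    rw [map_mul, ha] at haα₀
    have h2 : v α₀ = exp (e : ℤ) := by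
      have h3 : exp (-(e : ℤ)) * exp (e : ℤ) = 1 := by
        rw [← exp_add, neg_add_cancel, exp_zero]
      rw [← h3] at haα₀
      exact mul_left_cancel₀ exp_ne_zero haα₀
    rw [h2] at h1
    have hv0 : v x₀ ≠ 0 := (zero_lt_one.trans (hTv x₀ hx₀)).ne'
    rw [← exp_log hv0, ← exp_nsmul, exp_inj] at h1
    have h4 : (m : ℤ) ∣ e := ⟨log (v x₀), by rw [← h1, nsmul_eq_mul]⟩
    exact Nat.le_of_dvd he0 (Int.natCast_dvd_natCast.mp h4)
  have hbij : ∀ (x : K) (hx : x ∈ T), Function.Bijective
      (fun σ : I => (⟨(σ : K ≃ₐ[k] K) x, hσT σ σ.2 x hx⟩ : T)) := by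
    intro x hx
    have hinj : Function.Injective
        (fun σ : I => (⟨(σ : K ≃ₐ[k] K) x, hσT σ σ.2 x hx⟩ : T)) := by
      intro σ τ hστ
      have h3 : (σ : K ≃ₐ[k] K) x = (τ : K ≃ₐ[k] K) x := congrArg Subtype.val hστ
      have h4 : (τ⁻¹ * σ : I) = 1 := by
        apply Subtype.ext
        apply hone _ (τ⁻¹ * σ).2 x hx
        change (τ : K ≃ₐ[k] K).symm ((σ : K ≃ₐ[k] K) x) = x
        rw [h3, AlgEquiv.symm_apply_apply]
      exact (inv_mul_eq_one.mp h4).symm
    refine (Nat.bijective_iff_injective_and_card _).mpr ⟨hinj, ?_⟩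
    have h5 := Nat.card_le_card_of_injective _ hinj
    rw [Nat.card_eq_fintype_card (α := T), Fintype.card_coe, hTcard] at h5 ⊢
    omega
  refine ⟨α₀, hα₀A, fun x hx y hy hxα hyα => ?_⟩
  obtain ⟨σ, hσ⟩ := (hbij x ((hTmem x).mpr hxα)).2 ⟨y, (hTmem y).mpr hyα⟩
  exact ⟨σ, σ.2, congrArg Subtype.val hσ, hfix σ σ.2⟩

end Aux

/-- The residue field of a valuation ring. -/
lemma exists_residue8 {K : Type*} [Field K] (v : Valuation K ℤᵐ⁰) :
    ∃ q : v.integer →+* IsLocalRing.ResidueField v.valuationSubring,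
      ∀ x : v.integer, q x = 0 ↔ v x < 1 := by
  let e : v.integer →+* v.valuationSubring :=
    { toFun := fun x => ⟨x, x.2⟩
      map_one' := rfl
      map_mul' := fun _ _ => rfl
      map_zero' := rfl
      map_add' := fun _ _ => rfl }
  refine ⟨(IsLocalRing.residue v.valuationSubring).comp e, fun x => ?_⟩
  rw [RingHom.comp_apply, IsLocalRing.residue_eq_zero_iff,
    ValuationSubring.valuation_lt_one_iff]
  exact (Valuation.isEquiv_iff_val_lt_one.mp
    (Valuation.isEquiv_valuation_valuationSubring v)).symm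

section Main

variable {R k K : Type*} [CommRing R] [IsDomain R] [IsDiscreteValuationRing R] [Field k]
    [Algebra R k] [IsFractionRing R k] [Field K] [Algebra k K] [Algebra R K] [IsScalarTower R k K]
    [FiniteDimensional k K] [IsGalois k K]

/-- **Cycles on a fibre.** -/
theorem exists_cycle8 {g D : R[X]} (hg : g.Monic)
    (hgm : (g.natDegree : IsLocalRing.ResidueField R) ≠ 0) {n : ℕ} (hn : D.natDegree = n + 1)
    (hlc1 : D.leadingCoeff ∈ IsLocalRing.maximalIdeal R)
    (hlc2 : D.leadingCoeff ∉ IsLocalRing.maximalIdeal R ^ 2)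
    (hlc3 : D.coeff n ∉ IsLocalRing.maximalIdeal R)
    (hsep : ((D.map (IsLocalRing.residue R)).comp (g.map (IsLocalRing.residue R))).Separable)
    (S A : Finset K) (hDA : D.map (algebraMap R K) =
      C (algebraMap R K D.leadingCoeff) * ∏ α ∈ A, (X - C α))
    (hgS : ∀ α ∈ A, g.map (algebraMap R K) - C α =
      ∏ b ∈ S.filter (fun b => (g.map (algebraMap R K)).eval b = α), (X - C b))
    (hSA : ∀ b ∈ S, (g.map (algebraMap R K)).eval b ∈ A)
    (hgen : ∀ σ : K ≃ₐ[k] K, (∀ b ∈ S, σ b = b) → σ = 1) :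
    ∃ α₀ ∈ A, ∀ x ∈ S, ∀ y ∈ S, (g.map (algebraMap R K)).eval x = α₀ →
      (g.map (algebraMap R K)).eval y = α₀ → ∃ σ : K ≃ₐ[k] K, σ x = y ∧
        ∀ b ∈ S, (g.map (algebraMap R K)).eval b ≠ α₀ → σ b = b := by
  -- the integral closure
  set B := integralClosure R K with hB
  haveI : IsDedekindDomain B := integralClosure.isDedekindDomain R k K
  haveI : Module.Finite R B := IsIntegralClosure.finite R k K B
  haveI : IsFractionRing B K := integralClosure.isFractionRing_of_finite_extension k K
  haveI : SMulCommClass (K ≃ₐ[k] K) R K := ⟨fun σ r x => by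
    rw [AlgEquiv.smul_def, AlgEquiv.smul_def, Algebra.smul_def, Algebra.smul_def, map_mul,
      IsScalarTower.algebraMap_apply R k K, AlgEquiv.commutes]⟩
  haveI : IsGaloisGroup (K ≃ₐ[k] K) R B := IsGaloisGroup.of_isFractionRing _ _ _ k K
  have hinjK : Function.Injective (algebraMap R K) := by
    rw [IsScalarTower.algebraMap_eq R k K]
    exact (algebraMap k K).injective.comp (IsFractionRing.injective R k)
  have hinjB : Function.Injective (algebraMap B K) := Subtype.val_injective
  haveI : FaithfulSMul R B := by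
    rw [faithfulSMul_iff_algebraMap_injective]
    intro x y hxy
    exact hinjK (congrArg (algebraMap B K) hxy)
  haveI : Module.IsTorsionFree R B := inferInstance
  haveI : Module.Flat R B := inferInstance
  let v : IsDedekindDomain.HeightOneSpectrum R := IsDiscreteValuationRing.maximalIdeal R
  have hvmax : v.asIdeal.IsMaximal := v.isMaximal
  obtain ⟨P, hPmax, hPv⟩ := Ideal.exists_maximal_ideal_liesOver_of_isIntegral (S := B) v.asIdeal
  have hP0 : P ≠ ⊥ := Ideal.ne_bot_of_liesOver_of_ne_bot v.ne_bot P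
  let w : IsDedekindDomain.HeightOneSpectrum B := ⟨P, hPmax.isPrime, hP0⟩
  have hwv : w.asIdeal.LiesOver v.asIdeal := hPv
  -- the ramification index
  have he : v.asIdeal.ramificationIdx' w.asIdeal ≤ Nat.card (P.inertia (K ≃ₐ[k] K)) := by
    rw [Ideal.ramificationIdx'_eq_ramificationIdx v.asIdeal w.asIdeal v.ne_bot]
    exact ramificationIdx_le_card_inertia7 v.asIdeal P
  set e := v.asIdeal.ramificationIdx' w.asIdeal with hedef
  set W := w.valuation K with hW
  have hWk : ∀ r : R, W (algebraMap R K r) = v.intValuation r ^ e := by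
    intro r
    have h1 := IsDedekindDomain.HeightOneSpectrum.valuation_liesOver K v w (algebraMap R k r)
    rw [← IsScalarTower.algebraMap_apply] at h1
    rw [hW, ← h1]
    congr 1
    exact IsDedekindDomain.HeightOneSpectrum.valuation_of_algebraMap (K := k) v r
  have hvm : ∀ (r : R) (n : ℕ), v.intValuation r ≤ exp (-(n : ℤ)) ↔
      r ∈ IsLocalRing.maximalIdeal R ^ n := fun r n => v.intValuation_le_pow_iff_mem r n
  have hlc0 : D.leadingCoeff ≠ 0 := by
    intro h0
    rw [h0] at hlc2
    exact hlc2 (Ideal.zero_mem _)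
  have hvD : v.intValuation D.leadingCoeff = exp (-1 : ℤ) := by
    have h1 := (hvm D.leadingCoeff 1).mpr (by rw [pow_one]; exact hlc1)
    have h3 : ¬ v.intValuation D.leadingCoeff ≤ exp (-((2 : ℕ) : ℤ)) := fun h4 =>
      hlc2 ((hvm D.leadingCoeff 2).mp h4)
    have h5 : v.intValuation D.leadingCoeff ≠ 0 := v.intValuation_ne_zero _ hlc0
    have h6 := exp_log h5
    rw [← h6] at h1 h3 ⊢
    rw [exp_le_exp] at h1 h3
    rw [exp_inj]
    push_cast at h1 h3
    omega
  have ha : W (algebraMap R K D.leadingCoeff) = exp (-(e : ℤ)) := by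
    rw [hWk, hvD, ← exp_nsmul]
    simp
  -- integrality
  have hWB : ∀ x : B, W x ≤ 1 := fun x => w.valuation_le_one x
  have hWP : ∀ x : B, W x < 1 ↔ x ∈ P := fun x => w.valuation_lt_one_iff_mem x
  have hWR : ∀ r : R, W (algebraMap R K r) ≤ 1 := fun r => hWB (algebraMap R B r)
  have hWm : ∀ r : R, r ∈ IsLocalRing.maximalIdeal R → W (algebraMap R K r) < 1 := by
    intro r hr
    refine (hWP (algebraMap R B r)).mpr ?_
    have h1 : r ∈ Ideal.comap (algebraMap R B) P := by
      rw [← Ideal.under_def, ← hPv.over]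
      exact hr
    exact h1
  have he0 : 0 < e := by
    rcases Nat.eq_zero_or_pos e with h0 | h0
    · have h1 := hWm _ hlc1
      rw [ha, h0] at h1
      exact absurd h1 (by simp)
    · exact h0
  obtain ⟨q, hq⟩ := exists_residue8 W
  let ι : R →+* W.integer := (algebraMap R K).codRestrict W.integer hWR
  have hι : W.integer.subtype.comp ι = algebraMap R K := RingHom.ext fun r => rfl
  have hιmap : ∀ p : R[X], (p.map ι).map W.integer.subtype = p.map (algebraMap R K) := fun p => by
    rw [Polynomial.map_map, hι]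
  have hker : ∀ r : R, r ∈ IsLocalRing.maximalIdeal R → q.comp ι r = 0 := by
    intro r hr
    exact (hq (ι r)).mpr (hWm r hr)
  let ψ : IsLocalRing.ResidueField R →+* IsLocalRing.ResidueField W.valuationSubring :=
    Ideal.Quotient.lift (IsLocalRing.maximalIdeal R) (q.comp ι) hker
  have hψ : ψ.comp (IsLocalRing.residue R) = q.comp ι := RingHom.ext fun r => rfl
  have hψmap : ∀ p : R[X], (p.map ι).map q = (p.map (IsLocalRing.residue R)).map ψ := fun p => by
    rw [Polynomial.map_map, Polynomial.map_map, hψ]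
  -- the action of the inertia group
  have hstab : ∀ σ ∈ P.inertia (K ≃ₐ[k] K), σ • P = P := fun σ hσ =>
    Ideal.inertia_le_stabilizer (M := (K ≃ₐ[k] K)) P hσ
  have hint1 : ∀ σ ∈ P.inertia (K ≃ₐ[k] K), ∀ b : B, w.intValuation (σ • b) ≤ w.intValuation b := by
    intro σ hσ b
    by_cases hb : b = 0
    · rw [hb, smul_zero]
    · have h1 : w.intValuation b ≠ 0 := w.intValuation_ne_zero b hb
      obtain ⟨N, hN⟩ : ∃ N : ℕ, w.intValuation b = exp (-(N : ℤ)) :=
        ⟨_, w.intValuation_if_neg hb⟩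
      rw [hN]
      refine (w.intValuation_le_pow_iff_mem (σ • b) N).mpr ?_
      have h2 : b ∈ w.asIdeal ^ N := (w.intValuation_le_pow_iff_mem b N).mp hN.le
      have h3 : w.asIdeal ^ N = σ • (w.asIdeal ^ N) := by
        rw [smul_pow']
        exact congrArg (· ^ N) (hstab σ hσ).symm
      rw [h3]
      exact Ideal.smul_mem_pointwise_smul σ b _ h2
  have hint2 : ∀ σ ∈ P.inertia (K ≃ₐ[k] K), ∀ b : B, w.intValuation (σ • b) = w.intValuation b := by
    intro σ hσ b
    refine le_antisymm (hint1 σ hσ b) ?_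
    have h1 := hint1 σ⁻¹ (inv_mem hσ) (σ • b)
    rwa [inv_smul_smul] at h1
  have hWσB : ∀ σ ∈ P.inertia (K ≃ₐ[k] K), ∀ b : B, W (σ (b : K)) = W (b : K) := by
    intro σ hσ b
    have h1 : w.valuation K (algebraMap B K (σ • b)) = w.valuation K (algebraMap B K b) := by
      rw [w.valuation_of_algebraMap, w.valuation_of_algebraMap, hint2 σ hσ b]
    exact h1
  have hI1 : ∀ σ ∈ P.inertia (K ≃ₐ[k] K), ∀ x, W (σ x) = W x := by
    intro σ hσ x
    obtain ⟨a, b, hb, rfl⟩ := IsFractionRing.div_surjective (A := B) x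
    rw [map_div₀, map_div₀, map_div₀]
    have h1 := hWσB σ hσ a
    have h2 := hWσB σ hσ b
    have h3 : algebraMap B K a = (a : K) := rfl
    have h4 : algebraMap B K b = (b : K) := rfl
    rw [h3, h4, h1, h2]
  have hI2 : ∀ σ ∈ P.inertia (K ≃ₐ[k] K), ∀ x, W x ≤ 1 → W (σ x - x) < 1 := by
    intro σ hσ x hx
    obtain ⟨a, ⟨d, hd⟩, hxd⟩ := w.exists_primeCompl_mul_eq_of_integer x hx
    have hd1 : W (d : K) = 1 := by
      refine le_antisymm (hWB d) ?_
      rw [← not_lt, hWP]
      exact hd
    have hσd1 : W (σ (d : K)) = 1 := by rw [hI1 σ hσ]; exact hd1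
    have hxd' : x * (d : K) = (a : K) := hxd
    have h1 : (σ x - x) * (σ (d : K) * (d : K)) =
        ((((σ • a - a) * d - a * (σ • d - d) : B)) : K) := by
      have h2 : σ x * σ (d : K) = σ (a : K) := by rw [← map_mul, hxd']
      have h3 : ((((σ • a - a) * d - a * (σ • d - d) : B)) : K) =
        (σ (a : K) - (a : K)) * (d : K) - (a : K) * (σ (d : K) - (d : K)) := rfl
      rw [h3]
      linear_combination (d : K) * h2 - σ (d : K) * hxd'
    have h4 : W ((((σ • a - a) * d - a * (σ • d - d) : B)) : K) < 1 := by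
      rw [hWP]
      refine sub_mem (Ideal.mul_mem_right _ _ (hσ a)) (Ideal.mul_mem_left _ _ (hσ d))
    rw [← h1, map_mul, map_mul, hσd1, hd1, mul_one, mul_one] at h4
    exact h4
  have hσev : ∀ (σ : K ≃ₐ[k] K) (p : R[X]) (x : K), (p.map (algebraMap R K)).eval (σ x) =
      σ ((p.map (algebraMap R K)).eval x) := by
    intro σ p x
    have h1 : (σ : K →+* K).comp (algebraMap R K) = algebraMap R K := by
      ext r
      change σ (algebraMap R K r) = algebraMap R K r
      rw [IsScalarTower.algebraMap_apply R k K]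
      exact σ.commutes _
    have h3 := Polynomial.hom_eval₂ p (algebraMap R K) (σ : K →+* K) x
    rw [h1] at h3
    rw [eval_map, eval_map]
    exact h3.symm
  -- the numerical conditions
  have hgm' : W (((g.map ι).natDegree : ℕ) : K) = 1 := by
    rw [hg.natDegree_map]
    refine le_antisymm (by simpa using hWR (g.natDegree : R)) ?_
    rw [← not_lt]
    intro h1
    apply hgm
    have h2 : q (ι (g.natDegree : R)) = 0 := by
      rw [hq]
      have h3 : ((ι (g.natDegree : R) : W.integer) : K) = (g.natDegree : K) := by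
        have h4 : ((ι (g.natDegree : R) : W.integer) : K) = algebraMap R K (g.natDegree : R) := rfl
        rw [h4, map_natCast]
      rw [h3]
      exact h1
    have h5 : ψ (IsLocalRing.residue R (g.natDegree : R)) = 0 := h2
    rw [map_eq_zero, map_natCast] at h5
    exact h5
  have hcoefn : (D.map (IsLocalRing.residue R)).coeff n ≠ 0 := by
    rw [coeff_map, Ne, IsLocalRing.residue_eq_zero_iff]
    exact hlc3
  have hdegn : (D.map (IsLocalRing.residue R)).natDegree = n := by
    apply natDegree_eq_of_le_of_coeff_ne_zero _ hcoefn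
    rw [natDegree_le_iff_coeff_eq_zero]
    intro N hN
    rcases Nat.lt_or_ge (n + 1) N with h1 | h1
    · rw [coeff_map, coeff_eq_zero_of_natDegree_lt (by omega), map_zero]
    · have h2 : N = n + 1 := by omega
      rw [h2, coeff_map, IsLocalRing.residue_eq_zero_iff, ← hn]
      exact hlc1
  have hAcard : A.card = n + 1 := by
    have h1 := congrArg natDegree hDA
    rw [natDegree_map_eq_of_injective hinjK, hn, natDegree_C_mul
      ((map_ne_zero_iff _ hinjK).mpr hlc0), natDegree_prod_of_monic _ _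
      fun α _ => monic_X_sub_C _] at h1
    simpa using h1.symm
  have hfin : Finite (P.inertia (K ≃ₐ[k] K)) := inferInstance
  obtain ⟨α₀, hα₀, h⟩ := exists_cycle_aux8 (q := q) (k := k) hq (P.inertia (K ≃ₐ[k] K)) hI1 hI2 he0
    he (g := g.map ι) (D := D.map ι) (hg.map _) hgm' (S := S) (A := A) ha
    (by rw [hιmap]; exact hDA) hAcard
    (by rw [hψmap, natDegree_map]; exact hdegn)
    (by
      rw [coeff_map]
      have h2 : q (ι (D.coeff n)) = ψ (IsLocalRing.residue R (D.coeff n)) := rfl
      rw [h2, Ne, map_eq_zero, IsLocalRing.residue_eq_zero_iff]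
      exact hlc3)
    (by rw [hιmap]; exact hgS)
    (by
      rw [← Polynomial.map_comp, hψmap, Polynomial.map_comp]
      exact hsep.map)
    (fun σ _ x => by rw [hιmap]; exact hσev σ g x)
    (fun σ _ x => by rw [hιmap]; exact hσev σ D x)
    (fun σ _ hσ => hgen σ hσ)
    (by rw [hιmap]; exact hSA)
  rw [hιmap] at h
  refine ⟨α₀, hα₀, fun x hx y hy hxα hyα => ?_⟩
  obtain ⟨σ, -, h1, h2⟩ := h x hx y hy hxα hyα
  exact ⟨σ, h1, h2⟩

end Main

end Pool.Agent.Lib.MP_89bcae_ag

end

section

/-!
# Simply transitive groups on a fibre of `g` at a place where the leading coefficient has a simple zero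
-/

open Polynomial WithZero

open scoped Classical Pointwise

set_option linter.unusedSimpArgs false
set_option linter.unusedVariables false
set_option linter.unusedSectionVars false
set_option linter.style.haveILetI false

namespace Pool.Agent.Lib.MP_89bcae_ag

section Aux

variable {K κ : Type*} [Field K] [Field κ] {v : Valuation K ℤᵐ⁰} {q : v.integer →+* κ}

/-- The inertia group is simply transitive on the fibre over the pole. -/
theorem exists_cycle_auxT {k : Type*} [Field k] [Algebra k K]
    (hq : ∀ x : v.integer, q x = 0 ↔ v x < 1) (I : Subgroup (K ≃ₐ[k] K)) [Finite I]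
    (hI1 : ∀ σ ∈ I, ∀ x, v (σ x) = v x) (hI2 : ∀ σ ∈ I, ∀ x, v x ≤ 1 → v (σ x - x) < 1)
    {e : ℕ} (he0 : 0 < e) (he : e ≤ Nat.card I) {g D : v.integer[X]} (hg : g.Monic)
    (hgm : v (g.natDegree : K) = 1) {S A : Finset K} {a : K} (ha : v a = exp (-(e : ℤ)))
    (hD : D.map v.integer.subtype = C a * ∏ α ∈ A, (X - C α)) {n : ℕ} (hn : A.card = n + 1)
    (hdeg : (D.map q).natDegree = n) (hlc : q (D.coeff n) ≠ 0)
    (hgS : ∀ α ∈ A, g.map v.integer.subtype - C α =
      ∏ b ∈ S.filter (fun b => (g.map v.integer.subtype).eval b = α), (X - C b))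
    (hsep : ((D.comp g).map q).Separable)
    (hgσ : ∀ σ ∈ I, ∀ x, (g.map v.integer.subtype).eval (σ x) =
      σ ((g.map v.integer.subtype).eval x))
    (hDσ : ∀ σ ∈ I, ∀ x, (D.map v.integer.subtype).eval (σ x) =
      σ ((D.map v.integer.subtype).eval x))
    (hgen : ∀ σ ∈ I, (∀ b ∈ S, σ b = b) → σ = 1)
    (hSA : ∀ b ∈ S, (g.map v.integer.subtype).eval b ∈ A) :
    ∃ α₀ ∈ A, (∀ x ∈ S, ∀ y ∈ S, (g.map v.integer.subtype).eval x = α₀ →
      (g.map v.integer.subtype).eval y = α₀ → ∃ σ ∈ I, σ x = y ∧ ∀ τ ∈ I, τ x = y → τ = σ) ∧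
        ∀ σ ∈ I, ∀ b ∈ S, (g.map v.integer.subtype).eval b ≠ α₀ → σ b = b := by
  obtain ⟨α₀, hα₀A, hα₀1, haα₀, hα₀u⟩ := exists_pole8 hq hD hn hdeg hlc
  obtain ⟨m, hm⟩ : ∃ m, g.natDegree = m := ⟨_, rfl⟩
  rw [hm] at hgm
  have hm0 : m ≠ 0 := by
    rintro rfl
    rw [Nat.cast_zero, map_zero] at hgm
    exact zero_ne_one hgm
  set gK := g.map v.integer.subtype with hgK
  obtain ⟨T, hT⟩ : ∃ T, T = S.filter fun b => gK.eval b = α₀ := ⟨_, rfl⟩
  have hTmem : ∀ b, b ∈ T ↔ gK.eval b = α₀ := by
    intro b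
    rw [hT, Finset.mem_filter]
    constructor
    · exact fun h => h.2
    · intro h
      refine ⟨?_, h⟩
      have h1 := congrArg (eval b) (hgS α₀ hα₀A)
      rw [eval_sub, eval_C, h, sub_self, eval_prod, eq_comm, Finset.prod_eq_zero_iff] at h1
      obtain ⟨b', hb', h2⟩ := h1
      rw [eval_sub, eval_X, eval_C, sub_eq_zero] at h2
      rw [h2]
      exact (Finset.mem_filter.mp hb').1
  have hTprod : gK - C α₀ = ∏ b ∈ T, (X - C b) := by rw [hT]; exact hgS α₀ hα₀A
  have hTcard : T.card = m := by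
    have h1 := congrArg natDegree hTprod
    rw [natDegree_sub_C, hg.natDegree_map, hm, natDegree_prod_of_monic _ _
      fun α _ => monic_X_sub_C _] at h1
    simpa using h1.symm
  have hTsub := fun {x : K} (hx : x ∈ T) {y : K} (hy : y ∈ T) (hxy : x ≠ y) =>
    val_sub8 hg hm hgm hα₀1 hTprod hx hy hxy
  have hev : ∀ (p : v.integer[X]) (z : K) (hz : v z ≤ 1),
      (p.map v.integer.subtype).eval z = ((p.eval ⟨z, hz⟩ : v.integer) : K) := by
    intro p z hz
    have h1 : (p.map v.integer.subtype).eval z = v.integer.subtype (p.eval ⟨z, hz⟩) := by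
      rw [eval_map, ← eval₂_at_apply]
      rfl
    exact h1
  have hTv : ∀ z ∈ T, 1 < v z := by
    intro z hz
    by_contra hcon
    rw [not_lt] at hcon
    have h1 := (g.eval ⟨z, hcon⟩).2
    have h2 : v (gK.eval z) ≤ 1 := by
      rw [hev g z hcon]
      exact h1
    rw [(hTmem z).mp hz] at h2
    exact absurd hα₀1 (not_lt.mpr h2)
  have hgcoeff : v ((g.coeff m : v.integer) : K) = 1 := by
    have h1 : g.coeff m = 1 := by rw [← hm]; exact hg
    rw [h1]
    exact map_one v
  have hTpow : ∀ z ∈ T, v z ^ m = v α₀ := by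
    intro z hz
    rw [← (hTmem z).mp hz]
    exact (val_eval8 g hm.le hgcoeff (hTv z hz)).symm
  -- the roots in the other fibres
  have hother : ∀ b ∈ S, gK.eval b ≠ α₀ → v b ≤ 1 := by
    intro b hb hne
    by_contra hcon
    rw [not_le] at hcon
    have h1 : v (gK.eval b) = v b ^ m := val_eval8 g hm.le hgcoeff hcon
    have h2 := hα₀u _ (hSA b hb) hne
    rw [h1] at h2
    exact absurd (one_lt_pow₀ hcon hm0) (not_lt.mpr h2)
  have hAev : ∀ α ∈ A, (D.map v.integer.subtype).eval α = 0 := by
    intro α hα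
    rw [hD, eval_mul, eval_prod, Finset.prod_eq_zero hα (by simp), mul_zero]
  have hA0 : a ≠ 0 := by
    intro h0
    rw [h0, map_zero] at ha
    exact exp_ne_zero ha.symm
  have hAmem : ∀ α, (D.map v.integer.subtype).eval α = 0 → α ∈ A := by
    intro α hα
    rw [hD, eval_mul, eval_C, eval_prod, mul_eq_zero, Finset.prod_eq_zero_iff] at hα
    rcases hα with hα | ⟨α', h1, h2⟩
    · exact absurd hα hA0
    · rw [eval_sub, eval_X, eval_C, sub_eq_zero] at h2
      rw [h2]
      exact h1
  have hσA : ∀ σ ∈ I, ∀ α ∈ A, σ α ∈ A := by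
    intro σ hσ α hα
    apply hAmem
    rw [hDσ σ hσ, hAev α hα, map_zero]
  have hσα₀ : ∀ σ ∈ I, σ α₀ = α₀ := by
    intro σ hσ
    by_contra hne
    have h1 := hα₀u _ (hσA σ hσ α₀ hα₀A) hne
    rw [hI1 σ hσ] at h1
    exact absurd hα₀1 (not_lt.mpr h1)
  have hσT : ∀ σ ∈ I, ∀ x ∈ T, σ x ∈ T := by
    intro σ hσ x hx
    rw [hTmem, hgσ σ hσ, (hTmem x).mp hx, hσα₀ σ hσ]
  have hfix : ∀ σ ∈ I, ∀ b ∈ S, gK.eval b ≠ α₀ → σ b = b := by
    intro σ hσ b hb hne
    have h1 := hother b hb hne
    have h2 : v (σ b) ≤ 1 := by rw [hI1 σ hσ]; exact h1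
    have hroot : ∀ (z : K) (hz : v z ≤ 1), gK.eval z ∈ A →
        (D.comp g).eval (⟨z, hz⟩ : v.integer) = 0 := by
      intro z hz hzA
      have h3 := hev (D.comp g) z hz
      rw [Polynomial.map_comp, eval_comp, hAev _ hzA] at h3
      exact Subtype.ext h3.symm
    have h4 : gK.eval (σ b) ∈ A := by
      rw [hgσ σ hσ]
      exact hσA σ hσ _ (hSA b hb)
    have h5 := inj_red8 q hsep (hroot (σ b) h2 h4) (hroot b h1 (hSA b hb)) (by
      rw [← sub_eq_zero, ← map_sub, hq]
      exact hI2 σ hσ b h1)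
    exact congrArg Subtype.val h5
  have hone : ∀ σ ∈ I, ∀ x ∈ T, σ x = x → σ = 1 := by
    intro σ hσ x hx hσx
    apply hgen σ hσ
    intro b hb
    by_cases hbα : gK.eval b = α₀
    · have hbT : b ∈ T := (hTmem b).mpr hbα
      by_contra hne
      have hx0 : x ≠ 0 := by
        rintro rfl
        have h1 := hTv 0 hx
        rw [map_zero] at h1
        exact absurd h1 (not_lt.mpr zero_le_one)
      have hvx0 : v x ≠ 0 := (Valuation.ne_zero_iff v).mpr hx0
      have hvb : v b = v x :=
        (pow_left_inj₀ zero_le zero_le hm0).mp ((hTpow b hbT).trans (hTpow x hx).symm)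
      have h1 : v (b / x) ≤ 1 := by rw [map_div₀, hvb, div_self hvx0]
      have h2 := hI2 σ hσ (b / x) h1
      rw [map_div₀, hσx, ← sub_div, map_div₀, div_lt_one₀ (zero_lt_iff.mpr hvx0)] at h2
      have h3 := hTsub (hσT σ hσ b hbT) hbT hne
      have h4 : v (σ b) = v x := (hI1 σ hσ b).trans hvb
      rw [h3, h4] at h2
      exact lt_irrefl _ h2
    · exact hfix σ hσ b hb hbα
  -- the count
  obtain ⟨x₀, hx₀⟩ : T.Nonempty := by
    rw [← Finset.card_pos, hTcard]
    exact Nat.pos_of_ne_zero hm0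
  have hme : m ≤ e := by
    have h1 := hTpow x₀ hx₀
    rw [map_mul, ha] at haα₀
    have h2 : v α₀ = exp (e : ℤ) := by
      have h3 : exp (-(e : ℤ)) * exp (e : ℤ) = 1 := by
        rw [← exp_add, neg_add_cancel, exp_zero]
      rw [← h3] at haα₀
      exact mul_left_cancel₀ exp_ne_zero haα₀
    rw [h2] at h1
    have hv0 : v x₀ ≠ 0 := (zero_lt_one.trans (hTv x₀ hx₀)).ne'
    rw [← exp_log hv0, ← exp_nsmul, exp_inj] at h1
    have h4 : (m : ℤ) ∣ e := ⟨log (v x₀), by rw [← h1, nsmul_eq_mul]⟩
    exact Nat.le_of_dvd he0 (Int.natCast_dvd_natCast.mp h4)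
  have hbij : ∀ (x : K) (hx : x ∈ T), Function.Bijective
      (fun σ : I => (⟨(σ : K ≃ₐ[k] K) x, hσT σ σ.2 x hx⟩ : T)) := by
    intro x hx
    have hinj : Function.Injective
        (fun σ : I => (⟨(σ : K ≃ₐ[k] K) x, hσT σ σ.2 x hx⟩ : T)) := by
      intro σ τ hστ
      have h3 : (σ : K ≃ₐ[k] K) x = (τ : K ≃ₐ[k] K) x := congrArg Subtype.val hστ
      have h4 : (τ⁻¹ * σ : I) = 1 := by
        apply Subtype.ext
        apply hone _ (τ⁻¹ * σ).2 x hx
        change (τ : K ≃ₐ[k] K).symm ((σ : K ≃ₐ[k] K) x) = x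
        rw [h3, AlgEquiv.symm_apply_apply]
      exact (inv_mul_eq_one.mp h4).symm
    refine (Nat.bijective_iff_injective_and_card _).mpr ⟨hinj, ?_⟩
    have h5 := Nat.card_le_card_of_injective _ hinj
    rw [Nat.card_eq_fintype_card (α := T), Fintype.card_coe, hTcard] at h5 ⊢
    omega
  refine ⟨α₀, hα₀A, fun x hx y hy hxα hyα => ?_, fun σ hσ b hb hb' => hfix σ hσ b hb hb'⟩
  obtain ⟨σ, hσ⟩ := (hbij x ((hTmem x).mpr hxα)).2 ⟨y, (hTmem y).mpr hyα⟩
  refine ⟨σ, σ.2, congrArg Subtype.val hσ, fun τ hτ hτy => ?_⟩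
  have h1 := (hbij x ((hTmem x).mpr hxα)).1 (a₁ := ⟨τ, hτ⟩) (a₂ := σ)
    (Subtype.ext (hτy.trans (congrArg Subtype.val hσ).symm))
  exact congrArg Subtype.val h1

end Aux

section Main

variable {R k K : Type*} [CommRing R] [IsDomain R] [IsDiscreteValuationRing R] [Field k]
    [Algebra R k] [IsFractionRing R k] [Field K] [Algebra k K] [Algebra R K] [IsScalarTower R k K]
    [FiniteDimensional k K] [IsGalois k K]

/-- A simply transitive group on a fibre. -/
theorem exists_cycleT {g D : R[X]} (hg : g.Monic)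
    (hgm : (g.natDegree : IsLocalRing.ResidueField R) ≠ 0) {n : ℕ} (hn : D.natDegree = n + 1)
    (hlc1 : D.leadingCoeff ∈ IsLocalRing.maximalIdeal R)
    (hlc2 : D.leadingCoeff ∉ IsLocalRing.maximalIdeal R ^ 2)
    (hlc3 : D.coeff n ∉ IsLocalRing.maximalIdeal R)
    (hsep : ((D.map (IsLocalRing.residue R)).comp (g.map (IsLocalRing.residue R))).Separable)
    (S A : Finset K) (hDA : D.map (algebraMap R K) =
      C (algebraMap R K D.leadingCoeff) * ∏ α ∈ A, (X - C α))
    (hgS : ∀ α ∈ A, g.map (algebraMap R K) - C α =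
      ∏ b ∈ S.filter (fun b => (g.map (algebraMap R K)).eval b = α), (X - C b))
    (hSA : ∀ b ∈ S, (g.map (algebraMap R K)).eval b ∈ A)
    (hgen : ∀ σ : K ≃ₐ[k] K, (∀ b ∈ S, σ b = b) → σ = 1) :
    ∃ α₀ ∈ A, ∃ J : Finset (K ≃ₐ[k] K), (∀ x ∈ S, ∀ y ∈ S,
      (g.map (algebraMap R K)).eval x = α₀ → (g.map (algebraMap R K)).eval y = α₀ →
        ∃ σ ∈ J, σ x = y ∧ ∀ τ ∈ J, τ x = y → τ = σ) ∧
        ∀ σ ∈ J, ∀ b ∈ S, (g.map (algebraMap R K)).eval b ≠ α₀ → σ b = b := by
  -- the integral closure
  set B := integralClosure R K with hB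
  haveI : IsDedekindDomain B := integralClosure.isDedekindDomain R k K
  haveI : Module.Finite R B := IsIntegralClosure.finite R k K B
  haveI : IsFractionRing B K := integralClosure.isFractionRing_of_finite_extension k K
  haveI : SMulCommClass (K ≃ₐ[k] K) R K := ⟨fun σ r x => by
    rw [AlgEquiv.smul_def, AlgEquiv.smul_def, Algebra.smul_def, Algebra.smul_def, map_mul,
      IsScalarTower.algebraMap_apply R k K, AlgEquiv.commutes]⟩
  haveI : IsGaloisGroup (K ≃ₐ[k] K) R B := IsGaloisGroup.of_isFractionRing _ _ _ k K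
  have hinjK : Function.Injective (algebraMap R K) := by
    rw [IsScalarTower.algebraMap_eq R k K]
    exact (algebraMap k K).injective.comp (IsFractionRing.injective R k)
  have hinjB : Function.Injective (algebraMap B K) := Subtype.val_injective
  haveI : FaithfulSMul R B := by
    rw [faithfulSMul_iff_algebraMap_injective]
    intro x y hxy
    exact hinjK (congrArg (algebraMap B K) hxy)
  haveI : Module.IsTorsionFree R B := inferInstance
  haveI : Module.Flat R B := inferInstance
  let v : IsDedekindDomain.HeightOneSpectrum R := IsDiscreteValuationRing.maximalIdeal R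
  have hvmax : v.asIdeal.IsMaximal := v.isMaximal
  obtain ⟨P, hPmax, hPv⟩ := Ideal.exists_maximal_ideal_liesOver_of_isIntegral (S := B) v.asIdeal
  have hP0 : P ≠ ⊥ := Ideal.ne_bot_of_liesOver_of_ne_bot v.ne_bot P
  let w : IsDedekindDomain.HeightOneSpectrum B := ⟨P, hPmax.isPrime, hP0⟩
  have hwv : w.asIdeal.LiesOver v.asIdeal := hPv
  -- the ramification index
  have he : v.asIdeal.ramificationIdx' w.asIdeal ≤ Nat.card (P.inertia (K ≃ₐ[k] K)) := by
    rw [Ideal.ramificationIdx'_eq_ramificationIdx v.asIdeal w.asIdeal v.ne_bot]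
    exact ramificationIdx_le_card_inertia7 v.asIdeal P
  set e := v.asIdeal.ramificationIdx' w.asIdeal with hedef
  set W := w.valuation K with hW
  have hWk : ∀ r : R, W (algebraMap R K r) = v.intValuation r ^ e := by
    intro r
    have h1 := IsDedekindDomain.HeightOneSpectrum.valuation_liesOver K v w (algebraMap R k r)
    rw [← IsScalarTower.algebraMap_apply] at h1
    rw [hW, ← h1]
    congr 1
    exact IsDedekindDomain.HeightOneSpectrum.valuation_of_algebraMap (K := k) v r
  have hvm : ∀ (r : R) (n : ℕ), v.intValuation r ≤ exp (-(n : ℤ)) ↔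
      r ∈ IsLocalRing.maximalIdeal R ^ n := fun r n => v.intValuation_le_pow_iff_mem r n
  have hlc0 : D.leadingCoeff ≠ 0 := by
    intro h0
    rw [h0] at hlc2
    exact hlc2 (Ideal.zero_mem _)
  have hvD : v.intValuation D.leadingCoeff = exp (-1 : ℤ) := by
    have h1 := (hvm D.leadingCoeff 1).mpr (by rw [pow_one]; exact hlc1)
    have h3 : ¬ v.intValuation D.leadingCoeff ≤ exp (-((2 : ℕ) : ℤ)) := fun h4 =>
      hlc2 ((hvm D.leadingCoeff 2).mp h4)
    have h5 : v.intValuation D.leadingCoeff ≠ 0 := v.intValuation_ne_zero _ hlc0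
    have h6 := exp_log h5
    rw [← h6] at h1 h3 ⊢
    rw [exp_le_exp] at h1 h3
    rw [exp_inj]
    push_cast at h1 h3
    omega
  have ha : W (algebraMap R K D.leadingCoeff) = exp (-(e : ℤ)) := by
    rw [hWk, hvD, ← exp_nsmul]
    simp
  -- integrality
  have hWB : ∀ x : B, W x ≤ 1 := fun x => w.valuation_le_one x
  have hWP : ∀ x : B, W x < 1 ↔ x ∈ P := fun x => w.valuation_lt_one_iff_mem x
  have hWR : ∀ r : R, W (algebraMap R K r) ≤ 1 := fun r => hWB (algebraMap R B r)
  have hWm : ∀ r : R, r ∈ IsLocalRing.maximalIdeal R → W (algebraMap R K r) < 1 := by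
    intro r hr
    refine (hWP (algebraMap R B r)).mpr ?_
    have h1 : r ∈ Ideal.comap (algebraMap R B) P := by
      rw [← Ideal.under_def, ← hPv.over]
      exact hr
    exact h1
  have he0 : 0 < e := by
    rcases Nat.eq_zero_or_pos e with h0 | h0
    · have h1 := hWm _ hlc1
      rw [ha, h0] at h1
      exact absurd h1 (by simp)
    · exact h0
  obtain ⟨q, hq⟩ := exists_residue8 W
  let ι : R →+* W.integer := (algebraMap R K).codRestrict W.integer hWR
  have hι : W.integer.subtype.comp ι = algebraMap R K := RingHom.ext fun r => rfl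
  have hιmap : ∀ p : R[X], (p.map ι).map W.integer.subtype = p.map (algebraMap R K) := fun p => by
    rw [Polynomial.map_map, hι]
  have hker : ∀ r : R, r ∈ IsLocalRing.maximalIdeal R → q.comp ι r = 0 := by
    intro r hr
    exact (hq (ι r)).mpr (hWm r hr)
  let ψ : IsLocalRing.ResidueField R →+* IsLocalRing.ResidueField W.valuationSubring :=
    Ideal.Quotient.lift (IsLocalRing.maximalIdeal R) (q.comp ι) hker
  have hψ : ψ.comp (IsLocalRing.residue R) = q.comp ι := RingHom.ext fun r => rfl
  have hψmap : ∀ p : R[X], (p.map ι).map q = (p.map (IsLocalRing.residue R)).map ψ := fun p => by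
    rw [Polynomial.map_map, Polynomial.map_map, hψ]
  -- the action of the inertia group
  have hstab : ∀ σ ∈ P.inertia (K ≃ₐ[k] K), σ • P = P := fun σ hσ =>
    Ideal.inertia_le_stabilizer (M := (K ≃ₐ[k] K)) P hσ
  have hint1 : ∀ σ ∈ P.inertia (K ≃ₐ[k] K), ∀ b : B, w.intValuation (σ • b) ≤ w.intValuation b := by
    intro σ hσ b
    by_cases hb : b = 0
    · rw [hb, smul_zero]
    · have h1 : w.intValuation b ≠ 0 := w.intValuation_ne_zero b hb
      obtain ⟨N, hN⟩ : ∃ N : ℕ, w.intValuation b = exp (-(N : ℤ)) :=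
        ⟨_, w.intValuation_if_neg hb⟩
      rw [hN]
      refine (w.intValuation_le_pow_iff_mem (σ • b) N).mpr ?_
      have h2 : b ∈ w.asIdeal ^ N := (w.intValuation_le_pow_iff_mem b N).mp hN.le
      have h3 : w.asIdeal ^ N = σ • (w.asIdeal ^ N) := by
        rw [smul_pow']
        exact congrArg (· ^ N) (hstab σ hσ).symm
      rw [h3]
      exact Ideal.smul_mem_pointwise_smul σ b _ h2
  have hint2 : ∀ σ ∈ P.inertia (K ≃ₐ[k] K), ∀ b : B, w.intValuation (σ • b) = w.intValuation b := by
    intro σ hσ b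
    refine le_antisymm (hint1 σ hσ b) ?_
    have h1 := hint1 σ⁻¹ (inv_mem hσ) (σ • b)
    rwa [inv_smul_smul] at h1
  have hWσB : ∀ σ ∈ P.inertia (K ≃ₐ[k] K), ∀ b : B, W (σ (b : K)) = W (b : K) := by
    intro σ hσ b
    have h1 : w.valuation K (algebraMap B K (σ • b)) = w.valuation K (algebraMap B K b) := by
      rw [w.valuation_of_algebraMap, w.valuation_of_algebraMap, hint2 σ hσ b]
    exact h1
  have hI1 : ∀ σ ∈ P.inertia (K ≃ₐ[k] K), ∀ x, W (σ x) = W x := by
    intro σ hσ x
    obtain ⟨a, b, hb, rfl⟩ := IsFractionRing.div_surjective (A := B) x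
    rw [map_div₀, map_div₀, map_div₀]
    have h1 := hWσB σ hσ a
    have h2 := hWσB σ hσ b
    have h3 : algebraMap B K a = (a : K) := rfl
    have h4 : algebraMap B K b = (b : K) := rfl
    rw [h3, h4, h1, h2]
  have hI2 : ∀ σ ∈ P.inertia (K ≃ₐ[k] K), ∀ x, W x ≤ 1 → W (σ x - x) < 1 := by
    intro σ hσ x hx
    obtain ⟨a, ⟨d, hd⟩, hxd⟩ := w.exists_primeCompl_mul_eq_of_integer x hx
    have hd1 : W (d : K) = 1 := by
      refine le_antisymm (hWB d) ?_
      rw [← not_lt, hWP]
      exact hd
    have hσd1 : W (σ (d : K)) = 1 := by rw [hI1 σ hσ]; exact hd1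
    have hxd' : x * (d : K) = (a : K) := hxd
    have h1 : (σ x - x) * (σ (d : K) * (d : K)) =
        ((((σ • a - a) * d - a * (σ • d - d) : B)) : K) := by
      have h2 : σ x * σ (d : K) = σ (a : K) := by rw [← map_mul, hxd']
      have h3 : ((((σ • a - a) * d - a * (σ • d - d) : B)) : K) =
        (σ (a : K) - (a : K)) * (d : K) - (a : K) * (σ (d : K) - (d : K)) := rfl
      rw [h3]
      linear_combination (d : K) * h2 - σ (d : K) * hxd'
    have h4 : W ((((σ • a - a) * d - a * (σ • d - d) : B)) : K) < 1 := by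
      rw [hWP]
      refine sub_mem (Ideal.mul_mem_right _ _ (hσ a)) (Ideal.mul_mem_left _ _ (hσ d))
    rw [← h1, map_mul, map_mul, hσd1, hd1, mul_one, mul_one] at h4
    exact h4
  have hσev : ∀ (σ : K ≃ₐ[k] K) (p : R[X]) (x : K), (p.map (algebraMap R K)).eval (σ x) =
      σ ((p.map (algebraMap R K)).eval x) := by
    intro σ p x
    have h1 : (σ : K →+* K).comp (algebraMap R K) = algebraMap R K := by
      ext r
      change σ (algebraMap R K r) = algebraMap R K r
      rw [IsScalarTower.algebraMap_apply R k K]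
      exact σ.commutes _
    have h3 := Polynomial.hom_eval₂ p (algebraMap R K) (σ : K →+* K) x
    rw [h1] at h3
    rw [eval_map, eval_map]
    exact h3.symm
  -- the numerical conditions
  have hgm' : W (((g.map ι).natDegree : ℕ) : K) = 1 := by
    rw [hg.natDegree_map]
    refine le_antisymm (by simpa using hWR (g.natDegree : R)) ?_
    rw [← not_lt]
    intro h1
    apply hgm
    have h2 : q (ι (g.natDegree : R)) = 0 := by
      rw [hq]
      have h3 : ((ι (g.natDegree : R) : W.integer) : K) = (g.natDegree : K) := by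
        have h4 : ((ι (g.natDegree : R) : W.integer) : K) = algebraMap R K (g.natDegree : R) := rfl
        rw [h4, map_natCast]
      rw [h3]
      exact h1
    have h5 : ψ (IsLocalRing.residue R (g.natDegree : R)) = 0 := h2
    rw [map_eq_zero, map_natCast] at h5
    exact h5
  have hcoefn : (D.map (IsLocalRing.residue R)).coeff n ≠ 0 := by
    rw [coeff_map, Ne, IsLocalRing.residue_eq_zero_iff]
    exact hlc3
  have hdegn : (D.map (IsLocalRing.residue R)).natDegree = n := by
    apply natDegree_eq_of_le_of_coeff_ne_zero _ hcoefn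
    rw [natDegree_le_iff_coeff_eq_zero]
    intro N hN
    rcases Nat.lt_or_ge (n + 1) N with h1 | h1
    · rw [coeff_map, coeff_eq_zero_of_natDegree_lt (by omega), map_zero]
    · have h2 : N = n + 1 := by omega
      rw [h2, coeff_map, IsLocalRing.residue_eq_zero_iff, ← hn]
      exact hlc1
  have hAcard : A.card = n + 1 := by
    have h1 := congrArg natDegree hDA
    rw [natDegree_map_eq_of_injective hinjK, hn, natDegree_C_mul
      ((map_ne_zero_iff _ hinjK).mpr hlc0), natDegree_prod_of_monic _ _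
      fun α _ => monic_X_sub_C _] at h1
    simpa using h1.symm
  have hfin : Finite (P.inertia (K ≃ₐ[k] K)) := inferInstance
  obtain ⟨α₀, hα₀, h⟩ := exists_cycle_auxT (q := q) (k := k) hq (P.inertia (K ≃ₐ[k] K)) hI1 hI2 he0
    he (g := g.map ι) (D := D.map ι) (hg.map _) hgm' (S := S) (A := A) ha
    (by rw [hιmap]; exact hDA) hAcard
    (by rw [hψmap, natDegree_map]; exact hdegn)
    (by
      rw [coeff_map]
      have h2 : q (ι (D.coeff n)) = ψ (IsLocalRing.residue R (D.coeff n)) := rfl
      rw [h2, Ne, map_eq_zero, IsLocalRing.residue_eq_zero_iff]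
      exact hlc3)
    (by rw [hιmap]; exact hgS)
    (by
      rw [← Polynomial.map_comp, hψmap, Polynomial.map_comp]
      exact hsep.map)
    (fun σ _ x => by rw [hιmap]; exact hσev σ g x)
    (fun σ _ x => by rw [hιmap]; exact hσev σ D x)
    (fun σ _ hσ => hgen σ hσ)
    (by rw [hιmap]; exact hSA)
  rw [hιmap] at h
  refine ⟨α₀, hα₀, (Set.toFinite ((P.inertia (K ≃ₐ[k] K) : Subgroup (K ≃ₐ[k] K)) :
    Set (K ≃ₐ[k] K))).toFinset, fun x hx y hy hxα hyα => ?_, fun σ hσ b hb hb' => ?_⟩
  · obtain ⟨σ, hσ, h1, h2⟩ := h.1 x hx y hy hxα hyα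
    refine ⟨σ, (Set.Finite.mem_toFinset _).mpr hσ, h1, fun τ hτ hτy => ?_⟩
    exact h2 τ ((Set.Finite.mem_toFinset _).mp hτ) hτy
  · exact h.2 σ ((Set.Finite.mem_toFinset _).mp hσ) b hb hb'

end Main

end Pool.Agent.Lib.MP_89bcae_ag

end

section

/-!
# The valuation attached to a simple collision
-/

open Polynomial IsDedekindDomain WithZero

open scoped Classical Pointwise

namespace Pool.Agent.Lib.MP_89bcae_ag

set_option linter.style.haveILetI false
set_option linter.unusedSectionVars false

section Red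

/-- Reduction of a product of linear factors. -/
lemma map_prod_red7 {B K : Type*} [CommRing B] [Field K] [Algebra B K]
    (hinj : Function.Injective (algebraMap B K)) {p : B[X]} {c : B}
    {T : Finset K} {β : K → B} (hβ : ∀ b ∈ T, algebraMap B K (β b) = b)
    (h : p.map (algebraMap B K) = C (algebraMap B K c) * ∏ b ∈ T, (X - C b)) :
    p = C c * ∏ b ∈ T, (X - C (β b)) := by
  apply Polynomial.map_injective _ hinj
  rw [h, Polynomial.map_mul, map_C, Polynomial.map_prod]
  congr 1
  refine Finset.prod_congr rfl fun b hb => ?_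
  rw [Polynomial.map_sub, map_X, map_C, hβ b hb]

lemma map_prod_red7' {B ι κ : Type*} [CommRing B] [Field κ] (q : B →+* κ) {c : B} {T : Finset ι}
    {β : ι → B} :
    (C c * ∏ b ∈ T, (X - C (β b))).map q = C (q c) * ∏ b ∈ T, (X - C (q (β b))) := by
  rw [Polynomial.map_mul, map_C, Polynomial.map_prod]
  congr 1
  refine Finset.prod_congr rfl fun b hb => ?_
  rw [Polynomial.map_sub, map_X, map_C]

variable {κ ι : Type*} [Field κ]

/-- The multiplicity of a root of a product of linear factors. -/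
lemma rootMultiplicity_prod7 {c : κ} (hc : c ≠ 0) (T : Finset ι) (r : ι → κ) (γ : κ) :
    (C c * ∏ b ∈ T, (X - C (r b))).rootMultiplicity γ = (T.filter fun b => r b = γ).card := by
  have h1 : (∏ b ∈ T, (X - C (r b))) ≠ 0 :=
    Finset.prod_ne_zero_iff.mpr fun b _ => X_sub_C_ne_zero _
  rw [rootMultiplicity_mul (mul_ne_zero (C_ne_zero.mpr hc) h1), rootMultiplicity_C, zero_add]
  clear h1
  induction T using Finset.induction_on with
  | empty => simp
  | insert b T hb ih =>
    rw [Finset.prod_insert hb, rootMultiplicity_mul, ih, rootMultiplicity_X_sub_C,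
      Finset.filter_insert]
    · split_ifs with h1 h2 h2
      · rw [Finset.card_insert_of_notMem (fun h => hb (Finset.mem_of_mem_filter _ h)), add_comm]
      · exact absurd h1.symm h2
      · exact absurd h2.symm h1
      · rw [zero_add]
    · exact mul_ne_zero (X_sub_C_ne_zero _)
        (Finset.prod_ne_zero_iff.mpr fun b _ => X_sub_C_ne_zero _)

/-- The reductions of the roots of `D` at a simple collision. -/
lemma res_roots7 {u a : κ} (hu : u ≠ 0) {A : Finset ι} {r : ι → κ} {h₁ : κ[X]}
    (hsep : h₁.Separable) (ha : h₁.eval a = 0)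
    (h : C u * ∏ α ∈ A, (X - C (r α)) = (X - C a) * h₁) :
    (∀ α ∈ A, ∀ α' ∈ A, α ≠ α' → r α = r α' → r α = a) ∧
    (A.filter fun α => r α = a).card = 2 ∧ ∀ α ∈ A, h₁.eval (r α) = 0 := by
  have h10 : h₁ ≠ 0 := hsep.ne_zero
  have key : ∀ γ, (A.filter fun α => r α = γ).card =
      (if γ = a then 1 else 0) + h₁.rootMultiplicity γ := by
    intro γ
    rw [← rootMultiplicity_prod7 hu A r γ, h,
      rootMultiplicity_mul (mul_ne_zero (X_sub_C_ne_zero _) h10), rootMultiplicity_X_sub_C]
  have hle : ∀ γ, h₁.rootMultiplicity γ ≤ 1 := fun γ =>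
    rootMultiplicity_le_one_of_separable hsep γ
  have hpos : 0 < h₁.rootMultiplicity a := (rootMultiplicity_pos h10).mpr ha
  refine ⟨fun α hα α' hα' hne hr => ?_, ?_, fun α hα => ?_⟩
  · by_contra hna
    have h1 := key (r α)
    rw [if_neg hna, zero_add] at h1
    have h2 : 1 < (A.filter fun β => r β = r α).card := by
      rw [Finset.one_lt_card]
      exact ⟨α, Finset.mem_filter.mpr ⟨hα, rfl⟩, α', Finset.mem_filter.mpr ⟨hα', hr.symm⟩, hne⟩
    have h3 := hle (r α)
    omega
  · have h1 := key a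
    rw [if_pos rfl] at h1
    have h3 := hle a
    omega
  · by_cases h1 : r α = a
    · rw [h1]; exact ha
    · have h2 := congrArg (eval (r α)) h
      rw [eval_mul, eval_mul, eval_prod, Finset.prod_eq_zero hα (by simp), mul_zero, eval_sub,
        eval_X, eval_C, eq_comm, mul_eq_zero, sub_eq_zero] at h2
      exact h2.resolve_left h1

/-- The reductions of the roots of `g - α` at a simple collision. -/
lemma res_fibre7 {g h₁ : κ[X]} {γ : κ} (hsep : (h₁.comp g).Separable) (hγ : h₁.eval γ = 0)
    {T : Finset ι} {r : ι → κ} (h : g - C γ = ∏ b ∈ T, (X - C (r b))) :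
    ∀ b ∈ T, ∀ c ∈ T, b ≠ c → r b ≠ r c := by
  intro b hb c hc hbc hr
  have h1 : (g - C γ) ∣ h₁.comp g := by
    obtain ⟨w, hw⟩ := dvd_iff_isRoot.mpr hγ
    refine ⟨w.comp g, ?_⟩
    rw [hw, mul_comp, sub_comp, X_comp, C_comp]
  have h2 : (g - C γ).Separable := hsep.of_dvd h1
  have h3 : (X - C (r b)) * (X - C (r b)) ∣ g - C γ := by
    rw [h, ← Finset.mul_prod_erase T _ hb]
    apply mul_dvd_mul_left
    have h4 : c ∈ T.erase b := Finset.mem_erase.mpr ⟨hbc.symm, hc⟩
    rw [hr]
    exact Finset.dvd_prod_of_mem (fun i => X - C (r i)) h4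
  have h4 := h2.squarefree _ h3
  exact not_isUnit_X_sub_C _ h4

end Red

end Pool.Agent.Lib.MP_89bcae_ag

end
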