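import Mathlib

section

/-!
# The 2-descent functions on `y² = x³ + a₂x² + a₄x + a₆`
-/

open Polynomial WeierstrassCurve

namespace Pool.Agent.Lib.MP_89bcae_ag

set_option linter.unusedSectionVars false

variable {K : Type*} [Field K] [DecidableEq K]

/-- The curve has the form `y² = x³ + a₂x² + a₄x + a₆`. -/
structure Short (W : WeierstrassCurve K) : Prop where
  a₁ : W.a₁ = 0
  a₃ : W.a₃ = 0

/-- `e` is a root of the cubic `x³ + a₂x² + a₄x + a₆`. -/
def Rt (W : WeierstrassCurve K) (e : K) : Prop := e ^ 3 + W.a₂ * e ^ 2 + W.a₄ * e + W.a₆ = 0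

/-- The function `ρ_e` with `ρ_e(P)² = x(2P) - e`; on `2`-torsion points it is a sign. -/
noncomputable def rho {W : WeierstrassCurve.Affine K} (e : K) : W.Point → K
  | .zero => 1
  | .some x y _ => if y = 0 then (if x = e then 1 else -1) else
      ((x - e) ^ 2 - (3 * e ^ 2 + 2 * W.a₂ * e + W.a₄)) / (2 * y)

variable {W : WeierstrassCurve.Affine K}

@[simp] lemma rho_zero (e : K) : rho e (0 : W.Point) = 1 := rfl

lemma rho_some (e : K) {x y : K} (h : W.Nonsingular x y) :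
    rho e (.some x y h) = if y = 0 then (if x = e then 1 else -1) else
      ((x - e) ^ 2 - (3 * e ^ 2 + 2 * W.a₂ * e + W.a₄)) / (2 * y) := rfl

lemma Short.equation (hW : Short W) {x y : K} (h : W.Equation x y) :
    y ^ 2 = x ^ 3 + W.a₂ * x ^ 2 + W.a₄ * x + W.a₆ := by
  rw [Affine.equation_iff, hW.a₁, hW.a₃] at h
  linear_combination h

lemma Short.negY (hW : Short W) (x y : K) : W.negY x y = -y := by
  simp [Affine.negY, hW.a₁, hW.a₃]

lemma add_self_eq_zero_iff (hW : Short W) (h2 : (2 : K) ≠ 0) {x y : K} (h : W.Nonsingular x y) :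
    (Affine.Point.some x y h + Affine.Point.some x y h = 0) ↔ y = 0 := by
  constructor
  · intro h0
    by_contra hy
    have hne : y ≠ W.negY x y := by
      rw [hW.negY]
      intro h1
      have : 2 * y = 0 := by linear_combination h1
      rcases mul_eq_zero.mp this with h3 | h3
      · exact h2 h3
      · exact hy h3
    rw [Affine.Point.add_self_of_Y_ne hne] at h0
    exact Affine.Point.some_ne_zero _ h0
  · intro hy
    apply Affine.Point.add_self_of_Y_eq
    rw [hW.negY, hy, neg_zero]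

lemma two_torsion_iff (hW : Short W) (h2 : (2 : K) ≠ 0) (P : W.Point) :
    2 • P = 0 ↔ P = 0 ∨ ∃ e h, Rt W e ∧ P = .some e 0 h := by
  rw [two_nsmul]
  rcases P with _ | ⟨x, y, h⟩
  · simp [← Affine.Point.zero_def]
  · rw [add_self_eq_zero_iff hW h2]
    constructor
    · intro hy
      subst hy
      right
      refine ⟨x, h, ?_, rfl⟩
      have := hW.equation h.1
      rw [Rt]
      linear_combination -this
    · rintro (h0 | ⟨e, h', he, h0⟩)
      · exact absurd h0 (Affine.Point.some_ne_zero _)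
      · simp only [Affine.Point.some.injEq] at h0
        exact h0.2

/-- `ρ_e(P)² = x(2P) - e`. -/
lemma rho_sq (hW : Short W) (h2 : (2 : K) ≠ 0) {e : K} (he : Rt W e) {x y : K}
    (h : W.Nonsingular x y) (hy : y ≠ 0) :
    rho e (.some x y h) ^ 2 = W.addX x x (W.slope x x y y) - e := by
  have hne : y ≠ W.negY x y := by
    rw [hW.negY]
    intro h1
    have : 2 * y = 0 := by linear_combination h1
    rcases mul_eq_zero.mp this with h3 | h3
    · exact h2 h3
    · exact hy h3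
  rw [rho_some, if_neg hy, Affine.addX, Affine.slope_of_Y_ne rfl hne, hW.negY, hW.a₁]
  have heq := hW.equation h.1
  unfold Rt at he
  have hyy : y - -y = 2 * y := by ring
  rw [hyy]
  field_simp
  simp only [mul_zero, add_zero, sub_zero]
  linear_combination (4 * W.a₂ + 8 * x + 4 * e) * heq + (4 * W.a₂ + 8 * x + 4 * e) * he

/-- The relation between two distinct roots. -/
lemma Rt.pair {e e' : K} (he : Rt W e) (he' : Rt W e') (hne : e ≠ e') :
    e ^ 2 + e * e' + e' ^ 2 + W.a₂ * (e + e') + W.a₄ = 0 := by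
  unfold Rt at he he'
  have h1 : (e - e') * (e ^ 2 + e * e' + e' ^ 2 + W.a₂ * (e + e') + W.a₄) = 0 := by
    linear_combination he - he'
  rcases mul_eq_zero.mp h1 with h | h
  · exact absurd (sub_eq_zero.mp h) hne
  · exact h

lemma rho_add_aux (hW : Short W) (h2 : (2 : K) ≠ 0) {e e' : K} (he : Rt W e) (he' : Rt W e')
    {x y : K} (h : W.Nonsingular x y) (hT : W.Nonsingular e' 0) (hd : 3 * e' ^ 2 + 2 * W.a₂ * e' + W.a₄ ≠ 0)
    (hy : y ≠ 0) :
    rho e (.some x y h + .some e' 0 hT) = rho e (.some x y h) * rho e (.some e' 0 hT) := by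
  have heq := hW.equation h.1
  have hx : x ≠ e' := by
    rintro rfl
    apply hy
    have : y ^ 2 = 0 := by rw [heq]; exact he'
    exact pow_eq_zero_iff (two_ne_zero) |>.mp this
  have hx' : x - e' ≠ 0 := sub_ne_zero.mpr hx
  have hq : (x - e') * ((x ^ 2 + x * e' + e' ^ 2) + W.a₂ * (x + e') + W.a₄) = y ^ 2 := by
    unfold Rt at he'
    linear_combination -heq - he'
  rw [Affine.Point.add_of_X_ne hx]
  set X := W.addX x e' (W.slope x e' y 0) with hX
  set Y := W.addY x e' y (W.slope x e' y 0) with hY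
  have hXe : X - e' = (3 * e' ^ 2 + 2 * W.a₂ * e' + W.a₄) / (x - e') := by
    rw [hX, Affine.addX, Affine.slope_of_X_ne hx, hW.a₁]
    unfold Rt at he'
    field_simp
    linear_combination heq + he'
  have hYe : Y = - y * (3 * e' ^ 2 + 2 * W.a₂ * e' + W.a₄) / (x - e') ^ 2 := by
    have h3 : Y = -(y / (x - e') * (X - e')) := by
      rw [hY, Affine.addY, Affine.negAddY, hW.negY, Affine.slope_of_X_ne hx, ← Affine.slope_of_X_ne hx, ← hX,
        Affine.slope_of_X_ne hx]
      field_simp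
      ring
    rw [h3, hXe]
    field_simp
  have hYne : Y ≠ 0 := by
    rw [hYe]
    apply div_ne_zero
    · exact mul_ne_zero (neg_ne_zero.mpr hy) hd
    · exact pow_ne_zero _ hx'
  rw [rho_some, rho_some, rho_some, if_neg hYne, if_neg hy, if_pos rfl]
  have hXe' : X - e = (3 * e' ^ 2 + 2 * W.a₂ * e' + W.a₄) / (x - e') + (e' - e) := by
    rw [← hXe]; ring
  rw [← hX, ← hY, hXe', hYe]
  by_cases hee : e' = e
  · subst hee
    rw [if_pos rfl]
    generalize 3 * e' ^ 2 + 2 * W.a₂ * e' + W.a₄ = d at hd ⊢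
    field_simp
    ring
  · rw [if_neg hee]
    have hpair := Rt.pair he he' (Ne.symm hee)
    obtain ⟨p, hp⟩ : ∃ p, p = e' - e := ⟨_, rfl⟩
    obtain ⟨v, hv⟩ : ∃ v, v = 2 * e' + e + W.a₂ := ⟨_, rfl⟩
    have hd' : 3 * e' ^ 2 + 2 * W.a₂ * e' + W.a₄ = p * v := by
      rw [hp, hv]; linear_combination hpair
    have hd'' : 3 * e ^ 2 + 2 * W.a₂ * e + W.a₄ = - p * (v - p) := by
      rw [hp, hv]; linear_combination hpair
    rw [hd'] at hd ⊢
    rw [hd'', ← hp]
    obtain ⟨h6, h7⟩ := mul_ne_zero_iff.mp hd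
    have hx3 : x - e = (x - e') + p := by rw [hp]; ring
    rw [hx3]
    generalize x - e' = u at hx' ⊢
    field_simp
    ring


lemma Short.deriv_ne (hW : Short W) {e : K} (h : W.Nonsingular e 0) :
    3 * e ^ 2 + 2 * W.a₂ * e + W.a₄ ≠ 0 := by
  have h' := (W.nonsingular_iff e 0).mp h
  rw [hW.a₁, hW.a₃] at h'
  intro h0
  rcases h'.2 with h1 | h1
  · apply h1; linear_combination -h0
  · apply h1; ring

lemma Short.rt_of_nonsingular (hW : Short W) {e : K} (h : W.Nonsingular e 0) : Rt W e := by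
  have := hW.equation h.1
  rw [Rt]; linear_combination -this

lemma Short.nonsingular_of_rt (hW : Short W) {e : K} (he : Rt W e)
    (hd : 3 * e ^ 2 + 2 * W.a₂ * e + W.a₄ ≠ 0) : W.Nonsingular e 0 := by
  rw [W.nonsingular_iff e 0, Affine.equation_iff, hW.a₁, hW.a₃]
  refine ⟨?_, Or.inl ?_⟩
  · unfold Rt at he; linear_combination -he
  · intro h; apply hd; linear_combination -h

lemma add_two_torsion (hW : Short W) {e' e'' : K} (h' : W.Nonsingular e' 0)
    (h'' : W.Nonsingular e'' 0) (hne : e'' ≠ e') :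
    ∃ h, (Affine.Point.some e'' 0 h'' + Affine.Point.some e' 0 h') =
      Affine.Point.some (-W.a₂ - e' - e'') 0 h := by
  rw [Affine.Point.add_of_X_ne hne]
  have hs : W.slope e'' e' 0 0 = 0 := by
    rw [Affine.slope_of_X_ne hne]; simp
  have hX : W.addX e'' e' 0 = -W.a₂ - e' - e'' := by
    rw [Affine.addX]; ring
  have hY : W.addY e'' e' 0 0 = 0 := by
    rw [Affine.addY, Affine.negAddY, hW.negY]; ring
  refine ⟨?_, ?_⟩
  · have := Affine.nonsingular_add h'' h' (fun hxy => hne hxy.1)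
    rwa [hs, hX, hY] at this
  · simp only [hs, hX, hY]

lemma rho_two_torsion (e : K) {e' : K} (h : W.Nonsingular e' 0) :
    rho e (.some e' 0 h) = if e' = e then 1 else -1 := by
  rw [rho_some, if_pos rfl]

/-- `ρ_e(P + T) = ρ_e(P) ρ_e(T)` for `T ∈ W[2]`. -/
lemma rho_add (hW : Short W) (h2 : (2 : K) ≠ 0) {e : K} (he : Rt W e) (P T : W.Point)
    (hT : 2 • T = 0) : rho e (P + T) = rho e P * rho e T := by
  rcases (two_torsion_iff hW h2 T).mp hT with rfl | ⟨e', h', he', rfl⟩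
  · simp
  rcases P with _ | ⟨x, y, h⟩
  · rw [← Affine.Point.zero_def]; simp
  by_cases hy : y = 0
  · subst hy
    have hx : Rt W x := hW.rt_of_nonsingular h
    have hd' := hW.deriv_ne h'
    have hdx := hW.deriv_ne h
    by_cases hxe : x = e'
    · subst hxe
      have : (Affine.Point.some x 0 h + Affine.Point.some x 0 h' : W.Point) = 0 :=
        (add_self_eq_zero_iff hW h2 h).mpr rfl
      rw [this, rho_two_torsion, rho_zero]
      split_ifs <;> ring
    · obtain ⟨h3, h4⟩ := add_two_torsion hW h' h hxe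
      rw [h4, rho_two_torsion, rho_two_torsion, rho_two_torsion]
      have hpair := Rt.pair hx he' hxe
      have hxe0 : x - e' ≠ 0 := sub_ne_zero.mpr hxe
      by_cases h5 : e' = e
      · subst h5
        rw [if_pos rfl, if_neg hxe, if_neg]
        · ring
        intro h6
        apply hd'
        linear_combination hpair - (e' - x) * h6
      · by_cases h6 : x = e
        · subst h6
          rw [if_neg h5, if_pos rfl, if_neg]
          · ring
          intro h7
          apply hdx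
          linear_combination hpair - (x - e') * h7
        · rw [if_neg h5, if_neg h6, if_pos]
          · ring
          have hpair' := Rt.pair he he' (Ne.symm h5)
          have h7 : (e - x) * (e + x + e' + W.a₂) = 0 := by linear_combination hpair' - hpair
          rcases mul_eq_zero.mp h7 with h8 | h8
          · exact absurd (sub_eq_zero.mp h8).symm h6
          · linear_combination -h8
  · exact rho_add_aux hW h2 he he' h h' (hW.deriv_ne h') hy


lemma rho_two_torsion_sq (hW : Short W) (h2 : (2 : K) ≠ 0) (e : K) {T : W.Point} (hT : 2 • T = 0) :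
    rho e T = 1 ∨ rho e T = -1 := by
  rcases (two_torsion_iff hW h2 T).mp hT with rfl | ⟨e', h', he', rfl⟩
  · left; simp
  · rw [rho_two_torsion]
    split_ifs
    · left; rfl
    · right; rfl

lemma rho_two_torsion_mul_self (hW : Short W) (h2 : (2 : K) ≠ 0) (e : K) {T : W.Point}
    (hT : 2 • T = 0) : rho e T * rho e T = 1 := by
  rcases rho_two_torsion_sq hW h2 e hT with h | h <;> rw [h] <;> ring

/-- A cubic with three distinct roots has no other root. -/
lemma Rt.mem_of_three {e₁ e₂ e₃ e : K} (h₁ : Rt W e₁) (h₂ : Rt W e₂) (h₃ : Rt W e₃)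
    (h₁₂ : e₁ ≠ e₂) (h₁₃ : e₁ ≠ e₃) (h₂₃ : e₂ ≠ e₃) (he : Rt W e) : e = e₁ ∨ e = e₂ ∨ e = e₃ := by
  by_contra hcon
  push Not at hcon
  obtain ⟨n1, n2, n3⟩ := hcon
  have p12 := Rt.pair h₁ h₂ h₁₂
  have p13 := Rt.pair h₁ h₃ h₁₃
  have p1 := Rt.pair h₁ he (Ne.symm n1)
  have q3 : (e₂ - e₃) * (e₁ + e₂ + e₃ + W.a₂) = 0 := by linear_combination p12 - p13
  have q4 : (e₂ - e) * (e₁ + e₂ + e + W.a₂) = 0 := by linear_combination p12 - p1
  have q3' := (mul_eq_zero.mp q3).resolve_left (sub_ne_zero.mpr h₂₃)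
  have q4' := (mul_eq_zero.mp q4).resolve_left (sub_ne_zero.mpr (Ne.symm n2))
  apply n3
  linear_combination q4' - q3'

lemma prod_rho (hW : Short W) (h2 : (2 : K) ≠ 0) {e₁ e₂ e₃ : K} (h₁ : Rt W e₁) (h₂ : Rt W e₂)
    (h₃ : Rt W e₃) (h₁₂ : e₁ ≠ e₂) (h₁₃ : e₁ ≠ e₃) (h₂₃ : e₂ ≠ e₃) {T : W.Point} (hT : 2 • T = 0) :
    rho e₁ T * rho e₂ T * rho e₃ T = 1 := by
  rcases (two_torsion_iff hW h2 T).mp hT with rfl | ⟨e', h', he', rfl⟩
  · simp
  · rw [rho_two_torsion, rho_two_torsion, rho_two_torsion]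
    rcases Rt.mem_of_three h₁ h₂ h₃ h₁₂ h₁₃ h₂₃ he' with rfl | rfl | rfl
    · rw [if_pos rfl, if_neg h₁₂, if_neg h₁₃]; ring
    · rw [if_pos rfl, if_neg (Ne.symm h₁₂), if_neg h₂₃]; ring
    · rw [if_pos rfl, if_neg (Ne.symm h₁₃), if_neg (Ne.symm h₂₃)]; ring

lemma eq_zero_of_rho_eq_one (hW : Short W) (h2 : (2 : K) ≠ 0) {e₁ e₂ : K} (h₁₂ : e₁ ≠ e₂)
    {T : W.Point} (hT : 2 • T = 0) (r1 : rho e₁ T = 1) (r2 : rho e₂ T = 1) : T = 0 := by
  rcases (two_torsion_iff hW h2 T).mp hT with rfl | ⟨e', h', he', rfl⟩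
  · rfl
  · exfalso
    rw [rho_two_torsion] at r1 r2
    have hm : (-1 : K) ≠ 1 := by
      intro h; apply h2; linear_combination -h
    by_cases h1 : e' = e₁
    · by_cases h2' : e' = e₂
      · exact h₁₂ (h1 ▸ h2')
      · rw [if_neg h2'] at r2; exact hm r2
    · rw [if_neg h1] at r1; exact hm r1

/-- Existence of a 2-torsion point with prescribed signs. -/
lemma exists_two_torsion (hW : Short W) (h2 : (2 : K) ≠ 0) {e₁ e₂ e₃ : K} (h₁ : Rt W e₁)
    (h₂ : Rt W e₂) (h₃ : Rt W e₃) (h₁₂ : e₁ ≠ e₂) (h₁₃ : e₁ ≠ e₃) (h₂₃ : e₂ ≠ e₃)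
    (s₁ s₂ s₃ : K) (hs₁ : s₁ = 1 ∨ s₁ = -1) (hs₂ : s₂ = 1 ∨ s₂ = -1) (hs₃ : s₃ = 1 ∨ s₃ = -1)
    (hs : s₁ * s₂ * s₃ = 1) :
    ∃ T : W.Point, 2 • T = 0 ∧ rho e₁ T = s₁ ∧ rho e₂ T = s₂ ∧ rho e₃ T = s₃ := by
  have hm : (-1 : K) ≠ 1 := by
    intro h; apply h2; linear_combination -h
  have p12 := Rt.pair h₁ h₂ h₁₂
  have p13 := Rt.pair h₁ h₃ h₁₃
  have p23 := Rt.pair h₂ h₃ h₂₃
  have q3 : (e₂ - e₃) * (e₁ + e₂ + e₃ + W.a₂) = 0 := by linear_combination p12 - p13
  have q := (mul_eq_zero.mp q3).resolve_left (sub_ne_zero.mpr h₂₃)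
  have n12 := sub_ne_zero.mpr h₁₂
  have n13 := sub_ne_zero.mpr h₁₃
  have n23 := sub_ne_zero.mpr h₂₃
  have n32 : e₃ - e₂ ≠ 0 := sub_ne_zero.mpr (Ne.symm h₂₃)
  have n21 : e₂ - e₁ ≠ 0 := sub_ne_zero.mpr (Ne.symm h₁₂)
  have n31 : e₃ - e₁ ≠ 0 := sub_ne_zero.mpr (Ne.symm h₁₃)
  have d1 : 3 * e₁ ^ 2 + 2 * W.a₂ * e₁ + W.a₄ ≠ 0 := by
    have : 3 * e₁ ^ 2 + 2 * W.a₂ * e₁ + W.a₄ = (e₁ - e₂) * (e₁ - e₃) := by
      linear_combination p12 + (e₁ - e₂) * q
    rw [this]; exact mul_ne_zero n12 n13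
  have d2 : 3 * e₂ ^ 2 + 2 * W.a₂ * e₂ + W.a₄ ≠ 0 := by
    have : 3 * e₂ ^ 2 + 2 * W.a₂ * e₂ + W.a₄ = (e₂ - e₁) * (e₂ - e₃) := by
      linear_combination p12 + (e₂ - e₁) * q
    rw [this]; exact mul_ne_zero n21 n23
  have d3 : 3 * e₃ ^ 2 + 2 * W.a₂ * e₃ + W.a₄ ≠ 0 := by
    have : 3 * e₃ ^ 2 + 2 * W.a₂ * e₃ + W.a₄ = (e₃ - e₁) * (e₃ - e₂) := by
      linear_combination p13 + (e₃ - e₁) * q
    rw [this]; exact mul_ne_zero n31 n32
  have ns1 := hW.nonsingular_of_rt h₁ d1
  have ns2 := hW.nonsingular_of_rt h₂ d2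
  have ns3 := hW.nonsingular_of_rt h₃ d3
  have t : ∀ {e : K} (h : W.Nonsingular e 0), 2 • (Affine.Point.some e 0 h : W.Point) = 0 := by
    intro e h; rw [two_nsmul]; exact (add_self_eq_zero_iff hW h2 h).mpr rfl
  rcases hs₁ with rfl | rfl <;> rcases hs₂ with rfl | rfl <;> rcases hs₃ with rfl | rfl
  · exact ⟨0, by simp, rfl, rfl, rfl⟩
  · exfalso; apply hm; linear_combination hs
  · exfalso; apply hm; linear_combination hs
  · exact ⟨_, t ns1, by rw [rho_two_torsion, if_pos rfl], by rw [rho_two_torsion, if_neg h₁₂],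
      by rw [rho_two_torsion, if_neg h₁₃]⟩
  · exfalso; apply hm; linear_combination hs
  · exact ⟨_, t ns2, by rw [rho_two_torsion, if_neg (Ne.symm h₁₂)],
      by rw [rho_two_torsion, if_pos rfl], by rw [rho_two_torsion, if_neg h₂₃]⟩
  · exact ⟨_, t ns3, by rw [rho_two_torsion, if_neg (Ne.symm h₁₃)],
      by rw [rho_two_torsion, if_neg (Ne.symm h₂₃)], by rw [rho_two_torsion, if_pos rfl]⟩
  · exfalso; apply hm; linear_combination hs

/-- Halving of points when `x - eᵢ` are squares. -/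
lemma exists_half (hW : Short W) (h2 : (2 : K) ≠ 0) (hsq : ∀ x : K, ∃ z, z ^ 2 = x)
    {e₁ e₂ e₃ : K} (h₁ : Rt W e₁)
    (h₂ : Rt W e₂) (h₃ : Rt W e₃) (h₁₂ : e₁ ≠ e₂) (h₁₃ : e₁ ≠ e₃) (h₂₃ : e₂ ≠ e₃)
    (P : W.Point) : ∃ Q : W.Point, 2 • Q = P := by
  rcases P with _ | ⟨x₀, y₀, h⟩
  · exact ⟨0, by simp [← Affine.Point.zero_def]⟩
  have p12 := Rt.pair h₁ h₂ h₁₂
  have p13 := Rt.pair h₁ h₃ h₁₃
  have q3 : (e₂ - e₃) * (e₁ + e₂ + e₃ + W.a₂) = 0 := by linear_combination p12 - p13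
  have q := (mul_eq_zero.mp q3).resolve_left (sub_ne_zero.mpr h₂₃)
  have ha2 : W.a₂ = -(e₁ + e₂ + e₃) := by linear_combination q
  have ha4 : W.a₄ = e₁ * e₂ + e₁ * e₃ + e₂ * e₃ := by
    linear_combination p12 - (e₁ + e₂) * q
  have ha6 : W.a₆ = -(e₁ * e₂ * e₃) := by
    unfold Rt at h₁
    rw [ha2, ha4] at h₁
    linear_combination h₁
  have heq : y₀ ^ 2 = (x₀ - e₁) * (x₀ - e₂) * (x₀ - e₃) := by
    rw [hW.equation h.1, ha2, ha4, ha6]; ring
  obtain ⟨r₁, hr₁⟩ := hsq (x₀ - e₁)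
  obtain ⟨r₂, hr₂⟩ := hsq (x₀ - e₂)
  obtain ⟨r₃', hr₃'⟩ := hsq (x₀ - e₃)
  -- choose the sign of `r₃` such that `r₁ r₂ r₃ = y₀`
  obtain ⟨r₃, hr₃, hy₀⟩ : ∃ r₃, r₃ ^ 2 = x₀ - e₃ ∧ y₀ = r₁ * r₂ * r₃ := by
    have h3 : (y₀ - r₁ * r₂ * r₃') * (y₀ + r₁ * r₂ * r₃') = 0 := by
      have : (r₁ * r₂ * r₃') ^ 2 = (x₀ - e₁) * (x₀ - e₂) * (x₀ - e₃) := by
        rw [← hr₁, ← hr₂, ← hr₃']; ring
      linear_combination heq - this
    rcases mul_eq_zero.mp h3 with h4 | h4
    · exact ⟨r₃', hr₃', by linear_combination h4⟩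
    · exact ⟨-r₃', by rw [neg_sq, hr₃'], by linear_combination h4⟩
  have e1 : e₁ = x₀ - r₁ ^ 2 := by rw [hr₁]; ring
  have e2 : e₂ = x₀ - r₂ ^ 2 := by rw [hr₂]; ring
  have e3 : e₃ = x₀ - r₃ ^ 2 := by rw [hr₃]; ring
  have n12 : r₁ + r₂ ≠ 0 := by
    intro h0; apply h₁₂; rw [e1, e2]; linear_combination (r₂ - r₁) * h0
  have n13 : r₁ + r₃ ≠ 0 := by
    intro h0; apply h₁₃; rw [e1, e3]; linear_combination (r₃ - r₁) * h0
  have n23 : r₂ + r₃ ≠ 0 := by
    intro h0; apply h₂₃; rw [e2, e3]; linear_combination (r₃ - r₂) * h0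
  set x := x₀ + r₁ * r₂ + r₁ * r₃ + r₂ * r₃ with hx
  set y := (r₁ + r₂) * (r₁ + r₃) * (r₂ + r₃) with hy
  have hyne : y ≠ 0 := mul_ne_zero (mul_ne_zero n12 n13) n23
  have hQ : W.Nonsingular x y := by
    rw [W.nonsingular_iff x y, Affine.equation_iff, hW.a₁, hW.a₃]
    refine ⟨?_, Or.inr ?_⟩
    · rw [ha2, ha4, ha6, e1, e2, e3, hx, hy]; ring
    · intro h0; apply hyne
      have : 2 * y = 0 := by linear_combination h0
      exact (mul_eq_zero.mp this).resolve_left h2
  refine ⟨.some x y hQ, ?_⟩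
  have hne : y ≠ W.negY x y := by
    rw [hW.negY]; intro h1
    have : 2 * y = 0 := by linear_combination h1
    exact hyne ((mul_eq_zero.mp this).resolve_left h2)
  have hslope : W.slope x x y y = r₁ + r₂ + r₃ := by
    rw [Affine.slope_of_Y_ne rfl hne, hW.negY, hW.a₁]
    have : y - -y = 2 * y := by ring
    rw [this, div_eq_iff (mul_ne_zero h2 hyne), ha2, ha4, e1, e2, e3, hx, hy]
    ring
  have hX : W.addX x x (r₁ + r₂ + r₃) = x₀ := by
    rw [Affine.addX, hW.a₁, ha2, e1, e2, e3, hx]; ring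
  have hY : W.addY x x y (r₁ + r₂ + r₃) = y₀ := by
    rw [Affine.addY, Affine.negAddY, hX, hW.negY, hy₀, hx, hy]; ring
  rw [two_nsmul, Affine.Point.add_self_of_Y_ne hne]
  simp only [hslope, hX, hY]

end Pool.Agent.Lib.MP_89bcae_ag

namespace Pool.Agent.Lib.MP_89bcae_ag

section Map

open WeierstrassCurve

variable {R S : Type*} [CommRing R] [CommRing S] {A B : Type*} [Field A] [Field B] [DecidableEq A]
  [DecidableEq B] [Algebra R S] [Algebra R A] [Algebra S A] [IsScalarTower R S A] [Algebra R B]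
  [Algebra S B] [IsScalarTower R S B] {W' : WeierstrassCurve.Affine R}

lemma rho_map (f : A →ₐ[S] B) (e : A) (P : (Affine.baseChange W' A).Point) :
    rho (f e) (Affine.Point.map (W' := W') f P) = f (rho e P) := by
  have hf : ∀ r : R, f (algebraMap R A r) = algebraMap R B r := by
    intro r
    rw [IsScalarTower.algebraMap_apply R S A, AlgHom.commutes, ← IsScalarTower.algebraMap_apply]
  rcases P with _ | ⟨x, y, h⟩
  · exact (map_one f).symm
  · rw [Affine.Point.map_some, rho_some, rho_some]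
    by_cases hy : y = 0
    · rw [if_pos hy, if_pos (by rw [hy, map_zero])]
      by_cases hx : x = e
      · rw [if_pos hx, if_pos (by rw [hx]), map_one]
      · have hx' : f x ≠ f e := fun h => hx (f.injective h)
        rw [if_neg hx, if_neg hx', map_neg, map_one]
    · have hy' : f y ≠ 0 := fun h => hy ((map_eq_zero f).mp h)
      rw [if_neg hy, if_neg hy']
      simp only [map_div₀, map_sub, map_pow, map_add, map_mul, map_ofNat]
      simp [Affine.baseChange, WeierstrassCurve.baseChange, hf]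

end Map

end Pool.Agent.Lib.MP_89bcae_ag

end

section

/-!
# Kummer theory for quadratic characters, and its version for a transitive set of roots
-/

namespace Pool.Agent.Lib.MP_89bcae_ag

variable {L Ω : Type*} [Field L] [Field Ω] [Algebra L Ω] [IsGalois L Ω]

/-- A continuous sign character on the stabiliser of `θ₀` comes from a Kummer generator. -/
lemma exists_kummer_gen (θ₀ : Ω) (χ : (Ω ≃ₐ[L] Ω) → Ω)
    (hsign : ∀ σ : Ω ≃ₐ[L] Ω, σ θ₀ = θ₀ → χ σ = 1 ∨ χ σ = -1)
    (hmul : ∀ σ τ : Ω ≃ₐ[L] Ω, σ θ₀ = θ₀ → τ θ₀ = θ₀ → χ (σ * τ) = χ σ * χ τ)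
    (hloc : IsLocallyConstant χ) :
    ∃ b : Ω, b ≠ 0 ∧ ∀ σ : Ω ≃ₐ[L] Ω, σ θ₀ = θ₀ → σ b = χ σ * b := by
  classical
  by_cases hneg1 : (-1 : Ω) = 1
  · refine ⟨1, one_ne_zero, fun σ hσ => ?_⟩
    rcases hsign σ hσ with h | h <;> simp [h, hneg1]
  by_cases htriv : ∀ σ : Ω ≃ₐ[L] Ω, σ θ₀ = θ₀ → χ σ = 1
  · exact ⟨1, one_ne_zero, fun σ hσ => by rw [htriv σ hσ, map_one, mul_one]⟩
  push Not at htriv
  obtain ⟨σ₁, hσ₁, hχ₁⟩ := htriv
  have hχ₁' : χ σ₁ = -1 := (hsign σ₁ hσ₁).resolve_left hχ₁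
  have hχone : χ 1 = 1 := by
    have h1 : (1 : Ω ≃ₐ[L] Ω) θ₀ = θ₀ := rfl
    have := hmul 1 1 h1 h1
    rw [mul_one] at this
    rcases hsign 1 h1 with h | h
    · exact h
    · rw [h] at this; exfalso; apply hneg1; rw [this]; ring
  have hinv : ∀ σ : Ω ≃ₐ[L] Ω, σ θ₀ = θ₀ → σ⁻¹ θ₀ = θ₀ := by
    intro σ hσ
    have : σ⁻¹ (σ θ₀) = θ₀ := σ.symm_apply_apply θ₀
    rwa [hσ] at this
  have hχinv : ∀ σ : Ω ≃ₐ[L] Ω, σ θ₀ = θ₀ → χ σ⁻¹ = χ σ := by
    intro σ hσ
    have h := hmul σ σ⁻¹ hσ (hinv σ hσ)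
    rw [mul_inv_cancel, hχone] at h
    rcases hsign σ hσ with h1 | h1 <;> rcases hsign σ⁻¹ (hinv σ hσ) with h2 | h2
    · rw [h1, h2]
    · rw [h1, h2] at h; exfalso; exact hneg1 (by linear_combination -h)
    · rw [h1, h2] at h; exfalso; exact hneg1 (by linear_combination -h)
    · rw [h1, h2]
  -- the closed subgroup `H' = ker χ`
  let H' : Subgroup (Ω ≃ₐ[L] Ω) :=
    { carrier := {σ | σ θ₀ = θ₀ ∧ χ σ = 1}
      mul_mem' := by
        rintro a b ⟨ha, ha'⟩ ⟨hb, hb'⟩
        refine ⟨?_, ?_⟩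
        · change a (b θ₀) = θ₀
          rw [hb, ha]
        · rw [hmul a b ha hb, ha', hb', mul_one]
      one_mem' := ⟨rfl, hχone⟩
      inv_mem' := by
        rintro a ⟨ha, ha'⟩
        exact ⟨hinv a ha, by rw [hχinv a ha, ha']⟩ }
  have hH'closed : IsClosed (H' : Set (Ω ≃ₐ[L] Ω)) := by
    have h1 : IsClosed {σ : Ω ≃ₐ[L] Ω | σ θ₀ = θ₀} := by
      have h3 := InfiniteGalois.fixingSubgroup_isClosed (IntermediateField.adjoin L {θ₀})
      convert h3 using 1
      ext σ
      simp only [Set.mem_ofPred_eq, SetLike.mem_coe]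
      rw [IntermediateField.mem_fixingSubgroup_iff]
      constructor
      · intro h x hx
        have : IntermediateField.adjoin L {θ₀} ≤
            IntermediateField.fixedField (Subgroup.zpowers σ) := by
          rw [IntermediateField.adjoin_le_iff, Set.singleton_subset_iff]
          rw [SetLike.mem_coe, IntermediateField.mem_fixedField_iff]
          rintro f ⟨n, rfl⟩
          have hst : σ ∈ MulAction.stabilizer (Ω ≃ₐ[L] Ω) θ₀ := h
          exact (Subgroup.zpow_mem _ hst n)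
        exact (IntermediateField.mem_fixedField_iff _ _).mp (this hx) σ (Subgroup.mem_zpowers σ)
      · intro h
        exact h θ₀ (IntermediateField.mem_adjoin_simple_self L θ₀)
    have h2 : IsClosed {σ : Ω ≃ₐ[L] Ω | χ σ = 1} := (hloc.isClosed_fiber 1)
    exact h1.inter h2
  let H'c : ClosedSubgroup (Ω ≃ₐ[L] Ω) := ⟨H', hH'closed⟩
  have hnotmem : σ₁ ∉ H' := by
    rintro ⟨_, h⟩
    rw [hχ₁'] at h
    exact hneg1 h
  have hex : ∃ y ∈ IntermediateField.fixedField H', σ₁ y ≠ y := by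
    by_contra hcon
    push Not at hcon
    apply hnotmem
    have h4 := InfiniteGalois.fixingSubgroup_fixedField H'c
    have h5 : σ₁ ∈ (IntermediateField.fixedField H').fixingSubgroup := by
      rw [IntermediateField.mem_fixingSubgroup_iff]
      exact hcon
    have h6 : (IntermediateField.fixedField H').fixingSubgroup = H' := h4
    rwa [h6] at h5
  obtain ⟨y, hy, hσy⟩ := hex
  rw [IntermediateField.mem_fixedField_iff] at hy
  refine ⟨y - σ₁ y, sub_ne_zero.mpr (Ne.symm hσy), fun σ hσ => ?_⟩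
  have key : ∀ h ∈ H', h (σ₁ y) = σ₁ y := by
    rintro h ⟨hh, hh'⟩
    have hm : σ₁⁻¹ * h * σ₁ ∈ H' := by
      refine ⟨?_, ?_⟩
      · change σ₁⁻¹ (h (σ₁ θ₀)) = θ₀
        rw [hσ₁, hh, hinv σ₁ hσ₁]
      · have e1 : (σ₁⁻¹ * h) θ₀ = θ₀ := by
          change σ₁⁻¹ (h θ₀) = θ₀
          rw [hh, hinv σ₁ hσ₁]
        rw [hmul _ _ e1 hσ₁, hmul _ _ (hinv σ₁ hσ₁) hh, hχinv σ₁ hσ₁, hh', hχ₁']
        ring
    have := hy _ hm
    change σ₁⁻¹ (h (σ₁ y)) = y at this
    have h7 : σ₁ (σ₁⁻¹ (h (σ₁ y))) = h (σ₁ y) := σ₁.apply_symm_apply _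
    rw [← h7, this]
  rcases hsign σ hσ with h1 | h1
  · have hm : σ ∈ H' := ⟨hσ, h1⟩
    rw [map_sub, hy σ hm, key σ hm, h1, one_mul]
  · -- `σ = h σ₁` with `h ∈ H'`
    have hm : σ * σ₁⁻¹ ∈ H' := by
      refine ⟨?_, ?_⟩
      · change σ (σ₁⁻¹ θ₀) = θ₀
        rw [hinv σ₁ hσ₁, hσ]
      · rw [hmul _ _ hσ (hinv σ₁ hσ₁), h1, hχinv σ₁ hσ₁, hχ₁']; ring
    have hm2 : σ₁ * σ₁ ∈ H' := by
      refine ⟨?_, ?_⟩
      · change σ₁ (σ₁ θ₀) = θ₀
        rw [hσ₁, hσ₁]
      · rw [hmul _ _ hσ₁ hσ₁, hχ₁']; ring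
    have e1 : σ y = σ₁ y := by
      have h8 : (σ * σ₁⁻¹) (σ₁ y) = σ y := by
        change σ (σ₁⁻¹ (σ₁ y)) = σ y
        congr 1
        exact σ₁.symm_apply_apply y
      rw [← h8]
      exact key _ hm
    have e2 : σ (σ₁ y) = y := by
      have h8 : (σ * σ₁⁻¹) (σ₁ (σ₁ y)) = σ (σ₁ y) := by
        change σ (σ₁⁻¹ (σ₁ (σ₁ y))) = σ (σ₁ y)
        congr 1
        exact σ₁.symm_apply_apply (σ₁ y)
      have h9 : σ₁ (σ₁ y) = y := hy _ hm2
      rw [← h8, h9]
      exact hy _ hm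
    rw [map_sub, e1, e2, h1]
    ring

/-- The descent functions attached to a `±1`-valued cocycle on a transitive set `R`. -/
lemma exists_descent_fun (R : Set Ω) (hR : ∀ θ ∈ R, ∀ σ : Ω ≃ₐ[L] Ω, σ θ ∈ R)
    (htrans : ∀ θ ∈ R, ∀ θ' ∈ R, ∃ σ : Ω ≃ₐ[L] Ω, σ θ = θ') (hne : R.Nonempty)
    (s : Ω → (Ω ≃ₐ[L] Ω) → Ω) (hs1 : ∀ θ ∈ R, ∀ σ, s θ σ = 1 ∨ s θ σ = -1)
    (hs : ∀ θ ∈ R, ∀ σ τ, s (σ θ) (σ * τ) = s (σ θ) σ * s θ τ)
    (hloc : ∀ θ ∈ R, IsLocallyConstant (s θ)) :
    ∃ b : Ω → Ω, (∀ θ ∈ R, b θ ≠ 0) ∧ ∀ θ ∈ R, ∀ σ : Ω ≃ₐ[L] Ω, σ (b θ) = s (σ θ) σ * b (σ θ) := by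
  classical
  obtain ⟨θ₀, hθ₀⟩ := hne
  obtain ⟨b₀, hb₀, hb⟩ := exists_kummer_gen θ₀ (s θ₀) (fun σ _ => hs1 θ₀ hθ₀ σ)
    (fun σ τ hσ hτ => by
      have := hs θ₀ hθ₀ σ τ
      rwa [hσ] at this) (hloc θ₀ hθ₀)
  choose! g hg using fun θ (hθ : θ ∈ R) => htrans θ₀ hθ₀ θ hθ
  have hsq : ∀ θ ∈ R, ∀ σ, s θ σ * s θ σ = 1 := by
    intro θ hθ σ
    rcases hs1 θ hθ σ with h | h <;> rw [h] <;> ring
  have hsn : ∀ θ ∈ R, ∀ σ, s θ σ ≠ 0 := by
    intro θ hθ σ h
    have := hsq θ hθ σ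
    rw [h, mul_zero] at this
    exact zero_ne_one this
  have hsfix : ∀ θ ∈ R, ∀ σ, ∀ τ : Ω ≃ₐ[L] Ω, τ (s θ σ) = s θ σ := by
    intro θ hθ σ τ
    rcases hs1 θ hθ σ with h | h <;> simp [h]
  refine ⟨fun θ => s θ (g θ) * g θ b₀, fun θ hθ => mul_ne_zero (hsn θ hθ _) ?_, fun θ hθ σ => ?_⟩
  · intro h
    exact hb₀ ((map_eq_zero (g θ)).mp h)
  · have hσθ := hR θ hθ σ
    set g' := g (σ θ) with hg'
    have hg1 : g θ θ₀ = θ := hg θ hθ
    have hg2 : g' θ₀ = σ θ := hg (σ θ) hσθ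
    set h := g'⁻¹ * (σ * g θ) with hh
    have hfix : h θ₀ = θ₀ := by
      change g'⁻¹ (σ (g θ θ₀)) = θ₀
      rw [hg1, ← hg2]
      exact g'.symm_apply_apply θ₀
    have hmul : σ * g θ = g' * h := by rw [hh]; group
    have e1 : σ (g θ b₀) = g' (h b₀) := by
      change (σ * g θ) b₀ = (g' * h) b₀
      rw [hmul]
    have e2 : σ (g θ b₀) = s θ₀ h * g' b₀ := by
      rw [e1, hb h hfix, map_mul, hsfix θ₀ hθ₀]
    have e3 : s (σ θ) (σ * g θ) = s (σ θ) σ * s θ (g θ) := by
      exact hs θ hθ σ (g θ)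
    have e4 : s (σ θ) (σ * g θ) = s (σ θ) g' * s θ₀ h := by
      have := hs θ₀ hθ₀ g' h
      rwa [hg2, ← hmul] at this
    have e5 : s θ₀ h = s (σ θ) g' * (s (σ θ) σ * s θ (g θ)) := by
      rw [← e3, e4, ← mul_assoc, hsq _ hσθ, one_mul]
    change σ (s θ (g θ) * g θ b₀) = s (σ θ) σ * (s (σ θ) g' * g' b₀)
    rw [map_mul, hsfix θ hθ, e2, e5]
    calc s θ (g θ) * (s (σ θ) g' * (s (σ θ) σ * s θ (g θ)) * g' b₀)
        = (s θ (g θ) * s θ (g θ)) * (s (σ θ) g' * s (σ θ) σ * g' b₀) := by ring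
      _ = s (σ θ) σ * (s (σ θ) g' * g' b₀) := by rw [hsq θ hθ]; ring

end Pool.Agent.Lib.MP_89bcae_ag

end

section

/-!
# The number of ideals of given norm
-/

open NumberField Ideal

namespace Pool.Agent.Lib.MP_89bcae_ag.Re

/-- The number of ideals of norm `n` of the ring of integers of `K`. -/
noncomputable def idealCount (K : Type*) [Field K] [NumberField K] (n : ℕ) : ℕ :=
  Nat.card {I : Ideal (𝓞 K) // absNorm I = n}

/-- The Dirichlet series of `K` for real `s`. -/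
noncomputable def zetaR (K : Type*) [Field K] [NumberField K] (s : ℝ) : ℝ :=
  ∑' n : ℕ, (idealCount K n : ℝ) * (n : ℝ) ^ (-s)

end Pool.Agent.Lib.MP_89bcae_ag.Re

end

section

open Filter Topology

namespace Pool.Agent.Lib.MP_89bcae_ag.Re

/-- Elementary: `x ↦ log (1 + x) - x + x ^ 2` is nonnegative for `x ≥ 0` (for instance from
`Real.add_one_le_exp` applied to `-x/(1+x)`, or by cases `x ≤ 1`: `1 + x ≥ exp (x - x ^ 2)`). -/
theorem exp_le_one_add_mul_exp_sq {x : ℝ} (hx : 0 ≤ x) :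
    Real.exp x ≤ (1 + x) * Real.exp (x ^ 2) := by
  have h1 : x ^ 2 - x + 1 ≤ Real.exp (x ^ 2 - x) := Real.add_one_le_exp _
  have h2 : 1 ≤ (1 + x) * Real.exp (x ^ 2 - x) := by
    have h3 : (1 + x) * (x ^ 2 - x + 1) = 1 + x ^ 3 := by ring
    have h4 : (1 + x) * (x ^ 2 - x + 1) ≤ (1 + x) * Real.exp (x ^ 2 - x) :=
      mul_le_mul_of_nonneg_left h1 (by linarith)
    have h5 : 0 ≤ x ^ 3 := pow_nonneg hx 3
    linarith
  calc Real.exp x = 1 * Real.exp x := (one_mul _).symm
    _ ≤ ((1 + x) * Real.exp (x ^ 2 - x)) * Real.exp x := mul_le_mul_of_nonneg_right h2 (Real.exp_pos _).le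
    _ = (1 + x) * Real.exp (x ^ 2) := by
      rw [mul_assoc, ← Real.exp_add, sub_add_cancel]

private lemma n05a_pow {q : ℕ} (hq : 2 ≤ q) {s : ℝ} (hs : 1 < s) (e : ℕ) :
    ((q ^ e : ℕ) : ℝ) ^ (-s) ≤ (1 / 2) ^ e := by
  have hq1 : 1 ≤ q ^ e := Nat.one_le_pow _ _ (by omega)
  have hq1' : (1 : ℝ) ≤ ((q ^ e : ℕ) : ℝ) := by exact_mod_cast hq1
  have h1 : ((q ^ e : ℕ) : ℝ) ^ (-s) ≤ ((q ^ e : ℕ) : ℝ) ^ (-1 : ℝ) :=
    Real.rpow_le_rpow_of_exponent_le hq1' (by linarith)
  have h2 : ((q ^ e : ℕ) : ℝ) ^ (-1 : ℝ) = (((q ^ e : ℕ) : ℝ))⁻¹ := Real.rpow_neg_one _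
  have h3 : (((q ^ e : ℕ) : ℝ))⁻¹ ≤ (1 / 2) ^ e := by
    rw [one_div, inv_pow]
    apply inv_anti₀ (by positivity)
    push_cast
    exact pow_le_pow_left₀ (by norm_num) (by exact_mod_cast hq) e
  rw [h2] at h1
  exact h1.trans h3

private lemma n05a_sum (d : ℕ) : Summable fun e : ℕ => ((e : ℝ) + 1) ^ d * (1 / 2) ^ e := by
  have h1 : Summable fun n : ℕ => (n : ℝ) ^ d * (1 / 2 : ℝ) ^ n :=
    summable_pow_mul_geometric_of_norm_lt_one d (by rw [Real.norm_eq_abs, abs_of_pos] <;> norm_num)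
  have h2 := ((summable_nat_add_iff 1).2 h1).mul_left 2
  refine h2.congr fun e => ?_
  push_cast
  rw [pow_succ]
  ring

/-- The series of the Euler factor converges. Proof: `u e ≤ (e+1)^d`, `q ≥ 2`, compare with
`(e+1)^d * 2^(-e)` (`summable_pow_mul_geometric_of_norm_lt_one` or root test). -/
theorem summable_factor (d : ℕ) {u : ℕ → ℝ} (hu0 : ∀ e, 0 ≤ u e) (hu : ∀ e, u e ≤ ((e : ℝ) + 1) ^ d)
    {q : ℕ} (hq : 2 ≤ q) {s : ℝ} (hs : 1 < s) :
    Summable fun e : ℕ => u e * ((q ^ e : ℕ) : ℝ) ^ (-s) := by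
  refine Summable.of_nonneg_of_le (fun e => mul_nonneg (hu0 e) (Real.rpow_nonneg (Nat.cast_nonneg _) _))
    (fun e => ?_) (n05a_sum d)
  exact mul_le_mul (hu e) (n05a_pow hq hs e) (Real.rpow_nonneg (Nat.cast_nonneg _) _)
    (pow_nonneg (by positivity) _)

/-- The majorant of the tail of the Euler factor is summable. -/
theorem n05b_summable (d : ℕ) : Summable fun e : ℕ => ((e : ℝ) + 3) ^ d * (1 / 2 : ℝ) ^ e := by
  have h1 : Summable fun n : ℕ => (n : ℝ) ^ d * (1 / 2 : ℝ) ^ n :=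
    summable_pow_mul_geometric_of_norm_lt_one d (by rw [Real.norm_eq_abs, abs_of_pos] <;> norm_num)
  have h2 := ((summable_nat_add_iff 3).2 h1).mul_left 8
  refine h2.congr fun e => ?_
  push_cast
  rw [pow_add]
  ring

/-- One term of the tail. -/
theorem n05b_term {d : ℕ} {u : ℕ → ℝ} (hu : ∀ e, u e ≤ ((e : ℝ) + 1) ^ d) {q : ℕ} (hq : 2 ≤ q)
    {s : ℝ} (hs : 1 < s) (e : ℕ) :
    u (e + 2) * ((q ^ (e + 2) : ℕ) : ℝ) ^ (-s) ≤
      1 / (q : ℝ) ^ 2 * (((e : ℝ) + 3) ^ d * (1 / 2 : ℝ) ^ e) := by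
  have hq0 : (2 : ℝ) ≤ q := by exact_mod_cast hq
  have hqpos : (0 : ℝ) < q := by linarith
  have h1 : (1 : ℝ) ≤ ((q ^ (e + 2) : ℕ) : ℝ) := by
    exact_mod_cast Nat.one_le_pow _ _ (by omega : 0 < q)
  have h2 : ((q ^ (e + 2) : ℕ) : ℝ) ^ (-s) ≤ 1 / (q : ℝ) ^ 2 * (1 / 2 : ℝ) ^ e := by
    have h3 : ((q ^ (e + 2) : ℕ) : ℝ) ^ (-s) ≤ ((q ^ (e + 2) : ℕ) : ℝ) ^ (-1 : ℝ) :=
      Real.rpow_le_rpow_of_exponent_le h1 (by linarith)
    refine h3.trans ?_
    rw [Real.rpow_neg_one, Nat.cast_pow, pow_add, mul_inv, one_div, one_div, inv_pow, mul_comm]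
    refine mul_le_mul_of_nonneg_left ?_ (by positivity)
    exact inv_anti₀ (by positivity) (pow_le_pow_left₀ (by norm_num) hq0 e)
  have h4 : u (e + 2) ≤ ((e : ℝ) + 3) ^ d := by
    have h5 := hu (e + 2)
    push_cast at h5
    have h6 : (e : ℝ) + 2 + 1 = (e : ℝ) + 3 := by ring
    rwa [h6] at h5
  calc u (e + 2) * ((q ^ (e + 2) : ℕ) : ℝ) ^ (-s)
      ≤ ((e : ℝ) + 3) ^ d * ((q ^ (e + 2) : ℕ) : ℝ) ^ (-s) :=
        mul_le_mul_of_nonneg_right h4 (Real.rpow_nonneg (by linarith) _)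
    _ ≤ ((e : ℝ) + 3) ^ d * (1 / (q : ℝ) ^ 2 * (1 / 2 : ℝ) ^ e) :=
        mul_le_mul_of_nonneg_left h2 (by positivity)
    _ = 1 / (q : ℝ) ^ 2 * (((e : ℝ) + 3) ^ d * (1 / 2 : ℝ) ^ e) := by ring

/-- One Euler factor. `u e` stands for `a(q ^ e)`. Proof: the factor is `1 + u 1 * q ^ (-s) + R` with
`0 ≤ R = ∑_{e ≥ 2} ≤ ∑_{e ≥ 2} (e+1)^d q^(-e)` (since `s > 1`) `≤ C₁ / q ^ 2`,
`C₁ = ∑_{e ≥ 2} (e+1)^d 2^(2-e)`. -/
theorem factor_le (d : ℕ) : ∃ C : ℝ, 0 ≤ C ∧ ∀ (u : ℕ → ℝ), (∀ e, 0 ≤ u e) → u 0 = 1 →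
    (∀ e, u e ≤ ((e : ℝ) + 1) ^ d) → ∀ (q : ℕ), 2 ≤ q → ∀ s : ℝ, 1 < s →
      ∑' e : ℕ, u e * ((q ^ e : ℕ) : ℝ) ^ (-s) ≤ 1 + u 1 * (q : ℝ) ^ (-s) + C / (q : ℝ) ^ 2 := by
  refine ⟨∑' e : ℕ, ((e : ℝ) + 3) ^ d * (1 / 2 : ℝ) ^ e, tsum_nonneg fun e => by positivity, ?_⟩
  intro u hu0 hu1 hu q hq s hs
  have hsum := summable_factor d hu0 hu hq hs
  rw [← hsum.sum_add_tsum_nat_add 2, Finset.sum_range_succ, Finset.sum_range_one, hu1, pow_zero,
    Nat.cast_one, Real.one_rpow, one_mul, pow_one]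
  have h1 : ∑' e : ℕ, u (e + 2) * ((q ^ (e + 2) : ℕ) : ℝ) ^ (-s) ≤
      ∑' e : ℕ, 1 / (q : ℝ) ^ 2 * (((e : ℝ) + 3) ^ d * (1 / 2 : ℝ) ^ e) :=
    ((summable_nat_add_iff 2).2 hsum).tsum_le_tsum (fun e => n05b_term hu hq hs e)
      ((n05b_summable d).mul_left _)
  rw [tsum_mul_left] at h1
  have h2 : 1 / (q : ℝ) ^ 2 * ∑' e : ℕ, ((e : ℝ) + 3) ^ d * (1 / 2 : ℝ) ^ e =
      (∑' e : ℕ, ((e : ℝ) + 3) ^ d * (1 / 2 : ℝ) ^ e) / (q : ℝ) ^ 2 := by ring
  linarith

end Pool.Agent.Lib.MP_89bcae_ag.Re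

end

section

open NumberField Polynomial

namespace Pool.Agent.Lib.MP_89bcae_ag.Re

private theorem exists_nat_mul_int (K : Type*) [Field K] [NumberField K] (a : K) :
    ∃ M : ℕ, M ≠ 0 ∧ ∃ b : 𝓞 K, (b : K) = M * a := by
  have halg : IsAlgebraic ℤ a := by
    have h1 : IsAlgebraic ℚ a := Algebra.IsAlgebraic.isAlgebraic a
    exact (IsFractionRing.isAlgebraic_iff ℤ ℚ K).mpr h1
  obtain ⟨y, hy0, hy⟩ := halg.exists_integral_multiple
  refine ⟨y.natAbs, Int.natAbs_ne_zero.mpr hy0, ?_⟩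
  have hy2 : IsIntegral ℤ ((y.natAbs : K) * a) := by
    rcases Int.natAbs_eq y with h | h
    · have : ((y.natAbs : K) * a) = y • a := by
        rw [zsmul_eq_mul]
        conv_rhs => rw [h]
        simp
      rw [this]; exact hy
    · have : ((y.natAbs : K) * a) = - (y • a) := by
        rw [zsmul_eq_mul]
        conv_rhs => rw [h]
        simp
      rw [this]; exact hy.neg
  exact ⟨⟨_, hy2⟩, rfl⟩

private theorem exists_nat_mul_poly (K : Type*) [Field K] [NumberField K] (p : K[X]) :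
    ∃ M : ℕ, M ≠ 0 ∧ ∃ q : (𝓞 K)[X], q.map (algebraMap (𝓞 K) K) = (M : K[X]) * p := by
  induction p using Polynomial.induction_on' with
  | add p q hp hq =>
    obtain ⟨M, hM, P, hP⟩ := hp
    obtain ⟨N, hN, Q, hQ⟩ := hq
    refine ⟨M * N, mul_ne_zero hM hN, (N : (𝓞 K)[X]) * P + (M : (𝓞 K)[X]) * Q, ?_⟩
    rw [Polynomial.map_add, Polynomial.map_mul, Polynomial.map_mul, hP, hQ]
    simp only [Polynomial.map_natCast]
    push_cast
    ring
  | monomial n a =>
    obtain ⟨M, hM, b, hb⟩ := exists_nat_mul_int K a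
    refine ⟨M, hM, Polynomial.monomial n b, ?_⟩
    rw [Polynomial.map_monomial]
    have : (M : K[X]) = C (M : K) := by simp
    rw [this, Polynomial.C_mul_monomial]
    congr 1

/-- A common denominator. Proof: `𝓞 K'` is generated by finitely many elements `y` as an `ℤ`-module
(`Module.Finite ℤ (𝓞 K')`); each is `aeval α p` with `p ∈ K[X]` (`Algebra.adjoin_singleton_eq_range_aeval`),
and a nonzero integer times `p` has coefficients in `𝓞 K`
(`IsLocalization.integerNormalization`, or `exist_integer_multiples_of_finset` with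
`IsLocalization (nonZeroDivisors ℤ)` or `IsIntegralClosure.exists_smul_eq_mul` ...); take the product
of these integers, and extend to sums of integral multiples of the generators
(`Submodule.span_induction`). -/
theorem exists_denominator (K K' : Type*) [Field K] [NumberField K] [Field K'] [NumberField K']
    [Algebra K K'] {α : 𝓞 K'} (hα : Algebra.adjoin K {(α : K')} = ⊤) :
    ∃ M : ℕ, M ≠ 0 ∧ ∀ y : 𝓞 K', ∃ p : (𝓞 K)[X], (M : 𝓞 K') * y = aeval α p := by
  classical
  -- one element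
  have h1 : ∀ y : 𝓞 K', ∃ M : ℕ, M ≠ 0 ∧ ∃ p : (𝓞 K)[X], (M : 𝓞 K') * y = aeval α p := by
    intro y
    have hy : (y : K') ∈ Algebra.adjoin K {(α : K')} := by rw [hα]; trivial
    rw [Algebra.adjoin_singleton_eq_range_aeval] at hy
    obtain ⟨p, hp⟩ := hy
    obtain ⟨M, hM, q, hq⟩ := exists_nat_mul_poly K p
    refine ⟨M, hM, q, ?_⟩
    apply RingOfIntegers.coe_injective
    have e1 : ((aeval α q : 𝓞 K') : K') = aeval (α : K') q := by
      have := Polynomial.aeval_algebraMap_apply K' α q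
      exact this.symm
    have e2 : aeval (α : K') q = aeval (α : K') (q.map (algebraMap (𝓞 K) K)) := by
      rw [Polynomial.aeval_map_algebraMap]
    change (((M : 𝓞 K') * y : 𝓞 K') : K') = ((aeval α q : 𝓞 K') : K')
    rw [e1, e2, hq, map_mul, map_natCast]
    have hp' : aeval (α : K') p = (y : K') := hp
    rw [hp']
    simp
  -- a finite family
  obtain ⟨s, hs⟩ := (Module.Finite.fg_top : (⊤ : Submodule ℤ (𝓞 K')).FG)
  choose M hM p hp using h1
  refine ⟨∏ y ∈ s, M y, Finset.prod_ne_zero_iff.mpr (fun y _ => hM y), ?_⟩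
  intro y
  have hy : y ∈ Submodule.span ℤ (s : Set (𝓞 K')) := by rw [hs]; trivial
  induction hy using Submodule.span_induction with
  | mem x hx =>
    have hx' : x ∈ s := hx
    refine ⟨((∏ y ∈ s.erase x, M y : ℕ) : (𝓞 K)[X]) * p x, ?_⟩
    rw [map_mul, map_natCast, ← hp x, ← mul_assoc, ← Nat.cast_mul, mul_comm (∏ y ∈ s.erase x, M y),
      Finset.mul_prod_erase s M hx']
  | zero => exact ⟨0, by simp⟩
  | add a b _ _ ha hb =>
    obtain ⟨P, hP⟩ := ha
    obtain ⟨Q, hQ⟩ := hb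
    exact ⟨P + Q, by rw [mul_add, hP, hQ, map_add]⟩
  | smul n a _ ha =>
    obtain ⟨P, hP⟩ := ha
    refine ⟨(n : (𝓞 K)[X]) * P, ?_⟩
    rw [map_mul, map_intCast, ← hP, zsmul_eq_mul]
    ring

end Pool.Agent.Lib.MP_89bcae_ag.Re

end

section

open NumberField Polynomial

namespace Pool.Agent.Lib.MP_89bcae_ag.Re

private theorem n11_key (K K' : Type*) [Field K] [NumberField K] [Field K'] [NumberField K']
    [Algebra K K'] {ℓ : ℕ} (hℓ : 0 < ℓ) {b : 𝓞 K} {α : 𝓞 K'}
    (hb : α ^ ℓ = algebraMap (𝓞 K) (𝓞 K') b) (hirr : Irreducible (X ^ ℓ - C (b : K)))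
    {q : ℕ} (φ : 𝓞 K →+* ZMod q) {c : ZMod q} (hc : c ^ ℓ = φ b) (p : (𝓞 K)[X])
    (hp : aeval α p = 0) : eval₂ φ c p = 0 := by
  have hmon : (X ^ ℓ - C b : (𝓞 K)[X]).Monic := monic_X_pow_sub_C b hℓ.ne'
  have hPα : aeval α (X ^ ℓ - C b : (𝓞 K)[X]) = 0 := by
    simp [hb]
  have hPc : eval₂ φ c (X ^ ℓ - C b : (𝓞 K)[X]) = 0 := by
    simp [hc]
  have hdiv := modByMonic_add_div p (X ^ ℓ - C b : (𝓞 K)[X])
  set r := p %ₘ (X ^ ℓ - C b : (𝓞 K)[X]) with hr
  have hrα : aeval α r = 0 := by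
    have h := congrArg (aeval α) hdiv
    rw [map_add, map_mul, hPα, zero_mul, add_zero, hp] at h
    exact h
  have hmonK : (X ^ ℓ - C (b : K) : K[X]).Monic := monic_X_pow_sub_C _ hℓ.ne'
  have hαK : aeval (α : K') (X ^ ℓ - C (b : K) : K[X]) = 0 := by
    have h1 : ((α ^ ℓ : 𝓞 K') : K') = ((algebraMap (𝓞 K) (𝓞 K') b : 𝓞 K') : K') := by rw [hb]
    have h2 : (α : K') ^ ℓ = algebraMap K K' (b : K) := by
      have h3 : algebraMap (𝓞 K') K' (algebraMap (𝓞 K) (𝓞 K') b) =
          algebraMap K K' (algebraMap (𝓞 K) K b) := by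
        rw [← IsScalarTower.algebraMap_apply, ← IsScalarTower.algebraMap_apply]
      rw [← h3, ← hb, map_pow]
    simp only [map_sub, map_pow, aeval_X, aeval_C, h2, sub_self]
  have hmin := minpoly.eq_of_irreducible_of_monic hirr hαK hmonK
  have hrK : aeval (α : K') (r.map (algebraMap (𝓞 K) K)) = 0 := by
    have h1 : aeval (α : K') (r.map (algebraMap (𝓞 K) K)) = algebraMap (𝓞 K') K' (aeval α r) := by
      rw [aeval_map_algebraMap, aeval_algebraMap_apply]
    rw [h1, hrα, map_zero]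
  have hr0 : r = 0 := by
    have hdvd := minpoly.dvd K (α : K') hrK
    rw [← hmin] at hdvd
    have hdeg : (r.map (algebraMap (𝓞 K) K)).degree < (X ^ ℓ - C (b : K) : K[X]).degree := by
      calc (r.map (algebraMap (𝓞 K) K)).degree ≤ r.degree := degree_map_le
        _ < (X ^ ℓ - C b : (𝓞 K)[X]).degree := degree_modByMonic_lt _ hmon
        _ = ℓ := degree_X_pow_sub_C hℓ _
        _ = _ := (degree_X_pow_sub_C hℓ _).symm
    have h0 : r.map (algebraMap (𝓞 K) K) = 0 := by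
      by_contra hne
      exact absurd (degree_le_of_dvd hdvd hne) (not_le.mpr hdeg)
    exact (Polynomial.map_eq_zero_iff (IsFractionRing.injective (𝓞 K) K)).mp h0
  rw [← hdiv, hr0, zero_add, eval₂_mul, hPc, zero_mul]

/-- Extension of a homomorphism to `F_q`. Proof: `X ^ ℓ - C b` is the minimal polynomial of `α` over
`K` (`hirr`, monic, `minpoly.eq_of_irreducible_of_monic`), so, since `𝓞 K` is integrally closed, that
over `𝓞 K` too (`minpoly.isIntegrallyClosed_eq_field_fractions'`): a polynomial `p ∈ (𝓞 K)[X]` with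
`aeval α p = 0` is a multiple of `X ^ ℓ - C b` (`minpoly.isIntegrallyClosed_dvd`). So
`eval₂ φ c p = 0` whenever `aeval α p = 0`, because `c ^ ℓ = φ b`. Define `ψ y = M⁻¹ * eval₂ φ c p` for
any `p` with `M * y = aeval α p` (`Classical.choose`): this does not depend on `p`; it is additive; it
is multiplicative: if `M y = p(α)`, `M z = r(α)`, `M (y z) = w(α)`, then `p r - C M * w` is zero at
`α`. Values: `ψ (algebraMap x) = φ x` with `p = C (M x)`, `ψ α = c` with `p = C M * X`. -/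
theorem exists_extension (K K' : Type*) [Field K] [NumberField K] [Field K'] [NumberField K']
    [Algebra K K'] {ℓ : ℕ} (hℓ : 0 < ℓ) {b : 𝓞 K} {α : 𝓞 K'}
    (hb : α ^ ℓ = algebraMap (𝓞 K) (𝓞 K') b) (hirr : Irreducible (X ^ ℓ - C (b : K)))
    {M : ℕ} (hM : ∀ y : 𝓞 K', ∃ p : (𝓞 K)[X], (M : 𝓞 K') * y = aeval α p)
    {q : ℕ} [Fact q.Prime] (hqM : ¬ q ∣ M) (φ : 𝓞 K →+* ZMod q) {c : ZMod q} (hc : c ^ ℓ = φ b) :
    ∃ ψ : 𝓞 K' →+* ZMod q, (∀ x : 𝓞 K, ψ (algebraMap (𝓞 K) (𝓞 K') x) = φ x) ∧ ψ α = c := by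
  have hM0 : (M : ZMod q) ≠ 0 := by
    rw [Ne, ZMod.natCast_eq_zero_iff]
    exact hqM
  have key : ∀ p r : (𝓞 K)[X], aeval α p = aeval α r → eval₂ φ c p = eval₂ φ c r := by
    intro p r h
    have h1 : aeval α (p - r) = 0 := by rw [map_sub, h, sub_self]
    have h2 := n11_key K K' hℓ hb hirr φ hc (p - r) h1
    rw [eval₂_sub, sub_eq_zero] at h2
    exact h2
  choose P hP using hM
  have val : ∀ (y : 𝓞 K') (p : (𝓞 K)[X]), (M : 𝓞 K') * y = aeval α p →
      (M : ZMod q)⁻¹ * eval₂ φ c (P y) = (M : ZMod q)⁻¹ * eval₂ φ c p := by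
    intro y p hp
    rw [key (P y) p ((hP y).symm.trans hp)]
  have valM : ∀ (y : 𝓞 K') (p : (𝓞 K)[X]) (d : ZMod q), (M : 𝓞 K') * y = aeval α p →
      eval₂ φ c p = M * d → (M : ZMod q)⁻¹ * eval₂ φ c (P y) = d := by
    intro y p d hp hd
    rw [val y p hp, hd, ← mul_assoc, inv_mul_cancel₀ hM0, one_mul]
  refine ⟨{ toFun := fun y => (M : ZMod q)⁻¹ * eval₂ φ c (P y)
            map_one' := ?_
            map_mul' := ?_
            map_zero' := ?_
            map_add' := ?_ }, ?_, ?_⟩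
  · apply valM 1 (C (M : 𝓞 K)) 1
    · simp
    · simp
  · intro x y
    apply valM (x * y) (P (x * y))
    · exact hP _
    · have h1 : aeval α (C (M : 𝓞 K) * P (x * y)) = aeval α (P x * P y) := by
        rw [map_mul, map_mul, ← hP x, ← hP y, ← hP (x * y)]
        simp only [map_natCast]
        ring
      have h2 := key _ _ h1
      rw [eval₂_mul, eval₂_mul, eval₂_C, map_natCast] at h2
      have h3 : (M : ZMod q) * ((M : ZMod q)⁻¹ * eval₂ φ c (P x) * ((M : ZMod q)⁻¹ * eval₂ φ c (P y)))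
          = (M : ZMod q)⁻¹ * (eval₂ φ c (P x) * eval₂ φ c (P y)) := by
        have : (M : ZMod q) * (M : ZMod q)⁻¹ = 1 := mul_inv_cancel₀ hM0
        linear_combination ((M : ZMod q)⁻¹ * (eval₂ φ c (P x) * eval₂ φ c (P y))) * this
      rw [h3, ← h2, ← mul_assoc, inv_mul_cancel₀ hM0, one_mul]
  · apply valM 0 0 0
    · simp
    · simp
  · intro x y
    show (M : ZMod q)⁻¹ * eval₂ φ c (P (x + y)) = (M : ZMod q)⁻¹ * eval₂ φ c (P x) +
      (M : ZMod q)⁻¹ * eval₂ φ c (P y)
    rw [val (x + y) (P x + P y), eval₂_add, mul_add]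
    rw [map_add, ← hP x, ← hP y, mul_add]
  · intro x
    show (M : ZMod q)⁻¹ * eval₂ φ c (P _) = φ x
    apply valM _ (C ((M : 𝓞 K) * x))
    · rw [aeval_C, map_mul, map_natCast]
    · rw [eval₂_C, map_mul, map_natCast]
  · show (M : ZMod q)⁻¹ * eval₂ φ c (P _) = c
    apply valM _ (C (M : 𝓞 K) * X)
    · rw [map_mul, aeval_C, aeval_X, map_natCast]
    · rw [eval₂_mul, eval₂_C, eval₂_X, map_natCast]

end Pool.Agent.Lib.MP_89bcae_ag.Re

end

section

open Finset

namespace Pool.Agent.Lib.MP_89bcae_ag.Re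

/-- The tridiagonal `n × n` matrix with diagonal `D 0, .., D (n - 1)` and the entries `-1` next to the
diagonal has no eigenvalue in the prime field. -/
def PathInj {ℓ : ℕ} (n : ℕ) (D : ℕ → ZMod ℓ) : Prop :=
  ∀ (z : ZMod ℓ) (v : ℕ → ZMod ℓ),
    (∀ i < n, (D i - z) * v i = (if i = 0 then 0 else v (i - 1)) +
      (if i + 1 = n then 0 else v (i + 1))) → ∀ i < n, v i = 0

/-- the solution of the recursion -/
def p01w {ℓ : ℕ} (D : ℕ → ZMod ℓ) (z : ZMod ℓ) : ℕ → ZMod ℓ
  | 0 => 1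
  | 1 => D 0 - z
  | (i + 2) => (D (i + 1) - z) * p01w D z (i + 1) - p01w D z i

theorem p01w_two {ℓ : ℕ} (D : ℕ → ZMod ℓ) (z : ZMod ℓ) (i : ℕ) :
    p01w D z (i + 2) = (D (i + 1) - z) * p01w D z (i + 1) - p01w D z i := by
  rw [p01w]

theorem p01w_ne {ℓ : ℕ} [Fact ℓ.Prime] (D : ℕ → ZMod ℓ) (z : ZMod ℓ) (i : ℕ) :
    ¬ (p01w D z i = 0 ∧ p01w D z (i + 1) = 0) := by
  induction i with
  | zero =>
    rintro ⟨h, -⟩
    rw [p01w] at h
    exact one_ne_zero h
  | succ i ih =>
    rintro ⟨h1, h2⟩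
    apply ih
    refine ⟨?_, h1⟩
    rw [p01w_two, h1, mul_zero, zero_sub, neg_eq_zero] at h2
    exact h2

theorem p01_sol {ℓ : ℕ} (n : ℕ) (D E : ℕ → ZMod ℓ) (hE : ∀ i, i + 1 < n → E i = D i) (z : ZMod ℓ)
    (v : ℕ → ZMod ℓ)
    (h : ∀ i < n, (E i - z) * v i = (if i = 0 then 0 else v (i - 1)) +
      (if i + 1 = n then 0 else v (i + 1))) :
    ∀ i < n, v i = v 0 * p01w D z i := by
  intro i
  induction i using Nat.strong_induction_on with
  | _ i ih =>
    intro hi
    match i, ih, hi with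
    | 0, _, _ => rw [p01w, mul_one]
    | 1, _, hi =>
      have h0 := h 0 (by omega)
      rw [if_pos rfl, if_neg (by omega), zero_add, zero_add, hE 0 (by omega)] at h0
      rw [p01w, ← h0, mul_comm]
    | (i + 2), ih, hi =>
      have h1 := h (i + 1) (by omega)
      rw [if_neg (by omega), if_neg (by omega), Nat.add_sub_cancel, hE (i + 1) (by omega),
        ih i (by omega) (by omega), ih (i + 1) (by omega) (by omega)] at h1
      rw [p01w_two]
      linear_combination -h1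

/-- the first `n - 1` entries of the diagonal -/
def p01D (ℓ n : ℕ) (i : ℕ) : ZMod ℓ := if i = 0 ∨ i + 2 = n then 1 else 2

theorem p01w_one (ℓ n : ℕ) (i : ℕ) : i + 1 < n → p01w (p01D ℓ n) 0 i = 1 := by
  induction i using Nat.strong_induction_on with
  | _ i ih =>
    intro hi
    match i, ih, hi with
    | 0, _, _ => rw [p01w]
    | 1, _, hi => rw [p01w, p01D, if_pos (Or.inl rfl), sub_zero]
    | (i + 2), ih, hi =>
      rw [p01w_two, ih i (by omega) (by omega), ih (i + 1) (by omega) (by omega), p01D,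
        if_neg (by omega)]
      ring

/-- Proof: `D = (1, 2, .., 2, 1, c)` (that is `D i = 1` for `i = 0` and `i = n - 2`, `D (n-1) = c`, `2` for
the others; note `n ≥ 3`). For `z` let `w z : ℕ → ZMod ℓ` be the sequence with `w 0 = 1`,
`w 1 = D 0 - z`, `w (i+2) = (D (i+1) - z) w (i+1) - w i` (defined with the first `n - 1` entries of `D`,
so independent of `c`). Any solution `v` of the equations for `i < n - 1` is `v 0 * w z` on `[0, n-1]`;
the last equation is `v 0 * ((c - z) * w z (n-1) - w z (n-2)) = 0`. If `v 0 = 0`, then `v = 0`. Otherwise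
`(c - z) * w z (n-1) = w z (n-2)`. For `z = 0` we have `w 0 i = 1` for `i ≤ n - 2` and `w 0 (n-1) = 0`, so
this is `0 = 1`: impossible. For `z ≠ 0`: `w z (n-1)` and `w z (n-2)` are not both zero (otherwise going
back `w z 0 = 0`), so at most one `c` (namely `z + w z (n-2) / w z (n-1)`) satisfies it. The bad `c` form
a set with at most `ℓ - 1` elements (image of the nonzero `z`), so some `c` is good. (See
`Sup.exists_delta` in `Tow/M11` for the same kind of argument.) -/
theorem exists_path {ℓ : ℕ} [Fact ℓ.Prime] {n : ℕ} (hn : 3 ≤ n) :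
    ∃ D : ℕ → ZMod ℓ, PathInj n D := by
  have hp : ℓ.Prime := Fact.out
  obtain ⟨S, hS⟩ : ∃ S : Finset (ZMod ℓ), S = ((univ : Finset (ZMod ℓ)).erase 0).image
    (fun z => z + p01w (p01D ℓ n) z (n - 2) / p01w (p01D ℓ n) z (n - 1)) := ⟨_, rfl⟩
  have hcard : S.card < (univ : Finset (ZMod ℓ)).card := by
    rw [hS]
    refine lt_of_le_of_lt Finset.card_image_le ?_
    exact Finset.card_erase_lt_of_mem (Finset.mem_univ _)
  obtain ⟨c, -, hc⟩ := Finset.exists_mem_notMem_of_card_lt_card hcard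
  refine ⟨fun i => if i + 1 = n then c else p01D ℓ n i, ?_⟩
  intro z v h
  have hsol := p01_sol n (p01D ℓ n) _ (fun i hi => if_neg (by omega)) z v h
  have hlast := h (n - 1) (by omega)
  have hn1 : n - 1 + 1 = n := by omega
  have hn2 : n - 1 - 1 = n - 2 := by omega
  have hn3 : n - 2 + 1 = n - 1 := by omega
  rw [if_neg (by omega), if_pos hn1, add_zero, hn2] at hlast
  simp only [hn1, if_true] at hlast
  rw [hsol (n - 1) (by omega), hsol (n - 2) (by omega)] at hlast
  have h0 : v 0 = 0 := by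
    by_contra hv
    have h1 : (c - z) * p01w (p01D ℓ n) z (n - 1) = p01w (p01D ℓ n) z (n - 2) := by
      apply mul_left_cancel₀ hv
      linear_combination hlast
    rcases eq_or_ne z 0 with hz | hz
    · subst hz
      have h2 : p01w (p01D ℓ n) 0 (n - 2) = 1 := p01w_one ℓ n (n - 2) (by omega)
      have h3 : p01w (p01D ℓ n) 0 (n - 1) = 0 := by
        obtain ⟨m, rfl⟩ : ∃ m, n = m + 3 := ⟨n - 3, by omega⟩
        have e1 : m + 3 - 1 = m + 2 := by omega
        rw [e1, p01w_two, p01w_one ℓ (m + 3) m (by omega), p01w_one ℓ (m + 3) (m + 1) (by omega),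
          p01D, if_pos (Or.inr (by omega))]
        ring
      rw [h2, h3, mul_zero] at h1
      exact zero_ne_one h1
    · have h2 : p01w (p01D ℓ n) z (n - 1) ≠ 0 := by
        intro h3
        rw [h3, mul_zero] at h1
        exact p01w_ne (p01D ℓ n) z (n - 2) ⟨h1.symm, by rw [hn3]; exact h3⟩
      apply hc
      rw [hS]
      refine Finset.mem_image.2 ⟨z, Finset.mem_erase.2 ⟨hz, Finset.mem_univ _⟩, ?_⟩
      rw [← h1, mul_div_assoc, div_self h2, mul_one]
      ring
  intro i hi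
  rw [hsol i hi, h0, zero_mul]

end Pool.Agent.Lib.MP_89bcae_ag.Re

end

section

/-!
# The roots of `g(x) = t` in a separable closure of `F(t)`
-/

open Polynomial

set_option linter.unusedSectionVars false

namespace Pool.Agent.Lib.MP_89bcae_ag

section Roots

variable {F L Ω : Type*} [Field F] [Field L] [Field Ω] [Algebra F[X] L]
  [IsFractionRing F[X] L] [Algebra L Ω] [Algebra F[X] Ω] [IsScalarTower F[X] L Ω]

variable (F Ω) in
/-- Evaluation of a polynomial with coefficients in `F` at an element of `Ω`. -/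
noncomputable def ev (θ : Ω) : F[X] →+* Ω := eval₂RingHom ((algebraMap F[X] Ω).comp C) θ

lemma ev_C (θ : Ω) (a : F) : ev F Ω θ (C a) = algebraMap F[X] Ω (C a) := by
  simp [ev]

lemma ev_X (θ : Ω) : ev F Ω θ X = θ := by
  simp [ev]

lemma ev_map (σ : Ω ≃ₐ[L] Ω) (θ : Ω) (p : F[X]) : σ (ev F Ω θ p) = ev F Ω (σ θ) p := by
  have h : (σ : Ω →+* Ω).comp (ev F Ω θ) = ev F Ω (σ θ) := by
    apply Polynomial.ringHom_ext
    · intro a
      simp only [RingHom.comp_apply, ev_C]
      rw [IsScalarTower.algebraMap_apply F[X] L Ω]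
      exact σ.commutes _
    · simp [ev_X]
  exact RingHom.congr_fun h p

/-- The set of roots of `g(x) = t`. -/
def RootSet (g : F[X]) : Set Ω := {θ | ev F Ω θ g = algebraMap F[X] Ω X}

lemma ev_comp_of_mem {g : F[X]} {θ : Ω} (hθ : θ ∈ RootSet (Ω := Ω) g) (p : F[X]) :
    ev F Ω θ (p.comp g) = algebraMap F[X] Ω p := by
  have h : (ev F Ω θ).comp (compRingHom g) = algebraMap F[X] Ω := by
    apply Polynomial.ringHom_ext
    · intro a
      simp [ev_C]
    · simp only [RingHom.comp_apply, coe_compRingHom_apply, X_comp]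
      exact hθ
  exact RingHom.congr_fun h p

lemma map_mem_rootSet {g : F[X]} (σ : Ω ≃ₐ[L] Ω) {θ : Ω} (hθ : θ ∈ RootSet (Ω := Ω) g) :
    σ θ ∈ RootSet (Ω := Ω) g := by
  change ev F Ω (σ θ) g = _
  rw [← ev_map, show ev F Ω θ g = _ from hθ, IsScalarTower.algebraMap_apply F[X] L Ω]
  exact σ.commutes _

include L in
variable (L) in
lemma algebraMap_Om_injective : Function.Injective (algebraMap F[X] Ω) := by
  rw [IsScalarTower.algebraMap_eq F[X] L Ω]
  exact (algebraMap L Ω).injective.comp (IsFractionRing.injective F[X] L)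

variable (L) in
include L in
/-- A root `θ` of `g(x) = t` is transcendental over `F`. -/
lemma ev_injective [IsAlgClosed F] {g : F[X]} {θ : Ω} (hθ : θ ∈ RootSet (Ω := Ω) g) :
    Function.Injective (ev F Ω θ) := by
  rw [injective_iff_map_eq_zero]
  intro p hp
  by_contra hp0
  have hex : ∃ a : F, θ = algebraMap F[X] Ω (C a) := by
    have hs := IsAlgClosed.splits p
    have h1 := hs.eq_prod_roots
    rw [h1, map_mul, map_multiset_prod, mul_eq_zero] at hp
    rcases hp with h | h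
    · exfalso
      rw [ev_C] at h
      have := algebraMap_Om_injective (F := F) L (Ω := Ω) (h.trans (map_zero _).symm)
      rw [C_eq_zero, leadingCoeff_eq_zero] at this
      exact hp0 this
    · rw [Multiset.prod_eq_zero_iff, Multiset.mem_map] at h
      obtain ⟨q, hq, hq0⟩ := h
      rw [Multiset.mem_map] at hq
      obtain ⟨a, -, rfl⟩ := hq
      rw [map_sub, ev_X, ev_C, sub_eq_zero] at hq0
      exact ⟨a, hq0⟩
  obtain ⟨a, rfl⟩ := hex
  have h2 : ev F Ω (algebraMap F[X] Ω (C a)) g = algebraMap F[X] Ω (C (g.eval a)) := by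
    have h : (ev F Ω (algebraMap F[X] Ω (C a))) =
        (algebraMap F[X] Ω).comp (C.comp (evalRingHom a)) := by
      apply Polynomial.ringHom_ext
      · intro b
        simp [ev_C]
      · simp [ev_X]
    rw [h]; rfl
  have h3 : algebraMap F[X] Ω (C (g.eval a)) = algebraMap F[X] Ω X := by
    rw [← h2]; exact hθ
  have h4 := algebraMap_Om_injective (F := F) L (Ω := Ω) h3
  have h5 := congrArg natDegree h4
  rw [natDegree_C, natDegree_X] at h5
  exact zero_ne_one h5

variable (L) in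
/-- The polynomial `g(x) - t` over `L`. -/
noncomputable def PL (g : F[X]) : L[X] := g.map ((algebraMap F[X] L).comp C) - C (algebraMap F[X] L X)

lemma PL_natDegree {g : F[X]} (hdeg : g.natDegree = 3) : (PL L g).natDegree = 3 := by
  unfold PL
  rw [natDegree_sub_C, natDegree_map_eq_of_injective, hdeg]
  exact (IsFractionRing.injective F[X] L).comp C_injective

lemma PL_monic {g : F[X]} (hg : g.Monic) (hdeg : g.natDegree = 3) : (PL L g).Monic := by
  unfold PL
  apply (hg.map _).sub_of_left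
  refine lt_of_le_of_lt degree_C_le ?_
  rw [degree_eq_natDegree (hg.map _).ne_zero, (hg.natDegree_map _), hdeg]
  norm_num

lemma PL_aeval {g : F[X]} (θ : Ω) :
    (PL L g).aeval θ = ev F Ω θ g - algebraMap F[X] Ω X := by
  unfold PL ev
  rw [map_sub, aeval_C, ← IsScalarTower.algebraMap_apply, aeval_def, eval₂_map,
    coe_eval₂RingHom, ← RingHom.comp_assoc, ← IsScalarTower.algebraMap_eq]

lemma mem_rootSet_iff {g : F[X]} {θ : Ω} :
    θ ∈ RootSet (Ω := Ω) g ↔ (PL L g).aeval θ = 0 := by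
  rw [PL_aeval, sub_eq_zero]; rfl

/-- `g(x) - t` is irreducible over `F(t)`. -/
lemma PL_irreducible {g : F[X]} (hg : g.Monic) (hdeg : g.natDegree = 3) :
    Irreducible (PL L g) := by
  rw [(PL_monic (L := L) hg hdeg).irreducible_iff_roots_eq_zero_of_degree_le_three
    (by rw [PL_natDegree hdeg]; norm_num) (by rw [PL_natDegree hdeg])]
  rw [Multiset.eq_zero_iff_forall_notMem]
  intro x hx
  rw [mem_roots (PL_monic (L := L) hg hdeg).ne_zero, IsRoot.def] at hx
  -- `x` is integral over `F[t]`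
  have hint : IsIntegral F[X] x := by
    refine ⟨g.map C - C X, ?_, ?_⟩
    · apply (hg.map _).sub_of_left
      refine lt_of_le_of_lt degree_C_le ?_
      rw [degree_eq_natDegree (hg.map _).ne_zero, (hg.natDegree_map _), hdeg]
      norm_num
    · rw [eval₂_sub, eval₂_map, eval₂_C]
      rw [PL, eval_sub, eval_C, eval_map] at hx
      exact hx
  obtain ⟨p, rfl⟩ := IsIntegrallyClosed.isIntegral_iff.mp hint
  have h1 : algebraMap F[X] L (g.comp p) = algebraMap F[X] L X := by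
    rw [PL, eval_sub, eval_C, eval_map, sub_eq_zero] at hx
    rw [← hx]
    have h : (algebraMap F[X] L).comp (compRingHom p) =
        eval₂RingHom ((algebraMap F[X] L).comp C) (algebraMap F[X] L p) := by
      apply Polynomial.ringHom_ext
      · intro a; simp
      · simp
    exact RingHom.congr_fun h g
  have h2 := IsFractionRing.injective F[X] L h1
  have h3 := congrArg natDegree h2
  rw [natDegree_comp, hdeg, natDegree_X] at h3
  omega

lemma PL_separable {g : F[X]} (hg : g.Monic) (hdeg : g.natDegree = 3)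
    (hd : derivative g ≠ 0) : (PL L g).Separable := by
  rw [separable_iff_derivative_ne_zero (PL_irreducible hg hdeg)]
  unfold PL
  rw [derivative_sub, derivative_C, sub_zero, derivative_map]
  rw [Polynomial.map_ne_zero_iff]
  · exact hd
  · exact (IsFractionRing.injective F[X] L).comp C_injective

variable (L) in
include L in
/-- The three roots of `g(x) = t`. -/
lemma exists_three_roots [IsSepClosed Ω] {g : F[X]} (hg : g.Monic) (hdeg : g.natDegree = 3)
    (hd : derivative g ≠ 0) :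
    ∃ θ₁ θ₂ θ₃ : Ω, θ₁ ≠ θ₂ ∧ θ₁ ≠ θ₃ ∧ θ₂ ≠ θ₃ ∧
      (∀ θ, θ ∈ RootSet (Ω := Ω) g ↔ θ = θ₁ ∨ θ = θ₂ ∨ θ = θ₃) ∧
      (∀ x : Ω, ev F Ω x g - algebraMap F[X] Ω X = (x - θ₁) * (x - θ₂) * (x - θ₃)) ∧
      (PL L g).map (algebraMap L Ω) = (X - C θ₁) * (X - C θ₂) * (X - C θ₃) := by
  have hsep := PL_separable (L := L) hg hdeg hd
  set P : Polynomial Ω := (PL L g).map (algebraMap L Ω) with hP
  have hPm : P.Monic := (PL_monic (L := L) hg hdeg).map _
  have hs : P.Splits := IsSepClosed.splits_of_separable P (Separable.map hsep)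
  have hnd : P.roots.Nodup := nodup_roots (Separable.map hsep)
  have hcard : P.roots.card = 3 := by
    rw [← hs.natDegree_eq_card_roots, hP, natDegree_map, PL_natDegree hdeg]
  obtain ⟨θ₁, θ₂, θ₃, h⟩ := Multiset.card_eq_three.mp hcard
  rw [h] at hnd
  have hprod : P = (X - C θ₁) * (X - C θ₂) * (X - C θ₃) := by
    have := hs.eq_prod_roots_of_monic hPm
    rw [h] at this
    rw [this]
    simp [mul_assoc]
  have heval : ∀ x : Ω, ev F Ω x g - algebraMap F[X] Ω X = (x - θ₁) * (x - θ₂) * (x - θ₃) := by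
    intro x
    rw [← PL_aeval (L := L), aeval_def, ← eval_map, ← hP, hprod]
    simp
  simp only [Multiset.insert_eq_cons, Multiset.nodup_cons, Multiset.mem_cons,
    Multiset.mem_singleton, not_or, Multiset.nodup_singleton, and_true] at hnd
  refine ⟨θ₁, θ₂, θ₃, hnd.1.1, hnd.1.2, hnd.2, ?_, heval, hprod⟩
  intro θ
  have h5 : θ ∈ RootSet (Ω := Ω) g ↔ ev F Ω θ g - algebraMap F[X] Ω X = 0 := by
    rw [sub_eq_zero]; rfl
  rw [h5, heval, mul_eq_zero, mul_eq_zero, sub_eq_zero, sub_eq_zero, sub_eq_zero, or_assoc]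

/-- The Galois group acts transitively on the roots. -/
lemma rootSet_transitive [IsGalois L Ω] {g : F[X]} (hg : g.Monic) (hdeg : g.natDegree = 3)
    {θ θ' : Ω} (hθ : θ ∈ RootSet (Ω := Ω) g) (hθ' : θ' ∈ RootSet (Ω := Ω) g) :
    ∃ σ : Ω ≃ₐ[L] Ω, σ θ = θ' := by
  have h1 : minpoly L θ = minpoly L θ' := by
    rw [← minpoly.eq_of_irreducible_of_monic (PL_irreducible hg hdeg)
      ((mem_rootSet_iff (L := L)).mp hθ) (PL_monic hg hdeg),
      ← minpoly.eq_of_irreducible_of_monic (PL_irreducible hg hdeg)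
      ((mem_rootSet_iff (L := L)).mp hθ') (PL_monic hg hdeg)]
  obtain ⟨σ, hσ⟩ := (Normal.minpoly_eq_iff_mem_orbit Ω).mp h1.symm
  exact ⟨σ, hσ⟩

/-- An element fixed by the stabiliser of `θ` is a rational function of `θ`. -/
lemma exists_rational_of_fixed [IsAlgClosed F] [IsGalois L Ω] {g : F[X]} {θ : Ω}
    (hθ : θ ∈ RootSet (Ω := Ω) g) {x : Ω} (hx : ∀ σ : Ω ≃ₐ[L] Ω, σ θ = θ → σ x = x) :
    ∃ p q : F[X], q ≠ 0 ∧ x * ev F Ω θ q = ev F Ω θ p := by
  have hinj := ev_injective L hθ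
  let K₀ : IntermediateField L Ω :=
    { carrier := {x | ∃ p q : F[X], q ≠ 0 ∧ x * ev F Ω θ q = ev F Ω θ p}
      mul_mem' := by
        rintro a b ⟨p, q, hq, h⟩ ⟨p', q', hq', h'⟩
        exact ⟨p * p', q * q', mul_ne_zero hq hq', by
          rw [map_mul, map_mul, ← h, ← h']; ring⟩
      add_mem' := by
        rintro a b ⟨p, q, hq, h⟩ ⟨p', q', hq', h'⟩
        exact ⟨p * q' + p' * q, q * q', mul_ne_zero hq hq', by
          rw [map_mul, map_add, map_mul, map_mul, ← h, ← h']; ring⟩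
      algebraMap_mem' := by
        intro r
        obtain ⟨p, q, hq, rfl⟩ := IsFractionRing.div_surjective (A := F[X]) r
        have hq' : algebraMap F[X] Ω q ≠ 0 := by
          intro h
          exact nonZeroDivisors.ne_zero hq
            (algebraMap_Om_injective (F := F) L (Ω := Ω) (h.trans (map_zero _).symm))
        refine ⟨p.comp g, q.comp g, ?_, ?_⟩
        · intro h
          apply hq'
          rw [← ev_comp_of_mem hθ, h, map_zero]
        · rw [ev_comp_of_mem hθ, ev_comp_of_mem hθ, map_div₀, ← IsScalarTower.algebraMap_apply,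
            ← IsScalarTower.algebraMap_apply]
          field_simp
      inv_mem' := by
        rintro a ⟨p, q, hq, h⟩
        by_cases ha : a = 0
        · exact ⟨0, 1, one_ne_zero, by simp [ha]⟩
        · refine ⟨q, p, ?_, ?_⟩
          · rintro rfl
            rw [map_zero, mul_eq_zero] at h
            rcases h with h | h
            · exact ha h
            · exact hq (hinj (h.trans (map_zero _).symm))
          · rw [← h]; field_simp }
  have hθK : θ ∈ K₀ := ⟨X, 1, one_ne_zero, by rw [map_one, ev_X, mul_one]⟩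
  have hle : IntermediateField.adjoin L {θ} ≤ K₀ := by
    rw [IntermediateField.adjoin_le_iff, Set.singleton_subset_iff]
    exact hθK
  have hmem : x ∈ IntermediateField.adjoin L {θ} := by
    rw [← InfiniteGalois.fixedField_fixingSubgroup (IntermediateField.adjoin L {θ}),
      IntermediateField.mem_fixedField_iff]
    intro σ hσ
    apply hx
    exact (IntermediateField.mem_fixingSubgroup_iff _ _).mp hσ θ
      (IntermediateField.mem_adjoin_simple_self L θ)
  exact hle hmem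

variable (L) in
include L in
/-- The three roots of `g(x) = t`, one of them being given. -/
lemma exists_other_roots [IsSepClosed Ω] {g : F[X]} (hg : g.Monic) (hdeg : g.natDegree = 3)
    (hd : derivative g ≠ 0) {θ : Ω} (hθ : θ ∈ RootSet (Ω := Ω) g) :
    ∃ θ₂ θ₃ : Ω, θ ≠ θ₂ ∧ θ ≠ θ₃ ∧ θ₂ ≠ θ₃ ∧
      (∀ x, x ∈ RootSet (Ω := Ω) g ↔ x = θ ∨ x = θ₂ ∨ x = θ₃) ∧
      (∀ x : Ω, ev F Ω x g - algebraMap F[X] Ω X = (x - θ) * (x - θ₂) * (x - θ₃)) ∧
      ev F Ω θ (derivative g) = (θ - θ₂) * (θ - θ₃) := by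
  have key : ∀ a b c : Ω, (PL L g).map (algebraMap L Ω) = (X - C a) * (X - C b) * (X - C c) →
      ev F Ω a (derivative g) = (a - b) * (a - c) := by
    intro a b c h
    have h1 := congrArg (fun P : Polynomial Ω => (derivative P).eval a) h
    simp only [derivative_mul, derivative_sub, derivative_X, derivative_C, sub_zero, one_mul,
      mul_one, eval_add, eval_mul, eval_sub, eval_X, eval_C, sub_self, zero_mul,
      add_zero] at h1
    rw [derivative_map, PL, derivative_sub, derivative_C, sub_zero, derivative_map,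
      Polynomial.map_map, ← RingHom.comp_assoc, ← IsScalarTower.algebraMap_eq, eval_map] at h1
    rw [ev, coe_eval₂RingHom, h1]
  obtain ⟨θ₁, θ₂, θ₃, h12, h13, h23, hR, heval, hP⟩ :=
    exists_three_roots (F := F) L (Ω := Ω) hg hdeg hd
  rcases (hR θ).mp hθ with rfl | rfl | rfl
  · exact ⟨θ₂, θ₃, h12, h13, h23, hR, heval, key _ _ _ hP⟩
  · refine ⟨θ₁, θ₃, h12.symm, h23, h13, ?_, ?_, key _ _ _ (by rw [hP]; ring)⟩
    · intro x; rw [hR]; tauto
    · intro x; rw [heval]; ring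
  · refine ⟨θ₁, θ₂, h13.symm, h23.symm, h12, ?_, ?_, key _ _ _ (by rw [hP]; ring)⟩
    · intro x; rw [hR]; tauto
    · intro x; rw [heval]; ring

end Roots

end Pool.Agent.Lib.MP_89bcae_ag

end

section

/-!
# Polynomials over an algebraically closed field modulo squares
-/

open Polynomial

namespace Pool.Agent.Lib.MP_89bcae_ag

variable {F : Type*} [Field F]

lemma exists_sq_mul_prod_aux [DecidableEq F] (s : Multiset F) :
    ∃ (S : F[X]) (Z : Finset F), S ≠ 0 ∧
      (s.map fun a => X - C a).prod = S ^ 2 * ∏ β ∈ Z, (X - C β) := by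
  induction s using Multiset.induction with
  | empty => exact ⟨1, ∅, one_ne_zero, by simp⟩
  | cons a s ih =>
    obtain ⟨S, Z, hS, h⟩ := ih
    rw [Multiset.map_cons, Multiset.prod_cons, h]
    by_cases ha : a ∈ Z
    · refine ⟨S * (X - C a), Z.erase a, mul_ne_zero hS (X_sub_C_ne_zero a), ?_⟩
      rw [← Finset.mul_prod_erase Z _ ha]
      ring
    · refine ⟨S, insert a Z, hS, ?_⟩
      rw [Finset.prod_insert ha]
      ring

/-- Every nonzero polynomial is a square times a product of distinct linear factors. -/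
lemma exists_sq_mul_prod [IsAlgClosed F] (r : F[X]) (hr : r ≠ 0) :
    ∃ (S : F[X]) (Z : Finset F), S ≠ 0 ∧ r = S ^ 2 * ∏ β ∈ Z, (X - C β) := by
  classical
  obtain ⟨S, Z, hS, h⟩ := exists_sq_mul_prod_aux r.roots
  obtain ⟨z, hz⟩ := IsAlgClosed.exists_pow_nat_eq r.leadingCoeff (n := 2) (by norm_num)
  have hz0 : z ≠ 0 := by
    rintro rfl
    rw [zero_pow two_ne_zero] at hz
    exact hr (leadingCoeff_eq_zero.mp hz.symm)
  refine ⟨C z * S, Z, mul_ne_zero (C_ne_zero.mpr hz0) hS, ?_⟩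
  conv_lhs => rw [(IsAlgClosed.splits r).eq_prod_roots]
  rw [h, ← hz, C_pow]
  ring

/-- Parity of the multiplicities in a square. -/
lemma even_card_of_sq [DecidableEq F] {ι : Type*} (Z : Finset ι) (f : ι → F) {p q : F[X]}
    (hq : q ≠ 0) (h : p ^ 2 = q ^ 2 * ∏ β ∈ Z, (X - C (f β))) (α : F) :
    Even (Z.filter fun β => f β = α).card := by
  have hprod : (∏ β ∈ Z, (X - C (f β))) ≠ 0 := by
    rw [Finset.prod_ne_zero_iff]
    intro β _
    exact X_sub_C_ne_zero _
  have h1 := congrArg (fun P : F[X] => P.roots.count α) h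
  rw [roots_pow, roots_mul (mul_ne_zero (pow_ne_zero 2 hq) hprod), roots_pow, Multiset.count_nsmul,
    Multiset.count_add, Multiset.count_nsmul] at h1
  have h2 : (∏ β ∈ Z, (X - C (f β))).roots = Z.val.map f := by
    have : (∏ β ∈ Z, (X - C (f β))) = ((Z.val.map f).map fun a => X - C a).prod := by
      rw [Multiset.map_map]; rfl
    rw [this, roots_multiset_prod_X_sub_C]
  have h3 : (Z.val.map f).count α = (Z.filter fun β => f β = α).card := by
    rw [Multiset.count_map, Finset.card_def, Finset.filter_val]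
    congr 1
    apply Multiset.filter_congr
    intro x _
    exact eq_comm
  rw [h2, h3] at h1
  rw [Nat.even_iff]
  omega

/-- If a product of two products of distinct linear factors is a square, the two sets agree. -/
lemma eq_of_sq [DecidableEq F] (Z Z' : Finset F) {p q : F[X]} (hq : q ≠ 0)
    (h : p ^ 2 = q ^ 2 * ((∏ β ∈ Z, (X - C β)) * ∏ β ∈ Z', (X - C β))) : Z = Z' := by
  have h' : p ^ 2 = q ^ 2 * ∏ x ∈ Z.disjSum Z', (X - C (Sum.elim id id x)) := by
    rw [h, Finset.prod_disjSum]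
    simp
  ext α
  have := even_card_of_sq (Z.disjSum Z') (Sum.elim id id) hq h' α
  have h2 : ((Z.disjSum Z').filter fun x => Sum.elim id id x = α).card =
      (if α ∈ Z then 1 else 0) + (if α ∈ Z' then 1 else 0) := by
    have e : ∀ s : Finset F, (∑ x ∈ s, if x = α then 1 else 0) = (if α ∈ s then 1 else 0 : ℕ) :=
      fun s => Finset.sum_ite_eq' s α _
    rw [Finset.card_filter, Finset.sum_disjSum]
    exact congrArg₂ (· + ·) (e Z) (e Z')
  rw [h2] at this
  by_cases h3 : α ∈ Z <;> by_cases h4 : α ∈ Z' <;> simp [h3, h4] at this ⊢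

end Pool.Agent.Lib.MP_89bcae_ag

end

section

/-!
# Two-torsion and halving on `y² = (x - a)(x - b)(x - c)`

Elementary formulas for the group law on a Weierstrass curve over a field of characteristic not two
whose two-torsion is rational.
-/

open WeierstrassCurve WeierstrassCurve.Affine

namespace Pool.Agent.Lib.MP_89bcae_ag

variable {F : Type*} [Field F] [DecidableEq F]

/-- `W` is the curve `y² = (x - a)(x - b)(x - c)` with `a, b, c` distinct, in characteristic
not two. -/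
structure Split (W : Affine F) (a b c : F) : Prop where
  a₁ : W.a₁ = 0
  a₂ : W.a₂ = -(a + b + c)
  a₃ : W.a₃ = 0
  a₄ : W.a₄ = a * b + a * c + b * c
  a₆ : W.a₆ = -(a * b * c)
  ab : a ≠ b
  ac : a ≠ c
  bc : b ≠ c
  two : (2 : F) ≠ 0

namespace Split

variable {W : Affine F} {a b c : F}

omit [DecidableEq F] in
lemma swap12 (h : Split W a b c) : Split W b a c where
  a₁ := h.a₁
  a₂ := by rw [h.a₂]; ring
  a₃ := h.a₃
  a₄ := by rw [h.a₄]; ring
  a₆ := by rw [h.a₆]; ring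
  ab := h.ab.symm
  ac := h.bc
  bc := h.ac
  two := h.two

omit [DecidableEq F] in
lemma swap23 (h : Split W a b c) : Split W a c b where
  a₁ := h.a₁
  a₂ := by rw [h.a₂]; ring
  a₃ := h.a₃
  a₄ := by rw [h.a₄]; ring
  a₆ := by rw [h.a₆]; ring
  ab := h.ac
  ac := h.ab
  bc := h.bc.symm
  two := h.two

omit [DecidableEq F] in
lemma rot (h : Split W a b c) : Split W b c a := h.swap12.swap23

omit [DecidableEq F] in
lemma equation_iff (h : Split W a b c) (x y : F) :
    W.Equation x y ↔ y ^ 2 = (x - a) * (x - b) * (x - c) := by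
  rw [Affine.equation_iff, h.a₁, h.a₂, h.a₃, h.a₄, h.a₆]
  constructor <;> intro H <;> linear_combination H

omit [DecidableEq F] in
lemma negY_eq (h : Split W a b c) (x y : F) : W.negY x y = -y := by
  rw [Affine.negY, h.a₁, h.a₃]; ring

omit [DecidableEq F] in
lemma nonsingular_of_equation (h : Split W a b c) {x y : F}
    (H : y ^ 2 = (x - a) * (x - b) * (x - c)) : W.Nonsingular x y := by
  rw [Affine.nonsingular_iff', h.equation_iff]
  refine ⟨H, ?_⟩
  rw [h.a₁, h.a₂, h.a₃, h.a₄]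
  by_cases hy : y = 0
  · left
    subst hy
    have H' : (x - a) * (x - b) * (x - c) = 0 := by rw [← H]; ring
    rcases mul_eq_zero.mp H' with H' | H'
    · rcases mul_eq_zero.mp H' with H' | H'
      · obtain rfl : x = a := sub_eq_zero.mp H'
        intro h0
        have : (x - b) * (x - c) = 0 := by linear_combination -h0
        rcases mul_eq_zero.mp this with h1 | h1
        · exact h.ab (sub_eq_zero.mp h1)
        · exact h.ac (sub_eq_zero.mp h1)
      · obtain rfl : x = b := sub_eq_zero.mp H'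
        intro h0
        have : (x - a) * (x - c) = 0 := by linear_combination -h0
        rcases mul_eq_zero.mp this with h1 | h1
        · exact h.ab (sub_eq_zero.mp h1).symm
        · exact h.bc (sub_eq_zero.mp h1)
    · obtain rfl : x = c := sub_eq_zero.mp H'
      intro h0
      have : (x - a) * (x - b) = 0 := by linear_combination -h0
      rcases mul_eq_zero.mp this with h1 | h1
      · exact h.ac (sub_eq_zero.mp h1).symm
      · exact h.bc (sub_eq_zero.mp h1).symm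
  · right
    intro h0
    have : (2 : F) * y = 0 := by linear_combination h0
    rcases mul_eq_zero.mp this with h1 | h1
    · exact h.two h1
    · exact hy h1

/-- The two-torsion point `(a, 0)`. -/
def T (h : Split W a b c) : W.Point :=
  .some a 0 (h.nonsingular_of_equation (by ring))

omit [DecidableEq F] in
lemma eq_of_point (h : Split W a b c) {x y : F} (hP : W.Nonsingular x y) :
    y ^ 2 = (x - a) * (x - b) * (x - c) :=
  (h.equation_iff x y).mp hP.1

/-- A point which is killed by two is `0` or one of the three points `(a, 0)`, `(b, 0)`,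
`(c, 0)`. -/
lemma two_torsion (h : Split W a b c) (R : W.Point) (hR : R + R = 0) :
    R = 0 ∨ R = h.T ∨ R = h.swap12.T ∨ R = h.rot.rot.T := by
  rcases R with _ | ⟨x, y, hP⟩
  · exact Or.inl rfl
  · right
    by_cases hy : y = W.negY x y
    · rw [h.negY_eq] at hy
      have hy0 : y = 0 := by
        have : (2 : F) * y = 0 := by linear_combination hy
        rcases mul_eq_zero.mp this with h1 | h1
        · exact absurd h1 h.two
        · exact h1
      subst hy0
      have H := h.eq_of_point hP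
      have H' : (x - a) * (x - b) * (x - c) = 0 := by rw [← H]; ring
      rcases mul_eq_zero.mp H' with H' | H'
      · rcases mul_eq_zero.mp H' with H' | H'
        · obtain rfl : x = a := sub_eq_zero.mp H'
          exact Or.inl rfl
        · obtain rfl : x = b := sub_eq_zero.mp H'
          exact Or.inr (Or.inl rfl)
      · obtain rfl : x = c := sub_eq_zero.mp H'
        exact Or.inr (Or.inr rfl)
    · rw [Point.add_self_of_Y_ne hy] at hR
      exact absurd hR (Point.some_ne_zero _)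

lemma T_add_T (h : Split W a b c) : h.T + h.T = 0 := by
  apply Point.add_self_of_Y_eq
  rw [h.negY_eq]; ring

/-- The function `ρ_a(R) = ((x - a)² - (a - b)(a - c)) / (2 y)`, a square root of
`x(2R) - a`. -/
def rho (a b c x y : F) : F := ((x - a) ^ 2 - (a - b) * (a - c)) / (2 * y)

omit [DecidableEq F] in
lemma rho_comm (a b c x y : F) : rho a b c x y = rho a c b x y := by
  unfold rho; ring

/-- Doubling. -/
lemma double_some (h : Split W a b c) {x y : F} (hP : W.Nonsingular x y) (hy : y ≠ 0) :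
    ∃ (X Y : F) (H : W.Nonsingular X Y), Point.some x y hP + Point.some x y hP = .some X Y H ∧
      X - a = (rho a b c x y) ^ 2 ∧ X - b = (rho b a c x y) ^ 2 ∧ X - c = (rho c a b x y) ^ 2 := by
  have h2 := h.two
  have hy' : y ≠ W.negY x y := by
    rw [h.negY_eq]
    intro h0
    have : (2 : F) * y = 0 := by linear_combination h0
    rcases mul_eq_zero.mp this with h1 | h1
    · exact h2 h1
    · exact hy h1
  have H := h.eq_of_point hP
  refine ⟨_, _, _, Point.add_self_of_Y_ne hy', ?_, ?_, ?_⟩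
  all_goals
    rw [Affine.addX, slope_of_Y_ne rfl hy', h.negY_eq, h.a₁, h.a₂, h.a₄]
    unfold rho
    have e1 : y - -y = 2 * y := by ring
    rw [e1]
    field_simp
    rw [show y ^ 2 = (x - a) * (x - b) * (x - c) from H]
    ring

/-- Translation by a two-torsion point. -/
lemma add_T (h : Split W a b c) {x y : F} (hP : W.Nonsingular x y) (hy : y ≠ 0) :
    ∃ (H : W.Nonsingular (a + (a - b) * (a - c) / (x - a))
        (-(y * ((a - b) * (a - c)) / (x - a) ^ 2))),
      Point.some x y hP + h.T = .some _ _ H := by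
  have H := h.eq_of_point hP
  have hxa : x - a ≠ 0 := by
    intro h0
    apply hy
    have : y ^ 2 = 0 := by rw [H, h0]; ring
    exact pow_eq_zero_iff (two_ne_zero) |>.mp this
  have hx : x ≠ a := sub_ne_zero.mp hxa
  have key := Point.add_of_X_ne (W := W) (h₁ := hP) (h₂ := (h.nonsingular_of_equation (by ring) :
    W.Nonsingular a 0)) hx
  have eX : W.addX x a (W.slope x a y 0) = a + (a - b) * (a - c) / (x - a) := by
    rw [Affine.addX, slope_of_X_ne hx, h.a₁, h.a₂]
    field_simp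
    linear_combination H
  have eY : W.addY x a y (W.slope x a y 0) = -(y * ((a - b) * (a - c)) / (x - a) ^ 2) := by
    rw [Affine.addY, Affine.negAddY, h.negY_eq, eX, slope_of_X_ne hx]
    field_simp
    ring
  have N := nonsingular_add (W := W) hP ((h.nonsingular_of_equation (by ring) :
    W.Nonsingular a 0)) (fun hxy => hx hxy.left)
  rw [eX, eY] at N
  refine ⟨N, ?_⟩
  rw [T, key]
  simp only [Point.some.injEq]
  exact ⟨eX, eY⟩

omit [DecidableEq F] in
lemma ne_root (h : Split W a b c) {x y : F} (hP : W.Nonsingular x y) (hy : y ≠ 0) :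
    x - a ≠ 0 := by
  have H := h.eq_of_point hP
  intro h0
  apply hy
  have : y ^ 2 = 0 := by rw [H, h0]; ring
  exact pow_eq_zero_iff (two_ne_zero) |>.mp this

omit [DecidableEq F] in
/-- `ρ_a` is invariant under translation by `(a, 0)`. -/
lemma rho_add_T_self (h : Split W a b c) {x y : F} (hP : W.Nonsingular x y) (hy : y ≠ 0) :
    rho a b c (a + (a - b) * (a - c) / (x - a)) (-(y * ((a - b) * (a - c)) / (x - a) ^ 2)) =
      rho a b c x y := by
  have hxa := h.ne_root hP hy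
  have hab : a - b ≠ 0 := sub_ne_zero.mpr h.ab
  have hac : a - c ≠ 0 := sub_ne_zero.mpr h.ac
  have h2 := h.two
  unfold rho
  field_simp
  ring

omit [DecidableEq F] in
/-- `ρ_b` changes sign under translation by `(a, 0)`. -/
lemma rho_add_T_other (h : Split W a b c) {x y : F} (hP : W.Nonsingular x y) (hy : y ≠ 0) :
    rho b a c (a + (a - b) * (a - c) / (x - a)) (-(y * ((a - b) * (a - c)) / (x - a) ^ 2)) =
      - rho b a c x y := by
  have hxa := h.ne_root hP hy
  have hab : a - b ≠ 0 := sub_ne_zero.mpr h.ab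
  have hac : a - c ≠ 0 := sub_ne_zero.mpr h.ac
  have h2 := h.two
  unfold rho
  field_simp
  ring

/-- The doubling map is surjective over a field in which every element is a square. -/
lemma exists_half (h : Split W a b c) (hsq : ∀ z : F, ∃ w, w ^ 2 = z) (P : W.Point) :
    ∃ Q : W.Point, Q + Q = P := by
  rcases P with _ | ⟨X, Y, hP⟩
  · exact ⟨0, by simp [Point.zero_def]⟩
  · obtain ⟨r₁, h₁⟩ := hsq (X - a)
    obtain ⟨r₂, h₂⟩ := hsq (X - b)
    obtain ⟨r₃, h₃⟩ := hsq (X - c)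
    have h2 := h.two
    have h12 : r₁ + r₂ ≠ 0 := by
      intro h0
      apply h.ab
      have : r₁ ^ 2 = r₂ ^ 2 := by linear_combination (r₁ - r₂) * h0
      rw [h₁, h₂] at this
      linear_combination -this
    have h13 : r₁ + r₃ ≠ 0 := by
      intro h0
      apply h.ac
      have : r₁ ^ 2 = r₃ ^ 2 := by linear_combination (r₁ - r₃) * h0
      rw [h₁, h₃] at this
      linear_combination -this
    have h23 : r₂ + r₃ ≠ 0 := by
      intro h0
      apply h.bc
      have : r₂ ^ 2 = r₃ ^ 2 := by linear_combination (r₂ - r₃) * h0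
      rw [h₂, h₃] at this
      linear_combination -this
    set x := X + r₁ * r₂ + r₁ * r₃ + r₂ * r₃ with hx
    set y := (r₁ + r₂) * (r₁ + r₃) * (r₂ + r₃) with hy
    have xa : x - a = (r₁ + r₂) * (r₁ + r₃) := by rw [hx]; linear_combination -h₁
    have xb : x - b = (r₁ + r₂) * (r₂ + r₃) := by rw [hx]; linear_combination -h₂
    have xc : x - c = (r₁ + r₃) * (r₂ + r₃) := by rw [hx]; linear_combination -h₃
    have hN : W.Nonsingular x y := h.nonsingular_of_equation (by rw [xa, xb, xc, hy]; ring)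
    have hy0 : y ≠ 0 := mul_ne_zero (mul_ne_zero h12 h13) h23
    obtain ⟨X', Y', H', e, ea, -, -⟩ := h.double_some hN hy0
    have hX : X' = X := by
      have : rho a b c x y = r₁ := by
        unfold rho
        rw [div_eq_iff (mul_ne_zero h2 hy0), xa, hy]
        have e1 : a - b = r₂ ^ 2 - r₁ ^ 2 := by linear_combination h₁ - h₂
        have e2 : a - c = r₃ ^ 2 - r₁ ^ 2 := by linear_combination h₁ - h₃
        rw [e1, e2]
        ring
      rw [this] at ea
      linear_combination ea + h₁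
    rcases (Point.X_eq_iff (h₁ := H') (h₂ := hP)).mp hX with h0 | h0
    · exact ⟨.some x y hN, by rw [e, h0]⟩
    · refine ⟨-(.some x y hN), ?_⟩
      rw [← neg_add, e, h0, neg_neg]

omit [DecidableEq F] in
lemma T_ne_zero (h : Split W a b c) : h.T ≠ 0 := Point.some_ne_zero _

omit [DecidableEq F] in
lemma T_ne_T (h : Split W a b c) : h.T ≠ h.swap12.T := by
  intro H
  simp only [T, Point.some.injEq] at H
  exact h.ab H.1

/-- `(a, 0) + (b, 0) = (c, 0)`. -/
lemma T_add (h : Split W a b c) : h.T + h.swap12.T = h.rot.rot.T := by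
  have h1 : (h.T + h.swap12.T) + (h.T + h.swap12.T) = 0 := by
    have := h.T_add_T
    have := h.swap12.T_add_T
    calc (h.T + h.swap12.T) + (h.T + h.swap12.T) = (h.T + h.T) + (h.swap12.T + h.swap12.T) := by
          abel
      _ = 0 := by rw [h.T_add_T, h.swap12.T_add_T, add_zero]
  rcases h.two_torsion _ h1 with H | H | H | H
  · exfalso
    apply h.T_ne_T
    have := h.swap12.T_add_T
    calc h.T = h.T + (h.swap12.T + h.swap12.T) := by rw [this, add_zero]
      _ = (h.T + h.swap12.T) + h.swap12.T := by abel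
      _ = h.swap12.T := by rw [H, zero_add]
  · exfalso
    exact h.swap12.T_ne_zero (by simpa using H)
  · exfalso
    exact h.T_ne_zero (by simpa using H)
  · exact H

open Classical in
/-- The character `T ↦ e₂(T, (a, 0))` of the two-torsion. -/
noncomputable def chi (h : Split W a b c) (P : W.Point) : ℤ := if P = 0 ∨ P = h.T then 1 else -1

lemma chi_zero (h : Split W a b c) : h.chi 0 = 1 := by simp [chi]

lemma chi_self (h : Split W a b c) : h.chi h.T = 1 := by simp [chi]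

lemma chi_other (h : Split W a b c) : h.chi h.swap12.T = -1 := by
  have h1 : h.swap12.T ≠ h.T := h.T_ne_T.symm
  have h2 : h.swap12.T ≠ 0 := Point.some_ne_zero _
  simp [chi, h1, h2]

lemma chi_other' (h : Split W a b c) : h.chi h.rot.rot.T = -1 := by
  have h1 : h.rot.rot.T ≠ h.T := by
    intro H
    simp only [T, Point.some.injEq] at H
    exact h.ac H.1.symm
  have h2 : h.rot.rot.T ≠ 0 := Point.some_ne_zero _
  simp [chi, h1, h2]

lemma chi_sq (h : Split W a b c) (P : W.Point) : h.chi P * h.chi P = 1 := by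
  unfold chi
  split_ifs <;> norm_num

lemma chi_add (h : Split W a b c) {P Q : W.Point} (hP : P + P = 0) (hQ : Q + Q = 0) :
    h.chi (P + Q) = h.chi P * h.chi Q := by
  have e0 := h.chi_zero
  have ea := h.chi_self
  have eb := h.chi_other
  have ec := h.chi_other'
  have haa := h.T_add_T
  have hbb := h.swap12.T_add_T
  have hcc := h.rot.rot.T_add_T
  have hab : h.T + h.swap12.T = h.rot.rot.T := h.T_add
  have hba : h.swap12.T + h.T = h.rot.rot.T := by rw [add_comm]; exact hab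
  have hac : h.T + h.rot.rot.T = h.swap12.T := by rw [← hab, ← add_assoc, haa, zero_add]
  have hca : h.rot.rot.T + h.T = h.swap12.T := by rw [add_comm]; exact hac
  have hbc : h.swap12.T + h.rot.rot.T = h.T := by
    rw [← hab, add_comm h.T, ← add_assoc, hbb, zero_add]
  have hcb : h.rot.rot.T + h.swap12.T = h.T := by rw [add_comm]; exact hbc
  rcases h.two_torsion P hP with rfl | rfl | rfl | rfl <;>
  rcases h.two_torsion Q hQ with rfl | rfl | rfl | rfl <;>
  simp [e0, ea, eb, ec, haa, hbb, hcc, hab, hba, hac, hca, hbc, hcb]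

lemma chi_swap23 (h : Split W a b c) (P : W.Point) : h.swap23.chi P = h.chi P := rfl

lemma chi_mul_chi (h : Split W a b c) {P : W.Point} (hP : P + P = 0) :
    h.swap12.chi P * h.rot.rot.chi P = h.chi P := by
  have e1 : h.swap12.T ≠ h.T := h.T_ne_T.symm
  have e2 : h.rot.rot.T ≠ h.T := by
    intro H
    simp only [T, Point.some.injEq] at H
    exact h.ac H.1.symm
  have e3 : h.rot.rot.T ≠ h.swap12.T := by
    intro H
    simp only [T, Point.some.injEq] at H
    exact h.bc H.1.symm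
  have z1 : h.T ≠ 0 := h.T_ne_zero
  have z2 : h.swap12.T ≠ 0 := h.swap12.T_ne_zero
  have z3 : h.rot.rot.T ≠ 0 := h.rot.rot.T_ne_zero
  rcases h.two_torsion P hP with rfl | rfl | rfl | rfl <;>
  simp [chi, e1, e2, e3, e1.symm, e2.symm, e3.symm, z1, z2, z3]

lemma eq_zero_of_chi (h : Split W a b c) {P : W.Point} (hP : P + P = 0) (h1 : h.chi P = 1)
    (h2 : h.swap12.chi P = 1) : P = 0 := by
  rcases h.two_torsion P hP with rfl | rfl | rfl | rfl
  · rfl
  · exfalso
    have := h.swap12.chi_other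
    have e : h.swap12.swap12.T = h.T := rfl
    rw [e, h2] at this
    norm_num at this
  · exfalso
    rw [h.chi_other] at h1
    norm_num at h1
  · exfalso
    rw [h.chi_other'] at h1
    norm_num at h1

/-- `ρ_a` of a point, translated by a two-torsion point, changes by the character `chi`. -/
lemma rho_add_torsion (h : Split W a b c) {x y : F} (hP : W.Nonsingular x y) (hy : y ≠ 0)
    {x' y' : F} (hP' : W.Nonsingular x' y') {T : W.Point} (hT : T + T = 0)
    (e : Point.some x' y' hP' = Point.some x y hP + T) :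
    rho a b c x' y' = (h.chi T : F) * rho a b c x y := by
  rcases h.two_torsion T hT with rfl | rfl | rfl | rfl
  · rw [h.chi_zero, add_zero] at *
    simp only [Point.some.injEq] at e
    rw [e.1, e.2]; simp
  · rw [h.chi_self]
    obtain ⟨H, e'⟩ := h.add_T hP hy
    rw [e'] at e
    simp only [Point.some.injEq] at e
    rw [e.1, e.2, h.rho_add_T_self hP hy]; simp
  · rw [h.chi_other]
    obtain ⟨H, e'⟩ := h.swap12.add_T hP hy
    rw [e'] at e
    simp only [Point.some.injEq] at e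
    rw [e.1, e.2, h.swap12.rho_add_T_other hP hy]; simp
  · rw [h.chi_other']
    obtain ⟨H, e'⟩ := h.rot.rot.add_T hP hy
    rw [e'] at e
    simp only [Point.some.injEq] at e
    rw [e.1, e.2, rho_comm a b c, rho_comm a b c, h.rot.rot.rho_add_T_other hP hy]; simp

end Split

end Pool.Agent.Lib.MP_89bcae_ag

end

section

/-!
# Quadratic characters of a Galois group and classes modulo squares
-/

open WeierstrassCurve WeierstrassCurve.Affine

namespace Pool.Agent.Lib.MP_89bcae_ag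

section Character

variable {F Ω : Type*} [Field F] [Field Ω] [Algebra F Ω] [IsGalois F Ω]

/-- A locally constant quadratic character of an absolute Galois group has an eigenvector. -/
lemma exists_eigen (χ : (Ω ≃ₐ[F] Ω) → ℤ) (h1 : ∀ g, χ g = 1 ∨ χ g = -1)
    (hmul : ∀ g h, χ (g * h) = χ g * χ h) (hcont : IsLocallyConstant χ) :
    ∃ β : Ω, β ≠ 0 ∧ ∀ g : Ω ≃ₐ[F] Ω, g β = (χ g : Ω) * β := by
  have hone : χ 1 = 1 := by
    rcases h1 1 with h | h
    · exact h
    · have := hmul 1 1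
      rw [mul_one, h] at this
      norm_num at this
  have hinv : ∀ g, χ g⁻¹ = χ g := by
    intro g
    have := hmul g g⁻¹
    rw [mul_inv_cancel, hone] at this
    rcases h1 g with h | h <;> rcases h1 g⁻¹ with h' | h' <;> rw [h, h'] at this <;> omega
  let H : ClosedSubgroup (Ω ≃ₐ[F] Ω) :=
    { carrier := {g | χ g = 1}
      mul_mem' := by
        intro a b ha hb
        simp only [Set.mem_ofPred_eq] at *
        rw [hmul, ha, hb, mul_one]
      one_mem' := hone
      inv_mem' := by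
        intro a ha
        simp only [Set.mem_ofPred_eq] at *
        rw [hinv, ha]
      isClosed' := by
        have : IsClopen (χ ⁻¹' {1}) := hcont.isClopen_fiber 1
        exact this.1 }
  by_cases hall : ∀ g, χ g = 1
  · exact ⟨1, one_ne_zero, fun g => by rw [hall g]; simp⟩
  · push Not at hall
    obtain ⟨g₀, hg₀⟩ := hall
    have hg₀' : χ g₀ = -1 := (h1 g₀).resolve_left hg₀
    have hfix := InfiniteGalois.fixingSubgroup_fixedField H
    have hnot : g₀ ∉ (IntermediateField.fixedField H.toSubgroup).fixingSubgroup := by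
      rw [hfix]
      exact hg₀
    rw [IntermediateField.mem_fixingSubgroup_iff] at hnot
    push Not at hnot
    obtain ⟨z, hz, hne⟩ := hnot
    rw [IntermediateField.mem_fixedField_iff] at hz
    refine ⟨z - g₀ z, sub_ne_zero.mpr (Ne.symm hne), ?_⟩
    have hH : ∀ h : Ω ≃ₐ[F] Ω, χ h = 1 → h z = z := fun h hh => hz h hh
    have hH' : ∀ h : Ω ≃ₐ[F] Ω, χ h = -1 → h z = g₀ z := by
      intro h hh
      have e1 : χ (g₀⁻¹ * h) = 1 := by rw [hmul, hinv, hg₀', hh]; norm_num
      have e2 := hH _ e1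
      have e3 : g₀ ((g₀⁻¹ * h) z) = g₀ z := by rw [e2]
      rw [← AlgEquiv.mul_apply, mul_inv_cancel_left] at e3
      exact e3
    intro g
    rcases h1 g with hg | hg
    · have e1 : g (g₀ z) = g₀ z := by
        rw [← AlgEquiv.mul_apply]
        exact hH' _ (by rw [hmul, hg, hg₀']; norm_num)
      rw [map_sub, hH g hg, e1, hg]
      simp
    · have e1 : g (g₀ z) = z := by
        rw [← AlgEquiv.mul_apply]
        exact hH _ (by rw [hmul, hg, hg₀']; norm_num)
      rw [map_sub, hH' g hg, e1, hg]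
      simp

omit [IsGalois F Ω] in
lemma sign_sq_fixed {χ : (Ω ≃ₐ[F] Ω) → ℤ} (h1 : ∀ g, χ g * χ g = 1) {β β' : Ω}
    (hβ : ∀ g : Ω ≃ₐ[F] Ω, g β = (χ g : Ω) * β) (hβ' : ∀ g : Ω ≃ₐ[F] Ω, g β' = (χ g : Ω) * β')
    (g : Ω ≃ₐ[F] Ω) : g (β * β') = β * β' := by
  rw [map_mul, hβ, hβ']
  have : (χ g : Ω) * (χ g : Ω) = 1 := by exact_mod_cast congrArg (Int.cast : ℤ → Ω) (h1 g)
  linear_combination (β * β') * this

lemma exists_of_fixed {x : Ω} (h : ∀ g : Ω ≃ₐ[F] Ω, g x = x) : ∃ y : F, algebraMap F Ω y = x :=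
  (InfiniteGalois.mem_range_algebraMap_iff_fixed x).mpr h

end Character

end Pool.Agent.Lib.MP_89bcae_ag

end

section

open NumberField Ideal

namespace Pool.Agent.Lib.MP_89bcae_ag.Re

/-- Proof: `absNorm I = 1` iff `I = ⊤` (`Ideal.absNorm_eq_one_iff`). -/
theorem idealCount_one (K : Type*) [Field K] [NumberField K] : idealCount K 1 = 1 := by
  unfold idealCount
  have : Unique {I : Ideal (𝓞 K) // absNorm I = 1} :=
    { default := ⟨⊤, absNorm_eq_one_iff.2 rfl⟩
      uniq := fun I => Subtype.ext (absNorm_eq_one_iff.1 I.2) }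
  exact Nat.card_unique

private theorem n02_sup (K : Type*) [Field K] [NumberField K] {m n : ℕ} (h : m.Coprime n)
    (J J' : Ideal (𝓞 K)) (hm : (m : 𝓞 K) ∈ J) (hn : (n : 𝓞 K) ∈ J') : J ⊔ J' = ⊤ := by
  rw [eq_top_iff_one]
  have h1 : IsCoprime (m : ℤ) (n : ℤ) := Nat.isCoprime_iff_coprime.2 h
  obtain ⟨a, b, hab⟩ := h1
  have h2 : (1 : 𝓞 K) = (a : 𝓞 K) * (m : 𝓞 K) + (b : 𝓞 K) * (n : 𝓞 K) := by
    have h3 := congrArg (Int.cast : ℤ → 𝓞 K) hab
    push_cast at h3
    exact h3.symm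
  rw [h2]
  exact Submodule.add_mem_sup (J.mul_mem_left _ hm) (J'.mul_mem_left _ hn)

private theorem n02_inj (K : Type*) [Field K] [NumberField K] {m n : ℕ} (h : m.Coprime n)
    (J J' : Ideal (𝓞 K)) (hm : absNorm J = m) (hn : absNorm J' = n) :
    J * J' ⊔ span {(m : 𝓞 K)} = J := by
  have hmJ : (m : 𝓞 K) ∈ J := by rw [← hm]; exact absNorm_mem J
  have hnJ : (n : 𝓞 K) ∈ J' := by rw [← hn]; exact absNorm_mem J'
  have htop : span {(m : 𝓞 K)} ⊔ J' = ⊤ :=
    n02_sup K h _ _ (mem_span_singleton_self _) hnJ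
  apply le_antisymm
  · exact sup_le mul_le_left ((span_singleton_le_iff_mem _).2 hmJ)
  · calc J = J * (span {(m : 𝓞 K)} ⊔ J') := by rw [htop, mul_top]
      _ = J * span {(m : 𝓞 K)} ⊔ J * J' := mul_sup _ _ _
      _ ≤ J * J' ⊔ span {(m : 𝓞 K)} := sup_le (le_sup_of_le_right mul_le_right) le_sup_left

/-- Proof: the map `(J, J') ↦ J * J'` from pairs of ideals of norms `m`, `n` to ideals of norm `m n`
(`map_mul` of `absNorm`) is a bijection. Surjective: `I` of norm `m n`; `m n ∈ I`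
(`Ideal.absNorm_mem`); put `J = I ⊔ span {m}`, `J' = I ⊔ span {n}`; as `m`, `n` are coprime,
`J ⊔ J' = ⊤`, and `J * J' ≤ I` (all four products lie in `I`), `I ≤ J ⊓ J' = J * J'`
(`Ideal.mul_eq_inf_of_coprime`). `J` contains `m`, so it divides `span {m}` and `absNorm J` divides
`m ^ [K:ℚ]`; so it is prime to `n` and divides `m`; the same for `J'`; as the product is `m n`, both
are equalities (treat `m = 0` or `n = 0` apart: then the other one is `1`). Injective:
`J = J * J' ⊔ span {m}` if `absNorm J = m`, `absNorm J' = n`, because `J' ⊔ span {m} = ⊤`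
(it contains `n` and `m`) and `m ∈ J`. -/
theorem idealCount_mul (K : Type*) [Field K] [NumberField K] {m n : ℕ} (h : m.Coprime n) :
    idealCount K (m * n) = idealCount K m * idealCount K n := by
  rcases Nat.eq_zero_or_pos m with rfl | hm0
  · have : n = 1 := by simpa using h
    rw [this, mul_one, idealCount_one, mul_one]
  rcases Nat.eq_zero_or_pos n with rfl | hn0
  · have : m = 1 := by simpa using h
    rw [this, one_mul, idealCount_one, one_mul]
  unfold idealCount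
  rw [← Nat.card_prod]
  symm
  refine Nat.card_congr (Equiv.ofBijective
    (fun p : {I : Ideal (𝓞 K) // absNorm I = m} × {I : Ideal (𝓞 K) // absNorm I = n} =>
      (⟨p.1.1 * p.2.1, by rw [map_mul, p.1.2, p.2.2]⟩ : {I : Ideal (𝓞 K) // absNorm I = m * n}))
    ⟨?_, ?_⟩)
  · rintro ⟨⟨J, hJ⟩, ⟨J', hJ'⟩⟩ ⟨⟨I, hI⟩, ⟨I', hI'⟩⟩ e
    have e' : J * J' = I * I' := congrArg Subtype.val e
    have h1 : J = I := by
      rw [← n02_inj K h J J' hJ hJ', ← n02_inj K h I I' hI hI', e']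
    have h2 : J' = I' := by
      rw [← n02_inj K h.symm J' J hJ' hJ, ← n02_inj K h.symm I' I hI' hI, mul_comm J' J,
        mul_comm I' I, e']
    subst h1 h2
    rfl
  · rintro ⟨I, hI⟩
    have hmn : (m : 𝓞 K) * (n : 𝓞 K) ∈ I := by
      have := absNorm_mem I
      rw [hI, Nat.cast_mul] at this
      exact this
    have hmJ : (m : 𝓞 K) ∈ I ⊔ span {(m : 𝓞 K)} :=
      Ideal.mem_sup_right (mem_span_singleton_self _)
    have hnJ : (n : 𝓞 K) ∈ I ⊔ span {(n : 𝓞 K)} :=
      Ideal.mem_sup_right (mem_span_singleton_self _)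
    have htop := n02_sup K h _ _ hmJ hnJ
    have hprod : (I ⊔ span {(m : 𝓞 K)}) * (I ⊔ span {(n : 𝓞 K)}) = I := by
      apply le_antisymm
      · rw [Ideal.sup_mul, Ideal.mul_sup, Ideal.mul_sup]
        refine sup_le (sup_le mul_le_left mul_le_left) (sup_le mul_le_right ?_)
        rw [span_singleton_mul_span_singleton, span_singleton_le_iff_mem]
        exact hmn
      · rw [mul_eq_inf_of_coprime htop]
        exact le_inf le_sup_left le_sup_left
    have hnorm : absNorm (I ⊔ span {(m : 𝓞 K)}) * absNorm (I ⊔ span {(n : 𝓞 K)}) = m * n := by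
      rw [← map_mul, hprod, hI]
    have hd1 : absNorm (I ⊔ span {(m : 𝓞 K)}) ∣ m := by
      have h1 : absNorm (I ⊔ span {(m : 𝓞 K)}) ∣ m ^ Module.finrank ℤ (𝓞 K) := by
        rw [← absNorm_span_natCast]
        exact absNorm_dvd_absNorm_of_le le_sup_right
      have h2 : (absNorm (I ⊔ span {(m : 𝓞 K)})).Coprime n :=
        Nat.Coprime.coprime_dvd_left h1 (h.pow_left _)
      exact h2.dvd_of_dvd_mul_right (hnorm ▸ Dvd.intro _ rfl)
    have hd2 : absNorm (I ⊔ span {(n : 𝓞 K)}) ∣ n := by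
      have h1 : absNorm (I ⊔ span {(n : 𝓞 K)}) ∣ n ^ Module.finrank ℤ (𝓞 K) := by
        rw [← absNorm_span_natCast]
        exact absNorm_dvd_absNorm_of_le le_sup_right
      have h2 : (absNorm (I ⊔ span {(n : 𝓞 K)})).Coprime m :=
        Nat.Coprime.coprime_dvd_left h1 (h.symm.pow_left _)
      exact h2.dvd_of_dvd_mul_left (hnorm ▸ Dvd.intro_left _ rfl)
    have hl1 := Nat.le_of_dvd hm0 hd1
    have hl2 := Nat.le_of_dvd hn0 hd2
    have he1 : absNorm (I ⊔ span {(m : 𝓞 K)}) = m := by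
      by_contra hne
      have h3 : absNorm (I ⊔ span {(m : 𝓞 K)}) < m := lt_of_le_of_ne hl1 hne
      have h4 : absNorm (I ⊔ span {(m : 𝓞 K)}) * absNorm (I ⊔ span {(n : 𝓞 K)}) < m * n :=
        lt_of_le_of_lt (Nat.mul_le_mul_left _ hl2) (Nat.mul_lt_mul_of_pos_right h3 hn0)
      omega
    have he2 : absNorm (I ⊔ span {(n : 𝓞 K)}) = n := by
      rw [he1] at hnorm
      exact Nat.eq_of_mul_eq_mul_left hm0 hnorm
    exact ⟨(⟨_, he1⟩, ⟨_, he2⟩), Subtype.ext hprod⟩

end Pool.Agent.Lib.MP_89bcae_ag.Re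

end

section

open NumberField Ideal

namespace Pool.Agent.Lib.MP_89bcae_ag.Re

/-- Proof: let `P` be the set of the maximal ideals of `𝓞 K` containing `q`; it is finite with at
most `[K:ℚ]` elements (`Ideal.primesOver`, `Ideal.sum_ramification_inertia`, or: the norm of their
product divides `q ^ [K:ℚ]` and each has norm at least `q`). If `absNorm I = q ^ e`, all the prime
divisors of `I` are in `P` (`q ^ e ∈ I`) and each occurs at most `e` times (its norm is at least `q`,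
as the norm is a power of `q` different from `1`). So `I` is determined by the function `P → Fin (e+1)`
of its multiplicities (`normalizedFactors`). -/
theorem idealCount_prime_pow_le (K : Type*) [Field K] [NumberField K] {q : ℕ} (hq : q.Prime)
    (e : ℕ) : idealCount K (q ^ e) ≤ (e + 1) ^ Module.finrank ℚ K := by
  classical
  have hq0 : (q : 𝓞 K) ≠ 0 := by
    have : (q : ℕ) ≠ 0 := hq.ne_zero
    exact_mod_cast this
  have hS0 : (span {(q : 𝓞 K)} : Ideal (𝓞 K)) ≠ ⊥ := by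
    rw [Ne, span_singleton_eq_bot]; exact hq0
  have hSn : absNorm (span {(q : 𝓞 K)} : Ideal (𝓞 K)) = q ^ Module.finrank ℚ K := by
    rw [absNorm_span_natCast, RingOfIntegers.rank]
  -- primes over q
  obtain ⟨P, hPdef⟩ : ∃ P : Finset (Ideal (𝓞 K)),
      P = (UniqueFactorizationMonoid.normalizedFactors (span {(q : 𝓞 K)} : Ideal (𝓞 K))).toFinset :=
    ⟨_, rfl⟩
  have hPmem : ∀ p : Ideal (𝓞 K), p ∈ P ↔ p.IsPrime ∧ span {(q : 𝓞 K)} ≤ p := by
    intro p
    rw [hPdef, Multiset.mem_toFinset, Ideal.mem_normalizedFactors_iff hS0]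
  have hnorm : ∀ (p : Ideal (𝓞 K)) (k : ℕ), p.IsPrime → absNorm p ∣ q ^ k → q ≤ absNorm p := by
    intro p k hp hd
    have h1 : absNorm p ≠ 1 := by
      rw [Ne, Ideal.absNorm_eq_one_iff]; exact hp.ne_top
    obtain ⟨j, -, hj⟩ := (Nat.dvd_prime_pow hq).1 hd
    rw [hj]
    have hj0 : j ≠ 0 := by
      rintro rfl
      rw [pow_zero] at hj
      exact h1 hj
    calc q = q ^ 1 := (pow_one q).symm
      _ ≤ q ^ j := Nat.pow_le_pow_right hq.pos (Nat.one_le_iff_ne_zero.2 hj0)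
  have hPcard : P.card ≤ Module.finrank ℚ K := by
    have hprod : P.val.prod ∣ span {(q : 𝓞 K)} := by
      have h1 : P.val.prod ∣
          (UniqueFactorizationMonoid.normalizedFactors (span {(q : 𝓞 K)} : Ideal (𝓞 K))).prod := by
        rw [hPdef, Multiset.toFinset_val]
        exact Multiset.prod_dvd_prod_of_le (Multiset.dedup_le _)
      rwa [Ideal.prod_normalizedFactors_eq_self hS0] at h1
    have hnd : absNorm P.val.prod ∣ q ^ Module.finrank ℚ K := by
      rw [← hSn]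
      exact map_dvd absNorm hprod
    have hnp : absNorm P.val.prod = ∏ p ∈ P, absNorm p := by
      rw [map_multiset_prod]; rfl
    have hge : q ^ P.card ≤ ∏ p ∈ P, absNorm p := by
      rw [← Finset.prod_const]
      apply Finset.prod_le_prod'
      intro p hp
      have hp' := (hPmem p).1 hp
      apply hnorm p (Module.finrank ℚ K) hp'.1
      rw [← hSn]
      exact Ideal.absNorm_dvd_absNorm_of_le hp'.2
    have hle : q ^ P.card ≤ q ^ Module.finrank ℚ K :=
      hge.trans (hnp ▸ Nat.le_of_dvd (pow_pos hq.pos _) hnd)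
    exact (Nat.pow_le_pow_iff_right hq.one_lt).1 hle
  -- facts on ideals of norm q^e
  have hI0 : ∀ I : Ideal (𝓞 K), absNorm I = q ^ e → I ≠ ⊥ := by
    intro I hI h0
    rw [h0, Ideal.absNorm_bot] at hI
    exact (pow_ne_zero e hq.ne_zero) hI.symm
  have hsupp : ∀ I : Ideal (𝓞 K), absNorm I = q ^ e →
      ∀ p ∈ UniqueFactorizationMonoid.normalizedFactors I, p ∈ P := by
    intro I hI p hp
    have hp' := (Ideal.mem_normalizedFactors_iff (hI0 I hI)).1 hp
    rw [hPmem]
    refine ⟨hp'.1, ?_⟩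
    rw [Ideal.span_singleton_le_iff_mem]
    have h1 : ((q : 𝓞 K)) ^ e ∈ p := by
      have h2 := hp'.2 (Ideal.absNorm_mem I)
      rw [hI] at h2
      simpa using h2
    exact hp'.1.mem_of_pow_mem e h1
  have hcount : ∀ I : Ideal (𝓞 K), absNorm I = q ^ e → ∀ p : Ideal (𝓞 K),
      (UniqueFactorizationMonoid.normalizedFactors I).count p < e + 1 := by
    intro I hI p
    by_cases hp : p ∈ UniqueFactorizationMonoid.normalizedFactors I
    · have hp' := (Ideal.mem_normalizedFactors_iff (hI0 I hI)).1 hp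
      set c := (UniqueFactorizationMonoid.normalizedFactors I).count p with hc
      have h1 : p ^ c ∣ I := by
        have h2 : (Multiset.replicate c p).prod ∣
            (UniqueFactorizationMonoid.normalizedFactors I).prod :=
          Multiset.prod_dvd_prod_of_le (Multiset.le_count_iff_replicate_le.1 le_rfl)
        rwa [Multiset.prod_replicate, Ideal.prod_normalizedFactors_eq_self (hI0 I hI)] at h2
      have h3 : absNorm p ^ c ∣ q ^ e := by
        rw [← hI, ← map_pow]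
        exact map_dvd absNorm h1
      have h4 : q ≤ absNorm p := by
        apply hnorm p e hp'.1
        rw [← hI]
        exact Ideal.absNorm_dvd_absNorm_of_le hp'.2
      have h5 : q ^ c ≤ q ^ e :=
        (Nat.pow_le_pow_left h4 c).trans (Nat.le_of_dvd (pow_pos hq.pos _) h3)
      have h6 := (Nat.pow_le_pow_iff_right hq.one_lt).1 h5
      omega
    · rw [Multiset.count_eq_zero_of_notMem hp]
      omega
  let F : {I : Ideal (𝓞 K) // absNorm I = q ^ e} → (P → Fin (e + 1)) :=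
    fun I p => ⟨(UniqueFactorizationMonoid.normalizedFactors I.1).count p.1, hcount I.1 I.2 p.1⟩
  have hF : Function.Injective F := by
    intro I J hIJ
    apply Subtype.ext
    have h1 : UniqueFactorizationMonoid.normalizedFactors I.1 =
        UniqueFactorizationMonoid.normalizedFactors J.1 := by
      ext p
      by_cases hp : p ∈ P
      · have h2 := congrFun hIJ ⟨p, hp⟩
        have h3 := congrArg Fin.val h2
        exact h3
      · rw [Multiset.count_eq_zero_of_notMem (fun h => hp (hsupp I.1 I.2 p h)),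
          Multiset.count_eq_zero_of_notMem (fun h => hp (hsupp J.1 J.2 p h))]
    rw [← Ideal.prod_normalizedFactors_eq_self (hI0 I.1 I.2), h1,
      Ideal.prod_normalizedFactors_eq_self (hI0 J.1 J.2)]
  unfold idealCount
  calc Nat.card {I : Ideal (𝓞 K) // absNorm I = q ^ e} ≤ Nat.card (P → Fin (e + 1)) :=
        Nat.card_le_card_of_injective F hF
    _ = (e + 1) ^ P.card := by simp
    _ ≤ (e + 1) ^ Module.finrank ℚ K := Nat.pow_le_pow_right (Nat.succ_pos e) hPcard

end Pool.Agent.Lib.MP_89bcae_ag.Re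

end

section

open NumberField Ideal Filter Topology

namespace Pool.Agent.Lib.MP_89bcae_ag.Re

/-- The average number of ideals of given norm. -/
private theorem N04a_lim (K : Type*) [Field K] [NumberField K] :
    Tendsto (fun n : ℕ => (∑ k ∈ Finset.Icc 1 n, (idealCount K k : ℝ)) / n) atTop
      (𝓝 (dedekindZeta_residue K)) := by
  refine ((Ideal.tendsto_norm_le_div_atTop₀ K).comp tendsto_natCast_atTop_atTop).congr fun n ↦ ?_
  simp only [Function.comp_apply, Nat.cast_le, ← Nat.cast_sum, idealCount]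
  congr
  rw [← add_left_inj 1, ← card_norm_le_eq_card_norm_le_add_one,
    show Finset.Icc 1 n = Finset.Ioc 0 n from Finset.Icc_succ_left_eq_Ioc _ _,
    show 1 = Nat.card {I : Ideal (𝓞 K) // absNorm I = 0} by simp [Ideal.absNorm_eq_zero_iff],
    Finset.sum_Ioc_add_eq_sum_Icc (n.zero_le),
    ← Finset.card_preimage_eq_sum_card_image_eq (fun k _ ↦ finite_setOfPred_absNorm_eq k)]
  simp [Set.coe_eq_subtype]

private theorem N04a_bigO (K : Type*) [Field K] [NumberField K] :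
    (fun n : ℕ => ∑ k ∈ Finset.Icc 1 n, (idealCount K k : ℝ)) =O[atTop] fun n : ℕ => (n : ℝ) ^ (1 : ℝ) := by
  have h1 : (fun n : ℕ => ∑ k ∈ Finset.Icc 1 n, (idealCount K k : ℝ)) =O[atTop] fun n : ℕ => (n : ℝ) := by
    refine Asymptotics.isBigO_of_div_tendsto_nhds ?_ (dedekindZeta_residue K) (N04a_lim K)
    filter_upwards [eventually_gt_atTop 0] with n hn h
    exact absurd h (Nat.cast_ne_zero.2 hn.ne')
  simpa only [Real.rpow_one] using h1

/-- Proof: the partial sums of `idealCount K` are `O(n)`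
(`NumberField.Ideal.tendsto_norm_le_div_atTop₀`; see the proof of
`NumberField.tendsto_sub_one_mul_dedekindZeta_nhdsGT` in Mathlib, file
`NumberTheory/NumberField/DedekindZeta`), so the series converges for `s > 1`
(`LSeriesSummable_of_sum_norm_bigO` or a similar lemma of `NumberTheory/LSeries/SumCoeff`); pass to
real numbers with `LSeriesSummable`, `LSeries.norm_term_eq` and the like (the term at `n = 0` is
zero on both sides because `0 ^ (-s) = 0`). -/
theorem zetaR_summable (K : Type*) [Field K] [NumberField K] {s : ℝ} (hs : 1 < s) :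
    Summable fun n : ℕ => (idealCount K n : ℝ) * (n : ℝ) ^ (-s) := by
  have h := LSeriesSummable_of_sum_norm_bigO_and_nonneg (s := (s : ℂ)) (N04a_bigO K)
    (fun n => Nat.cast_nonneg _) zero_le_one (by rwa [Complex.ofReal_re])
  refine h.norm.congr fun n => ?_
  rw [LSeries.norm_term_eq, Complex.ofReal_re]
  split_ifs with hn
  · rw [hn, Nat.cast_zero, Real.zero_rpow (by linarith), mul_zero]
  · rw [Real.rpow_neg (Nat.cast_nonneg n), Complex.norm_real, Real.norm_of_nonneg (Nat.cast_nonneg _), div_eq_mul_inv]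

private theorem zetaR_ofReal (K : Type*) [Field K] [NumberField K] {s : ℝ} (hs : s ≠ 0) :
    dedekindZeta K s = ((zetaR K s : ℝ) : ℂ) := by
  unfold dedekindZeta LSeries zetaR
  rw [Complex.ofReal_tsum]
  refine tsum_congr fun n => ?_
  rcases Nat.eq_zero_or_pos n with hn | hn
  · subst hn
    rw [LSeries.term_zero, Nat.cast_zero, Real.zero_rpow (neg_ne_zero.2 hs), mul_zero, Complex.ofReal_zero]
  · rw [LSeries.term_of_ne_zero hn.ne', Complex.ofReal_mul, Complex.ofReal_natCast,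
      Complex.ofReal_cpow (Nat.cast_nonneg n), Complex.ofReal_natCast, Complex.ofReal_neg, Complex.cpow_neg, div_eq_mul_inv]
    rfl

/-- Proof: for real `s` the number `dedekindZeta K s` is the real number `zetaR K s` (for all `s`, the
terms agree: `LSeries.term`, `Complex.ofReal_cpow`, the term at `n = 0` is zero on both sides for
`s ≠ 0`, `Complex.ofReal_tsum`), and `tendsto_sub_one_mul_dedekindZeta_nhdsGT`. -/
theorem zetaR_tendsto (K : Type*) [Field K] [NumberField K] :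
    Tendsto (fun s : ℝ => (s - 1) * zetaR K s) (𝓝[>] 1) (𝓝 (dedekindZeta_residue K)) := by
  have h := tendsto_sub_one_mul_dedekindZeta_nhdsGT K
  have h2 := (Complex.continuous_re.tendsto _).comp h
  rw [Complex.ofReal_re] at h2
  refine h2.congr' ?_
  filter_upwards [self_mem_nhdsWithin] with s hs
  have hs1 : (1 : ℝ) < s := hs
  have hs0 : s ≠ 0 := by
    intro h0
    rw [h0] at hs1
    exact absurd hs1 (by norm_num)
  rw [Function.comp_apply, zetaR_ofReal K hs0]
  have h3 : ((s : ℂ) - 1) * ((zetaR K s : ℝ) : ℂ) = (((s - 1) * zetaR K s : ℝ) : ℂ) := by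
    rw [Complex.ofReal_mul, Complex.ofReal_sub, Complex.ofReal_one]
  rw [h3, Complex.ofReal_re]

end Pool.Agent.Lib.MP_89bcae_ag.Re

end

section

open Filter Topology

namespace Pool.Agent.Lib.MP_89bcae_ag.Re

/-- Comparison of two Euler factors with `ℓ u(1) ≤ w(1)`. Proof: let `x = u 1 * q ^ (-s)`, so
`0 ≤ x ≤ 2 ^ d / q`. By `factor_le` the left side is at most
`(1 + x + C / q²) ^ ℓ ≤ exp (ℓ x + ℓ C / q²)` and by `exp_le_one_add_mul_exp_sq`
`exp (ℓ x) ≤ (1 + ℓ x) exp ((ℓ x)²)`, where `(ℓ x)² ≤ ℓ² 4 ^ d / q²`; finally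
`1 + ℓ x ≤ 1 + w 1 * q ^ (-s) ≤ ∑' e, w e * (q ^ e) ^ (-s)` (`summable_factor`, nonnegative terms,
`Summable.sum_le_tsum` for `{0, 1}`). -/
theorem factor_compare (d d' ℓ : ℕ) : ∃ C : ℝ, 0 ≤ C ∧ ∀ (u w : ℕ → ℝ), (∀ e, 0 ≤ u e) →
    (∀ e, 0 ≤ w e) → u 0 = 1 → w 0 = 1 → (∀ e, u e ≤ ((e : ℝ) + 1) ^ d) →
    (∀ e, w e ≤ ((e : ℝ) + 1) ^ d') → (ℓ : ℝ) * u 1 ≤ w 1 →
    ∀ (q : ℕ), 2 ≤ q → ∀ s : ℝ, 1 < s →
      (∑' e : ℕ, u e * ((q ^ e : ℕ) : ℝ) ^ (-s)) ^ ℓ ≤
        Real.exp (C / (q : ℝ) ^ 2) * ∑' e : ℕ, w e * ((q ^ e : ℕ) : ℝ) ^ (-s) := by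
  obtain ⟨C0, hC0, hfac⟩ := factor_le d
  refine ⟨(ℓ : ℝ) * C0 + (ℓ : ℝ) ^ 2 * 4 ^ d, by positivity, ?_⟩
  intro u w hu0 hw0 hu1 hw1 hud hwd hlw q hq s hs
  have hqR : (2 : ℝ) ≤ q := by exact_mod_cast hq
  have hqpos : (0 : ℝ) < q := by linarith
  have hps : (q : ℝ) ^ (-s) ≤ 1 / q := by
    rw [one_div, ← Real.rpow_neg_one]
    exact Real.rpow_le_rpow_of_exponent_le (by linarith) (by linarith)
  have hps0 : 0 ≤ (q : ℝ) ^ (-s) := (Real.rpow_pos_of_pos hqpos _).le
  have hu1d : u 1 ≤ 2 ^ d := by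
    have h := hud 1
    norm_num at h
    exact h
  have hx0 : 0 ≤ u 1 * (q : ℝ) ^ (-s) := mul_nonneg (hu0 1) hps0
  have hx1 : u 1 * (q : ℝ) ^ (-s) ≤ 2 ^ d / q := by
    calc u 1 * (q : ℝ) ^ (-s) ≤ 2 ^ d * (1 / q) :=
          mul_le_mul hu1d hps hps0 (by positivity)
      _ = 2 ^ d / q := by ring
  have hF := hfac u hu0 hu1 hud q hq s hs
  set x := u 1 * (q : ℝ) ^ (-s) with hx
  have hT0 : 0 ≤ ∑' e : ℕ, u e * ((q ^ e : ℕ) : ℝ) ^ (-s) :=
    tsum_nonneg fun e => mul_nonneg (hu0 e) (Real.rpow_nonneg (Nat.cast_nonneg _) _)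
  have hc0 : 0 ≤ C0 / (q : ℝ) ^ 2 := by positivity
  have h1 : (∑' e : ℕ, u e * ((q ^ e : ℕ) : ℝ) ^ (-s)) ^ ℓ ≤
      Real.exp ((ℓ : ℝ) * x) * Real.exp ((ℓ : ℝ) * (C0 / (q : ℝ) ^ 2)) := by
    calc (∑' e : ℕ, u e * ((q ^ e : ℕ) : ℝ) ^ (-s)) ^ ℓ ≤
          (Real.exp (x + C0 / (q : ℝ) ^ 2)) ^ ℓ := by
          refine pow_le_pow_left₀ hT0 (hF.trans ?_) ℓ
          have := Real.add_one_le_exp (x + C0 / (q : ℝ) ^ 2)
          linarith
      _ = Real.exp ((ℓ : ℝ) * x) * Real.exp ((ℓ : ℝ) * (C0 / (q : ℝ) ^ 2)) := by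
          rw [← Real.exp_nat_mul, ← Real.exp_add]
          congr 1
          ring
  have h2 : Real.exp ((ℓ : ℝ) * x) ≤ (1 + (ℓ : ℝ) * x) * Real.exp (((ℓ : ℝ) * x) ^ 2) :=
    exp_le_one_add_mul_exp_sq (by positivity)
  have h3 : ((ℓ : ℝ) * x) ^ 2 ≤ (ℓ : ℝ) ^ 2 * 4 ^ d / (q : ℝ) ^ 2 := by
    calc ((ℓ : ℝ) * x) ^ 2 ≤ ((ℓ : ℝ) * (2 ^ d / q)) ^ 2 := by
          refine pow_le_pow_left₀ (by positivity) ?_ 2
          exact mul_le_mul_of_nonneg_left hx1 (Nat.cast_nonneg _)
      _ = (ℓ : ℝ) ^ 2 * 4 ^ d / (q : ℝ) ^ 2 := by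
          rw [mul_pow, div_pow, ← pow_mul, mul_comm d 2, pow_mul]
          norm_num
          ring
  have h4 : 1 + (ℓ : ℝ) * x ≤ ∑' e : ℕ, w e * ((q ^ e : ℕ) : ℝ) ^ (-s) := by
    have hsum := summable_factor d' hw0 hwd hq hs
    have h5 := hsum.sum_le_tsum {0, 1}
      (fun e _ => mul_nonneg (hw0 e) (Real.rpow_nonneg (Nat.cast_nonneg _) _))
    rw [Finset.sum_pair (by norm_num)] at h5
    simp only [pow_zero, pow_one, Nat.cast_one, Real.one_rpow, mul_one, hw1] at h5
    refine le_trans ?_ h5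
    have h6 : (ℓ : ℝ) * x ≤ w 1 * (q : ℝ) ^ (-s) := by
      rw [hx, ← mul_assoc]
      exact mul_le_mul_of_nonneg_right hlw hps0
    linarith
  have hlx : 0 ≤ 1 + (ℓ : ℝ) * x := by positivity
  calc (∑' e : ℕ, u e * ((q ^ e : ℕ) : ℝ) ^ (-s)) ^ ℓ ≤
        Real.exp ((ℓ : ℝ) * x) * Real.exp ((ℓ : ℝ) * (C0 / (q : ℝ) ^ 2)) := h1
    _ ≤ ((1 + (ℓ : ℝ) * x) * Real.exp ((ℓ : ℝ) ^ 2 * 4 ^ d / (q : ℝ) ^ 2)) *
        Real.exp ((ℓ : ℝ) * (C0 / (q : ℝ) ^ 2)) := by
        refine mul_le_mul_of_nonneg_right (h2.trans ?_) (Real.exp_pos _).le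
        exact mul_le_mul_of_nonneg_left (Real.exp_le_exp.2 h3) hlx
    _ = Real.exp (((ℓ : ℝ) * C0 + (ℓ : ℝ) ^ 2 * 4 ^ d) / (q : ℝ) ^ 2) * (1 + (ℓ : ℝ) * x) := by
        rw [mul_assoc, ← Real.exp_add, mul_comm]
        congr 2
        ring
    _ ≤ _ := mul_le_mul_of_nonneg_left h4 (Real.exp_pos _).le

private lemma n06b_pow {q : ℕ} (hq : 2 ≤ q) {s : ℝ} (hs : 1 < s) (e : ℕ) :
    ((q ^ e : ℕ) : ℝ) ^ (-s) ≤ (1 / 2) ^ e := by
  have hq1 : 1 ≤ q ^ e := Nat.one_le_pow _ _ (by omega)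
  have hq1' : (1 : ℝ) ≤ ((q ^ e : ℕ) : ℝ) := by exact_mod_cast hq1
  have h1 : ((q ^ e : ℕ) : ℝ) ^ (-s) ≤ ((q ^ e : ℕ) : ℝ) ^ (-1 : ℝ) :=
    Real.rpow_le_rpow_of_exponent_le hq1' (by linarith)
  have h2 : ((q ^ e : ℕ) : ℝ) ^ (-1 : ℝ) = (((q ^ e : ℕ) : ℝ))⁻¹ := Real.rpow_neg_one _
  have h3 : (((q ^ e : ℕ) : ℝ))⁻¹ ≤ (1 / 2) ^ e := by
    rw [one_div, inv_pow]
    apply inv_anti₀ (by positivity)
    push_cast
    exact pow_le_pow_left₀ (by norm_num) (by exact_mod_cast hq) e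
  rw [h2] at h1
  exact h1.trans h3

private lemma n06b_sum (d : ℕ) : Summable fun e : ℕ => ((e : ℝ) + 1) ^ d * (1 / 2) ^ e := by
  have h1 : Summable fun n : ℕ => (n : ℝ) ^ d * (1 / 2 : ℝ) ^ n :=
    summable_pow_mul_geometric_of_norm_lt_one d (by rw [Real.norm_eq_abs, abs_of_pos] <;> norm_num)
  have h2 := ((summable_nat_add_iff 1).2 h1).mul_left 2
  refine h2.congr fun e => ?_
  push_cast
  rw [pow_succ]
  ring

/-- The same without the condition on `u 1`, `w 1`, with a constant which does not depend on `q`.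
Proof: the left side is at most `(∑' e, (e+1)^d 2^(-e)) ^ ℓ` (a constant), the series on the right is
at least its term at `e = 0`, which is `1`. -/
theorem factor_compare_bad (d d' ℓ : ℕ) : ∃ C : ℝ, 1 ≤ C ∧ ∀ (u w : ℕ → ℝ), (∀ e, 0 ≤ u e) →
    (∀ e, 0 ≤ w e) → u 0 = 1 → w 0 = 1 → (∀ e, u e ≤ ((e : ℝ) + 1) ^ d) →
    (∀ e, w e ≤ ((e : ℝ) + 1) ^ d') →
    ∀ (q : ℕ), 2 ≤ q → ∀ s : ℝ, 1 < s →
      (∑' e : ℕ, u e * ((q ^ e : ℕ) : ℝ) ^ (-s)) ^ ℓ ≤
        C * ∑' e : ℕ, w e * ((q ^ e : ℕ) : ℝ) ^ (-s) := by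
  refine ⟨max 1 ((∑' e : ℕ, ((e : ℝ) + 1) ^ d * (1 / 2) ^ e) ^ ℓ), le_max_left _ _, ?_⟩
  intro u w hu0 hw0 _ hw1 hu hw q hq s hs
  have h0 : ∀ e : ℕ, 0 ≤ u e * ((q ^ e : ℕ) : ℝ) ^ (-s) := fun e =>
    mul_nonneg (hu0 e) (Real.rpow_nonneg (Nat.cast_nonneg _) _)
  have h1 : (∑' e : ℕ, u e * ((q ^ e : ℕ) : ℝ) ^ (-s)) ≤ ∑' e : ℕ, ((e : ℝ) + 1) ^ d * (1 / 2) ^ e := by
    refine Summable.tsum_le_tsum (fun e => ?_) (summable_factor d hu0 hu hq hs) (n06b_sum d)
    exact mul_le_mul (hu e) (n06b_pow hq hs e) (Real.rpow_nonneg (Nat.cast_nonneg _) _)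
      (pow_nonneg (by positivity) _)
  have h2 : (∑' e : ℕ, u e * ((q ^ e : ℕ) : ℝ) ^ (-s)) ^ ℓ ≤
      max 1 ((∑' e : ℕ, ((e : ℝ) + 1) ^ d * (1 / 2) ^ e) ^ ℓ) :=
    (pow_le_pow_left₀ (tsum_nonneg h0) h1 ℓ).trans (le_max_right _ _)
  have h3 : 1 ≤ ∑' e : ℕ, w e * ((q ^ e : ℕ) : ℝ) ^ (-s) := by
    have h4 := (summable_factor d' hw0 hw hq hs).sum_le_tsum {0}
      (fun e _ => mul_nonneg (hw0 e) (Real.rpow_nonneg (Nat.cast_nonneg _) _))
    rw [Finset.sum_singleton, hw1, pow_zero, Nat.cast_one, Real.one_rpow, mul_one] at h4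
    exact h4
  have h5 : (0 : ℝ) ≤ max 1 ((∑' e : ℕ, ((e : ℝ) + 1) ^ d * (1 / 2) ^ e) ^ ℓ) :=
    zero_le_one.trans (le_max_left _ _)
  exact h2.trans (le_mul_of_one_le_right h5 h3)

end Pool.Agent.Lib.MP_89bcae_ag.Re

end

section

open NumberField Ideal

namespace Pool.Agent.Lib.MP_89bcae_ag.Re

/-- Proof: a ring homomorphism is determined by its restriction to a finite set of generators of the
`ℤ`-module `𝓞 K`; or it is determined by its kernel, see below. -/
theorem finite_ringHom (K : Type*) [Field K] [NumberField K] (q : ℕ) [Fact q.Prime] :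
    Finite (𝓞 K →+* ZMod q) := by
  obtain ⟨s, hs⟩ := (inferInstance : Module.Finite ℤ (𝓞 K)).fg_top
  refine Finite.of_injective
    (fun (φ : 𝓞 K →+* ZMod q) => (fun x : (s : Set (𝓞 K)) => φ x.1)) ?_
  intro φ ψ h
  have h1 : φ.toAddMonoidHom.toIntLinearMap = ψ.toAddMonoidHom.toIntLinearMap := by
    apply LinearMap.ext_on hs
    intro x hx
    exact congrFun h ⟨x, hx⟩
  ext x
  exact LinearMap.congr_fun h1 x

/-- A ring homomorphism to `ZMod q` is surjective. -/
theorem surj_of_ringHom {R : Type*} [CommRing R] (q : ℕ) [Fact q.Prime] (φ : R →+* ZMod q) :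
    Function.Surjective φ := by
  intro x
  exact ⟨((ZMod.val x : ℕ) : R), by simp⟩

/-- The kernel of a ring homomorphism to `ZMod q` has norm `q`. -/
theorem absNorm_ker (K : Type*) [Field K] [NumberField K] (q : ℕ) [Fact q.Prime]
    (φ : 𝓞 K →+* ZMod q) : absNorm (RingHom.ker φ) = q := by
  rw [Ideal.absNorm_apply, Submodule.cardQuot_apply]
  have e := RingHom.quotientKerEquivOfSurjective (surj_of_ringHom q φ)
  have h := Nat.card_congr e.toEquiv
  rw [Nat.card_zmod] at h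
  exact h

/-- Proof: `φ ↦ ker φ` is a bijection from the ring homomorphisms to the ideals of norm `q`. The
homomorphism `φ` is surjective (`ZMod q` is generated by `1`), so the quotient by the kernel has
`q` elements (`Ideal.absNorm_apply`, `Submodule.cardQuot`). Injective: if `ker φ = ker ψ` then for
each `x` there is an integer `n` with `φ x = n = φ n`, so `x - n ∈ ker φ = ker ψ` and `ψ x = n`.
Surjective: an ideal `I` of norm `q` is maximal or: the quotient ring has `q` elements, so it is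
isomorphic to `ZMod q` (`ZMod.ringEquivOfPrime` or `ZMod.ringEquiv`), compose with the quotient map. -/
theorem idealCount_eq_card (K : Type*) [Field K] [NumberField K] (q : ℕ) [Fact q.Prime] :
    idealCount K q = Nat.card (𝓞 K →+* ZMod q) := by
  unfold idealCount
  symm
  refine Nat.card_eq_of_bijective
    (fun φ : 𝓞 K →+* ZMod q => (⟨RingHom.ker φ, absNorm_ker K q φ⟩ :
      {I : Ideal (𝓞 K) // absNorm I = q})) ⟨?_, ?_⟩
  · intro φ ψ h
    have hk : RingHom.ker φ = RingHom.ker ψ := congrArg Subtype.val h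
    ext x
    have h1 : x - ((ZMod.val (φ x) : ℕ) : 𝓞 K) ∈ RingHom.ker φ := by
      rw [RingHom.mem_ker]
      simp
    rw [hk, RingHom.mem_ker] at h1
    rw [map_sub, map_natCast, ZMod.natCast_rightInverse (φ x)] at h1
    exact (sub_eq_zero.mp h1).symm
  · rintro ⟨I, hI⟩
    have hq : q.Prime := Fact.out
    rw [Ideal.absNorm_apply, Submodule.cardQuot_apply] at hI
    have hc : Nat.card (𝓞 K ⧸ I) = q := hI
    have : Finite (𝓞 K ⧸ I) := Nat.finite_of_card_ne_zero (by rw [hc]; exact hq.ne_zero)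
    let _ : Fintype (𝓞 K ⧸ I) := Fintype.ofFinite _
    have hF : Fintype.card (𝓞 K ⧸ I) = q := by
      rw [← Nat.card_eq_fintype_card]; exact hc
    let e := ZMod.ringEquivOfPrime (𝓞 K ⧸ I) hq hF
    refine ⟨(e.symm : (𝓞 K ⧸ I) →+* ZMod q).comp (Ideal.Quotient.mk I), ?_⟩
    apply Subtype.ext
    ext x
    simp only [RingHom.mem_ker, RingHom.comp_apply, RingHom.coe_coe]
    rw [map_eq_zero_iff e.symm e.symm.injective, Ideal.Quotient.eq_zero_iff_mem]

end Pool.Agent.Lib.MP_89bcae_ag.Re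

end

section

/-!
# Galois action on points and quadratic characters attached to two-torsion cocycles
-/

open WeierstrassCurve WeierstrassCurve.Affine

namespace Pool.Agent.Lib.MP_89bcae_ag

section Maps

variable {R S A B : Type*} [CommRing R] [CommRing S] [Field A] [Field B]
  [Algebra R S] [Algebra R A] [Algebra S A] [IsScalarTower R S A] [Algebra R B] [Algebra S B]
  [IsScalarTower R S B] [DecidableEq A] [DecidableEq B] {W : Affine R} {a b c : R}

/-- `W`, over the field `A`, is the curve `y² = (x - a)(x - b)(x - c)`. -/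
abbrev SplitAt (A : Type*) [Field A] [Algebra R A] (W : Affine R) (a b c : R) : Prop :=
  Split (W.baseChange A) (algebraMap R A a) (algebraMap R A b) (algebraMap R A c)

omit [DecidableEq A] [DecidableEq B] in
lemma algHom_algebraMap (f : A →ₐ[S] B) (x : R) : f (algebraMap R A x) = algebraMap R B x := by
  rw [IsScalarTower.algebraMap_apply R S A, AlgHom.commutes, ← IsScalarTower.algebraMap_apply]

lemma map_T (f : A →ₐ[S] B) (hA : SplitAt A W a b c) (hB : SplitAt B W a b c) :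
    Point.map (W' := W) f hA.T = hB.T := by
  rw [Split.T, Point.map_some, Split.T]
  simp only [Point.some.injEq]
  exact ⟨algHom_algebraMap f a, map_zero f⟩

lemma chi_map (f : A →ₐ[S] B) (hA : SplitAt A W a b c) (hB : SplitAt B W a b c)
    (P : (W.baseChange A).Point) : hB.chi (Point.map (W' := W) f P) = hA.chi P := by
  unfold Split.chi
  have h1 : Point.map (W' := W) f P = 0 ↔ P = 0 := by
    rw [← Point.map_zero (W' := W) f]
    exact (Point.map_injective (W' := W) f).eq_iff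
  have h2 : Point.map (W' := W) f P = hB.T ↔ P = hA.T := by
    rw [← map_T f hA hB]
    exact (Point.map_injective (W' := W) f).eq_iff
  simp only [h1, h2]

omit [DecidableEq A] [DecidableEq B] in
lemma map_rho (f : A →ₐ[S] B) (x y : A) :
    Split.rho (algebraMap R B a) (algebraMap R B b) (algebraMap R B c) (f x) (f y) =
      f (Split.rho (algebraMap R A a) (algebraMap R A b) (algebraMap R A c) x y) := by
  unfold Split.rho
  simp only [map_div₀, map_sub, map_mul, map_pow, algHom_algebraMap, map_ofNat]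

omit [DecidableEq A] [DecidableEq B] in
lemma SplitAt.up (hA : SplitAt A W a b c) (f : A →ₐ[S] B) : SplitAt B W a b c where
  a₁ := by
    have := congrArg f hA.a₁
    rw [map_zero] at this
    exact (algHom_algebraMap f W.a₁).symm.trans this
  a₂ := by
    have := congrArg f hA.a₂
    rw [map_neg, map_add, map_add, algHom_algebraMap, algHom_algebraMap, algHom_algebraMap] at this
    exact (algHom_algebraMap f W.a₂).symm.trans this
  a₃ := by
    have := congrArg f hA.a₃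
    rw [map_zero] at this
    exact (algHom_algebraMap f W.a₃).symm.trans this
  a₄ := by
    have := congrArg f hA.a₄
    rw [map_add, map_add, map_mul, map_mul, map_mul, algHom_algebraMap, algHom_algebraMap,
      algHom_algebraMap] at this
    exact (algHom_algebraMap f W.a₄).symm.trans this
  a₆ := by
    have := congrArg f hA.a₆
    rw [map_neg, map_mul, map_mul, algHom_algebraMap, algHom_algebraMap,
      algHom_algebraMap] at this
    exact (algHom_algebraMap f W.a₆).symm.trans this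
  ab := by
    intro h
    apply hA.ab
    apply f.injective
    rw [AlgHom.toRingHom_eq_coe, RingHom.coe_coe, algHom_algebraMap, algHom_algebraMap, h]
  ac := by
    intro h
    apply hA.ac
    apply f.injective
    rw [AlgHom.toRingHom_eq_coe, RingHom.coe_coe, algHom_algebraMap, algHom_algebraMap, h]
  bc := by
    intro h
    apply hA.bc
    apply f.injective
    rw [AlgHom.toRingHom_eq_coe, RingHom.coe_coe, algHom_algebraMap, algHom_algebraMap, h]
  two := by
    intro h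
    apply hA.two
    apply f.injective
    rw [AlgHom.toRingHom_eq_coe, RingHom.coe_coe, map_ofNat, map_zero]
    exact h

/-- A two-torsion point is fixed by every automorphism. -/
lemma map_two_torsion (f : A →ₐ[S] A) (hA : SplitAt A W a b c) {P : (W.baseChange A).Point}
    (hP : P + P = 0) : Point.map (W' := W) f P = P := by
  have e1 := map_T f hA hA
  have e2 := map_T f (a := b) (b := a) (c := c) hA.swap12 hA.swap12
  have e3 := map_T f (a := c) (b := a) (c := b) hA.rot.rot hA.rot.rot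
  rcases hA.two_torsion P hP with rfl | rfl | rfl | rfl
  · rfl
  · exact e1
  · exact e2
  · exact e3

end Maps

section Rep

variable {R F Ω : Type*} [CommRing R] [Field F] [Field Ω] [Algebra R Ω]
  [Algebra F Ω] [DecidableEq Ω] {W : Affine R} {a b c : R}

/-- The element `d` of `F` represents, modulo squares, the quadratic character
`g ↦ e₂(c(g), (a, 0))` attached to a map `c` from the Galois group to the two-torsion. -/
def Rep (hΩ : SplitAt Ω W a b c) (s : (Ω ≃ₐ[F] Ω) → (W.baseChange Ω).Point) (d : F) : Prop :=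
  ∃ β : Ω, β ≠ 0 ∧ β ^ 2 = algebraMap F Ω d ∧ ∀ g : Ω ≃ₐ[F] Ω, g β = (hΩ.chi (s g) : Ω) * β

variable (hΩ : SplitAt Ω W a b c) {s s' : (Ω ≃ₐ[F] Ω) → (W.baseChange Ω).Point} {d d' : F}

include hΩ in
lemma chi_cast_sq (P : (W.baseChange Ω).Point) : (hΩ.chi P : Ω) * (hΩ.chi P : Ω) = 1 := by
  exact_mod_cast congrArg (Int.cast : ℤ → Ω) (hΩ.chi_sq P)

lemma Rep.mul (h : Rep hΩ s d) (h' : Rep hΩ s' d') (hs : ∀ g, s g + s g = 0)
    (hs' : ∀ g, s' g + s' g = 0) : Rep hΩ (fun g => s g + s' g) (d * d') := by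
  obtain ⟨β, hβ, h1, h2⟩ := h
  obtain ⟨β', hβ', h1', h2'⟩ := h'
  refine ⟨β * β', mul_ne_zero hβ hβ', by rw [mul_pow, h1, h1', map_mul], fun g => ?_⟩
  rw [map_mul, h2, h2', hΩ.chi_add (hs g) (hs' g)]
  push_cast
  ring

lemma Rep.unique [IsGalois F Ω] (h : Rep hΩ s d) (h' : Rep hΩ s d') : ∃ w : F, w ≠ 0 ∧
    d * d' = w ^ 2 := by
  obtain ⟨β, hβ, h1, h2⟩ := h
  obtain ⟨β', hβ', h1', h2'⟩ := h'
  obtain ⟨w, hw⟩ := exists_of_fixed (F := F) (x := β * β') (by
    intro g
    rw [map_mul, h2, h2']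
    linear_combination (β * β') * chi_cast_sq hΩ (s g))
  refine ⟨w, ?_, ?_⟩
  · rintro rfl
    rw [map_zero] at hw
    exact mul_ne_zero hβ hβ' hw.symm
  · apply (algebraMap F Ω).injective
    rw [map_mul, map_pow, hw, ← h1, ← h1']
    ring

lemma Rep.ne_zero (h : Rep hΩ s d) : d ≠ 0 := by
  obtain ⟨β, hβ, h1, h2⟩ := h
  rintro rfl
  rw [map_zero] at h1
  exact hβ (pow_eq_zero_iff (two_ne_zero) |>.mp h1)

lemma Rep.chi_eq_one (h : Rep hΩ s d) {w : F} (hd : d = w ^ 2) (g : Ω ≃ₐ[F] Ω) :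
    hΩ.chi (s g) = 1 := by
  obtain ⟨β, hβ, h1, h2⟩ := h
  rw [hd, map_pow] at h1
  have : β = algebraMap F Ω w ∨ β = -algebraMap F Ω w := sq_eq_sq_iff_eq_or_eq_neg.mp h1
  have hfix : g β = β := by
    rcases this with h | h
    · rw [h, AlgEquiv.commutes]
    · rw [h, map_neg, AlgEquiv.commutes]
  have h3 := h2 g
  rw [hfix] at h3
  have h4 : (hΩ.chi (s g) : Ω) = 1 := by
    have : ((hΩ.chi (s g) : Ω) - 1) * β = 0 := by linear_combination -h3
    rcases mul_eq_zero.mp this with h5 | h5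
    · linear_combination h5
    · exact absurd h5 hβ
  unfold Split.chi at h4 ⊢
  split_ifs at h4 ⊢ with h5
  · rfl
  · exfalso
    apply hΩ.two
    push_cast at h4
    linear_combination -h4

lemma Rep.of_eq (h : Rep hΩ s d) (e : ∀ g, s g = s' g) : Rep hΩ s' d := by
  obtain ⟨β, hβ, h1, h2⟩ := h
  exact ⟨β, hβ, h1, fun g => by rw [h2, e]⟩

lemma Rep.mul_sq (h : Rep hΩ s d) {w : F} (hw : w ≠ 0) : Rep hΩ s (d * w ^ 2) := by
  obtain ⟨β, hβ, h1, h2⟩ := h
  have hw' : algebraMap F Ω w ≠ 0 := fun h => hw ((algebraMap F Ω).injective (by rw [h, map_zero]))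
  refine ⟨β * algebraMap F Ω w, mul_ne_zero hβ hw', by rw [mul_pow, h1, map_mul, map_pow],
    fun g => ?_⟩
  rw [map_mul, h2, AlgEquiv.commutes]
  ring

/-- Existence of a representative. -/
lemma exists_rep [IsGalois F Ω] (hs : ∀ g, s g + s g = 0) (hmul : ∀ g h, s (g * h) = s g + s h)
    (hc : IsLocallyConstant s) : ∃ d : F, Rep hΩ s d := by
  obtain ⟨β, hβ, h2⟩ := exists_eigen (F := F) (Ω := Ω) (fun g => hΩ.chi (s g))
    (fun g => by
      unfold Split.chi
      split_ifs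
      · exact Or.inl rfl
      · exact Or.inr rfl)
    (fun g h => by rw [hmul, hΩ.chi_add (hs g) (hs h)])
    (hc.comp hΩ.chi)
  obtain ⟨d, hd⟩ := exists_of_fixed (F := F) (x := β * β) (by
    intro g
    rw [map_mul, h2]
    linear_combination (β * β) * chi_cast_sq hΩ (s g))
  exact ⟨d, β, hβ, by rw [hd]; ring, h2⟩

end Rep

end Pool.Agent.Lib.MP_89bcae_ag

end

section

open Filter Topology

namespace Pool.Agent.Lib.MP_89bcae_ag.Re

private lemma n07_eulerHasProd {a : ℕ → ℝ} (ha : ∀ n, 0 ≤ a n) (ha1 : a 1 = 1)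
    (ham : ∀ m n : ℕ, m.Coprime n → a (m * n) = a m * a n)
    {s : ℝ} (hs : 1 < s) (has : Summable fun n : ℕ => a n * (n : ℝ) ^ (-s)) :
    HasProd (fun p : Nat.Primes => ∑' e : ℕ, a ((p : ℕ) ^ e) * (((p : ℕ) ^ e : ℕ) : ℝ) ^ (-s))
      (∑' n : ℕ, a n * (n : ℝ) ^ (-s)) := by
  have h := EulerProduct.eulerProduct_hasProd (R := ℝ) (f := fun n : ℕ => a n * (n : ℝ) ^ (-s))
    (by simp [ha1]) (by
      intro m n hmn
      simp only [ham m n hmn, Nat.cast_mul,
        Real.mul_rpow (Nat.cast_nonneg m) (Nat.cast_nonneg n)]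
      ring) (by
      refine has.congr fun n => ?_
      rw [Real.norm_of_nonneg]
      exact mul_nonneg (ha n) (Real.rpow_nonneg (Nat.cast_nonneg n) _)) (by
      simp only [Nat.cast_zero]
      rw [Real.zero_rpow (by linarith), mul_zero])
  exact h

private lemma n07_prod_le {C₁ C₂ : ℝ} (h1 : 0 ≤ C₁) (h2 : 1 ≤ C₂) (q₀ : ℕ)
    (T : Finset Nat.Primes) :
    ∏ p ∈ T, ((if (p : ℕ) < q₀ then C₂ else 1) * Real.exp (C₁ / ((p : ℕ) : ℝ) ^ 2)) ≤
      C₂ ^ q₀ * Real.exp (C₁ * ∑' n : ℕ, 1 / (n : ℝ) ^ 2) := by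
  rw [Finset.prod_mul_distrib]
  have hS : Summable fun n : ℕ => 1 / (n : ℝ) ^ 2 := Real.summable_one_div_nat_pow.2 (by norm_num)
  refine mul_le_mul ?_ ?_ (Finset.prod_nonneg fun p _ => (Real.exp_pos _).le) (by positivity)
  · rw [Finset.prod_ite, Finset.prod_const, Finset.prod_const_one, mul_one]
    refine pow_le_pow_right₀ h2 ?_
    calc (T.filter fun p : Nat.Primes => (p : ℕ) < q₀).card
        ≤ (Finset.range q₀).card := by
          apply Finset.card_le_card_of_injOn (fun p : Nat.Primes => (p : ℕ))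
          · intro p hp
            simp only [Finset.coe_filter, Set.mem_ofPred_eq] at hp
            simp only [Finset.coe_range, Set.mem_Iio]
            exact hp.2
          · intro p _ q _ h
            exact Subtype.ext h
      _ = q₀ := Finset.card_range q₀
  · rw [← Real.exp_sum]
    apply Real.exp_le_exp.2
    have e1 : ∑ p ∈ T, C₁ / ((p : ℕ) : ℝ) ^ 2 =
        C₁ * ∑ n ∈ T.map ⟨fun p : Nat.Primes => (p : ℕ), fun p q h => Subtype.ext h⟩,
          1 / (n : ℝ) ^ 2 := by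
      rw [Finset.sum_map, Finset.mul_sum]
      refine Finset.sum_congr rfl fun p _ => ?_
      show C₁ / ((p : ℕ) : ℝ) ^ 2 = C₁ * (1 / ((p : ℕ) : ℝ) ^ 2)
      ring
    rw [e1]
    refine mul_le_mul_of_nonneg_left ?_ h1
    exact hS.sum_le_tsum _ (fun n _ => by positivity)

/-- Comparison of two Euler products. Proof: the Euler product (`EulerProduct.eulerProduct_hasProd`
for `f n = a n * n ^ (-s)`, which is multiplicative on coprime arguments, `f 0 = 0`, summable norm)
gives `HasProd (fun q : Nat.Primes => ∑' e, a(q^e) (q^e)^(-s)) (∑' n, a n n^(-s))`, the same for `b`.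
Let `C₁` be the constant of `factor_compare` and `C₂` that of `factor_compare_bad`. For every finite
set `T` of primes the product over `T` of the `ℓ`-th powers of the factors of `a` is at most
`C₂ ^ q₀ * exp (C₁ ∑' n, 1/n²)` times the product over `T` of the factors of `b`; pass to the limit
(`le_of_tendsto_of_tendsto'`, `HasProd` is a `Tendsto` along finite sets). -/
theorem euler_compare {a b : ℕ → ℝ} {d d' ℓ q₀ : ℕ} (ha : ∀ n, 0 ≤ a n) (hb : ∀ n, 0 ≤ b n)
    (ha1 : a 1 = 1) (hb1 : b 1 = 1)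
    (ham : ∀ m n : ℕ, m.Coprime n → a (m * n) = a m * a n)
    (hbm : ∀ m n : ℕ, m.Coprime n → b (m * n) = b m * b n)
    (hap : ∀ q e : ℕ, q.Prime → a (q ^ e) ≤ ((e : ℝ) + 1) ^ d)
    (hbp : ∀ q e : ℕ, q.Prime → b (q ^ e) ≤ ((e : ℝ) + 1) ^ d')
    (has : ∀ s : ℝ, 1 < s → Summable fun n : ℕ => a n * (n : ℝ) ^ (-s))
    (hbs : ∀ s : ℝ, 1 < s → Summable fun n : ℕ => b n * (n : ℝ) ^ (-s))
    (hab : ∀ q : ℕ, q.Prime → q₀ ≤ q → (ℓ : ℝ) * a q ≤ b q) :
    ∃ C : ℝ, 0 < C ∧ ∀ s : ℝ, 1 < s →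
      (∑' n : ℕ, a n * (n : ℝ) ^ (-s)) ^ ℓ ≤ C * ∑' n : ℕ, b n * (n : ℝ) ^ (-s) := by
  obtain ⟨C₁, hC₁, h1⟩ := factor_compare d d' ℓ
  obtain ⟨C₂, hC₂, h2⟩ := factor_compare_bad d d' ℓ
  refine ⟨C₂ ^ q₀ * Real.exp (C₁ * ∑' n : ℕ, 1 / (n : ℝ) ^ 2), by positivity, fun s hs => ?_⟩
  have hA := n07_eulerHasProd ha ha1 ham hs (has s hs)
  have hB := n07_eulerHasProd hb hb1 hbm hs (hbs s hs)
  set FA : Nat.Primes → ℝ := fun p => ∑' e : ℕ, a ((p : ℕ) ^ e) * (((p : ℕ) ^ e : ℕ) : ℝ) ^ (-s)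
    with hFA
  set FB : Nat.Primes → ℝ := fun p => ∑' e : ℕ, b ((p : ℕ) ^ e) * (((p : ℕ) ^ e : ℕ) : ℝ) ^ (-s)
    with hFB
  have hFA0 : ∀ p, 0 ≤ FA p := fun p => tsum_nonneg fun e =>
    mul_nonneg (ha _) (Real.rpow_nonneg (Nat.cast_nonneg _) _)
  have hFB0 : ∀ p, 0 ≤ FB p := fun p => tsum_nonneg fun e =>
    mul_nonneg (hb _) (Real.rpow_nonneg (Nat.cast_nonneg _) _)
  have hK : ∀ p : Nat.Primes, FA p ^ ℓ ≤
      ((if (p : ℕ) < q₀ then C₂ else 1) * Real.exp (C₁ / ((p : ℕ) : ℝ) ^ 2)) * FB p := by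
    intro p
    have hp := p.2
    by_cases hlt : (p : ℕ) < q₀
    · rw [if_pos hlt]
      have h3 := h2 (fun e => a ((p : ℕ) ^ e)) (fun e => b ((p : ℕ) ^ e)) (fun e => ha _)
        (fun e => hb _) (by simpa using ha1) (by simpa using hb1) (fun e => hap _ _ hp)
        (fun e => hbp _ _ hp) (p : ℕ) hp.two_le s hs
      refine h3.trans ?_
      refine mul_le_mul_of_nonneg_right ?_ (hFB0 p)
      have h4 : 1 ≤ Real.exp (C₁ / ((p : ℕ) : ℝ) ^ 2) := Real.one_le_exp (by positivity)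
      nlinarith [h4, hC₂]
    · rw [if_neg hlt, one_mul]
      exact h1 (fun e => a ((p : ℕ) ^ e)) (fun e => b ((p : ℕ) ^ e)) (fun e => ha _)
        (fun e => hb _) (by simpa using ha1) (by simpa using hb1) (fun e => hap _ _ hp)
        (fun e => hbp _ _ hp) (by simpa using hab p hp (not_lt.1 hlt)) (p : ℕ) hp.two_le s hs
  have hT : ∀ T : Finset Nat.Primes, (∏ p ∈ T, FA p) ^ ℓ ≤
      (C₂ ^ q₀ * Real.exp (C₁ * ∑' n : ℕ, 1 / (n : ℝ) ^ 2)) * ∏ p ∈ T, FB p := by
    intro T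
    rw [← Finset.prod_pow]
    calc ∏ p ∈ T, FA p ^ ℓ ≤ ∏ p ∈ T,
          (((if (p : ℕ) < q₀ then C₂ else 1) * Real.exp (C₁ / ((p : ℕ) : ℝ) ^ 2)) * FB p) :=
          Finset.prod_le_prod (fun p _ => pow_nonneg (hFA0 p) _) (fun p _ => hK p)
      _ = (∏ p ∈ T, ((if (p : ℕ) < q₀ then C₂ else 1) * Real.exp (C₁ / ((p : ℕ) : ℝ) ^ 2))) *
          ∏ p ∈ T, FB p := Finset.prod_mul_distrib
      _ ≤ _ := mul_le_mul_of_nonneg_right (n07_prod_le hC₁ hC₂ q₀ T)
          (Finset.prod_nonneg fun p _ => hFB0 p)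
  exact le_of_tendsto_of_tendsto' (Tendsto.pow hA ℓ) (Tendsto.const_mul _ hB) hT

end Pool.Agent.Lib.MP_89bcae_ag.Re

end

section

/-!
# Local conditions at a place
-/

open WeierstrassCurve WeierstrassCurve.Affine WithZero Multiplicative

namespace Pool.Agent.Lib.MP_89bcae_ag

section Valuation

variable {L : Type*} [Field L] (w : Valuation L ℤᵐ⁰)

/-- The valuation, written additively (with the sign convention of `Valuation`). -/
noncomputable def lg (x : L) : ℤ := WithZero.log (w x)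

lemma lg_mul {x y : L} (hx : x ≠ 0) (hy : y ≠ 0) : lg w (x * y) = lg w x + lg w y := by
  unfold lg
  rw [map_mul, WithZero.log_mul ((Valuation.ne_zero_iff w).mpr hx)
    ((Valuation.ne_zero_iff w).mpr hy)]

lemma lg_pow {x : L} (n : ℕ) : lg w (x ^ n) = n * lg w x := by
  unfold lg
  rw [map_pow, WithZero.log_pow, nsmul_eq_mul]

lemma lg_neg (x : L) : lg w (-x) = lg w x := by
  unfold lg; rw [Valuation.map_neg]

lemma lg_lt {x y : L} (hx : x ≠ 0) (hy : y ≠ 0) : lg w x < lg w y ↔ w x < w y :=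
  WithZero.log_lt_log ((Valuation.ne_zero_iff w).mpr hx) ((Valuation.ne_zero_iff w).mpr hy)

lemma lg_add_of_lt {x y : L} (hx : x ≠ 0) (hy : y ≠ 0) (h : lg w x < lg w y) :
    x + y ≠ 0 ∧ lg w (x + y) = lg w y := by
  have h1 := (lg_lt w hx hy).mp h
  have h2 := w.map_add_eq_of_lt_right h1
  refine ⟨?_, by unfold lg; rw [h2]⟩
  intro h0
  rw [h0, map_zero] at h2
  exact (Valuation.ne_zero_iff w).mpr hy h2.symm

/-- If `a - b` and `a - c` have the same even valuation, then `x - a` has even valuation for every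
point `(x, y)` of `y² = (x - a)(x - b)(x - c)` with `x ≠ a`. -/
lemma even_lg_sub {a b c x y : L} (hab : a ≠ b) (hac : a ≠ c)
    (he : lg w (a - b) = lg w (a - c)) (h2 : Even (lg w (a - b)))
    (H : y ^ 2 = (x - a) * (x - b) * (x - c)) (hx : x ≠ a) : Even (lg w (x - a)) := by
  have hxa : x - a ≠ 0 := sub_ne_zero.mpr hx
  have hab' : a - b ≠ 0 := sub_ne_zero.mpr hab
  have hac' : a - c ≠ 0 := sub_ne_zero.mpr hac
  rcases lt_trichotomy (lg w (x - a)) (lg w (a - b)) with h | h | h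
  · obtain ⟨n1, e1⟩ := lg_add_of_lt w hxa hab' h
    obtain ⟨n2, e2⟩ := lg_add_of_lt w hxa hac' (he ▸ h)
    have s1 : x - a + (a - b) = x - b := by ring
    have s2 : x - a + (a - c) = x - c := by ring
    rw [s1] at n1 e1
    rw [s2] at n2 e2
    have e3 := congrArg (lg w) H
    rw [lg_pow, lg_mul w (mul_ne_zero hxa n1) n2, lg_mul w hxa n1, e1, e2, ← he] at e3
    have : lg w (x - a) = 2 * (lg w y - lg w (a - b)) := by push_cast at e3; linarith
    rw [this]
    exact even_two_mul _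
  · rw [h]; exact h2
  · obtain ⟨n1, e1⟩ := lg_add_of_lt w hab' hxa h
    obtain ⟨n2, e2⟩ := lg_add_of_lt w hac' hxa (he ▸ h)
    have s1 : a - b + (x - a) = x - b := by ring
    have s2 : a - c + (x - a) = x - c := by ring
    rw [s1] at n1 e1
    rw [s2] at n2 e2
    have e3 := congrArg (lg w) H
    rw [lg_pow, lg_mul w (mul_ne_zero hxa n1) n2, lg_mul w hxa n1, e1, e2] at e3
    have : lg w (x - a) = 2 * (lg w y - lg w (x - a)) := by push_cast at e3; linarith
    rw [this]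
    exact even_two_mul _

end Valuation

section Restrict

variable {F Ω ΩL : Type*} [Field F] [Field Ω] [Field ΩL] [Algebra F Ω] [Algebra F ΩL]
  [Normal F Ω]

/-- Restriction of an automorphism along an embedding of a normal extension. -/
lemma exists_restrict (j : Ω →ₐ[F] ΩL) (g : ΩL ≃ₐ[F] ΩL) :
    ∃ g' : Ω ≃ₐ[F] Ω, ∀ x, j (g' x) = g (j x) := by
  let _ : Algebra Ω ΩL := j.toRingHom.toAlgebra
  have : IsScalarTower F Ω ΩL := IsScalarTower.of_algebraMap_eq fun x => (j.commutes x).symm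
  exact ⟨g.restrictNormal Ω, fun x => g.restrictNormal_commutes Ω x⟩

end Restrict

section LocalRep

variable {R F Ω L ΩL : Type*} [CommRing R] [Field F] [Field Ω] [Field L] [Field ΩL]
  [Algebra R F] [Algebra R Ω] [Algebra F Ω] [IsScalarTower R F Ω]
  [Algebra F L] [Algebra R L] [IsScalarTower R F L]
  [Algebra L ΩL] [Algebra F ΩL] [IsScalarTower F L ΩL] [Algebra R ΩL] [IsScalarTower R F ΩL]
  [IsScalarTower R L ΩL] [Normal F Ω] [IsGalois L ΩL]
  [DecidableEq Ω] [DecidableEq L] [DecidableEq ΩL] {W : Affine R} {a b c : R}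

/-- If a two-torsion cocycle becomes, at a place, the Kummer class of a local point, then the
element representing it is locally a square times `x - a` (or a square, or `(a - b)(a - c)` times a
square). -/
lemma local_rep (hΩ : SplitAt Ω W a b c) (hL : SplitAt L W a b c)
    {s : (Ω ≃ₐ[F] Ω) → (W.baseChange Ω).Point} {d : F} (hrep : Rep hΩ s d)
    (hs : ∀ g, s g + s g = 0) (j : Ω →ₐ[F] ΩL) (Q : (W.baseChange ΩL).Point)
    (P : (W.baseChange L).Point) (hP : Q + Q = Point.map (W' := W) (Algebra.ofId L ΩL) P)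
    (hc : ∀ (g : ΩL ≃ₐ[L] ΩL) (g' : Ω ≃ₐ[F] Ω), (∀ x, j (g' x) = g (j x)) →
      Point.map (W' := W) j (s g') = Point.map (W' := W) (g : ΩL →ₐ[L] ΩL) Q - Q) :
    ∃ u : L, u ≠ 0 ∧ (algebraMap F L d = u ^ 2 ∨
      (∃ x y : L, y ^ 2 = (x - algebraMap R L a) * (x - algebraMap R L b) *
        (x - algebraMap R L c) ∧ x ≠ algebraMap R L a ∧
        algebraMap F L d = u ^ 2 * (x - algebraMap R L a)) ∨
      algebraMap F L d = u ^ 2 * ((algebraMap R L a - algebraMap R L b) *
        (algebraMap R L a - algebraMap R L c))) := by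
  have hΩL : SplitAt ΩL W a b c := hL.up (Algebra.ofId L ΩL)
  obtain ⟨β, hβ, h1, h2⟩ := hrep
  have hj : j β ≠ 0 := (map_ne_zero j).mpr hβ
  have hjsq : (j β) ^ 2 = algebraMap L ΩL (algebraMap F L d) := by
    rw [← map_pow, h1, AlgHom.commutes, ← IsScalarTower.algebraMap_apply]
  -- the basic dichotomy: for every `g` there is a two-torsion point
  have key : ∀ g : ΩL ≃ₐ[L] ΩL, ∃ T : (W.baseChange ΩL).Point, T + T = 0 ∧
      Point.map (W' := W) (g : ΩL →ₐ[L] ΩL) Q = Q + T ∧ g (j β) = (hΩL.chi T : ΩL) * j β := by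
    intro g
    obtain ⟨g', hg'⟩ := exists_restrict (F := F) j (g.restrictScalars F)
    refine ⟨Point.map (W' := W) j (s g'), ?_, ?_, ?_⟩
    · rw [← map_add, hs, map_zero]
    · rw [hc g g' hg']; abel
    · rw [chi_map j hΩ hΩL]
      have := hg' β
      rw [h2, map_mul] at this
      rw [show g (j β) = (g.restrictScalars F) (j β) from rfl, ← this]
      simp
  -- conclusion from a fixed quotient
  have concl : ∀ z : ΩL, z ≠ 0 → (∀ g : ΩL ≃ₐ[L] ΩL, g (j β * z) = j β * z) →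
      ∃ u : L, u ≠ 0 ∧ algebraMap L ΩL (algebraMap F L d) * z ^ 2 = (algebraMap L ΩL u) ^ 2 := by
    intro z hz hfix
    obtain ⟨u, hu⟩ := exists_of_fixed (F := L) hfix
    refine ⟨u, ?_, ?_⟩
    · rintro rfl
      rw [map_zero] at hu
      exact mul_ne_zero hj hz hu.symm
    · rw [hu, ← hjsq]; ring
  have hchi2 : ∀ T : (W.baseChange ΩL).Point, (hΩL.chi T : ΩL) * (hΩL.chi T : ΩL) = 1 :=
    fun T => chi_cast_sq hΩL T
  by_cases hQ : Q + Q = 0
  · -- the local class is trivial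
    obtain ⟨u, hu, hu'⟩ := concl 1 one_ne_zero (by
      intro g
      obtain ⟨T, hT, e1, e2⟩ := key g
      rw [map_two_torsion (g : ΩL →ₐ[L] ΩL) hΩL hQ] at e1
      have hT0 : T = 0 := by simpa using e1
      rw [mul_one, e2, hT0, hΩL.chi_zero]
      simp)
    refine ⟨u, hu, Or.inl ?_⟩
    apply (algebraMap L ΩL).injective
    rw [map_pow, ← hu']
    ring
  · rcases Q with _ | ⟨x, y, hxy⟩
    · exact absurd (add_zero _) hQ
    · have hy : y ≠ 0 := by
        rintro rfl
        apply hQ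
        apply Point.add_self_of_Y_eq
        rw [hΩL.negY_eq]; ring
      obtain ⟨X, Y, H, e, ea, eb, ec⟩ := hΩL.double_some hxy hy
      -- the local point
      rcases P with _ | ⟨X₀, Y₀, h₀⟩
      · exfalso
        apply hQ
        rw [hP]; rfl
      · rw [e, Point.map_some] at hP
        simp only [Point.some.injEq] at hP
        obtain ⟨hX, -⟩ := hP
        have hX' : X = algebraMap L ΩL X₀ := hX
        have hrho : ∀ g : ΩL ≃ₐ[L] ΩL, ∀ T : (W.baseChange ΩL).Point, T + T = 0 →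
            Point.map (W' := W) (g : ΩL →ₐ[L] ΩL) (.some x y hxy) = .some x y hxy + T →
            g (Split.rho (algebraMap R ΩL a) (algebraMap R ΩL b) (algebraMap R ΩL c) x y) =
              (hΩL.chi T : ΩL) *
                Split.rho (algebraMap R ΩL a) (algebraMap R ΩL b) (algebraMap R ΩL c) x y := by
          intro g T hT e1
          rw [Point.map_some] at e1
          have := hΩL.rho_add_torsion hxy hy _ hT e1
          rw [map_rho (g : ΩL →ₐ[L] ΩL)] at this
          exact this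
        have hrhob : ∀ g : ΩL ≃ₐ[L] ΩL, ∀ T : (W.baseChange ΩL).Point, T + T = 0 →
            Point.map (W' := W) (g : ΩL →ₐ[L] ΩL) (.some x y hxy) = .some x y hxy + T →
            g (Split.rho (algebraMap R ΩL b) (algebraMap R ΩL a) (algebraMap R ΩL c) x y) =
              (hΩL.swap12.chi T : ΩL) *
                Split.rho (algebraMap R ΩL b) (algebraMap R ΩL a) (algebraMap R ΩL c) x y := by
          intro g T hT e1
          rw [Point.map_some] at e1
          have := hΩL.swap12.rho_add_torsion hxy hy _ hT e1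
          rw [map_rho (g : ΩL →ₐ[L] ΩL)] at this
          exact this
        have hrhoc : ∀ g : ΩL ≃ₐ[L] ΩL, ∀ T : (W.baseChange ΩL).Point, T + T = 0 →
            Point.map (W' := W) (g : ΩL →ₐ[L] ΩL) (.some x y hxy) = .some x y hxy + T →
            g (Split.rho (algebraMap R ΩL c) (algebraMap R ΩL a) (algebraMap R ΩL b) x y) =
              (hΩL.rot.rot.chi T : ΩL) *
                Split.rho (algebraMap R ΩL c) (algebraMap R ΩL a) (algebraMap R ΩL b) x y := by
          intro g T hT e1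
          rw [Point.map_some] at e1
          have := hΩL.rot.rot.rho_add_torsion hxy hy _ hT e1
          rw [map_rho (g : ΩL →ₐ[L] ΩL)] at this
          exact this
        have eqn : Y₀ ^ 2 = (X₀ - algebraMap R L a) * (X₀ - algebraMap R L b) *
            (X₀ - algebraMap R L c) := hL.eq_of_point h₀
        have am : ∀ r : R, algebraMap R ΩL r = algebraMap L ΩL (algebraMap R L r) :=
          fun r => IsScalarTower.algebraMap_apply R L ΩL r
        by_cases hXa : X₀ = algebraMap R L a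
        · -- use the other two square roots
          set ρb := Split.rho (algebraMap R ΩL b) (algebraMap R ΩL a) (algebraMap R ΩL c) x y
            with hρb
          set ρc := Split.rho (algebraMap R ΩL c) (algebraMap R ΩL a) (algebraMap R ΩL b) x y
            with hρc
          have eb' : ρb ^ 2 = algebraMap L ΩL (algebraMap R L a - algebraMap R L b) := by
            rw [← eb, hX', hXa, map_sub, am b]
          have ec' : ρc ^ 2 = algebraMap L ΩL (algebraMap R L a - algebraMap R L c) := by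
            rw [← ec, hX', hXa, map_sub, am c]
          have hab : algebraMap R L a - algebraMap R L b ≠ 0 := sub_ne_zero.mpr hL.ab
          have hac : algebraMap R L a - algebraMap R L c ≠ 0 := sub_ne_zero.mpr hL.ac
          have hb0 : ρb ≠ 0 := by
            intro h
            rw [h] at eb'
            apply hab
            apply (algebraMap L ΩL).injective
            rw [← eb', map_zero]; ring
          have hc0 : ρc ≠ 0 := by
            intro h
            rw [h] at ec'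
            apply hac
            apply (algebraMap L ΩL).injective
            rw [← ec', map_zero]; ring
          obtain ⟨u, hu, hu'⟩ := concl (ρb * ρc) (mul_ne_zero hb0 hc0) (by
            intro g
            obtain ⟨T, hT, e1, e2⟩ := key g
            rw [map_mul, map_mul, e2, hrhob g T hT e1, hrhoc g T hT e1]
            have h3 := hΩL.chi_mul_chi hT
            have h3' : (hΩL.swap12.chi T : ΩL) * (hΩL.rot.rot.chi T : ΩL) = (hΩL.chi T : ΩL) := by
              exact_mod_cast congrArg (Int.cast : ℤ → ΩL) h3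
            linear_combination (hΩL.chi T : ΩL) * j β * ρb * ρc * h3' + j β * ρb * ρc * hchi2 T)
          refine ⟨u / ((algebraMap R L a - algebraMap R L b) *
            (algebraMap R L a - algebraMap R L c)), div_ne_zero hu (mul_ne_zero hab hac),
            Or.inr (Or.inr ?_)⟩
          rw [mul_pow, eb', ec', ← map_mul, ← map_mul, ← map_pow] at hu'
          have := (algebraMap L ΩL).injective hu'
          field_simp
          linear_combination this
        · set ρ := Split.rho (algebraMap R ΩL a) (algebraMap R ΩL b) (algebraMap R ΩL c) x y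
            with hρ
          have ea' : ρ ^ 2 = algebraMap L ΩL (X₀ - algebraMap R L a) := by
            rw [← ea, hX', map_sub, am a]
          have hXa' : X₀ - algebraMap R L a ≠ 0 := sub_ne_zero.mpr hXa
          have hρ0 : ρ ≠ 0 := by
            intro h
            rw [h] at ea'
            apply hXa'
            apply (algebraMap L ΩL).injective
            rw [← ea', map_zero]; ring
          obtain ⟨u, hu, hu'⟩ := concl ρ hρ0 (by
            intro g
            obtain ⟨T, hT, e1, e2⟩ := key g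
            rw [map_mul, e2, hrho g T hT e1]
            linear_combination (j β * ρ) * hchi2 T)
          refine ⟨u / (X₀ - algebraMap R L a), div_ne_zero hu hXa', Or.inr (Or.inl
            ⟨X₀, Y₀, eqn, hXa, ?_⟩)⟩
          rw [ea', ← map_mul, ← map_pow] at hu'
          have := (algebraMap L ΩL).injective hu'
          field_simp
          linear_combination this

end LocalRep

end Pool.Agent.Lib.MP_89bcae_ag

end

section

/-!
# Two-descent for the twists `D(t) y² = g(x) - t`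
-/

open Polynomial WeierstrassCurve WeierstrassCurve.Affine

open scoped Classical

namespace Pool.Agent.Lib.MP_89bcae_ag

set_option linter.unusedSectionVars false

/-- Over the field `A`, the curve `W` is `D(t) y² = g(x) - t` in Weierstrass form. -/
structure IsTwist {R F : Type*} [CommRing R] [Field F] (A : Type*) [Field A] [Algebra R A]
    [Algebra F[X] A] (W : Affine R) (g D : F[X]) : Prop where
  a₁ : algebraMap R A W.a₁ = 0
  a₂ : algebraMap R A W.a₂ = algebraMap F[X] A (C (g.coeff 2) * D)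
  a₃ : algebraMap R A W.a₃ = 0
  a₄ : algebraMap R A W.a₄ = algebraMap F[X] A (C (g.coeff 1) * D ^ 2)
  a₆ : algebraMap R A W.a₆ = algebraMap F[X] A ((C (g.coeff 0) - X) * D ^ 3)

section Twist

variable {R F : Type*} [CommRing R] [Field F] {A B : Type*} [Field A] [Algebra R A]
    [Algebra F[X] A] [Field B] [Algebra R B] [Algebra F[X] B] {W : Affine R} {g D : F[X]}

lemma IsTwist.short (h : IsTwist A W g D) : Short (W.baseChange A) :=
  ⟨h.a₁, h.a₃⟩

lemma ev_cubic (hg : g.Monic) (hdeg : g.natDegree = 3) (x : A) :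
    ev F A x g = x ^ 3 + algebraMap F[X] A (C (g.coeff 2)) * x ^ 2 +
      algebraMap F[X] A (C (g.coeff 1)) * x + algebraMap F[X] A (C (g.coeff 0)) := by
  unfold ev
  have h3 : g.coeff 3 = 1 := by rw [← hdeg]; exact hg.coeff_natDegree
  rw [coe_eval₂RingHom, eval₂_eq_sum_range, hdeg, Finset.sum_range_succ, Finset.sum_range_succ,
    Finset.sum_range_succ, Finset.sum_range_one, h3]
  simp only [RingHom.comp_apply, map_one, pow_zero, mul_one, pow_one, one_mul]
  ring

lemma eq_cubic (hg : g.Monic) (hdeg : g.natDegree = 3) :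
    g = X ^ 3 + C (g.coeff 2) * X ^ 2 + C (g.coeff 1) * X + C (g.coeff 0) := by
  have h3 : g.coeff 3 = 1 := by rw [← hdeg]; exact hg.coeff_natDegree
  conv_lhs => rw [g.as_sum_range_C_mul_X_pow, hdeg, Finset.sum_range_succ, Finset.sum_range_succ,
    Finset.sum_range_succ, Finset.sum_range_one, h3]
  simp only [map_one, pow_zero, mul_one, pow_one, one_mul]
  ring

lemma ev_derivative_cubic (hg : g.Monic) (hdeg : g.natDegree = 3) (x : A) :
    ev F A x (derivative g) = 3 * x ^ 2 + 2 * algebraMap F[X] A (C (g.coeff 2)) * x +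
      algebraMap F[X] A (C (g.coeff 1)) := by
  have h1 : derivative g = C 3 * X ^ 2 + C 2 * C (g.coeff 2) * X + C (g.coeff 1) := by
    conv_lhs => rw [eq_cubic hg hdeg]
    simp only [derivative_add, derivative_mul, derivative_X_pow, derivative_C, derivative_X]
    simp only [Nat.cast_ofNat, map_ofNat]
    ring
  have h3 : (C (3 : F) : F[X]) = 3 := map_ofNat C 3
  have h2 : (C (2 : F) : F[X]) = 2 := map_ofNat C 2
  rw [h1, h2, h3]
  simp only [map_add, map_mul, map_pow, ev_C, ev_X, map_ofNat]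

lemma IsTwist.rt (h : IsTwist A W g D) (hg : g.Monic) (hdeg : g.natDegree = 3) {θ : A}
    (hθ : θ ∈ RootSet g) : Rt (W.baseChange A) (algebraMap F[X] A D * θ) := by
  have h1 : ev F A θ g = algebraMap F[X] A X := hθ
  rw [ev_cubic hg hdeg] at h1
  change (algebraMap F[X] A D * θ) ^ 3 + algebraMap R A W.a₂ * (algebraMap F[X] A D * θ) ^ 2 +
    algebraMap R A W.a₄ * (algebraMap F[X] A D * θ) + algebraMap R A W.a₆ = 0
  rw [h.a₂, h.a₄, h.a₆]
  simp only [map_mul, map_pow, map_sub]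
  linear_combination (algebraMap F[X] A D) ^ 3 * h1

end Twist

section Kummer

variable {R F L Ω : Type*} [CommRing R] [Field F] [IsAlgClosed F] [Field L] [Field Ω]
  [Algebra F[X] L] [IsFractionRing F[X] L] [Algebra L Ω] [Algebra F[X] Ω] [IsScalarTower F[X] L Ω]
  [Algebra R L] [Algebra R Ω] [IsScalarTower R L Ω] {W : Affine R} {g D : F[X]}
  [IsGalois L Ω] [IsSepClosed Ω] [DecidableEq Ω]

/-- the descent functions of a two-torsion cocycle -/
structure IsDesc (W : Affine R) (g D : F[X]) (c : (Ω ≃ₐ[L] Ω) → (W.baseChange Ω).Point)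
    (Z : Finset F) (b : Ω → Ω) : Prop where
  sq : ∀ θ ∈ RootSet (Ω := Ω) g, b θ ^ 2 = ∏ β ∈ Z, (θ - algebraMap F[X] Ω (C β))
  act : ∀ θ ∈ RootSet (Ω := Ω) g, ∀ σ : Ω ≃ₐ[L] Ω,
    σ (b θ) = rho (algebraMap F[X] Ω D * σ θ) (c σ) * b (σ θ)

lemma map_D (σ : Ω ≃ₐ[L] Ω) (D : F[X]) : σ (algebraMap F[X] Ω D) = algebraMap F[X] Ω D := by
  rw [IsScalarTower.algebraMap_apply F[X] L Ω]
  exact σ.commutes _

variable (L) in
include L in
lemma root_sub_ne_zero {θ : Ω} (hθ : θ ∈ RootSet (Ω := Ω) g) (β : F) :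
    θ - algebraMap F[X] Ω (C β) ≠ 0 := by
  intro h
  have h1 : ev F Ω θ (X - C β) = 0 := by rw [map_sub, ev_X, ev_C, h]
  have h2 := ev_injective L hθ (h1.trans (map_zero _).symm)
  exact X_sub_C_ne_zero β h2

/-- Existence of the descent functions. -/
lemma exists_desc (h2 : (2 : Ω) ≠ 0) (hW : IsTwist Ω W g D) (hg : g.Monic)
    (hdeg : g.natDegree = 3) (hd : derivative g ≠ 0)
    (c : (Ω ≃ₐ[L] Ω) → (W.baseChange Ω).Point) (hc : ∀ σ, 2 • c σ = 0)
    (hmul : ∀ σ τ : Ω ≃ₐ[L] Ω, c (σ * τ) = c σ + Point.map (σ : Ω →ₐ[L] Ω) (c τ))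
    (hloc : IsLocallyConstant c) :
    ∃ (Z : Finset F) (b : Ω → Ω), IsDesc W g D c Z b := by
  have hshort := hW.short
  obtain ⟨θ₁, θ₂, θ₃, -, -, -, hR, -, -⟩ := exists_three_roots (F := F) L (Ω := Ω) hg hdeg hd
  have hθ₁ : θ₁ ∈ RootSet (Ω := Ω) g := (hR θ₁).mpr (Or.inl rfl)
  set d := algebraMap F[X] Ω D with hdd
  have hrt : ∀ θ ∈ RootSet (Ω := Ω) g, Rt (W.baseChange Ω) (d * θ) :=
    fun θ hθ => hW.rt hg hdeg hθ
  have hσd : ∀ σ : Ω ≃ₐ[L] Ω, σ d = d := fun σ => map_D σ D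
  -- the sign functions
  obtain ⟨b, hb0, hb⟩ := exists_descent_fun (L := L) (RootSet (Ω := Ω) g)
    (fun θ hθ σ => map_mem_rootSet σ hθ)
    (fun θ hθ θ' hθ' => rootSet_transitive hg hdeg hθ hθ') ⟨θ₁, hθ₁⟩
    (fun θ σ => rho (d * θ) (c σ))
    (fun θ _ σ => rho_two_torsion_sq hshort h2 (d * θ) (hc σ))
    (by
      intro θ hθ σ τ
      have hθ' := map_mem_rootSet σ hθ
      have h3 : 2 • Point.map (W' := W) (σ : Ω →ₐ[L] Ω) (c τ) = 0 := by
        rw [← map_nsmul, hc, map_zero]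
      rw [hmul, rho_add hshort h2 (hrt _ hθ') _ _ h3]
      congr 1
      have h4 : d * σ θ = (σ : Ω →ₐ[L] Ω) (d * θ) := by
        simp [hσd]
      rw [h4, rho_map]
      rcases rho_two_torsion_sq hshort h2 (d * θ) (hc τ) with h | h <;> simp [h])
    (fun θ _ => hloc.comp (rho (d * θ)))
  have hsgn : ∀ (θ : Ω) σ, rho (d * θ) (c σ) * rho (d * θ) (c σ) = 1 :=
    fun θ σ => rho_two_torsion_mul_self hshort h2 _ (hc σ)
  -- the square of `b` is a rational function
  obtain ⟨p, q, hq, hpq⟩ := exists_rational_of_fixed (L := L) hθ₁ (x := b θ₁ ^ 2) (by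
    intro σ hσ
    rw [map_pow, hb θ₁ hθ₁, hσ, mul_pow, pow_two (rho _ _), hsgn, one_mul])
  have hinj : ∀ θ ∈ RootSet (Ω := Ω) g, Function.Injective (ev F Ω θ) :=
    fun θ hθ => ev_injective L hθ
  have hp : p ≠ 0 := by
    rintro rfl
    rw [map_zero, mul_eq_zero] at hpq
    rcases hpq with h | h
    · exact hb0 θ₁ hθ₁ (pow_eq_zero_iff two_ne_zero |>.mp h)
    · exact hq (hinj θ₁ hθ₁ (h.trans (map_zero _).symm))
  obtain ⟨S, Z, hS, hSZ⟩ := exists_sq_mul_prod (p * q) (mul_ne_zero hp hq)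
  have hne : ∀ θ ∈ RootSet (Ω := Ω) g, ∀ r : F[X], r ≠ 0 → ev F Ω θ r ≠ 0 :=
    fun θ hθ r hr h => hr (hinj θ hθ (h.trans (map_zero _).symm))
  refine ⟨Z, fun θ => b θ * ev F Ω θ q / ev F Ω θ S, ?_, ?_⟩
  · intro θ hθ
    obtain ⟨σ, rfl⟩ := rootSet_transitive (L := L) hg hdeg hθ₁ hθ
    have h5 : b (σ θ₁) ^ 2 * ev F Ω (σ θ₁) q = ev F Ω (σ θ₁) p := by
      have h6 := congrArg σ hpq
      rw [map_mul, map_pow, hb θ₁ hθ₁, mul_pow, pow_two (rho _ _), hsgn, one_mul, ev_map,
        ev_map] at h6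
      exact h6
    have h7 : ev F Ω (σ θ₁) p * ev F Ω (σ θ₁) q =
        ev F Ω (σ θ₁) S ^ 2 * ∏ β ∈ Z, (σ θ₁ - algebraMap F[X] Ω (C β)) := by
      rw [← map_mul, hSZ, map_mul, map_pow, map_prod]
      congr 1
      apply Finset.prod_congr rfl
      intro β _
      rw [map_sub, ev_X, ev_C]
    have h8 := hne _ hθ S hS
    rw [div_pow, div_eq_iff (pow_ne_zero 2 h8), mul_pow]
    linear_combination (ev F Ω (σ θ₁) q) * h5 + h7
  · intro θ hθ σ
    rw [map_div₀, map_mul, hb θ hθ, ev_map, ev_map]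
    ring

lemma ev_const (β : F) (p : F[X]) :
    ev F Ω (algebraMap F[X] Ω (C β)) p = algebraMap F[X] Ω (C (p.eval β)) := by
  have h : (ev F Ω (algebraMap F[X] Ω (C β))) =
      (algebraMap F[X] Ω).comp (C.comp (evalRingHom β)) := by
    apply Polynomial.ringHom_ext
    · intro b
      simp [ev_C]
    · simp [ev_X]
  rw [h]; rfl

/-- A product over the three roots is invariant under the Galois group. -/
lemma prod_roots_map {T : Finset Ω} (hT : ∀ θ, θ ∈ T ↔ θ ∈ RootSet (Ω := Ω) g)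
    (σ : Ω ≃ₐ[L] Ω) (f : Ω → Ω) : ∏ θ ∈ T, f (σ θ) = ∏ θ ∈ T, f θ := by
  apply Finset.prod_nbij' (fun θ => σ θ) (fun θ => σ.symm θ)
  · intro θ hθ
    exact (hT _).mpr (map_mem_rootSet σ ((hT _).mp hθ))
  · intro θ hθ
    exact (hT _).mpr (map_mem_rootSet σ.symm ((hT _).mp hθ))
  · intro θ _; simp
  · intro θ _; simp
  · intro θ _; rfl

variable (L) in
include L in
lemma algebraMap_ne_zero_Om {D : F[X]} (hD : D ≠ 0) : algebraMap F[X] Ω D ≠ 0 :=
  fun h => hD (algebraMap_Om_injective (F := F) L (Ω := Ω) (h.trans (map_zero _).symm))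

variable (L) in
include L in
/-- The product over the roots of the three signs of a two-torsion point is `1`. -/
lemma prod_rho_roots (h2 : (2 : Ω) ≠ 0) (hW : IsTwist Ω W g D) (hg : g.Monic)
    (hdeg : g.natDegree = 3) (hd : derivative g ≠ 0) (hD : D ≠ 0) {T : Finset Ω}
    (hT : ∀ θ, θ ∈ T ↔ θ ∈ RootSet (Ω := Ω) g) {P : (W.baseChange Ω).Point} (hP : 2 • P = 0) :
    ∏ θ ∈ T, rho (algebraMap F[X] Ω D * θ) P = 1 := by
  obtain ⟨θ₁, θ₂, θ₃, h12, h13, h23, hR, -, -⟩ :=
    exists_three_roots (F := F) L (Ω := Ω) hg hdeg hd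
  have hT' : T = {θ₁, θ₂, θ₃} := by
    ext θ
    rw [hT, hR]
    simp
  have hd0 : algebraMap F[X] Ω D ≠ 0 := algebraMap_ne_zero_Om L hD
  rw [hT', Finset.prod_insert (by simp [h12, h13]), Finset.prod_insert (by simp [h23]),
    Finset.prod_singleton, ← mul_assoc]
  apply prod_rho hW.short h2 (hW.rt hg hdeg ((hR θ₁).mpr (Or.inl rfl)))
    (hW.rt hg hdeg ((hR θ₂).mpr (Or.inr (Or.inl rfl))))
    (hW.rt hg hdeg ((hR θ₃).mpr (Or.inr (Or.inr rfl)))) _ _ _ hP
  · exact fun h => h12 (mul_left_cancel₀ hd0 h)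
  · exact fun h => h13 (mul_left_cancel₀ hd0 h)
  · exact fun h => h23 (mul_left_cancel₀ hd0 h)

/-- The product of the descent functions is rational. -/
lemma IsDesc.exists_norm {c : (Ω ≃ₐ[L] Ω) → (W.baseChange Ω).Point} {Z : Finset F} {b : Ω → Ω}
    (h : IsDesc W g D c Z b) (h2 : (2 : Ω) ≠ 0) (hW : IsTwist Ω W g D) (hg : g.Monic)
    (hdeg : g.natDegree = 3) (hd : derivative g ≠ 0) (hD : D ≠ 0) (hc : ∀ σ, 2 • c σ = 0)
    {T : Finset Ω} (hT : ∀ θ, θ ∈ T ↔ θ ∈ RootSet (Ω := Ω) g) :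
    (∀ σ : Ω ≃ₐ[L] Ω, σ (∏ θ ∈ T, b θ) = ∏ θ ∈ T, b θ) ∧
      (∏ θ ∈ T, b θ) ^ 2 = algebraMap F[X] Ω (∏ β ∈ Z, (X - C (g.eval β))) := by
  constructor
  · intro σ
    rw [map_prod]
    have h1 : ∏ θ ∈ T, σ (b θ) =
        ∏ θ ∈ T, (rho (algebraMap F[X] Ω D * σ θ) (c σ) * b (σ θ)) :=
      Finset.prod_congr rfl fun θ hθ => h.act θ ((hT θ).mp hθ) σ
    rw [h1, prod_roots_map hT σ (fun θ => rho (algebraMap F[X] Ω D * θ) (c σ) * b θ),
      Finset.prod_mul_distrib, prod_rho_roots L h2 hW hg hdeg hd hD hT (hc σ), one_mul]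
  · obtain ⟨θ₁, θ₂, θ₃, h12, h13, h23, hR, heval, -⟩ :=
      exists_three_roots (F := F) L (Ω := Ω) hg hdeg hd
    have hT' : T = {θ₁, θ₂, θ₃} := by
      ext θ
      rw [hT, hR]
      simp
    rw [← Finset.prod_pow, Finset.prod_congr rfl fun θ hθ => h.sq θ ((hT θ).mp hθ),
      Finset.prod_comm, map_prod]
    apply Finset.prod_congr rfl
    intro β _
    have h3 := heval (algebraMap F[X] Ω (C β))
    rw [ev_const] at h3
    rw [hT', Finset.prod_insert (by simp [h12, h13]), Finset.prod_insert (by simp [h23]),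
      Finset.prod_singleton, map_sub]
    linear_combination h3

/-- The fibres of `g` meet `Z` in sets of even size. -/
lemma IsDesc.even {c : (Ω ≃ₐ[L] Ω) → (W.baseChange Ω).Point} {Z : Finset F} {b : Ω → Ω}
    (h : IsDesc W g D c Z b) (h2 : (2 : Ω) ≠ 0) (hW : IsTwist Ω W g D) (hg : g.Monic)
    (hdeg : g.natDegree = 3) (hd : derivative g ≠ 0) (hD : D ≠ 0) (hc : ∀ σ, 2 • c σ = 0)
    (α : F) : Even (Z.filter fun β => g.eval β = α).card := by
  obtain ⟨θ₁, θ₂, θ₃, -, -, -, hR, -, -⟩ := exists_three_roots (F := F) L (Ω := Ω) hg hdeg hd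
  have hT : ∀ θ, θ ∈ ({θ₁, θ₂, θ₃} : Finset Ω) ↔ θ ∈ RootSet (Ω := Ω) g := by
    intro θ
    rw [hR]
    simp
  obtain ⟨e1, e2⟩ := h.exists_norm h2 hW hg hdeg hd hD hc hT
  obtain ⟨y, hy⟩ := (InfiniteGalois.mem_range_algebraMap_iff_fixed (k := L) _).mpr e1
  obtain ⟨p, q, hq, rfl⟩ := IsFractionRing.div_surjective (A := F[X]) y
  have hq0 : q ≠ 0 := nonZeroDivisors.ne_zero hq
  apply even_card_of_sq Z (fun β => g.eval β) hq0 (p := p)
  apply IsFractionRing.injective F[X] L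
  apply (algebraMap L Ω).injective
  rw [← IsScalarTower.algebraMap_apply, ← IsScalarTower.algebraMap_apply, map_mul, ← e2, ← hy,
    map_div₀, ← IsScalarTower.algebraMap_apply, ← IsScalarTower.algebraMap_apply, map_pow, map_pow]
  have := algebraMap_ne_zero_Om (F := F) L (Ω := Ω) hq0
  field_simp

variable (L) in
include L in
/-- A two-torsion point with prescribed signs. -/
lemma exists_point_signs (h2 : (2 : Ω) ≠ 0) (hW : IsTwist Ω W g D) (hg : g.Monic)
    (hdeg : g.natDegree = 3) (hd : derivative g ≠ 0) (hD : D ≠ 0) {T : Finset Ω}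
    (hT : ∀ θ, θ ∈ T ↔ θ ∈ RootSet (Ω := Ω) g) (s : Ω → Ω) (hs : ∀ θ ∈ T, s θ = 1 ∨ s θ = -1)
    (hprod : ∏ θ ∈ T, s θ = 1) :
    ∃ P : (W.baseChange Ω).Point, 2 • P = 0 ∧
      ∀ θ ∈ T, rho (algebraMap F[X] Ω D * θ) P = s θ := by
  obtain ⟨θ₁, θ₂, θ₃, h12, h13, h23, hR, -, -⟩ :=
    exists_three_roots (F := F) L (Ω := Ω) hg hdeg hd
  have hT' : T = {θ₁, θ₂, θ₃} := by
    ext θ
    rw [hT, hR]
    simp
  subst hT'
  have hd0 : algebraMap F[X] Ω D ≠ 0 := algebraMap_ne_zero_Om L hD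
  rw [Finset.prod_insert (by simp [h12, h13]), Finset.prod_insert (by simp [h23]),
    Finset.prod_singleton, ← mul_assoc] at hprod
  obtain ⟨P, hP, r1, r2, r3⟩ := exists_two_torsion hW.short h2
    (hW.rt hg hdeg ((hR θ₁).mpr (Or.inl rfl)))
    (hW.rt hg hdeg ((hR θ₂).mpr (Or.inr (Or.inl rfl))))
    (hW.rt hg hdeg ((hR θ₃).mpr (Or.inr (Or.inr rfl))))
    (fun h => h12 (mul_left_cancel₀ hd0 h)) (fun h => h13 (mul_left_cancel₀ hd0 h))
    (fun h => h23 (mul_left_cancel₀ hd0 h)) (s θ₁) (s θ₂) (s θ₃)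
    (hs _ (by simp)) (hs _ (by simp)) (hs _ (by simp)) hprod
  refine ⟨P, hP, ?_⟩
  intro θ hθ
  simp only [Finset.mem_insert, Finset.mem_singleton] at hθ
  rcases hθ with rfl | rfl | rfl
  · exact r1
  · exact r2
  · exact r3

variable (L) in
include L in
/-- A two-torsion point is determined by its signs. -/
lemma eq_of_signs (h2 : (2 : Ω) ≠ 0) (hW : IsTwist Ω W g D) (hg : g.Monic)
    (hdeg : g.natDegree = 3) (hd : derivative g ≠ 0) (hD : D ≠ 0)
    {P Q : (W.baseChange Ω).Point} (hP : 2 • P = 0) (hQ : 2 • Q = 0)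
    (h : ∀ θ ∈ RootSet (Ω := Ω) g, rho (algebraMap F[X] Ω D * θ) P =
      rho (algebraMap F[X] Ω D * θ) Q) : P = Q := by
  obtain ⟨θ₁, θ₂, θ₃, h12, h13, h23, hR, -, -⟩ :=
    exists_three_roots (F := F) L (Ω := Ω) hg hdeg hd
  have hd0 : algebraMap F[X] Ω D ≠ 0 := algebraMap_ne_zero_Om L hD
  have h1 : θ₁ ∈ RootSet (Ω := Ω) g := (hR θ₁).mpr (Or.inl rfl)
  have h1' : θ₂ ∈ RootSet (Ω := Ω) g := (hR θ₂).mpr (Or.inr (Or.inl rfl))
  have hQ' : 2 • (-Q) = 0 := by rw [smul_neg, hQ, neg_zero]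
  have hnQ : -Q = Q := by
    have : Q + Q = 0 := by rw [← two_nsmul]; exact hQ
    exact neg_eq_of_add_eq_zero_left this
  have h3 : P - Q = 0 := by
    apply eq_zero_of_rho_eq_one hW.short h2 (e₁ := algebraMap F[X] Ω D * θ₁)
      (e₂ := algebraMap F[X] Ω D * θ₂) (fun h => h12 (mul_left_cancel₀ hd0 h))
    · rw [smul_sub, hP, hQ, sub_zero]
    · rw [sub_eq_add_neg, rho_add hW.short h2 (hW.rt hg hdeg h1) _ _ hQ', hnQ, h _ h1]
      exact rho_two_torsion_mul_self hW.short h2 _ hQ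
    · rw [sub_eq_add_neg, rho_add hW.short h2 (hW.rt hg hdeg h1') _ _ hQ', hnQ, h _ h1']
      exact rho_two_torsion_mul_self hW.short h2 _ hQ
  exact sub_eq_zero.mp h3

/-- The signs of the image of a two-torsion point under an automorphism. -/
lemma rho_map_two_torsion (h2 : (2 : Ω) ≠ 0) (hW : IsTwist Ω W g D)
    (σ : Ω ≃ₐ[L] Ω) (θ : Ω) {P : (W.baseChange Ω).Point} (hP : 2 • P = 0) :
    rho (algebraMap F[X] Ω D * σ θ) (Point.map (W' := W) (σ : Ω →ₐ[L] Ω) P) =
      rho (algebraMap F[X] Ω D * θ) P := by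
  have h4 : algebraMap F[X] Ω D * σ θ = (σ : Ω →ₐ[L] Ω) (algebraMap F[X] Ω D * θ) := by
    simp [map_D]
  rw [h4, rho_map]
  rcases rho_two_torsion_sq hW.short h2 (algebraMap F[X] Ω D * θ) hP with h | h <;> simp [h]

/-- If `Z` is empty, the cocycle is a coboundary. -/
lemma IsDesc.coboundary {c : (Ω ≃ₐ[L] Ω) → (W.baseChange Ω).Point} {b : Ω → Ω}
    (h : IsDesc W g D c (∅ : Finset F) b) (h2 : (2 : Ω) ≠ 0) (hW : IsTwist Ω W g D) (hg : g.Monic)
    (hdeg : g.natDegree = 3) (hd : derivative g ≠ 0) (hD : D ≠ 0) (hc : ∀ σ, 2 • c σ = 0) :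
    ∃ P : (W.baseChange Ω).Point, 2 • P = 0 ∧
      ∀ σ : Ω ≃ₐ[L] Ω, c σ = Point.map (σ : Ω →ₐ[L] Ω) P - P := by
  obtain ⟨θ₁, θ₂, θ₃, h12, h13, h23, hR, -, -⟩ :=
    exists_three_roots (F := F) L (Ω := Ω) hg hdeg hd
  have hT : ∀ θ, θ ∈ ({θ₁, θ₂, θ₃} : Finset Ω) ↔ θ ∈ RootSet (Ω := Ω) g := by
    intro θ
    rw [hR]
    simp
  have hb : ∀ θ ∈ RootSet (Ω := Ω) g, b θ = 1 ∨ b θ = -1 := by
    intro θ hθ
    have := h.sq θ hθ
    rw [Finset.prod_empty] at this
    exact mul_self_eq_one_iff.mp (by rw [← pow_two]; exact this)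
  set ε := ∏ θ ∈ ({θ₁, θ₂, θ₃} : Finset Ω), b θ with hε
  have hε' : ε = b θ₁ * b θ₂ * b θ₃ := by
    rw [hε, Finset.prod_insert (by simp [h12, h13]), Finset.prod_insert (by simp [h23]),
      Finset.prod_singleton, ← mul_assoc]
  have hm1 : θ₁ ∈ RootSet (Ω := Ω) g := (hR θ₁).mpr (Or.inl rfl)
  have hm2 : θ₂ ∈ RootSet (Ω := Ω) g := (hR θ₂).mpr (Or.inr (Or.inl rfl))
  have hm3 : θ₃ ∈ RootSet (Ω := Ω) g := (hR θ₃).mpr (Or.inr (Or.inr rfl))
  have hεs : ε = 1 ∨ ε = -1 := by
    rw [hε']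
    rcases hb _ hm1 with e1 | e1 <;> rcases hb _ hm2 with e2 | e2 <;>
      rcases hb _ hm3 with e3 | e3 <;> simp [e1, e2, e3]
  obtain ⟨P, hP, hPs⟩ := exists_point_signs L h2 hW hg hdeg hd hD hT (fun θ => ε * b θ)
    (by
      intro θ hθ
      rcases hεs with e1 | e1 <;> rcases hb _ ((hT θ).mp hθ) with e2 | e2 <;> simp [e1, e2])
    (by
      rw [Finset.prod_mul_distrib, ← hε, Finset.prod_const,
        Finset.card_insert_of_notMem (by simp [h12, h13]),
        Finset.card_insert_of_notMem (by simp [h23]), Finset.card_singleton]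
      rcases hεs with e1 | e1 <;> rw [e1] <;> norm_num)
  refine ⟨P, hP, fun σ => ?_⟩
  have hσP : 2 • Point.map (W' := W) (σ : Ω →ₐ[L] Ω) P = 0 := by
    rw [← map_nsmul, hP, map_zero]
  have hnP : -P = P := by
    have : P + P = 0 := by rw [← two_nsmul]; exact hP
    exact neg_eq_of_add_eq_zero_left this
  apply eq_of_signs L h2 hW hg hdeg hd hD (hc σ) (by rw [smul_sub, hσP, hP, sub_zero])
  intro θ' hθ'
  obtain ⟨θ, rfl⟩ : ∃ θ, σ θ = θ' := ⟨σ.symm θ', σ.apply_symm_apply θ'⟩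
  have hθ : θ ∈ RootSet (Ω := Ω) g := by
    have := map_mem_rootSet σ.symm hθ'
    rwa [σ.symm_apply_apply] at this
  rw [sub_eq_add_neg, rho_add hW.short h2 (hW.rt hg hdeg hθ') _ _ (by rw [hnP]; exact hP), hnP,
    rho_map_two_torsion h2 hW σ θ hP, hPs θ ((hT θ).mpr hθ), hPs (σ θ) ((hT _).mpr hθ')]
  have h5 := h.act θ hθ σ
  have h6 : σ (b θ) = b θ := by
    rcases hb _ hθ with e | e <;> simp [e]
  rw [h6] at h5
  rw [h5]
  have h7 : b (σ θ) * b (σ θ) = 1 := by
    rcases hb _ hθ' with e | e <;> simp [e]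
  have h8 : ε * ε = 1 := by
    rcases hεs with e | e <;> simp [e]
  linear_combination (-(rho (algebraMap F[X] Ω D * σ θ) (c σ)) * b (σ θ) * b (σ θ)) * h8 -
    (rho (algebraMap F[X] Ω D * σ θ) (c σ)) * h7

end Kummer

end Pool.Agent.Lib.MP_89bcae_ag

end

section

open NumberField Polynomial

namespace Pool.Agent.Lib.MP_89bcae_ag.Re

/-- A primitive root of unity stays primitive modulo large primes. Proof: `ℓ` is prime, so it is
enough that `φ ζ ≠ 1` (`IsPrimitiveRoot.of_map_of_injective`... or `orderOf_eq_prime`); if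
`φ ζ = 1` then, since `1 + ζ + ... + ζ ^ (ℓ - 1) = 0` (`IsPrimitiveRoot.geom_sum_eq_zero`),
`φ` of it gives `(ℓ : ZMod q) = 0`, so `q ∣ ℓ` and `q = ℓ`. -/
theorem isPrimitiveRoot_map {K : Type*} [Field K] [NumberField K] {ℓ : ℕ} (hℓ : ℓ.Prime)
    {ζ : 𝓞 K} (hζ : IsPrimitiveRoot ζ ℓ) {q : ℕ} [Fact q.Prime] (hq : ℓ < q)
    (φ : 𝓞 K →+* ZMod q) : IsPrimitiveRoot (φ ζ) ℓ := by
  haveI : Fact ℓ.Prime := ⟨hℓ⟩
  have h1 : (φ ζ) ^ ℓ = 1 := by rw [← map_pow, hζ.pow_eq_one, map_one]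
  have hne : φ ζ ≠ 1 := by
    intro h
    have hs := hζ.geom_sum_eq_zero hℓ.one_lt
    have h2 := congrArg φ hs
    simp only [map_sum, map_pow, h, one_pow, Finset.sum_const, Finset.card_range, nsmul_eq_mul,
      mul_one, map_zero] at h2
    have h3 : q ∣ ℓ := (ZMod.natCast_eq_zero_iff ℓ q).1 h2
    have h4 := Nat.le_of_dvd hℓ.pos h3
    omega
  have h5 := orderOf_eq_prime h1 hne
  have h6 := IsPrimitiveRoot.orderOf (φ ζ)
  rwa [h5] at h6

/-- Proof: for each `φ` choose `c` with `c ^ ℓ = φ b ≠ 0`; the `ℓ` elements `φ(ζ)^i c`, `i < ℓ`, are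
distinct (`isPrimitiveRoot_map`) with the same power; `exists_extension` gives `ψ_(φ,i)` with
restriction `φ` and value `φ(ζ)^i c` at `α`: an injective map from `(𝓞 K →+* ZMod q) × Fin ℓ` to
`𝓞 K' →+* ZMod q`; `idealCount_eq_card`, `Nat.card_le_card_of_injective`, `finite_ringHom`. -/
theorem mul_idealCount_le (K K' : Type*) [Field K] [NumberField K] [Field K'] [NumberField K']
    [Algebra K K'] {ℓ : ℕ} (hℓ : ℓ.Prime) {ζ : 𝓞 K} (hζ : IsPrimitiveRoot ζ ℓ) {b : 𝓞 K} {α : 𝓞 K'}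
    (hb : α ^ ℓ = algebraMap (𝓞 K) (𝓞 K') b) (hirr : Irreducible (X ^ ℓ - C (b : K)))
    {M : ℕ} (hM : ∀ y : 𝓞 K', ∃ p : (𝓞 K)[X], (M : 𝓞 K') * y = aeval α p)
    {q : ℕ} [Fact q.Prime] (hqM : ¬ q ∣ M) (hqℓ : ℓ < q)
    (hφ : ∀ φ : 𝓞 K →+* ZMod q, φ b ≠ 0 ∧ ∃ c : ZMod q, c ^ ℓ = φ b) :
    ℓ * idealCount K q ≤ idealCount K' q := by
  classical
  rw [idealCount_eq_card K q, idealCount_eq_card K' q]
  haveI := finite_ringHom K q
  haveI := finite_ringHom K' q
  choose hb0 c hc using hφ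
  have hext : ∀ (φ : 𝓞 K →+* ZMod q) (i : Fin ℓ), ∃ ψ : 𝓞 K' →+* ZMod q,
      (∀ x : 𝓞 K, ψ (algebraMap (𝓞 K) (𝓞 K') x) = φ x) ∧ ψ α = (φ ζ) ^ (i : ℕ) * c φ := by
    intro φ i
    refine exists_extension K K' hℓ.pos hb hirr hM hqM φ ?_
    rw [mul_pow, ← pow_mul, mul_comm (i : ℕ), pow_mul,
      (isPrimitiveRoot_map hℓ hζ hqℓ φ).pow_eq_one, one_pow, one_mul, hc]
  choose ψ hψ1 hψ2 using hext
  have hinj : Function.Injective (fun p : (𝓞 K →+* ZMod q) × Fin ℓ => ψ p.1 p.2) := by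
    rintro ⟨φ, i⟩ ⟨φ', j⟩ h
    have h' : ψ φ i = ψ φ' j := h
    have hφφ' : φ = φ' := RingHom.ext fun x => by rw [← hψ1 φ i x, h', hψ1]
    subst hφφ'
    have h2 : (φ ζ) ^ (i : ℕ) * c φ = (φ ζ) ^ (j : ℕ) * c φ := by
      rw [← hψ2 φ i, h', hψ2]
    have hc0 : c φ ≠ 0 := by
      intro h0
      apply hb0 φ
      rw [← hc φ, h0, zero_pow hℓ.ne_zero]
    have h3 := mul_right_cancel₀ hc0 h2
    have h4 := (isPrimitiveRoot_map hℓ hζ hqℓ φ).pow_inj i.2 j.2 h3
    exact Prod.ext rfl (Fin.ext h4)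
  have h7 := Nat.card_le_card_of_injective _ hinj
  rw [Nat.card_prod, Nat.card_fin] at h7
  rw [mul_comm]
  exact h7

end Pool.Agent.Lib.MP_89bcae_ag.Re

end

section

/-!
# Tate module cocycles: division by two
-/

open Polynomial WeierstrassCurve WeierstrassCurve.Affine

namespace Pool.Agent.Lib.MP_89bcae_ag

section Basic

variable {R F Ω : Type*} [CommRing R] [Field F] [Field Ω] [Algebra R F] [Algebra R Ω]
  [Algebra F Ω] [IsScalarTower R F Ω] [DecidableEq Ω] {W : Affine R}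

/-- A continuous cocycle with values in the two-adic Tate module. -/
structure TC (W : Affine R) (c : ℕ → (Ω ≃ₐ[F] Ω) → (W.baseChange Ω).Point) : Prop where
  zero : ∀ g, c 0 g = 0
  two : ∀ n g, 2 • c (n + 1) g = c n g
  mul : ∀ n g h, c n (g * h) = c n g + Point.map (W' := W) (g : Ω →ₐ[F] Ω) (c n h)
  loc : ∀ n, IsLocallyConstant (c n)

/-- The class is fixed by `γ` up to torsion. -/
def InvMT (W : Affine R) (c : ℕ → (Ω ≃ₐ[F] Ω) → (W.baseChange Ω).Point) (γ : Ω ≃ₐ[R] Ω) : Prop :=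
  ∃ m : ℕ, 0 < m ∧ ∀ n, ∃ A : (W.baseChange Ω).Point, 2 ^ n • A = 0 ∧
    ∀ g h : Ω ≃ₐ[F] Ω, (∀ x, γ (g x) = h (γ x)) →
      m • (Point.map (W' := W) (γ : Ω →ₐ[R] Ω) (c n g) - c n h) =
        Point.map (W' := W) (h : Ω →ₐ[F] Ω) A - A

/-- The stabilizer of an algebraic element is open. -/
lemma isLocallyConstant_apply8 [Algebra.IsAlgebraic F Ω] (x : Ω) :
    IsLocallyConstant (fun g : Ω ≃ₐ[F] Ω => g x) := by
  rw [IsLocallyConstant.iff_exists_open]
  intro g
  have hfin : FiniteDimensional F (IntermediateField.adjoin F {x}) :=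
    IntermediateField.adjoin.finiteDimensional (Algebra.IsIntegral.isIntegral x)
  have hopen := IntermediateField.fixingSubgroup_isOpen (IntermediateField.adjoin F {x})
  refine ⟨(fun h => g⁻¹ * h) ⁻¹' ((IntermediateField.adjoin F {x}).fixingSubgroup :
    Set (Ω ≃ₐ[F] Ω)), hopen.preimage (continuous_const_mul g⁻¹), ?_, ?_⟩
  · simp only [Set.mem_preimage, inv_mul_cancel]
    exact Subgroup.one_mem _
  · intro h hh
    have h1 := (IntermediateField.mem_fixingSubgroup_iff _ _).mp hh x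
      (IntermediateField.mem_adjoin_simple_self F x)
    have h2 : g ((g⁻¹ * h) x) = g x := by rw [h1]
    rwa [← AlgEquiv.mul_apply, mul_inv_cancel_left] at h2

lemma isLocallyConstant_map8 [Algebra.IsAlgebraic F Ω] (Q : (W.baseChange Ω).Point) :
    IsLocallyConstant (fun g : Ω ≃ₐ[F] Ω => Point.map (W' := W) (g : Ω →ₐ[F] Ω) Q) := by
  rcases Q with _ | ⟨x, y, h⟩
  · exact IsLocallyConstant.const 0
  · have h1 := isLocallyConstant_apply8 (F := F) x
    have h2 := isLocallyConstant_apply8 (F := F) y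
    rw [IsLocallyConstant.iff_exists_open] at h1 h2 ⊢
    intro g
    obtain ⟨U, hU, hgU, h1'⟩ := h1 g
    obtain ⟨V, hV, hgV, h2'⟩ := h2 g
    refine ⟨U ∩ V, hU.inter hV, ⟨hgU, hgV⟩, ?_⟩
    intro h hh
    rw [Point.map_some, Point.map_some]
    simp only [Point.some.injEq]
    exact ⟨h1' h hh.1, h2' h hh.2⟩

/-- A point fixed by the Galois group is rational. -/
lemma exists_point_of_fixed8 [DecidableEq F] [IsGalois F Ω] (Q : (W.baseChange Ω).Point)
    (h : ∀ g : Ω ≃ₐ[F] Ω, Point.map (W' := W) (g : Ω →ₐ[F] Ω) Q = Q) :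
    ∃ P : (W.baseChange F).Point, Point.map (W' := W) (Algebra.ofId F Ω) P = Q := by
  rcases Q with _ | ⟨x, y, hxy⟩
  · exact ⟨0, rfl⟩
  · have h' : ∀ g : Ω ≃ₐ[F] Ω, g x = x ∧ g y = y := by
      intro g
      have := h g
      rw [Point.map_some] at this
      simp only [Point.some.injEq] at this
      exact this
    obtain ⟨x₀, hx₀⟩ := exists_of_fixed (F := F) (x := x) (fun g => (h' g).1)
    obtain ⟨y₀, hy₀⟩ := exists_of_fixed (F := F) (x := y) (fun g => (h' g).2)
    subst hx₀ hy₀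
    have hN : (W.baseChange F).Nonsingular x₀ y₀ :=
      (W.baseChange_nonsingular (f := Algebra.ofId F Ω) (Algebra.ofId F Ω).injective x₀ y₀).mp hxy
    exact ⟨.some x₀ y₀ hN, rfl⟩

/-- A sequence of successive halves. -/
lemma exists_seq8 {A : Type*} [AddCommGroup A] (h : ∀ P : A, ∃ Q, Q + Q = P) (P Q : A)
    (hQ : Q + Q = P) : ∃ q : ℕ → A, q 0 = P ∧ q 1 = Q ∧ ∀ n, q (n + 1) + q (n + 1) = q n := by
  choose f hf using h
  refine ⟨fun n => Nat.casesOn n P (fun m => f^[m] Q), rfl, rfl, ?_⟩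
  intro n
  cases n with
  | zero => exact hQ
  | succ m =>
    change f^[m + 1] Q + f^[m + 1] Q = f^[m] Q
    rw [Function.iterate_succ_apply']
    exact hf _

lemma two_pow_seq8 {A : Type*} [AddCommGroup A] {q : ℕ → A}
    (h : ∀ n, q (n + 1) + q (n + 1) = q n) (n : ℕ) : 2 ^ n • q n = q 0 := by
  induction n with
  | zero => simp
  | succ m ih => rw [pow_succ, mul_smul, two_nsmul, h, ih]

lemma TC.two_pow {c : ℕ → (Ω ≃ₐ[F] Ω) → (W.baseChange Ω).Point} (hc : TC W c) (n : ℕ)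
    (g : Ω ≃ₐ[F] Ω) : 2 ^ n • c n g = 0 := by
  induction n with
  | zero => rw [hc.zero, smul_zero]
  | succ m ih => rw [pow_succ, mul_smul, hc.two, ih]

/-- The quotient by two of `c - δ(q)`, where `c` agrees with `δ(q)` at the first level. -/
lemma TC.half [IsGalois F Ω] {c : ℕ → (Ω ≃ₐ[F] Ω) → (W.baseChange Ω).Point} (hc : TC W c)
    {q : ℕ → (W.baseChange Ω).Point} (hq : ∀ n, q (n + 1) + q (n + 1) = q n)
    (h1 : ∀ g : Ω ≃ₐ[F] Ω, c 1 g = Point.map (W' := W) (g : Ω →ₐ[F] Ω) (q 1) - q 1) :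
    TC W (fun n (g : Ω ≃ₐ[F] Ω) => c (n + 1) g -
      (Point.map (W' := W) (g : Ω →ₐ[F] Ω) (q (n + 1)) - q (n + 1))) where
  zero g := by
    change c (0 + 1) g - _ = 0
    rw [zero_add, h1, sub_self]
  two n g := by
    change 2 • (c (n + 1 + 1) g - (Point.map (W' := W) (g : Ω →ₐ[F] Ω) (q (n + 1 + 1)) -
      q (n + 1 + 1))) = c (n + 1) g - (Point.map (W' := W) (g : Ω →ₐ[F] Ω) (q (n + 1)) - q (n + 1))
    rw [smul_sub, hc.two, smul_sub, ← map_nsmul, two_nsmul (q (n + 1 + 1)), hq]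
  mul n g h := by
    have e : Point.map (W' := W) ((g * h : Ω ≃ₐ[F] Ω) : Ω →ₐ[F] Ω) (q (n + 1)) =
        Point.map (g : Ω →ₐ[F] Ω) (Point.map (h : Ω →ₐ[F] Ω) (q (n + 1))) := by
      rw [Point.map_map]; rfl
    change c (n + 1) (g * h) - (Point.map (W' := W) ((g * h : Ω ≃ₐ[F] Ω) : Ω →ₐ[F] Ω) (q (n + 1)) -
      q (n + 1)) = _
    rw [hc.mul, e, map_sub, map_sub]
    abel
  loc n := (hc.loc (n + 1)).sub ((isLocallyConstant_map8 _).sub (IsLocallyConstant.const _))

/-- Invariance up to torsion is inherited. -/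
lemma InvMT.half {c : ℕ → (Ω ≃ₐ[F] Ω) → (W.baseChange Ω).Point}
    {q : ℕ → (W.baseChange Ω).Point} (hq : ∀ n, q (n + 1) + q (n + 1) = q n) {γ : Ω ≃ₐ[R] Ω}
    (hfix : Point.map (W' := W) (γ : Ω →ₐ[R] Ω) (q 0) = q 0)
    (hinv : InvMT W c γ) : InvMT W (fun n (g : Ω ≃ₐ[F] Ω) => c (n + 1) g -
      (Point.map (W' := W) (g : Ω →ₐ[F] Ω) (q (n + 1)) - q (n + 1))) γ := by
  obtain ⟨m, hm, H⟩ := hinv
  refine ⟨2 * m, by positivity, fun n => ?_⟩
  obtain ⟨A, hA, HA⟩ := H (n + 1)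
  set B := Point.map (W' := W) (γ : Ω →ₐ[R] Ω) (q (n + 1)) - q (n + 1) with hB
  refine ⟨2 • (A - m • B), ?_, ?_⟩
  · have hB' : 2 ^ (n + 1) • B = 0 := by
      rw [hB, smul_sub, ← map_nsmul, two_pow_seq8 hq, hfix, sub_self]
    rw [← mul_smul, ← pow_succ, smul_sub, hA, smul_comm, hB', smul_zero, sub_zero]
  · intro g h hgh
    have e1 : Point.map (W' := W) (γ : Ω →ₐ[R] Ω) (Point.map (g : Ω →ₐ[F] Ω) (q (n + 1))) =
        Point.map (h : Ω →ₐ[F] Ω) (Point.map (γ : Ω →ₐ[R] Ω) (q (n + 1))) := by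
      rcases q (n + 1) with _ | ⟨x, y, hxy⟩
      · rfl
      · rw [Point.map_some, Point.map_some, Point.map_some, Point.map_some]
        simp only [Point.some.injEq]
        exact ⟨hgh x, hgh y⟩
    have e2 := HA g h hgh
    have e3 : Point.map (W' := W) (γ : Ω →ₐ[R] Ω) (c (n + 1) g -
      (Point.map (g : Ω →ₐ[F] Ω) (q (n + 1)) - q (n + 1))) - (c (n + 1) h -
      (Point.map (h : Ω →ₐ[F] Ω) (q (n + 1)) - q (n + 1))) =
      (Point.map (γ : Ω →ₐ[R] Ω) (c (n + 1) g) - c (n + 1) h) -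
        (Point.map (h : Ω →ₐ[F] Ω) B - B) := by
      rw [map_sub, map_sub, e1, hB, map_sub]
      abel
    have e4 : Point.map (W' := W) (h : Ω →ₐ[F] Ω) (A - m • B) =
        Point.map (W' := W) (h : Ω →ₐ[F] Ω) A - m • Point.map (W' := W) (h : Ω →ₐ[F] Ω) B := by
      rw [map_sub, map_nsmul]
    change (2 * m) • (Point.map (W' := W) (γ : Ω →ₐ[R] Ω) (c (n + 1) g -
      (Point.map (W' := W) (g : Ω →ₐ[F] Ω) (q (n + 1)) - q (n + 1))) - (c (n + 1) h -
      (Point.map (W' := W) (h : Ω →ₐ[F] Ω) (q (n + 1)) - q (n + 1)))) = _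
    rw [e3, mul_smul, smul_sub m, e2, map_nsmul, e4, ← smul_sub 2]
    congr 1
    rw [smul_sub m]
    abel

end Basic

end Pool.Agent.Lib.MP_89bcae_ag

end

section

/-!
# Uniqueness and Galois equivariance of the descent data
-/

open Polynomial WeierstrassCurve WeierstrassCurve.Affine

open scoped Classical

namespace Pool.Agent.Lib.MP_89bcae_ag

set_option linter.unusedSectionVars false

section Unique

variable {R F L Ω : Type*} [CommRing R] [Field F] [IsAlgClosed F] [Field L] [Field Ω]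
  [Algebra F[X] L] [IsFractionRing F[X] L] [Algebra L Ω] [Algebra F[X] Ω] [IsScalarTower F[X] L Ω]
  [Algebra R L] [Algebra R Ω] [IsScalarTower R L Ω] {W : Affine R} {g D : F[X]}
  [IsGalois L Ω] [IsSepClosed Ω] [DecidableEq Ω]

lemma IsDesc.ne_zero {c : (Ω ≃ₐ[L] Ω) → (W.baseChange Ω).Point} {Z : Finset F} {b : Ω → Ω}
    (h : IsDesc W g D c Z b) {θ : Ω} (hθ : θ ∈ RootSet (Ω := Ω) g) : b θ ≠ 0 := by
  intro h0
  have h1 := h.sq θ hθ
  rw [h0, zero_pow two_ne_zero, eq_comm, Finset.prod_eq_zero_iff] at h1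
  obtain ⟨β, -, h2⟩ := h1
  exact root_sub_ne_zero L hθ β h2

lemma ev_prod (Z : Finset F) (θ : Ω) :
    ev F Ω θ (∏ β ∈ Z, (X - C β)) = ∏ β ∈ Z, (θ - algebraMap F[X] Ω (C β)) := by
  rw [map_prod]
  apply Finset.prod_congr rfl
  intro β _
  rw [map_sub, ev_X, ev_C]

/-- The quotient of two descent functions, for cocycles with the same values, is a rational
function of `θ`. -/
lemma IsDesc.exists_ratio {c : (Ω ≃ₐ[L] Ω) → (W.baseChange Ω).Point} {Z Z' : Finset F}
    {b b' : Ω → Ω} (h : IsDesc W g D c Z b) (h' : IsDesc W g D c Z' b') (h2 : (2 : Ω) ≠ 0)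
    (hW : IsTwist Ω W g D) (hc : ∀ σ, 2 • c σ = 0) {θ : Ω} (hθ : θ ∈ RootSet (Ω := Ω) g) :
    ∃ p q : F[X], q ≠ 0 ∧ b θ * b' θ * ev F Ω θ q = ev F Ω θ p := by
  apply exists_rational_of_fixed (L := L) hθ
  intro σ hσ
  rw [map_mul, h.act θ hθ, h'.act θ hθ, hσ]
  linear_combination (b θ * b' θ) * rho_two_torsion_mul_self hW.short h2
    (algebraMap F[X] Ω D * θ) (hc σ)

/-- Uniqueness of the set `Z`. -/
lemma IsDesc.unique {c : (Ω ≃ₐ[L] Ω) → (W.baseChange Ω).Point} {Z Z' : Finset F}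
    {b b' : Ω → Ω} (h : IsDesc W g D c Z b) (h' : IsDesc W g D c Z' b') (h2 : (2 : Ω) ≠ 0)
    (hW : IsTwist Ω W g D) (hg : g.Monic) (hdeg : g.natDegree = 3) (hd : derivative g ≠ 0)
    (hc : ∀ σ, 2 • c σ = 0) : Z = Z' := by
  obtain ⟨θ, _, _, -, -, -, hR, -, -⟩ := exists_three_roots (F := F) L (Ω := Ω) hg hdeg hd
  have hθ : θ ∈ RootSet (Ω := Ω) g := (hR θ).mpr (Or.inl rfl)
  obtain ⟨p, q, hq, hpq⟩ := h.exists_ratio h' h2 hW hc hθ
  apply eq_of_sq Z Z' hq (p := p)
  apply ev_injective L hθ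
  rw [map_pow, ← hpq, map_mul, map_mul, map_pow, ev_prod, ev_prod, ← h.sq θ hθ, ← h'.sq θ hθ]
  ring

/-- Changing the cocycle by a coboundary. -/
lemma IsDesc.twist {c c' : (Ω ≃ₐ[L] Ω) → (W.baseChange Ω).Point} {Z : Finset F}
    {b : Ω → Ω} (h : IsDesc W g D c Z b) (h2 : (2 : Ω) ≠ 0)
    (hW : IsTwist Ω W g D) (hg : g.Monic) (hdeg : g.natDegree = 3)
    {A : (W.baseChange Ω).Point} (hA : 2 • A = 0)
    (hcc : ∀ σ : Ω ≃ₐ[L] Ω, c' σ = c σ + (Point.map (σ : Ω →ₐ[L] Ω) A - A)) :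
    IsDesc W g D c' Z (fun θ => rho (algebraMap F[X] Ω D * θ) A * b θ) := by
  have hsq : ∀ θ : Ω, rho (algebraMap F[X] Ω D * θ) A * rho (algebraMap F[X] Ω D * θ) A = 1 :=
    fun θ => rho_two_torsion_mul_self hW.short h2 _ hA
  have hnA : -A = A := by
    have : A + A = 0 := by rw [← two_nsmul]; exact hA
    exact neg_eq_of_add_eq_zero_left this
  refine ⟨?_, ?_⟩
  · intro θ hθ
    rw [mul_pow, h.sq θ hθ, pow_two, hsq, one_mul]
  · intro θ hθ σ
    have hσA : 2 • Point.map (W' := W) (σ : Ω →ₐ[L] Ω) A = 0 := by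
      rw [← map_nsmul, hA, map_zero]
    have hθ' := map_mem_rootSet σ hθ
    have hrt := hW.rt hg hdeg hθ'
    rw [hcc, sub_eq_add_neg, hnA, rho_add hW.short h2 hrt _ _ (by
      rw [smul_add, hσA, hA, add_zero]), rho_add hW.short h2 hrt _ _ hA,
      rho_map_two_torsion h2 hW σ θ hA, map_mul, h.act θ hθ]
    have h3 : σ (rho (algebraMap F[X] Ω D * θ) A) = rho (algebraMap F[X] Ω D * θ) A := by
      rcases rho_two_torsion_sq hW.short h2 (algebraMap F[X] Ω D * θ) hA with e | e <;> simp [e]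
    rw [h3]
    linear_combination (-(rho (algebraMap F[X] Ω D * θ) A) *
      rho (algebraMap F[X] Ω D * σ θ) (c σ) * b (σ θ)) * hsq (σ θ)

end Unique

section Conj

variable {R F L Ω : Type*} [CommRing R] [Field F] [IsAlgClosed F] [Field L] [Field Ω]
  [Algebra F[X] L] [IsFractionRing F[X] L] [Algebra L Ω] [Algebra F[X] Ω] [IsScalarTower F[X] L Ω]
  [Algebra R L] [Algebra R Ω] [IsScalarTower R L Ω] {W : Affine R} {g D : F[X]}
  [IsGalois L Ω] [IsSepClosed Ω] [DecidableEq Ω] {γ : Ω ≃ₐ[R] Ω} {τ : F →+* F}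

lemma ev_gamma (hγ : ∀ p : F[X], γ (algebraMap F[X] Ω p) = algebraMap F[X] Ω (p.map τ))
    (θ : Ω) (p : F[X]) : γ (ev F Ω θ p) = ev F Ω (γ θ) (p.map τ) := by
  have h : (γ : Ω →+* Ω).comp (ev F Ω θ) = (ev F Ω (γ θ)).comp (mapRingHom τ) := by
    apply Polynomial.ringHom_ext
    · intro a
      simp only [RingHom.comp_apply, ev_C, coe_mapRingHom, map_C]
      have := hγ (C a)
      rw [map_C] at this
      exact this
    · simp [ev_X]
  exact RingHom.congr_fun h p

lemma gamma_mem_rootSet (hγ : ∀ p : F[X], γ (algebraMap F[X] Ω p) = algebraMap F[X] Ω (p.map τ))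
    (hgτ : g.map τ = g) {θ : Ω} (hθ : θ ∈ RootSet (Ω := Ω) g) : γ θ ∈ RootSet (Ω := Ω) g := by
  change ev F Ω (γ θ) g = _
  have h1 := ev_gamma hγ θ g
  rw [hgτ, show ev F Ω θ g = _ from hθ, hγ, map_X] at h1
  exact h1.symm

lemma gamma_symm_mem_rootSet
    (hγ : ∀ p : F[X], γ (algebraMap F[X] Ω p) = algebraMap F[X] Ω (p.map τ))
    (hgτ : g.map τ = g) {θ : Ω} (hθ : θ ∈ RootSet (Ω := Ω) g) :
    γ.symm θ ∈ RootSet (Ω := Ω) g := by
  change ev F Ω (γ.symm θ) g = _
  apply γ.injective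
  rw [ev_gamma hγ, hgτ, γ.apply_symm_apply, hγ, map_X]
  exact hθ

/-- Conjugating the cocycle by an automorphism over `k(t)`. -/
lemma IsDesc.conj {c c' : (Ω ≃ₐ[L] Ω) → (W.baseChange Ω).Point} {Z : Finset F}
    {b : Ω → Ω} (h : IsDesc W g D c Z b)
    (hγ : ∀ p : F[X], γ (algebraMap F[X] Ω p) = algebraMap F[X] Ω (p.map τ))
    (hgτ : g.map τ = g) (hDτ : D.map τ = D)
    (hconj : ∀ σ : Ω ≃ₐ[L] Ω, ∃ σ' : Ω ≃ₐ[L] Ω, (∀ x, γ (σ' x) = σ (γ x)) ∧
      c' σ = Point.map (W' := W) (γ : Ω →ₐ[R] Ω) (c σ')) :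
    IsDesc W g D c' (Z.image τ) (fun θ => γ (b (γ.symm θ))) := by
  refine ⟨?_, ?_⟩
  · intro θ hθ
    have hθ' := gamma_symm_mem_rootSet hγ hgτ hθ
    rw [← map_pow, h.sq _ hθ', map_prod, Finset.prod_image (fun x _ y _ hxy => τ.injective hxy)]
    apply Finset.prod_congr rfl
    intro β _
    rw [map_sub, γ.apply_symm_apply, hγ, map_C]
  · intro θ hθ σ
    have hθ' := gamma_symm_mem_rootSet hγ hgτ hθ
    obtain ⟨σ', h1, h3⟩ := hconj σ
    have h4 : σ' (γ.symm θ) = γ.symm (σ θ) := by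
      apply γ.injective
      rw [h1, γ.apply_symm_apply, γ.apply_symm_apply]
    rw [← h1, h.act _ hθ', map_mul, h4, h3]
    congr 1
    have h5 : algebraMap F[X] Ω D * σ θ = (γ : Ω →ₐ[R] Ω) (algebraMap F[X] Ω D * γ.symm (σ θ)) := by
      change _ = γ (algebraMap F[X] Ω D * γ.symm (σ θ))
      rw [map_mul, hγ, hDτ, γ.apply_symm_apply]
    rw [h5, rho_map]
    rfl

/-- Invariance of the class implies invariance of the set `Z`. -/
lemma IsDesc.image_eq {c : (Ω ≃ₐ[L] Ω) → (W.baseChange Ω).Point} {Z : Finset F}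
    {b : Ω → Ω} (h : IsDesc W g D c Z b) (h2 : (2 : Ω) ≠ 0)
    (hW : IsTwist Ω W g D) (hg : g.Monic) (hdeg : g.natDegree = 3) (hd : derivative g ≠ 0)
    (hc : ∀ σ, 2 • c σ = 0)
    (hγ : ∀ p : F[X], γ (algebraMap F[X] Ω p) = algebraMap F[X] Ω (p.map τ))
    (hgτ : g.map τ = g) (hDτ : D.map τ = D)
    (hconj : ∀ σ : Ω ≃ₐ[L] Ω, ∃ σ' : Ω ≃ₐ[L] Ω, ∀ x, γ (σ' x) = σ (γ x))
    {A : (W.baseChange Ω).Point} (hA : 2 • A = 0)
    (hinv : ∀ σ' σ : Ω ≃ₐ[L] Ω, (∀ x, γ (σ' x) = σ (γ x)) →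
      Point.map (W' := W) (γ : Ω →ₐ[R] Ω) (c σ') - c σ =
        Point.map (W' := W) (σ : Ω →ₐ[L] Ω) A - A) :
    Z.image τ = Z := by
  set c' : (Ω ≃ₐ[L] Ω) → (W.baseChange Ω).Point :=
    fun σ => c σ + (Point.map (W' := W) (σ : Ω →ₐ[L] Ω) A - A) with hc'
  have h3 := h.twist h2 hW hg hdeg hA (c' := c') (fun σ => rfl)
  have h4 := h.conj (c' := c') hγ hgτ hDτ (by
    intro σ
    obtain ⟨σ', hσ'⟩ := hconj σ
    refine ⟨σ', hσ', ?_⟩
    rw [hc']
    simp only
    rw [← hinv σ' σ hσ']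
    abel)
  apply h4.unique h3 h2 hW hg hdeg hd
  intro σ
  have hσA : 2 • Point.map (W' := W) (σ : Ω →ₐ[L] Ω) A = 0 := by
    rw [← map_nsmul, hA, map_zero]
  rw [hc']
  simp only
  rw [smul_add, hc, smul_sub, hσA, hA, sub_zero, add_zero]

end Conj

end Pool.Agent.Lib.MP_89bcae_ag

end

section

/-!
# The exact effect of an automorphism on the descent functions
-/

open Polynomial WeierstrassCurve WeierstrassCurve.Affine

open scoped Classical

namespace Pool.Agent.Lib.MP_89bcae_ag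

set_option linter.unusedSectionVars false

section SqrtProd

variable {F : Type*} [Field F]

/-- A product over a set with even fibres is a square. -/
lemma prod_even_fibres {M : Type*} [CommMonoid M] (Z : Finset F) (f : F → F) (u : F → M)
    (h : ∀ α, Even (Z.filter fun β => f β = α).card) :
    ∏ β ∈ Z, u (f β) =
      (∏ α ∈ Z.image f, u α ^ ((Z.filter fun β => f β = α).card / 2)) ^ 2 := by
  rw [Finset.prod_comp u f, ← Finset.prod_pow]
  apply Finset.prod_congr rfl
  intro α _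
  rw [← pow_mul]
  congr 1
  obtain ⟨n, hn⟩ := h α
  omega

end SqrtProd

section Conj

variable {R F L Ω : Type*} [CommRing R] [Field F] [IsAlgClosed F] [Field L] [Field Ω]
  [Algebra F[X] L] [IsFractionRing F[X] L] [Algebra L Ω] [Algebra F[X] Ω] [IsScalarTower F[X] L Ω]
  [Algebra R L] [Algebra R Ω] [IsScalarTower R L Ω] {W : Affine R} {g D : F[X]}
  [IsGalois L Ω] [IsSepClosed Ω] [DecidableEq Ω] {γ : Ω ≃ₐ[R] Ω} {τ : F →+* F}

/-- The effect of an automorphism fixing the points of `Z` on the descent functions. -/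
lemma IsDesc.conj_eq {c : (Ω ≃ₐ[L] Ω) → (W.baseChange Ω).Point} {Z : Finset F}
    {b : Ω → Ω} (h : IsDesc W g D c Z b) (h2 : (2 : Ω) ≠ 0)
    (hW : IsTwist Ω W g D) (hg : g.Monic) (hdeg : g.natDegree = 3) (hd : derivative g ≠ 0)
    (hD : D ≠ 0) (hc : ∀ σ, 2 • c σ = 0)
    (hγ : ∀ p : F[X], γ (algebraMap F[X] Ω p) = algebraMap F[X] Ω (p.map τ))
    (hgτ : g.map τ = g) (hDτ : D.map τ = D)
    (hconj : ∀ σ : Ω ≃ₐ[L] Ω, ∃ σ' : Ω ≃ₐ[L] Ω, ∀ x, γ (σ' x) = σ (γ x))
    (hfix : ∀ β ∈ Z, τ β = β)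
    {A : (W.baseChange Ω).Point} (hA : 2 • A = 0)
    (hinv : ∀ σ' σ : Ω ≃ₐ[L] Ω, (∀ x, γ (σ' x) = σ (γ x)) →
      Point.map (W' := W) (γ : Ω →ₐ[R] Ω) (c σ') - c σ =
        Point.map (W' := W) (σ : Ω →ₐ[L] Ω) A - A) :
    ∀ θ ∈ RootSet (Ω := Ω) g, γ (b (γ.symm θ)) = rho (algebraMap F[X] Ω D * θ) A * b θ := by
  set c' : (Ω ≃ₐ[L] Ω) → (W.baseChange Ω).Point :=
    fun σ => c σ + (Point.map (W' := W) (σ : Ω →ₐ[L] Ω) A - A) with hc'
  have h3 := h.twist h2 hW hg hdeg hA (c' := c') (fun σ => rfl)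
  have h4 := h.conj (c' := c') hγ hgτ hDτ (by
    intro σ
    obtain ⟨σ', hσ'⟩ := hconj σ
    refine ⟨σ', hσ', ?_⟩
    rw [hc']
    simp only
    rw [← hinv σ' σ hσ']
    abel)
  have hZ : Z.image τ = Z := by
    ext β
    rw [Finset.mem_image]
    constructor
    · rintro ⟨β', h5, rfl⟩
      rw [hfix β' h5]
      exact h5
    · intro h5
      exact ⟨β, h5, hfix β h5⟩
  rw [hZ] at h4
  have hc2' : ∀ σ, 2 • c' σ = 0 := by
    intro σ
    have hσA : 2 • Point.map (W' := W) (σ : Ω →ₐ[L] Ω) A = 0 := by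
      rw [← map_nsmul, hA, map_zero]
    rw [hc']
    simp only
    rw [smul_add, hc, smul_sub, hσA, hA, sub_zero, add_zero]
  obtain ⟨θ₁, θ₂, θ₃, h12, h13, h23, hR, -, -⟩ :=
    exists_three_roots (F := F) L (Ω := Ω) hg hdeg hd
  have hT : ∀ θ, θ ∈ ({θ₁, θ₂, θ₃} : Finset Ω) ↔ θ ∈ RootSet (Ω := Ω) g := by
    intro θ
    rw [hR]
    simp
  have hθ₁ : θ₁ ∈ RootSet (Ω := Ω) g := (hR _).mpr (Or.inl rfl)
  -- the two systems of descent functions agree up to a global sign
  set B1 : Ω → Ω := fun θ => rho (algebraMap F[X] Ω D * θ) A * b θ with hB1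
  set B2 : Ω → Ω := fun θ => γ (b (γ.symm θ)) with hB2
  have hs0 : ∀ θ σ, rho (algebraMap F[X] Ω D * θ) (c' σ) ≠ 0 := by
    intro θ σ h0
    have := rho_two_torsion_mul_self hW.short h2 (algebraMap F[X] Ω D * θ) (hc2' σ)
    rw [h0, mul_zero] at this
    exact zero_ne_one this
  have hglob : ∀ s : Ω, (s = 1 ∨ s = -1) → B2 θ₁ = s * B1 θ₁ →
      ∀ θ ∈ RootSet (Ω := Ω) g, B2 θ = s * B1 θ := by
    intro s hs h5 θ hθ
    obtain ⟨σ, rfl⟩ := rootSet_transitive (L := L) hg hdeg hθ₁ hθ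
    have h6 := congrArg σ h5
    have hσs : σ s = s := by
      rcases hs with rfl | rfl <;> simp
    rw [map_mul, hσs, h4.act θ₁ hθ₁ σ, h3.act θ₁ hθ₁ σ] at h6
    apply mul_left_cancel₀ (hs0 (σ θ₁) σ)
    linear_combination h6
  have hsgn : B2 θ₁ = 1 * B1 θ₁ ∨ B2 θ₁ = -1 * B1 θ₁ := by
    have h5 : B2 θ₁ ^ 2 = B1 θ₁ ^ 2 := (h4.sq θ₁ hθ₁).trans (h3.sq θ₁ hθ₁).symm
    have h6 : (B2 θ₁ - B1 θ₁) * (B2 θ₁ + B1 θ₁) = 0 := by linear_combination h5
    rcases mul_eq_zero.mp h6 with h7 | h7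
    · left; linear_combination h7
    · right; linear_combination h7
  rcases hsgn with h5 | h5
  · intro θ hθ
    have := hglob 1 (Or.inl rfl) h5 θ hθ
    rw [one_mul] at this
    exact this
  · exfalso
    have h6 := hglob (-1) (Or.inr rfl) h5
    -- the norm
    set T : Finset Ω := {θ₁, θ₂, θ₃} with hTdef
    obtain ⟨-, hN2⟩ := h.exists_norm h2 hW hg hdeg hd hD hc hT
    set N := ∏ θ ∈ T, b θ with hN
    have hB1N : ∏ θ ∈ T, B1 θ = N := by
      rw [hB1, Finset.prod_mul_distrib, prod_rho_roots L h2 hW hg hdeg hd hD hT hA, one_mul]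
    have hcard : T.card = 3 := by
      rw [hTdef, Finset.card_insert_of_notMem (by simp [h12, h13]),
        Finset.card_insert_of_notMem (by simp [h23]), Finset.card_singleton]
    have hB2N : ∏ θ ∈ T, B2 θ = -N := by
      rw [Finset.prod_congr rfl fun θ hθ => h6 θ ((hT θ).mp hθ), Finset.prod_mul_distrib, hB1N,
        Finset.prod_const, hcard]
      ring
    have hB2γ : ∏ θ ∈ T, B2 θ = γ N := by
      rw [hN, map_prod]
      symm
      apply Finset.prod_nbij' (fun θ => γ θ) (fun θ => γ.symm θ)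
      · intro θ hθ
        exact (hT _).mpr (gamma_mem_rootSet hγ hgτ ((hT θ).mp hθ))
      · intro θ hθ
        exact (hT _).mpr (gamma_symm_mem_rootSet hγ hgτ ((hT θ).mp hθ))
      · intro θ _; simp
      · intro θ _; simp
      · intro θ _
        rw [hB2]
        simp
    -- `N` is fixed by `γ`
    have heven := h.even h2 hW hg hdeg hd hD hc
    set q : F[X] := ∏ α ∈ Z.image (fun β => g.eval β),
      (X - C α) ^ ((Z.filter fun β => g.eval β = α).card / 2) with hq
    have hNq : N ^ 2 = (algebraMap F[X] Ω q) ^ 2 := by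
      rw [hN2, ← map_pow, hq]
      congr 1
      exact prod_even_fibres Z (fun β => g.eval β) (fun α => X - C α) heven
    have hqτ : q.map τ = q := by
      rw [hq, Polynomial.map_prod]
      apply Finset.prod_congr rfl
      intro α hα
      obtain ⟨β, hβ, rfl⟩ := Finset.mem_image.mp hα
      have h7 : τ (g.eval β) = g.eval β := by
        have := eval₂_hom (p := g) τ β
        rw [← this, ← eval_map, hgτ, hfix β hβ]
      rw [Polynomial.map_pow, Polynomial.map_sub, Polynomial.map_X, Polynomial.map_C, h7]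
    have hγN : γ N = N := by
      have h7 : (N - algebraMap F[X] Ω q) * (N + algebraMap F[X] Ω q) = 0 := by
        linear_combination hNq
      have h8 : γ (algebraMap F[X] Ω q) = algebraMap F[X] Ω q := by rw [hγ, hqτ]
      rcases mul_eq_zero.mp h7 with h9 | h9
      · rw [sub_eq_zero.mp h9, h8]
      · have : N = -algebraMap F[X] Ω q := by linear_combination h9
        rw [this, map_neg, h8]
    have hN0 : N ≠ 0 := by
      rw [hN]
      exact Finset.prod_ne_zero_iff.mpr fun θ hθ => h.ne_zero ((hT θ).mp hθ)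
    rw [hB2γ, hγN] at hB2N
    have : 2 * N = 0 := by linear_combination hB2N
    rcases mul_eq_zero.mp this with h7 | h7
    · exact h2 h7
    · exact hN0 h7

end Conj

end Pool.Agent.Lib.MP_89bcae_ag

end

section

open NumberField Ideal Filter Topology

namespace Pool.Agent.Lib.MP_89bcae_ag.Re

/-- A number field cannot have, for all large primes, at least `ℓ ≥ 2` times as many primes of
degree one as another one. Proof: `euler_compare` with `a = idealCount K`, `b = idealCount K'` gives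
`zetaR K s ^ ℓ ≤ C zetaR K' s` for `s > 1`. Multiply by `(s - 1) ^ ℓ`:
`((s-1) zetaR K s) ^ ℓ ≤ C (s-1)^(ℓ-1) ((s-1) zetaR K' s)`; for `s → 1+` (`zetaR_tendsto`) the left
side tends to `(dedekindZeta_residue K) ^ ℓ > 0` (`dedekindZeta_residue_pos`), the right side to
`0`. -/
theorem not_mul_le (K K' : Type*) [Field K] [NumberField K] [Field K'] [NumberField K'] {ℓ : ℕ}
    (hℓ : 2 ≤ ℓ) (q₀ : ℕ) :
    ∃ q : ℕ, q.Prime ∧ q₀ ≤ q ∧ idealCount K' q < ℓ * idealCount K q := by
  by_contra hcon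
  push Not at hcon
  obtain ⟨C, hC, hle⟩ := euler_compare (a := fun n => (idealCount K n : ℝ))
    (b := fun n => (idealCount K' n : ℝ)) (d := Module.finrank ℚ K) (d' := Module.finrank ℚ K')
    (ℓ := ℓ) (q₀ := q₀) (fun n => Nat.cast_nonneg _) (fun n => Nat.cast_nonneg _)
    (by simp only [idealCount_one, Nat.cast_one]) (by simp only [idealCount_one, Nat.cast_one])
    (fun m n h => by simp only [idealCount_mul K h, Nat.cast_mul])
    (fun m n h => by simp only [idealCount_mul K' h, Nat.cast_mul])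
    (fun q e hq => by exact_mod_cast idealCount_prime_pow_le K hq e)
    (fun q e hq => by exact_mod_cast idealCount_prime_pow_le K' hq e)
    (fun s hs => zetaR_summable K hs) (fun s hs => zetaR_summable K' hs)
    (fun q hq hqq => by exact_mod_cast hcon q hq hqq)
  have hle' : ∀ s : ℝ, 1 < s → zetaR K s ^ ℓ ≤ C * zetaR K' s := hle
  have h1 : Tendsto (fun s : ℝ => ((s - 1) * zetaR K s) ^ ℓ) (𝓝[>] 1)
      (𝓝 (dedekindZeta_residue K ^ ℓ)) := (zetaR_tendsto K).pow ℓ
  have h2 : Tendsto (fun s : ℝ => (s - 1) ^ (ℓ - 1)) (𝓝[>] 1) (𝓝 0) := by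
    have h3 : Tendsto (fun s : ℝ => (s - 1) ^ (ℓ - 1)) (𝓝 1) (𝓝 ((1 - 1) ^ (ℓ - 1))) :=
      ((continuous_id.sub continuous_const).pow (ℓ - 1)).tendsto 1
    rw [sub_self, zero_pow (by omega)] at h3
    exact h3.mono_left nhdsWithin_le_nhds
  have h4 : Tendsto (fun s : ℝ => C * ((s - 1) ^ (ℓ - 1) * ((s - 1) * zetaR K' s))) (𝓝[>] 1)
      (𝓝 0) := by
    have := (h2.mul (zetaR_tendsto K')).const_mul C
    rwa [zero_mul, mul_zero] at this
  have h5 : dedekindZeta_residue K ^ ℓ ≤ 0 := by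
    refine le_of_tendsto_of_tendsto h1 h4 ?_
    filter_upwards [self_mem_nhdsWithin] with s hs
    have hs' : (1 : ℝ) < s := hs
    have hs0 : 0 ≤ s - 1 := by linarith
    have h6 := mul_le_mul_of_nonneg_left (hle' s hs') (pow_nonneg hs0 ℓ)
    have h7 : (s - 1) ^ ℓ = (s - 1) ^ (ℓ - 1) * (s - 1) := by
      rw [← pow_succ]
      congr 1
      omega
    calc ((s - 1) * zetaR K s) ^ ℓ = (s - 1) ^ ℓ * zetaR K s ^ ℓ := mul_pow _ _ _
      _ ≤ (s - 1) ^ ℓ * (C * zetaR K' s) := h6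
      _ = C * ((s - 1) ^ (ℓ - 1) * ((s - 1) * zetaR K' s)) := by rw [h7]; ring
  exact absurd h5 (not_le.2 (pow_pos (dedekindZeta_residue_pos K) ℓ))

end Pool.Agent.Lib.MP_89bcae_ag.Re

end

section

/-!
# The local condition at a place of good reduction
-/

open Polynomial WeierstrassCurve WeierstrassCurve.Affine

open scoped Classical

namespace Pool.Agent.Lib.MP_89bcae_ag

set_option linter.unusedSectionVars false

section Valuation

variable {K : Type*} [Field K] (w : Valuation K (WithZero (Multiplicative ℤ)))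

lemma lg_one : lg w 1 = 0 := by simp [lg]

lemma lg_eq_zero_of {x : K} (h : w x = 1) : lg w x = 0 := by
  unfold lg; rw [h, WithZero.log_one]

lemma ne_zero_of_val_one {x : K} (h : w x = 1) : x ≠ 0 := by
  rintro rfl
  rw [map_zero] at h
  exact zero_ne_one h

lemma lg_prod {ι : Type*} (s : Finset ι) (f : ι → K) (hf : ∀ i ∈ s, f i ≠ 0) :
    lg w (∏ i ∈ s, f i) = ∑ i ∈ s, lg w (f i) := by
  induction s using Finset.induction_on with
  | empty => simp [lg_one]
  | insert a s ha ih =>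
    rw [Finset.prod_insert ha, Finset.sum_insert ha,
      lg_mul w (hf a (Finset.mem_insert_self a s))
        (Finset.prod_ne_zero_iff.mpr fun i hi => hf i (Finset.mem_insert_of_mem hi)),
      ih fun i hi => hf i (Finset.mem_insert_of_mem hi)]

/-- At a place of good reduction, `x - e` has even valuation. -/
lemma even_lg_of_eq {u a q Y : K} (hu : u ≠ 0) (ha : w a ≤ 1) (hq : w q = 1)
    (h : Y ^ 2 = u * (u ^ 2 + a * u + q)) : Even (lg w u) := by
  have hq0 := ne_zero_of_val_one w hq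
  rcases lt_trichotomy (w u) 1 with h1 | h1 | h1
  · -- `q` dominates
    have h3 : w (u ^ 2 + a * u) < w q := by
      rw [hq]
      apply lt_of_le_of_lt (w.map_add _ _)
      rw [max_lt_iff, map_pow, map_mul]
      refine ⟨pow_lt_one₀ zero_le h1 two_ne_zero, ?_⟩
      exact lt_of_le_of_lt (mul_le_mul_left ha _) (by rwa [one_mul])
    have h4 : w (u ^ 2 + a * u + q) = 1 := by
      rw [w.map_add_eq_of_lt_right h3, hq]
    have h5 := congrArg (lg w) h
    rw [lg_pow, lg_mul w hu (ne_zero_of_val_one w h4), lg_eq_zero_of w h4] at h5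
    exact ⟨lg w Y, by push_cast at h5; linarith⟩
  · rw [lg_eq_zero_of w h1]; exact ⟨0, by simp⟩
  · -- `u ^ 2` dominates
    have h2 : w (a * u + q) < w (u ^ 2) := by
      apply lt_of_le_of_lt (w.map_add _ _)
      rw [max_lt_iff, map_pow, map_mul, hq, pow_two]
      refine ⟨?_, ?_⟩
      · apply lt_of_le_of_lt (mul_le_mul_left ha _)
        rw [one_mul]
        exact lt_mul_of_one_lt_left (lt_trans zero_lt_one h1) h1
      · exact lt_trans h1 (lt_mul_of_one_lt_left (lt_trans zero_lt_one h1) h1)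
    have h4 : w (u ^ 2 + a * u + q) = w (u ^ 2) := by
      rw [add_assoc]; exact w.map_add_eq_of_lt_left h2
    have h6 : u ^ 2 + a * u + q ≠ 0 := by
      intro h0
      rw [h0, map_zero, eq_comm, map_pow, pow_eq_zero_iff two_ne_zero, map_eq_zero] at h4
      exact hu h4
    have h7 : lg w (u ^ 2 + a * u + q) = 2 * lg w u := by
      unfold lg; rw [h4, map_pow, WithZero.log_pow, nsmul_eq_mul]; norm_num
    have h5 := congrArg (lg w) h
    rw [lg_pow, lg_mul w hu h6, h7] at h5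
    exact ⟨lg w Y - lg w u, by push_cast at h5; linarith⟩

end Valuation

section Local

variable {R F L Ω : Type*} [CommRing R] [Field F] [IsAlgClosed F] [Field L] [Field Ω]
  [Algebra F[X] L] [IsFractionRing F[X] L] [Algebra L Ω] [Algebra F[X] Ω] [IsScalarTower F[X] L Ω]
  [Algebra R L] [Algebra R Ω] [IsScalarTower R L Ω] {W : Affine R} {g D : F[X]}
  [IsGalois L Ω] [IsSepClosed Ω] [DecidableEq Ω]
  {Lv M : Type*} [Field Lv] [Field M] [Algebra L Lv] [Algebra Lv M] [Algebra L M]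
  [IsScalarTower L Lv M] [Algebra R Lv] [Algebra R M] [IsScalarTower R L Lv]
  [IsScalarTower R L M] [IsScalarTower R Lv M] [Algebra F[X] Lv] [Algebra F[X] M]
  [IsScalarTower F[X] L Lv] [IsScalarTower F[X] L M] [IsScalarTower F[X] Lv M] [IsGalois Lv M]
  [DecidableEq Lv] [DecidableEq M]

lemma IsTwist.up {A B : Type*} [Field A] [Field B] [Algebra A B] [Algebra R A] [Algebra R B]
    [IsScalarTower R A B] [Algebra F[X] A] [Algebra F[X] B] [IsScalarTower F[X] A B]
    (h : IsTwist A W g D) : IsTwist B W g D where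
  a₁ := by rw [IsScalarTower.algebraMap_apply R A B, h.a₁, map_zero]
  a₂ := by
    rw [IsScalarTower.algebraMap_apply R A B, h.a₂, ← IsScalarTower.algebraMap_apply]
  a₃ := by rw [IsScalarTower.algebraMap_apply R A B, h.a₃, map_zero]
  a₄ := by
    rw [IsScalarTower.algebraMap_apply R A B, h.a₄, ← IsScalarTower.algebraMap_apply]
  a₆ := by
    rw [IsScalarTower.algebraMap_apply R A B, h.a₆, ← IsScalarTower.algebraMap_apply]

/-- An embedding commutes with evaluation. -/
lemma ev_algHom (j : Ω →ₐ[L] M) (θ : Ω) (p : F[X]) : j (ev F Ω θ p) = ev F M (j θ) p := by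
  have h : (j : Ω →+* M).comp (ev F Ω θ) = ev F M (j θ) := by
    apply Polynomial.ringHom_ext
    · intro a
      simp only [RingHom.comp_apply, ev_C]
      rw [IsScalarTower.algebraMap_apply F[X] L Ω, IsScalarTower.algebraMap_apply F[X] L M]
      exact j.commutes _
    · simp [ev_X]
  exact RingHom.congr_fun h p

lemma algHom_algebraMap_poly (j : Ω →ₐ[L] M) (p : F[X]) :
    j (algebraMap F[X] Ω p) = algebraMap F[X] M p := by
  rw [IsScalarTower.algebraMap_apply F[X] L Ω, IsScalarTower.algebraMap_apply F[X] L M]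
  exact j.commutes _

/-- The image of the root set. -/
lemma exists_root_of_mem (hg : g.Monic) (hdeg : g.natDegree = 3) (hd : derivative g ≠ 0)
    (j : Ω →ₐ[L] M) {y : M} (hy : y ∈ RootSet (Ω := M) g) :
    ∃ θ ∈ RootSet (Ω := Ω) g, j θ = y := by
  obtain ⟨θ₁, θ₂, θ₃, -, -, -, hR, -, hP⟩ := exists_three_roots (F := F) L (Ω := Ω) hg hdeg hd
  have h1 := congrArg (fun P : Polynomial Ω => (P.map (j : Ω →+* M)).eval y) hP
  simp only [Polynomial.map_mul, Polynomial.map_sub, Polynomial.map_X, Polynomial.map_C,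
    eval_mul, eval_sub, eval_X, eval_C] at h1
  rw [Polynomial.map_map, show (j : Ω →+* M).comp (algebraMap L Ω) = algebraMap L M from
    j.comp_algebraMap, eval_map_algebraMap, (mem_rootSet_iff (L := L)).mp hy, eq_comm, mul_eq_zero,
    mul_eq_zero] at h1
  rcases h1 with (h1 | h1) | h1
  · exact ⟨θ₁, (hR _).mpr (Or.inl rfl), (sub_eq_zero.mp h1).symm⟩
  · exact ⟨θ₂, (hR _).mpr (Or.inr (Or.inl rfl)), (sub_eq_zero.mp h1).symm⟩
  · exact ⟨θ₃, (hR _).mpr (Or.inr (Or.inr rfl)), (sub_eq_zero.mp h1).symm⟩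

lemma lg_root_prod (w : Valuation Lv (WithZero (Multiplicative ℤ))) {θv : Lv} {β : F}
    (hβ : w (θv - algebraMap F[X] Lv (C β)) = WithZero.exp (-1 : ℤ))
    (hβ' : ∀ β' : F, β' ≠ β → w (θv - algebraMap F[X] Lv (C β')) = 1) (Z : Finset F) :
    (∀ β' : F, θv - algebraMap F[X] Lv (C β') ≠ 0) ∧
    lg w (∏ β' ∈ Z, (θv - algebraMap F[X] Lv (C β'))) = if β ∈ Z then -1 else 0 := by
  have hne : ∀ β' : F, θv - algebraMap F[X] Lv (C β') ≠ 0 := by
    intro β' h0
    by_cases hb : β' = β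
    · subst hb
      rw [h0, map_zero] at hβ
      exact WithZero.exp_ne_zero hβ.symm
    · have := hβ' β' hb
      rw [h0, map_zero] at this
      exact zero_ne_one this
  refine ⟨hne, ?_⟩
  rw [lg_prod w Z _ (fun i _ => hne i)]
  have h1 : ∀ β' ∈ Z, lg w (θv - algebraMap F[X] Lv (C β')) = if β' = β then -1 else 0 := by
    intro β' _
    by_cases hb : β' = β
    · subst hb
      rw [if_pos rfl]
      unfold lg
      rw [hβ, WithZero.log_exp]
    · rw [if_neg hb]
      exact lg_eq_zero_of w (hβ' β' hb)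
  rw [Finset.sum_congr rfl h1, Finset.sum_ite_eq']

/-- The values of `ρ²` at a half of a rational point. -/
lemma rho_sq_of_double (hW : IsTwist M W g D) (h2M : (2 : M) ≠ 0)
    (P : (W.baseChange Lv).Point) (Q : (W.baseChange M).Point)
    (hPQ : 2 • Q = Point.map (W' := W) (Algebra.ofId Lv M) P) :
    (∀ e : M, rho e Q ^ 2 = 1) ∨ ∃ (X₀ Y₀ : Lv) (h : (W.baseChange Lv).Nonsingular X₀ Y₀),
      P = .some X₀ Y₀ h ∧ ∀ e : M, Rt (W.baseChange M) e →
        rho e Q ^ 2 = algebraMap Lv M X₀ - e := by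
  by_cases h0 : 2 • Q = 0
  · left
    intro e
    rw [pow_two]
    exact rho_two_torsion_mul_self hW.short h2M e h0
  · right
    rcases Q with _ | ⟨x, y, hxy⟩
    · exact absurd (by rw [← Point.zero_def, smul_zero]) h0
    have hy : y ≠ 0 := by
      intro hy0
      apply h0
      rw [two_nsmul]
      exact (add_self_eq_zero_iff hW.short h2M hxy).mpr hy0
    rcases P with _ | ⟨X₀, Y₀, h₀⟩
    · exfalso
      apply h0
      rw [hPQ]; rfl
    · refine ⟨X₀, Y₀, h₀, rfl, fun e he => ?_⟩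
      rw [rho_sq hW.short h2M he hxy hy]
      have hne : y ≠ (W.baseChange M).negY x y := by
        rw [hW.short.negY]
        intro h1
        have : 2 * y = 0 := by linear_combination h1
        rcases mul_eq_zero.mp this with h3 | h3
        · exact h2M h3
        · exact hy h3
      rw [two_nsmul, Point.add_self_of_Y_ne hne, Point.map_some] at hPQ
      simp only [Point.some.injEq] at hPQ
      rw [hPQ.1]
      rfl

/-- Equivariance of `θ ↦ j(b(θ)) ρ_{Dθ}(Q)`. -/
lemma IsDesc.equivariant {c : (Ω ≃ₐ[L] Ω) → (W.baseChange Ω).Point} {Z : Finset F}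
    {b : Ω → Ω} (h : IsDesc W g D c Z b) (h2M : (2 : M) ≠ 0)
    (hWM : IsTwist M W g D) (hg : g.Monic) (hdeg : g.natDegree = 3)
    (hc : ∀ σ, 2 • c σ = 0) (j : Ω →ₐ[L] M) (Q : (W.baseChange M).Point)
    (σ : M ≃ₐ[Lv] M) (σ' : Ω ≃ₐ[L] Ω) (hσ : ∀ x, j (σ' x) = σ (j x))
    (hcQ : Point.map (W' := W) j (c σ') = Point.map (W' := W) (σ : M →ₐ[Lv] M) Q - Q)
    {θ : Ω} (hθ : θ ∈ RootSet (Ω := Ω) g) :
    σ (j (b θ) * rho (algebraMap F[X] M D * j θ) Q) =
      j (b (σ' θ)) * rho (algebraMap F[X] M D * j (σ' θ)) Q := by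
  have hσQ : Point.map (W' := W) (σ : M →ₐ[Lv] M) Q = Q + Point.map (W' := W) j (c σ') := by
    rw [hcQ]; abel
  have hjc : 2 • Point.map (W' := W) j (c σ') = 0 := by rw [← map_nsmul, hc, map_zero]
  have hσθ := map_mem_rootSet σ' hθ
  have hjσθ : j (σ' θ) ∈ RootSet (Ω := M) g := by
    change ev F M (j (σ' θ)) g = _
    rw [← ev_algHom (L := L), show ev F Ω (σ' θ) g = _ from hσθ, algHom_algebraMap_poly (L := L)]
  have hσd : σ (algebraMap F[X] M D) = algebraMap F[X] M D := by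
    rw [IsScalarTower.algebraMap_apply F[X] Lv M]; exact σ.commutes _
  have e1 : σ (rho (algebraMap F[X] M D * j θ) Q) =
      rho (algebraMap F[X] M D * j (σ' θ)) Q *
        rho (algebraMap F[X] M D * j (σ' θ)) (Point.map (W' := W) j (c σ')) := by
    rw [← rho_add hWM.short h2M (hWM.rt hg hdeg hjσθ) _ _ hjc, ← hσQ, hσ]
    have : algebraMap F[X] M D * σ (j θ) = (σ : M →ₐ[Lv] M) (algebraMap F[X] M D * j θ) := by
      change _ = σ (algebraMap F[X] M D * j θ)
      rw [map_mul, hσd]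
    rw [this, rho_map]
    rfl
  have e2 : σ (j (b θ)) = rho (algebraMap F[X] M D * j (σ' θ)) (Point.map (W' := W) j (c σ')) *
      j (b (σ' θ)) := by
    rw [← hσ, h.act θ hθ, map_mul]
    congr 1
    rw [← algHom_algebraMap_poly (L := L) j D, ← map_mul, rho_map]
  rw [map_mul, e1, e2]
  linear_combination (j (b (σ' θ)) * rho (algebraMap F[X] M D * j (σ' θ)) Q) *
    rho_two_torsion_mul_self hWM.short h2M (algebraMap F[X] M D * j (σ' θ)) hjc

/-- The local condition at a place of good reduction at which `β` is a simple root of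
`g(x) = g(β)`: the point `β` does not belong to `Z`. -/
lemma IsDesc.notMem_of_local {c : (Ω ≃ₐ[L] Ω) → (W.baseChange Ω).Point} {Z : Finset F}
    {b : Ω → Ω} (h : IsDesc W g D c Z b) (h2 : (2 : Lv) ≠ 0)
    (hW : IsTwist L W g D) (hg : g.Monic) (hdeg : g.natDegree = 3) (hd : derivative g ≠ 0)
    (hD : D ≠ 0) (hc : ∀ σ, 2 • c σ = 0) (j : Ω →ₐ[L] M)
    (w : Valuation Lv (WithZero (Multiplicative ℤ))) {θv : Lv} (hθv : θv ∈ RootSet (Ω := Lv) g)
    {β : F} (hβ : w (θv - algebraMap F[X] Lv (C β)) = WithZero.exp (-1 : ℤ))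
    (hβ' : ∀ β' : F, β' ≠ β → w (θv - algebraMap F[X] Lv (C β')) = 1)
    (hwD : w (algebraMap F[X] Lv D) = 1) (hint : ∀ p : F[X], w (algebraMap F[X] Lv p) ≤ 1)
    (hwg : w (ev F Lv θv (derivative g)) = 1)
    (hwt : w (algebraMap F[X] Lv (X - C (g.eval β))) = WithZero.exp (-1 : ℤ))
    (hwt' : ∀ α : F, α ≠ g.eval β → w (algebraMap F[X] Lv (X - C α)) = 1)
    (P : (W.baseChange Lv).Point) (Q : (W.baseChange M).Point)
    (hPQ : 2 • Q = Point.map (W' := W) (Algebra.ofId Lv M) P)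
    (hcQ : ∀ (σ : M ≃ₐ[Lv] M) (σ' : Ω ≃ₐ[L] Ω), (∀ x, j (σ' x) = σ (j x)) →
      Point.map (W' := W) j (c σ') = Point.map (W' := W) (σ : M →ₐ[Lv] M) Q - Q) : β ∉ Z := by
  have hWΩ : IsTwist Ω W g D := hW.up
  have hWv : IsTwist Lv W g D := hW.up
  have hWM : IsTwist M W g D := hW.up
  have inj : Function.Injective (algebraMap Lv M) := (algebraMap Lv M).injective
  have h2M : (2 : M) ≠ 0 := by
    intro h0; apply h2; apply inj; rw [map_ofNat, h0, map_zero]
  have h2Ω : (2 : Ω) ≠ 0 := by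
    intro h0; apply h2M
    have := congrArg j h0
    rwa [map_ofNat, map_zero] at this
  obtain ⟨hne, hlg⟩ := lg_root_prod w hβ hβ' Z
  -- it suffices that the valuation of the product is even
  suffices hev : Even (lg w (∏ β' ∈ Z, (θv - algebraMap F[X] Lv (C β')))) by
    intro hZ
    rw [hlg, if_pos hZ] at hev
    exact absurd hev (by decide)
  have hθM : algebraMap Lv M θv ∈ RootSet (Ω := M) g := by
    have h0 : ev F Lv θv g = algebraMap F[X] Lv X := hθv
    have h1 : (algebraMap Lv M) (ev F Lv θv g) = ev F M (algebraMap Lv M θv) g := by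
      have h : (algebraMap Lv M).comp (ev F Lv θv) = ev F M (algebraMap Lv M θv) := by
        apply Polynomial.ringHom_ext
        · intro a
          simp only [RingHom.comp_apply, ev_C]
          rw [← IsScalarTower.algebraMap_apply]
        · simp [ev_X]
      exact RingHom.congr_fun h g
    change ev F M (algebraMap Lv M θv) g = _
    rw [← h1, h0, ← IsScalarTower.algebraMap_apply]
  obtain ⟨θ, hθ, hjθ⟩ := exists_root_of_mem (F := F) (L := L) hg hdeg hd j hθM
  have hd0 : algebraMap F[X] Ω D ≠ 0 := algebraMap_ne_zero_Om L hD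
  have hd0M : algebraMap F[X] M D ≠ 0 := by
    rw [← algHom_algebraMap_poly (L := L) j D]
    exact (map_ne_zero j).mpr hd0
  set z : Ω → M := fun θ' => j (b θ') * rho (algebraMap F[X] M D * j θ') Q with hz
  have hzσ : ∀ (σ : M ≃ₐ[Lv] M) (σ' : Ω ≃ₐ[L] Ω), (∀ x, j (σ' x) = σ (j x)) →
      ∀ θ' ∈ RootSet (Ω := Ω) g, σ (z θ') = z (σ' θ') :=
    fun σ σ' hσ θ' hθ' => h.equivariant h2M hWM hg hdeg hc j Q σ σ' hσ (hcQ σ σ' hσ) hθ'
  have hres : ∀ σ : M ≃ₐ[Lv] M, ∃ σ' : Ω ≃ₐ[L] Ω, (∀ x, j (σ' x) = σ (j x)) ∧ σ' θ = θ := by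
    intro σ
    obtain ⟨σ', hσ'⟩ := exists_restrict (F := L) j (σ.restrictScalars L)
    refine ⟨σ', hσ', j.injective ?_⟩
    change j (σ' θ) = j θ
    rw [hσ', hjθ]
    exact σ.commutes _
  -- the element `z θ`
  obtain ⟨y, hy⟩ := exists_of_fixed (F := Lv) (x := z θ) (by
    intro σ
    obtain ⟨σ', h1, h3⟩ := hres σ
    rw [hzσ σ σ' h1 θ hθ, h3])
  have hjb : ∀ θ' ∈ RootSet (Ω := Ω) g, j (b θ') ^ 2 =
      ∏ β' ∈ Z, (j θ' - algebraMap F[X] M (C β')) := by
    intro θ' hθ'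
    rw [← map_pow, h.sq θ' hθ', map_prod]
    apply Finset.prod_congr rfl
    intro β' _
    rw [map_sub, algHom_algebraMap_poly]
  have hprodM : algebraMap Lv M (∏ β' ∈ Z, (θv - algebraMap F[X] Lv (C β'))) = j (b θ) ^ 2 := by
    rw [hjb θ hθ, map_prod]
    apply Finset.prod_congr rfl
    intro β' _
    rw [map_sub, hjθ, ← IsScalarTower.algebraMap_apply]
  have hprod0 : (∏ β' ∈ Z, (θv - algebraMap F[X] Lv (C β'))) ≠ 0 :=
    Finset.prod_ne_zero_iff.mpr fun β' _ => hne β'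
  rcases rho_sq_of_double hWM h2M P Q hPQ with hρ | ⟨X₀, Y₀, h₀, rfl, hρ⟩
  · -- the class is locally the class of a two-torsion point
    have h5 : y ^ 2 = ∏ β' ∈ Z, (θv - algebraMap F[X] Lv (C β')) := by
      apply inj
      rw [hprodM, map_pow, hy, hz]
      simp only
      rw [mul_pow, hρ, mul_one]
    rw [← h5, lg_pow]
    exact ⟨lg w y, by push_cast; ring⟩
  · have hrtv : Rt (W.baseChange Lv) (algebraMap F[X] Lv D * θv) := hWv.rt hg hdeg hθv
    have hem : algebraMap F[X] M D * j θ = algebraMap Lv M (algebraMap F[X] Lv D * θv) := by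
      rw [map_mul, hjθ, ← IsScalarTower.algebraMap_apply]
    have hjmem : ∀ θ' ∈ RootSet (Ω := Ω) g, j θ' ∈ RootSet (Ω := M) g := by
      intro θ' hθ'
      change ev F M (j θ') g = _
      rw [← ev_algHom (L := L), show ev F Ω θ' g = _ from hθ', algHom_algebraMap_poly (L := L)]
    by_cases hX : X₀ = algebraMap F[X] Lv D * θv
    · -- the special case
      obtain ⟨θ₂, θ₃, n2, n3, n23, hR, heval, hder⟩ :=
        exists_other_roots (F := F) L (Ω := Ω) hg hdeg hd hθ
      have hm2 : θ₂ ∈ RootSet (Ω := Ω) g := (hR _).mpr (Or.inr (Or.inl rfl))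
      have hm3 : θ₃ ∈ RootSet (Ω := Ω) g := (hR _).mpr (Or.inr (Or.inr rfl))
      obtain ⟨y', hy'⟩ := exists_of_fixed (F := Lv) (x := z θ₂ * z θ₃) (by
        intro σ
        obtain ⟨σ', h1, h3⟩ := hres σ
        rw [map_mul, hzσ σ σ' h1 θ₂ hm2, hzσ σ σ' h1 θ₃ hm3]
        have k2 := (hR _).mp (map_mem_rootSet σ' hm2)
        have k3 := (hR _).mp (map_mem_rootSet σ' hm3)
        have q2 : σ' θ₂ ≠ θ := fun h0 => n2 (σ'.injective (h3.trans h0.symm))
        have q3 : σ' θ₃ ≠ θ := fun h0 => n3 (σ'.injective (h3.trans h0.symm))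
        have q23 : σ' θ₂ ≠ σ' θ₃ := fun h0 => n23 (σ'.injective h0)
        rcases k2 with k2 | k2 | k2
        · exact absurd k2 q2
        · rcases k3 with k3 | k3 | k3
          · exact absurd k3 q3
          · exact absurd (k2.trans k3.symm) q23
          · rw [k2, k3]
        · rcases k3 with k3 | k3 | k3
          · exact absurd k3 q3
          · rw [k2, k3, mul_comm]
          · exact absurd (k2.trans k3.symm) q23)
      -- the key identity
      have hprodT : ∏ β' ∈ Z, algebraMap F[X] Lv (X - C (g.eval β')) ≠ 0 := by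
        rw [Finset.prod_ne_zero_iff]
        intro β' _ h0
        by_cases hb : g.eval β' = g.eval β
        · rw [hb] at h0
          rw [h0, map_zero] at hwt
          exact WithZero.exp_ne_zero hwt.symm
        · have := hwt' _ hb
          rw [h0, map_zero] at this
          exact zero_ne_one this
      have key : y' ^ 2 * ∏ β' ∈ Z, (θv - algebraMap F[X] Lv (C β')) =
          (∏ β' ∈ Z, algebraMap F[X] Lv (X - C (g.eval β'))) *
            ((algebraMap F[X] Lv D) ^ 2 * ev F Lv θv (derivative g)) := by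
        apply inj
        rw [map_mul, map_mul, map_pow, hy', hz]
        simp only
        rw [mul_pow, mul_pow, mul_pow, hjb θ₂ hm2, hjb θ₃ hm3,
          hρ _ (hWM.rt hg hdeg (hjmem θ₂ hm2)), hρ _ (hWM.rt hg hdeg (hjmem θ₃ hm3)), hprodM,
          hjb θ hθ, map_prod]
        have e1 : ∀ β' ∈ Z, algebraMap Lv M (algebraMap F[X] Lv (X - C (g.eval β'))) =
            (j θ - algebraMap F[X] M (C β')) * (j θ₂ - algebraMap F[X] M (C β')) *
              (j θ₃ - algebraMap F[X] M (C β')) := by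
          intro β' _
          have h3 := heval (algebraMap F[X] Ω (C β'))
          rw [ev_const] at h3
          have h4 := congrArg j h3
          simp only [map_sub, map_mul, algHom_algebraMap_poly] at h4
          rw [← IsScalarTower.algebraMap_apply, map_sub]
          linear_combination -h4
        rw [Finset.prod_congr rfl e1, Finset.prod_mul_distrib, Finset.prod_mul_distrib]
        have e2 : algebraMap Lv M (algebraMap F[X] Lv D ^ 2 * ev F Lv θv (derivative g)) =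
            (algebraMap F[X] M D * j θ - algebraMap F[X] M D * j θ₂) *
            (algebraMap F[X] M D * j θ - algebraMap F[X] M D * j θ₃) := by
          have h3 : algebraMap Lv M (ev F Lv θv (derivative g)) = j (ev F Ω θ (derivative g)) := by
            rw [ev_derivative_cubic hg hdeg, ev_derivative_cubic hg hdeg]
            simp only [map_add, map_mul, map_pow, map_ofNat, hjθ, algHom_algebraMap_poly,
              ← IsScalarTower.algebraMap_apply]
          rw [map_mul, map_pow, ← IsScalarTower.algebraMap_apply, h3, hder, map_mul, map_sub,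
            map_sub]
          ring
        rw [e2, hX, ← hem]
        ring
      have h6 := congrArg (lg w) key
      have hy'0 : y' ≠ 0 := by
        intro h0
        rw [h0, zero_pow two_ne_zero, zero_mul, eq_comm, mul_eq_zero, mul_eq_zero] at key
        rcases key with k | k | k
        · exact hprodT k
        · rw [pow_eq_zero_iff two_ne_zero] at k
          exact ne_zero_of_val_one w hwD k
        · exact ne_zero_of_val_one w hwg k
      have hwd2 : w ((algebraMap F[X] Lv D) ^ 2 * ev F Lv θv (derivative g)) = 1 := by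
        rw [map_mul, map_pow, hwD, hwg]; simp
      have hlp := lg_prod w Z (fun β' => algebraMap F[X] Lv (X - C (g.eval β'))) (fun β' hb => by
          intro h0
          exact hprodT (Finset.prod_eq_zero hb h0))
      rw [lg_mul w (pow_ne_zero 2 hy'0) hprod0, lg_mul w hprodT (ne_zero_of_val_one w hwd2),
        lg_eq_zero_of w hwd2, lg_pow, hlp] at h6
      have h7 : ∀ β' ∈ Z, lg w (algebraMap F[X] Lv (X - C (g.eval β'))) =
          if g.eval β' = g.eval β then -1 else 0 := by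
        intro β' _
        by_cases hb : g.eval β' = g.eval β
        · rw [if_pos hb, hb]
          unfold lg
          rw [hwt, WithZero.log_exp]
        · rw [if_neg hb]
          exact lg_eq_zero_of w (hwt' _ hb)
      obtain ⟨r, hr⟩ := h.even h2Ω hWΩ hg hdeg hd hD hc (g.eval β)
      rw [Finset.sum_congr rfl h7, ← Finset.sum_filter, Finset.sum_const, hr, nsmul_eq_mul] at h6
      exact ⟨-r - lg w y', by push_cast at h6; linarith⟩
    · have hu : X₀ - algebraMap F[X] Lv D * θv ≠ 0 := sub_ne_zero.mpr hX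
      have h5 : y ^ 2 = (∏ β' ∈ Z, (θv - algebraMap F[X] Lv (C β'))) *
          (X₀ - algebraMap F[X] Lv D * θv) := by
        apply inj
        rw [map_mul, hprodM, map_pow, hy, hz]
        simp only
        rw [mul_pow, hρ _ (hWM.rt hg hdeg (hjmem θ hθ)), hem, map_sub]
      have h6 := congrArg (lg w) h5
      rw [lg_pow, lg_mul w hprod0 hu] at h6
      have h7 : Even (lg w (X₀ - algebraMap F[X] Lv D * θv)) := by
        have heq := hWv.short.equation h₀.1
        have hθint : w θv ≤ 1 := by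
          have : θv = (θv - algebraMap F[X] Lv (C β)) + algebraMap F[X] Lv (C β) := by ring
          rw [this]
          apply le_trans (w.map_add _ _)
          rw [max_le_iff]
          refine ⟨?_, hint _⟩
          rw [hβ, ← WithZero.exp_zero]
          exact WithZero.exp_le_exp.mpr (by norm_num)
        set d := algebraMap F[X] Lv D with hdd
        set e := d * θv with he
        have ea2 : (W.baseChange Lv).a₂ = algebraMap F[X] Lv (C (g.coeff 2)) * d := by
          rw [hdd, ← map_mul]; exact hWv.a₂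
        have ea4 : (W.baseChange Lv).a₄ = algebraMap F[X] Lv (C (g.coeff 1)) * d ^ 2 := by
          rw [hdd, ← map_pow, ← map_mul]; exact hWv.a₄
        have ha : w (algebraMap F[X] Lv (3 * D) * θv + algebraMap F[X] Lv (C (g.coeff 2) * D)) ≤
            1 := by
          apply le_trans (w.map_add _ _)
          rw [max_le_iff, map_mul]
          exact ⟨mul_le_one' (hint _) hθint, hint _⟩
        have hq : w (d ^ 2 * ev F Lv θv (derivative g)) = 1 := by
          rw [map_mul, map_pow, hwD, hwg]; simp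
        apply even_lg_of_eq w hu ha hq (Y := Y₀)
        rw [heq, ev_derivative_cubic hg hdeg, ea2, ea4]
        rw [Rt, ea2, ea4] at hrtv
        simp only [map_mul, map_ofNat, ← hdd]
        linear_combination hrtv
      obtain ⟨r, hr⟩ := h7
      exact ⟨lg w y - r, by push_cast at h6; linarith⟩

end Local

end Pool.Agent.Lib.MP_89bcae_ag

end

section

/-!
# Quadratic characters of a discretely valued field all of whose units are squares
-/

open Polynomial WeierstrassCurve WeierstrassCurve.Affine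

namespace Pool.Agent.Lib.MP_89bcae_ag

set_option linter.unusedSectionVars false

section Comp

variable {L Ω K M : Type*} [Field L] [Field Ω] [Algebra L Ω] [Field K] [Field M] [Algebra K M]
  [Algebra.IsAlgebraic K M]

/-- A locally constant function on a Galois group stays locally constant after composition with a
map induced by an embedding. -/
lemma isLocallyConstant_comp8 {Y : Type*} (ι : Ω →+* M) (ψ : (M ≃ₐ[K] M) → (Ω ≃ₐ[L] Ω))
    (hψ : ∀ σ x, ι (ψ σ x) = σ (ι x)) {f : (Ω ≃ₐ[L] Ω) → Y} (hf : IsLocallyConstant f) :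
    IsLocallyConstant (fun σ => f (ψ σ)) := by
  classical
  rw [IsLocallyConstant.iff_exists_open]
  intro σ₁
  have h1 : (fun h => ψ σ₁ * h) ⁻¹' (f ⁻¹' {f (ψ σ₁)}) ∈ nhds (1 : Ω ≃ₐ[L] Ω) := by
    apply (continuous_const_mul (ψ σ₁)).continuousAt.preimage_mem_nhds
    rw [mul_one]
    exact (hf.isOpen_fiber _).mem_nhds rfl
  obtain ⟨E, hE, hEs⟩ := (krullTopology_mem_nhds_one_iff L Ω _).mp h1
  obtain ⟨S, hS⟩ : E.FG := IntermediateField.essFiniteType_iff.mp inferInstance
  refine ⟨⋂ x ∈ S, {σ : M ≃ₐ[K] M | σ (ι x) = σ₁ (ι x)}, ?_, ?_, ?_⟩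
  · apply isOpen_biInter_finset
    intro x _
    exact (isLocallyConstant_apply8 (F := K) (ι x)).isOpen_fiber (σ₁ (ι x))
  · simp
  · intro σ hσ
    have h2 : (ψ σ₁)⁻¹ * ψ σ ∈ E.fixingSubgroup := by
      rw [← hS, IntermediateField.mem_fixingSubgroup_iff]
      intro y hy
      have h3 : (ψ σ₁)⁻¹ * ψ σ ∈ (IntermediateField.adjoin L (S : Set Ω)).fixingSubgroup := by
        rw [← Subgroup.zpowers_le, ← IntermediateField.le_iff_le, IntermediateField.adjoin_le_iff]
        intro x hx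
        rw [SetLike.mem_coe, IntermediateField.mem_fixedField_iff]
        intro τ hτ
        have h4 : ((ψ σ₁)⁻¹ * ψ σ) x = x := by
          apply (ψ σ₁).injective
          rw [← AlgEquiv.mul_apply, mul_inv_cancel_left]
          apply ι.injective
          rw [hψ, hψ]
          have := Set.mem_iInter₂.mp hσ x hx
          exact this
        obtain ⟨n, rfl⟩ := Subgroup.mem_zpowers_iff.mp hτ
        have h5 : (ψ σ₁)⁻¹ * ψ σ ∈ MulAction.stabilizer (Ω ≃ₐ[L] Ω) x := h4
        exact (MulAction.stabilizer (Ω ≃ₐ[L] Ω) x).zpow_mem h5 n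
      exact (IntermediateField.mem_fixingSubgroup_iff _ _).mp h3 y hy
    have h3 := hEs h2
    have h4 : f (ψ σ₁ * ((ψ σ₁)⁻¹ * ψ σ)) = f (ψ σ₁) := h3
    rwa [mul_inv_cancel_left] at h4

end Comp

section Units

variable {K Ω : Type*} [Field K] [Field Ω] [Algebra K Ω]
  (w : Valuation K (WithZero (Multiplicative ℤ)))

lemma lg_zpow {x : K} (hx : x ≠ 0) (n : ℤ) : lg w (x ^ n) = n * lg w x := by
  rcases n with n | n
  · rw [Int.ofNat_eq_natCast, zpow_natCast, lg_pow]
  · rw [zpow_negSucc]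
    have h1 : lg w ((x ^ (n + 1))⁻¹) = -lg w (x ^ (n + 1)) := by
      have h2 := lg_mul w (inv_ne_zero (pow_ne_zero (n + 1) hx)) (pow_ne_zero (n + 1) hx)
      rw [inv_mul_cancel₀ (pow_ne_zero _ hx), lg_one] at h2
      linarith
    rw [h1, lg_pow, Int.negSucc_eq]
    push_cast
    ring

lemma val_one_of_lg {x : K} (hx : x ≠ 0) (h : lg w x = 0) : w x = 1 := by
  unfold lg at h
  have := WithZero.exp_log (show w x ≠ 0 from (map_ne_zero w).mpr hx)
  rw [h, WithZero.exp_zero] at this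
  exact this.symm

/-- If the valuation of `x` is even, then `x` is a square. -/
lemma exists_sqrt_of_even {π : K} (hπ : w π = WithZero.exp (-1 : ℤ))
    (hsq : ∀ x : K, w x = 1 → ∃ r, r ^ 2 = x) {x : K} (hx : x ≠ 0) (h : Even (lg w x)) :
    ∃ r, r ^ 2 = x := by
  obtain ⟨n, hn⟩ := h
  have hπ0 : π ≠ 0 := by
    rintro rfl
    rw [map_zero] at hπ
    exact WithZero.exp_ne_zero hπ.symm
  have hlπ : lg w π = -1 := by
    unfold lg
    rw [hπ, WithZero.log_exp]
  have h1 : w (x * (π ^ n) ^ 2) = 1 := by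
    apply val_one_of_lg w (mul_ne_zero hx (pow_ne_zero 2 (zpow_ne_zero n hπ0)))
    rw [lg_mul w hx (pow_ne_zero 2 (zpow_ne_zero n hπ0)), lg_pow, lg_zpow w hπ0, hlπ, hn]
    push_cast
    ring
  obtain ⟨r, hr⟩ := hsq _ h1
  refine ⟨r / π ^ n, ?_⟩
  rw [div_pow, hr]
  field_simp [zpow_ne_zero n hπ0]

/-- Square roots of elements of even valuation are rational. -/
lemma exists_rational_sqrt {π : K} (hπ : w π = WithZero.exp (-1 : ℤ))
    (hsq : ∀ x : K, w x = 1 → ∃ r, r ^ 2 = x) {x : K} (hx : x ≠ 0) (h : Even (lg w x)) {d : Ω}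
    (hd : d ^ 2 = algebraMap K Ω x) : ∃ r, algebraMap K Ω r = d := by
  obtain ⟨r, hr⟩ := exists_sqrt_of_even w hπ hsq hx h
  have h1 : (d - algebraMap K Ω r) * (d + algebraMap K Ω r) = 0 := by
    rw [← hr, map_pow] at hd
    linear_combination hd
  rcases mul_eq_zero.mp h1 with h2 | h2
  · exact ⟨r, (sub_eq_zero.mp h2).symm⟩
  · exact ⟨-r, by rw [map_neg]; linear_combination -h2⟩

variable {w} in
/-- The Galois action on a square root of an element of odd valuation. -/
lemma sqrt_odd {π : K} (hπ : w π = WithZero.exp (-1 : ℤ))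
    (hsq : ∀ x : K, w x = 1 → ∃ r, r ^ 2 = x) {S : Ω} (hS : S ^ 2 = algebraMap K Ω π) {x : K}
    (hx : x ≠ 0) (h : Odd (lg w x)) {d : Ω} (hd : d ^ 2 = algebraMap K Ω x) (σ : Ω ≃ₐ[K] Ω) :
    σ d * S = d * σ S := by
  have hπ0 : π ≠ 0 := by
    rintro rfl
    rw [map_zero] at hπ
    exact WithZero.exp_ne_zero hπ.symm
  have hlπ : lg w π = -1 := by
    unfold lg
    rw [hπ, WithZero.log_exp]
  have hS0 : S ≠ 0 := by
    rintro rfl
    rw [zero_pow two_ne_zero, eq_comm, map_eq_zero] at hS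
    exact hπ0 hS
  obtain ⟨r, hr⟩ := exists_rational_sqrt w hπ hsq (x := x * π) (mul_ne_zero hx hπ0) (by
    rw [lg_mul w hx hπ0, hlπ]
    exact h.add_odd (by decide)) (d := d * S) (by rw [mul_pow, hd, hS, map_mul])
  have h1 : σ d * σ S = d * S := by
    rw [← map_mul, ← hr, σ.commutes]
  have h2 : σ S ^ 2 = S ^ 2 := by rw [← map_pow, hS, σ.commutes]
  have hσS : σ S ≠ 0 := (map_ne_zero σ).mpr hS0
  apply mul_right_cancel₀ hσS
  linear_combination S * h1 - d * h2

/-- A square root of a uniformizer is moved by some element of the Galois group. -/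
lemma exists_moves [IsGalois K Ω] {π : K} (hπ : w π = WithZero.exp (-1 : ℤ)) {S : Ω}
    (hS : S ^ 2 = algebraMap K Ω π) : ∃ σ : Ω ≃ₐ[K] Ω, σ S = -S := by
  by_contra hcon
  push Not at hcon
  have h1 : ∀ σ : Ω ≃ₐ[K] Ω, σ S = S := by
    intro σ
    have h2 : (σ S - S) * (σ S + S) = 0 := by
      have : σ S ^ 2 = S ^ 2 := by rw [← map_pow, hS, σ.commutes]
      linear_combination this
    rcases mul_eq_zero.mp h2 with h | h
    · exact sub_eq_zero.mp h
    · exact absurd (by linear_combination h) (hcon σ)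
  obtain ⟨y, hy⟩ := exists_of_fixed (F := K) (x := S) h1
  have h3 : y ^ 2 = π := by
    apply (algebraMap K Ω).injective
    rw [map_pow, hy, hS]
  have h4 := lg_pow w (x := y) 2
  rw [h3] at h4
  have hlπ : lg w π = -1 := by
    unfold lg
    rw [hπ, WithZero.log_exp]
  rw [hlπ] at h4
  push_cast at h4
  omega

lemma smul_sign [IsGalois K Ω] {π : K} {S : Ω}
    (hS : S ^ 2 = algebraMap K Ω π) (σ : Ω ≃ₐ[K] Ω) : σ S = S ∨ σ S = -S := by
  have h2 : (σ S - S) * (σ S + S) = 0 := by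
    have : σ S ^ 2 = S ^ 2 := by rw [← map_pow, hS, σ.commutes]
    linear_combination this
  rcases mul_eq_zero.mp h2 with h | h
  · exact Or.inl (sub_eq_zero.mp h)
  · exact Or.inr (by linear_combination h)

/-- A sign character which is trivial at an element moving the square root of a uniformizer is
trivial. -/
lemma char_trivial [IsGalois K Ω] (h2 : (2 : Ω) ≠ 0) {π : K} (hπ : w π = WithZero.exp (-1 : ℤ))
    (hsq : ∀ x : K, w x = 1 → ∃ r, r ^ 2 = x) {S : Ω} (hS : S ^ 2 = algebraMap K Ω π)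
    {σ₀ : Ω ≃ₐ[K] Ω} (hσ₀ : σ₀ S = -S) (χ : (Ω ≃ₐ[K] Ω) → Ω)
    (hsign : ∀ σ, χ σ = 1 ∨ χ σ = -1) (hmul : ∀ σ τ, χ (σ * τ) = χ σ * χ τ)
    (hloc : IsLocallyConstant χ) (h0 : χ σ₀ = 1) (σ : Ω ≃ₐ[K] Ω) : χ σ = 1 := by
  obtain ⟨b, hb0, hb⟩ := exists_kummer_gen (0 : Ω) χ (fun σ _ => hsign σ)
    (fun σ τ _ _ => hmul σ τ) hloc
  have hb' : ∀ σ : Ω ≃ₐ[K] Ω, σ b = χ σ * b := fun σ => hb σ (map_zero σ)
  obtain ⟨x, hx⟩ := exists_of_fixed (F := K) (x := b ^ 2) (by
    intro σ
    rw [map_pow, hb']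
    rcases hsign σ with h | h <;> rw [h] <;> ring)
  have hx0 : x ≠ 0 := by
    rintro rfl
    rw [map_zero] at hx
    exact hb0 (pow_eq_zero_iff two_ne_zero |>.mp hx.symm)
  have hπ0 : π ≠ 0 := by
    rintro rfl
    rw [map_zero] at hπ
    exact WithZero.exp_ne_zero hπ.symm
  have hS0 : S ≠ 0 := by
    rintro rfl
    rw [zero_pow two_ne_zero, eq_comm, map_eq_zero] at hS
    exact hπ0 hS
  rcases Int.even_or_odd (lg w x) with he | ho
  · obtain ⟨r, hr⟩ := exists_rational_sqrt w hπ hsq hx0 he (d := b) hx.symm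
    have h1 := hb' σ
    rw [← hr, σ.commutes] at h1
    have h3 : algebraMap K Ω r ≠ 0 := by rw [hr]; exact hb0
    exact (mul_right_cancel₀ h3 (by rw [one_mul]; exact h1)).symm
  · exfalso
    have h1 := sqrt_odd hπ hsq hS hx0 ho (d := b) hx.symm σ₀
    rw [hb', h0, one_mul, hσ₀] at h1
    have h3 : 2 * (b * S) = 0 := by linear_combination h1
    rcases mul_eq_zero.mp h3 with h | h
    · exact h2 h
    · exact mul_ne_zero hb0 hS0 h

end Units

end Pool.Agent.Lib.MP_89bcae_ag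

end

section

open NumberField Polynomial

namespace Pool.Agent.Lib.MP_89bcae_ag.Re

/-- A nonzero integer is not killed modulo large primes. Proof: `φ b = 0` implies that the norm of `b`
(`Algebra.norm ℤ b`, a nonzero integer, which is a multiple of `b` in `𝓞 K`:
`Algebra.dvd_norm` or `Ideal.absNorm_mem` for the ideal `span {b}`) is zero in `ZMod q`; so `q` divides
it; take `N` its absolute value. -/
theorem exists_bound_ne_zero (K : Type*) [Field K] [NumberField K] {b : 𝓞 K} (hb : b ≠ 0) :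
    ∃ N : ℕ, ∀ (q : ℕ) [Fact q.Prime], N < q → ∀ φ : 𝓞 K →+* ZMod q, φ b ≠ 0 := by
  have hn : Algebra.norm ℤ b ≠ 0 := by
    rw [Ne, Algebra.norm_eq_zero_iff]; exact hb
  refine ⟨(Algebra.norm ℤ b).natAbs, ?_⟩
  intro q _ hq φ hφ
  have hmem : ((Ideal.span {b} : Ideal (𝓞 K)).absNorm : 𝓞 K) ∈ Ideal.span {b} :=
    Ideal.absNorm_mem _
  rw [Ideal.absNorm_span_singleton, Ideal.mem_span_singleton] at hmem
  obtain ⟨c, hc⟩ := hmem
  have h0 : (((Algebra.norm ℤ b).natAbs : ℕ) : ZMod q) = 0 := by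
    have := congrArg φ hc
    rw [map_natCast, map_mul, hφ, zero_mul] at this
    exact this
  rw [ZMod.natCast_eq_zero_iff] at h0
  exact absurd (Nat.le_of_dvd (Int.natAbs_pos.mpr hn) h0) (by omega)

/-- **Primes with a non-residue.** Proof: suppose the contrary for all `q > N`. The polynomial
`X ^ ℓ - C b` is irreducible over `K` (`X_pow_sub_C_irreducible_of_prime`); let
`K' = AdjoinRoot (X ^ ℓ - C b)`, a number field (finite over `K`), `α` the root, which is integral,
so it is an element of `𝓞 K'` with `α ^ ℓ = b`, `K' = K(α)` (`AdjoinRoot.adjoinRoot_eq_top`). By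
`exists_denominator`, `exists_bound_ne_zero` and `mul_idealCount_le`, for all large primes `q` we have
`ℓ * idealCount K q ≤ idealCount K' q`: contradiction with `not_mul_le`. -/
theorem exists_nonresidue (K : Type*) [Field K] [NumberField K] {ℓ : ℕ} (hℓ : ℓ.Prime)
    {ζ : 𝓞 K} (hζ : IsPrimitiveRoot ζ ℓ) {b : 𝓞 K} (hb : b ≠ 0) (hb' : ∀ x : K, x ^ ℓ ≠ b) (N : ℕ) :
    ∃ (q : ℕ) (_ : Fact q.Prime), N < q ∧ ∃ φ : 𝓞 K →+* ZMod q,
      φ b ≠ 0 ∧ ∀ y : ZMod q, y ^ ℓ ≠ φ b := by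
  classical
  by_contra hcon
  have hall : ∀ (q : ℕ) [Fact q.Prime], N < q → ∀ φ : 𝓞 K →+* ZMod q, φ b ≠ 0 →
      ∃ y : ZMod q, y ^ ℓ = φ b := by
    intro q hq hN φ hφ
    by_contra hy
    push Not at hy
    exact hcon ⟨q, hq, hN, φ, hφ, hy⟩
  have hirr : Irreducible (X ^ ℓ - C (b : K)) := X_pow_sub_C_irreducible_of_prime hℓ hb'
  have : Fact (Irreducible (X ^ ℓ - C (b : K))) := ⟨hirr⟩
  have hmonic : (X ^ ℓ - C (b : K)).Monic := monic_X_pow_sub_C (b : K) hℓ.ne_zero
  have : Module.Finite K (AdjoinRoot (X ^ ℓ - C (b : K))) := hmonic.finite_adjoinRoot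
  have : NumberField (AdjoinRoot (X ^ ℓ - C (b : K))) :=
    NumberField.of_module_finite K (AdjoinRoot (X ^ ℓ - C (b : K)))
  have hroot : (AdjoinRoot.root (X ^ ℓ - C (b : K))) ^ ℓ =
      algebraMap K (AdjoinRoot (X ^ ℓ - C (b : K))) (b : K) := by
    have h := AdjoinRoot.eval₂_root (X ^ ℓ - C (b : K))
    rw [eval₂_sub, eval₂_pow, eval₂_X, eval₂_C] at h
    exact sub_eq_zero.1 h
  have hint : IsIntegral ℤ (AdjoinRoot.root (X ^ ℓ - C (b : K))) := by
    apply IsIntegral.of_pow hℓ.pos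
    rw [hroot]
    exact (RingOfIntegers.isIntegral_coe b).map (IsScalarTower.toAlgHom ℤ K _)
  let α : 𝓞 (AdjoinRoot (X ^ ℓ - C (b : K))) := ⟨AdjoinRoot.root (X ^ ℓ - C (b : K)), hint⟩
  have hαv : (α : AdjoinRoot (X ^ ℓ - C (b : K))) = AdjoinRoot.root (X ^ ℓ - C (b : K)) := rfl
  have hαb : α ^ ℓ = algebraMap (𝓞 K) (𝓞 (AdjoinRoot (X ^ ℓ - C (b : K)))) b := by
    apply RingOfIntegers.ext
    exact hroot
  obtain ⟨M, hM0, hM⟩ := exists_denominator K (AdjoinRoot (X ^ ℓ - C (b : K))) (α := α)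
    (by rw [hαv]; exact AdjoinRoot.adjoinRoot_eq_top)
  obtain ⟨N1, hN1⟩ := exists_bound_ne_zero K hb
  obtain ⟨q, hq, hqq, hlt⟩ := not_mul_le K (AdjoinRoot (X ^ ℓ - C (b : K))) hℓ.two_le
    (N + N1 + M + ℓ + 1)
  have : Fact q.Prime := ⟨hq⟩
  have hle : ℓ * idealCount K q ≤ idealCount (AdjoinRoot (X ^ ℓ - C (b : K))) q := by
    refine mul_idealCount_le K (AdjoinRoot (X ^ ℓ - C (b : K))) hℓ hζ hαb hirr hM ?_ (by omega) ?_
    · intro hd
      have := Nat.le_of_dvd (Nat.pos_of_ne_zero hM0) hd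
      omega
    · intro φ
      have h0 : φ b ≠ 0 := hN1 q (by omega) φ
      exact ⟨h0, hall q (by omega) φ h0⟩
  omega

end Pool.Agent.Lib.MP_89bcae_ag.Re

end

section

open NumberField Polynomial

namespace Pool.Agent.Lib.MP_89bcae_ag.Re

private def N15Mem (K : Type*) [Field K] [NumberField K] {q : ℕ} (φ : 𝓞 K →+* ZMod q) (x : K) :
    Prop :=
  ∃ a s : 𝓞 K, φ s ≠ 0 ∧ x * algebraMap (𝓞 K) K s = algebraMap (𝓞 K) K a

private theorem n15_bound (K : Type*) [Field K] [NumberField K] (z : K) :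
    ∃ N : ℕ, ∀ (q : ℕ) [Fact q.Prime], N < q → ∀ φ : 𝓞 K →+* ZMod q,
      N15Mem K φ z ∧ (z ≠ 0 → N15Mem K φ z⁻¹) := by
  obtain ⟨a, n, hn, rfl⟩ := IsFractionRing.div_surjective (A := 𝓞 K) z
  have hn0 : n ≠ 0 := nonZeroDivisors.ne_zero hn
  have hn0K : algebraMap (𝓞 K) K n ≠ 0 := by
    rw [Ne, map_eq_zero_iff _ (IsFractionRing.injective (𝓞 K) K)]
    exact hn0
  obtain ⟨N₁, hN₁⟩ := exists_bound_ne_zero K hn0
  by_cases ha : a = 0
  · subst ha
    refine ⟨N₁, fun q _ hq φ => ⟨⟨0, n, hN₁ q hq φ, ?_⟩, fun h => absurd ?_ h⟩⟩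
    · simp
    · simp
  · obtain ⟨N₂, hN₂⟩ := exists_bound_ne_zero K ha
    have haK : algebraMap (𝓞 K) K a ≠ 0 := by
      rw [Ne, map_eq_zero_iff _ (IsFractionRing.injective (𝓞 K) K)]
      exact ha
    refine ⟨max N₁ N₂, fun q _ hq φ => ⟨⟨a, n, hN₁ q ((le_max_left _ _).trans_lt hq) φ, ?_⟩,
      fun _ => ⟨n, a, hN₂ q ((le_max_right _ _).trans_lt hq) φ, ?_⟩⟩⟩
    · exact div_mul_cancel₀ _ hn0K
    · rw [inv_div]
      exact div_mul_cancel₀ _ haK

/-- Extension of a homomorphism to a larger subring of `K` containing given elements. Proof: let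
`A = {x : K | ∃ a s : 𝓞 K, φ s ≠ 0 ∧ x * s = a}`, a subring (the localization of `𝓞 K` at the kernel of
`φ`), and `Φ x = φ a / φ s` (well defined: `a s' = a' s` in `𝓞 K` if `x s = a`, `x s' = a'`, and `ZMod q`
is a field). For `z ∈ T` write `z = a / n` with `a ∈ 𝓞 K`, `n` a nonzero integer
(`IsLocalization`, `exists_integer_multiple`); `N` is such that for `q > N` no `φ` kills `n` and, if
`z ≠ 0`, `a` (`exists_bound_ne_zero`, for both). -/
theorem exists_subring (K : Type*) [Field K] [NumberField K] (T : Finset K) :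
    ∃ N : ℕ, ∀ (q : ℕ) [Fact q.Prime], N < q → ∀ φ : 𝓞 K →+* ZMod q,
      ∃ (A : Subring K) (Φ : A →+* ZMod q),
        (∀ x : 𝓞 K, ∃ h : (x : K) ∈ A, Φ ⟨x, h⟩ = φ x) ∧
        ∀ z ∈ T, z ∈ A ∧ (z ≠ 0 → z⁻¹ ∈ A) := by
  choose N hN using n15_bound K
  refine ⟨T.sup N, fun q _ hq φ => ?_⟩
  have hinj := IsFractionRing.injective (𝓞 K) K
  let A : Subring K :=
    { carrier := {x | N15Mem K φ x}
      mul_mem' := by
        rintro x y ⟨a, s, hs, hx⟩ ⟨b, t, ht, hy⟩
        refine ⟨a * b, s * t, ?_, ?_⟩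
        · rw [map_mul]; exact mul_ne_zero hs ht
        · rw [map_mul, map_mul, ← hx, ← hy]; ring
      one_mem' := ⟨1, 1, by rw [map_one]; exact one_ne_zero, by simp⟩
      add_mem' := by
        rintro x y ⟨a, s, hs, hx⟩ ⟨b, t, ht, hy⟩
        refine ⟨a * t + b * s, s * t, ?_, ?_⟩
        · rw [map_mul]; exact mul_ne_zero hs ht
        · rw [map_mul, map_add, map_mul, map_mul, ← hx, ← hy]; ring
      zero_mem' := ⟨0, 1, by rw [map_one]; exact one_ne_zero, by simp⟩
      neg_mem' := by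
        rintro x ⟨a, s, hs, hx⟩
        refine ⟨-a, s, hs, ?_⟩
        rw [map_neg, ← hx]; ring }
  have hA : ∀ x : A, ∃ a s : 𝓞 K, φ s ≠ 0 ∧ (x : K) * algebraMap (𝓞 K) K s = algebraMap (𝓞 K) K a :=
    fun x => x.2
  choose a s hs hx using hA
  have val : ∀ (x : A) (b t : 𝓞 K), φ t ≠ 0 →
      (x : K) * algebraMap (𝓞 K) K t = algebraMap (𝓞 K) K b → φ (a x) / φ (s x) = φ b / φ t := by
    intro x b t ht h
    rw [div_eq_div_iff (hs x) ht, ← map_mul, ← map_mul]
    congr 1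
    apply hinj
    rw [map_mul, map_mul, ← hx x, ← h]
    ring
  refine ⟨A, { toFun := fun x => φ (a x) / φ (s x)
               map_one' := ?_
               map_mul' := ?_
               map_zero' := ?_
               map_add' := ?_ }, ?_, ?_⟩
  · rw [val 1 1 1 (by rw [map_one]; exact one_ne_zero) (by simp)]
    simp
  · intro x y
    show φ (a (x * y)) / φ (s (x * y)) = φ (a x) / φ (s x) * (φ (a y) / φ (s y))
    rw [val (x * y) (a x * a y) (s x * s y) (by rw [map_mul]; exact mul_ne_zero (hs x) (hs y))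
      (by rw [map_mul, map_mul, ← hx x, ← hx y, Subring.coe_mul]; ring)]
    rw [map_mul, map_mul, div_mul_div_comm]
  · rw [val 0 0 1 (by rw [map_one]; exact one_ne_zero) (by simp)]
    simp
  · intro x y
    show φ (a (x + y)) / φ (s (x + y)) = φ (a x) / φ (s x) + (φ (a y) / φ (s y))
    rw [val (x + y) (a x * s y + s x * a y) (s x * s y)
      (by rw [map_mul]; exact mul_ne_zero (hs x) (hs y))
      (by rw [map_mul, map_add, map_mul, map_mul, ← hx x, ← hx y, Subring.coe_add]; ring)]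
    rw [map_mul, map_add, map_mul, map_mul, div_add_div _ _ (hs x) (hs y)]
  · intro x
    refine ⟨⟨x, 1, by rw [map_one]; exact one_ne_zero, by simp⟩, ?_⟩
    show φ (a _) / φ (s _) = φ x
    rw [val _ x 1 (by rw [map_one]; exact one_ne_zero) (by simp)]
    simp
  · intro z hz
    exact hN z q ((Finset.le_sup hz).trans_lt hq) φ

end Pool.Agent.Lib.MP_89bcae_ag.Re

end

section

/-!
# Integral polynomials with one large root
-/

open Polynomial IsDedekindDomain WithZero

open scoped Classical Pointwise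

namespace Pool.Agent.Lib.MP_89bcae_ag

set_option linter.style.haveILetI false
set_option linter.unusedSectionVars false

section Gauss

variable {K : Type*} [Field K] (W : Valuation K ℤᵐ⁰)

/-- The product of the large roots and the leading coefficient. -/
theorem gauss_roots7 {D : K[X]} {c : K} {A : Finset K} (hD : D = C c * ∏ α ∈ A, (X - C α))
    (hint : ∀ i, W (D.coeff i) ≤ 1) {n : ℕ} (hn : W (D.coeff n) = 1) :
    W (c * ∏ α ∈ A.filter (fun α => 1 < W α), α) = 1 := by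
  let O := W.valuationSubring
  have hO : ∀ x : K, x ∈ O ↔ W x ≤ 1 := fun x => Iff.rfl
  have hinv : ∀ α, 1 < W α → α⁻¹ ∈ O := by
    intro α hα
    rw [hO, map_inv₀]
    exact inv_le_one_of_one_le₀ hα.le
  let Eα : K → O[X] := fun α => if hα : 1 < W α then C ⟨α⁻¹, hinv α hα⟩ * X - 1 else
    X - C ⟨α, not_lt.mp hα⟩
  set E : O[X] := ∏ α ∈ A, Eα α with hE
  have hEα : ∀ α, C (if 1 < W α then α else 1) * (Eα α).map (algebraMap O K) = X - C α := by
    intro α
    by_cases hα : 1 < W α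
    · have h1 : Eα α = C ⟨α⁻¹, hinv α hα⟩ * X - 1 := dif_pos hα
      have hα0 : α ≠ 0 := by
        rintro rfl
        rw [map_zero] at hα
        exact absurd hα (not_lt.mpr zero_le_one)
      rw [h1, if_pos hα, Polynomial.map_sub, Polynomial.map_mul, map_C, map_X, Polynomial.map_one,
        mul_sub, ← mul_assoc, ← C_mul]
      have h2 : α * algebraMap O K ⟨α⁻¹, hinv α hα⟩ = 1 := mul_inv_cancel₀ hα0
      rw [h2, C_1, one_mul, mul_one]
    · have h1 : Eα α = X - C ⟨α, not_lt.mp hα⟩ := dif_neg hα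
      rw [h1, if_neg hα, C_1, one_mul, Polynomial.map_sub, map_X, map_C]
      rfl
  have hDE : D = C (c * ∏ α ∈ A.filter (fun α => 1 < W α), α) * E.map (algebraMap O K) := by
    rw [hD, C_mul, mul_assoc, hE, Polynomial.map_prod, map_prod, Finset.prod_filter]
    congr 1
    rw [← Finset.prod_mul_distrib]
    refine Finset.prod_congr rfl fun α _ => ?_
    rw [← hEα α]
    split_ifs <;> simp
  have hres : E.map (IsLocalRing.residue O) ≠ 0 := by
    rw [hE, Polynomial.map_prod, Finset.prod_ne_zero_iff]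
    intro α _
    by_cases hα : 1 < W α
    · have h1 : Eα α = C ⟨α⁻¹, hinv α hα⟩ * X - 1 := dif_pos hα
      rw [h1]
      intro h2
      have h3 := congrArg (fun p => p.coeff 0) h2
      simp at h3
    · have h1 : Eα α = X - C ⟨α, not_lt.mp hα⟩ := dif_neg hα
      rw [h1, Polynomial.map_sub, map_X, map_C]
      exact X_sub_C_ne_zero _
  obtain ⟨i, hi⟩ : ∃ i, (E.map (IsLocalRing.residue O)).coeff i ≠ 0 := by
    by_contra hcon
    push Not at hcon
    exact hres (Polynomial.ext fun i => by rw [hcon i, coeff_zero])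
  have hunit : IsUnit (E.coeff i) := by
    rw [coeff_map] at hi
    exact (IsLocalRing.residue_ne_zero_iff_isUnit _).mp hi
  have hEi : W (algebraMap O K (E.coeff i)) = 1 := by
    obtain ⟨u, hu⟩ := hunit
    have h1 : W (algebraMap O K (u : O)) ≤ 1 := (u : O).2
    have h2 : W (algebraMap O K (↑u⁻¹ : O)) ≤ 1 := (↑u⁻¹ : O).2
    have h3 : W (algebraMap O K (u : O)) * W (algebraMap O K (↑u⁻¹ : O)) = 1 := by
      rw [← map_mul, ← map_mul, Units.mul_inv, map_one, map_one]
    rw [← hu]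
    refine le_antisymm h1 ?_
    rw [← h3]
    exact mul_le_of_le_one_right' h2
  have h1 := hint i
  rw [hDE, coeff_C_mul, coeff_map, map_mul, hEi, mul_one] at h1
  have h2 := hn
  rw [hDE, coeff_C_mul, coeff_map, map_mul] at h2
  exact le_antisymm h1 (h2.symm.le.trans (mul_le_of_le_one_right' ((hO _).mp (E.coeff n).2)))

variable {R : Type*} [CommRing R] [Algebra R K]

/-- The value of an integral polynomial at an integral element is integral. -/
lemma eval_le_one7 (hWR : ∀ r : R, W (algebraMap R K r) ≤ 1) (p : R[X]) {x : K} (hx : W x ≤ 1) :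
    W ((p.map (algebraMap R K)).eval x) ≤ 1 := by
  rw [eval_map, eval₂_eq_sum_range]
  apply W.map_sum_le
  intro i _
  rw [map_mul, map_pow]
  exact mul_le_one' (hWR _) (pow_le_one' hx i)

/-- The value of a monic integral polynomial at a large element. -/
lemma eval_large7 (hWR : ∀ r : R, W (algebraMap R K r) ≤ 1) {p : R[X]} (hp : p.Monic) {x : K}
    (hx : 1 < W x) : W ((p.map (algebraMap R K)).eval x) = W x ^ p.natDegree := by
  have hlead : W ((algebraMap R K (p.coeff p.natDegree)) * x ^ p.natDegree) =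
      W x ^ p.natDegree := by
    rw [coeff_natDegree, hp.leadingCoeff, map_one, one_mul, map_pow]
  rw [eval_map, eval₂_eq_sum_range, Finset.sum_range_succ]
  rw [Valuation.map_add_eq_of_lt_right, hlead]
  rw [hlead]
  have hx0 : W x ≠ 0 := (zero_lt_one.trans hx).ne'
  apply W.map_sum_lt (pow_ne_zero _ hx0)
  intro i hi
  rw [Finset.mem_range] at hi
  rw [map_mul, map_pow]
  calc W (algebraMap R K (p.coeff i)) * W x ^ i ≤ W x ^ i := mul_le_of_le_one_left' (hWR _)
    _ < W x ^ p.natDegree := pow_lt_pow_right₀ hx hi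

end Gauss

end Pool.Agent.Lib.MP_89bcae_ag

end
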