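import Mathlib
import Pool.Agent.Lib.MP_89bcae_ag.DefsFam45
import Pool.Agent.Lib.MP_89bcae_ag.Rk.K001
import Pool.Agent.Lib.MP_89bcae_ag.Rk.K021
import Pool.Agent.Lib.MP_89bcae_ag.Rk.K022
import Pool.Agent.Lib.MP_89bcae_ag.Rk.K023

section

/-!
# Simple collisions of the polynomials `D(g(x))`
-/

open Polynomial

namespace Pool.Agent.Lib.MP_89bcae_ag

/-- The polynomial `D(g(x))` over the local ring `R` has a simple collision: modulo the maximal ideal
`𝔪` of `R`, `D` is `(t - a)² h`, the polynomial `((t - a) h)(g(x))` is separable, and `D(a)` is not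
in `𝔪²`. -/
def IsCollision7 {R : Type*} [CommRing R] [IsLocalRing R] (g D : R[X]) : Prop :=
  ∃ (a : R) (h : (IsLocalRing.ResidueField R)[X]),
    D.map (IsLocalRing.residue R) = (X - C (IsLocalRing.residue R a)) ^ 2 * h ∧
    (((X - C (IsLocalRing.residue R a)) * h).comp (g.map (IsLocalRing.residue R))).Separable ∧
    D.eval a ∉ IsLocalRing.maximalIdeal R ^ 2

/-- `Aut(F/k)` is transitive on the pairs `(b, c)` of roots of `D(g(x))` in `F` with
`g(b) ≠ g(c)`. -/
def IsPairTransitive7 (k F : Type*) [Field k] [Field F] [Algebra k F] (g D : k[X]) : Prop :=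
  ∀ b c b' c' : F, aeval b (D.comp g) = 0 → aeval c (D.comp g) = 0 →
    aeval b' (D.comp g) = 0 → aeval c' (D.comp g) = 0 →
    aeval b g ≠ aeval c g → aeval b' g ≠ aeval c' g → ∃ σ : F ≃ₐ[k] F, σ b = b' ∧ σ c = c'

/-- The graph `e` on `S` is a perfect matching between the fibres of `p` over `α` and `α'`. -/
structure IsMatch7 {V A : Type*} (S : Finset V) (p : V → A) (α α' : A) (e : V → V → ZMod 2) :
    Prop where
  symm : ∀ b ∈ S, ∀ c ∈ S, e b c = e c b
  supp : ∀ b ∈ S, ∀ c ∈ S, p b ≠ p c → e b c ≠ 0 →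
    (p b = α ∧ p c = α') ∨ (p b = α' ∧ p c = α)
  left : ∀ b ∈ S, p b = α → ∃ c ∈ S, p c = α' ∧ e b c = 1 ∧ ∀ c' ∈ S, p c' = α' → c' ≠ c →
    e b c' = 0
  right : ∀ b ∈ S, p b = α' → ∃ c ∈ S, p c = α ∧ e b c = 1 ∧ ∀ c' ∈ S, p c' = α → c' ≠ c →
    e b c' = 0

/-- The graph `e` on `S` is the complete bipartite graph between the fibres of `p` over `α` and
`α'`. -/
structure IsFull7 {V A : Type*} (S : Finset V) (p : V → A) (α α' : A) (e : V → V → ZMod 2) :
    Prop where
  symm : ∀ b ∈ S, ∀ c ∈ S, e b c = e c b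
  supp : ∀ b ∈ S, ∀ c ∈ S, p b ≠ p c → e b c ≠ 0 →
    (p b = α ∧ p c = α') ∨ (p b = α' ∧ p c = α)
  full : ∀ b ∈ S, ∀ c ∈ S, p b = α → p c = α' → e b c = 1

end Pool.Agent.Lib.MP_89bcae_ag

end

section

/-!
# Divisors of classes of the curves `D(t) y² = g(x) - t`

`k` is a field, `F` an algebraic closure of `k`, `L` the field of rational functions `F(t)` and
`Ω` a separable closure of `L`.
-/

open Polynomial WeierstrassCurve

open scoped Classical

namespace Pool.Agent.Lib.MP_89bcae_ag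

universe u

/-- For a finite subset `Z` of `F` and `β' ∈ F`: the product of the differences `β' - β` over the
`β ∈ Z` with `g(β) ≠ g(β')`, multiplied by `-D'(g(β'))` if `β'` belongs to `Z`. -/
noncomputable def PZ {F : Type*} [Field F] (g D : F[X]) (Z : Finset F) (β' : F) : F :=
  (∏ β ∈ Z.filter (fun β => g.eval β ≠ g.eval β'), (β' - β)) *
    if β' ∈ Z then -(derivative D).eval (g.eval β') else 1

section

variable {k F L Ω : Type u} [Field k] [Field F] [Algebra k F] [Field L] [Algebra F[X] L] [Field Ω]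
  [Algebra L Ω]

/-- The set `Z` is the divisor of the point `P` of the curve `D(t) y² = g(x) - t` over `L = F(t)`:
either `P` is the origin and `Z` is empty, or the first coordinate of `P` (in terms of the
Weierstrass equation `twist g D`) is the fraction `A(t) / B(t)` and the rational function
`A(g(x)) / B(g(x)) - D(g(x)) x` of `x` is a square times the product of the `x - β`, `β ∈ Z`. -/
inductive HasDivisor (g D : k[X]) :
    ((twist g D).map (base k F L L)).toAffine.Point → Finset F → Prop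
  | zero : HasDivisor g D 0 ∅
  | some (x y : L) (h : ((twist g D).map (base k F L L)).toAffine.Nonsingular x y) (Z : Finset F)
      (A B p q : F[X]) (hB : B ≠ 0) (hq : q ≠ 0)
      (hx : x * algebraMap F[X] L B = algebraMap F[X] L A)
      (hZ : q ^ 2 * (B.comp (g.map (algebraMap k F)) * (A.comp (g.map (algebraMap k F)) -
        X * (D.map (algebraMap k F)).comp (g.map (algebraMap k F)) *
          B.comp (g.map (algebraMap k F)))) = p ^ 2 * ∏ β ∈ Z, (X - C β)) :
    HasDivisor g D (.some x y h) Z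

/-- The cocycle `c` is the Kummer cocycle (for multiplication by `2ⁿ`) of the point `P` over `L`:
there is a point `Q` over `Ω` with `2ⁿ Q = P` and `c σ = σ Q - Q`. -/
def IsKummerOf (W : WeierstrassCurve k[X])
    (c : (Ω ≃ₐ[L] Ω) → (W.map (base k F L Ω)).toAffine.Point) (n : ℕ)
    (P : (W.map (base k F L L)).toAffine.Point) : Prop :=
  ∃ P' Q : (W.map (base k F L Ω)).toAffine.Point, IsImage (algebraMap L Ω) P P' ∧
    2 ^ n • Q = P' ∧ ∀ (σ : Ω ≃ₐ[L] Ω) (Q' : (W.map (base k F L Ω)).toAffine.Point),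
      IsImage (σ : Ω →+* Ω) Q Q' → c σ = Q' - Q

end

end Pool.Agent.Lib.MP_89bcae_ag

end

section

/-!
# Rédei maps with prescribed weights: existence of one without eigenvalues
-/

open Polynomial

open scoped Classical

set_option linter.unusedSimpArgs false
set_option linter.unusedVariables false

namespace Pool.Agent.Lib.MP_89bcae_ag

section

variable {V I : Type*}

theorem logic3 {E O : Fin 3 → Prop} (h : ∀ a b : Fin 3, E (b - a) ∨ O (a + b)) :
    (∀ u, E u) ∨ (∀ v, O v) := by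
  by_contra hcon
  push Not at hcon
  obtain ⟨⟨u, hu⟩, ⟨v, hv⟩⟩ := hcon
  have h1 : ∀ u v : Fin 3, ∃ a b : Fin 3, b - a = u ∧ a + b = v := by decide
  obtain ⟨a, b, hab, hab'⟩ := h1 u v
  rcases h a b with h2 | h2
  · rw [hab] at h2; exact hu h2
  · rw [hab'] at h2; exact hv h2

theorem perm3 : ∀ (a b : Fin 3) (σ : Fin 3 → Fin 3), (∀ c d, σ c = σ d → c = d) → σ a = b →
    (∀ c, σ c = c + (b - a)) ∨ (∀ c, σ c = (a + b) - c) := by decide

/-- The operator of the weights `l b c`. -/
noncomputable def opT (R : Finset V) (v : V → I) (l : V → V → ZMod 2) (z : V → ZMod 2) (b : V) :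
    ZMod 2 :=
  ∑ c ∈ R.filter (fun c => v c ≠ v b), l b c * (z c + z b)

/-- The function `z` has sum `0` on each fibre. -/
def EvenZ (R : Finset V) (v : V → I) (z : V → ZMod 2) : Prop :=
  ∀ α : I, ∑ c ∈ R.filter (fun c => v c = α), z c = 0

/-- `m` is a matching of the fibres `i` and `j`. -/
def Match8 (R : Finset V) (v : V → I) (i j : I) (m : V → V) : Prop :=
  (∀ x ∈ R, v x = i → m x ∈ R ∧ v (m x) = j ∧ m (m x) = x) ∧
  (∀ x ∈ R, v x = j → m x ∈ R ∧ v (m x) = i ∧ m (m x) = x)

/-- `l` has the weights of the matching `m` of the fibres `i` and `j`. -/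
def MatchW8 (R : Finset V) (v : V → I) (i j : I) (m : V → V)
    (l : V → V → ZMod 2) : Prop :=
  ∀ x ∈ R, ∀ y ∈ R, v x ≠ v y →
    l x y = if (v x = i ∨ v x = j) ∧ y = m x then 1 else 0

theorem opT_add (R : Finset V) (v : V → I) (l l' : V → V → ZMod 2)
    (z : V → ZMod 2) (b : V) :
    opT R v (l + l') z b = opT R v l z b + opT R v l' z b := by
  unfold opT
  rw [← Finset.sum_add_distrib]
  refine Finset.sum_congr rfl fun c _ => ?_
  rw [Pi.add_apply, Pi.add_apply]
  ring

theorem opT_match {R : Finset V} {v : V → I} {i j : I} (hij : i ≠ j) {m : V → V}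
    {l : V → V → ZMod 2} (hm : Match8 R v i j m) (hl : MatchW8 R v i j m l) (z : V → ZMod 2) {b : V}
    (hb : b ∈ R) : opT R v l z b = if v b = i ∨ v b = j then z (m b) + z b else 0 := by
  unfold opT
  have h1 : ∀ c ∈ R.filter (fun c => v c ≠ v b), l b c * (z c + z b) =
      if c = m b then (if v b = i ∨ v b = j then z c + z b else 0) else 0 := by
    intro c hc
    rw [Finset.mem_filter] at hc
    rw [hl b hb c hc.1 (Ne.symm hc.2)]
    by_cases h3 : c = m b
    · by_cases h4 : v b = i ∨ v b = j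
      · rw [if_pos ⟨h4, h3⟩, if_pos h3, if_pos h4, one_mul]
      · rw [if_neg (fun h => h4 h.1), if_pos h3, if_neg h4, zero_mul]
    · rw [if_neg (fun h => h3 h.2), if_neg h3, zero_mul]
  rw [Finset.sum_congr rfl h1, Finset.sum_ite_eq' _ (m b)]
  by_cases h4 : v b = i ∨ v b = j
  · have h5 : m b ∈ R.filter (fun c => v c ≠ v b) := by
      rw [Finset.mem_filter]
      rcases h4 with h6 | h6
      · obtain ⟨h7, h8, _⟩ := hm.1 b hb h6
        exact ⟨h7, by rw [h8, h6]; exact hij.symm⟩
      · obtain ⟨h7, h8, _⟩ := hm.2 b hb h6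
        exact ⟨h7, by rw [h8, h6]; exact hij⟩
    rw [if_pos h5]
  · rw [if_neg h4]
    split_ifs <;> rfl

theorem opT_full {R : Finset V} {v : V → I} {i j : I} (hij : i ≠ j)
    (hci : (R.filter (fun c => v c = i)).card = 3) (hcj : (R.filter (fun c => v c = j)).card = 3)
    {l : V → V → ZMod 2} (hl : ∀ x ∈ R, ∀ y ∈ R, v x ≠ v y →
      l x y = if (v x = i ∧ v y = j) ∨ (v x = j ∧ v y = i) then 1 else 0)
    {z : V → ZMod 2} (hz : EvenZ R v z) {b : V}
    (hb : b ∈ R) : opT R v l z b = if v b = i ∨ v b = j then z b else 0 := by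
  have key : ∀ i j : I, i ≠ j → (R.filter (fun c => v c = j)).card = 3 →
      (∀ x ∈ R, ∀ y ∈ R, v x ≠ v y →
        l x y = if (v x = i ∧ v y = j) ∨ (v x = j ∧ v y = i) then 1 else 0) →
      v b = i → opT R v l z b = z b := by
    intro i j hij hcj hl hbi
    unfold opT
    have h1 : ∀ c ∈ R.filter (fun c => v c ≠ v b), l b c * (z c + z b) =
        if v c = j then z c + z b else 0 := by
      intro c hc
      rw [Finset.mem_filter] at hc
      rw [hl b hb c hc.1 (Ne.symm hc.2)]
      by_cases h3 : v c = j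
      · rw [if_pos (Or.inl ⟨hbi, h3⟩), if_pos h3, one_mul]
      · rw [if_neg (fun h => ?_), if_neg h3, zero_mul]
        rcases h with h | h
        · exact h3 h.2
        · exact hij (hbi.symm.trans h.1)
    rw [Finset.sum_congr rfl h1, ← Finset.sum_filter, Finset.filter_filter]
    have h2 : R.filter (fun c => v c ≠ v b ∧ v c = j) = R.filter (fun c => v c = j) := by
      refine Finset.filter_congr fun c _ => ?_
      constructor
      · exact fun h => h.2
      · intro h
        exact ⟨by rw [h, hbi]; exact hij.symm, h⟩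
    rw [h2, Finset.sum_add_distrib, hz j, zero_add, Finset.sum_const, hcj]
    have h3 : ∀ t : ZMod 2, 3 • t = t := by decide
    exact h3 _
  by_cases h4 : v b = i ∨ v b = j
  · rw [if_pos h4]
    rcases h4 with h5 | h5
    · exact key i j hij hcj hl h5
    · refine key j i hij.symm hci (fun x hx y hy hxy => ?_) h5
      rw [hl x hx y hy hxy]
      exact if_congr or_comm rfl rfl
  · rw [if_neg h4]
    unfold opT
    refine Finset.sum_eq_zero fun c hc => ?_
    rw [Finset.mem_filter] at hc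
    rw [hl b hb c hc.1 (Ne.symm hc.2), if_neg, zero_mul]
    intro h
    rcases h with h | h
    · exact h4 (Or.inl h.1)
    · exact h4 (Or.inr h.1)

/-- Three disjoint matchings. -/
theorem exists_full {R : Finset V} {v : V → I} {HH : Set (V → V → ZMod 2)}
    (hadd : ∀ l ∈ HH, ∀ l' ∈ HH, l + l' ∈ HH) {i j : I} (hij : i ≠ j)
    (hci : (R.filter (fun c => v c = i)).card = 3) (hcj : (R.filter (fun c => v c = j)).card = 3)
    (H : ∀ x ∈ R, ∀ y ∈ R, v x = i → v y = j →
      ∃ l ∈ HH, ∃ m : V → V, Match8 R v i j m ∧ MatchW8 R v i j m l ∧ m x = y) :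
    ∃ l ∈ HH, ∀ x ∈ R, ∀ y ∈ R, v x ≠ v y →
      l x y = if (v x = i ∧ v y = j) ∨ (v x = j ∧ v y = i) then 1 else 0 := by
  have hX : Nonempty (Fin 3 ≃ (R.filter (fun c => v c = i))) :=
    ⟨(Fintype.equivFinOfCardEq (by rw [Fintype.card_coe, hci])).symm⟩
  have hY : Nonempty (Fin 3 ≃ (R.filter (fun c => v c = j))) :=
    ⟨(Fintype.equivFinOfCardEq (by rw [Fintype.card_coe, hcj])).symm⟩
  obtain ⟨X⟩ := hX
  obtain ⟨Y⟩ := hY
  have hXR : ∀ a, (X a : V) ∈ R ∧ v (X a) = i := fun a => by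
    have := (X a).2
    rwa [Finset.mem_filter] at this
  have hYR : ∀ a, (Y a : V) ∈ R ∧ v (Y a) = j := fun a => by
    have := (Y a).2
    rwa [Finset.mem_filter] at this
  -- availability of a map
  let av : (Fin 3 → Fin 3) → Prop := fun σ => ∃ l ∈ HH, ∃ m : V → V, Match8 R v i j m ∧
    MatchW8 R v i j m l ∧ ∀ a, m (X a) = Y (σ a)
  have hav : ∀ a b : Fin 3, av (fun c => c + (b - a)) ∨ av (fun c => (a + b) - c) := by
    intro a b
    obtain ⟨l, hl, m, hm, hml, hab⟩ := H (X a) (hXR a).1 (Y b) (hYR b).1 (hXR a).2 (hYR b).2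
    have h1 : ∀ c : Fin 3, ∃ d : Fin 3, m (X c) = Y d := by
      intro c
      obtain ⟨h2, h3, _⟩ := hm.1 (X c) (hXR c).1 (hXR c).2
      refine ⟨Y.symm ⟨m (X c), Finset.mem_filter.mpr ⟨h2, h3⟩⟩, ?_⟩
      rw [Equiv.apply_symm_apply]
    choose σ hσ using h1
    have h4 : ∀ c d, σ c = σ d → c = d := by
      intro c d hcd
      have h5 : m (X c) = m (X d) := by rw [hσ, hσ, hcd]
      have h6 : (X c : V) = X d := by
        rw [← (hm.1 (X c) (hXR c).1 (hXR c).2).2.2, h5,
          (hm.1 (X d) (hXR d).1 (hXR d).2).2.2]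
      exact X.injective (Subtype.ext h6)
    have h5 : σ a = b := by
      have h6 : (Y (σ a) : V) = Y b := by rw [← hσ, hab]
      exact Y.injective (Subtype.ext h6)
    rcases perm3 a b σ h4 h5 with h6 | h6
    · exact Or.inl ⟨l, hl, m, hm, hml, fun c => by rw [hσ, h6]⟩
    · exact Or.inr ⟨l, hl, m, hm, hml, fun c => by rw [hσ, h6]⟩
  have hthree : ∃ τ : Fin 3 → Fin 3 → Fin 3, (∀ u, av (τ u)) ∧
      ∀ a b : Fin 3, (∑ u : Fin 3, if b = τ u a then (1 : ZMod 2) else 0) = 1 := by
    rcases logic3 (E := fun u => av (fun c => c + u)) (O := fun w => av (fun c => w - c)) hav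
      with h | h
    · exact ⟨fun u c => c + u, h, by decide⟩
    · exact ⟨fun w c => w - c, h, by decide⟩
  obtain ⟨τ, hτ, hsum⟩ := hthree
  choose l hl m hm hml hmX using hτ
  refine ⟨l 0 + l 1 + l 2, hadd _ (hadd _ (hl 0) _ (hl 1)) _ (hl 2), ?_⟩
  intro x hx y hy hxy
  -- the weights for `x` in the fibre `i` and `y` in the fibre `j`
  have hXsurj : ∀ x ∈ R, v x = i → ∃ a, x = X a := fun x hx hxi =>
    ⟨X.symm ⟨x, Finset.mem_filter.mpr ⟨hx, hxi⟩⟩, by rw [Equiv.apply_symm_apply]⟩
  have hYsurj : ∀ y ∈ R, v y = j → ∃ b, y = Y b := fun y hy hyj =>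
    ⟨Y.symm ⟨y, Finset.mem_filter.mpr ⟨hy, hyj⟩⟩, by rw [Equiv.apply_symm_apply]⟩
  have hXY : ∀ (u a b : Fin 3), (Y b : V) = m u (X a) ↔ b = τ u a := by
    intro u a b
    rw [hmX]
    constructor
    · intro h
      exact Y.injective (Subtype.ext h)
    · intro h
      rw [h]
  have hYX : ∀ (u a b : Fin 3), (X a : V) = m u (Y b) ↔ b = τ u a := by
    intro u a b
    rw [← hXY]
    constructor
    · intro h
      rw [h, ((hm u).2 (Y b) (hYR b).1 (hYR b).2).2.2]
    · intro h
      rw [h, ((hm u).1 (X a) (hXR a).1 (hXR a).2).2.2]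
  have hsum3 : ∀ f : Fin 3 → ZMod 2, f 0 + f 1 + f 2 = ∑ u, f u := fun f => by
    rw [Fin.sum_univ_three]
  have e1 : (l 0 + l 1 + l 2) x y = ∑ u, l u x y := by
    rw [← hsum3]; rfl
  rw [e1, Finset.sum_congr rfl fun u _ => hml u x hx y hy hxy]
  by_cases c1 : v x = i ∧ v y = j
  · rw [if_pos (Or.inl c1)]
    obtain ⟨a, rfl⟩ := hXsurj x hx c1.1
    obtain ⟨b, rfl⟩ := hYsurj y hy c1.2
    refine Eq.trans ?_ (hsum a b)
    refine Finset.sum_congr rfl fun u _ => if_congr ?_ rfl rfl
    rw [hXY]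
    exact ⟨fun h => h.2, fun h => ⟨Or.inl c1.1, h⟩⟩
  · by_cases c2 : v x = j ∧ v y = i
    · rw [if_pos (Or.inr c2)]
      obtain ⟨a, rfl⟩ := hXsurj y hy c2.2
      obtain ⟨b, rfl⟩ := hYsurj x hx c2.1
      refine Eq.trans ?_ (hsum a b)
      refine Finset.sum_congr rfl fun u _ => if_congr ?_ rfl rfl
      rw [hYX]
      exact ⟨fun h => h.2, fun h => ⟨Or.inr c2.1, h⟩⟩
    · rw [if_neg (fun h => h.elim c1 c2)]
      refine Finset.sum_eq_zero fun u _ => if_neg ?_
      rintro ⟨h | h, hy'⟩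
      · exact c1 ⟨h, by rw [hy']; exact ((hm u).1 x hx h).2.1⟩
      · exact c2 ⟨h, by rw [hy']; exact ((hm u).2 x hx h).2.1⟩

/-- The operators which come from `HH`. -/
def IsOp (R : Finset V) (v : V → I) (HH : Set (V → V → ZMod 2))
    (T : (V → ZMod 2) → V → ZMod 2) : Prop :=
  ∃ l ∈ HH, ∀ z, EvenZ R v z → ∀ b ∈ R, opT R v l z b = T z b

theorem IsOp.add {R : Finset V} {v : V → I} {HH : Set (V → V → ZMod 2)}
    (hadd : ∀ l ∈ HH, ∀ l' ∈ HH, l + l' ∈ HH) {T T' : (V → ZMod 2) → V → ZMod 2}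
    (h : IsOp R v HH T) (h' : IsOp R v HH T') : IsOp R v HH (fun z b => T z b + T' z b) := by
  obtain ⟨l, hl, hT⟩ := h
  obtain ⟨l', hl', hT'⟩ := h'
  exact ⟨l + l', hadd l hl l' hl', fun z hz b hb => by
    rw [opT_add, hT z hz b hb, hT' z hz b hb]⟩

/-- The fibres in `A` have an operator without eigenvalues. -/
def Good8 (R : Finset V) (v : V → I) (HH : Set (V → V → ZMod 2)) (A : Finset I) : Prop :=
  ∃ T, IsOp R v HH T ∧ (∀ z b, v b ∉ A → T z b = 0) ∧
    ∀ (ε : ZMod 2) (z : V → ZMod 2), EvenZ R v z →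
      (∀ b ∈ R, v b ∈ A → T z b = ε * z b) → ∀ b ∈ R, v b ∈ A → z b = 0

theorem Good8.union {R : Finset V} {v : V → I} {HH : Set (V → V → ZMod 2)}
    (hadd : ∀ l ∈ HH, ∀ l' ∈ HH, l + l' ∈ HH) {A B : Finset I} (hA : Good8 R v HH A)
    (hB : Good8 R v HH B) (hAB : Disjoint A B) : Good8 R v HH (A ∪ B) := by
  obtain ⟨T, hT, hT0, hTe⟩ := hA
  obtain ⟨S, hS, hS0, hSe⟩ := hB
  refine ⟨_, hT.add hadd hS, ?_, ?_⟩
  · intro z b hb
    rw [Finset.mem_union, not_or] at hb
    rw [hT0 z b hb.1, hS0 z b hb.2, add_zero]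
  · intro ε z hz h b hb hbA
    rw [Finset.mem_union] at hbA
    rcases hbA with h1 | h1
    · refine hTe ε z hz (fun c hc hcA => ?_) b hb h1
      have h2 := h c hc (Finset.mem_union_left _ hcA)
      rwa [hS0 z c (Finset.disjoint_left.mp hAB hcA), add_zero] at h2
    · refine hSe ε z hz (fun c hc hcB => ?_) b hb h1
      have h2 := h c hc (Finset.mem_union_right _ hcB)
      rwa [hT0 z c (Finset.disjoint_right.mp hAB hcB), zero_add] at h2

/-- The hypothesis on `HH`. -/
def AllMatch8 (R : Finset V) (v : V → I) (HH : Set (V → V → ZMod 2)) : Prop :=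
  ∀ x ∈ R, ∀ y ∈ R, v x ≠ v y → ∃ l ∈ HH, ∃ m : V → V,
    Match8 R v (v x) (v y) m ∧ MatchW8 R v (v x) (v y) m l ∧ m x = y

theorem exists_op_full {R : Finset V} {v : V → I} {HH : Set (V → V → ZMod 2)}
    (hadd : ∀ l ∈ HH, ∀ l' ∈ HH, l + l' ∈ HH)
    (hcard : ∀ x ∈ R, (R.filter (fun c => v c = v x)).card = 3) (H : AllMatch8 R v HH)
    {i j : I} (hi : i ∈ R.image v) (hj : j ∈ R.image v) (hij : i ≠ j) :
    IsOp R v HH (fun z b => if v b = i ∨ v b = j then z b else 0) := by
  obtain ⟨x0, hx0, rfl⟩ := Finset.mem_image.mp hi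
  obtain ⟨y0, hy0, rfl⟩ := Finset.mem_image.mp hj
  obtain ⟨l, hl, hw⟩ := exists_full hadd hij (hcard x0 hx0) (hcard y0 hy0)
    (fun x hx y hy hxi hyj => by
      have := H x hx y hy (by rw [hxi, hyj]; exact hij)
      rwa [hxi, hyj] at this)
  exact ⟨l, hl, fun z hz b hb => opT_full hij (hcard x0 hx0) (hcard y0 hy0) hw hz hb⟩

theorem exists_op_edge {R : Finset V} {v : V → I} {HH : Set (V → V → ZMod 2)}
    (hadd : ∀ l ∈ HH, ∀ l' ∈ HH, l + l' ∈ HH)
    (hcard : ∀ x ∈ R, (R.filter (fun c => v c = v x)).card = 3) (H : AllMatch8 R v HH)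
    {i j : I} (hi : i ∈ R.image v) (hj : j ∈ R.image v) (hij : i ≠ j) :
    ∃ m : V → V, Match8 R v i j m ∧
      IsOp R v HH (fun z b => if v b = i ∨ v b = j then z (m b) else 0) := by
  have hf := exists_op_full hadd hcard H hi hj hij
  obtain ⟨x0, hx0, rfl⟩ := Finset.mem_image.mp hi
  obtain ⟨y0, hy0, rfl⟩ := Finset.mem_image.mp hj
  obtain ⟨l, hl, m, hm, hml, _⟩ := H x0 hx0 y0 hy0 hij
  refine ⟨m, hm, ?_⟩
  have h1 : IsOp R v HH (fun z b => if v b = v x0 ∨ v b = v y0 then z (m b) + z b else 0) :=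
    ⟨l, hl, fun z _ b hb => opT_match hij hm hml z hb⟩
  obtain ⟨l', hl', hT⟩ := h1.add hadd hf
  refine ⟨l', hl', fun z hz b hb => ?_⟩
  rw [hT z hz b hb]
  by_cases h4 : v b = v x0 ∨ v b = v y0
  · simp only [if_pos h4]
    have h3 : ∀ s t : ZMod 2, s + t + t = s := by decide
    exact h3 _ _
  · simp only [if_neg h4, add_zero]

theorem good3 {R : Finset V} {v : V → I} {HH : Set (V → V → ZMod 2)}
    (hadd : ∀ l ∈ HH, ∀ l' ∈ HH, l + l' ∈ HH)
    (hcard : ∀ x ∈ R, (R.filter (fun c => v c = v x)).card = 3) (H : AllMatch8 R v HH)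
    {a b c : I} (ha : a ∈ R.image v) (hb : b ∈ R.image v) (hc : c ∈ R.image v)
    (hab : a ≠ b) (hac : a ≠ c) (hbc : b ≠ c) : Good8 R v HH {a, b, c} := by
  obtain ⟨m, hm, hE⟩ := exists_op_edge hadd hcard H ha hb hab
  obtain ⟨n, hn, hE'⟩ := exists_op_edge hadd hcard H hb hc hbc
  have hP := exists_op_full hadd hcard H ha hb hab
  refine ⟨_, (hE.add hadd hE').add hadd hP, ?_, ?_⟩
  · intro z x hx
    simp only [Finset.mem_insert, Finset.mem_singleton, not_or] at hx
    simp only [hx.1, hx.2.1, hx.2.2, or_self, if_false, add_zero]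
  · intro ε z hz h
    -- the path of `x`
    have key : ∀ x ∈ R, v x = a → z x = 0 ∧ z (m x) = 0 ∧ z (n (m x)) = 0 := by
      intro x hx hxa
      obtain ⟨h1, h2, h3⟩ := hm.1 x hx hxa
      obtain ⟨h4, h5, h6⟩ := hn.1 (m x) h1 h2
      have e1 := h x hx (by simp [hxa])
      have e2 := h (m x) h1 (by simp [h2])
      have e3 := h (n (m x)) h4 (by simp [h5])
      simp only [hxa, hab, hac, or_false, or_true, true_or, false_or, if_true, if_false,
        add_zero, or_self] at e1
      simp only [h2, h3, hbc, hab.symm, or_false, or_true, true_or, false_or, if_true, if_false,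
        add_zero, or_self] at e2
      simp only [h5, h6, hbc.symm, hac.symm, or_false, or_true, true_or, false_or, if_true,
        if_false, add_zero, zero_add, or_self] at e3
      revert e1 e2 e3
      generalize z x = z1
      generalize z (m x) = z2
      generalize z (n (m x)) = z3
      clear h
      revert ε z1 z2 z3
      decide
    intro x hx hxA
    simp only [Finset.mem_insert, Finset.mem_singleton] at hxA
    rcases hxA with h1 | h1 | h1
    · exact (key x hx h1).1
    · obtain ⟨h2, h3, h4⟩ := hm.2 x hx h1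
      have := (key (m x) h2 h3).2.1
      rwa [h4] at this
    · obtain ⟨h2, h3, h4⟩ := hn.2 x hx h1
      obtain ⟨h5, h6, h7⟩ := hm.2 (n x) h2 h3
      have := (key (m (n x)) h5 h6).2.2
      rwa [h7, h4] at this

theorem good4 {R : Finset V} {v : V → I} {HH : Set (V → V → ZMod 2)}
    (hadd : ∀ l ∈ HH, ∀ l' ∈ HH, l + l' ∈ HH)
    (hcard : ∀ x ∈ R, (R.filter (fun c => v c = v x)).card = 3) (H : AllMatch8 R v HH)
    {a b c d : I} (ha : a ∈ R.image v) (hb : b ∈ R.image v) (hc : c ∈ R.image v)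
    (hd : d ∈ R.image v) (hab : a ≠ b) (hac : a ≠ c) (had : a ≠ d) (hbc : b ≠ c) (hbd : b ≠ d)
    (hcd : c ≠ d) : Good8 R v HH {a, b, c, d} := by
  obtain ⟨m, hm, hE⟩ := exists_op_edge hadd hcard H ha hb hab
  obtain ⟨n, hn, hE'⟩ := exists_op_edge hadd hcard H hb hc hbc
  obtain ⟨p, hp, hE''⟩ := exists_op_edge hadd hcard H hc hd hcd
  have hP := exists_op_full hadd hcard H ha hb hab
  have hQ := exists_op_full hadd hcard H hc hd hcd
  refine ⟨_, (((hE.add hadd hE').add hadd hE'').add hadd hP).add hadd hQ, ?_, ?_⟩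
  · intro z x hx
    simp only [Finset.mem_insert, Finset.mem_singleton, not_or] at hx
    simp only [hx.1, hx.2.1, hx.2.2.1, hx.2.2.2, or_self, if_false, add_zero]
  · intro ε z hz h
    have key : ∀ x ∈ R, v x = a → z x = 0 ∧ z (m x) = 0 ∧ z (n (m x)) = 0 ∧
        z (p (n (m x))) = 0 := by
      intro x hx hxa
      obtain ⟨h1, h2, h3⟩ := hm.1 x hx hxa
      obtain ⟨h4, h5, h6⟩ := hn.1 (m x) h1 h2
      obtain ⟨h7, h8, h9⟩ := hp.1 (n (m x)) h4 h5
      have e1 := h x hx (by simp [hxa])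
      have e2 := h (m x) h1 (by simp [h2])
      have e3 := h (n (m x)) h4 (by simp [h5])
      have e4 := h (p (n (m x))) h7 (by simp [h8])
      simp only [hxa, hab, hac, had, or_false, or_true, true_or, false_or, if_true, if_false,
        add_zero, zero_add, or_self] at e1
      simp only [h2, h3, hbc, hbd, hab.symm, or_false, or_true, true_or, false_or, if_true,
        if_false, add_zero, zero_add, or_self] at e2
      simp only [h5, h6, hcd, hbc.symm, hac.symm, or_false, or_true, true_or, false_or, if_true,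
        if_false, add_zero, zero_add, or_self] at e3
      simp only [h8, h9, hcd.symm, hbd.symm, had.symm, or_false, or_true, true_or, false_or,
        if_true, if_false, add_zero, zero_add, or_self] at e4
      revert e1 e2 e3 e4
      generalize z x = z1
      generalize z (m x) = z2
      generalize z (n (m x)) = z3
      generalize z (p (n (m x))) = z4
      clear h
      revert ε z1 z2 z3 z4
      decide
    intro x hx hxA
    simp only [Finset.mem_insert, Finset.mem_singleton] at hxA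
    rcases hxA with h1 | h1 | h1 | h1
    · exact (key x hx h1).1
    · obtain ⟨h2, h3, h4⟩ := hm.2 x hx h1
      have := (key (m x) h2 h3).2.1
      rwa [h4] at this
    · obtain ⟨h2, h3, h4⟩ := hn.2 x hx h1
      obtain ⟨h5, h6, h7⟩ := hm.2 (n x) h2 h3
      have := (key (m (n x)) h5 h6).2.2.1
      rwa [h7, h4] at this
    · obtain ⟨h2, h3, h4⟩ := hp.2 x hx h1
      obtain ⟨h5, h6, h7⟩ := hn.2 (p x) h2 h3
      obtain ⟨h8, h9, h10⟩ := hm.2 (n (p x)) h5 h6
      have := (key (m (n (p x))) h8 h9).2.2.2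
      rwa [h10, h7, h4] at this

theorem good5 {R : Finset V} {v : V → I} {HH : Set (V → V → ZMod 2)}
    (hadd : ∀ l ∈ HH, ∀ l' ∈ HH, l + l' ∈ HH)
    (hcard : ∀ x ∈ R, (R.filter (fun c => v c = v x)).card = 3) (H : AllMatch8 R v HH)
    {a b c d e : I} (ha : a ∈ R.image v) (hb : b ∈ R.image v) (hc : c ∈ R.image v)
    (hd : d ∈ R.image v) (he : e ∈ R.image v) (hab : a ≠ b) (hac : a ≠ c) (had : a ≠ d)
    (hae : a ≠ e) (hbc : b ≠ c) (hbd : b ≠ d) (hbe : b ≠ e) (hcd : c ≠ d) (hce : c ≠ e)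
    (hde : d ≠ e) : Good8 R v HH {a, b, c, d, e} := by
  obtain ⟨m, hm, hE⟩ := exists_op_edge hadd hcard H ha hb hab
  obtain ⟨n, hn, hE'⟩ := exists_op_edge hadd hcard H hb hc hbc
  obtain ⟨p, hp, hE''⟩ := exists_op_edge hadd hcard H hc hd hcd
  obtain ⟨q, hq, hE3⟩ := exists_op_edge hadd hcard H hd he hde
  have hP := exists_op_full hadd hcard H ha hb hab
  refine ⟨_, (((hE.add hadd hE').add hadd hE'').add hadd hE3).add hadd hP, ?_, ?_⟩
  · intro z x hx
    simp only [Finset.mem_insert, Finset.mem_singleton, not_or] at hx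
    simp only [hx.1, hx.2.1, hx.2.2.1, hx.2.2.2.1, hx.2.2.2.2, or_self, if_false, add_zero]
  · intro ε z hz h
    have key : ∀ x ∈ R, v x = a → z x = 0 ∧ z (m x) = 0 ∧ z (n (m x)) = 0 ∧
        z (p (n (m x))) = 0 ∧ z (q (p (n (m x)))) = 0 := by
      intro x hx hxa
      obtain ⟨h1, h2, h3⟩ := hm.1 x hx hxa
      obtain ⟨h4, h5, h6⟩ := hn.1 (m x) h1 h2
      obtain ⟨h7, h8, h9⟩ := hp.1 (n (m x)) h4 h5
      obtain ⟨h10, h11, h12⟩ := hq.1 (p (n (m x))) h7 h8
      have e1 := h x hx (by simp [hxa])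
      have e2 := h (m x) h1 (by simp [h2])
      have e3 := h (n (m x)) h4 (by simp [h5])
      have e4 := h (p (n (m x))) h7 (by simp [h8])
      have e5 := h (q (p (n (m x)))) h10 (by simp [h11])
      simp only [hxa, hab, hac, had, hae, or_false, or_true, true_or, false_or, if_true,
        if_false, add_zero, zero_add, or_self] at e1
      simp only [h2, h3, hbc, hbd, hbe, hab.symm, or_false, or_true, true_or, false_or, if_true,
        if_false, add_zero, zero_add, or_self] at e2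
      simp only [h5, h6, hcd, hce, hbc.symm, hac.symm, or_false, or_true, true_or, false_or,
        if_true, if_false, add_zero, zero_add, or_self] at e3
      simp only [h8, h9, hde, hcd.symm, hbd.symm, had.symm, or_false, or_true, true_or, false_or,
        if_true, if_false, add_zero, zero_add, or_self] at e4
      simp only [h11, h12, hde.symm, hce.symm, hbe.symm, hae.symm, or_false, or_true, true_or,
        false_or, if_true, if_false, add_zero, zero_add, or_self] at e5
      revert e1 e2 e3 e4 e5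
      generalize z x = z1
      generalize z (m x) = z2
      generalize z (n (m x)) = z3
      generalize z (p (n (m x))) = z4
      generalize z (q (p (n (m x)))) = z5
      clear h
      revert ε z1 z2 z3 z4 z5
      decide
    intro x hx hxA
    simp only [Finset.mem_insert, Finset.mem_singleton] at hxA
    rcases hxA with h1 | h1 | h1 | h1 | h1
    · exact (key x hx h1).1
    · obtain ⟨h2, h3, h4⟩ := hm.2 x hx h1
      have := (key (m x) h2 h3).2.1
      rwa [h4] at this
    · obtain ⟨h2, h3, h4⟩ := hn.2 x hx h1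
      obtain ⟨h5, h6, h7⟩ := hm.2 (n x) h2 h3
      have := (key (m (n x)) h5 h6).2.2.1
      rwa [h7, h4] at this
    · obtain ⟨h2, h3, h4⟩ := hp.2 x hx h1
      obtain ⟨h5, h6, h7⟩ := hn.2 (p x) h2 h3
      obtain ⟨h8, h9, h10⟩ := hm.2 (n (p x)) h5 h6
      have := (key (m (n (p x))) h8 h9).2.2.2.1
      rwa [h10, h7, h4] at this
    · obtain ⟨h2, h3, h4⟩ := hq.2 x hx h1
      obtain ⟨h5, h6, h7⟩ := hp.2 (q x) h2 h3
      obtain ⟨h8, h9, h10⟩ := hn.2 (p (q x)) h5 h6
      obtain ⟨h11, h12, h13⟩ := hm.2 (n (p (q x))) h8 h9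
      have := (key (m (n (p (q x)))) h11 h12).2.2.2.2
      rwa [h13, h10, h7, h4] at this

theorem goodAll {R : Finset V} {v : V → I} {HH : Set (V → V → ZMod 2)}
    (hadd : ∀ l ∈ HH, ∀ l' ∈ HH, l + l' ∈ HH)
    (hcard : ∀ x ∈ R, (R.filter (fun c => v c = v x)).card = 3) (H : AllMatch8 R v HH) :
    ∀ (n : ℕ) (A : Finset I), A ⊆ R.image v → A.card = n → 3 ≤ n → Good8 R v HH A := by
  intro n
  induction n using Nat.strong_induction_on with
  | _ n ih =>
    intro A hA hn h3
    by_cases h6 : 6 ≤ n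
    · obtain ⟨B, hBA, hB3⟩ := Finset.exists_subset_card_eq (s := A) (n := 3) (by omega)
      obtain ⟨a, b, c, hab, hac, hbc, rfl⟩ := Finset.card_eq_three.mp hB3
      have h1 : Good8 R v HH {a, b, c} :=
        good3 hadd hcard H (hA (hBA (by simp))) (hA (hBA (by simp))) (hA (hBA (by simp)))
          hab hac hbc
      have h2 : (A \ {a, b, c}).card = n - 3 := by
        rw [Finset.card_sdiff_of_subset hBA, hn, hB3]
      have h4 := (ih (n - 3) (by omega) (A \ {a, b, c})
        (Finset.sdiff_subset.trans hA) h2 (by omega)).union hadd h1 Finset.sdiff_disjoint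
      rwa [Finset.sdiff_union_of_subset hBA] at h4
    · have h7 : n = 3 ∨ n = 4 ∨ n = 5 := by omega
      rcases h7 with h7 | h7 | h7
      · rw [h7] at hn
        obtain ⟨a, b, c, hab, hac, hbc, rfl⟩ := Finset.card_eq_three.mp hn
        exact good3 hadd hcard H (hA (by simp)) (hA (by simp)) (hA (by simp)) hab hac hbc
      · rw [h7] at hn
        obtain ⟨d, B, hdB, rfl, hB⟩ := Finset.card_eq_succ.mp hn
        obtain ⟨a, b, c, hab, hac, hbc, rfl⟩ := Finset.card_eq_three.mp hB
        simp only [Finset.mem_insert, Finset.mem_singleton, not_or] at hdB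
        exact good4 hadd hcard H (hA (by simp)) (hA (by simp)) (hA (by simp)) (hA (by simp))
          hdB.1 hdB.2.1 hdB.2.2 hab hac hbc
      · rw [h7] at hn
        obtain ⟨e, B, heB, rfl, hB⟩ := Finset.card_eq_succ.mp hn
        obtain ⟨d, B', hdB, rfl, hB'⟩ := Finset.card_eq_succ.mp hB
        obtain ⟨a, b, c, hab, hac, hbc, rfl⟩ := Finset.card_eq_three.mp hB'
        simp only [Finset.mem_insert, Finset.mem_singleton, not_or] at hdB heB
        exact good5 hadd hcard H (hA (by simp)) (hA (by simp)) (hA (by simp)) (hA (by simp))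
          (hA (by simp)) heB.1 heB.2.1 heB.2.2.1 heB.2.2.2 hdB.1 hdB.2.1 hdB.2.2 hab hac hbc

/-- There is an `l` in `HH` whose operator has no eigenvalue `0` or `1`. -/
theorem exists_noEigen {R : Finset V} {v : V → I} {HH : Set (V → V → ZMod 2)}
    (hadd : ∀ l ∈ HH, ∀ l' ∈ HH, l + l' ∈ HH)
    (hcard : ∀ x ∈ R, (R.filter (fun c => v c = v x)).card = 3) (H : AllMatch8 R v HH)
    (h3 : 3 ≤ (R.image v).card) :
    ∃ l ∈ HH, ∀ (ε : ZMod 2) (z : V → ZMod 2), EvenZ R v z →
      (∀ b ∈ R, opT R v l z b = ε * z b) → ∀ b ∈ R, z b = 0 := by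
  obtain ⟨T, ⟨l, hl, hT⟩, _, hTe⟩ := goodAll hadd hcard H _ (R.image v) subset_rfl rfl h3
  refine ⟨l, hl, fun ε z hz h b hb => ?_⟩
  exact hTe ε z hz (fun c hc _ => by rw [← hT z hz c hc]; exact h c hc) b hb
    (Finset.mem_image_of_mem v hb)

/-- A perfect matching is given by a map. -/
theorem exists_match_of_isMatch7 {R : Finset V} {v : V → I} {i j : I} (hij : i ≠ j)
    {e : V → V → ZMod 2} (he : IsMatch7 R v i j e) :
    ∃ m : V → V, Match8 R v i j m ∧ MatchW8 R v i j m e := by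
  choose! f hf1 hf2 hf3 hf4 using he.left
  choose! f' hf1' hf2' hf3' hf4' using he.right
  have hji : j ≠ i := hij.symm
  let m : V → V := fun x => if v x = i then f x else f' x
  have hmi : ∀ x, v x = i → m x = f x := fun x hx => if_pos hx
  have hmj : ∀ x, v x = j → m x = f' x := fun x hx => if_neg (by rw [hx]; exact hji)
  have hff : ∀ x ∈ R, v x = i → f' (f x) = x := by
    intro x hx hxi
    by_contra hne
    have h1 := hf4' (f x) (hf1 x hx hxi) (hf2 x hx hxi) x hx hxi (Ne.symm hne)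
    rw [he.symm (f x) (hf1 x hx hxi) x hx, hf3 x hx hxi] at h1
    exact one_ne_zero h1
  have hff' : ∀ x ∈ R, v x = j → f (f' x) = x := by
    intro x hx hxi
    by_contra hne
    have h1 := hf4 (f' x) (hf1' x hx hxi) (hf2' x hx hxi) x hx hxi (Ne.symm hne)
    rw [he.symm (f' x) (hf1' x hx hxi) x hx, hf3' x hx hxi] at h1
    exact one_ne_zero h1
  refine ⟨m, ⟨?_, ?_⟩, ?_⟩
  · intro x hx hxi
    rw [hmi x hxi]
    exact ⟨hf1 x hx hxi, hf2 x hx hxi, by rw [hmj _ (hf2 x hx hxi), hff x hx hxi]⟩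
  · intro x hx hxi
    rw [hmj x hxi]
    exact ⟨hf1' x hx hxi, hf2' x hx hxi, by rw [hmi _ (hf2' x hx hxi), hff' x hx hxi]⟩
  · intro x hx y hy hxy
    by_cases h1 : (v x = i ∧ v y = j) ∨ (v x = j ∧ v y = i)
    · rcases h1 with ⟨h2, h3⟩ | ⟨h2, h3⟩
      · rw [hmi x h2]
        by_cases h4 : y = f x
        · rw [if_pos ⟨Or.inl h2, h4⟩, h4, hf3 x hx h2]
        · rw [if_neg (fun h => h4 h.2), hf4 x hx h2 y hy h3 h4]
      · rw [hmj x h2]
        by_cases h4 : y = f' x
        · rw [if_pos ⟨Or.inr h2, h4⟩, h4, hf3' x hx h2]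
        · rw [if_neg (fun h => h4 h.2), hf4' x hx h2 y hy h3 h4]
    · have h5 : e x y = 0 := by
        by_contra h6
        exact h1 (he.supp x hx y hy hxy h6)
      rw [h5, if_neg]
      rintro ⟨h6 | h6, h7⟩
      · refine h1 (Or.inl ⟨h6, ?_⟩)
        rw [h7, hmi x h6]
        exact hf2 x hx h6
      · refine h1 (Or.inr ⟨h6, ?_⟩)
        rw [h7, hmj x h6]
        exact hf2' x hx h6

/-- The pattern lemma. -/
theorem exists_pattern8 (S : Finset V) (p : V → I)
    (hfib : ∀ b ∈ S, (S.filter fun c => p c = p b).card = 3) (hn : 3 ≤ (S.image p).card)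
    (E : Set (V → V → ZMod 2)) (hadd : ∀ e ∈ E, ∀ e' ∈ E, e + e' ∈ E)
    (hmatch : ∀ b ∈ S, ∀ c ∈ S, p b ≠ p c → ∃ e ∈ E, IsMatch7 S p (p b) (p c) e ∧ e b c = 1) :
    ∃ e ∈ E, ∀ z : V → ZMod 2, (∀ b ∈ S, ∑ c ∈ S.filter (fun c => p c = p b), z c = 0) →
      ∀ ε : ZMod 2, (∀ b ∈ S, ∑ c ∈ S.filter (fun c => p c ≠ p b), e b c * (z b + z c) = ε * z b) →
        ∀ b ∈ S, z b = 0 := by
  have H : AllMatch8 S p E := by
    intro x hx y hy hxy
    obtain ⟨e, he, hm, h1⟩ := hmatch x hx y hy hxy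
    obtain ⟨m, hm1, hm2⟩ := exists_match_of_isMatch7 hxy hm
    refine ⟨e, he, m, hm1, hm2, ?_⟩
    have h2 := hm2 x hx y hy hxy
    rw [h1] at h2
    by_contra h3
    rw [if_neg (fun h => h3 h.2.symm)] at h2
    exact one_ne_zero h2
  obtain ⟨l, hl, hfin⟩ := exists_noEigen hadd hfib H hn
  refine ⟨l, hl, fun z hz ε h b hb => ?_⟩
  refine hfin ε z (fun α => ?_) (fun c hc => ?_) b hb
  · by_cases h1 : ∃ b ∈ S, p b = α
    · obtain ⟨b, hb, rfl⟩ := h1
      exact hz b hb
    · refine Finset.sum_eq_zero fun c hc => ?_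
      rw [Finset.mem_filter] at hc
      exact absurd ⟨c, hc⟩ h1
  · rw [← h c hc]
    unfold opT
    exact Finset.sum_congr rfl fun d _ => by rw [add_comm (z d)]

end

end Pool.Agent.Lib.MP_89bcae_ag

end

section

/-!
# Simple collisions of integral polynomials
-/

open Polynomial

open scoped Classical

set_option linter.unusedSimpArgs false
set_option linter.unusedVariables false
set_option linter.unusedSectionVars false

namespace Pool.Agent.Lib.MP_89bcae_ag

/-- A simple collision modulo the prime `p` of polynomials with integral coefficients. -/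
def IsCollisionZ8 (p : ℕ) (g D : ℤ[X]) : Prop :=
  ∃ (a : ℤ) (h : (ZMod p)[X]),
    D.map (Int.castRingHom (ZMod p)) = (X - C (a : ZMod p)) ^ 2 * h ∧
    (((X - C (a : ZMod p)) * h).comp (g.map (Int.castRingHom (ZMod p)))).Separable ∧
    ¬ ((p : ℤ) ^ 2 ∣ D.eval a)

theorem isCollision7_of_int8 {p : ℕ} (hp : p.Prime) (R : Type*) [CommRing R] [IsDomain R]
    [IsLocalRing R] [Algebra ℤ R] [hP : (Ideal.span {(p : ℤ)}).IsPrime]
    [IsLocalization.AtPrime R (Ideal.span {(p : ℤ)})] {g D : ℤ[X]} (h : IsCollisionZ8 p g D) :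
    IsCollision7 (g.map (algebraMap ℤ R)) (D.map (algebraMap ℤ R)) := by
  obtain ⟨a, h, hD, hsep, ha⟩ := h
  have hmax : IsLocalRing.maximalIdeal R = Ideal.span {(algebraMap ℤ R p)} := by
    rw [← IsLocalization.AtPrime.map_eq_maximalIdeal (Ideal.span {(p : ℤ)}) R, Ideal.map_span,
      Set.image_singleton]
  have hp0 : ((p : ℕ) : IsLocalRing.ResidueField R) = 0 := by
    have h1 : IsLocalRing.residue R (algebraMap ℤ R p) = 0 := by
      rw [IsLocalRing.residue_eq_zero_iff, hmax]
      exact Ideal.mem_span_singleton_self _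
    simpa using h1
  have : CharP (IsLocalRing.ResidueField R) p := (CharP.charP_iff_prime_eq_zero hp).mpr hp0
  let φ : ZMod p →+* IsLocalRing.ResidueField R := ZMod.castHom (dvd_refl p) _
  have hφ : (IsLocalRing.residue R).comp (algebraMap ℤ R) = φ.comp (Int.castRingHom (ZMod p)) :=
    RingHom.ext_int _ _
  have hφa : IsLocalRing.residue R (algebraMap ℤ R a) = φ (a : ZMod p) := RingHom.congr_fun hφ a
  refine ⟨algebraMap ℤ R a, h.map φ, ?_, ?_, ?_⟩
  · rw [Polynomial.map_map, hφ, ← Polynomial.map_map, hD, hφa]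
    simp
  · rw [Polynomial.map_map, hφ, ← Polynomial.map_map, hφa]
    have h1 := hsep.map (f := φ)
    rw [Polynomial.map_comp, Polynomial.map_mul, Polynomial.map_sub, map_X, map_C] at h1
    exact h1
  · rw [hmax, Ideal.span_singleton_pow, Ideal.mem_span_singleton, eval_map,
      eval₂_at_apply]
    rintro ⟨q, hq⟩
    obtain ⟨⟨x, s⟩, hxs⟩ := IsLocalization.surj (Ideal.span {(p : ℤ)}).primeCompl q
    have hinj : Function.Injective (algebraMap ℤ R) :=
      IsLocalization.injective R (Ideal.primeCompl_le_nonZeroDivisors (Ideal.span {(p : ℤ)}))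
    have h1 : D.eval a * s = (p : ℤ) ^ 2 * x := by
      apply hinj
      have h2 : algebraMap ℤ R (D.eval a) = algebraMap ℤ R p ^ 2 * q := by
        rw [← hq]
      rw [map_mul, map_mul, map_pow, h2, ← hxs]
      ring
    have h3 : IsCoprime ((p : ℤ) ^ 2) (s : ℤ) := by
      apply IsCoprime.pow_left
      rw [Prime.coprime_iff_not_dvd (Nat.prime_iff_prime_int.mp hp)]
      intro h4
      exact s.2 (Ideal.mem_span_singleton.mpr h4)
    exact ha (h3.dvd_of_dvd_mul_right ⟨x, h1⟩)

end Pool.Agent.Lib.MP_89bcae_ag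

end

section

/-!
# The number of the polynomials with a simple collision modulo `p ^ 2`
-/

open Polynomial

open scoped Classical

set_option linter.unusedSimpArgs false
set_option linter.unusedVariables false
set_option linter.unusedSectionVars false

namespace Pool.Agent.Lib.MP_89bcae_ag

/-- The polynomial with the given coefficients. -/
noncomputable def polyOf8 {R : Type*} [CommRing R] {n : ℕ} (v : Fin (n + 1) → R) : R[X] :=
  ∑ i : Fin (n + 1), C (v i) * X ^ (i : ℕ)

/-- The reduction modulo `p` of a vector modulo `p ^ 2`. -/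
def red8 (p : ℕ) {n : ℕ} (v : Fin (n + 1) → ZMod (p ^ 2)) : Fin (n + 1) → ZMod p :=
  fun i => ZMod.castHom (dvd_pow_self p two_ne_zero) (ZMod p) (v i)

/-- The residue classes modulo `p ^ 2` of the polynomials with a simple collision. -/
def TypeC8 (p : ℕ) (g : ℤ[X]) (n : ℕ) (v : Fin (n + 1) → ZMod (p ^ 2)) : Prop :=
  ∃ (a : ℤ) (h : (ZMod p)[X]), polyOf8 (red8 p v) = (X - C (a : ZMod p)) ^ 2 * h ∧
    (((X - C (a : ZMod p)) * h).comp (g.map (Int.castRingHom (ZMod p)))).Separable ∧
    ∑ i : Fin (n + 1), v i * (a : ZMod (p ^ 2)) ^ (i : ℕ) ≠ 0 ∧ red8 p v (Fin.last n) ≠ 0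

theorem polyOf_coeff8 {R : Type*} [CommRing R] {n : ℕ} {D : R[X]} (hD : D.natDegree ≤ n) :
    polyOf8 (fun i : Fin (n + 1) => D.coeff i) = D := by
  unfold polyOf8
  rw [Fin.sum_univ_eq_sum_range (fun i => C (D.coeff i) * X ^ i)]
  exact (as_sum_range_C_mul_X_pow' _ (Nat.lt_succ_of_le hD)).symm

theorem isCollisionZ8_of_typeC8 {p : ℕ} {g : ℤ[X]} {n : ℕ} {D : ℤ[X]} (hD : D.natDegree ≤ n)
    (h : TypeC8 p g n (fun i => (D.coeff i : ZMod (p ^ 2)))) :
    IsCollisionZ8 p g D ∧ ¬ (p : ℤ) ∣ D.coeff n := by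
  obtain ⟨a, h, h1, h2, h3, h4⟩ := h
  have hred : red8 p (fun i : Fin (n + 1) => (D.coeff i : ZMod (p ^ 2))) =
      fun i : Fin (n + 1) => (D.map (Int.castRingHom (ZMod p))).coeff i := by
    funext i
    unfold red8
    rw [map_intCast, coeff_map]
    rfl
  refine ⟨⟨a, h, ?_, h2, ?_⟩, ?_⟩
  · rw [← h1, hred, polyOf_coeff8 (natDegree_map_le.trans hD)]
  · intro hdvd
    apply h3
    have h5 : ((D.eval a : ℤ) : ZMod (p ^ 2)) = 0 := by
      rw [ZMod.intCast_zmod_eq_zero_iff_dvd]
      exact_mod_cast hdvd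
    rw [← h5, eval_eq_sum_range' (Nat.lt_succ_of_le hD)]
    rw [← Fin.sum_univ_eq_sum_range (fun i => D.coeff i * a ^ i)]
    push_cast
    rfl
  · intro hdvd
    apply h4
    rw [hred]
    show (D.map (Int.castRingHom (ZMod p))).coeff (Fin.last n : ℕ) = 0
    rw [Fin.val_last, coeff_map]
    exact (ZMod.intCast_zmod_eq_zero_iff_dvd _ _).mpr hdvd

section Crit

variable {K : Type*} [Field K]

/-- A monic cubic takes at most two critical values. -/
theorem card_crit8 (h3 : (3 : K) ≠ 0) {g : K[X]} (hg : g.Monic) (hdeg : g.natDegree = 3)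
    (S : Finset K) (hS : ∀ e ∈ S, ¬ (g - C e).Separable) : S.card ≤ 2 := by
  let L := AlgebraicClosure K
  have hder : derivative g ≠ 0 := by
    intro h0
    have h1 : (derivative g).coeff 2 = 0 := by rw [h0, coeff_zero]
    rw [coeff_derivative] at h1
    have h4 : g.coeff 3 = 1 := by rw [← hdeg]; exact hg
    have h5 : g.coeff (2 + 1) = 1 := h4
    rw [h5, one_mul] at h1
    apply h3
    rw [← h1]
    norm_num
  have hex : ∀ e ∈ S, ∃ θ ∈ ((derivative g).aroots L).toFinset, aeval θ g = algebraMap K L e := by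
    intro e he
    have h1 := hS e he
    rw [Polynomial.Separable, Polynomial.isCoprime_iff_aeval_ne_zero_of_isAlgClosed K L] at h1
    push Not at h1
    obtain ⟨θ, h4, h5⟩ := h1
    rw [derivative_sub, derivative_C, sub_zero] at h5
    rw [map_sub, aeval_C, sub_eq_zero] at h4
    exact ⟨θ, by rw [Multiset.mem_toFinset, mem_aroots]; exact ⟨hder, h5⟩, h4⟩
  choose! f hf1 hf2 using hex
  have h6 : S.card ≤ ((derivative g).aroots L).toFinset.card := by
    apply Finset.card_le_card_of_injOn f hf1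
    intro x hx y hy hxy
    apply (algebraMap K L).injective
    rw [← hf2 x hx, ← hf2 y hy, hxy]
  refine h6.trans ((Multiset.toFinset_card_le _).trans ?_)
  refine (card_roots' _).trans ?_
  rw [natDegree_map]
  have := natDegree_derivative_le g
  omega

end Crit

section Count

variable {p : ℕ} [Fact p.Prime]

/-- The polynomial with the leading coefficient `c`, the simple roots `S \ {a}` and the double root
`a`. -/
noncomputable def polC8 (c : ZMod p) (S : Finset (ZMod p)) (a : ZMod p) : (ZMod p)[X] :=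
  C c * ((X - C a) * ∏ e ∈ S, (X - C e))

theorem natDegree_polC8 {c : ZMod p} (hc : c ≠ 0) (S : Finset (ZMod p)) (a : ZMod p) :
    (polC8 c S a).natDegree = S.card + 1 ∧ (polC8 c S a).leadingCoeff = c := by
  have h1 : (∏ e ∈ S, (X - C e : (ZMod p)[X])).Monic := monic_prod_X_sub_C _ _
  have h2 : ((X - C a) * ∏ e ∈ S, (X - C e : (ZMod p)[X])).Monic := (monic_X_sub_C a).mul h1
  unfold polC8
  constructor
  · rw [natDegree_C_mul hc, (monic_X_sub_C a).natDegree_mul h1, natDegree_X_sub_C,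
      natDegree_prod_of_monic _ _ (fun e _ => monic_X_sub_C e)]
    simp
    ring
  · rw [leadingCoeff_mul, leadingCoeff_C, h2.leadingCoeff, mul_one]

theorem roots_polC8 {c : ZMod p} (hc : c ≠ 0) (S : Finset (ZMod p)) {a : ZMod p} (ha : a ∈ S) :
    (polC8 c S a).roots.toFinset = S := by
  have h1 : (∏ e ∈ S, (X - C e : (ZMod p)[X])).Monic := monic_prod_X_sub_C _ _
  have h2 : ((X - C a) * ∏ e ∈ S, (X - C e : (ZMod p)[X])).Monic := (monic_X_sub_C a).mul h1
  unfold polC8
  rw [roots_C_mul _ hc, roots_mul h2.ne_zero, roots_X_sub_C, roots_prod_X_sub_C]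
  ext x
  simp
  intro h
  rw [h]; exact ha

theorem polC8_eq {c : ZMod p} {S : Finset (ZMod p)} {a : ZMod p} (ha : a ∈ S) :
    polC8 c S a = (X - C a) ^ 2 * (C c * ∏ e ∈ S.erase a, (X - C e)) := by
  unfold polC8
  rw [← Finset.mul_prod_erase S _ ha]
  ring

theorem separable_polC8 {c : ZMod p} (hc : c ≠ 0) {S : Finset (ZMod p)} {a : ZMod p} (ha : a ∈ S)
    {g : (ZMod p)[X]} (hS : ∀ e ∈ S, (g - C e).Separable) :
    (((X - C a) * (C c * ∏ e ∈ S.erase a, (X - C e))).comp g).Separable := by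
  have h1 : ((X - C a) * (C c * ∏ e ∈ S.erase a, (X - C e))).comp g =
      C c * ∏ e ∈ S, (g - C e) := by
    rw [mul_left_comm, Finset.mul_prod_erase S (fun e => (X - C e : (ZMod p)[X])) ha, mul_comp,
      C_comp, prod_comp]
    congr 1
    exact Finset.prod_congr rfl fun e _ => by rw [sub_comp, X_comp, C_comp]
  rw [h1]
  have h2 : (∏ e ∈ S, (g - C e)).Separable := by
    apply separable_prod'
    · intro x hx y hy hxy
      refine ⟨C ((y - x)⁻¹), -C ((y - x)⁻¹), ?_⟩
      have h3 : C ((y - x)⁻¹) * C (y - x) = (1 : (ZMod p)[X]) := by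
        rw [← C_mul, inv_mul_cancel₀ (sub_ne_zero.mpr (Ne.symm hxy)), C_1]
      rw [C_sub] at h3
      linear_combination h3
    · exact hS
  have h3 : (C c : (ZMod p)[X]).Separable := separable_C c |>.mpr (isUnit_iff_ne_zero.mpr hc)
  refine h3.mul h2 ⟨C c⁻¹, 0, ?_⟩
  rw [zero_mul, add_zero, ← C_mul, inv_mul_cancel₀ hc, C_1]

/-- The number of the lifts of a set of vectors modulo `p`. -/
theorem card_lift8 (k : ℕ) (B : Finset (Fin (k + 1) → ZMod p)) :
    B.card * p ^ (k + 1) ≤
      (Finset.univ.filter fun v : Fin (k + 1) → ZMod (p ^ 2) => red8 p v ∈ B).card := by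
  have hp : p.Prime := Fact.out
  have hp0 : 0 < p := hp.pos
  have : NeZero p := ⟨hp0.ne'⟩
  have h1 : (B ×ˢ (Finset.univ : Finset (Fin (k + 1) → Fin p))).card = B.card * p ^ (k + 1) := by
    rw [Finset.card_product, Finset.card_univ, Fintype.card_fun, Fintype.card_fin,
      Fintype.card_fin]
  rw [← h1]
  have hlt : ∀ (b : ZMod p) (w : Fin p), b.val + p * (w : ℕ) < p ^ 2 := by
    intro b w
    have h2 := ZMod.val_lt b
    have h3 := w.2
    have h4 : p * ((w : ℕ) + 1) ≤ p * p := Nat.mul_le_mul_left p h3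
    rw [sq]
    nlinarith
  apply Finset.card_le_card_of_injOn
    (fun q i => (((q.1 i).val + p * (q.2 i : ℕ) : ℕ) : ZMod (p ^ 2)))
  · rintro ⟨b, w⟩ hq
    rw [Finset.mem_coe, Finset.mem_product] at hq
    rw [Finset.mem_coe, Finset.mem_filter]
    refine ⟨Finset.mem_univ _, ?_⟩
    have h2 : red8 p (fun i => (((b i).val + p * (w i : ℕ) : ℕ) : ZMod (p ^ 2))) = b := by
      funext i
      unfold red8
      rw [map_natCast]
      push_cast
      rw [ZMod.natCast_self, zero_mul, add_zero, ZMod.natCast_zmod_val]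
    show red8 p (fun i => (((b i).val + p * (w i : ℕ) : ℕ) : ZMod (p ^ 2))) ∈ B
    rw [h2]
    exact hq.1
  · rintro ⟨b, w⟩ _ ⟨b', w'⟩ _ h
    have h2 : ∀ i, (b i).val + p * (w i : ℕ) = (b' i).val + p * (w' i : ℕ) := by
      intro i
      have h3 := congrFun h i
      change (((b i).val + p * (w i : ℕ) : ℕ) : ZMod (p ^ 2)) =
        (((b' i).val + p * (w' i : ℕ) : ℕ) : ZMod (p ^ 2)) at h3
      rw [ZMod.natCast_eq_natCast_iff] at h3
      exact Nat.ModEq.eq_of_lt_of_lt h3 (hlt _ _) (hlt _ _)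
    have h3 : b = b' := by
      funext i
      apply ZMod.val_injective
      have h4 := congrArg (· % p) (h2 i)
      simp only [Nat.add_mul_mod_self_left, Nat.mod_eq_of_lt (ZMod.val_lt _)] at h4
      exact h4
    subst h3
    have h4 : w = w' := by
      funext i
      apply Fin.ext
      have h5 := h2 i
      exact Nat.eq_of_mul_eq_mul_left hp0 (by omega)
    rw [h4]

/-- A root chosen in a nonempty set. -/
noncomputable def pick8 (S : Finset (ZMod p)) : ZMod p := if h : S.Nonempty then h.choose else 0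

theorem pick_mem8 {S : Finset (ZMod p)} (h : S.Nonempty) : pick8 S ∈ S := by
  unfold pick8
  rw [dif_pos h]
  exact h.choose_spec

/-- The number of the polynomials modulo `p` with one double root. -/
theorem card_polC8 (m : ℕ) (hm : 1 ≤ m) (A : Finset (ZMod p)) :
    (((Finset.univ.filter fun c : ZMod p => c ≠ 0) ×ˢ A.powersetCard m).image
      (fun q => fun i : Fin (m + 2) => (polC8 q.1 q.2 (pick8 q.2)).coeff i)).card =
      (p - 1) * A.card.choose m := by
  have hp : p.Prime := Fact.out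
  have : NeZero p := ⟨hp.ne_zero⟩
  rw [Finset.card_image_of_injOn, Finset.card_product, Finset.card_powersetCard]
  · congr 1
    rw [Finset.filter_ne', Finset.card_erase_of_mem (Finset.mem_univ _), Finset.card_univ,
      ZMod.card]
  · rintro ⟨c, S⟩ hq ⟨c', S'⟩ hq' h
    rw [Finset.mem_coe, Finset.mem_product, Finset.mem_filter, Finset.mem_powersetCard] at hq hq'
    have hc : c ≠ 0 := hq.1.2
    have hc' : c' ≠ 0 := hq'.1.2
    have hS : S.card = m := hq.2.2
    have hS' : S'.card = m := hq'.2.2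
    have hne : S.Nonempty := Finset.card_pos.mp (by omega)
    have hne' : S'.Nonempty := Finset.card_pos.mp (by omega)
    obtain ⟨h1, h2⟩ := natDegree_polC8 hc S (pick8 S)
    obtain ⟨h1', h2'⟩ := natDegree_polC8 hc' S' (pick8 S')
    have h3 : polC8 c S (pick8 S) = polC8 c' S' (pick8 S') := by
      rw [← polyOf_coeff8 (n := m + 1) (D := polC8 c S (pick8 S)) (by omega),
        ← polyOf_coeff8 (n := m + 1) (D := polC8 c' S' (pick8 S')) (by omega)]
      exact congrArg polyOf8 h
    have h4 : c = c' := by rw [← h2, h3, h2']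
    have h5 : S = S' := by
      rw [← roots_polC8 hc S (pick_mem8 hne), h3, roots_polC8 hc' S' (pick_mem8 hne')]
    rw [h4, h5]

theorem count_typeC_aux8 (m : ℕ) (hm : 1 ≤ m) (h3 : 3 < p) {g : ℤ[X]} (hg : g.Monic)
    (hdeg : g.natDegree = 3) :
    (p - 1) * (p - 2).choose m * p ^ (m + 2) ≤
      2 * {v : Fin (m + 2) → ZMod (p ^ 2) | TypeC8 p g (m + 1) v}.ncard := by
  have hp : p.Prime := Fact.out
  have : NeZero p := ⟨hp.ne_zero⟩
  have : NeZero (p ^ 2) := ⟨pow_ne_zero 2 hp.ne_zero⟩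
  set g' := g.map (Int.castRingHom (ZMod p)) with hg'
  have hgm : g'.Monic := hg.map _
  have hgd : g'.natDegree = 3 := by rw [hg', hg.natDegree_map, hdeg]
  have h30 : (3 : ZMod p) ≠ 0 := by
    intro h
    have h4 : ((3 : ℕ) : ZMod p) = 0 := by exact_mod_cast h
    rw [ZMod.natCast_eq_zero_iff] at h4
    exact absurd (Nat.le_of_dvd (by norm_num) h4) (by omega)
  obtain ⟨A, hAdef⟩ : ∃ A : Finset (ZMod p),
      A = Finset.univ.filter fun e => (g' - C e).Separable := ⟨_, rfl⟩
  have hA : p - 2 ≤ A.card := by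
    have h1 := card_crit8 h30 hgm hgd (Finset.univ.filter fun e => ¬ (g' - C e).Separable)
      (fun e he => (Finset.mem_filter.mp he).2)
    have h2 := Finset.card_filter_add_card_filter_not (s := (Finset.univ : Finset (ZMod p)))
      (fun e => (g' - C e).Separable)
    rw [Finset.card_univ, ZMod.card, ← hAdef] at h2
    omega
  set B := ((Finset.univ.filter fun c : ZMod p => c ≠ 0) ×ˢ A.powersetCard m).image
      (fun q => fun i : Fin (m + 2) => (polC8 q.1 q.2 (pick8 q.2)).coeff i) with hB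
  have hBc : (p - 1) * (p - 2).choose m ≤ B.card := by
    rw [hB, card_polC8 m hm A]
    exact Nat.mul_le_mul_left _ (Nat.choose_le_choose m hA)
  obtain ⟨Q, hQ⟩ : ∃ Q : Finset (Fin (m + 2) → ZMod (p ^ 2)),
      Q = Finset.univ.filter fun v => red8 p v ∈ B := ⟨_, rfl⟩
  have hlift : B.card * p ^ (m + 2) ≤ Q.card := by
    rw [hQ]
    convert card_lift8 (p := p) (m + 1) B
  refine (Nat.mul_le_mul_right _ hBc).trans (hlift.trans ?_)
  -- the translation
  let T : Finset (Fin (m + 2) → ZMod (p ^ 2)) := Finset.univ.filter fun v => TypeC8 p g (m + 1) v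
  have hT : {v : Fin (m + 2) → ZMod (p ^ 2) | TypeC8 p g (m + 1) v}.ncard = T.card := by
    rw [← Set.ncard_coe_finset]
    congr 1
    ext v
    simp [T]
  rw [hT]
  have hsplit : (Q.filter (fun v => TypeC8 p g (m + 1) v)).card +
      (Q.filter (fun v => ¬ TypeC8 p g (m + 1) v)).card = Q.card := by
    convert Finset.card_filter_add_card_filter_not (s := Q) (fun v => TypeC8 p g (m + 1) v)
  have hA1 : (Q.filter (fun v => TypeC8 p g (m + 1) v)).card ≤ T.card := by
    apply Finset.card_le_card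
    intro v hv
    rw [Finset.mem_filter] at hv
    exact Finset.mem_filter.mpr ⟨Finset.mem_univ _, hv.2⟩
  have hA2 : (Q.filter (fun v => ¬ TypeC8 p g (m + 1) v)).card ≤ T.card := by
    apply Finset.card_le_card_of_injOn
      (fun v => v + Pi.single (0 : Fin (m + 2)) (p : ZMod (p ^ 2)))
    · intro v hv
      rw [Finset.mem_coe, Finset.mem_filter, hQ, Finset.mem_filter] at hv
      obtain ⟨⟨-, hvB⟩, hvT⟩ := hv
      rw [hB, Finset.mem_image] at hvB
      obtain ⟨⟨c, S⟩, hq, hv⟩ := hvB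
      rw [Finset.mem_product, Finset.mem_filter, Finset.mem_powersetCard] at hq
      have hc : c ≠ 0 := hq.1.2
      have hS : S.card = m := hq.2.2
      have hne : S.Nonempty := Finset.card_pos.mp (by omega)
      have hpm := pick_mem8 hne
      have hSA : ∀ e ∈ S, (g' - C e).Separable := fun e he =>
        by
          have h8 := hq.2.1 he
          rw [hAdef, Finset.mem_filter] at h8
          exact h8.2
      obtain ⟨h1, h2⟩ := natDegree_polC8 hc S (pick8 S)
      have hred : ∀ v' : Fin (m + 2) → ZMod (p ^ 2), red8 p v' = red8 p v →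
          ∑ i : Fin (m + 2), v' i * (((pick8 S).val : ℤ) : ZMod (p ^ 2)) ^ (i : ℕ) ≠ 0 →
          TypeC8 p g (m + 1) v' := by
        intro v' hv' hne'
        have hpick : ((((pick8 S).val : ℤ)) : ZMod p) = pick8 S := by
          push_cast
          exact ZMod.natCast_zmod_val _
        refine ⟨((pick8 S).val : ℤ), C c * ∏ e ∈ S.erase (pick8 S), (X - C e), ?_, ?_, hne', ?_⟩
        · rw [hpick, hv', ← hv, ← polC8_eq hpm]
          exact polyOf_coeff8 (show (polC8 c S (pick8 S)).natDegree ≤ m + 1 by omega)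
        · rw [hpick]
          exact separable_polC8 hc hpm hSA
        · rw [hv', ← hv]
          show (polC8 c S (pick8 S)).coeff (Fin.last (m + 1) : ℕ) ≠ 0
          rw [Fin.val_last]
          have h5 : m + 1 = (polC8 c S (pick8 S)).natDegree := by omega
          rw [h5, coeff_natDegree, h2]
          exact hc
      have h0 : ∑ i : Fin (m + 2), v i * (((pick8 S).val : ℤ) : ZMod (p ^ 2)) ^ (i : ℕ) = 0 := by
        by_contra h0
        exact hvT (hred v rfl h0)
      rw [Finset.mem_coe, Finset.mem_filter]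
      refine ⟨Finset.mem_univ _, hred _ ?_ ?_⟩
      · funext i
        show ZMod.castHom (dvd_pow_self p two_ne_zero) (ZMod p)
          ((v + Pi.single (0 : Fin (m + 2)) (p : ZMod (p ^ 2)) : Fin (m + 2) → ZMod (p ^ 2)) i) =
            ZMod.castHom (dvd_pow_self p two_ne_zero) (ZMod p) (v i)
        rw [Pi.add_apply, map_add]
        by_cases hi : i = 0
        · rw [hi, Pi.single_eq_same, map_natCast, ZMod.natCast_self, add_zero]
        · rw [Pi.single_eq_of_ne hi, map_zero, add_zero]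
      · have h6 : ∑ i : Fin (m + 2),
            (v + Pi.single (0 : Fin (m + 2)) (p : ZMod (p ^ 2)) : Fin (m + 2) → ZMod (p ^ 2)) i *
            (((pick8 S).val : ℤ) : ZMod (p ^ 2)) ^ (i : ℕ) = p := by
          simp only [Pi.add_apply, add_mul]
          rw [Finset.sum_add_distrib, h0, zero_add, Finset.sum_eq_single 0]
          · rw [Pi.single_eq_same, Fin.val_zero, pow_zero, mul_one]
          · intro i _ hi
            rw [Pi.single_eq_of_ne hi, zero_mul]
          · intro h; exact absurd (Finset.mem_univ _) h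
        rw [h6]
        intro h7
        rw [ZMod.natCast_eq_zero_iff] at h7
        have h8 := Nat.le_of_dvd hp.pos h7
        have h9 := hp.two_le
        nlinarith
    · intro v _ v' _ h
      exact add_right_cancel h
  omega

end Count

/-- **The number of the residue classes with a simple collision.** -/
theorem count_typeC8 (n : ℕ) (hn : 2 ≤ n) : ∃ c : ℝ, 0 < c ∧ ∃ P0 : ℕ, ∀ p : ℕ, p.Prime →
    P0 ≤ p → ∀ g : ℤ[X], g.Monic → g.natDegree = 3 →
      c / p * ((p : ℝ) ^ 2) ^ (n + 1) ≤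
        ({v : Fin (n + 1) → ZMod (p ^ 2) | TypeC8 p g n v}.ncard : ℝ) := by
  obtain ⟨m, rfl⟩ : ∃ m, n = m + 1 := ⟨n - 1, by omega⟩
  have hm : 1 ≤ m := by omega
  refine ⟨1 / (2 ^ (m + 2) * m.factorial), by positivity, 2 * m + 5, fun p hp hP g hg hdeg => ?_⟩
  have : Fact p.Prime := ⟨hp⟩
  have h1 := count_typeC_aux8 (p := p) m hm (by omega) hg hdeg
  have h2 : ((p - 2 + 1 - m : ℕ) : ℝ) ^ m ≤ m.factorial * (p - 2).choose m := by
    exact_mod_cast Nat.pow_sub_le_descFactorial (p - 2) m |>.trans_eq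
      (Nat.descFactorial_eq_factorial_mul_choose _ _)
  have hp0 : (0 : ℝ) < p := by exact_mod_cast hp.pos
  have h3 : (p : ℝ) / 2 ≤ ((p - 2 + 1 - m : ℕ) : ℝ) := by
    have h4 : p ≤ 2 * (p - 2 + 1 - m) := by omega
    have h5 : (p : ℝ) ≤ 2 * ((p - 2 + 1 - m : ℕ) : ℝ) := by exact_mod_cast h4
    linarith
  have h4 : (p : ℝ) / 2 ≤ ((p - 1 : ℕ) : ℝ) := by
    have h4 : p ≤ 2 * (p - 1) := by omega
    have h5 : (p : ℝ) ≤ 2 * ((p - 1 : ℕ) : ℝ) := by exact_mod_cast h4
    linarith
  have h5 : ((p : ℝ) / 2) ^ m ≤ m.factorial * (p - 2).choose m :=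
    (pow_le_pow_left₀ (by positivity) h3 m).trans h2
  have h6 : (((p - 1 : ℕ) : ℝ) * ((p - 2).choose m : ℝ)) * (p : ℝ) ^ (m + 2) ≤
      2 * ({v : Fin (m + 2) → ZMod (p ^ 2) | TypeC8 p g (m + 1) v}.ncard : ℝ) := by
    exact_mod_cast h1
  have hf : (0 : ℝ) < m.factorial := by exact_mod_cast m.factorial_pos
  have h7 : (p : ℝ) ^ (m + 1) / (2 ^ (m + 1) * m.factorial) ≤
      ((p - 1 : ℕ) : ℝ) * ((p - 2).choose m : ℝ) := by
    rw [div_le_iff₀ (by positivity)]
    have h8 : ((p : ℝ) / 2) * ((p : ℝ) / 2) ^ m ≤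
        ((p - 1 : ℕ) : ℝ) * (m.factorial * (p - 2).choose m) :=
      mul_le_mul h4 h5 (by positivity) (by positivity)
    have h9 : ((p : ℝ) / 2) * ((p : ℝ) / 2) ^ m = (p : ℝ) ^ (m + 1) / 2 ^ (m + 1) := by
      rw [← pow_succ', div_pow]
    rw [h9, div_le_iff₀ (by positivity)] at h8
    linarith
  have h8 : (p : ℝ) ^ (m + 1) / (2 ^ (m + 1) * m.factorial) * (p : ℝ) ^ (m + 2) ≤
      2 * ({v : Fin (m + 2) → ZMod (p ^ 2) | TypeC8 p g (m + 1) v}.ncard : ℝ) :=
    (mul_le_mul_of_nonneg_right h7 (by positivity)).trans h6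
  have h9 : 1 / (2 ^ (m + 2) * (m.factorial : ℝ)) / p * ((p : ℝ) ^ 2) ^ (m + 1 + 1) =
      (p : ℝ) ^ (m + 1) / (2 ^ (m + 1) * m.factorial) * (p : ℝ) ^ (m + 2) / 2 := by
    field_simp
    ring
  rw [h9]
  linarith

end Pool.Agent.Lib.MP_89bcae_ag

end

section

/-!
# The family of the monic `D` of degree `n` with `D(g(x))` irreducible: elementary lemmas
-/

open Polynomial IntermediateField

namespace Pool.Agent.Lib.MP_89bcae_ag

universe u

section Basic

variable {k : Type u} [Field k]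

lemma family_finite8 [Finite k] (g : k[X]) (n : ℕ) : (family g n).Finite := by
  have hinj : Set.InjOn (fun D : k[X] => fun i : Fin (n + 1) => D.coeff i) (family g n) := by
    rintro D ⟨-, h1, -⟩ D' ⟨-, h1', -⟩ h
    ext i
    by_cases hi : i < n + 1
    · exact congrFun h ⟨i, hi⟩
    · rw [coeff_eq_zero_of_natDegree_lt (by omega), coeff_eq_zero_of_natDegree_lt (by omega)]
  exact Set.Finite.of_finite_image (Set.toFinite _) hinj

lemma irreducible_of_comp8 {g D : k[X]} (hdeg : g.natDegree = 3) (h : Irreducible (D.comp g)) :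
    Irreducible D := by
  refine ⟨fun hu => ?_, fun a b hab => ?_⟩
  · have h1 := h.natDegree_pos
    rw [natDegree_comp, natDegree_eq_zero_of_isUnit hu] at h1
    omega
  · have h1 : IsUnit (a.comp g) ∨ IsUnit (b.comp g) := h.isUnit_or_isUnit (by rw [hab, mul_comp])
    have key : ∀ c : k[X], c ≠ 0 → IsUnit (c.comp g) → IsUnit c := by
      intro c hc hu
      have h2 := natDegree_eq_zero_of_isUnit hu
      rw [natDegree_comp, hdeg] at h2
      have h3 : c.natDegree = 0 := by omega
      obtain ⟨r, hr⟩ := natDegree_eq_zero.mp h3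
      rw [← hr] at hc ⊢
      rw [isUnit_C]
      exact (isUnit_iff_ne_zero).mpr (fun h0 => hc (by rw [h0, C_0]))
    have hD0 : D ≠ 0 := by
      rintro rfl
      exact h.ne_zero zero_comp
    rcases h1 with h1 | h1
    · exact Or.inl (key a (by rintro rfl; exact hD0 (by rw [hab, zero_mul])) h1)
    · exact Or.inr (key b (by rintro rfl; exact hD0 (by rw [hab, mul_zero])) h1)

end Basic

lemma aeval_cubic8 {k F : Type*} [Field k] [Field F] [Algebra k F] {g : k[X]} (hg : g.Monic) (hdeg : g.natDegree = 3) (x : F) :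
    aeval x g = x ^ 3 + algebraMap k F (g.coeff 2) * x ^ 2 + algebraMap k F (g.coeff 1) * x +
      algebraMap k F (g.coeff 0) := by
  have h3 : g.coeff 3 = 1 := by
    have := hg.coeff_natDegree
    rwa [hdeg] at this
  rw [aeval_eq_sum_range, hdeg]
  simp only [Finset.sum_range_succ, Finset.sum_range_zero, Algebra.smul_def, h3, map_one]
  ring

open scoped Classical in
/-- The roots of the polynomials of a finite set of monic irreducible polynomials of degree `n`. -/
lemma exists_roots_card8 {k F : Type u} [Field k] [Fintype k] [Field F] [Algebra k F]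
    [IsAlgClosure k F] (n : ℕ) (S : Finset k[X])
    (hS : ∀ D ∈ S, D.Monic ∧ D.natDegree = n ∧ Irreducible D) :
    ∃ A : Finset F, (∀ a, a ∈ A ↔ minpoly k a ∈ S) ∧ A.card = n * S.card := by
  have hF : IsAlgClosed F := IsAlgClosure.isAlgClosed k
  have hkF : Algebra.IsAlgebraic k F := IsAlgClosure.isAlgebraic
  have key : ∀ D ∈ S, ∀ a : F, a ∈ (D.aroots F).toFinset ↔ minpoly k a = D := by
    intro D hD a
    obtain ⟨h1, -, h3⟩ := hS D hD
    rw [Multiset.mem_toFinset, mem_aroots]
    constructor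
    · rintro ⟨-, h4⟩
      exact (minpoly.eq_of_irreducible_of_monic h3 h4 h1).symm
    · intro h4
      exact ⟨h3.ne_zero, by rw [← h4, minpoly.aeval]⟩
  refine ⟨S.biUnion fun D => (D.aroots F).toFinset, fun a => ?_, ?_⟩
  · rw [Finset.mem_biUnion]
    constructor
    · rintro ⟨D, hD, h⟩
      rw [(key D hD a).mp h]
      exact hD
    · intro h
      exact ⟨_, h, (key _ h a).mpr rfl⟩
  · rw [Finset.card_biUnion]
    · rw [Finset.sum_const_nat (m := n), mul_comm]
      intro D hD
      obtain ⟨h1, h2, h3⟩ := hS D hD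
      have hsep : D.Separable := PerfectField.separable_of_irreducible h3
      have h4 : (D.aroots F).Nodup := nodup_roots hsep.map
      rw [Multiset.toFinset_card_of_nodup h4, aroots_def,
        ← (IsAlgClosed.splits (D.map (algebraMap k F))).natDegree_eq_card_roots, natDegree_map, h2]
    · intro D hD D' hD' hne
      rw [Function.onFun, Finset.disjoint_left]
      intro a ha ha'
      exact hne (((key D hD a).mp ha).symm.trans ((key D' hD' a).mp ha'))

/-- If `g - a` has no root in `k(a)`, then `D(g(x))` is irreducible for the minimal polynomial `D`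
of `a`. -/
lemma minpoly_mem_family8 {k F : Type u} [Field k] [Fintype k] [Field F] [Algebra k F]
    [IsAlgClosure k F] {g : k[X]} (hg : g.Monic) (hdeg : g.natDegree = 3) {n : ℕ} (hn : 0 < n)
    {a : F} (ha : a ^ (Fintype.card k ^ n) = a)
    (ha' : ∀ i, 0 < i → i < n → a ^ (Fintype.card k ^ i) ≠ a)
    (hroot : ∀ x : F, x ^ (Fintype.card k ^ n) = x → aeval x g ≠ a) :
    minpoly k a ∈ family g n := by
  have hF : IsAlgClosed F := IsAlgClosure.isAlgClosed k
  have hkF : Algebra.IsAlgebraic k F := IsAlgClosure.isAlgebraic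
  have hint : ∀ x : F, IsIntegral k x := fun x => Algebra.IsIntegral.isIntegral x
  have hdn : (minpoly k a).natDegree = n := by
    have h1 : (minpoly k a).natDegree ∣ n := by
      rw [← frob8_pow_eq_iff, frob8_pow_apply, ha]
    have h2 := Nat.le_of_dvd hn h1
    have h3 : 0 < (minpoly k a).natDegree := minpoly.natDegree_pos (hint a)
    by_contra h4
    apply ha' _ h3 (lt_of_le_of_ne h2 h4)
    rw [← frob8_pow_apply, frob8_pow_eq_iff]
  refine ⟨minpoly.monic (hint a), hdn, ?_⟩
  -- a root of `g - a`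
  obtain ⟨β, hβ⟩ : ∃ β : F, aeval β g = a := by
    have h1 : (g.map (algebraMap k F) - C a).degree ≠ 0 := by
      have h3 : (g.map (algebraMap k F) - C a).natDegree = 3 := by
        rw [natDegree_sub_C, hg.natDegree_map, hdeg]
      intro h4
      rw [natDegree_eq_of_degree_eq_some h4] at h3
      exact absurd h3 (by norm_num)
    obtain ⟨β, hβ⟩ := IsAlgClosed.exists_root _ h1
    refine ⟨β, ?_⟩
    rw [IsRoot.def, eval_sub, eval_C, eval_map_algebraMap] at hβ
    exact sub_eq_zero.mp hβ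
  have hfg : ∀ (i : ℕ) (x : F), aeval ((frob8 k F ^ i) x) g = (frob8 k F ^ i) (aeval x g) := by
    intro i x
    change aeval ((frob8 k F ^ i : F ≃ₐ[k] F) x) g = _
    rw [← AlgEquiv.coe_toAlgHom (frob8 k F ^ i), aeval_algHom_apply]
  have hcomp : aeval β ((minpoly k a).comp g) = 0 := by
    rw [aeval_comp, hβ, minpoly.aeval]
  have hcm : ((minpoly k a).comp g).Monic := (minpoly.monic (hint a)).comp hg (by omega)
  have hcd : ((minpoly k a).comp g).natDegree = 3 * n := by
    rw [natDegree_comp, hdeg, hdn, mul_comm]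
  set m := (minpoly k β).natDegree with hm
  have hmpos : 0 < m := minpoly.natDegree_pos (hint β)
  have hmle : m ≤ 3 * n := by
    rw [← hcd]
    exact natDegree_le_of_dvd (minpoly.dvd k β hcomp) hcm.ne_zero
  have hnm : n ∣ m := by
    rw [← hdn, ← frob8_pow_eq_iff, ← hβ, ← hfg, (frob8_pow_eq_iff β m).mpr dvd_rfl]
  obtain ⟨e, he⟩ := hnm
  have he3 : e ≤ 3 := by
    rw [he, mul_comm] at hmle
    exact Nat.le_of_mul_le_mul_right hmle hn
  have he0 : e ≠ 0 := by
    rintro rfl
    omega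
  have hβn : (frob8 k F ^ n) β ≠ β := by
    intro h
    rw [frob8_pow_apply] at h
    exact hroot β h hβ
  have he1 : e ≠ 1 := by
    rintro rfl
    apply hβn
    rw [frob8_pow_eq_iff, ← hm, he, mul_one]
  have he2 : e ≠ 2 := by
    rintro rfl
    set β' := (frob8 k F ^ n) β with hβ'
    have h1 : (frob8 k F ^ n) β' = β := by
      rw [hβ', ← AlgEquiv.mul_apply, ← pow_add, frob8_pow_eq_iff, ← hm, he]
      exact ⟨1, by ring⟩
    have h2 : aeval β' g = a := by
      rw [hβ', hfg, hβ, frob8_pow_apply, ha]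
    have h3 : (frob8 k F ^ n) (-algebraMap k F (g.coeff 2) - β - β') =
        -algebraMap k F (g.coeff 2) - β - β' := by
      rw [map_sub, map_sub, map_neg, AlgEquiv.commutes, h1, ← hβ']
      ring
    rw [frob8_pow_apply] at h3
    refine hroot _ h3 ?_
    rw [← hβ]
    rw [aeval_cubic8 hg hdeg] at h2 hβ ⊢
    rw [aeval_cubic8 hg hdeg]
    have h4 : (β' - β) * (β' ^ 2 + β' * β + β ^ 2 + algebraMap k F (g.coeff 2) * (β' + β) +
        algebraMap k F (g.coeff 1)) = 0 := by
      linear_combination h2 - hβ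
    have h5 := (mul_eq_zero.mp h4).resolve_left (sub_ne_zero.mpr hβn)
    linear_combination (-algebraMap k F (g.coeff 2) - β - β' - β) * h5
  have hm3 : m = 3 * n := by
    have : e = 3 := by omega
    rw [he, this, mul_comm]
  have hfin : (minpoly k a).comp g = minpoly k β := by
    apply eq_of_monic_of_dvd_of_natDegree_le (minpoly.monic (hint β)) hcm
      (minpoly.dvd k β hcomp)
    rw [hcd, ← hm, hm3]
  rw [hfin]
  exact minpoly.irreducible (hint β)


end Pool.Agent.Lib.MP_89bcae_ag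

end

section

/-!
# The extension generated by the `ℓ`-th roots of unity is unramified outside of `ℓ`
-/

open Polynomial WithZero IsDedekindDomain

open scoped Classical Pointwise

set_option linter.unusedSimpArgs false
set_option linter.unusedVariables false
set_option linter.unusedSectionVars false
set_option linter.style.haveILetI false

namespace Pool.Agent.Lib.MP_89bcae_ag

universe u

/-- An unramified discrete valuation ring in the field generated by the roots of unity. -/
theorem exists_unramified8 {R₀ k : Type*} {K : Type u} [CommRing R₀] [IsDomain R₀]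
    [IsDiscreteValuationRing R₀] [Field k]
    [Algebra R₀ k] [IsFractionRing R₀ k] [Field K] [Algebra k K] [Algebra R₀ K]
    [IsScalarTower R₀ k K] [FiniteDimensional k K] [IsGalois k K] {ℓ : ℕ}
    (hℓ : (ℓ : IsLocalRing.ResidueField R₀) ≠ 0) {ζ : K} (hζ : IsPrimitiveRoot ζ ℓ)
    (hgen : ∀ σ : K ≃ₐ[k] K, σ ζ = ζ → σ = 1) :
    ∃ (R : Type u) (_ : CommRing R) (_ : IsDomain R) (_ : IsDiscreteValuationRing R)
      (_ : Algebra R₀ R) (_ : Algebra R K) (_ : IsScalarTower R₀ R K) (_ : IsFractionRing R K),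
      ∀ (r : R₀) (n : ℕ), algebraMap R₀ R r ∈ IsLocalRing.maximalIdeal R ^ n ↔
        r ∈ IsLocalRing.maximalIdeal R₀ ^ n := by
  have hℓ0 : ℓ ≠ 0 := by
    rintro rfl
    exact hℓ Nat.cast_zero
  have : NeZero ℓ := ⟨hℓ0⟩
  -- the integral closure
  let B := integralClosure R₀ K
  haveI : IsDedekindDomain B := integralClosure.isDedekindDomain R₀ k K
  haveI : Module.Finite R₀ B := IsIntegralClosure.finite R₀ k K B
  haveI : IsFractionRing B K := integralClosure.isFractionRing_of_finite_extension k K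
  haveI : SMulCommClass (K ≃ₐ[k] K) R₀ K := ⟨fun σ r x => by
    rw [AlgEquiv.smul_def, AlgEquiv.smul_def, Algebra.smul_def, Algebra.smul_def, map_mul,
      IsScalarTower.algebraMap_apply R₀ k K, AlgEquiv.commutes]⟩
  haveI : IsGaloisGroup (K ≃ₐ[k] K) R₀ B := IsGaloisGroup.of_isFractionRing _ _ _ k K
  have hinjK : Function.Injective (algebraMap R₀ K) := by
    rw [IsScalarTower.algebraMap_eq R₀ k K]
    exact (algebraMap k K).injective.comp (IsFractionRing.injective R₀ k)
  have hinjB : Function.Injective (algebraMap B K) := Subtype.val_injective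
  haveI : FaithfulSMul R₀ B := by
    rw [faithfulSMul_iff_algebraMap_injective]
    intro x y hxy
    exact hinjK (congrArg (algebraMap B K) hxy)
  haveI : Module.IsTorsionFree R₀ B := inferInstance
  haveI : Module.Flat R₀ B := inferInstance
  let v : HeightOneSpectrum R₀ := IsDiscreteValuationRing.maximalIdeal R₀
  have hvmax : v.asIdeal.IsMaximal := v.isMaximal
  obtain ⟨P, hPmax, hPv⟩ := Ideal.exists_maximal_ideal_liesOver_of_isIntegral (S := B) v.asIdeal
  have hP0 : P ≠ ⊥ := Ideal.ne_bot_of_liesOver_of_ne_bot v.ne_bot P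
  let w : HeightOneSpectrum B := ⟨P, hPmax.isPrime, hP0⟩
  have hwv : w.asIdeal.LiesOver v.asIdeal := hPv
  have hmP : ∀ r : R₀, algebraMap R₀ B r ∈ P ↔ r ∈ IsLocalRing.maximalIdeal R₀ := by
    intro r
    have h1 : r ∈ Ideal.comap (algebraMap R₀ B) P ↔ r ∈ v.asIdeal := by
      rw [← Ideal.under_def, ← hPv.over]
    exact h1
  -- the inertia group is trivial
  letI : Field (B ⧸ P) := Ideal.Quotient.field P
  have hζi : IsIntegral R₀ ζ := by
    refine ⟨X ^ ℓ - 1, monic_X_pow_sub_C 1 hℓ0, ?_⟩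
    rw [eval₂_sub, eval₂_pow, eval₂_X, hζ.pow_eq_one, eval₂_one, sub_self]
  let ζB : B := ⟨ζ, hζi⟩
  have hζB : ζB ^ ℓ = 1 := Subtype.ext hζ.pow_eq_one
  have hℓP : Ideal.Quotient.mk P (ℓ : B) ≠ 0 := by
    rw [Ne, Ideal.Quotient.eq_zero_iff_mem]
    intro h1
    apply hℓ
    have h2 : algebraMap R₀ B (ℓ : R₀) ∈ P := by rwa [map_natCast]
    rw [hmP] at h2
    have h3 := (IsLocalRing.residue_eq_zero_iff (ℓ : R₀)).mpr h2
    rwa [map_natCast] at h3
  have hζP : ∀ x y : B, x ^ ℓ = 1 → y ^ ℓ = 1 → x - y ∈ P → x = y := by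
    intro x y hx hy hxy
    by_contra hne
    -- `x` and `y` are distinct roots of `X ^ ℓ - 1`
    have h1 : ((X ^ ℓ - C (1 : B)).map (Ideal.Quotient.mk P)).Separable := by
      rw [Polynomial.map_sub, Polynomial.map_pow, map_X, map_C, map_one]
      apply separable_X_pow_sub_C _ _ one_ne_zero
      rw [map_natCast] at hℓP
      exact hℓP
    have hroot : ∀ z : B, z ^ ℓ = 1 → (X ^ ℓ - C (1 : B)).IsRoot z := fun z hz => by
      rw [IsRoot.def, eval_sub, eval_pow, eval_X, eval_C, hz, sub_self]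
    obtain ⟨H, hH⟩ := dvd_iff_isRoot.mpr (hroot x hx)
    have h2 := hroot y hy
    rw [hH, IsRoot.def, eval_mul, eval_sub, eval_X, eval_C] at h2
    have h3 : H.IsRoot y := (mul_eq_zero.mp h2).resolve_left fun h => hne (sub_eq_zero.mp h).symm
    obtain ⟨H', hH'⟩ := dvd_iff_isRoot.mpr h3
    have hxy' : Ideal.Quotient.mk P x = Ideal.Quotient.mk P y := by
      rw [← sub_eq_zero, ← map_sub, Ideal.Quotient.eq_zero_iff_mem]
      exact hxy
    rw [hH, hH', Polynomial.map_mul, Polynomial.map_mul, Polynomial.map_sub, Polynomial.map_sub,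
      map_X, map_C, map_C, hxy', ← mul_assoc] at h1
    have h4 : (X - C (Ideal.Quotient.mk P y)) * (X - C (Ideal.Quotient.mk P y)) ∣
        (X - C (Ideal.Quotient.mk P y)) * (X - C (Ideal.Quotient.mk P y)) *
          H'.map (Ideal.Quotient.mk P) := Dvd.intro _ rfl
    exact not_isUnit_X_sub_C _ (h1.squarefree _ h4)
  have hinertia : ∀ σ ∈ P.inertia (K ≃ₐ[k] K), σ = 1 := by
    intro σ hσ
    apply hgen
    have h1 : σ • ζB - ζB ∈ P := hσ ζB
    have h2 : (σ • ζB) ^ ℓ = 1 := by
      rw [← smul_pow', hζB, smul_one]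
    exact congrArg Subtype.val (hζP _ _ h2 hζB h1)
  have he : v.asIdeal.ramificationIdx' w.asIdeal ≤ 1 := by
    have h1 : v.asIdeal.ramificationIdx' w.asIdeal ≤ Nat.card (P.inertia (K ≃ₐ[k] K)) := by
      rw [Ideal.ramificationIdx'_eq_ramificationIdx v.asIdeal w.asIdeal v.ne_bot]
      exact ramificationIdx_le_card_inertia7 v.asIdeal P
    refine h1.trans ?_
    have : Subsingleton (P.inertia (K ≃ₐ[k] K)) :=
      ⟨fun σ τ => Subtype.ext ((hinertia σ σ.2).trans (hinertia τ τ.2).symm)⟩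
    exact Finite.card_le_one_iff_subsingleton.mpr this
  set e := v.asIdeal.ramificationIdx' w.asIdeal with hedef
  have hWk : ∀ r : R₀, w.intValuation (algebraMap R₀ B r) = v.intValuation r ^ e := by
    intro r
    have h1 := HeightOneSpectrum.valuation_liesOver K v w (algebraMap R₀ k r)
    rw [← IsScalarTower.algebraMap_apply] at h1
    have h2 : w.intValuation (algebraMap R₀ B r) = w.valuation K (algebraMap R₀ K r) := by
      rw [← w.valuation_of_algebraMap (K := K)]
      rfl
    rw [h2, ← h1]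
    congr 1
    exact HeightOneSpectrum.valuation_of_algebraMap (K := k) v r
  have he1 : e = 1 := by
    rcases Nat.eq_zero_or_pos e with h0 | h0
    · exfalso
      obtain ⟨ϖ, hϖ⟩ := v.intValuation_exists_uniformizer
      have h1 : ϖ ∈ IsLocalRing.maximalIdeal R₀ := by
        have h2 : v.intValuation ϖ ≤ exp (-((1 : ℕ) : ℤ)) := by rw [hϖ]; simp
        have h3 := (v.intValuation_le_pow_iff_mem ϖ 1).mp h2
        rw [pow_one] at h3
        exact h3
      have h2 : w.intValuation (algebraMap R₀ B ϖ) < 1 :=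
        (w.intValuation_lt_one_iff_mem _).mpr ((hmP ϖ).mpr h1)
      rw [hWk, h0, pow_zero] at h2
      exact lt_irrefl _ h2
    · omega
  have hWk1 : ∀ r : R₀, w.intValuation (algebraMap R₀ B r) = v.intValuation r := fun r => by
    rw [hWk, he1, pow_one]
  -- the localisation
  haveI hPp : P.IsPrime := hPmax.isPrime
  let R := Localization.AtPrime P
  have hle : P.primeCompl ≤ nonZeroDivisors B := Ideal.primeCompl_le_nonZeroDivisors _
  let φ : R →+* K := IsLocalization.lift (M := P.primeCompl) (g := algebraMap B K) (by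
      intro y
      rw [isUnit_iff_ne_zero]
      exact (map_ne_zero_iff _ hinjB).mpr (nonZeroDivisors.ne_zero (hle y.2)))
  letI : Algebra R K := φ.toAlgebra
  have hst : IsScalarTower B R K := IsScalarTower.of_algebraMap_eq fun r =>
    (IsLocalization.lift_eq _ r).symm
  haveI : IsScalarTower R₀ B R := inferInstance
  have hst2 : IsScalarTower R₀ R K := IsScalarTower.of_algebraMap_eq fun r => by
    rw [IsScalarTower.algebraMap_apply R₀ B R, ← IsScalarTower.algebraMap_apply B R K]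
    rfl
  have hDVR : IsDiscreteValuationRing R :=
    IsLocalization.AtPrime.isDiscreteValuationRing_of_dedekind_domain B hP0 _
  have hfr : IsFractionRing R K :=
    IsFractionRing.isFractionRing_of_isDomain_of_isLocalization P.primeCompl R K
  have hmax : IsLocalRing.maximalIdeal R = P.map (algebraMap B R) :=
    (IsLocalization.AtPrime.map_eq_maximalIdeal P R).symm
  have hpow : ∀ (b : B) (n : ℕ), algebraMap B R b ∈ IsLocalRing.maximalIdeal R ^ n ↔ b ∈ P ^ n := by
    intro b n
    rw [hmax, ← Ideal.map_pow]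
    constructor
    · intro h1
      obtain ⟨⟨⟨a, ha⟩, s⟩, hs⟩ := (IsLocalization.mem_map_algebraMap_iff P.primeCompl R).mp h1
      have hinjR : Function.Injective (algebraMap B R) := IsLocalization.injective R hle
      have h2 : b * s = a := by
        apply hinjR
        rw [map_mul]
        exact hs
      have h3 : w.intValuation a ≤ exp (-(n : ℤ)) := (w.intValuation_le_pow_iff_mem a n).mpr ha
      have h4 : w.intValuation (s : B) = 1 := by
        rw [w.intValuation_eq_one_iff_mem_primeCompl]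
        exact s.2
      rw [← h2, map_mul, h4, mul_one] at h3
      exact (w.intValuation_le_pow_iff_mem b n).mp h3
    · exact fun h1 => Ideal.mem_map_of_mem _ h1
  refine ⟨R, inferInstance, inferInstance, hDVR, inferInstance, inferInstance, hst2, hfr,
    fun r n => ?_⟩
  rw [IsScalarTower.algebraMap_apply R₀ B R, hpow]
  have h2 := w.intValuation_le_pow_iff_mem (algebraMap R₀ B r) n
  have h3 := v.intValuation_le_pow_iff_mem r n
  rw [hWk1, h3] at h2
  exact h2.symm

/-- Simple collisions are preserved by unramified extensions. -/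
theorem isCollision_unramified8 {R₀ R : Type*} [CommRing R₀] [IsLocalRing R₀] [CommRing R]
    [IsLocalRing R] [Algebra R₀ R]
    (h : ∀ (r : R₀) (n : ℕ), algebraMap R₀ R r ∈ IsLocalRing.maximalIdeal R ^ n ↔
        r ∈ IsLocalRing.maximalIdeal R₀ ^ n) {g D : R₀[X]} (hcol : IsCollision7 g D) :
    IsCollision7 (g.map (algebraMap R₀ R)) (D.map (algebraMap R₀ R)) := by
  have h1 : ∀ r : R₀, r ∈ IsLocalRing.maximalIdeal R₀ →
      ((IsLocalRing.residue R).comp (algebraMap R₀ R)) r = 0 := by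
    intro r hr
    have h2 := (h r 1).mpr (by rwa [pow_one])
    rw [pow_one] at h2
    exact (IsLocalRing.residue_eq_zero_iff _).mpr h2
  let ψ : IsLocalRing.ResidueField R₀ →+* IsLocalRing.ResidueField R :=
    Ideal.Quotient.lift (IsLocalRing.maximalIdeal R₀) _ h1
  have hψ : ψ.comp (IsLocalRing.residue R₀) = (IsLocalRing.residue R).comp (algebraMap R₀ R) :=
    RingHom.ext fun r => rfl
  have hmap : ∀ p : R₀[X], (p.map (algebraMap R₀ R)).map (IsLocalRing.residue R) =
      (p.map (IsLocalRing.residue R₀)).map ψ := fun p => by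
    rw [Polynomial.map_map, Polynomial.map_map, hψ]
  obtain ⟨a, u, hu1, hu2, hu3⟩ := hcol
  have ha : IsLocalRing.residue R (algebraMap R₀ R a) = ψ (IsLocalRing.residue R₀ a) := rfl
  refine ⟨algebraMap R₀ R a, u.map ψ, ?_, ?_, ?_⟩
  · rw [hmap, hu1, ha, Polynomial.map_mul, Polynomial.map_pow, Polynomial.map_sub, map_X, map_C]
  · have h3 := hu2.map (f := ψ)
    rw [Polynomial.map_comp, Polynomial.map_mul, Polynomial.map_sub, map_X, map_C] at h3
    rw [hmap, ha]
    exact h3
  · rw [eval_map, eval₂_at_apply, h]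
    exact hu3

end Pool.Agent.Lib.MP_89bcae_ag

end

section

/-!
# The types modulo `p` of the polynomials `D`
-/

open Polynomial

open scoped Classical

namespace Pool.Agent.Lib.MP_89bcae_ag

/-- The polynomial `D(g(x))` is irreducible and the degree of `D` is `n`. -/
def TypeA7 {κ : Type} [Field κ] (g D : κ[X]) (n : ℕ) : Prop :=
  Irreducible (D.comp g) ∧ D.natDegree = n

/-- The polynomial `D` has degree `n` and a root `g(b)`, `b ∈ κ` with `g'(b) ≠ 0`, and for the quotient
`D₁` of `D` by `t - g(b)` the polynomial `D₁(g(x))` is irreducible. -/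
def TypeB7 {κ : Type} [Field κ] (g D : κ[X]) (n : ℕ) : Prop :=
  ∃ (b : κ) (D₁ : κ[X]), D = (X - C (g.eval b)) * D₁ ∧ (derivative g).eval b ≠ 0 ∧
    Irreducible (D₁.comp g) ∧ D.natDegree = n

end Pool.Agent.Lib.MP_89bcae_ag

end

section

/-!
# Discrete valuation rings over a prime number in the field of the `ℓ`-th roots of unity
-/

open Polynomial

open scoped Classical

set_option linter.unusedSimpArgs false
set_option linter.unusedVariables false
set_option linter.unusedSectionVars false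
set_option linter.style.haveILetI false

namespace Pool.Agent.Lib.MP_89bcae_ag

/-- The localisation of the integers at a prime number. -/
theorem exists_dvrZ8 {p : ℕ} (hp : p.Prime) :
    ∃ (R : Type) (_ : CommRing R) (_ : IsDomain R) (_ : IsDiscreteValuationRing R)
      (_ : Algebra R ℚ) (_ : IsFractionRing R ℚ),
      ∀ (z : ℤ) (n : ℕ), (z : R) ∈ IsLocalRing.maximalIdeal R ^ n ↔ (p : ℤ) ^ n ∣ z := by
  have hpZ : Prime (p : ℤ) := Nat.prime_iff_prime_int.mp hp
  have hP : (Ideal.span {(p : ℤ)}).IsPrime :=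
    (Ideal.span_singleton_prime hpZ.ne_zero).mpr hpZ
  have hP0 : Ideal.span {(p : ℤ)} ≠ ⊥ := by
    rw [Ne, Ideal.span_singleton_eq_bot]
    exact hpZ.ne_zero
  let R := Localization.AtPrime (Ideal.span {(p : ℤ)})
  have hDVR : IsDiscreteValuationRing R :=
    IsLocalization.AtPrime.isDiscreteValuationRing_of_dedekind_domain ℤ hP0 _
  letI hA : Algebra R ℚ :=
    IsLocalization.localizationAlgebraOfSubmonoidLe _ ℚ
      (Ideal.span {(p : ℤ)}).primeCompl (nonZeroDivisors ℤ)
      (Ideal.span {(p : ℤ)}).primeCompl_le_nonZeroDivisors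
  have hst := IsLocalization.localization_isScalarTower_of_submonoid_le
    R ℚ
    (Ideal.span {(p : ℤ)}).primeCompl (nonZeroDivisors ℤ)
    (Ideal.span {(p : ℤ)}).primeCompl_le_nonZeroDivisors
  have hfr : IsFractionRing R ℚ :=
    @IsFractionRing.isFractionRing_of_isDomain_of_isLocalization ℤ _
      (Ideal.span {(p : ℤ)}).primeCompl _ R ℚ _ _ _ _ _
      hst _ _
  have hmax : IsLocalRing.maximalIdeal R = Ideal.span {(algebraMap ℤ R p)} := by
    rw [← IsLocalization.AtPrime.map_eq_maximalIdeal (Ideal.span {(p : ℤ)}) R, Ideal.map_span,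
      Set.image_singleton]
  refine ⟨R, inferInstance, inferInstance, hDVR, inferInstance, hfr, fun z n => ?_⟩
  have hz : (z : R) = algebraMap ℤ R z := by simp
  rw [hz, hmax, Ideal.span_singleton_pow, Ideal.mem_span_singleton]
  constructor
  · rintro ⟨q, hq⟩
    obtain ⟨⟨x, s⟩, hxs⟩ := IsLocalization.surj (Ideal.span {(p : ℤ)}).primeCompl q
    have hinj : Function.Injective (algebraMap ℤ R) :=
      IsLocalization.injective R (Ideal.primeCompl_le_nonZeroDivisors (Ideal.span {(p : ℤ)}))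
    have h1 : z * s = (p : ℤ) ^ n * x := by
      apply hinj
      rw [map_mul, map_mul, map_pow, hq, ← hxs]
      ring
    have h3 : IsCoprime ((p : ℤ) ^ n) (s : ℤ) := by
      apply IsCoprime.pow_left
      rw [Prime.coprime_iff_not_dvd (Nat.prime_iff_prime_int.mp hp)]
      intro h4
      exact s.2 (Ideal.mem_span_singleton.mpr h4)
    exact h3.dvd_of_dvd_mul_right ⟨x, h1⟩
  · rintro ⟨q, hq⟩
    exact ⟨algebraMap ℤ R q, by rw [hq, map_mul, map_pow]⟩

/-- Discrete valuation rings in the field of the `ℓ`-th roots of unity. -/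
theorem exists_dvrK8 {ℓ p : ℕ} (hℓ : ℓ.Prime) (hp : p.Prime) (hpℓ : p ≠ ℓ) (K : Type) [Field K]
    [Algebra ℚ K] [FiniteDimensional ℚ K] [IsGalois ℚ K] {ζ : K} (hζ : IsPrimitiveRoot ζ ℓ)
    (hgen : ∀ σ : K ≃ₐ[ℚ] K, σ ζ = ζ → σ = 1) :
    ∃ (R : Type) (_ : CommRing R) (_ : IsDomain R) (_ : IsDiscreteValuationRing R)
      (_ : Algebra R K) (_ : IsFractionRing R K),
      ∀ (z : ℤ) (n : ℕ), (z : R) ∈ IsLocalRing.maximalIdeal R ^ n ↔ (p : ℤ) ^ n ∣ z := by
  obtain ⟨R₀, i1, i2, i3, i4, i5, h⟩ := exists_dvrZ8 hp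
  letI : Algebra R₀ K := ((algebraMap ℚ K).comp (algebraMap R₀ ℚ)).toAlgebra
  haveI : IsScalarTower R₀ ℚ K := IsScalarTower.of_algebraMap_eq fun r => rfl
  have hℓ0 : (ℓ : IsLocalRing.ResidueField R₀) ≠ 0 := by
    intro h0
    have h1 : IsLocalRing.residue R₀ ((ℓ : ℤ) : R₀) = 0 := by
      rw [Int.cast_natCast, map_natCast]
      exact h0
    rw [IsLocalRing.residue_eq_zero_iff] at h1
    have h2 := (h ℓ 1).mp (by rwa [pow_one])
    rw [pow_one, Int.natCast_dvd_natCast] at h2
    exact hpℓ ((Nat.prime_dvd_prime_iff_eq hp hℓ).mp h2)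
  obtain ⟨R, j1, j2, j3, j4, j5, j6, j7, h'⟩ := exists_unramified8 (R₀ := R₀) (k := ℚ) (K := K) hℓ0
    hζ hgen
  refine ⟨R, j1, j2, j3, j5, j7, fun z n => ?_⟩
  have h1 : (z : R) = algebraMap R₀ R (z : R₀) := by rw [map_intCast]
  rw [h1, h', h]

/-- Simple collisions over a discrete valuation ring over `p`. -/
theorem isCollision7_of_Z8 {p : ℕ} (hp : p.Prime) {R : Type*} [CommRing R] [IsDomain R]
    [IsLocalRing R]
    (h : ∀ (z : ℤ) (n : ℕ), (z : R) ∈ IsLocalRing.maximalIdeal R ^ n ↔ (p : ℤ) ^ n ∣ z)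
    {g D : ℤ[X]} (hcol : IsCollisionZ8 p g D) :
    IsCollision7 (g.map (Int.castRingHom R)) (D.map (Int.castRingHom R)) := by
  obtain ⟨a, u, hD, hsep, ha⟩ := hcol
  have hp0 : ((p : ℕ) : IsLocalRing.ResidueField R) = 0 := by
    have h1 : IsLocalRing.residue R ((p : ℤ) : R) = 0 := by
      rw [IsLocalRing.residue_eq_zero_iff]
      have h2 := (h p 1).mpr (by rw [pow_one])
      rwa [pow_one] at h2
    simpa using h1
  have : CharP (IsLocalRing.ResidueField R) p := (CharP.charP_iff_prime_eq_zero hp).mpr hp0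
  let φ : ZMod p →+* IsLocalRing.ResidueField R := ZMod.castHom (dvd_refl p) _
  have hφ : (IsLocalRing.residue R).comp (Int.castRingHom R) = φ.comp (Int.castRingHom (ZMod p)) :=
    RingHom.ext_int _ _
  have hφa : IsLocalRing.residue R (Int.castRingHom R a) = φ (a : ZMod p) := RingHom.congr_fun hφ a
  refine ⟨Int.castRingHom R a, u.map φ, ?_, ?_, ?_⟩
  · rw [Polynomial.map_map, hφ, ← Polynomial.map_map, hD, hφa]
    simp
  · rw [Polynomial.map_map, hφ, ← Polynomial.map_map, hφa]
    have h1 := hsep.map (f := φ)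
    rw [Polynomial.map_comp, Polynomial.map_mul, Polynomial.map_sub, map_X, map_C] at h1
    exact h1
  · rw [eval_map, eval₂_at_apply]
    show ((D.eval a : ℤ) : R) ∉ _
    rw [h]
    exact ha

/-- Polynomials over a discrete valuation ring over `p`: separable reduction. -/
theorem residue_map8 {p : ℕ} (hp : p.Prime) {R : Type*} [CommRing R] [IsDomain R]
    [IsLocalRing R]
    (h : ∀ (z : ℤ) (n : ℕ), (z : R) ∈ IsLocalRing.maximalIdeal R ^ n ↔ (p : ℤ) ^ n ∣ z) :
    ∃ φ : ZMod p →+* IsLocalRing.ResidueField R, ∀ f : ℤ[X],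
      (f.map (Int.castRingHom R)).map (IsLocalRing.residue R) =
        (f.map (Int.castRingHom (ZMod p))).map φ := by
  have hp0 : ((p : ℕ) : IsLocalRing.ResidueField R) = 0 := by
    have h1 : IsLocalRing.residue R ((p : ℤ) : R) = 0 := by
      rw [IsLocalRing.residue_eq_zero_iff]
      have h2 := (h p 1).mpr (by rw [pow_one])
      rwa [pow_one] at h2
    simpa using h1
  have : CharP (IsLocalRing.ResidueField R) p := (CharP.charP_iff_prime_eq_zero hp).mpr hp0
  refine ⟨ZMod.castHom (dvd_refl p) _, fun f => ?_⟩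
  rw [Polynomial.map_map, Polynomial.map_map]
  congr 1
  exact RingHom.ext_int _ _

end Pool.Agent.Lib.MP_89bcae_ag

end

section

/-!
# The local Galois action on points of order four at a place where `D` vanishes
-/

open Polynomial WeierstrassCurve WeierstrassCurve.Affine

open scoped Classical

namespace Pool.Agent.Lib.MP_89bcae_ag

set_option linter.unusedSectionVars false

section RhoDouble

variable {K : Type*} [Field K] {W : WeierstrassCurve.Affine K}

/-- `ρ_e(Q)² = x(2Q) - e`. -/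
lemma rho_sq_double (hW : Short W) (h2 : (2 : K) ≠ 0) {e : K} (he : Rt W e) {Q : W.Point}
    {X Y : K} {h : W.Nonsingular X Y} (hQ : 2 • Q = .some X Y h) : rho e Q ^ 2 = X - e := by
  rcases Q with _ | ⟨x, y, hxy⟩
  · exfalso
    rw [← Affine.Point.zero_def, smul_zero] at hQ
    exact Affine.Point.some_ne_zero _ hQ.symm
  have hy : y ≠ 0 := by
    intro hy0
    rw [two_nsmul, (add_self_eq_zero_iff hW h2 hxy).mpr hy0] at hQ
    exact Affine.Point.some_ne_zero _ hQ.symm
  rw [rho_sq hW h2 he hxy hy]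
  have hne : y ≠ W.negY x y := by
    rw [hW.negY]
    intro h1
    have : 2 * y = 0 := by linear_combination h1
    rcases mul_eq_zero.mp this with h3 | h3
    · exact h2 h3
    · exact hy h3
  rw [two_nsmul, Affine.Point.add_self_of_Y_ne hne] at hQ
  simp only [Affine.Point.some.injEq] at hQ
  rw [hQ.1]

end RhoDouble

section Local

variable {R F L Ω : Type*} [CommRing R] [Field F] [IsAlgClosed F] [Field L] [Field Ω]
  [Algebra F[X] L] [IsFractionRing F[X] L] [Algebra L Ω] [Algebra F[X] Ω] [IsScalarTower F[X] L Ω]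
  [Algebra R L] [Algebra R Ω] [IsScalarTower R L Ω] {W : Affine R} {g D : F[X]}
  [IsGalois L Ω] [IsSepClosed Ω]
  {K : Type*} [Field K] [Algebra L K] [Algebra K Ω] [IsScalarTower L K Ω] [Algebra F[X] K]
  [IsScalarTower F[X] L K] [IsScalarTower F[X] K Ω] [IsGalois K Ω]

/-- The local situation: `K` is a field between `L` and `Ω` with a discrete valuation `w` such that
units are squares, `π` is a uniformizer with square root `S`, the roots of `g(x) = t` are in `K`,
their differences are units and `D` has odd valuation. -/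
structure IsLoc (w : Valuation K (WithZero (Multiplicative ℤ))) (g D : F[X]) (π : K) (S : Ω) :
    Prop where
  two : (2 : Ω) ≠ 0
  unif : w π = WithZero.exp (-1 : ℤ)
  sqrt : ∀ x : K, w x = 1 → ∃ r, r ^ 2 = x
  root : ∀ θ ∈ RootSet (Ω := Ω) g, ∃ x : K, algebraMap K Ω x = θ
  diff : ∀ x y : K, algebraMap K Ω x ∈ RootSet (Ω := Ω) g → algebraMap K Ω y ∈ RootSet (Ω := Ω) g →
    x ≠ y → w (x - y) = 1
  odd : Odd (lg w (algebraMap F[X] K D))
  ne : D ≠ 0
  S_sq : S ^ 2 = algebraMap K Ω π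

variable {w : Valuation K (WithZero (Multiplicative ℤ))} {π : K} {S : Ω}

lemma IsLoc.pi_ne (hL : IsLoc w g D π S) : π ≠ 0 := by
  rintro rfl
  have := hL.unif
  rw [map_zero] at this
  exact WithZero.exp_ne_zero this.symm

lemma IsLoc.S_ne (hL : IsLoc w g D π S) : S ≠ 0 := by
  intro h0
  have := hL.S_sq
  rw [h0, zero_pow two_ne_zero, eq_comm, map_eq_zero] at this
  exact hL.pi_ne this

lemma IsLoc.fix_root (hL : IsLoc w g D π S) {θ : Ω} (hθ : θ ∈ RootSet (Ω := Ω) g)
    (σ : Ω ≃ₐ[K] Ω) : σ θ = θ := by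
  obtain ⟨x, rfl⟩ := hL.root θ hθ
  exact σ.commutes x

/-- The Galois group acts trivially on points of order two. -/
lemma IsLoc.map_two (hL : IsLoc w g D π S) (hW : IsTwist Ω W g D) (hg : g.Monic)
    (hdeg : g.natDegree = 3) (hd : derivative g ≠ 0) {P : (W.baseChange Ω).Point} (hP : 2 • P = 0)
    (σ : Ω ≃ₐ[K] Ω) :
    Point.map (W' := W) ((σ.restrictScalars L : Ω ≃ₐ[L] Ω) : Ω →ₐ[L] Ω) P = P := by
  apply eq_of_signs L hL.two hW hg hdeg hd hL.ne (by rw [← map_nsmul, hP, map_zero]) hP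
  intro θ hθ
  have h1 := rho_map_two_torsion hL.two hW (σ.restrictScalars L : Ω ≃ₐ[L] Ω) θ hP
  have h3 : (σ.restrictScalars L : Ω ≃ₐ[L] Ω) θ = θ := hL.fix_root hθ σ
  rwa [h3] at h1

variable (L) in
include L in
/-- The classification of nonzero points of order two. -/
lemma exists_root_of_two (h2 : (2 : Ω) ≠ 0) (hW : IsTwist Ω W g D) (hg : g.Monic)
    (hdeg : g.natDegree = 3) (hd : derivative g ≠ 0) (hD : D ≠ 0) {P : (W.baseChange Ω).Point}
    (hP : 2 • P = 0) (h0 : P ≠ 0) :
    ∃ θ ∈ RootSet (Ω := Ω) g, ∃ h, P = .some (algebraMap F[X] Ω D * θ) 0 h := by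
  obtain ⟨θ₁, θ₂, θ₃, h12, h13, h23, hR, -, -⟩ :=
    exists_three_roots (F := F) L (Ω := Ω) hg hdeg hd
  have hd0 : algebraMap F[X] Ω D ≠ 0 := algebraMap_ne_zero_Om L hD
  rcases (two_torsion_iff hW.short h2 P).mp hP with h | ⟨e, h, he, rfl⟩
  · exact absurd h h0
  · have m1 : θ₁ ∈ RootSet (Ω := Ω) g := (hR _).mpr (Or.inl rfl)
    have m2 : θ₂ ∈ RootSet (Ω := Ω) g := (hR _).mpr (Or.inr (Or.inl rfl))
    have m3 : θ₃ ∈ RootSet (Ω := Ω) g := (hR _).mpr (Or.inr (Or.inr rfl))
    rcases Rt.mem_of_three (hW.rt hg hdeg m1) (hW.rt hg hdeg m2) (hW.rt hg hdeg m3)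
      (fun h => h12 (mul_left_cancel₀ hd0 h)) (fun h => h13 (mul_left_cancel₀ hd0 h))
      (fun h => h23 (mul_left_cancel₀ hd0 h)) he with rfl | rfl | rfl
    · exact ⟨θ₁, m1, h, rfl⟩
    · exact ⟨θ₂, m2, h, rfl⟩
    · exact ⟨θ₃, m3, h, rfl⟩

/-- The square of `ρ` at a half of a point of order two. -/
lemma IsLoc.rho_half (hL : IsLoc w g D π S) (hW : IsTwist Ω W g D) (hg : g.Monic)
    (hdeg : g.natDegree = 3) {Q : (W.baseChange Ω).Point}
    {θ : Ω} {h : (W.baseChange Ω).Nonsingular (algebraMap F[X] Ω D * θ) 0}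
    (hQ : 2 • Q = .some (algebraMap F[X] Ω D * θ) 0 h) {θ' : Ω}
    (hθ' : θ' ∈ RootSet (Ω := Ω) g) :
    rho (algebraMap F[X] Ω D * θ') Q ^ 2 = algebraMap F[X] Ω D * (θ - θ') := by
  rw [rho_sq_double hW.short hL.two (hW.rt hg hdeg hθ') hQ]
  ring

variable (L) in
include L in
/-- The Galois action on `ρ` at a half of a point of order two. -/
lemma IsLoc.act_half (hL : IsLoc w g D π S) (hW : IsTwist Ω W g D) (hg : g.Monic)
    (hdeg : g.natDegree = 3) {Q : (W.baseChange Ω).Point}
    {θ : Ω} (hθ : θ ∈ RootSet (Ω := Ω) g)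
    {h : (W.baseChange Ω).Nonsingular (algebraMap F[X] Ω D * θ) 0}
    (hQ : 2 • Q = .some (algebraMap F[X] Ω D * θ) 0 h) {θ' : Ω}
    (hθ' : θ' ∈ RootSet (Ω := Ω) g) (hne : θ ≠ θ') (σ : Ω ≃ₐ[K] Ω) :
    rho (algebraMap F[X] Ω D * θ') Q ≠ 0 ∧
    σ (rho (algebraMap F[X] Ω D * θ') Q) * S = rho (algebraMap F[X] Ω D * θ') Q * σ S := by
  have hd0 : algebraMap F[X] Ω D ≠ 0 := algebraMap_ne_zero_Om L hL.ne
  have h1 := hL.rho_half hW hg hdeg hQ hθ'
  obtain ⟨x, rfl⟩ := hL.root θ hθ
  obtain ⟨y, rfl⟩ := hL.root θ' hθ'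
  have hxy : x ≠ y := fun h => hne (by rw [h])
  have hwxy := hL.diff x y hθ hθ' hxy
  have hdK : algebraMap F[X] K D ≠ 0 := by
    intro h0
    apply hd0
    rw [IsScalarTower.algebraMap_apply F[X] K Ω, h0, map_zero]
  have h3 : rho (algebraMap F[X] Ω D * algebraMap K Ω y) Q ^ 2 =
      algebraMap K Ω (algebraMap F[X] K D * (x - y)) := by
    rw [h1, map_mul, ← IsScalarTower.algebraMap_apply, map_sub]
  have h4 : algebraMap F[X] K D * (x - y) ≠ 0 := mul_ne_zero hdK (sub_ne_zero.mpr hxy)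
  refine ⟨?_, ?_⟩
  · intro h0
    rw [h0, zero_pow two_ne_zero, eq_comm, map_eq_zero] at h3
    exact h4 h3
  · apply sqrt_odd hL.unif hL.sqrt hL.S_sq h4 _ h3 σ
    rw [lg_mul w hdK (sub_ne_zero.mpr hxy), lg_eq_zero_of w hwxy, add_zero]
    exact hL.odd

/-- The Galois group acts on points of order four by the character of the square root of a
uniformizer. -/
lemma IsLoc.map_four (hL : IsLoc w g D π S) (hW : IsTwist Ω W g D) (hg : g.Monic)
    (hdeg : g.natDegree = 3) (hd : derivative g ≠ 0) {Q : (W.baseChange Ω).Point}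
    (hQ : 4 • Q = 0) (σ : Ω ≃ₐ[K] Ω) :
    (σ S = S → Point.map (W' := W) ((σ.restrictScalars L : Ω ≃ₐ[L] Ω) : Ω →ₐ[L] Ω) Q = Q) ∧
    (σ S = -S → Point.map (W' := W) ((σ.restrictScalars L : Ω ≃ₐ[L] Ω) : Ω →ₐ[L] Ω) Q = -Q) := by
  have hT2 : 2 • (2 • Q) = 0 := by rw [← mul_smul]; exact hQ
  by_cases hT0 : 2 • Q = 0
  · have h1 := hL.map_two (L := L) hW hg hdeg hd hT0 σ
    have h3 : -Q = Q := by
      have : Q + Q = 0 := by rw [← two_nsmul]; exact hT0
      exact neg_eq_of_add_eq_zero_left this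
    exact ⟨fun _ => h1, fun _ => by rw [h3]; exact h1⟩
  obtain ⟨θ, hθ, h, hTθ⟩ := exists_root_of_two L hL.two hW hg hdeg hd hL.ne hT2 hT0
  obtain ⟨θ₂, θ₃, n2, n3, n23, hR, -, -⟩ :=
    exists_other_roots (F := F) L (Ω := Ω) hg hdeg hd hθ
  have m2 : θ₂ ∈ RootSet (Ω := Ω) g := (hR _).mpr (Or.inr (Or.inl rfl))
  have m3 : θ₃ ∈ RootSet (Ω := Ω) g := (hR _).mpr (Or.inr (Or.inr rfl))
  have hd0 : algebraMap F[X] Ω D ≠ 0 := algebraMap_ne_zero_Om L hL.ne
  set σQ := Point.map (W' := W) ((σ.restrictScalars L : Ω ≃ₐ[L] Ω) : Ω →ₐ[L] Ω) Q with hσQ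
  set V := σQ - Q with hV
  have hV2 : 2 • V = 0 := by
    rw [hV, smul_sub, hσQ, ← map_nsmul, hL.map_two hW hg hdeg hd hT2 σ, sub_self]
  have hσV : σQ = Q + V := by rw [hV]; abel
  have hrho : ∀ θ' ∈ RootSet (Ω := Ω) g, rho (algebraMap F[X] Ω D * θ') Q *
      rho (algebraMap F[X] Ω D * θ') V = σ (rho (algebraMap F[X] Ω D * θ') Q) := by
    intro θ' hθ'
    rw [← rho_add hW.short hL.two (hW.rt hg hdeg hθ') _ _ hV2, ← hσV, hσQ]
    have h5 : algebraMap F[X] Ω D * θ' =
        ((σ.restrictScalars L : Ω ≃ₐ[L] Ω) : Ω →ₐ[L] Ω) (algebraMap F[X] Ω D * θ') := by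
      change _ = σ (algebraMap F[X] Ω D * θ')
      rw [map_mul, hL.fix_root hθ' σ, IsScalarTower.algebraMap_apply F[X] K Ω, σ.commutes]
    conv_lhs => rw [h5]
    rw [rho_map]
    rfl
  have hkey : ∀ θ' ∈ RootSet (Ω := Ω) g, θ ≠ θ' →
      rho (algebraMap F[X] Ω D * θ') V * S = σ S := by
    intro θ' hθ' hne
    obtain ⟨h5, h6⟩ := hL.act_half L hW hg hdeg hθ hTθ hθ' hne σ
    rw [← hrho θ' hθ'] at h6
    apply mul_left_cancel₀ h5
    linear_combination h6
  have hneD : algebraMap F[X] Ω D * θ₂ ≠ algebraMap F[X] Ω D * θ₃ :=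
    fun h => n23 (mul_left_cancel₀ hd0 h)
  constructor
  · intro hS
    have h5 : V = 0 := by
      apply eq_zero_of_rho_eq_one hW.short hL.two hneD hV2
      · apply mul_right_cancel₀ hL.S_ne
        rw [hkey θ₂ m2 n2, hS, one_mul]
      · apply mul_right_cancel₀ hL.S_ne
        rw [hkey θ₃ m3 n3, hS, one_mul]
    rw [hσV, h5, add_zero]
  · intro hS
    have h6 : ∀ θ' ∈ RootSet (Ω := Ω) g, θ ≠ θ' →
        rho (algebraMap F[X] Ω D * θ') (V + 2 • Q) = 1 := by
      intro θ' hθ' hne
      rw [rho_add hW.short hL.two (hW.rt hg hdeg hθ') _ _ hT2, hTθ, rho_two_torsion, if_neg]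
      · apply mul_right_cancel₀ hL.S_ne
        linear_combination -(hkey θ' hθ' hne) - hS
      · intro h7
        exact hne (mul_left_cancel₀ hd0 h7)
    have h5 : V + 2 • Q = 0 := by
      apply eq_zero_of_rho_eq_one hW.short hL.two hneD
      · rw [smul_add, hV2, hT2, add_zero]
      · exact h6 θ₂ m2 n2
      · exact h6 θ₃ m3 n3
    have h7 : V = -(2 • Q) := eq_neg_of_add_eq_zero_left h5
    rw [hσV, h7, two_nsmul]
    abel

variable (L) in
include L in
/-- A homomorphism to the points of order two which is trivial at an element moving the square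
root of a uniformizer is trivial. -/
lemma IsLoc.hom_trivial (hL : IsLoc w g D π S) (hW : IsTwist Ω W g D) (hg : g.Monic)
    (hdeg : g.natDegree = 3) (hd : derivative g ≠ 0) {σ₀ : Ω ≃ₐ[K] Ω} (hσ₀ : σ₀ S = -S)
    (f : (Ω ≃ₐ[K] Ω) → (W.baseChange Ω).Point) (hf2 : ∀ σ, 2 • f σ = 0)
    (hmul : ∀ σ τ, f (σ * τ) = f σ + f τ) (hloc : IsLocallyConstant f) (h0 : f σ₀ = 0)
    (σ : Ω ≃ₐ[K] Ω) : f σ = 0 := by
  apply eq_of_signs L hL.two hW hg hdeg hd hL.ne (hf2 σ) (smul_zero 2)
  intro θ hθ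
  rw [rho_zero]
  exact char_trivial w hL.two hL.unif hL.sqrt hL.S_sq hσ₀
    (fun σ => rho (algebraMap F[X] Ω D * θ) (f σ))
    (fun σ => rho_two_torsion_sq hW.short hL.two _ (hf2 σ))
    (fun σ τ => by
      rw [hmul, rho_add hW.short hL.two (hW.rt hg hdeg hθ) _ _ (hf2 τ)])
    (hloc.comp (fun P => rho (algebraMap F[X] Ω D * θ) P)) (by rw [h0, rho_zero]) σ

/-- The structure of a cocycle of the local Galois group with values in the points of order four. -/
lemma IsLoc.cocycle_eq (hL : IsLoc w g D π S) (hW : IsTwist Ω W g D) (hg : g.Monic)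
    (hdeg : g.natDegree = 3) (hd : derivative g ≠ 0) {σ₀ : Ω ≃ₐ[K] Ω} (hσ₀ : σ₀ S = -S)
    (c : (Ω ≃ₐ[K] Ω) → (W.baseChange Ω).Point) (hc4 : ∀ σ, 4 • c σ = 0)
    (hmul : ∀ σ τ, c (σ * τ) = c σ +
      Point.map (W' := W) ((σ.restrictScalars L : Ω ≃ₐ[L] Ω) : Ω →ₐ[L] Ω) (c τ))
    (hloc : IsLocallyConstant c)
    (h2 : ∀ σ, 2 • (c σ - if σ S = S then 0 else c σ₀) = 0) (σ : Ω ≃ₐ[K] Ω) :
    c σ = if σ S = S then 0 else c σ₀ := by
  have hne : -S ≠ S := by
    intro h0
    have : 2 * S = 0 := by linear_combination -h0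
    rcases mul_eq_zero.mp this with h | h
    · exact hL.two h
    · exact hL.S_ne h
  have key := hL.hom_trivial L hW hg hdeg hd hσ₀
    (fun σ => c σ - if σ S = S then 0 else c σ₀) h2 (by
      intro σ τ
      have hm := hL.map_four (L := L) hW hg hdeg hd (hc4 τ) σ
      have e1 : ((σ * τ : Ω ≃ₐ[K] Ω)) S = σ (τ S) := rfl
      have h2τ := h2 τ
      rcases smul_sign hL.S_sq σ with hs | hs <;> rcases smul_sign hL.S_sq τ with ht | ht
      · rw [hmul, hm.1 hs, e1, ht, hs, if_pos rfl]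
        abel
      · rw [hmul, hm.1 hs, e1, ht, map_neg, hs, if_pos rfl, if_neg hne]
        abel
      · rw [ht, if_pos rfl, sub_zero, two_nsmul] at h2τ
        have e2 : -c τ = c τ := neg_eq_of_add_eq_zero_left h2τ
        rw [hmul, hm.2 hs, e1, ht, hs, if_neg hne, if_pos rfl, e2]
        abel
      · rw [ht, if_neg hne, two_nsmul] at h2τ
        have e2 : -c τ = (c τ - c σ₀ - c σ₀) - (c τ - c σ₀ + (c τ - c σ₀)) := by abel
        rw [h2τ, sub_zero] at e2
        rw [hmul, hm.2 hs, e1, ht, map_neg, hs, neg_neg, if_pos rfl, if_neg hne, e2]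
        abel)
    (by
      apply hloc.sub
      exact (isLocallyConstant_apply8 (F := K) S).comp (fun x => if x = S then 0 else c σ₀))
    (by rw [hσ₀, if_neg hne, sub_self]) σ
  exact sub_eq_zero.mp key

/-- The structure of a Tate module cocycle at level two. -/
lemma IsLoc.level_two (hL : IsLoc w g D π S) (hW : IsTwist Ω W g D) (hg : g.Monic)
    (hdeg : g.natDegree = 3) (hd : derivative g ≠ 0) {σ₀ : Ω ≃ₐ[K] Ω} (hσ₀ : σ₀ S = -S)
    {y : ℕ → (Ω ≃ₐ[L] Ω) → (W.baseChange Ω).Point} (hy : TC W y) (σ : Ω ≃ₐ[K] Ω) :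
    y 2 (σ.restrictScalars L) = if σ S = S then 0 else y 2 (σ₀.restrictScalars L) := by
  have hloc : ∀ n, IsLocallyConstant (fun σ : Ω ≃ₐ[K] Ω => y n (σ.restrictScalars L)) := fun n =>
    isLocallyConstant_comp8 (K := K) (RingHom.id Ω) (fun σ => σ.restrictScalars L)
      (fun _ _ => rfl) (hy.loc n)
  have hmul : ∀ n (σ τ : Ω ≃ₐ[K] Ω), y n ((σ * τ).restrictScalars L) =
      y n (σ.restrictScalars L) + Point.map (W' := W)
        ((σ.restrictScalars L : Ω ≃ₐ[L] Ω) : Ω →ₐ[L] Ω) (y n (τ.restrictScalars L)) :=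
    fun n σ τ => hy.mul n (σ.restrictScalars L) (τ.restrictScalars L)
  have h1 := hL.cocycle_eq (L := L) hW hg hdeg hd hσ₀ (fun σ => y 1 (σ.restrictScalars L))
    (fun σ => by
      have h3 := hy.two_pow 1 (σ.restrictScalars L)
      rw [show (4 : ℕ) = 2 * 2 ^ 1 by norm_num, mul_smul, h3, smul_zero]) (hmul 1) (hloc 1) (by
    intro σ
    have h3 := fun σ : Ω ≃ₐ[L] Ω => hy.two_pow 1 σ
    simp only [pow_one] at h3
    rw [smul_sub, h3]
    split_ifs
    · simp
    · rw [h3, sub_zero])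
  apply hL.cocycle_eq (L := L) hW hg hdeg hd hσ₀ (fun σ => y 2 (σ.restrictScalars L))
    (fun σ => hy.two_pow 2 (σ.restrictScalars L)) (hmul 2) (hloc 2)
  intro σ
  have h3 := h1 σ
  rw [smul_sub, hy.two 1, h3]
  split_ifs
  · simp
  · rw [hy.two 1, sub_self]

end Local

end Pool.Agent.Lib.MP_89bcae_ag

end

section

/-!
# The effect of an automorphism on the second level of a Selmer class: local computation
-/

open Polynomial WeierstrassCurve WeierstrassCurve.Affine

open scoped Classical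

namespace Pool.Agent.Lib.MP_89bcae_ag

set_option linter.unusedSectionVars false

/-- The automorphism `U` moves the square roots of `c`. -/
def Moves {F : Type*} [Field F] (U : F → F) (c : F) : Prop := ∀ s : F, s ^ 2 = c → U s ≠ s

section Cong

variable {F K : Type*} [Field F] [Field K] [Algebra F[X] K]
  (w : Valuation K (WithZero (Multiplicative ℤ))) (α : F)

/-- The valuation `w` lies over the place `t = α`. -/
structure IsOver : Prop where
  unif : w (algebraMap F[X] K (X - C α)) = WithZero.exp (-1 : ℤ)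
  unit : ∀ p : F[X], p.eval α ≠ 0 → w (algebraMap F[X] K p) = 1

/-- `x` is congruent to the constant `c`. -/
def Cg (x : K) (c : F) : Prop := w (x - algebraMap F[X] K (C c)) < 1

variable {w α}

lemma IsOver.unif_lt (h : IsOver w α) : w (algebraMap F[X] K (X - C α)) < 1 := by
  rw [h.unif, ← WithZero.exp_zero, WithZero.exp_lt_exp]; norm_num

lemma IsOver.const_le (h : IsOver w α) (c : F) : w (algebraMap F[X] K (C c)) ≤ 1 := by
  by_cases hc : c = 0
  · rw [hc, map_zero, map_zero, map_zero]; exact zero_le_one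
  · rw [h.unit _ (by rw [eval_C]; exact hc)]

lemma IsOver.const_one (h : IsOver w α) {c : F} (hc : c ≠ 0) : w (algebraMap F[X] K (C c)) = 1 :=
  h.unit _ (by rw [eval_C]; exact hc)

lemma IsOver.cg_const (c : F) : Cg w (algebraMap F[X] K (C c)) c := by
  unfold Cg
  rw [sub_self, map_zero]
  exact zero_lt_one

lemma Cg.le (h : IsOver w α) {x : K} {c : F} (hx : Cg w x c) : w x ≤ 1 := by
  have : x = (x - algebraMap F[X] K (C c)) + algebraMap F[X] K (C c) := by ring
  rw [this]
  apply le_trans (w.map_add _ _)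
  exact max_le (le_of_lt hx) (h.const_le c)

lemma Cg.one (h : IsOver w α) {x : K} {c : F} (hx : Cg w x c) (hc : c ≠ 0) : w x = 1 := by
  have h1 : x = algebraMap F[X] K (C c) + (x - algebraMap F[X] K (C c)) := by ring
  rw [h1, w.map_add_eq_of_lt_left, h.const_one hc]
  rw [h.const_one hc]
  exact hx

lemma Cg.add {x y : K} {c d : F} (hx : Cg w x c) (hy : Cg w y d) : Cg w (x + y) (c + d) := by
  unfold Cg at *
  have : x + y - algebraMap F[X] K (C (c + d)) = (x - algebraMap F[X] K (C c)) +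
      (y - algebraMap F[X] K (C d)) := by rw [C_add, map_add]; ring
  rw [this]
  exact lt_of_le_of_lt (w.map_add _ _) (max_lt hx hy)

lemma Cg.neg {x : K} {c : F} (hx : Cg w x c) : Cg w (-x) (-c) := by
  unfold Cg at *
  have : -x - algebraMap F[X] K (C (-c)) = -(x - algebraMap F[X] K (C c)) := by
    rw [C_neg, map_neg]; ring
  rw [this, w.map_neg]
  exact hx

lemma Cg.sub {x y : K} {c d : F} (hx : Cg w x c) (hy : Cg w y d) : Cg w (x - y) (c - d) := by
  rw [sub_eq_add_neg, sub_eq_add_neg]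
  exact hx.add hy.neg

lemma Cg.mul (h : IsOver w α) {x y : K} {c d : F} (hx : Cg w x c) (hy : Cg w y d) :
    Cg w (x * y) (c * d) := by
  have hyl := hy.le h
  unfold Cg at *
  have : x * y - algebraMap F[X] K (C (c * d)) = (x - algebraMap F[X] K (C c)) * y +
      algebraMap F[X] K (C c) * (y - algebraMap F[X] K (C d)) := by rw [C_mul, map_mul]; ring
  rw [this]
  apply lt_of_le_of_lt (w.map_add _ _)
  apply max_lt
  · rw [map_mul]
    exact lt_of_le_of_lt (mul_le_mul_right hyl _) (by rwa [mul_one])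
  · rw [map_mul]
    exact lt_of_le_of_lt (mul_le_mul_left (h.const_le c) _) (by rwa [one_mul])

lemma Cg.prod (h : IsOver w α) {ι : Type*} (s : Finset ι) {x : ι → K} {c : ι → F}
    (hx : ∀ i ∈ s, Cg w (x i) (c i)) : Cg w (∏ i ∈ s, x i) (∏ i ∈ s, c i) := by
  induction s using Finset.induction_on with
  | empty =>
    rw [Finset.prod_empty, Finset.prod_empty]
    have := IsOver.cg_const (K := K) (w := w) (1 : F)
    rwa [C_1, map_one] at this
  | insert a s ha ih =>
    rw [Finset.prod_insert ha, Finset.prod_insert ha]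
    exact (hx a (Finset.mem_insert_self a s)).mul h
      (ih fun i hi => hx i (Finset.mem_insert_of_mem hi))

lemma Cg.unique (h : IsOver w α) {x : K} {c d : F} (hx : Cg w x c) (hy : Cg w x d) : c = d := by
  by_contra hne
  have h1 := hx.sub hy
  rw [sub_self] at h1
  have h2 := h1.one h (sub_ne_zero.mpr hne)
  rw [map_zero] at h2
  exact zero_ne_one h2

lemma Cg.poly (h : IsOver w α) (p : F[X]) : Cg w (algebraMap F[X] K p) (p.eval α) := by
  unfold Cg
  rw [← map_sub]
  obtain ⟨q, hq⟩ : (X - C α) ∣ (p - C (p.eval α)) := by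
    rw [dvd_iff_isRoot]; simp
  have hle : ∀ q : F[X], w (algebraMap F[X] K q) ≤ 1 := by
    intro q
    induction q using Polynomial.induction_on' with
    | add p q hp hq =>
      rw [map_add]
      exact le_trans (w.map_add _ _) (max_le hp hq)
    | monomial n a =>
      rw [← C_mul_X_pow_eq_monomial, map_mul, map_mul, map_pow, map_pow]
      have hX : w (algebraMap F[X] K X) ≤ 1 := by
        have : (X : F[X]) = (X - C α) + C α := by ring
        rw [this, map_add]
        exact le_trans (w.map_add _ _) (max_le h.unif_lt.le (h.const_le α))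
      exact mul_le_one' (h.const_le a) (pow_le_one' hX n)
  rw [hq, map_mul, map_mul]
  exact lt_of_le_of_lt (mul_le_mul_right (hle q) _) (by rw [mul_one]; exact h.unif_lt)

/-- Reading off from a unit of `K` whether an automorphism moves the square roots of its residue. -/
lemma moves_iff_aux [IsAlgClosed F] (h : IsOver w α) (h2 : (2 : F) ≠ 0) {τ : F →+* F}
    {γK : K ≃+* K} (hγK : ∀ a : F, γK (algebraMap F[X] K (C a)) = algebraMap F[X] K (C (τ a)))
    (hwγ : ∀ x, w (γK x) = w x) {m : K} {c : F} (hc : c ≠ 0) (hm : Cg w (m ^ 2) c) :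
    (γK m = m → ¬ Moves τ c) ∧ (γK m = -m → Moves τ c) := by
  obtain ⟨s₀, hs₀⟩ := IsAlgClosed.exists_pow_nat_eq c (n := 2) (by norm_num)
  have hs0 : s₀ ≠ 0 := by
    rintro rfl
    apply hc
    rw [← hs₀]; ring
  -- choose the sign of the square root
  obtain ⟨s, hs, hms⟩ : ∃ s : F, s ^ 2 = c ∧ Cg w m s := by
    have h1 : w ((m - algebraMap F[X] K (C s₀)) * (m + algebraMap F[X] K (C s₀))) < 1 := by
      have : (m - algebraMap F[X] K (C s₀)) * (m + algebraMap F[X] K (C s₀)) =
          m ^ 2 - algebraMap F[X] K (C c) := by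
        rw [← hs₀, C_pow, map_pow]; ring
      rw [this]
      exact hm
    by_cases h3 : Cg w m s₀
    · exact ⟨s₀, hs₀, h3⟩
    · refine ⟨-s₀, by rw [neg_sq, hs₀], ?_⟩
      unfold Cg at h3 ⊢
      rw [C_neg, map_neg, sub_neg_eq_add]
      rw [map_mul] at h1
      push Not at h3
      by_contra h4
      push Not at h4
      exact absurd (le_trans (by rw [one_mul]) (mul_le_mul' h3 h4)) (not_le.mpr h1)
  have hs0' : s ≠ 0 := by
    rintro rfl
    apply hc
    rw [← hs]; ring
  have hγm : Cg w (γK m) (τ s) := by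
    unfold Cg
    rw [← hγK, ← map_sub, hwγ]
    exact hms
  constructor
  · intro h3 h4
    rw [h3] at hγm
    exact h4 s hs (hγm.unique h hms)
  · intro h3 s' hs' h4
    rw [h3] at hγm
    have h5 : τ s = -s := hγm.unique h hms.neg
    have h6 : (s' - s) * (s' + s) = 0 := by linear_combination hs' - hs
    have h7 : τ s' = -s' := by
      rcases mul_eq_zero.mp h6 with h | h
      · rw [sub_eq_zero.mp h, h5]
      · have : s' = -s := by linear_combination h
        rw [this, map_neg, h5]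
    rw [h7] at h4
    have h8 : 2 * s' = 0 := by linear_combination -h4
    rcases mul_eq_zero.mp h8 with h | h
    · exact h2 h
    · rw [h] at hs'
      apply hc
      rw [← hs']; ring

end Cong

section MovesLemmas

variable {F : Type*} [Field F] [IsAlgClosed F] {τ : F →+* F}

lemma moves_iff_neg (h2 : (2 : F) ≠ 0) {c : F} (hc : c ≠ 0) (hτ : τ c = c) {s : F}
    (hs : s ^ 2 = c) : (Moves τ c ↔ τ s = -s) ∧ (¬ Moves τ c ↔ τ s = s) := by
  have hs0 : s ≠ 0 := by
    rintro rfl
    apply hc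
    rw [← hs]; ring
  have hne : -s ≠ s := by
    intro h0
    have : 2 * s = 0 := by linear_combination -h0
    rcases mul_eq_zero.mp this with h | h
    · exact h2 h
    · exact hs0 h
  have hor : τ s = s ∨ τ s = -s := by
    have h1 : (τ s) ^ 2 = s ^ 2 := by rw [← map_pow, hs, hτ]
    have h3 : (τ s - s) * (τ s + s) = 0 := by linear_combination h1
    rcases mul_eq_zero.mp h3 with h | h
    · exact Or.inl (sub_eq_zero.mp h)
    · exact Or.inr (by linear_combination h)
  have hall : τ s = -s → Moves τ c := by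
    intro h3 s' hs' h4
    have h6 : (s' - s) * (s' + s) = 0 := by linear_combination hs' - hs
    rcases mul_eq_zero.mp h6 with h | h
    · rw [sub_eq_zero.mp h, h3] at h4
      exact hne h4
    · have : s' = -s := by linear_combination h
      rw [this, map_neg, h3, neg_neg] at h4
      exact hne h4.symm
  have hno : Moves τ c → τ s = -s := fun h => hor.resolve_left (h s hs)
  refine ⟨⟨hno, hall⟩, ⟨fun h => hor.resolve_right (fun h3 => h (hall h3)), fun h h3 => ?_⟩⟩
  exact h3 s hs h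

/-- The parity relation. -/
lemma moves_parity (h2 : (2 : F) ≠ 0) {c₁ c₂ c₃ E : F} (h₁ : c₁ ≠ 0) (h₂ : c₂ ≠ 0) (h₃ : c₃ ≠ 0)
    (t₁ : τ c₁ = c₁) (t₂ : τ c₂ = c₂) (t₃ : τ c₃ = c₃) (hE : c₁ * c₂ * c₃ = E ^ 2)
    (hτE : τ E = E) : Moves τ c₁ ↔ ¬ (Moves τ c₂ ↔ Moves τ c₃) := by
  obtain ⟨s₁, hs₁⟩ := IsAlgClosed.exists_pow_nat_eq c₁ (n := 2) (by norm_num)
  obtain ⟨s₂, hs₂⟩ := IsAlgClosed.exists_pow_nat_eq c₂ (n := 2) (by norm_num)
  obtain ⟨s₃, hs₃⟩ := IsAlgClosed.exists_pow_nat_eq c₃ (n := 2) (by norm_num)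
  have a₁ := moves_iff_neg h2 h₁ t₁ hs₁
  have a₂ := moves_iff_neg h2 h₂ t₂ hs₂
  have a₃ := moves_iff_neg h2 h₃ t₃ hs₃
  have hfix : τ (s₁ * s₂ * s₃) = s₁ * s₂ * s₃ := by
    have h4 : (s₁ * s₂ * s₃ - E) * (s₁ * s₂ * s₃ + E) = 0 := by
      have : (s₁ * s₂ * s₃) ^ 2 = E ^ 2 := by
        rw [mul_pow, mul_pow, hs₁, hs₂, hs₃, hE]
      linear_combination this
    rcases mul_eq_zero.mp h4 with h | h
    · rw [sub_eq_zero.mp h, hτE]
    · have : s₁ * s₂ * s₃ = -E := by linear_combination h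
      rw [this, map_neg, hτE]
  have hne : s₁ * s₂ * s₃ ≠ 0 := by
    intro h0
    have : (s₁ * s₂ * s₃) ^ 2 = 0 := by rw [h0]; ring
    rw [mul_pow, mul_pow, hs₁, hs₂, hs₃] at this
    exact mul_ne_zero (mul_ne_zero h₁ h₂) h₃ this
  have hneg : -(s₁ * s₂ * s₃) ≠ s₁ * s₂ * s₃ := by
    intro h0
    have : 2 * (s₁ * s₂ * s₃) = 0 := by linear_combination -h0
    rcases mul_eq_zero.mp this with h | h
    · exact h2 h
    · exact hne h
  rw [map_mul, map_mul] at hfix
  by_cases m₁ : Moves τ c₁ <;> by_cases m₂ : Moves τ c₂ <;> by_cases m₃ : Moves τ c₃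
  · exfalso
    rw [a₁.1.mp m₁, a₂.1.mp m₂, a₃.1.mp m₃] at hfix
    exact hneg (by linear_combination hfix)
  · simp [m₁, m₂, m₃]
  · simp [m₁, m₂, m₃]
  · exfalso
    rw [a₁.1.mp m₁, a₂.2.mp m₂, a₃.2.mp m₃] at hfix
    exact hneg (by linear_combination hfix)
  · simp [m₁, m₂, m₃]
  · exfalso
    rw [a₁.2.mp m₁, a₂.1.mp m₂, a₃.2.mp m₃] at hfix
    exact hneg (by linear_combination hfix)
  · exfalso
    rw [a₁.2.mp m₁, a₂.2.mp m₂, a₃.1.mp m₃] at hfix
    exact hneg (by linear_combination hfix)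
  · simp [m₁, m₂, m₃]

end MovesLemmas

section Tower

variable {R F L Ω : Type*} [CommRing R] [Field F] [IsAlgClosed F] [Field L] [Field Ω]
  [Algebra F[X] L] [IsFractionRing F[X] L] [Algebra L Ω] [Algebra F[X] Ω] [IsScalarTower F[X] L Ω]
  [Algebra R L] [Algebra R Ω] [IsScalarTower R L Ω] {W : Affine R} {g D : F[X]}
  [IsGalois L Ω] [IsSepClosed Ω]
  {K : Type*} [Field K] [Algebra L K] [Algebra K Ω] [IsScalarTower L K Ω] [Algebra F[X] K]
  [IsScalarTower F[X] L K] [IsScalarTower F[X] K Ω] [IsGalois K Ω]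

/-- The local data at a root `α` of `D` with an automorphism `γ`. -/
structure KeyData (w : Valuation K (WithZero (Multiplicative ℤ))) (g D : F[X]) (α : F) (S : Ω)
    (γ : Ω ≃ₐ[R] Ω) (γK : K ≃+* K) (τ : F →+* F) : Prop where
  isOver : IsOver w α
  loc : IsLoc w g D (algebraMap F[X] K (X - C α)) S
  near : ∀ β, g.eval β = α → ∃ x : K, algebraMap K Ω x ∈ RootSet (Ω := Ω) g ∧
    w (x - algebraMap F[X] K (C β)) = WithZero.exp (-1 : ℤ)
  γ_poly : ∀ p : F[X], γ (algebraMap F[X] Ω p) = algebraMap F[X] Ω (p.map τ)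
  γ_K : ∀ x : K, γ (algebraMap K Ω x) = algebraMap K Ω (γK x)
  γ_val : ∀ x, w (γK x) = w x
  g_fix : g.map τ = g
  D_fix : D.map τ = D
  α_fix : τ α = α
  β_fix : ∀ β, g.eval β = α → τ β = β

variable {w : Valuation K (WithZero (Multiplicative ℤ))} {α : F} {S : Ω} {γ : Ω ≃ₐ[R] Ω}
  {γK : K ≃+* K} {τ : F →+* F}

lemma KeyData.γK_poly (h : KeyData w g D α S γ γK τ) (p : F[X]) :
    γK (algebraMap F[X] K p) = algebraMap F[X] K (p.map τ) := by
  apply (algebraMap K Ω).injective
  rw [← h.γ_K, ← IsScalarTower.algebraMap_apply, ← IsScalarTower.algebraMap_apply, h.γ_poly]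

lemma cg_of_near {x : K} {β : F}
    (hx : w (x - algebraMap F[X] K (C β)) = WithZero.exp (-1 : ℤ)) : Cg w x β := by
  unfold Cg
  rw [hx, ← WithZero.exp_zero, WithZero.exp_lt_exp]; norm_num

/-- The root near a fixed constant is fixed. -/
lemma KeyData.fix_near (h : KeyData w g D α S γ γK τ) {β : F} (hβ : g.eval β = α) {x : K}
    (hx : algebraMap K Ω x ∈ RootSet (Ω := Ω) g) (hc : Cg w x β) :
    γK x = x := by
  by_contra hne
  have h1 : algebraMap K Ω (γK x) ∈ RootSet (Ω := Ω) g := by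
    rw [← h.γ_K]
    exact gamma_mem_rootSet h.γ_poly h.g_fix hx
  have h2 := h.loc.diff _ _ h1 hx hne
  have h3 : Cg w (γK x) β := by
    unfold Cg at hc ⊢
    have h4 := h.γK_poly (C β)
    rw [map_C, h.β_fix β hβ] at h4
    rw [← h4, ← map_sub, h.γ_val]
    exact hc
  have h4 := h3.sub hc
  unfold Cg at h4
  rw [sub_self, C_0, map_zero, sub_zero, h2] at h4
  exact lt_irrefl _ h4

/-- Labels for the fibre and the roots. -/
lemma KeyData.labels (h : KeyData w g D α S γ γK τ) (hg : g.Monic) (hdeg : g.natDegree = 3)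
    (hd : derivative g ≠ 0) (L' : Type*) [Field L'] [Algebra F[X] L'] [IsFractionRing F[X] L']
    [Algebra L' Ω] [IsScalarTower F[X] L' Ω] {β₁ β₂ β₃ : F}
    (h12 : β₁ ≠ β₂) (h13 : β₁ ≠ β₃) (h23 : β₂ ≠ β₃)
    (hfac : g - C α = (X - C β₁) * (X - C β₂) * (X - C β₃)) :
    ∃ x₁ x₂ x₃ : K, (algebraMap K Ω x₁ ∈ RootSet (Ω := Ω) g ∧
      algebraMap K Ω x₂ ∈ RootSet (Ω := Ω) g ∧ algebraMap K Ω x₃ ∈ RootSet (Ω := Ω) g) ∧
      (w (x₁ - algebraMap F[X] K (C β₁)) = WithZero.exp (-1 : ℤ) ∧
      w (x₂ - algebraMap F[X] K (C β₂)) = WithZero.exp (-1 : ℤ) ∧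
      w (x₃ - algebraMap F[X] K (C β₃)) = WithZero.exp (-1 : ℤ)) ∧
      ∀ θ ∈ RootSet (Ω := Ω) g, θ = algebraMap K Ω x₁ ∨ θ = algebraMap K Ω x₂ ∨
        θ = algebraMap K Ω x₃ := by
  have hev : ∀ β, g.eval β - α = (β - β₁) * (β - β₂) * (β - β₃) := by
    intro β
    have := congrArg (fun p => p.eval β) hfac
    simpa using this
  have e1 : g.eval β₁ = α := by
    have := hev β₁
    rw [sub_self, zero_mul, zero_mul] at this
    exact sub_eq_zero.mp this
  have e2 : g.eval β₂ = α := by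
    have := hev β₂
    rw [sub_self, mul_zero, zero_mul] at this
    exact sub_eq_zero.mp this
  have e3 : g.eval β₃ = α := by
    have := hev β₃
    rw [sub_self, mul_zero] at this
    exact sub_eq_zero.mp this
  obtain ⟨x₁, m1, n1⟩ := h.near β₁ e1
  obtain ⟨x₂, m2, n2⟩ := h.near β₂ e2
  obtain ⟨x₃, m3, n3⟩ := h.near β₃ e3
  refine ⟨x₁, x₂, x₃, ⟨m1, m2, m3⟩, ⟨n1, n2, n3⟩, ?_⟩
  have d12 : algebraMap K Ω x₁ ≠ algebraMap K Ω x₂ := by
    intro h0
    have := (algebraMap K Ω).injective h0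
    subst this
    exact h12 ((cg_of_near n1).unique h.isOver (cg_of_near n2))
  have d13 : algebraMap K Ω x₁ ≠ algebraMap K Ω x₃ := by
    intro h0
    have := (algebraMap K Ω).injective h0
    subst this
    exact h13 ((cg_of_near n1).unique h.isOver (cg_of_near n3))
  have d23 : algebraMap K Ω x₂ ≠ algebraMap K Ω x₃ := by
    intro h0
    have := (algebraMap K Ω).injective h0
    subst this
    exact h23 ((cg_of_near n2).unique h.isOver (cg_of_near n3))
  obtain ⟨θ₁, θ₂, θ₃, t12, t13, t23, hR, -, -⟩ :=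
    exists_three_roots (F := F) L' (Ω := Ω) hg hdeg hd
  have hsub : ({algebraMap K Ω x₁, algebraMap K Ω x₂, algebraMap K Ω x₃} : Finset Ω) ⊆
      {θ₁, θ₂, θ₃} := by
    intro θ hθ
    simp only [Finset.mem_insert, Finset.mem_singleton] at hθ ⊢
    rcases hθ with rfl | rfl | rfl
    · exact (hR _).mp m1
    · exact (hR _).mp m2
    · exact (hR _).mp m3
  have heq := Finset.eq_of_subset_of_card_le hsub (by
    rw [Finset.card_insert_of_notMem (by simp [t12, t13]),
      Finset.card_insert_of_notMem (by simp [t23]), Finset.card_singleton,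
      Finset.card_insert_of_notMem (by simp [d12, d13]),
      Finset.card_insert_of_notMem (by simp [d23]), Finset.card_singleton])
  intro θ hθ
  have h5 : θ ∈ ({θ₁, θ₂, θ₃} : Finset Ω) := by simpa using (hR θ).mp hθ
  rw [← heq] at h5
  simpa using h5

/-- The conjugate of an element of the local Galois group. -/
lemma KeyData.exists_conj (h : KeyData w g D α S γ γK τ) (σ : Ω ≃ₐ[K] Ω) :
    ∃ σ' : Ω ≃ₐ[K] Ω, (∀ x, γ (σ' x) = σ (γ x)) ∧ (σ S = -S → σ' S = -S) := by
  refine ⟨AlgEquiv.ofRingEquiv (f := (γ.toRingEquiv.trans σ.toRingEquiv).trans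
    γ.symm.toRingEquiv) ?_, ?_, ?_⟩
  · intro y
    change γ.symm (σ (γ (algebraMap K Ω y))) = algebraMap K Ω y
    rw [h.γ_K, σ.commutes, ← h.γ_K, AlgEquiv.symm_apply_apply]
  · intro x
    change γ (γ.symm (σ (γ x))) = σ (γ x)
    rw [AlgEquiv.apply_symm_apply]
  · intro hσ
    have h1 : (γ S) ^ 2 = S ^ 2 := by
      rw [← map_pow, h.loc.S_sq, ← IsScalarTower.algebraMap_apply, h.γ_poly, Polynomial.map_sub,
        Polynomial.map_X, Polynomial.map_C, h.α_fix]
    have h3 : (γ S - S) * (γ S + S) = 0 := by linear_combination h1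
    change γ.symm (σ (γ S)) = -S
    apply γ.injective
    rw [AlgEquiv.apply_symm_apply, map_neg]
    rcases mul_eq_zero.mp h3 with h4 | h4
    · rw [sub_eq_zero.mp h4, hσ]
    · have h5 : γ S = -S := by linear_combination h4
      rw [h5, map_neg, hσ]

variable (L) in
include L in
/-- An automorphism fixing the roots acts trivially on points of order two. -/
lemma gamma_two (h2 : (2 : Ω) ≠ 0) (hW : IsTwist Ω W g D) (hg : g.Monic)
    (hdeg : g.natDegree = 3) (hd : derivative g ≠ 0) (hD : D ≠ 0)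
    (hγD : γ (algebraMap F[X] Ω D) = algebraMap F[X] Ω D)
    (hγθ : ∀ θ ∈ RootSet (Ω := Ω) g, γ θ = θ) {T : (W.baseChange Ω).Point} (hT : 2 • T = 0) :
    Point.map (W' := W) (γ : Ω →ₐ[R] Ω) T = T := by
  apply eq_of_signs L h2 hW hg hdeg hd hD (by rw [← map_nsmul, hT, map_zero]) hT
  intro θ hθ
  have h1 : algebraMap F[X] Ω D * θ = (γ : Ω →ₐ[R] Ω) (algebraMap F[X] Ω D * θ) := by
    change _ = γ (algebraMap F[X] Ω D * θ)
    rw [map_mul, hγD, hγθ θ hθ]
  conv_lhs => rw [h1]
  rw [rho_map]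
  rcases rho_two_torsion_sq hW.short h2 (algebraMap F[X] Ω D * θ) hT with h3 | h3
  · rw [h3, map_one]
  · rw [h3, map_neg, map_one]

/-- The value of the second class at an element moving `S`. -/
lemma KeyData.value (h : KeyData w g D α S γ γK τ) (hW : IsTwist Ω W g D) (hg : g.Monic)
    (hdeg : g.natDegree = 3) (hd : derivative g ≠ 0)
    {y z : ℕ → (Ω ≃ₐ[L] Ω) → (W.baseChange Ω).Point} (hy : TC W y)
    {P : (W.baseChange Ω).Point} (hP : 4 • P = 0)
    (hrel : ∀ σ' σ : Ω ≃ₐ[L] Ω, (∀ x, γ (σ' x) = σ (γ x)) →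
      Point.map (W' := W) (γ : Ω →ₐ[R] Ω) (y 2 σ') =
        y 2 σ + z 1 σ + (Point.map (W' := W) (σ : Ω →ₐ[L] Ω) P - P))
    {σ₀ : Ω ≃ₐ[K] Ω} (hσ₀ : σ₀ S = -S) :
    z 1 (σ₀.restrictScalars L) =
      (Point.map (W' := W) (γ : Ω →ₐ[R] Ω) (y 2 (σ₀.restrictScalars L)) -
        y 2 (σ₀.restrictScalars L)) + 2 • P := by
  have hne : -S ≠ S := by
    intro h0
    have : 2 * S = 0 := by linear_combination -h0
    rcases mul_eq_zero.mp this with h1 | h1
    · exact h.loc.two h1
    · exact h.loc.S_ne h1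
  obtain ⟨σ₁, h1, h3⟩ := h.exists_conj σ₀
  have h4 := hrel (σ₁.restrictScalars L) (σ₀.restrictScalars L) h1
  have h5 := h.loc.level_two (L := L) hW hg hdeg hd hσ₀ hy σ₁
  rw [h3 hσ₀, if_neg hne] at h5
  rw [h5, (h.loc.map_four (L := L) hW hg hdeg hd hP σ₀).2 hσ₀] at h4
  rw [h4, two_nsmul]
  abel

/-- The sign of a cocycle of order two at an element moving `S`. -/
lemma KeyData.sign_near (h : KeyData w g D α S γ γK τ)
    {c : (Ω ≃ₐ[L] Ω) → (W.baseChange Ω).Point} {Z : Finset F} {b : Ω → Ω}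
    (hb : IsDesc W g D c Z b)
    {σ₀ : Ω ≃ₐ[K] Ω} (hσ₀ : σ₀ S = -S) {x : K} {β : F}
    (hx : algebraMap K Ω x ∈ RootSet (Ω := Ω) g)
    (hn : w (x - algebraMap F[X] K (C β)) = WithZero.exp (-1 : ℤ)) :
    rho (algebraMap F[X] Ω D * algebraMap K Ω x) (c (σ₀.restrictScalars L)) =
      if β ∈ Z then -1 else 1 := by
  have hoth : ∀ β' : F, β' ≠ β → w (x - algebraMap F[X] K (C β')) = 1 := by
    intro β' hne
    exact ((cg_of_near hn).sub (IsOver.cg_const (w := w) β')).one h.isOver
      (sub_ne_zero.mpr (Ne.symm hne))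
  obtain ⟨hne, hlg⟩ := lg_root_prod w hn hoth Z
  have hprod0 : (∏ β' ∈ Z, (x - algebraMap F[X] K (C β'))) ≠ 0 :=
    Finset.prod_ne_zero_iff.mpr fun β' _ => hne β'
  have hsq : b (algebraMap K Ω x) ^ 2 =
      algebraMap K Ω (∏ β' ∈ Z, (x - algebraMap F[X] K (C β'))) := by
    rw [hb.sq _ hx, map_prod]
    apply Finset.prod_congr rfl
    intro β' _
    rw [map_sub, ← IsScalarTower.algebraMap_apply]
  have hact := hb.act _ hx (σ₀.restrictScalars L)
  have hfix : (σ₀.restrictScalars L) (algebraMap K Ω x) = algebraMap K Ω x := σ₀.commutes x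
  rw [hfix] at hact
  have hb0 := hb.ne_zero hx
  by_cases hβ : β ∈ Z
  · rw [if_pos hβ] at hlg ⊢
    have h1 := sqrt_odd h.loc.unif h.loc.sqrt h.loc.S_sq hprod0 (by rw [hlg]; decide) hsq σ₀
    have h3 : σ₀ (b (algebraMap K Ω x)) = -b (algebraMap K Ω x) := by
      apply mul_right_cancel₀ h.loc.S_ne
      rw [h1, hσ₀]; ring
    have h4 : (σ₀.restrictScalars L) (b (algebraMap K Ω x)) = -b (algebraMap K Ω x) := h3
    rw [h4] at hact
    apply mul_right_cancel₀ hb0
    rw [← hact]; ring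
  · rw [if_neg hβ] at hlg ⊢
    obtain ⟨r, hr⟩ := exists_rational_sqrt w h.loc.unif h.loc.sqrt hprod0 (by rw [hlg]; decide) hsq
    have h4 : (σ₀.restrictScalars L) (b (algebraMap K Ω x)) = b (algebraMap K Ω x) := by
      rw [← hr]; exact σ₀.commutes r
    rw [h4] at hact
    apply mul_right_cancel₀ hb0
    rw [← hact]; ring

/-- Everything that is needed about the two classes `y` and `z = (γ y - y) / 2`. -/
structure KeyRel (W : Affine R) (g D : F[X]) (γ : Ω ≃ₐ[R] Ω) (τ : F →+* F)
    (y z : ℕ → (Ω ≃ₐ[L] Ω) → (W.baseChange Ω).Point) (P : (W.baseChange Ω).Point)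
    (Z Z' : Finset F) (b b' : Ω → Ω) : Prop where
  tcy : TC W y
  tcz : TC W z
  four : 4 • P = 0
  rel : ∀ σ' σ : Ω ≃ₐ[L] Ω, (∀ x, γ (σ' x) = σ (γ x)) →
      Point.map (W' := W) (γ : Ω →ₐ[R] Ω) (y 2 σ') =
        y 2 σ + z 1 σ + (Point.map (W' := W) (σ : Ω →ₐ[L] Ω) P - P)
  descy : IsDesc W g D (y 1) Z b
  descz : IsDesc W g D (z 1) Z' b'
  fixZ : ∀ β ∈ Z, τ β = β
  conj : ∀ σ : Ω ≃ₐ[L] Ω, ∃ σ' : Ω ≃ₐ[L] Ω, ∀ x, γ (σ' x) = σ (γ x)

variable {y z : ℕ → (Ω ≃ₐ[L] Ω) → (W.baseChange Ω).Point} {P : (W.baseChange Ω).Point}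
  {Z Z' : Finset F} {b b' : Ω → Ω}

/-- The effect of `γ` on `ρ(B) b(θ)`. -/
lemma KeyData.core (h : KeyData w g D α S γ γK τ) (hr : KeyRel W g D γ τ y z P Z Z' b b')
    (hW : IsTwist Ω W g D) (hg : g.Monic) (hdeg : g.natDegree = 3) (hd : derivative g ≠ 0)
    (hγθ : ∀ θ ∈ RootSet (Ω := Ω) g, γ θ = θ) {σ₀ : Ω ≃ₐ[K] Ω} (hσ₀ : σ₀ S = -S)
    {x : K} {β : F} (hx : algebraMap K Ω x ∈ RootSet (Ω := Ω) g)
    (hn : w (x - algebraMap F[X] K (C β)) = WithZero.exp (-1 : ℤ)) :
    γ (rho (algebraMap F[X] Ω D * algebraMap K Ω x) (y 2 (σ₀.restrictScalars L)) *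
        b (algebraMap K Ω x)) =
      (if β ∈ Z' then -1 else 1) *
        (rho (algebraMap F[X] Ω D * algebraMap K Ω x) (y 2 (σ₀.restrictScalars L)) *
          b (algebraMap K Ω x)) := by
  set θ := algebraMap K Ω x with hθ
  set B := y 2 (σ₀.restrictScalars L) with hB
  have hγD : γ (algebraMap F[X] Ω D) = algebraMap F[X] Ω D := by rw [h.γ_poly, h.D_fix]
  have hz2 : ∀ σ, 2 • z 1 σ = 0 := fun σ => by
    have := hr.tcz.two_pow 1 σ
    rwa [pow_one] at this
  have hy2 : ∀ σ, 2 • y 1 σ = 0 := fun σ => by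
    have := hr.tcy.two_pow 1 σ
    rwa [pow_one] at this
  have hP2 : 2 • (2 • P) = 0 := by rw [← mul_smul]; exact hr.four
  -- the level one relation
  have hrel1 : ∀ σ' σ : Ω ≃ₐ[L] Ω, (∀ x, γ (σ' x) = σ (γ x)) →
      Point.map (W' := W) (γ : Ω →ₐ[R] Ω) (y 1 σ') - y 1 σ =
        Point.map (W' := W) (σ : Ω →ₐ[L] Ω) (2 • P) - 2 • P := by
    intro σ' σ hσ
    have h1 := congrArg (fun Q => 2 • Q) (hr.rel σ' σ hσ)
    rw [← map_nsmul, hr.tcy.two 1, smul_add, smul_add, hr.tcy.two 1, hz2, add_zero, smul_sub,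
      ← map_nsmul] at h1
    rw [h1]
    abel
  have hb := hr.descy.conj_eq h.loc.two hW hg hdeg hd h.loc.ne hy2 h.γ_poly h.g_fix h.D_fix
    hr.conj hr.fixZ hP2 hrel1 θ hx
  have hsymm : γ.symm θ = θ := by
    apply γ.injective
    rw [AlgEquiv.apply_symm_apply, hγθ θ hx]
  rw [hsymm] at hb
  have hval := h.value hW hg hdeg hd hr.tcy hr.four hr.rel hσ₀
  rw [← hB] at hval
  set V := Point.map (W' := W) (γ : Ω →ₐ[R] Ω) B - B with hV
  have h2B : 2 • B = y 1 (σ₀.restrictScalars L) := hr.tcy.two 1 _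
  have hV2 : 2 • V = 0 := by
    rw [hV, smul_sub, ← map_nsmul, h2B, gamma_two L h.loc.two hW hg hdeg hd h.loc.ne hγD hγθ
      (hy2 _), sub_self]
  have hγB : Point.map (W' := W) (γ : Ω →ₐ[R] Ω) B = B + V := by rw [hV]; abel
  have h3 : γ (rho (algebraMap F[X] Ω D * θ) B) =
      rho (algebraMap F[X] Ω D * θ) B * rho (algebraMap F[X] Ω D * θ) V := by
    rw [← rho_add hW.short h.loc.two (hW.rt hg hdeg hx) _ _ hV2, ← hγB]
    have h5 : algebraMap F[X] Ω D * θ = (γ : Ω →ₐ[R] Ω) (algebraMap F[X] Ω D * θ) := by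
      change _ = γ (algebraMap F[X] Ω D * θ)
      rw [map_mul, hγD, hγθ θ hx]
    conv_rhs => rw [h5]
    rw [rho_map]
    rfl
  have h4 := h.sign_near hr.descz hσ₀ hx hn
  rw [hval, rho_add hW.short h.loc.two (hW.rt hg hdeg hx) _ _ hP2] at h4
  rw [map_mul, h3, hb, ← h4]
  ring

/-- The final step: comparison of the two signs. -/
lemma KeyData.final (h : KeyData w g D α S γ γK τ) (h2F : (2 : F) ≠ 0) {m : K} {c : F} (hc : c ≠ 0)
    (hm : Cg w (m ^ 2) c) {β : F}
    (hκ : γ (algebraMap K Ω m) = (if β ∈ Z' then -1 else 1) * algebraMap K Ω m) :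
    β ∈ Z' ↔ Moves τ c := by
  have haux := moves_iff_aux h.isOver h2F (τ := τ) (γK := γK) (fun a => by
    rw [h.γK_poly, map_C]) h.γ_val hc hm
  by_cases hβ : β ∈ Z'
  · rw [if_pos hβ] at hκ
    refine ⟨fun _ => haux.2 ?_, fun _ => hβ⟩
    apply (algebraMap K Ω).injective
    rw [← h.γ_K, hκ, map_neg]; ring
  · rw [if_neg hβ] at hκ
    refine ⟨fun h1 => absurd h1 hβ, fun h1 => absurd h1 (haux.1 ?_)⟩
    apply (algebraMap K Ω).injective
    rw [← h.γ_K, hκ, one_mul]

/-- The case in which the fibre does not meet `Z`. -/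
lemma KeyData.case_zero (h : KeyData w g D α S γ γK τ) (hr : KeyRel W g D γ τ y z P Z Z' b b')
    (h2F : (2 : F) ≠ 0)
    (hW : IsTwist Ω W g D) (hg : g.Monic) (hdeg : g.natDegree = 3) (hd : derivative g ≠ 0)
    (hγθ : ∀ θ ∈ RootSet (Ω := Ω) g, γ θ = θ) {σ₀ : Ω ≃ₐ[K] Ω} (hσ₀ : σ₀ S = -S)
    (h2B : 2 • y 2 (σ₀.restrictScalars L) = 0)
    {x : K} {β : F} (hβ : g.eval β = α) (hx : algebraMap K Ω x ∈ RootSet (Ω := Ω) g)
    (hn : w (x - algebraMap F[X] K (C β)) = WithZero.exp (-1 : ℤ)) :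
    β ∈ Z' ↔ Moves τ (PZ g D Z β) := by
  have h2y : ∀ σ, 2 • y 2 σ = y 1 σ := fun σ => hr.tcy.two 1 σ
  have hm1 : (1 : Ω) ≠ -1 := by
    intro h0
    apply h.loc.two
    linear_combination h0
  -- no point of the fibre is in `Z`
  have hno : ∀ β' ∈ Z, g.eval β' ≠ α := by
    intro β' hβ' heq
    obtain ⟨x', m', n'⟩ := h.near β' heq
    have h1 := h.sign_near hr.descy hσ₀ m' n'
    rw [← h2y, h2B, rho_zero, if_pos hβ'] at h1
    exact hm1 h1
  have hβZ : β ∉ Z := fun h1 => hno β h1 hβ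
  have hfilter : Z.filter (fun β' => g.eval β' ≠ g.eval β) = Z := by
    apply Finset.filter_true_of_mem
    intro β' hβ'
    rw [hβ]
    exact hno β' hβ'
  have hPZ : PZ g D Z β = ∏ β' ∈ Z, (β - β') := by
    rw [PZ, hfilter, if_neg hβZ, mul_one]
  have hcore := h.core hr hW hg hdeg hd hγθ hσ₀ hx hn
  set θ := algebraMap K Ω x with hθ
  set B := y 2 (σ₀.restrictScalars L) with hB
  have hoth : ∀ β' : F, β' ≠ β → w (x - algebraMap F[X] K (C β')) = 1 := by
    intro β' hne
    exact ((cg_of_near hn).sub (IsOver.cg_const (w := w) β')).one h.isOver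
      (sub_ne_zero.mpr (Ne.symm hne))
  obtain ⟨hne, hlg⟩ := lg_root_prod w hn hoth Z
  rw [if_neg hβZ] at hlg
  have hprod0 : (∏ β' ∈ Z, (x - algebraMap F[X] K (C β'))) ≠ 0 :=
    Finset.prod_ne_zero_iff.mpr fun β' _ => hne β'
  have hsq : (rho (algebraMap F[X] Ω D * θ) B * b θ) ^ 2 =
      algebraMap K Ω (∏ β' ∈ Z, (x - algebraMap F[X] K (C β'))) := by
    rw [mul_pow, pow_two (rho _ _), rho_two_torsion_mul_self hW.short h.loc.two _ h2B, one_mul,
      hr.descy.sq _ hx, map_prod]
    apply Finset.prod_congr rfl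
    intro β' _
    rw [map_sub, ← IsScalarTower.algebraMap_apply]
  obtain ⟨m, hm⟩ := exists_rational_sqrt w h.loc.unif h.loc.sqrt hprod0 (by rw [hlg]; decide) hsq
  rw [← hm] at hcore
  have hm2 : m ^ 2 = ∏ β' ∈ Z, (x - algebraMap F[X] K (C β')) := by
    apply (algebraMap K Ω).injective
    rw [map_pow, hm, hsq]
  rw [hPZ]
  apply h.final h2F _ _ hcore
  · apply Finset.prod_ne_zero_iff.mpr
    intro β' hβ'
    apply sub_ne_zero.mpr
    rintro rfl
    exact hβZ hβ'
  · rw [hm2]
    apply Cg.prod h.isOver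
    intro β' _
    exact (cg_of_near hn).sub (IsOver.cg_const (w := w) β')

/-- The case of a point of the fibre which belongs to `Z`. -/
lemma KeyData.case_one (h : KeyData w g D α S γ γK τ) (hr : KeyRel W g D γ τ y z P Z Z' b b')
    (h2F : (2 : F) ≠ 0)
    (hW : IsTwist Ω W g D) (hg : g.Monic) (hdeg : g.natDegree = 3) (hd : derivative g ≠ 0)
    (hDα : D.eval α = 0) (hD' : (derivative D).eval α ≠ 0)
    (hγθ : ∀ θ ∈ RootSet (Ω := Ω) g, γ θ = θ) {σ₀ : Ω ≃ₐ[K] Ω} (hσ₀ : σ₀ S = -S)
    {βi βj βl : F} (hij : βi ≠ βj) (hil : βi ≠ βl) (hjl : βj ≠ βl)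
    (hfac : g - C α = (X - C βi) * (X - C βj) * (X - C βl)) {xi xj : K}
    (hxi : algebraMap K Ω xi ∈ RootSet (Ω := Ω) g) (hxj : algebraMap K Ω xj ∈ RootSet (Ω := Ω) g)
    (hni : w (xi - algebraMap F[X] K (C βi)) = WithZero.exp (-1 : ℤ))
    (hnj : w (xj - algebraMap F[X] K (C βj)) = WithZero.exp (-1 : ℤ))
    {hP' : (W.baseChange Ω).Nonsingular (algebraMap F[X] Ω D * algebraMap K Ω xj) 0}
    (h2B : 2 • y 2 (σ₀.restrictScalars L) =
      .some (algebraMap F[X] Ω D * algebraMap K Ω xj) 0 hP') :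
    βi ∈ Z' ↔ Moves τ (PZ g D Z βi) := by
  have hm1 : (1 : Ω) ≠ -1 := by
    intro h0
    apply h.loc.two
    linear_combination h0
  have hd0 : algebraMap F[X] Ω D ≠ 0 := algebraMap_ne_zero_Om L h.loc.ne
  have h2y : ∀ σ, 2 • y 2 σ = y 1 σ := fun σ => hr.tcy.two 1 σ
  have hev : ∀ β, g.eval β - α = (β - βi) * (β - βj) * (β - βl) := by
    intro β
    have := congrArg (fun p => p.eval β) hfac
    simpa using this
  have ei : g.eval βi = α := by
    have := hev βi
    rw [sub_self, zero_mul, zero_mul] at this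
    exact sub_eq_zero.mp this
  have ej : g.eval βj = α := by
    have := hev βj
    rw [sub_self, mul_zero, zero_mul] at this
    exact sub_eq_zero.mp this
  have el : g.eval βl = α := by
    have := hev βl
    rw [sub_self, mul_zero] at this
    exact sub_eq_zero.mp this
  -- membership in `Z`
  have hmem : ∀ (β' : F) (x' : K), algebraMap K Ω x' ∈ RootSet (Ω := Ω) g →
      w (x' - algebraMap F[X] K (C β')) = WithZero.exp (-1 : ℤ) → (β' ∈ Z ↔ xj ≠ x') := by
    intro β' x' m' n'
    have h1 := h.sign_near hr.descy hσ₀ m' n'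
    rw [← h2y, h2B, rho_two_torsion] at h1
    by_cases hx' : xj = x'
    · rw [if_pos (by rw [hx'])] at h1
      constructor
      · intro h3
        rw [if_pos h3] at h1
        exact absurd h1 hm1
      · intro h3
        exact absurd hx' h3
    · rw [if_neg (fun h3 => hx' ((algebraMap K Ω).injective (mul_left_cancel₀ hd0 h3)))] at h1
      constructor
      · exact fun _ => hx'
      · intro _
        by_contra h3
        rw [if_neg h3] at h1
        exact hm1 h1.symm
  have hxij : xi ≠ xj := by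
    rintro rfl
    exact hij ((cg_of_near hni).unique h.isOver (cg_of_near hnj))
  have hZi : βi ∈ Z := (hmem βi xi hxi hni).mpr (Ne.symm hxij)
  have hZj : βj ∉ Z := fun h1 => (hmem βj xj hxj hnj).mp h1 rfl
  have hZl : βl ∈ Z := by
    obtain ⟨xl, ml, nl⟩ := h.near βl el
    apply (hmem βl xl ml nl).mpr
    rintro rfl
    exact hjl ((cg_of_near hnj).unique h.isOver (cg_of_near nl))
  -- splitting off the fibre
  have hfib : Z.filter (fun β' => ¬ g.eval β' ≠ g.eval βi) = {βi, βl} := by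
    ext β'
    rw [Finset.mem_filter, Finset.mem_insert, Finset.mem_singleton, not_not, ei]
    constructor
    · rintro ⟨h1, h3⟩
      have h4 := hev β'
      rw [h3, sub_self, eq_comm, mul_eq_zero, mul_eq_zero] at h4
      rcases h4 with (h4 | h4) | h4
      · exact Or.inl (sub_eq_zero.mp h4)
      · rw [sub_eq_zero.mp h4] at h1
        exact absurd h1 hZj
      · exact Or.inr (sub_eq_zero.mp h4)
    · rintro (rfl | rfl)
      · exact ⟨hZi, ei⟩
      · exact ⟨hZl, el⟩
  set px : K := ∏ β' ∈ Z.filter (fun β' => g.eval β' ≠ g.eval βi),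
    (xi - algebraMap F[X] K (C β')) with hpx
  set pb : F := ∏ β' ∈ Z.filter (fun β' => g.eval β' ≠ g.eval βi), (βi - β') with hpb
  have hsplit : ∏ β' ∈ Z, (xi - algebraMap F[X] K (C β')) =
      px * ((xi - algebraMap F[X] K (C βi)) * (xi - algebraMap F[X] K (C βl))) := by
    rw [← Finset.prod_filter_mul_prod_filter_not Z (fun β' => g.eval β' ≠ g.eval βi), hfib,
      Finset.prod_pair hil]
  have hcp : Cg w px pb := by
    apply Cg.prod h.isOver
    intro β' _
    exact (cg_of_near hni).sub (IsOver.cg_const (w := w) β')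
  have hp0 : pb ≠ 0 := by
    apply Finset.prod_ne_zero_iff.mpr
    intro β' hβ'
    apply sub_ne_zero.mpr
    rintro rfl
    rw [Finset.mem_filter] at hβ'
    exact hβ'.2 rfl
  -- the product formula for `t - α`
  have hπ : algebraMap F[X] K (X - C α) = (xi - algebraMap F[X] K (C βi)) *
      (xi - algebraMap F[X] K (C βj)) * (xi - algebraMap F[X] K (C βl)) := by
    apply (algebraMap K Ω).injective
    have h1 := congrArg (ev F Ω (algebraMap K Ω xi)) hfac
    rw [map_sub, show ev F Ω (algebraMap K Ω xi) g = _ from hxi] at h1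
    simp only [map_mul, map_sub, ev_X, ev_C] at h1
    simp only [map_mul, map_sub, ← IsScalarTower.algebraMap_apply]
    exact h1
  obtain ⟨D₁, hD₁⟩ : (X - C α) ∣ D := dvd_iff_isRoot.mpr hDα
  have hD₁α : D₁.eval α = (derivative D).eval α := by
    rw [hD₁]
    simp
  have hπ0 := h.loc.pi_ne
  have hcore := h.core hr hW hg hdeg hd hγθ hσ₀ hxi hni
  set θ := algebraMap K Ω xi with hθ
  set B := y 2 (σ₀.restrictScalars L) with hB
  set XX : K := algebraMap F[X] K D * (xj - xi) * ∏ β' ∈ Z, (xi - algebraMap F[X] K (C β')) with hXX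
  have hsq : (rho (algebraMap F[X] Ω D * θ) B * b θ) ^ 2 = algebraMap K Ω XX := by
    rw [mul_pow, h.loc.rho_half hW hg hdeg h2B hxi, hr.descy.sq _ hxi, hXX, map_mul, map_mul,
      map_sub, map_prod, ← IsScalarTower.algebraMap_apply]
    congr 1
    apply Finset.prod_congr rfl
    intro β' _
    rw [map_sub, ← IsScalarTower.algebraMap_apply]
  have hoth : ∀ β' : F, β' ≠ βi → w (xi - algebraMap F[X] K (C β')) = 1 := by
    intro β' hne
    exact ((cg_of_near hni).sub (IsOver.cg_const (w := w) β')).one h.isOver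
      (sub_ne_zero.mpr (Ne.symm hne))
  obtain ⟨hne, hlg⟩ := lg_root_prod w hni hoth Z
  rw [if_pos hZi] at hlg
  have hprod0 : (∏ β' ∈ Z, (xi - algebraMap F[X] K (C β'))) ≠ 0 :=
    Finset.prod_ne_zero_iff.mpr fun β' _ => hne β'
  have hdK : algebraMap F[X] K D ≠ 0 := by
    intro h0
    apply hd0
    rw [IsScalarTower.algebraMap_apply F[X] K Ω, h0, map_zero]
  have hwji : w (xj - xi) = 1 := h.loc.diff _ _ hxj hxi (Ne.symm hxij)
  have hji0 : xj - xi ≠ 0 := sub_ne_zero.mpr (Ne.symm hxij)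
  have hXX0 : XX ≠ 0 := mul_ne_zero (mul_ne_zero hdK hji0) hprod0
  have hXXe : Even (lg w XX) := by
    rw [hXX, lg_mul w (mul_ne_zero hdK hji0) hprod0, lg_mul w hdK hji0, hlg,
      lg_eq_zero_of w hwji, add_zero]
    exact h.loc.odd.add_odd (by decide)
  obtain ⟨n, hn⟩ := exists_rational_sqrt w h.loc.unif h.loc.sqrt hXX0 hXXe hsq
  have hn2 : n ^ 2 = XX := by
    apply (algebraMap K Ω).injective
    rw [map_pow, hn, hsq]
  -- the normalised element
  set π : K := algebraMap F[X] K (X - C α) with hπdef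
  have hγπ : γ (algebraMap K Ω π) = algebraMap K Ω π := by
    rw [hπdef, ← IsScalarTower.algebraMap_apply, h.γ_poly, Polynomial.map_sub, Polynomial.map_X,
      Polynomial.map_C, h.α_fix]
  have hcore' : γ (algebraMap K Ω (n / π)) =
      (if βi ∈ Z' then -1 else 1) * algebraMap K Ω (n / π) := by
    rw [map_div₀, map_div₀, hγπ, hn, hcore]
    ring
  have hPZ : PZ g D Z βi = pb * -(derivative D).eval α := by
    rw [PZ, if_pos hZi, ei, hpb, ei]
  rw [hPZ]
  have huj : xi - algebraMap F[X] K (C βj) ≠ 0 := hne βj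
  have hwj : w (xi - algebraMap F[X] K (C βj)) = 1 := hoth βj (Ne.symm hij)
  have hkey : (n / π) ^ 2 * (xi - algebraMap F[X] K (C βj)) =
      algebraMap F[X] K D₁ * (xj - xi) * px := by
    have e1 : algebraMap F[X] K D = π * algebraMap F[X] K D₁ := by
      rw [hπdef, ← map_mul, ← hD₁]
    rw [div_pow, hn2, hXX, hsplit, e1, div_mul_eq_mul_div, div_eq_iff (pow_ne_zero 2 hπ0)]
    linear_combination (-(π * algebraMap F[X] K D₁ * (xj - xi) * px)) * hπ
  apply h.final h2F _ _ hcore'
  · exact mul_ne_zero hp0 (neg_ne_zero.mpr hD')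
  · have h5 : Cg w (algebraMap F[X] K D₁ * (xj - xi) * px - algebraMap F[X] K
        (C (pb * -(derivative D).eval α)) * (xi - algebraMap F[X] K (C βj)))
        (D₁.eval α * (βj - βi) * pb - (pb * -(derivative D).eval α) * (βi - βj)) := by
      apply Cg.sub
      · exact ((Cg.poly h.isOver D₁).mul h.isOver
          ((cg_of_near hnj).sub (cg_of_near hni))).mul h.isOver hcp
      · exact (IsOver.cg_const (w := w) _).mul h.isOver
          ((cg_of_near hni).sub (IsOver.cg_const (w := w) βj))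
    rw [hD₁α, show (derivative D).eval α * (βj - βi) * pb -
      (pb * -(derivative D).eval α) * (βi - βj) = 0 by ring, ← hkey, ← sub_mul] at h5
    unfold Cg at h5 ⊢
    rw [C_0, map_zero, sub_zero, map_mul, hwj, mul_one] at h5
    exact h5

/-- The product of the three values of `PZ` over a fibre is the square of a fixed element. -/
lemma prod_PZ {F : Type*} [Field F] [IsAlgClosed F] {g D : F[X]} {Z : Finset F} {τ : F →+* F}
    {α βi βj βl : F} (hij : βi ≠ βj) (hil : βi ≠ βl) (hjl : βj ≠ βl)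
    (hfac : g - C α = (X - C βi) * (X - C βj) * (X - C βl))
    (heven : ∀ α, Even (Z.filter fun β => g.eval β = α).card) (hZ : ∀ β ∈ Z, τ β = β)
    (hg : g.map τ = g) (hD : D.map τ = D) (hα : τ α = α) :
    ∃ E, τ E = E ∧ PZ g D Z βi * PZ g D Z βj * PZ g D Z βl = E ^ 2 := by
  have hev : ∀ β, g.eval β - α = (β - βi) * (β - βj) * (β - βl) := by
    intro β
    have := congrArg (fun p => p.eval β) hfac
    simpa using this
  have ei : g.eval βi = α := by
    have := hev βi
    rw [sub_self, zero_mul, zero_mul] at this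
    exact sub_eq_zero.mp this
  have ej : g.eval βj = α := by
    have := hev βj
    rw [sub_self, mul_zero, zero_mul] at this
    exact sub_eq_zero.mp this
  have el : g.eval βl = α := by
    have := hev βl
    rw [sub_self, mul_zero] at this
    exact sub_eq_zero.mp this
  have hτev : ∀ (p : F[X]) (x : F), p.map τ = p → τ x = x → τ (p.eval x) = p.eval x := by
    intro p x hp hx
    have := eval₂_hom (p := p) τ x
    rw [← this, ← eval_map, hp, hx]
  set Zf := Z.filter (fun β => g.eval β ≠ α) with hZf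
  set d := -(derivative D).eval α with hd
  have hτd : τ d = d := by
    rw [hd, map_neg, hτev (derivative D) α (by rw [← derivative_map, hD]) hα]
  -- the part away from the fibre
  have hevenf : ∀ a, Even (Zf.filter fun β => g.eval β = a).card := by
    intro a
    by_cases ha : a = α
    · subst ha
      have : Zf.filter (fun β => g.eval β = a) = ∅ := by
        apply Finset.filter_false_of_mem
        intro β hβ
        rw [hZf, Finset.mem_filter] at hβ
        exact hβ.2
      rw [this]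
      exact ⟨0, rfl⟩
    · have : Zf.filter (fun β => g.eval β = a) = Z.filter (fun β => g.eval β = a) := by
        rw [hZf, Finset.filter_filter]
        apply Finset.filter_congr
        intro β _
        constructor
        · exact fun h => h.2
        · intro h
          exact ⟨by rw [h]; exact ha, h⟩
      rw [this]
      exact heven a
  set E₁ : F := ∏ a ∈ Zf.image (fun β => g.eval β),
    (α - a) ^ ((Zf.filter fun β => g.eval β = a).card / 2) with hE₁
  have hτE₁ : τ E₁ = E₁ := by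
    rw [hE₁, map_prod]
    apply Finset.prod_congr rfl
    intro a ha
    obtain ⟨β, hβ, rfl⟩ := Finset.mem_image.mp ha
    have hβZ : β ∈ Z := (Finset.mem_filter.mp hβ).1
    rw [map_pow, map_sub, hα, hτev g β hg (hZ β hβZ)]
  have hprod : (∏ β ∈ Zf, (βi - β)) * (∏ β ∈ Zf, (βj - β)) * (∏ β ∈ Zf, (βl - β)) = E₁ ^ 2 := by
    rw [← Finset.prod_mul_distrib, ← Finset.prod_mul_distrib, hE₁,
      ← prod_even_fibres Zf (fun β => g.eval β) (fun a => α - a) hevenf]
    apply Finset.prod_congr rfl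
    intro β _
    linear_combination hev β
  -- the part in the fibre
  have hfib : Z.filter (fun β => g.eval β = α) =
      ({βi, βj, βl} : Finset F).filter (fun β => β ∈ Z) := by
    ext β
    simp only [Finset.mem_filter, Finset.mem_insert, Finset.mem_singleton]
    constructor
    · rintro ⟨h1, h3⟩
      refine ⟨?_, h1⟩
      have h4 := hev β
      rw [h3, sub_self, eq_comm, mul_eq_zero, mul_eq_zero] at h4
      rcases h4 with (h4 | h4) | h4
      · exact Or.inl (sub_eq_zero.mp h4)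
      · exact Or.inr (Or.inl (sub_eq_zero.mp h4))
      · exact Or.inr (Or.inr (sub_eq_zero.mp h4))
    · rintro ⟨h1, h3⟩
      refine ⟨h3, ?_⟩
      rcases h1 with rfl | rfl | rfl
      · exact ei
      · exact ej
      · exact el
  have hpar := heven α
  rw [hfib] at hpar
  obtain ⟨e, hτe, he⟩ : ∃ e, τ e = e ∧ (if βi ∈ Z then d else 1) * (if βj ∈ Z then d else 1) *
      (if βl ∈ Z then d else 1) = e ^ 2 := by
    by_cases hi : βi ∈ Z <;> by_cases hj : βj ∈ Z <;> by_cases hl : βl ∈ Z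
    all_goals simp only [Finset.filter_insert, Finset.filter_singleton, hi, hj, hl, if_true,
      if_false] at hpar ⊢
    · rw [Finset.card_insert_of_notMem (by simp [hij, hil]),
        Finset.card_insert_of_notMem (by simp [hjl]), Finset.card_singleton] at hpar
      exact absurd hpar (by decide)
    · exact ⟨d, hτd, by ring⟩
    · exact ⟨d, hτd, by ring⟩
    · rw [Finset.card_insert_of_notMem (by simp)] at hpar
      simp at hpar
    · exact ⟨d, hτd, by ring⟩
    · rw [Finset.card_insert_of_notMem (by simp)] at hpar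
      simp at hpar
    · rw [Finset.card_singleton] at hpar
      exact absurd hpar (by decide)
    · exact ⟨1, map_one τ, by ring⟩
  refine ⟨E₁ * e, by rw [map_mul, hτE₁, hτe], ?_⟩
  rw [PZ, PZ, PZ, ei, ej, el, mul_pow, ← hprod, ← he]
  ring

lemma map_PZ {F : Type*} [Field F] {g D : F[X]} {Z : Finset F} {τ : F →+* F}
    {β' : F} (hZ : ∀ β ∈ Z, τ β = β) (hβ' : τ β' = β')
    (hg : g.map τ = g) (hD : D.map τ = D) : τ (PZ g D Z β') = PZ g D Z β' := by
  have hτev : ∀ (p : F[X]) (x : F), p.map τ = p → τ x = x → τ (p.eval x) = p.eval x := by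
    intro p x hp hx
    have := eval₂_hom (p := p) τ x
    rw [← this, ← eval_map, hp, hx]
  rw [PZ, map_mul, map_prod]
  congr 1
  · apply Finset.prod_congr rfl
    intro β hβ
    rw [map_sub, hβ', hZ β (Finset.mem_filter.mp hβ).1]
  · split_ifs
    · rw [map_neg, hτev (derivative D) _ (by rw [← derivative_map, hD]) (hτev g β' hg hβ')]
    · rw [map_one]

lemma PZ_ne_zero {F : Type*} [Field F] {g D : F[X]} {Z : Finset F}
    {β' : F} (hD' : (derivative D).eval (g.eval β') ≠ 0) : PZ g D Z β' ≠ 0 := by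
  rw [PZ]
  apply mul_ne_zero
  · apply Finset.prod_ne_zero_iff.mpr
    intro β hβ
    apply sub_ne_zero.mpr
    rintro rfl
    rw [Finset.mem_filter] at hβ
    exact hβ.2 rfl
  · split_ifs
    · exact neg_ne_zero.mpr hD'
    · exact one_ne_zero

/-- Parity of the intersection of a set with a fibre. -/
lemma mem_parity {F : Type*} [Field F] {g : F[X]} {Z : Finset F}
    {α βi βj βl : F} (hij : βi ≠ βj) (hil : βi ≠ βl) (hjl : βj ≠ βl)
    (hfac : g - C α = (X - C βi) * (X - C βj) * (X - C βl))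
    (heven : Even (Z.filter fun β => g.eval β = α).card) :
    βj ∈ Z ↔ ¬ (βi ∈ Z ↔ βl ∈ Z) := by
  have hev : ∀ β, g.eval β - α = (β - βi) * (β - βj) * (β - βl) := by
    intro β
    have := congrArg (fun p => p.eval β) hfac
    simpa using this
  have ei : g.eval βi = α := by
    have := hev βi
    rw [sub_self, zero_mul, zero_mul] at this
    exact sub_eq_zero.mp this
  have ej : g.eval βj = α := by
    have := hev βj
    rw [sub_self, mul_zero, zero_mul] at this
    exact sub_eq_zero.mp this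
  have el : g.eval βl = α := by
    have := hev βl
    rw [sub_self, mul_zero] at this
    exact sub_eq_zero.mp this
  have hfib : Z.filter (fun β => g.eval β = α) =
      ({βi, βj, βl} : Finset F).filter (fun β => β ∈ Z) := by
    ext β
    simp only [Finset.mem_filter, Finset.mem_insert, Finset.mem_singleton]
    constructor
    · rintro ⟨h1, h3⟩
      refine ⟨?_, h1⟩
      have h4 := hev β
      rw [h3, sub_self, eq_comm, mul_eq_zero, mul_eq_zero] at h4
      rcases h4 with (h4 | h4) | h4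
      · exact Or.inl (sub_eq_zero.mp h4)
      · exact Or.inr (Or.inl (sub_eq_zero.mp h4))
      · exact Or.inr (Or.inr (sub_eq_zero.mp h4))
    · rintro ⟨h1, h3⟩
      refine ⟨h3, ?_⟩
      rcases h1 with rfl | rfl | rfl
      · exact ei
      · exact ej
      · exact el
  rw [hfib] at heven
  by_cases hi : βi ∈ Z <;> by_cases hj : βj ∈ Z <;> by_cases hl : βl ∈ Z
  all_goals simp only [Finset.filter_insert, Finset.filter_singleton, hi, hj, hl, if_true,
    if_false] at heven ⊢
  all_goals try tauto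
  · exfalso
    rw [Finset.card_insert_of_notMem (by simp [hij, hil]),
      Finset.card_insert_of_notMem (by simp [hjl]), Finset.card_singleton] at heven
    exact absurd heven (by decide)
  · exfalso
    rw [Finset.card_insert_of_notMem (by simp)] at heven
    simp at heven
  · exfalso
    rw [Finset.card_insert_of_notMem (by simp)] at heven
    simp at heven
  · exfalso
    rw [Finset.card_singleton] at heven
    exact absurd heven (by decide)

end Tower

end Pool.Agent.Lib.MP_89bcae_ag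

end

section

/-!
# An automorphism which acts on the roots of a polynomial as Frobenius on the roots of its reduction
-/

open Polynomial

namespace Pool.Agent.Lib.MP_89bcae_ag

set_option linter.unusedSectionVars false
set_option linter.style.haveILetI false

variable {R K F κ Fκ : Type*} [CommRing R] [IsDomain R] [IsIntegrallyClosed R] [Field K]
  [Algebra R K] [IsFractionRing R K] [Field F] [Algebra K F] [Algebra R F] [IsScalarTower R K F]
  [IsAlgClosed F] [Algebra.IsAlgebraic K F]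
  [Field κ] [Fintype κ] [Field Fκ] [Algebra κ Fκ] [Algebra.IsAlgebraic κ Fκ] [IsAlgClosed Fκ]

/-- A root of a polynomial with invertible leading coefficient is integral. -/
lemma integral_root14 {f : R[X]} (hu : IsUnit f.leadingCoeff) {x : F} (hx : aeval x f = 0) :
    IsIntegral R x := by
  obtain ⟨u, hu⟩ := hu
  refine ⟨C (↑u⁻¹ : R) * f, ?_, ?_⟩
  · rw [Monic, leadingCoeff_mul, leadingCoeff_C, ← hu]
    exact u.inv_mul
  · rw [eval₂_mul]
    change _ * aeval x f = 0
    rw [hx, mul_zero]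

/-- The reduction of a root is a root. -/
lemma red_root14 {π : R →+* κ} {ρ : integralClosure R F →+* Fκ}
    (hρ : ∀ r, ρ (algebraMap R (integralClosure R F) r) = algebraMap κ Fκ (π r))
    {f : R[X]} {x : F} (hi : IsIntegral R x) (hx : aeval x f = 0) :
    aeval (ρ ⟨x, hi⟩) (f.map π) = 0 := by
  have h1 : aeval (⟨x, hi⟩ : integralClosure R F) f = 0 := by
    apply Subtype.ext
    have h2 : ((aeval (⟨x, hi⟩ : integralClosure R F) f : integralClosure R F) : F) = aeval x f := by
      rw [← Subalgebra.coe_val, ← aeval_algHom_apply]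
      rfl
    rw [h2, hx]
    rfl
  rw [aeval_def, eval₂_map]
  have h2 : (algebraMap κ Fκ).comp π = ρ.comp (algebraMap R (integralClosure R F)) :=
    RingHom.ext fun r => (hρ r).symm
  rw [h2, ← hom_eval₂]
  change ρ (aeval (⟨x, hi⟩ : integralClosure R F) f) = 0
  rw [h1, map_zero]

variable (F) in
/-- The polynomial is separable if its reduction is. -/
lemma separable_of_red14 [FaithfulSMul R F] {π : R →+* κ} (hπ : Function.Surjective π) {f : R[X]}
    (hu : IsUnit f.leadingCoeff) (hs : (f.map π).Separable) :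
    (f.map (algebraMap R K)).Separable := by
  obtain ⟨ρ, hρ⟩ := exists_red14 (F := F) (Fκ := AlgebraicClosure κ) π hπ
  rw [← separable_map (algebraMap K F), Polynomial.map_map, ← IsScalarTower.algebraMap_eq,
    Polynomial.Separable, isCoprime_iff_aeval_ne_zero_of_isAlgClosed (k := F) F]
  intro a
  by_contra hcon
  push Not at hcon
  obtain ⟨h1, h2⟩ := hcon
  rw [← eval_map_algebraMap, Polynomial.map_map, Algebra.algebraMap_self, RingHom.id_comp,
    eval_map_algebraMap] at h1
  rw [derivative_map, ← eval_map_algebraMap, Polynomial.map_map, Algebra.algebraMap_self,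
    RingHom.id_comp, eval_map_algebraMap] at h2
  have hi := integral_root14 hu h1
  have h3 := red_root14 hρ hi h1
  have h4 := red_root14 hρ hi h2
  rw [← derivative_map] at h4
  obtain ⟨a', b', hab⟩ := hs
  have h5 := congrArg (aeval (ρ ⟨a, hi⟩)) hab
  rw [map_add, map_mul, map_mul, h3, h4, mul_zero, mul_zero, add_zero, map_one] at h5
  exact zero_ne_one h5

/-- A reduction map and a root with a given reduction. -/
lemma exists_root_red14 [FaithfulSMul R F] {π : R →+* κ} (hπ : Function.Surjective π) {f : R[X]}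
    (hu : IsUnit f.leadingCoeff) (hirr : Irreducible (f.map π)) {β' : Fκ}
    (hβ' : aeval β' (f.map π) = 0) :
    ∃ (ρ : integralClosure R F →+* Fκ) (β : F) (hi : IsIntegral R β),
      (∀ r, ρ (algebraMap R (integralClosure R F) r) = algebraMap κ Fκ (π r)) ∧
      aeval β f = 0 ∧ ρ ⟨β, hi⟩ = β' := by
  obtain ⟨ρ, hρ⟩ := exists_red14 (F := F) (Fκ := Fκ) π hπ
  have hdeg : (f.map (algebraMap R F)).degree ≠ 0 := by
    have h1 : (f.map (algebraMap R F)).natDegree = f.natDegree :=
      natDegree_map_eq_of_injective (FaithfulSMul.algebraMap_injective R F) f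
    have h2 : 0 < f.natDegree := lt_of_lt_of_le hirr.natDegree_pos natDegree_map_le
    intro h3
    have h4 := natDegree_eq_zero_iff_degree_le_zero.mpr h3.le
    omega
  obtain ⟨β, hβ⟩ := IsAlgClosed.exists_root _ hdeg
  have hβ2 : aeval β f = 0 := by
    rw [IsRoot.def, eval_map_algebraMap] at hβ
    exact hβ
  have hi := integral_root14 hu hβ2
  obtain ⟨m, -, hm⟩ := exists_frob8_pow hirr hβ' (red_root14 hρ hi hβ2)
  refine ⟨(((frob8 κ Fκ ^ m)⁻¹ : Fκ ≃ₐ[κ] Fκ) : Fκ →+* Fκ).comp ρ, β, hi, fun r => ?_, hβ2, ?_⟩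
  · rw [RingHom.comp_apply, hρ]
    exact AlgEquiv.commutes _ _
  · rw [RingHom.comp_apply, hm]
    change ((frob8 κ Fκ ^ m)⁻¹ * (frob8 κ Fκ ^ m)) β' = β'
    rw [inv_mul_cancel]
    rfl

open scoped Classical in
/-- **The automorphism.** -/
theorem frob_spec14 {π : R →+* κ} (hπ : Function.Surjective π) (h2 : (2 : κ) ≠ 0) {f : R[X]}
    (hu : IsUnit f.leadingCoeff) {N : ℕ} (hN : f.natDegree = N) (hirr : Irreducible (f.map π))
    {β' : Fκ} (hβ' : aeval β' (f.map π) = 0) :
    ∃ (φ : F ≃ₐ[K] F) (β : F), aeval β f = 0 ∧ (∀ γ : F, aeval γ f = 0 → ∃ i, (φ ^ i) β = γ) ∧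
      (∀ i, (φ ^ i) β = β ↔ N ∣ i) ∧
      ∀ i j : ℕ, Moves (fun x => (frob8 κ Fκ ^ N) x)
          (((frob8 κ Fκ ^ i) β' - β') * ((frob8 κ Fκ ^ i) β' - (frob8 κ Fκ ^ j) β')) →
        Moves (fun x => (φ ^ N) x) (((φ ^ i) β - β) * ((φ ^ i) β - (φ ^ j) β)) := by
  have hinjR : Function.Injective (algebraMap R F) := by
    rw [IsScalarTower.algebraMap_eq R K F]
    exact (algebraMap K F).injective.comp (IsFractionRing.injective R K)
  have hfaith : FaithfulSMul R F := (faithfulSMul_iff_algebraMap_injective R F).mpr hinjR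
  obtain ⟨ρ, β, hi, hρ, hβ, hρβ⟩ := exists_root_red14 (F := F) hπ hu hirr hβ'
  have hsepκ : (f.map π).Separable := PerfectField.separable_of_irreducible hirr
  have hsep : (f.map (algebraMap R K)).Separable := separable_of_red14 F hπ hu hsepκ
  have h2F : (2 : F) ≠ 0 := by
    intro h0
    have h1 : (2 : R) = 0 := hinjR (by rw [map_ofNat, map_zero]; exact h0)
    apply h2
    rw [← map_ofNat π, h1, map_zero]
  have hf0 : f ≠ 0 := by
    rintro rfl
    rw [Polynomial.map_zero] at hirr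
    exact hirr.ne_zero rfl
  have hfF0 : f.map (algebraMap R F) ≠ 0 := (Polynomial.map_ne_zero_iff hinjR).mpr hf0
  -- the roots
  set B : Finset F := (f.map (algebraMap R F)).roots.toFinset with hB
  have hmemB : ∀ γ, γ ∈ B ↔ aeval γ f = 0 := by
    intro γ
    rw [hB, Multiset.mem_toFinset, mem_roots hfF0, IsRoot.def, eval_map_algebraMap]
  have hBsep : ∀ γ ∈ B, γ ∈ separableClosure K F := by
    intro γ hγ
    rw [mem_separableClosure_iff]
    apply Separable.of_dvd hsep
    apply minpoly.dvd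
    rw [aeval_map_algebraMap]
    exact (hmemB γ).mp hγ
  have hBint : ∀ γ ∈ B, IsIntegral R γ := fun γ hγ => integral_root14 hu ((hmemB γ).mp hγ)
  -- the square roots
  have hsq : ∀ x : F, ∃ y, y ^ 2 = x := fun x => IsAlgClosed.exists_pow_nat_eq x (by norm_num)
  choose sq hsq using hsq
  let T : Finset F := (B ×ˢ (B ×ˢ B)).image fun p => sq ((p.1 - p.2.1) * (p.1 - p.2.2))
  obtain ⟨φ, M, hSM, hM⟩ := exists_frob_lift14 (κ := κ) π hπ ρ hρ (B ∪ T) (by
    intro x hx
    rw [Finset.mem_union] at hx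
    rcases hx with hx | hx
    · exact mem_separableClosure_iff.mp (hBsep x hx)
    · rw [Finset.mem_image] at hx
      obtain ⟨⟨a, b, c⟩, hp, rfl⟩ := hx
      rw [Finset.mem_product, Finset.mem_product] at hp
      obtain ⟨ha, hb, hc⟩ := hp
      set x := (a - b) * (a - c) with hx
      have hxs : x ∈ separableClosure K F :=
        mul_mem (sub_mem (hBsep a ha) (hBsep b hb)) (sub_mem (hBsep a ha) (hBsep c hc))
      by_cases hx0 : x = 0
      · have h3 : sq x = 0 := by
          have := hsq x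
          rw [hx0] at this ⊢
          exact pow_eq_zero_iff (two_ne_zero) |>.mp this
        change IsSeparable K (sq x)
        rw [h3]
        exact mem_separableClosure_iff.mp (zero_mem _)
      · change IsSeparable K (sq x)
        apply IsSeparable.of_algebra_isSeparable_of_isSeparable K (E := separableClosure K F)
        have h3 : (X ^ 2 - C (⟨x, hxs⟩ : separableClosure K F)).Separable := by
          apply separable_X_pow_sub_C
          · intro h4
            apply h2F
            have h5 := congrArg (algebraMap (separableClosure K F) F) h4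
            rw [map_natCast, map_zero] at h5
            exact_mod_cast h5
          · intro h4
            exact hx0 (congrArg Subtype.val h4)
        apply Separable.of_dvd h3
        apply minpoly.dvd
        rw [map_sub, map_pow, aeval_X, aeval_C, hsq]
        exact sub_self _)
  have hMi : ∀ (i : ℕ) (x : F), x ∈ M → ∀ hx : IsIntegral R x, (φ ^ i) x ∈ M ∧
      ∃ hx' : IsIntegral R ((φ ^ i) x), ρ ⟨(φ ^ i) x, hx'⟩ = (frob8 κ Fκ ^ i) (ρ ⟨x, hx⟩) := by
    intro i
    induction i with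
    | zero => exact fun x hxM hx => ⟨hxM, hx, rfl⟩
    | succ i ih =>
      intro x hxM hx
      obtain ⟨h3, h4, h5⟩ := ih x hxM hx
      obtain ⟨h6, h7⟩ := hM _ h3
      obtain ⟨h8, h9⟩ := h7 h4
      have h10 : (φ ^ (i + 1)) x = φ ((φ ^ i) x) := by rw [pow_succ', AlgEquiv.mul_apply]
      refine ⟨by rw [h10]; exact h6, by rw [h10]; exact h8, ?_⟩
      have h11 : ρ ⟨(φ ^ (i + 1)) x, by rw [h10]; exact h8⟩ = ρ ⟨φ ((φ ^ i) x), h8⟩ := by
        congr 1
        exact Subtype.ext h10
      rw [h11, h9, h5, pow_succ' (frob8 κ Fκ), AlgEquiv.mul_apply, frob8_apply,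
        Nat.card_eq_fintype_card]
  have hβB : β ∈ B := (hmemB β).mpr hβ
  have hβM : β ∈ M := hSM β (Finset.mem_union_left _ hβB)
  have hroot : ∀ i, (φ ^ i) β ∈ B := by
    intro i
    rw [hmemB]
    have h3 : aeval ((φ ^ i) β) (f.map (algebraMap R K)) = 0 := by
      rw [← AlgEquiv.coe_toAlgHom (φ ^ i), aeval_algHom_apply, aeval_map_algebraMap, hβ, map_zero]
    rwa [aeval_map_algebraMap] at h3
  have hred : ∀ i, ρ ⟨(φ ^ i) β, hBint _ (hroot i)⟩ = (frob8 κ Fκ ^ i) β' := by
    intro i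
    obtain ⟨-, h4, h5⟩ := hMi i β hβM hi
    rw [h5, hρβ]
  have hdegκ : (f.map π).natDegree = N := by
    rw [← hN]
    exact natDegree_map_of_leadingCoeff_ne_zero π (hu.map π).ne_zero
  have hmin : (minpoly κ β').natDegree = N := by
    rw [← minpoly.eq_of_irreducible hirr hβ', natDegree_mul_leadingCoeff_inv _ hirr.ne_zero, hdegκ]
  have hiff : ∀ i, (frob8 κ Fκ ^ i) β' = β' ↔ N ∣ i := fun i => by
    rw [frob8_pow_eq_iff, hmin]
  have hBcard : B.card ≤ N := by
    rw [← hN, ← natDegree_map_eq_of_injective hinjR f]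
    exact (Multiset.toFinset_card_le _).trans (card_roots' _)
  -- the orbit
  have horb : ∀ γ ∈ B, ∃ i < N, (φ ^ i) β = γ := by
    have h3 : ((Finset.range N).image fun i => (φ ^ i) β) = B := by
      apply Finset.eq_of_subset_of_card_le
      · intro γ hγ
        rw [Finset.mem_image] at hγ
        obtain ⟨i, -, rfl⟩ := hγ
        exact hroot i
      · rw [Finset.card_image_of_injOn, Finset.card_range]
        · exact hBcard
        · intro a ha b hb hab
          have ha' := Finset.mem_range.mp ha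
          have hb' := Finset.mem_range.mp hb
          have h4 : (frob8 κ Fκ ^ a) β' = (frob8 κ Fκ ^ b) β' := by
            rw [← hred, ← hred]
            congr 1
            exact Subtype.ext hab
          wlog hle : a ≤ b generalizing a b
          · exact (this hb ha hab.symm hb' ha' h4.symm (by omega)).symm
          have h5 : (frob8 κ Fκ ^ (b - a)) β' = β' := by
            apply (frob8 κ Fκ ^ a).injective
            rw [← AlgEquiv.mul_apply, ← pow_add, Nat.add_sub_cancel' hle]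
            exact h4.symm
          rw [hiff] at h5
          have := Nat.eq_zero_of_dvd_of_lt h5 (by omega)
          omega
    intro γ hγ
    rw [← h3, Finset.mem_image] at hγ
    obtain ⟨i, hi, hiγ⟩ := hγ
    exact ⟨i, Finset.mem_range.mp hi, hiγ⟩
  refine ⟨φ, β, hβ, fun γ hγ => ?_, fun i => ?_, fun i j hm s hs hsφ => ?_⟩
  · obtain ⟨i, -, hi⟩ := horb γ ((hmemB γ).mpr hγ)
    exact ⟨i, hi⟩
  · have hper : (φ ^ N) β = β := by
      obtain ⟨i, hiN, hi'⟩ := horb _ (hroot N)
      have h3 : (frob8 κ Fκ ^ i) β' = (frob8 κ Fκ ^ N) β' := by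
        rw [← hred, ← hred]
        congr 1
        exact Subtype.ext hi'
      rw [(hiff N).mpr dvd_rfl, hiff] at h3
      have h4 := Nat.eq_zero_of_dvd_of_lt h3 hiN
      rw [h4, pow_zero] at hi'
      exact hi'.symm
    constructor
    · intro h3
      rw [← hiff, ← hred, ← hρβ]
      congr 1
      exact Subtype.ext h3
    · rintro ⟨m, rfl⟩
      induction m with
      | zero => rfl
      | succ m ih => rw [Nat.mul_succ, pow_add, AlgEquiv.mul_apply, hper, ih]
  · -- the square roots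
    set x := ((φ ^ i) β - β) * ((φ ^ i) β - (φ ^ j) β) with hx
    have h3 : (φ ^ N) (sq x) = sq x := by
      have h4 : s ^ 2 = sq x ^ 2 := by rw [hs, hsq]
      rcases sq_eq_sq_iff_eq_or_eq_neg.mp h4 with h5 | h5
      · rw [← h5]
        exact hsφ
      · change (φ ^ N) s = s at hsφ
        rw [h5, map_neg] at hsφ
        exact neg_injective hsφ
    have h4 : sq x ∈ M := by
      apply hSM
      apply Finset.mem_union_right
      rw [Finset.mem_image]
      refine ⟨((φ ^ i) β, β, (φ ^ j) β), ?_, rfl⟩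
      rw [Finset.mem_product, Finset.mem_product]
      exact ⟨hroot i, hβB, hroot j⟩
    have h5 : IsIntegral R (sq x) := by
      apply IsIntegral.of_pow (n := 2) (by norm_num)
      rw [hsq]
      exact ((hBint _ (hroot i)).sub hi).mul ((hBint _ (hroot i)).sub (hBint _ (hroot j)))
    obtain ⟨-, h6, h7⟩ := hMi N _ h4 h5
    refine hm (ρ ⟨sq x, h5⟩) ?_ ?_
    · rw [← map_pow, ← hred i, ← hred j, ← hρβ, ← map_sub, ← map_sub, ← map_mul]
      congr 1
      exact Subtype.ext (hsq x)
    · change (frob8 κ Fκ ^ N) (ρ ⟨sq x, h5⟩) = ρ ⟨sq x, h5⟩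
      rw [← h7]
      congr 1
      exact Subtype.ext h3

end Pool.Agent.Lib.MP_89bcae_ag

end

section

/-!
# Frobenius elements and the action of the Galois group on the pairs of roots
-/

open Polynomial

namespace Pool.Agent.Lib.MP_89bcae_ag

set_option linter.unusedSectionVars false
set_option linter.style.haveILetI false

section Lift

variable {R K F κ Fκ : Type*} [CommRing R] [IsDomain R] [IsIntegrallyClosed R] [Field K]
  [Algebra R K] [IsFractionRing R K] [Field F] [Algebra K F] [Algebra R F] [IsScalarTower R K F]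
  [IsAlgClosed F] [Algebra.IsAlgebraic K F]
  [Field κ] [Fintype κ] [Field Fκ] [Algebra κ Fκ] [Algebra.IsAlgebraic κ Fκ] [IsAlgClosed Fκ]

/-- Two roots with the same reduction, which is a simple root of the reduced polynomial, are
equal. -/
lemma eq_of_red14 {π : R →+* κ} {ρ : integralClosure R F →+* Fκ}
    (hρ : ∀ r, ρ (algebraMap R (integralClosure R F) r) = algebraMap κ Fκ (π r))
    {f : R[X]} {x y : F} (hx : IsIntegral R x) (hy : IsIntegral R y) (hfx : aeval x f = 0)
    (hfy : aeval y f = 0) (hxy : ρ ⟨x, hx⟩ = ρ ⟨y, hy⟩)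
    (hs : aeval (ρ ⟨x, hx⟩) (derivative (f.map π)) ≠ 0) : x = y := by
  by_contra hne
  apply hs
  have hev : ∀ z : integralClosure R F, ((aeval z f : integralClosure R F) : F) =
      aeval (z : F) f := by
    intro z
    rw [← Subalgebra.coe_val, ← aeval_algHom_apply]
  have h1 : (f.map (algebraMap R (integralClosure R F))).IsRoot ⟨x, hx⟩ := by
    rw [IsRoot.def, eval_map_algebraMap]
    exact Subtype.ext ((hev _).trans hfx)
  have h2 : (f.map (algebraMap R (integralClosure R F))).eval ⟨y, hy⟩ = 0 := by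
    rw [eval_map_algebraMap]
    exact Subtype.ext ((hev _).trans hfy)
  obtain ⟨q, hq⟩ := dvd_iff_isRoot.mpr h1
  have h3 : q.eval ⟨y, hy⟩ = 0 := by
    rw [hq, eval_mul, eval_sub, eval_X, eval_C] at h2
    rcases mul_eq_zero.mp h2 with h | h
    · exact absurd (congrArg Subtype.val (sub_eq_zero.mp h)).symm hne
    · exact h
  have hcomp : (algebraMap κ Fκ).comp π = ρ.comp (algebraMap R (integralClosure R F)) :=
    RingHom.ext fun r => (hρ r).symm
  have h4 : (f.map π).map (algebraMap κ Fκ) = (X - C (ρ ⟨x, hx⟩)) * q.map ρ := by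
    rw [Polynomial.map_map, hcomp, ← Polynomial.map_map, hq, Polynomial.map_mul,
      Polynomial.map_sub, map_X, map_C]
  rw [← eval_map_algebraMap, ← derivative_map, h4, derivative_mul, derivative_sub, derivative_X,
    derivative_C, sub_zero, one_mul, eval_add, eval_mul, eval_sub, eval_X, eval_C, sub_self,
    zero_mul, add_zero, hxy, eval_map, eval₂_at_apply, h3, map_zero]

/-- Every root of the reduced polynomial is the reduction of a root. -/
lemma exists_lift_root14 [FaithfulSMul R F] {π : R →+* κ} {ρ : integralClosure R F →+* Fκ}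
    (hρ : ∀ r, ρ (algebraMap R (integralClosure R F) r) = algebraMap κ Fκ (π r))
    {f : R[X]} (hu : IsUnit f.leadingCoeff) {β : Fκ} (hβ : aeval β (f.map π) = 0) :
    ∃ (x : F) (hx : IsIntegral R x), aeval x f = 0 ∧ ρ ⟨x, hx⟩ = β := by
  classical
  have hinjR : Function.Injective (algebraMap R F) := FaithfulSMul.algebraMap_injective R F
  have hf0 : f ≠ 0 := by
    rintro rfl
    rw [leadingCoeff_zero] at hu
    exact not_isUnit_zero hu
  have hfF0 : f.map (algebraMap R F) ≠ 0 := (Polynomial.map_ne_zero_iff hinjR).mpr hf0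
  have hroot : ∀ x ∈ (f.map (algebraMap R F)).roots, aeval x f = 0 := by
    intro x hx
    rw [mem_roots hfF0, IsRoot.def, eval_map_algebraMap] at hx
    exact hx
  obtain ⟨s, hs⟩ : ∃ s : Multiset (integralClosure R F),
      s.map (fun z : integralClosure R F => (z : F)) = (f.map (algebraMap R F)).roots := by
    refine ⟨(f.map (algebraMap R F)).roots.attach.map fun x =>
      ⟨x.1, integral_root14 hu (hroot x.1 x.2)⟩, ?_⟩
    rw [Multiset.map_map]
    exact Multiset.attach_map_val _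
  have h1 : f.map (algebraMap R (integralClosure R F)) =
      C (algebraMap R (integralClosure R F) f.leadingCoeff) * (s.map fun z => X - C z).prod := by
    apply Polynomial.map_injective (algebraMap (integralClosure R F) F)
      (FaithfulSMul.algebraMap_injective _ _)
    rw [Polynomial.map_map, ← IsScalarTower.algebraMap_eq R (integralClosure R F) F,
      Polynomial.map_mul, map_C, ← IsScalarTower.algebraMap_apply R (integralClosure R F) F]
    have h2 := (IsAlgClosed.splits (f.map (algebraMap R F))).eq_prod_roots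
    rw [leadingCoeff_map_of_injective hinjR] at h2
    rw [Polynomial.map_multiset_prod, Multiset.map_map]
    conv_lhs => rw [h2, ← hs, Multiset.map_map]
    congr 3
    funext z
    simp only [Function.comp_apply, Polynomial.map_sub, map_X, map_C]
    rfl
  have hcomp : (algebraMap κ Fκ).comp π = ρ.comp (algebraMap R (integralClosure R F)) :=
    RingHom.ext fun r => (hρ r).symm
  have h3 : (f.map π).map (algebraMap κ Fκ) =
      C (ρ (algebraMap R (integralClosure R F) f.leadingCoeff)) *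
        (s.map fun z => X - C (ρ z)).prod := by
    rw [Polynomial.map_map, hcomp, ← Polynomial.map_map, h1, Polynomial.map_mul, map_C,
      Polynomial.map_multiset_prod, Multiset.map_map]
    congr 3
    funext z
    simp only [Function.comp_apply, Polynomial.map_sub, map_X, map_C]
  have h4 : (s.map fun z => β - ρ z).prod = 0 := by
    rw [← eval_map_algebraMap, h3, eval_mul, eval_C, eval_multiset_prod, Multiset.map_map] at hβ
    rcases mul_eq_zero.mp hβ with h | h
    · rw [hρ, map_eq_zero] at h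
      exact absurd h (hu.map π).ne_zero
    · rw [← h]
      congr 2
      funext z
      simp
  rw [Multiset.prod_eq_zero_iff, Multiset.mem_map] at h4
  obtain ⟨z, hz, hz0⟩ := h4
  refine ⟨z, z.2, ?_, (sub_eq_zero.mp hz0).symm⟩
  apply hroot
  rw [← hs]
  exact Multiset.mem_map_of_mem _ hz

/-- **The Frobenius element.** -/
theorem exists_frob_roots14 {π : R →+* κ} (hπ : Function.Surjective π) {f : R[X]}
    (hu : IsUnit f.leadingCoeff) (hsep : (f.map (algebraMap R K)).Separable) :
    ∃ (ρ : integralClosure R F →+* Fκ) (φ : F ≃ₐ[K] F),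
      (∀ r, ρ (algebraMap R (integralClosure R F) r) = algebraMap κ Fκ (π r)) ∧
      ∀ (i : ℕ) (x : F), aeval x f = 0 → ∀ hx : IsIntegral R x, aeval ((φ ^ i) x) f = 0 ∧
        ∃ hx' : IsIntegral R ((φ ^ i) x), ρ ⟨(φ ^ i) x, hx'⟩ = (frob8 κ Fκ ^ i) (ρ ⟨x, hx⟩) := by
  classical
  have hinjR : Function.Injective (algebraMap R F) := by
    rw [IsScalarTower.algebraMap_eq R K F]
    exact (algebraMap K F).injective.comp (IsFractionRing.injective R K)
  have hfaith : FaithfulSMul R F := (faithfulSMul_iff_algebraMap_injective R F).mpr hinjR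
  obtain ⟨ρ, hρ⟩ := exists_red14 (F := F) (Fκ := Fκ) π hπ
  have hf0 : f ≠ 0 := by
    rintro rfl
    rw [leadingCoeff_zero] at hu
    exact not_isUnit_zero hu
  have hfF0 : f.map (algebraMap R F) ≠ 0 := (Polynomial.map_ne_zero_iff hinjR).mpr hf0
  set B : Finset F := (f.map (algebraMap R F)).roots.toFinset with hB
  have hmemB : ∀ γ, γ ∈ B ↔ aeval γ f = 0 := by
    intro γ
    rw [hB, Multiset.mem_toFinset, mem_roots hfF0, IsRoot.def, eval_map_algebraMap]
  obtain ⟨φ, M, hSM, hM⟩ := exists_frob_lift14 (κ := κ) π hπ ρ hρ B (by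
    intro γ hγ
    apply Separable.of_dvd hsep
    apply minpoly.dvd
    rw [aeval_map_algebraMap]
    exact (hmemB γ).mp hγ)
  have hMi : ∀ (i : ℕ) (x : F), x ∈ M → ∀ hx : IsIntegral R x, (φ ^ i) x ∈ M ∧
      ∃ hx' : IsIntegral R ((φ ^ i) x), ρ ⟨(φ ^ i) x, hx'⟩ = (frob8 κ Fκ ^ i) (ρ ⟨x, hx⟩) := by
    intro i
    induction i with
    | zero => exact fun x hxM hx => ⟨hxM, hx, rfl⟩
    | succ i ih =>
      intro x hxM hx
      obtain ⟨h3, h4, h5⟩ := ih x hxM hx
      obtain ⟨h6, h7⟩ := hM _ h3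
      obtain ⟨h8, h9⟩ := h7 h4
      have h10 : (φ ^ (i + 1)) x = φ ((φ ^ i) x) := by rw [pow_succ', AlgEquiv.mul_apply]
      refine ⟨by rw [h10]; exact h6, by rw [h10]; exact h8, ?_⟩
      have h11 : ρ ⟨(φ ^ (i + 1)) x, by rw [h10]; exact h8⟩ = ρ ⟨φ ((φ ^ i) x), h8⟩ := by
        congr 1
        exact Subtype.ext h10
      rw [h11, h9, h5, pow_succ' (frob8 κ Fκ), AlgEquiv.mul_apply, frob8_apply,
        Nat.card_eq_fintype_card]
  refine ⟨ρ, φ, hρ, fun i x hx hi => ⟨?_, (hMi i x (hSM x ((hmemB x).mpr hx)) hi).2⟩⟩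
  have h3 : aeval ((φ ^ i) x) (f.map (algebraMap R K)) = 0 := by
    rw [← AlgEquiv.coe_toAlgHom (φ ^ i), aeval_algHom_apply, aeval_map_algebraMap, hx, map_zero]
  rwa [aeval_map_algebraMap] at h3

end Lift

section Types

variable {R K F κ : Type*} [CommRing R] [IsDomain R] [IsIntegrallyClosed R] [Field K]
  [Algebra R K] [IsFractionRing R K] [Field F] [Algebra K F] [Algebra R F] [IsScalarTower R K F]
  [IsAlgClosed F] [Algebra.IsAlgebraic K F]
  [Field κ] [Fintype κ]

variable (K F) in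
/-- **Type A.** -/
theorem frob_typeA14 {π : R →+* κ} (hπ : Function.Surjective π) {f : R[X]}
    (hu : IsUnit f.leadingCoeff) (hsep : (f.map (algebraMap R K)).Separable)
    (hirr : Irreducible (f.map π)) :
    ∃ φ : F ≃ₐ[K] F, ∀ x y : F, aeval x f = 0 → aeval y f = 0 → ∃ i : ℕ, (φ ^ i) x = y := by
  obtain ⟨ρ, φ, hρ, hφ⟩ := exists_frob_roots14 (F := F) (Fκ := AlgebraicClosure κ) hπ hu hsep
  refine ⟨φ, fun x y hx hy => ?_⟩
  have hix := integral_root14 hu hx
  have hiy := integral_root14 hu hy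
  obtain ⟨i, -, hi⟩ := exists_frob8_pow hirr (red_root14 hρ hix hx) (red_root14 hρ hiy hy)
  obtain ⟨h1, h2, h3⟩ := hφ i x hx hix
  refine ⟨i, eq_of_red14 hρ h2 hiy h1 hy (by rw [h3, hi]) ?_⟩
  have hsepκ : (f.map π).Separable := PerfectField.separable_of_irreducible hirr
  intro h4
  obtain ⟨a', b', hab⟩ := hsepκ
  have h5 := congrArg (aeval (ρ ⟨(φ ^ i) x, h2⟩)) hab
  rw [map_add, map_mul, map_mul, red_root14 hρ h2 h1, h4, mul_zero, mul_zero, add_zero,
    map_one] at h5
  exact zero_ne_one h5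

variable (K F) in
/-- **Type B.** -/
theorem frob_typeB14 {π : R →+* κ} (hπ : Function.Surjective π) {g D : R[X]} (hg : g.Monic)
    (hdeg : g.natDegree = 3) (hu : IsUnit D.leadingCoeff)
    (hsep : ((D.comp g).map (algebraMap R K)).Separable) {b : κ} {D₁ : κ[X]}
    (hD : D.map π = (X - C ((g.map π).eval b)) * D₁)
    (hb : (derivative (g.map π)).eval b ≠ 0) (hirr : Irreducible (D₁.comp (g.map π))) :
    ∃ (φ : F ≃ₐ[K] F) (z : F), aeval z (D.comp g) = 0 ∧ φ z = z ∧
      ∀ x y : F, aeval x (D.comp g) = 0 → aeval y (D.comp g) = 0 → aeval x g ≠ aeval z g →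
        aeval y g ≠ aeval z g → ∃ i : ℕ, (φ ^ i) x = y := by
  have huD : IsUnit (D.comp g).leadingCoeff := by
    rw [leadingCoeff_comp (by omega), hg.leadingCoeff, one_pow, mul_one]
    exact hu
  have hinjR : Function.Injective (algebraMap R F) := by
    rw [IsScalarTower.algebraMap_eq R K F]
    exact (algebraMap K F).injective.comp (IsFractionRing.injective R K)
  have hfaith : FaithfulSMul R F := (faithfulSMul_iff_algebraMap_injective R F).mpr hinjR
  obtain ⟨ρ, φ, hρ, hφ⟩ := exists_frob_roots14 (F := F) (Fκ := AlgebraicClosure κ) hπ huD hsep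
  set Fκ := AlgebraicClosure κ with hFκ
  set g' := g.map π with hg'
  set β : Fκ := algebraMap κ Fκ b with hβ
  have hmap : (D.comp g).map π = (g' - C (g'.eval b)) * D₁.comp g' := by
    rw [Polynomial.map_comp, hD, mul_comp, sub_comp, X_comp, C_comp]
  have hmon : g'.Monic := hg.map π
  have hdeg' : g'.natDegree = 3 := by rw [hg', hg.natDegree_map, hdeg]
  -- `D₁ (g (b))` is not zero
  have hD1 : D₁.eval (g'.eval b) ≠ 0 := by
    intro h0
    have h1 : (D₁.comp g').IsRoot b := by rw [IsRoot.def, eval_comp, h0]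
    have h2 := degree_eq_one_of_irreducible_of_root hirr h1
    have h3 : (D₁.comp g').natDegree = 1 := natDegree_eq_of_degree_eq_some h2
    rw [natDegree_comp, hdeg'] at h3
    omega
  have hgβ : aeval β g' = algebraMap κ Fκ (g'.eval b) := by
    rw [hβ, aeval_algebraMap_apply, coe_aeval_eq_eval]
  have hDβ : aeval (aeval β g') D₁ ≠ 0 := by
    rw [hgβ, aeval_algebraMap_apply, coe_aeval_eq_eval]
    exact (_root_.map_ne_zero _).mpr hD1
  -- the root `z`
  obtain ⟨z, hz, hzr, hzβ⟩ := exists_lift_root14 hρ huD (β := β) (by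
    rw [hmap, map_mul, map_sub, aeval_C, hgβ, sub_self, zero_mul])
  have hsimple : aeval β (derivative ((D.comp g).map π)) ≠ 0 := by
    rw [hmap, derivative_mul, derivative_sub, derivative_C, sub_zero, map_add, map_mul, map_mul,
      map_sub, aeval_C, hgβ, sub_self, zero_mul, add_zero]
    apply mul_ne_zero
    · rw [hβ, aeval_algebraMap_apply, coe_aeval_eq_eval]
      exact (_root_.map_ne_zero _).mpr hb
    · rw [aeval_comp]
      exact hDβ
  have hint : ∀ x : F, aeval x (D.comp g) = 0 → IsIntegral R x := fun x hx => integral_root14 huD hx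
  -- values of `g`
  have hev : ∀ z : integralClosure R F, ((aeval z g : integralClosure R F) : F) =
      aeval (z : F) g := by
    intro z
    rw [← Subalgebra.coe_val, ← aeval_algHom_apply]
  have hgint : ∀ x : F, ∀ hx : IsIntegral R x, IsIntegral R (aeval x g) := fun x hx => by
    have h1 := (aeval (⟨x, hx⟩ : integralClosure R F) g).2
    rw [hev] at h1
    exact h1
  have hρg : ∀ (x : F) (hx : IsIntegral R x), ρ ⟨aeval x g, hgint x hx⟩ = aeval (ρ ⟨x, hx⟩) g' := by
    intro x hx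
    have h1 : (⟨aeval x g, hgint x hx⟩ : integralClosure R F) =
        aeval (⟨x, hx⟩ : integralClosure R F) g := Subtype.ext (hev ⟨x, hx⟩).symm
    rw [h1, hg', aeval_def, aeval_def, eval₂_map, hom_eval₂]
    congr 1
    exact RingHom.ext fun r => hρ r
  -- a root with `g x ≠ g z` reduces to a root of `D₁ (g)`
  have hkey : ∀ (x : F) (hx : aeval x (D.comp g) = 0), aeval x g ≠ aeval z g →
      aeval (ρ ⟨x, hint x hx⟩) (D₁.comp g') = 0 := by
    intro x hx hne
    have h1 := red_root14 hρ (hint x hx) hx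
    rw [hmap, map_mul] at h1
    rcases mul_eq_zero.mp h1 with h2 | h2
    · exfalso
      apply hne
      rw [map_sub, aeval_C, sub_eq_zero, ← hgβ] at h2
      refine eq_of_red14 hρ (f := D) (hgint x (hint x hx)) (hgint z hz) ?_ ?_ ?_ ?_
      · rw [← aeval_comp]
        exact hx
      · rw [← aeval_comp]
        exact hzr
      · rw [hρg x (hint x hx), hρg z hz, hzβ, h2]
      · rw [hρg x (hint x hx), h2, hD, derivative_mul, derivative_sub, derivative_X, derivative_C, sub_zero,
          one_mul, map_add, map_mul, map_sub, aeval_X, aeval_C, hgβ, sub_self, zero_mul, add_zero,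
          ← hgβ]
        exact hDβ
    · exact h2
  refine ⟨φ, z, hzr, ?_, ?_⟩
  · obtain ⟨h1, h2, h3⟩ := hφ 1 z hzr hz
    rw [pow_one] at h1 h2
    simp only [pow_one] at h3
    have h4 : frob8 κ Fκ β = β := by rw [hβ, AlgEquiv.commutes]
    refine eq_of_red14 hρ h2 hz h1 hzr (by rw [h3, hzβ, h4]) (by rw [h3, hzβ, h4]; exact hsimple)
  · intro x y hx hy hxz hyz
    obtain ⟨i, -, hi⟩ := exists_frob8_pow hirr (hkey x hx hxz) (hkey y hy hyz)
    obtain ⟨h1, h2, h3⟩ := hφ i x hx (hint x hx)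
    refine ⟨i, eq_of_red14 hρ h2 (hint y hy) h1 hy (by rw [h3, hi]) ?_⟩
    have hsepκ : (D₁.comp g').Separable := PerfectField.separable_of_irreducible hirr
    have hr : aeval (ρ ⟨(φ ^ i) x, h2⟩) (D₁.comp g') = 0 := by
      rw [h3, ← hi]
      exact hkey y hy hyz
    have hder : aeval (ρ ⟨(φ ^ i) x, h2⟩) (derivative (D₁.comp g')) ≠ 0 := by
      intro h4
      obtain ⟨a', b', hab⟩ := hsepκ
      have h5 := congrArg (aeval (ρ ⟨(φ ^ i) x, h2⟩)) hab
      rw [map_add, map_mul, map_mul, hr, h4, mul_zero, mul_zero, add_zero, map_one] at h5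
      exact zero_ne_one h5
    rw [hmap, derivative_mul, map_add, map_mul, map_mul, hr, mul_zero, zero_add]
    apply mul_ne_zero _ hder
    rw [map_sub, aeval_C, ← hgβ, sub_ne_zero]
    intro h4
    apply hDβ
    rw [← h4, ← aeval_comp]
    exact hr

end Types

/-- **Frobenius elements of types A and B make the action on the pairs transitive.** -/
theorem pairTransitive14 {K F : Type*} [Field K] [Field F] [Algebra K F] {g D : K[X]}
    (hA : ∃ φ : F ≃ₐ[K] F, ∀ x y : F, aeval x (D.comp g) = 0 → aeval y (D.comp g) = 0 →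
      ∃ i : ℕ, (φ ^ i) x = y)
    (hB : ∃ (φ : F ≃ₐ[K] F) (z : F), aeval z (D.comp g) = 0 ∧ φ z = z ∧
      ∀ x y : F, aeval x (D.comp g) = 0 → aeval y (D.comp g) = 0 → aeval x g ≠ aeval z g →
        aeval y g ≠ aeval z g → ∃ i : ℕ, (φ ^ i) x = y) :
    IsPairTransitive7 K F g D := by
  obtain ⟨φ, hφ⟩ := hA
  obtain ⟨ψ, z, hz, hzz, hψ⟩ := hB
  intro b c b' c' hb hc hb' hc' hne hne'
  have hroot : ∀ (σ : F ≃ₐ[K] F) (x : F), aeval x (D.comp g) = 0 → aeval (σ x) (D.comp g) = 0 := by
    intro σ x hx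
    rw [← AlgEquiv.coe_toAlgHom σ, aeval_algHom_apply, hx, map_zero]
  have hval : ∀ (σ : F ≃ₐ[K] F) (x : F), aeval (σ x) g = σ (aeval x g) := by
    intro σ x
    rw [← AlgEquiv.coe_toAlgHom σ, aeval_algHom_apply]
  obtain ⟨i, hi⟩ := hφ b z hb hz
  obtain ⟨j, hj⟩ := hφ b' z hb' hz
  obtain ⟨m, hm⟩ := hψ ((φ ^ i) c) ((φ ^ j) c') (hroot _ _ hc) (hroot _ _ hc') (by
    rw [← hi, hval, hval]
    exact fun h => hne ((φ ^ i).injective h).symm) (by
    rw [← hj, hval, hval]
    exact fun h => hne' ((φ ^ j).injective h).symm)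
  have hzm : (ψ ^ m) z = z := by
    induction m with
    | zero => rfl
    | succ m ih =>
      clear hm
      rw [pow_succ', AlgEquiv.mul_apply]
      have : (ψ ^ m) z = z := by
        clear ih
        induction m with
        | zero => rfl
        | succ m ih => rw [pow_succ', AlgEquiv.mul_apply, ih, hzz]
      rw [this, hzz]
  refine ⟨(φ ^ j)⁻¹ * ψ ^ m * φ ^ i, ?_, ?_⟩
  · rw [AlgEquiv.mul_apply, AlgEquiv.mul_apply, hi, hzm, ← hj]
    change ((φ ^ j)⁻¹ * (φ ^ j)) b' = b'
    rw [inv_mul_cancel]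
    rfl
  · rw [AlgEquiv.mul_apply, AlgEquiv.mul_apply, hm]
    change ((φ ^ j)⁻¹ * (φ ^ j)) c' = c'
    rw [inv_mul_cancel]
    rfl

end Pool.Agent.Lib.MP_89bcae_ag

end

section

/-!
# Integral polynomials whose reductions modulo two primes are of types A and B
-/

open Polynomial

namespace Pool.Agent.Lib.MP_89bcae_ag

set_option linter.unusedSectionVars false
set_option linter.style.haveILetI false

/-- Type A modulo `p`: the polynomial `D(g(x))` is irreducible modulo `p`. -/
def IsTypeA14 (p : ℕ) (g D : ℤ[X]) : Prop :=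
  Irreducible ((D.map (Int.castRingHom (ZMod p))).comp (g.map (Int.castRingHom (ZMod p))))

/-- Type B modulo `p`: `D` is `(t - g(b)) D₁` modulo `p`, where `g'(b) ≠ 0` and `D₁(g(x))` is
irreducible. -/
def IsTypeB14 (p : ℕ) (g D : ℤ[X]) : Prop :=
  ∃ (b : ZMod p) (D₁ : (ZMod p)[X]),
    D.map (Int.castRingHom (ZMod p)) = (X - C ((g.map (Int.castRingHom (ZMod p))).eval b)) * D₁ ∧
    (derivative (g.map (Int.castRingHom (ZMod p)))).eval b ≠ 0 ∧
    Irreducible (D₁.comp (g.map (Int.castRingHom (ZMod p))))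

/-- The local ring `ℤ_(p)` with its residue map. -/
lemma exists_local_ring14 {p : ℕ} (hp : p.Prime) :
    ∃ (R : Type) (_ : CommRing R) (_ : IsDomain R) (_ : IsIntegrallyClosed R)
      (_ : Algebra R ℚ) (_ : IsFractionRing R ℚ) (π : R →+* ZMod p),
      Function.Surjective π ∧
      ∀ z : ℤ, (z : ZMod p) ≠ 0 → IsUnit (Int.castRingHom R z) := by
  haveI : Fact p.Prime := ⟨hp⟩
  have hpi : Prime (p : ℤ) := Nat.prime_iff_prime_int.mp hp
  haveI hP : (Ideal.span {(p : ℤ)}).IsPrime :=
    (Ideal.span_singleton_prime hpi.ne_zero).mpr hpi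
  have hmem : ∀ z : ℤ, z ∈ (Ideal.span {(p : ℤ)}).primeCompl ↔ (z : ZMod p) ≠ 0 := by
    intro z
    rw [Ideal.mem_primeCompl_iff, Ideal.mem_span_singleton, Ne,
      ZMod.intCast_zmod_eq_zero_iff_dvd]
  let R := Localization.AtPrime (Ideal.span {(p : ℤ)})
  have hle : (Ideal.span {(p : ℤ)}).primeCompl ≤ nonZeroDivisors ℤ :=
    Ideal.primeCompl_le_nonZeroDivisors _
  let e : R →+* ℚ := IsLocalization.lift (M := (Ideal.span {(p : ℤ)}).primeCompl)
    (g := algebraMap ℤ ℚ) (by
      intro y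
      rw [isUnit_iff_ne_zero]
      exact (map_ne_zero_iff _ (algebraMap ℤ ℚ).injective_int).mpr
        (nonZeroDivisors.ne_zero (hle y.2)))
  letI : Algebra R ℚ := e.toAlgebra
  have hst := IsScalarTower.of_algebraMap_eq (R := ℤ) (S := R) (A := ℚ) fun r =>
    (IsLocalization.lift_eq _ r).symm
  haveI := hst
  have hfr : IsFractionRing R ℚ :=
    IsFractionRing.isFractionRing_of_isDomain_of_isLocalization
      (Ideal.span {(p : ℤ)}).primeCompl R ℚ
  have hdom : IsDomain R := inferInstance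
  have hic : IsIntegrallyClosed R := inferInstance
  let π : R →+* ZMod p := IsLocalization.lift (M := (Ideal.span {(p : ℤ)}).primeCompl)
    (g := Int.castRingHom (ZMod p)) (by
      intro y
      rw [isUnit_iff_ne_zero]
      exact (hmem y).mp y.2)
  have hπ : ∀ z : ℤ, π (algebraMap ℤ R z) = z := fun z => IsLocalization.lift_eq _ z
  refine ⟨R, inferInstance, hdom, hic, inferInstance, hfr, π, fun x => ?_, fun z hz => ?_⟩
  · obtain ⟨z, hz⟩ := ZMod.intCast_surjective x
    exact ⟨algebraMap ℤ R z, by rw [hπ, hz]⟩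
  · have h1 := IsLocalization.map_units R
      (⟨z, (hmem z).mpr hz⟩ : (Ideal.span {(p : ℤ)}).primeCompl)
    have h2 : algebraMap ℤ R = Int.castRingHom R := RingHom.ext_int _ _
    rw [h2] at h1
    exact h1

section

variable {F : Type*} [Field F] [Algebra ℚ F] [IsAlgClosed F] [Algebra.IsAlgebraic ℚ F]

/-- **Type A.** -/
theorem typeA14 {g D : ℤ[X]} (hg : g.Monic) (hdeg : g.natDegree = 3) {p : ℕ} (hp : p.Prime)
    (hu : (D.leadingCoeff : ZMod p) ≠ 0) (hA : IsTypeA14 p g D) :
    ((D.comp g).map (algebraMap ℤ ℚ)).Separable ∧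
    ∃ φ : F ≃ₐ[ℚ] F, ∀ x y : F,
      aeval x ((D.map (algebraMap ℤ ℚ)).comp (g.map (algebraMap ℤ ℚ))) = 0 →
      aeval y ((D.map (algebraMap ℤ ℚ)).comp (g.map (algebraMap ℤ ℚ))) = 0 →
        ∃ i : ℕ, (φ ^ i) x = y := by
  haveI : Fact p.Prime := ⟨hp⟩
  obtain ⟨R, _, _, _, _, _, π, hπ, hπu⟩ := exists_local_ring14 hp
  letI : Algebra R F := ((algebraMap ℚ F).comp (algebraMap R ℚ)).toAlgebra
  haveI : IsScalarTower R ℚ F := IsScalarTower.of_algebraMap_eq fun _ => rfl
  have hRQ : (algebraMap R ℚ).comp (Int.castRingHom R) = algebraMap ℤ ℚ := RingHom.ext_int _ _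
  have hinjZ : Function.Injective (Int.castRingHom R) := by
    have h1 : Function.Injective ((algebraMap R ℚ).comp (Int.castRingHom R)) := by
      rw [hRQ]
      exact (algebraMap ℤ ℚ).injective_int
    exact Function.Injective.of_comp h1
  haveI hfaith : FaithfulSMul R F := (faithfulSMul_iff_algebraMap_injective R F).mpr
    ((algebraMap ℚ F).injective.comp (IsFractionRing.injective R ℚ))
  have hcomp : π.comp (Int.castRingHom R) = Int.castRingHom (ZMod p) := RingHom.ext_int _ _
  have hu' : IsUnit ((D.comp g).map (Int.castRingHom R)).leadingCoeff := by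
    rw [leadingCoeff_map_of_injective hinjZ, leadingCoeff_comp (by omega), hg.leadingCoeff,
      one_pow, mul_one]
    exact hπu _ hu
  have hirr : Irreducible (((D.comp g).map (Int.castRingHom R)).map π) := by
    rw [Polynomial.map_map, hcomp, Polynomial.map_comp]
    exact hA
  have hQ : ((D.comp g).map (Int.castRingHom R)).map (algebraMap R ℚ) =
      (D.comp g).map (algebraMap ℤ ℚ) := by
    rw [Polynomial.map_map, hRQ]
  have hsepκ : (((D.comp g).map (Int.castRingHom R)).map π).Separable :=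
    PerfectField.separable_of_irreducible hirr
  have hsep := separable_of_red14 (K := ℚ) F hπ hu' hsepκ
  obtain ⟨φ, hφ⟩ := frob_typeA14 ℚ F hπ hu' hsep hirr
  rw [hQ] at hsep
  refine ⟨hsep, φ, fun x y hx hy => hφ x y ?_ ?_⟩
  · rw [← aeval_map_algebraMap ℚ, hQ, Polynomial.map_comp]
    exact hx
  · rw [← aeval_map_algebraMap ℚ, hQ, Polynomial.map_comp]
    exact hy

/-- **Type B.** -/
theorem typeB14 {g D : ℤ[X]} (hg : g.Monic) (hdeg : g.natDegree = 3) {p : ℕ} (hp : p.Prime)
    (hu : (D.leadingCoeff : ZMod p) ≠ 0) (hB : IsTypeB14 p g D)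
    (hsep : ((D.comp g).map (algebraMap ℤ ℚ)).Separable) :
    ∃ (φ : F ≃ₐ[ℚ] F) (z : F),
      aeval z ((D.map (algebraMap ℤ ℚ)).comp (g.map (algebraMap ℤ ℚ))) = 0 ∧ φ z = z ∧
      ∀ x y : F, aeval x ((D.map (algebraMap ℤ ℚ)).comp (g.map (algebraMap ℤ ℚ))) = 0 →
        aeval y ((D.map (algebraMap ℤ ℚ)).comp (g.map (algebraMap ℤ ℚ))) = 0 →
        aeval x (g.map (algebraMap ℤ ℚ)) ≠ aeval z (g.map (algebraMap ℤ ℚ)) →
        aeval y (g.map (algebraMap ℤ ℚ)) ≠ aeval z (g.map (algebraMap ℤ ℚ)) →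
        ∃ i : ℕ, (φ ^ i) x = y := by
  haveI : Fact p.Prime := ⟨hp⟩
  obtain ⟨R, _, _, _, _, _, π, hπ, hπu⟩ := exists_local_ring14 hp
  letI : Algebra R F := ((algebraMap ℚ F).comp (algebraMap R ℚ)).toAlgebra
  haveI : IsScalarTower R ℚ F := IsScalarTower.of_algebraMap_eq fun _ => rfl
  have hRQ : (algebraMap R ℚ).comp (Int.castRingHom R) = algebraMap ℤ ℚ := RingHom.ext_int _ _
  have hinjZ : Function.Injective (Int.castRingHom R) := by
    have h1 : Function.Injective ((algebraMap R ℚ).comp (Int.castRingHom R)) := by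
      rw [hRQ]
      exact (algebraMap ℤ ℚ).injective_int
    exact Function.Injective.of_comp h1
  have hcomp : π.comp (Int.castRingHom R) = Int.castRingHom (ZMod p) := RingHom.ext_int _ _
  have hu' : IsUnit (D.map (Int.castRingHom R)).leadingCoeff := by
    rw [leadingCoeff_map_of_injective hinjZ]
    exact hπu _ hu
  obtain ⟨b, D₁, hD, hb, hirr⟩ := hB
  have hgπ : (g.map (Int.castRingHom R)).map π = g.map (Int.castRingHom (ZMod p)) := by
    rw [Polynomial.map_map, hcomp]
  have hDπ : (D.map (Int.castRingHom R)).map π = D.map (Int.castRingHom (ZMod p)) := by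
    rw [Polynomial.map_map, hcomp]
  have hsep' : ((((D.map (Int.castRingHom R)).comp (g.map (Int.castRingHom R)))).map
      (algebraMap R ℚ)).Separable := by
    rw [← Polynomial.map_comp, Polynomial.map_map, hRQ]
    exact hsep
  obtain ⟨φ, z, hz, hzz, hφ⟩ := frob_typeB14 ℚ F hπ (hg.map (Int.castRingHom R))
    (by rw [hg.natDegree_map, hdeg]) hu' hsep' (b := b) (D₁ := D₁) (by rw [hDπ, hgπ, hD])
    (by rw [hgπ]; exact hb) (by rw [hgπ]; exact hirr)
  have hc : ∀ x : F, aeval x ((D.map (Int.castRingHom R)).comp (g.map (Int.castRingHom R))) =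
      aeval x ((D.map (algebraMap ℤ ℚ)).comp (g.map (algebraMap ℤ ℚ))) := by
    intro x
    rw [← aeval_map_algebraMap ℚ, Polynomial.map_comp, Polynomial.map_map, Polynomial.map_map,
      hRQ]
  have hgc : ∀ x : F, aeval x (g.map (Int.castRingHom R)) = aeval x (g.map (algebraMap ℤ ℚ)) := by
    intro x
    rw [← aeval_map_algebraMap ℚ, Polynomial.map_map, hRQ]
  refine ⟨φ, z, by rw [← hc]; exact hz, hzz, fun x y hx hy hxz hyz => hφ x y ?_ ?_ ?_ ?_⟩
  · rw [hc]; exact hx
  · rw [hc]; exact hy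
  · rw [hgc, hgc]; exact hxz
  · rw [hgc, hgc]; exact hyz

/-- **Types A and B.** -/
theorem pairTransitive_types14 {g D : ℤ[X]} (hg : g.Monic) (hdeg : g.natDegree = 3)
    {p q : ℕ} (hp : p.Prime) (hq : q.Prime) (hup : (D.leadingCoeff : ZMod p) ≠ 0)
    (huq : (D.leadingCoeff : ZMod q) ≠ 0) (hA : IsTypeA14 p g D) (hB : IsTypeB14 q g D) :
    ((D.comp g).map (algebraMap ℤ ℚ)).Separable ∧
    IsPairTransitive7 ℚ F (g.map (algebraMap ℤ ℚ)) (D.map (algebraMap ℤ ℚ)) := by
  obtain ⟨hsep, hA'⟩ := typeA14 (F := F) hg hdeg hp hup hA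
  exact ⟨hsep, pairTransitive14 hA' (typeB14 hg hdeg hq huq hB hsep)⟩

end

end Pool.Agent.Lib.MP_89bcae_ag

end

section

/-!
# Counting the polynomials of types A and B modulo a prime
-/

open Polynomial

namespace Pool.Agent.Lib.MP_89bcae_ag

set_option linter.unusedSectionVars false
set_option linter.style.haveILetI false
set_option linter.unusedVariables false

/-- A cubic polynomial is not injective on the field with `p` elements, `p ≡ 1 mod 3`. -/
lemma exists_collision14 {p : ℕ} [Fact p.Prime] (h1 : p % 3 = 1) {g : (ZMod p)[X]} (hg : g.Monic)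
    (hdeg : g.natDegree = 3) : ∃ x y : ZMod p, x ≠ y ∧ g.eval x = g.eval y := by
  have hp : p.Prime := Fact.out
  -- a primitive cube root of unity
  obtain ⟨ω, hω⟩ : ∃ ω : ZMod p, ω ^ 2 + ω + 1 = 0 := by
    haveI : Fact (Nat.Prime 3) := ⟨Nat.prime_three⟩
    obtain ⟨u, hu⟩ := exists_prime_orderOf_dvd_card (G := (ZMod p)ˣ) 3 (by
      rw [ZMod.card_units]
      omega)
    refine ⟨u, ?_⟩
    have h2 : (u : ZMod p) ^ 3 = 1 := by
      rw [← Units.val_pow_eq_pow_val, ← hu, pow_orderOf_eq_one, Units.val_one]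
    have h3 : (u : ZMod p) ≠ 1 := by
      intro h4
      have h5 : u = 1 := Units.ext h4
      rw [h5, orderOf_one] at hu
      omega
    have h4 : ((u : ZMod p) - 1) * ((u : ZMod p) ^ 2 + u + 1) = 0 := by
      linear_combination h2
    exact (mul_eq_zero.mp h4).resolve_left (sub_ne_zero.mpr h3)
  have h3 : (3 : ZMod p) ≠ 0 := by
    intro h
    have h4 : ((3 : ℕ) : ZMod p) = 0 := by exact_mod_cast h
    rw [ZMod.natCast_eq_zero_iff] at h4
    have h5 := (Nat.prime_dvd_prime_iff_eq hp Nat.prime_three).mp h4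
    omega
  have hev : ∀ x : ZMod p, g.eval x = x ^ 3 + g.coeff 2 * x ^ 2 + g.coeff 1 * x + g.coeff 0 := by
    intro x
    have := aeval_cubic8 (k := ZMod p) (F := ZMod p) hg hdeg x
    rwa [coe_aeval_eq_eval, Algebra.algebraMap_self] at this
  obtain ⟨t, ht⟩ : ∃ t : ZMod p, 3 * t = g.coeff 2 := ⟨g.coeff 2 / 3, by field_simp⟩
  set B := g.coeff 1 - 3 * t ^ 2 with hB
  -- the two linear forms
  obtain ⟨U, V, hUV, hne⟩ : ∃ U V : ZMod p, U * V = -B ∧ U ≠ -ω * V := by
    by_cases hB0 : B = 0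
    · exact ⟨1, 0, by rw [hB0]; simp, by simp⟩
    · by_cases h4 : -B = -ω
      · refine ⟨-B / 2, 2, ?_, ?_⟩
        · have h2 : (2 : ZMod p) ≠ 0 := by
            intro h
            have h4 : ((2 : ℕ) : ZMod p) = 0 := by exact_mod_cast h
            rw [ZMod.natCast_eq_zero_iff] at h4
            have h5 := (Nat.prime_dvd_prime_iff_eq hp Nat.prime_two).mp h4
            omega
          field_simp
        · intro h5
          have h2 : (2 : ZMod p) ≠ 0 := by
            intro h
            have h4 : ((2 : ℕ) : ZMod p) = 0 := by exact_mod_cast h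
            rw [ZMod.natCast_eq_zero_iff] at h4
            have h5 := (Nat.prime_dvd_prime_iff_eq hp Nat.prime_two).mp h4
            omega
          rw [div_eq_iff h2, h4] at h5
          have h6 : 3 * ω = 0 := by linear_combination h5
          have h7 : ω = 0 := (mul_eq_zero.mp h6).resolve_left h3
          rw [h7] at hω
          norm_num at hω
      · exact ⟨-B, 1, by ring, by rw [mul_one]; exact h4⟩
  have hω3 : (ω - 1) * (ω ^ 2 + ω + 1) = ω ^ 3 - 1 := by ring
  have hω1 : ω ≠ 1 := by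
    rintro rfl
    apply h3
    linear_combination hω
  have hω0 : ω ≠ 0 := by
    rintro rfl
    norm_num at hω
  have hd : ω ^ 2 - ω ≠ 0 := by
    intro h
    have : ω * (ω - 1) = 0 := by linear_combination h
    rcases mul_eq_zero.mp this with h | h
    · exact hω0 h
    · exact hω1 (sub_eq_zero.mp h)
  obtain ⟨Y, hY⟩ : ∃ Y : ZMod p, (ω ^ 2 - ω) * Y = U - V := ⟨(U - V) / (ω ^ 2 - ω), by field_simp⟩
  set X' := U + ω * Y with hX'
  have hU : U = X' - ω * Y := by rw [hX']; ring
  have hV : V = X' - ω ^ 2 * Y := by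
    rw [hX']
    linear_combination hY
  have hprod : X' ^ 2 + X' * Y + Y ^ 2 + B = 0 := by
    have h5 : U * V + B = 0 := by rw [hUV]; ring
    rw [hU, hV] at h5
    have h6 : ω ^ 3 = 1 := by linear_combination (ω - 1) * hω
    linear_combination h5 + (X' * Y) * hω - Y ^ 2 * h6
  have hXY : X' ≠ Y := by
    intro h
    apply hne
    rw [hU, hV, h]
    have h6 : ω ^ 3 = 1 := by linear_combination (ω - 1) * hω
    linear_combination -Y * h6 
  refine ⟨X' - t, Y - t, fun h => hXY (sub_left_injective h), ?_⟩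
  rw [hev, hev]
  have h7 : g.coeff 1 = B + 3 * t ^ 2 := by rw [hB]; ring
  rw [h7, ← ht]
  linear_combination (X' - Y) * hprod

lemma numeric14 {q n c : ℕ} (hq : 19 ≤ q) (hn : 2 ≤ n)
    (h : 2 * q ^ n ≤ 6 * c + 9 * q ^ (n / 2) + 10) : q ^ n ≤ 6 * c := by
  obtain ⟨m, rfl⟩ : ∃ m, n = m + 1 := ⟨n - 1, by omega⟩
  have h1 : q ^ ((m + 1) / 2) ≤ q ^ m := Nat.pow_le_pow_right (by omega) (by omega)
  have h2 : 1 ≤ q ^ m := Nat.one_le_pow _ _ (by omega)
  have h3 : 19 * q ^ m ≤ q ^ (m + 1) := by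
    rw [pow_succ, mul_comm (q ^ m)]
    exact Nat.mul_le_mul_right _ hq
  omega

/-- The family is large. -/
lemma family_lower14 {k : Type} [Field k] [Fintype k] (h2 : (2 : k) ≠ 0)
    (hq : 19 ≤ Fintype.card k) {g : k[X]} (hg : g.Monic) (hdeg : g.natDegree = 3)
    (hcol : ∃ x y : k, x ≠ y ∧ g.eval x = g.eval y) {n : ℕ} (hn : 2 ≤ n) :
    Fintype.card k ^ n ≤ 6 * (n * (family g n).ncard) := by
  classical
  have hfin := family_finite8 g n
  have hfam : ∀ D ∈ hfin.toFinset, D.Monic ∧ D.natDegree = n ∧ Irreducible D := by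
    intro D hD
    rw [Set.Finite.mem_toFinset] at hD
    exact ⟨hD.1, hD.2.1, irreducible_of_comp8 hdeg hD.2.2⟩
  have hcard : hfin.toFinset.card = (family g n).ncard := (Set.ncard_eq_toFinset_card _ hfin).symm
  obtain ⟨A, hA1, hA2⟩ := exists_roots_card8 (F := AlgebraicClosure k) n hfin.toFinset hfam
  have h1 := Frob14.good_count (F := AlgebraicClosure k) h2 hg hdeg hcol (i := n) (by omega)
  have h3 := numeric14 hq hn h1
  rw [← hcard, ← hA2]
  refine h3.trans (Nat.mul_le_mul_left 6 (Finset.card_le_card ?_))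
  intro a ha
  rw [Finset.mem_filter, Frob14.mem_fixS (by omega)] at ha
  rw [hA1, Set.Finite.mem_toFinset]
  exact minpoly_mem_family8 hg hdeg (by omega) ha.1 ha.2.2 ha.2.1

/-- The values at the noncritical points. -/
lemma values_lower14 {k : Type} [Field k] [Fintype k] {g : k[X]} (h3 : (3 : k) ≠ 0)
    (hg : g.Monic) (hdeg : g.natDegree = 3) :
    Fintype.card k - 2 ≤
      3 * ({α : k | ∃ b : k, (derivative g).eval b ≠ 0 ∧ g.eval b = α}).ncard := by
  classical
  have hder : (derivative g) ≠ 0 := by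
    intro h
    have h4 := congrArg (fun f => f.coeff 2) h
    simp only [coeff_derivative, coeff_zero] at h4
    have h5 : g.coeff 3 = 1 := by
      have := hg.coeff_natDegree
      rwa [hdeg] at this
    rw [show (2 + 1 : ℕ) = 3 by norm_num, h5, one_mul] at h4
    apply h3
    push_cast at h4
    linear_combination h4
  have hderdeg : (derivative g).natDegree ≤ 2 := by
    have := natDegree_derivative_le g
    omega
  set T : Finset k := Finset.univ.filter fun b => (derivative g).eval b ≠ 0 with hT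
  have hTcard : Fintype.card k - 2 ≤ T.card := by
    have h4 : Tᶜ.card ≤ 2 := by
      refine (Finset.card_le_card (t := (derivative g).roots.toFinset) ?_).trans
        ((Multiset.toFinset_card_le _).trans ((card_roots' _).trans hderdeg))
      intro b hb
      rw [Finset.mem_compl, hT, Finset.mem_filter, not_and, not_not] at hb
      rw [Multiset.mem_toFinset, mem_roots hder]
      exact hb (Finset.mem_univ b)
    rw [Finset.card_compl] at h4
    omega
  have h6 : {α : k | ∃ b : k, (derivative g).eval b ≠ 0 ∧ g.eval b = α} =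
      (T.image fun b => g.eval b : Finset k) := by
    ext α
    rw [Finset.mem_coe, Finset.mem_image]
    constructor
    · rintro ⟨b, hb, rfl⟩
      exact ⟨b, by rw [hT, Finset.mem_filter]; exact ⟨Finset.mem_univ _, hb⟩, rfl⟩
    · rintro ⟨b, hb, rfl⟩
      rw [hT, Finset.mem_filter] at hb
      exact ⟨b, hb.2, rfl⟩
  rw [h6, Set.ncard_coe_finset]
  refine hTcard.trans (Finset.card_le_mul_card_image T 3 fun α _ => ?_)
  have hne : g - C α ≠ 0 := by
    intro h
    have := congrArg natDegree h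
    rw [natDegree_sub_C, hdeg, natDegree_zero] at this
    omega
  refine (Finset.card_le_card (t := (g - C α).roots.toFinset) ?_).trans
    ((Multiset.toFinset_card_le _).trans ((card_roots' _).trans (by rw [natDegree_sub_C, hdeg])))
  intro b hb
  rw [Finset.mem_filter] at hb
  rw [Multiset.mem_toFinset, mem_roots hne, IsRoot.def, eval_sub, eval_C, hb.2, sub_self]

section Coeff

variable {k : Type} [Field k] [Fintype k]

/-- The coefficient vector. -/
def coeffs14 (n : ℕ) (f : k[X]) : Fin (n + 1) → k := fun i => f.coeff i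

omit [Fintype k] in
lemma coeffs_inj14 {n : ℕ} {f f' : k[X]} (hf : f.natDegree ≤ n) (hf' : f'.natDegree ≤ n)
    (h : coeffs14 n f = coeffs14 n f') : f = f' := by
  ext i
  by_cases hi : i < n + 1
  · exact congrFun h ⟨i, hi⟩
  · rw [coeff_eq_zero_of_natDegree_lt (by omega), coeff_eq_zero_of_natDegree_lt (by omega)]

lemma ncard_ne_zero14 : ({u : k | u ≠ 0}).ncard = Fintype.card k - 1 := by
  classical
  have h1 : {u : k | u ≠ 0} = ((Finset.univ.erase (0 : k) : Finset k) : Set k) := by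
    ext u
    simp
  rw [h1, Set.ncard_coe_finset, Finset.card_erase_of_mem (Finset.mem_univ _), Finset.card_univ]

/-- The number of the polynomials of type A. -/
lemma count_A14 (g : k[X]) (n : ℕ) :
    (Fintype.card k - 1) * (family g n).ncard ≤
      ({v : Fin (n + 1) → k | ∃ f : k[X], coeffs14 n f = v ∧ f.natDegree = n ∧
        Irreducible (f.comp g)}).ncard := by
  rw [← ncard_ne_zero14, ← Set.ncard_prod]
  apply Set.ncard_le_ncard_of_injOn (fun x : k × k[X] => coeffs14 n (C x.1 * x.2))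
  · rintro ⟨u, D⟩ ⟨hu, h1, h2, h3⟩
    refine ⟨_, rfl, ?_, ?_⟩
    · rw [natDegree_C_mul hu, h2]
    · rw [mul_comp, C_comp]
      have hu' : IsUnit (C u : k[X]) := isUnit_C.mpr (isUnit_iff_ne_zero.mpr hu)
      rw [irreducible_isUnit_mul hu']
      exact h3
  · rintro ⟨u, D⟩ ⟨hu, h1, h2, h3⟩ ⟨u', D'⟩ ⟨hu', h1', h2', h3'⟩ h
    simp only at hu hu' h1 h2 h3 h1' h2' h3' h
    have h4 := coeffs_inj14 (by rw [natDegree_C_mul hu, h2]) (by rw [natDegree_C_mul hu', h2']) h
    have h5 := congrArg leadingCoeff h4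
    rw [leadingCoeff_mul, leadingCoeff_C, h1.leadingCoeff, mul_one, leadingCoeff_mul,
      leadingCoeff_C, h1'.leadingCoeff, mul_one] at h5
    subst h5
    rw [Prod.mk.injEq]
    exact ⟨rfl, mul_left_cancel₀ (C_ne_zero.mpr hu) h4⟩

/-- The number of the polynomials of type B. -/
lemma count_B14 {g : k[X]} (hdeg : g.natDegree = 3) {n : ℕ} (hn : 3 ≤ n) :
    (Fintype.card k - 1) *
      ({α : k | ∃ b : k, (derivative g).eval b ≠ 0 ∧ g.eval b = α}).ncard *
        (family g (n - 1)).ncard ≤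
      ({v : Fin (n + 1) → k | ∃ f : k[X], coeffs14 n f = v ∧ f.natDegree = n ∧
        ∃ (b : k) (D₁ : k[X]), f = (X - C (g.eval b)) * D₁ ∧ (derivative g).eval b ≠ 0 ∧
        Irreducible (D₁.comp g)}).ncard := by
  rw [← ncard_ne_zero14, ← Set.ncard_prod, ← Set.ncard_prod]
  apply Set.ncard_le_ncard_of_injOn
    (fun x : (k × k) × k[X] => coeffs14 n (C x.1.1 * ((X - C x.1.2) * x.2)))
  · rintro ⟨⟨u, α⟩, D⟩ ⟨⟨hu, b, hb, hα⟩, h1, h2, h3⟩
    simp only at hu hb hα h1 h2 h3
    refine ⟨_, rfl, ?_, b, C u * D, ?_, hb, ?_⟩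
    · change (C u * ((X - C α) * D)).natDegree = n
      rw [natDegree_C_mul hu, (monic_X_sub_C α).natDegree_mul h1, natDegree_X_sub_C, h2]
      omega
    · change C u * ((X - C α) * D) = _
      rw [hα]
      ring
    · rw [mul_comp, C_comp]
      have hu' : IsUnit (C u : k[X]) := isUnit_C.mpr (isUnit_iff_ne_zero.mpr hu)
      rw [irreducible_isUnit_mul hu']
      exact h3
  · rintro ⟨⟨u, α⟩, D⟩ ⟨⟨hu, -⟩, h1, h2, h3⟩ ⟨⟨u', α'⟩, D'⟩ ⟨⟨hu', -⟩, h1', h2', h3'⟩ h
    simp only at hu hu' h1 h2 h3 h1' h2' h3' h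
    have hdg : ∀ (u α : k) (D : k[X]), u ≠ 0 → D.Monic → D.natDegree = n - 1 →
        (C u * ((X - C α) * D)).natDegree ≤ n := by
      intro u α D hu h1 h2
      rw [natDegree_C_mul hu, (monic_X_sub_C α).natDegree_mul h1, natDegree_X_sub_C, h2]
      omega
    have h4 := coeffs_inj14 (hdg u α D hu h1 h2) (hdg u' α' D' hu' h1' h2') h
    have h5 := congrArg leadingCoeff h4
    rw [leadingCoeff_mul, leadingCoeff_C, ((monic_X_sub_C α).mul h1).leadingCoeff, mul_one,
      leadingCoeff_mul, leadingCoeff_C, ((monic_X_sub_C α').mul h1').leadingCoeff, mul_one] at h5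
    subst h5
    have h6 := mul_left_cancel₀ (C_ne_zero.mpr hu) h4
    have h7 : α = α' := by
      by_contra hne
      have h8 := congrArg (eval α) h6
      rw [eval_mul, eval_sub, eval_X, eval_C, sub_self, zero_mul, eval_mul, eval_sub, eval_X,
        eval_C, eq_comm, mul_eq_zero] at h8
      rcases h8 with h8 | h8
      · exact hne (sub_eq_zero.mp h8)
      · have h9 : D'.natDegree = 1 := natDegree_eq_of_degree_eq_some
          (degree_eq_one_of_irreducible_of_root (irreducible_of_comp8 hdeg h3') h8)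
        rw [h2'] at h9
        omega
    subst h7
    rw [Prod.mk.injEq]
    exact ⟨rfl, mul_left_cancel₀ (X_sub_C_ne_zero α) h6⟩

end Coeff

end Pool.Agent.Lib.MP_89bcae_ag

end

section

/-!
# Types A and B: Frobenius elements and counts
-/

open Polynomial

open scoped Classical

namespace Pool.Agent.Lib.MP_89bcae_ag

/-- Types A and B make the action on the pairs transitive. -/
theorem pair_of_types7 (F : Type) [Field F] [Algebra ℚ F] [IsAlgClosure ℚ F] {g D : ℤ[X]}
    (hg : g.Monic) (hdeg : g.natDegree = 3) {n : ℕ} (hD : D.natDegree ≤ n) (hn : 2 ≤ n)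
    {p₁ p₂ : ℕ} [Fact p₁.Prime] [Fact p₂.Prime]
    (h₁ : TypeA7 (g.map (Int.castRingHom (ZMod p₁))) (D.map (Int.castRingHom (ZMod p₁))) n)
    (h₂ : TypeB7 (g.map (Int.castRingHom (ZMod p₂))) (D.map (Int.castRingHom (ZMod p₂))) n) :
    ((D.comp g).map (Int.castRingHom ℚ)).Separable ∧
      IsPairTransitive7 ℚ F (g.map (Int.castRingHom ℚ)) (D.map (Int.castRingHom ℚ)) := by
  haveI : IsAlgClosed F := IsAlgClosure.isAlgClosed ℚ
  haveI : Algebra.IsAlgebraic ℚ F := IsAlgClosure.isAlgebraic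
  obtain ⟨hA, hAn⟩ := h₁
  obtain ⟨b, D₁, h3, h4, h5, hBn⟩ := h₂
  have key : ∀ (p : ℕ) (_ : Fact p.Prime), (D.map (Int.castRingHom (ZMod p))).natDegree = n →
      (D.leadingCoeff : ZMod p) ≠ 0 := by
    intro p _ h
    have h6 : D.natDegree = n := le_antisymm hD (h ▸ natDegree_map_le)
    have h7 : (D.leadingCoeff : ZMod p) = (D.map (Int.castRingHom (ZMod p))).leadingCoeff := by
      rw [leadingCoeff, leadingCoeff, h, h6, coeff_map]
      rfl
    rw [h7, leadingCoeff_ne_zero]
    intro h8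
    rw [h8, natDegree_zero] at h
    omega
  exact pairTransitive_types14 (F := F) hg hdeg (Fact.out : p₁.Prime) (Fact.out : p₂.Prime)
    (key p₁ inferInstance hAn) (key p₂ inferInstance hBn) hA ⟨b, D₁, h3, h4, h5⟩

lemma two_three_ne_zero14 {p : ℕ} (hp : p.Prime) (h : 5 ≤ p) :
    (2 : ZMod p) ≠ 0 ∧ (3 : ZMod p) ≠ 0 := by
  constructor
  · intro h
    have h4 : ((2 : ℕ) : ZMod p) = 0 := by exact_mod_cast h
    rw [ZMod.natCast_eq_zero_iff] at h4
    have h5 := (Nat.prime_dvd_prime_iff_eq hp Nat.prime_two).mp h4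
    omega
  · intro h
    have h4 : ((3 : ℕ) : ZMod p) = 0 := by exact_mod_cast h
    rw [ZMod.natCast_eq_zero_iff] at h4
    have h5 := (Nat.prime_dvd_prime_iff_eq hp Nat.prime_three).mp h4
    omega

lemma polyOf_coeffs14 {k : Type} [Field k] {n : ℕ} {f : k[X]} (hf : f.natDegree = n) :
    polyOf8 (coeffs14 n f) = f := by
  unfold polyOf8 coeffs14
  conv_rhs => rw [f.as_sum_range_C_mul_X_pow, hf]
  rw [Finset.sum_range]

/-- The number of the residue classes of type A. -/
theorem count_typeA7 (n : ℕ) (hn : 2 ≤ n) : ∃ c : ℝ, 0 < c ∧ ∃ P₀ : ℕ, ∀ p : ℕ, ∀ _ : Fact p.Prime,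
    P₀ ≤ p → p % 3 = 1 → ∀ g : (ZMod p)[X], g.Monic → g.natDegree = 3 →
      c * (p : ℝ) ^ (n + 1) ≤
        ({v : Fin (n + 1) → ZMod p | TypeA7 g (polyOf8 v) n}.ncard : ℝ) := by
  have hn0 : (0 : ℝ) < n := by exact_mod_cast (by omega : 0 < n)
  refine ⟨1 / (72 * n), by positivity, 19, fun p _ h19 h1 g hmon hdeg => ?_⟩
  have hp : p.Prime := Fact.out
  obtain ⟨h2, -⟩ := two_three_ne_zero14 hp (by omega)
  have hcard := ZMod.card p
  have h3 := family_lower14 h2 (by rw [hcard]; exact h19) hmon hdeg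
    (exists_collision14 h1 hmon hdeg) hn
  have h4 := count_A14 g n
  rw [hcard] at h3 h4
  have h5 : ({v : Fin (n + 1) → ZMod p | ∃ f : (ZMod p)[X], coeffs14 n f = v ∧
      f.natDegree = n ∧ Irreducible (f.comp g)}).ncard ≤
      {v : Fin (n + 1) → ZMod p | TypeA7 g (polyOf8 v) n}.ncard := by
    apply Set.ncard_le_ncard _ (Set.toFinite _)
    rintro v ⟨f, rfl, hfn, hirr⟩
    change TypeA7 g (polyOf8 (coeffs14 n f)) n
    rw [polyOf_coeffs14 hfn]
    exact ⟨hirr, hfn⟩
  have h6 : ((p : ℝ) - 1) * ((family g n).ncard : ℝ) ≤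
      ({v : Fin (n + 1) → ZMod p | TypeA7 g (polyOf8 v) n}.ncard : ℝ) := by
    have h7 := h4.trans h5
    have h8 : (((p - 1) * (family g n).ncard : ℕ) : ℝ) =
        ((p : ℝ) - 1) * ((family g n).ncard : ℝ) := by
      rw [Nat.cast_mul, Nat.cast_sub (by omega), Nat.cast_one]
    rw [← h8]
    exact_mod_cast h7
  refine le_trans ?_ h6
  have h7 : (p : ℝ) ^ n ≤ 6 * (n * ((family g n).ncard : ℝ)) := by exact_mod_cast h3
  have hp19 : (19 : ℝ) ≤ p := by exact_mod_cast h19
  rw [div_mul_eq_mul_div, one_mul, div_le_iff₀ (by positivity)]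
  have h8 : (0 : ℝ) ≤ ((family g n).ncard : ℝ) := Nat.cast_nonneg _
  calc (p : ℝ) ^ (n + 1) = p * (p : ℝ) ^ n := by ring
    _ ≤ p * (6 * (n * ((family g n).ncard : ℝ))) := by
        apply mul_le_mul_of_nonneg_left h7; linarith
    _ = 6 * p * (n * ((family g n).ncard : ℝ)) := by ring
    _ ≤ 72 * (p - 1) * (n * ((family g n).ncard : ℝ)) := by
        apply mul_le_mul_of_nonneg_right _ (by positivity)
        linarith
    _ = _ := by ring

/-- The number of the residue classes of type B. -/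
theorem count_typeB7 (n : ℕ) (hn : 3 ≤ n) : ∃ c : ℝ, 0 < c ∧ ∃ P₀ : ℕ, ∀ p : ℕ, ∀ _ : Fact p.Prime,
    P₀ ≤ p → p % 3 = 1 → ∀ g : (ZMod p)[X], g.Monic → g.natDegree = 3 →
      c * (p : ℝ) ^ (n + 1) ≤
        ({v : Fin (n + 1) → ZMod p | TypeB7 g (polyOf8 v) n}.ncard : ℝ) := by
  have hn0 : (0 : ℝ) < n := by exact_mod_cast (by omega : 0 < n)
  refine ⟨1 / (72 * n), by positivity, 19, fun p _ h19 h1 g hmon hdeg => ?_⟩
  have hp : p.Prime := Fact.out
  obtain ⟨h2, h3'⟩ := two_three_ne_zero14 hp (by omega)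
  have hcard := ZMod.card p
  have h3 := family_lower14 h2 (by rw [hcard]; exact h19) hmon hdeg
    (exists_collision14 h1 hmon hdeg) (n := n - 1) (by omega)
  have h4 := count_B14 hdeg hn
  have hV := values_lower14 h3' hmon hdeg
  rw [hcard] at h3 h4 hV
  set V := ({α : ZMod p | ∃ b : ZMod p, (derivative g).eval b ≠ 0 ∧ g.eval b = α}).ncard with hVd
  have h5 : ({v : Fin (n + 1) → ZMod p | ∃ f : (ZMod p)[X], coeffs14 n f = v ∧
      f.natDegree = n ∧ ∃ (b : ZMod p) (D₁ : (ZMod p)[X]), f = (X - C (g.eval b)) * D₁ ∧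
        (derivative g).eval b ≠ 0 ∧ Irreducible (D₁.comp g)}).ncard ≤
      {v : Fin (n + 1) → ZMod p | TypeB7 g (polyOf8 v) n}.ncard := by
    apply Set.ncard_le_ncard _ (Set.toFinite _)
    rintro v ⟨f, rfl, hfn, b, D₁, hf, hb, hirr⟩
    change TypeB7 g (polyOf8 (coeffs14 n f)) n
    rw [polyOf_coeffs14 hfn]
    exact ⟨b, D₁, hf, hb, hirr, hfn⟩
  have h6 : ((p : ℝ) - 1) * V * ((family g (n - 1)).ncard : ℝ) ≤
      ({v : Fin (n + 1) → ZMod p | TypeB7 g (polyOf8 v) n}.ncard : ℝ) := by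
    have h7 := h4.trans h5
    have h8 : (((p - 1) * V * (family g (n - 1)).ncard : ℕ) : ℝ) =
        ((p : ℝ) - 1) * V * ((family g (n - 1)).ncard : ℝ) := by
      rw [Nat.cast_mul, Nat.cast_mul, Nat.cast_sub (by omega), Nat.cast_one]
    rw [← h8]
    exact_mod_cast h7
  refine le_trans ?_ h6
  have h7 : (p : ℝ) ^ (n - 1) ≤ 6 * (((n - 1 : ℕ) : ℝ) * ((family g (n - 1)).ncard : ℝ)) := by
    exact_mod_cast h3
  have hp19 : (19 : ℝ) ≤ p := by exact_mod_cast h19
  have h8 : (0 : ℝ) ≤ ((family g (n - 1)).ncard : ℝ) := Nat.cast_nonneg _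
  have h9 : (p : ℝ) ^ (n - 1) ≤ 6 * (n * ((family g (n - 1)).ncard : ℝ)) := by
    refine h7.trans ?_
    have : ((n - 1 : ℕ) : ℝ) ≤ n := by exact_mod_cast Nat.sub_le _ _
    nlinarith [mul_le_mul_of_nonneg_right this h8]
  have h10 : (p : ℝ) - 2 ≤ 3 * V := by
    have : p ≤ 3 * V + 2 := by omega
    have h11 : (p : ℝ) ≤ 3 * V + 2 := by exact_mod_cast this
    linarith
  rw [div_mul_eq_mul_div, one_mul, div_le_iff₀ (by positivity)]
  have h12 : (p : ℝ) ^ (n + 1) = p ^ 2 * (p : ℝ) ^ (n - 1) := by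
    rw [← pow_add]
    congr 1
    omega
  have h13 : (p : ℝ) ^ 2 ≤ 4 * ((p - 1) * (3 * V)) := by
    nlinarith [mul_le_mul_of_nonneg_left h10 (show (0 : ℝ) ≤ p - 1 by linarith)]
  calc (p : ℝ) ^ (n + 1) = p ^ 2 * (p : ℝ) ^ (n - 1) := h12
    _ ≤ 4 * ((p - 1) * (3 * V)) * (6 * (n * ((family g (n - 1)).ncard : ℝ))) := by
        apply mul_le_mul h13 h9 (by positivity)
        apply le_trans _ h13
        positivity
    _ = _ := by ring

end Pool.Agent.Lib.MP_89bcae_ag

end
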