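import Mathlib

/-!
# Reduction of the roots of `D(g(x))` and of the Rédei maps modulo a place where `D(g(x))` splits
-/

open Polynomial

open scoped Classical

namespace Pool.Agent.Lib.MP_89bcae_ag

set_option linter.unusedSectionVars false
set_option linter.style.haveILetI false

section Sep

variable {κ : Type*} [Field κ]

/-- A polynomial with as many roots as its degree is separable. -/
lemma separable_of_card7 {f : κ[X]} (h0 : f ≠ 0) (h : f.roots.toFinset.card = f.natDegree) :
    f.Separable := by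
  have h1 : f.roots.card = f.natDegree :=
    le_antisymm (card_roots' f) (h ▸ Multiset.toFinset_card_le _)
  have h2 : f.roots.Nodup := by
    rw [← Multiset.toFinset_card_eq_card_iff_nodup, h, h1]
  have h3 : f.Splits := splits_iff_card_roots.mpr h1
  exact (nodup_roots_iff_of_splits h0 h3).mp h2

/-- If `D ∘ g` is separable, so is `D`. -/
lemma separable_left7 {g D : κ[X]} (hg : g.natDegree ≠ 0) (h : (D.comp g).Separable) :
    D.Separable := by
  rw [Polynomial.Separable, isCoprime_iff_aeval_ne_zero_of_isAlgClosed (k := κ)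
    (AlgebraicClosure κ)]
  intro a
  by_contra hcon
  push Not at hcon
  obtain ⟨h1, h2⟩ := hcon
  have hdeg : (g.map (algebraMap κ (AlgebraicClosure κ)) - C a).degree ≠ 0 := by
    intro h3
    have h4 := natDegree_eq_zero_iff_degree_le_zero.mpr h3.le
    rw [natDegree_sub_C, natDegree_map] at h4
    exact hg h4
  obtain ⟨b, hb⟩ := IsAlgClosed.exists_root _ hdeg
  have hb2 : aeval b g = a := by
    rw [IsRoot.def, eval_sub, eval_C, sub_eq_zero, eval_map_algebraMap] at hb
    exact hb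
  obtain ⟨u, v, huv⟩ := h
  have h3 := congrArg (aeval b) huv
  rw [derivative_comp, map_add, map_mul, map_mul, map_mul, aeval_comp, aeval_comp, hb2, h1, h2] at h3
  simp at h3

end Sep

variable {R K F κ Fκ : Type*} [CommRing R] [IsDomain R] [IsIntegrallyClosed R] [Field K]
  [Algebra R K] [IsFractionRing R K] [Field F] [Algebra K F] [Algebra R F] [IsScalarTower R K F]
  [IsAlgClosed F] [Algebra.IsAlgebraic K F]
  [Field κ] [Fintype κ] [Field Fκ] [Algebra κ Fκ] [Algebra.IsAlgebraic κ Fκ] [IsAlgClosed Fκ]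

/-- `z` is the reduction of `x`. -/
def Red7 (ρ : integralClosure R F →+* Fκ) (x : F) (z : κ) : Prop :=
  ∃ hx : IsIntegral R x, ρ ⟨x, hx⟩ = algebraMap κ Fκ z

section Red

variable {ρ : integralClosure R F →+* Fκ}

lemma Red7.unique {x : F} {z z' : κ} (h : Red7 ρ x z) (h' : Red7 ρ x z') : z = z' := by
  obtain ⟨hx, h⟩ := h
  obtain ⟨hx', h'⟩ := h'
  exact (algebraMap κ Fκ).injective (h.symm.trans h')

lemma Red7.mul {x y : F} {z w : κ} (h : Red7 ρ x z) (h' : Red7 ρ y w) :
    Red7 ρ (x * y) (z * w) := by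
  obtain ⟨hx, h⟩ := h
  obtain ⟨hy, h'⟩ := h'
  refine ⟨hx.mul hy, ?_⟩
  rw [map_mul, ← h, ← h', ← map_mul]
  rfl

lemma Red7.sub {x y : F} {z w : κ} (h : Red7 ρ x z) (h' : Red7 ρ y w) :
    Red7 ρ (x - y) (z - w) := by
  obtain ⟨hx, h⟩ := h
  obtain ⟨hy, h'⟩ := h'
  refine ⟨hx.sub hy, ?_⟩
  rw [map_sub, ← h, ← h', ← map_sub]
  rfl

lemma Red7.neg {x : F} {z : κ} (h : Red7 ρ x z) : Red7 ρ (-x) (-z) := by
  obtain ⟨hx, h⟩ := h
  refine ⟨hx.neg, ?_⟩
  rw [map_neg, ← h, ← map_neg]
  rfl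

lemma Red7.one : Red7 ρ (1 : F) (1 : κ) := by
  refine ⟨isIntegral_one, ?_⟩
  rw [map_one]
  exact map_one ρ

lemma Red7.prod {ι : Type*} {S : Finset ι} {x : ι → F} {z : ι → κ}
    (h : ∀ i ∈ S, Red7 ρ (x i) (z i)) : Red7 ρ (∏ i ∈ S, x i) (∏ i ∈ S, z i) := by
  classical
  induction S using Finset.induction_on with
  | empty => simpa using Red7.one
  | insert i S hi ih =>
    rw [Finset.prod_insert hi, Finset.prod_insert hi]
    exact (h i (Finset.mem_insert_self _ _)).mul
      (ih fun j hj => h j (Finset.mem_insert_of_mem hj))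

lemma Red7.eval {π : R →+* κ}
    (hρ : ∀ r, ρ (algebraMap R (integralClosure R F) r) = algebraMap κ Fκ (π r)) {x : F} {z : κ}
    (h : Red7 ρ x z) (p : R[X]) :
    Red7 ρ ((p.map (algebraMap R F)).eval x) ((p.map π).eval z) := by
  obtain ⟨hx, h⟩ := h
  have h1 : ((aeval (⟨x, hx⟩ : integralClosure R F) p : integralClosure R F) : F) =
      (p.map (algebraMap R F)).eval x := by
    rw [eval_map_algebraMap, ← Subalgebra.coe_val, ← aeval_algHom_apply]
    rfl
  have h3 : IsIntegral R ((p.map (algebraMap R F)).eval x) := by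
    rw [← h1]
    exact (aeval (⟨x, hx⟩ : integralClosure R F) p).2
  refine ⟨h3, ?_⟩
  have h4 : (⟨(p.map (algebraMap R F)).eval x, h3⟩ : integralClosure R F) =
      aeval (⟨x, hx⟩ : integralClosure R F) p := Subtype.ext h1.symm
  rw [h4, aeval_def, hom_eval₂]
  have h5 : ρ.comp (algebraMap R (integralClosure R F)) = (algebraMap κ Fκ).comp π :=
    RingHom.ext hρ
  rw [h5, h, ← hom_eval₂, eval_map]

/-- The reduction is injective on the roots of a polynomial with separable reduction. -/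
lemma red_inj7 {π : R →+* κ}
    (hρ : ∀ r, ρ (algebraMap R (integralClosure R F) r) = algebraMap κ Fκ (π r)) {f : R[X]}
    (hs : (f.map π).Separable) {x y : F} (hx : IsIntegral R x) (hy : IsIntegral R y)
    (hfx : (f.map (algebraMap R F)).eval x = 0) (hfy : (f.map (algebraMap R F)).eval y = 0)
    (h : ρ ⟨x, hx⟩ = ρ ⟨y, hy⟩) : x = y := by
  by_contra hne
  have hev : ∀ (z : F) (hz : IsIntegral R z), (f.map (algebraMap R F)).eval z = 0 →
      (f.map (algebraMap R (integralClosure R F))).eval (⟨z, hz⟩ : integralClosure R F) = 0 := by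
    intro z hz h0
    rw [eval_map_algebraMap]
    apply Subtype.ext
    have h2 : ((aeval (⟨z, hz⟩ : integralClosure R F) f : integralClosure R F) : F) = aeval z f := by
      rw [← Subalgebra.coe_val, ← aeval_algHom_apply]
      rfl
    rw [h2, ← eval_map_algebraMap, h0]
    rfl
  obtain ⟨q, hq⟩ := dvd_iff_isRoot.mpr (hev x hx hfx)
  have h1 := hev y hy hfy
  rw [hq, eval_mul, eval_sub, eval_X, eval_C] at h1
  have h2 : (⟨y, hy⟩ : integralClosure R F) - ⟨x, hx⟩ ≠ 0 := by
    intro h0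
    exact hne (congrArg Subtype.val (sub_eq_zero.mp h0)).symm
  have h3 : q.IsRoot ⟨y, hy⟩ := (mul_eq_zero.mp h1).resolve_left h2
  obtain ⟨q', hq'⟩ := dvd_iff_isRoot.mpr h3
  have h4 : (f.map π).map (algebraMap κ Fκ) =
      (X - C (ρ ⟨x, hx⟩)) * ((X - C (ρ ⟨x, hx⟩)) * q'.map ρ) := by
    have h5 := congrArg (Polynomial.map ρ) hq
    rw [hq', Polynomial.map_map, Polynomial.map_mul, Polynomial.map_mul, Polynomial.map_sub,
      Polynomial.map_sub, map_X, map_C, map_C] at h5
    have h6 : ρ.comp (algebraMap R (integralClosure R F)) = (algebraMap κ Fκ).comp π :=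
      RingHom.ext hρ
    rw [Polynomial.map_map, ← h6, h5, h]
  have h5 := (separable_map (algebraMap κ Fκ)).mpr hs
  rw [h4] at h5
  have h6 : (X - C (ρ ⟨x, hx⟩)) * (X - C (ρ ⟨x, hx⟩)) ∣
      (X - C (ρ ⟨x, hx⟩)) * ((X - C (ρ ⟨x, hx⟩)) * q'.map ρ) := by
    rw [← mul_assoc]
    exact Dvd.intro _ rfl
  exact not_isUnit_X_sub_C _ (h5.squarefree _ h6)

end Red

end Pool.Agent.Lib.MP_89bcae_ag
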