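import Mathlib
import Pool.Agent.Lib.MP_89bcae_ag.Rk.K024
import Pool.Agent.Lib.MP_89bcae_ag.Rk.K025

namespace Pool.Agent.Lib.MP_89bcae_ag.Sup
end Pool.Agent.Lib.MP_89bcae_ag.Sup

section

/-!
# Orders at a discrete valuation of a subfield
-/

open Polynomial WithZero

open scoped Classical

namespace Pool.Agent.Lib.MP_89bcae_ag

section Order

variable {k F : Type*} [Field k] [Field F] [Algebra k F] {K : IntermediateField k F}
  (w : Valuation K ℤᵐ⁰)

/-- Minus the additive order at `w` of the element `x` of `F`, for `x` in `K`. -/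
noncomputable def ordF7 (x : F) : ℤ := if h : x ∈ K then WithZero.log (w ⟨x, h⟩) else 0

theorem ordF7_of_mem {x : F} (h : x ∈ K) : ordF7 w x = WithZero.log (w ⟨x, h⟩) := dif_pos h

theorem ordF7_mul {x y : F} (hx : x ∈ K) (hy : y ∈ K) (hx0 : x ≠ 0) (hy0 : y ≠ 0) :
    ordF7 w (x * y) = ordF7 w x + ordF7 w y := by
  rw [ordF7_of_mem w hx, ordF7_of_mem w hy, ordF7_of_mem w (K.mul_mem hx hy)]
  have h1 : w ⟨x, hx⟩ ≠ 0 := (Valuation.ne_zero_iff w).2 fun h => hx0 (congrArg Subtype.val h)
  have h2 : w ⟨y, hy⟩ ≠ 0 := (Valuation.ne_zero_iff w).2 fun h => hy0 (congrArg Subtype.val h)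
  rw [← WithZero.log_mul h1 h2, ← map_mul]
  rfl

theorem ordF7_one : ordF7 w (1 : F) = 0 := by
  rw [ordF7_of_mem w K.one_mem]
  have : (⟨1, K.one_mem⟩ : K) = 1 := rfl
  rw [this, map_one, WithZero.log_one]

theorem ordF7_neg (x : F) : ordF7 w (-x) = ordF7 w x := by
  by_cases hx : x ∈ K
  · rw [ordF7_of_mem w hx, ordF7_of_mem w (K.neg_mem hx)]
    have : (⟨-x, K.neg_mem hx⟩ : K) = -⟨x, hx⟩ := rfl
    rw [this, Valuation.map_neg]
  · rw [ordF7, ordF7, dif_neg hx, dif_neg fun h => hx (by simpa using K.neg_mem h)]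

theorem ordF7_sub_comm (x y : F) : ordF7 w (x - y) = ordF7 w (y - x) := by
  rw [← ordF7_neg w (x - y), neg_sub]

theorem ordF7_prod {ι : Type*} (s : Finset ι) (f : ι → F) (hf : ∀ i ∈ s, f i ∈ K)
    (hf0 : ∀ i ∈ s, f i ≠ 0) : ordF7 w (∏ i ∈ s, f i) = ∑ i ∈ s, ordF7 w (f i) := by
  induction s using Finset.induction_on with
  | empty => simp [ordF7_one]
  | insert i s hi ih =>
    rw [Finset.prod_insert hi, Finset.sum_insert hi,
      ordF7_mul w (hf i (Finset.mem_insert_self i s))
        (K.prod_mem fun j hj => hf j (Finset.mem_insert_of_mem hj))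
        (hf0 i (Finset.mem_insert_self i s))
        (Finset.prod_ne_zero_iff.2 fun j hj => hf0 j (Finset.mem_insert_of_mem hj)),
      ih (fun j hj => hf j (Finset.mem_insert_of_mem hj))
        (fun j hj => hf0 j (Finset.mem_insert_of_mem hj))]

end Order

/-- If non-positive integers have sum `-1`, one of them is `-1` and the others vanish. -/
theorem exists_of_sum_eq_neg_one7 {ι : Type*} (s : Finset ι) (f : ι → ℤ) (hf : ∀ i ∈ s, f i ≤ 0)
    (h : ∑ i ∈ s, f i = -1) : ∃ i ∈ s, f i = -1 ∧ ∀ j ∈ s, j ≠ i → f j = 0 := by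
  have h1 : ∃ i ∈ s, f i < 0 := by
    by_contra! hcon
    have : 0 ≤ ∑ i ∈ s, f i := Finset.sum_nonneg hcon
    omega
  obtain ⟨i, hi, hi0⟩ := h1
  have h2 : ∀ j ∈ s.erase i, f j ≤ 0 := fun j hj => hf j (Finset.mem_of_mem_erase hj)
  have h3 := Finset.add_sum_erase s f hi
  have h4 := Finset.sum_nonpos h2
  refine ⟨i, hi, by omega, fun j hj hji => ?_⟩
  exact (Finset.sum_eq_zero_iff_of_nonpos h2).1 (by omega) j (Finset.mem_erase.2 ⟨hji, hj⟩)

end Pool.Agent.Lib.MP_89bcae_ag

end

section

/-!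
# The valuation attached to a simple collision
-/

open Polynomial IsDedekindDomain WithZero

open scoped Classical Pointwise

namespace Pool.Agent.Lib.MP_89bcae_ag

set_option linter.style.haveILetI false
set_option linter.unusedSectionVars false

/-- A root of a polynomial with invertible leading coefficient is integral. -/
lemma integral_root7 {R F : Type*} [CommRing R] [IsDomain R] [Field F] [Algebra R F] {f : R[X]}
    (hu : IsUnit f.leadingCoeff) {x : F} (hx : aeval x f = 0) : IsIntegral R x := by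
  obtain ⟨u, hu⟩ := hu
  refine ⟨C (↑u⁻¹ : R) * f, ?_, ?_⟩
  · rw [Monic, leadingCoeff_mul, leadingCoeff_C, ← hu]
    exact u.inv_mul
  · rw [eval₂_mul]
    change _ * aeval x f = 0
    rw [hx, mul_zero]

lemma deriv_eval7 {K : Type*} [Field K] (α₁ α₂ : K) (p : K[X]) (x : K) :
    (derivative ((X - C α₁) * (X - C α₂) * p)).eval x =
      ((x - α₁) + (x - α₂)) * p.eval x + (x - α₁) * (x - α₂) * (derivative p).eval x := by
  simp only [derivative_mul, derivative_sub, derivative_X, derivative_C, eval_add, eval_mul,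
    eval_sub, eval_X, eval_C, eval_one, eval_zero]
  ring

/-- The valuation attached to a simple collision. -/
theorem exists_val7 {R k K : Type*} [CommRing R] [IsDomain R] [IsDiscreteValuationRing R] [Field k]
    [Algebra R k] [IsFractionRing R k] [Field K] [Algebra k K] [Algebra R K] [IsScalarTower R k K]
    [FiniteDimensional k K] [IsGalois k K] (h2 : IsUnit (2 : R)) {g D : R[X]}
    (hgdeg : g.natDegree ≠ 0) (hg : g.Monic) (hlc : IsUnit D.leadingCoeff) (S A : Finset K)
    (hDA : D.map (algebraMap R K) =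
      C (algebraMap R K D.leadingCoeff) * ∏ α ∈ A, (X - C α))
    (hgS : ∀ α ∈ A, g.map (algebraMap R K) - C α =
      ∏ b ∈ S.filter (fun b => (g.map (algebraMap R K)).eval b = α), (X - C b))
    (hSA : ∀ b ∈ S, (g.map (algebraMap R K)).eval b ∈ A)
    (hgen : ∀ σ : K ≃ₐ[k] K, (∀ b ∈ S, σ b = b) → σ = 1) (hcol : IsCollision7 g D) :
    ∃ w : Valuation K ℤᵐ⁰, w (algebraMap R K D.leadingCoeff) = 1 ∧ (∀ b ∈ S, w b ≤ 1) ∧
      (∀ b ∈ S, ∀ c ∈ S, b ≠ c → (g.map (algebraMap R K)).eval b =
        (g.map (algebraMap R K)).eval c → w (b - c) = 1) ∧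
      ∃ α₁ ∈ A, ∃ α₂ ∈ A, α₁ ≠ α₂ ∧ w (α₁ - α₂) = exp (-1 : ℤ) ∧
        ∀ α ∈ A, ∀ α' ∈ A, α ≠ α' → ¬ (α = α₁ ∧ α' = α₂) → ¬ (α = α₂ ∧ α' = α₁) →
          w (α - α') = 1 := by
  obtain ⟨a, h, hDred, hsepc, hDa⟩ := hcol
  -- the integral closure
  set B := integralClosure R K with hB
  haveI : IsDedekindDomain B := integralClosure.isDedekindDomain R k K
  haveI : Module.Finite R B := IsIntegralClosure.finite R k K B
  haveI : IsFractionRing B K := integralClosure.isFractionRing_of_finite_extension k K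
  haveI : SMulCommClass (K ≃ₐ[k] K) R K := ⟨fun σ r x => by
    rw [AlgEquiv.smul_def, AlgEquiv.smul_def, Algebra.smul_def, Algebra.smul_def, map_mul,
      IsScalarTower.algebraMap_apply R k K, AlgEquiv.commutes]⟩
  haveI : IsGaloisGroup (K ≃ₐ[k] K) R B := IsGaloisGroup.of_isFractionRing _ _ _ k K
  have hinjK : Function.Injective (algebraMap R K) := by
    rw [IsScalarTower.algebraMap_eq R k K]
    exact (algebraMap k K).injective.comp (IsFractionRing.injective R k)
  have hinjB : Function.Injective (algebraMap B K) := Subtype.val_injective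
  haveI : FaithfulSMul R B := by
    rw [faithfulSMul_iff_algebraMap_injective]
    intro x y hxy
    exact hinjK (congrArg (algebraMap B K) hxy)
  haveI : Module.IsTorsionFree R B := inferInstance
  haveI : Module.Flat R B := inferInstance
  let v : HeightOneSpectrum R := IsDiscreteValuationRing.maximalIdeal R
  have hvmax : v.asIdeal.IsMaximal := v.isMaximal
  obtain ⟨P, hPmax, hPv⟩ := Ideal.exists_maximal_ideal_liesOver_of_isIntegral (S := B) v.asIdeal
  have hP0 : P ≠ ⊥ := Ideal.ne_bot_of_liesOver_of_ne_bot v.ne_bot P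
  let w : HeightOneSpectrum B := ⟨P, hPmax.isPrime, hP0⟩
  have hwv : w.asIdeal.LiesOver v.asIdeal := hPv
  -- the ramification index
  have he : v.asIdeal.ramificationIdx' w.asIdeal ≤ Nat.card (P.inertia (K ≃ₐ[k] K)) := by
    rw [Ideal.ramificationIdx'_eq_ramificationIdx v.asIdeal w.asIdeal v.ne_bot]
    exact ramificationIdx_le_card_inertia7 v.asIdeal P
  -- the residue field
  letI : Field (B ⧸ P) := Ideal.Quotient.field P
  set q : B →+* B ⧸ P := Ideal.Quotient.mk P with hq
  have hq0 : ∀ x : B, q x = 0 ↔ x ∈ P := fun x => Ideal.Quotient.eq_zero_iff_mem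
  have hmP : ∀ r : R, r ∈ IsLocalRing.maximalIdeal R → q (algebraMap R B r) = 0 := by
    intro r hr
    rw [hq0]
    have h1 : r ∈ Ideal.comap (algebraMap R B) P := by
      rw [← Ideal.under_def, ← hPv.over]
      exact hr
    exact h1
  let ψ : IsLocalRing.ResidueField R →+* B ⧸ P :=
    Ideal.Quotient.lift (IsLocalRing.maximalIdeal R) (q.comp (algebraMap R B)) hmP
  have hψ : ∀ r : R, ψ (IsLocalRing.residue R r) = q (algebraMap R B r) := fun r => rfl
  have hψc : ψ.comp (IsLocalRing.residue R) = q.comp (algebraMap R B) := RingHom.ext hψ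
  have hu2 : q (2 : B) ≠ 0 := by
    have h1 := (h2.map (algebraMap R B)).map q
    rw [map_ofNat] at h1
    exact h1.ne_zero
  have hulc : q (algebraMap R B D.leadingCoeff) ≠ 0 := ((hlc.map (algebraMap R B)).map q).ne_zero
  -- integrality of the roots
  have hAroot : ∀ α ∈ A, aeval α D = 0 := by
    intro α hα
    rw [← eval_map_algebraMap, hDA, eval_mul, eval_prod, Finset.prod_eq_zero hα (by simp), mul_zero]
  have hAint : ∀ α ∈ A, IsIntegral R α := fun α hα => integral_root7 hlc (hAroot α hα)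
  have hSint : ∀ b ∈ S, IsIntegral R b := by
    intro b hb
    have h1 := hAroot _ (hSA b hb)
    refine integral_root7 (f := D.comp g) ?_ (x := b) ?_
    · rw [leadingCoeff_comp hgdeg, hg.leadingCoeff, one_pow, mul_one]
      exact hlc
    · rw [aeval_comp, ← eval_map_algebraMap g b]
      exact h1
  have hval : ∀ x : K, IsIntegral R x → w.valuation K x ≤ 1 := fun x hx =>
    w.valuation_le_one (⟨x, hx⟩ : B)
  have hval1 : ∀ (x : K) (hx : IsIntegral R x), w.valuation K x < 1 ↔ q ⟨x, hx⟩ = 0 := fun x hx => by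
    rw [hq0]
    exact w.valuation_lt_one_iff_mem (⟨x, hx⟩ : B)
  have hval2 : ∀ (x : K) (hx : IsIntegral R x), w.valuation K x = 1 ↔ q ⟨x, hx⟩ ≠ 0 := fun x hx => by
    rw [Ne, ← hval1 x hx, not_lt]
    exact ⟨fun h => h.ge, fun h => le_antisymm (hval x hx) h⟩
  -- the reductions of the roots
  let β : K → B := fun x => if hx : IsIntegral R x then ⟨x, hx⟩ else 0
  have hβ : ∀ x, IsIntegral R x → algebraMap B K (β x) = x := by
    intro x hx
    have h1 : β x = ⟨x, hx⟩ := dif_pos hx
    rw [h1]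
    rfl
  have hβv1 : ∀ x, IsIntegral R x → (w.valuation K x < 1 ↔ q (β x) = 0) := by
    intro x hx
    have h1 : β x = ⟨x, hx⟩ := dif_pos hx
    rw [h1]
    exact hval1 x hx
  have hβv2 : ∀ x, IsIntegral R x → (w.valuation K x = 1 ↔ q (β x) ≠ 0) := by
    intro x hx
    have h1 : β x = ⟨x, hx⟩ := dif_pos hx
    rw [h1]
    exact hval2 x hx
  have hβsub : ∀ x y, IsIntegral R x → IsIntegral R y → β (x - y) = β x - β y := by
    intro x y hx hy
    apply hinjB
    rw [map_sub, hβ _ (hx.sub hy), hβ x hx, hβ y hy]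
  have hDB : D.map (algebraMap R B) = C (algebraMap R B D.leadingCoeff) *
      ∏ α ∈ A, (X - C (β α)) := by
    apply map_prod_red7 hinjB (fun α hα => hβ α (hAint α hα))
    rw [Polynomial.map_map]
    exact hDA
  have hgB : ∀ α ∈ A, g.map (algebraMap R B) - C (β α) =
      ∏ b ∈ S.filter (fun b => (g.map (algebraMap R K)).eval b = α), (X - C (β b)) := by
    intro α hα
    have h1 := map_prod_red7 (p := g.map (algebraMap R B) - C (β α)) (c := 1)
      (T := S.filter (fun b => (g.map (algebraMap R K)).eval b = α)) hinjB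
      (fun b hb => hβ b (hSint b (Finset.mem_filter.mp hb).1)) (by
        rw [Polynomial.map_sub, Polynomial.map_map, map_C, hβ α (hAint α hα), map_one, C_1, one_mul]
        exact hgS α hα)
    rw [C_1, one_mul] at h1
    exact h1
  -- the reductions
  set ā := ψ (IsLocalRing.residue R a) with hā
  set h₁ : (B ⧸ P)[X] := ((X - C (IsLocalRing.residue R a)) * h).map ψ with hh₁
  set gκ : (B ⧸ P)[X] := (g.map (IsLocalRing.residue R)).map ψ with hgκ
  have hgκ' : gκ = (g.map (algebraMap R B)).map q := by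
    rw [hgκ, Polynomial.map_map, Polynomial.map_map, hψc]
  have hsep2 : (h₁.comp gκ).Separable := by
    have h1 := hsepc.map (f := ψ)
    rw [Polynomial.map_comp] at h1
    exact h1
  have hgκdeg : gκ.natDegree ≠ 0 := by
    rw [hgκ, natDegree_map, hg.natDegree_map]
    exact hgdeg
  have hsep1 : h₁.Separable := separable_left7 hgκdeg hsep2
  have hh₁a : h₁.eval ā = 0 := by
    rw [hh₁, Polynomial.map_mul, Polynomial.map_sub, map_X, map_C, eval_mul, eval_sub, eval_X,
      eval_C, sub_self, zero_mul]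
  have hDκ : C (q (algebraMap R B D.leadingCoeff)) * ∏ α ∈ A, (X - C (q (β α))) =
      (X - C ā) * h₁ := by
    have h1 := congrArg (Polynomial.map q) hDB
    rw [map_prod_red7', Polynomial.map_map, ← hψc, ← Polynomial.map_map, hDred] at h1
    rw [← h1, hh₁, Polynomial.map_mul, Polynomial.map_mul, Polynomial.map_pow, Polynomial.map_sub,
      map_X, map_C]
    ring
  obtain ⟨hA1, hA2, hA3⟩ := res_roots7 hulc hsep1 hh₁a hDκ
  have hfib : ∀ b ∈ S, ∀ c ∈ S, b ≠ c → (g.map (algebraMap R K)).eval b =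
        (g.map (algebraMap R K)).eval c → q (β b) ≠ q (β c) := by
    intro b hb c hc hbc hgbc
    have h1 := congrArg (Polynomial.map q) (hgB _ (hSA b hb))
    rw [Polynomial.map_sub, map_C, ← hgκ', Polynomial.map_prod] at h1
    simp only [Polynomial.map_sub, map_X, map_C] at h1
    exact res_fibre7 hsep2 (hA3 _ (hSA b hb)) h1 b (Finset.mem_filter.mpr ⟨hb, rfl⟩) c
      (Finset.mem_filter.mpr ⟨hc, hgbc.symm⟩) hbc
  obtain ⟨α₁, α₂, h12, hfil⟩ := Finset.card_eq_two.mp hA2
  have hm1 : α₁ ∈ A ∧ q (β α₁) = ā := by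
    have h3 : α₁ ∈ A.filter fun α => q (β α) = ā := by rw [hfil]; simp
    exact Finset.mem_filter.mp h3
  have hm2 : α₂ ∈ A ∧ q (β α₂) = ā := by
    have h3 : α₂ ∈ A.filter fun α => q (β α) = ā := by rw [hfil]; simp
    exact Finset.mem_filter.mp h3
  have hmem12 : ∀ α ∈ A, q (β α) = ā → α = α₁ ∨ α = α₂ := by
    intro α hα h1
    have h3 : α ∈ A.filter fun α => q (β α) = ā := Finset.mem_filter.mpr ⟨hα, h1⟩
    rw [hfil] at h3
    simpa using h3
  -- the inertia group
  have hAmem : ∀ α : K, (D.map (algebraMap R K)).eval α = 0 → α ∈ A := by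
    intro α hα
    rw [hDA, eval_mul, eval_C, eval_prod, mul_eq_zero] at hα
    rcases hα with hα | hα
    · exact absurd (hinjK (hα.trans (map_zero _).symm)) hlc.ne_zero
    · obtain ⟨α', h1, h3⟩ := Finset.prod_eq_zero_iff.mp hα
      rw [eval_sub, eval_X, eval_C, sub_eq_zero] at h3
      rw [h3]
      exact h1
  have hSmem : ∀ b : K, (g.map (algebraMap R K)).eval b ∈ A → b ∈ S := by
    intro b hb
    have h1 := congrArg (eval b) (hgS _ hb)
    rw [eval_sub, eval_C, sub_self, eval_prod, eq_comm] at h1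
    obtain ⟨b', h3, h4⟩ := Finset.prod_eq_zero_iff.mp h1
    rw [eval_sub, eval_X, eval_C, sub_eq_zero] at h4
    rw [h4]
    exact (Finset.mem_filter.mp h3).1
  have hσev : ∀ (σ : K ≃ₐ[k] K) (p : R[X]) (x : K), (p.map (algebraMap R K)).eval (σ x) =
      σ ((p.map (algebraMap R K)).eval x) := by
    intro σ p x
    have h1 : (σ : K →+* K).comp (algebraMap R K) = algebraMap R K := by
      ext r
      change σ (algebraMap R K r) = algebraMap R K r
      rw [IsScalarTower.algebraMap_apply R k K]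
      exact σ.commutes _
    have h3 := Polynomial.hom_eval₂ p (algebraMap R K) (σ : K →+* K) x
    rw [h1] at h3
    rw [eval_map, eval_map]
    exact h3.symm
  have hσA : ∀ (σ : K ≃ₐ[k] K), ∀ α ∈ A, σ α ∈ A := by
    intro σ α hα
    apply hAmem
    rw [hσev, hDA, eval_mul, eval_prod, Finset.prod_eq_zero hα (by simp), mul_zero, map_zero]
  have hσS : ∀ (σ : K ≃ₐ[k] K), ∀ b ∈ S, σ b ∈ S := by
    intro σ b hb
    apply hSmem
    rw [hσev]
    exact hσA σ _ (hSA b hb)
  have hσint : ∀ (σ : K ≃ₐ[k] K) (x : K), IsIntegral R x → IsIntegral R (σ x) := by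
    intro σ x hx
    exact hx.map (σ.restrictScalars R)
  have hine : ∀ σ ∈ P.inertia (K ≃ₐ[k] K), ∀ x : K, IsIntegral R x → q (β (σ x)) = q (β x) := by
    intro σ hσ x hx
    have h1 : σ • (β x) - β x ∈ P := hσ (β x)
    have h3 : σ • (β x) = β (σ x) := by
      apply hinjB
      rw [hβ _ (hσint σ x hx)]
      change σ ((β x : B) : K) = σ x
      congr 1
      exact hβ x hx
    rw [h3, ← hq0, map_sub, sub_eq_zero] at h1
    exact h1
  have hine1 : ∀ σ ∈ P.inertia (K ≃ₐ[k] K), σ α₁ = α₁ → σ = 1 := by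
    intro σ hσ h1
    apply hgen
    intro b hb
    by_contra hne
    have h3 := hine σ hσ b (hSint b hb)
    by_cases h4 : (g.map (algebraMap R K)).eval (σ b) = (g.map (algebraMap R K)).eval b
    · exact hfib _ (hσS σ b hb) b hb hne h4 h3
    · rw [hσev] at h4
      have hα := hSA b hb
      have h5 := hine σ hσ _ (hAint _ hα)
      have h6 := hA1 _ (hσA σ _ hα) _ hα h4 h5
      have h7 := hmem12 _ (hσA σ _ hα) h6
      have h8 := hmem12 _ hα (h5 ▸ h6)
      rcases h8 with h8 | h8
      · rw [h8] at h4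
        exact h4 h1
      · rw [h8] at h4 h7
        rcases h7 with h7 | h7
        · exact h12 (σ.injective (h1.trans h7.symm))
        · exact h4 h7
  have hcard : Nat.card (P.inertia (K ≃ₐ[k] K)) ≤ 2 := by
    have h1 : Function.Injective (fun σ : P.inertia (K ≃ₐ[k] K) =>
        (⟨(σ : K ≃ₐ[k] K) α₁, by
          have h3 := hine σ σ.2 α₁ (hAint _ hm1.1)
          have h4 := hmem12 _ (hσA σ _ hm1.1) (h3.trans hm1.2)
          simpa using h4⟩ : ({α₁, α₂} : Finset K))) := by
      intro σ τ hστ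
      have h3 : (σ : K ≃ₐ[k] K) α₁ = (τ : K ≃ₐ[k] K) α₁ := congrArg Subtype.val hστ
      have h4 : (τ⁻¹ * σ : P.inertia (K ≃ₐ[k] K)) = 1 := by
        apply Subtype.ext
        apply hine1 _ (τ⁻¹ * σ).2
        change (τ : K ≃ₐ[k] K).symm ((σ : K ≃ₐ[k] K) α₁) = α₁
        rw [h3, AlgEquiv.symm_apply_apply]
      exact (inv_mul_eq_one.mp h4).symm
    have h3 := Nat.card_le_card_of_injective _ h1
    rw [Nat.card_eq_fintype_card (α := ({α₁, α₂} : Finset K)), Fintype.card_coe] at h3
    exact h3.trans Finset.card_le_two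
  set e := v.asIdeal.ramificationIdx' w.asIdeal with hedef
  have he2 : e ≤ 2 := he.trans hcard
  -- the valuations of `D(a)` and `D'(a)`
  have hWk : ∀ r : R, w.valuation K (algebraMap R K r) = v.intValuation r ^ e := by
    intro r
    have h1 := HeightOneSpectrum.valuation_liesOver K v w (algebraMap R k r)
    rw [← IsScalarTower.algebraMap_apply] at h1
    rw [← h1]
    congr 1
    exact HeightOneSpectrum.valuation_of_algebraMap (K := k) v r
  have hDa1 : D.eval a ∈ IsLocalRing.maximalIdeal R := by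
    rw [← IsLocalRing.residue_eq_zero_iff, ← eval₂_at_apply, ← eval_map, hDred]
    simp
  have hDa2 : (derivative D).eval a ∈ IsLocalRing.maximalIdeal R := by
    rw [← IsLocalRing.residue_eq_zero_iff, ← eval₂_at_apply, ← eval_map, ← derivative_map, hDred,
      derivative_mul, derivative_X_sub_C_sq]
    simp
  have hvm : ∀ (r : R) (n : ℕ), v.intValuation r ≤ exp (-(n : ℤ)) ↔
      r ∈ IsLocalRing.maximalIdeal R ^ n := fun r n => v.intValuation_le_pow_iff_mem r n
  have hD0 : D.eval a ≠ 0 := by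
    intro h0
    rw [h0] at hDa
    exact hDa (Ideal.zero_mem _)
  have hvD : v.intValuation (D.eval a) = exp (-1 : ℤ) := by
    have h1 := (hvm (D.eval a) 1).mpr (by rw [pow_one]; exact hDa1)
    have h3 : ¬ v.intValuation (D.eval a) ≤ exp (-((2 : ℕ) : ℤ)) := fun h4 =>
      hDa ((hvm (D.eval a) 2).mp h4)
    have h5 : v.intValuation (D.eval a) ≠ 0 := v.intValuation_ne_zero _ hD0
    have h6 := exp_log h5
    rw [← h6] at h1 h3 ⊢
    rw [exp_le_exp] at h1 h3
    rw [exp_inj]
    push_cast at h1 h3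
    omega
  have hvD' : v.intValuation ((derivative D).eval a) ≤ exp (-1 : ℤ) := by
    have h1 := (hvm ((derivative D).eval a) 1).mpr (by rw [pow_one]; exact hDa2)
    simpa using h1
  -- the factorisation of `D`
  set W := w.valuation K with hW
  have haint : IsIntegral R (algebraMap R K a) := isIntegral_algebraMap
  have hβa : β (algebraMap R K a) = algebraMap R B a := by
    apply hinjB
    rw [hβ _ haint]
    rfl
  set A' := (A.erase α₁).erase α₂ with hA'
  have hA'A : ∀ α ∈ A', α ∈ A ∧ α ≠ α₁ ∧ α ≠ α₂ := by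
    intro α hα
    rw [hA', Finset.mem_erase, Finset.mem_erase] at hα
    exact ⟨hα.2.2, hα.2.1, hα.1⟩
  have hsplit : ∀ f : K → K[X], ∏ α ∈ A, f α = f α₁ * (f α₂ * ∏ α ∈ A', f α) := by
    intro f
    rw [hA', Finset.mul_prod_erase (A.erase α₁) f (Finset.mem_erase.mpr ⟨h12.symm, hm2.1⟩),
      Finset.mul_prod_erase A f hm1.1]
  set D₁ : K[X] := C (algebraMap R K D.leadingCoeff) * ∏ α ∈ A', (X - C α) with hD₁
  have hDD₁ : D.map (algebraMap R K) = (X - C α₁) * (X - C α₂) * D₁ := by
    rw [hDA, hsplit, hD₁]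
    ring
  have hWint : ∀ x : K, IsIntegral R x → W x ≤ 1 := hval
  have hWlc : W (algebraMap R K D.leadingCoeff) = 1 := by
    have h1 := hWint _ (isIntegral_algebraMap (x := D.leadingCoeff) (R := R) (A := K))
    obtain ⟨u, hu⟩ := hlc
    have h3 := hWint _ (isIntegral_algebraMap (x := (↑u⁻¹ : R)) (R := R) (A := K))
    rw [← hu] at h1 ⊢
    have h4 : W (algebraMap R K u) * W (algebraMap R K ↑u⁻¹) = 1 := by
      rw [← map_mul, ← map_mul, Units.mul_inv, map_one, map_one]
    refine le_antisymm h1 ?_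
    rw [← h4]
    exact mul_le_of_le_one_right' h3
  have hWD₁ : W (D₁.eval (algebraMap R K a)) = 1 := by
    rw [hD₁, eval_mul, eval_C, map_mul, hWlc, one_mul, eval_prod, map_prod]
    refine Finset.prod_eq_one fun α hα => ?_
    obtain ⟨h1, h3, h4⟩ := hA'A α hα
    rw [eval_sub, eval_X, eval_C, hβv2 _ (haint.sub (hAint α h1)), hβsub _ _ haint (hAint α h1),
      map_sub, hβa, ← hψ, ← hā, sub_ne_zero]
    intro h5
    rcases hmem12 α h1 h5.symm with h6 | h6
    · exact h3 h6
    · exact h4 h6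
  have hWD₁' : W ((derivative D₁).eval (algebraMap R K a)) ≤ 1 := by
    have h1 : D₁ = (C (algebraMap R B D.leadingCoeff) * ∏ α ∈ A', (X - C (β α))).map
        (algebraMap B K) := by
      rw [hD₁, Polynomial.map_mul, map_C, Polynomial.map_prod]
      congr 1
      refine Finset.prod_congr rfl fun α hα => ?_
      rw [Polynomial.map_sub, map_X, map_C, hβ α (hAint α (hA'A α hα).1)]
    have h3 : algebraMap R K a = algebraMap B K (algebraMap R B a) := rfl
    rw [h1, derivative_map, h3, eval_map, eval₂_at_apply]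
    exact w.valuation_le_one _
  set y₁ := algebraMap R K a - α₁ with hy₁
  set y₂ := algebraMap R K a - α₂ with hy₂
  have hWy₁ : W y₁ < 1 := by
    rw [hy₁, hβv1 _ (haint.sub (hAint α₁ hm1.1)), hβsub _ _ haint (hAint α₁ hm1.1), map_sub, hβa,
      ← hψ, hm1.2, hā, sub_self]
  have hWy₂ : W y₂ < 1 := by
    rw [hy₂, hβv1 _ (haint.sub (hAint α₂ hm2.1)), hβsub _ _ haint (hAint α₂ hm2.1), map_sub, hβa,
      ← hψ, hm2.2, hā, sub_self]
  have hprod : W y₁ * W y₂ = exp (-(e : ℤ)) := by
    have h1 : algebraMap R K (D.eval a) = y₁ * y₂ * D₁.eval (algebraMap R K a) := by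
      rw [← eval₂_at_apply, ← eval_map, hDD₁, eval_mul, eval_mul, eval_sub, eval_sub, eval_X,
        eval_C, eval_C]
    have h3 := congrArg W h1
    rw [hWk, hvD, map_mul, map_mul, hWD₁, mul_one] at h3
    rw [← h3, ← exp_nsmul]
    simp
  have hy₁0 : W y₁ ≠ 0 := by
    intro h0
    rw [h0, zero_mul] at hprod
    exact exp_ne_zero hprod.symm
  have hy₂0 : W y₂ ≠ 0 := by
    intro h0
    rw [h0, mul_zero] at hprod
    exact exp_ne_zero hprod.symm
  have hl : (W y₁ = exp (-1 : ℤ)) ∧ e = 2 := by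
    have h1 := exp_log hy₁0
    have h3 := exp_log hy₂0
    rw [← h1] at hWy₁ hprod ⊢
    rw [← h3] at hWy₂ hprod
    rw [← exp_add, exp_inj] at hprod
    rw [← exp_zero, exp_lt_exp] at hWy₁ hWy₂
    rw [exp_inj]
    omega
  have hsum : W (y₁ + y₂) ≤ exp (-2 : ℤ) := by
    have h1 : algebraMap R K ((derivative D).eval a) = (y₁ + y₂) * D₁.eval (algebraMap R K a) +
        y₁ * y₂ * (derivative D₁).eval (algebraMap R K a) := by
      rw [← eval₂_at_apply, ← eval_map, ← derivative_map, hDD₁]
      exact deriv_eval7 α₁ α₂ D₁ _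
    have h3 : (y₁ + y₂) * D₁.eval (algebraMap R K a) =
        algebraMap R K ((derivative D).eval a) -
          y₁ * y₂ * (derivative D₁).eval (algebraMap R K a) := by
      rw [h1]; ring
    have h4 := congrArg W h3
    rw [map_mul, hWD₁, mul_one] at h4
    rw [h4]
    refine (W.map_sub _ _).trans (max_le ?_ ?_)
    · rw [hWk, hl.2]
      calc v.intValuation ((derivative D).eval a) ^ 2 ≤ exp (-1 : ℤ) ^ 2 :=
            pow_le_pow_left' hvD' 2
        _ = exp (-2 : ℤ) := by rw [← exp_nsmul]; rfl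
    · rw [map_mul, map_mul, hprod, hl.2]
      exact (mul_le_of_le_one_right' hWD₁').trans le_rfl
  have hdiff : W (α₁ - α₂) = exp (-1 : ℤ) := by
    have h1 : α₁ - α₂ = (y₁ + y₂) - 2 * y₁ := by rw [hy₁, hy₂]; ring
    have hW2 : W (2 : K) = 1 := by
      have h3 := hβv2 (2 : K) (by
        have := isIntegral_algebraMap (x := (2 : R)) (R := R) (A := K)
        rwa [map_ofNat] at this)
      rw [h3]
      have h4 : β 2 = 2 := by
        apply hinjB
        rw [hβ, map_ofNat]
        have := isIntegral_algebraMap (x := (2 : R)) (R := R) (A := K)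
        rwa [map_ofNat] at this
      rw [h4]
      exact hu2
    have h3 : W (2 * y₁) = exp (-1 : ℤ) := by rw [map_mul, hW2, one_mul, hl.1]
    have h4 : W (y₁ + y₂) < W (2 * y₁) := by
      rw [h3]
      refine lt_of_le_of_lt hsum ?_
      rw [exp_lt_exp]
      norm_num
    rw [h1, Valuation.map_sub_eq_of_lt_right _ h4, h3]
  refine ⟨W, hWlc, fun b hb => hWint b (hSint b hb), ?_, α₁, hm1.1, α₂, hm2.1, h12, hdiff, ?_⟩
  · intro b hb c hc hbc hgbc
    rw [hβv2 _ ((hSint b hb).sub (hSint c hc)), hβsub _ _ (hSint b hb) (hSint c hc), map_sub,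
      sub_ne_zero]
    exact hfib b hb c hc hbc hgbc
  · intro α hα α' hα' hne h1 h3
    rw [hβv2 _ ((hAint α hα).sub (hAint α' hα')), hβsub _ _ (hAint α hα) (hAint α' hα'), map_sub,
      sub_ne_zero]
    intro h4
    have h5 := hA1 α hα α' hα' hne h4
    have h6 := hmem12 α hα h5
    have h7 := hmem12 α' hα' (h4 ▸ h5)
    rcases h6 with h6 | h6
    · rcases h7 with h7 | h7
      · exact hne (h6.trans h7.symm)
      · exact h1 ⟨h6, h7⟩
    · rcases h7 with h7 | h7
      · exact h3 ⟨h6, h7⟩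
      · exact hne (h6.trans h7.symm)

end Pool.Agent.Lib.MP_89bcae_ag

end

section

/-!
# The transposition attached to a simple collision
-/

open Polynomial IsDedekindDomain WithZero

open scoped Classical Pointwise

namespace Pool.Agent.Lib.MP_89bcae_ag

set_option linter.style.haveILetI false
set_option linter.unusedSectionVars false

/-- The automorphism of the splitting field attached to a simple collision: it exchanges the two
colliding roots of `D` and fixes the others. -/
theorem exists_swap7 {R k K : Type*} [CommRing R] [IsDomain R] [IsDiscreteValuationRing R] [Field k]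
    [Algebra R k] [IsFractionRing R k] [Field K] [Algebra k K] [Algebra R K] [IsScalarTower R k K]
    [FiniteDimensional k K] [IsGalois k K] (h2 : IsUnit (2 : R)) {g D : R[X]}
    (hgdeg : g.natDegree ≠ 0) (hg : g.Monic) (hlc : IsUnit D.leadingCoeff) (S A : Finset K)
    (hDA : D.map (algebraMap R K) =
      C (algebraMap R K D.leadingCoeff) * ∏ α ∈ A, (X - C α))
    (hgS : ∀ α ∈ A, g.map (algebraMap R K) - C α =
      ∏ b ∈ S.filter (fun b => (g.map (algebraMap R K)).eval b = α), (X - C b))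
    (hSA : ∀ b ∈ S, (g.map (algebraMap R K)).eval b ∈ A)
    (hgen : ∀ σ : K ≃ₐ[k] K, (∀ b ∈ S, σ b = b) → σ = 1) (hcol : IsCollision7 g D) :
    ∃ (σ : K ≃ₐ[k] K) (α₁ α₂ : K), α₁ ∈ A ∧ α₂ ∈ A ∧ α₁ ≠ α₂ ∧ σ α₁ = α₂ ∧ σ α₂ = α₁ ∧
      ∀ α ∈ A, α ≠ α₁ → α ≠ α₂ → σ α = α := by
  obtain ⟨a, h, hDred, hsepc, hDa⟩ := hcol
  -- the integral closure
  set B := integralClosure R K with hB
  haveI : IsDedekindDomain B := integralClosure.isDedekindDomain R k K
  haveI : Module.Finite R B := IsIntegralClosure.finite R k K B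
  haveI : IsFractionRing B K := integralClosure.isFractionRing_of_finite_extension k K
  haveI : SMulCommClass (K ≃ₐ[k] K) R K := ⟨fun σ r x => by
    rw [AlgEquiv.smul_def, AlgEquiv.smul_def, Algebra.smul_def, Algebra.smul_def, map_mul,
      IsScalarTower.algebraMap_apply R k K, AlgEquiv.commutes]⟩
  haveI : IsGaloisGroup (K ≃ₐ[k] K) R B := IsGaloisGroup.of_isFractionRing _ _ _ k K
  have hinjK : Function.Injective (algebraMap R K) := by
    rw [IsScalarTower.algebraMap_eq R k K]
    exact (algebraMap k K).injective.comp (IsFractionRing.injective R k)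
  have hinjB : Function.Injective (algebraMap B K) := Subtype.val_injective
  haveI : FaithfulSMul R B := by
    rw [faithfulSMul_iff_algebraMap_injective]
    intro x y hxy
    exact hinjK (congrArg (algebraMap B K) hxy)
  haveI : Module.IsTorsionFree R B := inferInstance
  haveI : Module.Flat R B := inferInstance
  let v : HeightOneSpectrum R := IsDiscreteValuationRing.maximalIdeal R
  have hvmax : v.asIdeal.IsMaximal := v.isMaximal
  obtain ⟨P, hPmax, hPv⟩ := Ideal.exists_maximal_ideal_liesOver_of_isIntegral (S := B) v.asIdeal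
  have hP0 : P ≠ ⊥ := Ideal.ne_bot_of_liesOver_of_ne_bot v.ne_bot P
  let w : HeightOneSpectrum B := ⟨P, hPmax.isPrime, hP0⟩
  have hwv : w.asIdeal.LiesOver v.asIdeal := hPv
  -- the ramification index
  have he : v.asIdeal.ramificationIdx' w.asIdeal ≤ Nat.card (P.inertia (K ≃ₐ[k] K)) := by
    rw [Ideal.ramificationIdx'_eq_ramificationIdx v.asIdeal w.asIdeal v.ne_bot]
    exact ramificationIdx_le_card_inertia7 v.asIdeal P
  -- the residue field
  letI : Field (B ⧸ P) := Ideal.Quotient.field P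
  set q : B →+* B ⧸ P := Ideal.Quotient.mk P with hq
  have hq0 : ∀ x : B, q x = 0 ↔ x ∈ P := fun x => Ideal.Quotient.eq_zero_iff_mem
  have hmP : ∀ r : R, r ∈ IsLocalRing.maximalIdeal R → q (algebraMap R B r) = 0 := by
    intro r hr
    rw [hq0]
    have h1 : r ∈ Ideal.comap (algebraMap R B) P := by
      rw [← Ideal.under_def, ← hPv.over]
      exact hr
    exact h1
  let ψ : IsLocalRing.ResidueField R →+* B ⧸ P :=
    Ideal.Quotient.lift (IsLocalRing.maximalIdeal R) (q.comp (algebraMap R B)) hmP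
  have hψ : ∀ r : R, ψ (IsLocalRing.residue R r) = q (algebraMap R B r) := fun r => rfl
  have hψc : ψ.comp (IsLocalRing.residue R) = q.comp (algebraMap R B) := RingHom.ext hψ
  have hu2 : q (2 : B) ≠ 0 := by
    have h1 := (h2.map (algebraMap R B)).map q
    rw [map_ofNat] at h1
    exact h1.ne_zero
  have hulc : q (algebraMap R B D.leadingCoeff) ≠ 0 := ((hlc.map (algebraMap R B)).map q).ne_zero
  -- integrality of the roots
  have hAroot : ∀ α ∈ A, aeval α D = 0 := by
    intro α hα
    rw [← eval_map_algebraMap, hDA, eval_mul, eval_prod, Finset.prod_eq_zero hα (by simp), mul_zero]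
  have hAint : ∀ α ∈ A, IsIntegral R α := fun α hα => integral_root7 hlc (hAroot α hα)
  have hSint : ∀ b ∈ S, IsIntegral R b := by
    intro b hb
    have h1 := hAroot _ (hSA b hb)
    refine integral_root7 (f := D.comp g) ?_ (x := b) ?_
    · rw [leadingCoeff_comp hgdeg, hg.leadingCoeff, one_pow, mul_one]
      exact hlc
    · rw [aeval_comp, ← eval_map_algebraMap g b]
      exact h1
  have hval : ∀ x : K, IsIntegral R x → w.valuation K x ≤ 1 := fun x hx =>
    w.valuation_le_one (⟨x, hx⟩ : B)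
  have hval1 : ∀ (x : K) (hx : IsIntegral R x), w.valuation K x < 1 ↔ q ⟨x, hx⟩ = 0 := fun x hx => by
    rw [hq0]
    exact w.valuation_lt_one_iff_mem (⟨x, hx⟩ : B)
  have hval2 : ∀ (x : K) (hx : IsIntegral R x), w.valuation K x = 1 ↔ q ⟨x, hx⟩ ≠ 0 := fun x hx => by
    rw [Ne, ← hval1 x hx, not_lt]
    exact ⟨fun h => h.ge, fun h => le_antisymm (hval x hx) h⟩
  -- the reductions of the roots
  let β : K → B := fun x => if hx : IsIntegral R x then ⟨x, hx⟩ else 0
  have hβ : ∀ x, IsIntegral R x → algebraMap B K (β x) = x := by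
    intro x hx
    have h1 : β x = ⟨x, hx⟩ := dif_pos hx
    rw [h1]
    rfl
  have hβv1 : ∀ x, IsIntegral R x → (w.valuation K x < 1 ↔ q (β x) = 0) := by
    intro x hx
    have h1 : β x = ⟨x, hx⟩ := dif_pos hx
    rw [h1]
    exact hval1 x hx
  have hβv2 : ∀ x, IsIntegral R x → (w.valuation K x = 1 ↔ q (β x) ≠ 0) := by
    intro x hx
    have h1 : β x = ⟨x, hx⟩ := dif_pos hx
    rw [h1]
    exact hval2 x hx
  have hβsub : ∀ x y, IsIntegral R x → IsIntegral R y → β (x - y) = β x - β y := by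
    intro x y hx hy
    apply hinjB
    rw [map_sub, hβ _ (hx.sub hy), hβ x hx, hβ y hy]
  have hDB : D.map (algebraMap R B) = C (algebraMap R B D.leadingCoeff) *
      ∏ α ∈ A, (X - C (β α)) := by
    apply map_prod_red7 hinjB (fun α hα => hβ α (hAint α hα))
    rw [Polynomial.map_map]
    exact hDA
  have hgB : ∀ α ∈ A, g.map (algebraMap R B) - C (β α) =
      ∏ b ∈ S.filter (fun b => (g.map (algebraMap R K)).eval b = α), (X - C (β b)) := by
    intro α hα
    have h1 := map_prod_red7 (p := g.map (algebraMap R B) - C (β α)) (c := 1)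
      (T := S.filter (fun b => (g.map (algebraMap R K)).eval b = α)) hinjB
      (fun b hb => hβ b (hSint b (Finset.mem_filter.mp hb).1)) (by
        rw [Polynomial.map_sub, Polynomial.map_map, map_C, hβ α (hAint α hα), map_one, C_1, one_mul]
        exact hgS α hα)
    rw [C_1, one_mul] at h1
    exact h1
  -- the reductions
  set ā := ψ (IsLocalRing.residue R a) with hā
  set h₁ : (B ⧸ P)[X] := ((X - C (IsLocalRing.residue R a)) * h).map ψ with hh₁
  set gκ : (B ⧸ P)[X] := (g.map (IsLocalRing.residue R)).map ψ with hgκ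
  have hgκ' : gκ = (g.map (algebraMap R B)).map q := by
    rw [hgκ, Polynomial.map_map, Polynomial.map_map, hψc]
  have hsep2 : (h₁.comp gκ).Separable := by
    have h1 := hsepc.map (f := ψ)
    rw [Polynomial.map_comp] at h1
    exact h1
  have hgκdeg : gκ.natDegree ≠ 0 := by
    rw [hgκ, natDegree_map, hg.natDegree_map]
    exact hgdeg
  have hsep1 : h₁.Separable := separable_left7 hgκdeg hsep2
  have hh₁a : h₁.eval ā = 0 := by
    rw [hh₁, Polynomial.map_mul, Polynomial.map_sub, map_X, map_C, eval_mul, eval_sub, eval_X,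
      eval_C, sub_self, zero_mul]
  have hDκ : C (q (algebraMap R B D.leadingCoeff)) * ∏ α ∈ A, (X - C (q (β α))) =
      (X - C ā) * h₁ := by
    have h1 := congrArg (Polynomial.map q) hDB
    rw [map_prod_red7', Polynomial.map_map, ← hψc, ← Polynomial.map_map, hDred] at h1
    rw [← h1, hh₁, Polynomial.map_mul, Polynomial.map_mul, Polynomial.map_pow, Polynomial.map_sub,
      map_X, map_C]
    ring
  obtain ⟨hA1, hA2, hA3⟩ := res_roots7 hulc hsep1 hh₁a hDκ
  have hfib : ∀ b ∈ S, ∀ c ∈ S, b ≠ c → (g.map (algebraMap R K)).eval b =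
        (g.map (algebraMap R K)).eval c → q (β b) ≠ q (β c) := by
    intro b hb c hc hbc hgbc
    have h1 := congrArg (Polynomial.map q) (hgB _ (hSA b hb))
    rw [Polynomial.map_sub, map_C, ← hgκ', Polynomial.map_prod] at h1
    simp only [Polynomial.map_sub, map_X, map_C] at h1
    exact res_fibre7 hsep2 (hA3 _ (hSA b hb)) h1 b (Finset.mem_filter.mpr ⟨hb, rfl⟩) c
      (Finset.mem_filter.mpr ⟨hc, hgbc.symm⟩) hbc
  obtain ⟨α₁, α₂, h12, hfil⟩ := Finset.card_eq_two.mp hA2
  have hm1 : α₁ ∈ A ∧ q (β α₁) = ā := by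
    have h3 : α₁ ∈ A.filter fun α => q (β α) = ā := by rw [hfil]; simp
    exact Finset.mem_filter.mp h3
  have hm2 : α₂ ∈ A ∧ q (β α₂) = ā := by
    have h3 : α₂ ∈ A.filter fun α => q (β α) = ā := by rw [hfil]; simp
    exact Finset.mem_filter.mp h3
  have hmem12 : ∀ α ∈ A, q (β α) = ā → α = α₁ ∨ α = α₂ := by
    intro α hα h1
    have h3 : α ∈ A.filter fun α => q (β α) = ā := Finset.mem_filter.mpr ⟨hα, h1⟩
    rw [hfil] at h3
    simpa using h3
  -- the inertia group
  have hAmem : ∀ α : K, (D.map (algebraMap R K)).eval α = 0 → α ∈ A := by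
    intro α hα
    rw [hDA, eval_mul, eval_C, eval_prod, mul_eq_zero] at hα
    rcases hα with hα | hα
    · exact absurd (hinjK (hα.trans (map_zero _).symm)) hlc.ne_zero
    · obtain ⟨α', h1, h3⟩ := Finset.prod_eq_zero_iff.mp hα
      rw [eval_sub, eval_X, eval_C, sub_eq_zero] at h3
      rw [h3]
      exact h1
  have hSmem : ∀ b : K, (g.map (algebraMap R K)).eval b ∈ A → b ∈ S := by
    intro b hb
    have h1 := congrArg (eval b) (hgS _ hb)
    rw [eval_sub, eval_C, sub_self, eval_prod, eq_comm] at h1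
    obtain ⟨b', h3, h4⟩ := Finset.prod_eq_zero_iff.mp h1
    rw [eval_sub, eval_X, eval_C, sub_eq_zero] at h4
    rw [h4]
    exact (Finset.mem_filter.mp h3).1
  have hσev : ∀ (σ : K ≃ₐ[k] K) (p : R[X]) (x : K), (p.map (algebraMap R K)).eval (σ x) =
      σ ((p.map (algebraMap R K)).eval x) := by
    intro σ p x
    have h1 : (σ : K →+* K).comp (algebraMap R K) = algebraMap R K := by
      ext r
      change σ (algebraMap R K r) = algebraMap R K r
      rw [IsScalarTower.algebraMap_apply R k K]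
      exact σ.commutes _
    have h3 := Polynomial.hom_eval₂ p (algebraMap R K) (σ : K →+* K) x
    rw [h1] at h3
    rw [eval_map, eval_map]
    exact h3.symm
  have hσA : ∀ (σ : K ≃ₐ[k] K), ∀ α ∈ A, σ α ∈ A := by
    intro σ α hα
    apply hAmem
    rw [hσev, hDA, eval_mul, eval_prod, Finset.prod_eq_zero hα (by simp), mul_zero, map_zero]
  have hσS : ∀ (σ : K ≃ₐ[k] K), ∀ b ∈ S, σ b ∈ S := by
    intro σ b hb
    apply hSmem
    rw [hσev]
    exact hσA σ _ (hSA b hb)
  have hσint : ∀ (σ : K ≃ₐ[k] K) (x : K), IsIntegral R x → IsIntegral R (σ x) := by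
    intro σ x hx
    exact hx.map (σ.restrictScalars R)
  have hine : ∀ σ ∈ P.inertia (K ≃ₐ[k] K), ∀ x : K, IsIntegral R x → q (β (σ x)) = q (β x) := by
    intro σ hσ x hx
    have h1 : σ • (β x) - β x ∈ P := hσ (β x)
    have h3 : σ • (β x) = β (σ x) := by
      apply hinjB
      rw [hβ _ (hσint σ x hx)]
      change σ ((β x : B) : K) = σ x
      congr 1
      exact hβ x hx
    rw [h3, ← hq0, map_sub, sub_eq_zero] at h1
    exact h1
  have hine1 : ∀ σ ∈ P.inertia (K ≃ₐ[k] K), σ α₁ = α₁ → σ = 1 := by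
    intro σ hσ h1
    apply hgen
    intro b hb
    by_contra hne
    have h3 := hine σ hσ b (hSint b hb)
    by_cases h4 : (g.map (algebraMap R K)).eval (σ b) = (g.map (algebraMap R K)).eval b
    · exact hfib _ (hσS σ b hb) b hb hne h4 h3
    · rw [hσev] at h4
      have hα := hSA b hb
      have h5 := hine σ hσ _ (hAint _ hα)
      have h6 := hA1 _ (hσA σ _ hα) _ hα h4 h5
      have h7 := hmem12 _ (hσA σ _ hα) h6
      have h8 := hmem12 _ hα (h5 ▸ h6)
      rcases h8 with h8 | h8
      · rw [h8] at h4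
        exact h4 h1
      · rw [h8] at h4 h7
        rcases h7 with h7 | h7
        · exact h12 (σ.injective (h1.trans h7.symm))
        · exact h4 h7
  have hcard : Nat.card (P.inertia (K ≃ₐ[k] K)) ≤ 2 := by
    have h1 : Function.Injective (fun σ : P.inertia (K ≃ₐ[k] K) =>
        (⟨(σ : K ≃ₐ[k] K) α₁, by
          have h3 := hine σ σ.2 α₁ (hAint _ hm1.1)
          have h4 := hmem12 _ (hσA σ _ hm1.1) (h3.trans hm1.2)
          simpa using h4⟩ : ({α₁, α₂} : Finset K))) := by
      intro σ τ hστ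
      have h3 : (σ : K ≃ₐ[k] K) α₁ = (τ : K ≃ₐ[k] K) α₁ := congrArg Subtype.val hστ
      have h4 : (τ⁻¹ * σ : P.inertia (K ≃ₐ[k] K)) = 1 := by
        apply Subtype.ext
        apply hine1 _ (τ⁻¹ * σ).2
        change (τ : K ≃ₐ[k] K).symm ((σ : K ≃ₐ[k] K) α₁) = α₁
        rw [h3, AlgEquiv.symm_apply_apply]
      exact (inv_mul_eq_one.mp h4).symm
    have h3 := Nat.card_le_card_of_injective _ h1
    rw [Nat.card_eq_fintype_card (α := ({α₁, α₂} : Finset K)), Fintype.card_coe] at h3
    exact h3.trans Finset.card_le_two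
  set e := v.asIdeal.ramificationIdx' w.asIdeal with hedef
  have he2 : e ≤ 2 := he.trans hcard
  -- the valuations of `D(a)` and `D'(a)`
  have hWk : ∀ r : R, w.valuation K (algebraMap R K r) = v.intValuation r ^ e := by
    intro r
    have h1 := HeightOneSpectrum.valuation_liesOver K v w (algebraMap R k r)
    rw [← IsScalarTower.algebraMap_apply] at h1
    rw [← h1]
    congr 1
    exact HeightOneSpectrum.valuation_of_algebraMap (K := k) v r
  have hDa1 : D.eval a ∈ IsLocalRing.maximalIdeal R := by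
    rw [← IsLocalRing.residue_eq_zero_iff, ← eval₂_at_apply, ← eval_map, hDred]
    simp
  have hDa2 : (derivative D).eval a ∈ IsLocalRing.maximalIdeal R := by
    rw [← IsLocalRing.residue_eq_zero_iff, ← eval₂_at_apply, ← eval_map, ← derivative_map, hDred,
      derivative_mul, derivative_X_sub_C_sq]
    simp
  have hvm : ∀ (r : R) (n : ℕ), v.intValuation r ≤ exp (-(n : ℤ)) ↔
      r ∈ IsLocalRing.maximalIdeal R ^ n := fun r n => v.intValuation_le_pow_iff_mem r n
  have hD0 : D.eval a ≠ 0 := by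
    intro h0
    rw [h0] at hDa
    exact hDa (Ideal.zero_mem _)
  have hvD : v.intValuation (D.eval a) = exp (-1 : ℤ) := by
    have h1 := (hvm (D.eval a) 1).mpr (by rw [pow_one]; exact hDa1)
    have h3 : ¬ v.intValuation (D.eval a) ≤ exp (-((2 : ℕ) : ℤ)) := fun h4 =>
      hDa ((hvm (D.eval a) 2).mp h4)
    have h5 : v.intValuation (D.eval a) ≠ 0 := v.intValuation_ne_zero _ hD0
    have h6 := exp_log h5
    rw [← h6] at h1 h3 ⊢
    rw [exp_le_exp] at h1 h3
    rw [exp_inj]
    push_cast at h1 h3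
    omega
  have hvD' : v.intValuation ((derivative D).eval a) ≤ exp (-1 : ℤ) := by
    have h1 := (hvm ((derivative D).eval a) 1).mpr (by rw [pow_one]; exact hDa2)
    simpa using h1
  -- the factorisation of `D`
  set W := w.valuation K with hW
  have haint : IsIntegral R (algebraMap R K a) := isIntegral_algebraMap
  have hβa : β (algebraMap R K a) = algebraMap R B a := by
    apply hinjB
    rw [hβ _ haint]
    rfl
  set A' := (A.erase α₁).erase α₂ with hA'
  have hA'A : ∀ α ∈ A', α ∈ A ∧ α ≠ α₁ ∧ α ≠ α₂ := by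
    intro α hα
    rw [hA', Finset.mem_erase, Finset.mem_erase] at hα
    exact ⟨hα.2.2, hα.2.1, hα.1⟩
  have hsplit : ∀ f : K → K[X], ∏ α ∈ A, f α = f α₁ * (f α₂ * ∏ α ∈ A', f α) := by
    intro f
    rw [hA', Finset.mul_prod_erase (A.erase α₁) f (Finset.mem_erase.mpr ⟨h12.symm, hm2.1⟩),
      Finset.mul_prod_erase A f hm1.1]
  set D₁ : K[X] := C (algebraMap R K D.leadingCoeff) * ∏ α ∈ A', (X - C α) with hD₁
  have hDD₁ : D.map (algebraMap R K) = (X - C α₁) * (X - C α₂) * D₁ := by
    rw [hDA, hsplit, hD₁]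
    ring
  have hWint : ∀ x : K, IsIntegral R x → W x ≤ 1 := hval
  have hWlc : W (algebraMap R K D.leadingCoeff) = 1 := by
    have h1 := hWint _ (isIntegral_algebraMap (x := D.leadingCoeff) (R := R) (A := K))
    obtain ⟨u, hu⟩ := hlc
    have h3 := hWint _ (isIntegral_algebraMap (x := (↑u⁻¹ : R)) (R := R) (A := K))
    rw [← hu] at h1 ⊢
    have h4 : W (algebraMap R K u) * W (algebraMap R K ↑u⁻¹) = 1 := by
      rw [← map_mul, ← map_mul, Units.mul_inv, map_one, map_one]
    refine le_antisymm h1 ?_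
    rw [← h4]
    exact mul_le_of_le_one_right' h3
  have hWD₁ : W (D₁.eval (algebraMap R K a)) = 1 := by
    rw [hD₁, eval_mul, eval_C, map_mul, hWlc, one_mul, eval_prod, map_prod]
    refine Finset.prod_eq_one fun α hα => ?_
    obtain ⟨h1, h3, h4⟩ := hA'A α hα
    rw [eval_sub, eval_X, eval_C, hβv2 _ (haint.sub (hAint α h1)), hβsub _ _ haint (hAint α h1),
      map_sub, hβa, ← hψ, ← hā, sub_ne_zero]
    intro h5
    rcases hmem12 α h1 h5.symm with h6 | h6
    · exact h3 h6
    · exact h4 h6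
  have hWD₁' : W ((derivative D₁).eval (algebraMap R K a)) ≤ 1 := by
    have h1 : D₁ = (C (algebraMap R B D.leadingCoeff) * ∏ α ∈ A', (X - C (β α))).map
        (algebraMap B K) := by
      rw [hD₁, Polynomial.map_mul, map_C, Polynomial.map_prod]
      congr 1
      refine Finset.prod_congr rfl fun α hα => ?_
      rw [Polynomial.map_sub, map_X, map_C, hβ α (hAint α (hA'A α hα).1)]
    have h3 : algebraMap R K a = algebraMap B K (algebraMap R B a) := rfl
    rw [h1, derivative_map, h3, eval_map, eval₂_at_apply]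
    exact w.valuation_le_one _
  set y₁ := algebraMap R K a - α₁ with hy₁
  set y₂ := algebraMap R K a - α₂ with hy₂
  have hWy₁ : W y₁ < 1 := by
    rw [hy₁, hβv1 _ (haint.sub (hAint α₁ hm1.1)), hβsub _ _ haint (hAint α₁ hm1.1), map_sub, hβa,
      ← hψ, hm1.2, hā, sub_self]
  have hWy₂ : W y₂ < 1 := by
    rw [hy₂, hβv1 _ (haint.sub (hAint α₂ hm2.1)), hβsub _ _ haint (hAint α₂ hm2.1), map_sub, hβa,
      ← hψ, hm2.2, hā, sub_self]
  have hprod : W y₁ * W y₂ = exp (-(e : ℤ)) := by
    have h1 : algebraMap R K (D.eval a) = y₁ * y₂ * D₁.eval (algebraMap R K a) := by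
      rw [← eval₂_at_apply, ← eval_map, hDD₁, eval_mul, eval_mul, eval_sub, eval_sub, eval_X,
        eval_C, eval_C]
    have h3 := congrArg W h1
    rw [hWk, hvD, map_mul, map_mul, hWD₁, mul_one] at h3
    rw [← h3, ← exp_nsmul]
    simp
  have hy₁0 : W y₁ ≠ 0 := by
    intro h0
    rw [h0, zero_mul] at hprod
    exact exp_ne_zero hprod.symm
  have hy₂0 : W y₂ ≠ 0 := by
    intro h0
    rw [h0, mul_zero] at hprod
    exact exp_ne_zero hprod.symm
  have hl : (W y₁ = exp (-1 : ℤ)) ∧ e = 2 := by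
    have h1 := exp_log hy₁0
    have h3 := exp_log hy₂0
    rw [← h1] at hWy₁ hprod ⊢
    rw [← h3] at hWy₂ hprod
    rw [← exp_add, exp_inj] at hprod
    rw [← exp_zero, exp_lt_exp] at hWy₁ hWy₂
    rw [exp_inj]
    omega
  have hcard2 : 1 < Nat.card (P.inertia (K ≃ₐ[k] K)) := by
    have h1 := hl.2
    omega
  have hnt : Nontrivial (P.inertia (K ≃ₐ[k] K)) := by
    haveI : Finite (P.inertia (K ≃ₐ[k] K)) := Nat.finite_of_card_ne_zero (by omega)
    exact (Finite.one_lt_card_iff_nontrivial).mp hcard2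
  obtain ⟨σ, hσ1⟩ := exists_ne (1 : P.inertia (K ≃ₐ[k] K))
  have hσne : (σ : K ≃ₐ[k] K) α₁ ≠ α₁ := fun h => hσ1 (Subtype.ext (hine1 _ σ.2 h))
  have hres : ∀ α ∈ A, q (β ((σ : K ≃ₐ[k] K) α)) = q (β α) := fun α hα =>
    hine _ σ.2 α (hAint α hα)
  have hs1 : (σ : K ≃ₐ[k] K) α₁ = α₂ :=
    (hmem12 _ (hσA _ _ hm1.1) ((hres _ hm1.1).trans hm1.2)).resolve_left hσne
  have hs2 : (σ : K ≃ₐ[k] K) α₂ = α₁ := by
    refine (hmem12 _ (hσA _ _ hm2.1) ((hres _ hm2.1).trans hm2.2)).resolve_right fun h => ?_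
    exact h12 ((σ : K ≃ₐ[k] K).injective (hs1.trans h.symm))
  refine ⟨σ, α₁, α₂, hm1.1, hm2.1, h12, hs1, hs2, fun α hα h1 h3 => ?_⟩
  by_contra hne
  have h4 := hA1 _ (hσA (σ : K ≃ₐ[k] K) α hα) _ hα hne (hres α hα)
  rcases hmem12 _ hα ((hres α hα) ▸ h4) with h5 | h5
  · exact h1 h5
  · exact h3 h5

end Pool.Agent.Lib.MP_89bcae_ag

end

section

/-!
# The matching attached to a simple collision
-/

open Polynomial WithZero

open scoped Classical

namespace Pool.Agent.Lib.MP_89bcae_ag

set_option linter.style.haveILetI false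
set_option linter.unusedSectionVars false

/-- A separable polynomial over an algebraically closed field. -/
lemma eq_prod_roots7 {F : Type*} [Field F] [IsAlgClosed F] {p : F[X]} (hp : p.Separable) :
    p = C p.leadingCoeff * ∏ b ∈ p.roots.toFinset, (X - C b) := by
  have h1 := (IsAlgClosed.splits p).eq_prod_roots
  have h2 : p.roots.Nodup := nodup_roots hp
  conv_lhs => rw [h1]
  congr 1
  rw [Finset.prod_eq_multiset_prod, Multiset.toFinset_val, Multiset.dedup_eq_self.mpr h2]

/-- The splitting field of a separable polynomial. -/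
lemma galois7 {k F : Type*} [Field k] [Field F] [Algebra k F] [IsAlgClosed F] {f : k[X]}
    (hsep : f.Separable) :
    FiniteDimensional k (IntermediateField.adjoin k (f.rootSet F)) ∧
      IsGalois k (IntermediateField.adjoin k (f.rootSet F)) := by
  have h1 : IsSplittingField k (IntermediateField.adjoin k (f.rootSet F)) f :=
    IntermediateField.adjoin_rootSet_isSplittingField (IsAlgClosed.splits _)
  exact ⟨IsSplittingField.finiteDimensional _ f, IsGalois.of_separable_splitting_field (p := f) hsep⟩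

lemma prod_subtype7 {F M : Type*} [CommMonoid M] (p : F → Prop) (S : Finset F)
    (hS : ∀ b ∈ S, p b) (P : Subtype p → Prop) (Q : F → Prop) (hPQ : ∀ b : Subtype p, P b ↔ Q b)
    (f : F → M) : ∏ b ∈ (S.subtype p).filter P, f b = ∏ b ∈ S.filter Q, f b := by
  have h1 : S.filter Q = ((S.subtype p).filter P).map (Function.Embedding.subtype p) := by
    ext b
    rw [Finset.mem_filter, Finset.mem_map]
    constructor
    · rintro ⟨hb, hQ⟩
      exact ⟨⟨b, hS b hb⟩, Finset.mem_filter.mpr ⟨Finset.mem_subtype.mpr hb, (hPQ _).mpr hQ⟩, rfl⟩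
    · rintro ⟨c, hc, rfl⟩
      rw [Finset.mem_filter, Finset.mem_subtype] at hc
      exact ⟨hc.1, (hPQ _).mp hc.2⟩
  rw [h1, Finset.prod_map]
  rfl

section Ord

variable {R k F : Type*} [CommRing R] [IsDomain R] [IsDiscreteValuationRing R] [Field k]
  [Algebra R k] [IsFractionRing R k] [Field F] [Algebra k F] [Algebra R F] [IsScalarTower R k F]

/-- The orders of the differences of the roots at a simple collision. -/
theorem exists_ord7 (h2 : IsUnit (2 : R)) {g D : R[X]}
    (hgdeg : g.natDegree ≠ 0) (hg : g.Monic) (hlc : IsUnit D.leadingCoeff) (S A : Finset F)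
    (hDA : D.map (algebraMap R F) =
      C (algebraMap R F D.leadingCoeff) * ∏ α ∈ A, (X - C α))
    (hgS : ∀ α ∈ A, g.map (algebraMap R F) - C α =
      ∏ b ∈ S.filter (fun b => (g.map (algebraMap R F)).eval b = α), (X - C b))
    (hSA : ∀ b ∈ S, (g.map (algebraMap R F)).eval b ∈ A)
    (hAS : ∀ α ∈ A, ∃ b ∈ S, (g.map (algebraMap R F)).eval b = α)
    (K : IntermediateField k F) (hK : K = IntermediateField.adjoin k (S : Set F))
    [FiniteDimensional k K] [IsGalois k K] (hcol : IsCollision7 g D) :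
    ∃ w : Valuation K ℤᵐ⁰, ordF7 w (algebraMap R F D.leadingCoeff) = 0 ∧
      (∀ b ∈ S, ∀ c ∈ S, ordF7 w (b - c) ≤ 0) ∧
      (∀ b ∈ S, ∀ c ∈ S, b ≠ c → (g.map (algebraMap R F)).eval b =
        (g.map (algebraMap R F)).eval c → ordF7 w (b - c) = 0) ∧
      ∃ α₁ ∈ A, ∃ α₂ ∈ A, α₁ ≠ α₂ ∧ ordF7 w (α₁ - α₂) = -1 ∧
        ∀ α ∈ A, ∀ α' ∈ A, α ≠ α' → ¬ (α = α₁ ∧ α' = α₂) → ¬ (α = α₂ ∧ α' = α₁) →
          ordF7 w (α - α') = 0 := by
  have hSK : ∀ b ∈ S, b ∈ K := by
    intro b hb
    rw [hK]
    exact IntermediateField.subset_adjoin _ _ hb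
  have hRK : ∀ r : R, algebraMap R F r ∈ K := by
    intro r
    rw [IsScalarTower.algebraMap_apply R k F]
    exact K.algebraMap_mem _
  have hgK : ∀ b ∈ K, (g.map (algebraMap R F)).eval b ∈ K := by
    intro b hb
    rw [eval_map, eval₂_eq_sum_range]
    exact K.sum_mem fun i _ => K.mul_mem (hRK _) (pow_mem hb i)
  have hAK : ∀ α ∈ A, α ∈ K := by
    intro α hα
    obtain ⟨b, hb, rfl⟩ := hAS α hα
    exact hgK b (hSK b hb)
  have hcomp : (algebraMap K F).comp (algebraMap R K) = algebraMap R F := RingHom.ext fun r => rfl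
  have hinj : Function.Injective (Polynomial.map (algebraMap K F)) :=
    Polynomial.map_injective _ (algebraMap K F).injective
  have hev : ∀ b : K, (((g.map (algebraMap R K)).eval b : K) : F) =
      (g.map (algebraMap R F)).eval (b : F) := by
    intro b
    rw [← hcomp, ← Polynomial.map_map, eval_map (algebraMap K F)]
    exact (eval₂_at_apply (algebraMap K F) b).symm
  obtain ⟨w, hw1, hw2, hw3, α₁, hα₁, α₂, hα₂, h12, hw4, hw5⟩ := exists_val7 (R := R) (k := k)
    (K := K) h2 hgdeg hg hlc (S.subtype (· ∈ K)) (A.subtype (· ∈ K)) (by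
      apply hinj
      rw [Polynomial.map_map, hcomp, hDA, Polynomial.map_mul, map_C, Polynomial.map_prod]
      congr 1
      have h1 := prod_subtype7 (· ∈ K) A hAK (fun _ => True) (fun _ => True) (fun _ => Iff.rfl)
        (fun b => (X - C b : F[X]))
      rw [Finset.filter_true, Finset.filter_true] at h1
      rw [← h1]
      refine Finset.prod_congr rfl fun b _ => ?_
      rw [Polynomial.map_sub, map_X, map_C]
      rfl) (by
      intro α hα
      apply hinj
      rw [Polynomial.map_sub, Polynomial.map_map, hcomp, map_C, Polynomial.map_prod]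
      rw [Finset.mem_subtype] at hα
      have h1 := prod_subtype7 (· ∈ K) S hSK (fun b => (g.map (algebraMap R K)).eval b = α)
        (fun b => (g.map (algebraMap R F)).eval b = (α : F))
        (fun b => by rw [← hev, Subtype.coe_inj]) (fun b => (X - C b : F[X]))
      refine (hgS α hα).trans (h1.symm.trans ?_)
      refine Finset.prod_congr rfl fun b _ => ?_
      rw [Polynomial.map_sub, map_X, map_C]
      rfl) (by
      intro b hb
      rw [Finset.mem_subtype] at hb ⊢
      rw [hev]
      exact hSA b hb) (by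
      intro σ hσ
      subst hK
      ext x
      have h1 : (σ : _ ≃ₐ[k] _).toAlgHom = AlgHom.id k _ := by
        apply IntermediateField.algHom_ext_of_eq_adjoin _ rfl
        intro y hy
        exact hσ ⟨y, IntermediateField.subset_adjoin _ _ hy⟩ (Finset.mem_subtype.mpr hy)
      exact congrArg Subtype.val (congrArg (fun f => f x) h1)) hcol
  rw [Finset.mem_subtype] at hα₁ hα₂
  refine ⟨w, ?_, fun b hb c hc => ?_, fun b hb c hc hbc hgbc => ?_, α₁, hα₁, α₂, hα₂,
    fun h => h12 (Subtype.ext h), ?_, fun α hα α' hα' hne h1 h3 => ?_⟩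
  · rw [ordF7_of_mem w (hRK _)]
    have h1 : (⟨algebraMap R F D.leadingCoeff, hRK _⟩ : K) = algebraMap R K D.leadingCoeff := rfl
    rw [h1, hw1, log_one]
  · have hbK := hSK b hb
    have hcK := hSK c hc
    rw [ordF7_of_mem w (K.sub_mem hbK hcK)]
    have h1 : (⟨b - c, K.sub_mem hbK hcK⟩ : K) = ⟨b, hbK⟩ - ⟨c, hcK⟩ := rfl
    rw [h1]
    have h3 : w (⟨b, hbK⟩ - ⟨c, hcK⟩) ≤ 1 := (w.map_sub _ _).trans
      (max_le (hw2 _ (Finset.mem_subtype.mpr hb)) (hw2 _ (Finset.mem_subtype.mpr hc)))
    by_cases h0 : w (⟨b, hbK⟩ - ⟨c, hcK⟩) = 0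
    · rw [h0, log_zero]
    · rw [log_le_iff_le_exp h0, exp_zero]
      exact h3
  · have hbK := hSK b hb
    have hcK := hSK c hc
    rw [ordF7_of_mem w (K.sub_mem hbK hcK)]
    have h1 : (⟨b - c, K.sub_mem hbK hcK⟩ : K) = ⟨b, hbK⟩ - ⟨c, hcK⟩ := rfl
    rw [h1, hw3 ⟨b, hbK⟩ (Finset.mem_subtype.mpr hb) ⟨c, hcK⟩ (Finset.mem_subtype.mpr hc)
      (fun h => hbc (congrArg Subtype.val h)) (Subtype.ext (by rw [hev, hev]; exact hgbc)), log_one]
  · rw [ordF7_of_mem w (K.sub_mem α₁.2 α₂.2)]
    have h1 : (⟨(α₁ : F) - α₂, K.sub_mem α₁.2 α₂.2⟩ : K) = α₁ - α₂ := rfl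
    rw [h1, hw4, log_exp]
  · have hbK := hAK α hα
    have hcK := hAK α' hα'
    rw [ordF7_of_mem w (K.sub_mem hbK hcK)]
    have h4 : (⟨α - α', K.sub_mem hbK hcK⟩ : K) = ⟨α, hbK⟩ - ⟨α', hcK⟩ := rfl
    rw [h4, hw5 ⟨α, hbK⟩ (Finset.mem_subtype.mpr hα) ⟨α', hcK⟩ (Finset.mem_subtype.mpr hα')
      (fun h => hne (congrArg Subtype.val h))
      (fun h => h1 ⟨congrArg Subtype.val h.1, congrArg Subtype.val h.2⟩)
      (fun h => h3 ⟨congrArg Subtype.val h.1, congrArg Subtype.val h.2⟩), log_one]

end Ord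

end Pool.Agent.Lib.MP_89bcae_ag

end

section

/-!
# The inertia group at a place where one root of `D` is large
-/

open Polynomial IsDedekindDomain WithZero

open scoped Classical Pointwise

namespace Pool.Agent.Lib.MP_89bcae_ag

set_option linter.style.haveILetI false
set_option linter.unusedSectionVars false

/-- Two integral roots with the same reduction of a polynomial with separable reduction. -/
lemma root_unique7 {R K : Type*} [CommRing R] [IsLocalRing R] [Field K] [Algebra R K]
    (W : Valuation K ℤᵐ⁰) (hWR : ∀ r : R, W (algebraMap R K r) ≤ 1)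
    (hWm : ∀ r ∈ IsLocalRing.maximalIdeal R, W (algebraMap R K r) < 1) {f : R[X]}
    (hs : (f.map (IsLocalRing.residue R)).Separable) {b b' : K} (hb : W b ≤ 1) (hb' : W b' ≤ 1)
    (hf : (f.map (algebraMap R K)).eval b = 0) (hf' : (f.map (algebraMap R K)).eval b' = 0)
    (h : W (b' - b) < 1) : b' = b := by
  by_contra hne
  let O := W.valuationSubring
  let φ : R →+* O := (algebraMap R K).codRestrict O hWR
  have hinjO : Function.Injective (algebraMap O K) := Subtype.val_injective
  have hφ : (algebraMap O K).comp φ = algebraMap R K := RingHom.ext fun r => rfl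
  have hres : ∀ x : O, IsLocalRing.residue O x = 0 ↔ W (x : K) < 1 := by
    intro x
    rw [IsLocalRing.residue_eq_zero_iff, IsLocalRing.mem_maximalIdeal, mem_nonunits_iff]
    constructor
    · intro hx
      refine lt_of_le_of_ne x.2 fun h1 => hx ?_
      have hx0 : (x : K) ≠ 0 := by
        rintro h2
        rw [h2, map_zero] at h1
        exact zero_ne_one h1
      have hxi : (x : K)⁻¹ ∈ O := by
        change W (x : K)⁻¹ ≤ 1
        rw [map_inv₀, h1, inv_one]
      exact IsUnit.of_mul_eq_one (⟨(x : K)⁻¹, hxi⟩ : O) (Subtype.ext (mul_inv_cancel₀ hx0))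
    · rintro hx ⟨u, rfl⟩
      have h1 : W ((u : O) : K) * W ((↑u⁻¹ : O) : K) = 1 := by
        rw [← map_mul, ← Subring.coe_mul, Units.mul_inv]
        exact map_one W
      have h2 : W ((u : O) : K) * W ((↑u⁻¹ : O) : K) < 1 :=
        lt_of_le_of_lt (mul_le_of_le_one_right' (↑u⁻¹ : O).2) hx
      exact absurd h1 h2.ne
  have hψ0 : ∀ r ∈ IsLocalRing.maximalIdeal R, (IsLocalRing.residue O).comp φ r = 0 := by
    intro r hr
    rw [RingHom.comp_apply, hres]
    exact hWm r hr
  let ψ : IsLocalRing.ResidueField R →+* IsLocalRing.ResidueField O :=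
    Ideal.Quotient.lift (IsLocalRing.maximalIdeal R) ((IsLocalRing.residue O).comp φ) hψ0
  have hψ : ψ.comp (IsLocalRing.residue R) = (IsLocalRing.residue O).comp φ := RingHom.ext fun r => rfl
  have hev : ∀ (z : K) (hz : z ∈ O), (f.map (algebraMap R K)).eval z = 0 →
      (f.map φ).eval (⟨z, hz⟩ : O) = 0 := by
    intro z hz h0
    apply hinjO
    rw [map_zero, ← eval₂_at_apply, ← eval_map, Polynomial.map_map, hφ]
    exact h0
  obtain ⟨q, hq⟩ := dvd_iff_isRoot.mpr (hev b hb hf)
  have h1 := hev b' hb' hf'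
  rw [hq, eval_mul, eval_sub, eval_X, eval_C] at h1
  have h2 : (⟨b', hb'⟩ : O) - ⟨b, hb⟩ ≠ 0 := by
    intro h0
    exact hne (congrArg Subtype.val (sub_eq_zero.mp h0))
  have h3 : q.IsRoot ⟨b', hb'⟩ := (mul_eq_zero.mp h1).resolve_left h2
  obtain ⟨q', hq'⟩ := dvd_iff_isRoot.mpr h3
  have hbb : IsLocalRing.residue O ⟨b', hb'⟩ = IsLocalRing.residue O ⟨b, hb⟩ := by
    rw [← sub_eq_zero, ← map_sub, hres]
    exact h
  have h4 : (f.map (IsLocalRing.residue R)).map ψ =
      (X - C (IsLocalRing.residue O ⟨b, hb⟩)) *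
        ((X - C (IsLocalRing.residue O ⟨b, hb⟩)) * q'.map (IsLocalRing.residue O)) := by
    have h5 := congrArg (Polynomial.map (IsLocalRing.residue O)) hq
    rw [hq', Polynomial.map_map, Polynomial.map_mul, Polynomial.map_mul, Polynomial.map_sub,
      Polynomial.map_sub, map_X, map_C, map_C, hbb] at h5
    rw [Polynomial.map_map, hψ, h5]
  have h5 := (separable_map ψ).mpr hs
  rw [h4] at h5
  have h6 : (X - C (IsLocalRing.residue O ⟨b, hb⟩)) * (X - C (IsLocalRing.residue O ⟨b, hb⟩)) ∣
      (X - C (IsLocalRing.residue O ⟨b, hb⟩)) *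
        ((X - C (IsLocalRing.residue O ⟨b, hb⟩)) * q'.map (IsLocalRing.residue O)) := by
    rw [← mul_assoc]
    exact Dvd.intro _ rfl
  exact not_isUnit_X_sub_C _ (h5.squarefree _ h6)

/-- The inertia group at a place where one root of `D` is large. -/
theorem exists_inertia7 {R k K : Type*} [CommRing R] [IsDomain R] [IsDiscreteValuationRing R]
    [Finite (IsLocalRing.ResidueField R)] [Field k]
    [Algebra R k] [IsFractionRing R k] [Field K] [Algebra k K] [Algebra R K] [IsScalarTower R k K]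
    [FiniteDimensional k K] [IsGalois k K] {g D : R[X]}
    (hgdeg : g.natDegree ≠ 0) (hg : g.Monic) {n : ℕ} (hn : D.natDegree = n + 1)
    (h1 : D.coeff (n + 1) ∈ IsLocalRing.maximalIdeal R)
    (h2 : D.coeff (n + 1) ∉ IsLocalRing.maximalIdeal R ^ 2)
    (h3 : D.coeff n ∉ IsLocalRing.maximalIdeal R)
    (hsepκ : ((D.map (IsLocalRing.residue R)).comp (g.map (IsLocalRing.residue R))).Separable)
    (S A : Finset K)
    (hDA : D.map (algebraMap R K) =
      C (algebraMap R K D.leadingCoeff) * ∏ α ∈ A, (X - C α))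
    (hgS : ∀ α ∈ A, g.map (algebraMap R K) - C α =
      ∏ b ∈ S.filter (fun b => (g.map (algebraMap R K)).eval b = α), (X - C b))
    (hSA : ∀ b ∈ S, (g.map (algebraMap R K)).eval b ∈ A) :
    ∃ α ∈ A, ∀ x ∈ S, ∀ y ∈ S, (g.map (algebraMap R K)).eval x = α →
      (g.map (algebraMap R K)).eval y = α → ∃ σ : K ≃ₐ[k] K, σ x = y ∧
        ∀ b ∈ S, (g.map (algebraMap R K)).eval b ≠ α → σ b = b := by
  obtain ⟨W, e, I, he0, hWk, hI, heI, hfix⟩ := exists_place7 R k K
  set v : HeightOneSpectrum R := IsDiscreteValuationRing.maximalIdeal R with hv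
  have hinjK : Function.Injective (algebraMap R K) := by
    rw [IsScalarTower.algebraMap_eq R k K]
    exact (algebraMap k K).injective.comp (IsFractionRing.injective R k)
  have hWR : ∀ r : R, W (algebraMap R K r) ≤ 1 := fun r => by
    rw [hWk]
    exact pow_le_one' (v.intValuation_le_one r) e
  have hWm : ∀ r ∈ IsLocalRing.maximalIdeal R, W (algebraMap R K r) < 1 := fun r hr => by
    rw [hWk]
    exact pow_lt_one₀ bot_le ((v.intValuation_lt_one_iff_mem r).mpr hr) he0.ne'
  -- the coefficients of `D`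
  have hvm : ∀ (r : R) (n : ℕ), v.intValuation r ≤ exp (-(n : ℤ)) ↔
      r ∈ IsLocalRing.maximalIdeal R ^ n := fun r n => v.intValuation_le_pow_iff_mem r n
  have hlc0 : D.coeff (n + 1) ≠ 0 := by
    intro h0
    rw [h0] at h2
    exact h2 (Ideal.zero_mem _)
  have hvlc : v.intValuation (D.coeff (n + 1)) = exp (-1 : ℤ) := by
    have h4 := (hvm (D.coeff (n + 1)) 1).mpr (by rw [pow_one]; exact h1)
    have h5 : ¬ v.intValuation (D.coeff (n + 1)) ≤ exp (-((2 : ℕ) : ℤ)) := fun h4 =>
      h2 ((hvm (D.coeff (n + 1)) 2).mp h4)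
    have h6 : v.intValuation (D.coeff (n + 1)) ≠ 0 := v.intValuation_ne_zero _ hlc0
    have h7 := exp_log h6
    rw [← h7] at h4 h5 ⊢
    rw [exp_le_exp] at h4 h5
    rw [exp_inj]
    push_cast at h4 h5
    omega
  have hWlc : W (algebraMap R K D.leadingCoeff) = exp (-(e : ℤ)) := by
    rw [leadingCoeff, hn, hWk, hvlc, ← exp_nsmul]
    simp
  have hWn : W (algebraMap R K (D.coeff n)) = 1 := by
    rw [hWk]
    have h4 : v.intValuation (D.coeff n) = 1 := by
      refine le_antisymm (v.intValuation_le_one _) (not_lt.mp fun h5 => h3 ?_)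
      exact (v.intValuation_lt_one_iff_mem _).mp h5
    rw [h4, one_pow]
  -- the large roots
  have hroot : ∀ α ∈ A, (D.map (algebraMap R K)).eval α = 0 := by
    intro α hα
    rw [hDA, eval_mul, eval_prod, Finset.prod_eq_zero hα (by simp), mul_zero]
  have hlarge : ∀ α ∈ A, 1 < W α → W α = exp (e : ℤ) := by
    intro α hα hα1
    have hα0 : W α ≠ 0 := (zero_lt_one.trans hα1).ne'
    have h4 := hroot α hα
    rw [eval_map, eval₂_eq_sum_range, hn, Finset.sum_range_succ, Finset.sum_range_succ] at h4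
    have h5 : W (algebraMap R K (D.coeff n) * α ^ n) = W α ^ n := by
      rw [map_mul, hWn, one_mul, map_pow]
    have h6 : W (∑ i ∈ Finset.range n, algebraMap R K (D.coeff i) * α ^ i) < W α ^ n := by
      apply W.map_sum_lt (pow_ne_zero _ hα0)
      intro i hi
      rw [Finset.mem_range] at hi
      rw [map_mul, map_pow]
      calc W (algebraMap R K (D.coeff i)) * W α ^ i ≤ W α ^ i := mul_le_of_le_one_left' (hWR _)
        _ < W α ^ n := pow_lt_pow_right₀ hα1 hi
    have h7 : W (∑ i ∈ Finset.range n, algebraMap R K (D.coeff i) * α ^ i +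
        algebraMap R K (D.coeff n) * α ^ n) = W α ^ n := by
      rw [Valuation.map_add_eq_of_lt_right _ (by rw [h5]; exact h6), h5]
    have h8 : W (algebraMap R K (D.coeff (n + 1)) * α ^ (n + 1)) = W α ^ n := by
      rw [← h7, ← W.map_neg (_ + _)]
      congr 1
      linear_combination h4
    rw [map_mul, map_pow, pow_succ, ← hn, coeff_natDegree, hWlc] at h8
    have h9 : exp (-(e : ℤ)) * W α = 1 := by
      have h10 : W α ^ n * (exp (-(e : ℤ)) * W α) = W α ^ n * 1 := by
        rw [mul_one]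
        conv_rhs => rw [← h8]
        rw [mul_left_comm]
      exact mul_left_cancel₀ (pow_ne_zero _ hα0) h10
    have h10 := exp_log hα0
    rw [← h10, ← exp_add, ← exp_zero, exp_inj] at h9
    rw [← h10, exp_inj]
    omega
  have hcard : (A.filter fun α => 1 < W α).card = 1 := by
    have h4 := gauss_roots7 W hDA (fun i => by rw [coeff_map]; exact hWR _) (n := n)
      (by rw [coeff_map]; exact hWn)
    rw [map_mul, map_prod, hWlc, Finset.prod_congr rfl (fun α hα =>
      hlarge α (Finset.mem_filter.mp hα).1 (Finset.mem_filter.mp hα).2), Finset.prod_const] at h4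
    have h4' : ∀ N : ℕ, exp (-(e : ℤ)) * exp (e : ℤ) ^ N = 1 → ((N : ℤ) - 1) * e = 0 := by
      intro N hN
      rw [← exp_nsmul, ← exp_add, ← exp_zero, exp_inj, nsmul_eq_mul] at hN
      linear_combination hN
    have h5 := h4' _ h4
    have he' : (e : ℤ) ≠ 0 := by exact_mod_cast he0.ne'
    rcases mul_eq_zero.mp h5 with h6 | h6
    · have h7 : (((A.filter fun α => 1 < W α).card : ℤ)) = 1 := by linear_combination h6
      exact_mod_cast h7
    · exact absurd h6 he'
  obtain ⟨α₀, hα₀⟩ := Finset.card_eq_one.mp hcard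
  have hα₀A : α₀ ∈ A ∧ 1 < W α₀ := by
    have h4 : α₀ ∈ A.filter fun α => 1 < W α := by rw [hα₀]; exact Finset.mem_singleton_self _
    exact Finset.mem_filter.mp h4
  have hsmall : ∀ α ∈ A, α ≠ α₀ → W α ≤ 1 := by
    intro α hα hne
    by_contra hlt
    have h4 : α ∈ A.filter fun α => 1 < W α := Finset.mem_filter.mpr ⟨hα, not_le.mp hlt⟩
    rw [hα₀, Finset.mem_singleton] at h4
    exact hne h4
  set G := g.map (algebraMap R K) with hG
  have hSlarge : ∀ x : K, G.eval x = α₀ → 1 < W x := by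
    intro x hx
    by_contra hlt
    have h4 := eval_le_one7 W hWR g (not_lt.mp hlt)
    rw [← hG, hx] at h4
    exact absurd hα₀A.2 (not_lt.mpr h4)
  have hSpow : ∀ x : K, G.eval x = α₀ → (g.natDegree : ℤ) * log (W x) = e := by
    intro x hx
    have h4 := eval_large7 W hWR hg (hSlarge x hx)
    rw [← hG, hx, hlarge _ hα₀A.1 hα₀A.2] at h4
    have h5 := congrArg log h4
    rw [log_exp, log_pow, nsmul_eq_mul] at h5
    exact h5.symm
  have hSsmall : ∀ b ∈ S, G.eval b ≠ α₀ → W b ≤ 1 := by
    intro b hb hne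
    by_contra hlt
    have h4 := eval_large7 W hWR hg (not_le.mp hlt)
    rw [← hG] at h4
    have h5 := hsmall _ (hSA b hb) hne
    rw [h4] at h5
    exact absurd h5 (not_le.mpr (one_lt_pow₀ (not_le.mp hlt) hgdeg))
  -- the Galois group
  have hσev : ∀ (σ : K ≃ₐ[k] K) (p : R[X]) (x : K), (p.map (algebraMap R K)).eval (σ x) =
      σ ((p.map (algebraMap R K)).eval x) := by
    intro σ p x
    have h1 : (σ : K →+* K).comp (algebraMap R K) = algebraMap R K := by
      ext r
      change σ (algebraMap R K r) = algebraMap R K r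
      rw [IsScalarTower.algebraMap_apply R k K]
      exact σ.commutes _
    have h3 := Polynomial.hom_eval₂ p (algebraMap R K) (σ : K →+* K) x
    rw [h1] at h3
    rw [eval_map, eval_map]
    exact h3.symm
  have hlc0K : algebraMap R K D.leadingCoeff ≠ 0 := by
    intro h0
    rw [h0, map_zero] at hWlc
    exact exp_ne_zero hWlc.symm
  have hAmem : ∀ α : K, (D.map (algebraMap R K)).eval α = 0 → α ∈ A := by
    intro α hα
    rw [hDA, eval_mul, eval_C, eval_prod, mul_eq_zero] at hα
    rcases hα with hα | hα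
    · exact absurd hα hlc0K
    · obtain ⟨α', h1, h3⟩ := Finset.prod_eq_zero_iff.mp hα
      rw [eval_sub, eval_X, eval_C, sub_eq_zero] at h3
      rw [h3]
      exact h1
  have hSmem : ∀ b : K, G.eval b ∈ A → b ∈ S := by
    intro b hb
    have h1 := congrArg (eval b) (hgS _ hb)
    rw [eval_sub, eval_C, sub_self, eval_prod, eq_comm] at h1
    obtain ⟨b', h3, h4⟩ := Finset.prod_eq_zero_iff.mp h1
    rw [eval_sub, eval_X, eval_C, sub_eq_zero] at h4
    rw [h4]
    exact (Finset.mem_filter.mp h3).1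
  have hσA : ∀ (σ : K ≃ₐ[k] K), ∀ α ∈ A, σ α ∈ A := by
    intro σ α hα
    apply hAmem
    rw [hσev, hroot α hα, map_zero]
  have hσS : ∀ (σ : K ≃ₐ[k] K), ∀ b ∈ S, σ b ∈ S := by
    intro σ b hb
    apply hSmem
    rw [hσev]
    exact hσA σ _ (hSA b hb)
  -- the inertia group
  have hIle : ∀ σ ∈ I, ∀ x : K, W x ≤ 1 → W (σ x) ≤ 1 := by
    intro σ hσ x hx
    have h4 : σ x = (σ x - x) + x := by ring
    rw [h4]
    exact (W.map_add _ _).trans (max_le (hI σ hσ x hx).le hx)
  have hIα : ∀ σ ∈ I, σ α₀ = α₀ := by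
    intro σ hσ
    by_contra hne
    have h4 := hsmall _ (hσA σ _ hα₀A.1) hne
    have h5 := hIle σ⁻¹ (I.inv_mem hσ) _ h4
    have h6 : σ⁻¹ (σ α₀) = α₀ := σ.symm_apply_apply α₀
    rw [h6] at h5
    exact absurd hα₀A.2 (not_lt.mpr h5)
  have hIS : ∀ σ ∈ I, ∀ b ∈ S, G.eval b ≠ α₀ → σ b = b := by
    intro σ hσ b hb hne
    have hcomp : (D.comp g).map (algebraMap R K) = (D.map (algebraMap R K)).comp G :=
      Polynomial.map_comp _ _ _
    have hev0 : ∀ b ∈ S, ((D.comp g).map (algebraMap R K)).eval b = 0 := by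
      intro b hb
      rw [hcomp, eval_comp]
      exact hroot _ (hSA b hb)
    have hW := hSsmall b hb hne
    exact root_unique7 W hWR hWm (f := D.comp g) (by rw [Polynomial.map_comp]; exact hsepκ) hW
      (hIle σ hσ b hW) (hev0 b hb) (hev0 _ (hσS σ b hb)) (hI σ hσ b hW)
  -- the orbits
  refine ⟨α₀, hα₀A.1, fun x hx y hy hgx hgy => ?_⟩
  haveI : Finite (K ≃ₐ[k] K) := inferInstance
  haveI : Fintype I := Fintype.ofFinite I
  set T : Finset K := Finset.univ.image fun σ : I => (σ : K ≃ₐ[k] K) x with hT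
  have hTmem : ∀ z, z ∈ T ↔ ∃ σ ∈ I, σ x = z := by
    intro z
    rw [hT, Finset.mem_image]
    constructor
    · rintro ⟨σ, -, h4⟩
      exact ⟨σ, σ.2, h4⟩
    · rintro ⟨σ, hσ, h4⟩
      exact ⟨⟨σ, hσ⟩, Finset.mem_univ _, h4⟩
  have hTg : ∀ z ∈ T, G.eval z = α₀ := by
    intro z hz
    obtain ⟨σ, hσ, rfl⟩ := (hTmem z).mp hz
    rw [hG, hσev, ← hG, hgx, hIα σ hσ]
  have hTne : x ∈ T := (hTmem x).mpr ⟨1, I.one_mem, rfl⟩
  have hm0 : (0 : ℤ) < g.natDegree := by exact_mod_cast Nat.pos_of_ne_zero hgdeg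
  have he0' : (0 : ℤ) < e := by exact_mod_cast he0
  have hz0 : ∀ z ∈ T, z ≠ 0 := by
    rintro z hz rfl
    have h4 := hSlarge 0 (hTg 0 hz)
    rw [map_zero] at h4
    exact absurd h4 (not_lt.mpr zero_le_one)
  have hprod0 : ∏ z ∈ T, z ≠ 0 := Finset.prod_ne_zero_iff.mpr hz0
  have hfixT : ∀ σ ∈ I, σ (∏ z ∈ T, z) = ∏ z ∈ T, z := by
    intro σ hσ
    rw [map_prod]
    apply Finset.prod_bij (fun z _ => σ z)
    · intro z hz
      obtain ⟨τ, hτ, rfl⟩ := (hTmem z).mp hz
      exact (hTmem _).mpr ⟨σ * τ, I.mul_mem hσ hτ, rfl⟩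
    · intro z _ z' _ h4
      exact σ.injective h4
    · intro z hz
      obtain ⟨τ, hτ, rfl⟩ := (hTmem z).mp hz
      refine ⟨(σ⁻¹ * τ) x, (hTmem _).mpr ⟨σ⁻¹ * τ, I.mul_mem (I.inv_mem hσ) hτ, rfl⟩, ?_⟩
      exact σ.apply_symm_apply (τ x)
    · intro z _
      rfl
  have hdvd := hfix _ hprod0 hfixT
  have hlogsum : (g.natDegree : ℤ) * log (W (∏ z ∈ T, z)) = T.card * e := by
    have h4 : log (W (∏ z ∈ T, z)) = ∑ z ∈ T, log (W z) := by
      clear hdvd hfixT hprod0
      have h5 : ∀ T' : Finset K, (∀ z ∈ T', z ≠ 0) →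
          log (W (∏ z ∈ T', z)) = ∑ z ∈ T', log (W z) := by
        intro T'
        induction T' using Finset.induction_on with
        | empty => simp
        | insert z T' hz ih =>
          intro h6
          rw [Finset.prod_insert hz, Finset.sum_insert hz, map_mul, log_mul, ih]
          · exact fun z' hz' => h6 z' (Finset.mem_insert_of_mem hz')
          · exact (Valuation.ne_zero_iff _).mpr (h6 z (Finset.mem_insert_self _ _))
          · exact (Valuation.ne_zero_iff _).mpr (Finset.prod_ne_zero_iff.mpr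
              fun z' hz' => h6 z' (Finset.mem_insert_of_mem hz'))
      exact h5 T hz0
    rw [h4, Finset.mul_sum, Finset.sum_congr rfl (fun z hz => hSpow z (hTg z hz)),
      Finset.sum_const, nsmul_eq_mul]
  have hge : (e : ℤ) ≤ log (W (∏ z ∈ T, z)) := by
    have hpos : 0 < log (W (∏ z ∈ T, z)) := by
      have h4 : (0 : ℤ) < T.card := by exact_mod_cast Finset.card_pos.mpr ⟨x, hTne⟩
      have h5 : 0 < (g.natDegree : ℤ) * log (W (∏ z ∈ T, z)) := by
        rw [hlogsum]
        exact mul_pos h4 he0'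
      exact (mul_pos_iff_of_pos_left hm0).mp h5
    have h4 := Int.le_of_dvd hpos hdvd
    have h5 : (e : ℤ) ≤ Nat.card I := by exact_mod_cast heI
    exact h5.trans h4
  have hTcard : g.natDegree ≤ T.card := by
    have h4 : (g.natDegree : ℤ) * e ≤ T.card * e := by
      rw [← hlogsum]
      exact mul_le_mul_of_nonneg_left hge hm0.le
    have h5 := le_of_mul_le_mul_right h4 he0'
    exact_mod_cast h5
  have hfibcard : (S.filter (fun b => G.eval b = α₀)).card = g.natDegree := by
    have h4 := congrArg natDegree (hgS α₀ hα₀A.1)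
    rw [natDegree_sub_C, hG, hg.natDegree_map, natDegree_prod_of_monic _ _
      (fun b _ => monic_X_sub_C b)] at h4
    simp only [natDegree_X_sub_C, Finset.sum_const, smul_eq_mul, mul_one] at h4
    exact h4.symm
  have hTeq : T = S.filter (fun b => G.eval b = α₀) := by
    apply Finset.eq_of_subset_of_card_le
    · intro z hz
      rw [Finset.mem_filter]
      refine ⟨hSmem z ?_, hTg z hz⟩
      rw [hTg z hz]
      exact hα₀A.1
    · rw [hfibcard]
      exact hTcard
  have hyT : y ∈ T := by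
    rw [hTeq]
    exact Finset.mem_filter.mpr ⟨hy, hgy⟩
  obtain ⟨σ, hσ, hσx⟩ := (hTmem y).mp hyT
  exact ⟨σ, hσx, fun b hb hne => hIS σ hσ b hb hne⟩

end Pool.Agent.Lib.MP_89bcae_ag

end

section

/-!
# Transitivity on pairs from a place where exactly one root of `D` has a pole
-/

open Polynomial IsDedekindDomain WithZero

open scoped Classical

namespace Pool.Agent.Lib.MP_89bcae_ag

set_option linter.style.haveILetI false
set_option linter.unusedSectionVars false

universe u

/-- Transitivity on the pairs of roots of `D` and automorphisms moving only one fibre imply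
transitivity on the pairs of roots of `D(g)` in different fibres. -/
theorem isPairTransitive_of_fibre7 {k F : Type*} [Field k] [Field F] [Algebra k F] {g D : k[X]}
    (hX : IsPairTransitive7 k F X D) (α₀ : F) (hα₀ : aeval α₀ D = 0)
    (h : ∀ x y : F, aeval x g = α₀ → aeval y g = α₀ → ∃ σ : F ≃ₐ[k] F, σ x = y ∧
      ∀ b : F, aeval b (D.comp g) = 0 → aeval b g ≠ α₀ → σ b = b) :
    IsPairTransitive7 k F g D := by
  have hX' : ∀ α β α' β' : F, aeval α D = 0 → aeval β D = 0 → aeval α' D = 0 → aeval β' D = 0 →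
      α ≠ β → α' ≠ β' → ∃ σ : F ≃ₐ[k] F, σ α = α' ∧ σ β = β' := by
    intro α β α' β' h1 h2 h3 h4 h5 h6
    apply hX α β α' β' <;> simpa
  have hσev : ∀ (σ : F ≃ₐ[k] F) (p : k[X]) (x : F), aeval (σ x) p = σ (aeval x p) := fun σ p x =>
    Polynomial.aeval_algHom_apply σ x p
  have hcomp : ∀ b : F, aeval b (D.comp g) = aeval (aeval b g) D := fun b => aeval_comp b
  -- all the fibres
  have hall : ∀ α β : F, aeval α D = 0 → aeval β D = 0 → α ≠ β → ∀ x y : F, aeval x g = α →
      aeval y g = α → ∃ σ : F ≃ₐ[k] F, σ x = y ∧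
        ∀ b : F, aeval b (D.comp g) = 0 → aeval b g ≠ α → σ b = b := by
    intro α β hα hβ hαβ x y hx hy
    obtain ⟨β₀, hβ₀, hne⟩ : ∃ β₀ : F, aeval β₀ D = 0 ∧ α₀ ≠ β₀ := by
      by_cases hc : α₀ = α
      · exact ⟨β, hβ, by rw [hc]; exact hαβ⟩
      · exact ⟨α, hα, hc⟩
    obtain ⟨τ, hτ, -⟩ := hX' α₀ β₀ α β hα₀ hβ₀ hα hβ hne hαβ
    have hτ' : τ.symm α = α₀ := by rw [← hτ, AlgEquiv.symm_apply_apply]
    obtain ⟨σ, hσ, hfix⟩ := h (τ.symm x) (τ.symm y) (by rw [hσev, hx, hτ'])
      (by rw [hσev, hy, hτ'])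
    refine ⟨(τ.symm.trans σ).trans τ, ?_, fun b hb hne' => ?_⟩
    · change τ (σ (τ.symm x)) = y
      rw [hσ, AlgEquiv.apply_symm_apply]
    · change τ (σ (τ.symm b)) = b
      rw [hfix (τ.symm b) (by rw [hσev, hb, map_zero]) ?_, AlgEquiv.apply_symm_apply]
      intro h1
      rw [hσev] at h1
      apply hne'
      rw [← hτ, ← h1, AlgEquiv.apply_symm_apply]
  intro b c b' c' hb hc hb' hc' hbc hbc'
  rw [hcomp] at hb hc hb' hc'
  obtain ⟨τ, hτb, hτc⟩ := hX' _ _ _ _ hb hc hb' hc' hbc hbc'
  obtain ⟨σ, hσ, hσfix⟩ := hall _ _ hb' hc' hbc' (τ b) b' (by rw [hσev, hτb]) rfl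
  obtain ⟨ρ, hρ, hρfix⟩ := hall _ _ hc' hb' (Ne.symm hbc') (τ c) c' (by rw [hσev, hτc]) rfl
  refine ⟨(τ.trans σ).trans ρ, ?_, ?_⟩
  · change ρ (σ (τ b)) = b'
    rw [hσ, hρfix b' (by rw [hcomp]; exact hb') hbc']
  · change ρ (σ (τ c)) = c'
    rw [hσfix (τ c) (by rw [hcomp, hσev, hτc]; exact hc') (by rw [hσev, hτc]; exact hbc'.symm), hρ]

/-- Transitivity on pairs from automorphisms, of the splitting field, moving only one fibre. -/
theorem isPairTransitive_of_galois7 (R k : Type*) (F : Type u) [CommRing R] [IsDomain R] [Field k]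
    [Algebra R k] [IsFractionRing R k] [Field F] [Algebra k F] [IsAlgClosure k F] {g D : R[X]}
    (hgdeg : g.natDegree ≠ 0) (hg : g.Monic)
    (H : ∀ (K : Type u) [Field K] [Algebra k K] [Algebra R K] [IsScalarTower R k K]
      [FiniteDimensional k K] [IsGalois k K] (S A : Finset K), D.map (algebraMap R K) =
        C (algebraMap R K D.leadingCoeff) * ∏ α ∈ A, (X - C α) →
      (∀ α ∈ A, g.map (algebraMap R K) - C α =
        ∏ b ∈ S.filter (fun b => (g.map (algebraMap R K)).eval b = α), (X - C b)) →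
      (∀ b ∈ S, (g.map (algebraMap R K)).eval b ∈ A) →
      (∀ σ : K ≃ₐ[k] K, (∀ b ∈ S, σ b = b) → σ = 1) →
      ∃ α₀ ∈ A, ∀ x ∈ S, ∀ y ∈ S, (g.map (algebraMap R K)).eval x = α₀ →
        (g.map (algebraMap R K)).eval y = α₀ → ∃ σ : K ≃ₐ[k] K, σ x = y ∧
          ∀ b ∈ S, (g.map (algebraMap R K)).eval b ≠ α₀ → σ b = b)
    (hsep : ((D.comp g).map (algebraMap R k)).Separable)
    (hX : IsPairTransitive7 k F X (D.map (algebraMap R k))) :
    IsPairTransitive7 k F (g.map (algebraMap R k)) (D.map (algebraMap R k)) := by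
  have hF : IsAlgClosed F := IsAlgClosure.isAlgClosed k
  have hkF : Algebra.IsAlgebraic k F := IsAlgClosure.isAlgebraic
  letI : Algebra R F := ((algebraMap k F).comp (algebraMap R k)).toAlgebra
  haveI : IsScalarTower R k F := IsScalarTower.of_algebraMap_eq fun _ => rfl
  have hinjk : Function.Injective (algebraMap R k) := IsFractionRing.injective R k
  have hinjF : Function.Injective (algebraMap R F) := (algebraMap k F).injective.comp hinjk
  have hmapF : ∀ p : R[X], (p.map (algebraMap R k)).map (algebraMap k F) =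
      p.map (algebraMap R F) := fun p => by rw [Polynomial.map_map]; rfl
  have hlcF' : (D.map (algebraMap R F)).leadingCoeff = algebraMap R F D.leadingCoeff :=
    leadingCoeff_map_of_injective hinjF D
  have hcompF : (D.map (algebraMap R F)).comp (g.map (algebraMap R F)) =
      ((D.comp g).map (algebraMap R k)).map (algebraMap k F) := by
    rw [hmapF, Polynomial.map_comp]
  have hsepF : ((D.map (algebraMap R F)).comp (g.map (algebraMap R F))).Separable := by
    rw [hcompF]; exact hsep.map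
  have hgF : (g.map (algebraMap R F)).natDegree ≠ 0 := by rwa [hg.natDegree_map]
  have hsepD : (D.map (algebraMap R F)).Separable := separable_left7 hgF hsepF
  set gF := g.map (algebraMap R F) with hgFdef
  set DF := D.map (algebraMap R F) with hDFdef
  set S : Finset F := (DF.comp gF).roots.toFinset with hS
  set A : Finset F := DF.roots.toFinset with hA
  have hmemS : ∀ b, b ∈ S ↔ DF.eval (gF.eval b) = 0 := by
    intro b
    rw [hS, Multiset.mem_toFinset, mem_roots hsepF.ne_zero, IsRoot.def, eval_comp]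
  have hmemA : ∀ α, α ∈ A ↔ DF.eval α = 0 := by
    intro α
    rw [hA, Multiset.mem_toFinset, mem_roots hsepD.ne_zero, IsRoot.def]
  have hSA : ∀ b ∈ S, gF.eval b ∈ A := fun b hb => (hmemA _).mpr ((hmemS b).mp hb)
  have hDA : DF = C (algebraMap R F D.leadingCoeff) * ∏ α ∈ A, (X - C α) := by
    rw [← hlcF']
    exact eq_prod_roots7 hsepD
  have hgS : ∀ α ∈ A, gF - C α = ∏ b ∈ S.filter (fun b => gF.eval b = α), (X - C b) := by
    intro α hα
    have h1 : (gF - C α) ∣ DF.comp gF := by
      obtain ⟨w, hw⟩ := dvd_iff_isRoot.mpr ((hmemA α).mp hα)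
      refine ⟨w.comp gF, ?_⟩
      rw [hw, mul_comp, sub_comp, X_comp, C_comp]
    have h3 := eq_prod_roots7 (hsepF.of_dvd h1)
    have h4 : (gF - C α).Monic := by
      have h5 : (C α).degree < gF.degree := by
        rw [degree_eq_natDegree (p := gF) (fun h => hgF (by rw [h, natDegree_zero]))]
        exact (degree_C_le).trans_lt (by exact_mod_cast Nat.pos_of_ne_zero hgF)
      exact (hg.map _).sub_of_left h5
    rw [h4.leadingCoeff, C_1, one_mul] at h3
    rw [h3]
    congr 1
    ext b
    rw [Finset.mem_filter, Multiset.mem_toFinset, mem_roots h4.ne_zero, IsRoot.def, eval_sub,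
      eval_C, sub_eq_zero, hmemS]
    constructor
    · exact fun h => ⟨by rw [h]; exact (hmemA α).mp hα, h⟩
    · exact fun h => h.2
  have hAS : ∀ α ∈ A, ∃ b ∈ S, gF.eval b = α := by
    intro α hα
    have h1 : (gF - C α).degree ≠ 0 := by
      intro h4
      have h3 : (gF - C α).natDegree = gF.natDegree := natDegree_sub_C
      rw [natDegree_eq_of_degree_eq_some h4] at h3
      exact hgF h3.symm
    obtain ⟨b, hb⟩ := IsAlgClosed.exists_root _ h1
    rw [IsRoot.def, eval_sub, eval_C, sub_eq_zero] at hb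
    exact ⟨b, (hmemS b).mpr (by rw [hb]; exact (hmemA α).mp hα), hb⟩
  have hSroot : (S : Set F) = ((D.comp g).map (algebraMap R k)).rootSet F := by
    rw [rootSet, hS, hcompF, aroots]
  obtain ⟨hfin, hgal⟩ := galois7 (F := F) hsep
  obtain ⟨K, hK⟩ : ∃ K, K = IntermediateField.adjoin k (S : Set F) := ⟨_, rfl⟩
  haveI : FiniteDimensional k K := by rw [hK, hSroot]; exact hfin
  haveI : IsGalois k K := by rw [hK, hSroot]; exact hgal
  have hSK : ∀ b ∈ S, b ∈ K := by
    intro b hb
    rw [hK]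
    exact IntermediateField.subset_adjoin _ _ hb
  have hRK : ∀ r : R, algebraMap R F r ∈ K := by
    intro r
    rw [IsScalarTower.algebraMap_apply R k F]
    exact K.algebraMap_mem _
  have hgK : ∀ b ∈ K, gF.eval b ∈ K := by
    intro b hb
    rw [hgFdef, eval_map, eval₂_eq_sum_range]
    exact K.sum_mem fun i _ => K.mul_mem (hRK _) (pow_mem hb i)
  have hAK : ∀ α ∈ A, α ∈ K := by
    intro α hα
    obtain ⟨b, hb, rfl⟩ := hAS α hα
    exact hgK b (hSK b hb)
  have hcomp : (algebraMap K F).comp (algebraMap R K) = algebraMap R F := RingHom.ext fun r => rfl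
  have hinj : Function.Injective (Polynomial.map (algebraMap K F)) :=
    Polynomial.map_injective _ (algebraMap K F).injective
  have hev : ∀ b : K, (((g.map (algebraMap R K)).eval b : K) : F) = gF.eval (b : F) := by
    intro b
    rw [hgFdef, ← hcomp, ← Polynomial.map_map, eval_map (algebraMap K F)]
    exact (eval₂_at_apply (algebraMap K F) b).symm
  obtain ⟨α₀, hα₀, hI⟩ := H K (S.subtype (· ∈ K)) (A.subtype (· ∈ K)) (by
      apply hinj
      rw [Polynomial.map_map, hcomp, ← hDFdef, hDA, Polynomial.map_mul, map_C, Polynomial.map_prod]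
      congr 1
      have h1 := prod_subtype7 (· ∈ K) A hAK (fun _ => True) (fun _ => True) (fun _ => Iff.rfl)
        (fun b => (X - C b : F[X]))
      rw [Finset.filter_true, Finset.filter_true] at h1
      rw [← h1]
      refine Finset.prod_congr rfl fun b _ => ?_
      rw [Polynomial.map_sub, map_X, map_C]
      rfl) (by
      intro α hα
      apply hinj
      rw [Polynomial.map_sub, Polynomial.map_map, hcomp, map_C, Polynomial.map_prod]
      rw [Finset.mem_subtype] at hα
      have h1 := prod_subtype7 (· ∈ K) S hSK (fun b => (g.map (algebraMap R K)).eval b = α)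
        (fun b => gF.eval b = (α : F))
        (fun b => by rw [← hev, Subtype.coe_inj]) (fun b => (X - C b : F[X]))
      refine (hgS α hα).trans (h1.symm.trans ?_)
      refine Finset.prod_congr rfl fun b _ => ?_
      rw [Polynomial.map_sub, map_X, map_C]
      rfl) (by
      intro b hb
      rw [Finset.mem_subtype] at hb ⊢
      rw [hev]
      exact hSA b hb) (by
      intro σ hσ
      subst hK
      ext x
      have h1 : (σ : _ ≃ₐ[k] _).toAlgHom = AlgHom.id k _ := by
        apply IntermediateField.algHom_ext_of_eq_adjoin _ rfl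
        intro y hy
        exact hσ ⟨y, IntermediateField.subset_adjoin _ _ hy⟩ (Finset.mem_subtype.mpr hy)
      exact congrArg Subtype.val (congrArg (fun f => f x) h1))
  rw [Finset.mem_subtype] at hα₀
  have heva : ∀ b : F, aeval b (g.map (algebraMap R k)) = gF.eval b := by
    intro b
    rw [← eval_map_algebraMap, hmapF]
  have hevD : ∀ b : F, aeval b (D.map (algebraMap R k)) = DF.eval b := by
    intro b
    rw [← eval_map_algebraMap, hmapF]
  refine isPairTransitive_of_fibre7 hX (α₀ : F) (by rw [hevD]; exact (hmemA _).mp hα₀) ?_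
  intro x y hx hy
  rw [heva] at hx hy
  have hxS : x ∈ S := (hmemS x).mpr (by rw [hx]; exact (hmemA _).mp hα₀)
  have hyS : y ∈ S := (hmemS y).mpr (by rw [hy]; exact (hmemA _).mp hα₀)
  obtain ⟨σ, hσ, hfix⟩ := hI ⟨x, hSK x hxS⟩ (Finset.mem_subtype.mpr hxS) ⟨y, hSK y hyS⟩
    (Finset.mem_subtype.mpr hyS) (Subtype.ext (by rw [hev]; exact hx))
    (Subtype.ext (by rw [hev]; exact hy))
  obtain ⟨τ, hτ⟩ := AlgEquiv.restrictNormalHom_surjective (F := k) (K₁ := K) F σ
  have hτK : ∀ z : K, τ z = (σ z : K) := by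
    intro z
    rw [← hτ]
    exact (AlgEquiv.restrictNormal_commutes τ K z).symm
  refine ⟨τ, ?_, fun b hb hne => ?_⟩
  · have h4 := hτK ⟨x, hSK x hxS⟩
    rw [hσ] at h4
    exact h4
  · rw [aeval_comp, heva, hevD] at hb
    have hbS : b ∈ S := (hmemS b).mpr hb
    have h4 := hτK ⟨b, hSK b hbS⟩
    rw [hfix ⟨b, hSK b hbS⟩ (Finset.mem_subtype.mpr hbS) ?_] at h4
    · exact h4
    · intro h5
      apply hne
      rw [heva, ← hev ⟨b, hSK b hbS⟩, h5]

/-- **Transitivity on pairs from transitivity on the pairs of roots of `D` and a place where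
exactly one root of `D` has a pole, of order one** (finite residue field). -/
theorem isPairTransitive_of_eis7 (R k F : Type*) [CommRing R] [IsDomain R]
    [IsDiscreteValuationRing R] [Finite (IsLocalRing.ResidueField R)] [Field k] [Algebra R k]
    [IsFractionRing R k] [Field F] [Algebra k F] [IsAlgClosure k F] {g D : R[X]}
    (hgdeg : g.natDegree ≠ 0) (hg : g.Monic) {n : ℕ} (hn : D.natDegree = n + 1)
    (h1 : D.coeff (n + 1) ∈ IsLocalRing.maximalIdeal R)
    (h2 : D.coeff (n + 1) ∉ IsLocalRing.maximalIdeal R ^ 2)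
    (h3 : D.coeff n ∉ IsLocalRing.maximalIdeal R)
    (hsepκ : ((D.map (IsLocalRing.residue R)).comp (g.map (IsLocalRing.residue R))).Separable)
    (hsep : ((D.comp g).map (algebraMap R k)).Separable)
    (hX : IsPairTransitive7 k F X (D.map (algebraMap R k))) :
    IsPairTransitive7 k F (g.map (algebraMap R k)) (D.map (algebraMap R k)) := by
  refine isPairTransitive_of_galois7 R k F hgdeg hg ?_ hsep hX
  intro K _ _ _ _ _ _ S A hDA hgS hSA _
  exact exists_inertia7 (k := k) hgdeg hg hn h1 h2 h3 hsepκ S A hDA hgS hSA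

/-- **Transitivity on pairs from transitivity on the pairs of roots of `D` and a place where
exactly one root of `D` has a pole, of order one** (arbitrary residue field). -/
theorem isPairTransitive_of_cycle7 (R k F : Type*) [CommRing R] [IsDomain R]
    [IsDiscreteValuationRing R] [Field k] [Algebra R k]
    [IsFractionRing R k] [Field F] [Algebra k F] [IsAlgClosure k F] {g D : R[X]} (hg : g.Monic)
    (hgm : (g.natDegree : IsLocalRing.ResidueField R) ≠ 0) {n : ℕ} (hn : D.natDegree = n + 1)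
    (h1 : D.leadingCoeff ∈ IsLocalRing.maximalIdeal R)
    (h2 : D.leadingCoeff ∉ IsLocalRing.maximalIdeal R ^ 2)
    (h3 : D.coeff n ∉ IsLocalRing.maximalIdeal R)
    (hsepκ : ((D.map (IsLocalRing.residue R)).comp (g.map (IsLocalRing.residue R))).Separable)
    (hsep : ((D.comp g).map (algebraMap R k)).Separable)
    (hX : IsPairTransitive7 k F X (D.map (algebraMap R k))) :
    IsPairTransitive7 k F (g.map (algebraMap R k)) (D.map (algebraMap R k)) := by
  have hgdeg : g.natDegree ≠ 0 := by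
    intro h
    rw [h, Nat.cast_zero] at hgm
    exact hgm rfl
  refine isPairTransitive_of_galois7 R k F hgdeg hg ?_ hsep hX
  intro K _ _ _ _ _ _ S A hDA hgS hSA hgen
  exact exists_cycle8 (k := k) hg hgm hn h1 h2 h3 hsepκ S A hDA hgS hSA hgen

end Pool.Agent.Lib.MP_89bcae_ag

end

section

open Polynomial Finset

open scoped Classical

namespace Pool.Agent.Lib.MP_89bcae_ag.Re

open Sup

/-- The structure of the symbol `kp` on the differences of the elements of `S`: matchings along the
path `a 0, .., a (n-1)` and weights `y i j`. -/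
structure PathSym {F : Type*} [Field F] {ℓ : ℕ} (n m : ℕ) (S : Finset F) (p : F → F) (a : ℕ → F)
    (M : ℕ → F → F) (y : ℕ → ℕ → ZMod ℓ) (kp : F → ZMod ℓ) : Prop where
  inj : ∀ i < n, ∀ j < n, a i = a j → i = j
  fib : ∀ β ∈ S, ∃ i < n, p β = a i
  card : ∀ i < n, (S.filter fun β => p β = a i).card = m
  mmem : ∀ i, i + 1 < n → ∀ β ∈ S, p β = a i → M i β ∈ S ∧ p (M i β) = a (i + 1)
  minj : ∀ i, i + 1 < n → ∀ β ∈ S, ∀ β' ∈ S, p β = a i → p β' = a i → M i β = M i β' → β = β'
  msurj : ∀ i, i + 1 < n → ∀ β' ∈ S, p β' = a (i + 1) → ∃ β ∈ S, p β = a i ∧ M i β = β'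
  ysymm : ∀ i j, y i j = y j i
  same : ∀ β ∈ S, ∀ β' ∈ S, β ≠ β' → p β = p β' → kp (β - β') = 0
  symm : ∀ β ∈ S, ∀ β' ∈ S, β ≠ β' → kp (β - β') = kp (β' - β)
  val : ∀ i j, i < j → j < n → ∀ β ∈ S, p β = a i → ∀ β' ∈ S, p β' = a j →
    kp (β - β') = (if j = i + 1 then (if β' = M i β then 1 else 0) else 0) + y i j

/-- the sum over the fibre over `a j` -/
private lemma P06_fibre {F : Type*} [Field F] {ℓ : ℕ} {n m : ℕ} {S : Finset F} {p : F → F}
    {a : ℕ → F} {M : ℕ → F → F} {y : ℕ → ℕ → ZMod ℓ} {kp : F → ZMod ℓ}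
    (h : PathSym n m S p a M y kp)
    (e : F → ZMod ℓ) (he : ∀ i < n, ∑ β ∈ S.filter (fun β => p β = a i), e β = 0)
    {i : ℕ} (hi : i < n) {β : F} (hβ : β ∈ S) (hβi : p β = a i) {β₀ : F}
    (hβ₀ : i ≠ 0 → β₀ ∈ S ∧ p β₀ = a (i - 1) ∧ M (i - 1) β₀ = β) {j : ℕ} (hj : j < n)
    (hij : j ≠ i) :
    ∑ β' ∈ S.filter (fun β' => p β' = a j), kp (β - β') * (e β - e β') =
      (if j = i + 1 then (e β - e (M i β)) else 0) + (if i = j + 1 then (e β - e β₀) else 0) +
        (m : ZMod ℓ) * y i j * e β := by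
  have hsum : ∑ β' ∈ S.filter (fun β' => p β' = a j), (e β - e β') = (m : ZMod ℓ) * e β := by
    rw [Finset.sum_sub_distrib, he j hj, sub_zero, Finset.sum_const, h.card j hj, nsmul_eq_mul]
  rcases lt_or_gt_of_ne hij with hlt | hgt
  · -- `j < i`
    have hi0 : i ≠ 0 := by omega
    obtain ⟨b1, b2, b3⟩ := hβ₀ hi0
    have hval : ∀ β' ∈ S.filter (fun β' => p β' = a j), kp (β - β') * (e β - e β') =
        (if i = j + 1 then (if β' = β₀ then (e β - e β') else 0) else 0) +
          y i j * (e β - e β') := by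
      intro β' hβ'
      obtain ⟨hβ'S, hβ'j⟩ := Finset.mem_filter.1 hβ'
      have hne : β ≠ β' := by
        rintro rfl
        rw [hβi] at hβ'j
        exact hij (h.inj i hi j hj hβ'j).symm
      rw [h.symm β hβ β' hβ'S hne, h.val j i hlt hi β' hβ'S hβ'j β hβ hβi, h.ysymm j i]
      by_cases h1 : i = j + 1
      · have h2 : i - 1 = j := by omega
        rw [h2] at b2 b3
        rw [if_pos h1, if_pos h1]
        by_cases h3 : β' = β₀
        · rw [if_pos h3, if_pos (by rw [h3, b3]), add_mul, one_mul]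
        · rw [if_neg h3, if_neg, add_mul, zero_mul]
          intro h4
          rw [← b3] at h4
          exact h3 (h.minj j (by omega) β₀ b1 β' hβ'S b2 hβ'j h4).symm
      · rw [if_neg h1, if_neg h1, zero_add, zero_add]
    rw [Finset.sum_congr rfl hval, Finset.sum_add_distrib, ← Finset.mul_sum, hsum,
      if_neg (by omega), zero_add]
    congr 1
    · by_cases h1 : i = j + 1
      · have h2 : i - 1 = j := by omega
        rw [h2] at b2 b3
        simp only [if_pos h1]
        rw [Finset.sum_ite_eq', if_pos (Finset.mem_filter.2 ⟨b1, b2⟩)]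
      · simp only [if_neg h1]
        exact Finset.sum_const_zero
    · ring
  · -- `i < j`
    have hval : ∀ β' ∈ S.filter (fun β' => p β' = a j), kp (β - β') * (e β - e β') =
        (if j = i + 1 then (if β' = M i β then (e β - e β') else 0) else 0) +
          y i j * (e β - e β') := by
      intro β' hβ'
      obtain ⟨hβ'S, hβ'j⟩ := Finset.mem_filter.1 hβ'
      rw [h.val i j hgt hj β hβ hβi β' hβ'S hβ'j]
      by_cases h1 : j = i + 1
      · rw [if_pos h1, if_pos h1]
        by_cases h3 : β' = M i β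
        · rw [if_pos h3, if_pos h3, add_mul, one_mul]
        · rw [if_neg h3, if_neg h3, add_mul, zero_mul]
      · rw [if_neg h1, if_neg h1, zero_add, zero_add]
    rw [Finset.sum_congr rfl hval, Finset.sum_add_distrib, ← Finset.mul_sum, hsum,
      if_neg (by omega : ¬ i = j + 1), add_zero]
    congr 1
    · by_cases h1 : j = i + 1
      · obtain ⟨c1, c2⟩ := h.mmem i (by omega) β hβ hβi
        rw [← h1] at c2
        simp only [if_pos h1]
        rw [Finset.sum_ite_eq', if_pos (Finset.mem_filter.2 ⟨c1, c2⟩)]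
      · simp only [if_neg h1]
        exact Finset.sum_const_zero
    · ring

/-- The sum over the other fibres. Proof: split the sum according to `j ≠ i` with `p β' = a j`
(`Finset.sum_fiberwise_of_maps_to` or induction; the fibres over `a j`, `j < n`, are disjoint and cover
`S`). For `j > i + 1` or `j < i - 1` the contribution is
`∑ β' over a j, y i j * (e β - e β') = m * y i j * e β` (the sum of `e` over the fibre is zero). For
`j = i + 1` there is in addition the term `β' = M i β`: `e β - e (M i β)`. For `j = i - 1` (use `symm` and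
`val` for the pair `(j, i)`, `β = M j β'` iff `β' = β₀`) the additional term is `e β - e β₀`, where `β₀`
over `a (i-1)` is the element with `M (i-1) β₀ = β`. The total coefficient of `e β` is
`∑ j ≠ i, ((if neighbour then 1 else 0) + m * y i j) = D i`. -/
theorem PathSym.sum_eq {F : Type*} [Field F] {ℓ : ℕ} {n m : ℕ} {S : Finset F} {p : F → F}
    {a : ℕ → F} {M : ℕ → F → F} {y : ℕ → ℕ → ZMod ℓ} {kp : F → ZMod ℓ}
    (h : PathSym n m S p a M y kp) {D : ℕ → ZMod ℓ}
    (hD : ∀ i < n, ∑ j ∈ (range n).erase i,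
      ((if j = i + 1 ∨ i = j + 1 then 1 else 0) + (m : ZMod ℓ) * y i j) = D i)
    (e : F → ZMod ℓ) (he : ∀ i < n, ∑ β ∈ S.filter (fun β => p β = a i), e β = 0)
    {i : ℕ} (hi : i < n) {β : F} (hβ : β ∈ S) (hβi : p β = a i) {β₀ : F}
    (hβ₀ : i ≠ 0 → β₀ ∈ S ∧ p β₀ = a (i - 1) ∧ M (i - 1) β₀ = β) :
    ∑ β' ∈ S.filter (fun β' => p β' ≠ p β), kp (β - β') * (e β - e β') =
      D i * e β - (if i = 0 then 0 else e β₀) - (if i + 1 = n then 0 else e (M i β)) := by
  have hunion : S.filter (fun β' => p β' ≠ p β) =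
      ((range n).erase i).biUnion (fun j => S.filter (fun β' => p β' = a j)) := by
    ext β'
    rw [Finset.mem_filter, Finset.mem_biUnion]
    constructor
    · rintro ⟨h1, h2⟩
      obtain ⟨j, hj, hj'⟩ := h.fib β' h1
      refine ⟨j, Finset.mem_erase.2 ⟨?_, Finset.mem_range.2 hj⟩, Finset.mem_filter.2 ⟨h1, hj'⟩⟩
      rintro rfl
      exact h2 (hj'.trans hβi.symm)
    · rintro ⟨j, hj, hj'⟩
      obtain ⟨h1, h2⟩ := Finset.mem_filter.1 hj'
      obtain ⟨h3, h4⟩ := Finset.mem_erase.1 hj
      refine ⟨h1, fun h5 => h3 ?_⟩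
      rw [h2, hβi] at h5
      exact h.inj j (Finset.mem_range.1 h4) i hi h5
  have hdisj : Set.PairwiseDisjoint (↑((range n).erase i))
      (fun j => S.filter (fun β' => p β' = a j)) := by
    intro j hj j' hj' hjj'
    rw [Function.onFun, Finset.disjoint_left]
    intro x hx hx'
    have h1 := (Finset.mem_filter.1 hx).2
    have h2 := (Finset.mem_filter.1 hx').2
    rw [h1] at h2
    exact hjj' (h.inj j (Finset.mem_range.1 (Finset.mem_of_mem_erase hj)) j'
      (Finset.mem_range.1 (Finset.mem_of_mem_erase hj')) h2)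
  rw [hunion, Finset.sum_biUnion hdisj]
  have h1 : ∀ j ∈ (range n).erase i,
      ∑ β' ∈ S.filter (fun β' => p β' = a j), kp (β - β') * (e β - e β') =
      ((if j = i + 1 ∨ i = j + 1 then 1 else 0) + (m : ZMod ℓ) * y i j) * e β -
        (if j = i - 1 then (if i = 0 then 0 else e β₀) else 0) -
        (if j = i + 1 then e (M i β) else 0) := by
    intro j hj
    obtain ⟨h3, h4⟩ := Finset.mem_erase.1 hj
    rw [P06_fibre h e he hi hβ hβi hβ₀ (Finset.mem_range.1 h4) h3]
    by_cases c1 : j = i + 1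
    · rw [if_pos c1, if_neg (by omega), if_pos (Or.inl c1), if_neg (by omega), if_pos c1]
      ring
    · by_cases c2 : i = j + 1
      · rw [if_neg c1, if_pos c2, if_pos (Or.inr c2), if_pos (by omega), if_neg (by omega), if_neg c1]
        ring
      · rw [if_neg c1, if_neg c2, if_neg (by omega), if_neg (by omega), if_neg c1]
        ring
  rw [Finset.sum_congr rfl h1, Finset.sum_sub_distrib, Finset.sum_sub_distrib, ← Finset.sum_mul,
    hD i hi, Finset.sum_ite_eq', Finset.sum_ite_eq']
  congr 1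
  · congr 1
    by_cases c : i = 0
    · rw [if_pos c]
      split_ifs <;> rfl
    · rw [if_neg c, if_pos]
      exact Finset.mem_erase.2 ⟨by omega, Finset.mem_range.2 (by omega)⟩
  · by_cases c : i + 1 = n
    · rw [if_pos c, if_neg]
      intro h5
      have := Finset.mem_range.1 (Finset.mem_of_mem_erase h5)
      omega
    · rw [if_neg c, if_pos]
      exact Finset.mem_erase.2 ⟨by omega, Finset.mem_range.2 (by omega)⟩

end Pool.Agent.Lib.MP_89bcae_ag.Re

end
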