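import Mathlib
import Pool.Agent.Lib.MP_89bcae_ag.Rk.K017

section

/-!
# The trivial cocycles and the invariant Selmer cocycles

ROW G03 = the lemmas of this file (80-150 lines).
PROOFS. Trivial cocycles: `c n σ = σ A - A`, `ℓ^n A = 0`; sums, `Z A`, `γ A` (with
`σ γ A - γ A = γ (γ⁻¹ σ γ A - A)`). `act_galA_sub`: for a cocycle `c` and `h` in `Gal(Ω/L)`:
`(h c)(σ) = h c(h⁻¹ σ h) = c(σ h) - c(h) = c(σ) + σ c(h) - c(h)` (cocycle relation for
`h (h⁻¹ σ h) = σ h`), so `h c - c` is the coboundary of `A = c n h`, killed by `ℓ^n`.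
-/

open Polynomial IsDedekindDomain

open scoped Classical

namespace Pool.Agent.Lib.MP_89bcae_ag.Sup

universe u

variable {k F L Ω : Type u} [Field k] [Field F] [Algebra k F] [Field L] [Algebra F[X] L]
  [Field Ω] [Algebra L Ω] [IsAlgClosure k F] [IsFractionRing F[X] L] [IsAlgClosure L Ω]
  {ℓ : ℕ} {g D : k[X]} [hG : IsGood ℓ (cOver k F L Ω g D)]

/-- The trivial Tate cocycles. -/
def TTc (c : Coch ℓ k F L Ω g D) : Prop :=
  IsTateCocycle ℓ (curvePoly k F L g D) c ∧ IsTrivial ℓ (curvePoly k F L g D) c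

/-- The locally trivial Tate cocycles whose class is fixed by a power of each automorphism. -/
def WWc (c : Coch ℓ k F L Ω g D) : Prop :=
  IsTateCocycle ℓ (curvePoly k F L g D) c ∧ LTc c ∧
    ∀ γ : AutO k F L Ω, ∃ M : ℕ, 0 < M ∧ TTc (act (γ ^ M) c - c)

lemma TTc.zero : TTc (0 : Coch ℓ k F L Ω g D) := by
  refine ⟨IsTateCocycle.zero', fun n => ⟨0, smul_zero _, fun σ => ?_⟩⟩
  rw [map_zero, sub_zero]
  rfl

lemma TTc.add {c c' : Coch ℓ k F L Ω g D} (hc : TTc c) (hc' : TTc c') : TTc (c + c') := by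
  refine ⟨hc.1.add hc'.1, fun n => ?_⟩
  obtain ⟨A, hA, hcA⟩ := hc.2 n
  obtain ⟨B, hB, hcB⟩ := hc'.2 n
  refine ⟨A + B, by rw [smul_add, hA, hB, add_zero], fun σ => ?_⟩
  change c n σ + c' n σ = _
  rw [hcA σ, hcB σ, map_add]
  abel

lemma TTc.neg {c : Coch ℓ k F L Ω g D} (hc : TTc c) : TTc (-c) := by
  refine ⟨hc.1.neg, fun n => ?_⟩
  obtain ⟨A, hA, hcA⟩ := hc.2 n
  refine ⟨-A, by rw [smul_neg, hA, neg_zero], fun σ => ?_⟩
  change -(c n σ) = _
  rw [hcA σ, map_neg]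
  abel

lemma TTc.sub {c c' : Coch ℓ k F L Ω g D} (hc : TTc c) (hc' : TTc c') : TTc (c - c') := by
  rw [sub_eq_add_neg]
  exact hc.add hc'.neg

lemma TTc.zC {c : Coch ℓ k F L Ω g D} (hc : TTc c) (ζ : k) (hζ : (zA F L Ω ζ) ^ ℓ = 1) :
    TTc (Sup.zC ζ hζ c) := by
  refine ⟨hc.1.zC ζ hζ, fun n => ?_⟩
  obtain ⟨A, hA, hcA⟩ := hc.2 n
  refine ⟨zJ (zA F L Ω ζ) hζ A, by rw [← map_nsmul, hA, map_zero], fun σ => ?_⟩
  change zJ (zA F L Ω ζ) hζ (c n σ) = _
  rw [hcA σ, map_sub, push_eq, push_eq, zJ_symJ]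
  exact zA_fixed ζ (galA k F σ)

lemma TTc.act {c : Coch ℓ k F L Ω g D} (hc : TTc c) (γ : AutO k F L Ω) :
    TTc (Sup.act γ c) := by
  refine ⟨hc.1.act γ, fun n => ?_⟩
  obtain ⟨A, hA, hcA⟩ := hc.2 n
  refine ⟨symJ (toSym g D γ) A, by rw [← map_nsmul, hA, map_zero], fun σ => ?_⟩
  change symJ (toSym g D γ) (c n (conjG γ⁻¹ σ)) = _
  rw [hcA, map_sub, push_eq, push_eq, galA_conjG, ← symJ_mul, ← symJ_mul, ← map_mul, ← map_mul]
  have h : γ * (γ⁻¹ * galA k F σ * γ⁻¹⁻¹) = galA k F σ * γ := by group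
  rw [h]

lemma act_galA_sub {c : Coch ℓ k F L Ω g D}
    (hc : IsTateCocycle ℓ (curvePoly k F L g D) c) (h : Ω ≃ₐ[L] Ω) :
    TTc (act (galA k F h) c - c) := by
  refine ⟨?_, fun n => ?_⟩
  · rw [sub_eq_add_neg]
    exact (hc.act _).add hc.neg
  refine ⟨c n h, hc.pow_smul n h, fun σ => ?_⟩
  change symJ (toSym g D (galA k F h)) (c n (conjG (galA k F h)⁻¹ σ)) - c n σ = _
  have h1 : conjG (galA k F h : AutO k F L Ω)⁻¹ σ = h⁻¹ * σ * h := by
    rw [← map_inv, conjG_galA, inv_inv]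
  have h2 : h * (h⁻¹ * σ * h) = σ * h := by group
  have h3 := hc.cocycle n h (h⁻¹ * σ * h)
  rw [h2, hc.cocycle n σ h] at h3
  rw [h1, ← push_eq]
  rw [eq_comm, ← sub_eq_iff_eq_add'] at h3
  rw [← h3]
  abel

/-- If two automorphisms have the same restriction to `F`, they act in the same way on classes. -/
lemma act_sub_act_of_resF_eq {c : Coch ℓ k F L Ω g D}
    (hc : IsTateCocycle ℓ (curvePoly k F L g D) c) {γ γ' : AutO k F L Ω}
    (h : resF γ = resF γ') : TTc (act γ c - act γ' c) := by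
  obtain ⟨σ, hσ⟩ := exists_galA_of_resF_eq_one (γ'⁻¹ * γ) (by rw [map_mul, map_inv, h]; group)
  have h1 : γ = γ' * galA k F σ := by rw [hσ]; group
  have h2 : act γ c - act γ' c = act γ' (act (galA k F σ) c - c) := by
    rw [act_sub, ← act_mul, ← h1]
  rw [h2]
  exact (act_galA_sub hc σ).act γ'

lemma sum_zC_mem (ζ : k) (hζ : IsPrimitiveRoot (zA F L Ω ζ) ℓ) (c : Coch ℓ k F L Ω g D) :
    ∑ i ∈ Finset.range ℓ, (zC ζ hζ.pow_eq_one)^[i] c = 0 := by
  have hit : ∀ (i : ℕ) (n : ℕ) (σ : Ω ≃ₐ[L] Ω), ((zC ζ hζ.pow_eq_one)^[i] c) n σ =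
      (zJ (zA F L Ω ζ) hζ.pow_eq_one)^[i] (c n σ) := by
    intro i
    induction i with
    | zero =>
      intro n σ
      rfl
    | succ i ih =>
      intro n σ
      rw [Function.iterate_succ_apply', Function.iterate_succ_apply', ← ih n σ]
      rfl
  funext n σ
  rw [Finset.sum_apply, Finset.sum_apply]
  simp only [hit]
  exact sum_zJ _ hζ _

end Pool.Agent.Lib.MP_89bcae_ag.Sup

end

section

/-!
ROW G04 (100-200 lines). Local triviality: sums, `Z`, coboundaries.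

PROOFS. Unfold: for every algebraic closure `M` of `K`, every `j : Ω → M` over `L`, there is `Q` with
`j (c g') = g Q - Q`. Sum: add the `Q`s. `Z`: apply `Z` (of `M`, with `ζ_M = j ζ_Ω`; `zJ_jacMap`,
`push ℓ f σ = jacMap ..`; `M` is algebraically closed so `cOver k F L M g D` is good, which is
obtained from the hypothesis `H : GlobHyp` by `isGood_cOver`). Coboundaries: if `c n σ = σ A - A` take
`Q = j A` (`j ∘ g' = g ∘ j`; functoriality of `jacMap`: `CommRing.Pic.mapRingHom_comp_mapRingHom`).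
`push_comp` : functoriality of `push`.
-/

open Polynomial IsDedekindDomain

open scoped Classical

namespace Pool.Agent.Lib.MP_89bcae_ag.Sup

universe u

lemma jacMap_jacMap (ℓ : ℕ) {A B C' : Type u} [Field A] [Field B] [Field C'] (σ : A →+* B)
    (τ : B →+* C') {f : A[X]} {f' : B[X]} {f'' : C'[X]} (h : f.map σ = f') (h' : f'.map τ = f'')
    (h'' : f.map (τ.comp σ) = f'') (Q : Jac ℓ f) :
    jacMap ℓ τ h' (jacMap ℓ σ h Q) = jacMap ℓ (τ.comp σ) h'' Q := by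
  have e : (coordMap ℓ τ h').comp (coordMap ℓ σ h) = coordMap ℓ (τ.comp σ) h'' := by
    refine R07_hom_ext (fun p => ?_) ?_
    · rw [RingHom.comp_apply, coordMap_ofPoly, coordMap_ofPoly, coordMap_ofPoly,
        Polynomial.map_map]
    · rw [RingHom.comp_apply, coordMap_yy, coordMap_yy, coordMap_yy]
  have h1 : (CommRing.Pic.mapRingHom (coordMap ℓ τ h')).comp
      (CommRing.Pic.mapRingHom (coordMap ℓ σ h)) =
      CommRing.Pic.mapRingHom (coordMap ℓ (τ.comp σ) h'') := by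
    rw [← e]
    exact CommRing.Pic.mapRingHom_comp_mapRingHom
  exact congrArg Additive.ofMul (DFunLike.congr_fun h1 Q.toMul)

lemma push_push (ℓ : ℕ) {L A B C' : Type u} [Field L] [Field A] [Field B] [Field C'] [Algebra L A]
    [Algebra L B] [Algebra L C'] (f : L[X]) (σ : A →ₐ[L] B) (τ : B →ₐ[L] C')
    (Q : JacOver ℓ f A) : push ℓ f τ (push ℓ f σ Q) = push ℓ f (τ.comp σ) Q :=
  jacMap_jacMap ℓ (σ : A →+* B) (τ : B →+* C') _ _ _ Q

/-- The automorphism `Z` depends only on the root of unity. -/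
lemma G04_zJ_congr {ℓ : ℕ} {E : Type u} [Field E] {f : E[X]} [IsGood ℓ f] {z z' : E} (h : z = z')
    (hz : z ^ ℓ = 1) (hz' : z' ^ ℓ = 1) (Q : Jac ℓ f) : zJ z hz Q = zJ z' hz' Q := by
  subst h
  rfl

variable {k F L Ω : Type u} [Field k] [Field F] [Algebra k F] [Field L] [Algebra F[X] L]
  [Field Ω] [Algebra L Ω] [IsAlgClosure k F] [IsFractionRing F[X] L] [IsAlgClosure L Ω]
  {ℓ : ℕ} {g D : k[X]} [hG : IsGood ℓ (cOver k F L Ω g D)]

lemma LTc.add {c c' : Coch ℓ k F L Ω g D} (hc : LTc c) (hc' : LTc c') : LTc (c + c') := by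
  intro a n M _ _ _ _ _ j
  obtain ⟨Q, hQ⟩ := hc a n M j
  obtain ⟨Q', hQ'⟩ := hc' a n M j
  refine ⟨Q + Q', fun s s' h => ?_⟩
  rw [show (c + c') n s' = c n s' + c' n s' from rfl, map_add, hQ s s' h, hQ' s s' h, map_add]
  abel

lemma LTc.neg {c : Coch ℓ k F L Ω g D} (hc : LTc c) : LTc (-c) := by
  intro a n M _ _ _ _ _ j
  obtain ⟨Q, hQ⟩ := hc a n M j
  refine ⟨-Q, fun s s' h => ?_⟩
  rw [show (-c) n s' = -(c n s') from rfl, map_neg, hQ s s' h, map_neg]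
  abel

lemma LTc.zC {ζ : k} (H : GlobHyp ℓ g D ζ) {c : Coch ℓ k F L Ω g D} (hc : LTc c)
    (hζ : (zA F L Ω ζ) ^ ℓ = 1) : LTc (Sup.zC ζ hζ c) := by
  intro a n M _ _ _ _ _ j
  obtain ⟨Q, hQ⟩ := hc a n M j
  have : IsAlgClosed M := IsAlgClosure.isAlgClosed ((plc a).adicCompletion L)
  have hM : IsGood ℓ (cOver k F L M g D) := isGood_cOver H
  have hζM : ((j : Ω →+* M) (zA F L Ω ζ)) ^ ℓ = 1 := by
    rw [← map_pow, hζ, map_one]
  refine ⟨zJ ((j : Ω →+* M) (zA F L Ω ζ)) hζM Q, fun s s' h => ?_⟩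
  have h1 : push ℓ (curvePoly k F L g D) j (Sup.zC ζ hζ c n s') =
      zJ ((j : Ω →+* M) (zA F L Ω ζ)) hζM (push ℓ (curvePoly k F L g D) j (c n s')) :=
    (zJ_jacMap (j : Ω →+* M) _ (zA F L Ω ζ) hζ hζM (c n s')).symm
  have hz : ((s.restrictScalars L : M →ₐ[L] M) : M →+* M) ((j : Ω →+* M) (zA F L Ω ζ)) =
      (j : Ω →+* M) (zA F L Ω ζ) := by
    have h2 : (j : Ω →+* M) (zA F L Ω ζ) = algebraMap L M (base k F L L (C ζ)) :=
      j.commutes _
    rw [h2]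
    exact (s.restrictScalars L : M →ₐ[L] M).commutes _
  have hζM' : (((s.restrictScalars L : M →ₐ[L] M) : M →+* M)
      ((j : Ω →+* M) (zA F L Ω ζ))) ^ ℓ = 1 := by
    rw [hz, hζM]
  have h3 : push ℓ (curvePoly k F L g D) (s.restrictScalars L : M →ₐ[L] M)
      (zJ ((j : Ω →+* M) (zA F L Ω ζ)) hζM Q) = zJ ((j : Ω →+* M) (zA F L Ω ζ)) hζM
        (push ℓ (curvePoly k F L g D) (s.restrictScalars L : M →ₐ[L] M) Q) :=
    (zJ_jacMap ((s.restrictScalars L : M →ₐ[L] M) : M →+* M) _ _ hζM hζM' Q).symm.trans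
      (G04_zJ_congr hz hζM' hζM _)
  rw [h1, hQ s s' h, map_sub, h3]

/-- A coboundary is locally trivial. -/
lemma LTc.of_coboundary {c : Coch ℓ k F L Ω g D}
    (hc : ∀ n, ∃ A : JacOver ℓ (curvePoly k F L g D) Ω, ∀ σ : Ω ≃ₐ[L] Ω,
      c n σ = symJ (toSym g D (galA k F σ)) A - A) : LTc c := by
  intro a n M _ _ _ _ _ j
  obtain ⟨A, hA⟩ := hc n
  refine ⟨push ℓ (curvePoly k F L g D) j A, fun s s' h => ?_⟩
  have e : j.comp (s' : Ω →ₐ[L] Ω) = (s.restrictScalars L : M →ₐ[L] M).comp j :=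
    AlgHom.ext h
  rw [hA s', ← push_eq (k := k) (F := F) (g := g) (D := D) s' A, map_sub, push_push, push_push, e]

lemma TTc.lt {c : Coch ℓ k F L Ω g D} (hc : TTc c) : LTc c := by
  refine LTc.of_coboundary fun n => ?_
  obtain ⟨A, _, hA⟩ := hc.2 n
  exact ⟨A, fun σ => hA σ⟩

/-- Shift of the levels. -/
lemma LTc.shift {c : Coch ℓ k F L Ω g D} (hc : LTc c) (φ : ℕ → ℕ) :
    LTc (fun n => c (φ n) : Coch ℓ k F L Ω g D) :=
  fun a n => hc a (φ n)

end Pool.Agent.Lib.MP_89bcae_ag.Sup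

end
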