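import Mathlib
import Pool.Agent.Lib.MP_89bcae_ag.Rk.K019
import Pool.Agent.Lib.MP_89bcae_ag.Rk.K020
import Pool.Agent.Lib.MP_89bcae_ag.Rk.K027

/-!
ROW G12 (200-350 lines). The exponents of a cocycle.

`HasExp c e`: the class of `c` modulo `π` is given by the Kummer functions
`∏_{β ∈ RR} (θ - β)^{e β}`. PROOFS. Write `E_e(θ) = ∏_{β∈RR} (θ - β)^{e β}`.
`n_of`: for `σ` and `z` with `(z θ)^ℓ = E_e(θ)` on the roots there is `n` with
`σ (z θ) = ζ^{n(σθ)} z(σθ)`: the `ℓ`-th powers agree (`σ` fixes `F`, permutes the roots). So the third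
field applies to some `n`, and it depends only on `n` modulo `ℓ` on the roots.
`add`: take `z z'`; given `n` for `z z'` take `n₁`, `n₂` for `z`, `z'`: `n ≡ n₁ + n₂`. `neg`: `z⁻¹`.
`congr` (`e' = e + ℓ h` on `RR`): `z' = z ∏ (θ - β)^{h β}`. `zC`: `v (Z c₁) = Z (v c₁) = Z (ram n) = ram n`.
`act`: let `γ` have restriction `U` to `F` fixing `RR` pointwise. `z' θ = γ (z (γ⁻¹ θ))`:
`(z' θ)^ℓ = γ (E_e(γ⁻¹θ)) = E_e(θ)`. For `σ`, with `σ' = γ⁻¹ σ γ` (`conjG`): if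
`σ' (z θ) = ζ^{n'(σ'θ)} z(σ'θ)` then `σ (z' (γθ)) = γ σ' (z θ) = ζ^{n'(σ'θ)} z'(γ σ' θ)`, i.e.
`n(θ) ≡ n'(γ⁻¹θ)`, and `v ((act γ c) 1 σ) = γ (v (c 1 σ')) = γ (ram n') = ram (n' ∘ γ⁻¹)` (`symJ_ram`).
`dvd_of_TTc`: `c 1 σ = σA - A`, `ℓ A = 0`; `B = v A` is killed by `π`, `B = ram m₀` (R18), so
`v (c 1 σ) = σB - B = ram (m₀ ∘ σ⁻¹ - m₀)`. With `z'θ = ζ^{-m₀(θ)} z θ` we get
`σ (z' θ) = ζ^{k(σ)} z'(σθ)` with `k(σ)` independent of `θ` (R18 (C): compare with `ram n`). Let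
`m = deg g`, `w = ∏_θ z' θ`, `σ w = ζ^{m k(σ)} w`, `x_θ = (z' θ)^m / w`; `σ x_θ = x_{σθ}`. Fix `θ`: `x_θ` is fixed
by the stabilizer of `θ`, so `x_θ^{p^s} = A(θ)/B(θ)` (G10). `x_θ^ℓ = E_e(θ)^m / ∏_θ' E_e(θ')` and
`∏_{θ'} E_e(θ') = ∏_β (±(g(β) - t))^{e β} = ± ∏_a (a - t)^{∑_{g(β)=a} e β}` is plus or minus an `ℓ`-th
power of a rational function of `t = g(θ)`. So `E_e(θ)^{m p^s}` is a constant times the `ℓ`-th power
of a quotient of polynomials in `θ`; `dvd_of_prod_eq_pow` gives `ℓ ∣ m p^s e β`, `ℓ ∣ e β`.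
-/

open Polynomial IsDedekindDomain

open scoped Classical

namespace Pool.Agent.Lib.MP_89bcae_ag.Sup

universe u

/-- The set of the roots of `D(g(x))` in `F`. -/
noncomputable def RR {k : Type u} (F : Type u) [Field k] [Field F] [Algebra k F] (g D : k[X]) :
    Finset F :=
  ((D.comp g).map (algebraMap k F)).roots.toFinset

lemma mem_RR {k F : Type u} [Field k] [Field F] [Algebra k F] {g D : k[X]} {ℓ : ℕ} {ζ : k}
    (H : GlobHyp ℓ g D ζ) {β : F} : β ∈ RR F g D ↔ aeval (aeval β g) D = 0 := by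
  have h1 : (D.comp g).map (algebraMap k F) ≠ 0 :=
    (Polynomial.map_ne_zero_iff (algebraMap k F).injective).2 H.sep.ne_zero
  rw [RR, Multiset.mem_toFinset, mem_roots h1, IsRoot.def, eval_map_algebraMap, aeval_comp]

section

variable {ℓ : ℕ} {E : Type u} [Field E] {f : E[X]}

private lemma g12_mem_rts {θ : E} (hG : IsGood ℓ f) : θ ∈ rts f ↔ f.eval θ = 0 :=
  mem_rts hG.separable.ne_zero

private lemma g12_card (hG : IsGood ℓ f) : (rts f).card.Coprime ℓ := by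
  have := hG.alg
  have h1 : (rts f).card = f.natDegree := by
    unfold rts
    rw [Multiset.toFinset_card_of_nodup (nodup_roots hG.separable),
      IsAlgClosed.card_roots_eq_natDegree]
  rw [h1]
  exact hG.coprime

private lemma g12_zpow_eq {ζ : E} (hℓ : ℓ ≠ 0) (hζ : IsPrimitiveRoot ζ ℓ) (a b : ℤ) :
    ζ ^ a = ζ ^ b ↔ (ℓ : ℤ) ∣ a - b := by
  have h0 : ζ ≠ 0 := hζ.ne_zero hℓ
  rw [← hζ.zpow_eq_one_iff_dvd, zpow_sub₀ h0, div_eq_one_iff_eq (zpow_ne_zero _ h0)]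

private lemma g12_exists {ζ x y : E} (hℓ : ℓ ≠ 0) (hζ : IsPrimitiveRoot ζ ℓ) (hy : y ≠ 0)
    (h : x ^ ℓ = y ^ ℓ) : ∃ n : ℤ, x = ζ ^ n * y := by
  have : NeZero ℓ := ⟨hℓ⟩
  have h1 : (x / y) ^ ℓ = 1 := by
    rw [div_pow, h, div_self (pow_ne_zero _ hy)]
  obtain ⟨i, -, hi⟩ := hζ.eq_pow_of_pow_eq_one h1
  refine ⟨i, ?_⟩
  rw [zpow_natCast, hi, div_mul_cancel₀ _ hy]

private lemma g12_prod_zpow {ι : Type*} {x : E} (hx : x ≠ 0) (S : Finset ι) (e : ι → ℤ) :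
    ∏ i ∈ S, x ^ e i = x ^ ∑ i ∈ S, e i := by
  induction S using Finset.induction_on with
  | empty => simp
  | insert a T ha ih => rw [Finset.prod_insert ha, Finset.sum_insert ha, zpow_add₀ hx, ih]

private lemma g12_ram_zero [hG : IsGood ℓ f] : (ram (fun _ => 0) : Jac ℓ f) = 0 := by
  have h1 := ram_sub (ℓ := ℓ) (f := f) (fun _ => 0) (fun _ => 0)
  exact h1.trans (sub_self _)

private lemma g12_ram_neg [hG : IsGood ℓ f] (e : E → ℤ) :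
    (ram (fun θ => -e θ) : Jac ℓ f) = -ram e := by
  have h1 := ram_sub (ℓ := ℓ) (f := f) (fun _ => 0) e
  rw [g12_ram_zero, zero_sub] at h1
  rw [← h1]
  congr 1
  funext θ
  rw [zero_sub]

private lemma g12_vJ_neg [hG : IsGood ℓ f] (ζ : E) (hζ : ζ ^ ℓ = 1) (Q : Jac ℓ f) :
    vJ ζ hζ (-Q) = -vJ ζ hζ Q :=
  (AddMonoidHom.mk' (vJ ζ hζ) (vJ_add ζ hζ)).map_neg Q

end

private lemma g12_coprime {K : Type*} [Field K] {ℓ : ℕ} (hℓ : ℓ.Prime) (h : (ℓ : K) ≠ 0) :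
    ℓ.Coprime (ringExpChar K) := by
  have h1 := ringExpChar.expChar K
  generalize ringExpChar K = q at h1 ⊢
  cases h1 with
  | zero => exact Nat.coprime_one_right ℓ
  | prime hp =>
    rw [Nat.coprime_primes hℓ hp]
    rintro rfl
    exact h (CharP.cast_eq_zero K _)

variable {k F L Ω : Type u} [Field k] [Field F] [Algebra k F] [Field L] [Algebra F[X] L]
  [Field Ω] [Algebra L Ω] [IsAlgClosure k F] [IsFractionRing F[X] L] [IsAlgClosure L Ω]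
  [Algebra F Ω] {ℓ : ℕ} {g D : k[X]} [hG : IsGood ℓ (cOver k F L Ω g D)] {ζ : k}

/-- The exponents `e` describe the class of `c` modulo `π`. -/
structure HasExp (hζ : (zA F L Ω ζ) ^ ℓ = 1) (c : Coch ℓ k F L Ω g D) (e : F → ℤ) : Prop where
  sum : ∀ a : F, (ℓ : ℤ) ∣ ∑ β ∈ (RR F g D).filter (fun β => aeval β g = a), e β
  ex : ∃ z : Ω → Ω, (∀ θ ∈ rts (cOver k F L Ω g D),
      z θ ^ ℓ = ∏ β ∈ RR F g D, (θ - algebraMap F Ω β) ^ e β) ∧
    ∀ (σ : Ω ≃ₐ[L] Ω) (n : Ω → ℤ), (∀ θ ∈ rts (cOver k F L Ω g D),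
      σ (z θ) = zA F L Ω ζ ^ n (σ θ) * z (σ θ)) → vJ (zA F L Ω ζ) hζ (c 1 σ) = ram n

omit [IsAlgClosure k F] [IsFractionRing F[X] L] [IsAlgClosure L Ω] [Algebra F Ω] hG in
private lemma g12_stable (hG : IsGood ℓ (cOver k F L Ω g D)) (γ : AutO k F L Ω) {θ : Ω} :
    (γ : Ω ≃+* Ω) θ ∈ rts (cOver k F L Ω g D) ↔ θ ∈ rts (cOver k F L Ω g D) := by
  rw [g12_mem_rts hG, g12_mem_rts hG]
  have h1 := (toSym g D γ).2
  have h2 : (cOver k F L Ω g D).eval ((γ : Ω ≃+* Ω) θ) =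
      (γ : Ω ≃+* Ω) ((cOver k F L Ω g D).eval θ) := by
    conv_lhs => rw [← h1]
    rw [eval_map]
    exact eval₂_hom (p := cOver k F L Ω g D) ((γ : Ω ≃+* Ω) : Ω →+* Ω) θ
  rw [h2]
  exact map_eq_zero_iff _ (γ : Ω ≃+* Ω).injective

omit [IsAlgClosure k F] [IsFractionRing F[X] L] [IsAlgClosure L Ω] [Algebra F Ω] hG in
private lemma g12_smul_mem (hG : IsGood ℓ (cOver k F L Ω g D)) (σ : Ω ≃ₐ[L] Ω) {θ : Ω} :
    σ θ ∈ rts (cOver k F L Ω g D) ↔ θ ∈ rts (cOver k F L Ω g D) :=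
  g12_stable hG (galA k F σ)

omit [IsAlgClosure k F] [IsFractionRing F[X] L] [IsAlgClosure L Ω] [Algebra F Ω] hG in
private lemma g12_prod {N : Type*} [CommMonoid N] (hG : IsGood ℓ (cOver k F L Ω g D)) (σ : Ω ≃ₐ[L] Ω) (φ : Ω → N) :
    ∏ θ ∈ rts (cOver k F L Ω g D), φ (σ θ) = ∏ θ ∈ rts (cOver k F L Ω g D), φ θ :=
  Finset.prod_equiv σ.toEquiv (fun _ => (g12_smul_mem hG σ).symm) (fun _ _ => rfl)

omit [IsAlgClosure k F] [IsFractionRing F[X] L] [IsAlgClosure L Ω] [Algebra F Ω] hG in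
private lemma g12_zA (ζ : k) (σ : Ω ≃ₐ[L] Ω) : σ (zA F L Ω ζ) = zA F L Ω ζ :=
  σ.commutes _

omit [IsAlgClosure k F] [IsFractionRing F[X] L] [IsAlgClosure L Ω] hG in
private lemma g12_const (hF : CompatF F L Ω) (σ : Ω ≃ₐ[L] Ω) (c : F) :
    σ (algebraMap F Ω c) = algebraMap F Ω c := by
  rw [hF c]
  exact σ.commutes _

omit hG in
private lemma g12_ne (hF : CompatF F L Ω) (H : GlobHyp ℓ g D ζ) {θ : Ω}
    (hθ : θ ∈ rts (cOver k F L Ω g D)) (β : F) : θ - algebraMap F Ω β ≠ 0 := by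
  have h1 : aeval θ (X - C β : F[X]) = θ - algebraMap F Ω β := by
    rw [map_sub, aeval_X, aeval_C]
  rw [← h1, Ne, map_eq_zero_iff _ (aeval_root_injective hF H hθ)]
  exact X_sub_C_ne_zero β

/-- The product `∏ (θ - β)^{e β}`. -/
private noncomputable def g12_E (F : Type u) {k Ω : Type u} [Field k] [Field F] [Algebra k F]
    [Field Ω] [Algebra F Ω] (g D : k[X]) (e : F → ℤ) (θ : Ω) : Ω :=
  ∏ β ∈ RR F g D, (θ - algebraMap F Ω β) ^ e β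

omit hG in
private lemma g12_E_ne (hF : CompatF F L Ω) (H : GlobHyp ℓ g D ζ) (e : F → ℤ) {θ : Ω}
    (hθ : θ ∈ rts (cOver k F L Ω g D)) : g12_E F g D e θ ≠ 0 :=
  Finset.prod_ne_zero_iff.2 fun β _ => zpow_ne_zero _ (g12_ne hF H hθ β)

omit [IsAlgClosure k F] [IsFractionRing F[X] L] [IsAlgClosure L Ω] in
private lemma g12_E_map (hF : CompatF F L Ω) (e : F → ℤ) (σ : Ω ≃ₐ[L] Ω) (θ : Ω) :
    σ (g12_E F g D e θ) = g12_E F g D e (σ θ) := by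
  rw [g12_E, map_prod, g12_E]
  refine Finset.prod_congr rfl fun β _ => ?_
  rw [map_zpow₀, map_sub, g12_const hF]

omit hG in
private lemma g12_E_add (hF : CompatF F L Ω) (H : GlobHyp ℓ g D ζ) (e e' : F → ℤ) {θ : Ω}
    (hθ : θ ∈ rts (cOver k F L Ω g D)) :
    g12_E F g D (fun β => e β + e' β) θ = g12_E F g D e θ * g12_E F g D e' θ := by
  rw [g12_E, g12_E, g12_E, ← Finset.prod_mul_distrib]
  refine Finset.prod_congr rfl fun β _ => ?_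
  rw [zpow_add₀ (g12_ne hF H hθ β)]

omit [IsAlgClosure k F] in
private lemma g12_E_neg (e : F → ℤ) (θ : Ω) :
    g12_E F g D (fun β => -e β) θ = (g12_E F g D e θ)⁻¹ := by
  rw [g12_E, g12_E, ← Finset.prod_inv_distrib]
  refine Finset.prod_congr rfl fun β _ => ?_
  rw [zpow_neg]

omit [IsAlgClosure k F] in
private lemma g12_E_mul (m : ℤ) (e : F → ℤ) (θ : Ω) :
    g12_E F g D (fun β => m * e β) θ = (g12_E F g D e θ) ^ m := by
  rw [g12_E, g12_E, ← Finset.prod_zpow]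
  refine Finset.prod_congr rfl fun β _ => ?_
  rw [← zpow_mul, mul_comm]

private lemma g12_z_ne (hF : CompatF F L Ω) (H : GlobHyp ℓ g D ζ) (e : F → ℤ) {x θ : Ω}
    (hθ : θ ∈ rts (cOver k F L Ω g D)) (hx : x ^ ℓ = g12_E F g D e θ) : x ≠ 0 := by
  rintro rfl
  rw [zero_pow H.prime.ne_zero] at hx
  exact g12_E_ne hF H e hθ hx.symm

/-- The exponents `n` exist. -/
lemma exists_n_of_pow (hF : CompatF F L Ω) (H : GlobHyp ℓ g D ζ) (e : F → ℤ) {z : Ω → Ω}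
    (hz : ∀ θ ∈ rts (cOver k F L Ω g D),
      z θ ^ ℓ = ∏ β ∈ RR F g D, (θ - algebraMap F Ω β) ^ e β) (σ : Ω ≃ₐ[L] Ω) :
    ∃ n : Ω → ℤ, ∀ θ ∈ rts (cOver k F L Ω g D),
      σ (z θ) = zA F L Ω ζ ^ n (σ θ) * z (σ θ) := by
  have h1 : ∀ θ : Ω, ∃ n : ℤ, θ ∈ rts (cOver k F L Ω g D) →
      σ (z θ) = zA F L Ω ζ ^ n * z (σ θ) := by
    intro θ
    by_cases hθ : θ ∈ rts (cOver k F L Ω g D)
    · have hσθ := (g12_smul_mem hG σ).2 hθ
      obtain ⟨n, hn⟩ := g12_exists H.prime.ne_zero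
        (zA_primitive (F := F) (L := L) (A := Ω) H)
        (g12_z_ne hF H e hσθ (hz _ hσθ)) (x := σ (z θ)) (by
          rw [← map_pow, hz θ hθ, hz _ hσθ]
          exact g12_E_map hF e σ θ)
      exact ⟨n, fun _ => hn⟩
    · exact ⟨0, fun h => absurd h hθ⟩
  choose n hn using h1
  refine ⟨fun θ => n (σ⁻¹ θ), fun θ hθ => ?_⟩
  have h2 : σ⁻¹ (σ θ) = θ := σ.symm_apply_apply θ
  simp only [h2]
  exact hn θ hθ

omit [Algebra F Ω] in
/-- Comparison of the exponents. -/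
private lemma g12_congr (H : GlobHyp ℓ g D ζ) (σ : Ω ≃ₐ[L] Ω) (n n' : Ω → ℤ)
    (h : ∀ θ ∈ rts (cOver k F L Ω g D),
      zA F L Ω ζ ^ n (σ θ) = zA F L Ω ζ ^ n' (σ θ)) :
    (ram n : JacOver ℓ (curvePoly k F L g D) Ω) = ram n' := by
  apply ram_congr
  intro θ hθ
  have h1 := h (σ⁻¹ θ) ((g12_smul_mem hG σ⁻¹).2 ((g12_mem_rts hG).2 hθ))
  have h2 : σ (σ⁻¹ θ) = θ := σ.apply_symm_apply θ
  rw [h2] at h1
  exact (g12_zpow_eq H.prime.ne_zero (zA_primitive H) _ _).1 h1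

variable {hζ : (zA F L Ω ζ) ^ ℓ = 1}

lemma HasExp.add (hF : CompatF F L Ω) (H : GlobHyp ℓ g D ζ) {c c' : Coch ℓ k F L Ω g D}
    {e e' : F → ℤ} (h : HasExp hζ c e) (h' : HasExp hζ c' e') :
    HasExp hζ (c + c') (fun β => e β + e' β) := by
  obtain ⟨z, hz, hzn⟩ := h.ex
  obtain ⟨z', hz', hzn'⟩ := h'.ex
  refine ⟨fun a => ?_, fun θ => z θ * z' θ, fun θ hθ => ?_, fun σ n hn => ?_⟩
  · rw [Finset.sum_add_distrib]
    exact dvd_add (h.sum a) (h'.sum a)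
  · rw [mul_pow, hz θ hθ, hz' θ hθ]
    exact (g12_E_add hF H e e' hθ).symm
  · obtain ⟨n₁, hn₁⟩ := exists_n_of_pow hF H e hz σ
    obtain ⟨n₂, hn₂⟩ := exists_n_of_pow hF H e' hz' σ
    have h1 : vJ (zA F L Ω ζ) hζ ((c + c') 1 σ) = ram (fun θ => n₁ θ + n₂ θ) := by
      rw [ram_add, ← hzn σ n₁ hn₁, ← hzn' σ n₂ hn₂, ← vJ_add]
      rfl
    rw [h1]
    refine g12_congr H σ _ _ fun θ hθ => ?_
    have hσθ := (g12_smul_mem hG σ).2 hθ
    have h2 := hn θ hθ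
    rw [map_mul, hn₁ θ hθ, hn₂ θ hθ] at h2
    have h3 := g12_z_ne hF H e hσθ (hz _ hσθ)
    have h4 := g12_z_ne hF H e' hσθ (hz' _ hσθ)
    rw [zpow_add₀ ((zA_primitive H).ne_zero H.prime.ne_zero)]
    apply mul_right_cancel₀ (mul_ne_zero h3 h4)
    rw [← h2]
    ring

lemma HasExp.neg (hF : CompatF F L Ω) (H : GlobHyp ℓ g D ζ) {c : Coch ℓ k F L Ω g D}
    {e : F → ℤ} (h : HasExp hζ c e) : HasExp hζ (-c) (fun β => -e β) := by
  obtain ⟨z, hz, hzn⟩ := h.ex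
  refine ⟨fun a => ?_, fun θ => (z θ)⁻¹, fun θ hθ => ?_, fun σ n hn => ?_⟩
  · rw [Finset.sum_neg_distrib]
    exact (dvd_neg).2 (h.sum a)
  · rw [inv_pow, hz θ hθ]
    exact (g12_E_neg e θ).symm
  · obtain ⟨n₁, hn₁⟩ := exists_n_of_pow hF H e hz σ
    have h1 : vJ (zA F L Ω ζ) hζ ((-c) 1 σ) = ram (fun θ => -n₁ θ) := by
      rw [g12_ram_neg, ← hzn σ n₁ hn₁, ← g12_vJ_neg]
      rfl
    rw [h1]
    refine g12_congr H σ _ _ fun θ hθ => ?_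
    have hσθ := (g12_smul_mem hG σ).2 hθ
    have h2 := hn θ hθ
    have h3 := g12_z_ne hF H e hσθ (hz _ hσθ)
    rw [map_inv₀, hn₁ θ hθ, mul_inv, ← zpow_neg] at h2
    exact mul_right_cancel₀ (inv_ne_zero h3) h2

lemma HasExp.congr (hF : CompatF F L Ω) (H : GlobHyp ℓ g D ζ) {c : Coch ℓ k F L Ω g D}
    {e e' : F → ℤ} (h : HasExp hζ c e) (he : ∀ β ∈ RR F g D, (ℓ : ℤ) ∣ e' β - e β) :
    HasExp hζ c e' := by
  obtain ⟨z, hz, hzn⟩ := h.ex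
  have h1 : ∀ β, ∃ i : ℤ, β ∈ RR F g D → e' β = e β + ℓ * i := by
    intro β
    by_cases hβ : β ∈ RR F g D
    · obtain ⟨i, hi⟩ := he β hβ
      exact ⟨i, fun _ => by linarith⟩
    · exact ⟨0, fun h => absurd h hβ⟩
  choose i hi using h1
  have hE : ∀ θ ∈ rts (cOver k F L Ω g D), g12_E F g D e' θ =
      g12_E F g D e θ * (g12_E F g D i θ) ^ ℓ := by
    intro θ hθ
    rw [← zpow_natCast, ← g12_E_mul, ← g12_E_add hF H _ _ hθ]
    refine Finset.prod_congr rfl fun β hβ => ?_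
    rw [hi β hβ]
  refine ⟨fun a => ?_, fun θ => z θ * g12_E F g D i θ, fun θ hθ => ?_, fun σ n hn => ?_⟩
  · have h2 : ∑ β ∈ (RR F g D).filter (fun β => aeval β g = a), e' β =
        ∑ β ∈ (RR F g D).filter (fun β => aeval β g = a), e β +
        ℓ * ∑ β ∈ (RR F g D).filter (fun β => aeval β g = a), i β := by
      rw [Finset.mul_sum, ← Finset.sum_add_distrib]
      exact Finset.sum_congr rfl fun β hβ => hi β (Finset.mem_filter.1 hβ).1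
    rw [h2]
    exact dvd_add (h.sum a) (dvd_mul_right _ _)
  · rw [mul_pow, hz θ hθ]
    exact (hE θ hθ).symm
  · apply hzn
    intro θ hθ
    have hσθ := (g12_smul_mem hG σ).2 hθ
    have h2 := hn θ hθ
    rw [map_mul, g12_E_map hF, ← mul_assoc] at h2
    exact mul_right_cancel₀ (g12_E_ne hF H i hσθ) h2

lemma HasExp.zC (hF : CompatF F L Ω) (H : GlobHyp ℓ g D ζ) {c : Coch ℓ k F L Ω g D}
    {e : F → ℤ} (h : HasExp hζ c e) : HasExp hζ (Sup.zC ζ hζ c) e := by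
  obtain ⟨z, hz, hzn⟩ := h.ex
  refine ⟨h.sum, z, hz, fun σ n hn => ?_⟩
  have h1 : (Sup.zC ζ hζ c) 1 σ = zJ (zA F L Ω ζ) hζ (c 1 σ) := rfl
  rw [h1, vJ_zJ, hzn σ n hn, zJ_ram]

lemma HasExp.act (hF : CompatF F L Ω) (H : GlobHyp ℓ g D ζ) {c : Coch ℓ k F L Ω g D}
    {e : F → ℤ} (h : HasExp hζ c e) (γ : AutO k F L Ω) (hγ : ∀ β ∈ RR F g D, resF γ β = β) :
    HasExp hζ (Sup.act γ c) e := by
  obtain ⟨z, hz, hzn⟩ := h.ex
  have hγF : ∀ β ∈ RR F g D, (γ : Ω ≃+* Ω) (algebraMap F Ω β) = algebraMap F Ω β := by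
    intro β hβ
    rw [hF β, resF_spec, map_C]
    have h1 : (resF γ : F →+* F) β = β := hγ β hβ
    rw [h1]
  refine ⟨h.sum, fun θ => (γ : Ω ≃+* Ω) (z ((γ : Ω ≃+* Ω).symm θ)), fun θ hθ => ?_,
    fun σ n hn => ?_⟩
  · have hθ' : (γ : Ω ≃+* Ω).symm θ ∈ rts (cOver k F L Ω g D) := by
      rw [← g12_stable hG γ, RingEquiv.apply_symm_apply]
      exact hθ
    rw [← map_pow, hz _ hθ', map_prod]
    refine Finset.prod_congr rfl fun β hβ => ?_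
    rw [map_zpow₀, map_sub, hγF β hβ, RingEquiv.apply_symm_apply]
  · have h1 : (Sup.act γ c) 1 σ = symJ (toSym g D γ) (c 1 (conjG γ⁻¹ σ)) := rfl
    have hconj : ∀ x, (conjG γ⁻¹ σ) x =
        (γ : Ω ≃+* Ω).symm (σ ((γ : Ω ≃+* Ω) x)) := by
      intro x
      have h2 := conjG_spec γ⁻¹ σ ((γ : Ω ≃+* Ω) x)
      have h3 : ∀ y : Ω, ((γ⁻¹ : AutO k F L Ω) : Ω ≃+* Ω) y = (γ : Ω ≃+* Ω).symm y :=
        fun y => rfl
      rw [h3, h3, RingEquiv.symm_apply_apply] at h2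
      exact h2
    have h4 : vJ (zA F L Ω ζ) hζ (c 1 (conjG γ⁻¹ σ)) = ram (fun x => n ((γ : Ω ≃+* Ω) x)) := by
      apply hzn
      intro θ hθ
      have h5 := hn ((γ : Ω ≃+* Ω) θ) ((g12_stable hG γ).2 hθ)
      simp only [RingEquiv.symm_apply_apply] at h5
      rw [hconj, hconj, h5, map_mul, RingEquiv.symm_apply_apply, RingEquiv.apply_symm_apply,
        map_zpow₀]
      have h6 : (γ : Ω ≃+* Ω).symm (zA F L Ω ζ) = zA F L Ω ζ := by
        rw [RingEquiv.symm_apply_eq]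
        exact (zA_fixed ζ γ).symm
      rw [h6]
    rw [h1, vJ_symJ, h4, symJ_ram]
    · congr 1
      funext θ
      exact congrArg n ((γ : Ω ≃+* Ω).apply_symm_apply θ)
    · exact zA_fixed ζ γ

omit [IsAlgClosure k F] [IsFractionRing F[X] L] [IsAlgClosure L Ω] hG in
private lemma g12_t (hG : IsGood ℓ (cOver k F L Ω g D)) (hF : CompatF F L Ω) {θ : Ω} (hθ : θ ∈ rts (cOver k F L Ω g D)) :
    tA F L Ω = aeval θ (g.map (algebraMap k F)) := by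
  have h1 := (g12_mem_rts hG).1 hθ
  have h2 := hG.separable.ne_zero
  rw [cOver_eq_locPoly hF, locPoly] at h1 h2
  have h3 := (mul_ne_zero_iff.1 h2).1
  rw [eval_mul, eval_C, mul_eq_zero] at h1
  have h4 := h1.resolve_left (C_ne_zero.1 h3)
  rw [eval_sub, eval_C, eval_map_algebraMap, sub_eq_zero] at h4
  exact h4.symm

omit hG in
private lemma g12_prodE (hF : CompatF F L Ω) (H : GlobHyp ℓ g D ζ) (e s : F → ℤ)
    (hs : ∀ a : F, ∑ β ∈ (RR F g D).filter (fun β => aeval β g = a), e β = ℓ * s a) :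
    ∏ θ ∈ rts (cOver k F L Ω g D), g12_E F g D e θ =
      algebraMap F Ω (∏ β ∈ RR F g D, ((-1) ^ (g.natDegree + 1)) ^ e β) *
        (∏ a ∈ (RR F g D).image (fun β => aeval β g),
          (tA F L Ω - algebraMap F Ω a) ^ s a) ^ ℓ := by
  have ht : ∀ a : F, tA F L Ω - algebraMap F Ω a ≠ 0 := by
    intro a
    have h1 : aeval (tA F L Ω) (X - C a : F[X]) = tA F L Ω - algebraMap F Ω a := by
      rw [map_sub, aeval_X, aeval_C]
    rw [← h1, Ne, map_eq_zero_iff _ (tA_injective hF)]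
    exact X_sub_C_ne_zero a
  unfold g12_E
  rw [Finset.prod_comm]
  have h1 : ∀ β ∈ RR F g D, ∏ θ ∈ rts (cOver k F L Ω g D), (θ - algebraMap F Ω β) ^ e β =
      algebraMap F Ω (((-1) ^ (g.natDegree + 1)) ^ e β) *
        (tA F L Ω - algebraMap F Ω (aeval β g)) ^ e β := by
    intro β _
    rw [Finset.prod_zpow, prod_rts_sub hF H, map_zpow₀, map_pow, map_neg, map_one, ← mul_zpow]
    congr 1
    ring
  rw [Finset.prod_congr rfl h1, Finset.prod_mul_distrib, ← map_prod]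
  congr 1
  rw [← Finset.prod_fiberwise_of_maps_to (g := fun β => aeval β g)
    (fun β hβ => Finset.mem_image_of_mem _ hβ), ← Finset.prod_pow]
  refine Finset.prod_congr rfl fun a _ => ?_
  rw [← zpow_natCast, ← zpow_mul, mul_comm (s a), ← hs a, ← g12_prod_zpow (ht a)]
  refine Finset.prod_congr rfl fun β hβ => ?_
  rw [(Finset.mem_filter.1 hβ).2]

theorem HasExp.dvd_of_TTc (hF : CompatF F L Ω) (H : GlobHyp ℓ g D ζ)
    {c : Coch ℓ k F L Ω g D} {e : F → ℤ} (h : HasExp hζ c e) (hc : TTc c) :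
    ∀ β ∈ RR F g D, (ℓ : ℤ) ∣ e β := by
  have hζ' : IsPrimitiveRoot (zA F L Ω ζ) ℓ := zA_primitive H
  have hζ0 : zA F L Ω ζ ≠ 0 := hζ'.ne_zero H.prime.ne_zero
  obtain ⟨z, hz, hzn⟩ := h.ex
  obtain ⟨A, hA, hcA⟩ := hc.2 1
  obtain ⟨m₀, hm₀⟩ := exists_ram_of_zJ_eq (zA F L Ω ζ) hζ' (vJ (zA F L Ω ζ) hζ A) (by
    have h1 := vJ_sub_zJ (zA F L Ω ζ) hζ' A
    rw [pow_one] at hA
    rw [hA, sub_eq_zero] at h1
    exact h1.symm)
  have hn : ∀ σ : Ω ≃ₐ[L] Ω, ∃ κ : ℤ, ∀ θ ∈ rts (cOver k F L Ω g D),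
      σ (zA F L Ω ζ ^ (-m₀ θ) * z θ) = zA F L Ω ζ ^ κ * (zA F L Ω ζ ^ (-m₀ (σ θ)) * z (σ θ)) := by
    intro σ
    obtain ⟨n, hn⟩ := exists_n_of_pow hF H e hz σ
    have h1 := hzn σ n hn
    rw [hcA σ, vJ_sub, push_eq, vJ_symJ, hm₀, symJ_ram, ← ram_sub] at h1
    · have h2 := ram_sub (ℓ := ℓ) (f := cOver k F L Ω g D) n (fun θ =>
        m₀ (((((toSym g D) ((galA k F) σ))⁻¹ : Sym (cOver k F L Ω g D)) : Ω ≃+* Ω) θ) - m₀ θ)
      rw [← h1, sub_self] at h2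
      obtain ⟨κ, hκ⟩ := (ram_eq_zero_iff (zA F L Ω ζ) hζ' _).1 h2
      refine ⟨κ, fun θ hθ => ?_⟩
      have hσθ := (g12_smul_mem hG σ).2 hθ
      have h3 := hκ (σ θ) ((g12_mem_rts hG).1 hσθ)
      have h4 : ((((toSym g D) ((galA k F) σ))⁻¹ : Sym (cOver k F L Ω g D)) : Ω ≃+* Ω) (σ θ) =
          θ := σ.symm_apply_apply θ
      rw [h4] at h3
      have h5 := (g12_zpow_eq H.prime.ne_zero hζ' (-m₀ θ + n (σ θ)) (κ + -m₀ (σ θ))).2 (by
        convert h3 using 1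
        ring)
      rw [map_mul, map_zpow₀, g12_zA, hn θ hθ, ← mul_assoc, ← mul_assoc, ← zpow_add₀ hζ0,
        ← zpow_add₀ hζ0, h5]
    · exact g12_zA ζ σ
  set z' : Ω → Ω := fun θ => zA F L Ω ζ ^ (-m₀ θ) * z θ with hz'
  have hz'ℓ : ∀ θ ∈ rts (cOver k F L Ω g D), z' θ ^ ℓ = g12_E F g D e θ := by
    intro θ hθ
    have h1 : (zA F L Ω ζ ^ (-m₀ θ)) ^ ℓ = 1 := by
      rw [← zpow_natCast, ← zpow_mul, mul_comm, zpow_mul, zpow_natCast, hζ, one_zpow]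
    rw [hz']
    simp only
    rw [mul_pow, h1, one_mul]
    exact hz θ hθ
  set w : Ω := ∏ θ ∈ rts (cOver k F L Ω g D), z' θ with hw
  set m : ℕ := (rts (cOver k F L Ω g D)).card with hm
  obtain ⟨θ, hθ'⟩ := IsGood.exists_root (ℓ := ℓ) (f := cOver k F L Ω g D)
  have hθ : θ ∈ rts (cOver k F L Ω g D) := (g12_mem_rts hG).2 hθ'
  obtain ⟨s, PA, PB, hPB, hAB⟩ := exists_pow_eq_quot hF H hθ ((z' θ) ^ m / w) (by
    intro σ hσ
    obtain ⟨κ, hκ⟩ := hn σ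
    rw [map_div₀, map_pow, hκ θ hθ, hσ, hw, map_prod, Finset.prod_congr rfl hκ,
      Finset.prod_mul_distrib, g12_prod hG σ (fun θ => z' θ), Finset.prod_const, mul_pow]
    rw [mul_div_mul_left _ _ (pow_ne_zero _ (zpow_ne_zero _ hζ0))])
  generalize hq : ringExpChar k ^ s = q at hAB
  have hcop : ℓ.Coprime (m * q) := by
    refine Nat.Coprime.mul_right ?_ ?_
    · exact (g12_card hG).symm
    · rw [← hq]
      exact (g12_coprime H.prime H.ne).pow_right s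
  have hsum : ∀ a : F, ∃ i : ℤ,
      ∑ β ∈ (RR F g D).filter (fun β => aeval β g = a), e β = ℓ * i := fun a => h.sum a
  choose i hi using hsum
  set Y : Ω := ∏ a ∈ (RR F g D).image (fun β => aeval β g),
    (tA F L Ω - algebraMap F Ω a) ^ i a with hY
  set c₀ : F := ∏ β ∈ RR F g D, ((-1) ^ (g.natDegree + 1)) ^ e β with hc₀
  have hc₀0 : c₀ ≠ 0 := by
    rw [hc₀, Finset.prod_ne_zero_iff]
    intro β _
    exact zpow_ne_zero _ (pow_ne_zero _ (neg_ne_zero.2 one_ne_zero))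
  have hwℓ : w ^ ℓ = algebraMap F Ω c₀ * Y ^ ℓ := by
    rw [hw, ← Finset.prod_pow, Finset.prod_congr rfl hz'ℓ, g12_prodE hF H e i hi]
  have hw0 : w ≠ 0 := by
    rw [hw, Finset.prod_ne_zero_iff]
    intro θ' hθ'
    exact g12_z_ne hF H e hθ' (hz'ℓ _ hθ')
  have hE0 := g12_E_ne hF H e hθ
  have hmain : (g12_E F g D e θ) ^ (m * q) =
      algebraMap F Ω (c₀ ^ q) * ((((z' θ) ^ m / w) ^ q) * Y ^ q) ^ ℓ := by
    have h1 : (g12_E F g D e θ) ^ m = ((z' θ) ^ m / w) ^ ℓ * (algebraMap F Ω c₀ * Y ^ ℓ) := by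
      rw [← hwℓ, ← mul_pow, div_mul_cancel₀ _ hw0, ← hz'ℓ θ hθ, ← pow_mul, ← pow_mul, mul_comm]
    rw [pow_mul, h1, map_pow]
    ring
  have hK : (((z' θ) ^ m / w) ^ q) * Y ^ q ∈ IntermediateField.adjoin F ({θ} : Set Ω) := by
    refine mul_mem ?_ (pow_mem ?_ _)
    · rw [hAB]
      exact (IntermediateField.mem_adjoin_simple_iff F _).2 ⟨PA, PB, rfl⟩
    · rw [hY]
      refine prod_mem fun a _ => zpow_mem (sub_mem ?_ (algebraMap_mem _ a)) _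
      rw [g12_t hG hF hθ]
      exact (IntermediateField.mem_adjoin_simple_iff F _).2
        ⟨g.map (algebraMap k F), 1, by rw [map_one, _root_.div_one]⟩
  obtain ⟨r, r', hr⟩ := (IntermediateField.mem_adjoin_simple_iff F _).1 hK
  rw [hr] at hmain
  have hr' : r' ≠ 0 := by
    rintro rfl
    rw [map_zero, div_zero, zero_pow H.prime.ne_zero, mul_zero] at hmain
    exact pow_ne_zero _ hE0 hmain
  have hfin := dvd_of_prod_eq_pow (aeval_root_injective hF H hθ) (ℓ := ℓ) (RR F g D)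
    (fun β => ((m * q : ℕ) : ℤ) * e β) (c₀ ^ q) (pow_ne_zero _ hc₀0) r r' hr' (by
      rw [← hmain, ← zpow_natCast]
      exact g12_E_mul _ e θ)
  intro β hβ
  have h2 := hfin β hβ
  exact (Nat.isCoprime_iff_coprime.2 hcop).dvd_of_dvd_mul_left h2

end Pool.Agent.Lib.MP_89bcae_ag.Sup
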