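import Mathlib
import Pool.Agent.Lib.MP_89bcae_ag.Rk.K021
import Pool.Agent.Lib.MP_89bcae_ag.Rk.K028
import Pool.Agent.Lib.MP_89bcae_ag.Rk.K029
import Pool.Agent.Lib.MP_89bcae_ag.Rk.K030

section

/-!
ROW L11 (120-220 lines). The group `Γ = Aut(M/K)`: fixed elements, and the roots of `g(x) = t` with the
same residue are conjugate.

PROOFS. `galSym` is clear: `σ` fixes the coefficients of `f`.
`LocGrp`: the fixed elements of `Aut(M/K)`, `M` an algebraic closure of `K`, are purely inseparable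
over `K`: if `x` is fixed, all roots of its minimal polynomial are conjugates of `x` (normality), so
equal to `x`, so `x ^ p^s ∈ K` for some `s`, where `p` is the characteristic exponent (Mathlib:
`IsPurelyInseparable`, `perfectClosure`, `minpoly.natSepDegree_eq_one_iff...`,
`mem_perfectClosure_iff`). So `v(x)^{p^s}` is an integral power of `ϖ = v (t - a)`.
Conjugacy: let `θ`, `θ'` be roots near `r`, `μ` the number of the roots near `r`, `q` the minimal
polynomial of `θ` over `K`; it divides `g(x) - t` (coefficients in `K`), so it is separable and all its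
roots in `M` are conjugates of `θ` under `Aut(M/K)` (`IsConjRoot`, `isConjRoot_iff_exists_algEquiv`), so
they are near `r` (`σ` preserves `v` and fixes `r`). By `v_sub_pow`, `v (q(r)) = ∏ v (r - θ_i)` satisfies
`v (q(r))^μ = ϖ^{deg q}`, and `q(r)` is a nonzero element of `K` (`r` comes from `K`), so
`v (q(r)) = ϖ^i`, `i μ = deg q ≤ μ`, `i ≥ 1` (as `deg q ≥ 1`): `deg q = μ` and all the `μ` roots near
`r` are roots of `q`.
-/

open Polynomial

open scoped Classical

namespace Pool.Agent.Lib.MP_89bcae_ag.Sup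

universe u

variable {F K M : Type u} [Field F] [Field K] [Field M] [Algebra F M] [Algebra K M]

/-- The automorphisms of `M` over `K` fix the coefficients of a polynomial over `K`. -/
def galSym {f₀ : K[X]} {f : M[X]} (hf : f₀.map (algebraMap K M) = f) :
    (M ≃ₐ[K] M) →* Sym f where
  toFun σ := ⟨(σ : M ≃+* M), by
    rw [mem_Sym, ← hf, Polynomial.map_map]
    congr 1
    ext x
    exact σ.commutes x⟩
  map_one' := by
    apply Subtype.ext
    rfl
  map_mul' σ τ := by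
    apply Subtype.ext
    rfl

lemma galSym_apply {f₀ : K[X]} {f : M[X]} (hf : f₀.map (algebraMap K M) = f) (σ : M ≃ₐ[K] M)
    (x : M) : ((galSym hf σ : Sym f) : M ≃+* M) x = σ x := rfl

private lemma L11_pow_mem [IsAlgClosure K M] {x : M} (hx : ∀ σ : M ≃ₐ[K] M, σ x = x) :
    ∃ n : ℕ, x ^ (ringExpChar K) ^ n ∈ (algebraMap K M).range := by
  have hN : Normal K M := IsAlgClosure.normal K M
  have hA : IsAlgClosed M := IsAlgClosure.isAlgClosed K
  have hint : IsIntegral K x := (IsAlgClosure.isAlgebraic.isAlgebraic x).isIntegral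
  rw [← minpoly.natSepDegree_eq_one_iff_pow_mem (ringExpChar K),
    natSepDegree_eq_of_isAlgClosed M, Finset.card_eq_one]
  refine ⟨x, ?_⟩
  ext y
  rw [Multiset.mem_toFinset, Finset.mem_singleton, ← isConjRoot_iff_mem_minpoly_aroots hint]
  constructor
  · intro h
    obtain ⟨σ, hσ⟩ := h.exists_algEquiv
    have h2 := hx σ.symm
    rw [← hσ, AlgEquiv.symm_apply_apply] at h2
    rw [h2, hσ]
  · rintro rfl
    exact IsConjRoot.refl

variable {v : AbsoluteValue M ℝ} {a : F} {t : M} [IsAlgClosure K M]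

theorem LocCtx.locGrp (h : LocCtx v a t) {f₀ : K[X]} {f : M[X]}
    (hf : f₀.map (algebraMap K M) = f) (hinv : ∀ (σ : M ≃ₐ[K] M) x, v (σ x) = v x)
    (hval : ∀ x : K, x ≠ 0 → ∃ i : ℤ, v (algebraMap K M x) = v (t - algebraMap F M a) ^ i)
    (hF : ∀ c : F, ∃ x : K, algebraMap K M x = algebraMap F M c)
    (ht : ∃ x : K, algebraMap K M x = t) :
    LocGrp (ringExpChar K) F v t (v (t - algebraMap F M a)) (galSym hf).range where
  pos := v.pos (sub_ne_zero.2 h.ne)
  lt_one := h.lt_one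
  inv := by
    rintro _ ⟨τ, rfl⟩ x
    exact hinv τ x
  fix := by
    rintro _ ⟨τ, rfl⟩ c
    obtain ⟨x, hx⟩ := hF c
    rw [galSym_apply, ← hx, τ.commutes]
  fixt := by
    rintro _ ⟨τ, rfl⟩
    obtain ⟨x, hx⟩ := ht
    rw [galSym_apply, ← hx, τ.commutes]
  disc := by
    intro x hx0 hx
    obtain ⟨n, y, hy⟩ := L11_pow_mem (K := K) (x := x) (fun σ => by
      have := hx (galSym hf σ) ⟨σ, rfl⟩
      rwa [galSym_apply] at this)
    have hy0 : y ≠ 0 := by
      rintro rfl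
      rw [map_zero] at hy
      exact pow_ne_zero _ hx0 hy.symm
    obtain ⟨i, hi⟩ := hval y hy0
    refine ⟨n, i, ?_⟩
    rw [← map_pow, ← hy, hi]

theorem LocCtx.exists_conj_near (h : LocCtx v a t) {g : F[X]} (hg : g.Monic)
    (hm : g.natDegree ≠ 0) {d : M} (hd : d ≠ 0) (hs : (locPoly g t d).Separable)
    (hinv : ∀ (σ : M ≃ₐ[K] M) x, v (σ x) = v x)
    (hval : ∀ x : K, x ≠ 0 → ∃ i : ℤ, v (algebraMap K M x) = v (t - algebraMap F M a) ^ i)
    (hF : ∀ c : F, ∃ x : K, algebraMap K M x = algebraMap F M c)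
    (ht : ∃ x : K, algebraMap K M x = t) {r : F} {θ θ' : M}
    (hθ : θ ∈ near v (locPoly g t d) r) (hθ' : θ' ∈ near v (locPoly g t d) r) :
    ∃ σ : M ≃ₐ[K] M, σ θ = θ' := by
  have hN : Normal K M := IsAlgClosure.normal K M
  have hA : IsAlgClosed M := IsAlgClosure.isAlgClosed K
  have hint : IsIntegral K θ := (IsAlgClosure.isAlgebraic.isAlgebraic θ).isIntegral
  have hf0 : locPoly g t d ≠ 0 := locPoly_ne_zero hg hm hd
  have hϖ0 : 0 < v (t - algebraMap F M a) := v.pos (sub_ne_zero.2 h.ne)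
  obtain ⟨ϖ, hϖ⟩ : ∃ ϖ, ϖ = v (t - algebraMap F M a) := ⟨_, rfl⟩
  have hmemN : ∀ {x : M}, x ∈ near v (locPoly g t d) r ↔
      (locPoly g t d).eval x = 0 ∧ v (x - algebraMap F M r) < 1 := by
    intro x
    rw [near, Finset.mem_filter, mem_rts hf0]
  -- the polynomial over `K`
  have hlift : g.map (algebraMap F M) - C t ∈ Polynomial.lifts (algebraMap K M) := by
    rw [Polynomial.lifts_iff_coeff_lifts]
    intro n
    rw [coeff_sub, coeff_map, coeff_C]
    obtain ⟨x, hx⟩ := hF (g.coeff n)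
    obtain ⟨y, hy⟩ := ht
    split_ifs
    · exact ⟨x - y, by rw [map_sub, hx, hy]⟩
    · exact ⟨x, by rw [hx, sub_zero]⟩
  rw [Polynomial.mem_lifts] at hlift
  obtain ⟨P, hP⟩ := hlift
  have hevP : ∀ x : M, aeval x P = aeval x g - t := by
    intro x
    rw [aeval_def, ← eval_map, hP, eval_sub, eval_map, ← aeval_def, eval_C]
  have hqP : minpoly K θ ∣ P := by
    refine minpoly.dvd K θ ?_
    rw [hevP, sub_eq_zero]
    exact (eval_locPoly_eq_zero hd).1 (hmemN.1 hθ).1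
  have hqf : (minpoly K θ).map (algebraMap K M) ∣ locPoly g t d := by
    have h1 := Polynomial.map_dvd (algebraMap K M) hqP
    rw [hP] at h1
    exact h1.mul_left _
  have hqs : ((minpoly K θ).map (algebraMap K M)).Separable := hs.of_dvd hqf
  have hq0 : (minpoly K θ).map (algebraMap K M) ≠ 0 := hqs.ne_zero
  have hqm : ((minpoly K θ).map (algebraMap K M)).Monic := (minpoly.monic hint).map _
  obtain ⟨R, hR⟩ : ∃ R, R = ((minpoly K θ).map (algebraMap K M)).roots.toFinset := ⟨_, rfl⟩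
  have hRm : ∀ {x : M}, x ∈ R ↔ IsConjRoot K θ x := by
    intro x
    rw [hR, Multiset.mem_toFinset, isConjRoot_iff_mem_minpoly_aroots hint]
  have hRc : R.card = (minpoly K θ).natDegree := by
    rw [hR, Multiset.toFinset_card_of_nodup (nodup_roots hqs), ← natDegree_map (algebraMap K M)]
    exact (splits_iff_card_roots.1 (IsAlgClosed.splits _))
  have hRN : R ⊆ near v (locPoly g t d) r := by
    intro x hx
    rw [hRm] at hx
    have hx1 : (locPoly g t d).eval x = 0 := by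
      have h1 : ((minpoly K θ).map (algebraMap K M)).eval x = 0 := by
        rw [eval_map, ← aeval_def]
        exact hx.aeval_eq_zero
      obtain ⟨k, hk⟩ := hqf
      rw [hk, eval_mul, h1, zero_mul]
    obtain ⟨σ, hσ⟩ := hx.exists_algEquiv
    obtain ⟨y, hy⟩ := hF r
    refine hmemN.2 ⟨hx1, ?_⟩
    rw [← hinv σ, map_sub, hσ, ← hy, σ.commutes, hy]
    exact (hmemN.1 hθ).2
  -- the value of `q(r)`
  obtain ⟨y, hy⟩ := hF r
  have hqr : algebraMap K M ((minpoly K θ).eval y) = ∏ x ∈ R, (algebraMap F M r - x) := by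
    have h1 : (minpoly K θ).map (algebraMap K M) = ∏ x ∈ R, (X - C x) := by
      have h2 : ((minpoly K θ).map (algebraMap K M)) =
          (((minpoly K θ).map (algebraMap K M)).roots.map (fun x => X - C x)).prod :=
        (IsAlgClosed.splits _).eq_prod_roots_of_monic hqm
      rw [hR, Finset.prod_eq_multiset_prod, Multiset.toFinset_val,
        Multiset.dedup_eq_self.2 (nodup_roots hqs)]
      exact h2
    have h3 : algebraMap K M ((minpoly K θ).eval y) =
        ((minpoly K θ).map (algebraMap K M)).eval (algebraMap F M r) := by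
      rw [← hy, eval_map, eval₂_at_apply]
    rw [h3, h1, eval_prod]
    simp only [eval_sub, eval_X, eval_C]
  have hpow : v (algebraMap K M ((minpoly K θ).eval y)) ^ (near v (locPoly g t d) r).card =
      ϖ ^ (minpoly K θ).natDegree := by
    rw [hqr, map_prod, ← Finset.prod_pow, ← hRc]
    rw [Finset.prod_congr rfl (g := fun _ => ϖ), Finset.prod_const]
    intro x hx
    rw [v.map_sub, hϖ]
    exact h.v_sub_pow hg hm hd hs (hRN hx)
  have hϖ0' : 0 < ϖ := hϖ ▸ hϖ0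
  have hϖ1 : ϖ < 1 := hϖ ▸ h.lt_one
  have hμ : 0 < (near v (locPoly g t d) r).card := Finset.card_pos.2 ⟨θ, hθ⟩
  have hne : (minpoly K θ).eval y ≠ 0 := by
    intro h0
    rw [h0, map_zero, map_zero, zero_pow hμ.ne'] at hpow
    exact (pow_pos hϖ0' _).ne hpow
  obtain ⟨i, hi⟩ := hval _ hne
  rw [hi, ← hϖ, ← zpow_natCast, ← zpow_mul, ← zpow_natCast] at hpow
  have hinj := zpow_right_injective₀ hϖ0' hϖ1.ne hpow
  have hdeg : 0 < (minpoly K θ).natDegree := minpoly.natDegree_pos hint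
  have hle : R.card ≤ (near v (locPoly g t d) r).card := Finset.card_le_card hRN
  have hi1 : 1 ≤ i := by
    by_contra hcon
    push Not at hcon
    have h1 : i * ((near v (locPoly g t d) r).card : ℤ) ≤ 0 :=
      mul_nonpos_of_nonpos_of_nonneg (by linarith) (by positivity)
    rw [hinj] at h1
    have : (0 : ℤ) < (minpoly K θ).natDegree := by exact_mod_cast hdeg
    linarith
  have hge : (near v (locPoly g t d) r).card ≤ R.card := by
    rw [hRc]
    have h1 : ((near v (locPoly g t d) r).card : ℤ) ≤ i * (near v (locPoly g t d) r).card :=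
      le_mul_of_one_le_left (by positivity) hi1
    rw [hinj] at h1
    exact_mod_cast h1
  have hReq : R = near v (locPoly g t d) r := Finset.eq_of_subset_of_card_le hRN hge
  rw [← hReq, hRm] at hθ'
  exact hθ'.symm.exists_algEquiv

end Pool.Agent.Lib.MP_89bcae_ag.Sup

end

section

/-!
ROW L06 (150-300 lines). A place `t = a` with `v d = 1`: the exponents are divisible by `ℓ`.

Setting: `f = d⁻¹ (g(x) - t)`, `v d = 1`, `ϖ = v (t - a)`, `Γ` as in `LocGrp`, the roots of `f` near any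
`r` form one orbit (if any). `R` is a nonzero polynomial over `F`, `z θ ^ ℓ = R(θ)` for the roots `θ`
of `f`; `Q` a class such that for all `σ` in `Γ`, `σ Q - Q = ram n` with `σ (z θ) = ζ^{n(σθ)} z(σθ)`;
and the sum of the multiplicities in `R` of the roots of `g(x) = a` is divisible by `ℓ`. Then each of
these multiplicities is divisible by `ℓ`.

PROOF. `m = deg g` is prime to `ℓ`. `π Q := Q - Z Q` is fixed by `Γ` (`σ Q - Q` is killed by `π`,
`zJ_ram`, `zJ_symJ`). By R20, `π Q = cl D` with `D` fixed by `Γ`; by the Kummer formula R21 there are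
`z' θ`, `(z' θ)^ℓ = ε^{..} uval D θ` with, for `σ` in `Γ` (write `σ (z' θ) = ζ^{n'(σθ)} z'(σθ)`, possible as
the `ℓ`-th powers agree: `σ (uval D θ) = uval D (σθ)`, `σ` permutes the roots),
`σ Q - Q = ram n'`. So by `ram_eq_zero_iff` `n - n' ≡ c(σ)` constant on the roots. Let
`q_θ = z θ / z' θ`, `Q̃ = ∏_θ q_θ`, `x_θ = q_θ^m / Q̃`: `σ q_θ = ζ^{c(σ)} q_{σθ}`,
`σ Q̃ = ζ^{m c(σ)} Q̃` and `σ x_θ = x_{σθ}`. Fix `r` with `g(r) = a`, `N = near r`, `μ = #N ≥ 1`
(`card_near`), `θ ∈ N`, `ε = ` multiplicity of `r` in `R`. All values are positive reals: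
 `v(x_θ)` is the same for all `θ` in `N` and `∏_{θ∈N} x_θ` is fixed by `Γ`: `v(x_θ)^μ ∈ ϖ^{Z[1/p]}`;
 `v(R(θ)) = v(θ - r)^ε` (the other factors `θ - β` are units), `v(θ - r)^μ = ϖ` (`v_sub_pow`);
 `v(z' θ)^{ℓ μ} = v(uval D θ)^μ ∈ ϖ^{ℓ Z[1/p]}` (L05; the sign has absolute value one);
 `v(Q̃)^ℓ = ∏_θ v(R(θ)) / ∏_θ v(uval D θ)`: the numerator is `ϖ^{∑ ε_β}` over the fibre (group the
roots by residues: `∏_{θ∈near β} v(θ-β)^{ε_β} = ϖ^{ε_β}`), a power of `ϖ^ℓ` by hypothesis; the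
denominator is a product of `v(uval D θ)^μ`'s. So `v(Q̃) ∈ ϖ^{Z[1/p]}` (`Val.root`).
Hence `(v(x_θ)^μ)^ℓ = v(q_θ)^{m ℓ μ} / v(Q̃)^{ℓ μ} = ϖ^{m ε} / (...)` with `(...)` in `ϖ^{ℓ Z[1/p]}`, and
the left side is in `ϖ^{ℓ Z[1/p]}`, so `ℓ ∣ m ε` (`Val.dvd_of_zpow`), `ℓ ∣ ε`.
-/

open Polynomial

open scoped Classical

namespace Pool.Agent.Lib.MP_89bcae_ag.Sup

universe u

variable {F M : Type u} [Field F] [Field M] [Algebra F M] {v : AbsoluteValue M ℝ} {a : F} {t : M}

lemma LocCtx.L06_v_aeval (h : LocCtx v a t) {R : F[X]} (hR : R ≠ 0) {θ : M} {r : F}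
    (hr : v (θ - algebraMap F M r) < 1) :
    v (aeval θ R) = v (θ - algebraMap F M r) ^ R.rootMultiplicity r := by
  obtain ⟨q, hq, hqr⟩ := exists_eq_pow_rootMultiplicity_mul_and_not_dvd R hR r
  have h1 : q.eval r ≠ 0 := fun h0 => hqr (dvd_iff_isRoot.mpr h0)
  have h2 : v (aeval θ q) = 1 := h.v_eq_one (h.residue_eval hr q) h1
  have h3 : aeval θ R = (θ - algebraMap F M r) ^ R.rootMultiplicity r * aeval θ q := by
    conv_lhs => rw [hq]
    rw [map_mul, map_pow, map_sub, aeval_X, aeval_C]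
  rw [h3, map_mul, map_pow, h2, mul_one]

lemma L06_prod_perm {N : Type*} [CommMonoid N] (σ : M ≃+* M) (S : Finset M)
    (hS : ∀ θ ∈ S, σ θ ∈ S) (φ : M → N) :
    ∏ θ ∈ S, φ (σ θ) = ∏ θ ∈ S, φ θ := by
  have h1 : S.image σ = S := by
    apply Finset.eq_of_subset_of_card_le
    · intro x hx
      obtain ⟨y, hy, rfl⟩ := Finset.mem_image.mp hx
      exact hS y hy
    · rw [Finset.card_image_of_injective _ σ.injective]
  conv_rhs => rw [← h1]
  rw [Finset.prod_image (fun x _ y _ h => σ.injective h)]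

lemma L06_zpow_congr {ℓ : ℕ} {ξ : M} (hξ : IsPrimitiveRoot ξ ℓ) (hξ0 : ξ ≠ 0) {i j : ℤ}
    (hij : (ℓ : ℤ) ∣ i - j) : ξ ^ i = ξ ^ j := by
  have h1 : ξ ^ (i - j) = 1 := (hξ.zpow_eq_one_iff_dvd _).mpr hij
  have h2 : ξ ^ i = ξ ^ (i - j) * ξ ^ j := by
    rw [← zpow_add₀ hξ0, sub_add_cancel]
  rw [h2, h1, one_mul]

theorem LocCtx.good_place (h : LocCtx v a t) {ℓ p : ℕ} (hp : p.Coprime ℓ) {g : F[X]}
    (hg : g.Monic) (hm : g.natDegree ≠ 0) (hmℓ : g.natDegree.Coprime ℓ) {d : M} (hd : d ≠ 0)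
    [hG : IsGood ℓ (locPoly g t d)] {ζ : F} (hζ : IsPrimitiveRoot ζ ℓ)
    (hζ' : IsPrimitiveRoot (algebraMap F M ζ) ℓ)
    {Γ : Subgroup (Sym (locPoly g t d))} (hΓ : LocGrp p F v t (v (t - algebraMap F M a)) Γ)
    (hdv : v d = 1)
    (horb : ∀ r : F, ∀ θ ∈ near v (locPoly g t d) r, ∀ θ' ∈ near v (locPoly g t d) r,
      ∃ σ ∈ Γ, (σ : M ≃+* M) θ = θ')
    {R : F[X]} (hR : R ≠ 0) {z : M → M}
    (hz : ∀ θ ∈ rts (locPoly g t d), z θ ^ ℓ = aeval θ R) (Q : Jac ℓ (locPoly g t d))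
    (hQ : ∀ σ ∈ Γ, ∃ n : M → ℤ, symJ σ Q - Q = ram n ∧ ∀ θ ∈ rts (locPoly g t d),
      (σ : M ≃+* M) (z θ) = algebraMap F M ζ ^ n ((σ : M ≃+* M) θ) * z ((σ : M ≃+* M) θ))
    (hsum : ℓ ∣ ∑ r ∈ (g - C a).roots.toFinset, R.rootMultiplicity r)
    {r : F} (hr : g.eval r = a) : ℓ ∣ R.rootMultiplicity r := by
  have hAC : IsAlgClosed M := hG.alg
  have hs : (locPoly g t d).Separable := hG.separable
  have hℓ0 : ℓ ≠ 0 := hG.prime.ne_zero
  have hNZ : NeZero ℓ := ⟨hℓ0⟩
  have hf0 : locPoly g t d ≠ 0 := locPoly_ne_zero hg hm hd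
  have hϖ0 : 0 < v (t - algebraMap F M a) := hΓ.pos
  have hϖ1 : v (t - algebraMap F M a) < 1 := hΓ.lt_one
  have hζ0 : algebraMap F M ζ ≠ 0 := hζ'.ne_zero hℓ0
  have hga : g - C a ≠ 0 := by
    intro h0
    apply hm
    rw [← natDegree_sub_C (p := g) (a := a), h0, natDegree_zero]
  have hrts : ∀ θ, θ ∈ rts (locPoly g t d) ↔ (locPoly g t d).eval θ = 0 := fun θ => mem_rts hf0
  have hev : ∀ θ ∈ rts (locPoly g t d), aeval θ g = t := fun θ hθ =>
    (eval_locPoly_eq_zero hd).mp ((hrts θ).mp hθ)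
  have hnear : ∀ r' : F, ∀ θ, θ ∈ near v (locPoly g t d) r' ↔
      θ ∈ rts (locPoly g t d) ∧ v (θ - algebraMap F M r') < 1 := by
    intro r' θ
    unfold near
    rw [Finset.mem_filter]
  -- residues
  have hres : ∀ θ ∈ rts (locPoly g t d), ∃ r' : F, v (θ - algebraMap F M r') < 1 ∧
      g.eval r' = a := by
    intro θ hθ
    obtain ⟨c, hc⟩ := h.residue θ (h.v_root_le hg hm (hev θ hθ))
    exact ⟨c, hc, h.eval_residue (hev θ hθ) hc⟩
  choose! res hres1 hres2 using hres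
  have hgroup : ∀ φ : M → ℝ, ∏ θ ∈ rts (locPoly g t d), φ θ =
      ∏ r' ∈ (g - C a).roots.toFinset, ∏ θ ∈ near v (locPoly g t d) r', φ θ := by
    intro φ
    rw [← Finset.prod_fiberwise_of_maps_to (t := (g - C a).roots.toFinset) (g := res) ?_ φ]
    · refine Finset.prod_congr rfl fun r' _ => ?_
      refine Finset.prod_congr ?_ fun _ _ => rfl
      unfold near
      apply Finset.filter_congr
      intro θ hθ
      constructor
      · rintro rfl
        exact hres1 θ hθ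
      · intro h'
        exact h.residue_unique (hres1 θ hθ) h'
    · intro θ hθ
      rw [Multiset.mem_toFinset, mem_roots hga, IsRoot.def, eval_sub, eval_C, hres2 θ hθ, sub_self]
  have hroot : ∀ r' ∈ (g - C a).roots.toFinset, g.eval r' = a := by
    intro r' hr'
    rw [Multiset.mem_toFinset, mem_roots hga, IsRoot.def, eval_sub, eval_C, sub_eq_zero] at hr'
    exact hr'
  -- the action of `Γ`
  have hσrts : ∀ σ ∈ Γ, ∀ θ ∈ rts (locPoly g t d), (σ : M ≃+* M) θ ∈ rts (locPoly g t d) := by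
    intro σ _ θ hθ
    rw [hrts] at hθ ⊢
    exact (eval_sym_eq_zero σ).mpr hθ
  have hσnear : ∀ r' : F, ∀ σ ∈ Γ, ∀ θ ∈ near v (locPoly g t d) r',
      (σ : M ≃+* M) θ ∈ near v (locPoly g t d) r' := by
    intro r' σ hσ θ hθ
    rw [hnear] at hθ ⊢
    refine ⟨hσrts σ hσ θ hθ.1, ?_⟩
    have e1 : (σ : M ≃+* M) θ - algebraMap F M r' = (σ : M ≃+* M) (θ - algebraMap F M r') := by
      rw [map_sub, hΓ.fix σ hσ]
    rw [e1, hΓ.inv σ hσ]
    exact hθ.2
  have hfixζ : ∀ σ ∈ Γ, (σ : M ≃+* M) (algebraMap F M ζ) = algebraMap F M ζ :=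
    fun σ hσ => hΓ.fix σ hσ ζ
  have hstab : ∀ σ ∈ (Γ : Set (Sym (locPoly g t d))),
      symJ σ (Q - zJ (algebraMap F M ζ) hζ'.pow_eq_one Q) =
        Q - zJ (algebraMap F M ζ) hζ'.pow_eq_one Q := by
    intro σ hσ
    obtain ⟨n, hn, -⟩ := hQ σ hσ
    have e1 : symJ σ Q = Q + ram n := by
      rw [← hn]
      abel
    rw [map_sub, ← zJ_symJ _ _ σ (hfixζ σ hσ), e1, map_add, zJ_ram]
    abel
  obtain ⟨D, hDcl, hDfix⟩ := exists_stable (algebraMap F M ζ) hζ'
    (Γ : Set (Sym (locPoly g t d))) _ hstab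
  obtain ⟨z', hz', hkum⟩ := kummer_formula (algebraMap F M ζ) hζ' Q D hDcl.symm
  have hc : ∀ σ ∈ Γ, ∃ c : ℤ, ∀ θ ∈ rts (locPoly g t d), (σ : M ≃+* M) (z θ / z' θ) =
      algebraMap F M ζ ^ c * (z ((σ : M ≃+* M) θ) / z' ((σ : M ≃+* M) θ)) := by
    intro σ hσ
    obtain ⟨n, hn, hnz⟩ := hQ σ hσ
    have hDσ := hDfix σ hσ
    have hex : ∀ θ ∈ rts (locPoly g t d), ∃ i : ℤ, (σ : M ≃+* M) (z' θ) =
        algebraMap F M ζ ^ i * z' ((σ : M ≃+* M) θ) := by
      intro θ hθ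
      have hθ0 : (locPoly g t d).eval θ = 0 := (hrts θ).mp hθ
      have hσθ0 : (locPoly g t d).eval ((σ : M ≃+* M) θ) = 0 :=
        (hrts _).mp (hσrts σ hσ θ hθ)
      have h0 : z' ((σ : M ≃+* M) θ) ≠ 0 := (hz' _ hσθ0).1
      have h1 : ((σ : M ≃+* M) (z' θ) / z' ((σ : M ≃+* M) θ)) ^ ℓ = 1 := by
        rw [div_pow, ← map_pow, (hz' θ hθ0).2, (hz' _ hσθ0).2, map_mul, sym_uval σ D hDσ,
          sym_atR σ D hDσ, map_zpow₀, map_pow, map_neg, map_one]
        apply div_self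
        apply mul_ne_zero
        · apply zpow_ne_zero
          apply pow_ne_zero
          exact neg_ne_zero.mpr one_ne_zero
        · exact uval_ne_zero D hσθ0
      obtain ⟨i, _, hi⟩ := hζ'.eq_pow_of_pow_eq_one h1
      exact ⟨i, by rw [zpow_natCast, hi, div_mul_cancel₀ _ h0]⟩
    let n' : M → ℤ := fun θ'' =>
      if h : (σ : M ≃+* M).symm θ'' ∈ rts (locPoly g t d) then (hex _ h).choose else 0
    have hn' : ∀ θ, (locPoly g t d).eval θ = 0 → (σ : M ≃+* M) (z' θ) =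
        algebraMap F M ζ ^ n' ((σ : M ≃+* M) θ) * z' ((σ : M ≃+* M) θ) := by
      intro θ hθ
      have hθ' : θ ∈ rts (locPoly g t d) := (hrts θ).mpr hθ
      have key : ∀ θ₁ (h₁ : θ₁ ∈ rts (locPoly g t d)), θ₁ = θ → (σ : M ≃+* M) (z' θ) =
          algebraMap F M ζ ^ (hex θ₁ h₁).choose * z' ((σ : M ≃+* M) θ) := by
        rintro θ₁ h₁ rfl
        exact (hex θ₁ h₁).choose_spec
      have e1 : (σ : M ≃+* M).symm ((σ : M ≃+* M) θ) = θ := RingEquiv.symm_apply_apply _ _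
      have e2 : (σ : M ≃+* M).symm ((σ : M ≃+* M) θ) ∈ rts (locPoly g t d) := by
        rw [e1]
        exact hθ'
      have e3 : n' ((σ : M ≃+* M) θ) = (hex _ e2).choose := dif_pos e2
      rw [e3]
      exact key _ e2 e1
    have hk := hkum σ (hfixζ σ hσ) hDσ n' hn'
    have h0 : (ram (fun θ => n θ - n' θ) : Jac ℓ (locPoly g t d)) = 0 := by
      rw [ram_sub, ← hn, ← hk, sub_self]
    obtain ⟨c, hc⟩ := (ram_eq_zero_iff (algebraMap F M ζ) hζ' _).mp h0
    refine ⟨c, fun θ hθ => ?_⟩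
    have h1 := hc ((σ : M ≃+* M) θ) ((hrts _).mp (hσrts σ hσ θ hθ))
    rw [map_div₀, hnz θ hθ, hn' θ ((hrts θ).mp hθ), mul_div_mul_comm, ← zpow_sub₀ hζ0,
      L06_zpow_congr hζ' hζ0 h1]
  -- values
  have hvθ : ∀ r' : F, ∀ θ ∈ near v (locPoly g t d) r', v (θ - algebraMap F M r') ≠ 0 := by
    intro r' θ hθ h0
    have h1 := h.v_sub_pow hg hm hd hs hθ
    rw [h0, zero_pow (Finset.card_ne_zero_of_mem hθ)] at h1
    exact hϖ0.ne h1
  have hz0 : ∀ θ ∈ rts (locPoly g t d), z θ ≠ 0 := by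
    intro θ hθ h0
    have h1 := hz θ hθ
    rw [h0, zero_pow hℓ0] at h1
    have h2 := h.L06_v_aeval hR (hres1 θ hθ)
    rw [← h1, map_zero] at h2
    exact pow_ne_zero _ (hvθ (res θ) θ ((hnear _ _).mpr ⟨hθ, hres1 θ hθ⟩)) h2.symm
  have hq0 : ∀ θ ∈ rts (locPoly g t d), z θ / z' θ ≠ 0 := fun θ hθ =>
    div_ne_zero (hz0 θ hθ) (hz' θ ((hrts θ).mp hθ)).1
  obtain ⟨Qt, hQt⟩ : ∃ Qt, Qt = ∏ θ ∈ rts (locPoly g t d), (z θ / z' θ) := ⟨_, rfl⟩
  have hQt0 : Qt ≠ 0 := by
    rw [hQt]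
    exact Finset.prod_ne_zero_iff.mpr hq0
  have hx : ∀ σ ∈ Γ, ∀ θ ∈ rts (locPoly g t d),
      (σ : M ≃+* M) ((z θ / z' θ) ^ g.natDegree / Qt) =
        (z ((σ : M ≃+* M) θ) / z' ((σ : M ≃+* M) θ)) ^ g.natDegree / Qt := by
    intro σ hσ θ hθ
    obtain ⟨c, hc⟩ := hc σ hσ
    have h1 : (σ : M ≃+* M) Qt = (algebraMap F M ζ ^ c) ^ g.natDegree * Qt := by
      rw [hQt, map_prod, Finset.prod_congr rfl (fun θ hθ => hc θ hθ), Finset.prod_mul_distrib,
        Finset.prod_const, card_rts hg hm hd hs]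
      congr 1
      exact L06_prod_perm (σ : M ≃+* M) _ (hσrts σ hσ) (fun θ => z θ / z' θ)
    rw [map_div₀, map_pow, hc θ hθ, h1, mul_pow,
      mul_div_mul_left _ _ (pow_ne_zero _ (zpow_ne_zero _ hζ0))]
  have hvx : ∀ θ ∈ near v (locPoly g t d) r, Val p (v (t - algebraMap F M a))
      (v ((z θ / z' θ) ^ g.natDegree / Qt) ^ (near v (locPoly g t d) r).card) := by
    intro θ hθ
    have h1 : ∏ θ' ∈ near v (locPoly g t d) r, v ((z θ' / z' θ') ^ g.natDegree / Qt) =
        v ((z θ / z' θ) ^ g.natDegree / Qt) ^ (near v (locPoly g t d) r).card := by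
      apply Finset.prod_eq_pow_card
      intro θ' hθ'
      obtain ⟨σ, hσ, rfl⟩ := horb r θ hθ θ' hθ'
      rw [← hx σ hσ θ ((hnear _ _).mp hθ).1, hΓ.inv σ hσ]
    rw [← h1, ← map_prod]
    apply hΓ.disc
    · exact Finset.prod_ne_zero_iff.mpr fun θ' hθ' =>
        div_ne_zero (pow_ne_zero _ (hq0 θ' ((hnear _ _).mp hθ').1)) hQt0
    · intro σ hσ
      rw [map_prod, Finset.prod_congr rfl (fun θ' hθ' => hx σ hσ θ' ((hnear _ _).mp hθ').1)]
      exact L06_prod_perm (σ : M ≃+* M) _ (hσnear r σ hσ)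
        (fun θ => (z θ / z' θ) ^ g.natDegree / Qt)
  have hvq : ∀ θ ∈ rts (locPoly g t d), v (z θ / z' θ) ^ ℓ = v (aeval θ R) / v (uval D θ) := by
    intro θ hθ
    have h1 : v (z' θ) ^ ℓ = v (uval D θ) := by
      rw [← map_pow, (hz' θ ((hrts θ).mp hθ)).2, map_mul, map_zpow₀, map_pow, AbsoluteValue.map_neg,
        map_one, one_pow, one_zpow, one_mul]
    rw [map_div₀, div_pow, h1, ← map_pow, hz θ hθ]
  have hdv' : Val p (v (t - algebraMap F M a) ^ ℓ) (v d) := by
    rw [hdv]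
    exact Val.one _ _
  have huv : ∀ r' : F, Val p (v (t - algebraMap F M a) ^ ℓ)
      (∏ θ ∈ near v (locPoly g t d) r', v (uval D θ)) := by
    intro r'
    rcases (near v (locPoly g t d) r').eq_empty_or_nonempty with he | ⟨θ, hθ⟩
    · rw [he, Finset.prod_empty]
      exact Val.one _ _
    · have h1 : ∏ θ' ∈ near v (locPoly g t d) r', v (uval D θ') =
          v (uval D θ) ^ (near v (locPoly g t d) r').card := by
        apply Finset.prod_eq_pow_card
        intro θ' hθ'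
        obtain ⟨σ, hσ, rfl⟩ := horb r' θ hθ θ' hθ'
        rw [← sym_uval σ D (hDfix σ hσ), hΓ.inv σ hσ]
      rw [h1]
      exact h.val_uval hg hm hd hmℓ hΓ hdv' D hDfix (horb r') hθ
  have hRv : ∀ r' : F, g.eval r' = a → ∏ θ ∈ near v (locPoly g t d) r', v (aeval θ R) =
      v (t - algebraMap F M a) ^ R.rootMultiplicity r' := by
    intro r' hr'
    rw [Finset.prod_congr rfl (fun θ hθ => h.L06_v_aeval hR ((hnear _ _).mp hθ).2),
      Finset.prod_pow]
    congr 1
    have h1 := h.prod_near hg hm hd hs (r := r') (x := algebraMap F M r')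
      (by rw [sub_self, map_zero]; exact one_pos)
    have h2 : aeval (algebraMap F M r') g = algebraMap F M a := by
      rw [aeval_algebraMap_apply, coe_aeval_eq_eval, hr']
    rw [h2, AbsoluteValue.map_sub] at h1
    rw [h1]
    exact Finset.prod_congr rfl fun θ _ => AbsoluteValue.map_sub _ _ _
  have hQv : Val p (v (t - algebraMap F M a) ^ ℓ) (v Qt ^ ℓ) := by
    have h1 : v Qt ^ ℓ = (v (t - algebraMap F M a) ^
        ∑ r' ∈ (g - C a).roots.toFinset, R.rootMultiplicity r') *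
        (∏ r' ∈ (g - C a).roots.toFinset,
          ∏ θ ∈ near v (locPoly g t d) r', v (uval D θ))⁻¹ := by
      rw [hQt, map_prod, ← Finset.prod_pow, Finset.prod_congr rfl hvq, Finset.prod_div_distrib,
        hgroup (fun θ => v (aeval θ R)), hgroup (fun θ => v (uval D θ)), div_eq_mul_inv,
        Finset.prod_congr rfl (fun r' hr' => hRv r' (hroot r' hr')), Finset.prod_pow_eq_pow_sum]
    rw [h1]
    obtain ⟨k, hk⟩ := hsum
    apply Val.mul
    · rw [hk, pow_mul]
      exact ⟨0, k, by rw [pow_zero, pow_one, zpow_natCast]⟩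
    · exact (Val.prod _ _ fun r' _ => huv r').inv
  -- conclusion
  have hne : (near v (locPoly g t d) r).Nonempty := by
    rw [← Finset.card_pos, h.card_near hg hm hd hs r, rootMultiplicity_pos hga, IsRoot.def,
      eval_sub, eval_C, hr, sub_self]
  obtain ⟨θ, hθ⟩ := hne
  have hθr := ((hnear _ _).mp hθ).1
  have hUθ : Val p (v (t - algebraMap F M a) ^ ℓ)
      (v (uval D θ) ^ (near v (locPoly g t d) r).card) :=
    h.val_uval hg hm hd hmℓ hΓ hdv' D hDfix (horb r) hθ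
  have hRθ : v (aeval θ R) ^ (near v (locPoly g t d) r).card =
      v (t - algebraMap F M a) ^ R.rootMultiplicity r := by
    rw [h.L06_v_aeval hR ((hnear _ _).mp hθ).2, ← pow_mul, mul_comm, pow_mul,
      h.v_sub_pow hg hm hd hs hθ]
  have hU0 : v (uval D θ) ≠ 0 := by
    rw [AbsoluteValue.ne_zero_iff]
    exact uval_ne_zero D ((hrts θ).mp hθr)
  have hQ0 : v Qt ≠ 0 := by
    rw [AbsoluteValue.ne_zero_iff]
    exact hQt0
  have hmain : v (t - algebraMap F M a) ^ ((g.natDegree * R.rootMultiplicity r : ℕ) : ℤ) =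
      (v ((z θ / z' θ) ^ g.natDegree / Qt) ^ (near v (locPoly g t d) r).card) ^ ℓ *
        ((v (uval D θ) ^ (near v (locPoly g t d) r).card) ^ g.natDegree *
        (v Qt ^ ℓ) ^ (near v (locPoly g t d) r).card) := by
    have e1 : v ((z θ / z' θ) ^ g.natDegree / Qt) ^ (near v (locPoly g t d) r).card =
        (v (z θ / z' θ) ^ g.natDegree) ^ (near v (locPoly g t d) r).card /
          v Qt ^ (near v (locPoly g t d) r).card := by
      rw [map_div₀, map_pow, div_pow]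
    have e2 : ((v (z θ / z' θ) ^ g.natDegree) ^ (near v (locPoly g t d) r).card) ^ ℓ =
        ((v (z θ / z' θ) ^ ℓ) ^ (near v (locPoly g t d) r).card) ^ g.natDegree := by
      rw [← pow_mul, ← pow_mul, ← pow_mul, ← pow_mul]
      congr 1
      ring
    have e3 : (v (uval D θ) ^ (near v (locPoly g t d) r).card) ^ g.natDegree ≠ 0 :=
      pow_ne_zero _ (pow_ne_zero _ hU0)
    have e4 : (v Qt ^ ℓ) ^ (near v (locPoly g t d) r).card ≠ 0 :=
      pow_ne_zero _ (pow_ne_zero _ hQ0)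
    have e5 : (v Qt ^ (near v (locPoly g t d) r).card) ^ ℓ =
        (v Qt ^ ℓ) ^ (near v (locPoly g t d) r).card := by
      rw [← pow_mul, ← pow_mul, mul_comm]
    rw [e1, div_pow, e2, hvq θ hθr, div_pow, hRθ, zpow_natCast, div_pow, e5,
      mul_comm g.natDegree, pow_mul]
    rw [div_mul_eq_mul_div, div_mul_eq_mul_div, div_div, eq_div_iff (mul_ne_zero e3 e4)]
  have hfin : Val p (v (t - algebraMap F M a) ^ ℓ)
      (v (t - algebraMap F M a) ^ ((g.natDegree * R.rootMultiplicity r : ℕ) : ℤ)) := by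
    rw [hmain]
    exact (Val.pow_self ℓ (hvx θ hθ)).mul ((hUθ.pow _).mul (hQv.pow _))
  have hdvd := Val.dvd_of_zpow hp hϖ0 hϖ1 _ hfin
  rw [Int.natCast_dvd_natCast] at hdvd
  exact hmℓ.symm.dvd_of_dvd_mul_left hdvd

end Pool.Agent.Lib.MP_89bcae_ag.Sup

end

section

/-!
# The local theorems for a polynomial `f` which is equal to `d⁻¹ (g(x) - t)`
-/

open Polynomial

open scoped Classical

namespace Pool.Agent.Lib.MP_89bcae_ag.Sup

universe u

variable {F M : Type u} [Field F] [Field M] [Algebra F M] {v : AbsoluteValue M ℝ} {a : F} {t : M}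

theorem LocCtx.good_place' (h : LocCtx v a t) {ℓ p : ℕ} (hp : p.Coprime ℓ) {g : F[X]}
    (hg : g.Monic) (hm : g.natDegree ≠ 0) (hmℓ : g.natDegree.Coprime ℓ) {d : M} (hd : d ≠ 0)
    {f : M[X]} (hf : f = locPoly g t d)
    [hG : IsGood ℓ f] {ζ : F} (hζ : IsPrimitiveRoot ζ ℓ)
    (hζ' : IsPrimitiveRoot (algebraMap F M ζ) ℓ)
    {Γ : Subgroup (Sym f)} (hΓ : LocGrp p F v t (v (t - algebraMap F M a)) Γ)
    (hdv : v d = 1)
    (horb : ∀ r : F, ∀ θ ∈ near v f r, ∀ θ' ∈ near v f r, ∃ σ ∈ Γ, (σ : M ≃+* M) θ = θ')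
    {R : F[X]} (hR : R ≠ 0) {z : M → M}
    (hz : ∀ θ ∈ rts f, z θ ^ ℓ = aeval θ R) (Q : Jac ℓ f)
    (hQ : ∀ σ ∈ Γ, ∃ n : M → ℤ, symJ σ Q - Q = ram n ∧ ∀ θ ∈ rts f,
      (σ : M ≃+* M) (z θ) = algebraMap F M ζ ^ n ((σ : M ≃+* M) θ) * z ((σ : M ≃+* M) θ))
    (hsum : ℓ ∣ ∑ r ∈ (g - C a).roots.toFinset, R.rootMultiplicity r)
    {r : F} (hr : g.eval r = a) : ℓ ∣ R.rootMultiplicity r := by
  subst hf
  exact h.good_place hp hg hm hmℓ hd hζ hζ' hΓ hdv horb hR hz Q hQ hsum hr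

theorem LocCtx.bad_formula' (h : LocCtx v a t) {g D : F[X]} {δ : M} {ℓ p : ℕ} (hp : p.Coprime ℓ)
    (hB : BadCtx g D a t δ ℓ) {f : M[X]} (hf : f = locPoly g t (aeval t D))
    [hG : IsGood ℓ f] {ζ : F}
    (hζ : IsPrimitiveRoot ζ ℓ) (hζ' : IsPrimitiveRoot (algebraMap F M ζ) ℓ)
    {Γ : Subgroup (Sym f)}
    (hΓ : LocGrp p F v t (v (t - algebraMap F M a)) Γ)
    (u : Sym f) (U : F ≃+* F) (huv : ∀ x, v ((u : M ≃+* M) x) = v x)
    (huF : ∀ c : F, (u : M ≃+* M) (algebraMap F M c) = algebraMap F M (U c))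
    (hut : (u : M ≃+* M) t = t) (hug : g.map (U : F →+* F) = g)
    (hud : (u : M ≃+* M) (aeval t D) = aeval t D)
    (hUζ : U ζ = ζ) (hnorm : ∀ τ ∈ Γ, u * τ * u⁻¹ ∈ Γ)
    (R : Finset F) (hR : ∀ β, g.eval β = a → β ∈ R) (hUR : ∀ β ∈ R, U β = β) (hUa : U a = a)
    (e : F → ℤ) (Q : Jac ℓ f)
    (hC : ∀ τ ∈ Γ, ∀ j : ℤ, (τ : M ≃+* M) δ = algebraMap F M ζ ^ j * δ →
      (symJ τ Q - Q) - zJ (algebraMap F M ζ) hζ'.pow_eq_one (symJ τ Q - Q) =
        ram fun θ => j * e (rs F v θ))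
    (z : M → M) (hz : ∀ θ ∈ rts f,
      z θ ^ ℓ = ∏ β ∈ R, (θ - algebraMap F M β) ^ e β)
    (q : M → ℤ) (hq : ∀ θ ∈ rts f,
      (u : M ≃+* M) (z θ) = algebraMap F M ζ ^ q θ * z θ)
    (A : Jac ℓ f)
    (hA : A - zJ (algebraMap F M ζ) hζ'.pow_eq_one A = ram fun θ => -q θ)
    (e' : F → ℤ)
    (he' : ∀ τ ∈ Γ, ∀ j : ℤ, (τ : M ≃+* M) δ = algebraMap F M ζ ^ j * δ →
      (ram fun θ => j * e' (rs F v θ)) =
        symJ u (symJ τ Q - Q) - (symJ (u * τ * u⁻¹) Q - Q) + (symJ (u * τ * u⁻¹) A - A)) :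
    ∃ c : ℤ, ∀ β, g.eval β = a → ∀ y : F,
      y ^ ℓ = ((-1) ^ (ℓ + 1) * (derivative D).eval a) ^ e β *
        ∏ β' ∈ R.filter fun β' => g.eval β' ≠ a, (β - β') ^ (-e β') →
      U y = ζ ^ (e' β + c) * y := by
  subst hf
  exact h.bad_formula hp hB hζ hζ' hΓ u U huv huF hut hug hud hUζ hnorm R hR hUR hUa e Q hC z hz q
    hq A hA e' he'

end Pool.Agent.Lib.MP_89bcae_ag.Sup

end

section

/-!
ROW G13 (150-300 lines). Every locally trivial Tate cocycle has exponents supported in `RR`.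

PROOF. Take `P`, `z` from `exists_kummer` (G11). Claim: `ℓ ∣ P.rootMultiplicity r` whenever
`a := g(r)` satisfies `D(a) ≠ 0`. Let `K = (plc a).adicCompletion L`, `M = AlgebraicClosure K`, an
`F`-algebra through `F[X] → L → K → M` (`letI`), `j : Ω → M` over `L` (`IsAlgClosed.lift`), `v` from
`exists_locCtx` (L10), `t = tA F L M`. `d = D(t)`: `v d = 1` since `D(t) ≡ D(a) ≠ 0` (`residue_eval`).
`Γ = (galSym ..).range` (L11), with `LocCtx.locGrp` (`p = ringExpChar K`, prime to `ℓ`) and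
`exists_conj_near`. Local triviality of `c 1`: `Q₁` in `J(M)` with `j (c 1 g') = g Q₁ - Q₁`; put
`Q = v Q₁` (`vJ`). Let `zM (j θ) = j (z θ)` (every root of the curve over `M` is `j θ` for a unique root
`θ` in `Ω`: `rts` have the same number of elements). For `g` in `Aut(M/K)`, `g'` its restriction to `Ω`
(`exists_restrict`), choose `n` with `g' (z θ) = ζ^{n(g'θ)} z(g'θ)` (the `ℓ`-th powers agree); then
`v (c 1 g') = ram n`, and applying `j` (`jacMap_ram`, `vJ_jacMap`, `push`): `g Q - Q = ram nM`,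
`nM (j θ) = n θ`, and `g (zM θ') = ζ^{nM(gθ')} zM(gθ')`. `LocCtx.good_place'` (L13) applies.
Then put `e β = P.rootMultiplicity β`, `z' θ = z θ / ∏_{β ∉ RR} (θ - β)^{mult β / ℓ}` (product over the
roots `β` of `P` which are not in `RR`; `β ∈ RR ↔ D(g(β)) = 0`). The fibre sums: for `D(a) = 0` the fibre of
`g` over `a` is contained in `RR` and its sum is divisible by `ℓ` by G11; otherwise the sum is empty.
-/

open Polynomial IsDedekindDomain

open scoped Classical

namespace Pool.Agent.Lib.MP_89bcae_ag.Sup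

set_option linter.unusedSectionVars false

universe u

section General

lemma G13_jacMap_congr {ℓ : ℕ} {A B : Type u} [Field A] [Field B] {σ τ : A →+* B} {f : A[X]}
    {f' : B[X]} (e : σ = τ) (h : f.map σ = f') (h' : f.map τ = f') (Q : Jac ℓ f) :
    jacMap ℓ σ h Q = jacMap ℓ τ h' Q := by
  subst e
  rfl

lemma G13_coprime_aux {K : Type u} [Field K] {ℓ : ℕ} (hℓ : ℓ.Prime) (h : (ℓ : K) ≠ 0) (q : ℕ)
    (hq : ExpChar K q) : q.Coprime ℓ := by
  cases hq with
  | zero => exact Nat.coprime_one_left ℓ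
  | prime hp =>
    rw [Nat.coprime_primes hp hℓ]
    rintro rfl
    exact h (CharP.cast_eq_zero K q)

lemma G13_coprime {K : Type u} [Field K] {ℓ : ℕ} (hℓ : ℓ.Prime) (h : (ℓ : K) ≠ 0) :
    (ringExpChar K).Coprime ℓ :=
  G13_coprime_aux hℓ h _ inferInstance

/-- A quotient of two elements with the same `ℓ`-th power is a power of `ζ`. -/
lemma G13_exists_zpow {E : Type u} [Field E] {ℓ : ℕ} (hℓ : ℓ ≠ 0) {ζ : E}
    (hζ : IsPrimitiveRoot ζ ℓ) {x y : E} (hy : y ≠ 0) (h : x ^ ℓ = y ^ ℓ) :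
    ∃ i : ℤ, x = ζ ^ i * y := by
  have : NeZero ℓ := ⟨hℓ⟩
  have h1 : (x / y) ^ ℓ = 1 := by
    rw [div_pow, h, div_self (pow_ne_zero _ hy)]
  obtain ⟨i, _, hi⟩ := hζ.eq_pow_of_pow_eq_one h1
  refine ⟨i, ?_⟩
  rw [zpow_natCast, hi, div_mul_cancel₀ _ hy]

end General

variable {k F L Ω : Type u} [Field k] [Field F] [Algebra k F] [Field L] [Algebra F[X] L]
  [Field Ω] [Algebra L Ω] [IsAlgClosure k F] [IsFractionRing F[X] L] [IsAlgClosure L Ω]
  [Algebra F Ω] {ℓ : ℕ} {g D : k[X]} [hG : IsGood ℓ (cOver k F L Ω g D)] {ζ : k}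
  {hζ : (zA F L Ω ζ) ^ ℓ = 1}

omit [IsAlgClosure k F] [IsFractionRing F[X] L] [IsAlgClosure L Ω] hG in
lemma G13_map_aeval (hF : CompatF F L Ω) {M : Type u} [Field M] [Algebra L M] [Algebra F M]
    (hFM : CompatF F L M) (j : Ω →ₐ[L] M) (x : Ω) (P : F[X]) :
    j (aeval x P) = aeval (j x) P := by
  have hj : ∀ c : F, j (algebraMap F Ω c) = algebraMap F M c := by
    intro c
    rw [hF c, hFM c, j.commutes]
  have h1 := Polynomial.hom_eval₂ P (algebraMap F Ω) (j : Ω →+* M) x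
  have h2 : (j : Ω →+* M).comp (algebraMap F Ω) = algebraMap F M := by
    ext c
    exact hj c
  rw [h2] at h1
  exact h1

omit [IsAlgClosure k F] [IsFractionRing F[X] L] [IsAlgClosure L Ω] [Algebra F Ω] hG in
lemma G13_zA {A : Type u} [Field A] [Algebra L A] [Algebra F A] (hFA : CompatF F L A) (ζ : k) :
    zA F L A ζ = algebraMap F A (algebraMap k F ζ) := by
  rw [hFA]
  unfold zA base
  simp

omit [IsAlgClosure k F] [IsFractionRing F[X] L] [IsAlgClosure L Ω] [Algebra F Ω] hG in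
lemma G13_map_zA {M : Type u} [Field M] [Algebra L M] (j : Ω →ₐ[L] M) (ζ : k) :
    j (zA F L Ω ζ) = zA F L M ζ := by
  unfold zA base
  simp

omit [IsAlgClosure k F] [IsFractionRing F[X] L] [IsAlgClosure L Ω] [Algebra F Ω] in
lemma G13_map_root {M : Type u} [Field M] [Algebra L M] [hGM : IsGood ℓ (cOver k F L M g D)]
    (j : Ω →ₐ[L] M) {θ : Ω} (hθ : θ ∈ rts (cOver k F L Ω g D)) :
    j θ ∈ rts (cOver k F L M g D) := by
  have h1 : cOver k F L Ω g D ≠ 0 := (IsGood.separable ℓ (f := cOver k F L Ω g D)).ne_zero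
  have h2 : cOver k F L M g D ≠ 0 := (IsGood.separable ℓ (f := cOver k F L M g D)).ne_zero
  rw [mem_rts h1] at hθ
  rw [mem_rts h2]
  have h3 : aeval θ (curvePoly k F L g D) = 0 := by
    rw [aeval_def, ← eval_map]
    exact hθ
  have h4 : aeval (j θ) (curvePoly k F L g D) = 0 := by
    rw [aeval_algHom_apply, h3, map_zero]
  rw [aeval_def, ← eval_map] at h4
  exact h4

omit [IsAlgClosure k F] [IsFractionRing F[X] L] [Algebra F Ω] in
lemma G13_exists_root {M : Type u} [Field M] [Algebra L M] [hGM : IsGood ℓ (cOver k F L M g D)]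
    (j : Ω →ₐ[L] M) {θ : M} (hθ : θ ∈ rts (cOver k F L M g D)) :
    ∃ θ₀ ∈ rts (cOver k F L Ω g D), j θ₀ = θ := by
  have hA : IsAlgClosed Ω := IsAlgClosure.isAlgClosed L
  have h1 : cOver k F L Ω g D ≠ 0 := (IsGood.separable ℓ (f := cOver k F L Ω g D)).ne_zero
  have h2 : cOver k F L M g D ≠ 0 := (IsGood.separable ℓ (f := cOver k F L M g D)).ne_zero
  have hm : (cOver k F L Ω g D).map (j : Ω →+* M) = cOver k F L M g D := by
    unfold cOver
    rw [Polynomial.map_map, AlgHom.comp_algebraMap]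
  have hs : (cOver k F L Ω g D).Splits := IsAlgClosed.splits _
  have hr : (cOver k F L M g D).roots = (cOver k F L Ω g D).roots.map (j : Ω →+* M) := by
    rw [← hm]
    exact hs.roots_map (j : Ω →+* M)
  unfold rts at hθ ⊢
  rw [Multiset.mem_toFinset, hr, Multiset.mem_map] at hθ
  obtain ⟨θ₀, h3, h4⟩ := hθ
  exact ⟨θ₀, by rwa [Multiset.mem_toFinset], h4⟩

/-- The exponents `n` exist. -/
lemma G13_exists_n (hF : CompatF F L Ω) (H : GlobHyp ℓ g D ζ) {P : F[X]} (hP : P ≠ 0) {z : Ω → Ω}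
    (hz : ∀ θ ∈ rts (cOver k F L Ω g D), z θ ^ ℓ = aeval θ P) (σ : Ω ≃ₐ[L] Ω) :
    ∃ n : Ω → ℤ, ∀ θ ∈ rts (cOver k F L Ω g D),
      σ (z θ) = zA F L Ω ζ ^ n (σ θ) * z (σ θ) := by
  have h1 : ∀ θ' : Ω, ∃ i : ℤ, θ' ∈ rts (cOver k F L Ω g D) →
      σ (z (σ.symm θ')) = zA F L Ω ζ ^ i * z θ' := by
    intro θ'
    by_cases hθ : θ' ∈ rts (cOver k F L Ω g D)
    · have hθ2 : σ.symm θ' ∈ rts (cOver k F L Ω g D) := by
        have := G13_map_root (g := g) (D := D) (ℓ := ℓ) (k := k) (F := F)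
          (σ.symm : Ω →ₐ[L] Ω) hθ
        exact this
      have h2 : z θ' ≠ 0 := by
        intro h0
        have h3 := hz θ' hθ
        rw [h0, zero_pow H.prime.ne_zero] at h3
        have h4 := aeval_root_injective hF H hθ (a₁ := P) (a₂ := 0) (by rw [map_zero, ← h3])
        exact hP h4
      have h5 : σ (z (σ.symm θ')) ^ ℓ = z θ' ^ ℓ := by
        rw [← map_pow, hz _ hθ2, hz _ hθ]
        have h6 := G13_map_aeval hF hF (σ : Ω →ₐ[L] Ω) (σ.symm θ') P
        have h7 : (σ : Ω →ₐ[L] Ω) (σ.symm θ') = θ' := σ.apply_symm_apply θ'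
        rw [h7] at h6
        exact h6
      have h8 : IsPrimitiveRoot (zA F L Ω ζ) ℓ := zA_primitive H
      obtain ⟨i, hi⟩ := G13_exists_zpow H.prime.ne_zero h8 h2 h5
      exact ⟨i, fun _ => hi⟩
    · exact ⟨0, fun h => absurd h hθ⟩
  choose n hn using h1
  refine ⟨n, fun θ hθ => ?_⟩
  have h2 : σ θ ∈ rts (cOver k F L Ω g D) := by
    have := G13_map_root (g := g) (D := D) (ℓ := ℓ) (k := k) (F := F) (σ : Ω →ₐ[L] Ω) hθ
    exact this
  have h3 := hn (σ θ) h2
  rwa [AlgEquiv.symm_apply_apply] at h3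

/-- The good places, abstract form. -/
lemma G13_dvd_aux (hF : CompatF F L Ω) (H : GlobHyp ℓ g D ζ) {c : Coch ℓ k F L Ω g D}
    {P : F[X]} {z : Ω → Ω} (hP : P.Monic)
    (hfib : ∀ a : F, ℓ ∣ ∑ β ∈ (g.map (algebraMap k F) - C a).roots.toFinset, P.rootMultiplicity β)
    (hz : ∀ θ ∈ rts (cOver k F L Ω g D), z θ ^ ℓ = aeval θ P)
    (hn : ∀ (σ : Ω ≃ₐ[L] Ω) (n : Ω → ℤ), (∀ θ ∈ rts (cOver k F L Ω g D),
        σ (z θ) = zA F L Ω ζ ^ n (σ θ) * z (σ θ)) →
          vJ (zA F L Ω ζ) hζ (c 1 σ) = ram n)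
    {r a : F} (hr : aeval r g = a) (hDa : aeval a D ≠ 0)
    {K M : Type u} [Field K] [Algebra L K] [Field M] [Algebra K M] [Algebra L M]
    [IsScalarTower L K M] [IsAlgClosure K M] [Algebra F M] (hFM : CompatF F L M)
    {v : AbsoluteValue M ℝ} (hv : LocCtx v a (tA F L M))
    (hinv : ∀ (σ : M ≃ₐ[K] M) x, v (σ x) = v x)
    (hval : ∀ x : K, x ≠ 0 → ∃ i : ℤ, v (algebraMap K M x) = v (tA F L M - algebraMap F M a) ^ i)
    (j : Ω →ₐ[L] M) (Q₁ : JacOver ℓ (curvePoly k F L g D) M)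
    (hQ₁ : ∀ (σ : M ≃ₐ[K] M) (σ' : Ω ≃ₐ[L] Ω), (∀ x, j (σ' x) = σ (j x)) →
      push ℓ (curvePoly k F L g D) j (c 1 σ') =
        push ℓ (curvePoly k F L g D) (σ.restrictScalars L : M →ₐ[L] M) Q₁ - Q₁) :
    ℓ ∣ P.rootMultiplicity r := by
  have hMc : IsAlgClosed M := IsAlgClosure.isAlgClosed K
  have hGM : IsGood ℓ (cOver k F L M g D) := isGood_cOver H
  have hgm : (g.map (algebraMap k F)).Monic := H.monic.map _
  have hgd : (g.map (algebraMap k F)).natDegree = g.natDegree := natDegree_map _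
  have hm0 : g.natDegree ≠ 0 := by
    intro h0
    have h1 := H.cop
    rw [h0, Nat.coprime_zero_left] at h1
    exact H.prime.one_lt.ne' h1
  have hm : (g.map (algebraMap k F)).natDegree ≠ 0 := by rwa [hgd]
  have hmℓ : (g.map (algebraMap k F)).natDegree.Coprime ℓ := by
    rw [hgd]
    exact H.cop
  have hfl : cOver k F L M g D = locPoly (g.map (algebraMap k F)) (tA F L M)
      (aeval (tA F L M) (D.map (algebraMap k F))) := cOver_eq_locPoly hFM g D
  obtain ⟨d, hd⟩ : ∃ d : M, d = aeval (tA F L M) (D.map (algebraMap k F)) := ⟨_, rfl⟩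
  rw [← hd] at hfl
  have hdv : v d = 1 := by
    rw [hd]
    refine hv.v_eq_one (hv.residue_eval hv.lt_one (D.map (algebraMap k F))) ?_
    rw [eval_map, ← aeval_def]
    exact hDa
  have hd0 : d ≠ 0 := by
    rintro rfl
    rw [map_zero] at hdv
    exact zero_ne_one hdv
  have hs : (locPoly (g.map (algebraMap k F)) (tA F L M) d).Separable := by
    rw [← hfl]
    exact IsGood.separable ℓ
  have hFK : ∀ c : F, ∃ x : K, algebraMap K M x = algebraMap F M c := by
    intro c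
    refine ⟨algebraMap L K (algebraMap F[X] L (C c)), ?_⟩
    rw [hFM, ← IsScalarTower.algebraMap_apply L K M]
  have htK : ∃ x : K, algebraMap K M x = tA F L M := by
    refine ⟨algebraMap L K (algebraMap F[X] L X), ?_⟩
    unfold tA
    rw [← IsScalarTower.algebraMap_apply L K M]
  have hf : ((curvePoly k F L g D).map (algebraMap L K)).map (algebraMap K M) =
      cOver k F L M g D := by
    rw [Polynomial.map_map, ← IsScalarTower.algebraMap_eq L K M]
  have hΓ := hv.locGrp hf hinv hval hFK htK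
  have hℓK : (ℓ : K) ≠ 0 := by
    intro h0
    apply H.ne
    have h1 : (algebraMap L K) ((algebraMap F[X] L) ((mapRingHom (algebraMap k F)) (C (ℓ : k)))) =
        (ℓ : K) := by simp
    rw [h0, map_eq_zero, map_eq_zero_iff _ (IsFractionRing.injective F[X] L), coe_mapRingHom,
      Polynomial.map_C, C_eq_zero, map_eq_zero] at h1
    exact h1
  have hp : (ringExpChar K).Coprime ℓ := G13_coprime H.prime hℓK
  have hζF : IsPrimitiveRoot (algebraMap k F ζ) ℓ :=
    H.zeta.map_of_injective (algebraMap k F).injective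
  have hζM : IsPrimitiveRoot (algebraMap F M (algebraMap k F ζ)) ℓ :=
    hζF.map_of_injective (algebraMap F M).injective
  have hjζ : j (zA F L Ω ζ) = algebraMap F M (algebraMap k F ζ) := by
    rw [G13_map_zA, G13_zA hFM]
  have hjζ' : (j : Ω →+* M) (zA F L Ω ζ) ^ ℓ = 1 := by
    rw [← map_pow, hζ, map_one]
  -- the functions over `M`
  have hinvj : ∀ x, Function.invFun j (j x) = x :=
    Function.leftInverse_invFun (j : Ω →+* M).injective
  obtain ⟨zM, hzM⟩ : ∃ zM : M → M, ∀ x, zM (j x) = j (z x) :=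
    ⟨fun θ => j (z (Function.invFun j θ)), fun x => congrArg (fun y => j (z y)) (hinvj x)⟩
  have hzM' : ∀ θ ∈ rts (cOver k F L M g D), zM θ ^ ℓ = aeval θ P := by
    intro θ hθ
    obtain ⟨θ₀, h1, rfl⟩ := G13_exists_root (ℓ := ℓ) j hθ
    rw [hzM, ← map_pow, hz θ₀ h1, G13_map_aeval hF hFM]
  refine hv.good_place' hp hgm hm hmℓ hd0 hfl hζF hζM hΓ hdv ?_ hP.ne_zero hzM'
    (vJ ((j : Ω →+* M) (zA F L Ω ζ)) hjζ' Q₁) ?_ (hfib a) ?_
  · intro r' θ hθ θ' hθ'
    rw [hfl] at hθ hθ'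
    obtain ⟨τ, hτ⟩ := hv.exists_conj_near hgm hm hd0 hs hinv hval hFK htK hθ hθ'
    exact ⟨galSym hf τ, ⟨τ, rfl⟩, by rw [galSym_apply]; exact hτ⟩
  · rintro _ ⟨τ, rfl⟩
    obtain ⟨τ', hτ'⟩ := exists_restrict j (τ.restrictScalars L)
    have hτ'' : ∀ x, j (τ' x) = τ (j x) := hτ'
    obtain ⟨n, hn'⟩ := G13_exists_n hF H hP.ne_zero hz τ'
    refine ⟨fun θ => n (Function.invFun j θ), ?_, ?_⟩
    · have h1 := hQ₁ τ τ' hτ''
      have h2 : push ℓ (curvePoly k F L g D) (τ.restrictScalars L : M →ₐ[L] M) Q₁ =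
          symJ (galSym hf τ) Q₁ := by
        unfold push symJ
        apply G13_jacMap_congr
        ext x
        rfl
      rw [h2] at h1
      have h3 : ((galSym hf τ : Sym (cOver k F L M g D)) : M ≃+* M)
          ((j : Ω →+* M) (zA F L Ω ζ)) = (j : Ω →+* M) (zA F L Ω ζ) := by
        rw [galSym_apply]
        have h4 : (j : Ω →+* M) (zA F L Ω ζ) = zA F L M ζ := G13_map_zA j ζ
        rw [h4]
        have h5 : zA F L M ζ = algebraMap K M (algebraMap L K (base k F L L (C ζ))) := by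
          rw [← IsScalarTower.algebraMap_apply L K M]
          rfl
        rw [h5, τ.commutes]
      rw [← vJ_symJ _ hjζ' _ h3, ← vJ_sub, ← h1]
      have h6 : vJ ((j : Ω →+* M) (zA F L Ω ζ)) hjζ' (push ℓ (curvePoly k F L g D) j (c 1 τ')) =
          push ℓ (curvePoly k F L g D) j (vJ (zA F L Ω ζ) hζ (c 1 τ')) := by
        unfold push
        exact vJ_jacMap _ _ _ hζ hjζ' _
      rw [h6, hn τ' n hn']
      unfold push
      apply jacMap_ram
      intro θ _
      exact congrArg n (hinvj θ)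
    · intro θ hθ
      obtain ⟨θ₀, h1, rfl⟩ := G13_exists_root (ℓ := ℓ) j hθ
      have h2 := congrArg j (hn' θ₀ h1)
      rw [map_mul, map_zpow₀, hjζ, hτ''] at h2
      have h3 : ((galSym hf τ : Sym (cOver k F L M g D)) : M ≃+* M) (j θ₀) = j (τ' θ₀) := by
        rw [galSym_apply, hτ'']
      rw [h3, hzM, hzM, galSym_apply, h2]
      change _ = _ ^ n (Function.invFun j (j (τ' θ₀))) * _
      rw [hinvj]
  · rw [eval_map, ← aeval_def]
    exact hr

/-- The good places. -/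
lemma G13_dvd (hF : CompatF F L Ω) (H : GlobHyp ℓ g D ζ) {c : Coch ℓ k F L Ω g D} (hLT : LTc c)
    {P : F[X]} {z : Ω → Ω} (hP : P.Monic)
    (hfib : ∀ a : F, ℓ ∣ ∑ β ∈ (g.map (algebraMap k F) - C a).roots.toFinset, P.rootMultiplicity β)
    (hz : ∀ θ ∈ rts (cOver k F L Ω g D), z θ ^ ℓ = aeval θ P)
    (hn : ∀ (σ : Ω ≃ₐ[L] Ω) (n : Ω → ℤ), (∀ θ ∈ rts (cOver k F L Ω g D),
        σ (z θ) = zA F L Ω ζ ^ n (σ θ) * z (σ θ)) →
          vJ (zA F L Ω ζ) hζ (c 1 σ) = ram n)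
    {r a : F} (hr : aeval r g = a) (hDa : aeval a D ≠ 0) : ℓ ∣ P.rootMultiplicity r := by
  have hFc : IsAlgClosed F := IsAlgClosure.isAlgClosed k
  let _ : Algebra F (AlgebraicClosure ((plc a).adicCompletion L)) :=
    ((algebraMap L (AlgebraicClosure ((plc a).adicCompletion L))).comp
      ((algebraMap F[X] L).comp C)).toAlgebra
  have hFM : CompatF F L (AlgebraicClosure ((plc a).adicCompletion L)) := fun c => rfl
  have hFK : ∀ c : F, algebraMap F (AlgebraicClosure ((plc a).adicCompletion L)) c =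
      algebraMap ((plc a).adicCompletion L) (AlgebraicClosure ((plc a).adicCompletion L))
        (algebraMap F[X] ((plc a).adicCompletion L) (C c)) := by
    intro c
    rw [hFM, IsScalarTower.algebraMap_apply L ((plc a).adicCompletion L)
      (AlgebraicClosure ((plc a).adicCompletion L)),
      ← IsScalarTower.algebraMap_apply F[X] L ((plc a).adicCompletion L)]
  have htK : algebraMap ((plc a).adicCompletion L) (AlgebraicClosure ((plc a).adicCompletion L))
        (algebraMap F[X] ((plc a).adicCompletion L) X) =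
      tA F L (AlgebraicClosure ((plc a).adicCompletion L)) := by
    unfold tA
    rw [IsScalarTower.algebraMap_apply L ((plc a).adicCompletion L)
      (AlgebraicClosure ((plc a).adicCompletion L)),
      ← IsScalarTower.algebraMap_apply F[X] L ((plc a).adicCompletion L)]
  obtain ⟨v, hv, hval, hinv, -⟩ := exists_locCtx (L := L)
    (M := AlgebraicClosure ((plc a).adicCompletion L)) a hFK
  rw [htK] at hv
  simp only [htK] at hval
  obtain ⟨j⟩ : Nonempty (Ω →ₐ[L] AlgebraicClosure ((plc a).adicCompletion L)) := by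
    have : Algebra.IsAlgebraic L Ω := IsAlgClosure.isAlgebraic
    exact ⟨IsAlgClosed.lift⟩
  obtain ⟨Q₁, hQ₁⟩ := hLT a 1 (AlgebraicClosure ((plc a).adicCompletion L)) j
  exact G13_dvd_aux hF H hP hfib hz hn hr hDa hFM hv hinv hval j Q₁ hQ₁

theorem exists_hasExp (hF : CompatF F L Ω) (H : GlobHyp ℓ g D ζ) {c : Coch ℓ k F L Ω g D}
    (hc : IsTateCocycle ℓ (curvePoly k F L g D) c) (hLT : LTc c) :
    ∃ e : F → ℤ, HasExp hζ c e := by
  have hFc : IsAlgClosed F := IsAlgClosure.isAlgClosed k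
  obtain ⟨P, z, hP, hfib, hz, hn⟩ := exists_kummer hF H hζ hc
  have hdvd : ∀ r : F, r ∉ RR F g D → ℓ ∣ P.rootMultiplicity r := by
    intro r hr
    rw [mem_RR H] at hr
    exact G13_dvd hF H hLT hP hfib hz hn rfl hr
  set W : F[X] := ∏ β ∈ P.roots.toFinset \ RR F g D, (X - C β) ^ (P.rootMultiplicity β / ℓ)
    with hW
  have hWm : W.Monic := monic_prod_of_monic _ _ fun β _ => (monic_X_sub_C β).pow _
  have hPW : P = W ^ ℓ * ∏ β ∈ RR F g D, (X - C β) ^ P.rootMultiplicity β := by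
    have h1 : P = ∏ β ∈ P.roots.toFinset, (X - C β) ^ P.rootMultiplicity β := by
      have h2 : P = (P.roots.map fun a => X - C a).prod :=
        (IsAlgClosed.splits P).eq_prod_roots_of_monic hP
      conv_lhs => rw [h2]
      rw [Finset.prod_multiset_map_count]
      refine Finset.prod_congr rfl fun β _ => ?_
      rw [count_roots]
    have h3 : W ^ ℓ = ∏ β ∈ P.roots.toFinset \ RR F g D, (X - C β) ^ P.rootMultiplicity β := by
      rw [hW, ← Finset.prod_pow]
      refine Finset.prod_congr rfl fun β hβ => ?_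
      rw [← pow_mul, Nat.div_mul_cancel (hdvd β (Finset.mem_sdiff.mp hβ).2)]
    have h4 : ∏ β ∈ RR F g D, (X - C β) ^ P.rootMultiplicity β =
        ∏ β ∈ P.roots.toFinset ∩ RR F g D, (X - C β) ^ P.rootMultiplicity β := by
      symm
      refine Finset.prod_subset Finset.inter_subset_right fun β hβ hn' => ?_
      have h5 : β ∉ P.roots.toFinset := fun h => hn' (Finset.mem_inter.mpr ⟨h, hβ⟩)
      have h6 : P.rootMultiplicity β = 0 := by
        rw [← count_roots]
        rw [Multiset.mem_toFinset] at h5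
        exact Multiset.count_eq_zero_of_notMem h5
      rw [h6, pow_zero]
    rw [h3, h4]
    conv_lhs => rw [h1]
    rw [mul_comm]
    exact (Finset.prod_inter_mul_prod_sdiff _ _ _).symm
  have hWθ : ∀ θ ∈ rts (cOver k F L Ω g D), aeval θ W ≠ 0 := by
    intro θ hθ h0
    exact hWm.ne_zero (aeval_root_injective hF H hθ (a₁ := W) (a₂ := 0) (by rw [map_zero, h0]))
  refine ⟨fun β => (P.rootMultiplicity β : ℤ), ?_, fun θ => z θ / aeval θ W, ?_, ?_⟩
  · intro a
    by_cases hDa : aeval a D = 0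
    · have h1 : (RR F g D).filter (fun β => aeval β g = a) =
          (g.map (algebraMap k F) - C a).roots.toFinset := by
        have hne : g.map (algebraMap k F) - C a ≠ 0 := by
          intro h0
          have h2 : g.map (algebraMap k F) = C a := sub_eq_zero.mp h0
          have h3 := congrArg natDegree h2
          rw [natDegree_map, natDegree_C] at h3
          have h4 := H.cop
          rw [h3, Nat.coprime_zero_left] at h4
          exact H.prime.one_lt.ne' h4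
        ext β
        rw [Finset.mem_filter, mem_RR H, Multiset.mem_toFinset, mem_roots hne, IsRoot.def, eval_sub,
          eval_C, eval_map, ← aeval_def, sub_eq_zero]
        constructor
        · exact fun h => h.2
        · rintro rfl
          exact ⟨hDa, rfl⟩
      rw [h1]
      have h5 := hfib a
      exact_mod_cast h5
    · have h1 : (RR F g D).filter (fun β => aeval β g = a) = ∅ := by
        rw [Finset.filter_eq_empty_iff]
        intro β hβ h
        rw [mem_RR H, h] at hβ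
        exact hDa hβ
      rw [h1, Finset.sum_empty]
      exact dvd_zero _
  · intro θ hθ
    rw [div_pow, hz θ hθ]
    conv_lhs => rw [hPW]
    rw [map_mul, map_pow, mul_div_cancel_left₀ _ (pow_ne_zero _ (hWθ θ hθ)), map_prod]
    refine Finset.prod_congr rfl fun β _ => ?_
    rw [map_pow, map_sub, aeval_X, aeval_C, zpow_natCast]
  · intro σ n hσ
    refine hn σ n fun θ hθ => ?_
    have h1 := hσ θ hθ
    have h2 : σ (aeval θ W) = aeval (σ θ) W := G13_map_aeval hF hF (σ : Ω →ₐ[L] Ω) θ W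
    have h3 : σ θ ∈ rts (cOver k F L Ω g D) :=
      G13_map_root (g := g) (D := D) (ℓ := ℓ) (k := k) (F := F) (σ : Ω →ₐ[L] Ω) hθ
    have h4 := hWθ _ h3
    rw [map_div₀, h2, div_eq_iff h4] at h1
    rw [h1]
    field_simp

end Pool.Agent.Lib.MP_89bcae_ag.Sup

end
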