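import Mathlib
import Pool.Agent.Lib.MP_89bcae_ag.Rk.K031
import Pool.Agent.Lib.MP_89bcae_ag.Rk.K032

section

/-!
ROW A04 (100-200 lines). The eigenvector theorem for a subquotient.

PROOF. Apply `exists_eigen` (A03) to `H = W ⧸ T` (`T.addSubgroupOf W`), with the action of `G` and the
endomorphism `Z` induced. `e` is given on `W` as a relation `E c ε` (`ε : ι → ZMod ℓ`): it is total on
`W`, additive, and `E c ε` with `c ∈ T` implies `ε = 0`; so it defines a homomorphism `W → (ι → ZMod ℓ)`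
(`ε` is unique: the difference of two values for `c` is a value for `0 ∈ T`), which factors through
`W ⧸ T`. Its kernel is `p (W ⧸ T)` by `hker` and `hZE`.
-/

namespace Pool.Agent.Lib.MP_89bcae_ag.Sup

theorem exists_eigen_sub {ℓ : ℕ} [Fact ℓ.Prime] {C G ι : Type*} [AddCommGroup C] [Group G]
    [DistribMulAction G C] [Finite ι] (W T : AddSubgroup C) (Z : C →+ C) (hTW : T ≤ W)
    (hZW : ∀ c ∈ W, Z c ∈ W) (hZT : ∀ c ∈ T, Z c ∈ T) (hGW : ∀ (u : G), ∀ c ∈ W, u • c ∈ W)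
    (hGT : ∀ (u : G), ∀ c ∈ T, u • c ∈ T)
    (hZ : ∀ c ∈ W, ∑ i ∈ Finset.range ℓ, Z^[i] c ∈ T)
    (hZG : ∀ (u : G), ∀ c ∈ W, Z (u • c) - u • Z c ∈ T)
    (hinj : ∀ c ∈ W, c - Z c ∈ T → c ∈ T)
    (hsep : ∀ c ∈ W, (∀ n : ℕ, ∃ y ∈ W, c - (fun h => h - Z h)^[n] y ∈ T) → c ∈ T)
    (E : C → (ι → ZMod ℓ) → Prop) (hE : ∀ c ∈ W, ∃ ε, E c ε)
    (hadd : ∀ c ∈ W, ∀ c' ∈ W, ∀ ε ε', E c ε → E c' ε' → E (c + c') (ε + ε'))
    (hneg : ∀ c ∈ W, ∀ ε, E c ε → E (-c) (-ε))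
    (hET : ∀ c ∈ T, ∀ ε, E c ε → ε = 0)
    (hZE : ∀ c ∈ W, ∀ ε, E c ε → E (Z c) ε)
    (hker : ∀ c ∈ W, E c 0 → ∃ y ∈ W, c - (y - Z y) ∈ T)
    (hGE : ∀ (u : G), ∀ c ∈ W, ∀ ε, E c ε → E (u • c) ε)
    (hfin : ∀ (u : G), ∀ c ∈ W, ∃ M : ℕ, 0 < M ∧ u ^ M • c - c ∈ T)
    (hne : ¬ W ≤ T) :
    ∃ c ∈ W, ∃ ε, E c ε ∧ ε ≠ 0 ∧ ∃ a : G → ZMod ℓ, ∀ u, ∀ y ∈ W, ∀ ε',
      u • c - c - (y - Z y) ∈ T → E y ε' → ε' = a u • ε := by
  classical
  -- uniqueness of values
  have huniq : ∀ c ∈ W, ∀ ε ε', E c ε → E c ε' → ε = ε' := by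
    intro c hc ε ε' h h'
    have h1 := hadd c hc (-c) (W.neg_mem hc) ε (-ε') h (hneg c hc ε' h')
    rw [add_neg_cancel] at h1
    have h2 := hET 0 T.zero_mem _ h1
    rwa [← sub_eq_add_neg, sub_eq_zero] at h2
  -- the quotient
  let T' : AddSubgroup W := T.addSubgroupOf W
  have memT' : ∀ w : W, w ∈ T' ↔ (w : C) ∈ T := fun w => AddSubgroup.mem_addSubgroupOf
  let mk : W →+ W ⧸ T' := QuotientAddGroup.mk' T'
  have mk_surj : Function.Surjective mk := QuotientAddGroup.mk'_surjective T'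
  have mk_eq : ∀ a b : W, mk a = mk b ↔ (a : C) - b ∈ T := by
    intro a b
    rw [← sub_eq_zero, ← map_sub]
    change (QuotientAddGroup.mk (a - b) : W ⧸ T') = 0 ↔ _
    rw [QuotientAddGroup.eq_zero_iff, memT']
    rfl
  -- induced endomorphism
  let ZW : W →+ W := (Z.comp W.subtype).codRestrict W fun c => hZW c c.2
  have ZW_coe : ∀ w : W, (ZW w : C) = Z w := fun w => rfl
  let Zb : W ⧸ T' →+ W ⧸ T' := QuotientAddGroup.map T' T' ZW fun w hw => by
    rw [AddSubgroup.mem_comap, memT', ZW_coe]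
    exact hZT _ ((memT' w).1 hw)
  have Zb_mk : ∀ w, Zb (mk w) = mk (ZW w) := fun w => rfl
  -- induced action
  let φ : G → W →+ W := fun u =>
    ((DistribSMul.toAddMonoidHom C u).comp W.subtype).codRestrict W fun c => hGW u c c.2
  have φ_coe : ∀ u (w : W), (φ u w : C) = u • (w : C) := fun u w => rfl
  let ψ : G → W ⧸ T' →+ W ⧸ T' := fun u => QuotientAddGroup.map T' T' (φ u) fun w hw => by
    rw [AddSubgroup.mem_comap, memT', φ_coe]
    exact hGT u _ ((memT' w).1 hw)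
  have ψ_mk : ∀ u w, ψ u (mk w) = mk (φ u w) := fun u w => rfl
  letI act : DistribMulAction G (W ⧸ T') :=
    { smul := fun u q => ψ u q
      one_smul := fun q => by
        obtain ⟨w, rfl⟩ := mk_surj q
        change ψ 1 (mk w) = mk w
        rw [ψ_mk]
        congr 1
        apply Subtype.ext
        rw [φ_coe, one_smul]
      mul_smul := fun u v q => by
        obtain ⟨w, rfl⟩ := mk_surj q
        change ψ (u * v) (mk w) = ψ u (ψ v (mk w))
        rw [ψ_mk, ψ_mk, ψ_mk]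
        congr 1
        apply Subtype.ext
        rw [φ_coe, φ_coe, φ_coe, mul_smul]
      smul_zero := fun u => map_zero (ψ u)
      smul_add := fun u x y => map_add (ψ u) x y }
  have smul_mk : ∀ (u : G) (w : W), u • (mk w) = mk (φ u w) := fun u w => rfl
  -- the homomorphism e
  have hex : ∀ w : W, ∃ ε, E w ε := fun w => hE w w.2
  choose ew hew using hex
  let eW : W →+ (ι → ZMod ℓ) :=
    { toFun := ew
      map_zero' := hET 0 T.zero_mem _ (hew 0)
      map_add' := fun a b => huniq (a + b : W) (a + b).2 _ _ (hew (a + b))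
        (hadd a a.2 b b.2 _ _ (hew a) (hew b)) }
  have eW_spec : ∀ w : W, E w (eW w) := hew
  let e : W ⧸ T' →+ (ι → ZMod ℓ) := QuotientAddGroup.lift T' eW fun w hw =>
    hET w ((memT' w).1 hw) _ (eW_spec w)
  have e_mk : ∀ w, e (mk w) = eW w := fun w => rfl
  have eW_uniq : ∀ (w : W) ε, E w ε → eW w = ε := fun w ε h => huniq w w.2 _ _ (eW_spec w) h
  -- iterates
  have it1 : ∀ (i : ℕ) (w : W), Zb^[i] (mk w) = mk (ZW^[i] w) := by
    intro i
    induction i with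
    | zero => intro w; rfl
    | succ i ih => intro w; rw [Function.iterate_succ_apply, Function.iterate_succ_apply, Zb_mk, ih]
  have it2 : ∀ (i : ℕ) (w : W), ((ZW^[i] w : W) : C) = Z^[i] (w : C) := by
    intro i
    induction i with
    | zero => intro w; rfl
    | succ i ih =>
      intro w
      rw [Function.iterate_succ_apply, Function.iterate_succ_apply, ih, ZW_coe]
  have it3 : ∀ (i : ℕ) (w : W), (fun h => h - Zb h)^[i] (mk w) = mk ((fun h => h - ZW h)^[i] w) := by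
    intro i
    induction i with
    | zero => intro w; rfl
    | succ i ih =>
      intro w
      rw [Function.iterate_succ_apply, Function.iterate_succ_apply, Zb_mk, ← map_sub, ih]
  have it4 : ∀ (i : ℕ) (w : W), (((fun h => h - ZW h)^[i] w : W) : C) =
      (fun h => h - Z h)^[i] (w : C) := by
    intro i
    induction i with
    | zero => intro w; rfl
    | succ i ih =>
      intro w
      rw [Function.iterate_succ_apply, Function.iterate_succ_apply, ih]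
      rfl
  obtain ⟨q, hq0, a, ha⟩ := exists_eigen (ℓ := ℓ) (H := W ⧸ T') (G := G) (ι := ι) Zb
    (fun q => by
      obtain ⟨w, rfl⟩ := mk_surj q
      simp only [it1]
      rw [← map_sum, ← map_zero mk, mk_eq]
      have h1 := hZ w w.2
      rw [ZeroMemClass.coe_zero, sub_zero]
      change W.subtype (∑ i ∈ Finset.range ℓ, ZW^[i] w) ∈ T
      rw [map_sum]
      simp only [AddSubgroup.subtype_apply, it2]
      exact h1)
    (fun u q => by
      obtain ⟨w, rfl⟩ := mk_surj q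
      rw [smul_mk, Zb_mk, Zb_mk, smul_mk, mk_eq, ZW_coe, φ_coe, φ_coe, ZW_coe]
      exact hZG u w w.2)
    (fun q hq => by
      obtain ⟨w, rfl⟩ := mk_surj q
      rw [Zb_mk, mk_eq, ZW_coe] at hq
      rw [← map_zero mk, mk_eq, ZeroMemClass.coe_zero, sub_zero]
      refine hinj w w.2 ?_
      have := T.neg_mem hq
      rwa [neg_sub] at this)
    (fun q hq => by
      obtain ⟨w, rfl⟩ := mk_surj q
      rw [← map_zero mk, mk_eq, ZeroMemClass.coe_zero, sub_zero]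
      refine hsep w w.2 fun n => ?_
      obtain ⟨y, hy⟩ := hq n
      obtain ⟨y', rfl⟩ := mk_surj y
      rw [it3, mk_eq, it4] at hy
      exact ⟨y', y'.2, hy⟩)
    e
    (fun q => by
      obtain ⟨w, rfl⟩ := mk_surj q
      constructor
      · intro h
        rw [e_mk] at h
        have h1 := eW_spec w
        rw [h] at h1
        obtain ⟨y, hy, hyT⟩ := hker w w.2 h1
        refine ⟨mk ⟨y, hy⟩, ?_⟩
        rw [Zb_mk, ← map_sub, mk_eq]
        exact hyT
      · rintro ⟨y, hy⟩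
        obtain ⟨y', rfl⟩ := mk_surj y
        rw [hy, map_sub, Zb_mk, e_mk, e_mk, sub_eq_zero]
        exact (eW_uniq (ZW y') _ (hZE y' y'.2 _ (eW_spec y'))).symm)
    (fun u q => by
      obtain ⟨w, rfl⟩ := mk_surj q
      rw [smul_mk, e_mk, e_mk]
      exact eW_uniq (φ u w) _ (hGE u w w.2 _ (eW_spec w)))
    (fun u q => by
      obtain ⟨w, rfl⟩ := mk_surj q
      obtain ⟨M, hM, hMT⟩ := hfin u w w.2
      refine ⟨M, hM, ?_⟩
      rw [smul_mk, mk_eq, φ_coe]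
      exact hMT)
    (by
      obtain ⟨c, hcW, hcT⟩ := Set.not_subset.1 hne
      refine ⟨mk ⟨c, hcW⟩, fun h => hcT ?_⟩
      rw [← map_zero mk, mk_eq, ZeroMemClass.coe_zero, sub_zero] at h
      exact h)
  obtain ⟨w, rfl⟩ := mk_surj q
  rw [e_mk] at hq0
  refine ⟨w, w.2, eW w, eW_spec w, hq0, a, fun u y hy ε' hyT hyE => ?_⟩
  have h1 := ha u (mk ⟨y, hy⟩) (by
    rw [smul_mk, Zb_mk, ← map_sub, ← map_sub, mk_eq]
    exact hyT)
  rw [e_mk, e_mk, eW_uniq ⟨y, hy⟩ ε' hyE] at h1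
  exact h1

end Pool.Agent.Lib.MP_89bcae_ag.Sup

end

section

/-!
ROW G05 (150-250 lines). Local triviality is stable under the action of `Aut(Ω/k(t))`.

STATEMENT: `LTc c → LTc (act γ c)`. PROOF. Let `U = resF γ`, `a` in `F`, `K = (plc a).adicCompletion L`,
`M` an algebraic closure of `K`, `j : Ω → M` over `L`. Let `b = U⁻¹ a`,
`K' = (plc b).adicCompletion L` and `φ : K' ≃ K` with `φ (x) = coefL U x` for `x` in `L`
(`exists_adic_equiv`). Let `M'` be the field `M` with the `K'`-algebra structure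
`K' → K → M` and the `L`-algebra structure through `K'`, i.e. `x ↦ coefL U x` (`L → M`): `M'` is an
algebraic closure of `K'`. `j' = j ∘ γ : Ω → M'` is an `L`-algebra homomorphism, since
`γ x = coefL U x` on `L`. Apply the local triviality of `c n` at `b` to `M'`, `j'`: there is `Q'` in
`J(M')` with `j' (c n (g'')) = g Q' - Q'` whenever `g` in `Aut(M'/K') = Aut(M/K)` and
`j' ∘ g'' = g ∘ j'`, i.e. `g'' = γ⁻¹ g' γ` if `j ∘ g' = g ∘ j`. The curves over `M` and `M'` have the same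
equation (`coefL U` fixes the coefficients in `k(t)`), so `Q'` may be regarded in `J(M)` and
`j ((act γ c) n g') = j (γ (c n (γ⁻¹ g' γ))) = j' (c n (γ⁻¹ g' γ)) = g Q' - Q'`.
See `isLocallyTrivial_conj_aux` in `Pool/Agent/Lib/MP_89bcae_ag/LT8.lean` for the same argument for
elliptic curves (use a general auxiliary lemma where `K'`, `M'` are arbitrary types with the
relevant maps, then specialize with `letI`).
-/

open Polynomial IsDedekindDomain

open scoped Classical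

namespace Pool.Agent.Lib.MP_89bcae_ag.Sup

universe u

private lemma G05_jacMap_congr (ℓ : ℕ) {A B : Type u} [Field A] [Field B] {σ τ : A →+* B}
    (hst : σ = τ) {f : A[X]} {f' : B[X]} (h : f.map σ = f') (h' : f.map τ = f') (Q : Jac ℓ f) :
    jacMap ℓ σ h Q = jacMap ℓ τ h' Q := by
  subst hst
  rfl

private lemma G05_exists_conj {L Ω : Type u} [Field L] [Field Ω] [Algebra L Ω]
    (s : L ≃+* L) (γ : Ω ≃+* Ω)
    (hγ : ∀ x : L, γ (algebraMap L Ω x) = algebraMap L Ω (s x)) (h : Ω ≃ₐ[L] Ω) :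
    ∃ g : Ω ≃ₐ[L] Ω, ∀ x, γ (g x) = h (γ x) := by
  refine ⟨AlgEquiv.ofRingEquiv (f := (γ.trans h.toRingEquiv).trans γ.symm) ?_, ?_⟩
  · intro y
    change γ.symm (h (γ (algebraMap L Ω y))) = algebraMap L Ω y
    rw [hγ, h.commutes, ← hγ, RingEquiv.symm_apply_apply]
  · intro x
    change γ (γ.symm (h (γ x))) = h (γ x)
    rw [RingEquiv.apply_symm_apply]

private lemma G05_aux {ℓ : ℕ} {L Ω : Type u} [Field L] [Field Ω] [Algebra L Ω] {f : L[X]}
    {c c' : (Ω ≃ₐ[L] Ω) → JacOver ℓ f Ω}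
    {Lv Lv' : Type u} [Field Lv] [Algebra L Lv] [Field Lv'] [Algebra L Lv'] (s : L ≃+* L)
    (hs : f.map (s : L →+* L) = f) (φ : Lv ≃+* Lv')
    (γ : Ω ≃+* Ω) (hγf : (f.map (algebraMap L Ω)).map (γ : Ω →+* Ω) = f.map (algebraMap L Ω))
    (hγ : ∀ x : L, γ (algebraMap L Ω x) = algebraMap L Ω (s x))
    (hcc' : ∀ σ σ' : Ω ≃ₐ[L] Ω, (∀ x, γ (σ' x) = σ (γ x)) →
      c' σ = jacMap ℓ (γ : Ω →+* Ω) hγf (c σ'))
    (h : IsLocallyTrivial ℓ f c Lv)
    {M : Type u} [Field M] [Algebra Lv' M] [Algebra L M] [IsScalarTower L Lv' M]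
    {M' : Type u} [Field M'] [Algebra Lv M'] [IsAlgClosure Lv M'] [Algebra L M']
    [IsScalarTower L Lv M'] (e : M' ≃+* M)
    (he : ∀ x : Lv, e (algebraMap Lv M' x) = algebraMap Lv' M (φ x))
    (he' : ∀ x : L, e (algebraMap L M' x) = algebraMap L M (s x))
    (j : Ω →ₐ[L] M) :
    ∃ Q : JacOver ℓ f M,
      ∀ (g : M ≃ₐ[Lv'] M) (g' : Ω ≃ₐ[L] Ω), (∀ x, j (g' x) = g (j x)) →
        push ℓ f j (c' g') = push ℓ f (g.restrictScalars L : M →ₐ[L] M) Q - Q := by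
  have hef : (f.map (algebraMap L M')).map (e : M' →+* M) = f.map (algebraMap L M) := by
    have h1 : (e : M' →+* M).comp (algebraMap L M') = (algebraMap L M).comp (s : L →+* L) :=
      RingHom.ext fun x => he' x
    rw [Polynomial.map_map, h1, ← Polynomial.map_map, hs]
  -- the embedding of `Ω` in `M'`
  let j' : Ω →ₐ[L] M' :=
    { toRingHom := (e.symm : M →+* M').comp ((j : Ω →+* M).comp (γ : Ω →+* Ω))
      commutes' := fun x => by
        change e.symm (j (γ (algebraMap L Ω x))) = algebraMap L M' x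
        rw [hγ, j.commutes, ← he', RingEquiv.symm_apply_apply] }
  have hj' : ∀ x, e (j' x) = j (γ x) := fun x => by
    change e (e.symm (j (γ x))) = _
    rw [RingEquiv.apply_symm_apply]
  obtain ⟨Q₀, hQ₀⟩ := h M' j'
  refine ⟨jacMap ℓ (e : M' →+* M) hef Q₀, fun g g' hg => ?_⟩
  -- the conjugates of `g` and `g'`
  let s₀ : M' ≃ₐ[Lv] M' := AlgEquiv.ofRingEquiv (f := (e.trans g.toRingEquiv).trans e.symm) (by
    intro y
    change e.symm (g (e (algebraMap Lv M' y))) = algebraMap Lv M' y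
    rw [he, g.commutes, ← he, RingEquiv.symm_apply_apply])
  have hs₀ : ∀ x, e (s₀ x) = g (e x) := fun x => by
    change e (e.symm (g (e x))) = _
    rw [RingEquiv.apply_symm_apply]
  obtain ⟨s', hs'⟩ := G05_exists_conj s γ hγ g'
  have hss : ∀ x, j' (s' x) = s₀ (j' x) := by
    intro x
    apply e.injective
    rw [hj', hs', hg, hs₀, hj']
  have h1 := hQ₀ s₀ s' hss
  have hc1 : ((j : Ω →+* M).comp (γ : Ω →+* Ω)) = (e : M' →+* M).comp (j' : Ω →+* M') :=
    RingHom.ext fun x => (hj' x).symm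
  have hc2 : ((e : M' →+* M).comp ((s₀.restrictScalars L : M' →ₐ[L] M') : M' →+* M')) =
      ((g.restrictScalars L : M →ₐ[L] M) : M →+* M).comp (e : M' →+* M) :=
    RingHom.ext fun x => hs₀ x
  have hf1 : (f.map (algebraMap L Ω)).map ((j : Ω →+* M).comp (γ : Ω →+* Ω)) =
      f.map (algebraMap L M) := by
    rw [← Polynomial.map_map, hγf, Polynomial.map_map, AlgHom.comp_algebraMap]
  have hf2 : (f.map (algebraMap L M')).map
      (((g.restrictScalars L : M →ₐ[L] M) : M →+* M).comp (e : M' →+* M)) =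
      f.map (algebraMap L M) := by
    rw [← Polynomial.map_map, hef, Polynomial.map_map, AlgHom.comp_algebraMap]
  have e1 : push ℓ f j (c' g') = jacMap ℓ (e : M' →+* M) hef (push ℓ f j' (c s')) := by
    rw [hcc' g' s' hs']
    unfold push
    rw [jacMap_jacMap ℓ (γ : Ω →+* Ω) (j : Ω →+* M) hγf _ hf1,
      jacMap_jacMap ℓ (j' : Ω →+* M') (e : M' →+* M) _ hef (hc1 ▸ hf1)]
    exact G05_jacMap_congr ℓ hc1 _ _ _
  have e2 : jacMap ℓ (e : M' →+* M) hef
      (push ℓ f (s₀.restrictScalars L : M' →ₐ[L] M') Q₀) =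
      push ℓ f (g.restrictScalars L : M →ₐ[L] M) (jacMap ℓ (e : M' →+* M) hef Q₀) := by
    unfold push
    rw [jacMap_jacMap ℓ _ (e : M' →+* M) _ hef (hc2.symm ▸ hf2),
      jacMap_jacMap ℓ (e : M' →+* M) _ hef _ hf2]
    exact G05_jacMap_congr ℓ hc2 _ _ _
  rw [e1, h1, map_sub, e2]

private lemma G05_isAlgClosure {K K' M : Type u} [Field K] [Field K'] [Field M] [Algebra K' M]
    [IsAlgClosure K' M] [Algebra K M] (φ : K ≃+* K')
    (h : ∀ x, algebraMap K M x = algebraMap K' M (φ x)) : IsAlgClosure K M := by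
  have hac : IsAlgClosed M := IsAlgClosure.isAlgClosed K'
  have halg : Algebra.IsAlgebraic K' M := IsAlgClosure.isAlgebraic
  refine ⟨hac, ⟨fun x => ?_⟩⟩
  obtain ⟨p, hp0, hp⟩ := halg.isAlgebraic x
  refine ⟨p.map (φ.symm : K' →+* K), (Polynomial.map_ne_zero_iff φ.symm.injective).mpr hp0, ?_⟩
  have e1 : (algebraMap K M).comp (φ.symm : K' →+* K) = algebraMap K' M :=
    RingHom.ext fun x => by
      change algebraMap K M (φ.symm x) = algebraMap K' M x
      rw [h, RingEquiv.apply_symm_apply]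
  rw [aeval_def, eval₂_map, e1]
  exact hp

private lemma G05_trans {ℓ : ℕ} {L Ω : Type u} [Field L] [Field Ω] [Algebra L Ω] {f : L[X]}
    {c c' : (Ω ≃ₐ[L] Ω) → JacOver ℓ f Ω}
    {Lv Lv' : Type u} [Field Lv] [Algebra L Lv] [Field Lv'] [Algebra L Lv'] (s : L ≃+* L)
    (hs : f.map (s : L →+* L) = f) (φ : Lv ≃+* Lv')
    (hφ : ∀ x : L, φ (algebraMap L Lv x) = algebraMap L Lv' (s x))
    (γ : Ω ≃+* Ω) (hγf : (f.map (algebraMap L Ω)).map (γ : Ω →+* Ω) = f.map (algebraMap L Ω))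
    (hγ : ∀ x : L, γ (algebraMap L Ω x) = algebraMap L Ω (s x))
    (hcc' : ∀ σ σ' : Ω ≃ₐ[L] Ω, (∀ x, γ (σ' x) = σ (γ x)) →
      c' σ = jacMap ℓ (γ : Ω →+* Ω) hγf (c σ'))
    (h : IsLocallyTrivial ℓ f c Lv) : IsLocallyTrivial ℓ f c' Lv' := by
  intro M _ i1 i2 i3 i4 j
  have htow : ∀ x : L, algebraMap L M x = algebraMap Lv' M (algebraMap L Lv' x) := fun x =>
    IsScalarTower.algebraMap_apply L Lv' M x
  let ιv : Lv' →+* M := algebraMap Lv' M
  let ιL : L →+* M := algebraMap L M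
  let a1 : Algebra Lv M := (ιv.comp (φ : Lv →+* Lv')).toAlgebra
  let a2 : Algebra L M := (ιL.comp (s : L →+* L)).toAlgebra
  have a3 : @IsScalarTower L Lv M _ a1.toSMul a2.toSMul :=
    @IsScalarTower.of_algebraMap_eq L Lv M _ _ _ _ a1 a2 (fun x => by
      change ιL (s x) = ιv (φ (algebraMap L Lv x))
      rw [hφ]
      exact htow (s x))
  have a5 := @G05_isAlgClosure Lv Lv' M _ _ _ i1 i2 a1 φ (fun x => rfl)
  exact @G05_aux ℓ L Ω _ _ _ f c c' Lv Lv' _ _ _ _ s hs φ γ hγf hγ hcc' h M _ i1 i3 i4 M _ a1 a5 a2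
    a3 (RingEquiv.refl M) (fun x => rfl) (fun x => rfl) j

variable {k F L Ω : Type u} [Field k] [Field F] [Algebra k F] [Field L] [Algebra F[X] L]
  [Field Ω] [Algebra L Ω] [IsAlgClosure k F] [IsFractionRing F[X] L] [IsAlgClosure L Ω]
  {ℓ : ℕ} {g D : k[X]} [hG : IsGood ℓ (cOver k F L Ω g D)]

private lemma G05_coefL_base (U : F ≃ₐ[k] F) (p : k[X]) :
    coefL L (U : F ≃+* F) (base k F L L p) = base k F L L p := by
  change coefL L (U : F ≃+* F) (algebraMap F[X] L (p.map (algebraMap k F))) =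
    algebraMap F[X] L (p.map (algebraMap k F))
  rw [coefL_algebraMap, Polynomial.map_map]
  congr 2
  exact RingHom.ext fun x => U.commutes x

private lemma G05_coefL_curvePoly (U : F ≃ₐ[k] F) :
    (curvePoly k F L g D).map (coefL L (U : F ≃+* F) : L →+* L) = curvePoly k F L g D := by
  unfold curvePoly
  rw [Polynomial.map_mul, Polynomial.map_C, Polynomial.map_sub, Polynomial.map_C,
    Polynomial.map_map]
  have h1 : ∀ p : k[X], (coefL L (U : F ≃+* F) : L →+* L) (base k F L L p) = base k F L L p :=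
    fun p => G05_coefL_base U p
  have h2 : (coefL L (U : F ≃+* F) : L →+* L).comp ((base k F L L).comp C) =
      (base k F L L).comp C := RingHom.ext fun x => h1 (C x)
  rw [h2, map_inv₀, h1, h1]

private lemma G05_gamma (γ : AutO k F L Ω) (x : L) :
    (γ : Ω ≃+* Ω) (algebraMap L Ω x) =
      algebraMap L Ω (coefL L (resF γ : F ≃+* F) x) := by
  obtain ⟨p, q, hq, rfl⟩ := IsFractionRing.div_surjective (A := F[X]) x
  rw [map_div₀, map_div₀, map_div₀, map_div₀, coefL_algebraMap, coefL_algebraMap, resF_spec,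
    resF_spec]
  rfl

theorem LTc.act {c : Coch ℓ k F L Ω g D} (hc : LTc c) (γ : AutO k F L Ω) :
    LTc (Sup.act γ c) := by
  intro a n
  obtain ⟨b, rfl⟩ := (resF γ : F ≃+* F).surjective a
  obtain ⟨φ, hφ, -⟩ := exists_adic_equiv L (resF γ : F ≃+* F) b
  refine G05_trans (coefL L (resF γ : F ≃+* F)) (G05_coefL_curvePoly (resF γ)) φ hφ
    (γ : Ω ≃+* Ω) (toSym g D γ).2 (G05_gamma γ) ?_ (hc b n)
  intro σ σ' hσ
  have h1 : conjG γ⁻¹ σ = σ' := by
    apply AlgEquiv.ext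
    intro y
    have h2 := conjG_spec γ⁻¹ σ ((γ : Ω ≃+* Ω) y)
    have h3 : ∀ z : Ω, ((γ⁻¹ : AutO k F L Ω) : Ω ≃+* Ω) ((γ : Ω ≃+* Ω) z) = z := fun z =>
      (γ : Ω ≃+* Ω).symm_apply_apply z
    rw [h3, ← hσ, h3] at h2
    exact h2
  change symJ (toSym g D γ) (c n (conjG γ⁻¹ σ)) = _
  rw [h1]
  rfl

end Pool.Agent.Lib.MP_89bcae_ag.Sup

end

section

/-!
ROW G06 (80-160 lines). The group of the invariant Selmer cocycles and its subgroup of trivial ones.

PROOFS. Sum: if `act (γ^M) c - c` and `act (γ^M') c' - c'` are trivial, so are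
`act (γ^(M M')) c - c` and `act (γ^(M M')) c' - c'` (telescoping:
`act (γ^(M (i+1))) c - act (γ^M) c = act (γ^M) (act (γ^(M i)) c - c)`). `act γ' c`:
`γ^M γ' c - γ' c = γ' ((γ'⁻¹ γ γ')^M c - c)`. Trivial cocycles: `act (γ^M) c - c` is trivial for `M = 1`.
-/

open Polynomial IsDedekindDomain

open scoped Classical

namespace Pool.Agent.Lib.MP_89bcae_ag.Sup

universe u

variable {k F L Ω : Type u} [Field k] [Field F] [Algebra k F] [Field L] [Algebra F[X] L]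
  [Field Ω] [Algebra L Ω] [IsAlgClosure k F] [IsFractionRing F[X] L] [IsAlgClosure L Ω]
  {ℓ : ℕ} {g D : k[X]} [hG : IsGood ℓ (cOver k F L Ω g D)]

/-- Multiples of the exponent. -/
lemma TTc.act_pow_mul {c : Coch ℓ k F L Ω g D}
    (hc : IsTateCocycle ℓ (curvePoly k F L g D) c) {γ : AutO k F L Ω} {M : ℕ}
    (h : TTc (Sup.act (γ ^ M) c - c)) (N : ℕ) : TTc (Sup.act (γ ^ (M * N)) c - c) := by
  induction N with
  | zero =>
    rw [Nat.mul_zero, pow_zero, act_one, sub_self]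
    exact TTc.zero
  | succ N ih =>
    have e : Sup.act (γ ^ (M * (N + 1))) c - c =
        Sup.act (γ ^ (M * N)) (Sup.act (γ ^ M) c - c) + (Sup.act (γ ^ (M * N)) c - c) := by
      rw [Nat.mul_succ, pow_add, act_mul, act_sub]
      abel
    rw [e]
    exact (h.act _).add ih

lemma TTc.ww {c : Coch ℓ k F L Ω g D} (hc : TTc c) : WWc c := by
  refine ⟨hc.1, hc.lt, fun γ => ⟨1, one_pos, ?_⟩⟩
  rw [pow_one]
  exact (hc.act γ).sub hc

lemma WWc.add {c c' : Coch ℓ k F L Ω g D} (hc : WWc c) (hc' : WWc c') : WWc (c + c') := by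
  refine ⟨hc.1.add hc'.1, hc.2.1.add hc'.2.1, fun γ => ?_⟩
  obtain ⟨M, hM, h⟩ := hc.2.2 γ
  obtain ⟨M', hM', h'⟩ := hc'.2.2 γ
  refine ⟨M * M', Nat.mul_pos hM hM', ?_⟩
  have h1 : TTc (Sup.act (γ ^ (M * M')) c - c) := TTc.act_pow_mul hc.1 h M'
  have h2 : TTc (Sup.act (γ ^ (M' * M)) c' - c') := TTc.act_pow_mul hc'.1 h' M
  rw [Nat.mul_comm M' M] at h2
  have e : Sup.act (γ ^ (M * M')) (c + c') - (c + c') =
      (Sup.act (γ ^ (M * M')) c - c) + (Sup.act (γ ^ (M * M')) c' - c') := by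
    rw [act_add]
    abel
  rw [e]
  exact h1.add h2

lemma WWc.neg {c : Coch ℓ k F L Ω g D} (hc : WWc c) : WWc (-c) := by
  refine ⟨hc.1.neg, hc.2.1.neg, fun γ => ?_⟩
  obtain ⟨M, hM, h⟩ := hc.2.2 γ
  refine ⟨M, hM, ?_⟩
  have e1 : Sup.act (γ ^ M) (-c) = -Sup.act (γ ^ M) c := by
    have h1 := act_sub (γ ^ M) (0 : Coch ℓ k F L Ω g D) c
    rwa [act_zero, zero_sub, zero_sub] at h1
  have e : Sup.act (γ ^ M) (-c) - -c = -(Sup.act (γ ^ M) c - c) := by
    rw [e1]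
    abel
  rw [e]
  exact h.neg

lemma WWc.sub {c c' : Coch ℓ k F L Ω g D} (hc : WWc c) (hc' : WWc c') : WWc (c - c') := by
  rw [sub_eq_add_neg]
  exact hc.add hc'.neg

lemma WWc.zC {ζ : k} (H : GlobHyp ℓ g D ζ) {c : Coch ℓ k F L Ω g D} (hc : WWc c)
    (hζ : (zA F L Ω ζ) ^ ℓ = 1) : WWc (Sup.zC ζ hζ c) := by
  refine ⟨hc.1.zC ζ hζ, hc.2.1.zC H hζ, fun γ => ?_⟩
  obtain ⟨M, hM, h⟩ := hc.2.2 γ
  refine ⟨M, hM, ?_⟩
  rw [act_zC, ← map_sub]
  exact h.zC ζ hζ

lemma WWc.act {c : Coch ℓ k F L Ω g D} (hc : WWc c) (γ : AutO k F L Ω) :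
    WWc (Sup.act γ c) := by
  refine ⟨hc.1.act γ, hc.2.1.act γ, fun γ' => ?_⟩
  obtain ⟨M, hM, h⟩ := hc.2.2 (γ⁻¹ * γ' * γ)
  refine ⟨M, hM, ?_⟩
  have e1 : γ'^ M * γ = γ * (γ⁻¹ * γ' * γ) ^ M := by
    have h1 : (γ⁻¹ * γ' * γ⁻¹⁻¹) ^ M = γ⁻¹ * γ' ^ M * γ⁻¹⁻¹ := conj_pow
    rw [inv_inv] at h1
    rw [h1]
    group
  have e : Sup.act (γ' ^ M) (Sup.act γ c) - Sup.act γ c =
      Sup.act γ (Sup.act ((γ⁻¹ * γ' * γ) ^ M) c - c) := by
    rw [← act_mul, e1, act_mul, act_sub]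
  rw [e]
  exact h.act γ

end Pool.Agent.Lib.MP_89bcae_ag.Sup

end

section

/-!
ROW G08 (150-250 lines). The group of classes is torsion-free and separated.

PROOFS. Write `∂A (σ) = σ A - A`. (i) `c` a Tate cocycle, `c - Z c` trivial: `(c - Zc)_n = ∂ A_n`, `ℓ^n A_n = 0`.
Then `c_n = ℓ c_{n+1} = v π c_{n+1} = ∂ (v A_{n+1})` (`vJ_sub_zJ`). `B = v A_{n+1}`: `ℓ^n B` is killed by
`π` (`π v = ℓ`) and `∂ (ℓ^n B) = ℓ^n c_n = 0`, so it is fixed by `Gal`, so `ℓ^n B = 0`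
(`eq_zero_of_fixed_ram`).
(ii) `m c` trivial, `m > 0`: write `m = ℓ^s m'`. If `m = ℓ`: `ℓ c_{n+1} = c_n = ∂ A`, with
`A = A_{n+1}`, `ℓ^(n+1) A = 0`, and `ℓ^n c_n = 0` gives `ℓ^n A` fixed, so `ℓ^n A = 0` by
`eq_zero_of_fixed`. If `m` is prime to `ℓ`: `c_n = m'' m c_n` with `m'' m ≡ 1` modulo `ℓ^n`. Induction on
`s`.
(iii) separated: suppose that for every `n` there is a Tate cocycle `y` with `c - π^n y` trivial. For
given level `N` take `n = (ℓ-1) N`: `π^(ℓ-1) = ℓ (-1 + π w)` (A01; as operators on the Jacobian), so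
`π^n y` at level `N` is `ℓ^N (...) y_N = 0` (`ℓ^N y_N = 0`). So `c_N` is the coboundary of `A_N`.
(iv) `IsFixedBy` gives triviality of `act γ c - c`: by (ii) and the definitions (with
`h = conjG γ g`).
-/

open Polynomial IsDedekindDomain

open scoped Classical

namespace Pool.Agent.Lib.MP_89bcae_ag.Sup

universe u

variable {k F L Ω : Type u} [Field k] [Field F] [Algebra k F] [Field L] [Algebra F[X] L]
  [Field Ω] [Algebra L Ω] [IsAlgClosure k F] [IsFractionRing F[X] L] [IsAlgClosure L Ω]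
  {ℓ : ℕ} {g D : k[X]} [hG : IsGood ℓ (cOver k F L Ω g D)] {ζ : k}

private lemma g08_smul_coc {c : Coch ℓ k F L Ω g D}
    (hc : IsTateCocycle ℓ (curvePoly k F L g D) c) (m : ℕ) :
    IsTateCocycle ℓ (curvePoly k F L g D) (m • c : Coch ℓ k F L Ω g D) := by
  induction m with
  | zero =>
    rw [zero_nsmul]
    exact IsTateCocycle.zero'
  | succ m ih =>
    rw [succ_nsmul]
    exact ih.add hc

omit [IsAlgClosure k F] [IsFractionRing F[X] L] [IsAlgClosure L Ω] hG in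
private lemma g08_pow_smul_add {c : Coch ℓ k F L Ω g D}
    (hc : IsTateCocycle ℓ (curvePoly k F L g D) c) (t j : ℕ) (σ : Ω ≃ₐ[L] Ω) :
    ℓ ^ t • c (j + t) σ = c j σ := by
  induction t with
  | zero => rw [pow_zero, one_nsmul, add_zero]
  | succ t ih => rw [pow_succ, mul_nsmul', ← add_assoc, hc.smul, ih]

omit [IsAlgClosure k F] [IsFractionRing F[X] L] [IsAlgClosure L Ω] in
private lemma g08_iterate (ζ : k) (hζ : (zA F L Ω ζ) ^ ℓ = 1) (y : Coch ℓ k F L Ω g D) (N : ℕ)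
    (σ : Ω ≃ₐ[L] Ω) (m : ℕ) :
    ((fun x : Coch ℓ k F L Ω g D => x - Sup.zC ζ hζ x)^[m] y) N σ =
      (fun x => x - zJ (zA F L Ω ζ) hζ x)^[m] (y N σ) := by
  induction m with
  | zero => rfl
  | succ m ih =>
    rw [Function.iterate_succ_apply', Function.iterate_succ_apply', ← ih]
    rfl

/-- (i) -/
theorem TTc.of_sub_zC (H : GlobHyp ℓ g D ζ) (hζ : (zA F L Ω ζ) ^ ℓ = 1)
    {c : Coch ℓ k F L Ω g D} (hc : IsTateCocycle ℓ (curvePoly k F L g D) c)
    (h : TTc (c - Sup.zC ζ hζ c)) : TTc c := by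
  refine ⟨hc, fun n => ?_⟩
  obtain ⟨A, hA, hA2⟩ := h.2 (n + 1)
  have hz : IsPrimitiveRoot (zA F L Ω ζ) ℓ := zA_primitive H
  have hv : vJ (zA F L Ω ζ) hζ A - zJ (zA F L Ω ζ) hζ (vJ (zA F L Ω ζ) hζ A) = ℓ • A :=
    vJ_sub_zJ _ hz A
  have key : ∀ σ : Ω ≃ₐ[L] Ω, c n σ = symJ (toSym g D (galA k F σ)) (vJ (zA F L Ω ζ) hζ A) -
      vJ (zA F L Ω ζ) hζ A := by
    intro σ
    have h1 : c (n + 1) σ - zJ (zA F L Ω ζ) hζ (c (n + 1) σ) =
        symJ (toSym g D (galA k F σ)) A - A := by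
      have h2 := hA2 σ
      rw [push_eq] at h2
      exact h2
    have h3 : vJ (zA F L Ω ζ) hζ (c (n + 1) σ) -
        zJ (zA F L Ω ζ) hζ (vJ (zA F L Ω ζ) hζ (c (n + 1) σ)) = ℓ • c (n + 1) σ :=
      vJ_sub_zJ _ hz _
    rw [← vJ_symJ (zA F L Ω ζ) hζ _ (zA_fixed ζ (galA k F σ)), ← vJ_sub, ← h1, vJ_sub, vJ_zJ, h3,
      hc.smul]
  refine ⟨vJ (zA F L Ω ζ) hζ A, ?_, fun σ => ?_⟩
  · refine eq_zero_of_fixed_ram H hζ _ ?_ ?_
    · have h4 : ℓ ^ n • (vJ (zA F L Ω ζ) hζ A - zJ (zA F L Ω ζ) hζ (vJ (zA F L Ω ζ) hζ A)) =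
          ℓ ^ n • ℓ • A := by rw [hv]
      rw [← mul_nsmul', ← pow_succ, hA, nsmul_sub, sub_eq_zero] at h4
      rw [map_nsmul, ← h4]
    · intro σ
      have h5 := hc.pow_smul n σ
      rw [key σ, nsmul_sub, sub_eq_zero] at h5
      rw [map_nsmul, h5]
  · rw [push_eq]
    exact key σ

/-- (ii) -/
theorem TTc.of_smul (H : GlobHyp ℓ g D ζ) {c : Coch ℓ k F L Ω g D}
    (hc : IsTateCocycle ℓ (curvePoly k F L g D) c) {m : ℕ} (hm : 0 < m) (h : TTc (m • c)) :
    TTc c := by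
  refine ⟨hc, fun n => ?_⟩
  obtain ⟨s, m', hm', hmm⟩ := Nat.exists_eq_pow_mul_and_not_dvd hm.ne' ℓ H.prime.ne_one
  obtain ⟨A, hA, hA2⟩ := h.2 (n + s)
  have hcop : IsCoprime (m' : ℤ) ((ℓ ^ n : ℕ) : ℤ) := by
    rw [Nat.isCoprime_iff_coprime]
    exact Nat.Coprime.pow_right n ((Nat.Prime.coprime_iff_not_dvd H.prime).2 hm').symm
  obtain ⟨a, b, hab⟩ := hcop
  have h1 : ∀ σ : Ω ≃ₐ[L] Ω, m' • c n σ = symJ (toSym g D (galA k F σ)) A - A := by
    intro σ
    have h2 := hA2 σ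
    rw [push_eq] at h2
    have h3 : (m • c) (n + s) σ = m' • c n σ := by
      change m • (c (n + s) σ) = m' • c n σ
      rw [hmm, mul_comm, mul_nsmul', g08_pow_smul_add hc]
    rw [← h3]
    exact h2
  have key : ∀ σ : Ω ≃ₐ[L] Ω, c n σ = symJ (toSym g D (galA k F σ)) (a • A) - a • A := by
    intro σ
    have h4 : (a * (m' : ℤ) + b * ((ℓ ^ n : ℕ) : ℤ)) • c n σ = c n σ := by
      rw [hab, one_zsmul]
    rw [add_zsmul, mul_zsmul, mul_zsmul, natCast_zsmul, natCast_zsmul, hc.pow_smul, zsmul_zero,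
      add_zero, h1 σ] at h4
    rw [← h4, zsmul_sub, map_zsmul]
  refine ⟨a • A, ?_, fun σ => ?_⟩
  · refine eq_zero_of_fixed H (n + s) _ ?_ ?_
    · rw [smul_comm, smul_comm (ℓ ^ (n + s)) a A, hA, zsmul_zero, nsmul_zero]
    · intro σ
      have h5 := hc.pow_smul n σ
      rw [key σ, nsmul_sub, sub_eq_zero] at h5
      rw [map_nsmul, h5]
  · rw [push_eq]
    exact key σ

/-- (iii) -/
theorem TTc.of_separated (H : GlobHyp ℓ g D ζ) (hζ : (zA F L Ω ζ) ^ ℓ = 1)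
    {c : Coch ℓ k F L Ω g D} (hc : IsTateCocycle ℓ (curvePoly k F L g D) c)
    (h : ∀ n : ℕ, ∃ y : Coch ℓ k F L Ω g D, IsTateCocycle ℓ (curvePoly k F L g D) y ∧
      TTc (c - (fun x => x - Sup.zC ζ hζ x)^[n] y)) : TTc c := by
  refine ⟨hc, fun N => ?_⟩
  obtain ⟨y, hy, h1⟩ := h ((ℓ - 1) * N)
  obtain ⟨A, hA, hA2⟩ := h1.2 N
  have hz : IsPrimitiveRoot (zA F L Ω ζ) ℓ := zA_primitive H
  refine ⟨A, hA, fun σ => ?_⟩
  rw [← hA2 σ]
  have h2 : ((fun x : Coch ℓ k F L Ω g D => x - Sup.zC ζ hζ x)^[(ℓ - 1) * N] y) N σ = 0 := by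
    rw [g08_iterate]
    exact iterate_eq_zero_of_smul _ hz N _ (hy.pow_smul N σ)
  change c N σ = c N σ - ((fun x : Coch ℓ k F L Ω g D => x - Sup.zC ζ hζ x)^[(ℓ - 1) * N] y) N σ
  rw [h2, sub_zero]

/-- (iv) -/
theorem TTc.of_isFixedBy (H : GlobHyp ℓ g D ζ) {c : Coch ℓ k F L Ω g D}
    (hc : IsTateCocycle ℓ (curvePoly k F L g D) c) (γ : AutO k F L Ω)
    (h : IsFixedBy ℓ (curvePoly k F L g D) c (γ : Ω ≃+* Ω) (toSym g D γ).2) :
    TTc (Sup.act γ c - c) := by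
  obtain ⟨m, hm, h1⟩ := h
  have hcoc : IsTateCocycle ℓ (curvePoly k F L g D) (Sup.act γ c - c) := by
    rw [sub_eq_add_neg]
    exact (hc.act γ).add hc.neg
  refine TTc.of_smul H hcoc hm ⟨g08_smul_coc hcoc m, fun n => ?_⟩
  obtain ⟨A, hA, hA2⟩ := h1 n
  refine ⟨A, hA, fun σ => ?_⟩
  refine hA2 (conjG γ⁻¹ σ) σ fun x => ?_
  have h2 := conjG_spec γ⁻¹ σ ((γ : Ω ≃+* Ω) x)
  have h3 : ((γ⁻¹ : AutO k F L Ω) : Ω ≃+* Ω) ((γ : Ω ≃+* Ω) x) = x :=
    (γ : Ω ≃+* Ω).symm_apply_apply x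
  rw [h3] at h2
  rw [h2]
  exact (γ : Ω ≃+* Ω).apply_symm_apply _

end Pool.Agent.Lib.MP_89bcae_ag.Sup

end

section

/-!
ROW G14 (120-220 lines). A class with exponents divisible by `ℓ` is divisible by `π`.

PROOF. By `HasExp.congr` we may assume `e = 0`. Then `(z θ)^ℓ = 1`, `z θ = ζ^{m₀(θ)}` on the roots, and
`σ (z θ) = z θ = ζ^{m₀(θ) - m₀(σθ)} z(σθ)`, so `v (c 1 σ) = ram (m₀ ∘ σ⁻¹ - m₀) = σ B - B`, `B = ram m₀`,
`Z B = B` (`zJ_ram`, `symJ_ram`, `ram_sub`). Choose `Q_0 = B`, `ℓ Q_{n+1} = Q_n` (`exists_smul_eq`). Let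
`y_n(σ) = v (c_{n+1} σ) - (σ Q_n - Q_n)`. Tate cocycle: `y_0 = v c_1 - ∂B = 0`,
`ℓ y_{n+1} = v c_{n+1} - ∂ Q_n = y_n`; cocycle relation clear; locally constant
(`isLocallyConstant_symJ`). Locally trivial: `LTc.shift`, `LTc.of_coboundary`, `v` is a sum of powers of
`Z` (`LTc.add`, `LTc.zC`). `π y_n = ℓ c_{n+1} - ∂ (π Q_n) = c_n - ∂(π Q_n)`, where
`ℓ^n π Q_n = π B = 0`: so `c - (y - Z y)` is trivial. Invariance: for `γ` take `M` with
`act (γ^M) c - c` trivial; with `x = act (γ^M) y - y`: `x - Z x = act (γ^M) (y - Zy) - (y - Zy)` is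
trivial, since `y - Zy - c` and its image are, so `x` is trivial by `TTc.of_sub_zC` (G08).
-/

open Polynomial IsDedekindDomain

open scoped Classical

set_option linter.unusedSectionVars false

namespace Pool.Agent.Lib.MP_89bcae_ag.Sup

universe u

variable {k F L Ω : Type u} [Field k] [Field F] [Algebra k F] [Field L] [Algebra F[X] L]
  [Field Ω] [Algebra L Ω] [IsAlgClosure k F] [IsFractionRing F[X] L] [IsAlgClosure L Ω]
  [Algebra F Ω] {ℓ : ℕ} {g D : k[X]} [hG : IsGood ℓ (cOver k F L Ω g D)] {ζ : k}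
  {hζ : (zA F L Ω ζ) ^ ℓ = 1}

private lemma G14_iter (ζ : k) (hζ : (zA F L Ω ζ) ^ ℓ = 1) (c : Coch ℓ k F L Ω g D) (i n : ℕ)
    (σ : Ω ≃ₐ[L] Ω) :
    ((Sup.zC ζ hζ)^[i] c) n σ = (zJ (zA F L Ω ζ) hζ)^[i] (c n σ) := by
  induction i with
  | zero => rfl
  | succ i ih =>
    rw [Function.iterate_succ_apply', Function.iterate_succ_apply', ← ih]
    rfl

private lemma G14_lt_sum {c : ℕ → Coch ℓ k F L Ω g D} (s : Finset ℕ)
    (h : ∀ i ∈ s, LTc (c i)) : LTc (∑ i ∈ s, c i) := by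
  induction s using Finset.induction_on with
  | empty =>
    rw [Finset.sum_empty]
    exact (TTc.zero : TTc (0 : Coch ℓ k F L Ω g D)).lt
  | insert a s ha ih =>
    rw [Finset.sum_insert ha]
    exact (h a (Finset.mem_insert_self a s)).add
      (ih fun i hi => h i (Finset.mem_insert_of_mem hi))

private lemma G14_lt_iter (H : GlobHyp ℓ g D ζ) (hζ : (zA F L Ω ζ) ^ ℓ = 1)
    {c : Coch ℓ k F L Ω g D} (hc : LTc c) (i : ℕ) : LTc ((Sup.zC ζ hζ)^[i] c) := by
  induction i with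
  | zero => exact hc
  | succ i ih =>
    rw [Function.iterate_succ_apply']
    exact ih.zC H hζ

private lemma G14_lt_v (H : GlobHyp ℓ g D ζ) (hζ : (zA F L Ω ζ) ^ ℓ = 1)
    {c : Coch ℓ k F L Ω g D} (hc : LTc c) :
    LTc (fun n σ => vJ (zA F L Ω ζ) hζ (c n σ) : Coch ℓ k F L Ω g D) := by
  have h1 : (fun n σ => vJ (zA F L Ω ζ) hζ (c n σ) : Coch ℓ k F L Ω g D) =
      ∑ j ∈ Finset.range ℓ, ∑ i ∈ Finset.range j, (Sup.zC ζ hζ)^[i] c := by
    funext n σ
    rw [Finset.sum_apply, Finset.sum_apply]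
    unfold vJ
    apply Finset.sum_congr rfl
    intro j _
    rw [Finset.sum_apply, Finset.sum_apply]
    apply Finset.sum_congr rfl
    intro i _
    rw [G14_iter]
  rw [h1]
  exact G14_lt_sum _ fun j _ => G14_lt_sum _ fun i _ => G14_lt_iter H hζ hc i

private lemma G14_rts_map (hne : cOver k F L Ω g D ≠ 0) {θ : Ω} (σ : Ω ≃ₐ[L] Ω)
    (hθ : θ ∈ rts (cOver k F L Ω g D)) : σ θ ∈ rts (cOver k F L Ω g D) := by
  rw [mem_rts hne] at hθ ⊢
  have h1 : (cOver k F L Ω g D).map (((toSym g D (galA k F σ) :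
      Sym (cOver k F L Ω g D)) : Ω ≃+* Ω) : Ω →+* Ω) = cOver k F L Ω g D :=
    (toSym g D (galA k F σ)).2
  have h2 := Polynomial.eval₂_at_apply (p := cOver k F L Ω g D)
    (((toSym g D (galA k F σ) : Sym (cOver k F L Ω g D)) : Ω ≃+* Ω) : Ω →+* Ω) θ
  rw [← Polynomial.eval_map, h1, hθ, map_zero] at h2
  exact h2

theorem exists_division (hF : CompatF F L Ω) (H : GlobHyp ℓ g D ζ) {c : Coch ℓ k F L Ω g D}
    (hc : WWc c) {e : F → ℤ} (h : HasExp hζ c e) (he : ∀ β ∈ RR F g D, (ℓ : ℤ) ∣ e β) :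
    ∃ y : Coch ℓ k F L Ω g D, WWc y ∧ TTc (c - (y - Sup.zC ζ hζ y)) := by
  have Hζ : IsPrimitiveRoot (zA F L Ω ζ) ℓ := zA_primitive H
  have hz0 : zA F L Ω ζ ≠ 0 := Hζ.ne_zero H.prime.ne_zero
  have : NeZero ℓ := ⟨H.prime.ne_zero⟩
  have h' : HasExp hζ c (fun _ => 0) := h.congr hF H (by
    intro β hβ
    rw [zero_sub, dvd_neg]
    exact he β hβ)
  obtain ⟨z, hz, hzσ⟩ := h'.ex
  have hroot : ∀ θ : Ω, ∃ m : ℤ, θ ∈ rts (cOver k F L Ω g D) → z θ = zA F L Ω ζ ^ m := by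
    intro θ
    by_cases hθ : θ ∈ rts (cOver k F L Ω g D)
    · have h1 := hz θ hθ
      simp only [zpow_zero, Finset.prod_const_one] at h1
      obtain ⟨i, _, hi⟩ := Hζ.eq_pow_of_pow_eq_one h1
      exact ⟨i, fun _ => by rw [zpow_natCast, hi]⟩
    · exact ⟨0, fun h => absurd h hθ⟩
  choose m₀ hm₀ using hroot
  set B : JacOver ℓ (curvePoly k F L g D) Ω := (ram m₀ : Jac ℓ (cOver k F L Ω g D)) with hB
  have hfix : ∀ σ : Ω ≃ₐ[L] Ω, σ (zA F L Ω ζ) = zA F L Ω ζ := fun σ => zA_fixed ζ (galA k F σ)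
  have hfix' : ∀ σ : Ω ≃ₐ[L] Ω, ((toSym g D (galA k F σ) : Sym (cOver k F L Ω g D)) : Ω ≃+* Ω)
      (zA F L Ω ζ) = zA F L Ω ζ := fun σ => hfix σ
  -- the first level
  have hv1 : ∀ σ : Ω ≃ₐ[L] Ω, vJ (zA F L Ω ζ) hζ (c 1 σ) =
      symJ (toSym g D (galA k F σ)) B - B := by
    intro σ
    have h1 := hzσ σ (fun η => m₀ (σ.symm η) - m₀ η) (by
      intro θ hθ
      rw [hm₀ θ hθ, hm₀ (σ θ) (G14_rts_map hG.separable.ne_zero σ hθ), map_zpow₀, hfix σ, ← zpow_add₀ hz0]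
      congr 1
      rw [AlgEquiv.symm_apply_apply]
      ring)
    rw [h1, ram_sub, hB, symJ_ram]
    rfl
  -- the divisions of B
  choose dv hdv using fun Q : JacOver ℓ (curvePoly k F L g D) Ω =>
    exists_smul_eq (zA F L Ω ζ) Hζ Q
  set Q : ℕ → JacOver ℓ (curvePoly k F L g D) Ω := fun n => dv^[n] B with hQ
  have hQ0 : Q 0 = B := rfl
  have hQs : ∀ n, ℓ • Q (n + 1) = Q n := by
    intro n
    simp only [hQ]
    rw [Function.iterate_succ_apply']
    exact hdv _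
  set y : Coch ℓ k F L Ω g D := fun n σ => vJ (zA F L Ω ζ) hζ (c (n + 1) σ) -
    (symJ (toSym g D (galA k F σ)) (Q n) - Q n) with hy
  have hyTC : IsTateCocycle ℓ (curvePoly k F L g D) y := by
    refine ⟨?_, ?_, ?_, ?_⟩
    · intro σ
      simp only [hy]
      rw [Nat.zero_add, hv1 σ, hQ0, sub_self]
    · intro n σ
      simp only [hy]
      rw [smul_sub, smul_sub, ← vJ_smul, hc.1.smul, ← map_nsmul, hQs]
    · intro n σ τ
      simp only [hy]
      rw [hc.1.cocycle, vJ_add, push_eq, push_eq, vJ_symJ _ _ _ (hfix' σ), map_mul, map_mul,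
        symJ_mul, map_sub, map_sub]
      abel
    · intro n
      have h1 : IsLocallyConstant fun σ : Ω ≃ₐ[L] Ω => vJ (zA F L Ω ζ) hζ (c (n + 1) σ) :=
        (hc.1.locallyConstant (n + 1)).comp (fun Q => vJ (zA F L Ω ζ) hζ Q)
      have h2 := isLocallyConstant_symJ (g := g) (D := D) (k := k) (F := F) (L := L) (Ω := Ω) (Q n)
      have h3 : IsLocallyConstant fun σ : Ω ≃ₐ[L] Ω =>
          symJ (toSym g D (galA k F σ)) (Q n) - Q n := h2.sub (IsLocallyConstant.const (Q n))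
      exact h1.sub h3
  have hyLT : LTc y := by
    have h1 : LTc (fun n σ => vJ (zA F L Ω ζ) hζ ((fun n => c (n + 1)) n σ) :
        Coch ℓ k F L Ω g D) := G14_lt_v H hζ (hc.2.1.shift fun n => n + 1)
    have h2 : LTc (fun n σ => symJ (toSym g D (galA k F σ)) (Q n) - Q n :
        Coch ℓ k F L Ω g D) := LTc.of_coboundary fun n => ⟨Q n, fun σ => rfl⟩
    have h3 := h1.add h2.neg
    have h4 : y = (fun n σ => vJ (zA F L Ω ζ) hζ ((fun n => c (n + 1)) n σ) :
        Coch ℓ k F L Ω g D) + -(fun n σ => symJ (toSym g D (galA k F σ)) (Q n) - Q n :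
        Coch ℓ k F L Ω g D) := by
      funext n σ
      simp only [hy, Pi.add_apply, Pi.neg_apply]
      abel
    rw [h4]
    exact h3
  have hyZ : IsTateCocycle ℓ (curvePoly k F L g D) (c - (y - Sup.zC ζ hζ y)) := by
    have h1 : c - (y - Sup.zC ζ hζ y) = c + -(y + -(Sup.zC ζ hζ y)) := by abel
    rw [h1]
    exact hc.1.add (hyTC.add (hyTC.zC ζ hζ).neg).neg
  have hQn : ∀ n, ℓ ^ n • Q n = B := by
    intro n
    induction n with
    | zero => rw [pow_zero, one_smul, hQ0]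
    | succ n ih =>
      rw [pow_succ, mul_smul, hQs, ih]
  have hT : TTc (c - (y - Sup.zC ζ hζ y)) := by
    refine ⟨hyZ, ?_⟩
    intro n
    refine ⟨Q n - zJ (zA F L Ω ζ) hζ (Q n), ?_, ?_⟩
    · rw [smul_sub, ← map_nsmul, hQn, hB, zJ_ram, sub_self]
    · intro σ
      rw [push_eq, map_sub, ← zJ_symJ _ _ _ (hfix' σ)]
      have h1 : (c - (y - Sup.zC ζ hζ y)) n σ =
          c n σ - (y n σ - zJ (zA F L Ω ζ) hζ (y n σ)) := rfl
      rw [h1]
      simp only [hy]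
      rw [map_sub, map_sub]
      have h2 := vJ_sub_zJ (zA F L Ω ζ) Hζ (c (n + 1) σ)
      rw [hc.1.smul] at h2
      rw [← h2]
      abel
  refine ⟨y, ⟨hyTC, hyLT, ?_⟩, hT⟩
  intro γ
  obtain ⟨M, hM, hMT⟩ := hc.2.2 γ
  refine ⟨M, hM, ?_⟩
  have hx : IsTateCocycle ℓ (curvePoly k F L g D) (Sup.act (γ ^ M) y - y) := by
    have h1 : Sup.act (γ ^ M) y - y = Sup.act (γ ^ M) y + -y := by abel
    rw [h1]
    exact (hyTC.act (γ ^ M)).add hyTC.neg
  apply TTc.of_sub_zC H hζ hx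
  have h1 : Sup.act (γ ^ M) y - y - Sup.zC ζ hζ (Sup.act (γ ^ M) y - y) =
      (Sup.act (γ ^ M) c - c) - (Sup.act (γ ^ M) (c - (y - Sup.zC ζ hζ y)) -
        (c - (y - Sup.zC ζ hζ y))) := by
    rw [act_sub, act_sub, act_zC, map_sub]
    abel
  rw [h1]
  exact hMT.sub ((hT.act (γ ^ M)).sub hT)

end Pool.Agent.Lib.MP_89bcae_ag.Sup

end

section

/-!
ROW G16 (120-220 lines). The global relation between `c`, `γ c` and `y`, where `π y = γ c - c` up to a
trivial cocycle.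

Notation: `C₁(σ) = v (c 1 σ)`, `C₂(σ) = v (v (c 2 σ))`, `Y₁(σ) = v (y 1 σ)`; `π C₂ = ℓ v (c 2 σ) = C₁`,
`π (v v (y 2 σ)) = Y₁(σ)` (`vJ_sub_zJ`, `vJ_smul`, `IsTateCocycle.smul`).
STATEMENT: if `act γ c - c - (y - Z y)` is trivial, `HasExp c e`, and `γ` fixes `RR` pointwise, then there
are `A` in the Jacobian and `q`, with `(z θ)^ℓ = E_e(θ)`, `γ (z (γ⁻¹θ)) = ζ^{q θ} z θ`,
`A - Z A = ram (-q)` and for all `σ`: `Y₁(σ) = γ C₂(γ⁻¹σγ) - C₂(σ) + σ A - A`.

PROOF. At level `2` the trivial cocycle is `σ A₂ - A₂`, `ℓ² A₂ = 0`. Apply `v v`: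
`γ C₂(γ⁻¹σγ) - C₂(σ) - Y₁(σ) = σ B - B`, `B = v v A₂`; put `A = -B`. Let `z` be as in `HasExp`;
`γ (z (γ⁻¹ θ))` and `z θ` have the same `ℓ`-th power, which defines `q`. Apply `1 - Z` to the relation:
`(1 - Z) Y₁ = ℓ y_1 = y_0 = 0`, so `0 = γ C₁(γ⁻¹σγ) - C₁(σ) + σ A' - A'`, `A' = A - ZA`. By the computation
in `HasExp.act` (G12): `γ C₁(γ⁻¹σγ) = ram n'`, `C₁(σ) = ram n` with
`σ (z' θ) = ζ^{n'(σθ)} z'(σθ)`, `z' θ = γ (z (γ⁻¹θ)) = ζ^{q θ} z θ`; so `n' ≡ n + q ∘ σ⁻¹ - q` and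
`γ C₁ - C₁ = σ (ram q) - ram q` (`symJ_ram`). So `A' + ram q` is fixed by `Gal(Ω/L)`; it is killed by `ℓ^2`
(`ℓ² A₂ = 0`), hence `0` (`eq_zero_of_fixed`). (`Z`, `v` commute with `symJ` of elements of `AutO`
because they fix `ζ`: `zA_fixed`.)
-/

open Polynomial IsDedekindDomain

open scoped Classical

namespace Pool.Agent.Lib.MP_89bcae_ag.Sup

universe u

variable {k F L Ω : Type u} [Field k] [Field F] [Algebra k F] [Field L] [Algebra F[X] L]
  [Field Ω] [Algebra L Ω] [IsAlgClosure k F] [IsFractionRing F[X] L] [IsAlgClosure L Ω]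
  [Algebra F Ω] {ℓ : ℕ} {g D : k[X]} [hG : IsGood ℓ (cOver k F L Ω g D)] {ζ : k}
  {hζ : (zA F L Ω ζ) ^ ℓ = 1}

private lemma g16_root {E : Type u} [Field E] {f : E[X]} (hf : f ≠ 0) (w : Sym f) {θ : E}
    (hθ : θ ∈ rts f) : (w : E ≃+* E) θ ∈ rts f := by
  rw [mem_rts hf] at hθ ⊢
  have h1 : f.map ((w : E ≃+* E) : E →+* E) = f := w.2
  have h2 : (f.map ((w : E ≃+* E) : E →+* E)).eval (((w : E ≃+* E) : E →+* E) θ) = 0 := by
    rw [Polynomial.eval_map, Polynomial.eval₂_hom, hθ, map_zero]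
  rw [h1] at h2
  exact h2

private lemma g16_exists_zpow {E : Type u} [Field E] {ξ a b : E} {ℓ : ℕ} (hℓ : ℓ ≠ 0)
    (hξ : IsPrimitiveRoot ξ ℓ) (h : a ^ ℓ = b ^ ℓ) : ∃ n : ℤ, a = ξ ^ n * b := by
  by_cases hb : b = 0
  · rw [hb, zero_pow hℓ, pow_eq_zero_iff hℓ] at h
    exact ⟨0, by rw [h, hb, mul_zero]⟩
  · have : NeZero ℓ := ⟨hℓ⟩
    have h1 : (a / b) ^ ℓ = 1 := by
      rw [div_pow, h, div_self (pow_ne_zero _ hb)]
    obtain ⟨i, _, hi⟩ := hξ.eq_pow_of_pow_eq_one h1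
    exact ⟨i, by rw [zpow_natCast, hi, div_mul_cancel₀ _ hb]⟩

private lemma g16_alg {A : Type*} [AddCommGroup A] {a b c d R r t p q' m v : A}
    (h3 : 0 = a - c + (p - q') - (b - d + (m - v))) (h7 : a - b = R)
    (h5 : c - d = R + r - t) : p - m + t - (q' - v + r) = 0 := by
  have h : p - m + t - (q' - v + r) = (a - c + (p - q') - (b - d + (m - v))) - (a - b - R) +
      (c - d - (R + r - t)) := by abel
  rw [h, ← h3, h7, h5]
  abel

private lemma g16_ram_neg {ℓ : ℕ} {E : Type u} [Field E] {f : E[X]} [IsGood ℓ f] (e : E → ℤ) :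
    (ram fun θ => -e θ : Jac ℓ f) = -ram e := by
  have h1 := ram_add (ℓ := ℓ) (f := f) (fun θ => -e θ) e
  have h2 := ram_sub (ℓ := ℓ) (f := f) e e
  have h3 : (fun θ => -e θ + e θ) = fun θ => e θ - e θ := by
    funext θ
    ring
  rw [h3, h2, sub_self] at h1
  exact eq_neg_of_add_eq_zero_left h1.symm

lemma vJ_level_two {c : Coch ℓ k F L Ω g D} (H : GlobHyp ℓ g D ζ)
    (hc : IsTateCocycle ℓ (curvePoly k F L g D) c) (σ : Ω ≃ₐ[L] Ω) :
    vJ (zA F L Ω ζ) hζ (vJ (zA F L Ω ζ) hζ (c 2 σ)) -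
      zJ (zA F L Ω ζ) hζ (vJ (zA F L Ω ζ) hζ (vJ (zA F L Ω ζ) hζ (c 2 σ))) =
        vJ (zA F L Ω ζ) hζ (c 1 σ) := by
  have h1 := vJ_sub_zJ (f := cOver k F L Ω g D) (zA F L Ω ζ) (zA_primitive (A := Ω) H)
    (vJ (zA F L Ω ζ) hζ (c 2 σ))
  rw [h1, ← vJ_smul]
  congr 1
  exact hc.smul 1 σ

theorem exists_relation (hF : CompatF F L Ω) (H : GlobHyp ℓ g D ζ) {c y : Coch ℓ k F L Ω g D}
    (hc : IsTateCocycle ℓ (curvePoly k F L g D) c)
    (hy : IsTateCocycle ℓ (curvePoly k F L g D) y) {e : F → ℤ} (h : HasExp hζ c e)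
    (γ : AutO k F L Ω) (hγ : ∀ β ∈ RR F g D, resF γ β = β)
    (hrel : TTc (act γ c - c - (y - Sup.zC ζ hζ y))) :
    ∃ (A : JacOver ℓ (curvePoly k F L g D) Ω) (z : Ω → Ω) (q : Ω → ℤ),
      (∀ θ ∈ rts (cOver k F L Ω g D),
        z θ ^ ℓ = ∏ β ∈ RR F g D, (θ - algebraMap F Ω β) ^ e β) ∧
      (∀ θ ∈ rts (cOver k F L Ω g D), (γ : Ω ≃+* Ω) (z θ) =
        zA F L Ω ζ ^ q ((γ : Ω ≃+* Ω) θ) * z ((γ : Ω ≃+* Ω) θ)) ∧
      A - zJ (zA F L Ω ζ) hζ A = ram (fun θ => -q θ) ∧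
      ∀ σ : Ω ≃ₐ[L] Ω, vJ (zA F L Ω ζ) hζ (y 1 σ) =
        symJ (toSym g D γ) (vJ (zA F L Ω ζ) hζ (vJ (zA F L Ω ζ) hζ (c 2 (conjG γ⁻¹ σ)))) -
          vJ (zA F L Ω ζ) hζ (vJ (zA F L Ω ζ) hζ (c 2 σ)) +
          (symJ (toSym g D (galA k F σ)) A - A) := by
  have hf0 : cOver k F L Ω g D ≠ 0 := hG.separable.ne_zero
  have hprim : IsPrimitiveRoot (zA F L Ω ζ) ℓ := zA_primitive (A := Ω) H
  have hγζ : ((toSym g D γ : Sym (cOver k F L Ω g D)) : Ω ≃+* Ω) (zA F L Ω ζ) = zA F L Ω ζ :=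
    zA_fixed ζ γ
  have hσζ : ∀ σ : Ω ≃ₐ[L] Ω, ((toSym g D (galA k F σ) : Sym (cOver k F L Ω g D)) : Ω ≃+* Ω)
      (zA F L Ω ζ) = zA F L Ω ζ := fun σ => zA_fixed ζ (galA k F σ)
  obtain ⟨A₂, hA₂, hA₂'⟩ := hrel.2 2
  obtain ⟨B, hB⟩ : ∃ B : Jac ℓ (cOver k F L Ω g D),
    B = vJ (zA F L Ω ζ) hζ (vJ (zA F L Ω ζ) hζ A₂) := ⟨_, rfl⟩
  -- the relation
  have hR : ∀ σ : Ω ≃ₐ[L] Ω, vJ (zA F L Ω ζ) hζ (y 1 σ) =
        symJ (toSym g D γ) (vJ (zA F L Ω ζ) hζ (vJ (zA F L Ω ζ) hζ (c 2 (conjG γ⁻¹ σ)))) -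
          vJ (zA F L Ω ζ) hζ (vJ (zA F L Ω ζ) hζ (c 2 σ)) +
          (symJ (toSym g D (galA k F σ)) (-B) - (-B)) := by
    intro σ
    have h1 : symJ (toSym g D γ) (c 2 (conjG γ⁻¹ σ)) - c 2 σ -
        (y 2 σ - zJ (zA F L Ω ζ) hζ (y 2 σ)) = symJ (toSym g D (galA k F σ)) A₂ - A₂ := by
      have h2 := hA₂' σ
      rw [push_eq] at h2
      exact h2
    have h2 := congrArg (fun Q => vJ (zA F L Ω ζ) hζ (vJ (zA F L Ω ζ) hζ Q)) h1
    simp only [vJ_sub, vJ_zJ, vJ_symJ _ _ _ hγζ, vJ_symJ _ _ _ (hσζ σ)] at h2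
    rw [vJ_level_two H hy σ, ← hB] at h2
    rw [map_neg, ← sub_eq_zero]
    rw [← sub_eq_zero] at h2
    rw [← neg_eq_zero, ← h2]
    abel
  obtain ⟨z, hz, hz2⟩ := h.ex
  -- the automorphism fixes the constants in `RR`
  have hγβ : ∀ β ∈ RR F g D, (γ : Ω ≃+* Ω) (algebraMap F Ω β) = algebraMap F Ω β := by
    intro β hβ
    rw [hF β, resF_spec, Polynomial.map_C, RingHom.coe_coe, hγ β hβ]
  have hγinv : ∀ x, (γ : Ω ≃+* Ω) (((γ⁻¹ : AutO k F L Ω) : Ω ≃+* Ω) x) = x := by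
    intro x
    have h1 : (γ : Ω ≃+* Ω) * ((γ⁻¹ : AutO k F L Ω) : Ω ≃+* Ω) = 1 := by
      rw [← Subgroup.coe_mul, mul_inv_cancel, Subgroup.coe_one]
    have h2 := congrArg (fun s : Ω ≃+* Ω => s x) h1
    exact h2
  have hγinv' : ∀ x, ((γ⁻¹ : AutO k F L Ω) : Ω ≃+* Ω) ((γ : Ω ≃+* Ω) x) = x := by
    intro x
    have h1 : ((γ⁻¹ : AutO k F L Ω) : Ω ≃+* Ω) * (γ : Ω ≃+* Ω) = 1 := by
      rw [← Subgroup.coe_mul, inv_mul_cancel, Subgroup.coe_one]
    have h2 := congrArg (fun s : Ω ≃+* Ω => s x) h1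
    exact h2
  have hroot : ∀ (γ' : AutO k F L Ω) (θ : Ω), θ ∈ rts (cOver k F L Ω g D) →
      (γ' : Ω ≃+* Ω) θ ∈ rts (cOver k F L Ω g D) := fun γ' θ hθ =>
    g16_root hf0 (toSym g D γ') hθ
  have hq : ∀ θ : Ω, ∃ n : ℤ, θ ∈ rts (cOver k F L Ω g D) →
      (γ : Ω ≃+* Ω) (z (((γ⁻¹ : AutO k F L Ω) : Ω ≃+* Ω) θ)) = zA F L Ω ζ ^ n * z θ := by
    intro θ
    by_cases hθ : θ ∈ rts (cOver k F L Ω g D)
    · have h1 : ((γ : Ω ≃+* Ω) (z (((γ⁻¹ : AutO k F L Ω) : Ω ≃+* Ω) θ))) ^ ℓ = z θ ^ ℓ := by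
        rw [hz θ hθ, ← map_pow, hz _ (hroot γ⁻¹ θ hθ), map_prod]
        refine Finset.prod_congr rfl fun β hβ => ?_
        rw [map_zpow₀, map_sub, hγinv, hγβ β hβ]
      obtain ⟨n, hn⟩ := g16_exists_zpow H.prime.ne_zero hprim h1
      exact ⟨n, fun _ => hn⟩
    · exact ⟨0, fun h => absurd h hθ⟩
  choose q hq using hq
  refine ⟨-B, z, q, hz, ?_, ?_, hR⟩
  · intro θ hθ
    have h1 := hq _ (hroot γ θ hθ)
    rw [hγinv'] at h1
    exact h1
  -- the class of `A`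
  set A' : Jac ℓ (cOver k F L Ω g D) := -B - zJ (zA F L Ω ζ) hζ (-B) with hA'
  have hkey : ∀ σ : Ω ≃ₐ[L] Ω, symJ (toSym g D (galA k F σ)) (A' + ram q) = A' + ram q := by
    intro σ
    set σ' : Ω ≃ₐ[L] Ω := conjG γ⁻¹ σ with hσ'
    have hcomm : ∀ x, σ ((γ : Ω ≃+* Ω) x) = (γ : Ω ≃+* Ω) (σ' x) := by
      intro x
      rw [← conjG_spec γ σ' x, hσ', ← MulAut.mul_apply, ← map_mul, mul_inv_cancel, map_one,
        MulAut.one_apply]
    have hcomm' : ∀ x, σ' (((γ⁻¹ : AutO k F L Ω) : Ω ≃+* Ω) x) =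
        ((γ⁻¹ : AutO k F L Ω) : Ω ≃+* Ω) (σ x) := by
      intro x
      rw [← hγinv' (σ' (((γ⁻¹ : AutO k F L Ω) : Ω ≃+* Ω) x)), ← hcomm, hγinv]
    obtain ⟨n', hn'⟩ := exists_n_of_pow hF H e hz σ'
    have hc1' := hz2 σ' n' hn'
    have hσinv : ∀ x, ((galA k F σ⁻¹ : AutO k F L Ω) : Ω ≃+* Ω) (σ x) = x := by
      intro x
      rw [galA_coe]
      exact σ.symm_apply_apply x
    have hc1 : vJ (zA F L Ω ζ) hζ (c 1 σ) = ram (fun θ =>
        n' (((γ⁻¹ : AutO k F L Ω) : Ω ≃+* Ω) θ) + q θ -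
          q (((galA k F σ⁻¹ : AutO k F L Ω) : Ω ≃+* Ω) θ)) := by
      refine hz2 σ _ ?_
      intro θ hθ
      have hz0 : zA F L Ω ζ ≠ 0 := hprim.ne_zero H.prime.ne_zero
      have hσζ' : σ (zA F L Ω ζ) = zA F L Ω ζ := hσζ σ
      have hγζ' : (γ : Ω ≃+* Ω) (zA F L Ω ζ) = zA F L Ω ζ := hγζ
      have h1 : σ ((γ : Ω ≃+* Ω) (z (((γ⁻¹ : AutO k F L Ω) : Ω ≃+* Ω) θ))) =
          zA F L Ω ζ ^ n' (((γ⁻¹ : AutO k F L Ω) : Ω ≃+* Ω) (σ θ)) *
            (zA F L Ω ζ ^ q (σ θ) * z (σ θ)) := by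
        rw [hcomm, hn' _ (hroot γ⁻¹ θ hθ), hcomm', map_mul, map_zpow₀, hγζ',
          hq (σ θ) (hroot (galA k F σ) θ hθ)]
      rw [hq θ hθ, map_mul, map_zpow₀, hσζ'] at h1
      rw [hσinv]
      have h2 : σ (z θ) = zA F L Ω ζ ^ (-q θ) * (zA F L Ω ζ ^ q θ * σ (z θ)) := by
        rw [← mul_assoc, ← zpow_add₀ hz0, neg_add_cancel, zpow_zero, one_mul]
      rw [h2, h1, ← mul_assoc, ← mul_assoc, ← zpow_add₀ hz0, ← zpow_add₀ hz0]
      congr 2
      ring
    -- apply `1 - Z` to the relation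
    have h3 := congrArg (fun Q => Q - zJ (zA F L Ω ζ) hζ Q) (hR σ)
    simp only [map_add, map_sub] at h3
    have h4 : vJ (zA F L Ω ζ) hζ (y 1 σ) - zJ (zA F L Ω ζ) hζ (vJ (zA F L Ω ζ) hζ (y 1 σ)) = 0 := by
      have h5 := vJ_sub_zJ (f := cOver k F L Ω g D) (zA F L Ω ζ) hprim (y 1 σ)
      rw [h5]
      exact (hy.smul 0 σ).trans (hy.zero σ)
    rw [h4] at h3
    have h5 := vJ_level_two (hζ := hζ) H hc σ
    have h6 := vJ_level_two (hζ := hζ) H hc σ'
    have h7 := congrArg (symJ (toSym g D γ)) h6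
    rw [map_sub, ← zJ_symJ _ _ _ hγζ, hc1', symJ_ram] at h7
    rw [hc1] at h5
    have h8 : (ram (fun θ => n' (((γ⁻¹ : AutO k F L Ω) : Ω ≃+* Ω) θ) + q θ -
          q (((galA k F σ⁻¹ : AutO k F L Ω) : Ω ≃+* Ω) θ)) : Jac ℓ (cOver k F L Ω g D)) =
        ram (fun θ => n' ((((toSym g D γ)⁻¹ : Sym (cOver k F L Ω g D)) : Ω ≃+* Ω) θ)) + ram q -
          symJ (toSym g D (galA k F σ)) (ram q) := by
      rw [symJ_ram, ← ram_add, ← ram_sub]
      congr 1
    rw [h8] at h5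
    rw [map_add, hA', map_sub, ← zJ_symJ _ _ _ (hσζ σ), ← sub_eq_zero]
    exact g16_alg h3 h7 h5
  have hBk : ℓ ^ 2 • (-B) = 0 := by
    rw [smul_neg, hB, ← vJ_smul, ← vJ_smul, hA₂, neg_eq_zero]
    have h1 : vJ (zA F L Ω ζ) hζ (0 : Jac ℓ (cOver k F L Ω g D)) = 0 := by
      have h2 := vJ_smul (f := cOver k F L Ω g D) (zA F L Ω ζ) hζ 0 0
      rwa [zero_smul, zero_smul] at h2
    rw [h1, h1]
  have hkill : ℓ ^ 2 • (A' + ram q) = 0 := by
    rw [smul_add, hA', smul_sub, ← map_nsmul, hBk, map_zero, sub_zero, zero_add, pow_two,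
      mul_smul, smul_ram, smul_zero]
  have hzero := eq_zero_of_fixed H 2 (A' + ram q) hkill hkey
  rw [g16_ram_neg]
  exact eq_neg_of_add_eq_zero_left hzero

end Pool.Agent.Lib.MP_89bcae_ag.Sup

end

section

/-!
ROW G17 (200-350 lines). THE FORMULA FOR `N_U`, up to a constant on each fibre.

STATEMENT. `c`, `y` Tate cocycles, `c` locally trivial, `HasExp c e`, `HasExp y e'`, `γ` in `Aut(Ω/k(t))` with
restriction `U` to `F` fixing `RR` pointwise, `act γ c - c - (y - Z y)` trivial. Let `D(a) = 0`. There is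
`cst` such that for all `β` with `g(β) = a` and all `x` in `F` with
`x^ℓ = (ε D'(a))^{e β} ∏_{β'∈RR, g(β') ≠ a} (β - β')^{-e β'}`: `U x = ζ^{e' β + cst} x`.

PROOF. `K = (plc a).adicCompletion L`, `M = AlgebraicClosure K` (`letI` the `F`-algebra structure through
`L`), `j₀ : Ω → M` over `L`, `v` from L10. `U a = a` since `a = g(β)` for some `β` in `RR` (`F` is
algebraically closed). `φ : K ≃ K` from `exists_adic_equiv` (Plc.lean; `U a = a`: generalize `U a`), `w` an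
extension of `φ` to `M` (`exists_extend_alg`, L12), `v (w x) = v x` (L10). `exists_compat` (L12) with
`j = j₀`, `ψ = coefL L U`: `γ'` with `j (γ' x) = w (j x)`; `γ'` is in `AutO` with `resF γ' = U`. By
`act_sub_act_of_resF_eq` (GDefs) we may replace `γ` by `γ'` in the hypothesis: so assume
`j (γ x) = w (j x)`. Take `A`, `z`, `q` from `exists_relation` (G16).
Let `f_M = cOver k F L M g D = locPoly ...` (`cOver_eq_locPoly`), `u ∈ Sym f_M` given by `w` (it fixes `D(t)`, `t`,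
the coefficients of `g`), `Γ = (galSym ..).range`, `LocGrp` by L11. `u τ u⁻¹ ∈ Γ` since `w K = K`.
Local triviality of `c 2`: `Q₂` with `j (c 2 τ') = τ Q₂ - Q₂`; `Q = v v Q₂`, so `j (C₂(τ')) = τ Q - Q`
(`vJ_jacMap`, `vJ_symJ`). `δ` an `ℓ`-th root of `D(t)` in `M`.
`hC`: for `τ δ = ζ^i δ`, `τ'` its restriction to `Ω` (`exists_restrict`): `(1 - Z)(τ Q - Q) = j (C₁(τ')) =
ram (i e(res θ))` by `vJ_level_two` and `HasExp.local_char` (G15).
`zM (j θ₀) = j (z θ₀)`, `qM (j θ₀) = q θ₀` (every root over `M` is `j θ₀`; `w` fixes every root `θ`: `w θ` is a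
root with residue `U β = β`, see `rs_injOn`, so `γ θ₀ = θ₀`). `hA`: apply `j` (`jacMap_ram`, `zJ_jacMap`).
`he'`: for `τ` with restriction `τ'`, the restriction of `u τ u⁻¹` is `γ τ' γ⁻¹ = conjG γ τ'`; apply `j` to the
relation of G16 at `σ = γ τ' γ⁻¹`: `j (Y₁(σ)) = u (τQ - Q) - ((uτu⁻¹) Q - Q) + ((uτu⁻¹) jA - jA)`, and the
left side is `ram (i e'(res θ))` by G15 for `y`, as `(u τ u⁻¹) δ = ζ^i δ` (`w δ = ζ^s δ` for some `s`).
Now apply `LocCtx.bad_formula'` (L13).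
-/

open Polynomial IsDedekindDomain

open scoped Classical

namespace Pool.Agent.Lib.MP_89bcae_ag.Sup

universe u

private lemma g17_sq {A B : Type u} [Field A] [Field B] {ℓ : ℕ} (σ : A →+* A) (j : A →+* B)
    (w : B →+* B) {f : A[X]} {f' : B[X]} (hσ : f.map σ = f) (hj : f.map j = f')
    (hw : f'.map w = f') (hc : ∀ x, j (σ x) = w (j x)) (Q : Jac ℓ f) :
    jacMap ℓ j hj (jacMap ℓ σ hσ Q) = jacMap ℓ w hw (jacMap ℓ j hj Q) := by
  have h0 : j.comp σ = w.comp j := RingHom.ext hc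
  have h1 : f.map (j.comp σ) = f' := by rw [← Polynomial.map_map, hσ, hj]
  have h2 : f.map (w.comp j) = f' := by rw [← Polynomial.map_map, hj, hw]
  rw [jacMap_jacMap ℓ σ j hσ hj h1, jacMap_jacMap ℓ j w hj hw h2]
  congr 1
  simp only [h0]

private lemma g17_vJ {A B : Type u} [Field A] [Field B] {ℓ : ℕ} (j : A →+* B)
    {f : A[X]} {f' : B[X]} [IsGood ℓ f] [IsGood ℓ f'] (hj : f.map j = f') (ζ : A) (ζ' : B)
    (hζ : ζ ^ ℓ = 1) (hζ' : ζ' ^ ℓ = 1) (h : j ζ = ζ') (Q : Jac ℓ f) :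
    jacMap ℓ j hj (vJ ζ hζ Q) = vJ ζ' hζ' (jacMap ℓ j hj Q) := by
  subst h
  exact (vJ_jacMap j hj ζ hζ hζ' Q).symm

private lemma g17_zJ {A B : Type u} [Field A] [Field B] {ℓ : ℕ} (j : A →+* B)
    {f : A[X]} {f' : B[X]} [IsGood ℓ f] [IsGood ℓ f'] (hj : f.map j = f') (ζ : A) (ζ' : B)
    (hζ : ζ ^ ℓ = 1) (hζ' : ζ' ^ ℓ = 1) (h : j ζ = ζ') (Q : Jac ℓ f) :
    jacMap ℓ j hj (zJ ζ hζ Q) = zJ ζ' hζ' (jacMap ℓ j hj Q) := by
  subst h
  exact (zJ_jacMap j hj ζ hζ hζ' Q).symm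

variable {k F L Ω : Type u} [Field k] [Field F] [Algebra k F] [Field L] [Algebra F[X] L]
  [Field Ω] [Algebra L Ω]

private lemma g17_aeval {M : Type u} [Field M] [Algebra L M] [Algebra F M]
    (hFM : CompatF F L M) (P : F[X]) :
    aeval (tA F L M) P = algebraMap L M (algebraMap F[X] L P) := by
  have h : ((aeval (tA F L M) : F[X] →ₐ[F] M) : F[X] →+* M) =
      (algebraMap L M).comp (algebraMap F[X] L) := by
    apply Polynomial.ringHom_ext
    · intro c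
      change aeval (tA F L M) (C c) = algebraMap L M (algebraMap F[X] L (C c))
      rw [aeval_C]
      exact hFM c
    · change aeval (tA F L M) X = algebraMap L M (algebraMap F[X] L X)
      rw [aeval_X]
      rfl
  exact RingHom.congr_fun h P

private lemma g17_z {M : Type u} [Field M] [Algebra L M] [Algebra F M]
    (hFM : CompatF F L M) (ζ : k) : zA F L M ζ = algebraMap F M (algebraMap k F ζ) := by
  rw [hFM]
  unfold zA base
  rw [RingHom.comp_apply, RingHom.comp_apply, coe_mapRingHom, Polynomial.map_C]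

variable [IsAlgClosure k F] [IsFractionRing F[X] L] [IsAlgClosure L Ω]
  [Algebra F Ω] {ℓ : ℕ} {g D : k[X]} [hG : IsGood ℓ (cOver k F L Ω g D)] {ζ : k}
  {hζ : (zA F L Ω ζ) ^ ℓ = 1}

omit [Algebra F Ω] hG in
private lemma g17_poly {M : Type u} [Field M] [Algebra L M] (j : Ω →ₐ[L] M) (γ : AutO k F L Ω)
    (w : M ≃+* M) (hw : ∀ x, j ((γ : Ω ≃+* Ω) x) = w (j x)) (P : F[X]) :
    w (algebraMap L M (algebraMap F[X] L P)) =
      algebraMap L M (algebraMap F[X] L (P.map (resF γ : F →+* F))) := by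
  rw [← j.commutes, ← hw, resF_spec, j.commutes]

omit [Algebra F Ω] hG in
private lemma g17_map {M : Type u} [Field M] [Algebra L M] (j : Ω →ₐ[L] M) :
    (cOver k F L Ω g D).map (j : Ω →+* M) = cOver k F L M g D := by
  rw [Polynomial.map_map]
  congr 1
  exact j.comp_algebraMap

omit [Algebra F Ω] hG in
private lemma g17_sym {M : Type u} [Field M] [Algebra L M] (j : Ω →ₐ[L] M) (γ : AutO k F L Ω)
    (w : M ≃+* M) (hw : ∀ x, j ((γ : Ω ≃+* Ω) x) = w (j x)) : w ∈ Sym (cOver k F L M g D) := by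
  rw [mem_Sym, ← g17_map j, Polynomial.map_map]
  have h2 : (w : M →+* M).comp (j : Ω →+* M) =
      (j : Ω →+* M).comp (((γ : Ω ≃+* Ω)) : Ω →+* Ω) := by
    ext x
    exact (hw x).symm
  rw [h2, ← Polynomial.map_map]
  congr 1
  exact (toSym g D γ).2

omit [Algebra F Ω] hG in
private lemma g17_Ua (H : GlobHyp ℓ g D ζ) (γ : AutO k F L Ω)
    (hγ : ∀ β ∈ RR F g D, resF γ β = β) {a : F} (ha : aeval a D = 0) : resF γ a = a := by
  have hFc : IsAlgClosed F := IsAlgClosure.isAlgClosed k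
  have hdeg : (g.map (algebraMap k F)).natDegree ≠ 0 := by
    rw [natDegree_map]
    intro h0
    have h1 := H.cop
    rw [h0, Nat.coprime_zero_left] at h1
    exact H.prime.one_lt.ne' h1
  obtain ⟨β, hβ⟩ := IsAlgClosed.exists_root (g.map (algebraMap k F) - C a) (by
    rw [degree_sub_C (natDegree_pos_iff_degree_pos.mp (Nat.pos_of_ne_zero hdeg))]
    exact (natDegree_pos_iff_degree_pos.mp (Nat.pos_of_ne_zero hdeg)).ne')
  rw [IsRoot.def, eval_sub, eval_C, sub_eq_zero, eval_map_algebraMap] at hβ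
  have h1 := hγ β (by
    rw [mem_RR H, hβ]
    exact ha)
  rw [← hβ, ← aeval_algHom_apply, h1]

set_option linter.unusedSectionVars false in
private theorem g17_local (hF : CompatF F L Ω) (H : GlobHyp ℓ g D ζ) {c y : Coch ℓ k F L Ω g D}
    (hc : IsTateCocycle ℓ (curvePoly k F L g D) c)
    (hy : IsTateCocycle ℓ (curvePoly k F L g D) y) {e e' : F → ℤ} (h : HasExp hζ c e)
    (h' : HasExp hζ y e') (γ : AutO k F L Ω) (hγ : ∀ β ∈ RR F g D, resF γ β = β)
    (hrel : TTc (act γ c - c - (y - Sup.zC ζ hζ y))) {a : F} (ha : aeval a D = 0)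
    {K M : Type u} [Field K] [Algebra L K] [Field M] [Algebra K M] [IsAlgClosure K M]
    [Algebra L M] [IsScalarTower L K M] [Algebra F M] (hFM : CompatF F L M)
    {v : AbsoluteValue M ℝ}
    (hv : LocCtx v a (tA F L M)) (hinv : ∀ (σ : M ≃ₐ[K] M) x, v (σ x) = v x)
    (hval : ∀ x : K, x ≠ 0 → ∃ i : ℤ,
      v (algebraMap K M x) = v (tA F L M - algebraMap F M a) ^ i)
    (j : Ω →ₐ[L] M) (w : M ≃+* M) (φ : K ≃+* K)
    (hwφ : ∀ x, w (algebraMap K M x) = algebraMap K M (φ x))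
    (hvw : ∀ x, v (w x) = v x) (hjw : ∀ x, j ((γ : Ω ≃+* Ω) x) = w (j x))
    (Q₂ : JacOver ℓ (curvePoly k F L g D) M)
    (hQ₂ : ∀ (τ : M ≃ₐ[K] M) (τ' : Ω ≃ₐ[L] Ω), (∀ x, j (τ' x) = τ (j x)) →
      push ℓ (curvePoly k F L g D) j (c 2 τ') =
        push ℓ (curvePoly k F L g D) (τ.restrictScalars L : M →ₐ[L] M) Q₂ - Q₂) :
    ∃ cst : ℤ, ∀ β, aeval β g = a → ∀ x : F,
      x ^ ℓ = ((-1) ^ (ℓ + 1) * aeval a (derivative D)) ^ e β *
        ∏ β' ∈ (RR F g D).filter fun β' => aeval β' g ≠ a, (β - β') ^ (-e β') →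
      resF γ x = algebraMap k F ζ ^ (e' β + cst) * x := by
  have hFc : IsAlgClosed F := IsAlgClosure.isAlgClosed k
  have hMc : IsAlgClosed M := IsAlgClosure.isAlgClosed K
  have hGM : IsGood ℓ (cOver k F L M g D) := isGood_cOver H
  have hjm := g17_map (k := k) (F := F) (g := g) (D := D) j
  have hℓ0 : ℓ ≠ 0 := H.prime.ne_zero
  have hNe : NeZero ℓ := ⟨hℓ0⟩
  have hζM0 : IsPrimitiveRoot (zA F L M ζ) ℓ := zA_primitive H
  have hζM : (zA F L M ζ) ^ ℓ = 1 := hζM0.pow_eq_one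
  have hjz : (j : Ω →+* M) (zA F L Ω ζ) = zA F L M ζ := map_zA j ζ
  have hzF : zA F L M ζ = algebraMap F M (algebraMap k F ζ) := g17_z hFM ζ
  have hζF : IsPrimitiveRoot (algebraMap k F ζ) ℓ :=
    H.zeta.map_of_injective (algebraMap k F).injective
  set g' : F[X] := g.map (algebraMap k F) with hg'
  set D' : F[X] := D.map (algebraMap k F) with hD'
  -- the element `δ`
  obtain ⟨δ, hδ⟩ := IsAlgClosed.exists_pow_nat_eq (aeval (tA F L M) D') (Nat.pos_of_ne_zero hℓ0)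
  have hB : BadCtx g' D' a (tA F L M) δ ℓ := H.badCtx hFM ha hδ
  have hf : cOver k F L M g D = locPoly g' (tA F L M) (aeval (tA F L M) D') :=
    cOver_eq_locPoly hFM g D
  have hf0 : cOver k F L M g D ≠ 0 := by
    rw [hf]
    exact locPoly_ne_zero hB.monic hB.deg hB.ne
  have hδ0 : δ ≠ 0 := by
    rintro rfl
    rw [zero_pow hℓ0] at hδ
    exact hB.ne hδ.symm
  -- the group `Γ`
  have hfK : ((curvePoly k F L g D).map (algebraMap L K)).map (algebraMap K M) =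
      cOver k F L M g D := by
    rw [Polynomial.map_map, ← IsScalarTower.algebraMap_eq]
  have hFK : ∀ c : F, ∃ x : K, algebraMap K M x = algebraMap F M c := fun c =>
    ⟨algebraMap L K (algebraMap F[X] L (C c)), by
      rw [← IsScalarTower.algebraMap_apply, ← hFM]⟩
  have htK : ∃ x : K, algebraMap K M x = tA F L M :=
    ⟨algebraMap L K (algebraMap F[X] L X), by
      rw [← IsScalarTower.algebraMap_apply]
      rfl⟩
  have hΓ := hv.locGrp hfK hinv hval hFK htK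
  have hp : (ringExpChar K).Coprime ℓ := by
    have hℓK : (ℓ : K) ≠ 0 := by
      intro h0
      apply H.ne
      let ι : k →+* K := (algebraMap L K).comp ((algebraMap F[X] L).comp
        ((C : F →+* F[X]).comp (algebraMap k F)))
      apply ι.injective
      rw [map_natCast, map_zero]
      exact h0
    rcases expChar_is_prime_or_one K (ringExpChar K) with h1 | h1
    · rw [Nat.coprime_primes h1 H.prime]
      intro h2
      apply hℓK
      rw [← h2]
      have h3 : ringExpChar K = ringChar K := by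
        have h4 : 1 < ringExpChar K := h1.one_lt
        unfold ringExpChar at h4 ⊢
        rcases max_cases (ringChar K) 1 with h5 | h5
        · exact h5.1
        · rw [h5.1] at h4
          exact absurd h4 (lt_irrefl _)
      rw [h3]
      exact ringChar.Nat.cast_ringChar
    · rw [h1]
      exact Nat.coprime_one_left ℓ
  -- the automorphism `u`
  let u : Sym (cOver k F L M g D) := ⟨w, g17_sym j γ w hjw⟩
  have hwP := g17_poly j γ w hjw
  have huF : ∀ c : F, w (algebraMap F M c) = algebraMap F M (resF γ c) := by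
    intro c
    rw [hFM, hwP, Polynomial.map_C, hFM]
    rfl
  have hut : w (tA F L M) = tA F L M := by
    have := hwP X
    rwa [Polynomial.map_X] at this
  have hmapk : ∀ P : k[X], (P.map (algebraMap k F)).map (resF γ : F →+* F) =
      P.map (algebraMap k F) := by
    intro P
    rw [Polynomial.map_map]
    congr 1
    exact (resF γ : F →ₐ[k] F).comp_algebraMap
  have hud : w (aeval (tA F L M) D') = aeval (tA F L M) D' := by
    rw [g17_aeval hFM, hwP, hD', hmapk]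
  have hwζ : w (zA F L M ζ) = zA F L M ζ := by
    rw [hzF, huF, AlgEquiv.commutes]
  -- the roots
  have hroot : ∀ θ, θ ∈ rts (cOver k F L M g D) ↔ aeval θ g' = tA F L M := by
    intro θ
    rw [mem_rts hf0, hf, eval_locPoly_eq_zero hB.ne]
  have hRRmem : ∀ β, g'.eval β = a → β ∈ RR F g D := by
    intro β hβ
    rw [mem_RR H]
    rw [hg', eval_map_algebraMap] at hβ
    rw [hβ]
    exact ha
  have hUa : resF γ a = a := g17_Ua H γ hγ ha
  have hwθ : ∀ θ ∈ rts (cOver k F L M g D), w θ = θ := by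
    intro θ hθ
    rw [hroot] at hθ
    have h1 : aeval (w θ) g' = tA F L M := by
      have e1 : (w : M →+* M).comp (algebraMap F M) =
          (algebraMap F M).comp (resF γ : F →+* F) := RingHom.ext huF
      have h2 := hom_eval₂ g' (algebraMap F M) (w : M →+* M) θ
      rw [e1, ← eval₂_map, hg', hmapk, ← aeval_def, ← aeval_def] at h2
      have h3 : (w : M →+* M) θ = w θ := rfl
      rw [h3] at h2
      rw [← hut, ← hθ]
      exact h2.symm
    have h4 := hv.eval_rs hB hθ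
    apply hv.rs_injOn hB h1 hθ
    apply hv.rs_eq
    have hr := hv.v_sub_rs (hv.v_root_le hB.monic hB.deg hθ)
    have e2 : w θ - algebraMap F M (rs F v θ) = w (θ - algebraMap F M (rs F v θ)) := by
      rw [map_sub, huF, hγ _ (hRRmem _ h4)]
    rw [e2, hvw]
    exact hr
  have hγθ : ∀ θ ∈ rts (cOver k F L Ω g D), (γ : Ω ≃+* Ω) θ = θ := by
    intro θ hθ
    apply (j : Ω →+* M).injective
    have h1 := hwθ _ (map_root_mem (k := k) (F := F) H j hθ)
    rw [← hjw] at h1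
    exact h1
  -- conjugation by `w`
  have hwinv : ∀ x : K, w.symm (algebraMap K M x) = algebraMap K M (φ.symm x) := by
    intro x
    rw [RingEquiv.symm_apply_eq, hwφ, RingEquiv.apply_symm_apply]
  let cw : (M ≃ₐ[K] M) → (M ≃ₐ[K] M) := fun τ =>
    AlgEquiv.ofRingEquiv (f := (w.symm.trans (τ : M ≃+* M)).trans w) (by
      intro x
      change w (τ (w.symm (algebraMap K M x))) = algebraMap K M x
      rw [hwinv, τ.commutes, hwφ, RingEquiv.apply_symm_apply])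
  have hcw : ∀ τ x, cw τ x = w (τ (w.symm x)) := fun _ _ => rfl
  have hcwS : ∀ τ, u * galSym hfK τ * u⁻¹ = galSym hfK (cw τ) := by
    intro τ
    apply Subtype.ext
    ext x
    rfl
  have hτz : ∀ τ : M ≃ₐ[K] M, τ (zA F L M ζ) = zA F L M ζ := by
    intro τ
    rw [hzF]
    obtain ⟨x, hx⟩ := hFK (algebraMap k F ζ)
    rw [← hx, τ.commutes]
  have hz0 : zA F L M ζ ≠ 0 := hζM0.ne_zero hℓ0
  have hcwδ : ∀ (τ : M ≃ₐ[K] M) (i : ℤ), τ δ = zA F L M ζ ^ i * δ →
      cw τ δ = zA F L M ζ ^ i * δ := by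
    intro τ i hi
    have h1 : (w δ / δ) ^ ℓ = 1 := by
      rw [div_pow, ← map_pow, hδ, hud, div_self hB.ne]
    obtain ⟨s, -, hs⟩ := hζM0.eq_pow_of_pow_eq_one h1
    have h2 : w δ = zA F L M ζ ^ s * δ := by
      rw [hs, div_mul_cancel₀ _ hδ0]
    have h3 : w.symm δ = (zA F L M ζ ^ s)⁻¹ * δ := by
      rw [RingEquiv.symm_apply_eq, map_mul, map_inv₀, map_pow, hwζ, h2, ← mul_assoc,
        inv_mul_cancel₀ (pow_ne_zero _ hz0), one_mul]
    rw [hcw, h3, map_mul, map_inv₀, map_pow, hτz, hi, map_mul, map_inv₀, map_pow, hwζ, map_mul,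
      map_zpow₀, hwζ, h2]
    have h4 := pow_ne_zero s hz0
    field_simp
  -- the class `Q`
  set Q : JacOver ℓ (curvePoly k F L g D) M :=
    vJ (zA F L M ζ) hζM (vJ (zA F L M ζ) hζM Q₂) with hQ
  have hQc : ∀ (τ : M ≃ₐ[K] M) (τ' : Ω ≃ₐ[L] Ω), (∀ x, j (τ' x) = τ (j x)) →
      push ℓ (curvePoly k F L g D) j
        (vJ (zA F L Ω ζ) hζ (vJ (zA F L Ω ζ) hζ (c 2 τ'))) = symJ (galSym hfK τ) Q - Q := by
    intro τ τ' hτ
    have hτζ : ((galSym hfK τ : Sym (cOver k F L M g D)) : M ≃+* M) (zA F L M ζ) =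
        zA F L M ζ := hτz τ
    have h1 : push ℓ (curvePoly k F L g D) j
        (vJ (zA F L Ω ζ) hζ (vJ (zA F L Ω ζ) hζ (c 2 τ'))) =
        vJ (zA F L M ζ) hζM (vJ (zA F L M ζ) hζM (push ℓ (curvePoly k F L g D) j (c 2 τ'))) := by
      have e1 : ∀ X : JacOver ℓ (curvePoly k F L g D) Ω,
          jacMap ℓ (j : Ω →+* M) hjm (vJ (zA F L Ω ζ) hζ X) =
            vJ (zA F L M ζ) hζM (jacMap ℓ (j : Ω →+* M) hjm X) := fun X =>
        g17_vJ (j : Ω →+* M) hjm (zA F L Ω ζ) (zA F L M ζ) hζ hζM hjz X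
      have e2 := e1 (vJ (zA F L Ω ζ) hζ (c 2 τ'))
      rw [e1 (c 2 τ')] at e2
      exact e2
    rw [h1, hQ₂ τ τ' hτ, vJ_sub, vJ_sub]
    have h2 : push ℓ (curvePoly k F L g D) (τ.restrictScalars L : M →ₐ[L] M) Q₂ =
        symJ (galSym hfK τ) Q₂ := rfl
    rw [h2, vJ_symJ _ _ _ hτζ, vJ_symJ _ _ _ hτζ]
  obtain ⟨A, z, q, hz, hzq, hA, hR⟩ := exists_relation hF H hc hy h γ hγ hrel
  have hres : ∀ τ : M ≃ₐ[K] M, ∃ τ' : Ω ≃ₐ[L] Ω, ∀ x, j (τ' x) = τ (j x) := fun τ =>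
    exists_restrict j (τ.restrictScalars L)
  have hji : Function.Injective j := (j : Ω →+* M).injective
  -- the functions over `M`
  let zM : M → M := Function.extend j (fun x => j (z x)) 0
  let qM : M → ℤ := Function.extend j q 0
  have hzM : ∀ x, zM (j x) = j (z x) := fun x => hji.extend_apply _ _ x
  have hqM : ∀ x, qM (j x) = q x := fun x => hji.extend_apply _ _ x
  have hzJ : ∀ (x : M) (hx : x ^ ℓ = 1) (P : JacOver ℓ (curvePoly k F L g D) M),
      x = zA F L M ζ → zJ x hx P = zJ (zA F L M ζ) hζM P := by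
    rintro _ _ _ rfl
    rfl
  have key := hv.bad_formula' (ℓ := ℓ) (p := ringExpChar K) hp hB hf hζF (by
      rw [← hzF]
      exact hζM0) hΓ u (resF γ : F ≃+* F) hvw huF hut (hmapk g) hud ((resF γ).commutes ζ)
    (by
      rintro _ ⟨τ, rfl⟩
      exact ⟨cw τ, (hcwS τ).symm⟩)
    (RR F g D) hRRmem hγ hUa e Q
    (by
      rintro _ ⟨τ, rfl⟩ i hi
      obtain ⟨τ', hτ'⟩ := hres τ
      rw [← hQc τ τ' hτ', hzJ _ _ _ hzF.symm]
      have e1 := g17_zJ (j : Ω →+* M) hjm (zA F L Ω ζ) (zA F L M ζ) hζ hζM hjz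
        (vJ (zA F L Ω ζ) hζ (vJ (zA F L Ω ζ) hζ (c 2 τ')))
      have e2 : zJ (zA F L M ζ) hζM (push ℓ (curvePoly k F L g D) j
          (vJ (zA F L Ω ζ) hζ (vJ (zA F L Ω ζ) hζ (c 2 τ')))) =
          push ℓ (curvePoly k F L g D) j (zJ (zA F L Ω ζ) hζ
            (vJ (zA F L Ω ζ) hζ (vJ (zA F L Ω ζ) hζ (c 2 τ')))) := e1.symm
      rw [e2, ← map_sub, vJ_level_two H hc]
      rw [← hzF] at hi
      exact h.local_char hF H ha hFM hv hinv j hδ τ τ' hτ' i hi)
    zM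
    (by
      intro θ hθ
      obtain ⟨θ₀, hθ₀, rfl⟩ := exists_root_eq (k := k) (F := F) H j hθ
      rw [hzM, ← map_pow, hz θ₀ hθ₀, map_prod]
      refine Finset.prod_congr rfl fun β _ => ?_
      rw [map_zpow₀, map_sub, hF, j.commutes, ← hFM])
    qM
    (by
      intro θ hθ
      obtain ⟨θ₀, hθ₀, rfl⟩ := exists_root_eq (k := k) (F := F) H j hθ
      have h1 := hzq θ₀ hθ₀
      rw [hγθ θ₀ hθ₀] at h1
      rw [hzM, hqM, ← hzF]
      change w (j (z θ₀)) = _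
      rw [← hjw, h1, map_mul, map_zpow₀]
      congr 2)
    (push ℓ (curvePoly k F L g D) j A)
    (by
      rw [hzJ _ _ _ hzF.symm]
      have e1 := g17_zJ (j : Ω →+* M) hjm (zA F L Ω ζ) (zA F L M ζ) hζ hζM hjz A
      have e2 : zJ (zA F L M ζ) hζM (push ℓ (curvePoly k F L g D) j A) =
          push ℓ (curvePoly k F L g D) j (zJ (zA F L Ω ζ) hζ A) := e1.symm
      rw [e2, ← map_sub, hA]
      exact jacMap_ram (j : Ω →+* M) hjm (fun θ => -q θ) (fun θ => -qM θ)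
        (fun θ _ => congrArg Neg.neg (hqM θ)))
    e'
    (by
      rintro _ ⟨τ, rfl⟩ i hi
      rw [← hzF] at hi
      obtain ⟨τ', hτ'⟩ := hres τ
      have hσ : ∀ x, j (conjG γ τ' x) = cw τ (j x) := by
        intro x
        obtain ⟨x, rfl⟩ := (γ : Ω ≃+* Ω).surjective x
        rw [conjG_spec, hjw, hτ', hjw, hcw, RingEquiv.symm_apply_apply]
      have hinvc : conjG γ⁻¹ (conjG γ τ') = τ' := by
        rw [map_inv, MulAut.inv_apply_self]
      have h1 := hR (conjG γ τ')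
      rw [hinvc] at h1
      have h2 := h'.local_char hF H ha hFM hv hinv j hδ (cw τ) (conjG γ τ') hσ i (hcwδ τ i hi)
      rw [h1, map_add, map_sub, map_sub, hQc (cw τ) (conjG γ τ') hσ] at h2
      rw [← h2, hcwS τ, ← hQc τ τ' hτ']
      have e1 : push ℓ (curvePoly k F L g D) j (symJ (toSym g D γ)
          (vJ (zA F L Ω ζ) hζ (vJ (zA F L Ω ζ) hζ (c 2 τ')))) =
          symJ u (push ℓ (curvePoly k F L g D) j
          (vJ (zA F L Ω ζ) hζ (vJ (zA F L Ω ζ) hζ (c 2 τ')))) :=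
        g17_sq _ (j : Ω →+* M) _ _ hjm _ hjw _
      have e2 : push ℓ (curvePoly k F L g D) j
          (symJ (toSym g D (galA k F (conjG γ τ'))) A) =
          symJ (galSym hfK (cw τ)) (push ℓ (curvePoly k F L g D) j A) :=
        g17_sq _ (j : Ω →+* M) _ _ hjm _ hσ _
      rw [e1, e2])
  obtain ⟨cst, hcst⟩ := key
  refine ⟨cst, fun β hβ x hx => hcst β ?_ x ?_⟩
  · rw [hg', eval_map_algebraMap]
    exact hβ
  · rw [hx, hD', derivative_map, eval_map_algebraMap]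
    congr 1
    refine Finset.prod_congr ?_ fun _ _ => rfl
    refine Finset.filter_congr fun β' _ => ?_
    rw [hg', eval_map_algebraMap]

theorem exists_formula (hF : CompatF F L Ω) (H : GlobHyp ℓ g D ζ) {c y : Coch ℓ k F L Ω g D}
    (hc : IsTateCocycle ℓ (curvePoly k F L g D) c) (hLT : LTc c)
    (hy : IsTateCocycle ℓ (curvePoly k F L g D) y) {e e' : F → ℤ} (h : HasExp hζ c e)
    (h' : HasExp hζ y e') (γ : AutO k F L Ω) (hγ : ∀ β ∈ RR F g D, resF γ β = β)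
    (hrel : TTc (act γ c - c - (y - Sup.zC ζ hζ y))) {a : F} (ha : aeval a D = 0) :
    ∃ cst : ℤ, ∀ β, aeval β g = a → ∀ x : F,
      x ^ ℓ = ((-1) ^ (ℓ + 1) * aeval a (derivative D)) ^ e β *
        ∏ β' ∈ (RR F g D).filter fun β' => aeval β' g ≠ a, (β - β') ^ (-e β') →
      resF γ x = algebraMap k F ζ ^ (e' β + cst) * x := by
  have hFc : IsAlgClosed F := IsAlgClosure.isAlgClosed k
  have hΩalg : Algebra.IsAlgebraic L Ω := IsAlgClosure.isAlgebraic
  have hUa : resF γ a = a := g17_Ua H γ hγ ha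
  have hφ : ∃ φ : (plc a).adicCompletion L ≃+* (plc a).adicCompletion L,
      (∀ x : L, φ (algebraMap L _ x) = algebraMap L _ (coefL L (resF γ : F ≃+* F) x)) ∧
      ∀ x, Valued.v (φ x) = Valued.v x := by
    have h1 := exists_adic_equiv L (resF γ : F ≃+* F) a
    have h2 : (resF γ : F ≃+* F) a = a := hUa
    rwa [h2] at h1
  obtain ⟨φ, hφL, hφv⟩ := hφ
  let _ : Algebra F (AlgebraicClosure ((plc a).adicCompletion L)) :=
    ((algebraMap L (AlgebraicClosure ((plc a).adicCompletion L))).comp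
      ((algebraMap F[X] L).comp (C : F →+* F[X]))).toAlgebra
  have hFM : CompatF F L (AlgebraicClosure ((plc a).adicCompletion L)) := fun _ => rfl
  have hXL : ∀ P : F[X], algebraMap ((plc a).adicCompletion L)
      (AlgebraicClosure ((plc a).adicCompletion L))
      (algebraMap F[X] ((plc a).adicCompletion L) P) =
      algebraMap L (AlgebraicClosure ((plc a).adicCompletion L)) (algebraMap F[X] L P) := by
    intro P
    rw [IsScalarTower.algebraMap_apply F[X] L ((plc a).adicCompletion L),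
      ← IsScalarTower.algebraMap_apply L ((plc a).adicCompletion L)]
  obtain ⟨v, hv, hval, hinv, hsemi⟩ := exists_locCtx (L := L)
    (M := AlgebraicClosure ((plc a).adicCompletion L)) a (fun c => by rw [hXL, hFM])
  rw [hXL] at hv hval
  obtain ⟨w, hw⟩ := exists_extend_alg
    (M := AlgebraicClosure ((plc a).adicCompletion L)) φ
  have hwL : ∀ x : L, w (algebraMap L (AlgebraicClosure ((plc a).adicCompletion L)) x) =
      algebraMap L (AlgebraicClosure ((plc a).adicCompletion L))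
        (coefL L (resF γ : F ≃+* F) x) := by
    intro x
    rw [IsScalarTower.algebraMap_apply L ((plc a).adicCompletion L), hw, hφL,
      ← IsScalarTower.algebraMap_apply L ((plc a).adicCompletion L)]
  let j : Ω →ₐ[L] AlgebraicClosure ((plc a).adicCompletion L) := IsAlgClosed.lift
  obtain ⟨γ₀, hγ₀, hjγ₀⟩ := exists_compat j (coefL L (resF γ : F ≃+* F)) w hwL
  have hγP : ∀ P : F[X], γ₀ (algebraMap L Ω (algebraMap F[X] L P)) =
      algebraMap L Ω (algebraMap F[X] L (P.map (resF γ : F →+* F))) := by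
    intro P
    rw [hγ₀, coefL_algebraMap]
    rfl
  let γ' : AutO k F L Ω := ⟨γ₀, fun p => by
    have h1 := hγP (p.map (algebraMap k F))
    have h2 : (p.map (algebraMap k F)).map (resF γ : F →+* F) = p.map (algebraMap k F) := by
      rw [Polynomial.map_map]
      congr 1
      exact (resF γ : F →ₐ[k] F).comp_algebraMap
    rw [h2] at h1
    exact h1⟩
  have hres : resF γ' = resF γ := by
    ext x
    have h1 := resF_spec γ' (C x)
    have h2 := hγP (C x)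
    have h3 : (γ' : Ω ≃+* Ω) (algebraMap L Ω (algebraMap F[X] L (C x))) =
      γ₀ (algebraMap L Ω (algebraMap F[X] L (C x))) := rfl
    rw [h3, h2] at h1
    have h4 := IsFractionRing.injective F[X] L ((algebraMap L Ω).injective h1)
    rw [Polynomial.map_C, Polynomial.map_C] at h4
    exact (C_injective h4).symm
  have hrel' : TTc (act γ' c - c - (y - Sup.zC ζ hζ y)) := by
    have h1 := hrel.sub (act_sub_act_of_resF_eq hc hres.symm)
    have h2 : act γ c - c - (y - Sup.zC ζ hζ y) - (act γ c - act γ' c) =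
        act γ' c - c - (y - Sup.zC ζ hζ y) := by abel
    rwa [h2] at h1
  obtain ⟨Q₂, hQ₂⟩ := hLT a 2 (AlgebraicClosure ((plc a).adicCompletion L)) j
  have key := g17_local hF H hc hy h h' γ' (by rw [hres]; exact hγ) hrel' ha
    (K := (plc a).adicCompletion L) hFM hv hinv hval j w φ hw (hsemi w φ hφv hw) hjγ₀ Q₂ hQ₂
  rwa [hres] at key

end Pool.Agent.Lib.MP_89bcae_ag.Sup

end

section

/-!
ROW G18 (120-220 lines). THE FORMULA FOR `N_U`.

STATEMENT: as G17, with `cst = 0`, in the symmetric form: for all `β` in `RR` and `x` with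
`x^ℓ = (ε lc(D))^{e β} ∏_{β'∈RR, g(β') ≠ g(β)} (β - β')^{e β - e β'}`: `U x = ζ^{e' β} x`.

PROOF. (1) `D'(a) = lc(D) ∏_{a' ≠ a} (a - a')` over the other roots of `D` and, for `g(β) = a`,
`a - a' = g(β) - a' = ∏_{g(β') = a'} (β - β')` (`g` monic, simple roots). So
`D'(a) = lc(D) ∏_{β'∈RR, g(β') ≠ a} (β - β')` and the two forms agree.
(2) `cst ≡ 0`: choose for each `β` over `a` an `x_β` as in G17; `∏_β x_β^ℓ =
(ε D'(a))^{∑ e β} ∏_{β'} (∏_{g(β)=a} (β - β'))^{-e β'}`, and `∏_{g(β)=a} (β - β') =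
(-1)^m (g(β') - a)` depends only on `a' = g(β')`; so this is
`(ε D'(a))^{∑_{g(β)=a} e β} ∏_{a'} ((-1)^m (a' - a))^{-∑_{g(β')=a'} e β'}`, and all the sums are divisible
by `ℓ` (`HasExp.sum`): it is the `ℓ`-th power of an element fixed by `U` (`U` fixes `a`, `a'`, `D'(a)`).
So `∏ x_β` is a power of `ζ` times a fixed element: `U (∏ x_β) = ∏ x_β`, whence
`∑_{g(β)=a} e' β + m cst ≡ 0`, and `∑ e' β ≡ 0`, `m = deg g` is prime to `ℓ`: `ℓ ∣ cst`.
-/

open Polynomial IsDedekindDomain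

open scoped Classical

namespace Pool.Agent.Lib.MP_89bcae_ag.Sup

universe u

private lemma g18_prod_toFinset {F : Type u} [Field F] {p : F[X]} (h : p.roots.Nodup) :
    ∏ β ∈ p.roots.toFinset, (X - C β : F[X]) = (p.roots.map fun β => X - C β).prod := by
  rw [Finset.prod, Multiset.toFinset_val, Multiset.dedup_eq_self.2 h]

private lemma g18_sub_eq {F : Type u} [Field F] [IsAlgClosed F] {g D : F[X]} (hg : g.Monic)
    (hm : g.natDegree ≠ 0) (hsep : (D.comp g).Separable) {a : F} (ha : D.eval a = 0) :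
    g - C a = ∏ β ∈ ((D.comp g).roots.toFinset).filter (fun β => g.eval β = a), (X - C β) := by
  obtain ⟨E, hE⟩ := dvd_iff_isRoot.2 ha
  have h1 : D.comp g = (g - C a) * E.comp g := by
    conv_lhs => rw [hE]
    rw [mul_comp, sub_comp, X_comp, C_comp]
  have hsep' : (g - C a).Separable := by
    rw [h1] at hsep
    exact hsep.of_mul_left
  have hmon : (g - C a).Monic := by
    refine hg.sub_of_left ?_
    refine lt_of_le_of_lt degree_C_le ?_
    rw [← natDegree_pos_iff_degree_pos]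
    exact Nat.pos_of_ne_zero hm
  have h2 := (IsAlgClosed.splits (g - C a)).eq_prod_roots_of_monic hmon
  rw [← g18_prod_toFinset (nodup_roots hsep')] at h2
  conv_lhs => rw [h2]
  refine Finset.prod_congr ?_ fun _ _ => rfl
  ext β
  rw [Multiset.mem_toFinset, mem_roots hmon.ne_zero, Finset.mem_filter, Multiset.mem_toFinset,
    mem_roots hsep.ne_zero, IsRoot.def, IsRoot.def, eval_sub, eval_C, sub_eq_zero, eval_comp]
  constructor
  · intro h
    exact ⟨by rw [h, ha], h⟩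
  · exact fun h => h.2

private lemma g18_derivative {F : Type u} [Field F] [IsAlgClosed F] {g D : F[X]} (hg : g.Monic)
    (hm : g.natDegree ≠ 0) (hsep : (D.comp g).Separable) {a β : F} (ha : D.eval a = 0)
    (hβ : g.eval β = a) :
    (derivative D).eval a = D.leadingCoeff *
      ∏ β' ∈ ((D.comp g).roots.toFinset).filter (fun β' => g.eval β' ≠ a), (β - β') := by
  obtain ⟨E, hE⟩ := dvd_iff_isRoot.2 ha
  have h1 : D.comp g = (g - C a) * E.comp g := by
    conv_lhs => rw [hE]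
    rw [mul_comp, sub_comp, X_comp, C_comp]
  have h2 := (IsAlgClosed.splits (D.comp g)).eq_prod_roots
  rw [← g18_prod_toFinset (nodup_roots hsep), leadingCoeff_comp hm, hg.leadingCoeff, one_pow,
    mul_one, ← Finset.prod_filter_mul_prod_filter_not _ (fun β => g.eval β = a),
    ← g18_sub_eq hg hm hsep ha] at h2
  have h0 : g - C a ≠ 0 := by
    intro h0
    rw [h1, h0, zero_mul] at hsep
    exact hsep.ne_zero rfl
  have h3 : E.comp g = C D.leadingCoeff *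
      ∏ β ∈ ((D.comp g).roots.toFinset).filter (fun β => ¬ g.eval β = a), (X - C β) := by
    apply mul_left_cancel₀ h0
    rw [← h1]
    exact h2.trans (mul_left_comm _ _ _)
  have h4 := congrArg (eval β) h3
  rw [eval_comp, hβ, eval_mul, eval_C, eval_prod] at h4
  simp only [eval_sub, eval_X, eval_C] at h4
  rw [← h4]
  conv_lhs => rw [hE]
  rw [derivative_mul, derivative_sub, derivative_X, derivative_C, sub_zero, one_mul, eval_add,
    eval_mul, eval_sub, eval_X, eval_C, sub_self, zero_mul, add_zero]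

private lemma g18_zpow_sum {F : Type u} [Field F] {d : F} (hd : d ≠ 0) (s : Finset F)
    (e : F → ℤ) : ∏ β ∈ s, d ^ e β = d ^ ∑ β ∈ s, e β := by
  induction s using Finset.induction_on with
  | empty => simp
  | insert b s hb ih => rw [Finset.prod_insert hb, Finset.sum_insert hb, zpow_add₀ hd, ih]

private lemma g18_cst {F : Type u} [Field F] [IsAlgClosed F] {ℓ : ℕ} (hℓ : ℓ.Prime)
    {R : Finset F} {G : F → F} {a d z : F} {U : F →+* F} {e e' : F → ℤ} {cst : ℤ} {m : ℕ}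
    (hz : IsPrimitiveRoot z ℓ) (hUz : U z = z) (hUG : ∀ β ∈ R, U (G β) = G β) (hUa : U a = a)
    (hUd : U d = d) (hd : d ≠ 0)
    (hprod : ∀ β' ∈ R, ∏ β ∈ R.filter (fun β => G β = a), (β - β') = (-1) ^ m * (G β' - a))
    (hm : (R.filter (fun β => G β = a)).card = m) (hcop : m.Coprime ℓ)
    (hs : ∀ b, (ℓ : ℤ) ∣ ∑ β ∈ R.filter (fun β => G β = b), e β)
    (hs' : (ℓ : ℤ) ∣ ∑ β ∈ R.filter (fun β => G β = a), e' β)
    (H : ∀ β, G β = a → ∀ x : F, x ^ ℓ = d ^ e β *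
      ∏ β' ∈ R.filter (fun β' => G β' ≠ a), (β - β') ^ (-e β') →
        U x = z ^ (e' β + cst) * x) : (ℓ : ℤ) ∣ cst := by
  choose x hx using fun β : F => IsAlgClosed.exists_pow_nat_eq (d ^ e β *
      ∏ β' ∈ R.filter (fun β' => G β' ≠ a), (β - β') ^ (-e β')) hℓ.pos
  choose n hn using hs
  have hz0 : z ≠ 0 := hz.ne_zero hℓ.ne_zero
  set T := R.filter (fun β' => G β' ≠ a) with hT
  set S := R.filter (fun β => G β = a) with hS
  have hneg : ((-1 : F) ^ m) ≠ 0 := pow_ne_zero _ (neg_ne_zero.2 one_ne_zero)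
  have h1 : (∏ β ∈ S, x β) ^ ℓ = (d ^ n a * ∏ b ∈ T.image G, ((-1) ^ m * (b - a)) ^ (-n b)) ^ ℓ := by
    rw [← Finset.prod_pow, Finset.prod_congr rfl fun β _ => hx β, Finset.prod_mul_distrib,
      g18_zpow_sum hd, hn a, mul_pow, Finset.prod_comm]
    congr 1
    · rw [mul_comm, zpow_mul, zpow_natCast]
    · rw [← Finset.prod_pow, ← Finset.prod_fiberwise_of_maps_to
        (fun β' hβ' => Finset.mem_image_of_mem G hβ')]
      refine Finset.prod_congr rfl fun b hb => ?_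
      obtain ⟨β₀, hβ₀, hβb⟩ := Finset.mem_image.1 hb
      have hba : b ≠ a := by
        rw [← hβb]
        exact (Finset.mem_filter.1 hβ₀).2
      have h2 : T.filter (fun β' => G β' = b) = R.filter fun β' => G β' = b := by
        ext β'
        rw [hT, Finset.mem_filter, Finset.mem_filter, Finset.mem_filter]
        constructor
        · exact fun h => ⟨h.1.1, h.2⟩
        · exact fun h => ⟨⟨h.1, by rw [h.2]; exact hba⟩, h.2⟩
      rw [h2]
      have h3 : ∀ β' ∈ R.filter (fun β' => G β' = b), ∏ β ∈ S, (β - β') ^ (-e β') =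
          ((-1) ^ m * (b - a)) ^ (-e β') := by
        intro β' hβ'
        rw [Finset.prod_zpow, hprod β' (Finset.mem_filter.1 hβ').1, (Finset.mem_filter.1 hβ').2]
      rw [Finset.prod_congr rfl h3, g18_zpow_sum (mul_ne_zero hneg (sub_ne_zero.2 hba)),
        Finset.sum_neg_distrib, hn b, ← mul_neg, mul_comm (ℓ : ℤ), zpow_mul, zpow_natCast]
  have hW0 : d ^ n a * ∏ b ∈ T.image G, ((-1) ^ m * (b - a)) ^ (-n b) ≠ 0 := by
    refine mul_ne_zero (zpow_ne_zero _ hd) (Finset.prod_ne_zero_iff.2 fun b hb => ?_)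
    obtain ⟨β₀, hβ₀, hβb⟩ := Finset.mem_image.1 hb
    have hba : b ≠ a := by
      rw [← hβb]
      exact (Finset.mem_filter.1 hβ₀).2
    exact zpow_ne_zero _ (mul_ne_zero hneg (sub_ne_zero.2 hba))
  have hUW : U (d ^ n a * ∏ b ∈ T.image G, ((-1) ^ m * (b - a)) ^ (-n b)) =
      d ^ n a * ∏ b ∈ T.image G, ((-1) ^ m * (b - a)) ^ (-n b) := by
    rw [map_mul, map_zpow₀, hUd, map_prod]
    congr 1
    refine Finset.prod_congr rfl fun b hb => ?_
    obtain ⟨β₀, hβ₀, hβb⟩ := Finset.mem_image.1 hb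
    rw [map_zpow₀, map_mul, map_pow, map_neg, map_one, map_sub, hUa, ← hβb,
      hUG β₀ (Finset.mem_filter.1 hβ₀).1]
  set W := d ^ n a * ∏ b ∈ T.image G, ((-1) ^ m * (b - a)) ^ (-n b) with hW
  have : NeZero ℓ := ⟨hℓ.ne_zero⟩
  have h4 : ((∏ β ∈ S, x β) / W) ^ ℓ = 1 := by
    rw [div_pow, h1, div_self (pow_ne_zero _ hW0)]
  obtain ⟨i, _, hi⟩ := hz.eq_pow_of_pow_eq_one h4
  have h5 : ∏ β ∈ S, x β = z ^ i * W := by
    rw [hi, div_mul_cancel₀ _ hW0]
  have h6 : U (∏ β ∈ S, x β) = ∏ β ∈ S, x β := by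
    rw [h5, map_mul, map_pow, hUz, hUW]
  have h7 : U (∏ β ∈ S, x β) = z ^ (∑ β ∈ S, (e' β + cst)) * ∏ β ∈ S, x β := by
    rw [map_prod, ← g18_zpow_sum hz0, ← Finset.prod_mul_distrib]
    exact Finset.prod_congr rfl fun β hβ => H β (Finset.mem_filter.1 hβ).2 (x β) (hx β)
  have hP0 : ∏ β ∈ S, x β ≠ 0 := by
    rw [h5]
    exact mul_ne_zero (pow_ne_zero _ hz0) hW0
  have h8 : z ^ (∑ β ∈ S, (e' β + cst)) = 1 := by
    apply mul_right_cancel₀ hP0
    rw [one_mul, ← h7, h6]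
  rw [hz.zpow_eq_one_iff_dvd, Finset.sum_add_distrib, Finset.sum_const, hm,
    ← Nat.cast_smul_eq_nsmul ℤ, smul_eq_mul] at h8
  have h9 : (ℓ : ℤ) ∣ (m : ℤ) * cst := (dvd_add_right hs').1 h8
  have h10 : IsCoprime (ℓ : ℤ) (m : ℤ) := Nat.isCoprime_iff_coprime.2 hcop.symm
  exact h10.dvd_of_dvd_mul_left h9

variable {k F L Ω : Type u} [Field k] [Field F] [Algebra k F] [Field L] [Algebra F[X] L]
  [Field Ω] [Algebra L Ω] [IsAlgClosure k F] [IsFractionRing F[X] L] [IsAlgClosure L Ω]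
  [Algebra F Ω] {ℓ : ℕ} {g D : k[X]} [hG : IsGood ℓ (cOver k F L Ω g D)] {ζ : k}
  {hζ : (zA F L Ω ζ) ^ ℓ = 1}

theorem exists_formula_symm (hF : CompatF F L Ω) (H : GlobHyp ℓ g D ζ)
    {c y : Coch ℓ k F L Ω g D}
    (hc : IsTateCocycle ℓ (curvePoly k F L g D) c) (hLT : LTc c)
    (hy : IsTateCocycle ℓ (curvePoly k F L g D) y) {e e' : F → ℤ} (h : HasExp hζ c e)
    (h' : HasExp hζ y e') (γ : AutO k F L Ω) (hγ : ∀ β ∈ RR F g D, resF γ β = β)
    (hrel : TTc (act γ c - c - (y - Sup.zC ζ hζ y))) :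
    ∀ β ∈ RR F g D, ∀ x : F,
      x ^ ℓ = ((-1) ^ (ℓ + 1) * algebraMap k F D.leadingCoeff) ^ e β *
        ∏ β' ∈ (RR F g D).filter fun β' => aeval β' g ≠ aeval β g, (β - β') ^ (e β - e β') →
      resF γ x = algebraMap k F ζ ^ e' β * x := by
  intro β hβ x hx
  have : IsAlgClosed F := IsAlgClosure.isAlgClosed k
  have hinj := (algebraMap k F).injective
  have hℓ := H.prime
  obtain ⟨m, hmdef⟩ : ∃ m, m = g.natDegree := ⟨_, rfl⟩
  have hm0 : g.natDegree ≠ 0 := by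
    intro h0
    have h1 := H.cop
    rw [h0, Nat.coprime_zero_left] at h1
    exact hℓ.one_lt.ne' h1
  have hg : (g.map (algebraMap k F)).Monic := H.monic.map _
  have hm : (g.map (algebraMap k F)).natDegree ≠ 0 := by
    rwa [natDegree_map]
  have hsep : ((D.map (algebraMap k F)).comp (g.map (algebraMap k F))).Separable := by
    rw [← Polynomial.map_comp]
    exact H.sep.map
  have hRR : RR F g D =
      ((D.map (algebraMap k F)).comp (g.map (algebraMap k F))).roots.toFinset := by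
    rw [RR, Polynomial.map_comp]
  have hev : ∀ y : F, (g.map (algebraMap k F)).eval y = aeval y g := fun y =>
    eval_map_algebraMap g y
  obtain ⟨a, ha⟩ : ∃ a, a = aeval β g := ⟨_, rfl⟩
  have haD : aeval a D = 0 := by
    rw [ha]
    exact (mem_RR H).1 hβ
  have haD' : (D.map (algebraMap k F)).eval a = 0 := by
    rw [eval_map_algebraMap, haD]
  have hder : ∀ β₁ : F, aeval β₁ g = a → aeval a (derivative D) =
      algebraMap k F D.leadingCoeff *
        ∏ β' ∈ (RR F g D).filter (fun β' => aeval β' g ≠ a), (β₁ - β') := by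
    intro β₁ hβ₁
    have h1 := g18_derivative hg hm hsep haD' ((hev β₁).trans hβ₁)
    rw [derivative_map, eval_map_algebraMap, leadingCoeff_map, ← hRR] at h1
    simp only [hev] at h1
    exact h1
  have hlin : g.map (algebraMap k F) - C a =
      ∏ β₁ ∈ (RR F g D).filter (fun β₁ => aeval β₁ g = a), (X - C β₁) := by
    have h1 := g18_sub_eq hg hm hsep haD'
    rw [← hRR] at h1
    simp only [hev] at h1
    exact h1
  have hlc : algebraMap k F D.leadingCoeff ≠ 0 := by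
    rw [Ne, map_eq_zero_iff _ hinj, leadingCoeff_eq_zero]
    intro h0
    exact H.pos (by rw [h0, natDegree_zero])
  have hε : ((-1 : F) ^ (ℓ + 1)) ≠ 0 := pow_ne_zero _ (neg_ne_zero.2 one_ne_zero)
  have hne : ∀ β' ∈ (RR F g D).filter (fun β' => aeval β' g ≠ a), β - β' ≠ 0 := by
    intro β' hβ' h0
    apply (Finset.mem_filter.1 hβ').2
    rw [← sub_eq_zero.1 h0, ha]
  have hd0 : aeval a (derivative D) ≠ 0 := by
    rw [hder β ha.symm]
    exact mul_ne_zero hlc (Finset.prod_ne_zero_iff.2 hne)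
  have hUG : ∀ β₁ ∈ RR F g D, (resF γ) (aeval β₁ g) = aeval β₁ g := by
    intro β₁ hβ₁
    have h1 := Polynomial.aeval_algHom_apply ((resF γ : F ≃ₐ[k] F) : F →ₐ[k] F) β₁ g
    have h2 : ((resF γ : F ≃ₐ[k] F) : F →ₐ[k] F) β₁ = β₁ := hγ β₁ hβ₁
    rw [h2] at h1
    exact h1.symm
  have hUa : (resF γ) a = a := by
    rw [ha]
    exact hUG β hβ
  have hUd : (resF γ) ((-1) ^ (ℓ + 1) * aeval a (derivative D)) =
      (-1) ^ (ℓ + 1) * aeval a (derivative D) := by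
    have h1 := Polynomial.aeval_algHom_apply ((resF γ : F ≃ₐ[k] F) : F →ₐ[k] F) a (derivative D)
    have h2 : ((resF γ : F ≃ₐ[k] F) : F →ₐ[k] F) a = a := hUa
    rw [h2] at h1
    have h3 : (resF γ) (aeval a (derivative D)) = aeval a (derivative D) := h1.symm
    rw [map_mul, map_pow, map_neg, map_one, h3]
  have hcard : ((RR F g D).filter (fun β₁ => aeval β₁ g = a)).card = m := by
    have h1 := congrArg natDegree hlin
    rw [natDegree_sub_C, natDegree_map, natDegree_prod_of_monic _ _ fun _ _ => monic_X_sub_C _] at h1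
    simp only [natDegree_X_sub_C, Finset.sum_const, smul_eq_mul, mul_one] at h1
    rw [hmdef, h1]
  have hprod : ∀ β' ∈ RR F g D, ∏ β₁ ∈ (RR F g D).filter (fun β₁ => aeval β₁ g = a),
      (β₁ - β') = (-1) ^ m * (aeval β' g - a) := by
    intro β' _
    have h1 := congrArg (eval β') hlin
    rw [eval_sub, eval_C, hev, eval_prod] at h1
    simp only [eval_sub, eval_X, eval_C] at h1
    rw [h1, ← hcard, ← Finset.prod_const, ← Finset.prod_mul_distrib]
    exact Finset.prod_congr rfl fun β₁ _ => by ring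
  obtain ⟨cst, hcst⟩ := exists_formula hF H hc hLT hy h h' γ hγ hrel haD
  have hzF : IsPrimitiveRoot (algebraMap k F ζ) ℓ := H.zeta.map_of_injective hinj
  have hdvd : (ℓ : ℤ) ∣ cst := by
    refine g18_cst (R := RR F g D) (G := fun β₁ => aeval β₁ g) (a := a)
      (d := (-1) ^ (ℓ + 1) * aeval a (derivative D)) (z := algebraMap k F ζ)
      (U := ((resF γ : F ≃ₐ[k] F) : F →+* F)) (e := e) (e' := e') (m := m) hℓ hzF
      ((resF γ).commutes ζ) hUG hUa hUd (mul_ne_zero hε hd0) hprod hcard ?_ (h.sum) (h'.sum a) ?_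
    · rw [hmdef]
      exact H.cop
    · exact hcst
  have hζc : algebraMap k F ζ ^ cst = 1 := (hzF.zpow_eq_one_iff_dvd cst).2 hdvd
  have hz0 : algebraMap k F ζ ≠ 0 := hzF.ne_zero hℓ.ne_zero
  have hfin := hcst β ha.symm x ?_
  · rw [hfin, zpow_add₀ hz0, hζc, mul_one]
  · rw [hx, ← ha, hder β ha.symm, ← mul_assoc, mul_zpow _ (∏ _ ∈ _, _), mul_assoc]
    congr 1
    rw [← Finset.prod_zpow, ← Finset.prod_mul_distrib]
    refine Finset.prod_congr rfl fun β' hβ' => ?_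
    rw [← zpow_add₀ (hne β' hβ'), sub_eq_add_neg (e β)]

end Pool.Agent.Lib.MP_89bcae_ag.Sup

end

section

/-!
ROW G19 (200-350 lines). Independence of the differences implies that all invariant Selmer classes
vanish.

PROOF. Suppose that some `c` with `WWc c` is not `TTc`. Apply `exists_eigen_sub` (A04) to
`C = Coch`, `W = {c | WWc c}`, `T = {c | TTc c}` (additive subgroups by G06, GDefs), `G` = the subgroup of
`Aut(Ω/k(t))` of the `γ` with `resF γ β = β` for all `β` in `RR`, acting by `act` (`DistribMulAction` built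
from `act_one`, `act_mul`, `act_add`, `act_zero`), `Z = zC`, `ι = RR` (subtype), and
`E c ε := ∃ e, HasExp c e ∧ ∀ β, (e β : ZMod ℓ) = ε β`. Hypotheses: `hE` = G13; `hadd`, `hneg`, `hZE`, `hGE`,
`hET` = G12; `hker` = G14; `hinj`, `hsep` = G08; `hfin` = definition of `WWc`; `hZ` = `sum_zC_mem`;
`hZG` = `act_zC`. It gives `c`, `e` not divisible by `ℓ` on `RR`, `HasExp c e`, and `b : G → ZMod ℓ` such that
for `γ` in `G` and `y` with `act γ c - c - (y - Zy)` trivial and `HasExp y e'`: `e' ≡ b(γ) e` on `RR`.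
For each `γ` in `G` such a `y` exists: `act γ c - c` has exponents `e - e = 0` (G12), so G14. By G18:
for `β` in `RR` and `x` with `x^ℓ = X_β := (ε lc)^{e β} ∏ (β - β')^{e β - e β'}`: `U x = ζ^{b(γ) e β} x`,
for all `U` in `Aut(F/k)` fixing `RR` pointwise (`resF_surjective`), where `b = b(γ)` for any `γ` over `U`.
Let `K = k(RR)`, `β₀` with `ℓ ∤ e β₀`, `j e β₀ ≡ 1` modulo `ℓ`, `x₀^ℓ = X_{β₀}`, `κ₀ = X_{β₀}^j ∈ K`,
`κ₀ = (x₀^j)^ℓ`: `U (x₀^j) = ζ^{b} x₀^j`. For each `β` choose `x_β`; `x_β / (x₀^j)^{e β}` is fixed by all `U`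
in `Aut(F/K)`, so it is purely inseparable over `K` (some `p^s`-th power is in `K`), and its `ℓ`-th power
`X_β κ₀^{-e β}` is in `K`; as `p` is prime to `ℓ`, it is in `K` itself (Bezout:
`p^s a + ℓ b' = 1`). So `X_β κ₀^{-e β} = w^ℓ`, `w ∈ K`. With `κ = (ε lc) κ₀⁻¹`:
`w^ℓ = κ^{e β} ∏ (β - β')^{e β - e β'}`, which contradicts `IsIndependent` (the fibre sums of `e` are divisible
by `ℓ`, `HasExp.sum`). The finite products of `IsIndependent` (`finprod`, `finsum`) have to be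
rewritten as products over `RR` (`finprod_mem_eq_prod...`; the fibre of `g` through `β` in `RR` is in `RR`).
-/

open Polynomial IsDedekindDomain

open scoped Classical

namespace Pool.Agent.Lib.MP_89bcae_ag.Sup

universe u

/-- An element of the algebraic closure with `ℓ`-th power in `K` which is fixed by all
automorphisms over `K` is in `K`. -/
private lemma g19_mem_of_fixed {k F : Type u} [Field k] [Field F] [Algebra k F] [IsAlgClosure k F]
    {ℓ : ℕ} (hℓ : (ℓ : k) ≠ 0) (K : IntermediateField k F) (y : F) (hy0 : y ≠ 0)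
    (hy : y ^ ℓ ∈ K) (hfix : ∀ U : F ≃ₐ[k] F, (∀ a ∈ K, U a = a) → U y = y) : y ∈ K := by
  have : IsAlgClosed F := IsAlgClosure.isAlgClosed k
  have : Algebra.IsAlgebraic k F := IsAlgClosure.isAlgebraic
  have : Algebra.IsAlgebraic K F := Algebra.IsAlgebraic.tower_top (K := k) K
  have : IsAlgClosure K F := ⟨inferInstance, inferInstance⟩
  have : Normal K F := IsAlgClosure.normal K F
  have hℓ0 : ℓ ≠ 0 := by
    rintro rfl
    exact hℓ (by simp)
  have hsep : IsSeparable K y := by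
    have h1 : (X ^ ℓ - C (⟨y ^ ℓ, hy⟩ : K)).Separable := by
      apply separable_X_pow_sub_C
      · intro h
        apply hℓ
        have h2 := congrArg (algebraMap K F) h
        rw [map_natCast, map_zero, ← map_natCast (algebraMap k F)] at h2
        exact (map_eq_zero _).mp h2
      · intro h
        have h2 := congrArg (fun z : K => (z : F)) h
        exact hy0 ((pow_eq_zero_iff hℓ0).mp h2)
    refine Polynomial.Separable.of_dvd h1 (minpoly.dvd K y ?_)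
    rw [map_sub, map_pow, aeval_X, aeval_C]
    exact sub_self _
  by_contra hyK
  have h3 : y ∉ (⊥ : Subalgebra K F) := by
    intro h
    rw [Algebra.mem_bot] at h
    obtain ⟨z, rfl⟩ := h
    exact hyK z.2
  rw [notMem_iff_exists_ne_and_isConjRoot hsep (IsAlgClosed.splits _)] at h3
  obtain ⟨y', hne, hconj⟩ := h3
  rw [isConjRoot_iff_exists_algEquiv] at hconj
  obtain ⟨σ, hσ⟩ := hconj
  have h4 := hfix (σ.restrictScalars k).symm (by
    intro a ha
    rw [AlgEquiv.symm_apply_eq]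
    exact (σ.commutes ⟨a, ha⟩).symm)
  rw [AlgEquiv.symm_apply_eq] at h4
  apply hne
  apply σ.injective
  rw [hσ]
  exact h4.symm

/-- The descent of the Kummer classes. -/
private lemma g19_descent {k F : Type u} [Field k] [Field F] [Algebra k F] [IsAlgClosure k F]
    {ℓ : ℕ} (hp : ℓ.Prime) (hℓ : (ℓ : k) ≠ 0) {ζ : k} (hζ : ζ ^ ℓ = 1) (K : IntermediateField k F)
    (S : Set F) (XX : F → F) (hX0 : ∀ β ∈ S, XX β ≠ 0) (hXK : ∀ β ∈ S, XX β ∈ K) (e : F → ℤ)
    {β₀ : F} (hβ₀ : β₀ ∈ S) (he : ¬ (ℓ : ℤ) ∣ e β₀)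
    (hU : ∀ U : F ≃ₐ[k] F, (∀ a ∈ K, U a = a) → ∃ b : ℤ, ∀ β ∈ S, ∀ x : F, x ^ ℓ = XX β →
      U x = algebraMap k F ζ ^ (b * e β) * x) :
    ∃ κ ∈ K, κ ≠ 0 ∧ ∀ β ∈ S, ∃ w ∈ K, w ^ ℓ = XX β * (κ ^ e β)⁻¹ := by
  have : IsAlgClosed F := IsAlgClosure.isAlgClosed k
  have hℓ0 : ℓ ≠ 0 := hp.ne_zero
  set z := algebraMap k F ζ with hz
  have hz1 : z ^ (ℓ : ℤ) = 1 := by
    rw [hz, zpow_natCast, ← map_pow, hζ, map_one]
  have hz0 : z ≠ 0 := by
    intro h
    rw [h, zpow_natCast, zero_pow hℓ0] at hz1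
    exact zero_ne_one hz1
  -- `j e β₀ = 1 + ℓ s`
  obtain ⟨j, s, hjs⟩ : ∃ j s : ℤ, e β₀ * j = 1 + ℓ * s := by
    have hcop : IsCoprime (e β₀) (ℓ : ℤ) := by
      rw [isCoprime_comm]
      exact (Nat.prime_iff_prime_int.mp hp).coprime_iff_not_dvd.mpr he
    obtain ⟨a, b, hab⟩ := hcop
    exact ⟨a, -b, by linarith⟩
  obtain ⟨x₀, hx₀⟩ := IsAlgClosed.exists_pow_nat_eq (XX β₀) (Nat.pos_of_ne_zero hℓ0)
  have hx₀0 : x₀ ≠ 0 := by
    rintro rfl
    rw [zero_pow hℓ0] at hx₀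
    exact hX0 β₀ hβ₀ hx₀.symm
  refine ⟨XX β₀ ^ j, zpow_mem (hXK β₀ hβ₀) j, zpow_ne_zero _ (hX0 β₀ hβ₀), ?_⟩
  intro β hβ
  obtain ⟨x, hx⟩ := IsAlgClosed.exists_pow_nat_eq (XX β) (Nat.pos_of_ne_zero hℓ0)
  have hx0 : x ≠ 0 := by
    rintro rfl
    rw [zero_pow hℓ0] at hx
    exact hX0 β hβ hx.symm
  have hpow : (x * ((x₀ ^ j) ^ e β)⁻¹) ^ ℓ = XX β * ((XX β₀ ^ j) ^ e β)⁻¹ := by
    rw [mul_pow, hx, inv_pow, ← hx₀]
    congr 2
    rw [← zpow_natCast, ← zpow_natCast, ← zpow_mul, ← zpow_mul, ← zpow_mul, ← zpow_mul]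
    congr 1
    ring
  refine ⟨x * ((x₀ ^ j) ^ e β)⁻¹, ?_, hpow⟩
  apply g19_mem_of_fixed hℓ K _ (mul_ne_zero hx0 (inv_ne_zero (zpow_ne_zero _ (zpow_ne_zero _ hx₀0))))
  · rw [hpow]
    exact K.mul_mem (hXK β hβ) (K.inv_mem (zpow_mem (zpow_mem (hXK β₀ hβ₀) j) _))
  · intro U hUK
    obtain ⟨b, hb⟩ := hU U hUK
    have h1 := hb β hβ x hx
    have h2 := hb β₀ hβ₀ x₀ hx₀
    rw [map_mul, map_inv₀, map_zpow₀, map_zpow₀, h1, h2]
    have h3 : (z ^ (b * e β₀) * x₀) ^ j = z ^ b * x₀ ^ j := by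
      rw [mul_zpow, ← zpow_mul, mul_assoc b, hjs, mul_add, mul_one, zpow_add₀ hz0,
        show b * ((ℓ : ℤ) * s) = ℓ * (b * s) by ring, zpow_mul z (ℓ : ℤ), hz1, one_zpow, mul_one]
    rw [h3, mul_zpow, ← zpow_mul]
    have hzz : z ^ (b * e β) ≠ 0 := zpow_ne_zero _ hz0
    have hxx : (x₀ ^ j) ^ e β ≠ 0 := zpow_ne_zero _ (zpow_ne_zero _ hx₀0)
    field_simp

variable {k F L Ω : Type u} [Field k] [Field F] [Algebra k F] [Field L] [Algebra F[X] L]
  [Field Ω] [Algebra L Ω] [IsAlgClosure k F] [IsFractionRing F[X] L] [IsAlgClosure L Ω]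
  [Algebra F Ω] {ℓ : ℕ} {g D : k[X]} [hG : IsGood ℓ (cOver k F L Ω g D)] {ζ : k}

/-- The automorphisms whose restriction fixes the roots. -/
private def g19G : Subgroup (AutO k F L Ω) where
  carrier := {γ | ∀ β ∈ RR F g D, resF γ β = β}
  mul_mem' {γ γ'} h h' β hβ := by
    rw [map_mul, AlgEquiv.mul_apply, h' β hβ, h β hβ]
  one_mem' β _ := by
    rw [map_one, AlgEquiv.one_apply]
  inv_mem' {γ} h β hβ := by
    rw [map_inv]
    have h1 := h β hβ
    calc (resF γ)⁻¹ β = (resF γ)⁻¹ (resF γ β) := by rw [h1]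
      _ = ((resF γ)⁻¹ * resF γ) β := rfl
      _ = β := by rw [inv_mul_cancel, AlgEquiv.one_apply]

/-- The action on the cochains. -/
@[instance_reducible]
private noncomputable def g19A : DistribMulAction (g19G (L := L) (Ω := Ω) (F := F) (g := g) (D := D))
    (Coch ℓ k F L Ω g D) where
  smul γ c := act (γ : AutO k F L Ω) c
  one_smul c := act_one c
  mul_smul _ _ c := act_mul _ _ c
  smul_zero _ := act_zero _
  smul_add _ c c' := act_add _ c c'

/-- The formula for one automorphism of `F`. -/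
private lemma g19_formula (hF : CompatF F L Ω) (H : GlobHyp ℓ g D ζ)
    {hζ : (zA F L Ω ζ) ^ ℓ = 1}
    {c : Coch ℓ k F L Ω g D} (hc : WWc c) {e : F → ℤ} (h : HasExp hζ c e) (γ : AutO k F L Ω)
    (hγ : ∀ β ∈ RR F g D, resF γ β = β) (b : ℤ)
    (hb : ∀ (y : Coch ℓ k F L Ω g D) (e' : F → ℤ), WWc y →
      TTc (act γ c - c - (y - Sup.zC ζ hζ y)) → HasExp hζ y e' →
      ∀ β ∈ RR F g D, (ℓ : ℤ) ∣ e' β - b * e β) :
    ∀ β ∈ RR F g D, ∀ x : F,
      x ^ ℓ = ((-1) ^ (ℓ + 1) * algebraMap k F D.leadingCoeff) ^ e β *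
        ∏ β' ∈ (RR F g D).filter fun β' => aeval β' g ≠ aeval β g, (β - β') ^ (e β - e β') →
      resF γ x = algebraMap k F ζ ^ (b * e β) * x := by
  intro β hβ x hx
  have h1 : HasExp hζ (act γ c - c) (fun β => e β + -e β) := by
    rw [sub_eq_add_neg]
    exact (h.act hF H γ hγ).add hF H (h.neg hF H)
  obtain ⟨y, hy, hyT⟩ := exists_division hF H ((hc.act γ).sub hc) h1
    (fun β _ => by rw [add_neg_cancel]; exact dvd_zero _)
  obtain ⟨e', he'⟩ := exists_hasExp (hζ := hζ) hF H hy.1 hy.2.1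
  have h2 := exists_formula_symm hF H hc.1 hc.2.1 hy.1 h he' γ hγ hyT β hβ x hx
  obtain ⟨s, hs⟩ := hb y e' hy hyT he' β hβ
  have hz1 : algebraMap k F ζ ^ (ℓ : ℤ) = 1 := by
    rw [zpow_natCast, ← map_pow, H.zeta.pow_eq_one, map_one]
  have hz0 : algebraMap k F ζ ≠ 0 := by
    rw [Ne, map_eq_zero]
    exact H.zeta.ne_zero H.prime.ne_zero
  rw [h2, show e' β = b * e β + ℓ * s by rw [← hs]; ring, zpow_add₀ hz0, zpow_mul _ (ℓ : ℤ), hz1,
    one_zpow, mul_one]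

theorem TTc.of_WWc (hF : CompatF F L Ω) (H : GlobHyp ℓ g D ζ) (hI : IsIndependent ℓ k F g D)
    {c : Coch ℓ k F L Ω g D} (hc : WWc c) : TTc c := by
  by_contra hcT
  have hζ0 : IsPrimitiveRoot (zA F L Ω ζ) ℓ := zA_primitive H
  have hζ : (zA F L Ω ζ) ^ ℓ = 1 := hζ0.pow_eq_one
  have : Fact ℓ.Prime := ⟨H.prime⟩
  let W : AddSubgroup (Coch ℓ k F L Ω g D) :=
    { carrier := {c | WWc c}
      zero_mem' := TTc.zero.ww
      add_mem' := fun h h' => WWc.add h h'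
      neg_mem' := fun h => WWc.neg h }
  let T : AddSubgroup (Coch ℓ k F L Ω g D) :=
    { carrier := {c | TTc c}
      zero_mem' := TTc.zero
      add_mem' := fun h h' => TTc.add h h'
      neg_mem' := fun h => TTc.neg h }
  have hW : ∀ c, c ∈ W ↔ WWc c := fun c => Iff.rfl
  have hT : ∀ c, c ∈ T ↔ TTc c := fun c => Iff.rfl
  obtain ⟨c, hc, ε, ⟨e, he, heε⟩, hε, a, ha⟩ :=
    @exists_eigen_sub ℓ _ (Coch ℓ k F L Ω g D)
    (g19G (L := L) (Ω := Ω) (F := F) (g := g) (D := D)) {β // β ∈ RR F g D} _ _ g19A _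
    W T (Sup.zC ζ hζ)
    (fun c hc => hc.ww) (fun c hc => WWc.zC H hc hζ) (fun c hc => TTc.zC hc ζ hζ)
    (by
      intro u c hc
      exact WWc.act (γ := (u : AutO k F L Ω)) hc)
    (by
      intro u c hc
      exact TTc.act (γ := (u : AutO k F L Ω)) hc)
    (fun c hc => by
      rw [sum_zC_mem ζ hζ0 c]
      exact TTc.zero)
    (by
      intro u c hc
      change TTc (Sup.zC ζ hζ (Sup.act (u : AutO k F L Ω) c) -
        Sup.act (u : AutO k F L Ω) (Sup.zC ζ hζ c))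
      rw [act_zC, sub_self]
      exact TTc.zero)
    (fun c hc hcT => TTc.of_sub_zC H hζ hc.1 hcT)
    (fun c hc h => TTc.of_separated H hζ hc.1 (fun n => by
      obtain ⟨y, hy, hyT⟩ := h n
      exact ⟨y, hy.1, hyT⟩))
    (fun c ε => ∃ e : F → ℤ, HasExp hζ c e ∧ ∀ β : {β // β ∈ RR F g D}, ε β = (e β : ZMod ℓ))
    (fun c hc => by
      obtain ⟨e, he⟩ := exists_hasExp (hζ := hζ) hF H hc.1 hc.2.1
      exact ⟨fun β => (e β : ZMod ℓ), e, he, fun β => rfl⟩)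
    (by
      rintro c hc c' hc' ε ε' ⟨e, he, h⟩ ⟨e', he', h'⟩
      refine ⟨_, he.add hF H he', fun β => ?_⟩
      rw [Pi.add_apply, h, h', Int.cast_add])
    (by
      rintro c hc ε ⟨e, he, h⟩
      refine ⟨_, he.neg hF H, fun β => ?_⟩
      rw [Pi.neg_apply, h, Int.cast_neg])
    (by
      rintro c hc ε ⟨e, he, h⟩
      funext β
      rw [h, Pi.zero_apply, ZMod.intCast_zmod_eq_zero_iff_dvd]
      exact he.dvd_of_TTc hF H hc β β.2)
    (by
      rintro c hc ε ⟨e, he, h⟩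
      exact ⟨e, he.zC hF H, h⟩)
    (by
      rintro c hc ⟨e, he, h⟩
      exact exists_division hF H hc he (fun β hβ => by
        rw [← ZMod.intCast_zmod_eq_zero_iff_dvd, ← h ⟨β, hβ⟩, Pi.zero_apply]))
    (by
      rintro u c hc ε ⟨e, he, h⟩
      exact ⟨e, he.act hF H _ u.2, h⟩)
    (by
      intro u c hc
      obtain ⟨M, hM, h⟩ := hc.2.2 (u : AutO k F L Ω)
      exact ⟨M, hM, h⟩)
    (fun h => hcT (h hc))
  -- an exponent not divisible by `ℓ`
  obtain ⟨β₀, hβ₀, heβ₀⟩ : ∃ β₀ ∈ RR F g D, ¬ (ℓ : ℤ) ∣ e β₀ := by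
    by_contra h
    push Not at h
    apply hε
    funext β
    rw [heε, Pi.zero_apply, ZMod.intCast_zmod_eq_zero_iff_dvd]
    exact h β β.2
  set K := IntermediateField.adjoin k (roots k F g D) with hK
  have hRK : ∀ β ∈ RR F g D, β ∈ K := fun β hβ =>
    IntermediateField.subset_adjoin k _ ((mem_RR H).mp hβ)
  have hmemR : ∀ β, β ∈ roots k F g D ↔ β ∈ RR F g D := fun β => (mem_RR H).symm
  set c0 : F := (-1) ^ (ℓ + 1) * algebraMap k F D.leadingCoeff with hc0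
  have hD0 : D ≠ 0 := by
    rintro rfl
    exact H.pos natDegree_zero
  have hc00 : c0 ≠ 0 := by
    rw [hc0]
    refine mul_ne_zero (pow_ne_zero _ (neg_ne_zero.mpr one_ne_zero)) ?_
    rw [Ne, map_eq_zero, leadingCoeff_eq_zero]
    exact hD0
  have hc0K : c0 ∈ K := by
    rw [hc0]
    exact K.mul_mem (pow_mem (K.neg_mem K.one_mem) _) (K.algebraMap_mem _)
  obtain ⟨κ, hκK, hκ0, hκ⟩ := g19_descent (k := k) (F := F) H.prime H.ne H.zeta.pow_eq_one K
    (RR F g D : Set F)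
    (fun β => c0 ^ e β *
      ∏ β' ∈ (RR F g D).filter fun β' => aeval β' g ≠ aeval β g, (β - β') ^ (e β - e β'))
    (by
      intro β hβ
      refine mul_ne_zero (zpow_ne_zero _ hc00) (Finset.prod_ne_zero_iff.mpr fun β' hβ' =>
        zpow_ne_zero _ ?_)
      rw [Finset.mem_filter] at hβ'
      intro h0
      exact hβ'.2 (by rw [sub_eq_zero.mp h0]))
    (by
      intro β hβ
      refine K.mul_mem (zpow_mem hc0K _) (prod_mem fun β' hβ' => zpow_mem (K.sub_mem (hRK β hβ)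
        (hRK β' (Finset.mem_filter.mp hβ').1)) _))
    e hβ₀ heβ₀
    (by
      intro U hU
      obtain ⟨γ, rfl⟩ := resF_surjective (L := L) (Ω := Ω) U
      have hγ : ∀ β ∈ RR F g D, resF γ β = β := fun β hβ => hU β (hRK β hβ)
      refine ⟨((a ⟨γ, hγ⟩).val : ℤ), ?_⟩
      refine g19_formula hF H hc he γ hγ _ ?_
      intro y e' hy hyT he' β hβ
      have h1 := ha ⟨γ, hγ⟩ y hy (fun β => (e' β : ZMod ℓ)) hyT ⟨e', he', fun β => rfl⟩
      have h2 := congrFun h1 ⟨β, hβ⟩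
      rw [← ZMod.intCast_zmod_eq_zero_iff_dvd]
      rw [Pi.smul_apply, heε, smul_eq_mul] at h2
      push_cast
      rw [h2, ZMod.natCast_zmod_val, sub_self])
  have h1 := hI e (c0 * κ⁻¹) (mul_ne_zero hc00 (inv_ne_zero hκ0))
    (K.mul_mem hc0K (K.inv_mem hκK))
    (by
      intro β hβ
      have h2 := he.sum (aeval β g)
      have h3 : {β' : F | aeval β' g = aeval β g} =
          (((RR F g D).filter fun β' => aeval β' g = aeval β g : Finset F) : Set F) := by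
        ext β'
        rw [Finset.coe_filter, Set.mem_ofPred_eq, Set.mem_ofPred_eq]
        refine ⟨fun h => ⟨?_, h⟩, fun h => h.2⟩
        rw [mem_RR H, h]
        exact hβ
      rw [h3, finsum_mem_coe_finset]
      exact h2)
    (by
      intro β hβ
      obtain ⟨w, hw, hwe⟩ := hκ β ((hmemR β).mp hβ)
      refine ⟨w, hw, ?_⟩
      have h3 : {β' ∈ roots k F g D | aeval β' g ≠ aeval β g} =
          (((RR F g D).filter fun β' => aeval β' g ≠ aeval β g : Finset F) : Set F) := by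
        ext β'
        rw [Finset.coe_filter, Set.mem_ofPred_eq, Set.mem_ofPred_eq, hmemR]
      rw [h3, finprod_mem_coe_finset, hwe, mul_zpow c0, inv_zpow]
      ring)
  exact heβ₀ (h1 β₀ ((hmemR β₀).mpr hβ₀))

end Pool.Agent.Lib.MP_89bcae_ag.Sup

end

section

/-!
ROW G20 (80-160 lines). THE MAIN THEOREM.

PROOF. `IsGood` by `isGood_cOver`, `Algebra F Ω` through `L` (`letI`; `CompatF` is then `rfl`). Let `c` be as
in `NoTateClass` (`LTc` is the case `v = plc a`). It is in `WW`: for `γ` in `Aut(Ω/k(t))`, `k'` is generated by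
finitely many elements algebraic over `k`, which have finitely many conjugates, so
`U = resF γ` has a power `U^M`, `M > 0`, which fixes `k'` pointwise (the orbit of each generator under
`U` is finite), i.e. `γ^M` fixes `k'(t)`; by hypothesis the class of `c` is fixed up to torsion by
`γ^M`, and `TTc.of_isFixedBy` (G08). Then `TTc.of_WWc` (G19).
-/

open Polynomial IsDedekindDomain

open scoped Classical

namespace Pool.Agent.Lib.MP_89bcae_ag.Sup

universe u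

lemma G20_exists_pow {k F : Type u} [Field k] [Field F] [Algebra k F] [IsAlgClosure k F]
    (k' : IntermediateField k F) [FiniteDimensional k k'] (U : F ≃ₐ[k] F) :
    ∃ M : ℕ, 0 < M ∧ ∀ x : k', (U ^ M) (x : F) = x := by
  haveI : Finite (k' →ₐ[k] F) := inferInstance
  obtain ⟨a, b, hab, h⟩ := Finite.exists_ne_map_eq_of_infinite
    (fun n : ℕ => ((U ^ n : F ≃ₐ[k] F) : F →ₐ[k] F).comp k'.val)
  wlog hlt : a < b generalizing a b with H
  · exact H b a hab.symm h.symm (lt_of_le_of_ne (not_lt.mp hlt) hab.symm)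
  refine ⟨b - a, Nat.sub_pos_of_lt hlt, fun x => ?_⟩
  have hx := DFunLike.congr_fun h x
  have hx' : (U ^ a) (x : F) = (U ^ b) (x : F) := hx
  have e : U ^ b = U ^ a * U ^ (b - a) := by
    rw [← pow_add, Nat.add_sub_cancel' hlt.le]
  rw [e, AlgEquiv.mul_apply] at hx'
  exact ((U ^ a).injective hx').symm

theorem main {ℓ : ℕ} (k F L Ω : Type u) [Field k] [Field F] [Algebra k F] [IsAlgClosure k F]
    [Field L] [Algebra F[X] L] [IsFractionRing F[X] L] [Field Ω] [Algebra L Ω] [IsAlgClosure L Ω]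
    (g D : k[X]) (ζ : k) (H : GlobHyp ℓ g D ζ) (hI : IsIndependent ℓ k F g D)
    (k' : IntermediateField k F) [FiniteDimensional k k'] :
    NoTateClass ℓ L Ω g D k' := by
  letI : Algebra F Ω := ((algebraMap L Ω).comp ((algebraMap F[X] L).comp C)).toAlgebra
  have hF : CompatF F L Ω := fun c => rfl
  haveI : IsAlgClosed Ω := IsAlgClosure.isAlgClosed L
  haveI : IsGood ℓ (cOver k F L Ω g D) := isGood_cOver H
  intro c hc hloc hfix
  have hW : WWc (k := k) (F := F) (L := L) (Ω := Ω) (g := g) (D := D) c := by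
    refine ⟨hc, fun a n => hloc (plc a) n, fun γ => ?_⟩
    obtain ⟨M, hM, hMx⟩ := G20_exists_pow k' (resF γ)
    refine ⟨M, hM, TTc.of_isFixedBy H hc (γ ^ M) (hfix _ _ fun p => ?_)⟩
    have h1 : base k' F L Ω p =
        algebraMap L Ω (algebraMap F[X] L (p.map (algebraMap k' F))) := rfl
    rw [h1, resF_spec, Polynomial.map_map]
    have h2 : ((resF (γ ^ M) : F ≃ₐ[k] F) : F →+* F).comp (algebraMap k' F) =
        algebraMap k' F := by
      refine RingHom.ext fun x => ?_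
      rw [map_pow]
      exact hMx x
    rw [h2]
  exact (TTc.of_WWc hF H hI hW).2

end Pool.Agent.Lib.MP_89bcae_ag.Sup

end
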