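import Mathlib
import Pool.Agent.Lib.MP_89bcae_ag.Rk.K028

section

/-!
# Towers: cocycles of a normal subgroup `N` of `Gal(Ω/L)`, definitions

The curve is `y ^ ℓ = g(x) - t`, i.e. `curvePoly k F L g 1` (in the formal part `D` is arbitrary);
`E` is the polynomial of the tower `s ^ (ℓ ^ r) = E(t)`, `RR F g E` are the roots of `E(g(x))`.
-/

open Polynomial IsDedekindDomain

open scoped Classical

set_option linter.unusedSectionVars false

namespace Pool.Agent.Lib.MP_89bcae_ag.Sup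

universe u

section

variable {k F L Ω : Type u} [Field k] [Field F] [Algebra k F] [Field L] [Algebra F[X] L]
  [Field Ω] [Algebra L Ω]

/-- The maps from `Gal(Ω/L)` to the Jacobian. -/
abbrev Ch (ℓ : ℕ) (k F L Ω : Type u) [Field k] [Field F] [Algebra k F] [Field L]
    [Algebra F[X] L] [Field Ω] [Algebra L Ω] (g D : k[X]) : Type u :=
  (Ω ≃ₐ[L] Ω) → JacOver ℓ (curvePoly k F L g D) Ω

/-- The subgroup `N` is stable under conjugation by `Aut(Ω/k(t))`. -/
def Nrm (k F : Type u) {L Ω : Type u} [Field k] [Field F] [Algebra k F] [IsAlgClosure k F]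
    [Field L] [Algebra F[X] L] [IsFractionRing F[X] L] [Field Ω] [Algebra L Ω]
    [IsAlgClosure L Ω] (N : Subgroup (Ω ≃ₐ[L] Ω)) : Prop :=
  ∀ (γ : AutO k F L Ω), ∀ σ ∈ N, conjG γ σ ∈ N

/-- The image in `Ω` of an element of `F`. -/
noncomputable def xA (F L Ω : Type u) [Field F] [Field L] [Algebra F[X] L] [Field Ω]
    [Algebra L Ω] (x : F) : Ω :=
  algebraMap L Ω (algebraMap F[X] L (C x))

/-- The exponents `q` of the action on the roots of unity of `ℓ`-power order. -/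
def QOk (ℓ q : ℕ) : Prop := 0 < q ∧ ℓ ∣ q - 1 ∧ ℓ ∣ q.choose 2

/-- The subgroup `N` is open. -/
def Opn {L Ω : Type u} [Field L] [Field Ω] [Algebra L Ω] (N : Subgroup (Ω ≃ₐ[L] Ω)) : Prop :=
  ∃ S : Finset Ω, ∀ σ : Ω ≃ₐ[L] Ω, (∀ x ∈ S, σ x = x) → σ ∈ N

/-- The subgroup `N` is transitive on the roots of `f`. -/
def Trs {L Ω : Type u} [Field L] [Field Ω] [Algebra L Ω] (f : Polynomial Ω)
    (N : Subgroup (Ω ≃ₐ[L] Ω)) : Prop :=
  ∀ θ ∈ rts f, ∀ θ' ∈ rts f, ∃ σ ∈ N, σ θ = θ'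

end

section

variable {k F L Ω : Type u} [Field k] [Field F] [Algebra k F] [Field L] [Algebra F[X] L]
  [Field Ω] [Algebra L Ω] [IsAlgClosure k F] [IsFractionRing F[X] L] [IsAlgClosure L Ω]
  {ℓ : ℕ} {g D : k[X]} [hG : IsGood ℓ (cOver k F L Ω g D)]

/-- The action of `Aut(Ω/k(t))` on the maps from `Gal(Ω/L)`. -/
noncomputable def act1 (γ : AutO k F L Ω) (x : Ch ℓ k F L Ω g D) : Ch ℓ k F L Ω g D :=
  fun σ => symJ (toSym g D γ) (x (conjG γ⁻¹ σ))

/-- The coboundary of `A`. -/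
noncomputable def cob (A : JacOver ℓ (curvePoly k F L g D) Ω) : Ch ℓ k F L Ω g D :=
  fun σ => symJ (toSym g D (galA k F σ)) A - A

/-- `x` is a continuous cocycle of `N`. -/
structure C1s (N : Subgroup (Ω ≃ₐ[L] Ω)) (x : Ch ℓ k F L Ω g D) : Prop where
  cocycle : ∀ σ ∈ N, ∀ τ ∈ N, x (σ * τ) = x σ + symJ (toSym g D (galA k F σ)) (x τ)
  cont : ∃ S : Finset Ω, ∀ σ ∈ N, (∀ y ∈ S, σ y = y) → x σ = 0

/-- `h` is a continuous cocycle of `N` with values in the fixed points of `Z`. -/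
structure MCs (ζ : k) (hζ : (zA F L Ω ζ) ^ ℓ = 1) (N : Subgroup (Ω ≃ₐ[L] Ω))
    (h : Ch ℓ k F L Ω g D) : Prop extends C1s N h where
  fixed : ∀ σ ∈ N, zJ (zA F L Ω ζ) hζ (h σ) = h σ

/-- `c` is a Tate cocycle of `N`. -/
structure TCs (N : Subgroup (Ω ≃ₐ[L] Ω)) (c : Coch ℓ k F L Ω g D) : Prop where
  c1 : ∀ n, C1s N (c n)
  zero : ∀ σ ∈ N, c 0 σ = 0
  smul : ∀ n, ∀ σ ∈ N, ℓ • c (n + 1) σ = c n σ

/-- `c` is a trivial Tate cocycle of `N`. -/
def TTs (N : Subgroup (Ω ≃ₐ[L] Ω)) (c : Coch ℓ k F L Ω g D) : Prop :=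
  TCs N c ∧ ∀ n, ∃ A : JacOver ℓ (curvePoly k F L g D) Ω, ℓ ^ n • A = 0 ∧
    ∀ σ ∈ N, c n σ = cob A σ

/-- The restriction to `N` of `x` is locally trivial over the field `Lv`. -/
def LocTrivOn (N : Subgroup (Ω ≃ₐ[L] Ω)) (x : Ch ℓ k F L Ω g D) (Lv : Type u) [Field Lv]
    [Algebra L Lv] : Prop :=
  ∀ (M : Type u) [Field M] [Algebra Lv M] [IsAlgClosure Lv M] [Algebra L M]
    [IsScalarTower L Lv M] (j : Ω →ₐ[L] M), ∃ Q : JacOver ℓ (curvePoly k F L g D) M,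
      ∀ (σ : M ≃ₐ[Lv] M) (σ' : Ω ≃ₐ[L] Ω), σ' ∈ N → (∀ x, j (σ' x) = σ (j x)) →
        push ℓ (curvePoly k F L g D) j (x σ') =
          push ℓ (curvePoly k F L g D) (σ.restrictScalars L : M →ₐ[L] M) Q - Q

/-- The restriction to `N` of `c` is locally trivial at all the places `t = a`. -/
def LTs (N : Subgroup (Ω ≃ₐ[L] Ω)) (c : Coch ℓ k F L Ω g D) : Prop :=
  ∀ (a : F) (n : ℕ), LocTrivOn N (c n) ((plc a).adicCompletion L)

/-- The locally trivial Tate cocycles of `N` whose class is fixed by a power of each automorphism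
over `k(t)`. -/
def WWs (N : Subgroup (Ω ≃ₐ[L] Ω)) (c : Coch ℓ k F L Ω g D) : Prop :=
  TCs N c ∧ LTs N c ∧ ∀ γ : AutO k F L Ω, ∃ M : ℕ, 0 < M ∧ TTs N (act (γ ^ M) c - c)

/-- The operator `(1 - τ) ^ n`. -/
noncomputable def pw (τ : Ω ≃ₐ[L] Ω) (n : ℕ) (c : Coch ℓ k F L Ω g D) : Coch ℓ k F L Ω g D :=
  (fun x => x - act (galA k F τ) x)^[n] c

/-- `h` is given by the Kummer functions with exponents `e`. -/
structure HasExpM [Algebra F Ω] (ζ : k) (E : k[X]) (h : Ch ℓ k F L Ω g D) (e : F → ℤ) :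
    Prop where
  sum : ∀ a : F, (ℓ : ℤ) ∣ ∑ β ∈ (RR F g E).filter (fun β => aeval β g = a), e β
  ex : ∃ z : Ω → Ω, (∀ θ ∈ rts (cOver k F L Ω g D),
      z θ ^ ℓ = ∏ β ∈ RR F g E, (θ - algebraMap F Ω β) ^ e β) ∧
    ∀ (σ : Ω ≃ₐ[L] Ω) (n : Ω → ℤ), (∀ θ ∈ rts (cOver k F L Ω g D),
      σ (z θ) = zA F L Ω ζ ^ n (σ θ) * z (σ θ)) → h σ = ram n

end

end Pool.Agent.Lib.MP_89bcae_ag.Sup

end

section

open Polynomial IsDedekindDomain

open scoped Classical

set_option linter.unusedSectionVars false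

namespace Pool.Agent.Lib.MP_89bcae_ag.Sup

universe u

/-- The operator `v` depends only on the root of unity. -/
lemma ta03_vJ_congr {ℓ : ℕ} {E : Type u} [Field E] {f : E[X]} [IsGood ℓ f] {z z' : E}
    (h : z = z') (hz : z ^ ℓ = 1) (hz' : z' ^ ℓ = 1) (Q : Jac ℓ f) :
    vJ z hz Q = vJ z' hz' Q := by
  subst h
  rfl

variable {k F L Ω : Type u} [Field k] [Field F] [Algebra k F] [Field L] [Algebra F[X] L]
  [Field Ω] [Algebra L Ω] [IsAlgClosure k F] [IsFractionRing F[X] L] [IsAlgClosure L Ω]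
  {ℓ : ℕ} {g D : k[X]} [hG : IsGood ℓ (cOver k F L Ω g D)] {N : Subgroup (Ω ≃ₐ[L] Ω)}

/-- The curve is good over every algebraically closed extension of `L`. -/
def GoodAll (ℓ : ℕ) (k F L : Type u) [Field k] [Field F] [Algebra k F] [Field L]
    [Algebra F[X] L] (g D : k[X]) : Prop :=
  ∀ (M : Type u) [Field M] [Algebra L M] [IsAlgClosed M], IsGood ℓ (cOver k F L M g D)

lemma LTs.add {c c' : Coch ℓ k F L Ω g D} (hc : LTs N c) (hc' : LTs N c') :
    LTs N (c + c') := by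
  intro a n M _ _ _ _ _ j
  obtain ⟨Q, hQ⟩ := hc a n M j
  obtain ⟨Q', hQ'⟩ := hc' a n M j
  refine ⟨Q + Q', fun s s' hs h => ?_⟩
  rw [show (c + c') n s' = c n s' + c' n s' from rfl, map_add, hQ s s' hs h, hQ' s s' hs h,
    map_add]
  abel

lemma LTs.neg {c : Coch ℓ k F L Ω g D} (hc : LTs N c) : LTs N (-c) := by
  intro a n M _ _ _ _ _ j
  obtain ⟨Q, hQ⟩ := hc a n M j
  refine ⟨-Q, fun s s' hs h => ?_⟩
  rw [show (-c) n s' = -(c n s') from rfl, map_neg, hQ s s' hs h, map_neg]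
  abel

lemma LTs.zC (hA : GoodAll ℓ k F L g D) {ζ : k} {c : Coch ℓ k F L Ω g D} (hc : LTs N c)
    (hζ : (zA F L Ω ζ) ^ ℓ = 1) : LTs N (Sup.zC ζ hζ c) := by
  intro a n M _ _ _ _ _ j
  obtain ⟨Q, hQ⟩ := hc a n M j
  have : IsAlgClosed M := IsAlgClosure.isAlgClosed ((plc a).adicCompletion L)
  have hM : IsGood ℓ (cOver k F L M g D) := hA M
  have hζM : ((j : Ω →+* M) (zA F L Ω ζ)) ^ ℓ = 1 := by
    rw [← map_pow, hζ, map_one]
  refine ⟨zJ ((j : Ω →+* M) (zA F L Ω ζ)) hζM Q, fun s s' hs h => ?_⟩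
  have h1 : push ℓ (curvePoly k F L g D) j (Sup.zC ζ hζ c n s') =
      zJ ((j : Ω →+* M) (zA F L Ω ζ)) hζM (push ℓ (curvePoly k F L g D) j (c n s')) :=
    (zJ_jacMap (j : Ω →+* M) _ (zA F L Ω ζ) hζ hζM (c n s')).symm
  have hz : ((s.restrictScalars L : M →ₐ[L] M) : M →+* M) ((j : Ω →+* M) (zA F L Ω ζ)) =
      (j : Ω →+* M) (zA F L Ω ζ) := by
    have h2 : (j : Ω →+* M) (zA F L Ω ζ) = algebraMap L M (base k F L L (C ζ)) :=
      j.commutes _
    rw [h2]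
    exact (s.restrictScalars L : M →ₐ[L] M).commutes _
  have hζM' : (((s.restrictScalars L : M →ₐ[L] M) : M →+* M)
      ((j : Ω →+* M) (zA F L Ω ζ))) ^ ℓ = 1 := by
    rw [hz, hζM]
  have h3 : push ℓ (curvePoly k F L g D) (s.restrictScalars L : M →ₐ[L] M)
      (zJ ((j : Ω →+* M) (zA F L Ω ζ)) hζM Q) = zJ ((j : Ω →+* M) (zA F L Ω ζ)) hζM
        (push ℓ (curvePoly k F L g D) (s.restrictScalars L : M →ₐ[L] M) Q) :=
    (zJ_jacMap ((s.restrictScalars L : M →ₐ[L] M) : M →+* M) _ _ hζM hζM' Q).symm.trans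
      (G04_zJ_congr hz hζM' hζM _)
  rw [h1, hQ s s' hs h, map_sub, h3]

lemma LTs.congr {c c' : Coch ℓ k F L Ω g D} (hc : LTs N c)
    (h : ∀ n, ∀ σ ∈ N, c' n σ = c n σ) : LTs N c' := by
  intro a n M _ _ _ _ _ j
  obtain ⟨Q, hQ⟩ := hc a n M j
  refine ⟨Q, fun s s' hs hj => ?_⟩
  rw [h n s' hs]
  exact hQ s s' hs hj

lemma LTs.of_cob {c : Coch ℓ k F L Ω g D}
    (hc : ∀ n, ∃ A : JacOver ℓ (curvePoly k F L g D) Ω, ∀ σ ∈ N, c n σ = cob A σ) :
    LTs N c := by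
  intro a n M _ _ _ _ _ j
  obtain ⟨A, hA⟩ := hc n
  refine ⟨push ℓ (curvePoly k F L g D) j A, fun s s' hs h => ?_⟩
  have e : j.comp (s' : Ω →ₐ[L] Ω) = (s.restrictScalars L : M →ₐ[L] M).comp j :=
    AlgHom.ext h
  rw [hA s' hs, cob, ← push_eq (k := k) (F := F) (g := g) (D := D) s' A, map_sub, push_push,
    push_push, e]

lemma TTs.lts {c : Coch ℓ k F L Ω g D} (hc : TTs N c) : LTs N c := by
  refine LTs.of_cob fun n => ?_
  obtain ⟨A, _, hA⟩ := hc.2 n
  exact ⟨A, hA⟩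

lemma LTs.shift {c : Coch ℓ k F L Ω g D} (hc : LTs N c) (φ : ℕ → ℕ) :
    LTs N (fun n => c (φ n) : Coch ℓ k F L Ω g D) :=
  fun a n => hc a (φ n)

lemma LTs.v (hA : GoodAll ℓ k F L g D) {ζ : k} {c : Coch ℓ k F L Ω g D} (hc : LTs N c)
    (hζ : (zA F L Ω ζ) ^ ℓ = 1) :
    LTs N (fun n σ => vJ (zA F L Ω ζ) hζ (c n σ) : Coch ℓ k F L Ω g D) := by
  intro a n M _ _ _ _ _ j
  obtain ⟨Q, hQ⟩ := hc a n M j
  have : IsAlgClosed M := IsAlgClosure.isAlgClosed ((plc a).adicCompletion L)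
  have hM : IsGood ℓ (cOver k F L M g D) := hA M
  have hζM : ((j : Ω →+* M) (zA F L Ω ζ)) ^ ℓ = 1 := by
    rw [← map_pow, hζ, map_one]
  refine ⟨vJ ((j : Ω →+* M) (zA F L Ω ζ)) hζM Q, fun s s' hs h => ?_⟩
  have h1 : push ℓ (curvePoly k F L g D) j (vJ (zA F L Ω ζ) hζ (c n s')) =
      vJ ((j : Ω →+* M) (zA F L Ω ζ)) hζM (push ℓ (curvePoly k F L g D) j (c n s')) :=
    (vJ_jacMap (j : Ω →+* M) _ (zA F L Ω ζ) hζ hζM (c n s')).symm
  have hz : ((s.restrictScalars L : M →ₐ[L] M) : M →+* M) ((j : Ω →+* M) (zA F L Ω ζ)) =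
      (j : Ω →+* M) (zA F L Ω ζ) := by
    have h2 : (j : Ω →+* M) (zA F L Ω ζ) = algebraMap L M (base k F L L (C ζ)) :=
      j.commutes _
    rw [h2]
    exact (s.restrictScalars L : M →ₐ[L] M).commutes _
  have hζM' : (((s.restrictScalars L : M →ₐ[L] M) : M →+* M)
      ((j : Ω →+* M) (zA F L Ω ζ))) ^ ℓ = 1 := by
    rw [hz, hζM]
  have h3 : push ℓ (curvePoly k F L g D) (s.restrictScalars L : M →ₐ[L] M)
      (vJ ((j : Ω →+* M) (zA F L Ω ζ)) hζM Q) = vJ ((j : Ω →+* M) (zA F L Ω ζ)) hζM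
        (push ℓ (curvePoly k F L g D) (s.restrictScalars L : M →ₐ[L] M) Q) :=
    (vJ_jacMap ((s.restrictScalars L : M →ₐ[L] M) : M →+* M) _ _ hζM hζM' Q).symm.trans
      (ta03_vJ_congr hz hζM' hζM _)
  rw [h1, hQ s s' hs h, vJ_sub, h3]

/-- From a larger group to a smaller one. -/
lemma LTs.mono {N' : Subgroup (Ω ≃ₐ[L] Ω)} (hN : N' ≤ N) {c : Coch ℓ k F L Ω g D}
    (hc : LTs N c) : LTs N' c := by
  intro a n M _ _ _ _ _ j
  obtain ⟨Q, hQ⟩ := hc a n M j
  exact ⟨Q, fun s s' hs hj => hQ s s' (hN hs) hj⟩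

end Pool.Agent.Lib.MP_89bcae_ag.Sup

end

section

open Polynomial IsDedekindDomain

open scoped Classical

set_option linter.unusedSectionVars false

namespace Pool.Agent.Lib.MP_89bcae_ag.Sup

universe u

private lemma tb00_deriv {k : Type u} [Field k] {ℓ : ℕ} {g E : k[X]} {ζ : k}
    (H : GlobHyp ℓ g E ζ) : g.natDegree ≠ 0 ∧ derivative g ≠ 0 := by
  have hm : g.natDegree ≠ 0 := by
    intro h
    have h1 := H.cop
    rw [h, Nat.coprime_zero_left] at h1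
    exact H.prime.one_lt.ne' h1
  refine ⟨hm, fun h0 => ?_⟩
  have h1 := H.sep
  rw [separable_def, derivative_comp, h0, zero_mul, isCoprime_zero_right] at h1
  have h2 := natDegree_eq_zero_of_isUnit h1
  rw [natDegree_comp] at h2
  rcases mul_eq_zero.1 h2 with h3 | h3
  · exact H.pos h3
  · exact hm h3

variable {k F L Ω : Type u} [Field k] [Field F] [Algebra k F] [Field L] [Algebra F[X] L]
  [Field Ω] [Algebra L Ω] [IsAlgClosure k F] [IsFractionRing F[X] L] [IsAlgClosure L Ω]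
  [Algebra F Ω] {ℓ : ℕ} {g E : k[X]} [hG : IsGood ℓ (cOver k F L Ω g 1)] {ζ : k}
  {hζ : (zA F L Ω ζ) ^ ℓ = 1} {N : Subgroup (Ω ≃ₐ[L] Ω)}

omit [Field Ω] [Algebra L Ω] [IsAlgClosure k F] [IsFractionRing F[X] L] [IsAlgClosure L Ω]
  [Algebra F Ω] hG in
private lemma tb00_cOver_one {A : Type u} [Field A] [Algebra L A] [Algebra F A]
    (hF : CompatF F L A) (g : k[X]) :
    cOver k F L A g 1 = locPoly (g.map (algebraMap k F)) (tA F L A) 1 := by
  rw [cOver_eq_locPoly hF, Polynomial.map_one, map_one]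

omit [Field Ω] [Algebra L Ω] [IsAlgClosure L Ω] [Algebra F Ω] hG in
private lemma tb00_good (H : GlobHyp ℓ g E ζ) {A : Type u} [Field A] [Algebra L A]
    [IsAlgClosed A] : IsGood ℓ (cOver k F L A g 1) := by
  let _ : Algebra F A := ((algebraMap L A).comp ((algebraMap F[X] L).comp C)).toAlgebra
  have hF : CompatF F L A := fun c => rfl
  have : IsAlgClosed F := IsAlgClosure.isAlgClosed k
  obtain ⟨hm, hder⟩ := tb00_deriv H
  have hg : (g.map (algebraMap k F)).Monic := H.monic.map _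
  have hm' : (g.map (algebraMap k F)).natDegree ≠ 0 := by rwa [natDegree_map]
  have hder' : derivative (g.map (algebraMap k F)) ≠ 0 := by
    rw [derivative_map]
    exact (Polynomial.map_ne_zero_iff (algebraMap k F).injective).2 hder
  have hd : (1 : A) ≠ 0 := one_ne_zero
  refine ⟨inferInstance, H.prime, ?_, ?_, ?_⟩
  · have h1 : ((algebraMap F A).comp (algebraMap k F)) (ℓ : k) = (ℓ : A) := map_natCast _ ℓ
    rw [← h1]
    exact (_root_.map_ne_zero _).2 H.ne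
  · rw [tb00_cOver_one hF, separable_def, isCoprime_iff_aeval_ne_zero_of_isAlgClosed A A]
    intro a
    by_contra hcon
    rw [not_or, not_not, not_not] at hcon
    obtain ⟨h1, h2⟩ := hcon
    rw [coe_aeval_eq_eval] at h1 h2
    rw [eval_locPoly_eq_zero hd] at h1
    have h3 : aeval a (derivative (g.map (algebraMap k F))) = 0 := by
      unfold locPoly at h2
      rw [derivative_C_mul, derivative_sub, derivative_C, sub_zero, derivative_map, eval_mul,
        eval_C] at h2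
      rcases mul_eq_zero.1 h2 with h4 | h4
      · exact absurd h4 (inv_ne_zero hd)
      · rw [eval_map, ← aeval_def] at h4
        exact h4
    have h4 : IsAlgebraic F a := ⟨_, hder', h3⟩
    have hi : IsIntegral F a := h4.isIntegral
    have hdeg : (minpoly F a).degree = 1 :=
      IsAlgClosed.degree_eq_one_of_irreducible F (minpoly.irreducible hi)
    have h5 : aeval a (minpoly F a) = 0 := minpoly.aeval F a
    rw [eq_X_add_C_of_degree_eq_one hdeg, (minpoly.monic hi).leadingCoeff, C_1, one_mul, aeval_add,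
      aeval_X, aeval_C, add_eq_zero_iff_eq_neg, ← map_neg] at h5
    rw [h5, aeval_algebraMap_apply] at h1
    have h6 : algebraMap L A (algebraMap F[X] L (C (aeval (-(minpoly F a).coeff 0)
        (g.map (algebraMap k F))))) = algebraMap L A (algebraMap F[X] L X) := h1
    exact X_ne_C _ (IsFractionRing.injective F[X] L ((algebraMap L A).injective h6)).symm
  · rw [tb00_cOver_one hF, natDegree_locPoly hg hm' hd, natDegree_map]
    exact H.cop

lemma goodAll_one (H : GlobHyp ℓ g E ζ) : GoodAll ℓ k F L g 1 := by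
  intro M _ _ _
  exact tb00_good H

lemma cOver_one {A : Type u} [Field A] [Algebra L A] [Algebra F A] (hF : CompatF F L A)
    (g : k[X]) : cOver k F L A g 1 = locPoly (g.map (algebraMap k F)) (tA F L A) 1 :=
  tb00_cOver_one hF g

lemma rts_one (H : GlobHyp ℓ g E ζ) {A : Type u} [Field A] [Algebra L A] [IsAlgClosed A] :
    rts (cOver k F L A g 1) = rts (cOver k F L A g E) := by
  let _ : Algebra F A := ((algebraMap L A).comp ((algebraMap F[X] L).comp C)).toAlgebra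
  have hF : CompatF F L A := fun c => rfl
  have h1 : IsGood ℓ (cOver k F L A g 1) := tb00_good H
  have h2 : IsGood ℓ (cOver k F L A g E) := isGood_cOver H
  have hd : aeval (tA F L A) (E.map (algebraMap k F)) ≠ 0 := by
    intro h
    have h3 := h2.separable.ne_zero
    rw [cOver_eq_locPoly hF, h] at h3
    refine h3 ?_
    unfold locPoly
    rw [inv_zero, C_0, zero_mul]
  ext θ
  rw [mem_rts h1.separable.ne_zero, mem_rts h2.separable.ne_zero, tb00_cOver_one hF,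
    cOver_eq_locPoly hF, eval_locPoly_eq_zero one_ne_zero, eval_locPoly_eq_zero hd]

lemma mem_rts_one (H : GlobHyp ℓ g E ζ) {A : Type u} [Field A] [Algebra L A] [IsAlgClosed A]
    [Algebra F A] (hF : CompatF F L A) {θ : A} :
    θ ∈ rts (cOver k F L A g 1) ↔ aeval θ (g.map (algebraMap k F)) = tA F L A := by
  have h1 : IsGood ℓ (cOver k F L A g 1) := tb00_good H
  rw [mem_rts h1.separable.ne_zero, tb00_cOver_one hF, eval_locPoly_eq_zero one_ne_zero]

lemma trs_top (H : GlobHyp ℓ g E ζ) :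
    Trs (cOver k F L Ω g 1) (⊤ : Subgroup (Ω ≃ₐ[L] Ω)) := by
  have : IsAlgClosed Ω := IsAlgClosure.isAlgClosed L
  have h2 : IsGood ℓ (cOver k F L Ω g E) := isGood_cOver H
  intro θ hθ θ' hθ'
  rw [rts_one H] at hθ hθ'
  obtain ⟨σ, hσ⟩ := exists_gal_root H hθ hθ'
  exact ⟨σ, Subgroup.mem_top σ, hσ⟩

end Pool.Agent.Lib.MP_89bcae_ag.Sup

end
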