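import Mathlib
import Pool.Agent.Lib.MP_89bcae_ag.Rk.K035

open Polynomial IsDedekindDomain

open scoped Classical

set_option linter.unusedSectionVars false

namespace Pool.Agent.Lib.MP_89bcae_ag.Sup

universe u

variable {k F L Ω : Type u} [Field k] [Field F] [Algebra k F] [Field L] [Algebra F[X] L]
  [Field Ω] [Algebra L Ω] [IsAlgClosure k F] [IsFractionRing F[X] L] [IsAlgClosure L Ω]
  [Algebra F Ω] {ℓ : ℕ} {g E : k[X]} [hG : IsGood ℓ (cOver k F L Ω g 1)] {ζ : k}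
  {hζ : (zA F L Ω ζ) ^ ℓ = 1} {N : Subgroup (Ω ≃ₐ[L] Ω)}

private lemma tb06_mem (hG' : IsGood ℓ (cOver k F L Ω g 1)) {θ : Ω} : θ ∈ rts (cOver k F L Ω g 1) ↔ (cOver k F L Ω g 1).eval θ = 0 :=
  mem_rts hG'.separable.ne_zero

private lemma tb06_stable (hG' : IsGood ℓ (cOver k F L Ω g 1)) (γ : AutO k F L Ω) {θ : Ω} :
    (γ : Ω ≃+* Ω) θ ∈ rts (cOver k F L Ω g 1) ↔ θ ∈ rts (cOver k F L Ω g 1) := by
  rw [tb06_mem hG', tb06_mem hG']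
  have h1 := (toSym g 1 γ).2
  have h2 : (cOver k F L Ω g 1).eval ((γ : Ω ≃+* Ω) θ) =
      (γ : Ω ≃+* Ω) ((cOver k F L Ω g 1).eval θ) := by
    conv_lhs => rw [← h1]
    rw [eval_map]
    exact eval₂_hom (p := cOver k F L Ω g 1) ((γ : Ω ≃+* Ω) : Ω →+* Ω) θ
  rw [h2]
  exact map_eq_zero_iff _ (γ : Ω ≃+* Ω).injective

private lemma tb06_smul_mem (hG' : IsGood ℓ (cOver k F L Ω g 1)) (σ : Ω ≃ₐ[L] Ω) {θ : Ω} :
    σ θ ∈ rts (cOver k F L Ω g 1) ↔ θ ∈ rts (cOver k F L Ω g 1) :=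
  tb06_stable hG' (galA k F σ)

private lemma tb06_exists {ζ x y : Ω} {ℓ : ℕ} (hℓ : ℓ ≠ 0) (hζ : IsPrimitiveRoot ζ ℓ)
    (hy : y ≠ 0) (h : x ^ ℓ = y ^ ℓ) : ∃ n : ℤ, x = ζ ^ n * y := by
  have : NeZero ℓ := ⟨hℓ⟩
  have h1 : (x / y) ^ ℓ = 1 := by
    rw [div_pow, h, div_self (pow_ne_zero _ hy)]
  obtain ⟨i, -, hi⟩ := hζ.eq_pow_of_pow_eq_one h1
  refine ⟨i, ?_⟩
  rw [zpow_natCast, hi, div_mul_cancel₀ _ hy]

private lemma tb06_ne (hF : CompatF F L Ω) (H : GlobHyp ℓ g E ζ) {θ : Ω}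
    (hθ : θ ∈ rts (cOver k F L Ω g 1)) (β : F) : θ - algebraMap F Ω β ≠ 0 := by
  have hΩc : IsAlgClosed Ω := IsAlgClosure.isAlgClosed L
  rw [rts_one H] at hθ
  have h1 : aeval θ (X - C β : F[X]) = θ - algebraMap F Ω β := by
    rw [map_sub, aeval_X, aeval_C]
  rw [← h1, Ne, map_eq_zero_iff _ (aeval_root_injective hF H hθ)]
  exact X_sub_C_ne_zero β

private lemma tb06_z_ne (hF : CompatF F L Ω) (H : GlobHyp ℓ g E ζ) (e : F → ℤ) {x θ : Ω}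
    (hθ : θ ∈ rts (cOver k F L Ω g 1))
    (hx : x ^ ℓ = ∏ β ∈ RR F g E, (θ - algebraMap F Ω β) ^ e β) : x ≠ 0 := by
  rintro rfl
  rw [zero_pow H.prime.ne_zero] at hx
  exact Finset.prod_ne_zero_iff.2 (fun β _ => zpow_ne_zero _ (tb06_ne hF H hθ β)) hx.symm

private lemma tb06_const (hF : CompatF F L Ω) (γ : AutO k F L Ω)
    (hγ : ∀ β ∈ RR F g E, resF γ β = β) :
    ∀ β ∈ RR F g E, (γ : Ω ≃+* Ω) (algebraMap F Ω β) = algebraMap F Ω β := by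
  intro β hβ
  rw [hF β, resF_spec, map_C]
  have h1 : (resF γ : F →+* F) β = β := hγ β hβ
  rw [h1]

private lemma tb06_map_prod (hF : CompatF F L Ω) (γ : AutO k F L Ω)
    (hγ : ∀ β ∈ RR F g E, resF γ β = β) (e : F → ℤ) (θ : Ω) :
    (γ : Ω ≃+* Ω) (∏ β ∈ RR F g E, (θ - algebraMap F Ω β) ^ e β) =
      ∏ β ∈ RR F g E, ((γ : Ω ≃+* Ω) θ - algebraMap F Ω β) ^ e β := by
  rw [map_prod]
  refine Finset.prod_congr rfl fun β hβ => ?_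
  rw [map_zpow₀, map_sub, tb06_const hF γ hγ β hβ]

private lemma tb06_conj (γ : AutO k F L Ω) (σ : Ω ≃ₐ[L] Ω) (x : Ω) :
    (conjG γ⁻¹ σ) x = (γ : Ω ≃+* Ω).symm (σ ((γ : Ω ≃+* Ω) x)) := by
  have h2 := conjG_spec γ⁻¹ σ ((γ : Ω ≃+* Ω) x)
  have h3 : ∀ y : Ω, ((γ⁻¹ : AutO k F L Ω) : Ω ≃+* Ω) y = (γ : Ω ≃+* Ω).symm y :=
    fun y => rfl
  rw [h3, h3, RingEquiv.symm_apply_apply] at h2
  exact h2

private lemma tb06_zsymm (ζ : k) (γ : AutO k F L Ω) :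
    (γ : Ω ≃+* Ω).symm (zA F L Ω ζ) = zA F L Ω ζ := by
  rw [RingEquiv.symm_apply_eq]
  exact (zA_fixed ζ γ).symm

theorem HasExpM.cob_of_dvd (hF : CompatF F L Ω) (H : GlobHyp ℓ g E ζ)
    {h : Ch ℓ k F L Ω g 1} {e : F → ℤ} (he : HasExpM ζ E h e)
    (hd : ∀ β ∈ RR F g E, (ℓ : ℤ) ∣ e β) :
    ∃ m : Ω → ℤ, ∀ σ, h σ = cob (ram m) σ := by
  have Hζ : IsPrimitiveRoot (zA F L Ω ζ) ℓ := zA_primitive H
  have hz0 : zA F L Ω ζ ≠ 0 := Hζ.ne_zero H.prime.ne_zero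
  have : NeZero ℓ := ⟨H.prime.ne_zero⟩
  have h' : HasExpM ζ E h (fun _ => 0) := he.congr hF H (by
    intro β hβ
    rw [zero_sub, dvd_neg]
    exact hd β hβ)
  obtain ⟨z, hz, hzσ⟩ := h'.ex
  have hroot : ∀ θ : Ω, ∃ m : ℤ, θ ∈ rts (cOver k F L Ω g 1) → z θ = zA F L Ω ζ ^ m := by
    intro θ
    by_cases hθ : θ ∈ rts (cOver k F L Ω g 1)
    · have h1 := hz θ hθ
      simp only [zpow_zero, Finset.prod_const_one] at h1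
      obtain ⟨i, _, hi⟩ := Hζ.eq_pow_of_pow_eq_one h1
      exact ⟨i, fun _ => by rw [zpow_natCast, hi]⟩
    · exact ⟨0, fun h => absurd h hθ⟩
  choose m₀ hm₀ using hroot
  have hfix : ∀ σ : Ω ≃ₐ[L] Ω, σ (zA F L Ω ζ) = zA F L Ω ζ := fun σ => zA_fixed ζ (galA k F σ)
  refine ⟨m₀, fun σ => ?_⟩
  have h1 := hzσ σ (fun η => m₀ (σ.symm η) - m₀ η) (by
    intro θ hθ
    rw [hm₀ θ hθ, hm₀ (σ θ) ((tb06_smul_mem hG σ).2 hθ), map_zpow₀, hfix σ, ← zpow_add₀ hz0]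
    congr 1
    rw [AlgEquiv.symm_apply_apply]
    ring)
  rw [h1, ram_sub]
  unfold cob
  rw [symJ_ram]
  rfl

theorem HasExpM.unique (hF : CompatF F L Ω) (H : GlobHyp ℓ g E ζ)
    {h h' : Ch ℓ k F L Ω g 1} {e e' : F → ℤ} (he : HasExpM ζ E h e)
    (he' : HasExpM ζ E h' e') {m : Ω → ℤ} (hh : ∀ σ, h σ = h' σ + cob (ram m) σ) :
    ∀ β ∈ RR F g E, (ℓ : ℤ) ∣ e β - e' β := by
  have hz : (zA F L Ω ζ) ^ ℓ = 1 := (zA_primitive H).pow_eq_one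
  have h1 : HasExpM ζ E (h + -h') (fun β => e β + -e' β) := he.add hF H (he'.neg hF H)
  have h2 := h1.dvd_of_cob (hζ := hz) hF H (A := ram m) (zJ_ram _ hz m) (fun σ => by
    change h σ + -h' σ = _
    rw [hh σ]
    abel)
  intro β hβ
  have h3 := h2 β hβ
  rwa [← sub_eq_add_neg] at h3

/-- The function `z` of `HasExpM` can be used to compute `γ h - h`. -/
theorem HasExpM.act_rel (hF : CompatF F L Ω) (H : GlobHyp ℓ g E ζ)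
    {h : Ch ℓ k F L Ω g 1} {e : F → ℤ} (he : HasExpM ζ E h e) (γ : AutO k F L Ω)
    (hγ : ∀ β ∈ RR F g E, resF γ β = β) :
    ∃ (z : Ω → Ω) (q : Ω → ℤ),
      (∀ θ ∈ rts (cOver k F L Ω g 1),
        z θ ^ ℓ = ∏ β ∈ RR F g E, (θ - algebraMap F Ω β) ^ e β) ∧
      (∀ (σ : Ω ≃ₐ[L] Ω) (n : Ω → ℤ), (∀ θ ∈ rts (cOver k F L Ω g 1),
        σ (z θ) = zA F L Ω ζ ^ n (σ θ) * z (σ θ)) → h σ = ram n) ∧
      (∀ θ ∈ rts (cOver k F L Ω g 1), (γ : Ω ≃+* Ω) (z θ) =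
        zA F L Ω ζ ^ q ((γ : Ω ≃+* Ω) θ) * z ((γ : Ω ≃+* Ω) θ)) ∧
      ∀ σ, act1 γ h σ = h σ + cob (ram q) σ := by
  have Hζ : IsPrimitiveRoot (zA F L Ω ζ) ℓ := zA_primitive H
  have hz0 : zA F L Ω ζ ≠ 0 := Hζ.ne_zero H.prime.ne_zero
  obtain ⟨z, hz, hzσ⟩ := he.ex
  have h1 : ∀ θ : Ω, ∃ i : ℤ, θ ∈ rts (cOver k F L Ω g 1) →
      (γ : Ω ≃+* Ω) (z θ) = zA F L Ω ζ ^ i * z ((γ : Ω ≃+* Ω) θ) := by
    intro θ
    by_cases hθ : θ ∈ rts (cOver k F L Ω g 1)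
    · have hγθ := (tb06_stable hG γ).2 hθ
      obtain ⟨i, hi⟩ := tb06_exists H.prime.ne_zero Hζ (tb06_z_ne hF H e hγθ (hz _ hγθ))
        (x := (γ : Ω ≃+* Ω) (z θ)) (by
          rw [← map_pow, hz θ hθ, hz _ hγθ]
          exact tb06_map_prod hF γ hγ e θ)
      exact ⟨i, fun _ => hi⟩
    · exact ⟨0, fun h => absurd h hθ⟩
  choose i hi using h1
  obtain ⟨q, hq⟩ : ∃ q : Ω → ℤ, ∀ θ, q ((γ : Ω ≃+* Ω) θ) = i θ :=
    ⟨fun η => i ((γ : Ω ≃+* Ω).symm η), fun θ => by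
      show i ((γ : Ω ≃+* Ω).symm ((γ : Ω ≃+* Ω) θ)) = i θ
      rw [RingEquiv.symm_apply_apply]⟩
  have hq' : ∀ θ ∈ rts (cOver k F L Ω g 1), (γ : Ω ≃+* Ω) (z θ) =
      zA F L Ω ζ ^ q ((γ : Ω ≃+* Ω) θ) * z ((γ : Ω ≃+* Ω) θ) := fun θ hθ => by
    rw [hq]
    exact hi θ hθ
  refine ⟨z, q, hz, hzσ, hq', fun σ => ?_⟩
  obtain ⟨n, hn⟩ := HasExpM.exists_n hF H e hz σ
  have hzσ' : ∀ θ ∈ rts (cOver k F L Ω g 1), z ((γ : Ω ≃+* Ω) θ) =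
      zA F L Ω ζ ^ (-q ((γ : Ω ≃+* Ω) θ)) * (γ : Ω ≃+* Ω) (z θ) := by
    intro θ hθ
    rw [hq' θ hθ, ← mul_assoc, ← zpow_add₀ hz0, neg_add_cancel, zpow_zero, one_mul]
  have h2 : h (conjG γ⁻¹ σ) = ram (fun φ => q (σ.symm ((γ : Ω ≃+* Ω) φ)) +
      n ((γ : Ω ≃+* Ω) φ) - q ((γ : Ω ≃+* Ω) φ)) := by
    apply hzσ
    intro θ hθ
    have hγθ := (tb06_stable hG γ).2 hθ
    have hφ : (conjG γ⁻¹ σ) θ ∈ rts (cOver k F L Ω g 1) := (tb06_smul_mem hG _).2 hθ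
    have hγφ : (γ : Ω ≃+* Ω) ((conjG γ⁻¹ σ) θ) = σ ((γ : Ω ≃+* Ω) θ) := by
      rw [tb06_conj, RingEquiv.apply_symm_apply]
    have h3 := hzσ' _ hφ
    rw [hγφ] at h3
    rw [hγφ, AlgEquiv.symm_apply_apply, tb06_conj γ σ (z θ), RingEquiv.symm_apply_eq, hq' θ hθ,
      map_mul, map_zpow₀, show σ (zA F L Ω ζ) = zA F L Ω ζ from zA_fixed ζ (galA k F σ), hn _ hγθ,
      h3, map_mul, map_zpow₀, zA_fixed, zpow_sub₀ hz0, zpow_add₀ hz0, zpow_neg]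
    ring
  unfold act1
  rw [h2, symJ_ram]
  have h4 : (fun θ => q (σ.symm ((γ : Ω ≃+* Ω) ((((toSym g 1 γ)⁻¹ :
      Sym (cOver k F L Ω g 1)) : Ω ≃+* Ω) θ))) +
      n ((γ : Ω ≃+* Ω) ((((toSym g 1 γ)⁻¹ : Sym (cOver k F L Ω g 1)) : Ω ≃+* Ω) θ)) -
      q ((γ : Ω ≃+* Ω) ((((toSym g 1 γ)⁻¹ : Sym (cOver k F L Ω g 1)) : Ω ≃+* Ω) θ))) =
      fun θ => (n θ + q (σ.symm θ)) - q θ := by
    funext θ
    have h5 : (γ : Ω ≃+* Ω) ((((toSym g 1 γ)⁻¹ : Sym (cOver k F L Ω g 1)) : Ω ≃+* Ω) θ) = θ :=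
      (γ : Ω ≃+* Ω).apply_symm_apply θ
    rw [h5, add_comm (q (σ.symm θ))]
  rw [h4, ram_sub, ram_add, ← hzσ σ n hn]
  unfold cob
  rw [symJ_ram, add_sub_assoc]
  rfl

lemma HasExpM.act (hF : CompatF F L Ω) (H : GlobHyp ℓ g E ζ) {h : Ch ℓ k F L Ω g 1}
    {e : F → ℤ} (he : HasExpM ζ E h e) (γ : AutO k F L Ω)
    (hγ : ∀ β ∈ RR F g E, resF γ β = β) : HasExpM ζ E (act1 γ h) e := by
  obtain ⟨z, hz, hzn⟩ := he.ex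
  refine ⟨he.sum, fun θ => (γ : Ω ≃+* Ω) (z ((γ : Ω ≃+* Ω).symm θ)), fun θ hθ => ?_,
    fun σ n hn => ?_⟩
  · have hθ' : (γ : Ω ≃+* Ω).symm θ ∈ rts (cOver k F L Ω g 1) := by
      rw [← tb06_stable hG γ, RingEquiv.apply_symm_apply]
      exact hθ
    rw [← map_pow, hz _ hθ', tb06_map_prod hF γ hγ, RingEquiv.apply_symm_apply]
  · have h4 : h (conjG γ⁻¹ σ) = ram (fun x => n ((γ : Ω ≃+* Ω) x)) := by
      apply hzn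
      intro θ hθ
      have h5 := hn ((γ : Ω ≃+* Ω) θ) ((tb06_stable hG γ).2 hθ)
      simp only [RingEquiv.symm_apply_apply] at h5
      rw [tb06_conj, tb06_conj, h5, map_mul, RingEquiv.symm_apply_apply,
        RingEquiv.apply_symm_apply, map_zpow₀, tb06_zsymm]
    unfold act1
    rw [h4, symJ_ram]
    congr 1
    funext θ
    exact congrArg n ((γ : Ω ≃+* Ω).apply_symm_apply θ)

end Pool.Agent.Lib.MP_89bcae_ag.Sup
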