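import Mathlib
import Pool.Agent.Lib.MP_89bcae_ag.Rk.K031
import Pool.Agent.Lib.MP_89bcae_ag.Rk.K034

section

open Polynomial IsDedekindDomain

open scoped Classical

set_option linter.unusedSectionVars false

namespace Pool.Agent.Lib.MP_89bcae_ag.Sup

universe u

section

variable {ℓ : ℕ} {E : Type u} [Field E] {f : E[X]} [hG : IsGood ℓ f]

omit hG in
lemma tb01_mem_rts {θ : E} (hG : IsGood ℓ f) : θ ∈ rts f ↔ f.eval θ = 0 :=
  mem_rts hG.separable.ne_zero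

omit hG in
lemma tb01_zpow_eq {ζ : E} (hℓ : ℓ ≠ 0) (hζ : IsPrimitiveRoot ζ ℓ) (a b : ℤ) :
    ζ ^ a = ζ ^ b ↔ (a : ZMod ℓ) = b := by
  have h0 : ζ ≠ 0 := hζ.ne_zero hℓ
  rw [ZMod.intCast_eq_intCast_iff_dvd_sub, ← hζ.zpow_eq_one_iff_dvd, zpow_sub₀ h0,
    div_eq_one_iff_eq (zpow_ne_zero _ h0)]
  exact eq_comm

end

section

variable {k F L Ω : Type u} [Field k] [Field F] [Algebra k F] [Field L] [Algebra F[X] L]
  [Field Ω] [Algebra L Ω] [IsAlgClosure k F] [IsFractionRing F[X] L] [IsAlgClosure L Ω]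
  [Algebra F Ω] {ℓ : ℕ} {g D : k[X]} {ζ : k}

omit [IsAlgClosure k F] [IsFractionRing F[X] L] [IsAlgClosure L Ω] [Algebra F Ω] in
lemma tb01_smul_mem (hG : IsGood ℓ (cOver k F L Ω g D)) (σ : Ω ≃ₐ[L] Ω) {θ : Ω} :
    σ θ ∈ rts (cOver k F L Ω g D) ↔ θ ∈ rts (cOver k F L Ω g D) := by
  rw [tb01_mem_rts hG, tb01_mem_rts hG, eval_map_algebraMap, eval_map_algebraMap]
  have h1 : aeval (σ θ) (curvePoly k F L g D) = σ (aeval θ (curvePoly k F L g D)) :=
    aeval_algHom_apply (σ : Ω →ₐ[L] Ω) θ _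
  rw [h1]
  exact map_eq_zero_iff σ σ.injective

omit [IsAlgClosure k F] [IsFractionRing F[X] L] [IsAlgClosure L Ω] [Algebra F Ω] in
lemma tb01_sum {M : Type*} [AddCommMonoid M] (hG : IsGood ℓ (cOver k F L Ω g D))
    (σ : Ω ≃ₐ[L] Ω) (φ : Ω → M) :
    ∑ θ ∈ rts (cOver k F L Ω g D), φ (σ θ) = ∑ θ ∈ rts (cOver k F L Ω g D), φ θ :=
  Finset.sum_equiv σ.toEquiv (fun _ => (tb01_smul_mem hG σ).symm) (fun _ _ => rfl)

omit [IsAlgClosure k F] [IsFractionRing F[X] L] [IsAlgClosure L Ω] [Algebra F Ω] in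
lemma tb01_prod {M : Type*} [CommMonoid M] (hG : IsGood ℓ (cOver k F L Ω g D))
    (σ : Ω ≃ₐ[L] Ω) (φ : Ω → M) :
    ∏ θ ∈ rts (cOver k F L Ω g D), φ (σ θ) = ∏ θ ∈ rts (cOver k F L Ω g D), φ θ :=
  Finset.prod_equiv σ.toEquiv (fun _ => (tb01_smul_mem hG σ).symm) (fun _ _ => rfl)

omit [IsAlgClosure k F] [IsFractionRing F[X] L] [IsAlgClosure L Ω] [Algebra F Ω] in
lemma tb01_zA (ζ : k) (σ : Ω ≃ₐ[L] Ω) : σ (zA F L Ω ζ) = zA F L Ω ζ :=
  σ.commutes _

omit [IsAlgClosure k F] [IsFractionRing F[X] L] [IsAlgClosure L Ω] in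
lemma tb01_const (hF : CompatF F L Ω) (σ : Ω ≃ₐ[L] Ω) (c : F) :
    σ (algebraMap F Ω c) = algebraMap F Ω c := by
  rw [hF c]
  exact σ.commutes _

omit [IsAlgClosure k F] [IsFractionRing F[X] L] [IsAlgClosure L Ω] in
lemma tb01_aeval (hF : CompatF F L Ω) (σ : Ω ≃ₐ[L] Ω) (θ : Ω) (P : F[X]) :
    σ (aeval θ P) = aeval (σ θ) P := by
  have h1 : (((σ : Ω ≃+* Ω) : Ω →+* Ω).comp (aeval θ : F[X] →ₐ[F] Ω) : F[X] →+* Ω) =
      ((aeval (σ θ) : F[X] →ₐ[F] Ω) : F[X] →+* Ω) := by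
    apply Polynomial.ringHom_ext
    · intro c
      simp only [RingHom.comp_apply, RingHom.coe_coe, aeval_C]
      exact tb01_const hF σ c
    · simp only [RingHom.comp_apply, RingHom.coe_coe, aeval_X]
      rfl
  exact RingHom.congr_fun h1 P

end

variable {k F L Ω : Type u} [Field k] [Field F] [Algebra k F] [Field L] [Algebra F[X] L]
  [Field Ω] [Algebra L Ω] [IsAlgClosure k F] [IsFractionRing F[X] L] [IsAlgClosure L Ω]
  [Algebra F Ω] {ℓ : ℕ} {g E : k[X]} [hG : IsGood ℓ (cOver k F L Ω g 1)] {ζ : k}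
  {hζ : (zA F L Ω ζ) ^ ℓ = 1} {N : Subgroup (Ω ≃ₐ[L] Ω)}

/-- The exponents of the cocycle `h`. -/
lemma tb01_cochain (H : GlobHyp ℓ g E ζ) {h : Ch ℓ k F L Ω g 1} (hh : MCs ζ hζ ⊤ h) :
    ∃ (e : (Ω ≃ₐ[L] Ω) → Ω → ℤ) (S : Finset Ω),
      (∀ σ, h σ = ram (e σ)) ∧
      (∀ σ, ∑ θ ∈ rts (cOver k F L Ω g 1), (e σ θ : ZMod ℓ) = 0) ∧
      (∀ σ τ, ∀ θ ∈ rts (cOver k F L Ω g 1),
        (e (σ * τ) (σ θ) : ZMod ℓ) = e σ (σ θ) + e τ θ) ∧
      (∀ σ, (∀ x ∈ S, σ x = x) → ∀ θ ∈ rts (cOver k F L Ω g 1), (e σ θ : ZMod ℓ) = 0) := by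
  have hζ' : IsPrimitiveRoot (zA F L Ω ζ) ℓ := zA_primitive H
  have h1 : ∀ σ, ∃ e : Ω → ℤ, h σ = ram e ∧
      ∑ θ ∈ rts (cOver k F L Ω g 1), (e θ : ZMod ℓ) = 0 := by
    intro σ
    exact G11_exists hζ' _ (hh.fixed σ (Subgroup.mem_top σ))
  choose e he hs using h1
  obtain ⟨S, hS⟩ := hh.cont
  refine ⟨e, S, he, hs, ?_, ?_⟩
  · intro σ τ θ hθ
    have h2 : (ram (e (σ * τ)) : Jac ℓ (cOver k F L Ω g 1)) =
        ram (fun θ => e σ θ + e τ (σ⁻¹ θ)) := by
      rw [← he, hh.cocycle σ (Subgroup.mem_top σ) τ (Subgroup.mem_top τ), he, he, symJ_ram,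
        ram_add]
      rfl
    have h3 := G11_unique hζ' _ _ h2 (by
      rw [hs]
      have h4 : ∀ θ ∈ rts (cOver k F L Ω g 1), (((e σ θ + e τ (σ⁻¹ θ) : ℤ)) : ZMod ℓ) =
          (e σ θ : ZMod ℓ) + e τ (σ⁻¹ θ) := fun θ _ => Int.cast_add _ _
      rw [Finset.sum_congr rfl h4, Finset.sum_add_distrib, hs,
        tb01_sum hG σ⁻¹ (fun θ => (e τ θ : ZMod ℓ)), hs, add_zero]) (σ θ)
        ((tb01_smul_mem hG σ).2 hθ)
    rw [h3, Int.cast_add]
    congr 3
    exact σ.symm_apply_apply θ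
  · intro σ hσ θ hθ
    have h2 : h σ = 0 := hS σ (Subgroup.mem_top σ) hσ
    have h3 : (ram (e σ) : Jac ℓ (cOver k F L Ω g 1)) = ram (fun _ => 0) := by
      rw [← he, h2, (ram_eq_zero_iff (zA F L Ω ζ) hζ' _).2 ⟨0, fun _ _ => by simp⟩]
    have h4 := G11_unique hζ' _ _ h3 (by rw [hs]; simp) θ hθ
    rw [h4, Int.cast_zero]

theorem exists_kummerM (hF : CompatF F L Ω) (H : GlobHyp ℓ g E ζ)
    {h : Ch ℓ k F L Ω g 1} (hh : MCs ζ hζ ⊤ h) :
    ∃ (P : F[X]) (z : Ω → Ω), P.Monic ∧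
      (∀ a : F, ℓ ∣ ∑ β ∈ (g.map (algebraMap k F) - C a).roots.toFinset, P.rootMultiplicity β) ∧
      (∀ θ ∈ rts (cOver k F L Ω g 1), z θ ^ ℓ = aeval θ P) ∧
      ∀ (σ : Ω ≃ₐ[L] Ω) (n : Ω → ℤ), (∀ θ ∈ rts (cOver k F L Ω g 1),
        σ (z θ) = zA F L Ω ζ ^ n (σ θ) * z (σ θ)) → h σ = ram n := by
  have hp : Fact ℓ.Prime := ⟨H.prime⟩
  have hΩ : IsAlgClosed Ω := IsAlgClosure.isAlgClosed L
  have hGE : IsGood ℓ (cOver k F L Ω g E) := isGood_cOver H
  have hrts : rts (cOver k F L Ω g 1) = rts (cOver k F L Ω g E) := rts_one H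
  obtain ⟨e, S, he, hs, hcoc, hloc⟩ := tb01_cochain H hh
  have hζ' : IsPrimitiveRoot (zA F L Ω ζ) ℓ := zA_primitive H
  have hζ0 : zA F L Ω ζ ≠ 0 := hζ'.ne_zero H.prime.ne_zero
  obtain ⟨θ₀, hθ₀'⟩ := IsGood.exists_root (ℓ := ℓ) (f := cOver k F L Ω g 1)
  have hθ₀ : θ₀ ∈ rts (cOver k F L Ω g 1) := (tb01_mem_rts hG).2 hθ₀'
  have hθ₀E : θ₀ ∈ rts (cOver k F L Ω g E) := hrts ▸ hθ₀
  obtain ⟨z₀, P, hz₀, hP, hzP, hzσ⟩ := G11_exists_z hF H hθ₀E (fun σ => (e σ θ₀ : ZMod ℓ))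
    (by
      intro σ τ hσ hτ
      have h1 := hcoc σ τ θ₀ hθ₀
      rw [hσ] at h1
      exact h1) S (fun σ _ hσS => hloc σ hσS θ₀ hθ₀)
  have hgal : ∀ θ, ∃ σ : Ω ≃ₐ[L] Ω, θ ∈ rts (cOver k F L Ω g 1) → σ θ₀ = θ := by
    intro θ
    by_cases hθ : θ ∈ rts (cOver k F L Ω g 1)
    · obtain ⟨σ, hσ⟩ := exists_gal_root H hθ₀E (hrts ▸ hθ)
      exact ⟨σ, fun _ => hσ⟩
    · exact ⟨1, fun h => absurd h hθ⟩
  choose s hsθ using hgal
  set z : Ω → Ω := fun θ => zA F L Ω ζ ^ (-(e (s θ) θ)) * s θ z₀ with hzdef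
  have hz0 : ∀ θ, z θ ≠ 0 := fun θ => mul_ne_zero (zpow_ne_zero _ hζ0)
    ((map_ne_zero_iff (s θ) (s θ).injective).2 hz₀)
  have hkey : ∀ (σ : Ω ≃ₐ[L] Ω), ∀ θ ∈ rts (cOver k F L Ω g 1),
      σ (z θ) = zA F L Ω ζ ^ (e σ (σ θ)) * z (σ θ) := by
    intro σ θ hθ
    have hσθ := (tb01_smul_mem hG σ).2 hθ
    set h' : Ω ≃ₐ[L] Ω := (s (σ θ))⁻¹ * (σ * s θ) with hh'
    have hsh : s (σ θ) * h' = σ * s θ := mul_inv_cancel_left _ _
    have hhθ : h' θ₀ = θ₀ := by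
      have h1 : s (σ θ) (h' θ₀) = s (σ θ) θ₀ := by
        have h2 : s (σ θ) (h' θ₀) = (s (σ θ) * h') θ₀ := rfl
        rw [h2, hsh, hsθ _ hσθ]
        change σ (s θ θ₀) = σ θ
        rw [hsθ _ hθ]
      exact (s (σ θ)).injective h1
    have h3 : σ (s θ z₀) = zA F L Ω ζ ^ ((e h' θ₀ : ZMod ℓ)).val * s (σ θ) z₀ := by
      have h4 : σ (s θ z₀) = (s (σ θ) * h') z₀ := by
        rw [hsh]
        rfl
      have h5 : (s (σ θ) * h') z₀ = s (σ θ) (h' z₀) := rfl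
      rw [h4, h5, hzσ h' hhθ, map_mul, map_pow, tb01_zA]
    have h6 : σ (z θ) = zA F L Ω ζ ^ (-(e (s θ) θ)) * σ (s θ z₀) := by
      rw [hzdef]
      simp only
      rw [map_mul, map_zpow₀, tb01_zA]
    rw [h6, h3, hzdef]
    simp only
    rw [← mul_assoc, ← mul_assoc, ← zpow_natCast, ← zpow_add₀ hζ0, ← zpow_add₀ hζ0]
    congr 1
    rw [tb01_zpow_eq H.prime.ne_zero hζ']
    push_cast
    rw [ZMod.natCast_zmod_val]
    have h7 := hcoc σ (s θ) θ hθ
    have h8 := hcoc (s (σ θ)) h' θ₀ hθ₀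
    rw [hsh, hsθ _ hσθ] at h8
    rw [h8] at h7
    linear_combination h7
  have hzℓ : ∀ θ ∈ rts (cOver k F L Ω g 1), z θ ^ ℓ = aeval θ P := by
    intro θ hθ
    rw [hzdef]
    simp only
    have h1 : (zA F L Ω ζ ^ (-(e (s θ) θ))) ^ ℓ = 1 := by
      rw [← zpow_natCast, ← zpow_mul, mul_comm, zpow_mul, zpow_natCast, hζ, one_zpow]
    rw [mul_pow, h1, one_mul, ← map_pow, hzP, tb01_aeval hF, hsθ _ hθ]
  refine ⟨P, z, hP, ?_, hzℓ, ?_⟩
  · refine G11_fibre (D := E) hF H hP z (fun θ hθ => hzℓ θ (hrts ▸ hθ)) ?_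
    intro σ
    rw [← hrts]
    rw [map_prod, Finset.prod_congr rfl (hkey σ), Finset.prod_mul_distrib,
      tb01_prod hG σ (fun θ => z θ), tb01_prod hG σ (fun θ => zA F L Ω ζ ^ (e σ θ))]
    have h1 : ∏ θ ∈ rts (cOver k F L Ω g 1), zA F L Ω ζ ^ (e σ θ) = 1 := by
      have h2 : ∏ θ ∈ rts (cOver k F L Ω g 1), zA F L Ω ζ ^ (e σ θ) =
          zA F L Ω ζ ^ (∑ θ ∈ rts (cOver k F L Ω g 1), e σ θ) := by
        induction rts (cOver k F L Ω g 1) using Finset.induction_on with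
        | empty => simp
        | insert a T ha ih => rw [Finset.prod_insert ha, Finset.sum_insert ha, zpow_add₀ hζ0, ih]
      rw [h2, ← zpow_zero (zA F L Ω ζ), tb01_zpow_eq H.prime.ne_zero hζ']
      push_cast
      exact hs σ
    rw [h1, one_mul]
  · intro σ n hn
    rw [he σ]
    apply ram_congr
    intro θ hθ
    have h1 := hn (σ⁻¹ θ) ((tb01_smul_mem hG σ⁻¹).2 ((tb01_mem_rts hG).2 hθ))
    have h2 : σ (σ⁻¹ θ) = θ := σ.apply_symm_apply θ
    rw [hkey σ _ ((tb01_smul_mem hG σ⁻¹).2 ((tb01_mem_rts hG).2 hθ)), h2] at h1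
    have h3 := mul_right_cancel₀ (hz0 θ) h1
    rw [tb01_zpow_eq H.prime.ne_zero hζ', ZMod.intCast_eq_intCast_iff_dvd_sub] at h3
    rw [← dvd_neg, neg_sub]
    exact h3

end Pool.Agent.Lib.MP_89bcae_ag.Sup

end

section

open Polynomial IsDedekindDomain

open scoped Classical

set_option linter.unusedSectionVars false

namespace Pool.Agent.Lib.MP_89bcae_ag.Sup

universe u

variable {k F L Ω : Type u} [Field k] [Field F] [Algebra k F] [Field L] [Algebra F[X] L]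
  [Field Ω] [Algebra L Ω] [IsAlgClosure k F] [IsFractionRing F[X] L] [IsAlgClosure L Ω]
  [Algebra F Ω] {ℓ : ℕ} {g E : k[X]} [hG : IsGood ℓ (cOver k F L Ω g 1)] {ζ : k}
  {hζ : (zA F L Ω ζ) ^ ℓ = 1} {N : Subgroup (Ω ≃ₐ[L] Ω)}

/-- The group `N` contains the local automorphisms at the places `t = a` with `E(a) ≠ 0`. -/
def UnrOut (k F L Ω : Type u) [Field k] [Field F] [Algebra k F] [Field L] [Algebra F[X] L]
    [Field Ω] [Algebra L Ω] [IsFractionRing F[X] L] (E : k[X]) (N : Subgroup (Ω ≃ₐ[L] Ω)) :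
    Prop :=
  ∀ a : F, aeval a E ≠ 0 → ∀ (M : Type u) [Field M] [Algebra ((plc a).adicCompletion L) M]
    [IsAlgClosure ((plc a).adicCompletion L) M] [Algebra L M]
    [IsScalarTower L ((plc a).adicCompletion L) M] (j : Ω →ₐ[L] M)
    (σ : M ≃ₐ[(plc a).adicCompletion L] M) (σ' : Ω ≃ₐ[L] Ω), (∀ x, j (σ' x) = σ (j x)) → σ' ∈ N

/-- The places `t = a` with `E(a) ≠ 0`, abstract form. -/
private lemma tb03_dvd_aux (hF : CompatF F L Ω) (H : GlobHyp ℓ g E ζ) {h : Ch ℓ k F L Ω g 1}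
    {P : F[X]} {z : Ω → Ω} (hP : P.Monic)
    (hfib : ∀ a : F, ℓ ∣ ∑ β ∈ (g.map (algebraMap k F) - C a).roots.toFinset, P.rootMultiplicity β)
    (hz : ∀ θ ∈ rts (cOver k F L Ω g 1), z θ ^ ℓ = aeval θ P)
    (hn : ∀ (σ : Ω ≃ₐ[L] Ω) (n : Ω → ℤ), (∀ θ ∈ rts (cOver k F L Ω g 1),
        σ (z θ) = zA F L Ω ζ ^ n (σ θ) * z (σ θ)) → h σ = ram n)
    {r a : F} (hr : aeval r g = a)
    {K M : Type u} [Field K] [Algebra L K] [Field M] [Algebra K M] [Algebra L M]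
    [IsScalarTower L K M] [IsAlgClosure K M] [Algebra F M] (hFM : CompatF F L M)
    {v : AbsoluteValue M ℝ} (hv : LocCtx v a (tA F L M))
    (hinv : ∀ (σ : M ≃ₐ[K] M) x, v (σ x) = v x)
    (hval : ∀ x : K, x ≠ 0 → ∃ i : ℤ, v (algebraMap K M x) = v (tA F L M - algebraMap F M a) ^ i)
    (j : Ω →ₐ[L] M) (Q : JacOver ℓ (curvePoly k F L g 1) M)
    (hQ : ∀ (σ : M ≃ₐ[K] M) (σ' : Ω ≃ₐ[L] Ω), (∀ x, j (σ' x) = σ (j x)) →
      push ℓ (curvePoly k F L g 1) j (h σ') =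
        push ℓ (curvePoly k F L g 1) (σ.restrictScalars L : M →ₐ[L] M) Q - Q) :
    ℓ ∣ P.rootMultiplicity r := by
  have hMc : IsAlgClosed M := IsAlgClosure.isAlgClosed K
  have hGM : IsGood ℓ (cOver k F L M g 1) := goodAll_one (F := F) (L := L) H M
  have hΩc : IsAlgClosed Ω := IsAlgClosure.isAlgClosed L
  have hGE : IsGood ℓ (cOver k F L Ω g E) := isGood_cOver H
  have hgm : (g.map (algebraMap k F)).Monic := H.monic.map _
  have hgd : (g.map (algebraMap k F)).natDegree = g.natDegree := natDegree_map _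
  have hm0 : g.natDegree ≠ 0 := by
    intro h0
    have h1 := H.cop
    rw [h0, Nat.coprime_zero_left] at h1
    exact H.prime.one_lt.ne' h1
  have hm : (g.map (algebraMap k F)).natDegree ≠ 0 := by rwa [hgd]
  have hmℓ : (g.map (algebraMap k F)).natDegree.Coprime ℓ := by
    rw [hgd]
    exact H.cop
  have hfl : cOver k F L M g 1 = locPoly (g.map (algebraMap k F)) (tA F L M) 1 := cOver_one hFM g
  have hdv : v (1 : M) = 1 := map_one v
  have hd0 : (1 : M) ≠ 0 := one_ne_zero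
  have hs : (locPoly (g.map (algebraMap k F)) (tA F L M) 1).Separable := by
    rw [← hfl]
    exact IsGood.separable ℓ
  have hFK : ∀ c : F, ∃ x : K, algebraMap K M x = algebraMap F M c := by
    intro c
    refine ⟨algebraMap L K (algebraMap F[X] L (C c)), ?_⟩
    rw [hFM, ← IsScalarTower.algebraMap_apply L K M]
  have htK : ∃ x : K, algebraMap K M x = tA F L M := by
    refine ⟨algebraMap L K (algebraMap F[X] L X), ?_⟩
    unfold tA
    rw [← IsScalarTower.algebraMap_apply L K M]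
  have hf : ((curvePoly k F L g 1).map (algebraMap L K)).map (algebraMap K M) =
      cOver k F L M g 1 := by
    rw [Polynomial.map_map, ← IsScalarTower.algebraMap_eq L K M]
  have hΓ := hv.locGrp hf hinv hval hFK htK
  have hℓK : (ℓ : K) ≠ 0 := by
    intro h0
    apply H.ne
    have h1 : (algebraMap L K) ((algebraMap F[X] L) ((mapRingHom (algebraMap k F)) (C (ℓ : k)))) =
        (ℓ : K) := by simp
    rw [h0, map_eq_zero, map_eq_zero_iff _ (IsFractionRing.injective F[X] L), coe_mapRingHom,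
      Polynomial.map_C, C_eq_zero, map_eq_zero] at h1
    exact h1
  have hp : (ringExpChar K).Coprime ℓ := G13_coprime H.prime hℓK
  have hζF : IsPrimitiveRoot (algebraMap k F ζ) ℓ :=
    H.zeta.map_of_injective (algebraMap k F).injective
  have hζM : IsPrimitiveRoot (algebraMap F M (algebraMap k F ζ)) ℓ :=
    hζF.map_of_injective (algebraMap F M).injective
  have hjζ : j (zA F L Ω ζ) = algebraMap F M (algebraMap k F ζ) := by
    rw [G13_map_zA, G13_zA hFM]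
  -- the functions over `M`
  have hinvj : ∀ x, Function.invFun j (j x) = x :=
    Function.leftInverse_invFun (j : Ω →+* M).injective
  obtain ⟨zM, hzM⟩ : ∃ zM : M → M, ∀ x, zM (j x) = j (z x) :=
    ⟨fun θ => j (z (Function.invFun j θ)), fun x => congrArg (fun y => j (z y)) (hinvj x)⟩
  have hzM' : ∀ θ ∈ rts (cOver k F L M g 1), zM θ ^ ℓ = aeval θ P := by
    intro θ hθ
    obtain ⟨θ₀, h1, rfl⟩ := G13_exists_root (ℓ := ℓ) j hθ
    rw [hzM, ← map_pow, hz θ₀ h1, G13_map_aeval hF hFM]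
  refine hv.good_place' hp hgm hm hmℓ hd0 hfl hζF hζM hΓ hdv ?_ hP.ne_zero hzM'
    Q ?_ (hfib a) ?_
  · intro r' θ hθ θ' hθ'
    rw [hfl] at hθ hθ'
    obtain ⟨τ, hτ⟩ := hv.exists_conj_near hgm hm hd0 hs hinv hval hFK htK hθ hθ'
    exact ⟨galSym hf τ, ⟨τ, rfl⟩, by rw [galSym_apply]; exact hτ⟩
  · rintro _ ⟨τ, rfl⟩
    obtain ⟨τ', hτ'⟩ := exists_restrict j (τ.restrictScalars L)
    have hτ'' : ∀ x, j (τ' x) = τ (j x) := hτ'
    have hzE : ∀ θ ∈ rts (cOver k F L Ω g E), z θ ^ ℓ = aeval θ P := fun θ hθ =>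
      hz θ (by rw [rts_one H]; exact hθ)
    obtain ⟨n, hn0⟩ := G13_exists_n hF H hP.ne_zero hzE τ'
    have hn' : ∀ θ ∈ rts (cOver k F L Ω g 1), τ' (z θ) = zA F L Ω ζ ^ n (τ' θ) * z (τ' θ) :=
      fun θ hθ => hn0 θ (by rw [← rts_one H]; exact hθ)
    refine ⟨fun θ => n (Function.invFun j θ), ?_, ?_⟩
    · have h1 := hQ τ τ' hτ''
      have h2 : push ℓ (curvePoly k F L g 1) (τ.restrictScalars L : M →ₐ[L] M) Q =
          symJ (galSym hf τ) Q := by
        unfold push symJ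
        apply G13_jacMap_congr
        ext x
        rfl
      rw [h2] at h1
      rw [← h1, hn τ' n hn']
      unfold push
      apply jacMap_ram
      intro θ _
      exact congrArg n (hinvj θ)
    · intro θ hθ
      obtain ⟨θ₀, h1, rfl⟩ := G13_exists_root (ℓ := ℓ) j hθ
      have h2 := congrArg j (hn' θ₀ h1)
      rw [map_mul, map_zpow₀, hjζ, hτ''] at h2
      have h3 : ((galSym hf τ : Sym (cOver k F L M g 1)) : M ≃+* M) (j θ₀) = j (τ' θ₀) := by
        rw [galSym_apply, hτ'']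
      rw [h3, hzM, hzM, galSym_apply, h2]
      change _ = _ ^ n (Function.invFun j (j (τ' θ₀))) * _
      rw [hinvj]
  · rw [eval_map, ← aeval_def]
    exact hr

/-- The places `t = a` with `E(a) ≠ 0`. -/
private lemma tb03_dvd (hF : CompatF F L Ω) (H : GlobHyp ℓ g E ζ) (hU : UnrOut k F L Ω E N)
    {h : Ch ℓ k F L Ω g 1} {c : Coch ℓ k F L Ω g 1} (hLT : LTs N c)
    (m : Ω → ℤ) (hc : ∀ σ ∈ N, h σ = vJ (zA F L Ω ζ) hζ (c 1 σ) + cob (ram m) σ)
    {P : F[X]} {z : Ω → Ω} (hP : P.Monic)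
    (hfib : ∀ a : F, ℓ ∣ ∑ β ∈ (g.map (algebraMap k F) - C a).roots.toFinset, P.rootMultiplicity β)
    (hz : ∀ θ ∈ rts (cOver k F L Ω g 1), z θ ^ ℓ = aeval θ P)
    (hn : ∀ (σ : Ω ≃ₐ[L] Ω) (n : Ω → ℤ), (∀ θ ∈ rts (cOver k F L Ω g 1),
        σ (z θ) = zA F L Ω ζ ^ n (σ θ) * z (σ θ)) → h σ = ram n)
    {r a : F} (hr : aeval r g = a) (hDa : aeval a E ≠ 0) : ℓ ∣ P.rootMultiplicity r := by
  have hFc : IsAlgClosed F := IsAlgClosure.isAlgClosed k
  let _ : Algebra F (AlgebraicClosure ((plc a).adicCompletion L)) :=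
    ((algebraMap L (AlgebraicClosure ((plc a).adicCompletion L))).comp
      ((algebraMap F[X] L).comp C)).toAlgebra
  have hFM : CompatF F L (AlgebraicClosure ((plc a).adicCompletion L)) := fun c => rfl
  have hFK : ∀ c : F, algebraMap F (AlgebraicClosure ((plc a).adicCompletion L)) c =
      algebraMap ((plc a).adicCompletion L) (AlgebraicClosure ((plc a).adicCompletion L))
        (algebraMap F[X] ((plc a).adicCompletion L) (C c)) := by
    intro c
    rw [hFM, IsScalarTower.algebraMap_apply L ((plc a).adicCompletion L)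
      (AlgebraicClosure ((plc a).adicCompletion L)),
      ← IsScalarTower.algebraMap_apply F[X] L ((plc a).adicCompletion L)]
  have htK : algebraMap ((plc a).adicCompletion L) (AlgebraicClosure ((plc a).adicCompletion L))
        (algebraMap F[X] ((plc a).adicCompletion L) X) =
      tA F L (AlgebraicClosure ((plc a).adicCompletion L)) := by
    unfold tA
    rw [IsScalarTower.algebraMap_apply L ((plc a).adicCompletion L)
      (AlgebraicClosure ((plc a).adicCompletion L)),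
      ← IsScalarTower.algebraMap_apply F[X] L ((plc a).adicCompletion L)]
  obtain ⟨v, hv, hval, hinv, -⟩ := exists_locCtx (L := L)
    (M := AlgebraicClosure ((plc a).adicCompletion L)) a hFK
  rw [htK] at hv
  simp only [htK] at hval
  obtain ⟨j⟩ : Nonempty (Ω →ₐ[L] AlgebraicClosure ((plc a).adicCompletion L)) := by
    have : Algebra.IsAlgebraic L Ω := IsAlgClosure.isAlgebraic
    exact ⟨IsAlgClosed.lift⟩
  have hlt : LTs N (fun n σ => vJ (zA F L Ω ζ) hζ (c n σ) + cob (ram m) σ :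
      Coch ℓ k F L Ω g 1) :=
    LTs.add (hLT.v (goodAll_one H) hζ) (LTs.of_cob fun _ => ⟨ram m, fun _ _ => rfl⟩)
  obtain ⟨Q, hQ⟩ := hlt a 1 (AlgebraicClosure ((plc a).adicCompletion L)) j
  refine tb03_dvd_aux hF H hP hfib hz hn hr hFM hv hinv hval j Q fun σ σ' hσ => ?_
  have hN : σ' ∈ N := hU a hDa _ j σ σ' hσ
  rw [hc σ' hN]
  exact hQ σ σ' hN hσ

theorem exists_hasExpM (hF : CompatF F L Ω) (H : GlobHyp ℓ g E ζ) (hU : UnrOut k F L Ω E N)
    {h : Ch ℓ k F L Ω g 1} (hh : MCs ζ hζ ⊤ h) {c : Coch ℓ k F L Ω g 1} (hLT : LTs N c)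
    (m : Ω → ℤ) (hc : ∀ σ ∈ N, h σ = vJ (zA F L Ω ζ) hζ (c 1 σ) + cob (ram m) σ) :
    ∃ e : F → ℤ, HasExpM ζ E h e := by
  have hFc : IsAlgClosed F := IsAlgClosure.isAlgClosed k
  have hΩc : IsAlgClosed Ω := IsAlgClosure.isAlgClosed L
  have hGE : IsGood ℓ (cOver k F L Ω g E) := isGood_cOver H
  obtain ⟨P, z, hP, hfib, hz, hn⟩ := exists_kummerM hF H hh
  have hdvd : ∀ r : F, r ∉ RR F g E → ℓ ∣ P.rootMultiplicity r := by
    intro r hr
    rw [mem_RR H] at hr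
    exact tb03_dvd hF H hU hLT m hc hP hfib hz hn rfl hr
  set W : F[X] := ∏ β ∈ P.roots.toFinset \ RR F g E, (X - C β) ^ (P.rootMultiplicity β / ℓ)
    with hW
  have hWm : W.Monic := monic_prod_of_monic _ _ fun β _ => (monic_X_sub_C β).pow _
  have hPW : P = W ^ ℓ * ∏ β ∈ RR F g E, (X - C β) ^ P.rootMultiplicity β := by
    have h1 : P = ∏ β ∈ P.roots.toFinset, (X - C β) ^ P.rootMultiplicity β := by
      have h2 : P = (P.roots.map fun a => X - C a).prod :=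
        (IsAlgClosed.splits P).eq_prod_roots_of_monic hP
      conv_lhs => rw [h2]
      rw [Finset.prod_multiset_map_count]
      refine Finset.prod_congr rfl fun β _ => ?_
      rw [count_roots]
    have h3 : W ^ ℓ = ∏ β ∈ P.roots.toFinset \ RR F g E, (X - C β) ^ P.rootMultiplicity β := by
      rw [hW, ← Finset.prod_pow]
      refine Finset.prod_congr rfl fun β hβ => ?_
      rw [← pow_mul, Nat.div_mul_cancel (hdvd β (Finset.mem_sdiff.mp hβ).2)]
    have h4 : ∏ β ∈ RR F g E, (X - C β) ^ P.rootMultiplicity β =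
        ∏ β ∈ P.roots.toFinset ∩ RR F g E, (X - C β) ^ P.rootMultiplicity β := by
      symm
      refine Finset.prod_subset Finset.inter_subset_right fun β hβ hn' => ?_
      have h5 : β ∉ P.roots.toFinset := fun h => hn' (Finset.mem_inter.mpr ⟨h, hβ⟩)
      have h6 : P.rootMultiplicity β = 0 := by
        rw [← count_roots]
        rw [Multiset.mem_toFinset] at h5
        exact Multiset.count_eq_zero_of_notMem h5
      rw [h6, pow_zero]
    rw [h3, h4]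
    conv_lhs => rw [h1]
    rw [mul_comm]
    exact (Finset.prod_inter_mul_prod_sdiff _ _ _).symm
  have hWθ : ∀ θ ∈ rts (cOver k F L Ω g 1), aeval θ W ≠ 0 := by
    intro θ hθ h0
    rw [rts_one H] at hθ
    exact hWm.ne_zero (aeval_root_injective hF H hθ (a₁ := W) (a₂ := 0) (by rw [map_zero, h0]))
  refine ⟨fun β => (P.rootMultiplicity β : ℤ), ?_, fun θ => z θ / aeval θ W, ?_, ?_⟩
  · intro a
    by_cases hDa : aeval a E = 0
    · have h1 : (RR F g E).filter (fun β => aeval β g = a) =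
          (g.map (algebraMap k F) - C a).roots.toFinset := by
        have hne : g.map (algebraMap k F) - C a ≠ 0 := by
          intro h0
          have h2 : g.map (algebraMap k F) = C a := sub_eq_zero.mp h0
          have h3 := congrArg natDegree h2
          rw [natDegree_map, natDegree_C] at h3
          have h4 := H.cop
          rw [h3, Nat.coprime_zero_left] at h4
          exact H.prime.one_lt.ne' h4
        ext β
        rw [Finset.mem_filter, mem_RR H, Multiset.mem_toFinset, mem_roots hne, IsRoot.def, eval_sub,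
          eval_C, eval_map, ← aeval_def, sub_eq_zero]
        constructor
        · exact fun h => h.2
        · rintro rfl
          exact ⟨hDa, rfl⟩
      rw [h1]
      have h5 := hfib a
      exact_mod_cast h5
    · have h1 : (RR F g E).filter (fun β => aeval β g = a) = ∅ := by
        rw [Finset.filter_eq_empty_iff]
        intro β hβ h
        rw [mem_RR H, h] at hβ
        exact hDa hβ
      rw [h1, Finset.sum_empty]
      exact dvd_zero _
  · intro θ hθ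
    rw [div_pow, hz θ hθ]
    conv_lhs => rw [hPW]
    rw [map_mul, map_pow, mul_div_cancel_left₀ _ (pow_ne_zero _ (hWθ θ hθ)), map_prod]
    refine Finset.prod_congr rfl fun β _ => ?_
    rw [map_pow, map_sub, aeval_X, aeval_C, zpow_natCast]
  · intro σ n hσ
    refine hn σ n fun θ hθ => ?_
    have h1 := hσ θ hθ
    have h2 : σ (aeval θ W) = aeval (σ θ) W := G13_map_aeval hF hF (σ : Ω →ₐ[L] Ω) θ W
    have h3 : σ θ ∈ rts (cOver k F L Ω g 1) :=
      G13_map_root (g := g) (D := 1) (ℓ := ℓ) (k := k) (F := F) (σ : Ω →ₐ[L] Ω) hθ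
    have h4 := hWθ _ h3
    rw [map_div₀, h2, div_eq_iff h4] at h1
    rw [h1]
    field_simp

end Pool.Agent.Lib.MP_89bcae_ag.Sup

end

section

open Polynomial IsDedekindDomain

open scoped Classical

set_option linter.unusedSectionVars false

namespace Pool.Agent.Lib.MP_89bcae_ag.Sup

universe u

variable {k F L Ω : Type u} [Field k] [Field F] [Algebra k F] [Field L] [Algebra F[X] L]
  [Field Ω] [Algebra L Ω] [IsAlgClosure k F] [IsFractionRing F[X] L] [IsAlgClosure L Ω]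
  {ℓ : ℕ} {g E : k[X]} {ζ : k}

lemma xA_act (γ : AutO k F L Ω) (x : F) :
    (γ : Ω ≃+* Ω) (xA F L Ω x) = xA F L Ω (resF γ x) := by
  have h := resF_spec γ (C x)
  rw [Polynomial.map_C] at h
  exact h

lemma xA_galA (σ : Ω ≃ₐ[L] Ω) (x : F) : σ (xA F L Ω x) = xA F L Ω x := by
  exact σ.commutes _

lemma xA_compat [Algebra F Ω] (hF : CompatF F L Ω) (x : F) :
    xA F L Ω x = algebraMap F Ω x := by
  exact (hF x).symm

lemma zA_eq (ζ : k) : zA F L Ω ζ = xA F L Ω (algebraMap k F ζ) := by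
  change algebraMap L Ω (algebraMap F[X] L ((C ζ).map (algebraMap k F))) = _
  rw [Polynomial.map_C]
  rfl

lemma xA_pow (x : F) (n : ℕ) : xA F L Ω (x ^ n) = xA F L Ω x ^ n := by
  unfold xA
  rw [map_pow, map_pow, map_pow]

private lemma tc06_one : xA F L Ω 1 = 1 := by
  unfold xA
  rw [map_one, map_one, map_one]

private lemma tc06_mul (x y : F) : xA F L Ω (x * y) = xA F L Ω x * xA F L Ω y := by
  unfold xA
  rw [map_mul, map_mul, map_mul]

private lemma tc06_inj {x y : F} (h : xA F L Ω x = xA F L Ω y) : x = y :=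
  C_injective (IsFractionRing.injective F[X] L ((algebraMap L Ω).injective h))

lemma xA_prim {x : F} {n : ℕ} (h : IsPrimitiveRoot x n) : IsPrimitiveRoot (xA F L Ω x) n := by
  constructor
  · rw [← xA_pow, h.pow_eq_one, tc06_one]
  · intro l hl
    refine h.dvd_of_pow_eq_one l (tc06_inj (L := L) (Ω := Ω) ?_)
    rw [xA_pow, hl, tc06_one]

/-- The stabilizer of `s`. -/
def Nst {L Ω : Type u} [Field L] [Field Ω] [Algebra L Ω] (s : Ω) :
    Subgroup (Ω ≃ₐ[L] Ω) where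
  carrier := {σ | σ s = s}
  mul_mem' := by
    intro σ τ hσ hτ
    change σ (τ s) = s
    rw [show τ s = s from hτ]
    exact hσ
  one_mem' := rfl
  inv_mem' := by
    intro σ hσ
    change σ.symm s = s
    rw [AlgEquiv.symm_apply_eq]
    exact (show σ s = s from hσ).symm

/-- A tower: `s ^ (ℓ ^ r) = E(t)`, `ζr` a primitive root of unity of order `ℓ ^ r`, `r > 0`. -/
structure TowDat (ℓ r : ℕ) {k F L Ω : Type u} [Field k] [Field F] [Algebra k F] [Field L]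
    [Algebra F[X] L] [Field Ω] [Algebra L Ω] (g E : k[X]) (ζ : k) (ζr : F) (s : Ω) : Prop where
  glob : GlobHyp ℓ g E ζ
  rpos : 0 < r
  prim : IsPrimitiveRoot ζr (ℓ ^ r)
  pow : ζr ^ ℓ ^ (r - 1) = algebraMap k F ζ
  hs : s ^ ℓ ^ r = base k F L Ω E

variable {r : ℕ} {ζr : F} {s : Ω}

private lemma tc06_lr (hD : TowDat (L := L) ℓ r g E ζ ζr s) : ℓ ^ r ≠ 0 :=
  pow_ne_zero _ hD.glob.prime.pos.ne'

private lemma tc06_base {k F L Ω : Type u} [Field k] [Field F] [Algebra k F] [Field L]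
    [Algebra F[X] L] [Field Ω] [Algebra L Ω] [IsFractionRing F[X] L] {E : k[X]} (hE : E ≠ 0) :
    base k F L Ω E ≠ 0 := by
  intro h
  have h1 : (algebraMap L Ω) (algebraMap F[X] L (E.map (algebraMap k F))) =
      algebraMap L Ω (algebraMap F[X] L 0) := by
    rw [map_zero, map_zero]
    exact h
  have h2 := IsFractionRing.injective F[X] L ((algebraMap L Ω).injective h1)
  rw [Polynomial.map_eq_zero_iff (algebraMap k F).injective] at h2
  exact hE h2

lemma TowDat.ne_zero (hD : TowDat (L := L) ℓ r g E ζ ζr s) : s ≠ 0 := by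
  rintro rfl
  have h1 := hD.hs
  rw [zero_pow (tc06_lr hD)] at h1
  refine tc06_base (F := F) (L := L) (Ω := Ω) (E := E) ?_ h1.symm
  intro h0
  exact hD.glob.pos (by rw [h0, natDegree_zero])

lemma TowDat.exists_pow (hD : TowDat (L := L) ℓ r g E ζ ζr s)
    (γ : AutO k F L Ω) : ∃ i : ℕ, (γ : Ω ≃+* Ω) s = xA F L Ω ζr ^ i * s := by
  have h0 : s ≠ 0 := hD.ne_zero
  have h1 : (γ : Ω ≃+* Ω) s ^ ℓ ^ r = s ^ ℓ ^ r := by
    rw [← map_pow, hD.hs]
    exact γ.2 E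
  have h2 : ((γ : Ω ≃+* Ω) s / s) ^ ℓ ^ r = 1 := by
    rw [div_pow, h1, div_self (pow_ne_zero _ h0)]
  have : NeZero (ℓ ^ r) := ⟨tc06_lr hD⟩
  obtain ⟨i, -, hi⟩ := (xA_prim (L := L) (Ω := Ω) hD.prim).eq_pow_of_pow_eq_one h2
  exact ⟨i, by rw [hi, div_mul_cancel₀ _ h0]⟩

lemma TowDat.exists_powG (hD : TowDat (L := L) ℓ r g E ζ ζr s)
    (σ : Ω ≃ₐ[L] Ω) : ∃ i : ℕ, σ s = xA F L Ω ζr ^ i * s := by
  obtain ⟨i, hi⟩ := hD.exists_pow (galA k F σ)
  exact ⟨i, hi⟩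

lemma TowDat.nrm (hD : TowDat (L := L) ℓ r g E ζ ζr s) :
    Nrm k F (Nst s : Subgroup (Ω ≃ₐ[L] Ω)) := by
  intro γ σ hσ
  change (conjG γ σ) s = s
  obtain ⟨j, hj⟩ := hD.exists_pow γ⁻¹
  have hσ' : σ s = s := hσ
  have h1 : (γ : Ω ≃+* Ω) (((γ⁻¹ : AutO k F L Ω) : Ω ≃+* Ω) s) = s :=
    (γ : Ω ≃+* Ω).apply_symm_apply s
  have h2 := conjG_spec γ σ (((γ⁻¹ : AutO k F L Ω) : Ω ≃+* Ω) s)
  rw [h1] at h2
  rw [h2]
  have h3 : σ (((γ⁻¹ : AutO k F L Ω) : Ω ≃+* Ω) s) = ((γ⁻¹ : AutO k F L Ω) : Ω ≃+* Ω) s := by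
    rw [hj, map_mul, map_pow, xA_galA, hσ']
  rw [h3, h1]

lemma opn_nst (s : Ω) : Opn (Nst s : Subgroup (Ω ≃ₐ[L] Ω)) := by
  refine ⟨{s}, fun σ hσ => ?_⟩
  exact hσ s (Finset.mem_singleton_self s)

lemma TowDat.unr (hD : TowDat (L := L) ℓ r g E ζ ζr s) :
    UnrOut k F L Ω E (Nst s : Subgroup (Ω ≃ₐ[L] Ω)) := by
  intro a ha M _ _ _ _ _ j σ σ' hσ
  change σ' s = s
  have hFc : IsAlgClosed F := IsAlgClosure.isAlgClosed k
  let _ : Algebra F M :=
    ((algebraMap L M).comp ((algebraMap F[X] L).comp (C : F →+* F[X]))).toAlgebra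
  have hFM : CompatF F L M := fun _ => rfl
  have hXL : ∀ P : F[X], algebraMap ((plc a).adicCompletion L) M
      (algebraMap F[X] ((plc a).adicCompletion L) P) = algebraMap L M (algebraMap F[X] L P) := by
    intro P
    rw [IsScalarTower.algebraMap_apply F[X] L ((plc a).adicCompletion L),
      ← IsScalarTower.algebraMap_apply L ((plc a).adicCompletion L)]
  obtain ⟨v, hv, hval, hinv, hsemi⟩ := exists_locCtx (L := L) (M := M) a
    (fun c => by rw [hXL, hFM])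
  rw [hXL] at hv
  have hv' : LocCtx v a (tA F L M) := hv
  have hσc : ∀ c : F, (σ : M ≃+* M) (algebraMap F M c) = algebraMap F M c := by
    intro c
    rw [hFM c, ← hXL]
    exact σ.commutes _
  have hEs : (j s) ^ ℓ ^ r = aeval (tA F L M) (E.map (algebraMap k F)) := by
    rw [← map_pow, hD.hs]
    change j (algebraMap L Ω (algebraMap F[X] L (E.map (algebraMap k F)))) = _
    rw [j.commutes]
    have hgen : ∀ p : F[X], algebraMap L M (algebraMap F[X] L p) = aeval (tA F L M) p := by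
      intro p
      induction p using Polynomial.induction_on' with
      | add p q hp hq => rw [map_add, map_add, map_add, hp, hq]
      | monomial n a =>
        rw [← C_mul_X_pow_eq_monomial, map_mul, map_mul, map_mul, map_pow, map_pow, map_pow,
          aeval_C, aeval_X, hFM a]
        rfl
    exact hgen _
  have hres := hv'.residue_eval (hv'.lt_one) (E.map (algebraMap k F))
  have hE0 : (E.map (algebraMap k F)).eval a ≠ 0 := by
    rw [eval_map_algebraMap]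
    exact ha
  have h1 : v ((j s) ^ ℓ ^ r) = 1 := by
    rw [hEs]
    exact hv'.v_eq_one hres hE0
  have h2 : v (j s) = 1 := by
    rw [map_pow] at h1
    exact (pow_eq_one_iff_of_nonneg (v.nonneg _) (tc06_lr hD)).mp h1
  have h3 : (σ : M ≃+* M) ((j s) ^ ℓ ^ r) = (j s) ^ ℓ ^ r := by
    have h4 : (j s) ^ ℓ ^ r = algebraMap ((plc a).adicCompletion L) M
        (algebraMap F[X] ((plc a).adicCompletion L) (E.map (algebraMap k F))) := by
      rw [← map_pow, hD.hs, hXL]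
      exact j.commutes _
    rw [h4]
    exact σ.commutes _
  have h5 := hv'.root_of_unit_fixed (tc06_lr hD) hD.prim (σ : M ≃+* M) (hinv σ) hσc h2 h3
  apply j.toRingHom.injective
  change j (σ' s) = j s
  rw [hσ]
  exact h5

private lemma tc06_tau {τ : Ω ≃ₐ[L] Ω} (hτ : τ s = xA F L Ω ζr * s) (i : ℕ) :
    (τ ^ i) s = xA F L Ω ζr ^ i * s := by
  induction i with
  | zero => rw [pow_zero, pow_zero, one_mul]; rfl
  | succ n ih =>
    rw [pow_succ', AlgEquiv.mul_apply, ih, map_mul, map_pow, xA_galA, hτ, pow_succ, mul_assoc]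

/-- `Gal(Ω/L)` is the union of the `τ ^ i N`. -/
lemma TowDat.exists_mul (hD : TowDat (L := L) ℓ r g E ζ ζr s)
    {τ : Ω ≃ₐ[L] Ω} (hτ : τ s = xA F L Ω ζr * s) (σ : Ω ≃ₐ[L] Ω) :
    ∃ i : ℕ, ∃ η ∈ (Nst s : Subgroup (Ω ≃ₐ[L] Ω)), σ = τ ^ i * η := by
  obtain ⟨i, hi⟩ := hD.exists_powG σ
  refine ⟨i, (τ ^ i)⁻¹ * σ, ?_, by rw [mul_inv_cancel_left]⟩
  change (τ ^ i).symm (σ s) = s
  rw [AlgEquiv.symm_apply_eq, hi, tc06_tau hτ]

lemma TowDat.pow_mem (hD : TowDat (L := L) ℓ r g E ζ ζr s)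
    {τ : Ω ≃ₐ[L] Ω} (hτ : τ s = xA F L Ω ζr * s) :
    τ ^ ℓ ^ r ∈ (Nst s : Subgroup (Ω ≃ₐ[L] Ω)) := by
  change (τ ^ ℓ ^ r) s = s
  rw [tc06_tau hτ, (xA_prim (L := L) (Ω := Ω) hD.prim).pow_eq_one, one_mul]

/-- Two elements with the same value at `s` differ by an element of `N`. -/
lemma inv_mul_mem_nst {σ σ' : Ω ≃ₐ[L] Ω} {s : Ω} (h : σ s = σ' s) :
    σ⁻¹ * σ' ∈ (Nst s : Subgroup (Ω ≃ₐ[L] Ω)) := by
  change σ.symm (σ' s) = s
  rw [AlgEquiv.symm_apply_eq]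
  exact h.symm

private lemma tc06_dvd {n q : ℕ} {x : F} (hx : IsPrimitiveRoot x n) (hx0 : x ≠ 0)
    (hq : 0 < q) (h : x ^ q = x) : n ∣ q - 1 := by
  apply hx.dvd_of_pow_eq_one
  have h1 : x ^ (q - 1) * x = x := by
    rw [← pow_succ, Nat.sub_add_cancel hq]
    exact h
  exact mul_right_cancel₀ hx0 (h1.trans (one_mul x).symm)

private lemma tc06_two (q : ℕ) : 2 * q.choose 2 = q * (q - 1) := by
  rw [Nat.choose_two_right]
  exact Nat.mul_div_cancel' (Nat.even_mul_pred_self q).two_dvd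

/-- The action on `ζr`. -/
lemma TowDat.exists_q (hD : TowDat (L := L) ℓ r g E ζ ζr s) (U : F ≃ₐ[k] F)
    (hS0 : ∀ x : F, x ^ ℓ = -1 → U x = x) : ∃ q : ℕ, QOk ℓ q ∧ U ζr = ζr ^ q := by
  have hlr : ℓ ^ r ≠ 0 := tc06_lr hD
  have hr0 : ζr ≠ 0 := by
    intro h0
    have h1 := hD.prim.pow_eq_one
    rw [h0, zero_pow hlr] at h1
    exact zero_ne_one h1
  have h1 : (U ζr) ^ ℓ ^ r = 1 := by
    rw [← map_pow, hD.prim.pow_eq_one, map_one]
  have : NeZero (ℓ ^ r) := ⟨hlr⟩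
  obtain ⟨q, -, hq⟩ := hD.prim.eq_pow_of_pow_eq_one h1
  have hq0 : 0 < q := by
    rcases Nat.eq_zero_or_pos q with h0 | h0
    · exfalso
      rw [h0, pow_zero] at hq
      have h2 : ζr = 1 := U.injective (by rw [map_one]; exact hq.symm)
      have h3 : IsPrimitiveRoot (1 : F) (ℓ ^ r) := by
        rw [← h2]
        exact hD.prim
      have h4 : ℓ ^ r = 1 := h3.unique IsPrimitiveRoot.one
      have h5 := Nat.one_lt_pow hD.rpos.ne' hD.glob.prime.one_lt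
      omega
    · exact h0
  have hζF : IsPrimitiveRoot (algebraMap k F ζ) ℓ :=
    hD.glob.zeta.map_of_injective (algebraMap k F).injective
  have hζ0 : algebraMap k F ζ ≠ 0 := by
    rw [← hD.pow]
    exact pow_ne_zero _ hr0
  have hζq : (algebraMap k F ζ) ^ q = algebraMap k F ζ := by
    have h2 : U (algebraMap k F ζ) = algebraMap k F ζ := U.commutes ζ
    rw [← hD.pow, map_pow, ← hq] at h2
    rw [← hD.pow, ← pow_mul, mul_comm, pow_mul]
    exact h2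
  have hd : ℓ ∣ q - 1 := tc06_dvd hζF hζ0 hq0 hζq
  rcases hD.glob.prime.eq_two_or_odd' with hl | hl
  · rcases Nat.lt_or_ge 1 r with hr | hr
    · subst hl
      refine ⟨q, ⟨hq0, hd, ?_⟩, hq.symm⟩
      have hx : IsPrimitiveRoot (ζr ^ 2 ^ (r - 2)) 4 := by
        refine hD.prim.pow (Nat.pos_of_ne_zero hlr) ?_
        have h2 : r = (r - 2) + 2 := by omega
        conv_lhs => rw [h2]
        rw [pow_add]
        norm_num
      have hx2 : (ζr ^ 2 ^ (r - 2)) ^ 2 = -1 := by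
        rw [← pow_mul, ← pow_succ, show r - 2 + 1 = r - 1 by omega, hD.pow]
        exact hζF.eq_neg_one_of_two_right
      have hUx := hS0 _ hx2
      rw [map_pow, ← hq, ← pow_mul, mul_comm, pow_mul] at hUx
      have h4 : 4 ∣ q - 1 := tc06_dvd hx (pow_ne_zero _ hr0) hq0 hUx
      obtain ⟨m, hm⟩ := h4
      have h5 := tc06_two q
      rw [hm] at h5
      exact ⟨q * m, by
        have h6 : 2 * q.choose 2 = 2 * (2 * (q * m)) := by rw [h5]; ring
        exact Nat.eq_of_mul_eq_mul_left (by norm_num) h6⟩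
    · have hr1 : r = 1 := by
        have := hD.rpos
        omega
      have h2 : ζr = algebraMap k F ζ := by
        rw [← hD.pow, hr1, Nat.sub_self, pow_zero, pow_one]
      refine ⟨1, ⟨Nat.one_pos, by simp, by simp⟩, ?_⟩
      rw [pow_one, h2]
      exact U.commutes ζ
  · refine ⟨q, ⟨hq0, hd, ?_⟩, hq.symm⟩
    have h2 : ℓ ∣ 2 * q.choose 2 := by
      rw [tc06_two]
      exact Dvd.dvd.mul_left hd q
    have h3 : Nat.Coprime ℓ 2 := Nat.coprime_two_right.mpr hl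
    exact h3.dvd_of_dvd_mul_left h2

/-- `γ τ = g₀ τ ^ q γ` with `g₀` in `N`. -/
lemma TowDat.exists_comm (hD : TowDat (L := L) ℓ r g E ζ ζr s)
    {τ : Ω ≃ₐ[L] Ω} (hτ : τ s = xA F L Ω ζr * s) (γ : AutO k F L Ω) {q : ℕ}
    (hq : resF γ ζr = ζr ^ q) :
    ∃ g₀ ∈ (Nst s : Subgroup (Ω ≃ₐ[L] Ω)),
      conjG γ τ = g₀ * τ ^ q ∧ γ * galA k F τ = galA k F g₀ * galA k F (τ ^ q) * γ := by
  have hc : conjG γ τ = (conjG γ τ * (τ ^ q)⁻¹) * τ ^ q := by
    rw [inv_mul_cancel_right]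
  refine ⟨conjG γ τ * (τ ^ q)⁻¹, ?_, hc, ?_⟩
  · obtain ⟨i, hi⟩ := hD.exists_pow γ
    have h0 : xA F L Ω ζr ≠ 0 := by
      intro h
      have h1 := (xA_prim (L := L) (Ω := Ω) hD.prim).pow_eq_one
      rw [h, zero_pow (tc06_lr hD)] at h1
      exact zero_ne_one h1
    have h1 := conjG_spec γ τ s
    rw [hτ, map_mul, xA_act, hq, xA_pow, hi, map_mul, map_pow, xA_galA] at h1
    have h2 : (conjG γ τ) s = xA F L Ω ζr ^ q * s := by
      have h3 : xA F L Ω ζr ^ i * (conjG γ τ) s = xA F L Ω ζr ^ i * (xA F L Ω ζr ^ q * s) := by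
        rw [h1]
        ring
      exact mul_left_cancel₀ (pow_ne_zero _ h0) h3
    have h4 := tc06_tau hτ q
    have h5 : (τ ^ q)⁻¹ s = (xA F L Ω ζr ^ q)⁻¹ * s := by
      change (τ ^ q).symm s = _
      rw [AlgEquiv.symm_apply_eq, map_mul, map_inv₀, map_pow, xA_galA, h4, ← mul_assoc,
        inv_mul_cancel₀ (pow_ne_zero _ h0), one_mul]
    change conjG γ τ ((τ ^ q)⁻¹ s) = s
    rw [h5, map_mul, map_inv₀, map_pow, xA_galA, h2, ← mul_assoc,
      inv_mul_cancel₀ (pow_ne_zero _ h0), one_mul]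
  · rw [← map_mul, ← hc, galA_conjG, inv_mul_cancel_right]

/-- Two automorphisms over `k(t)` with the same restriction to `F` and the same value at `s` differ
by an element of `N`. -/
lemma exists_galA_nst {γ γ' : AutO k F L Ω} {s : Ω} (h : resF γ = resF γ')
    (hs : (γ : Ω ≃+* Ω) s = (γ' : Ω ≃+* Ω) s) :
    ∃ η ∈ (Nst s : Subgroup (Ω ≃ₐ[L] Ω)), γ' = γ * galA k F η := by
  have h1 : resF (γ⁻¹ * γ') = 1 := by
    rw [map_mul, map_inv, h, inv_mul_cancel]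
  obtain ⟨η, hη⟩ := exists_galA_of_resF_eq_one (γ⁻¹ * γ') h1
  refine ⟨η, ?_, by rw [hη, mul_inv_cancel_left]⟩
  change η s = s
  have h2 : η s = ((γ⁻¹ * γ' : AutO k F L Ω) : Ω ≃+* Ω) s := by
    rw [← hη]
    rfl
  rw [h2]
  change (γ : Ω ≃+* Ω).symm ((γ' : Ω ≃+* Ω) s) = s
  rw [← hs]
  exact (γ : Ω ≃+* Ω).symm_apply_apply s

end Pool.Agent.Lib.MP_89bcae_ag.Sup

end
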