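import Mathlib
import Pool.Agent.Lib.MP_89bcae_ag.Rk.K031
import Pool.Agent.Lib.MP_89bcae_ag.Rk.K032
import Pool.Agent.Lib.MP_89bcae_ag.Rk.K034

section

open Polynomial

open scoped Classical

set_option linter.unusedSectionVars false

namespace Pool.Agent.Lib.MP_89bcae_ag.Sup

universe u

variable {F M : Type u} [Field F] [Field M] [Algebra F M] {v : AbsoluteValue M ℝ} {a : F} {t : M}

lemma LocCtx.badCtx_lin' (h : LocCtx v a t) [IsAlgClosed M] {g : F[X]} {ℓ : ℕ} (hg : g.Monic)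
    (hm : g.natDegree ≠ 0) (hmℓ : g.natDegree.Coprime ℓ)
    (hroots : ∀ r, g.eval r = a → (derivative g).eval r ≠ 0) {δ : M}
    (hδ : δ ^ ℓ = t - algebraMap F M a) : BadCtx g (X - C a) a t δ ℓ := by
  refine ⟨hg, hm, hmℓ, ?_, ?_, hroots, ?_, ?_⟩
  · simp
  · simp
  · rw [hδ]; simp
  · simp only [map_sub, aeval_X, aeval_C]
    exact sub_ne_zero.mpr h.ne

theorem LocCtx.good_fixed (h : LocCtx v a t) {ℓ p : ℕ} (hp : p.Coprime ℓ) {g : F[X]}
    (hg : g.Monic) (hm : g.natDegree ≠ 0) (hmℓ : g.natDegree.Coprime ℓ)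
    (hroots : ∀ r, g.eval r = a → (derivative g).eval r ≠ 0) {f : M[X]}
    (hf : f = locPoly g t 1) [hG : IsGood ℓ f] {ζ : F} (hζ : IsPrimitiveRoot ζ ℓ)
    (hζ' : IsPrimitiveRoot (algebraMap F M ζ) ℓ) {ϖ : ℝ} {Γ : Subgroup (Sym f)}
    (hΓ : LocGrp p F v t ϖ Γ) {π' : M} (hπ : v π' = ϖ)
    (hπΓ : ∀ σ ∈ Γ, (σ : M ≃+* M) π' = π') (Q : Jac ℓ f)
    (hQ : ∀ σ ∈ Γ, zJ (algebraMap F M ζ) hζ'.pow_eq_one (symJ σ Q - Q) = symJ σ Q - Q) :
    ∀ σ ∈ Γ, symJ σ Q = Q := by
  subst hf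
  have hAC : IsAlgClosed M := hG.alg
  have hℓ0 : ℓ ≠ 0 := hG.prime.ne_zero
  have hf0 : locPoly g t 1 ≠ 0 := locPoly_ne_zero hg hm one_ne_zero
  obtain ⟨δ, hδ⟩ := IsAlgClosed.exists_pow_nat_eq (t - algebraMap F M a) (Nat.pos_of_ne_zero hℓ0)
  have hB := h.badCtx_lin' hg hm hmℓ hroots hδ
  have hroot : ∀ θ : M, (locPoly g t 1).eval θ = 0 → aeval θ g = t := fun θ hθ =>
    (eval_locPoly_eq_zero one_ne_zero).mp hθ
  have hfixr : ∀ σ ∈ Γ, ∀ θ : M, (locPoly g t 1).eval θ = 0 → (σ : M ≃+* M) θ = θ :=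
    fun σ hσ θ hθ => h.fix_root hB (σ : M ≃+* M) (hΓ.inv σ hσ) (hΓ.fix σ hσ) (hΓ.fixt σ hσ)
      (hroot θ hθ)
  have hnear : ∀ r' : F, ∀ θ, θ ∈ near v (locPoly g t 1) r' →
      (locPoly g t 1).eval θ = 0 ∧ v (θ - algebraMap F M r') < 1 := by
    intro r' θ hθ
    unfold near at hθ
    rw [Finset.mem_filter] at hθ
    exact ⟨(mem_rts hf0).mp hθ.1, hθ.2⟩
  have huniq : ∀ r' : F, ∀ θ ∈ near v (locPoly g t 1) r', ∀ θ' ∈ near v (locPoly g t 1) r',
      θ = θ' := by
    intro r' θ hθ θ' hθ'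
    obtain ⟨h1, h2⟩ := hnear r' θ hθ
    obtain ⟨h3, h4⟩ := hnear r' θ' hθ'
    apply h.rs_injOn hB (hroot θ h1) (hroot θ' h3)
    rw [h.rs_eq h2, h.rs_eq h4]
  have horb : ∀ r' : F, ∀ θ ∈ near v (locPoly g t 1) r', ∀ θ' ∈ near v (locPoly g t 1) r',
      ∃ σ ∈ Γ, (σ : M ≃+* M) θ = θ' := by
    intro r' θ hθ θ' hθ'
    refine ⟨1, Γ.one_mem, ?_⟩
    rw [huniq r' θ hθ θ' hθ']
    rfl
  have hfixζ : ∀ σ ∈ Γ, (σ : M ≃+* M) (algebraMap F M ζ) = algebraMap F M ζ :=
    fun σ hσ => hΓ.fix σ hσ ζ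
  have hstab : ∀ σ ∈ (Γ : Set (Sym (locPoly g t 1))),
      symJ σ (Q - zJ (algebraMap F M ζ) hζ'.pow_eq_one Q) =
        Q - zJ (algebraMap F M ζ) hζ'.pow_eq_one Q := by
    intro σ hσ
    have h1 := hQ σ hσ
    rw [map_sub] at h1
    rw [map_sub, ← zJ_symJ _ _ σ (hfixζ σ hσ)]
    have h2 : symJ σ Q - zJ (algebraMap F M ζ) hζ'.pow_eq_one (symJ σ Q) -
        (Q - zJ (algebraMap F M ζ) hζ'.pow_eq_one Q) =
        (symJ σ Q - Q) - (zJ (algebraMap F M ζ) hζ'.pow_eq_one (symJ σ Q) -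
          zJ (algebraMap F M ζ) hζ'.pow_eq_one Q) := by abel
    rw [← sub_eq_zero, h2, h1, sub_self]
  obtain ⟨D, hDcl, hDfix⟩ := exists_stable (algebraMap F M ζ) hζ'
    (Γ : Set (Sym (locPoly g t 1))) _ hstab
  obtain ⟨z', hz', hkum⟩ := kummer_formula (algebraMap F M ζ) hζ' Q D hDcl.symm
  intro σ hσ
  have hπ0 : π' ≠ 0 := by
    intro h0
    rw [h0, map_zero] at hπ
    exact hΓ.pos.ne hπ
  have hk := hkum σ (hfixζ σ hσ) (hDfix σ hσ) (fun _ => 0) (by
    intro θ hθ
    rw [hfixr σ hσ θ hθ, zpow_zero, one_mul]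
    refine h.root_fixed_of_val hℓ0 hp hζ (σ : M ≃+* M) (hΓ.inv σ hσ) (hΓ.fix σ hσ) (hz' θ hθ).1
      hπ0 (hπΓ σ hσ) ?_ ?_
    · rw [(hz' θ hθ).2, map_mul, sym_uval σ D (hDfix σ hσ), map_zpow₀, map_pow, map_neg, map_one,
        hfixr σ hσ θ hθ]
    · have hres := h.v_sub_rs (h.v_root_le hg hm (hroot θ hθ))
      have hmem : θ ∈ near v (locPoly g t 1) (rs F v θ) := by
        unfold near
        rw [Finset.mem_filter]
        exact ⟨(mem_rts hf0).mpr hθ, hres⟩
      have hcard : (near v (locPoly g t 1) (rs F v θ)).card = 1 := by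
        rw [Finset.card_eq_one]
        refine ⟨θ, ?_⟩
        ext x
        rw [Finset.mem_singleton]
        constructor
        · intro hx
          exact huniq _ x hx θ hmem
        · rintro rfl
          exact hmem
      have hval := h.val_uval (p := p) hg hm one_ne_zero hmℓ hΓ
        (by rw [map_one]; exact Val.one p (ϖ ^ ℓ)) D (hDfix) (r := rs F v θ)
        (horb (rs F v θ)) hmem
      rw [hcard, pow_one] at hval
      have hv1 : v (z' θ ^ ℓ) = v (uval D θ) := by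
        rw [(hz' θ hθ).2, map_mul, map_zpow₀, map_pow, v.map_neg, map_one, one_pow, one_zpow,
          one_mul]
      rw [hv1, hπ]
      exact hval)
  have h0 : (ram (fun _ => 0) : Jac ℓ (locPoly g t 1)) = 0 := by
    have h1 := ram_sub (ℓ := ℓ) (f := locPoly g t 1) (fun _ => 0) (fun _ => 0)
    simpa using h1
  rw [h0] at hk
  exact sub_eq_zero.mp hk

end Pool.Agent.Lib.MP_89bcae_ag.Sup

end

section

open Polynomial IsDedekindDomain

open scoped Classical

set_option linter.unusedSectionVars false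

namespace Pool.Agent.Lib.MP_89bcae_ag.Sup

universe u

variable {k F L Ω : Type u} [Field k] [Field F] [Algebra k F] [Field L] [Algebra F[X] L]
  [Field Ω] [Algebra L Ω] [IsAlgClosure k F] [IsFractionRing F[X] L] [IsAlgClosure L Ω]
  [Algebra F Ω] {ℓ : ℕ} {g E : k[X]} [hG : IsGood ℓ (cOver k F L Ω g 1)] {ζ : k}
  {hζ : (zA F L Ω ζ) ^ ℓ = 1} {N : Subgroup (Ω ≃ₐ[L] Ω)}

/-- Local data at `t = a`. -/
structure LocDat (F L : Type u) [Field F] [Field L] [Algebra F[X] L] [IsFractionRing F[X] L]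
    (a : F) (M : Type u) [Field M] [Algebra ((plc a).adicCompletion L) M] [Algebra L M]
    [IsScalarTower L ((plc a).adicCompletion L) M] [Algebra F M] (v : AbsoluteValue M ℝ) :
    Prop where
  compat : CompatF F L M
  ctx : LocCtx v a (tA F L M)
  inv : ∀ (σ : M ≃ₐ[(plc a).adicCompletion L] M) x, v (σ x) = v x
  val : ∀ x : (plc a).adicCompletion L, x ≠ 0 → ∃ i : ℤ,
    v (algebraMap ((plc a).adicCompletion L) M x) = v (tA F L M - algebraMap F M a) ^ i
  iso : ∀ (w : M ≃+* M) (φ : (plc a).adicCompletion L ≃+* (plc a).adicCompletion L),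
    (∀ x, Valued.v (φ x) = Valued.v x) →
    (∀ x, w (algebraMap ((plc a).adicCompletion L) M x) =
      algebraMap ((plc a).adicCompletion L) M (φ x)) → ∀ x, v (w x) = v x

theorem exists_locDat [IsAlgClosed F] (a : F) :
    ∃ (M : Type u) (_ : Field M) (_ : Algebra ((plc a).adicCompletion L) M)
      (_ : IsAlgClosure ((plc a).adicCompletion L) M) (_ : Algebra L M)
      (_ : IsScalarTower L ((plc a).adicCompletion L) M) (_ : Algebra F M)
      (v : AbsoluteValue M ℝ) (_ : Ω →ₐ[L] M), LocDat F L a M v := by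
  have hΩalg : Algebra.IsAlgebraic L Ω := IsAlgClosure.isAlgebraic
  let iF : Algebra F (AlgebraicClosure ((plc a).adicCompletion L)) :=
    ((algebraMap L (AlgebraicClosure ((plc a).adicCompletion L))).comp
      ((algebraMap F[X] L).comp (C : F →+* F[X]))).toAlgebra
  have hFM : CompatF F L (AlgebraicClosure ((plc a).adicCompletion L)) := fun _ => rfl
  have hXL : ∀ P : F[X], algebraMap ((plc a).adicCompletion L)
      (AlgebraicClosure ((plc a).adicCompletion L))
      (algebraMap F[X] ((plc a).adicCompletion L) P) =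
      algebraMap L (AlgebraicClosure ((plc a).adicCompletion L)) (algebraMap F[X] L P) := by
    intro P
    rw [IsScalarTower.algebraMap_apply F[X] L ((plc a).adicCompletion L),
      ← IsScalarTower.algebraMap_apply L ((plc a).adicCompletion L)]
  obtain ⟨v, hv, hval, hinv, hsemi⟩ := exists_locCtx (L := L)
    (M := AlgebraicClosure ((plc a).adicCompletion L)) a (fun c => by rw [hXL, hFM])
  rw [hXL] at hv hval
  let j : Ω →ₐ[L] AlgebraicClosure ((plc a).adicCompletion L) := IsAlgClosed.lift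
  exact ⟨AlgebraicClosure ((plc a).adicCompletion L), inferInstance, inferInstance, inferInstance,
    inferInstance, inferInstance, iF, v, j, ⟨hFM, hv, hinv, hval, hsemi⟩⟩

section

variable {a : F} {M : Type u} [Field M] [Algebra ((plc a).adicCompletion L) M]
  [IsAlgClosure ((plc a).adicCompletion L) M] [Algebra L M]
  [IsScalarTower L ((plc a).adicCompletion L) M] [Algebra F M] {v : AbsoluteValue M ℝ}

lemma LocDat.hfK (g D : k[X]) : ((curvePoly k F L g D).map
    (algebraMap L ((plc a).adicCompletion L))).map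
      (algebraMap ((plc a).adicCompletion L) M) = cOver k F L M g D := by
  rw [Polynomial.map_map, ← IsScalarTower.algebraMap_eq]

theorem LocDat.locGrp (hd : LocDat F L a M v) (g D : k[X]) :
    LocGrp (ringExpChar ((plc a).adicCompletion L)) F v (tA F L M)
      (v (tA F L M - algebraMap F M a))
      (galSym (LocDat.hfK (k := k) (F := F) (L := L) (a := a) (M := M) g D)).range := by
  refine hd.ctx.locGrp _ hd.inv hd.val (fun c =>
    ⟨algebraMap L ((plc a).adicCompletion L) (algebraMap F[X] L (C c)), ?_⟩)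
    ⟨algebraMap L ((plc a).adicCompletion L) (algebraMap F[X] L X), ?_⟩
  · rw [← IsScalarTower.algebraMap_apply, ← hd.compat]
  · rw [← IsScalarTower.algebraMap_apply]
    rfl

lemma LocDat.coprime (H : GlobHyp ℓ g E ζ) :
    (ringExpChar ((plc a).adicCompletion L)).Coprime ℓ := by
  have hℓK : (ℓ : (plc a).adicCompletion L) ≠ 0 := by
    intro h0
    apply H.ne
    let ι : k →+* (plc a).adicCompletion L :=
      (algebraMap L ((plc a).adicCompletion L)).comp ((algebraMap F[X] L).comp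
        ((C : F →+* F[X]).comp (algebraMap k F)))
    apply ι.injective
    rw [map_natCast, map_zero]
    exact h0
  rcases expChar_is_prime_or_one ((plc a).adicCompletion L)
    (ringExpChar ((plc a).adicCompletion L)) with h1 | h1
  · rw [Nat.coprime_primes h1 H.prime]
    intro h2
    apply hℓK
    rw [← h2]
    have h3 : ringExpChar ((plc a).adicCompletion L) = ringChar ((plc a).adicCompletion L) := by
      have h4 : 1 < ringExpChar ((plc a).adicCompletion L) := h1.one_lt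
      unfold ringExpChar at h4 ⊢
      rcases max_cases (ringChar ((plc a).adicCompletion L)) 1 with h5 | h5
      · exact h5.1
      · rw [h5.1] at h4
        exact absurd h4 (lt_irrefl _)
    rw [h3]
    exact ringChar.Nat.cast_ringChar
  · rw [h1]
    exact Nat.coprime_one_left ℓ

/-- The restriction to `Ω` of an automorphism of `M` over the completion. -/
lemma LocDat.restrict (j : Ω →ₐ[L] M) (σ : M ≃ₐ[(plc a).adicCompletion L] M) :
    ∃ σ' : Ω ≃ₐ[L] Ω, ∀ x, j (σ' x) = σ (j x) :=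
  exists_restrict j (σ.restrictScalars L)

/-- A local semilinear automorphism with a given restriction `U` to `F`, `U a = a`. -/
theorem LocDat.exists_semilinear (hd : LocDat F L a M v) (j : Ω →ₐ[L] M)
    (γ₀ : AutO k F L Ω) (ha : resF γ₀ a = a) :
    ∃ (w : M ≃+* M) (φ : (plc a).adicCompletion L ≃+* (plc a).adicCompletion L)
      (γ : AutO k F L Ω),
      (∀ x, w (algebraMap ((plc a).adicCompletion L) M x) =
        algebraMap ((plc a).adicCompletion L) M (φ x)) ∧
      (∀ x, v (w x) = v x) ∧ (∀ x, j ((γ : Ω ≃+* Ω) x) = w (j x)) ∧ resF γ = resF γ₀ := by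
  have hFc : IsAlgClosed F := IsAlgClosure.isAlgClosed k
  have hφ : ∃ φ : (plc a).adicCompletion L ≃+* (plc a).adicCompletion L,
      (∀ x : L, φ (algebraMap L _ x) = algebraMap L _ (coefL L (resF γ₀ : F ≃+* F) x)) ∧
      ∀ x, Valued.v (φ x) = Valued.v x := by
    have h1 := exists_adic_equiv L (resF γ₀ : F ≃+* F) a
    have h2 : (resF γ₀ : F ≃+* F) a = a := ha
    rwa [h2] at h1
  obtain ⟨φ, hφL, hφv⟩ := hφ
  obtain ⟨w, hw⟩ := exists_extend_alg (M := M) φ
  have hwL : ∀ x : L, w (algebraMap L M x) =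
      algebraMap L M (coefL L (resF γ₀ : F ≃+* F) x) := by
    intro x
    rw [IsScalarTower.algebraMap_apply L ((plc a).adicCompletion L) M, hw, hφL,
      ← IsScalarTower.algebraMap_apply L ((plc a).adicCompletion L)]
  obtain ⟨γ₁, hγ₁, hjγ₁⟩ := exists_compat j (coefL L (resF γ₀ : F ≃+* F)) w hwL
  have hγP : ∀ P : F[X], γ₁ (algebraMap L Ω (algebraMap F[X] L P)) =
      algebraMap L Ω (algebraMap F[X] L (P.map (resF γ₀ : F →+* F))) := by
    intro P
    rw [hγ₁, coefL_algebraMap]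
    rfl
  let γ' : AutO k F L Ω := ⟨γ₁, fun p => by
    have h1 := hγP (p.map (algebraMap k F))
    have h2 : (p.map (algebraMap k F)).map (resF γ₀ : F →+* F) = p.map (algebraMap k F) := by
      rw [Polynomial.map_map]
      congr 1
      exact (resF γ₀ : F →ₐ[k] F).comp_algebraMap
    rw [h2] at h1
    exact h1⟩
  have hres : resF γ' = resF γ₀ := by
    ext x
    have h1 := resF_spec γ' (C x)
    have h2 := hγP (C x)
    have h3 : (γ' : Ω ≃+* Ω) (algebraMap L Ω (algebraMap F[X] L (C x))) =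
      γ₁ (algebraMap L Ω (algebraMap F[X] L (C x))) := rfl
    rw [h3, h2] at h1
    have h4 := IsFractionRing.injective F[X] L ((algebraMap L Ω).injective h1)
    rw [Polynomial.map_C, Polynomial.map_C] at h4
    exact (C_injective h4).symm
  exact ⟨w, φ, γ', hw, hd.iso w φ hφv hw, hjγ₁, hres⟩

end

end Pool.Agent.Lib.MP_89bcae_ag.Sup

end

section

open Polynomial IsDedekindDomain

open scoped Classical

set_option linter.unusedSectionVars false

namespace Pool.Agent.Lib.MP_89bcae_ag.Sup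

universe u

private lemma tc04_zJ {A B : Type u} [Field A] [Field B] {ℓ : ℕ} (j : A →+* B)
    {f : A[X]} {f' : B[X]} [IsGood ℓ f] [IsGood ℓ f'] (hj : f.map j = f') (ζ : A) (ζ' : B)
    (hζ : ζ ^ ℓ = 1) (hζ' : ζ' ^ ℓ = 1) (h : j ζ = ζ') (Q : Jac ℓ f) :
    jacMap ℓ j hj (zJ ζ hζ Q) = zJ ζ' hζ' (jacMap ℓ j hj Q) := by
  subst h
  exact (zJ_jacMap j hj ζ hζ hζ' Q).symm

variable {k F L Ω : Type u} [Field k] [Field F] [Algebra k F] [Field L] [Algebra F[X] L]
  [Field Ω] [Algebra L Ω] [IsAlgClosure k F] [IsFractionRing F[X] L] [IsAlgClosure L Ω]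
  [Algebra F Ω] {ℓ : ℕ} {g E : k[X]} [hG : IsGood ℓ (cOver k F L Ω g 1)] {ζ : k}
  {hζ : (zA F L Ω ζ) ^ ℓ = 1} {N : Subgroup (Ω ≃ₐ[L] Ω)}

theorem push_inj_torsion (H : GlobHyp ℓ g E ζ) {M : Type u} [Field M] [Algebra L M]
    [IsAlgClosed M] (j : Ω →ₐ[L] M) (n : ℕ) (Q : JacOver ℓ (curvePoly k F L g 1) Ω)
    (hQ : ℓ ^ n • Q = 0) (h0 : push ℓ (curvePoly k F L g 1) j Q = 0) : Q = 0 := by
  have hGM : IsGood ℓ (cOver k F L M g 1) := goodAll_one H M
  have hz := zA_primitive (F := F) (L := L) H (A := Ω)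
  have hzM := zA_primitive (F := F) (L := L) H (A := M)
  have hjm : (cOver k F L Ω g 1).map (j : Ω →+* M) = cOver k F L M g 1 := by
    rw [Polynomial.map_map, AlgHom.comp_algebraMap]
  have hjz : (j : Ω →+* M) (zA F L Ω ζ) = zA F L M ζ := map_zA j ζ
  have h1 := iterate_eq_zero_of_smul _ hz n Q hQ
  have key : ∀ (m : ℕ) (Q : JacOver ℓ (curvePoly k F L g 1) Ω),
      (fun x => x - zJ (zA F L Ω ζ) hz.pow_eq_one x)^[m] Q = 0 →
      push ℓ (curvePoly k F L g 1) j Q = 0 → Q = 0 := by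
    intro m
    induction m with
    | zero => exact fun Q h _ => h
    | succ m ih =>
      intro Q h hp
      rw [Function.iterate_succ_apply] at h
      have h2 : push ℓ (curvePoly k F L g 1) j (zJ (zA F L Ω ζ) hz.pow_eq_one Q) =
          zJ (zA F L M ζ) hzM.pow_eq_one (push ℓ (curvePoly k F L g 1) j Q) :=
        tc04_zJ (j : Ω →+* M) hjm (zA F L Ω ζ) (zA F L M ζ) hz.pow_eq_one hzM.pow_eq_one hjz Q
      have h3 := ih _ h (by rw [map_sub, h2, hp, map_zero, sub_zero])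
      obtain ⟨e, rfl⟩ := exists_ram_of_zJ_eq _ hz Q (sub_eq_zero.mp h3).symm
      have h4 : push ℓ (curvePoly k F L g 1) j (ram e) =
          (ram (fun θ => e (Function.invFun j θ)) : Jac ℓ (cOver k F L M g 1)) := by
        refine jacMap_ram (j : Ω →+* M) hjm e _ fun θ _ => ?_
        have h7 : Function.invFun j (j θ) = θ :=
          Function.leftInverse_invFun (j : Ω →+* M).injective θ
        change e (Function.invFun j (j θ)) = e θ
        rw [h7]
      rw [h4] at hp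
      obtain ⟨c, hc⟩ := (ram_eq_zero_iff _ hzM _).mp hp
      refine (ram_eq_zero_iff _ hz _).mpr ⟨c, fun θ hθ => ?_⟩
      have h5 := hc (j θ) (by
        have h6 := Polynomial.eval₂_at_apply (p := cOver k F L Ω g 1) (j : Ω →+* M) θ
        rw [← Polynomial.eval_map, hjm, hθ, map_zero] at h6
        exact h6)
      have h7 : Function.invFun j (j θ) = θ :=
        Function.leftInverse_invFun (j : Ω →+* M).injective θ
      rw [h7] at h5
      exact h5
  exact key _ Q h1 h0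

/-- `j (σ' Q) = σ (j Q)`. -/
lemma push_symJ {M : Type u} [Field M] [Algebra L M] (j : Ω →ₐ[L] M) (σ' : Ω ≃ₐ[L] Ω)
    (σ : M →ₐ[L] M) (h : ∀ x, j (σ' x) = σ (j x))
    (Q : JacOver ℓ (curvePoly k F L g 1) Ω) :
    push ℓ (curvePoly k F L g 1) j (symJ (toSym g 1 (galA k F σ')) Q) =
      push ℓ (curvePoly k F L g 1) σ (push ℓ (curvePoly k F L g 1) j Q) := by
  rw [← push_eq, push_push, push_push]
  congr 2
  exact AlgHom.ext h

section

variable {a : F} {M : Type u} [Field M] [Algebra ((plc a).adicCompletion L) M]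
  [IsAlgClosure ((plc a).adicCompletion L) M] [Algebra L M]
  [IsScalarTower L ((plc a).adicCompletion L) M] [Algebra F M] {v : AbsoluteValue M ℝ}

theorem LocDat.fix_torsion (hd : LocDat F L a M v) (H : GlobHyp ℓ g E ζ)
    (ha : aeval a E = 0) (j : Ω →ₐ[L] M) {σ : M ≃ₐ[(plc a).adicCompletion L] M}
    {σ' : Ω ≃ₐ[L] Ω} (hσ : ∀ x, j (σ' x) = σ (j x)) (n : ℕ)
    (Q : JacOver ℓ (curvePoly k F L g 1) Ω) (hQ : ℓ ^ n • Q = 0) :
    symJ (toSym g 1 (galA k F σ')) Q = Q := by
  have hMc : IsAlgClosed M := IsAlgClosure.isAlgClosed ((plc a).adicCompletion L)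
  have hGM : IsGood ℓ (cOver k F L M g 1) := goodAll_one H M
  have hz := zA_primitive (F := F) (L := L) H (A := Ω)
  have hzM := zA_primitive (F := F) (L := L) H (A := M)
  have hjm : (cOver k F L Ω g 1).map (j : Ω →+* M) = cOver k F L M g 1 := by
    rw [Polynomial.map_map, AlgHom.comp_algebraMap]
  have hjz : (j : Ω →+* M) (zA F L Ω ζ) = zA F L M ζ := map_zA j ζ
  have hzF : zA F L M ζ = algebraMap F M (algebraMap k F ζ) := by
    rw [hd.compat]
    unfold zA base
    rw [RingHom.comp_apply, RingHom.comp_apply, coe_mapRingHom, map_C]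
  have hζF : IsPrimitiveRoot (algebraMap k F ζ) ℓ :=
    H.zeta.map_of_injective (algebraMap k F).injective
  have hzM' : IsPrimitiveRoot (algebraMap F M (algebraMap k F ζ)) ℓ := hzF ▸ hzM
  obtain ⟨δ, hδ⟩ := IsAlgClosed.exists_pow_nat_eq
    (aeval (tA F L M) (E.map (algebraMap k F))) H.prime.pos
  have hB := H.badCtx hd.compat ha hδ
  have hΓ := hd.locGrp (k := k) g 1
  set Γ := (galSym (LocDat.hfK (k := k) (F := F) (L := L) (a := a) (M := M) g 1)).range with hΓdef
  have hpush : ∀ (τ : M ≃ₐ[(plc a).adicCompletion L] M) (τ' : Ω ≃ₐ[L] Ω),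
      (∀ x, j (τ' x) = τ (j x)) → ∀ Q : JacOver ℓ (curvePoly k F L g 1) Ω,
      symJ (galSym (LocDat.hfK (k := k) (F := F) (L := L) (a := a) (M := M) g 1) τ)
        (push ℓ (curvePoly k F L g 1) j Q) =
      push ℓ (curvePoly k F L g 1) j (symJ (toSym g 1 (galA k F τ')) Q) := by
    intro τ τ' hτ Q
    rw [push_symJ j τ' (τ.restrictScalars L : M →ₐ[L] M) hτ]
    rfl
  have hpz : ∀ Q : JacOver ℓ (curvePoly k F L g 1) Ω,
      push ℓ (curvePoly k F L g 1) j (zJ (zA F L Ω ζ) hz.pow_eq_one Q) =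
        zJ (algebraMap F M (algebraMap k F ζ)) hzM'.pow_eq_one
          (push ℓ (curvePoly k F L g 1) j Q) := fun Q =>
    tc04_zJ (j : Ω →+* M) hjm (zA F L Ω ζ) _ hz.pow_eq_one hzM'.pow_eq_one (hjz.trans hzF) Q
  have hsz : ∀ (τ' : Ω ≃ₐ[L] Ω) (Q : JacOver ℓ (curvePoly k F L g 1) Ω),
      zJ (zA F L Ω ζ) hz.pow_eq_one (symJ (toSym g 1 (galA k F τ')) Q) =
        symJ (toSym g 1 (galA k F τ')) (zJ (zA F L Ω ζ) hz.pow_eq_one Q) := fun τ' Q =>
    zJ_symJ _ hz.pow_eq_one _ (zA_fixed ζ (galA k F τ')) Q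
  have h1 := iterate_eq_zero_of_smul _ hz n Q hQ
  have key : ∀ (m : ℕ) (Q : JacOver ℓ (curvePoly k F L g 1) Ω), ℓ ^ n • Q = 0 →
      (fun x => x - zJ (zA F L Ω ζ) hz.pow_eq_one x)^[m] Q = 0 →
      ∀ (τ : M ≃ₐ[(plc a).adicCompletion L] M) (τ' : Ω ≃ₐ[L] Ω),
      (∀ x, j (τ' x) = τ (j x)) → symJ (toSym g 1 (galA k F τ')) Q = Q := by
    intro m
    induction m with
    | zero =>
      intro Q _ h τ τ' _
      have h' : Q = 0 := h
      rw [h', map_zero]
    | succ m ih =>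
      intro Q hQn h τ τ' hτ
      rw [Function.iterate_succ_apply] at h
      have hP := ih _ (by rw [smul_sub, ← map_nsmul, hQn, map_zero, sub_zero]) h
      have hfix := hd.ctx.good_fixed (LocDat.coprime (F := F) (L := L) (a := a) H)
        (H.monic.map (algebraMap k F)) hB.deg hB.cop hB.roots (cOver_one hd.compat g) hζF hzM'
        hΓ (π' := tA F L M - algebraMap F M a) rfl
        (by
          intro σ hσΓ
          rw [map_sub, hΓ.fix σ hσΓ, hΓ.fixt σ hσΓ])
        (push ℓ (curvePoly k F L g 1) j Q)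
        (by
          rintro _ ⟨ρ, rfl⟩
          obtain ⟨ρ', hρ⟩ := LocDat.restrict (F := F) (L := L) (a := a) j ρ
          have h2 := hP ρ ρ' hρ
          rw [map_sub, ← hsz] at h2
          have h3 : zJ (zA F L Ω ζ) hz.pow_eq_one (symJ (toSym g 1 (galA k F ρ')) Q) -
              zJ (zA F L Ω ζ) hz.pow_eq_one Q = symJ (toSym g 1 (galA k F ρ')) Q - Q := by
            have h4 : zJ (zA F L Ω ζ) hz.pow_eq_one (symJ (toSym g 1 (galA k F ρ')) Q) =
                symJ (toSym g 1 (galA k F ρ')) Q - (symJ (toSym g 1 (galA k F ρ')) Q -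
                  zJ (zA F L Ω ζ) hz.pow_eq_one (symJ (toSym g 1 (galA k F ρ')) Q)) := by abel
            rw [h4, h2]
            abel
          rw [hpush ρ ρ' hρ, ← map_sub, ← hpz, map_sub (zJ (zA F L Ω ζ) hz.pow_eq_one), h3])
      have h5 := hfix (galSym (LocDat.hfK (k := k) (F := F) (L := L) (a := a) (M := M) g 1) τ)
        ⟨τ, rfl⟩
      rw [hpush τ τ' hτ] at h5
      have h6 : push ℓ (curvePoly k F L g 1) j (symJ (toSym g 1 (galA k F τ')) Q - Q) = 0 := by
        rw [map_sub, h5, sub_self]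
      exact sub_eq_zero.mp (push_inj_torsion H j n _
        (by rw [smul_sub, ← map_nsmul, hQn, map_zero, sub_zero]) h6)
  exact key _ Q hQ h1 σ σ' hσ

end

end Pool.Agent.Lib.MP_89bcae_ag.Sup

end
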