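import Mathlib
import Pool.Agent.Lib.MP_89bcae_ag.Rk.K040

section

open Polynomial IsDedekindDomain

open scoped Classical

set_option linter.unusedSectionVars false

namespace Pool.Agent.Lib.MP_89bcae_ag.Sup

universe u

variable {k F L Ω : Type u} [Field k] [Field F] [Algebra k F] [Field L] [Algebra F[X] L]
  [Field Ω] [Algebra L Ω] [IsAlgClosure k F] [IsFractionRing F[X] L] [IsAlgClosure L Ω]
  {ℓ : ℕ} {g D : k[X]} [hG : IsGood ℓ (cOver k F L Ω g D)] {N : Subgroup (Ω ≃ₐ[L] Ω)}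

private lemma ta07_pow_smul_add {c : Coch ℓ k F L Ω g D} (hc : TCs N c) (t j : ℕ)
    {σ : Ω ≃ₐ[L] Ω} (hσ : σ ∈ N) : ℓ ^ t • c (j + t) σ = c j σ := by
  induction t with
  | zero => rw [pow_zero, one_nsmul, add_zero]
  | succ t ih => rw [pow_succ, mul_nsmul', ← add_assoc, hc.smul _ σ hσ, ih]

private lemma ta07_iterate (ζ : k) (hζ : (zA F L Ω ζ) ^ ℓ = 1) (y : Coch ℓ k F L Ω g D) (n : ℕ)
    (σ : Ω ≃ₐ[L] Ω) (m : ℕ) :
    ((fun x : Coch ℓ k F L Ω g D => x - Sup.zC ζ hζ x)^[m] y) n σ =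
      (fun x => x - zJ (zA F L Ω ζ) hζ x)^[m] (y n σ) := by
  induction m with
  | zero => rfl
  | succ m ih =>
    rw [Function.iterate_succ_apply', Function.iterate_succ_apply', ← ih]
    rfl

theorem TTs.of_sub_zC {ζ : k} (hζ : IsPrimitiveRoot (zA F L Ω ζ) ℓ)
    (hT : Trs (cOver k F L Ω g D) N) {c : Coch ℓ k F L Ω g D} (hc : TCs N c)
    (h : TTs N (c - Sup.zC ζ hζ.pow_eq_one c)) : TTs N c := by
  refine ⟨hc, fun n => ?_⟩
  obtain ⟨A, hA, hA2⟩ := h.2 (n + 1)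
  have key : ∀ σ ∈ N, c n σ = symJ (toSym g D (galA k F σ)) (vJ (zA F L Ω ζ) hζ.pow_eq_one A) -
      vJ (zA F L Ω ζ) hζ.pow_eq_one A := by
    intro σ hσ
    have h1 : c (n + 1) σ - zJ (zA F L Ω ζ) hζ.pow_eq_one (c (n + 1) σ) =
        symJ (toSym g D (galA k F σ)) A - A := hA2 σ hσ
    have h3 : vJ (zA F L Ω ζ) hζ.pow_eq_one (c (n + 1) σ) -
        zJ (zA F L Ω ζ) hζ.pow_eq_one (vJ (zA F L Ω ζ) hζ.pow_eq_one (c (n + 1) σ)) =
          ℓ • c (n + 1) σ :=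
      vJ_sub_zJ _ hζ _
    rw [← vJ_symJ (zA F L Ω ζ) hζ.pow_eq_one _ (zA_fixed ζ (galA k F σ)), ← vJ_sub, ← h1, vJ_sub,
      vJ_zJ, h3, hc.smul n σ hσ]
  refine ⟨vJ (zA F L Ω ζ) hζ.pow_eq_one A, ?_, fun σ hσ => key σ hσ⟩
  refine eq_zero_of_fixN hζ hT 1 _ ?_ ?_
  · rw [pow_one, ← mul_nsmul', mul_comm ℓ, ← pow_succ, ← vJ_smul, hA]
    have h0 := vJ_sub (zA F L Ω ζ) hζ.pow_eq_one A A
    rw [sub_self, sub_self] at h0
    exact h0
  · intro σ hσ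
    have h5 := hc.pow_smul n hσ
    rw [key σ hσ, nsmul_sub, sub_eq_zero] at h5
    rw [map_nsmul, h5]

theorem TTs.of_smul {ζ : k} (hζ : IsPrimitiveRoot (zA F L Ω ζ) ℓ)
    (hT : Trs (cOver k F L Ω g D) N) {c : Coch ℓ k F L Ω g D} (hc : TCs N c) {m : ℕ}
    (hm : 0 < m) (h : TTs N (m • c)) : TTs N c := by
  refine ⟨hc, fun n => ?_⟩
  obtain ⟨s, m', hm', hmm⟩ := Nat.exists_eq_pow_mul_and_not_dvd hm.ne' ℓ hG.prime.ne_one
  obtain ⟨A, hA, hA2⟩ := h.2 (n + s)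
  have hcop : IsCoprime (m' : ℤ) ((ℓ ^ n : ℕ) : ℤ) := by
    rw [Nat.isCoprime_iff_coprime]
    exact Nat.Coprime.pow_right n ((Nat.Prime.coprime_iff_not_dvd hG.prime).2 hm').symm
  obtain ⟨a, b, hab⟩ := hcop
  have h1 : ∀ σ ∈ N, m' • c n σ = symJ (toSym g D (galA k F σ)) A - A := by
    intro σ hσ
    have h2 : (m • c) (n + s) σ = symJ (toSym g D (galA k F σ)) A - A := hA2 σ hσ
    have h3 : (m • c) (n + s) σ = m' • c n σ := by
      change m • (c (n + s) σ) = m' • c n σ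
      rw [hmm, mul_comm, mul_nsmul', ta07_pow_smul_add hc s n hσ]
    rw [← h3]
    exact h2
  have key : ∀ σ ∈ N, c n σ = symJ (toSym g D (galA k F σ)) (a • A) - a • A := by
    intro σ hσ
    have h4 : (a * (m' : ℤ) + b * ((ℓ ^ n : ℕ) : ℤ)) • c n σ = c n σ := by
      rw [hab, one_zsmul]
    rw [add_zsmul, mul_zsmul, mul_zsmul, natCast_zsmul, natCast_zsmul, hc.pow_smul n hσ, zsmul_zero,
      add_zero, h1 σ hσ] at h4
    rw [← h4, zsmul_sub, map_zsmul]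
  refine ⟨a • A, ?_, fun σ hσ => key σ hσ⟩
  refine eq_zero_of_fixN hζ hT (n + s) _ ?_ ?_
  · rw [smul_comm, smul_comm (ℓ ^ (n + s)) a A, hA, zsmul_zero, nsmul_zero]
  · intro σ hσ
    have h5 := hc.pow_smul n hσ
    rw [key σ hσ, nsmul_sub, sub_eq_zero] at h5
    rw [map_nsmul, h5]

theorem TTs.of_separated {ζ : k} (hζ : IsPrimitiveRoot (zA F L Ω ζ) ℓ)
    (hT : Trs (cOver k F L Ω g D) N) {c : Coch ℓ k F L Ω g D} (hc : TCs N c)
    (h : ∀ n : ℕ, ∃ y : Coch ℓ k F L Ω g D, TCs N y ∧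
      TTs N (c - (fun x => x - Sup.zC ζ hζ.pow_eq_one x)^[n] y)) : TTs N c := by
  refine ⟨hc, fun n => ?_⟩
  obtain ⟨y, hy, h1⟩ := h ((ℓ - 1) * n)
  obtain ⟨A, hA, hA2⟩ := h1.2 n
  refine ⟨A, hA, fun σ hσ => ?_⟩
  rw [← hA2 σ hσ]
  have h2 : ((fun x : Coch ℓ k F L Ω g D => x - Sup.zC ζ hζ.pow_eq_one x)^[(ℓ - 1) * n] y) n σ =
      0 := by
    rw [ta07_iterate]
    exact iterate_eq_zero_of_smul _ hζ n _ (hy.pow_smul n hσ)
  change c n σ = c n σ -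
    ((fun x : Coch ℓ k F L Ω g D => x - Sup.zC ζ hζ.pow_eq_one x)^[(ℓ - 1) * n] y) n σ
  rw [h2, sub_zero]

end Pool.Agent.Lib.MP_89bcae_ag.Sup

end

section

open Polynomial IsDedekindDomain

open scoped Classical

set_option linter.unusedSectionVars false

namespace Pool.Agent.Lib.MP_89bcae_ag.Sup

universe u

variable {k F L Ω : Type u} [Field k] [Field F] [Algebra k F] [Field L] [Algebra F[X] L]
  [Field Ω] [Algebra L Ω] [IsAlgClosure k F] [IsFractionRing F[X] L] [IsAlgClosure L Ω]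
  [Algebra F Ω] {ℓ : ℕ} {g E : k[X]} [hG : IsGood ℓ (cOver k F L Ω g 1)] {ζ : k}
  {hζ : (zA F L Ω ζ) ^ ℓ = 1} {N : Subgroup (Ω ≃ₐ[L] Ω)}

theorem exists_divisionN (H : GlobHyp ℓ g E ζ) (hζ' : IsPrimitiveRoot (zA F L Ω ζ) ℓ)
    (hT : Trs (cOver k F L Ω g 1) N) (hN : Nrm k F N) {c : Coch ℓ k F L Ω g 1}
    (hc : WWs N c) (m : Ω → ℤ)
    (h1 : ∀ σ ∈ N, vJ (zA F L Ω ζ) hζ (c 1 σ) = cob (ram m) σ) :
    ∃ y : Coch ℓ k F L Ω g 1, WWs N y ∧ TTs N (c - (y - Sup.zC ζ hζ y)) := by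
  have hA : GoodAll ℓ k F L g 1 := goodAll_one H
  set B : JacOver ℓ (curvePoly k F L g 1) Ω := (ram m : Jac ℓ (cOver k F L Ω g 1)) with hB
  have hv1 : ∀ σ ∈ N, vJ (zA F L Ω ζ) hζ (c 1 σ) = cob B σ := h1
  -- the divisions of B
  choose dv hdv using fun Q : JacOver ℓ (curvePoly k F L g 1) Ω =>
    exists_smul_eq (zA F L Ω ζ) hζ' Q
  set Q : ℕ → JacOver ℓ (curvePoly k F L g 1) Ω := fun n => dv^[n] B with hQ
  have hQ0 : Q 0 = B := rfl
  have hQs : ∀ n, ℓ • Q (n + 1) = Q n := by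
    intro n
    simp only [hQ]
    rw [Function.iterate_succ_apply']
    exact hdv _
  set y : Coch ℓ k F L Ω g 1 := fun n σ => vJ (zA F L Ω ζ) hζ (c (n + 1) σ) -
    cob (Q n) σ with hy
  have hyTC : TCs N y := by
    refine ⟨?_, ?_, ?_⟩
    · intro n
      exact ((hc.1.c1 (n + 1)).vJ ζ hζ).sub (C1s.cob (Q n))
    · intro σ hσ
      simp only [hy]
      rw [Nat.zero_add, hv1 σ hσ, hQ0, sub_self]
    · intro n σ hσ
      simp only [hy]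
      have h2 : ℓ • cob (Q (n + 1)) σ = cob (Q n) σ := by
        have h3 := congrFun (cob_nsmul (g := g) (D := 1) ℓ (Q (n + 1))) σ
        rw [hQs n] at h3
        rw [h3]
        rfl
      rw [smul_sub, ← vJ_smul, hc.1.smul (n + 1) σ hσ, h2]
  have hyLT : LTs N y := by
    have h1 : LTs N (fun n σ => vJ (zA F L Ω ζ) hζ ((fun n => c (n + 1)) n σ) :
        Coch ℓ k F L Ω g 1) := LTs.v hA (hc.2.1.shift fun n => n + 1) hζ
    have h2 : LTs N (fun n σ => cob (Q n) σ : Coch ℓ k F L Ω g 1) :=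
      LTs.of_cob fun n => ⟨Q n, fun σ _ => rfl⟩
    have h3 := h1.add h2.neg
    have h4 : y = (fun n σ => vJ (zA F L Ω ζ) hζ ((fun n => c (n + 1)) n σ) :
        Coch ℓ k F L Ω g 1) + -(fun n σ => cob (Q n) σ : Coch ℓ k F L Ω g 1) := by
      funext n σ
      simp only [hy, Pi.add_apply, Pi.neg_apply]
      abel
    rw [h4]
    exact h3
  have hyZ : TCs N (c - (y - Sup.zC ζ hζ y)) := hc.1.sub (hyTC.sub (hyTC.zC ζ hζ))
  have hQn : ∀ n, ℓ ^ n • Q n = B := by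
    intro n
    induction n with
    | zero => rw [pow_zero, one_smul, hQ0]
    | succ n ih =>
      rw [pow_succ, mul_smul, hQs, ih]
  have hTT : TTs N (c - (y - Sup.zC ζ hζ y)) := by
    refine ⟨hyZ, ?_⟩
    intro n
    refine ⟨Q n - zJ (zA F L Ω ζ) hζ (Q n), ?_, ?_⟩
    · rw [smul_sub, ← map_nsmul, hQn, hB, zJ_ram, sub_self]
    · intro σ hσ
      have h1 : (c - (y - Sup.zC ζ hζ y)) n σ =
          c n σ - (y n σ - zJ (zA F L Ω ζ) hζ (y n σ)) := rfl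
      rw [h1, cob_sub]
      have h3 : (cob (Q n) - cob (zJ (zA F L Ω ζ) hζ (Q n)) : Ch ℓ k F L Ω g 1) σ =
          cob (Q n) σ - zJ (zA F L Ω ζ) hζ (cob (Q n) σ) := by
        rw [zJ_cob]
        rfl
      rw [h3]
      simp only [hy]
      rw [map_sub]
      have h2 := vJ_sub_zJ (zA F L Ω ζ) hζ' (c (n + 1) σ)
      rw [hc.1.smul n σ hσ] at h2
      rw [← h2]
      abel
  refine ⟨y, ⟨hyTC, hyLT, ?_⟩, hTT⟩
  intro γ
  obtain ⟨M, hM, hMT⟩ := hc.2.2 γ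
  refine ⟨M, hM, ?_⟩
  have hx : TCs N (Sup.act (γ ^ M) y - y) := (hyTC.act hN (γ ^ M)).sub hyTC
  apply TTs.of_sub_zC hζ' hT hx
  have h1 : Sup.act (γ ^ M) y - y - Sup.zC ζ hζ (Sup.act (γ ^ M) y - y) =
      (Sup.act (γ ^ M) c - c) - (Sup.act (γ ^ M) (c - (y - Sup.zC ζ hζ y)) -
        (c - (y - Sup.zC ζ hζ y))) := by
    rw [act_sub, act_sub, act_zC, map_sub]
    abel
  rw [h1]
  exact hMT.sub ((hTT.act hN (γ ^ M)).sub hTT)

end Pool.Agent.Lib.MP_89bcae_ag.Sup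

end
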