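import Mathlib
import Pool.Agent.Lib.MP_89bcae_ag.DefsZ7
import Pool.Agent.Lib.MP_89bcae_ag.Rk.K024

section

/-!
# Integral vectors which avoid a positive proportion of the residue classes modulo infinitely many
primes have density zero
-/

open Filter Topology

open scoped Classical

namespace Pool.Agent.Lib.MP_89bcae_ag

set_option linter.style.haveILetI false

/-- The number of integers in a residue class in an interval. -/
lemma card_class7 {N : ℕ} (hN : 0 < N) (H : ℕ) (v : ZMod N) :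
    (((Finset.Icc (-(H : ℤ)) H).filter fun x : ℤ => (x : ZMod N) = v).card : ℝ) ≤
      (2 * H + 1) / N + 1 := by
  haveI : NeZero N := ⟨hN.ne'⟩
  have h1 : (Finset.Icc (-(H : ℤ)) H).filter (fun x : ℤ => (x : ZMod N) = v) =
      (Finset.Ico (-(H : ℤ)) (H + 1)).filter (fun x : ℤ => x ≡ (v.val : ℤ) [ZMOD (N : ℤ)]) := by
    ext x
    rw [Finset.mem_filter, Finset.mem_filter, Finset.mem_Icc, Finset.mem_Ico,
      ← ZMod.intCast_eq_intCast_iff, Int.lt_add_one_iff]
    simp
  rw [h1]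
  have h2 := Int.Ico_filter_modEq_card (-(H : ℤ)) (H + 1) (r := (N : ℤ)) (by exact_mod_cast hN)
    (v.val : ℤ)
  have h3 : (((Finset.Ico (-(H : ℤ)) (H + 1)).filter
      (fun x : ℤ => x ≡ (v.val : ℤ) [ZMOD (N : ℤ)])).card : ℤ) ≤ ⌊((2 * H + 1 : ℚ) / N + 1)⌋ := by
    rw [h2]
    apply max_le
    · rw [Int.le_floor]
      push_cast
      have h4 := Int.ceil_lt_add_one (((H : ℚ) + 1 - v.val) / N)
      have h5 := Int.le_ceil ((-(H : ℚ) - v.val) / N)
      have h6 : (2 * (H : ℚ) + 1) / N = ((H : ℚ) + 1 - v.val) / N - (-(H : ℚ) - v.val) / N := by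
        ring
      rw [h6]
      linarith
    · apply Int.floor_nonneg.mpr
      positivity
  have h4 : ((((Finset.Ico (-(H : ℤ)) (H + 1)).filter
      (fun x : ℤ => x ≡ (v.val : ℤ) [ZMOD (N : ℤ)])).card : ℤ) : ℚ) ≤ (2 * H + 1 : ℚ) / N + 1 :=
    (Int.cast_le.mpr h3).trans (Int.floor_le _)
  have h5 : ((((((Finset.Ico (-(H : ℤ)) (H + 1)).filter
      (fun x : ℤ => x ≡ (v.val : ℤ) [ZMOD (N : ℤ)])).card : ℤ) : ℚ)) : ℝ) ≤
      (((2 * H + 1 : ℚ) / N + 1 : ℚ) : ℝ) := by exact_mod_cast h4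
  push_cast at h5
  exact h5

/-- The number of integral vectors in a box whose reduction lies in a given set. -/
lemma card_box7 {N : ℕ} (hN : 0 < N) (m H : ℕ) (A : Finset (Fin m → ZMod N)) :
    (({a : Fin m → ℤ | (∀ i, |a i| ≤ H) ∧ (fun i => (a i : ZMod N)) ∈ A}.ncard : ℝ)) ≤
      A.card * ((2 * H + 1) / N + 1) ^ m := by
  have h1 : {a : Fin m → ℤ | (∀ i, |a i| ≤ H) ∧ (fun i => (a i : ZMod N)) ∈ A} ⊆
      (A.biUnion fun v => Fintype.piFinset fun i =>
        (Finset.Icc (-(H : ℤ)) H).filter fun x : ℤ => (x : ZMod N) = v i : Finset (Fin m → ℤ)) := by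
    rintro a ⟨h2, h3⟩
    rw [Finset.coe_biUnion, Set.mem_iUnion₂]
    refine ⟨_, h3, ?_⟩
    rw [Finset.mem_coe, Fintype.mem_piFinset]
    intro i
    rw [Finset.mem_filter, Finset.mem_Icc]
    exact ⟨abs_le.mp (h2 i), rfl⟩
  have h2 := Set.ncard_le_ncard h1 (Finset.finite_toSet _)
  rw [Set.ncard_coe_finset] at h2
  have h3 : ((A.biUnion fun v => Fintype.piFinset fun i =>
        (Finset.Icc (-(H : ℤ)) H).filter fun x : ℤ => (x : ZMod N) = v i).card : ℝ) ≤
      ∑ v ∈ A, ((Fintype.piFinset fun i =>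
        (Finset.Icc (-(H : ℤ)) H).filter fun x : ℤ => (x : ZMod N) = v i).card : ℝ) := by
    exact_mod_cast Finset.card_biUnion_le
  refine (by exact_mod_cast h2 : _ ≤ _).trans (h3.trans ?_)
  rw [← nsmul_eq_mul]
  apply Finset.sum_le_card_nsmul
  intro v _
  rw [Fintype.card_piFinset]
  push_cast
  calc ∏ i, (((Finset.Icc (-(H : ℤ)) H).filter fun x : ℤ => (x : ZMod N) = v i).card : ℝ)
      ≤ ∏ _i : Fin m, ((2 * (H : ℝ) + 1) / N + 1) :=
        Finset.prod_le_prod (fun _ _ => by positivity) (fun i _ => card_class7 hN H (v i))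
    _ = _ := by rw [Finset.prod_const, Finset.card_univ, Fintype.card_fin]

/-- The number of the residue classes which avoid given sets modulo several primes. -/
lemma card_avoid7 (m : ℕ) (D : ∀ p : ℕ, Set (Fin m → ZMod p)) (c : ℝ) (S : Finset ℕ)
    (hprime : ∀ p ∈ S, p.Prime) (hc : c ≤ 1)
    (hD : ∀ p ∈ S, c * (p : ℝ) ^ m ≤ (D p).ncard) {N : ℕ} (hN : N = ∏ p ∈ S, p) :
    ∃ (A : Finset (Fin m → ZMod N)),
      (A.card : ℝ) ≤ (1 - c) ^ S.card * (N : ℝ) ^ m ∧
      ∀ a : Fin m → ℤ, (∀ p ∈ S, (fun i => (a i : ZMod p)) ∉ D p) →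
        (fun i => (a i : ZMod N)) ∈ A := by
  haveI : ∀ p : S, NeZero (p : ℕ) := fun p => ⟨(hprime p p.2).ne_zero⟩
  haveI : NeZero N := ⟨by
    rw [hN]
    exact Finset.prod_ne_zero_iff.mpr fun p hp => (hprime p hp).ne_zero⟩
  have hdvd : ∀ p : S, (p : ℕ) ∣ N := fun p => by
    rw [hN]
    exact Finset.dvd_prod_of_mem _ p.2
  let ψ : (Fin m → ZMod N) → ∀ p : S, (Fin m → ZMod p) :=
    fun v p i => ZMod.castHom (hdvd p) (ZMod p) (v i)
  have hψ : Function.Injective ψ := by
    intro v w h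
    funext i
    have h1 : ∀ p : S, ZMod.castHom (hdvd p) (ZMod p) (v i - w i) = 0 := by
      intro p
      rw [map_sub, sub_eq_zero]
      exact congrFun (congrFun h p) i
    have h2 : ∀ p ∈ S, p ∣ (v i - w i).val := by
      intro p hp
      have h3 := h1 ⟨p, hp⟩
      rw [ZMod.castHom_apply, ZMod.cast_eq_val, ZMod.natCast_eq_zero_iff] at h3
      exact h3
    have h3 : N ∣ (v i - w i).val := by
      have h5 := Finset.prod_primes_dvd _ (fun p hp => (hprime p hp).prime) h2
      rwa [← hN] at h5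
    have h4 : (v i - w i).val = 0 := Nat.eq_zero_of_dvd_of_lt h3 (ZMod.val_lt _)
    rw [ZMod.val_eq_zero] at h4
    exact sub_eq_zero.mp h4
  refine ⟨Finset.univ.filter fun v => ∀ p : S, ψ v p ∉ D p, ?_, ?_⟩
  · have h1 : ((Finset.univ.filter fun v => ∀ p : S, ψ v p ∉ D p).card : ℝ) ≤
        ((Fintype.piFinset fun p : S => Finset.univ.filter fun w : Fin m → ZMod p => w ∉ D p).card : ℝ) := by
      rw [Nat.cast_le, ← Finset.card_image_of_injective _ hψ]
      apply Finset.card_le_card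
      intro x hx
      obtain ⟨v, hv, rfl⟩ := Finset.mem_image.mp hx
      rw [Finset.mem_filter] at hv
      rw [Fintype.mem_piFinset]
      intro p
      rw [Finset.mem_filter]
      exact ⟨Finset.mem_univ _, hv.2 p⟩
    refine h1.trans ?_
    rw [Fintype.card_piFinset]
    push_cast
    have h2 : ∀ p : S, ((Finset.univ.filter fun w : Fin m → ZMod p => w ∉ D p).card : ℝ) ≤
        (1 - c) * ((p : ℕ) : ℝ) ^ m := by
      intro p
      have h3 := hD p p.2
      have h4 : (D p).ncard = (Finset.univ.filter fun w : Fin m → ZMod p => w ∈ D p).card := by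
        rw [← Set.ncard_coe_finset]
        congr 1
        ext w
        simp
      have h5 := Finset.card_filter_add_card_filter_not (s := (Finset.univ : Finset (Fin m → ZMod p)))
        (fun w => w ∈ D p)
      rw [Finset.card_univ, Fintype.card_fun, ZMod.card, Fintype.card_fin] at h5
      have h6 : (((Finset.univ.filter fun w : Fin m → ZMod p => w ∈ D p).card : ℝ)) +
          ((Finset.univ.filter fun w : Fin m → ZMod p => w ∉ D p).card : ℝ) =
          ((p : ℕ) : ℝ) ^ m := by exact_mod_cast h5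
      rw [h4] at h3
      linarith
    calc ∏ p : S, ((Finset.univ.filter fun w : Fin m → ZMod p => w ∉ D p).card : ℝ)
        ≤ ∏ p : S, ((1 - c) * ((p : ℕ) : ℝ) ^ m) :=
          Finset.prod_le_prod (fun _ _ => by positivity) (fun p _ => h2 p)
      _ = (1 - c) ^ S.card * ∏ p : S, ((p : ℕ) : ℝ) ^ m := by
          rw [Finset.prod_mul_distrib, Finset.prod_const, Finset.card_univ, Fintype.card_coe]
      _ = _ := by
          congr 1
          rw [hN, Finset.prod_pow, Finset.prod_coe_sort S (fun p => (p : ℝ))]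
          push_cast
          rfl
  · intro a ha
    rw [Finset.mem_filter]
    refine ⟨Finset.mem_univ _, fun p => ?_⟩
    have h1 : ψ (fun i => (a i : ZMod N)) p = fun i => (a i : ZMod p) := by
      funext i
      exact map_intCast _ _
    rw [h1]
    exact ha p p.2

/-- **Density zero.** -/
theorem density_crt7 (m : ℕ) (D : ∀ p : ℕ, Set (Fin m → ZMod p)) (c : ℝ) (hc : 0 < c)
    (P : Set ℕ) (hP : P.Infinite) (hprime : ∀ p ∈ P, p.Prime)
    (hD : ∀ p ∈ P, c * (p : ℝ) ^ m ≤ (D p).ncard) (Good : (Fin m → ℤ) → Prop)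
    (hGood : ∀ a, ∀ p ∈ P, (fun i => (a i : ZMod p)) ∈ D p → Good a) :
    Tendsto (fun H : ℕ => ({a : Fin m → ℤ | (∀ i, |a i| ≤ H) ∧ ¬ Good a}.ncard : ℝ) /
      (2 * H + 1) ^ m) atTop (𝓝 0) := by
  have hc1 : c ≤ 1 := by
    obtain ⟨p, hp⟩ := hP.nonempty
    haveI : NeZero p := ⟨(hprime p hp).ne_zero⟩
    have h1 := hD p hp
    have h2 : ((D p).ncard : ℝ) ≤ (p : ℝ) ^ m := by
      have h3 : (D p).ncard ≤ (Set.univ : Set (Fin m → ZMod p)).ncard :=
        Set.ncard_le_ncard (Set.subset_univ _)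
      rw [Set.ncard_univ, Nat.card_eq_fintype_card, Fintype.card_fun, ZMod.card,
        Fintype.card_fin] at h3
      exact_mod_cast h3
    have h4 : (0 : ℝ) < (p : ℝ) ^ m := by
      have : (0 : ℝ) < p := by exact_mod_cast (hprime p hp).pos
      positivity
    nlinarith
  rw [Metric.tendsto_atTop]
  intro ε hε
  obtain ⟨t, ht⟩ := exists_pow_lt_of_lt_one hε (show (1 - c) < 1 by linarith)
  obtain ⟨S, hSP, hSc⟩ := hP.exists_subset_card_eq t
  obtain ⟨N, hN⟩ : ∃ N, N = ∏ p ∈ S, p := ⟨_, rfl⟩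
  obtain ⟨A, hA1, hA2⟩ := card_avoid7 m D c S (fun p hp => hprime p (hSP hp)) hc1
    (fun p hp => hD p (hSP hp)) hN
  have hN0 : 0 < N := by
    rw [hN]
    exact Finset.prod_pos fun p hp => (hprime p (hSP hp)).pos
  have hNR : (0 : ℝ) < N := by exact_mod_cast hN0
  have hlim : Tendsto (fun H : ℕ => (1 - c) ^ t * (1 + N / (2 * (H : ℝ) + 1)) ^ m) atTop
      (𝓝 ((1 - c) ^ t * (1 + 0) ^ m)) := by
    apply Tendsto.const_mul
    apply Tendsto.pow
    apply Tendsto.const_add
    apply Tendsto.div_atTop tendsto_const_nhds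
    exact tendsto_atTop_add_const_right _ _
      (Tendsto.const_mul_atTop (by norm_num) tendsto_natCast_atTop_atTop)
  rw [add_zero, one_pow, mul_one] at hlim
  obtain ⟨H0, hH0⟩ := (hlim.eventually_lt_const ht).exists_forall_of_atTop
  refine ⟨H0, fun H hH => ?_⟩
  have hpos : (0 : ℝ) < (2 * (H : ℝ) + 1) ^ m := by positivity
  rw [Real.dist_eq, sub_zero, abs_of_nonneg (by positivity), div_lt_iff₀ hpos]
  have h1 : {a : Fin m → ℤ | (∀ i, |a i| ≤ H) ∧ ¬ Good a} ⊆
      {a : Fin m → ℤ | (∀ i, |a i| ≤ H) ∧ (fun i => (a i : ZMod N)) ∈ A} := by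
    rintro a ⟨h2, h3⟩
    refine ⟨h2, hA2 a fun p hp hap => h3 (hGood a p (hSP hp) hap)⟩
  have hfin : {a : Fin m → ℤ | (∀ i, |a i| ≤ H) ∧ (fun i => (a i : ZMod N)) ∈ A}.Finite := by
    apply Set.Finite.subset (Finset.finite_toSet
      (Fintype.piFinset fun _ : Fin m => Finset.Icc (-(H : ℤ)) H))
    rintro a ⟨h2, -⟩
    rw [Finset.mem_coe, Fintype.mem_piFinset]
    intro i
    rw [Finset.mem_Icc]
    exact abs_le.mp (h2 i)
  have h2 : (({a : Fin m → ℤ | (∀ i, |a i| ≤ H) ∧ ¬ Good a}.ncard : ℝ)) ≤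
      A.card * ((2 * H + 1) / N + 1) ^ m :=
    (by exact_mod_cast Set.ncard_le_ncard h1 hfin : _ ≤ _).trans (card_box7 hN0 m H A)
  refine lt_of_le_of_lt h2 ?_
  have h3 : (A.card : ℝ) * ((2 * H + 1) / N + 1) ^ m ≤
      ((1 - c) ^ t * (1 + N / (2 * (H : ℝ) + 1)) ^ m) * (2 * (H : ℝ) + 1) ^ m := by
    have h4 : (0 : ℝ) ≤ ((2 * H + 1) / N + 1) ^ m := by positivity
    refine (mul_le_mul_of_nonneg_right hA1 h4).trans ?_
    rw [hSc, mul_assoc, mul_assoc, ← mul_pow, ← mul_pow]
    have h5 : (N : ℝ) * ((2 * H + 1) / N + 1) = (1 + N / (2 * (H : ℝ) + 1)) * (2 * H + 1) := by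
      field_simp
    rw [h5]
  exact lt_of_le_of_lt h3 (mul_lt_mul_of_pos_right (hH0 H hH) hpos)

end Pool.Agent.Lib.MP_89bcae_ag

end

section

/-!
# The sum of the inverses of the primes in a residue class diverges
-/

open ArithmeticFunction vonMangoldt Filter Topology

open scoped Classical

namespace Pool.Agent.Lib.MP_89bcae_ag

set_option linter.unusedSectionVars false

section

variable {q : ℕ} {a : ZMod q}

/-- The set of the primes in the residue class. -/
def resPrimes14 (a : ZMod q) : Set ℕ := {p : ℕ | p.Prime ∧ (p : ZMod q) = a}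

lemma summable_residue_rpow14 {x : ℝ} (hx : 1 < x) :
    Summable fun n : ℕ => residueClass a n / (n : ℝ) ^ x :=
  LSeries.summable_real_of_abscissaOfAbsConv_lt <|
    (abscissaOfAbsConv_residueClass_le_one a).trans_lt <| by exact_mod_cast hx

lemma summable_log14 {x : ℝ} (hx : 1 < x) :
    Summable fun n : ℕ => (resPrimes14 a).indicator (fun n : ℕ => Real.log n / (n : ℝ) ^ x) n := by
  refine Summable.of_nonneg_of_le (fun n => Set.indicator_nonneg (fun n _ => by positivity) n)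
    (fun n => ?_) (summable_residue_rpow14 (a := a) hx)
  by_cases hn : n ∈ resPrimes14 a
  · rw [Set.indicator_of_mem hn]
    have h1 : residueClass a n = Real.log n := by
      rw [residueClass, Set.indicator_of_mem (show n ∈ {n : ℕ | (n : ZMod q) = a} from hn.2),
        vonMangoldt_apply_prime hn.1]
    rw [h1]
  · rw [Set.indicator_of_notMem hn]
    exact div_nonneg (residueClass_nonneg a n) (by positivity)

/-- The lower bound for the primes alone. -/
lemma log_lower14 [NeZero q] (ha : IsUnit a) :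
    ∃ C : ℝ, ∀ x ∈ Set.Ioc (1 : ℝ) 2, (q.totient : ℝ)⁻¹ / (x - 1) - C ≤
      ∑' n : ℕ, (resPrimes14 a).indicator (fun n : ℕ => Real.log n / (n : ℝ) ^ x) n := by
  obtain ⟨C, hC⟩ := LSeries_residueClass_lower_bound ha
  refine ⟨C + ∑' n : ℕ, (if n.Prime then 0 else residueClass a n) / n, fun x hx => ?_⟩
  have h1 := hC hx
  have h2 : ∑' n : ℕ, residueClass a n / (n : ℝ) ^ x ≤
      ∑' n : ℕ, ((resPrimes14 a).indicator (fun n : ℕ => Real.log n / (n : ℝ) ^ x) n +
        (if n.Prime then 0 else residueClass a n) / n) := by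
    refine Summable.tsum_le_tsum (fun n => ?_) (summable_residue_rpow14 hx.1)
      ((summable_log14 hx.1).add (summable_residueClass_non_primes_div a))
    by_cases hp : n.Prime
    · rw [if_pos hp, zero_div, add_zero]
      by_cases hna : (n : ZMod q) = a
      · rw [Set.indicator_of_mem (show n ∈ resPrimes14 a from ⟨hp, hna⟩), residueClass,
          Set.indicator_of_mem (show n ∈ {n : ℕ | (n : ZMod q) = a} from hna),
          vonMangoldt_apply_prime hp]
      · rw [residueClass, Set.indicator_of_notMem (show n ∉ {n : ℕ | (n : ZMod q) = a} from hna),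
          zero_div]
        exact Set.indicator_nonneg (fun n _ => by positivity) n
    · rw [if_neg hp]
      have h3 : 0 ≤ (resPrimes14 a).indicator (fun n : ℕ => Real.log n / (n : ℝ) ^ x) n :=
        Set.indicator_nonneg (fun n _ => by positivity) n
      rcases n.eq_zero_or_pos with rfl | hn
      · simpa using h3
      · have h4 : residueClass a n / (n : ℝ) ^ x ≤ residueClass a n / n := by
          refine div_le_div_of_nonneg_left (residueClass_nonneg a _) (mod_cast hn) ?_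
          conv_lhs => rw [← Real.rpow_one n]
          exact Real.rpow_le_rpow_of_exponent_le (by exact_mod_cast hn) hx.1.le
        linarith
  rw [Summable.tsum_add (summable_log14 hx.1) (summable_residueClass_non_primes_div a)] at h2
  linarith

/-- The mean value inequality. -/
lemma mean_value14 {p : ℕ} (hp : 0 < p) {x h : ℝ} :
    h * (Real.log p / (p : ℝ) ^ x) ≤ 1 / (p : ℝ) ^ (x - h) - 1 / (p : ℝ) ^ x := by
  have hp0 : (0 : ℝ) < p := by exact_mod_cast hp
  have h1 : 1 / (p : ℝ) ^ (x - h) = (p : ℝ) ^ h / (p : ℝ) ^ x := by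
    rw [Real.rpow_sub hp0, one_div_div]
  have h2 : 1 + h * Real.log p ≤ (p : ℝ) ^ h := by
    rw [Real.rpow_def_of_pos hp0]
    have := Real.add_one_le_exp (Real.log p * h)
    linarith
  rw [h1, ← sub_div, mul_div_assoc']
  apply div_le_div_of_nonneg_right _ (by positivity)
  linarith

/-- **The sum of the inverses of the primes in a residue class diverges.** -/
theorem not_summable_residue14 [NeZero q] (ha : IsUnit a) :
    ¬ Summable fun n : ℕ => (resPrimes14 a).indicator (fun n : ℕ => (1 : ℝ) / n) n := by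
  intro hS
  obtain ⟨C, hC⟩ := log_lower14 ha
  have hq : 0 < (q.totient : ℝ)⁻¹ := inv_pos.mpr (mod_cast q.totient.pos_of_neZero)
  set c : ℝ := (q.totient : ℝ)⁻¹ with hc
  have hle : ∀ x : ℝ, 1 ≤ x → ∀ n : ℕ,
      (resPrimes14 a).indicator (fun n : ℕ => (1 : ℝ) / (n : ℝ) ^ x) n ≤
        (resPrimes14 a).indicator (fun n : ℕ => (1 : ℝ) / n) n := by
    intro x hx n
    apply Set.indicator_le_indicator' (fun hn => ?_)
    have h1 : (1 : ℝ) ≤ n := by exact_mod_cast hn.1.one_le
    apply one_div_le_one_div_of_le (by linarith)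
    conv_lhs => rw [← Real.rpow_one (n : ℝ)]
    exact Real.rpow_le_rpow_of_exponent_le h1 hx
  have hsum : ∀ x : ℝ, 1 ≤ x → Summable fun n : ℕ =>
      (resPrimes14 a).indicator (fun n : ℕ => (1 : ℝ) / (n : ℝ) ^ x) n := fun x hx =>
    Summable.of_nonneg_of_le (fun n => Set.indicator_nonneg (fun n _ => by positivity) n)
      (hle x hx) hS
  let G : ℝ → ℝ := fun x => ∑' n : ℕ,
    (resPrimes14 a).indicator (fun n : ℕ => (1 : ℝ) / (n : ℝ) ^ x) n
  have hG : ∀ x, 1 ≤ x → G x ≤ ∑' n : ℕ, (resPrimes14 a).indicator (fun n : ℕ => (1 : ℝ) / n) n :=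
    fun x hx => Summable.tsum_le_tsum (hle x hx) (hsum x hx) hS
  have hG0 : ∀ x, 0 ≤ G x := fun x => tsum_nonneg fun n =>
    Set.indicator_nonneg (fun n _ => by positivity) n
  -- one step
  have hstep : ∀ x h : ℝ, 1 < x → x ≤ 2 → 0 ≤ h → 1 ≤ x - h →
      h * (c / (x - 1) - C) ≤ G (x - h) - G x := by
    intro x h hx hx2 hh hxh
    have h1 := mul_le_mul_of_nonneg_left (hC x ⟨hx, hx2⟩) hh
    refine h1.trans ?_
    rw [← tsum_mul_left, ← (hsum _ hxh).tsum_sub (hsum _ hx.le)]
    refine Summable.tsum_le_tsum (fun n => ?_) ((summable_log14 hx).mul_left h)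
      ((hsum _ hxh).sub (hsum _ hx.le))
    by_cases hn : n ∈ resPrimes14 a
    · rw [Set.indicator_of_mem hn, Set.indicator_of_mem hn, Set.indicator_of_mem hn]
      exact mean_value14 hn.1.pos
    · rw [Set.indicator_of_notMem hn, Set.indicator_of_notMem hn, Set.indicator_of_notMem hn]
      simp
  have hind : ∀ J : ℕ, c * J / 2 - |C| * (1 - (1 / 2) ^ J) ≤ G (1 + (1 / 2) ^ J) := by
    intro J
    induction J with
    | zero =>
      simp only [Nat.cast_zero, mul_zero, zero_div, pow_zero, sub_self]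
      exact hG0 _
    | succ J ih =>
      have h2 : (0 : ℝ) < (1 / 2) ^ J := by positivity
      have h3 : ((1 : ℝ) / 2) ^ J ≤ 1 := pow_le_one₀ (by norm_num) (by norm_num)
      have h4 := hstep (1 + (1 / 2) ^ J) ((1 / 2) ^ (J + 1)) (by linarith) (by linarith)
        (by positivity) (by rw [pow_succ]; linarith)
      have h5 : (1 : ℝ) + (1 / 2) ^ J - (1 / 2) ^ (J + 1) = 1 + (1 / 2) ^ (J + 1) := by
        rw [pow_succ]
        ring
      rw [h5] at h4
      have h6 : (1 / 2 : ℝ) ^ (J + 1) * (c / (1 + (1 / 2) ^ J - 1) - C) =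
          c / 2 - (1 / 2) ^ (J + 1) * C := by
        rw [add_sub_cancel_left, pow_succ]
        field_simp
      rw [h6] at h4
      have h7 : (1 / 2 : ℝ) ^ (J + 1) * C ≤ (1 / 2) ^ (J + 1) * |C| :=
        mul_le_mul_of_nonneg_left (le_abs_self C) (by positivity)
      have h8 : |C| * (1 - (1 / 2 : ℝ) ^ J) = |C| - 2 * ((1 / 2) ^ (J + 1) * |C|) := by
        rw [pow_succ]
        ring
      have h9 : |C| * (1 - (1 / 2 : ℝ) ^ (J + 1)) = |C| - (1 / 2) ^ (J + 1) * |C| := by ring
      rw [h8] at ih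
      rw [h9]
      push_cast
      linarith
  obtain ⟨J, hJ⟩ := exists_nat_gt ((∑' n : ℕ,
    (resPrimes14 a).indicator (fun n : ℕ => (1 : ℝ) / n) n + |C|) * 2 / c)
  have h1 := (hind J).trans (hG _ (by
    have : (0 : ℝ) < (1 / 2) ^ J := by positivity
    linarith))
  rw [div_lt_iff₀ hq] at hJ
  have h2 : |C| * (1 - (1 / 2) ^ J) ≤ |C| := by
    have h3 : (0 : ℝ) < (1 / 2) ^ J := by positivity
    nlinarith [abs_nonneg C]
  linarith

/-- Finite sets of large primes in the residue class with large sums of the inverses. -/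
theorem sum_residue_unbounded14 [NeZero q] (ha : IsUnit a) {c : ℝ} (hc : 0 < c) (P₀ : ℕ) (T : ℝ) :
    ∃ S : Finset ℕ, (∀ p ∈ S, p.Prime ∧ P₀ ≤ p ∧ (p : ZMod q) = a) ∧ T ≤ ∑ p ∈ S, c / p := by
  by_contra hcon
  push Not at hcon
  apply not_summable_residue14 ha
  apply summable_of_sum_le (c := T / c + ∑ p ∈ Finset.range P₀, (1 : ℝ) / p)
  · intro n
    exact Set.indicator_nonneg (fun _ _ => by positivity) n
  · intro s
    have h1 := hcon (s.filter fun p : ℕ => p.Prime ∧ P₀ ≤ p ∧ (p : ZMod q) = a)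
      fun p hp => (Finset.mem_filter.mp hp).2
    have h3 : ∑ x ∈ s, (resPrimes14 a).indicator (fun n : ℕ => (1 : ℝ) / n) x =
        ∑ x ∈ s.filter (fun p : ℕ => p.Prime ∧ (p : ZMod q) = a), (1 : ℝ) / x := by
      rw [Finset.sum_filter]
      refine Finset.sum_congr rfl fun x _ => ?_
      by_cases hx : x ∈ resPrimes14 a
      · rw [Set.indicator_of_mem hx]; exact (if_pos hx).symm
      · rw [Set.indicator_of_notMem hx]; exact (if_neg hx).symm
    have h4 : s.filter (fun p : ℕ => p.Prime ∧ (p : ZMod q) = a) ⊆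
        s.filter (fun p : ℕ => p.Prime ∧ P₀ ≤ p ∧ (p : ZMod q) = a) ∪ Finset.range P₀ := by
      intro p hp
      rw [Finset.mem_filter] at hp
      rw [Finset.mem_union, Finset.mem_filter, Finset.mem_range]
      rcases le_or_gt P₀ p with h | h
      · exact Or.inl ⟨hp.1, hp.2.1, h, hp.2.2⟩
      · exact Or.inr h
    rw [h3]
    refine (Finset.sum_le_sum_of_subset_of_nonneg h4 fun _ _ _ => by positivity).trans ?_
    have h5 := Finset.sum_union_inter (s₁ := s.filter (fun p : ℕ => p.Prime ∧ P₀ ≤ p ∧ (p : ZMod q) = a))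
      (s₂ := Finset.range P₀) (f := fun x : ℕ => (1 : ℝ) / x)
    have h6 : 0 ≤ ∑ x ∈ s.filter (fun p : ℕ => p.Prime ∧ P₀ ≤ p ∧ (p : ZMod q) = a) ∩ Finset.range P₀,
        (1 : ℝ) / x := Finset.sum_nonneg fun _ _ => by positivity
    have h7 : ∑ x ∈ s.filter (fun p : ℕ => p.Prime ∧ P₀ ≤ p ∧ (p : ZMod q) = a), (1 : ℝ) / x ≤
        T / c := by
      rw [le_div_iff₀ hc, Finset.sum_mul]
      refine le_trans (le_of_eq ?_) h1.le
      refine Finset.sum_congr rfl fun x _ => ?_
      ring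
    linarith

end

end Pool.Agent.Lib.MP_89bcae_ag

end

section

/-!
# Integral vectors which avoid residue classes whose proportions have a divergent sum have density zero
-/

open Filter Topology

open scoped Classical

namespace Pool.Agent.Lib.MP_89bcae_ag

set_option linter.style.haveILetI false

/-- The number of the residue classes which avoid given sets modulo several coprime integers. -/
lemma card_avoidB7 (m : ℕ) (M : ℕ → ℕ) (D : ∀ p : ℕ, Set (Fin m → ZMod (M p))) (δ : ℕ → ℝ)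
    (S : Finset ℕ) (hM0 : ∀ p ∈ S, 0 < M p)
    (hcop : ∀ p ∈ S, ∀ q ∈ S, p ≠ q → Nat.Coprime (M p) (M q))
    (hD : ∀ p ∈ S, δ p * (M p : ℝ) ^ m ≤ (D p).ncard) {N : ℕ}
    (hN : N = ∏ p ∈ S, M p) :
    ∃ (A : Finset (Fin m → ZMod N)),
      (A.card : ℝ) ≤ (∏ p ∈ S, (1 - δ p)) * (N : ℝ) ^ m ∧
      ∀ a : Fin m → ℤ, (∀ p ∈ S, (fun i => (a i : ZMod (M p))) ∉ D p) →
        (fun i => (a i : ZMod N)) ∈ A := by
  haveI : ∀ p : S, NeZero (M p) := fun p => ⟨(hM0 p p.2).ne'⟩
  haveI : NeZero N := ⟨by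
    rw [hN]
    exact Finset.prod_ne_zero_iff.mpr fun p hp => (hM0 p hp).ne'⟩
  have hdvd : ∀ p : S, M p ∣ N := fun p => by
    rw [hN]
    exact Finset.dvd_prod_of_mem _ p.2
  let ψ : (Fin m → ZMod N) → ∀ p : S, (Fin m → ZMod (M p)) :=
    fun v p i => ZMod.castHom (hdvd p) (ZMod (M p)) (v i)
  have hψ : Function.Injective ψ := by
    intro v w h
    funext i
    have h1 : ∀ p : S, ZMod.castHom (hdvd p) (ZMod (M p)) (v i - w i) = 0 := by
      intro p
      rw [map_sub, sub_eq_zero]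
      exact congrFun (congrFun h p) i
    have h2 : ∀ p ∈ S, M p ∣ (v i - w i).val := by
      intro p hp
      have h3 := h1 ⟨p, hp⟩
      rw [ZMod.castHom_apply, ZMod.cast_eq_val, ZMod.natCast_eq_zero_iff] at h3
      exact h3
    have h3 : N ∣ (v i - w i).val := by
      have h5 : ∏ p ∈ S, M p ∣ (v i - w i).val := by
        apply Finset.prod_dvd_of_isRelPrime _ h2
        intro p hp q hq hpq
        exact Nat.coprime_iff_isRelPrime.mp (hcop p hp q hq hpq)
      rwa [← hN] at h5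
    have h4 : (v i - w i).val = 0 := Nat.eq_zero_of_dvd_of_lt h3 (ZMod.val_lt _)
    rw [ZMod.val_eq_zero] at h4
    exact sub_eq_zero.mp h4
  refine ⟨Finset.univ.filter fun v => ∀ p : S, ψ v p ∉ D p, ?_, ?_⟩
  · have h1 : ((Finset.univ.filter fun v => ∀ p : S, ψ v p ∉ D p).card : ℝ) ≤
        ((Fintype.piFinset fun p : S =>
          Finset.univ.filter fun w : Fin m → ZMod (M p) => w ∉ D p).card : ℝ) := by
      rw [Nat.cast_le, ← Finset.card_image_of_injective _ hψ]
      apply Finset.card_le_card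
      intro x hx
      obtain ⟨v, hv, rfl⟩ := Finset.mem_image.mp hx
      rw [Finset.mem_filter] at hv
      rw [Fintype.mem_piFinset]
      intro p
      rw [Finset.mem_filter]
      exact ⟨Finset.mem_univ _, hv.2 p⟩
    refine h1.trans ?_
    rw [Fintype.card_piFinset]
    push_cast
    have h2 : ∀ p : S, ((Finset.univ.filter fun w : Fin m → ZMod (M p) => w ∉ D p).card : ℝ) ≤
        (1 - δ p) * (M p : ℝ) ^ m := by
      intro p
      have h3 := hD p p.2
      have h4 : (D p).ncard = (Finset.univ.filter fun w : Fin m → ZMod (M p) => w ∈ D p).card := by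
        rw [← Set.ncard_coe_finset]
        congr 1
        ext w
        simp
      have h5 := Finset.card_filter_add_card_filter_not
        (s := (Finset.univ : Finset (Fin m → ZMod (M p)))) (fun w => w ∈ D p)
      rw [Finset.card_univ, Fintype.card_fun, ZMod.card, Fintype.card_fin] at h5
      have h6 : (((Finset.univ.filter fun w : Fin m → ZMod (M p) => w ∈ D p).card : ℝ)) +
          ((Finset.univ.filter fun w : Fin m → ZMod (M p) => w ∉ D p).card : ℝ) =
          (M p : ℝ) ^ m := by exact_mod_cast h5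
      rw [h4] at h3
      linarith
    calc ∏ p : S, ((Finset.univ.filter fun w : Fin m → ZMod (M p) => w ∉ D p).card : ℝ)
        ≤ ∏ p : S, ((1 - δ p) * (M p : ℝ) ^ m) :=
          Finset.prod_le_prod (fun _ _ => by positivity) (fun p _ => h2 p)
      _ = _ := by
          rw [Finset.prod_mul_distrib, Finset.prod_coe_sort S (fun p => (1 - δ p)), hN,
            Finset.prod_pow, Finset.prod_coe_sort S (fun p => (M p : ℝ))]
          push_cast
          rfl
  · intro a ha
    rw [Finset.mem_filter]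
    refine ⟨Finset.mem_univ _, fun p => ?_⟩
    have h1 : ψ (fun i => (a i : ZMod N)) p = fun i => (a i : ZMod (M p)) := by
      funext i
      exact map_intCast _ _
    rw [h1]
    exact ha p p.2

/-- **Density zero**, for residue classes modulo coprime integers whose proportions have a divergent
sum. -/
theorem density_crtB7 (m : ℕ) (M : ℕ → ℕ) (D : ∀ p : ℕ, Set (Fin m → ZMod (M p))) (δ : ℕ → ℝ)
    (P : Set ℕ) (hM0 : ∀ p ∈ P, 0 < M p)
    (hcop : ∀ p ∈ P, ∀ q ∈ P, p ≠ q → Nat.Coprime (M p) (M q))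
    (hδ : ∀ T : ℝ, ∃ S : Finset ℕ, (∀ p ∈ S, p ∈ P) ∧ T ≤ ∑ p ∈ S, δ p)
    (hD : ∀ p ∈ P, δ p * (M p : ℝ) ^ m ≤ (D p).ncard) (Good : (Fin m → ℤ) → Prop)
    (hGood : ∀ a, ∀ p ∈ P, (fun i => (a i : ZMod (M p))) ∈ D p → Good a) :
    Tendsto (fun H : ℕ => ({a : Fin m → ℤ | (∀ i, |a i| ≤ H) ∧ ¬ Good a}.ncard : ℝ) /
      (2 * H + 1) ^ m) atTop (𝓝 0) := by
  have hδ1 : ∀ p ∈ P, δ p ≤ 1 := by
    intro p hp
    haveI : NeZero (M p) := ⟨(hM0 p hp).ne'⟩
    have h1 := hD p hp
    have h2 : ((D p).ncard : ℝ) ≤ (M p : ℝ) ^ m := by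
      have h3 : (D p).ncard ≤ (Set.univ : Set (Fin m → ZMod (M p))).ncard :=
        Set.ncard_le_ncard (Set.subset_univ _)
      rw [Set.ncard_univ, Nat.card_eq_fintype_card, Fintype.card_fun, ZMod.card,
        Fintype.card_fin] at h3
      exact_mod_cast h3
    have h4 : (0 : ℝ) < (M p : ℝ) ^ m := by
      have : (0 : ℝ) < M p := by exact_mod_cast hM0 p hp
      positivity
    nlinarith
  rw [Metric.tendsto_atTop]
  intro ε hε
  obtain ⟨S, hSP, hST⟩ := hδ (- Real.log (ε / 2))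
  obtain ⟨N, hN⟩ : ∃ N, N = ∏ p ∈ S, M p := ⟨_, rfl⟩
  obtain ⟨A, hA1, hA2⟩ := card_avoidB7 m M D δ S (fun p hp => hM0 p (hSP p hp))
    (fun p hp q hq => hcop p (hSP p hp) q (hSP q hq)) (fun p hp => hD p (hSP p hp)) hN
  set t := ∏ p ∈ S, (1 - δ p) with htdef
  have ht : t < ε := by
    have h1 : t ≤ ∏ p ∈ S, Real.exp (- δ p) := by
      refine Finset.prod_le_prod (fun p hp => by linarith [hδ1 p (hSP p hp)]) fun p _ => ?_
      linarith [Real.add_one_le_exp (- δ p)]
    rw [← Real.exp_sum, Finset.sum_neg_distrib] at h1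
    have h2 : Real.exp (- ∑ p ∈ S, δ p) ≤ ε / 2 := by
      rw [← Real.le_log_iff_exp_le (by positivity)]
      linarith
    linarith
  have hN0 : 0 < N := by
    rw [hN]
    exact Finset.prod_pos fun p hp => hM0 p (hSP p hp)
  have hNR : (0 : ℝ) < N := by exact_mod_cast hN0
  have hlim : Tendsto (fun H : ℕ => t * (1 + N / (2 * (H : ℝ) + 1)) ^ m) atTop
      (𝓝 (t * (1 + 0) ^ m)) := by
    apply Tendsto.const_mul
    apply Tendsto.pow
    apply Tendsto.const_add
    apply Tendsto.div_atTop tendsto_const_nhds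
    exact tendsto_atTop_add_const_right _ _
      (Tendsto.const_mul_atTop (by norm_num) tendsto_natCast_atTop_atTop)
  rw [add_zero, one_pow, mul_one] at hlim
  obtain ⟨H0, hH0⟩ := (hlim.eventually_lt_const ht).exists_forall_of_atTop
  refine ⟨H0, fun H hH => ?_⟩
  have hpos : (0 : ℝ) < (2 * (H : ℝ) + 1) ^ m := by positivity
  rw [Real.dist_eq, sub_zero, abs_of_nonneg (by positivity), div_lt_iff₀ hpos]
  have h1 : {a : Fin m → ℤ | (∀ i, |a i| ≤ H) ∧ ¬ Good a} ⊆
      {a : Fin m → ℤ | (∀ i, |a i| ≤ H) ∧ (fun i => (a i : ZMod N)) ∈ A} := by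
    rintro a ⟨h2, h3⟩
    refine ⟨h2, hA2 a fun p hp hap => h3 (hGood a p (hSP p hp) hap)⟩
  have hfin : {a : Fin m → ℤ | (∀ i, |a i| ≤ H) ∧ (fun i => (a i : ZMod N)) ∈ A}.Finite := by
    apply Set.Finite.subset (Finset.finite_toSet
      (Fintype.piFinset fun _ : Fin m => Finset.Icc (-(H : ℤ)) H))
    rintro a ⟨h2, -⟩
    rw [Finset.mem_coe, Fintype.mem_piFinset]
    intro i
    rw [Finset.mem_Icc]
    exact abs_le.mp (h2 i)
  have h2 : (({a : Fin m → ℤ | (∀ i, |a i| ≤ H) ∧ ¬ Good a}.ncard : ℝ)) ≤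
      A.card * ((2 * H + 1) / N + 1) ^ m :=
    (by exact_mod_cast Set.ncard_le_ncard h1 hfin : _ ≤ _).trans (card_box7 hN0 m H A)
  refine lt_of_le_of_lt h2 ?_
  have h3 : (A.card : ℝ) * ((2 * H + 1) / N + 1) ^ m ≤
      (t * (1 + N / (2 * (H : ℝ) + 1)) ^ m) * (2 * (H : ℝ) + 1) ^ m := by
    have h4 : (0 : ℝ) ≤ ((2 * H + 1) / N + 1) ^ m := by positivity
    refine (mul_le_mul_of_nonneg_right hA1 h4).trans ?_
    rw [mul_assoc, mul_assoc, ← mul_pow, ← mul_pow]
    have h5 : (N : ℝ) * ((2 * H + 1) / N + 1) = (1 + N / (2 * (H : ℝ) + 1)) * (2 * H + 1) := by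
      field_simp
    rw [h5]
  exact lt_of_le_of_lt h3 (mul_lt_mul_of_pos_right (hH0 H hH) hpos)

/-- The sums of `c / p` over finite sets of large primes are unbounded. -/
theorem sum_primes_unbounded7 {c : ℝ} (hc : 0 < c) (P₀ : ℕ) (T : ℝ) :
    ∃ S : Finset ℕ, (∀ p ∈ S, p.Prime ∧ P₀ ≤ p) ∧ T ≤ ∑ p ∈ S, c / p := by
  by_contra hcon
  push Not at hcon
  apply not_summable_one_div_on_primes
  apply summable_of_sum_le (c := T / c + ∑ p ∈ Finset.range P₀, (1 : ℝ) / p)
  · intro n
    exact Set.indicator_nonneg (fun _ _ => by positivity) n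
  · intro s
    have h1 := hcon (s.filter fun p => p.Prime ∧ P₀ ≤ p) fun p hp => (Finset.mem_filter.mp hp).2
    have h2 : ∑ x ∈ s, Set.indicator {p : ℕ | p.Prime} (fun n : ℕ => (1 : ℝ) / n) x ≤
        ∑ x ∈ s.filter (fun p => p.Prime ∧ P₀ ≤ p), (1 : ℝ) / x +
          ∑ p ∈ Finset.range P₀, (1 : ℝ) / p := by
      have h3 : ∑ x ∈ s, Set.indicator {p : ℕ | p.Prime} (fun n : ℕ => (1 : ℝ) / n) x =
          ∑ x ∈ s.filter (fun p => p.Prime), (1 : ℝ) / x := by
        rw [Finset.sum_filter]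
        refine Finset.sum_congr rfl fun x _ => ?_
        rw [Set.indicator_apply]
        rfl
      rw [h3]
      have h4 : s.filter (fun p => p.Prime) ⊆
          s.filter (fun p => p.Prime ∧ P₀ ≤ p) ∪ Finset.range P₀ := by
        intro p hp
        rw [Finset.mem_filter] at hp
        rw [Finset.mem_union, Finset.mem_filter, Finset.mem_range]
        rcases le_or_gt P₀ p with h | h
        · exact Or.inl ⟨hp.1, hp.2, h⟩
        · exact Or.inr h
      refine (Finset.sum_le_sum_of_subset_of_nonneg h4 fun _ _ _ => by positivity).trans ?_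
      have h5 := Finset.sum_union_inter (s₁ := s.filter (fun p => p.Prime ∧ P₀ ≤ p))
        (s₂ := Finset.range P₀) (f := fun x : ℕ => (1 : ℝ) / x)
      have h6 : (0 : ℝ) ≤ ∑ x ∈ s.filter (fun p => p.Prime ∧ P₀ ≤ p) ∩ Finset.range P₀,
        (1 : ℝ) / x := Finset.sum_nonneg fun _ _ => by positivity
      linarith
    have h7 : ∑ x ∈ s.filter (fun p => p.Prime ∧ P₀ ≤ p), (1 : ℝ) / x ≤ T / c := by
      rw [le_div_iff₀ hc, Finset.sum_mul]
      refine le_trans (le_of_eq ?_) h1.le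
      refine Finset.sum_congr rfl fun x _ => ?_
      ring
    linarith

end Pool.Agent.Lib.MP_89bcae_ag

end

section

open Finset

namespace Pool.Agent.Lib.MP_89bcae_ag.Re

/-- correction term on the triangle 0, 1, 2 -/
private def p03c (ℓ : ℕ) (i j : ℕ) : ZMod ℓ :=
  (if i = 0 ∧ j = 1 then 1 else 0) + (if i = 1 ∧ j = 0 then 1 else 0) +
  (if i = 0 ∧ j = 2 then 1 else 0) + (if i = 2 ∧ j = 0 then 1 else 0) -
  (if i = 1 ∧ j = 2 then 1 else 0) - (if i = 2 ∧ j = 1 then 1 else 0)

private def p03t {ℓ : ℕ} (W : ℕ → ZMod ℓ) (h : ZMod ℓ) (i j : ℕ) : ZMod ℓ :=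
  (if i = 0 then (if j = 0 then 0 else W j) else 0) +
  (if j = 0 then (if i = 0 then 0 else W i) else 0) + h * p03c ℓ i j

private theorem p03t_symm {ℓ : ℕ} (W : ℕ → ZMod ℓ) (h : ZMod ℓ) (i j : ℕ) :
    p03t W h i j = p03t W h j i := by
  have : p03c ℓ i j = p03c ℓ j i := by
    unfold p03c
    simp only [and_comm (a := i = 0), and_comm (a := i = 1), and_comm (a := i = 2)]
    ring
  unfold p03t
  rw [this]
  ring

private theorem p03_sum {ℓ : ℕ} {n : ℕ} (hn : 3 ≤ n) (W : ℕ → ZMod ℓ) (h : ZMod ℓ)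
    (hh : 2 * h = W 0 - ∑ j ∈ (range n).erase 0, W j) (i : ℕ) (hi : i < n) :
    ∑ j ∈ (range n).erase i, p03t W h i j = W i := by
  have m0 : 0 ∈ range n := mem_range.2 (by omega)
  have m1 : 1 ∈ range n := mem_range.2 (by omega)
  have m2 : 2 ∈ range n := mem_range.2 (by omega)
  by_cases h0 : i = 0
  · subst h0
    have e1 : ∑ j ∈ (range n).erase 0, p03t W h 0 j =
        ∑ j ∈ (range n).erase 0, (W j + h * ((if j = 1 then 1 else 0) +
          (if j = 2 then 1 else 0))) := by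
      refine Finset.sum_congr rfl fun j hj => ?_
      have hj0 : j ≠ 0 := (Finset.mem_erase.1 hj).1
      simp [p03t, p03c, hj0]
    have a1 : 1 ∈ (range n).erase 0 := Finset.mem_erase.2 ⟨by omega, m1⟩
    have a2 : 2 ∈ (range n).erase 0 := Finset.mem_erase.2 ⟨by omega, m2⟩
    rw [e1, Finset.sum_add_distrib, ← Finset.mul_sum, Finset.sum_add_distrib,
      Finset.sum_ite_eq', Finset.sum_ite_eq', if_pos a1, if_pos a2]
    have : h * (1 + 1) = 2 * h := by ring
    rw [this, hh]
    ring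
  · have a0 : 0 ∈ (range n).erase i := Finset.mem_erase.2 ⟨Ne.symm h0, m0⟩
    by_cases h1 : i = 1
    · subst h1
      have e1 : ∑ j ∈ (range n).erase 1, p03t W h 1 j =
          ∑ j ∈ (range n).erase 1, ((if j = 0 then W 1 else 0) + h * ((if j = 0 then 1 else 0) -
            (if j = 2 then 1 else 0))) := by
        refine Finset.sum_congr rfl fun j hj => ?_
        simp [p03t, p03c]
      have a2 : 2 ∈ (range n).erase 1 := Finset.mem_erase.2 ⟨by omega, m2⟩
      rw [e1, Finset.sum_add_distrib, ← Finset.mul_sum, Finset.sum_sub_distrib,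
        Finset.sum_ite_eq', Finset.sum_ite_eq', Finset.sum_ite_eq', if_pos a0, if_pos a0, if_pos a2]
      ring
    · by_cases h2 : i = 2
      · subst h2
        have e1 : ∑ j ∈ (range n).erase 2, p03t W h 2 j =
            ∑ j ∈ (range n).erase 2, ((if j = 0 then W 2 else 0) + h * ((if j = 0 then 1 else 0) -
              (if j = 1 then 1 else 0))) := by
          refine Finset.sum_congr rfl fun j hj => ?_
          simp [p03t, p03c]
        have a1 : 1 ∈ (range n).erase 2 := Finset.mem_erase.2 ⟨by omega, m1⟩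
        rw [e1, Finset.sum_add_distrib, ← Finset.mul_sum, Finset.sum_sub_distrib,
          Finset.sum_ite_eq', Finset.sum_ite_eq', Finset.sum_ite_eq', if_pos a0, if_pos a0,
          if_pos a1]
        ring
      · have e1 : ∑ j ∈ (range n).erase i, p03t W h i j =
            ∑ j ∈ (range n).erase i, (if j = 0 then W i else 0) := by
          refine Finset.sum_congr rfl fun j hj => ?_
          simp [p03t, p03c, h0, h1, h2]
        rw [e1, Finset.sum_ite_eq', if_pos a0]

private theorem p03_even {ℓ : ℕ} (n : ℕ) :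
    ∑ i ∈ range n, ∑ j ∈ (range n).erase i, (if j = i + 1 ∨ i = j + 1 then (1 : ZMod ℓ) else 0) =
      2 * ∑ i ∈ range n, ∑ j ∈ range n, (if j = i + 1 then (1 : ZMod ℓ) else 0) := by
  have e1 : ∀ i ∈ range n, ∑ j ∈ (range n).erase i,
      (if j = i + 1 ∨ i = j + 1 then (1 : ZMod ℓ) else 0) =
      ∑ j ∈ range n, (if j = i + 1 then (1 : ZMod ℓ) else 0) +
      ∑ j ∈ range n, (if i = j + 1 then (1 : ZMod ℓ) else 0) := by
    intro i hi
    rw [← Finset.sum_add_distrib, ← Finset.add_sum_erase _ _ hi, if_neg (by omega),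
      add_zero, zero_add]
    refine Finset.sum_congr rfl fun j _ => ?_
    by_cases h1 : j = i + 1
    · rw [if_pos (Or.inl h1), if_pos h1, if_neg (by omega), add_zero]
    · by_cases h2 : i = j + 1
      · rw [if_pos (Or.inr h2), if_neg h1, if_pos h2, zero_add]
      · rw [if_neg (by tauto), if_neg h1, if_neg h2, add_zero]
  rw [Finset.sum_congr rfl e1, Finset.sum_add_distrib]
  have e2 : ∑ i ∈ range n, ∑ j ∈ range n, (if i = j + 1 then (1 : ZMod ℓ) else 0) =
      ∑ i ∈ range n, ∑ j ∈ range n, (if j = i + 1 then (1 : ZMod ℓ) else 0) := by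
    rw [Finset.sum_comm]
  rw [e2]
  ring

private theorem p03_two : (2 : ZMod 2) = 0 := by decide

private theorem p03_neg (x : ZMod 2) : -x = x := by
  revert x; decide

/-- Symmetric weights on the pairs with prescribed sums at the vertices. Proof: it is enough to find
symmetric `t i j` with `∑ j ≠ i, t i j = W i` for `i < n`, where
`W i = D i - (number of neighbours of i in the path 0, .., n-1)`, and to put `y = t / m`. If `ℓ ≠ 2`:
`2` is invertible; by linearity (sum over the vertices) it is enough to treat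
`W = w` at one vertex `u < n` and `0` at the others: choose two other vertices `p ≠ r` below `n`
(`n ≥ 3`) and put `t u p = t u r = w/2`, `t p r = -w/2`, symmetric, zero elsewhere. If `ℓ = 2`: the sum
of the `W i`, `i < n`, is zero (the sum of the numbers of neighbours is `2 (n-1)`); put, for
`1 ≤ i < n`, `t 0 i = t i 0 = W i`, zero elsewhere: the sum at `0` is `∑ i = 1 .. n-1, W i = - W 0 = W 0`. -/
theorem exists_weights {ℓ : ℕ} [Fact ℓ.Prime] {n : ℕ} (hn : 3 ≤ n) {m : ZMod ℓ} (hm : m ≠ 0)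
    (D : ℕ → ZMod ℓ) (hD : ℓ = 2 → ∑ i ∈ range n, D i = 0) :
    ∃ y : ℕ → ℕ → ZMod ℓ, (∀ i j, y i j = y j i) ∧ ∀ i < n,
      ∑ j ∈ (range n).erase i, ((if j = i + 1 ∨ i = j + 1 then 1 else 0) + m * y i j) = D i := by
  let N : ℕ → ZMod ℓ := fun i => ∑ j ∈ (range n).erase i,
    (if j = i + 1 ∨ i = j + 1 then (1 : ZMod ℓ) else 0)
  let W : ℕ → ZMod ℓ := fun i => D i - N i
  have hex : ∃ h : ZMod ℓ, 2 * h = W 0 - ∑ j ∈ (range n).erase 0, W j := by
    by_cases h2 : ℓ = 2
    · refine ⟨0, ?_⟩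
      subst h2
      have t2 : (2 : ZMod 2) = 0 := p03_two
      have e1 : W 0 + ∑ j ∈ (range n).erase 0, W j = ∑ j ∈ range n, W j :=
        Finset.add_sum_erase _ _ (mem_range.2 (by omega))
      have e2 : ∑ j ∈ range n, W j = 0 := by
        show ∑ j ∈ range n, (D j - N j) = 0
        rw [Finset.sum_sub_distrib, hD rfl]
        show 0 - ∑ i ∈ range n, ∑ j ∈ (range n).erase i, _ = _
        rw [p03_even, t2]
        ring
      rw [e2] at e1
      rw [mul_zero, sub_eq_add_neg, p03_neg, e1]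
    · have h3 : (2 : ZMod ℓ) ≠ 0 := by
        intro h
        have h4 : ((2 : ℕ) : ZMod ℓ) = 0 := by exact_mod_cast h
        rw [ZMod.natCast_eq_zero_iff] at h4
        exact h2 ((Nat.prime_dvd_prime_iff_eq (Fact.out) Nat.prime_two).1 h4)
      exact ⟨2⁻¹ * (W 0 - ∑ j ∈ (range n).erase 0, W j), by rw [mul_inv_cancel_left₀ h3]⟩
  obtain ⟨h, hh⟩ := hex
  refine ⟨fun i j => m⁻¹ * p03t W h i j, fun i j => ?_, fun i hi => ?_⟩
  · show m⁻¹ * p03t W h i j = m⁻¹ * p03t W h j i
    rw [p03t_symm]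
  · have e : ∀ j, m * (m⁻¹ * p03t W h i j) = p03t W h i j := fun j => by
      rw [mul_inv_cancel_left₀ hm]
    simp only [e]
    rw [Finset.sum_add_distrib, p03_sum hn W h hh i hi]
    show N i + (D i - N i) = D i
    ring

end Pool.Agent.Lib.MP_89bcae_ag.Re

end

section

/-!
# Polynomials with integral coefficients in a box: elementary lemmas
-/

open Polynomial Filter Topology

open scoped Classical

namespace Pool.Agent.Lib.MP_89bcae_ag

set_option linter.style.haveILetI false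

section Vec

lemma map_vecPoly8 {n : ℕ} (a : Fin (n + 1) → ℤ) (p : ℕ) :
    (vecPoly7 a).map (Int.castRingHom (ZMod p)) = polyOf8 (fun i => (a i : ZMod p)) := by
  unfold vecPoly7 polyOf8
  rw [Polynomial.map_sum]
  refine Finset.sum_congr rfl fun i _ => ?_
  rw [Polynomial.map_mul, map_C, Polynomial.map_pow, map_X]
  rfl

lemma natDegree_vecPoly8 {n : ℕ} (a : Fin (n + 1) → ℤ) : (vecPoly7 a).natDegree ≤ n := by
  unfold vecPoly7
  apply natDegree_sum_le_of_forall_le
  intro i _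
  refine (natDegree_C_mul_X_pow_le _ _).trans ?_
  exact Nat.lt_succ_iff.mp i.2

lemma coeff_vecPoly8 {n : ℕ} (a : Fin (n + 1) → ℤ) (i : Fin (n + 1)) :
    (vecPoly7 a).coeff i = a i := by
  unfold vecPoly7
  rw [finsetSum_coeff, Finset.sum_eq_single i]
  · rw [coeff_C_mul, coeff_X_pow, if_pos rfl, mul_one]
  · intro j _ hj
    rw [coeff_C_mul, coeff_X_pow, if_neg (fun h => hj (Fin.ext h.symm)), mul_zero]
  · exact fun h => absurd (Finset.mem_univ _) h

end Vec

/-- From density zero of the complement to density one. -/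
lemma density_one8 (m : ℕ) (Good : (Fin m → ℤ) → Prop)
    (h : Tendsto (fun H : ℕ => ({a : Fin m → ℤ | (∀ i, |a i| ≤ H) ∧ ¬ Good a}.ncard : ℝ) /
      (2 * H + 1) ^ m) atTop (𝓝 0)) :
    Tendsto (fun H : ℕ => ({a : Fin m → ℤ | (∀ i, |a i| ≤ H) ∧ Good a}.ncard : ℝ) /
      (2 * H + 1) ^ m) atTop (𝓝 1) := by
  have h1 : Tendsto (fun H : ℕ => 1 -
      ({a : Fin m → ℤ | (∀ i, |a i| ≤ H) ∧ ¬ Good a}.ncard : ℝ) / (2 * H + 1) ^ m) atTop
      (𝓝 (1 - 0)) := tendsto_const_nhds.sub h
  rw [sub_zero] at h1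
  refine h1.congr fun H => ?_
  have hbox : ({a : Fin m → ℤ | ∀ i, |a i| ≤ H}) =
      ((Fintype.piFinset fun _ : Fin m => Finset.Icc (-(H : ℤ)) H : Finset (Fin m → ℤ)) :
        Set (Fin m → ℤ)) := by
    ext a
    rw [Finset.mem_coe, Fintype.mem_piFinset]
    simp only [Set.mem_ofPred_eq, Finset.mem_Icc, abs_le]
  have hfin : ({a : Fin m → ℤ | ∀ i, |a i| ≤ H}).Finite := by
    rw [hbox]
    exact Finset.finite_toSet _
  have hcard : (({a : Fin m → ℤ | ∀ i, |a i| ≤ H}).ncard : ℝ) = (2 * H + 1) ^ m := by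
    rw [hbox, Set.ncard_coe_finset, Fintype.card_piFinset, Finset.prod_const, Finset.card_univ,
      Fintype.card_fin, Int.card_Icc]
    push_cast
    congr 1
    have h3 : ((H : ℤ) + 1 - -(H : ℤ)).toNat = 2 * H + 1 := by omega
    rw [h3]
    push_cast
    ring
  have hsplit : ({a : Fin m → ℤ | (∀ i, |a i| ≤ H) ∧ Good a}).ncard +
      ({a : Fin m → ℤ | (∀ i, |a i| ≤ H) ∧ ¬ Good a}).ncard =
      ({a : Fin m → ℤ | ∀ i, |a i| ≤ H}).ncard := by
    have hdisj : Disjoint {a : Fin m → ℤ | (∀ i, |a i| ≤ H) ∧ Good a}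
        {a : Fin m → ℤ | (∀ i, |a i| ≤ H) ∧ ¬ Good a} := by
      rw [Set.disjoint_left]
      rintro a ⟨-, h3⟩ ⟨-, h4⟩
      exact h4 h3
    rw [← Set.ncard_union_eq hdisj (hfin.subset fun a ha => ha.1) (hfin.subset fun a ha => ha.1)]
    congr 1
    ext a
    simp only [Set.mem_union, Set.mem_ofPred_eq]
    tauto
  have hpos : (0 : ℝ) < (2 * (H : ℝ) + 1) ^ m := by positivity
  rw [eq_div_iff hpos.ne', sub_mul, div_mul_cancel₀ _ hpos.ne', one_mul, ← hcard, ← hsplit]
  push_cast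
  ring


end Pool.Agent.Lib.MP_89bcae_ag

end

section

/-!
# Counting polynomials modulo `p` and modulo `p ^ 2`, for `g` of any degree
-/

open Polynomial

open scoped Classical

set_option linter.unusedSimpArgs false
set_option linter.unusedVariables false
set_option linter.unusedSectionVars false
set_option linter.style.haveILetI false

namespace Pool.Agent.Lib.MP_89bcae_ag

section Crit

variable {K : Type*} [Field K]

/-- A polynomial with nonzero derivative has less than `deg g` critical values. -/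
theorem card_crit14 {g : K[X]} (hder : derivative g ≠ 0)
    (S : Finset K) (hS : ∀ e ∈ S, ¬ (g - C e).Separable) : S.card ≤ g.natDegree - 1 := by
  let L := AlgebraicClosure K
  have hex : ∀ e ∈ S, ∃ θ ∈ ((derivative g).aroots L).toFinset, aeval θ g = algebraMap K L e := by
    intro e he
    have h1 := hS e he
    rw [Polynomial.Separable, Polynomial.isCoprime_iff_aeval_ne_zero_of_isAlgClosed K L] at h1
    push Not at h1
    obtain ⟨θ, h4, h5⟩ := h1
    rw [derivative_sub, derivative_C, sub_zero] at h5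
    rw [map_sub, aeval_C, sub_eq_zero] at h4
    exact ⟨θ, by rw [Multiset.mem_toFinset, mem_aroots]; exact ⟨hder, h5⟩, h4⟩
  choose! f hf1 hf2 using hex
  have h6 : S.card ≤ ((derivative g).aroots L).toFinset.card := by
    apply Finset.card_le_card_of_injOn f hf1
    intro x hx y hy hxy
    apply (algebraMap K L).injective
    rw [← hf2 x hx, ← hf2 y hy, hxy]
  refine h6.trans ((Multiset.toFinset_card_le _).trans ?_)
  refine (card_roots' _).trans ?_
  rw [natDegree_map]
  exact natDegree_derivative_le g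

/-- The derivative of a monic polynomial of degree `m ≠ 0` in `K` is not zero. -/
lemma derivative_ne_zero14 {g : K[X]} (hg : g.Monic) (h : (g.natDegree : K) ≠ 0) :
    derivative g ≠ 0 := by
  intro h0
  have hd : g.natDegree ≠ 0 := by
    intro h1
    rw [h1, Nat.cast_zero] at h
    exact h rfl
  obtain ⟨d, hd'⟩ := Nat.exists_eq_succ_of_ne_zero hd
  have h1 : (derivative g).coeff d = 0 := by rw [h0, coeff_zero]
  rw [coeff_derivative] at h1
  have h2 : g.coeff (d + 1) = 1 := by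
    have h3 := hg.coeff_natDegree
    rwa [hd', Nat.succ_eq_add_one] at h3
  rw [h2, one_mul] at h1
  apply h
  rw [hd', Nat.succ_eq_add_one]
  push_cast
  exact h1

end Crit

section Irr

/-- The number of the irreducible polynomials. -/
lemma irr_lower14 {k : Type} [Field k] [Fintype k] (hq : 3 ≤ Fintype.card k) {n : ℕ} (hn : 2 ≤ n) :
    Fintype.card k ^ n ≤ 2 * (n * (family (X : k[X]) n).ncard) := by
  have hfin := family_finite8 (X : k[X]) n
  have hfam : ∀ D ∈ hfin.toFinset, D.Monic ∧ D.natDegree = n ∧ Irreducible D := by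
    intro D hD
    rw [Set.Finite.mem_toFinset] at hD
    exact ⟨hD.1, hD.2.1, by simpa using hD.2.2⟩
  have hcard : hfin.toFinset.card = (family (X : k[X]) n).ncard :=
    (Set.ncard_eq_toFinset_card _ hfin).symm
  obtain ⟨A, hA1, hA2⟩ := exists_roots_card8 (F := AlgebraicClosure k) n hfin.toFinset hfam
  have h1 := Frob14.card_fixS (k := k) (F := AlgebraicClosure k) (i := n) (by omega)
  have h2 := Frob14.small_card (k := k) (F := AlgebraicClosure k) n (by omega)
  have h3 := Frob14.two_mul_sum_pow_le hq (n / 2)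
  have h4 : 3 * Fintype.card k ^ (n / 2) ≤ Fintype.card k ^ n := by
    calc 3 * Fintype.card k ^ (n / 2) ≤ Fintype.card k * Fintype.card k ^ (n - 1) :=
          Nat.mul_le_mul hq (Nat.pow_le_pow_right (by omega) (by omega))
      _ = Fintype.card k ^ n := by
          rw [← pow_succ']
          congr 1
          omega
  have h5 := Finset.card_filter_add_card_filter_not (s := Frob14.fixS k (AlgebraicClosure k) n)
    (fun v => ∃ j, 0 < j ∧ j < n ∧ v ^ (Fintype.card k ^ j) = v)
  have h6 : ((Frob14.fixS k (AlgebraicClosure k) n).filter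
      (fun v => ¬ ∃ j, 0 < j ∧ j < n ∧ v ^ (Fintype.card k ^ j) = v)).card ≤ A.card := by
    apply Finset.card_le_card
    intro a ha
    rw [Finset.mem_filter, Frob14.mem_fixS (by omega)] at ha
    obtain ⟨ha1, ha2⟩ := ha
    rw [hA1, Set.Finite.mem_toFinset]
    have hint : IsIntegral k a := Algebra.IsIntegral.isIntegral a
    refine ⟨minpoly.monic hint, ?_, ?_⟩
    · have h1 : (minpoly k a).natDegree ∣ n := by
        rw [← frob8_pow_eq_iff, frob8_pow_apply, ha1]
      have h2 := Nat.le_of_dvd (by omega) h1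
      have h3 : 0 < (minpoly k a).natDegree := minpoly.natDegree_pos hint
      by_contra h4
      apply ha2
      refine ⟨(minpoly k a).natDegree, h3, lt_of_le_of_ne h2 h4, ?_⟩
      rw [← frob8_pow_apply, frob8_pow_eq_iff]
    · rw [comp_X]
      exact minpoly.irreducible hint
  rw [hA2, hcard] at h6
  omega

variable {k : Type} [Field k] [Fintype k]

/-- The number of the products of a linear and an irreducible polynomial. -/
lemma count_BX14 {n : ℕ} (hn : 3 ≤ n) :
    (Fintype.card k - 1) * Fintype.card k * (family (X : k[X]) (n - 1)).ncard ≤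
      ({v : Fin (n + 1) → k | ∃ f : k[X], coeffs14 n f = v ∧ f.natDegree = n ∧
        ∃ (b : k) (D₁ : k[X]), f = (X - C b) * D₁ ∧ Irreducible D₁ ∧ D₁.natDegree = n - 1}).ncard := by
  have huniv : Fintype.card k = (Set.univ : Set k).ncard := by
    rw [Set.ncard_univ, Nat.card_eq_fintype_card]
  rw [← ncard_ne_zero14]
  conv_lhs => rw [huniv]
  rw [← Set.ncard_prod, ← Set.ncard_prod]
  apply Set.ncard_le_ncard_of_injOn
    (fun x : (k × k) × k[X] => coeffs14 n (C x.1.1 * ((X - C x.1.2) * x.2)))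
  · rintro ⟨⟨u, α⟩, D⟩ ⟨⟨hu, -⟩, h1, h2, h3⟩
    simp only at hu h1 h2 h3
    rw [comp_X] at h3
    refine ⟨_, rfl, ?_, α, C u * D, ?_, ?_, ?_⟩
    · change (C u * ((X - C α) * D)).natDegree = n
      rw [natDegree_C_mul hu, (monic_X_sub_C α).natDegree_mul h1, natDegree_X_sub_C, h2]
      omega
    · change C u * ((X - C α) * D) = _
      ring
    · have hu' : IsUnit (C u : k[X]) := isUnit_C.mpr (isUnit_iff_ne_zero.mpr hu)
      rw [irreducible_isUnit_mul hu']
      exact h3
    · rw [natDegree_C_mul hu, h2]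
  · rintro ⟨⟨u, α⟩, D⟩ ⟨⟨hu, -⟩, h1, h2, h3⟩ ⟨⟨u', α'⟩, D'⟩ ⟨⟨hu', -⟩, h1', h2', h3'⟩ h
    simp only at hu hu' h1 h2 h3 h1' h2' h3' h
    rw [comp_X] at h3 h3'
    have hdg : ∀ (u α : k) (D : k[X]), u ≠ 0 → D.Monic → D.natDegree = n - 1 →
        (C u * ((X - C α) * D)).natDegree ≤ n := by
      intro u α D hu h1 h2
      rw [natDegree_C_mul hu, (monic_X_sub_C α).natDegree_mul h1, natDegree_X_sub_C, h2]
      omega
    have h4 := coeffs_inj14 (hdg u α D hu h1 h2) (hdg u' α' D' hu' h1' h2') h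
    have h5 := congrArg leadingCoeff h4
    rw [leadingCoeff_mul, leadingCoeff_C, ((monic_X_sub_C α).mul h1).leadingCoeff, mul_one,
      leadingCoeff_mul, leadingCoeff_C, ((monic_X_sub_C α').mul h1').leadingCoeff, mul_one] at h5
    subst h5
    have h6 := mul_left_cancel₀ (C_ne_zero.mpr hu) h4
    have h7 : α = α' := by
      by_contra hne
      have h8 := congrArg (eval α) h6
      rw [eval_mul, eval_sub, eval_X, eval_C, sub_self, zero_mul, eval_mul, eval_sub, eval_X,
        eval_C, eq_comm, mul_eq_zero] at h8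
      rcases h8 with h8 | h8
      · exact hne (sub_eq_zero.mp h8)
      · have h9 : D'.natDegree = 1 := natDegree_eq_of_degree_eq_some
          (degree_eq_one_of_irreducible_of_root h3' h8)
        rw [h2'] at h9
        omega
    subst h7
    rw [Prod.mk.injEq]
    exact ⟨rfl, mul_left_cancel₀ (X_sub_C_ne_zero α) h6⟩

end Irr

/-- The polynomial is irreducible of degree `n`. -/
def TypeAX14 {κ : Type} [Field κ] (D : κ[X]) (n : ℕ) : Prop :=
  Irreducible D ∧ D.natDegree = n

/-- The polynomial is the product of a linear polynomial and an irreducible polynomial of degree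
`n - 1`. -/
def TypeBX14 {κ : Type} [Field κ] (D : κ[X]) (n : ℕ) : Prop :=
  ∃ (b : κ) (D₁ : κ[X]), D = (X - C b) * D₁ ∧ Irreducible D₁ ∧ D₁.natDegree = n - 1 ∧
    D.natDegree = n

/-- The polynomial `D` has degree `n` and `D(g)` is separable. -/
def TypeS14 {κ : Type} [Field κ] (g D : κ[X]) (n : ℕ) : Prop :=
  D.natDegree = n ∧ (D.comp g).Separable

/-- The number of the residue classes of type A. -/
theorem count_typeAX14 (n : ℕ) (hn : 2 ≤ n) : ∃ c : ℝ, 0 < c ∧ ∃ P₀ : ℕ, ∀ p : ℕ,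
    ∀ _ : Fact p.Prime, P₀ ≤ p →
      c * (p : ℝ) ^ (n + 1) ≤
        ({v : Fin (n + 1) → ZMod p | TypeAX14 (polyOf8 v) n}.ncard : ℝ) := by
  have hn0 : (0 : ℝ) < n := by exact_mod_cast (by omega : 0 < n)
  refine ⟨1 / (4 * n), by positivity, 3, fun p _ hp3 => ?_⟩
  have hp : p.Prime := Fact.out
  have hcard := ZMod.card p
  have h3 := irr_lower14 (k := ZMod p) (by rw [hcard]; exact hp3) hn
  have h4 := count_A14 (X : (ZMod p)[X]) n
  rw [hcard] at h3 h4
  have h5 : ({v : Fin (n + 1) → ZMod p | ∃ f : (ZMod p)[X], coeffs14 n f = v ∧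
      f.natDegree = n ∧ Irreducible (f.comp X)}).ncard ≤
      {v : Fin (n + 1) → ZMod p | TypeAX14 (polyOf8 v) n}.ncard := by
    apply Set.ncard_le_ncard _ (Set.toFinite _)
    rintro v ⟨f, rfl, hfn, hirr⟩
    change TypeAX14 (polyOf8 (coeffs14 n f)) n
    rw [polyOf_coeffs14 hfn]
    rw [comp_X] at hirr
    exact ⟨hirr, hfn⟩
  have h6 : ((p : ℝ) - 1) * ((family (X : (ZMod p)[X]) n).ncard : ℝ) ≤
      ({v : Fin (n + 1) → ZMod p | TypeAX14 (polyOf8 v) n}.ncard : ℝ) := by
    have h7 := h4.trans h5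
    have h8 : (((p - 1) * (family (X : (ZMod p)[X]) n).ncard : ℕ) : ℝ) =
        ((p : ℝ) - 1) * ((family (X : (ZMod p)[X]) n).ncard : ℝ) := by
      rw [Nat.cast_mul, Nat.cast_sub (by omega), Nat.cast_one]
    rw [← h8]
    exact_mod_cast h7
  refine le_trans ?_ h6
  have h7 : (p : ℝ) ^ n ≤ 2 * (n * ((family (X : (ZMod p)[X]) n).ncard : ℝ)) := by
    exact_mod_cast h3
  have hp3' : (3 : ℝ) ≤ p := by exact_mod_cast hp3
  rw [div_mul_eq_mul_div, one_mul, div_le_iff₀ (by positivity)]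
  have h8 : (0 : ℝ) ≤ ((family (X : (ZMod p)[X]) n).ncard : ℝ) := Nat.cast_nonneg _
  calc (p : ℝ) ^ (n + 1) = p * (p : ℝ) ^ n := by ring
    _ ≤ p * (2 * (n * ((family (X : (ZMod p)[X]) n).ncard : ℝ))) := by
        apply mul_le_mul_of_nonneg_left h7; linarith
    _ = 2 * p * (n * ((family (X : (ZMod p)[X]) n).ncard : ℝ)) := by ring
    _ ≤ 4 * (p - 1) * (n * ((family (X : (ZMod p)[X]) n).ncard : ℝ)) := by
        apply mul_le_mul_of_nonneg_right _ (by positivity)
        linarith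
    _ = _ := by ring

/-- The number of the residue classes of type B. -/
theorem count_typeBX14 (n : ℕ) (hn : 3 ≤ n) : ∃ c : ℝ, 0 < c ∧ ∃ P₀ : ℕ, ∀ p : ℕ,
    ∀ _ : Fact p.Prime, P₀ ≤ p →
      c * (p : ℝ) ^ (n + 1) ≤
        ({v : Fin (n + 1) → ZMod p | TypeBX14 (polyOf8 v) n}.ncard : ℝ) := by
  have hn0 : (0 : ℝ) < n := by exact_mod_cast (by omega : 0 < n)
  refine ⟨1 / (4 * n), by positivity, 3, fun p _ hp3 => ?_⟩
  have hp : p.Prime := Fact.out
  have hcard := ZMod.card p
  have h3 := irr_lower14 (k := ZMod p) (by rw [hcard]; exact hp3) (n := n - 1) (by omega)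
  have h4 := count_BX14 (k := ZMod p) hn
  rw [hcard] at h3 h4
  have h5 : ({v : Fin (n + 1) → ZMod p | ∃ f : (ZMod p)[X], coeffs14 n f = v ∧
      f.natDegree = n ∧ ∃ (b : ZMod p) (D₁ : (ZMod p)[X]), f = (X - C b) * D₁ ∧
        Irreducible D₁ ∧ D₁.natDegree = n - 1}).ncard ≤
      {v : Fin (n + 1) → ZMod p | TypeBX14 (polyOf8 v) n}.ncard := by
    apply Set.ncard_le_ncard _ (Set.toFinite _)
    rintro v ⟨f, rfl, hfn, b, D₁, hf, hirr, hd⟩
    change TypeBX14 (polyOf8 (coeffs14 n f)) n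
    rw [polyOf_coeffs14 hfn]
    exact ⟨b, D₁, hf, hirr, hd, hfn⟩
  have h6 : ((p : ℝ) - 1) * p * ((family (X : (ZMod p)[X]) (n - 1)).ncard : ℝ) ≤
      ({v : Fin (n + 1) → ZMod p | TypeBX14 (polyOf8 v) n}.ncard : ℝ) := by
    have h7 := h4.trans h5
    have h8 : (((p - 1) * p * (family (X : (ZMod p)[X]) (n - 1)).ncard : ℕ) : ℝ) =
        ((p : ℝ) - 1) * p * ((family (X : (ZMod p)[X]) (n - 1)).ncard : ℝ) := by
      rw [Nat.cast_mul, Nat.cast_mul, Nat.cast_sub (by omega), Nat.cast_one]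
    rw [← h8]
    exact_mod_cast h7
  refine le_trans ?_ h6
  have h7 : (p : ℝ) ^ (n - 1) ≤
      2 * (((n - 1 : ℕ) : ℝ) * ((family (X : (ZMod p)[X]) (n - 1)).ncard : ℝ)) := by
    exact_mod_cast h3
  have hp3' : (3 : ℝ) ≤ p := by exact_mod_cast hp3
  have h8 : (0 : ℝ) ≤ ((family (X : (ZMod p)[X]) (n - 1)).ncard : ℝ) := Nat.cast_nonneg _
  have h9 : (p : ℝ) ^ (n - 1) ≤ 2 * (n * ((family (X : (ZMod p)[X]) (n - 1)).ncard : ℝ)) := by
    refine h7.trans ?_
    have : ((n - 1 : ℕ) : ℝ) ≤ n := by exact_mod_cast Nat.sub_le _ _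
    nlinarith [mul_le_mul_of_nonneg_right this h8]
  rw [div_mul_eq_mul_div, one_mul, div_le_iff₀ (by positivity)]
  have h12 : (p : ℝ) ^ (n + 1) = p ^ 2 * (p : ℝ) ^ (n - 1) := by
    rw [← pow_add]
    congr 1
    omega
  have h13 : (p : ℝ) ^ 2 ≤ 2 * ((p - 1) * p) := by nlinarith
  calc (p : ℝ) ^ (n + 1) = p ^ 2 * (p : ℝ) ^ (n - 1) := h12
    _ ≤ 2 * ((p - 1) * p) * (2 * (n * ((family (X : (ZMod p)[X]) (n - 1)).ncard : ℝ))) := by
        apply mul_le_mul h13 h9 (by positivity)
        apply le_trans _ h13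
        positivity
    _ = _ := by ring

end Pool.Agent.Lib.MP_89bcae_ag

end

section

/-!
# Counting the polynomials with a simple collision, with a simple pole and with simple roots
-/

open Polynomial

open scoped Classical

set_option linter.unusedSimpArgs false
set_option linter.unusedVariables false
set_option linter.unusedSectionVars false
set_option linter.style.haveILetI false

namespace Pool.Agent.Lib.MP_89bcae_ag

section Count

variable {p : ℕ} [Fact p.Prime]

/-- The noncritical values. -/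
lemma noncritical14 {d : ℕ} (hd : d ≠ 0) (hp : d < p) {g : ℤ[X]} (hg : g.Monic)
    (hdeg : g.natDegree = d) :
    p - (d - 1) ≤ (Finset.univ.filter fun e : ZMod p =>
      (g.map (Int.castRingHom (ZMod p)) - C e).Separable).card := by
  have hpp : p.Prime := Fact.out
  have hder : derivative (g.map (Int.castRingHom (ZMod p))) ≠ 0 := by
    apply derivative_ne_zero14 (hg.map _)
    rw [hg.natDegree_map, hdeg, Ne, ZMod.natCast_eq_zero_iff]
    intro h
    have := Nat.le_of_dvd (by omega) h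
    omega
  have h1 := card_crit14 hder (Finset.univ.filter fun e : ZMod p =>
      ¬ (g.map (Int.castRingHom (ZMod p)) - C e).Separable)
    (fun e he => (Finset.mem_filter.mp he).2)
  rw [hg.natDegree_map, hdeg] at h1
  have h2 := Finset.card_filter_add_card_filter_not (s := (Finset.univ : Finset (ZMod p)))
    (fun e => (g.map (Int.castRingHom (ZMod p)) - C e).Separable)
  rw [Finset.card_univ, ZMod.card] at h2
  omega

theorem count_typeC_aux14 (m : ℕ) (hm : 1 ≤ m) {d : ℕ} (hd : d ≠ 0) (hdp : d < p) {g : ℤ[X]}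
    (hg : g.Monic) (hdeg : g.natDegree = d) :
    (p - 1) * (p - (d - 1)).choose m * p ^ (m + 2) ≤
      2 * {v : Fin (m + 2) → ZMod (p ^ 2) | TypeC8 p g (m + 1) v}.ncard := by
  have hp : p.Prime := Fact.out
  have : NeZero p := ⟨hp.ne_zero⟩
  have : NeZero (p ^ 2) := ⟨pow_ne_zero 2 hp.ne_zero⟩
  set g' := g.map (Int.castRingHom (ZMod p)) with hg'
  obtain ⟨A, hAdef⟩ : ∃ A : Finset (ZMod p),
      A = Finset.univ.filter fun e => (g' - C e).Separable := ⟨_, rfl⟩
  have hA : p - (d - 1) ≤ A.card := by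
    rw [hAdef]
    exact noncritical14 hd hdp hg hdeg
  set B := ((Finset.univ.filter fun c : ZMod p => c ≠ 0) ×ˢ A.powersetCard m).image
      (fun q => fun i : Fin (m + 2) => (polC8 q.1 q.2 (pick8 q.2)).coeff i) with hB
  have hBc : (p - 1) * (p - (d - 1)).choose m ≤ B.card := by
    rw [hB, card_polC8 m hm A]
    exact Nat.mul_le_mul_left _ (Nat.choose_le_choose m hA)
  obtain ⟨Q, hQ⟩ : ∃ Q : Finset (Fin (m + 2) → ZMod (p ^ 2)),
      Q = Finset.univ.filter fun v => red8 p v ∈ B := ⟨_, rfl⟩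
  have hlift : B.card * p ^ (m + 2) ≤ Q.card := by
    rw [hQ]
    convert card_lift8 (p := p) (m + 1) B
  refine (Nat.mul_le_mul_right _ hBc).trans (hlift.trans ?_)
  -- the translation
  let T : Finset (Fin (m + 2) → ZMod (p ^ 2)) := Finset.univ.filter fun v => TypeC8 p g (m + 1) v
  have hT : {v : Fin (m + 2) → ZMod (p ^ 2) | TypeC8 p g (m + 1) v}.ncard = T.card := by
    rw [← Set.ncard_coe_finset]
    congr 1
    ext v
    simp [T]
  rw [hT]
  have hsplit : (Q.filter (fun v => TypeC8 p g (m + 1) v)).card +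
      (Q.filter (fun v => ¬ TypeC8 p g (m + 1) v)).card = Q.card := by
    convert Finset.card_filter_add_card_filter_not (s := Q) (fun v => TypeC8 p g (m + 1) v)
  have hA1 : (Q.filter (fun v => TypeC8 p g (m + 1) v)).card ≤ T.card := by
    apply Finset.card_le_card
    intro v hv
    rw [Finset.mem_filter] at hv
    exact Finset.mem_filter.mpr ⟨Finset.mem_univ _, hv.2⟩
  have hA2 : (Q.filter (fun v => ¬ TypeC8 p g (m + 1) v)).card ≤ T.card := by
    apply Finset.card_le_card_of_injOn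
      (fun v => v + Pi.single (0 : Fin (m + 2)) (p : ZMod (p ^ 2)))
    · intro v hv
      rw [Finset.mem_coe, Finset.mem_filter, hQ, Finset.mem_filter] at hv
      obtain ⟨⟨-, hvB⟩, hvT⟩ := hv
      rw [hB, Finset.mem_image] at hvB
      obtain ⟨⟨c, S⟩, hq, hv⟩ := hvB
      rw [Finset.mem_product, Finset.mem_filter, Finset.mem_powersetCard] at hq
      have hc : c ≠ 0 := hq.1.2
      have hS : S.card = m := hq.2.2
      have hne : S.Nonempty := Finset.card_pos.mp (by omega)
      have hpm := pick_mem8 hne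
      have hSA : ∀ e ∈ S, (g' - C e).Separable := fun e he =>
        by
          have h8 := hq.2.1 he
          rw [hAdef, Finset.mem_filter] at h8
          exact h8.2
      obtain ⟨h1, h2⟩ := natDegree_polC8 hc S (pick8 S)
      have hred : ∀ v' : Fin (m + 2) → ZMod (p ^ 2), red8 p v' = red8 p v →
          ∑ i : Fin (m + 2), v' i * (((pick8 S).val : ℤ) : ZMod (p ^ 2)) ^ (i : ℕ) ≠ 0 →
          TypeC8 p g (m + 1) v' := by
        intro v' hv' hne'
        have hpick : ((((pick8 S).val : ℤ)) : ZMod p) = pick8 S := by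
          push_cast
          exact ZMod.natCast_zmod_val _
        refine ⟨((pick8 S).val : ℤ), C c * ∏ e ∈ S.erase (pick8 S), (X - C e), ?_, ?_, hne', ?_⟩
        · rw [hpick, hv', ← hv, ← polC8_eq hpm]
          exact polyOf_coeff8 (show (polC8 c S (pick8 S)).natDegree ≤ m + 1 by omega)
        · rw [hpick]
          exact separable_polC8 hc hpm hSA
        · rw [hv', ← hv]
          show (polC8 c S (pick8 S)).coeff (Fin.last (m + 1) : ℕ) ≠ 0
          rw [Fin.val_last]
          have h5 : m + 1 = (polC8 c S (pick8 S)).natDegree := by omega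
          rw [h5, coeff_natDegree, h2]
          exact hc
      have h0 : ∑ i : Fin (m + 2), v i * (((pick8 S).val : ℤ) : ZMod (p ^ 2)) ^ (i : ℕ) = 0 := by
        by_contra h0
        exact hvT (hred v rfl h0)
      rw [Finset.mem_coe, Finset.mem_filter]
      refine ⟨Finset.mem_univ _, hred _ ?_ ?_⟩
      · funext i
        show ZMod.castHom (dvd_pow_self p two_ne_zero) (ZMod p)
          ((v + Pi.single (0 : Fin (m + 2)) (p : ZMod (p ^ 2)) : Fin (m + 2) → ZMod (p ^ 2)) i) =
            ZMod.castHom (dvd_pow_self p two_ne_zero) (ZMod p) (v i)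
        rw [Pi.add_apply, map_add]
        by_cases hi : i = 0
        · rw [hi, Pi.single_eq_same, map_natCast, ZMod.natCast_self, add_zero]
        · rw [Pi.single_eq_of_ne hi, map_zero, add_zero]
      · have h6 : ∑ i : Fin (m + 2),
            (v + Pi.single (0 : Fin (m + 2)) (p : ZMod (p ^ 2)) : Fin (m + 2) → ZMod (p ^ 2)) i *
            (((pick8 S).val : ℤ) : ZMod (p ^ 2)) ^ (i : ℕ) = p := by
          simp only [Pi.add_apply, add_mul]
          rw [Finset.sum_add_distrib, h0, zero_add, Finset.sum_eq_single 0]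
          · rw [Pi.single_eq_same, Fin.val_zero, pow_zero, mul_one]
          · intro i _ hi
            rw [Pi.single_eq_of_ne hi, zero_mul]
          · intro h; exact absurd (Finset.mem_univ _) h
        rw [h6]
        intro h7
        rw [ZMod.natCast_eq_zero_iff] at h7
        have h8 := Nat.le_of_dvd hp.pos h7
        have h9 := hp.two_le
        nlinarith
    · intro v _ v' _ h
      exact add_right_cancel h
  omega

/-! ### Simple roots -/

/-- The polynomial with the leading coefficient `c` and the simple roots `S`. -/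
noncomputable def polS14 (c : ZMod p) (S : Finset (ZMod p)) : (ZMod p)[X] :=
  C c * ∏ e ∈ S, (X - C e)

theorem natDegree_polS14 {c : ZMod p} (hc : c ≠ 0) (S : Finset (ZMod p)) :
    (polS14 c S).natDegree = S.card ∧ (polS14 c S).leadingCoeff = c := by
  have h1 : (∏ e ∈ S, (X - C e : (ZMod p)[X])).Monic := monic_prod_X_sub_C _ _
  unfold polS14
  constructor
  · rw [natDegree_C_mul hc, natDegree_prod_of_monic _ _ (fun e _ => monic_X_sub_C e)]
    simp
  · rw [leadingCoeff_mul, leadingCoeff_C, h1.leadingCoeff, mul_one]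

theorem roots_polS14 {c : ZMod p} (hc : c ≠ 0) (S : Finset (ZMod p)) :
    (polS14 c S).roots.toFinset = S := by
  unfold polS14
  rw [roots_C_mul _ hc, roots_prod_X_sub_C]
  ext x
  simp

theorem separable_polS14 {c : ZMod p} (hc : c ≠ 0) {S : Finset (ZMod p)}
    {g : (ZMod p)[X]} (hS : ∀ e ∈ S, (g - C e).Separable) :
    ((polS14 c S).comp g).Separable := by
  have h1 : (polS14 c S).comp g = C c * ∏ e ∈ S, (g - C e) := by
    unfold polS14
    rw [mul_comp, C_comp, prod_comp]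
    congr 1
    exact Finset.prod_congr rfl fun e _ => by rw [sub_comp, X_comp, C_comp]
  rw [h1]
  have h2 : (∏ e ∈ S, (g - C e)).Separable := by
    apply separable_prod'
    · intro x hx y hy hxy
      refine ⟨C ((y - x)⁻¹), -C ((y - x)⁻¹), ?_⟩
      have h3 : C ((y - x)⁻¹) * C (y - x) = (1 : (ZMod p)[X]) := by
        rw [← C_mul, inv_mul_cancel₀ (sub_ne_zero.mpr (Ne.symm hxy)), C_1]
      rw [C_sub] at h3
      linear_combination h3
    · exact hS
  have h3 : (C c : (ZMod p)[X]).Separable := separable_C c |>.mpr (isUnit_iff_ne_zero.mpr hc)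
  refine h3.mul h2 ⟨C c⁻¹, 0, ?_⟩
  rw [zero_mul, add_zero, ← C_mul, inv_mul_cancel₀ hc, C_1]

/-- The number of the polynomials modulo `p` with simple roots in a given set. -/
theorem card_polS14 (m n : ℕ) (hmn : m ≤ n) (A : Finset (ZMod p)) :
    (((Finset.univ.filter fun c : ZMod p => c ≠ 0) ×ˢ A.powersetCard m).image
      (fun q => fun i : Fin (n + 1) => (polS14 q.1 q.2).coeff i)).card =
      (p - 1) * A.card.choose m := by
  have hp : p.Prime := Fact.out
  have : NeZero p := ⟨hp.ne_zero⟩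
  rw [Finset.card_image_of_injOn, Finset.card_product, Finset.card_powersetCard]
  · congr 1
    rw [Finset.filter_ne', Finset.card_erase_of_mem (Finset.mem_univ _), Finset.card_univ,
      ZMod.card]
  · rintro ⟨c, S⟩ hq ⟨c', S'⟩ hq' h
    rw [Finset.mem_coe, Finset.mem_product, Finset.mem_filter, Finset.mem_powersetCard] at hq hq'
    have hc : c ≠ 0 := hq.1.2
    have hc' : c' ≠ 0 := hq'.1.2
    have hS : S.card = m := hq.2.2
    have hS' : S'.card = m := hq'.2.2
    obtain ⟨h1, h2⟩ := natDegree_polS14 hc S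
    obtain ⟨h1', h2'⟩ := natDegree_polS14 hc' S'
    have h3 : polS14 c S = polS14 c' S' := by
      rw [← polyOf_coeff8 (n := n) (D := polS14 c S) (by omega),
        ← polyOf_coeff8 (n := n) (D := polS14 c' S') (by omega)]
      exact congrArg polyOf8 h
    have h4 : c = c' := by rw [← h2, h3, h2']
    have h5 : S = S' := by
      rw [← roots_polS14 hc S, h3, roots_polS14 hc' S']
    rw [h4, h5]

/-- Type S. -/
theorem count_typeS_aux14 (n : ℕ) {d : ℕ} (hd : d ≠ 0) (hdp : d < p) {g : ℤ[X]}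
    (hg : g.Monic) (hdeg : g.natDegree = d) :
    (p - 1) * (p - (d - 1)).choose n ≤ {v : Fin (n + 1) → ZMod p |
      TypeS14 (g.map (Int.castRingHom (ZMod p))) (polyOf8 v) n}.ncard := by
  set g' := g.map (Int.castRingHom (ZMod p)) with hg'
  obtain ⟨A, hAdef⟩ : ∃ A : Finset (ZMod p),
      A = Finset.univ.filter fun e => (g' - C e).Separable := ⟨_, rfl⟩
  have hA : p - (d - 1) ≤ A.card := by
    rw [hAdef]
    exact noncritical14 hd hdp hg hdeg
  refine (Nat.mul_le_mul_left _ (Nat.choose_le_choose n hA)).trans ?_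
  rw [← card_polS14 n n le_rfl A, ← Set.ncard_coe_finset]
  apply Set.ncard_le_ncard _ (Set.toFinite _)
  intro v hv
  rw [Finset.mem_coe, Finset.mem_image] at hv
  obtain ⟨⟨c, S⟩, hq, hv⟩ := hv
  rw [Finset.mem_product, Finset.mem_filter, Finset.mem_powersetCard] at hq
  have hc : c ≠ 0 := hq.1.2
  have hS : S.card = n := hq.2.2
  have hSA : ∀ e ∈ S, (g' - C e).Separable := fun e he => by
    have h8 := hq.2.1 he
    rw [hAdef, Finset.mem_filter] at h8
    exact h8.2
  obtain ⟨h1, h2⟩ := natDegree_polS14 hc S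
  have h3 : polyOf8 v = polS14 c S := by
    rw [← hv]
    exact polyOf_coeff8 (show (polS14 c S).natDegree ≤ n by omega)
  refine ⟨by rw [h3, h1, hS], ?_⟩
  rw [h3]
  exact separable_polS14 hc hSA

/-! ### A simple pole -/

/-- The residue classes modulo `p ^ 2` of the polynomials `D` of degree `n` for which `p` divides the
leading coefficient once, the reduction of `D` has degree `n - 1`, and for the reduction `D(g)` is
separable. -/
def TypeE14 (p : ℕ) (g : ℤ[X]) (n : ℕ) (v : Fin (n + 1) → ZMod (p ^ 2)) : Prop :=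
  red8 p v (Fin.last n) = 0 ∧ v (Fin.last n) ≠ 0 ∧ (polyOf8 (red8 p v)).natDegree = n - 1 ∧
    ((polyOf8 (red8 p v)).comp (g.map (Int.castRingHom (ZMod p)))).Separable

/-- The same for an integral polynomial. -/
def IsPoleZ14 (p : ℕ) (g D : ℤ[X]) (n : ℕ) : Prop :=
  (p : ℤ) ∣ D.coeff n ∧ ¬ (p : ℤ) ^ 2 ∣ D.coeff n ∧ ¬ (p : ℤ) ∣ D.coeff (n - 1) ∧
    ((D.map (Int.castRingHom (ZMod p))).comp (g.map (Int.castRingHom (ZMod p)))).Separable

theorem isPoleZ14_of_typeE14 {g : ℤ[X]} {n : ℕ} (hn : 2 ≤ n) {D : ℤ[X]} (hD : D.natDegree ≤ n)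
    (h : TypeE14 p g n (fun i => (D.coeff i : ZMod (p ^ 2)))) : IsPoleZ14 p g D n := by
  have hp : p.Prime := Fact.out
  obtain ⟨h1, h2, h3, h4⟩ := h
  have hred : red8 p (fun i : Fin (n + 1) => (D.coeff i : ZMod (p ^ 2))) =
      fun i : Fin (n + 1) => (D.map (Int.castRingHom (ZMod p))).coeff i := by
    funext i
    unfold red8
    rw [map_intCast, coeff_map]
    rfl
  rw [hred, polyOf_coeff8 (natDegree_map_le.trans hD)] at h3 h4
  rw [hred] at h1
  refine ⟨?_, ?_, ?_, h4⟩
  · change (D.map (Int.castRingHom (ZMod p))).coeff (Fin.last n : ℕ) = 0 at h1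
    rw [Fin.val_last, coeff_map] at h1
    exact (ZMod.intCast_zmod_eq_zero_iff_dvd _ _).mp h1
  · intro hdvd
    apply h2
    change ((D.coeff (Fin.last n : ℕ) : ℤ) : ZMod (p ^ 2)) = 0
    rw [Fin.val_last, ZMod.intCast_zmod_eq_zero_iff_dvd]
    exact_mod_cast hdvd
  · intro hdvd
    have h5 : (D.map (Int.castRingHom (ZMod p))).coeff (n - 1) = 0 := by
      rw [coeff_map]
      exact (ZMod.intCast_zmod_eq_zero_iff_dvd _ _).mpr hdvd
    rw [← h3, coeff_natDegree, leadingCoeff_eq_zero] at h5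
    rw [h5, natDegree_zero] at h3
    omega

theorem count_typeE_aux14 (m : ℕ) (hm : 1 ≤ m) {d : ℕ} (hd : d ≠ 0) (hdp : d < p) {g : ℤ[X]}
    (hg : g.Monic) (hdeg : g.natDegree = d) :
    (p - 1) * (p - (d - 1)).choose m * p ^ (m + 2) ≤
      2 * {v : Fin (m + 2) → ZMod (p ^ 2) | TypeE14 p g (m + 1) v}.ncard := by
  have hp : p.Prime := Fact.out
  have : NeZero p := ⟨hp.ne_zero⟩
  have : NeZero (p ^ 2) := ⟨pow_ne_zero 2 hp.ne_zero⟩
  set g' := g.map (Int.castRingHom (ZMod p)) with hg'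
  obtain ⟨A, hAdef⟩ : ∃ A : Finset (ZMod p),
      A = Finset.univ.filter fun e => (g' - C e).Separable := ⟨_, rfl⟩
  have hA : p - (d - 1) ≤ A.card := by
    rw [hAdef]
    exact noncritical14 hd hdp hg hdeg
  set B := ((Finset.univ.filter fun c : ZMod p => c ≠ 0) ×ˢ A.powersetCard m).image
      (fun q => fun i : Fin (m + 2) => (polS14 q.1 q.2).coeff i) with hB
  have hBc : (p - 1) * (p - (d - 1)).choose m ≤ B.card := by
    rw [hB, card_polS14 m (m + 1) (by omega) A]
    exact Nat.mul_le_mul_left _ (Nat.choose_le_choose m hA)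
  obtain ⟨Q, hQ⟩ : ∃ Q : Finset (Fin (m + 2) → ZMod (p ^ 2)),
      Q = Finset.univ.filter fun v => red8 p v ∈ B := ⟨_, rfl⟩
  have hlift : B.card * p ^ (m + 2) ≤ Q.card := by
    rw [hQ]
    convert card_lift8 (p := p) (m + 1) B
  refine (Nat.mul_le_mul_right _ hBc).trans (hlift.trans ?_)
  -- the translation
  let T : Finset (Fin (m + 2) → ZMod (p ^ 2)) := Finset.univ.filter fun v => TypeE14 p g (m + 1) v
  have hT : {v : Fin (m + 2) → ZMod (p ^ 2) | TypeE14 p g (m + 1) v}.ncard = T.card := by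
    rw [← Set.ncard_coe_finset]
    congr 1
    ext v
    simp [T]
  rw [hT]
  have hsplit : (Q.filter (fun v => TypeE14 p g (m + 1) v)).card +
      (Q.filter (fun v => ¬ TypeE14 p g (m + 1) v)).card = Q.card := by
    convert Finset.card_filter_add_card_filter_not (s := Q) (fun v => TypeE14 p g (m + 1) v)
  have hA1 : (Q.filter (fun v => TypeE14 p g (m + 1) v)).card ≤ T.card := by
    apply Finset.card_le_card
    intro v hv
    rw [Finset.mem_filter] at hv
    exact Finset.mem_filter.mpr ⟨Finset.mem_univ _, hv.2⟩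
  have hA2 : (Q.filter (fun v => ¬ TypeE14 p g (m + 1) v)).card ≤ T.card := by
    apply Finset.card_le_card_of_injOn
      (fun v => v + Pi.single (Fin.last (m + 1)) (p : ZMod (p ^ 2)))
    · intro v hv
      rw [Finset.mem_coe, Finset.mem_filter, hQ, Finset.mem_filter] at hv
      obtain ⟨⟨-, hvB⟩, hvT⟩ := hv
      rw [hB, Finset.mem_image] at hvB
      obtain ⟨⟨c, S⟩, hq, hv⟩ := hvB
      rw [Finset.mem_product, Finset.mem_filter, Finset.mem_powersetCard] at hq
      have hc : c ≠ 0 := hq.1.2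
      have hS : S.card = m := hq.2.2
      have hSA : ∀ e ∈ S, (g' - C e).Separable := fun e he => by
        have h8 := hq.2.1 he
        rw [hAdef, Finset.mem_filter] at h8
        exact h8.2
      obtain ⟨h1, h2⟩ := natDegree_polS14 hc S
      have hpol : polyOf8 (red8 p v) = polS14 c S := by
        rw [← hv]
        exact polyOf_coeff8 (show (polS14 c S).natDegree ≤ m + 1 by omega)
      have hlast : red8 p v (Fin.last (m + 1)) = 0 := by
        rw [← hv]
        show (polS14 c S).coeff (Fin.last (m + 1) : ℕ) = 0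
        rw [Fin.val_last]
        exact coeff_eq_zero_of_natDegree_lt (by omega)
      have hred : ∀ v' : Fin (m + 2) → ZMod (p ^ 2), red8 p v' = red8 p v →
          v' (Fin.last (m + 1)) ≠ 0 → TypeE14 p g (m + 1) v' := by
        intro v' hv' hne'
        refine ⟨by rw [hv', hlast], hne', ?_, ?_⟩
        · rw [hv', hpol, h1, hS]
          rfl
        · rw [hv', hpol]
          exact separable_polS14 hc hSA
      have h0 : v (Fin.last (m + 1)) = 0 := by
        by_contra h0
        exact hvT (hred v rfl h0)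
      rw [Finset.mem_coe, Finset.mem_filter]
      refine ⟨Finset.mem_univ _, hred _ ?_ ?_⟩
      · funext i
        show ZMod.castHom (dvd_pow_self p two_ne_zero) (ZMod p)
          ((v + Pi.single (Fin.last (m + 1)) (p : ZMod (p ^ 2)) :
            Fin (m + 2) → ZMod (p ^ 2)) i) =
            ZMod.castHom (dvd_pow_self p two_ne_zero) (ZMod p) (v i)
        rw [Pi.add_apply, map_add]
        by_cases hi : i = Fin.last (m + 1)
        · rw [hi, Pi.single_eq_same, map_natCast, ZMod.natCast_self, add_zero]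
        · rw [Pi.single_eq_of_ne hi, map_zero, add_zero]
      · show (v + Pi.single (Fin.last (m + 1)) (p : ZMod (p ^ 2)) :
            Fin (m + 2) → ZMod (p ^ 2)) (Fin.last (m + 1)) ≠ 0
        rw [Pi.add_apply, h0, Pi.single_eq_same, zero_add]
        intro h7
        rw [ZMod.natCast_eq_zero_iff] at h7
        have h8 := Nat.le_of_dvd hp.pos h7
        have h9 := hp.two_le
        nlinarith
    · intro v _ v' _ h
      exact add_right_cancel h
  omega

end Count

/-- The common numerical estimate. -/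
lemma numeric_lower14 {p m d : ℕ} (hm : 1 ≤ m) (hp : 2 * m + 2 * d + 2 ≤ p) :
    (p : ℝ) ^ (m + 1) / (2 ^ (m + 1) * m.factorial) ≤
      ((p - 1 : ℕ) : ℝ) * ((p - (d - 1)).choose m : ℝ) := by
  have h2 : ((p - (d - 1) + 1 - m : ℕ) : ℝ) ^ m ≤ m.factorial * (p - (d - 1)).choose m := by
    exact_mod_cast Nat.pow_sub_le_descFactorial (p - (d - 1)) m |>.trans_eq
      (Nat.descFactorial_eq_factorial_mul_choose _ _)
  have h3 : (p : ℝ) / 2 ≤ ((p - (d - 1) + 1 - m : ℕ) : ℝ) := by
    have h4 : p ≤ 2 * (p - (d - 1) + 1 - m) := by omega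
    have h5 : (p : ℝ) ≤ 2 * ((p - (d - 1) + 1 - m : ℕ) : ℝ) := by exact_mod_cast h4
    linarith
  have h4 : (p : ℝ) / 2 ≤ ((p - 1 : ℕ) : ℝ) := by
    have h4 : p ≤ 2 * (p - 1) := by omega
    have h5 : (p : ℝ) ≤ 2 * ((p - 1 : ℕ) : ℝ) := by exact_mod_cast h4
    linarith
  have h5 : ((p : ℝ) / 2) ^ m ≤ m.factorial * (p - (d - 1)).choose m :=
    (pow_le_pow_left₀ (by positivity) h3 m).trans h2
  have hf : (0 : ℝ) < m.factorial := by exact_mod_cast m.factorial_pos
  rw [div_le_iff₀ (by positivity)]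
  have h8 : ((p : ℝ) / 2) * ((p : ℝ) / 2) ^ m ≤
      ((p - 1 : ℕ) : ℝ) * (m.factorial * (p - (d - 1)).choose m) :=
    mul_le_mul h4 h5 (by positivity) (by positivity)
  have h9 : ((p : ℝ) / 2) * ((p : ℝ) / 2) ^ m = (p : ℝ) ^ (m + 1) / 2 ^ (m + 1) := by
    rw [← pow_succ', div_pow]
  rw [h9, div_le_iff₀ (by positivity)] at h8
  linarith

/-- **The number of the residue classes with a simple collision.** -/
theorem count_typeC14 (n : ℕ) (hn : 2 ≤ n) (d : ℕ) (hd : d ≠ 0) : ∃ c : ℝ, 0 < c ∧ ∃ P0 : ℕ,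
    ∀ p : ℕ, p.Prime → P0 ≤ p → ∀ g : ℤ[X], g.Monic → g.natDegree = d →
      c / p * ((p : ℝ) ^ 2) ^ (n + 1) ≤
        ({v : Fin (n + 1) → ZMod (p ^ 2) | TypeC8 p g n v}.ncard : ℝ) := by
  obtain ⟨m, rfl⟩ : ∃ m, n = m + 1 := ⟨n - 1, by omega⟩
  have hm : 1 ≤ m := by omega
  refine ⟨1 / (2 ^ (m + 2) * m.factorial), by positivity, 2 * m + 2 * d + 2,
    fun p hp hP g hg hdeg => ?_⟩
  have : Fact p.Prime := ⟨hp⟩
  have h1 := count_typeC_aux14 (p := p) m hm hd (by omega) hg hdeg
  have h7 := numeric_lower14 hm hP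
  have hp0 : (0 : ℝ) < p := by exact_mod_cast hp.pos
  have hf : (0 : ℝ) < m.factorial := by exact_mod_cast m.factorial_pos
  have h6 : (((p - 1 : ℕ) : ℝ) * ((p - (d - 1)).choose m : ℝ)) * (p : ℝ) ^ (m + 2) ≤
      2 * ({v : Fin (m + 2) → ZMod (p ^ 2) | TypeC8 p g (m + 1) v}.ncard : ℝ) := by
    exact_mod_cast h1
  have h8 : (p : ℝ) ^ (m + 1) / (2 ^ (m + 1) * m.factorial) * (p : ℝ) ^ (m + 2) ≤
      2 * ({v : Fin (m + 2) → ZMod (p ^ 2) | TypeC8 p g (m + 1) v}.ncard : ℝ) :=
    (mul_le_mul_of_nonneg_right h7 (by positivity)).trans h6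
  have h9 : 1 / (2 ^ (m + 2) * (m.factorial : ℝ)) / p * ((p : ℝ) ^ 2) ^ (m + 1 + 1) =
      (p : ℝ) ^ (m + 1) / (2 ^ (m + 1) * m.factorial) * (p : ℝ) ^ (m + 2) / 2 := by
    field_simp
    ring
  rw [h9]
  linarith

/-- **The number of the residue classes with a simple pole.** -/
theorem count_typeE14 (n : ℕ) (hn : 2 ≤ n) (d : ℕ) (hd : d ≠ 0) : ∃ c : ℝ, 0 < c ∧ ∃ P0 : ℕ,
    ∀ p : ℕ, p.Prime → P0 ≤ p → ∀ g : ℤ[X], g.Monic → g.natDegree = d →
      c / p * ((p : ℝ) ^ 2) ^ (n + 1) ≤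
        ({v : Fin (n + 1) → ZMod (p ^ 2) | TypeE14 p g n v}.ncard : ℝ) := by
  obtain ⟨m, rfl⟩ : ∃ m, n = m + 1 := ⟨n - 1, by omega⟩
  have hm : 1 ≤ m := by omega
  refine ⟨1 / (2 ^ (m + 2) * m.factorial), by positivity, 2 * m + 2 * d + 2,
    fun p hp hP g hg hdeg => ?_⟩
  have : Fact p.Prime := ⟨hp⟩
  have h1 := count_typeE_aux14 (p := p) m hm hd (by omega) hg hdeg
  have h7 := numeric_lower14 hm hP
  have hp0 : (0 : ℝ) < p := by exact_mod_cast hp.pos
  have hf : (0 : ℝ) < m.factorial := by exact_mod_cast m.factorial_pos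
  have h6 : (((p - 1 : ℕ) : ℝ) * ((p - (d - 1)).choose m : ℝ)) * (p : ℝ) ^ (m + 2) ≤
      2 * ({v : Fin (m + 2) → ZMod (p ^ 2) | TypeE14 p g (m + 1) v}.ncard : ℝ) := by
    exact_mod_cast h1
  have h8 : (p : ℝ) ^ (m + 1) / (2 ^ (m + 1) * m.factorial) * (p : ℝ) ^ (m + 2) ≤
      2 * ({v : Fin (m + 2) → ZMod (p ^ 2) | TypeE14 p g (m + 1) v}.ncard : ℝ) :=
    (mul_le_mul_of_nonneg_right h7 (by positivity)).trans h6
  have h9 : 1 / (2 ^ (m + 2) * (m.factorial : ℝ)) / p * ((p : ℝ) ^ 2) ^ (m + 1 + 1) =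
      (p : ℝ) ^ (m + 1) / (2 ^ (m + 1) * m.factorial) * (p : ℝ) ^ (m + 2) / 2 := by
    field_simp
    ring
  rw [h9]
  linarith

/-- **The number of the residue classes with simple roots.** -/
theorem count_typeS14 (n : ℕ) (hn : 1 ≤ n) (d : ℕ) (hd : d ≠ 0) : ∃ c : ℝ, 0 < c ∧ ∃ P0 : ℕ,
    ∀ p : ℕ, ∀ _ : Fact p.Prime, P0 ≤ p → ∀ g : ℤ[X], g.Monic → g.natDegree = d →
      c * (p : ℝ) ^ (n + 1) ≤ ({v : Fin (n + 1) → ZMod p |
        TypeS14 (g.map (Int.castRingHom (ZMod p))) (polyOf8 v) n}.ncard : ℝ) := by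
  refine ⟨1 / (2 ^ (n + 1) * n.factorial), by positivity, 2 * n + 2 * d + 2,
    fun p _ hP g hg hdeg => ?_⟩
  have h1 := count_typeS_aux14 (p := p) n hd (by omega) hg hdeg
  have h7 := numeric_lower14 hn hP
  have h6 : ((p - 1 : ℕ) : ℝ) * ((p - (d - 1)).choose n : ℝ) ≤
      ({v : Fin (n + 1) → ZMod p |
        TypeS14 (g.map (Int.castRingHom (ZMod p))) (polyOf8 v) n}.ncard : ℝ) := by
    exact_mod_cast h1
  refine le_trans (le_of_eq ?_) (h7.trans h6)
  ring

end Pool.Agent.Lib.MP_89bcae_ag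

end

section

/-!
# Frobenius elements acting on the roots of `D`
-/

open Polynomial

open scoped Classical

set_option linter.unusedSimpArgs false
set_option linter.unusedVariables false
set_option linter.unusedSectionVars false
set_option linter.style.haveILetI false

namespace Pool.Agent.Lib.MP_89bcae_ag

section Frob

variable {R K F κ : Type*} [CommRing R] [IsDomain R] [IsIntegrallyClosed R] [Field K]
  [Algebra R K] [IsFractionRing R K] [Field F] [Algebra K F] [Algebra R F] [IsScalarTower R K F]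
  [IsAlgClosed F] [Algebra.IsAlgebraic K F]
  [Field κ] [Fintype κ]

variable (K F) in
/-- A Frobenius element which fixes one root and is transitive on the other ones. -/
theorem frob_typeBX14 {π : R →+* κ} (hπ : Function.Surjective π) {D : R[X]}
    (hu : IsUnit D.leadingCoeff) (hsep : (D.map (algebraMap R K)).Separable) {b : κ} {D₁ : κ[X]}
    (hD : D.map π = (X - C b) * D₁) (hirr : Irreducible D₁) (hdeg : 2 ≤ D₁.natDegree) :
    ∃ (φ : F ≃ₐ[K] F) (z : F), aeval z D = 0 ∧ φ z = z ∧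
      ∀ x y : F, aeval x D = 0 → aeval y D = 0 → x ≠ z → y ≠ z → ∃ i : ℕ, (φ ^ i) x = y := by
  have hinjR : Function.Injective (algebraMap R F) := by
    rw [IsScalarTower.algebraMap_eq R K F]
    exact (algebraMap K F).injective.comp (IsFractionRing.injective R K)
  have hfaith : FaithfulSMul R F := (faithfulSMul_iff_algebraMap_injective R F).mpr hinjR
  obtain ⟨ρ, φ, hρ, hφ⟩ := exists_frob_roots14 (F := F) (Fκ := AlgebraicClosure κ) hπ hu hsep
  set Fκ := AlgebraicClosure κ with hFκ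
  set β : Fκ := algebraMap κ Fκ b with hβ
  have hD1 : D₁.eval b ≠ 0 := by
    intro h0
    have h3 : D₁.natDegree = 1 :=
      natDegree_eq_of_degree_eq_some (degree_eq_one_of_irreducible_of_root hirr h0)
    omega
  have hDβ : aeval β D₁ ≠ 0 := by
    rw [hβ, aeval_algebraMap_apply, coe_aeval_eq_eval]
    exact (_root_.map_ne_zero _).mpr hD1
  have hint : ∀ x : F, aeval x D = 0 → IsIntegral R x := fun x hx => integral_root14 hu hx
  -- the root `z`
  obtain ⟨z, hz, hzr, hzβ⟩ := exists_lift_root14 hρ hu (β := β) (by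
    rw [hD, map_mul, map_sub, aeval_X, aeval_C, hβ, sub_self, zero_mul])
  have hsimple : aeval β (derivative (D.map π)) ≠ 0 := by
    rw [hD, derivative_mul, derivative_sub, derivative_X, derivative_C, sub_zero, one_mul, map_add,
      map_mul, map_sub, aeval_X, aeval_C, hβ, sub_self, zero_mul, add_zero]
    exact hDβ
  have hkey : ∀ (x : F) (hx : aeval x D = 0), x ≠ z → aeval (ρ ⟨x, hint x hx⟩) D₁ = 0 := by
    intro x hx hne
    have h1 := red_root14 hρ (hint x hx) hx
    rw [hD, map_mul] at h1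
    rcases mul_eq_zero.mp h1 with h2 | h2
    · exfalso
      apply hne
      rw [map_sub, aeval_X, aeval_C, sub_eq_zero] at h2
      exact eq_of_red14 hρ (f := D) (hint x hx) hz hx hzr (by rw [h2, hzβ])
        (by rw [h2]; exact hsimple)
    · exact h2
  refine ⟨φ, z, hzr, ?_, ?_⟩
  · obtain ⟨h1, h2, h3⟩ := hφ 1 z hzr hz
    rw [pow_one] at h1 h2
    simp only [pow_one] at h3
    have h4 : frob8 κ Fκ β = β := by rw [hβ, AlgEquiv.commutes]
    refine eq_of_red14 hρ h2 hz h1 hzr (by rw [h3, hzβ, h4]) (by rw [h3, hzβ, h4]; exact hsimple)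
  · intro x y hx hy hxz hyz
    obtain ⟨i, -, hi⟩ := exists_frob8_pow hirr (hkey x hx hxz) (hkey y hy hyz)
    obtain ⟨h1, h2, h3⟩ := hφ i x hx (hint x hx)
    refine ⟨i, eq_of_red14 hρ h2 (hint y hy) h1 hy (by rw [h3, hi]) ?_⟩
    have hsepκ : D₁.Separable := PerfectField.separable_of_irreducible hirr
    have hr : aeval (ρ ⟨(φ ^ i) x, h2⟩) D₁ = 0 := by
      rw [h3, ← hi]
      exact hkey y hy hyz
    have hder : aeval (ρ ⟨(φ ^ i) x, h2⟩) (derivative D₁) ≠ 0 := by
      intro h4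
      obtain ⟨a', b', hab⟩ := hsepκ
      have h5 := congrArg (aeval (ρ ⟨(φ ^ i) x, h2⟩)) hab
      rw [map_add, map_mul, map_mul, hr, h4, mul_zero, mul_zero, add_zero, map_one] at h5
      exact zero_ne_one h5
    rw [hD, derivative_mul, map_add, map_mul, map_mul, hr, mul_zero, zero_add]
    apply mul_ne_zero _ hder
    rw [map_sub, aeval_X, aeval_C, sub_ne_zero]
    intro h4
    apply hDβ
    rw [hβ, ← h4]
    exact hr

end Frob

section Int

variable {K F : Type*} [Field K] [Field F] [Algebra K F] [IsAlgClosed F] [Algebra.IsAlgebraic K F]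

/-- The degree and the leading coefficient. -/
lemma lead_of_red14 {p : ℕ} [Fact p.Prime] {D : ℤ[X]} {n : ℕ} (hD : D.natDegree ≤ n) (hn : 1 ≤ n)
    (h : (D.map (Int.castRingHom (ZMod p))).natDegree = n) :
    D.natDegree = n ∧ (D.leadingCoeff : ZMod p) ≠ 0 := by
  have h6 : D.natDegree = n := le_antisymm hD (h ▸ natDegree_map_le)
  refine ⟨h6, ?_⟩
  have h7 : (D.leadingCoeff : ZMod p) = (D.map (Int.castRingHom (ZMod p))).leadingCoeff := by
    rw [leadingCoeff, leadingCoeff, h, h6, coeff_map]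
    rfl
  rw [h7, leadingCoeff_ne_zero]
  intro h8
  rw [h8, natDegree_zero] at h
  omega

/-- Type A over a ring with residue field `ZMod p`. -/
theorem typeAX_of_ring14 (R : Type*) [CommRing R] [IsDomain R] [IsIntegrallyClosed R]
    [Algebra R K] [IsFractionRing R K] {p : ℕ} [Fact p.Prime] (π : R →+* ZMod p)
    (hπ : Function.Surjective π) (hunit : ∀ z : ℤ, (z : ZMod p) ≠ 0 → IsUnit (z : R))
    [CharZero K] {D : ℤ[X]} {n : ℕ} (hD : D.natDegree ≤ n) (hn : 1 ≤ n)
    (h : TypeAX14 (D.map (Int.castRingHom (ZMod p))) n) :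
    ∃ φ : F ≃ₐ[K] F, ∀ x y : F, aeval x (D.map (Int.castRingHom K)) = 0 →
      aeval y (D.map (Int.castRingHom K)) = 0 → ∃ i : ℕ, (φ ^ i) x = y := by
  obtain ⟨hirr, hdn⟩ := h
  obtain ⟨hDn, hlc⟩ := lead_of_red14 hD hn hdn
  letI : Algebra R F := ((algebraMap K F).comp (algebraMap R K)).toAlgebra
  haveI : IsScalarTower R K F := IsScalarTower.of_algebraMap_eq fun _ => rfl
  have hRK : (algebraMap R K).comp (Int.castRingHom R) = Int.castRingHom K := RingHom.ext_int _ _
  have hinjZ : Function.Injective (Int.castRingHom R) := by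
    have h1 : Function.Injective ((algebraMap R K).comp (Int.castRingHom R)) := by
      rw [hRK]
      exact (Int.castRingHom K).injective_int
    exact Function.Injective.of_comp h1
  haveI hfaith : FaithfulSMul R F := (faithfulSMul_iff_algebraMap_injective R F).mpr
    ((algebraMap K F).injective.comp (IsFractionRing.injective R K))
  have hcomp : π.comp (Int.castRingHom R) = Int.castRingHom (ZMod p) := RingHom.ext_int _ _
  have hu' : IsUnit (D.map (Int.castRingHom R)).leadingCoeff := by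
    rw [leadingCoeff_map_of_injective hinjZ]
    exact hunit _ hlc
  have hirr' : Irreducible ((D.map (Int.castRingHom R)).map π) := by
    rw [Polynomial.map_map, hcomp]
    exact hirr
  have hQ : (D.map (Int.castRingHom R)).map (algebraMap R K) = D.map (Int.castRingHom K) := by
    rw [Polynomial.map_map, hRK]
  have hsep := separable_of_red14 (K := K) F hπ hu' (PerfectField.separable_of_irreducible hirr')
  obtain ⟨φ, hφ⟩ := frob_typeA14 K F hπ hu' hsep hirr'
  refine ⟨φ, fun x y hx hy => hφ x y ?_ ?_⟩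
  · rw [← aeval_map_algebraMap K, hQ]
    exact hx
  · rw [← aeval_map_algebraMap K, hQ]
    exact hy

/-- Type B over a ring with residue field `ZMod p`. -/
theorem typeBX_of_ring14 (R : Type*) [CommRing R] [IsDomain R] [IsIntegrallyClosed R]
    [Algebra R K] [IsFractionRing R K] {p : ℕ} [Fact p.Prime] (π : R →+* ZMod p)
    (hπ : Function.Surjective π) (hunit : ∀ z : ℤ, (z : ZMod p) ≠ 0 → IsUnit (z : R))
    [CharZero K] {D : ℤ[X]} {n : ℕ} (hD : D.natDegree ≤ n) (hn : 3 ≤ n)
    (hsep : (D.map (Int.castRingHom K)).Separable)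
    (h : TypeBX14 (D.map (Int.castRingHom (ZMod p))) n) :
    ∃ (φ : F ≃ₐ[K] F) (z : F), aeval z (D.map (Int.castRingHom K)) = 0 ∧ φ z = z ∧
      ∀ x y : F, aeval x (D.map (Int.castRingHom K)) = 0 →
        aeval y (D.map (Int.castRingHom K)) = 0 → x ≠ z → y ≠ z → ∃ i : ℕ, (φ ^ i) x = y := by
  obtain ⟨b, D₁, hD1, hirr, hd1, hdn⟩ := h
  obtain ⟨hDn, hlc⟩ := lead_of_red14 hD (by omega) hdn
  letI : Algebra R F := ((algebraMap K F).comp (algebraMap R K)).toAlgebra
  haveI : IsScalarTower R K F := IsScalarTower.of_algebraMap_eq fun _ => rfl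
  have hRK : (algebraMap R K).comp (Int.castRingHom R) = Int.castRingHom K := RingHom.ext_int _ _
  have hinjZ : Function.Injective (Int.castRingHom R) := by
    have h1 : Function.Injective ((algebraMap R K).comp (Int.castRingHom R)) := by
      rw [hRK]
      exact (Int.castRingHom K).injective_int
    exact Function.Injective.of_comp h1
  have hcomp : π.comp (Int.castRingHom R) = Int.castRingHom (ZMod p) := RingHom.ext_int _ _
  have hu' : IsUnit (D.map (Int.castRingHom R)).leadingCoeff := by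
    rw [leadingCoeff_map_of_injective hinjZ]
    exact hunit _ hlc
  have hQ : (D.map (Int.castRingHom R)).map (algebraMap R K) = D.map (Int.castRingHom K) := by
    rw [Polynomial.map_map, hRK]
  obtain ⟨φ, z, hz, hzz, hφ⟩ := frob_typeBX14 K F hπ hu' (by rw [hQ]; exact hsep)
    (b := b) (D₁ := D₁) (by rw [Polynomial.map_map, hcomp]; exact hD1) hirr (by omega)
  have hc : ∀ x : F, aeval x (D.map (Int.castRingHom R)) = aeval x (D.map (Int.castRingHom K)) := by
    intro x
    rw [← aeval_map_algebraMap K, hQ]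
  refine ⟨φ, z, by rw [← hc]; exact hz, hzz, fun x y hx hy hxz hyz => hφ x y ?_ ?_ hxz hyz⟩
  · rw [hc]; exact hx
  · rw [hc]; exact hy

/-- Types A and B give the transitivity on the pairs of roots of `D`. -/
theorem pairTransitiveX14 {D : K[X]}
    (hA : ∃ φ : F ≃ₐ[K] F, ∀ x y : F, aeval x D = 0 → aeval y D = 0 → ∃ i : ℕ, (φ ^ i) x = y)
    (hB : ∃ (φ : F ≃ₐ[K] F) (z : F), aeval z D = 0 ∧ φ z = z ∧
      ∀ x y : F, aeval x D = 0 → aeval y D = 0 → x ≠ z → y ≠ z → ∃ i : ℕ, (φ ^ i) x = y) :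
    IsPairTransitive7 K F X D := by
  apply pairTransitive14
  · rw [comp_X]
    exact hA
  · rw [comp_X]
    obtain ⟨φ, z, h1, h2, h3⟩ := hB
    refine ⟨φ, z, h1, h2, fun x y hx hy hxz hyz => h3 x y hx hy ?_ ?_⟩
    · simpa using hxz
    · simpa using hyz

/-- Type S gives separability over the rational numbers. -/
theorem separable_of_typeS_aux14 (F₀ : Type*) [Field F₀] [Algebra ℚ F₀] [IsAlgClosed F₀]
    [Algebra.IsAlgebraic ℚ F₀] {g D : ℤ[X]} (hg : g.Monic) (hd : g.natDegree ≠ 0)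
    {p : ℕ} [Fact p.Prime] (hlc : (D.leadingCoeff : ZMod p) ≠ 0)
    (hs : ((D.map (Int.castRingHom (ZMod p))).comp (g.map (Int.castRingHom (ZMod p)))).Separable) :
    ((D.comp g).map (Int.castRingHom ℚ)).Separable := by
  obtain ⟨R, _, _, _, _, _, π, hπ, hπu⟩ := exists_local_ring14 (Fact.out : p.Prime)
  letI : Algebra R F₀ := ((algebraMap ℚ F₀).comp (algebraMap R ℚ)).toAlgebra
  haveI : IsScalarTower R ℚ F₀ := IsScalarTower.of_algebraMap_eq fun _ => rfl
  have hRQ : (algebraMap R ℚ).comp (Int.castRingHom R) = Int.castRingHom ℚ := RingHom.ext_int _ _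
  have hinjZ : Function.Injective (Int.castRingHom R) := by
    have h1 : Function.Injective ((algebraMap R ℚ).comp (Int.castRingHom R)) := by
      rw [hRQ]
      exact (Int.castRingHom ℚ).injective_int
    exact Function.Injective.of_comp h1
  haveI hfaith : FaithfulSMul R F₀ :=
    (faithfulSMul_iff_algebraMap_injective R _).mpr
      ((algebraMap ℚ F₀).injective.comp (IsFractionRing.injective R ℚ))
  have hcomp : π.comp (Int.castRingHom R) = Int.castRingHom (ZMod p) := RingHom.ext_int _ _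
  have hu' : IsUnit ((D.comp g).map (Int.castRingHom R)).leadingCoeff := by
    rw [leadingCoeff_map_of_injective hinjZ, leadingCoeff_comp hd, hg.leadingCoeff,
      one_pow, mul_one]
    exact hπu _ hlc
  have hsep := separable_of_red14 (K := ℚ) F₀ hπ hu' (by
    rw [Polynomial.map_map, hcomp, Polynomial.map_comp]
    exact hs)
  rwa [Polynomial.map_map, hRQ] at hsep

lemma exists_closure14 (k : Type) [Field k] : ∃ (F₀ : Type) (_ : Field F₀) (_ : Algebra k F₀)
    (_ : IsAlgClosed F₀), Algebra.IsAlgebraic k F₀ :=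
  ⟨AlgebraicClosure k, inferInstance, inferInstance, inferInstance, inferInstance⟩

variable (K) in
/-- Type S gives separability. -/
theorem separable_of_typeS14 [CharZero K] {g D : ℤ[X]} (hg : g.Monic) (hd : g.natDegree ≠ 0)
    {n : ℕ} (hD : D.natDegree ≤ n) (hn : 1 ≤ n) {p : ℕ} [Fact p.Prime]
    (h : TypeS14 (g.map (Int.castRingHom (ZMod p))) (D.map (Int.castRingHom (ZMod p))) n) :
    D.natDegree = n ∧ ((D.comp g).map (Int.castRingHom K)).Separable := by
  obtain ⟨hdn, hs⟩ := h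
  obtain ⟨hDn, hlc⟩ := lead_of_red14 hD hn hdn
  refine ⟨hDn, ?_⟩
  obtain ⟨F₀, _, _, _, _⟩ := exists_closure14 ℚ
  have h1 := (separable_of_typeS_aux14 F₀ hg hd hlc hs).map (f := algebraMap ℚ K)
  rw [Polynomial.map_map] at h1
  have h2 : (algebraMap ℚ K).comp (Int.castRingHom ℚ) = Int.castRingHom K := RingHom.ext_int _ _
  rwa [h2] at h1

end Int

end Pool.Agent.Lib.MP_89bcae_ag

end

section

/-!
# Density one for the good polynomials
-/

open Polynomial Filter Topology

open scoped Classical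

set_option linter.unusedVariables false
set_option linter.unusedSectionVars false
set_option linter.style.haveILetI false

namespace Pool.Agent.Lib.MP_89bcae_ag

/-- The primes in a residue class modulo `q`, from some point on. -/
lemma infinite_primes_unit7 (q : ℕ) [NeZero q] {u : ZMod q} (hu : IsUnit u) (P₀ : ℕ) :
    {p : ℕ | p.Prime ∧ P₀ ≤ p ∧ (p : ZMod q) = u}.Infinite := by
  have h1 := Nat.infinite_setOfPred_prime_and_eq_mod (q := q) (a := u) hu
  have h2 := h1.sdiff (Set.finite_lt_nat P₀)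
  refine h2.mono ?_
  rintro p ⟨⟨hp, hp1⟩, hp0⟩
  exact ⟨hp, not_lt.mp hp0, hp1⟩

/-- **Density one.** It suffices to treat the polynomials `D` which have, modulo suitable primes
in a residue class modulo `q`, the types A, B, a simple collision and a simple pole. -/
theorem superDensityUnit7 (q : ℕ) [NeZero q] {u : ZMod q} (hu : IsUnit u) {g : ℤ[X]} (hg : g.Monic) (hd : g.natDegree ≠ 0) {n : ℕ}
    (hn : 3 ≤ n) (P₀ : ℕ) (Good : (Fin (n + 1) → ℤ) → Prop)
    (hGood : ∀ a : Fin (n + 1) → ℤ, (vecPoly7 a).natDegree = n →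
      (((vecPoly7 a).comp g).map (Int.castRingHom ℚ)).Separable →
      (∃ (p : ℕ) (_ : Fact p.Prime), P₀ ≤ p ∧ (p : ZMod q) = u ∧
        TypeAX14 ((vecPoly7 a).map (Int.castRingHom (ZMod p))) n) →
      (∃ (p : ℕ) (_ : Fact p.Prime), P₀ ≤ p ∧ (p : ZMod q) = u ∧
        TypeBX14 ((vecPoly7 a).map (Int.castRingHom (ZMod p))) n) →
      (∃ p : ℕ, p.Prime ∧ P₀ ≤ p ∧ (p : ZMod q) = u ∧ IsCollisionZ8 p g (vecPoly7 a) ∧
        ¬ (p : ℤ) ∣ (vecPoly7 a).coeff n) →
      (∃ p : ℕ, p.Prime ∧ P₀ ≤ p ∧ (p : ZMod q) = u ∧ IsPoleZ14 p g (vecPoly7 a) n) →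
      Good a) :
    Tendsto (fun H : ℕ => ({a : Fin (n + 1) → ℤ | (∀ i, |a i| ≤ H) ∧ Good a}.ncard : ℝ) /
      (2 * H + 1) ^ (n + 1)) atTop (𝓝 1) := by
  obtain ⟨d, hdeg⟩ : ∃ d, g.natDegree = d := ⟨_, rfl⟩
  rw [hdeg] at hd
  obtain ⟨cA, hcA, PA, hA⟩ := count_typeAX14 n (by omega)
  obtain ⟨cB, hcB, PB, hB⟩ := count_typeBX14 n (by omega)
  obtain ⟨cC, hcC, PC, hC⟩ := count_typeC14 n (by omega) d hd
  obtain ⟨cE, hcE, PE, hE⟩ := count_typeE14 n (by omega) d hd
  obtain ⟨cS, hcS, PS, hS⟩ := count_typeS14 n (by omega) d hd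
  -- the five events
  let GA : (Fin (n + 1) → ℤ) → Prop := fun a => ∃ (p : ℕ) (_ : Fact p.Prime), P₀ ≤ p ∧
    (p : ZMod q) = u ∧ TypeAX14 ((vecPoly7 a).map (Int.castRingHom (ZMod p))) n
  let GB : (Fin (n + 1) → ℤ) → Prop := fun a => ∃ (p : ℕ) (_ : Fact p.Prime), P₀ ≤ p ∧
    (p : ZMod q) = u ∧ TypeBX14 ((vecPoly7 a).map (Int.castRingHom (ZMod p))) n
  let GS : (Fin (n + 1) → ℤ) → Prop := fun a => ∃ (p : ℕ) (_ : Fact p.Prime),
    TypeS14 (g.map (Int.castRingHom (ZMod p))) ((vecPoly7 a).map (Int.castRingHom (ZMod p))) n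
  let GC : (Fin (n + 1) → ℤ) → Prop := fun a => ∃ p : ℕ, p.Prime ∧ P₀ ≤ p ∧ (p : ZMod q) = u ∧
    IsCollisionZ8 p g (vecPoly7 a) ∧ ¬ (p : ℤ) ∣ (vecPoly7 a).coeff n
  let GE : (Fin (n + 1) → ℤ) → Prop := fun a => ∃ p : ℕ, p.Prime ∧ P₀ ≤ p ∧ (p : ZMod q) = u ∧
    IsPoleZ14 p g (vecPoly7 a) n
  have dA : Tendsto (fun H : ℕ => ({a : Fin (n + 1) → ℤ | (∀ i, |a i| ≤ H) ∧ ¬ GA a}.ncard : ℝ) /
      (2 * H + 1) ^ (n + 1)) atTop (𝓝 0) := by
    refine density_crt7 (n + 1) (fun p => {v | ∃ _ : Fact p.Prime, TypeAX14 (polyOf8 v) n}) cA hcA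
      {p : ℕ | p.Prime ∧ max PA P₀ ≤ p ∧ (p : ZMod q) = u} (infinite_primes_unit7 q hu _)
      (fun p hp => hp.1) (fun p hp => ?_) GA (fun a p hp h => ?_)
    · haveI : Fact p.Prime := ⟨hp.1⟩
      refine (hA p ⟨hp.1⟩ ((le_max_left _ _).trans hp.2.1)).trans ?_
      rw [Nat.cast_le]
      apply Set.ncard_le_ncard _ (Set.toFinite _)
      intro v hv
      exact ⟨⟨hp.1⟩, hv⟩
    · obtain ⟨hpp, h⟩ := h
      exact ⟨p, hpp, (le_max_right _ _).trans hp.2.1, hp.2.2, by rw [map_vecPoly8]; exact h⟩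
  have dB : Tendsto (fun H : ℕ => ({a : Fin (n + 1) → ℤ | (∀ i, |a i| ≤ H) ∧ ¬ GB a}.ncard : ℝ) /
      (2 * H + 1) ^ (n + 1)) atTop (𝓝 0) := by
    refine density_crt7 (n + 1) (fun p => {v | ∃ _ : Fact p.Prime, TypeBX14 (polyOf8 v) n}) cB hcB
      {p : ℕ | p.Prime ∧ max PB P₀ ≤ p ∧ (p : ZMod q) = u} (infinite_primes_unit7 q hu _)
      (fun p hp => hp.1) (fun p hp => ?_) GB (fun a p hp h => ?_)
    · haveI : Fact p.Prime := ⟨hp.1⟩
      refine (hB p ⟨hp.1⟩ ((le_max_left _ _).trans hp.2.1)).trans ?_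
      rw [Nat.cast_le]
      apply Set.ncard_le_ncard _ (Set.toFinite _)
      intro v hv
      exact ⟨⟨hp.1⟩, hv⟩
    · obtain ⟨hpp, h⟩ := h
      exact ⟨p, hpp, (le_max_right _ _).trans hp.2.1, hp.2.2, by rw [map_vecPoly8]; exact h⟩
  have dS : Tendsto (fun H : ℕ => ({a : Fin (n + 1) → ℤ | (∀ i, |a i| ≤ H) ∧ ¬ GS a}.ncard : ℝ) /
      (2 * H + 1) ^ (n + 1)) atTop (𝓝 0) := by
    refine density_crt7 (n + 1) (fun p => {v | ∃ _ : Fact p.Prime,
      TypeS14 (g.map (Int.castRingHom (ZMod p))) (polyOf8 v) n}) cS hcS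
      {p : ℕ | p.Prime ∧ PS ≤ p ∧ (p : ZMod q) = u} (infinite_primes_unit7 q hu _)
      (fun p hp => hp.1) (fun p hp => ?_) GS (fun a p hp h => ?_)
    · haveI : Fact p.Prime := ⟨hp.1⟩
      refine (hS p ⟨hp.1⟩ hp.2.1 g hg hdeg).trans ?_
      rw [Nat.cast_le]
      apply Set.ncard_le_ncard _ (Set.toFinite _)
      intro v hv
      exact ⟨⟨hp.1⟩, hv⟩
    · obtain ⟨hpp, h⟩ := h
      exact ⟨p, hpp, by rw [map_vecPoly8]; exact h⟩
  have hsumC : ∀ (c : ℝ), 0 < c → ∀ (P : ℕ) (T : ℝ), ∃ S : Finset ℕ,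
      (∀ p ∈ S, p ∈ {p : ℕ | p.Prime ∧ P ≤ p ∧ (p : ZMod q) = u}) ∧ T ≤ ∑ p ∈ S, c / p :=
    fun c hc P T => sum_residue_unbounded14 (q := q) (a := u) hu hc P T
  have dC : Tendsto (fun H : ℕ => ({a : Fin (n + 1) → ℤ | (∀ i, |a i| ≤ H) ∧ ¬ GC a}.ncard : ℝ) /
      (2 * H + 1) ^ (n + 1)) atTop (𝓝 0) := by
    refine density_crtB7 (n + 1) (fun p => p ^ 2) (fun p => {v | TypeC8 p g n v}) (fun p => cC / p)
      {p : ℕ | p.Prime ∧ max PC P₀ ≤ p ∧ (p : ZMod q) = u} (fun p hp => pow_pos hp.1.pos 2)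
      (fun p hp q hq hpq => ?_)
      (fun T => hsumC cC hcC (max PC P₀) T) (fun p hp => ?_) GC (fun a p hp h => ?_)
    · exact Nat.Coprime.pow 2 2 ((Nat.coprime_primes hp.1 hq.1).mpr hpq)
    · have h1 := hC p hp.1 ((le_max_left _ _).trans hp.2.1) g hg hdeg
      push_cast
      exact h1
    · have h1 : (fun i : Fin (n + 1) => ((vecPoly7 a).coeff i : ZMod (p ^ 2))) =
          fun i => (a i : ZMod (p ^ 2)) := by
        funext i
        rw [coeff_vecPoly8]
      have h3 := isCollisionZ8_of_typeC8 (p := p) (g := g) (n := n) (D := vecPoly7 a)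
        (natDegree_vecPoly8 a) (by rw [h1]; exact h)
      exact ⟨p, hp.1, (le_max_right _ _).trans hp.2.1, hp.2.2, h3⟩
  have dE : Tendsto (fun H : ℕ => ({a : Fin (n + 1) → ℤ | (∀ i, |a i| ≤ H) ∧ ¬ GE a}.ncard : ℝ) /
      (2 * H + 1) ^ (n + 1)) atTop (𝓝 0) := by
    refine density_crtB7 (n + 1) (fun p => p ^ 2) (fun p => {v | TypeE14 p g n v}) (fun p => cE / p)
      {p : ℕ | p.Prime ∧ max PE P₀ ≤ p ∧ (p : ZMod q) = u} (fun p hp => pow_pos hp.1.pos 2)
      (fun p hp q hq hpq => ?_)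
      (fun T => hsumC cE hcE (max PE P₀) T) (fun p hp => ?_) GE (fun a p hp h => ?_)
    · exact Nat.Coprime.pow 2 2 ((Nat.coprime_primes hp.1 hq.1).mpr hpq)
    · have h1 := hE p hp.1 ((le_max_left _ _).trans hp.2.1) g hg hdeg
      push_cast
      exact h1
    · have h1 : (fun i : Fin (n + 1) => ((vecPoly7 a).coeff i : ZMod (p ^ 2))) =
          fun i => (a i : ZMod (p ^ 2)) := by
        funext i
        rw [coeff_vecPoly8]
      haveI : Fact p.Prime := ⟨hp.1⟩
      have h3 := isPoleZ14_of_typeE14 (p := p) (g := g) (n := n) (by omega) (D := vecPoly7 a)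
        (natDegree_vecPoly8 a) (by rw [h1]; exact h)
      exact ⟨p, hp.1, (le_max_right _ _).trans hp.2.1, hp.2.2, h3⟩
  apply density_one8
  -- the union of the five exceptional sets
  have hsum := (((dA.add dB).add dC).add dE).add dS
  rw [add_zero, add_zero, add_zero, add_zero] at hsum
  refine squeeze_zero (fun H => by positivity) (fun H => ?_) hsum
  rw [← add_div, ← add_div, ← add_div, ← add_div]
  apply div_le_div_of_nonneg_right _ (by positivity)
  have hfin : ∀ Q : (Fin (n + 1) → ℤ) → Prop,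
      ({a : Fin (n + 1) → ℤ | (∀ i, |a i| ≤ H) ∧ Q a}).Finite := by
    intro Q
    apply Set.Finite.subset (Finset.finite_toSet
      (Fintype.piFinset fun _ : Fin (n + 1) => Finset.Icc (-(H : ℤ)) H))
    rintro a ⟨h2, -⟩
    rw [Finset.mem_coe, Fintype.mem_piFinset]
    intro i
    rw [Finset.mem_Icc]
    exact abs_le.mp (h2 i)
  let E : ((Fin (n + 1) → ℤ) → Prop) → Set (Fin (n + 1) → ℤ) := fun Q =>
    {a : Fin (n + 1) → ℤ | (∀ i, |a i| ≤ H) ∧ ¬ Q a}
  have hsub : {a : Fin (n + 1) → ℤ | (∀ i, |a i| ≤ H) ∧ ¬ Good a} ⊆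
      (((E GA ∪ E GB) ∪ E GC) ∪ E GE) ∪ E GS := by
    rintro a ⟨hbox, hbad⟩
    by_contra hcon
    simp only [E, Set.mem_union, Set.mem_ofPred_eq, not_or, not_and, not_not] at hcon
    obtain ⟨⟨⟨⟨hGA, hGB⟩, hGC⟩, hGE⟩, hGS⟩ := hcon
    obtain ⟨p, hp, hs⟩ := hGS hbox
    obtain ⟨h1, h2⟩ := separable_of_typeS14 ℚ hg (by rw [hdeg]; exact hd) (natDegree_vecPoly8 a)
      (by omega) hs
    exact hbad (hGood a h1 h2 (hGA hbox) (hGB hbox) (hGC hbox) (hGE hbox))
  have hE' : ∀ Q, (E Q).Finite := fun Q => hfin fun a => ¬ Q a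
  have h1 := Set.ncard_le_ncard hsub
    (((((hE' GA).union (hE' GB)).union (hE' GC)).union (hE' GE)).union (hE' GS))
  have h2 := Set.ncard_union_le (((E GA ∪ E GB) ∪ E GC) ∪ E GE) (E GS)
  have h3 := Set.ncard_union_le ((E GA ∪ E GB) ∪ E GC) (E GE)
  have h4 := Set.ncard_union_le (E GA ∪ E GB) (E GC)
  have h5 := Set.ncard_union_le (E GA) (E GB)
  have h6 : ({a : Fin (n + 1) → ℤ | (∀ i, |a i| ≤ H) ∧ ¬ Good a}).ncard ≤
      (E GA).ncard + (E GB).ncard + (E GC).ncard + (E GE).ncard + (E GS).ncard := by omega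
  exact_mod_cast h6

end Pool.Agent.Lib.MP_89bcae_ag

end
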