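import Mathlib
import Pool.Agent.Lib.MP_89bcae_ag.Rk.K036
import Pool.Agent.Lib.MP_89bcae_ag.Rk.K039
import Pool.Agent.Lib.MP_89bcae_ag.Rk.K041

namespace Pool.Agent.Lib.MP_89bcae_ag.Sup
end Pool.Agent.Lib.MP_89bcae_ag.Sup

section

open Polynomial

open scoped Classical

set_option linter.unusedSectionVars false

namespace Pool.Agent.Lib.MP_89bcae_ag.Sup

universe u

variable {F M : Type u} [Field F] [Field M] [Algebra F M] {v : AbsoluteValue M ℝ} {a : F} {t : M}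

private lemma tc09_exists_zpow {K : Type*} [Field K] {ℓ : ℕ} (hℓ : ℓ ≠ 0) {ζ : K}
    (hζ : IsPrimitiveRoot ζ ℓ) {x y : K} (hy : y ≠ 0) (h : x ^ ℓ = y ^ ℓ) :
    ∃ k : ℤ, x = ζ ^ k * y := by
  have : NeZero ℓ := ⟨hℓ⟩
  have h1 : (x / y) ^ ℓ = 1 := by
    rw [div_pow, h, div_self (pow_ne_zero _ hy)]
  obtain ⟨i, _, hi⟩ := hζ.eq_pow_of_pow_eq_one h1
  refine ⟨i, ?_⟩
  rw [zpow_natCast, hi, div_mul_cancel₀ _ hy]

private lemma tc09_res_const (x : F) : v (algebraMap F M x - algebraMap F M x) < 1 := by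
  rw [sub_self, map_zero]; exact one_pos

private lemma tc09_res_sub (h : LocCtx v a t) {x y : M} {c d : F}
    (hc : v (x - algebraMap F M c) < 1) (hd : v (y - algebraMap F M d) < 1) :
    v (x - y - algebraMap F M (c - d)) < 1 := by
  have e : x - y - algebraMap F M (c - d) =
      (x - algebraMap F M c) + -(y - algebraMap F M d) := by
    rw [map_sub]; ring
  rw [e]
  refine lt_of_le_of_lt (h.nonarch _ _) (max_lt hc ?_)
  rw [map_neg_eq_map]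
  exact hd

private lemma tc09_res_prod (h : LocCtx v a t) {ι : Type*} (s : Finset ι) (x : ι → M) (c : ι → F)
    (hx : ∀ i ∈ s, v (x i - algebraMap F M (c i)) < 1) :
    v (∏ i ∈ s, x i - algebraMap F M (∏ i ∈ s, c i)) < 1 := by
  induction s using Finset.induction_on with
  | empty => simp
  | insert i s hi ih =>
    rw [Finset.prod_insert hi, Finset.prod_insert hi]
    exact h.residue_mul (hx i (Finset.mem_insert_self _ _))
      (ih fun j hj => hx j (Finset.mem_insert_of_mem hj))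

private lemma tc09_res_pow (h : LocCtx v a t) {x : M} {c : F}
    (hc : v (x - algebraMap F M c) < 1) (n : ℕ) :
    v (x ^ n - algebraMap F M (c ^ n)) < 1 := by
  have := h.residue_eval hc (X ^ n)
  simpa using this

/-- An `ℓ`-th root of `ε = (-1) ^ (ℓ + 1)` fixed by `U`. -/
private lemma tc09_eps {K : Type*} [Field K] [IsAlgClosed K] {ℓ : ℕ} (hℓ : ℓ ≠ 0) (U : K ≃+* K)
    (h1 : ∀ x : K, x ^ ℓ = -1 → U x = x) :
    ∃ x₀ : K, x₀ ^ ℓ = (-1) ^ (ℓ + 1) ∧ U x₀ = x₀ := by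
  rcases Nat.even_or_odd (ℓ + 1) with he | ho
  · exact ⟨1, by rw [one_pow, he.neg_one_pow], map_one U⟩
  · obtain ⟨x, hx⟩ := IsAlgClosed.exists_pow_nat_eq (-1 : K) (Nat.pos_of_ne_zero hℓ)
    exact ⟨x, by rw [hx, ho.neg_one_pow], h1 x hx⟩

theorem LocCtx.sym_eval (h : LocCtx v a t) [IsAlgClosed M] {ℓ : ℕ} {g : F[X]}
    (hg : g.Monic) (hm : g.natDegree ≠ 0) (hmℓ : g.natDegree.Coprime ℓ)
    (hroots : ∀ r, g.eval r = a → (derivative g).eval r ≠ 0) {f : M[X]}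
    (hf : f = locPoly g t 1) [hG : IsGood ℓ f] {ζ : F} (hζ : IsPrimitiveRoot ζ ℓ)
    (hζ' : IsPrimitiveRoot (algebraMap F M ζ) ℓ)
    (u : Sym f) (U : F ≃+* F) (huv : ∀ x, v ((u : M ≃+* M) x) = v x)
    (huF : ∀ c : F, (u : M ≃+* M) (algebraMap F M c) = algebraMap F M (U c))
    (hut : (u : M ≃+* M) t = t) (hug : g.map (U : F →+* F) = g) (hUζ : U ζ = ζ)
    (hU : ∀ β, g.eval β = a → U β = β)
    (h1 : ∀ x : F, x ^ ℓ = -1 → U x = x)
    (e : F → ℤ) (Q : Jac ℓ f)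
    (hQ : Q - zJ (algebraMap F M ζ) hζ'.pow_eq_one Q = ram fun θ => e (rs F v θ))
    (R₀ : Finset F) (hR₀ : ∀ β, β ∈ R₀ ↔ g.eval β = a) :
    ∃ n : M → ℤ, symJ u Q = Q + ram n ∧ ∀ θ ∈ rts f, ∀ x : F,
      x ^ ℓ = ∏ β' ∈ R₀.erase (rs F v θ), (rs F v θ - β') ^ (e β' - e (rs F v θ)) →
      U x = ζ ^ n θ * x := by
  subst hf
  have hFac : IsAlgClosed F := h.alg
  have hℓ0 : ℓ ≠ 0 := hG.prime.ne_zero
  have hζ0 : ζ ≠ 0 := hζ.ne_zero hℓ0
  have huζ : (u : M ≃+* M) (algebraMap F M ζ) = algebraMap F M ζ := by rw [huF, hUζ]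
  obtain ⟨δ, hδ⟩ := IsAlgClosed.exists_pow_nat_eq (t - algebraMap F M a) (Nat.pos_of_ne_zero hℓ0)
  have hB : BadCtx g (X - C a) a t δ ℓ := h.badCtx_lin' hg hm hmℓ hroots hδ
  have hroot : ∀ {θ : M}, (locPoly g t (1 : M)).eval θ = 0 ↔ aeval θ g = t := fun {θ} =>
    eval_locPoly_eq_zero one_ne_zero
  have hmemr : ∀ {θ : M}, θ ∈ rts (locPoly g t (1 : M)) ↔ aeval θ g = t := fun {θ} => by
    rw [mem_rts (locPoly_ne_zero hg hm one_ne_zero), hroot]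
  have hsep : (locPoly g t (1 : M)).Separable := hG.separable
  have hres : ∀ {θ : M}, aeval θ g = t → v (θ - algebraMap F M (rs F v θ)) < 1 := fun {θ} hθ =>
    h.v_sub_rs (h.v_root_le hg hm hθ)
  -- `u` fixes the roots
  have hufix : ∀ θ : M, (locPoly g t (1 : M)).eval θ = 0 → (u : M ≃+* M) θ = θ := by
    intro θ hθ
    have hθt := hroot.1 hθ
    have huθ : aeval ((u : M ≃+* M) θ) g = t := hroot.1 ((eval_sym_eq_zero u).2 hθ)
    refine h.rs_injOn hB huθ hθt ?_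
    apply h.rs_eq
    have h1 := hres hθt
    have h2 : U (rs F v θ) = rs F v θ := hU _ (h.eval_rs hB hθt)
    rw [← huv, map_sub, huF, h2] at h1
    exact h1
  have hufix' : ∀ θ : M, (locPoly g t (1 : M)).eval θ = 0 →
      ((u⁻¹ : Sym _) : M ≃+* M) θ = θ := by
    intro θ hθ
    have h1 : ((u⁻¹ : Sym _) : M ≃+* M) ((u : M ≃+* M) θ) = θ :=
      (u : M ≃+* M).symm_apply_apply θ
    rwa [hufix θ hθ] at h1
  -- the Kummer formula
  obtain ⟨w, hw, hker⟩ := kummer_formula (algebraMap F M ζ) hζ' Q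
    (ramDiv fun θ => e (rs F v θ)) hQ
  have hDfix : (ramDiv (fun θ => e (rs F v θ)) :
      Pt ℓ (locPoly g t (1 : M)) →₀ ℤ).mapDomain (Pt.sym u) =
      ramDiv fun θ => e (rs F v θ) := by
    rw [mapDomain_sym_ramDiv]
    refine ramDiv_congr _ _ ?_
    intro θ hθ
    rw [hufix' θ hθ]
  have hn : ∀ θ : M, ∃ n : ℤ, (locPoly g t (1 : M)).eval θ = 0 →
      (u : M ≃+* M) (w θ) = algebraMap F M ζ ^ n * w θ := by
    intro θ
    by_cases hθ : (locPoly g t (1 : M)).eval θ = 0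
    · obtain ⟨n, hn⟩ : ∃ n : ℤ, (u : M ≃+* M) (w θ) = algebraMap F M ζ ^ n * w θ := by
        refine tc09_exists_zpow hℓ0 hζ' (hw θ hθ).1 ?_
        rw [← map_pow, (hw θ hθ).2, map_mul, map_zpow₀, map_pow, map_neg, map_one,
          sym_uval u _ hDfix, hufix θ hθ]
      exact ⟨n, fun _ => hn⟩
    · exact ⟨0, fun h0 => absurd h0 hθ⟩
  choose n hn using hn
  have hkn : symJ u Q - Q = ram n := by
    refine hker u huζ hDfix n ?_
    intro θ hθ
    rw [hufix θ hθ]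
    exact hn θ hθ
  refine ⟨n, by rw [← hkn, add_sub_cancel], ?_⟩
  intro θ hθm x hx
  have hθt := hmemr.1 hθm
  have hθ := hroot.2 hθt
  have hneg : ∀ θ' ∈ (rts (locPoly g t (1 : M))).erase θ, rs F v θ - rs F v θ' ≠ 0 := by
    intro θ' hθ' h0
    obtain ⟨h2, h3⟩ := Finset.mem_erase.1 hθ'
    exact h2 (h.rs_injOn hB hθt (hmemr.1 h3) (sub_eq_zero.1 h0)).symm
  -- the set of the residues
  have hR₁ : R₀.erase (rs F v θ) = ((rts (locPoly g t (1 : M))).erase θ).image (rs F v) := by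
    ext β
    rw [Finset.mem_erase, Finset.mem_image, hR₀]
    constructor
    · rintro ⟨h2, h3⟩
      obtain ⟨θ', hθ', rfl⟩ := h.exists_root hB h3
      refine ⟨θ', Finset.mem_erase.2 ⟨?_, hmemr.2 hθ'⟩, rfl⟩
      rintro rfl
      exact h2 rfl
    · rintro ⟨θ', hθ', rfl⟩
      refine ⟨fun h0 => hneg θ' hθ' (sub_eq_zero.2 h0.symm), ?_⟩
      exact h.eval_rs hB (hmemr.1 (Finset.mem_of_mem_erase hθ'))
  rw [hR₁, Finset.prod_image] at hx
  swap
  · intro x hx y hy hxy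
    exact h.rs_injOn hB (hmemr.1 (Finset.mem_of_mem_erase hx))
      (hmemr.1 (Finset.mem_of_mem_erase hy)) hxy
  -- the residue of `(w θ) ^ ℓ`
  obtain ⟨x₀, hx₀, hUx₀⟩ := tc09_eps hℓ0 U h1
  have hx₀0 : x₀ ≠ 0 := by
    rintro rfl
    rw [zero_pow hℓ0] at hx₀
    exact pow_ne_zero _ (neg_ne_zero.2 one_ne_zero) hx₀.symm
  have hx0 : x ≠ 0 := by
    rintro rfl
    rw [zero_pow hℓ0] at hx
    exact (Finset.prod_ne_zero_iff.2 fun θ' hθ' => zpow_ne_zero _ (hneg θ' hθ')) hx.symm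
  have hwl : w θ ^ ℓ = ((-1) ^ (ℓ + 1)) ^ e (rs F v θ) *
      ∏ θ' ∈ (rts (locPoly g t (1 : M))).erase θ, (θ - θ') ^ (e (rs F v θ') - e (rs F v θ)) := by
    have hne : ∀ θ' ∈ (rts (locPoly g t (1 : M))).erase θ, θ - θ' ≠ 0 := fun θ' hθ' =>
      sub_ne_zero.2 (Finset.ne_of_mem_erase hθ').symm
    rw [(hw θ hθ).2, atR_ramDiv _ hθ, uval_ramDiv _ hθ,
      derivative_locPoly_eval hg hm one_ne_zero hsep hθm, inv_one, one_mul]
    congr 1
    have h2 : (locPoly g t (1 : M)).roots.toFinset = rts (locPoly g t (1 : M)) := rfl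
    rw [h2, ← Finset.prod_inv_distrib, ← Finset.prod_zpow, ← Finset.prod_mul_distrib]
    refine Finset.prod_congr rfl fun θ' hθ' => ?_
    rw [inv_zpow, ← zpow_neg, ← zpow_add₀ (hne θ' hθ')]
    congr 1
    ring
  have hkey : v (w θ ^ ℓ - algebraMap F M ((x₀ ^ e (rs F v θ) * x) ^ ℓ)) < 1 := by
    have h2 : (x₀ ^ e (rs F v θ) * x) ^ ℓ = ((-1) ^ (ℓ + 1)) ^ e (rs F v θ) *
        ∏ θ' ∈ (rts (locPoly g t (1 : M))).erase θ,
          (rs F v θ - rs F v θ') ^ (e (rs F v θ') - e (rs F v θ)) := by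
      rw [mul_pow, hx, ← hx₀, ← zpow_natCast, ← zpow_natCast, ← zpow_mul, ← zpow_mul,
        mul_comm (e (rs F v θ))]
    rw [hwl, h2]
    refine h.residue_mul ?_ (tc09_res_prod h _ _ _ fun θ' hθ' => h.residue_zpow
      (tc09_res_sub h (hres hθt) (hres (hmemr.1 (Finset.mem_of_mem_erase hθ')))) (hneg θ' hθ') _)
    have h3 : (((-1 : M) ^ (ℓ + 1)) ^ e (rs F v θ)) =
        algebraMap F M (((-1) ^ (ℓ + 1)) ^ e (rs F v θ)) := by
      rw [map_zpow₀, map_pow, map_neg, map_one]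
    rw [h3]
    exact tc09_res_const _
  have hy0 : x₀ ^ e (rs F v θ) * x ≠ 0 := mul_ne_zero (zpow_ne_zero _ hx₀0) hx0
  have hvw : v (w θ) = 1 := by
    have h2 := h.v_eq_one hkey (pow_ne_zero ℓ hy0)
    rw [map_pow] at h2
    exact (pow_eq_one_iff_of_nonneg (v.nonneg _) hℓ0).1 h2
  obtain ⟨y₀, hy₀⟩ := h.residue _ hvw.le
  have hpow : y₀ ^ ℓ = (x₀ ^ e (rs F v θ) * x) ^ ℓ :=
    h.residue_unique (tc09_res_pow h hy₀ ℓ) hkey
  obtain ⟨k, hk⟩ := tc09_exists_zpow hℓ0 hζ hy0 hpow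
  -- the action of `u`
  have hr1 : v ((u : M ≃+* M) (w θ) - algebraMap F M (U y₀)) < 1 := by
    rw [← huF, ← map_sub, huv]
    exact hy₀
  have hr2 : v ((u : M ≃+* M) (w θ) - algebraMap F M (ζ ^ n θ * y₀)) < 1 := by
    rw [hn θ hθ, ← map_zpow₀]
    exact h.residue_mul (tc09_res_const _) hy₀
  have hUy : U y₀ = ζ ^ n θ * y₀ := h.residue_unique hr1 hr2
  rw [hk, map_mul, map_mul, map_zpow₀, map_zpow₀, hUζ, hUx₀] at hUy
  have hc0 : ζ ^ k * x₀ ^ e (rs F v θ) ≠ 0 := mul_ne_zero (zpow_ne_zero _ hζ0)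
    (zpow_ne_zero _ hx₀0)
  refine mul_left_cancel₀ hc0 ?_
  linear_combination hUy

end Pool.Agent.Lib.MP_89bcae_ag.Sup

end

section

open Polynomial

open scoped Classical

set_option linter.unusedSectionVars false

namespace Pool.Agent.Lib.MP_89bcae_ag.Sup

universe u

variable {F M : Type u} [Field F] [Field M] [Algebra F M] {v : AbsoluteValue M ℝ} {a : F} {t : M}

theorem LocCtx.eval_q (h : LocCtx v a t) {ℓ : ℕ} (hℓ : ℓ ≠ 0) {g D : F[X]} {δ : M}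
    (hB : BadCtx g D a t δ ℓ) {ζ : F} (hζ : IsPrimitiveRoot ζ ℓ)
    (u : M ≃+* M) (U : F ≃+* F) (huv : ∀ x, v (u x) = v x)
    (huF : ∀ c : F, u (algebraMap F M c) = algebraMap F M (U c)) (hut : u t = t)
    (hUζ : U ζ = ζ) (huδ : u δ = δ) (R : Finset F) (hR : ∀ β, g.eval β = a → β ∈ R) {lc : F}
    (hDg : D.comp g = C lc * ∏ β ∈ R, (X - C β)) (hUR : ∀ β ∈ R, U β = β)
    (e : F → ℤ) {θ z : M} (hθ : aeval θ g = t)
    (hz : z ^ ℓ = ∏ β ∈ R, (θ - algebraMap F M β) ^ e β) (q : ℤ)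
    (hq : u z = algebraMap F M ζ ^ q * z) :
    ∀ x : F, x ^ ℓ = lc ^ (-e (rs F v θ)) *
        ∏ β ∈ R.erase (rs F v θ), (rs F v θ - β) ^ (e β - e (rs F v θ)) →
      U x = ζ ^ q * x := by
  intro x hx
  set β₀ := rs F v θ with hβ₀
  have hβR : β₀ ∈ R := hR β₀ (h.eval_rs hB hθ)
  have hres : v (θ - algebraMap F M β₀) < 1 := h.v_sub_rs (h.v_root_le hB.monic hB.deg hθ)
  have hDt : aeval t D = algebraMap F M lc * ∏ β ∈ R, (θ - algebraMap F M β) := by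
    have h1 : aeval θ (D.comp g) = aeval t D := by rw [aeval_comp, hθ]
    rw [← h1, hDg, map_mul, map_prod, aeval_C]
    congr 1
    apply Finset.prod_congr rfl
    intro β _
    rw [map_sub, aeval_X, aeval_C]
  have hne := hB.ne
  rw [hDt] at hne
  have hlcM : algebraMap F M lc ≠ 0 := left_ne_zero_of_mul hne
  have hlc : lc ≠ 0 := by
    intro h0
    apply hlcM
    rw [h0, map_zero]
  have hθβ : ∀ β ∈ R, θ - algebraMap F M β ≠ 0 := fun β hβ =>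
    Finset.prod_ne_zero_iff.mp (right_ne_zero_of_mul hne) β hβ
  have hδ0 : δ ≠ 0 := by
    intro h0
    apply hB.ne
    rw [← hB.delta, h0, zero_pow hℓ]
  set Y := z / δ ^ e β₀ with hY
  have hYl : Y ^ ℓ = algebraMap F M (lc ^ (-e β₀)) *
      ∏ β ∈ R.erase β₀, (θ - algebraMap F M β) ^ (e β - e β₀) := by
    have h1 : (δ ^ e β₀) ^ ℓ = (aeval t D) ^ e β₀ := by
      rw [← hB.delta, ← zpow_natCast, ← zpow_natCast, ← zpow_mul, ← zpow_mul, mul_comm]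
    have h2 : ∏ β ∈ R.erase β₀, (θ - algebraMap F M β) ^ (e β - e β₀) =
        ∏ β ∈ R, (θ - algebraMap F M β) ^ (e β - e β₀) :=
      Finset.prod_erase _ (by rw [sub_self, zpow_zero])
    have h3 : ∏ β ∈ R, (θ - algebraMap F M β) ^ (e β - e β₀) =
        (∏ β ∈ R, (θ - algebraMap F M β) ^ e β) / (∏ β ∈ R, (θ - algebraMap F M β)) ^ e β₀ := by
      rw [← Finset.prod_zpow, ← Finset.prod_div_distrib]
      apply Finset.prod_congr rfl
      intro β hβ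
      rw [zpow_sub₀ (hθβ β hβ)]
    rw [hY, div_pow, hz, h1, hDt, h2, h3, mul_zpow, map_zpow₀, zpow_neg,
      div_mul_eq_div_div_swap, div_eq_inv_mul]
  have hw0 : ∀ β ∈ R.erase β₀, β₀ - β ≠ 0 := fun β hβ =>
    sub_ne_zero.mpr (Finset.ne_of_mem_erase hβ).symm
  have hrβ : ∀ β : F, v ((θ - algebraMap F M β) - algebraMap F M (β₀ - β)) < 1 := by
    intro β
    have h1 : (θ - algebraMap F M β) - algebraMap F M (β₀ - β) = θ - algebraMap F M β₀ := by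
      rw [map_sub]; ring
    rw [h1]
    exact hres
  have hprod : ∀ S : Finset F, S ⊆ R.erase β₀ →
      v (∏ β ∈ S, (θ - algebraMap F M β) ^ (e β - e β₀) -
        algebraMap F M (∏ β ∈ S, (β₀ - β) ^ (e β - e β₀))) < 1 := by
    intro S
    induction S using Finset.induction_on with
    | empty =>
      intro _
      rw [Finset.prod_empty, Finset.prod_empty, map_one, sub_self, map_zero]
      exact zero_lt_one
    | insert b S hb ih =>
      intro hS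
      rw [Finset.prod_insert hb, Finset.prod_insert hb]
      exact h.residue_mul (h.residue_zpow (hrβ b) (hw0 b (hS (Finset.mem_insert_self _ _))) _)
        (ih fun y hy => hS (Finset.mem_insert_of_mem hy))
  have hYr : v (Y ^ ℓ - algebraMap F M (x ^ ℓ)) < 1 := by
    rw [hYl, hx]
    apply h.residue_mul _ (hprod _ subset_rfl)
    rw [sub_self, map_zero]
    exact zero_lt_one
  have hx0 : x ≠ 0 := by
    intro h0
    rw [h0, zero_pow hℓ] at hx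
    exact mul_ne_zero (zpow_ne_zero _ hlc)
      (Finset.prod_ne_zero_iff.mpr fun β hβ => zpow_ne_zero _ (hw0 β hβ)) hx.symm
  have hvYl : v (Y ^ ℓ) = 1 := h.v_eq_one hYr (pow_ne_zero _ hx0)
  have hvY : v Y = 1 := by
    rw [map_pow] at hvYl
    exact (pow_eq_one_iff_of_nonneg (v.nonneg _) hℓ).mp hvYl
  obtain ⟨c, hc⟩ := h.residue Y hvY.le
  have hc0 : c ≠ 0 := by
    intro h0
    rw [h0, map_zero, sub_zero, hvY] at hc
    exact lt_irrefl _ hc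
  have hcl : c ^ ℓ = x ^ ℓ := by
    have h1 := h.residue_zpow hc hc0 (ℓ : ℤ)
    rw [zpow_natCast, zpow_natCast] at h1
    exact h.residue_unique h1 hYr
  have : NeZero ℓ := ⟨hℓ⟩
  obtain ⟨i, -, hi⟩ := hζ.eq_pow_of_pow_eq_one (show (c / x) ^ ℓ = 1 by
    rw [div_pow, hcl, div_self (pow_ne_zero _ hx0)])
  have hcx : c = ζ ^ i * x := by rw [hi, div_mul_cancel₀ _ hx0]
  have huY : u Y = algebraMap F M ζ ^ q * Y := by
    rw [hY, map_div₀, map_zpow₀, huδ, hq, mul_div_assoc]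
  have h1 : v (u Y - algebraMap F M (U c)) < 1 := by
    rw [← huF, ← map_sub, huv]
    exact hc
  have h2 : v (u Y - algebraMap F M (ζ ^ q * c)) < 1 := by
    rw [huY]
    apply h.residue_mul _ hc
    rw [map_zpow₀, sub_self, map_zero]
    exact zero_lt_one
  have h3 : U c = ζ ^ q * c := h.residue_unique h1 h2
  rw [hcx, map_mul, map_pow, hUζ] at h3
  have hζi : ζ ^ i ≠ 0 := pow_ne_zero _ (hζ.ne_zero hℓ)
  apply mul_left_cancel₀ hζi
  rw [h3]
  ring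

end Pool.Agent.Lib.MP_89bcae_ag.Sup

end

section

/-!
The symbol of an automorphism of `F` with respect to a root of unity.
-/

open Polynomial

open scoped Classical

namespace Pool.Agent.Lib.MP_89bcae_ag.Sup

universe u

/-- The symbol: `U x = ζ ^ κ(z) x` for `x ^ ℓ = z`. -/
noncomputable def kap {F : Type u} [Field F] (ℓ : ℕ) (ζ : F) (U : F → F) (z : F) : ZMod ℓ :=
  if h : ∃ i : ZMod ℓ, ∀ x : F, x ^ ℓ = z → U x = ζ ^ i.val * x then h.choose else 0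

section

variable {ℓ : ℕ} {k F : Type u} [Field k] [Field F] [Algebra k F]

/-- The sum over the other fibres. -/
noncomputable def sumO (g E : k[X]) (kp e : F → ZMod ℓ) (β : F) : ZMod ℓ :=
  ∑ β' ∈ (RR F g E).filter (fun β' => aeval β' g ≠ aeval β g), kp (β - β') * (e β - e β')

/-- The sum over the same fibre. -/
noncomputable def sumS (g E : k[X]) (kp e : F → ZMod ℓ) (β : F) : ZMod ℓ :=
  ∑ β' ∈ (RR F g E).filter (fun β' => aeval β' g = aeval β g), kp (β - β') * (e β - e β')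

/-- The separation condition for the symbol `kp`, with weight `μ` for the pairs in the same fibre, on the
fibres over `B`. -/
def SepU (g E : k[X]) (kp : F → ZMod ℓ) (μ : ZMod ℓ) (B : Set F) : Prop :=
  ∀ (e : F → ZMod ℓ) (n : ZMod ℓ) (cst : F → ZMod ℓ),
    (∀ β ∈ RR F g E,
      ∑ β' ∈ (RR F g E).filter (fun β' => aeval β' g = aeval β g), e β' = 0) →
    (∀ β ∈ RR F g E, aeval β g ∈ B →
      sumO g E kp e β + μ * sumS g E kp e β + n * e β = cst (aeval β g)) →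
    ∀ β ∈ RR F g E, aeval β g ∈ B → e β = 0

end

section

variable {F : Type u} [Field F] [IsAlgClosed F] {ℓ : ℕ} {ζ : F} (U : F ≃+* F)

lemma tk01_ex (hℓ : ℓ.Prime) (hζ : IsPrimitiveRoot ζ ℓ) (hU : U ζ = ζ) {z : F} (hz0 : z ≠ 0)
    (hz : U z = z) : ∃ i : ZMod ℓ, ∀ x : F, x ^ ℓ = z → U x = ζ ^ i.val * x := by
  have : NeZero ℓ := ⟨hℓ.ne_zero⟩
  obtain ⟨x, hx⟩ := IsAlgClosed.exists_pow_nat_eq z hℓ.pos
  have hx0 : x ≠ 0 := by
    intro h
    rw [h, zero_pow hℓ.ne_zero] at hx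
    exact hz0 hx.symm
  have h1 : (U x / x) ^ ℓ = 1 := by
    rw [div_pow, ← map_pow, hx, hz, div_self hz0]
  obtain ⟨i, hi, hi'⟩ := hζ.eq_pow_of_pow_eq_one h1
  have hUx : U x = ζ ^ i * x := by
    rw [hi', div_mul_cancel₀ _ hx0]
  refine ⟨(i : ZMod ℓ), fun y hy => ?_⟩
  rw [ZMod.val_cast_of_lt hi]
  have h2 : (y / x) ^ ℓ = 1 := by
    rw [div_pow, hx, hy, div_self hz0]
  obtain ⟨j, hj, hj'⟩ := hζ.eq_pow_of_pow_eq_one h2
  have hyx : y = ζ ^ j * x := by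
    rw [hj', div_mul_cancel₀ _ hx0]
  rw [hyx, map_mul, map_pow, hU, hUx]
  ring

lemma kap_spec (hℓ : ℓ.Prime) (hζ : IsPrimitiveRoot ζ ℓ) (hU : U ζ = ζ) {z : F} (hz0 : z ≠ 0)
    (hz : U z = z) {x : F} (hx : x ^ ℓ = z) : U x = ζ ^ (kap ℓ ζ U z).val * x := by
  have h := tk01_ex U hℓ hζ hU hz0 hz
  unfold kap
  rw [dif_pos h]
  exact h.choose_spec x hx

lemma kap_of (hℓ : ℓ.Prime) (hζ : IsPrimitiveRoot ζ ℓ) (hU : U ζ = ζ) {x : F} (hx : x ≠ 0)
    {n : ℤ} (h : U x = ζ ^ n * x) : kap ℓ ζ U (x ^ ℓ) = n := by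
  have : NeZero ℓ := ⟨hℓ.ne_zero⟩
  have hζ0 : ζ ≠ 0 := hζ.ne_zero hℓ.ne_zero
  have hz : U (x ^ ℓ) = x ^ ℓ := by
    have h1 : (ζ ^ n) ^ ℓ = 1 := by
      rw [← zpow_natCast, ← zpow_mul, mul_comm, zpow_mul, zpow_natCast, hζ.pow_eq_one, one_zpow]
    rw [map_pow, h, mul_pow, h1, one_mul]
  have h2 := kap_spec U hℓ hζ hU (pow_ne_zero ℓ hx) hz (rfl : x ^ ℓ = x ^ ℓ)
  rw [h] at h2
  have h3 : ζ ^ n = ζ ^ ((kap ℓ ζ U (x ^ ℓ)).val : ℤ) := by
    rw [zpow_natCast]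
    exact mul_right_cancel₀ hx h2
  have h4 : ζ ^ (n - ((kap ℓ ζ U (x ^ ℓ)).val : ℤ)) = 1 := by
    rw [zpow_sub₀ hζ0, h3, div_self]
    exact zpow_ne_zero _ hζ0
  have h5 : (ℓ : ℤ) ∣ n - ((kap ℓ ζ U (x ^ ℓ)).val : ℤ) := (hζ.zpow_eq_one_iff_dvd _).mp h4
  have h6 : ((n - ((kap ℓ ζ U (x ^ ℓ)).val : ℤ) : ℤ) : ZMod ℓ) = 0 :=
    (ZMod.intCast_zmod_eq_zero_iff_dvd _ _).mpr h5
  rw [Int.cast_sub, Int.cast_natCast, ZMod.natCast_zmod_val, sub_eq_zero] at h6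
  exact h6.symm

lemma tk01_root {U : F ≃+* F} (hℓ : ℓ.Prime) (hζ : IsPrimitiveRoot ζ ℓ) (hU : U ζ = ζ) {z : F}
    (hz0 : z ≠ 0) (hz : U z = z) : ∃ x : F, x ≠ 0 ∧ x ^ ℓ = z ∧
      U x = ζ ^ (((kap ℓ ζ U z).val : ℕ) : ℤ) * x := by
  obtain ⟨x, hx⟩ := IsAlgClosed.exists_pow_nat_eq z hℓ.pos
  refine ⟨x, ?_, hx, ?_⟩
  · intro h
    rw [h, zero_pow hℓ.ne_zero] at hx
    exact hz0 hx.symm
  · rw [zpow_natCast]
    exact kap_spec U hℓ hζ hU hz0 hz hx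

lemma kap_mul (hℓ : ℓ.Prime) (hζ : IsPrimitiveRoot ζ ℓ) (hU : U ζ = ζ) {z z' : F}
    (hz0 : z ≠ 0) (hz0' : z' ≠ 0) (hz : U z = z) (hz' : U z' = z') :
    kap ℓ ζ U (z * z') = kap ℓ ζ U z + kap ℓ ζ U z' := by
  have : NeZero ℓ := ⟨hℓ.ne_zero⟩
  have hζ0 : ζ ≠ 0 := hζ.ne_zero hℓ.ne_zero
  obtain ⟨x, hx0, hx, hUx⟩ := tk01_root hℓ hζ hU hz0 hz
  obtain ⟨y, hy0, hy, hUy⟩ := tk01_root hℓ hζ hU hz0' hz'
  have h := kap_of U hℓ hζ hU (mul_ne_zero hx0 hy0)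
    (n := ((kap ℓ ζ U z).val : ℤ) + ((kap ℓ ζ U z').val : ℤ)) (by
      rw [map_mul, hUx, hUy, zpow_add₀ hζ0]
      ring)
  rw [mul_pow, hx, hy, Int.cast_add, Int.cast_natCast, Int.cast_natCast, ZMod.natCast_zmod_val,
    ZMod.natCast_zmod_val] at h
  exact h

lemma kap_zpow (hℓ : ℓ.Prime) (hζ : IsPrimitiveRoot ζ ℓ) (hU : U ζ = ζ) {z : F}
    (hz0 : z ≠ 0) (hz : U z = z) (n : ℤ) : kap ℓ ζ U (z ^ n) = n * kap ℓ ζ U z := by
  have : NeZero ℓ := ⟨hℓ.ne_zero⟩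
  obtain ⟨x, hx0, hx, hUx⟩ := tk01_root hℓ hζ hU hz0 hz
  have h := kap_of U hℓ hζ hU (zpow_ne_zero n hx0) (n := ((kap ℓ ζ U z).val : ℤ) * n) (by
      rw [map_zpow₀, hUx, mul_zpow, ← zpow_mul])
  have h1 : (x ^ n) ^ ℓ = z ^ n := by
    rw [← hx, ← zpow_natCast, ← zpow_natCast, ← zpow_mul, ← zpow_mul, mul_comm]
  rw [h1, Int.cast_mul, Int.cast_natCast, ZMod.natCast_zmod_val, mul_comm] at h
  exact h

lemma tk01_one (hℓ : ℓ.Prime) (hζ : IsPrimitiveRoot ζ ℓ) (hU : U ζ = ζ) : kap ℓ ζ U 1 = 0 := by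
  have h := kap_of U hℓ hζ hU (one_ne_zero) (n := 0) (by rw [map_one, zpow_zero, one_mul])
  rw [one_pow, Int.cast_zero] at h
  exact h

lemma kap_prod (hℓ : ℓ.Prime) (hζ : IsPrimitiveRoot ζ ℓ) (hU : U ζ = ζ) {ι : Type*}
    (S : Finset ι) (z : ι → F) (hz0 : ∀ i ∈ S, z i ≠ 0) (hz : ∀ i ∈ S, U (z i) = z i) :
    kap ℓ ζ U (∏ i ∈ S, z i) = ∑ i ∈ S, kap ℓ ζ U (z i) := by
  induction S using Finset.induction_on with
  | empty => simpa using tk01_one U hℓ hζ hU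
  | insert a S ha ih =>
    rw [Finset.prod_insert ha, Finset.sum_insert ha]
    have h0 : ∀ i ∈ S, z i ≠ 0 := fun i hi => hz0 i (Finset.mem_insert_of_mem hi)
    have h1 : ∀ i ∈ S, U (z i) = z i := fun i hi => hz i (Finset.mem_insert_of_mem hi)
    rw [kap_mul U hℓ hζ hU (hz0 a (Finset.mem_insert_self a S)) (Finset.prod_ne_zero_iff.mpr h0)
      (hz a (Finset.mem_insert_self a S)) (by rw [map_prod]; exact Finset.prod_congr rfl h1),
      ih h0 h1]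

lemma kap_eq_zero (hℓ : ℓ.Prime) (hζ : IsPrimitiveRoot ζ ℓ) (hU : U ζ = ζ) {z : F}
    (hz0 : z ≠ 0) (h : ∀ x, x ^ ℓ = z → U x = x) : kap ℓ ζ U z = 0 := by
  obtain ⟨x, hx⟩ := IsAlgClosed.exists_pow_nat_eq z hℓ.pos
  have hx0 : x ≠ 0 := by
    intro h
    rw [h, zero_pow hℓ.ne_zero] at hx
    exact hz0 hx.symm
  have h1 := kap_of U hℓ hζ hU hx0 (n := 0) (by rw [zpow_zero, one_mul]; exact h x hx)
  rw [hx, Int.cast_zero] at h1
  exact h1

end

end Pool.Agent.Lib.MP_89bcae_ag.Sup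

end

section

/-!
# Definitions for the density theorem
-/

open Polynomial

open scoped Classical

namespace Pool.Agent.Lib.MP_89bcae_ag.Sup

universe u

/-- The function `o` is a homomorphism on `K`, zero on the differences of elements of `S`, except for
the pairs matched by the bijection `M` between the fibres of `p` over `α` and `α'`. -/
structure MOrd {F : Type u} [Field F] (K : Subfield F) (S : Finset F) (p : F → F) (α α' : F)
    (M : F → F) (o : F → ℤ) : Prop where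
  mul : ∀ a ∈ K, ∀ b ∈ K, a ≠ 0 → b ≠ 0 → o (a * b) = o a + o b
  same : ∀ β ∈ S, ∀ β' ∈ S, β ≠ β' → p β = p β' → o (β - β') = 0
  out : ∀ β ∈ S, ∀ β' ∈ S, p β ≠ p β' → ¬ (p β = α ∧ p β' = α') →
    ¬ (p β = α' ∧ p β' = α) → o (β - β') = 0
  mem : ∀ β ∈ S, p β = α → M β ∈ S ∧ p (M β) = α'
  inj : ∀ β ∈ S, ∀ β' ∈ S, p β = α → p β' = α → M β = M β' → β = β'
  surj : ∀ β' ∈ S, p β' = α' → ∃ β ∈ S, p β = α ∧ M β = β'
  left : ∀ β ∈ S, p β = α → ∀ β' ∈ S, p β' = α' → o (β - β') = if β' = M β then 1 else 0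

/-- The values of the symbol on the differences: the matching `M` between the fibres over `α` and `α'`,
the constant `c` between the fibres over `α` and `α''`. -/
structure KpOk {F : Type u} [Field F] {ℓ : ℕ} (S : Finset F) (p : F → F) (α α' α'' : F)
    (M : F → F) (c : ZMod ℓ) (kp : F → ZMod ℓ) : Prop where
  mem : ∀ β ∈ S, p β = α → M β ∈ S ∧ p (M β) = α'
  inj : ∀ β ∈ S, ∀ β' ∈ S, p β = α → p β' = α → M β = M β' → β = β'
  surj : ∀ β' ∈ S, p β' = α' → ∃ β ∈ S, p β = α ∧ M β = β'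
  same : ∀ β ∈ S, ∀ β' ∈ S, β ≠ β' → p β = p β' → kp (β - β') = 0
  ab : ∀ β ∈ S, p β = α → ∀ β' ∈ S, p β' = α' → kp (β - β') = if β' = M β then 1 else 0
  ba : ∀ β ∈ S, p β = α' → ∀ β' ∈ S, p β' = α → kp (β - β') = if β = M β' then 1 else 0
  ac : ∀ β ∈ S, p β = α → ∀ β' ∈ S, p β' = α'' → kp (β - β') = c
  ao : ∀ β ∈ S, p β = α → ∀ β' ∈ S, p β' ≠ α → p β' ≠ α' → p β' ≠ α'' → kp (β - β') = 0
  bo : ∀ β ∈ S, p β = α' → ∀ β' ∈ S, p β' ≠ α' → p β' ≠ α → kp (β - β') = 0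

/-- The criterion for all towers. -/
structure CRall (ℓ : ℕ) {k F : Type u} [Field k] [Field F] [Algebra k F] (g E : k[X]) (ζ : k)
    (U : F ≃ₐ[k] F) (B : Set F) : Prop where
  fix : ∀ β ∈ RR F g E, U β = β
  neg : ∀ x : F, x ^ ℓ = -1 → U x = x
  sep : ∀ μ : ZMod ℓ, SepU g E (kap ℓ (algebraMap k F ζ) U) μ B

end Pool.Agent.Lib.MP_89bcae_ag.Sup

end

section

open Polynomial

open scoped Classical

set_option linter.unusedSectionVars false

namespace Pool.Agent.Lib.MP_89bcae_ag.Sup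

universe u

theorem exists_delta {ℓ : ℕ} [Fact ℓ.Prime] {m : ZMod ℓ} (hm : m ≠ 0) :
    ∃ c : ZMod ℓ, ∀ z : ZMod ℓ, z * (z + m * c) ≠ 1 := by
  have h1 : ∃ δ : ZMod ℓ, ∀ z : ZMod ℓ, z ≠ 0 → z⁻¹ - z ≠ δ := by
    by_contra hcon
    push Not at hcon
    have h2 : (Finset.univ : Finset (ZMod ℓ)) ⊆
        (Finset.univ.filter fun z : ZMod ℓ => z ≠ 0).image fun z => z⁻¹ - z := by
      intro δ _
      obtain ⟨z, hz, hzδ⟩ := hcon δ
      exact Finset.mem_image.2 ⟨z, Finset.mem_filter.2 ⟨Finset.mem_univ _, hz⟩, hzδ⟩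
    have h3 := (Finset.card_le_card h2).trans Finset.card_image_le
    have h4 : (Finset.univ.filter fun z : ZMod ℓ => z ≠ 0).card <
        (Finset.univ : Finset (ZMod ℓ)).card := by
      refine Finset.card_lt_card ?_
      rw [Finset.filter_ssubset]
      exact ⟨0, Finset.mem_univ _, by simp⟩
    omega
  obtain ⟨δ, hδ⟩ := h1
  refine ⟨δ / m, fun z hz => ?_⟩
  rw [mul_div_cancel₀ _ hm] at hz
  have hz0 : z ≠ 0 := by
    rintro rfl
    rw [zero_mul] at hz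
    exact zero_ne_one hz
  apply hδ z hz0
  have h5 : z⁻¹ * (z * (z + δ)) = z⁻¹ * 1 := by rw [hz]
  rw [inv_mul_cancel_left₀ hz0, mul_one] at h5
  rw [← h5]
  ring

private lemma te05_S {F : Type u} [Field F] {ℓ : ℕ} {S : Finset F} {p : F → F} {α α' α'' : F}
    {M : F → F} {c : ZMod ℓ} {kp : F → ZMod ℓ} (h : KpOk S p α α' α'' M c kp) (e : F → ZMod ℓ)
    {β : F} (hβ : β ∈ S) :
    ∑ β' ∈ S.filter (fun β' => p β' = p β), kp (β - β') * (e β - e β') = 0 := by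
  refine Finset.sum_eq_zero fun β' hβ' => ?_
  rw [Finset.mem_filter] at hβ'
  rcases eq_or_ne β β' with h0 | h0
  · rw [h0, sub_self (e β'), mul_zero]
  · rw [h.same β hβ β' hβ'.1 h0 hβ'.2.symm, zero_mul]

private lemma te05_A {F : Type u} [Field F] {ℓ : ℕ} {S : Finset F} {p : F → F} {α α' α'' : F}
    (h1 : α ≠ α') (h2 : α ≠ α'') (h3 : α' ≠ α'')
    {M : F → F} {c : ZMod ℓ} {kp : F → ZMod ℓ} (h : KpOk S p α α' α'' M c kp) (e : F → ZMod ℓ)
    {m : ℕ} (hm : (S.filter (fun β => p β = α'')).card = m)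
    (hs : ∑ β' ∈ S.filter (fun β' => p β' = α''), e β' = 0)
    {β : F} (hβ : β ∈ S) (hα : p β = α) :
    ∑ β' ∈ S.filter (fun β' => p β' ≠ p β), kp (β - β') * (e β - e β') =
      (1 + m * c) * e β - e (M β) := by
  have hMm := h.mem β hβ hα
  have e1 : ∀ β' ∈ S.filter (fun β' => p β' ≠ p β), kp (β - β') * (e β - e β') =
      (if β' = M β then e β - e β' else 0) + if p β' = α'' then c * (e β - e β') else 0 := by
    intro β' hβ'
    rw [Finset.mem_filter, hα] at hβ'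
    rcases eq_or_ne (p β') α' with h4 | h4
    · rw [h.ab β hβ hα β' hβ'.1 h4, if_neg (show ¬ p β' = α'' by rw [h4]; exact h3), add_zero]
      split_ifs
      · rw [one_mul]
      · rw [zero_mul]
    · have h5 : ¬ β' = M β := by
        rintro rfl
        exact h4 hMm.2
      rw [if_neg h5, zero_add]
      rcases eq_or_ne (p β') α'' with h6 | h6
      · rw [if_pos h6, h.ac β hβ hα β' hβ'.1 h6]
      · rw [if_neg h6, h.ao β hβ hα β' hβ'.1 hβ'.2 h4 h6, zero_mul]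
  rw [Finset.sum_congr rfl e1, Finset.sum_add_distrib, Finset.sum_ite_eq', if_pos,
    ← Finset.sum_filter, Finset.filter_filter]
  · have e2 : S.filter (fun β' => p β' ≠ p β ∧ p β' = α'') = S.filter (fun β' => p β' = α'') := by
      refine Finset.filter_congr fun β' _ => ?_
      constructor
      · exact fun h4 => h4.2
      · intro h4
        refine ⟨?_, h4⟩
        rw [h4, hα]
        exact h2.symm
    rw [e2, ← Finset.mul_sum, Finset.sum_sub_distrib, hs, Finset.sum_const, hm, nsmul_eq_mul]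
    ring
  · rw [Finset.mem_filter, hMm.2, hα]
    exact ⟨hMm.1, h1.symm⟩

private lemma te05_B {F : Type u} [Field F] {ℓ : ℕ} {S : Finset F} {p : F → F} {α α' α'' : F}
    (h1 : α ≠ α')
    {M : F → F} {c : ZMod ℓ} {kp : F → ZMod ℓ} (h : KpOk S p α α' α'' M c kp) (e : F → ZMod ℓ)
    {β : F} (hβ : β ∈ S) (hα : p β = α) :
    ∑ β' ∈ S.filter (fun β' => p β' ≠ p (M β)), kp (M β - β') * (e (M β) - e β') =
      e (M β) - e β := by
  have hMm := h.mem β hβ hα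
  have e1 : ∀ β' ∈ S.filter (fun β' => p β' ≠ p (M β)), kp (M β - β') * (e (M β) - e β') =
      if β' = β then e (M β) - e β' else 0 := by
    intro β' hβ'
    rw [Finset.mem_filter, hMm.2] at hβ'
    rcases eq_or_ne (p β') α with h4 | h4
    · rw [h.ba (M β) hMm.1 hMm.2 β' hβ'.1 h4]
      by_cases h5 : β' = β
      · rw [if_pos h5, if_pos (by rw [h5]), one_mul]
      · rw [if_neg h5, if_neg, zero_mul]
        intro h6
        exact h5 (h.inj β hβ β' hβ'.1 hα h4 h6).symm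
    · have h5 : ¬ β' = β := by
        rintro rfl
        exact h4 hα
      rw [if_neg h5, h.bo (M β) hMm.1 hMm.2 β' hβ'.1 hβ'.2 h4, zero_mul]
  rw [Finset.sum_congr rfl e1, Finset.sum_ite_eq', if_pos]
  rw [Finset.mem_filter, hMm.2, hα]
  exact ⟨hβ, h1⟩

private lemma te05_bij {F : Type u} [Field F] {ℓ : ℕ} {S : Finset F} {p : F → F} {α α' α'' : F}
    {M : F → F} {c : ZMod ℓ} {kp : F → ZMod ℓ} (h : KpOk S p α α' α'' M c kp)
    (e : F → ZMod ℓ) :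
    ∑ β ∈ S.filter (fun β => p β = α), e (M β) = ∑ β ∈ S.filter (fun β => p β = α'), e β := by
  refine Finset.sum_bij (fun β _ => M β) ?_ ?_ ?_ ?_
  · intro β hβ
    rw [Finset.mem_filter] at hβ ⊢
    exact h.mem β hβ.1 hβ.2
  · intro β hβ β' hβ' heq
    rw [Finset.mem_filter] at hβ hβ'
    exact h.inj β hβ.1 β' hβ'.1 hβ.2 hβ'.2 heq
  · intro β' hβ'
    rw [Finset.mem_filter] at hβ'
    obtain ⟨β, hb, hp, hM⟩ := h.surj β' hβ'.1 hβ'.2
    exact ⟨β, Finset.mem_filter.2 ⟨hb, hp⟩, hM⟩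
  · intro β _
    rfl

private lemma te05_main {F : Type u} [Field F] {ℓ : ℕ} [Fact ℓ.Prime] {S : Finset F}
    {p : F → F} {α α' α'' : F} (h1 : α ≠ α') (h2 : α ≠ α'') (h3 : α' ≠ α'') {M : F → F}
    {c : ZMod ℓ} {kp : F → ZMod ℓ} (h : KpOk S p α α' α'' M c kp) {m : ℕ}
    (hm : ∀ a, a = α ∨ a = α' ∨ a = α'' → (S.filter (fun β => p β = a)).card = m)
    (hm0 : (m : ZMod ℓ) ≠ 0) (hc : ∀ z : ZMod ℓ, z * (z + m * c) ≠ 1) (μ : ZMod ℓ)
    (e : F → ZMod ℓ) (n : ZMod ℓ) (cst : F → ZMod ℓ)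
    (hs : ∀ β ∈ S, ∑ β' ∈ S.filter (fun β' => p β' = p β), e β' = 0)
    (he : ∀ β ∈ S, p β ∈ ({α, α'} : Set F) →
      ∑ β' ∈ S.filter (fun β' => p β' ≠ p β), kp (β - β') * (e β - e β') +
        μ * ∑ β' ∈ S.filter (fun β' => p β' = p β), kp (β - β') * (e β - e β') + n * e β =
          cst (p β)) :
    ∀ β ∈ S, p β = α → e β = 0 ∧ e (M β) = 0 := by
  have hfib : ∀ a, a = α ∨ a = α' ∨ a = α'' → ∑ β' ∈ S.filter (fun β' => p β' = a), e β' = 0 := by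
    intro a ha
    have h4 : (S.filter (fun β => p β = a)).Nonempty := by
      rw [← Finset.card_pos, hm a ha]
      rcases Nat.eq_zero_or_pos m with h0 | h0
      · exfalso
        apply hm0
        rw [h0, Nat.cast_zero]
      · exact h0
    obtain ⟨b, hb⟩ := h4
    rw [Finset.mem_filter] at hb
    have h5 := hs b hb.1
    rwa [hb.2] at h5
  have hA : ∀ β ∈ S, p β = α → (1 + n + m * c) * e β - e (M β) = cst α := by
    intro β hβ hα
    have h4 := he β hβ (by rw [hα]; exact Set.mem_insert _ _)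
    rw [te05_A h1 h2 h3 h e (hm α'' (Or.inr (Or.inr rfl))) (hfib α'' (Or.inr (Or.inr rfl))) hβ hα,
      te05_S h e hβ, hα] at h4
    rw [← h4]
    ring
  have hB : ∀ β ∈ S, p β = α → (1 + n) * e (M β) - e β = cst α' := by
    intro β hβ hα
    have hMm := h.mem β hβ hα
    have h4 := he (M β) hMm.1 (by rw [hMm.2]; exact Set.mem_insert_of_mem _ rfl)
    rw [te05_B h1 h e hβ hα, te05_S h e hMm.1, hMm.2] at h4
    rw [← h4]
    ring
  have hsA := hfib α (Or.inl rfl)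
  have hsB : ∑ β ∈ S.filter (fun β => p β = α), e (M β) = 0 := by
    rw [te05_bij h e]
    exact hfib α' (Or.inr (Or.inl rfl))
  have hcard := hm α (Or.inl rfl)
  have hcA : cst α = 0 := by
    have h4 : ∑ β ∈ S.filter (fun β => p β = α), ((1 + n + m * c) * e β - e (M β)) =
        ∑ β ∈ S.filter (fun β => p β = α), cst α := by
      refine Finset.sum_congr rfl fun β hβ => ?_
      rw [Finset.mem_filter] at hβ
      exact hA β hβ.1 hβ.2
    rw [Finset.sum_sub_distrib, ← Finset.mul_sum, hsA, hsB, Finset.sum_const, hcard,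
      nsmul_eq_mul, mul_zero, sub_zero] at h4
    exact (mul_eq_zero.1 h4.symm).resolve_left hm0
  have hcB : cst α' = 0 := by
    have h4 : ∑ β ∈ S.filter (fun β => p β = α), ((1 + n) * e (M β) - e β) =
        ∑ β ∈ S.filter (fun β => p β = α), cst α' := by
      refine Finset.sum_congr rfl fun β hβ => ?_
      rw [Finset.mem_filter] at hβ
      exact hB β hβ.1 hβ.2
    rw [Finset.sum_sub_distrib, ← Finset.mul_sum, hsA, hsB, Finset.sum_const, hcard,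
      nsmul_eq_mul, mul_zero, sub_zero] at h4
    exact (mul_eq_zero.1 h4.symm).resolve_left hm0
  intro β hβ hα
  have hA' := hA β hβ hα
  have hB' := hB β hβ hα
  rw [hcA] at hA'
  rw [hcB] at hB'
  have h5 : e (M β) = (1 + n + m * c) * e β := (sub_eq_zero.1 hA').symm
  have h6 : ((1 + n) * ((1 + n) + m * c) - 1) * e β = 0 := by
    rw [h5] at hB'
    rw [← hB']
    ring
  have h7 : e β = 0 := by
    rcases mul_eq_zero.1 h6 with h8 | h8
    · exact absurd (sub_eq_zero.1 h8) (hc (1 + n))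
    · exact h8
  exact ⟨h7, by rw [h5, h7, mul_zero]⟩

theorem KpOk.sepU {k F : Type u} [Field k] [Field F] [Algebra k F] {ℓ : ℕ} [Fact ℓ.Prime]
    {g E : k[X]} {α α' α'' : F} (h1 : α ≠ α') (h2 : α ≠ α'') (h3 : α' ≠ α'') {M : F → F}
    {c : ZMod ℓ} {kp : F → ZMod ℓ}
    (h : KpOk (RR F g E) (fun β => aeval β g) α α' α'' M c kp) {m : ℕ}
    (hm : ∀ a, a = α ∨ a = α' ∨ a = α'' →
      ((RR F g E).filter (fun β => aeval β g = a)).card = m) (hm0 : (m : ZMod ℓ) ≠ 0)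
    (hc : ∀ z : ZMod ℓ, z * (z + m * c) ≠ 1) (μ : ZMod ℓ) :
    SepU g E kp μ {α, α'} := by
  intro e n cst hs he
  have key := te05_main h1 h2 h3 h hm hm0 hc μ e n cst hs he
  intro β hβ hB
  rcases hB with h4 | h4
  · exact (key β hβ h4).1
  · obtain ⟨β₁, hb, hp, hM⟩ := h.surj β hβ h4
    rw [← hM]
    exact (key β₁ hb hp).2

end Pool.Agent.Lib.MP_89bcae_ag.Sup

end

section

/-!
The commutator formula.
-/

open Polynomial IsDedekindDomain

open scoped Classical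

set_option linter.unusedSectionVars false

namespace Pool.Agent.Lib.MP_89bcae_ag.Sup

universe u

variable {k F L Ω : Type u} [Field k] [Field F] [Algebra k F] [Field L] [Algebra F[X] L]
  [Field Ω] [Algebra L Ω] [IsAlgClosure k F] [IsFractionRing F[X] L] [IsAlgClosure L Ω]
  {ℓ : ℕ} {g D : k[X]} [hG : IsGood ℓ (cOver k F L Ω g D)] {N : Subgroup (Ω ≃ₐ[L] Ω)}

lemma ta09_act1_zsmul (γ : AutO k F L Ω) (b : ℤ) (x : Ch ℓ k F L Ω g D) :
    act1 γ (b • x) = b • act1 γ x := by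
  funext σ
  change symJ (toSym g D γ) (b • x (conjG γ⁻¹ σ)) = b • symJ (toSym g D γ) (x (conjG γ⁻¹ σ))
  exact map_zsmul _ _ _

lemma ta09_cob_zsmul (b : ℤ) (A : JacOver ℓ (curvePoly k F L g D) Ω) :
    cob (b • A) = b • cob A := by
  funext σ
  change symJ (toSym g D (galA k F σ)) (b • A) - b • A =
    b • (symJ (toSym g D (galA k F σ)) A - A)
  rw [map_zsmul, smul_sub]

lemma ta09_fix_pow {τ : Ω ≃ₐ[L] Ω} {B : JacOver ℓ (curvePoly k F L g D) Ω}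
    (fB : symJ (toSym g D (galA k F τ)) B = B) (m : ℕ) :
    symJ (toSym g D (galA k F (τ ^ m))) B = B := by
  induction m with
  | zero =>
    rw [pow_zero, map_one, map_one, symJ_one]
  | succ m ih =>
    rw [pow_succ, map_mul, map_mul, symJ_mul, fB, ih]

/-- powers of `τ` on a cocycle of the whole group -/
lemma ta09_pow_top {h : Ch ℓ k F L Ω g D} (hh : C1s ⊤ h) {τ : Ω ≃ₐ[L] Ω}
    (fh : symJ (toSym g D (galA k F τ)) (h τ) = h τ) (m : ℕ) :
    act1 (galA k F (τ ^ m)) h = h + cob (m • h τ) := by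
  have h1 : act1 (galA k F τ) h = h + cob (h τ) := by
    funext σ
    exact act1_galA_sub hh (Subgroup.mem_top τ) σ (Subgroup.mem_top σ)
  induction m with
  | zero =>
    rw [pow_zero, map_one, act1_one, zero_smul, cob_zero, add_zero]
  | succ m ih =>
    rw [pow_succ', map_mul, act1_mul, ih, act1_add, h1, act1_cob, map_nsmul, fh, add_assoc,
      ← cob_add, succ_nsmul']

/-- powers of `τ` on `x` -/
lemma ta09_pow_x (hN : Nrm k F N) {x h : Ch ℓ k F L Ω g D} (hh : C1s ⊤ h) (b : ℤ)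
    {τ : Ω ≃ₐ[L] Ω} {A : JacOver ℓ (curvePoly k F L g D) Ω}
    (h1 : ∀ σ ∈ N, act1 (galA k F τ) x σ = x σ - b • h σ + cob A σ)
    (fA : symJ (toSym g D (galA k F τ)) A = A)
    (fh : symJ (toSym g D (galA k F τ)) (h τ) = h τ) (m : ℕ) :
    ∀ σ ∈ N, act1 (galA k F (τ ^ m)) x σ =
      x σ - b • (m • h σ) + cob (m • A - b • (m.choose 2 • h τ)) σ := by
  have h2 : act1 (galA k F τ) h = h + cob (h τ) := by
    funext σ
    exact act1_galA_sub hh (Subgroup.mem_top τ) σ (Subgroup.mem_top σ)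
  induction m with
  | zero =>
    intro σ hσ
    rw [pow_zero, map_one, act1_one, zero_smul, zero_smul, Nat.choose_zero_succ, zero_smul,
      smul_zero, sub_zero, sub_zero, cob_zero, Pi.zero_apply, add_zero]
  | succ m ih =>
    intro σ hσ
    rw [pow_succ', map_mul, act1_mul]
    rw [act1_congr hN (galA k F τ)
      (y := x - b • (m • h) + cob (m • A - b • (m.choose 2 • h τ))) ih σ hσ]
    rw [act1_add, act1_sub, ta09_act1_zsmul, act1_nsmul, act1_cob, h2, map_sub, map_nsmul,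
      map_zsmul, map_nsmul, fA, fh]
    rw [Pi.add_apply, Pi.sub_apply, h1 σ hσ, Pi.smul_apply, Pi.smul_apply, Pi.add_apply]
    have e1 : cob ((m + 1) • A - b • ((m + 1).choose 2 • h τ)) σ =
        cob (m • A - b • (m.choose 2 • h τ)) σ + cob A σ - b • (m • cob (h τ) σ) := by
      have e2 : (m + 1) • A - b • ((m + 1).choose 2 • h τ) =
          (m • A - b • (m.choose 2 • h τ)) + A - b • (m • h τ) := by
        rw [Nat.choose_succ_succ' m 1, Nat.choose_one_right, succ_nsmul, add_smul, smul_add]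
        abel
      rw [e2, cob_sub, cob_add, ta09_cob_zsmul, cob_nsmul]
      rfl
    rw [e1, succ_nsmul, smul_add, smul_add, smul_add]
    abel

theorem commutator_formula {ζ : k} (hζ : IsPrimitiveRoot (zA F L Ω ζ) ℓ)
    (hT : Trs (cOver k F L Ω g D) N) (hN : Nrm k F N) (n : ℕ) {x h y : Ch ℓ k F L Ω g D}
    (hx : C1s N x) (hh : C1s ⊤ h) (hy : C1s ⊤ y) (b : ℤ) (q : ℕ) {τ g₀ : Ω ≃ₐ[L] Ω}
    {γ : AutO k F L Ω} {A B C : JacOver ℓ (curvePoly k F L g D) Ω}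
    (hA : ℓ ^ n • A = 0) (hB : ℓ ^ n • B = 0) (hC : ℓ ^ n • C = 0)
    (hyn : ℓ ^ n • y τ = 0)
    (h1 : ∀ σ ∈ N, act1 (galA k F τ) x σ = x σ - b • h σ + cob A σ)
    (h2 : ∀ σ ∈ N, act1 γ x σ = x σ + y σ + cob B σ)
    (h3 : ∀ σ, act1 γ h σ = h σ + cob C σ)
    (hg₀ : g₀ ∈ N) (hc : γ * galA k F τ = galA k F g₀ * galA k F (τ ^ q) * γ)
    (qh : ∀ σ, q • h σ = h σ) (qA : q • A = A) (qy : q • y τ = y τ)
    (q2 : q.choose 2 • h τ = 0)
    (hx0 : x g₀ = 0) (hh0 : h g₀ = 0) (hy0 : y g₀ = 0)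
    (fA : symJ (toSym g D (galA k F τ)) A = A)
    (fB : symJ (toSym g D (galA k F τ)) B = B)
    (fh : symJ (toSym g D (galA k F τ)) (h τ) = h τ)
    (fy : symJ (toSym g D (galA k F τ)) (y τ) = y τ)
    (gA : symJ (toSym g D (galA k F g₀)) A = A)
    (gB : symJ (toSym g D (galA k F g₀)) B = B)
    (gy : symJ (toSym g D (galA k F g₀)) (y τ) = y τ) :
    y τ = -(b • C) + (symJ (toSym g D γ) A - A) := by
  -- the action of `τ ^ q`
  have hxq : ∀ σ ∈ N, act1 (galA k F (τ ^ q)) x σ = x σ - b • h σ + cob A σ := by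
    intro σ hσ
    rw [ta09_pow_x hN hh b h1 fA fh q σ hσ, qh, qA, q2, smul_zero, sub_zero]
  have hyq : act1 (galA k F (τ ^ q)) y = y + cob (y τ) := by
    rw [ta09_pow_top hy fy q, qy]
  have hgx : ∀ σ ∈ N, act1 (galA k F g₀) x σ = x σ := by
    intro σ hσ
    rw [act1_galA_sub hx hg₀ σ hσ, hx0, cob_zero, Pi.zero_apply, add_zero]
  have hgh : act1 (galA k F g₀) h = h := by
    funext σ
    rw [act1_galA_sub hh (Subgroup.mem_top g₀) σ (Subgroup.mem_top σ), hh0, cob_zero,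
      Pi.zero_apply, add_zero]
  have hgy : act1 (galA k F g₀) y = y := by
    funext σ
    rw [act1_galA_sub hy (Subgroup.mem_top g₀) σ (Subgroup.mem_top σ), hy0, cob_zero,
      Pi.zero_apply, add_zero]
  have h3' : act1 γ h = h + cob C := by
    funext σ
    exact h3 σ
  -- first computation
  have k1 : ∀ σ ∈ N, act1 (γ * galA k F τ) x σ =
      (x σ + y σ + cob B σ) - b • (h σ + cob C σ) + cob (symJ (toSym g D γ) A) σ := by
    intro σ hσ
    rw [act1_mul, act1_congr hN γ (y := x - b • h + cob A) h1 σ hσ, act1_add, act1_sub,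
      ta09_act1_zsmul, act1_cob, h3', Pi.add_apply, Pi.sub_apply, h2 σ hσ, Pi.smul_apply,
      Pi.add_apply]
  -- second computation
  have k2 : ∀ σ ∈ N, act1 (galA k F (τ ^ q)) (act1 γ x) σ =
      (x - b • h + cob A + (y + cob (y τ)) + cob B) σ := by
    intro σ hσ
    rw [act1_congr hN (galA k F (τ ^ q)) (y := x + y + cob B) h2 σ hσ, act1_add, act1_add,
      hyq, act1_cob, ta09_fix_pow fB, Pi.add_apply, Pi.add_apply, hxq σ hσ]
    rfl
  have k3 : ∀ σ ∈ N, act1 (galA k F g₀ * galA k F (τ ^ q) * γ) x σ =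
      x σ - b • h σ + cob A σ + (y σ + cob (y τ) σ) + cob B σ := by
    intro σ hσ
    rw [mul_assoc, act1_mul, act1_mul, act1_congr hN (galA k F g₀) k2 σ hσ, act1_add, act1_add,
      act1_add, act1_sub, act1_add, ta09_act1_zsmul, hgh, hgy, act1_cob, act1_cob, act1_cob,
      gA, gB, gy]
    simp only [Pi.add_apply, Pi.sub_apply, Pi.smul_apply]
    rw [hgx σ hσ]
  have k4 : ∀ σ ∈ N, cob (y τ) σ = cob (-(b • C) + (symJ (toSym g D γ) A - A)) σ := by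
    intro σ hσ
    have e := k1 σ hσ
    rw [hc, k3 σ hσ, smul_add] at e
    rw [cob_add, cob_neg, cob_sub, ta09_cob_zsmul]
    simp only [Pi.add_apply, Pi.sub_apply, Pi.smul_apply, Pi.neg_apply]
    have e2 : cob (y τ) σ = (x σ - b • h σ + cob A σ + (y σ + cob (y τ) σ) + cob B σ)
        - (x σ - b • h σ + cob A σ + y σ + cob B σ) := by abel
    rw [e2, e]
    abel
  refine cob_injN hζ hT n hyn ?_ k4
  rw [smul_add, smul_neg, smul_sub, smul_comm (ℓ ^ n) b C, hC, smul_zero, ← map_nsmul, hA,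
    map_zero, neg_zero, sub_zero, add_zero]

end Pool.Agent.Lib.MP_89bcae_ag.Sup

end

section

open Polynomial IsDedekindDomain

open scoped Classical

set_option linter.unusedSectionVars false

namespace Pool.Agent.Lib.MP_89bcae_ag.Sup

universe u

private lemma tc11_sq {A B : Type u} [Field A] [Field B] {ℓ : ℕ} (σ : A →+* A) (j : A →+* B)
    (w : B →+* B) {f : A[X]} {f' : B[X]} (hσ : f.map σ = f) (hj : f.map j = f')
    (hw : f'.map w = f') (hc : ∀ x, j (σ x) = w (j x)) (Q : Jac ℓ f) :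
    jacMap ℓ j hj (jacMap ℓ σ hσ Q) = jacMap ℓ w hw (jacMap ℓ j hj Q) := by
  have h0 : j.comp σ = w.comp j := RingHom.ext hc
  have h1 : f.map (j.comp σ) = f' := by rw [← Polynomial.map_map, hσ, hj]
  have h2 : f.map (w.comp j) = f' := by rw [← Polynomial.map_map, hj, hw]
  rw [jacMap_jacMap ℓ σ j hσ hj h1, jacMap_jacMap ℓ j w hj hw h2]
  congr 1
  simp only [h0]

private lemma tc11_zJ {A B : Type u} [Field A] [Field B] {ℓ : ℕ} (j : A →+* B)
    {f : A[X]} {f' : B[X]} [IsGood ℓ f] [IsGood ℓ f'] (hj : f.map j = f') (ζ : A) (ζ' : B)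
    (hζ : ζ ^ ℓ = 1) (hζ' : ζ' ^ ℓ = 1) (h : j ζ = ζ') (Q : Jac ℓ f) :
    jacMap ℓ j hj (zJ ζ hζ Q) = zJ ζ' hζ' (jacMap ℓ j hj Q) := by
  subst h
  exact (zJ_jacMap j hj ζ hζ hζ' Q).symm

section formal

variable {ℓ : ℕ} {A : Type u} [Field A] {f : A[X]} [hG : IsGood ℓ f]

private lemma tc11_smul (ζ : A) (hζ : IsPrimitiveRoot ζ ℓ) (P : Jac ℓ f)
    (hP : zJ ζ hζ.pow_eq_one P = P) : ℓ • P = 0 := by
  obtain ⟨e, rfl⟩ := exists_ram_of_zJ_eq ζ hζ P hP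
  exact smul_ram e

private lemma tc11_q_smul {q : ℕ} (hq : QOk ℓ q) (P : Jac ℓ f) (hP : ℓ • P = 0) : q • P = P := by
  obtain ⟨hq0, ⟨m, hm⟩, -⟩ := hq
  have h1 : q = 1 + m * ℓ := by
    rw [mul_comm, ← hm]
    omega
  rw [h1, add_nsmul, one_nsmul, mul_nsmul', hP, nsmul_zero, add_zero]

private lemma tc11_choose {q : ℕ} (hq : QOk ℓ q) (P : Jac ℓ f) (hP : ℓ • P = 0) :
    q.choose 2 • P = 0 := by
  obtain ⟨-, -, m, hm⟩ := hq
  rw [hm, mul_comm, mul_nsmul', hP, nsmul_zero]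

private lemma tc11_iter (ζ : A) (hζ : ζ ^ ℓ = 1) (P : Jac ℓ f) (hP : zJ ζ hζ P = P) (i : ℕ) :
    (zJ ζ hζ)^[i] P = P := by
  induction i with
  | zero => rfl
  | succ i ih => rw [Function.iterate_succ_apply', ih, hP]

private lemma tc11_vJ (ζ : A) (hζ : ζ ^ ℓ = 1) (P : Jac ℓ f) (hP : zJ ζ hζ P = P) :
    vJ ζ hζ P = ℓ.choose 2 • P := by
  unfold vJ
  have h1 : ∀ k ∈ Finset.range ℓ, ∑ i ∈ Finset.range k, (zJ ζ hζ)^[i] P = k • P := by
    intro k _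
    rw [Finset.sum_congr rfl fun i _ => tc11_iter ζ hζ P hP i, Finset.sum_const, Finset.card_range]
  rw [Finset.sum_congr rfl h1, ← Finset.sum_smul, Finset.sum_range_id, Nat.choose_two_right]

private lemma tc11_ellA (ζ : A) (hζ : IsPrimitiveRoot ζ ℓ) (Q P : Jac ℓ f)
    (hQ : Q - zJ ζ hζ.pow_eq_one Q = P) (hP : zJ ζ hζ.pow_eq_one P = P) :
    ℓ • Q = ℓ.choose 2 • P := by
  rw [← tc11_vJ ζ hζ.pow_eq_one P hP, ← hQ, vJ_sub, vJ_zJ, vJ_sub_zJ ζ hζ]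

private lemma tc11_dvd {q m : ℕ} (hℓ : ℓ.Prime) (hq : QOk ℓ q) (hm : q - 1 = ℓ * m) :
    ℓ ∣ m * ℓ.choose 2 := by
  obtain ⟨hq0, -, h2⟩ := hq
  rcases hℓ.eq_two_or_odd' with h | h
  · subst h
    have h3 : q.choose 2 = q * m := by
      rw [Nat.choose_two_right, hm, ← mul_assoc, mul_comm q 2, mul_assoc, Nat.mul_div_cancel_left _ (by norm_num)]
    rw [h3] at h2
    rcases (Nat.prime_two.dvd_mul).1 h2 with h4 | h4
    · exfalso
      omega
    · exact h4.mul_right _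
  · refine Dvd.dvd.mul_left ?_ m
    rw [Nat.choose_two_right]
    obtain ⟨t, ht⟩ := h
    rw [ht, Nat.add_sub_cancel]
    refine ⟨t, ?_⟩
    rw [mul_comm 2 t, ← mul_assoc, Nat.mul_div_cancel _ (by norm_num)]

private lemma tc11_qA (ζ : A) (hζ : IsPrimitiveRoot ζ ℓ) {q : ℕ} (hq : QOk ℓ q) (Q P : Jac ℓ f)
    (hQ : Q - zJ ζ hζ.pow_eq_one Q = P) (hP : zJ ζ hζ.pow_eq_one P = P) : q • Q = Q := by
  obtain ⟨hq0, ⟨m, hm⟩, h2⟩ := id hq
  have h1 : q = 1 + m * ℓ := by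
    rw [mul_comm, ← hm]
    omega
  have h3 : m • ℓ • Q = 0 := by
    rw [tc11_ellA ζ hζ Q P hQ hP, ← mul_nsmul']
    obtain ⟨c, hc⟩ := tc11_dvd hG.prime hq hm
    rw [hc, mul_comm, mul_nsmul', tc11_smul ζ hζ P hP, nsmul_zero]
  conv_lhs => rw [h1, add_nsmul, one_nsmul, mul_nsmul', h3, add_zero]

private lemma tc11_zsmul_ram (c : ℤ) (e : A → ℤ) :
    (ram fun θ => c * e θ : Jac ℓ f) = c • ram e := by
  rw [ram, ramDiv_smul, map_zsmul, ← ram]

private lemma tc11_neg_ram (e : A → ℤ) :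
    (ram fun θ => -e θ : Jac ℓ f) = -ram e := by
  have h := tc11_zsmul_ram (ℓ := ℓ) (f := f) (-1) e
  rw [neg_one_zsmul] at h
  rw [← h]
  congr 1
  funext θ
  ring

private lemma tc11_zJ_zsmul (ζ : A) (hζ : ζ ^ ℓ = 1) (P : Jac ℓ f) (hP : zJ ζ hζ P = P) (c : ℤ) :
    zJ ζ hζ (c • P) = c • P := by
  rw [map_zsmul, hP]

end formal

private lemma tc11_prod {F : Type u} [Field F] [IsAlgClosed F] (P : F[X]) (hP : P.Separable) :
    P = C P.leadingCoeff * ∏ β ∈ P.roots.toFinset, (X - C β) := by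
  have h1 := (IsAlgClosed.splits P).eq_prod_roots
  conv_lhs => rw [h1]
  congr 1
  rw [Finset.prod, Multiset.toFinset_val, (nodup_roots hP).dedup]

section noGood

variable {k F L Ω : Type u} [Field k] [Field F] [Algebra k F] [Field L] [Algebra F[X] L]
  [Field Ω] [Algebra L Ω]

private lemma tc11_aeval {M : Type u} [Field M] [Algebra L M] [Algebra F M]
    (hFM : CompatF F L M) (P : F[X]) :
    aeval (tA F L M) P = algebraMap L M (algebraMap F[X] L P) := by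
  have h : ((aeval (tA F L M) : F[X] →ₐ[F] M) : F[X] →+* M) =
      (algebraMap L M).comp (algebraMap F[X] L) := by
    apply Polynomial.ringHom_ext
    · intro c
      change aeval (tA F L M) (C c) = algebraMap L M (algebraMap F[X] L (C c))
      rw [aeval_C]
      exact hFM c
    · change aeval (tA F L M) X = algebraMap L M (algebraMap F[X] L X)
      rw [aeval_X]
      rfl
  exact RingHom.congr_fun h P

private lemma tc11_z {M : Type u} [Field M] [Algebra L M] [Algebra F M]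
    (hFM : CompatF F L M) (ζ : k) : zA F L M ζ = algebraMap F M (algebraMap k F ζ) := by
  rw [hFM]
  unfold zA base
  rw [RingHom.comp_apply, RingHom.comp_apply, coe_mapRingHom, Polynomial.map_C]

variable [IsAlgClosure k F] [IsFractionRing F[X] L] [IsAlgClosure L Ω] {ℓ : ℕ} {g E : k[X]} {ζ : k}

private lemma tc11_poly {M : Type u} [Field M] [Algebra L M] (j : Ω →ₐ[L] M) (γ : AutO k F L Ω)
    (w : M ≃+* M) (hw : ∀ x, j ((γ : Ω ≃+* Ω) x) = w (j x)) (P : F[X]) :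
    w (algebraMap L M (algebraMap F[X] L P)) =
      algebraMap L M (algebraMap F[X] L (P.map (resF γ : F →+* F))) := by
  rw [← j.commutes, ← hw, resF_spec, j.commutes]

private lemma tc11_map {M : Type u} [Field M] [Algebra L M] (j : Ω →ₐ[L] M) :
    (cOver k F L Ω g 1).map (j : Ω →+* M) = cOver k F L M g 1 := by
  rw [Polynomial.map_map]
  congr 1
  exact j.comp_algebraMap

private lemma tc11_sym {M : Type u} [Field M] [Algebra L M] (j : Ω →ₐ[L] M) (γ : AutO k F L Ω)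
    (w : M ≃+* M) (hw : ∀ x, j ((γ : Ω ≃+* Ω) x) = w (j x)) : w ∈ Sym (cOver k F L M g 1) := by
  rw [mem_Sym, ← tc11_map j, Polynomial.map_map]
  have h2 : (w : M →+* M).comp (j : Ω →+* M) =
      (j : Ω →+* M).comp (((γ : Ω ≃+* Ω)) : Ω →+* Ω) := by
    ext x
    exact (hw x).symm
  rw [h2, ← Polynomial.map_map]
  congr 1
  exact (toSym g 1 γ).2

private lemma tc11_Ua (H : GlobHyp ℓ g E ζ) (U : F ≃ₐ[k] F)
    (hU : ∀ β ∈ RR F g E, U β = β) {a : F} (ha : aeval a E = 0) : U a = a := by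
  have hFc : IsAlgClosed F := IsAlgClosure.isAlgClosed k
  have hdeg : (g.map (algebraMap k F)).natDegree ≠ 0 := by
    rw [natDegree_map]
    intro h0
    have h1 := H.cop
    rw [h0, Nat.coprime_zero_left] at h1
    exact H.prime.one_lt.ne' h1
  obtain ⟨β, hβ⟩ := IsAlgClosed.exists_root (g.map (algebraMap k F) - C a) (by
    rw [degree_sub_C (natDegree_pos_iff_degree_pos.mp (Nat.pos_of_ne_zero hdeg))]
    exact (natDegree_pos_iff_degree_pos.mp (Nat.pos_of_ne_zero hdeg)).ne')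
  rw [IsRoot.def, eval_sub, eval_C, sub_eq_zero, eval_map_algebraMap] at hβ
  have h1 := hU β (by
    rw [mem_RR H, hβ]
    exact ha)
  rw [← hβ, ← aeval_algHom_apply, h1]

private lemma tc11_comp (H : GlobHyp ℓ g E ζ) :
    (E.map (algebraMap k F)).comp (g.map (algebraMap k F)) =
      C (algebraMap k F E.leadingCoeff) * ∏ β ∈ RR F g E, (X - C β) := by
  have hFc : IsAlgClosed F := IsAlgClosure.isAlgClosed k
  have hdeg : g.natDegree ≠ 0 := by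
    intro h0
    have h1 := H.cop
    rw [h0, Nat.coprime_zero_left] at h1
    exact H.prime.one_lt.ne' h1
  have h1 := tc11_prod ((E.comp g).map (algebraMap k F)) H.sep.map
  rw [leadingCoeff_map, leadingCoeff_comp hdeg, H.monic.leadingCoeff, one_pow, mul_one] at h1
  rw [← Polynomial.map_comp]
  exact h1

end noGood

variable {k F L Ω : Type u} [Field k] [Field F] [Algebra k F] [Field L] [Algebra F[X] L]
  [Field Ω] [Algebra L Ω] [IsAlgClosure k F] [IsFractionRing F[X] L] [IsAlgClosure L Ω]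
  [Algebra F Ω] {ℓ : ℕ} {g E : k[X]} [hG : IsGood ℓ (cOver k F L Ω g 1)] {ζ : k}
  {hζ : (zA F L Ω ζ) ^ ℓ = 1} {r : ℕ} {ζr : F} {s : Ω}

/-- The conclusion of the formula at `a`. -/
def Formula (ℓ : ℕ) {k F : Type u} [Field k] [Field F] [Algebra k F] (g E : k[X]) (ζ : k)
    (U : F → F) (a : F) (b κ₀ : ℤ) (e e' : F → ℤ) (cst : ℤ) : Prop :=
  ∀ β, aeval β g = a → ∀ x₀ x₂ : F,
    x₀ ^ ℓ = algebraMap k F E.leadingCoeff ^ e β *
      ∏ β' ∈ (RR F g E).erase β, (β - β') ^ (e β - e β') →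
    x₂ ^ ℓ = ∏ β' ∈ ((RR F g E).filter (fun β' => aeval β' g = aeval β g)).erase β,
      (β - β') ^ (e β - e β') →
    (U x₀) ^ b * x₂ ^ κ₀ = algebraMap k F ζ ^ (e' β + cst) * x₀ ^ b * (U x₂) ^ κ₀

private theorem tc11_local (hF : CompatF F L Ω) (hD : TowDat (L := L) ℓ r g E ζ ζr s)
    (b κ₀ : ℤ) {h y : Ch ℓ k F L Ω g 1} {e e' : F → ℤ} (he : HasExpM ζ E h e)
    (he' : HasExpM ζ E y e') (U : F ≃ₐ[k] F) (hU : ∀ β ∈ RR F g E, U β = β)
    (hS0 : ∀ x₀ : F, x₀ ^ ℓ = -1 → U x₀ = x₀) {a : F} (ha : aeval a E = 0)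
    {M : Type u} [Field M] [Algebra ((plc a).adicCompletion L) M]
    [IsAlgClosure ((plc a).adicCompletion L) M] [Algebra L M]
    [IsScalarTower L ((plc a).adicCompletion L) M] [Algebra F M] {v : AbsoluteValue M ℝ}
    (hd : LocDat F L a M v) (j : Ω →ₐ[L] M)
    (σ : M ≃ₐ[(plc a).adicCompletion L] M) (τ : Ω ≃ₐ[L] Ω) (hτ : ∀ x, j (τ x) = σ (j x))
    (hτs : τ s = xA F L Ω ζr * s)
    (w : M ≃+* M) (hvw : ∀ x, v (w x) = v x) (γ : AutO k F L Ω)
    (hjw : ∀ x, j ((γ : Ω ≃+* Ω) x) = w (j x)) (hres : resF γ = U)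
    (hγs : (γ : Ω ≃+* Ω) s = s)
    (A : JacOver ℓ (curvePoly k F L g 1) Ω) (hA : A - zJ (zA F L Ω ζ) hζ A = κ₀ • h τ)
    (z : Ω → Ω) (nz : Ω → ℤ)
    (hz : ∀ θ ∈ rts (cOver k F L Ω g 1),
      z θ ^ ℓ = ∏ β ∈ RR F g E, (θ - algebraMap F Ω β) ^ e β)
    (hnz : ∀ θ ∈ rts (cOver k F L Ω g 1), (γ : Ω ≃+* Ω) (z θ) =
        zA F L Ω ζ ^ nz ((γ : Ω ≃+* Ω) θ) * z ((γ : Ω ≃+* Ω) θ))
    (hform : y τ = -(b • ram nz) + (symJ (toSym g 1 γ) A - A)) :
    ∃ cst : ℤ, Formula ℓ g E ζ U a b κ₀ e e' cst := by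
  have H := hD.glob
  have hFc : IsAlgClosed F := IsAlgClosure.isAlgClosed k
  have hMc : IsAlgClosed M := IsAlgClosure.isAlgClosed ((plc a).adicCompletion L)
  have hΩc : IsAlgClosed Ω := IsAlgClosure.isAlgClosed L
  have hGM : IsGood ℓ (cOver k F L M g 1) := goodAll_one H M
  have hGE : IsGood ℓ (cOver k F L Ω g E) := isGood_cOver H
  have hFM := hd.compat
  have hv := hd.ctx
  have hjm := tc11_map (k := k) (F := F) (g := g) j
  have hℓ0 : ℓ ≠ 0 := H.prime.ne_zero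
  have hNe : NeZero ℓ := ⟨hℓ0⟩
  have hζM0 : IsPrimitiveRoot (zA F L M ζ) ℓ := zA_primitive H
  have hζM : (zA F L M ζ) ^ ℓ = 1 := hζM0.pow_eq_one
  have hjz : (j : Ω →+* M) (zA F L Ω ζ) = zA F L M ζ := map_zA j ζ
  have hzF : zA F L M ζ = algebraMap F M (algebraMap k F ζ) := tc11_z hFM ζ
  have hζF : IsPrimitiveRoot (algebraMap k F ζ) ℓ :=
    H.zeta.map_of_injective (algebraMap k F).injective
  have hz0 : zA F L M ζ ≠ 0 := hζM0.ne_zero hℓ0
  set g' : F[X] := g.map (algebraMap k F) with hg'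
  set E' : F[X] := E.map (algebraMap k F) with hE'
  -- the element `δ`
  obtain ⟨δ, hδdef⟩ : ∃ δ : M, δ = j (s ^ ℓ ^ (r - 1)) := ⟨_, rfl⟩
  have hδ : δ ^ ℓ = aeval (tA F L M) E' := by
    rw [hδdef, ← map_pow, ← pow_mul, ← pow_succ, Nat.sub_add_cancel hD.rpos, hD.hs]
    change j (algebraMap L Ω (algebraMap F[X] L E')) = _
    rw [j.commutes, tc11_aeval hFM]
  have hB : BadCtx g' E' a (tA F L M) δ ℓ := H.badCtx hFM ha hδ
  have hf : cOver k F L M g 1 = locPoly g' (tA F L M) 1 := cOver_one hFM g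
  have hδ0 : δ ≠ 0 := by
    rintro rfl
    rw [zero_pow hℓ0] at hδ
    exact hB.ne hδ.symm
  have hσδ : σ δ = zA F L M ζ * δ := by
    rw [hδdef, ← hτ, map_pow, hτs, mul_pow, ← xA_pow, hD.pow, ← zA_eq, map_mul]
    congr 1
  have hwδ : w δ = δ := by
    rw [hδdef, ← hjw, map_pow, hγs]
  -- the element `ϖ`
  obtain ⟨ϖ, hϖ⟩ := IsAlgClosed.exists_pow_nat_eq (tA F L M - algebraMap F M a)
    (Nat.pos_of_ne_zero hℓ0)
  have hta : tA F L M - algebraMap F M a ≠ 0 := sub_ne_zero.mpr hv.ne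
  have hϖ0 : ϖ ≠ 0 := by
    rintro rfl
    rw [zero_pow hℓ0] at hϖ
    exact hta hϖ.symm
  have hσL : ∀ x : L, σ (algebraMap L M x) = algebraMap L M x := by
    intro x
    rw [IsScalarTower.algebraMap_apply L ((plc a).adicCompletion L) M]
    exact σ.commutes _
  have hσF : ∀ c : F, σ (algebraMap F M c) = algebraMap F M c := by
    intro c
    rw [hFM]
    exact hσL _
  have hσt : σ (tA F L M) = tA F L M := hσL _
  have hσϖ : σ ϖ = zA F L M ζ ^ (1 : ℤ) * ϖ := by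
    have hq : v (δ / ϖ) = 1 := by
      have h1 : v (δ / ϖ) ^ ℓ = 1 := by
        rw [← map_pow, div_pow, hδ, hϖ, map_div₀, (hv.v_bad hB).1,
          div_self ((map_ne_zero v).mpr hta)]
      exact (pow_eq_one_iff_of_nonneg (v.nonneg _) hℓ0).1 h1
    have hfix := hv.root_of_unit_fixed hℓ0 hζF (σ : M ≃+* M) (fun x => hd.inv σ x) hσF hq (by
      change σ ((δ / ϖ) ^ ℓ) = (δ / ϖ) ^ ℓ
      rw [div_pow, hδ, hϖ, map_div₀, map_sub, hσF, hσt, tc11_aeval hFM, hσL])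
    have hfix' : σ (δ / ϖ) = δ / ϖ := hfix
    rw [map_div₀, hσδ] at hfix'
    have hσϖ0 : σ ϖ ≠ 0 := (map_ne_zero σ).2 hϖ0
    rw [div_eq_div_iff hσϖ0 hϖ0] at hfix'
    rw [zpow_one]
    apply mul_left_cancel₀ hδ0
    rw [← hfix']
    ring
  -- the automorphism `u`
  let u : Sym (cOver k F L M g 1) := ⟨w, tc11_sym j γ w hjw⟩
  have hwP := tc11_poly j γ w hjw
  have huF : ∀ c : F, w (algebraMap F M c) = algebraMap F M (U c) := by
    intro c
    rw [hFM, hwP, Polynomial.map_C, hFM, hres]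
    rfl
  have hut : w (tA F L M) = tA F L M := by
    have := hwP X
    rwa [Polynomial.map_X] at this
  have hmapk : ∀ P : k[X], (P.map (algebraMap k F)).map (U : F →+* F) =
      P.map (algebraMap k F) := by
    intro P
    rw [Polynomial.map_map]
    congr 1
    exact (U : F →ₐ[k] F).comp_algebraMap
  -- the roots
  have hRRmem : ∀ β, g'.eval β = a → β ∈ RR F g E := by
    intro β hβ
    rw [mem_RR H]
    rw [hg', eval_map_algebraMap] at hβ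
    rw [hβ]
    exact ha
  have hwθ : ∀ θ, aeval θ g' = tA F L M → w θ = θ := by
    intro θ hθ
    have h1 : aeval (w θ) g' = tA F L M := by
      have e1 : (w : M →+* M).comp (algebraMap F M) =
          (algebraMap F M).comp (U : F →+* F) := RingHom.ext huF
      have h2 := hom_eval₂ g' (algebraMap F M) (w : M →+* M) θ
      rw [e1, ← eval₂_map, hg', hmapk, ← aeval_def, ← aeval_def] at h2
      have h3 : (w : M →+* M) θ = w θ := rfl
      rw [h3] at h2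
      rw [← hut, ← hθ]
      exact h2.symm
    have h4 := hv.eval_rs hB hθ
    apply hv.rs_injOn hB h1 hθ
    apply hv.rs_eq
    have hr := hv.v_sub_rs (hv.v_root_le hB.monic hB.deg hθ)
    have e2 : w θ - algebraMap F M (rs F v θ) = w (θ - algebraMap F M (rs F v θ)) := by
      rw [map_sub, huF, hU _ (hRRmem _ h4)]
    rw [e2, hvw]
    exact hr
  -- the local characters
  have hch := he.local_char hF H ha hFM hv hd.inv j hϖ σ τ hτ 1 hσϖ
  have hch' := he'.local_char hF H ha hFM hv hd.inv j hϖ σ τ hτ 1 hσϖ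
  have hzJ : ∀ (x : M) (hx : x ^ ℓ = 1) (P : JacOver ℓ (curvePoly k F L g 1) M),
      x = zA F L M ζ → zJ x hx P = zJ (zA F L M ζ) hζM P := by
    rintro _ _ _ rfl
    rfl
  obtain ⟨n, hn1, hn2⟩ := hv.sym_eval (ℓ := ℓ) (g := g') hB.monic hB.deg hB.cop hB.roots hf
    (ζ := algebraMap k F ζ) hζF (by
      rw [← hzF]
      exact hζM0) u (U : F ≃+* F) hvw huF hut (hmapk g) (U.commutes ζ)
    (fun β hβ => hU β (hRRmem β hβ)) hS0 (fun β => κ₀ * e β)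
    (push ℓ (curvePoly k F L g 1) j A) (by
      rw [hzJ _ _ _ hzF.symm]
      have e1 := tc11_zJ (j : Ω →+* M) hjm (zA F L Ω ζ) (zA F L M ζ) hζ hζM hjz A
      have e2 : zJ (zA F L M ζ) hζM (push ℓ (curvePoly k F L g 1) j A) =
          push ℓ (curvePoly k F L g 1) j (zJ (zA F L Ω ζ) hζ A) := e1.symm
      rw [e2, ← map_sub, hA, map_zsmul, hch, ← tc11_zsmul_ram]
      congr 1
      funext θ
      ring)
    ((RR F g E).filter fun β' => aeval β' g = a) (by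
      intro β
      rw [Finset.mem_filter, hg', eval_map_algebraMap]
      refine ⟨fun h1 => h1.2, fun h1 => ⟨hRRmem β ?_, h1⟩⟩
      rw [hg', eval_map_algebraMap]
      exact h1)
  have hji : Function.Injective j := (j : Ω →+* M).injective
  -- the function over `M`
  obtain ⟨nM, hnM⟩ : ∃ nM : M → ℤ, ∀ x, nM (j x) = nz x :=
    ⟨Function.extend j nz 0, fun x => hji.extend_apply _ _ x⟩
  have hpf := congrArg (push ℓ (curvePoly k F L g 1) j) hform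
  have e3 : push ℓ (curvePoly k F L g 1) j (symJ (toSym g 1 γ) A) =
      symJ u (push ℓ (curvePoly k F L g 1) j A) :=
    tc11_sq _ (j : Ω →+* M) _ _ hjm _ hjw _
  have e4 : push ℓ (curvePoly k F L g 1) j (ram nz) = ram nM :=
    jacMap_ram (j : Ω →+* M) hjm nz nM (fun θ _ => hnM θ)
  rw [map_add, map_neg, map_zsmul, map_sub, e3, e4, hn1, hch'] at hpf
  have h0 : (ram fun θ => (1 * e' (rs F v θ) + b * nM θ) - n θ :
      JacOver ℓ (curvePoly k F L g 1) M) = 0 := by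
    have hb := tc11_zsmul_ram (ℓ := ℓ) (f := cOver k F L M g 1) b nM
    rw [ram_sub, ram_add, hb, hpf]
    abel
  obtain ⟨c₀, hc₀⟩ := (ram_eq_zero_iff (zA F L M ζ) hζM0 _).1 h0
  refine ⟨-c₀, ?_⟩
  intro β hβ x₀ x₂ hx₀ hx₂
  have hβ' : g'.eval β = a := by
    rw [hg', eval_map_algebraMap]
    exact hβ
  obtain ⟨θ, hθ, hrs⟩ := hv.exists_root hB hβ'
  have hθr : θ ∈ rts (cOver k F L M g 1) := (mem_rts_one H hFM).2 hθ
  have hθE : θ ∈ rts (cOver k F L M g E) := by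
    rw [← rts_one H]
    exact hθr
  obtain ⟨θ₀, hθ₀E, rfl⟩ := exists_root_eq (k := k) (F := F) H j hθE
  have hθ₀ : θ₀ ∈ rts (cOver k F L Ω g 1) := by
    rw [rts_one H]
    exact hθ₀E
  have hγθ₀ : (γ : Ω ≃+* Ω) θ₀ = θ₀ := by
    apply hji
    rw [hjw]
    exact hwθ _ hθ
  -- the first evaluation
  have hzθ : (j (z θ₀)) ^ ℓ = ∏ β ∈ RR F g E, (j θ₀ - algebraMap F M β) ^ e β := by
    rw [← map_pow, hz θ₀ hθ₀, map_prod]
    refine Finset.prod_congr rfl fun β _ => ?_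
    rw [map_zpow₀, map_sub, hF, j.commutes, ← hFM]
  have hwz : w (j (z θ₀)) = algebraMap F M (algebraMap k F ζ) ^ nz θ₀ * j (z θ₀) := by
    have h1 := hnz θ₀ hθ₀
    rw [hγθ₀] at h1
    rw [← hjw, h1, map_mul, map_zpow₀, ← hzF]
    congr 2
  have hev1 := hv.eval_q hℓ0 hB hζF w (U : F ≃+* F) hvw huF hut (U.commutes ζ) hwδ
    (RR F g E) hRRmem (tc11_comp H) hU e hθ hzθ (nz θ₀) hwz x₀⁻¹ (by
      rw [hrs, inv_pow, hx₀, mul_inv, zpow_neg, ← Finset.prod_inv_distrib]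
      congr 1
      refine Finset.prod_congr rfl fun β' _ => ?_
      rw [← zpow_neg, neg_sub])
  -- the second evaluation
  have hev2 := hn2 (j θ₀) hθr (x₂ ^ (-κ₀)) (by
      rw [hrs, ← zpow_natCast, ← zpow_mul, mul_comm, zpow_mul, zpow_natCast, hx₂, hβ,
        ← Finset.prod_zpow]
      refine Finset.prod_congr rfl fun β' _ => ?_
      rw [← zpow_mul]
      congr 1
      ring)
  have hf0 : cOver k F L M g 1 ≠ 0 := by
    rw [hf]
    exact locPoly_ne_zero hB.monic hB.deg one_ne_zero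
  have hd0 := hc₀ (j θ₀) ((mem_rts hf0).1 hθr)
  rw [hrs, hnM] at hd0
  have hz1 : algebraMap k F ζ ^ (1 * e' β + b * nz θ₀ - n (j θ₀) - c₀) = 1 :=
    (hζF.zpow_eq_one_iff_dvd _).2 hd0
  have hζ0 : algebraMap k F ζ ≠ 0 := hζF.ne_zero hℓ0
  have hU1 : U x₀ = algebraMap k F ζ ^ (-nz θ₀) * x₀ := by
    have h1 : U x₀⁻¹ = algebraMap k F ζ ^ nz θ₀ * x₀⁻¹ := hev1
    rw [map_inv₀] at h1
    rw [← inv_inv (U x₀), h1, mul_inv, inv_inv, zpow_neg]
  have hU2 : (U x₂) ^ κ₀ = algebraMap k F ζ ^ (-n (j θ₀)) * x₂ ^ κ₀ := by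
    have h1 : U (x₂ ^ (-κ₀)) = algebraMap k F ζ ^ n (j θ₀) * x₂ ^ (-κ₀) := hev2
    rw [map_zpow₀, zpow_neg, zpow_neg] at h1
    rw [← inv_inv ((U x₂) ^ κ₀), h1, mul_inv, inv_inv, zpow_neg]
  rw [hU2, hU1, mul_zpow, ← zpow_mul]
  have hz2 : algebraMap k F ζ ^ (-nz θ₀ * b) =
      algebraMap k F ζ ^ (e' β + -c₀) * algebraMap k F ζ ^ (-n (j θ₀)) := by
    rw [← zpow_add₀ hζ0]
    have h1 : e' β + -c₀ + -n (j θ₀) =
        -nz θ₀ * b + (1 * e' β + b * nz θ₀ - n (j θ₀) - c₀) := by ring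
    rw [h1, zpow_add₀ hζ0, hz1, mul_one]
  rw [hz2]
  ring

theorem TowDat.form0 (hF : CompatF F L Ω) (hD : TowDat (L := L) ℓ r g E ζ ζr s)
    (n₀ : ℕ) (b κ₀ : ℤ) {x h y : Ch ℓ k F L Ω g 1} (hx : C1s (Nst s) x)
    (hh : MCs ζ hζ ⊤ h) (hy : MCs ζ hζ ⊤ y) {e e' : F → ℤ} (he : HasExpM ζ E h e)
    (he' : HasExpM ζ E y e') (U : F ≃ₐ[k] F) (hU : ∀ β ∈ RR F g E, U β = β)
    (hS0 : ∀ x₀ : F, x₀ ^ ℓ = -1 → U x₀ = x₀) {q : ℕ} (hq : QOk ℓ q) (hUq : U ζr = ζr ^ q)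
    (h1 : ∀ τ : Ω ≃ₐ[L] Ω, τ s = xA F L Ω ζr * s →
      ∃ A : JacOver ℓ (curvePoly k F L g 1) Ω, ℓ ^ n₀ • A = 0 ∧
        (∀ σ ∈ (Nst s : Subgroup (Ω ≃ₐ[L] Ω)),
          act1 (galA k F τ) x σ = x σ - b • h σ + cob A σ) ∧
        A - zJ (zA F L Ω ζ) hζ A = κ₀ • h τ)
    (h2 : ∀ γ : AutO k F L Ω, resF γ = U → (γ : Ω ≃+* Ω) s = s →
      ∃ B : JacOver ℓ (curvePoly k F L g 1) Ω, ℓ ^ n₀ • B = 0 ∧
        ∀ σ ∈ (Nst s : Subgroup (Ω ≃ₐ[L] Ω)), act1 γ x σ = x σ + y σ + cob B σ)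
    {a : F} (ha : aeval a E = 0)
    (hvan : ∀ σ' ∈ (Nst s : Subgroup (Ω ≃ₐ[L] Ω)), IsLoc F L a σ' →
      x σ' = 0 ∧ h σ' = 0 ∧ y σ' = 0) :
    ∃ cst : ℤ, Formula ℓ g E ζ U a b κ₀ e e' cst := by
  have H := hD.glob
  have hFc : IsAlgClosed F := IsAlgClosure.isAlgClosed k
  have hUa : U a = a := tc11_Ua H U hU ha
  have hζp : IsPrimitiveRoot (zA F L Ω ζ) ℓ := zA_primitive H
  obtain ⟨M, iM1, iM2, iM3, iM4, iM5, iM6, v, j, hd⟩ := exists_locDat (L := L) (Ω := Ω) a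
  obtain ⟨γ₀, hγ₀⟩ := resF_surjective (L := L) (Ω := Ω) U
  obtain ⟨σ, τ, hτ, hτs⟩ := hD.exists_tame_loc hd ha j
  obtain ⟨w, φ, γ, hwφ, hvw, hjw, hres₀, hγs⟩ := hD.exists_gamma hd ha j γ₀ (by
    rw [hγ₀]
    exact hUa)
  have hres : resF γ = U := hres₀.trans hγ₀
  obtain ⟨g₀, hg₀, hconj, hcomm⟩ := hD.exists_comm hτs γ (q := q) (by
    rw [hres]
    exact hUq)
  have hlocτ : IsLoc F L a τ := ⟨M, iM1, iM2, iM3, iM4, iM5, iM6, v, j, σ, hd, hτ⟩
  -- `g₀` is local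
  have hwinv : ∀ x : (plc a).adicCompletion L,
      w.symm (algebraMap ((plc a).adicCompletion L) M x) =
        algebraMap ((plc a).adicCompletion L) M (φ.symm x) := by
    intro x
    rw [RingEquiv.symm_apply_eq, hwφ, RingEquiv.apply_symm_apply]
  let cw : M ≃ₐ[(plc a).adicCompletion L] M :=
    AlgEquiv.ofRingEquiv (f := (w.symm.trans (σ : M ≃+* M)).trans w) (by
      intro x
      change w (σ (w.symm (algebraMap ((plc a).adicCompletion L) M x))) =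
        algebraMap ((plc a).adicCompletion L) M x
      rw [hwinv, σ.commutes, hwφ, RingEquiv.apply_symm_apply])
  have hcw : ∀ x, j (conjG γ τ x) = cw (j x) := by
    intro x
    obtain ⟨x, rfl⟩ := (γ : Ω ≃+* Ω).surjective x
    rw [conjG_spec, hjw, hτ, hjw]
    change w (σ (j x)) = w (σ (w.symm (w (j x))))
    rw [RingEquiv.symm_apply_apply]
  have hpow : ∀ (n : ℕ) x, j ((τ ^ n) x) = (σ ^ n) (j x) := by
    intro n
    induction n with
    | zero =>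
      intro x
      rfl
    | succ n ih =>
      intro x
      rw [pow_succ, pow_succ, AlgEquiv.mul_apply, AlgEquiv.mul_apply, ih, hτ]
  have hlocg : IsLoc F L a g₀ := by
    refine ⟨M, iM1, iM2, iM3, iM4, iM5, iM6, v, j, cw * (σ ^ q)⁻¹, hd, ?_⟩
    intro x
    obtain ⟨x, rfl⟩ := (τ ^ q).surjective x
    have e1 : g₀ ((τ ^ q) x) = conjG γ τ x := by
      rw [hconj]
      rfl
    rw [e1, hcw, hpow, AlgEquiv.mul_apply]
    congr 1
    exact ((σ ^ q).symm_apply_apply _).symm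
  obtain ⟨A, hA0, hA1, hA2⟩ := h1 τ hτs
  obtain ⟨B, hB0, hB1⟩ := h2 γ hres hγs
  obtain ⟨z, nz, hz, -, hnz, hh3⟩ := he.act_rel hF H γ (by
    rw [hres]
    exact hU)
  have hfixh : ∀ σ, zJ (zA F L Ω ζ) hζ (h σ) = h σ := fun σ => hh.fixed σ (Subgroup.mem_top _)
  have hfixy : ∀ σ, zJ (zA F L Ω ζ) hζ (y σ) = y σ := fun σ => hy.fixed σ (Subgroup.mem_top _)
  have hlh : ∀ σ, ℓ • h σ = 0 := fun σ => tc11_smul _ hζp _ (hfixh σ)
  have hly : ∀ σ, ℓ • y σ = 0 := fun σ => tc11_smul _ hζp _ (hfixy σ)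
  have kill : ∀ P : JacOver ℓ (curvePoly k F L g 1) Ω, ℓ • P = 0 → ℓ ^ (n₀ + 1) • P = 0 := by
    intro P hP
    rw [pow_succ, mul_nsmul', hP, nsmul_zero]
  have kill' : ∀ P : JacOver ℓ (curvePoly k F L g 1) Ω, ℓ ^ n₀ • P = 0 →
      ℓ ^ (n₀ + 1) • P = 0 := by
    intro P hP
    rw [pow_succ, mul_nsmul, hP, nsmul_zero]
  have hfixκ : zJ (zA F L Ω ζ) hζp.pow_eq_one (κ₀ • h τ) = κ₀ • h τ :=
    tc11_zJ_zsmul _ hζp.pow_eq_one _ (hfixh τ) κ₀
  have qA : q • A = A := tc11_qA _ hζp hq A (κ₀ • h τ) hA2 hfixκ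
  obtain ⟨hx0, hh0, hy0⟩ := hvan g₀ hg₀ hlocg
  have fx : ∀ P : JacOver ℓ (curvePoly k F L g 1) Ω, ℓ ^ (n₀ + 1) • P = 0 →
      symJ (toSym g 1 (galA k F τ)) P = P := fun P hP => hD.fixt ha hlocτ _ P hP
  have fg : ∀ P : JacOver ℓ (curvePoly k F L g 1) Ω, ℓ ^ (n₀ + 1) • P = 0 →
      symJ (toSym g 1 (galA k F g₀)) P = P := fun P hP => hD.fixt ha hlocg _ P hP
  have hform := commutator_formula hζp hD.trs hD.nrm (n₀ + 1) hx hh.toC1s hy.toC1s b q
    (τ := τ) (g₀ := g₀) (γ := γ) (A := A) (B := B) (C := ram nz) (kill' A hA0) (kill' B hB0)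
    (kill _ (smul_ram nz)) (kill _ (hly τ)) hA1 hB1 hh3 hg₀ hcomm
    (fun σ => tc11_q_smul hq _ (hlh σ)) qA (tc11_q_smul hq _ (hly τ))
    (tc11_choose hq _ (hlh τ)) hx0 hh0 hy0 (fx A (kill' A hA0)) (fx B (kill' B hB0))
    (fx _ (kill _ (hlh τ))) (fx _ (kill _ (hly τ))) (fg A (kill' A hA0)) (fg B (kill' B hB0))
    (fg _ (kill _ (hly τ)))
  exact tc11_local hF hD b κ₀ he he' U hU hS0 ha hd j σ τ hτ hτs w hvw γ hjw hres hγs A hA2 z nz
    hz hnz hform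

end Pool.Agent.Lib.MP_89bcae_ag.Sup

end

section

open Polynomial IsDedekindDomain

open scoped Classical

set_option linter.unusedSectionVars false

namespace Pool.Agent.Lib.MP_89bcae_ag.Sup

universe u

section

variable {ℓ : ℕ} {E : Type u} [Field E] {f : E[X]} [hG : IsGood ℓ f]

/-- The operator `v ∘ v` as a homomorphism. -/
noncomputable def tc12_V (ζ : E) (hζ : ζ ^ ℓ = 1) : Jac ℓ f →+ Jac ℓ f where
  toFun Q := vJ ζ hζ (vJ ζ hζ Q)
  map_zero' := by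
    have h1 := vJ_sub ζ hζ (0 : Jac ℓ f) 0
    rw [sub_self, sub_self] at h1
    rw [h1, h1]
  map_add' Q Q' := by
    rw [vJ_add, vJ_add]

lemma tc12_V_apply (ζ : E) (hζ : ζ ^ ℓ = 1) (Q : Jac ℓ f) :
    tc12_V ζ hζ Q = vJ ζ hζ (vJ ζ hζ Q) := rfl

lemma tc12_V_zJ (ζ : E) (hζ : ζ ^ ℓ = 1) (Q : Jac ℓ f) :
    tc12_V ζ hζ (zJ ζ hζ Q) = zJ ζ hζ (tc12_V ζ hζ Q) := by
  rw [tc12_V_apply, tc12_V_apply, vJ_zJ, vJ_zJ]

lemma tc12_V_iter (ζ : E) (hζ : ζ ^ ℓ = 1) (b : ℕ) (Q : Jac ℓ f) :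
    tc12_V ζ hζ ((zJ ζ hζ)^[b] Q) = (zJ ζ hζ)^[b] (tc12_V ζ hζ Q) := by
  induction b with
  | zero => rfl
  | succ b ih =>
    rw [Function.iterate_succ_apply', Function.iterate_succ_apply', tc12_V_zJ, ih]

lemma tc12_V_sub (ζ : E) (hζ : IsPrimitiveRoot ζ ℓ) (Q : Jac ℓ f) :
    tc12_V ζ hζ.pow_eq_one Q - zJ ζ hζ.pow_eq_one (tc12_V ζ hζ.pow_eq_one Q) =
      vJ ζ hζ.pow_eq_one (ℓ • Q) := by
  rw [tc12_V_apply, vJ_sub_zJ ζ hζ, vJ_smul]

lemma tc12_V_symJ (ζ : E) (hζ : ζ ^ ℓ = 1) (σ : Sym f) (hσ : (σ : E ≃+* E) ζ = ζ)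
    (Q : Jac ℓ f) : tc12_V ζ hζ (symJ σ Q) = symJ σ (tc12_V ζ hζ Q) := by
  rw [tc12_V_apply, tc12_V_apply, vJ_symJ _ _ _ hσ, vJ_symJ _ _ _ hσ]

/-- `Z ^ b Q = Q - b P` if `Q - Z Q = P` and `Z P = P`. -/
lemma tc12_iter (ζ : E) (hζ : ζ ^ ℓ = 1) (b : ℕ) (Q P : Jac ℓ f) (h1 : Q - zJ ζ hζ Q = P)
    (h2 : zJ ζ hζ P = P) : (zJ ζ hζ)^[b] Q = Q - (b : ℤ) • P := by
  induction b with
  | zero => simp
  | succ b ih =>
    rw [Function.iterate_succ_apply', ih, map_sub, map_zsmul, h2]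
    have h3 : zJ ζ hζ Q = Q - P := by rw [← h1]; abel
    rw [h3]
    push_cast
    rw [add_smul, one_smul]
    abel

/-- If `Q - Z Q` is killed by `ℓ` then `Q` is killed by `ℓ ^ 2`. -/
lemma tc12_sq (ζ : E) (hζ : IsPrimitiveRoot ζ ℓ) (Q : Jac ℓ f) (m : E → ℤ)
    (hQ : Q - zJ ζ hζ.pow_eq_one Q = ram m) : ℓ ^ 2 • Q = 0 := by
  have h1 : ℓ • Q = vJ ζ hζ.pow_eq_one (ram m) := by
    rw [← hQ, vJ_sub, vJ_zJ, vJ_sub_zJ ζ hζ]
  rw [pow_two, mul_smul, h1, ← vJ_smul, smul_ram]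
  have h2 := vJ_sub ζ hζ.pow_eq_one (0 : Jac ℓ f) 0
  rwa [sub_self, sub_self] at h2

end

variable {k F L Ω : Type u} [Field k] [Field F] [Algebra k F] [Field L] [Algebra F[X] L]
  [Field Ω] [Algebra L Ω] [IsAlgClosure k F] [IsFractionRing F[X] L] [IsAlgClosure L Ω]

section

variable {ℓ : ℕ} {g D : k[X]} [hG : IsGood ℓ (cOver k F L Ω g D)]

lemma tc12_zC_iter (ζ : k) (hζ : (zA F L Ω ζ) ^ ℓ = 1) (b : ℕ) (c : Coch ℓ k F L Ω g D) (n : ℕ)
    (σ : Ω ≃ₐ[L] Ω) : ((Sup.zC ζ hζ)^[b] c) n σ = (zJ (zA F L Ω ζ) hζ)^[b] (c n σ) := by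
  induction b with
  | zero => rfl
  | succ b ih =>
    rw [Function.iterate_succ_apply', Function.iterate_succ_apply', ← ih]
    rfl

lemma tc12_act1_V (γ : AutO k F L Ω) (ζ : k) (hζ : (zA F L Ω ζ) ^ ℓ = 1)
    (x : Ch ℓ k F L Ω g D) (σ : Ω ≃ₐ[L] Ω) :
    act1 γ (fun σ => tc12_V (zA F L Ω ζ) hζ (x σ)) σ =
      tc12_V (zA F L Ω ζ) hζ (act1 γ x σ) := by
  exact (tc12_V_symJ (f := cOver k F L Ω g D) (zA F L Ω ζ) hζ (toSym g D γ) (zA_fixed ζ γ)
    (x (conjG γ⁻¹ σ))).symm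

lemma tc12_V_cob (ζ : k) (hζ : (zA F L Ω ζ) ^ ℓ = 1)
    (A : JacOver ℓ (curvePoly k F L g D) Ω) (σ : Ω ≃ₐ[L] Ω) :
    tc12_V (zA F L Ω ζ) hζ (cob A σ) = cob (tc12_V (zA F L Ω ζ) hζ A) σ := by
  rw [tc12_V_apply, vJ_cob, vJ_cob, tc12_V_apply]

lemma tc12_iter_cob (ζ : k) (hζ : (zA F L Ω ζ) ^ ℓ = 1) (b : ℕ)
    (A : JacOver ℓ (curvePoly k F L g D) Ω) (σ : Ω ≃ₐ[L] Ω) :
    (zJ (zA F L Ω ζ) hζ)^[b] (cob A σ) = cob ((zJ (zA F L Ω ζ) hζ)^[b] A) σ := by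
  induction b with
  | zero => rfl
  | succ b ih =>
    rw [Function.iterate_succ_apply', Function.iterate_succ_apply', ih, zJ_cob]

end

variable [Algebra F Ω] {ℓ : ℕ} {g E : k[X]} [hG : IsGood ℓ (cOver k F L Ω g 1)] {ζ : k}
  {hζ : (zA F L Ω ζ) ^ ℓ = 1} {r : ℕ} {ζr : F} {s : Ω}

theorem TowDat.form1 (hF : CompatF F L Ω) (hD : TowDat (L := L) ℓ r g E ζ ζr s)
    {c y : Coch ℓ k F L Ω g 1} (hc : TCs (Nst s) c) (hcl : LTs (Nst s) c)
    (hy : TCs (Nst s) y) (hyl : LTs (Nst s) y) {b : ℕ}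
    {τ₀ : Ω ≃ₐ[L] Ω} (hτ₀ : τ₀ s = xA F L Ω ζr * s)
    (heig : TTs (Nst s) (act (galA k F τ₀) c - (Sup.zC ζ hζ)^[b] c))
    {γ₀ : AutO k F L Ω} (hγ₀ : (γ₀ : Ω ≃+* Ω) s = s) (hU : ∀ β ∈ RR F g E, resF γ₀ β = β)
    (hS0 : ∀ x₀ : F, x₀ ^ ℓ = -1 → resF γ₀ x₀ = x₀)
    (hrel : TTs (Nst s) (act γ₀ c - c - (y - Sup.zC ζ hζ y)))
    {h h' : Ch ℓ k F L Ω g 1} (hh : MCs ζ hζ ⊤ h) (hh' : MCs ζ hζ ⊤ h') {m m' : Ω → ℤ}
    (hm : ∀ σ ∈ (Nst s : Subgroup (Ω ≃ₐ[L] Ω)),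
      h σ = vJ (zA F L Ω ζ) hζ (c 1 σ) + cob (ram m) σ)
    (hm' : ∀ σ ∈ (Nst s : Subgroup (Ω ≃ₐ[L] Ω)),
      h' σ = vJ (zA F L Ω ζ) hζ (y 1 σ) + cob (ram m') σ)
    {e e' : F → ℤ} (he : HasExpM ζ E h e) (he' : HasExpM ζ E h' e')
    {a : F} (ha : aeval a E = 0) :
    ∃ cst : ℤ, Formula ℓ g E ζ (resF γ₀) a b 1 e e' cst := by
  have hprim : IsPrimitiveRoot (zA F L Ω ζ) ℓ := zA_primitive (A := Ω) hD.glob
  have hN : Nrm k F (Nst s : Subgroup (Ω ≃ₐ[L] Ω)) := hD.nrm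
  have hT : Trs (cOver k F L Ω g 1) (Nst s : Subgroup (Ω ≃ₐ[L] Ω)) := hD.trs
  obtain ⟨Q, hQ⟩ := exists_sub_zJ (f := cOver k F L Ω g 1) (zA F L Ω ζ) hprim (ram m)
  have hQ2 : ℓ ^ 2 • Q = 0 := tc12_sq _ hprim Q m hQ
  have h32 : ∀ P : Jac ℓ (cOver k F L Ω g 1), ℓ ^ 2 • P = 0 → ℓ ^ 3 • P = 0 := by
    intro P hP
    rw [pow_succ, mul_comm, mul_smul, hP, smul_zero]
  have h31 : ∀ P : Jac ℓ (cOver k F L Ω g 1), ℓ • P = 0 → ℓ ^ 3 • P = 0 := by
    intro P hP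
    rw [pow_succ, mul_smul, hP, smul_zero]
  obtain ⟨q, hq, hUq⟩ := hD.exists_q (resF γ₀) hS0
  -- the cocycle
  let x : Ch ℓ k F L Ω g 1 :=
    fun σ => tc12_V (zA F L Ω ζ) hζ (c 2 σ) + cob Q σ
  have hxdef : ∀ σ, x σ = tc12_V (zA F L Ω ζ) hζ (c 2 σ) + cob Q σ := fun _ => rfl
  have hx : C1s (Nst s) x := by
    have h1 : C1s (Nst s) (fun σ => vJ (zA F L Ω ζ) hζ (vJ (zA F L Ω ζ) hζ (c 2 σ))) :=
      ((hc.c1 2).vJ ζ hζ).vJ ζ hζ
    exact h1.add (C1s.cob Q)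
  -- `x - Z x = h`
  have hxZ : ∀ σ ∈ (Nst s : Subgroup (Ω ≃ₐ[L] Ω)), x σ - zJ (zA F L Ω ζ) hζ (x σ) = h σ := by
    intro σ hσ
    have h1 := tc12_V_sub (f := cOver k F L Ω g 1) (zA F L Ω ζ) hprim (c 2 σ)
    have h2 : ℓ • c 2 σ = c 1 σ := hc.smul 1 σ hσ
    rw [h2] at h1
    have h3 : cob Q σ - zJ (zA F L Ω ζ) hζ (cob Q σ) = cob (ram m) σ := by
      rw [zJ_cob, ← hQ, cob_sub]
      rfl
    rw [hm σ hσ, ← h1, ← h3, hxdef, map_add]
    abel
  have hhZ : ∀ σ, zJ (zA F L Ω ζ) hζ (h σ) = h σ := fun σ => hh.fixed σ (Subgroup.mem_top σ)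
  have hxb : ∀ σ ∈ (Nst s : Subgroup (Ω ≃ₐ[L] Ω)),
      (zJ (zA F L Ω ζ) hζ)^[b] (x σ) = x σ - (b : ℤ) • h σ := fun σ hσ =>
    tc12_iter _ _ b _ _ (hxZ σ hσ) (hhZ σ)
  -- the action on `x`
  have hact : ∀ (γ : AutO k F L Ω) (σ : Ω ≃ₐ[L] Ω), act1 γ x σ =
      tc12_V (zA F L Ω ζ) hζ (act1 γ (c 2) σ) + cob (symJ (toSym g 1 γ) Q) σ := by
    intro γ σ
    have h1 : x = (fun σ => tc12_V (zA F L Ω ζ) hζ (c 2 σ)) + cob Q := rfl
    rw [h1, act1_add, Pi.add_apply, tc12_act1_V, act1_cob]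
  have hkill : ∀ σ, ℓ • h σ = 0 := by
    intro σ
    obtain ⟨n, hn⟩ := exists_ram_of_zJ_eq (f := cOver k F L Ω g 1) (zA F L Ω ζ) hprim (h σ)
      (hhZ σ)
    rw [hn]
    exact smul_ram n
  have key := hD.form0 (hζ := hζ) hF 3 (b : ℤ) 1 hx hh hh' he he' (resF γ₀) hU hS0 hq hUq ?_ ?_ ha ?_
  · exact key
  · -- the relation for `τ`
    intro τ hτ
    have hη : τ₀⁻¹ * τ ∈ (Nst s : Subgroup (Ω ≃ₐ[L] Ω)) :=
      inv_mul_mem_nst (hτ₀.trans hτ.symm)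
    have e1 : act (galA k F τ) c - act (galA k F τ₀) c =
        act (galA k F τ₀) (act (galA k F (τ₀⁻¹ * τ)) c - c) := by
      rw [act_sub, ← act_mul, ← map_mul, mul_inv_cancel_left]
    have e2 : TTs (Nst s) (act (galA k F τ) c - (Sup.zC ζ hζ)^[b] c) := by
      have e3 := ((act_galA_subs hN hc hη).act hN (galA k F τ₀)).add heig
      rw [← e1] at e3
      have e4 : act (galA k F τ) c - act (galA k F τ₀) c +
          (act (galA k F τ₀) c - (Sup.zC ζ hζ)^[b] c) =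
          act (galA k F τ) c - (Sup.zC ζ hζ)^[b] c := by abel
      rwa [e4] at e3
    obtain ⟨A₂, hA₂, hA₂'⟩ := e2.2 2
    have e5 : ∀ σ ∈ (Nst s : Subgroup (Ω ≃ₐ[L] Ω)), act1 (galA k F τ) (c 2) σ =
        (zJ (zA F L Ω ζ) hζ)^[b] (c 2 σ) + cob A₂ σ := by
      intro σ hσ
      rw [← hA₂' σ hσ, ← tc12_zC_iter]
      change _ = _ + (act1 (galA k F τ) (c 2) σ - ((Sup.zC ζ hζ)^[b] c) 2 σ)
      abel
    let A : JacOver ℓ (curvePoly k F L g 1) Ω := tc12_V (zA F L Ω ζ) hζ A₂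
      + symJ (toSym g 1 (galA k F τ)) Q - (zJ (zA F L Ω ζ) hζ)^[b] Q
    have hA : A = tc12_V (zA F L Ω ζ) hζ A₂
      + symJ (toSym g 1 (galA k F τ)) Q - (zJ (zA F L Ω ζ) hζ)^[b] Q := rfl
    have hiter : ∀ (P : Jac ℓ (cOver k F L Ω g 1)), ℓ ^ 2 • P = 0 →
        ℓ ^ 2 • (zJ (zA F L Ω ζ) hζ)^[b] P = 0 := by
      intro P hP
      have : ∀ j : ℕ, ℓ ^ 2 • (zJ (zA F L Ω ζ) hζ)^[j] P = 0 := by
        intro j
        induction j with
        | zero => exact hP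
        | succ j ih =>
          rw [Function.iterate_succ_apply', ← map_nsmul, ih, map_zero]
      exact this b
    have hA3 : ℓ ^ 3 • A = 0 := by
      refine h32 A ?_
      rw [hA, smul_sub, smul_add, ← map_nsmul, ← map_nsmul, hiter Q hQ2, hQ2, hA₂, map_zero,
        map_zero, add_zero, sub_zero]
    have hrelA : ∀ σ ∈ (Nst s : Subgroup (Ω ≃ₐ[L] Ω)),
        act1 (galA k F τ) x σ = x σ - (b : ℤ) • h σ + cob A σ := by
      intro σ hσ
      rw [hact, e5 σ hσ, ← hxb σ hσ, hxdef, iterate_map_add, map_add, tc12_V_iter, tc12_V_cob,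
        tc12_iter_cob, hA, cob_sub, cob_add]
      simp only [Pi.add_apply, Pi.sub_apply]
      abel
    refine ⟨A, hA3, hrelA, ?_⟩
    rw [one_smul]
    refine cob_injN hprim hT 3 ?_ (h31 _ (hkill τ)) ?_
    · rw [smul_sub, ← map_nsmul, hA3, map_zero, sub_zero]
    · intro σ hσ
      have f1 := act1_galA_sub hh.toC1s (Subgroup.mem_top τ) σ (Subgroup.mem_top σ)
      have f2 : act1 (galA k F τ) h σ =
          act1 (galA k F τ) (x - fun σ => zJ (zA F L Ω ζ) hζ (x σ)) σ :=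
        act1_congr hN (galA k F τ) (fun σ hσ => (hxZ σ hσ).symm) σ hσ
      rw [act1_sub, act1_zJ, Pi.sub_apply, hrelA σ hσ, map_add, map_sub, map_zsmul, hhZ σ,
        zJ_cob] at f2
      have f3 := hxZ σ hσ
      rw [f1] at f2
      rw [cob_sub, Pi.sub_apply]
      have f4 : cob A σ - cob (zJ (zA F L Ω ζ) hζ A) σ = h σ + cob (h τ) σ - h σ := by
        rw [f2, ← f3]
        abel
      rw [f4]
      abel
  · -- the relation for `γ`
    intro γ hγ hγs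
    obtain ⟨η, hη, hγη⟩ := exists_galA_nst (γ := γ₀) (γ' := γ) hγ.symm (hγ₀.trans hγs.symm)
    have e1 : act γ c - act γ₀ c = act γ₀ (act (galA k F η) c - c) := by
      rw [act_sub, ← act_mul, ← hγη]
    have e2 : TTs (Nst s) (act γ c - c - (y - Sup.zC ζ hζ y)) := by
      have e3 := ((act_galA_subs hN hc hη).act hN γ₀).add hrel
      rw [← e1] at e3
      have e4 : act γ c - act γ₀ c + (act γ₀ c - c - (y - Sup.zC ζ hζ y)) =
          act γ c - c - (y - Sup.zC ζ hζ y) := by abel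
      rwa [e4] at e3
    obtain ⟨B₂, hB₂, hB₂'⟩ := e2.2 2
    have e5 : ∀ σ ∈ (Nst s : Subgroup (Ω ≃ₐ[L] Ω)), act1 γ (c 2) σ =
        c 2 σ + (y 2 σ - zJ (zA F L Ω ζ) hζ (y 2 σ)) + cob B₂ σ := by
      intro σ hσ
      rw [← hB₂' σ hσ]
      change _ = _ + (act1 γ (c 2) σ - c 2 σ - (y 2 σ - zJ (zA F L Ω ζ) hζ (y 2 σ)))
      abel
    let B : JacOver ℓ (curvePoly k F L g 1) Ω := tc12_V (zA F L Ω ζ) hζ B₂
      + symJ (toSym g 1 γ) Q - Q - ram m'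
    have hB : B = tc12_V (zA F L Ω ζ) hζ B₂ + symJ (toSym g 1 γ) Q - Q - ram m' := rfl
    have hB3 : ℓ ^ 3 • B = 0 := by
      have hr : ℓ ^ 2 • (ram m' : Jac ℓ (cOver k F L Ω g 1)) = 0 := by
        rw [pow_two, mul_smul, smul_ram, smul_zero]
      refine h32 B ?_
      rw [hB, smul_sub, smul_sub, smul_add, ← map_nsmul, ← map_nsmul, hQ2, hB₂, map_zero, hr,
        map_zero, add_zero, sub_zero, sub_zero]
    refine ⟨B, hB3, fun σ hσ => ?_⟩
    have f1 := tc12_V_sub (f := cOver k F L Ω g 1) (zA F L Ω ζ) hprim (y 2 σ)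
    have f2 : ℓ • y 2 σ = y 1 σ := hy.smul 1 σ hσ
    rw [f2] at f1
    rw [hact, e5 σ hσ, map_add, map_add, map_sub, tc12_V_zJ, tc12_V_cob, f1, hm' σ hσ, hxdef, hB,
      cob_sub, cob_sub, cob_add]
    simp only [Pi.add_apply, Pi.sub_apply]
    abel
  · -- vanishing
    intro σ' hσ' hloc
    have v2 := hD.vanish ha hc hcl 2 hloc hσ'
    have v1 := hD.vanish ha hc hcl 1 hloc hσ'
    have w1 := hD.vanish ha hy hyl 1 hloc hσ'
    have hfix : ∀ P : JacOver ℓ (curvePoly k F L g 1) Ω, ℓ ^ 2 • P = 0 → cob P σ' = 0 := by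
      intro P hP
      rw [cob_apply, hD.fixt ha hloc 2 P hP, sub_self]
    have hr : ∀ n : Ω → ℤ, ℓ ^ 2 • (ram n : Jac ℓ (cOver k F L Ω g 1)) = 0 := by
      intro n
      rw [pow_two, mul_smul, smul_ram, smul_zero]
    have hv0 : vJ (zA F L Ω ζ) hζ (0 : Jac ℓ (cOver k F L Ω g 1)) = 0 := by
      have h2 := vJ_sub (zA F L Ω ζ) hζ (0 : Jac ℓ (cOver k F L Ω g 1)) 0
      rwa [sub_self, sub_self] at h2
    refine ⟨?_, ?_, ?_⟩
    · rw [hxdef, v2, map_zero, hfix Q hQ2, add_zero]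
    · rw [hm σ' hσ', v1, hfix _ (hr m), add_zero]
      exact hv0
    · rw [hm' σ' hσ', w1, hfix _ (hr m'), add_zero]
      exact hv0

end Pool.Agent.Lib.MP_89bcae_ag.Sup

end

section

open Polynomial IsDedekindDomain

open scoped Classical

set_option linter.unusedSectionVars false

namespace Pool.Agent.Lib.MP_89bcae_ag.Sup

universe u

variable {k F : Type u} [Field k] [Field F] [Algebra k F] [IsAlgClosure k F]
  {ℓ : ℕ} {g E : k[X]} {ζ : k}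

lemma tk02_zpow_zmod {ζF : F} (hp : ℓ.Prime) (hζ : IsPrimitiveRoot ζF ℓ) {m n : ℤ}
    (h : ζF ^ m = ζF ^ n) : (m : ZMod ℓ) = n := by
  have h0 : ζF ≠ 0 := hζ.ne_zero hp.ne_zero
  have h1 : ζF ^ (m - n) = 1 := by
    rw [zpow_sub₀ h0, h, div_self (zpow_ne_zero _ h0)]
  have h2 : (ℓ : ℤ) ∣ m - n := (hζ.zpow_eq_one_iff_dvd (m - n)).1 h1
  have h3 : ((m - n : ℤ) : ZMod ℓ) = 0 := (ZMod.intCast_zmod_eq_zero_iff_dvd (m - n) ℓ).2 h2
  rw [Int.cast_sub] at h3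
  exact sub_eq_zero.1 h3

theorem Formula.kap (H : GlobHyp ℓ g E ζ) (U : F ≃ₐ[k] F) (hU : ∀ β ∈ RR F g E, U β = β)
    {a : F} (ha : aeval a E = 0) {b κ₀ : ℤ} {e e' : F → ℤ} {cst : ℤ}
    (hf : Formula ℓ g E ζ U a b κ₀ e e' cst) :
    ∀ β : F, aeval β g = a →
      (b : ZMod ℓ) * (Sup.kap ℓ (algebraMap k F ζ) U (algebraMap k F E.leadingCoeff) * e β +
          sumO g E (Sup.kap ℓ (algebraMap k F ζ) U) (fun x => (e x : ZMod ℓ)) β +
          sumS g E (Sup.kap ℓ (algebraMap k F ζ) U) (fun x => (e x : ZMod ℓ)) β) =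
        (e' β : ZMod ℓ) + cst +
          κ₀ * sumS g E (Sup.kap ℓ (algebraMap k F ζ) U) (fun x => (e x : ZMod ℓ)) β := by
  intro β hβ
  have : IsAlgClosed F := IsAlgClosure.isAlgClosed k
  have : Fact ℓ.Prime := ⟨H.prime⟩
  have hβR : β ∈ RR F g E := (mem_RR H).2 (by rw [hβ, ha])
  have hprim : IsPrimitiveRoot (algebraMap k F ζ) ℓ :=
    H.zeta.map_of_injective (algebraMap k F).injective
  have hUζ : (U : F ≃+* F) (algebraMap k F ζ) = algebraMap k F ζ := U.commutes ζ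
  have hUl : (U : F ≃+* F) (algebraMap k F E.leadingCoeff) = algebraMap k F E.leadingCoeff :=
    U.commutes _
  have hE0 : E ≠ 0 := by
    rintro rfl
    exact H.pos natDegree_zero
  have hl0 : algebraMap k F E.leadingCoeff ≠ 0 := by
    rw [Ne, map_eq_zero]
    exact leadingCoeff_ne_zero.2 hE0
  have hd0 : ∀ S : Finset F, S ⊆ RR F g E → ∀ β' ∈ S.erase β, (β - β') ^ (e β - e β') ≠ 0 := by
    intro S _ β' hβ'
    exact zpow_ne_zero _ (sub_ne_zero.2 (Finset.ne_of_mem_erase hβ').symm)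
  have hdU : ∀ S : Finset F, S ⊆ RR F g E → ∀ β' ∈ S.erase β,
      (U : F ≃+* F) ((β - β') ^ (e β - e β')) = (β - β') ^ (e β - e β') := by
    intro S hS β' hβ'
    have h1 : (U : F ≃+* F) β = β := hU β hβR
    have h2 : (U : F ≃+* F) β' = β' := hU β' (hS (Finset.mem_of_mem_erase hβ'))
    rw [map_zpow₀, map_sub, h1, h2]
  have hsum : ∀ S : Finset F, S ⊆ RR F g E → β ∈ S →
      Sup.kap ℓ (algebraMap k F ζ) U (∏ β' ∈ S.erase β, (β - β') ^ (e β - e β')) =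
        ∑ β' ∈ S, Sup.kap ℓ (algebraMap k F ζ) U (β - β') * ((e β : ZMod ℓ) - e β') := by
    intro S hS hβS
    have h1 := kap_prod (U : F ≃+* F) H.prime hprim hUζ (S.erase β)
      (fun β' => (β - β') ^ (e β - e β')) (hd0 S hS) (hdU S hS)
    have h2 : Sup.kap ℓ (algebraMap k F ζ) U (∏ β' ∈ S.erase β, (β - β') ^ (e β - e β')) =
      ∑ β' ∈ S.erase β, Sup.kap ℓ (algebraMap k F ζ) U ((β - β') ^ (e β - e β')) := h1
    rw [h2, ← Finset.add_sum_erase S _ hβS, sub_self, sub_self ((e β : ZMod ℓ)), mul_zero, zero_add]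
    refine Finset.sum_congr rfl fun β' hβ' => ?_
    have h3 : (U : F ≃+* F) (β - β') = β - β' := by
      have h1 : (U : F ≃+* F) β = β := hU β hβR
      have h2 : (U : F ≃+* F) β' = β' := hU β' (hS (Finset.mem_of_mem_erase hβ'))
      rw [map_sub, h1, h2]
    have h4 := kap_zpow (U : F ≃+* F) H.prime hprim hUζ
      (sub_ne_zero.2 (Finset.ne_of_mem_erase hβ').symm : β - β' ≠ 0) h3 (e β - e β')
    have h5 : Sup.kap ℓ (algebraMap k F ζ) U ((β - β') ^ (e β - e β')) =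
      ((e β - e β' : ℤ) : ZMod ℓ) * Sup.kap ℓ (algebraMap k F ζ) U (β - β') := h4
    rw [h5]
    push_cast
    ring
  have hprod0 : ∀ S : Finset F, S ⊆ RR F g E → (∏ β' ∈ S.erase β, (β - β') ^ (e β - e β')) ≠ 0 :=
    fun S hS => Finset.prod_ne_zero_iff.2 (hd0 S hS)
  have hprodU : ∀ S : Finset F, S ⊆ RR F g E →
      (U : F ≃+* F) (∏ β' ∈ S.erase β, (β - β') ^ (e β - e β')) =
        ∏ β' ∈ S.erase β, (β - β') ^ (e β - e β') := by
    intro S hS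
    rw [map_prod]
    exact Finset.prod_congr rfl (hdU S hS)
  set z₂ : F := ∏ β' ∈ ((RR F g E).filter (fun β' => aeval β' g = aeval β g)).erase β,
      (β - β') ^ (e β - e β') with hz₂
  set z₁ : F := ∏ β' ∈ (RR F g E).erase β, (β - β') ^ (e β - e β') with hz₁
  have hz₁0 : z₁ ≠ 0 := hprod0 _ (Finset.Subset.refl _)
  have hz₂0 : z₂ ≠ 0 := hprod0 _ (Finset.filter_subset _ _)
  have hUz₁ : (U : F ≃+* F) z₁ = z₁ := hprodU _ (Finset.Subset.refl _)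
  have hUz₂ : (U : F ≃+* F) z₂ = z₂ := hprodU _ (Finset.filter_subset _ _)
  have hUle : (U : F ≃+* F) (algebraMap k F E.leadingCoeff ^ e β) =
      algebraMap k F E.leadingCoeff ^ e β := by
    rw [map_zpow₀, hUl]
  have hle0 : algebraMap k F E.leadingCoeff ^ e β ≠ 0 := zpow_ne_zero _ hl0
  obtain ⟨x₀, hx₀⟩ := IsAlgClosed.exists_pow_nat_eq
    (algebraMap k F E.leadingCoeff ^ e β * z₁) H.prime.pos
  obtain ⟨x₂, hx₂⟩ := IsAlgClosed.exists_pow_nat_eq z₂ H.prime.pos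
  have hx₀0 : x₀ ≠ 0 := by
    rintro rfl
    rw [zero_pow H.prime.ne_zero] at hx₀
    exact mul_ne_zero hle0 hz₁0 hx₀.symm
  have hx₂0 : x₂ ≠ 0 := by
    rintro rfl
    rw [zero_pow H.prime.ne_zero] at hx₂
    exact hz₂0 hx₂.symm
  have hform := hf β hβ x₀ x₂ hx₀ hx₂
  have k0 : U x₀ = algebraMap k F ζ ^
      (Sup.kap ℓ (algebraMap k F ζ) U (algebraMap k F E.leadingCoeff ^ e β * z₁)).val * x₀ :=
    kap_spec (U : F ≃+* F) H.prime hprim hUζ (mul_ne_zero hle0 hz₁0)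
      (by rw [map_mul, hUle, hUz₁]) hx₀
  have k2 : U x₂ = algebraMap k F ζ ^ (Sup.kap ℓ (algebraMap k F ζ) U z₂).val * x₂ :=
    kap_spec (U : F ≃+* F) H.prime hprim hUζ hz₂0 hUz₂ hx₂
  have km : Sup.kap ℓ (algebraMap k F ζ) U (algebraMap k F E.leadingCoeff ^ e β * z₁) =
      (e β : ZMod ℓ) * Sup.kap ℓ (algebraMap k F ζ) U (algebraMap k F E.leadingCoeff) +
        Sup.kap ℓ (algebraMap k F ζ) U z₁ := by
    have h1 := kap_mul (U : F ≃+* F) H.prime hprim hUζ hle0 hz₁0 hUle hUz₁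
    have h2 := kap_zpow (U : F ≃+* F) H.prime hprim hUζ hl0 hUl (e β)
    have h1' : Sup.kap ℓ (algebraMap k F ζ) U (algebraMap k F E.leadingCoeff ^ e β * z₁) =
      Sup.kap ℓ (algebraMap k F ζ) U (algebraMap k F E.leadingCoeff ^ e β) +
        Sup.kap ℓ (algebraMap k F ζ) U z₁ := h1
    have h2' : Sup.kap ℓ (algebraMap k F ζ) U (algebraMap k F E.leadingCoeff ^ e β) =
      (e β : ZMod ℓ) * Sup.kap ℓ (algebraMap k F ζ) U (algebraMap k F E.leadingCoeff) := h2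
    rw [h1', h2']
  rw [k0, k2] at hform
  set K₀ := Sup.kap ℓ (algebraMap k F ζ) U (algebraMap k F E.leadingCoeff ^ e β * z₁) with hK₀
  set K₂ := Sup.kap ℓ (algebraMap k F ζ) U z₂ with hK₂
  have hζ0 : algebraMap k F ζ ≠ 0 := hprim.ne_zero H.prime.ne_zero
  have key : algebraMap k F ζ ^ ((K₀.val : ℤ) * b) =
      algebraMap k F ζ ^ ((e' β + cst) + (K₂.val : ℤ) * κ₀) := by
    have h1 : (algebraMap k F ζ ^ K₀.val * x₀) ^ b =
        algebraMap k F ζ ^ ((K₀.val : ℤ) * b) * x₀ ^ b := by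
      rw [mul_zpow, ← zpow_natCast, ← zpow_mul]
    have h2 : (algebraMap k F ζ ^ K₂.val * x₂) ^ κ₀ =
        algebraMap k F ζ ^ ((K₂.val : ℤ) * κ₀) * x₂ ^ κ₀ := by
      rw [mul_zpow, ← zpow_natCast, ← zpow_mul]
    rw [h1, h2] at hform
    have h3 : x₀ ^ b * x₂ ^ κ₀ ≠ 0 := mul_ne_zero (zpow_ne_zero _ hx₀0) (zpow_ne_zero _ hx₂0)
    refine mul_right_cancel₀ h3 ?_
    rw [zpow_add₀ hζ0]
    linear_combination hform
  have hcast := tk02_zpow_zmod H.prime hprim key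
  have c0 : ((K₀.val : ℤ) : ZMod ℓ) = K₀ := by
    rw [Int.cast_natCast, ZMod.natCast_zmod_val]
  have c2 : ((K₂.val : ℤ) : ZMod ℓ) = K₂ := by
    rw [Int.cast_natCast, ZMod.natCast_zmod_val]
  push_cast at hcast
  rw [ZMod.natCast_zmod_val, ZMod.natCast_zmod_val] at hcast
  have s1 : Sup.kap ℓ (algebraMap k F ζ) U z₁ =
      sumO g E (Sup.kap ℓ (algebraMap k F ζ) U) (fun x => (e x : ZMod ℓ)) β +
      sumS g E (Sup.kap ℓ (algebraMap k F ζ) U) (fun x => (e x : ZMod ℓ)) β := by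
    rw [hz₁, hsum _ (Finset.Subset.refl _) hβR, sumO, sumS, add_comm]
    exact (Finset.sum_filter_add_sum_filter_not _ _ _).symm
  have s2 : K₂ = sumS g E (Sup.kap ℓ (algebraMap k F ζ) U) (fun x => (e x : ZMod ℓ)) β := by
    rw [hK₂, hz₂, hsum ((RR F g E).filter (fun β' => aeval β' g = aeval β g))
      (Finset.filter_subset _ _) (Finset.mem_filter.2 ⟨hβR, rfl⟩), sumS]
  rw [km, s1, s2] at hcast
  linear_combination hcast

end Pool.Agent.Lib.MP_89bcae_ag.Sup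

end

section

open Polynomial IsDedekindDomain

open scoped Classical

set_option linter.unusedSectionVars false

namespace Pool.Agent.Lib.MP_89bcae_ag.Sup

universe u

variable {k F L Ω : Type u} [Field k] [Field F] [Algebra k F] [Field L] [Algebra F[X] L]
  [Field Ω] [Algebra L Ω] [IsAlgClosure k F] [IsFractionRing F[X] L] [IsAlgClosure L Ω]
  [Algebra F Ω] {ℓ : ℕ} {g E : k[X]} [hG : IsGood ℓ (cOver k F L Ω g 1)] {ζ : k}
  {hζ : (zA F L Ω ζ) ^ ℓ = 1} {r : ℕ} {ζr : F} {s : Ω}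

/-- Two automorphisms over `k(t)` which differ by an element of `N` act in the same way on the classes. -/
lemma tc13_tts (hN : Nrm k F (Nst s : Subgroup (Ω ≃ₐ[L] Ω))) {η : Coch ℓ k F L Ω g 1}
    (hc : TCs (Nst s) η) (γ₀ : AutO k F L Ω) {n : Ω ≃ₐ[L] Ω}
    (hn : n ∈ (Nst s : Subgroup (Ω ≃ₐ[L] Ω))) :
    TTs (Nst s) (act (γ₀ * galA k F n) η - act γ₀ η) := by
  rw [act_mul, ← act_sub]
  exact (act_galA_subs hN hc hn).act hN γ₀

lemma tc13_v (hz : IsPrimitiveRoot (zA F L Ω ζ) ℓ)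
    {A : JacOver ℓ (curvePoly k F L g 1) Ω} (hA : ℓ ^ 1 • A = 0) :
    zJ (zA F L Ω ζ) hζ (vJ (zA F L Ω ζ) hζ A) = vJ (zA F L Ω ζ) hζ A ∧
      ℓ ^ 1 • vJ (zA F L Ω ζ) hζ A = 0 := by
  constructor
  · have h1 : vJ (zA F L Ω ζ) hζ A - zJ (zA F L Ω ζ) hζ (vJ (zA F L Ω ζ) hζ A) = ℓ • A :=
      vJ_sub_zJ _ hz A
    rw [pow_one] at hA
    rw [hA] at h1
    exact (sub_eq_zero.1 h1).symm
  · rw [← vJ_smul, hA]
    have h2 := vJ_sub (zA F L Ω ζ) hζ (0 : JacOver ℓ (curvePoly k F L g 1) Ω) 0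
    rwa [sub_self, sub_self] at h2

theorem TowDat.form2 (hF : CompatF F L Ω) (hD : TowDat (L := L) ℓ r g E ζ ζr s)
    {η : Coch ℓ k F L Ω g 1} (hc : TCs (Nst s) η) (hcl : LTs (Nst s) η)
    {τ₀ : Ω ≃ₐ[L] Ω} (hτ₀ : τ₀ s = xA F L Ω ζr * s)
    {γ₀ : AutO k F L Ω} (hγ₀ : (γ₀ : Ω ≃+* Ω) s = s) (hU : ∀ β ∈ RR F g E, resF γ₀ β = β)
    (hS0 : ∀ x₀ : F, x₀ ^ ℓ = -1 → resF γ₀ x₀ = x₀)
    {h h' : Ch ℓ k F L Ω g 1} (hh : MCs ζ hζ ⊤ h) (hh' : MCs ζ hζ ⊤ h') {m m' : Ω → ℤ}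
    (hm : ∀ σ ∈ (Nst s : Subgroup (Ω ≃ₐ[L] Ω)),
      h σ = vJ (zA F L Ω ζ) hζ ((η - act (galA k F τ₀) η) 1 σ) + cob (ram m) σ)
    (hm' : ∀ σ ∈ (Nst s : Subgroup (Ω ≃ₐ[L] Ω)),
      h' σ = vJ (zA F L Ω ζ) hζ ((act γ₀ η - η) 1 σ) + cob (ram m') σ)
    {e e' : F → ℤ} (he : HasExpM ζ E h e) (he' : HasExpM ζ E h' e')
    {a : F} (ha : aeval a E = 0) :
    ∃ cst : ℤ, Formula ℓ g E ζ (resF γ₀) a 1 0 e e' cst := by
  have hz : IsPrimitiveRoot (zA F L Ω ζ) ℓ := zA_primitive hD.glob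
  have hN : Nrm k F (Nst s : Subgroup (Ω ≃ₐ[L] Ω)) := hD.nrm
  obtain ⟨q, hq, hUq⟩ := hD.exists_q (resF γ₀) hS0
  set x : Ch ℓ k F L Ω g 1 := fun σ => vJ (zA F L Ω ζ) hζ (η 1 σ) with hx
  have hact : ∀ (γ : AutO k F L Ω) (σ : Ω ≃ₐ[L] Ω),
      act1 γ x σ = vJ (zA F L Ω ζ) hζ (act γ η 1 σ) := by
    intro γ σ
    have h1 := act1_vJ γ ζ hζ (η 1)
    rw [act_apply1]
    exact congrFun h1 σ
  have hram : ∀ m : Ω → ℤ, ℓ ^ 1 • (ram m : JacOver ℓ (curvePoly k F L g 1) Ω) = 0 := by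
    intro m
    rw [pow_one]
    exact smul_ram m
  refine TowDat.form0 hF hD 1 1 0 ((hc.c1 1).vJ ζ hζ) hh hh' he he' (resF γ₀) hU hS0 hq hUq ?_ ?_ ha ?_
  · intro τ hτ
    have hn : τ₀⁻¹ * τ ∈ (Nst s : Subgroup (Ω ≃ₐ[L] Ω)) := inv_mul_mem_nst (by rw [hτ₀, hτ])
    obtain ⟨-, h2⟩ := tc13_tts hN hc (galA k F τ₀) hn
    obtain ⟨A₁, hA₁, hA₁c⟩ := h2 1
    have e1 : galA k F τ₀ * galA k F (τ₀⁻¹ * τ) = galA k F τ := by
      rw [← map_mul, mul_inv_cancel_left]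
    rw [e1] at hA₁c
    obtain ⟨v1, v2⟩ := tc13_v (hζ := hζ) hz hA₁
    refine ⟨ram m + vJ (zA F L Ω ζ) hζ A₁, ?_, ?_, ?_⟩
    · rw [smul_add, hram, v2, add_zero]
    · intro σ hσ
      have h3 := hA₁c σ hσ
      have h4 := hm σ hσ
      have h5 : act (galA k F τ) η 1 σ = act (galA k F τ₀) η 1 σ + cob A₁ σ := by
        rw [← h3]
        exact (add_sub_cancel _ _).symm
      have h6 : h σ = vJ (zA F L Ω ζ) hζ (η 1 σ) - vJ (zA F L Ω ζ) hζ (act (galA k F τ₀) η 1 σ) +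
          cob (ram m) σ := by
        rw [h4, ← vJ_sub]
        rfl
      rw [hact, h5, vJ_add, vJ_cob, cob_add, Pi.add_apply, one_smul, h6]
      change _ = vJ (zA F L Ω ζ) hζ (η 1 σ) - _ + _
      abel
    · rw [map_add, zJ_ram, v1, sub_self, zero_smul]
  · intro γ hγ hγs
    obtain ⟨n, hn, rfl⟩ := exists_galA_nst (γ := γ₀) (γ' := γ) (s := s) hγ.symm (by rw [hγ₀, hγs])
    obtain ⟨-, h2⟩ := tc13_tts hN hc γ₀ hn
    obtain ⟨B₁, hB₁, hB₁c⟩ := h2 1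
    obtain ⟨v1, v2⟩ := tc13_v (hζ := hζ) hz hB₁
    refine ⟨vJ (zA F L Ω ζ) hζ B₁ - ram m', ?_, ?_⟩
    · rw [smul_sub, hram, v2, sub_zero]
    · intro σ hσ
      have h3 := hB₁c σ hσ
      have h4 := hm' σ hσ
      have h5 : act (γ₀ * galA k F n) η 1 σ = act γ₀ η 1 σ + cob B₁ σ := by
        rw [← h3]
        exact (add_sub_cancel _ _).symm
      have h6 : h' σ = vJ (zA F L Ω ζ) hζ (act γ₀ η 1 σ) - vJ (zA F L Ω ζ) hζ (η 1 σ) +
          cob (ram m') σ := by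
        rw [h4, ← vJ_sub]
        rfl
      rw [hact, h5, vJ_add, vJ_cob, cob_sub, Pi.sub_apply, h6]
      change _ = vJ (zA F L Ω ζ) hζ (η 1 σ) + _ + _
      abel
  · intro σ' hσ' hloc
    have hv0 : vJ (zA F L Ω ζ) hζ (0 : JacOver ℓ (curvePoly k F L g 1) Ω) = 0 := by
      have h2 := vJ_sub (zA F L Ω ζ) hζ (0 : JacOver ℓ (curvePoly k F L g 1) Ω) 0
      rwa [sub_self, sub_self] at h2
    have z0 : η 1 σ' = 0 := hD.vanish ha hc hcl 1 hloc hσ'
    have z1 : act (galA k F τ₀) η 1 σ' = 0 := hD.vanish ha (hc.act hN _) (hcl.act hN _) 1 hloc hσ'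
    have z2 : act γ₀ η 1 σ' = 0 := hD.vanish ha (hc.act hN _) (hcl.act hN _) 1 hloc hσ'
    have zc : ∀ m : Ω → ℤ, cob (ram m : JacOver ℓ (curvePoly k F L g 1) Ω) σ' = 0 := by
      intro m
      rw [cob_apply, hD.fixt ha hloc 1 _ (hram m), sub_self]
    refine ⟨?_, ?_, ?_⟩
    · change vJ (zA F L Ω ζ) hζ (η 1 σ') = 0
      rw [z0, hv0]
    · have e1 : (η - act (galA k F τ₀) η) 1 σ' = η 1 σ' - act (galA k F τ₀) η 1 σ' := rfl
      rw [hm σ' hσ', e1, z0, z1, sub_self, hv0, zc, add_zero]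
    · have e1 : (act γ₀ η - η) 1 σ' = act γ₀ η 1 σ' - η 1 σ' := rfl
      rw [hm' σ' hσ', e1, z0, z2, sub_self, hv0, zc, add_zero]

end Pool.Agent.Lib.MP_89bcae_ag.Sup

end

section

open Polynomial

open scoped Classical

namespace Pool.Agent.Lib.MP_89bcae_ag.Re

open Sup

universe u v

private theorem q02_sum {k F : Type u} {κ G : Type v} [Field k] [Field F] [Algebra k F] [Field κ]
    [Field G] [Algebra κ G] {ℓ : ℕ} {g E : k[X]} {g' E' : κ[X]} (ρ : F → G)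
    (hinj : ∀ β ∈ RR F g E, ∀ β' ∈ RR F g E, ρ β = ρ β' → β = β')
    (himg : RR G g' E' = (RR F g E).image ρ) (p : G → Prop) (q : F → Prop) [DecidablePred p] [DecidablePred q]
    (hpq : ∀ β ∈ RR F g E, p (ρ β) ↔ q β) (f : G → ZMod ℓ) (f' : F → ZMod ℓ)
    (hf : ∀ β ∈ RR F g E, f (ρ β) = f' β) :
    ∑ β' ∈ (RR G g' E').filter p, f β' = ∑ β' ∈ (RR F g E).filter q, f' β' := by
  rw [himg, Finset.filter_image, Finset.sum_image]
  · rw [Finset.filter_congr hpq]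
    exact Finset.sum_congr rfl fun β hβ => hf β (Finset.mem_filter.1 hβ).1
  · intro β hβ β' hβ' h
    exact hinj β (Finset.mem_filter.1 hβ).1 β' (Finset.mem_filter.1 hβ').1 h

/-- Transport of the separation condition along a bijection `ρ` between the sets of roots which
respects the fibres and multiplies the symbols by `c ≠ 0`. Proof: given `e'`, `N`, `cst'` for the second
side put `e β = e' (ρ β)`, `N / c`, `cst (g β) = cst' (g' (ρ β)) / c` (well defined because `ρ` respects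
the fibres; for instance `cst α = cst' (g' (ρ β)) / c` for a chosen `β` in `RR` over `α`), and compare the
sums term by term (`Finset.sum_image`; the terms `β' = β` are zero because of `e β - e β' = 0`). -/
theorem sepU_transport {k F : Type u} {κ G : Type v} [Field k] [Field F] [Algebra k F] [Field κ]
    [Field G] [Algebra κ G] {ℓ : ℕ} [Fact ℓ.Prime] {g E : k[X]} {g' E' : κ[X]} (ρ : F → G)
    (hinj : ∀ β ∈ RR F g E, ∀ β' ∈ RR F g E, ρ β = ρ β' → β = β')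
    (himg : RR G g' E' = (RR F g E).image ρ)
    (hfib : ∀ β ∈ RR F g E, ∀ β' ∈ RR F g E,
      aeval (ρ β) g' = aeval (ρ β') g' ↔ aeval β g = aeval β' g)
    {kp : F → ZMod ℓ} {kp' : G → ZMod ℓ} {c : ZMod ℓ} (hc : c ≠ 0)
    (hkp : ∀ β ∈ RR F g E, ∀ β' ∈ RR F g E, β ≠ β' → kp' (ρ β - ρ β') = c * kp (β - β'))
    {μ : ZMod ℓ} (h : SepU g E kp μ Set.univ) : SepU g' E' kp' μ Set.univ := by
  intro e' n cst' hz heq γ hγ _
  have key : ∀ β ∈ RR F g E, (fun β => e' (ρ β)) β = 0 := by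
    intro β hβ
    refine h (fun β => e' (ρ β)) (n / c)
      (fun α => if hα : ∃ β₀ ∈ RR F g E, aeval β₀ g = α then cst' (aeval (ρ hα.choose) g') / c else 0)
      ?_ ?_ β hβ (Set.mem_univ _)
    · intro β₁ h₁
      have hm : ρ β₁ ∈ RR G g' E' := by
        rw [himg]
        exact Finset.mem_image_of_mem ρ h₁
      rw [← hz (ρ β₁) hm]
      exact (q02_sum ρ hinj himg _ _ (fun β₂ h₂ => hfib β₂ h₂ β₁ h₁) _ _ fun β₂ _ => rfl).symm
    · intro β₁ h₁ _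
      have hm : ρ β₁ ∈ RR G g' E' := by
        rw [himg]
        exact Finset.mem_image_of_mem ρ h₁
      have hex : ∃ β₀ ∈ RR F g E, aeval β₀ g = aeval β₁ g := ⟨β₁, h₁, rfl⟩
      have hterm : ∀ β₂ ∈ RR F g E, kp' (ρ β₁ - ρ β₂) * (e' (ρ β₁) - e' (ρ β₂)) =
          c * (kp (β₁ - β₂) * (e' (ρ β₁) - e' (ρ β₂))) := by
        intro β₂ h₂
        by_cases h12 : β₁ = β₂
        · rw [h12, sub_self (e' (ρ β₂))]
          ring
        · rw [hkp β₁ h₁ β₂ h₂ h12]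
          ring
      have hS : sumS g' E' kp' e' (ρ β₁) = c * sumS g E kp (fun β => e' (ρ β)) β₁ := by
        unfold sumS
        rw [Finset.mul_sum]
        exact q02_sum ρ hinj himg _ _ (fun β₂ h₂ => hfib β₂ h₂ β₁ h₁)
          (fun γ => kp' (ρ β₁ - γ) * (e' (ρ β₁) - e' γ)) _ hterm
      have hO : sumO g' E' kp' e' (ρ β₁) = c * sumO g E kp (fun β => e' (ρ β)) β₁ := by
        unfold sumO
        rw [Finset.mul_sum]
        exact q02_sum ρ hinj himg (fun γ => aeval γ g' ≠ aeval (ρ β₁) g') (fun β₂ => aeval β₂ g ≠ aeval β₁ g)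
          (fun β₂ h₂ => not_congr (hfib β₂ h₂ β₁ h₁))
          (fun γ => kp' (ρ β₁ - γ) * (e' (ρ β₁) - e' γ)) _ hterm
      have h3 := heq (ρ β₁) hm (Set.mem_univ _)
      rw [hS, hO] at h3
      have h4 : aeval (ρ hex.choose) g' = aeval (ρ β₁) g' :=
        (hfib _ hex.choose_spec.1 β₁ h₁).2 hex.choose_spec.2
      rw [dif_pos hex, h4, ← h3]
      field_simp
  rw [himg, Finset.mem_image] at hγ
  obtain ⟨β, hβ, rfl⟩ := hγ
  exact key β hβ

/-- If the fibres have at least two elements, the symbol is not identically zero. Proof: otherwise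
`sumO` and `sumS` vanish for all `e`; let `β₁ ≠ β₂` be in the same fibre and `e = 1` at `β₁`, `-1` at
`β₂`, `0` elsewhere; the condition with `n = 0`, `cst = 0` gives `e β₁ = 0`, a contradiction. -/
theorem exists_kap_ne_zero {k F : Type u} [Field k] [Field F] [Algebra k F] {ℓ : ℕ}
    [Fact ℓ.Prime] {g E : k[X]} {kp : F → ZMod ℓ} (h : SepU g E kp 0 Set.univ)
    {β₁ β₂ : F} (h1 : β₁ ∈ RR F g E) (h2 : β₂ ∈ RR F g E) (h12 : β₁ ≠ β₂)
    (hg : aeval β₁ g = aeval β₂ g) :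
    ∃ β ∈ RR F g E, ∃ β' ∈ RR F g E, β ≠ β' ∧ kp (β - β') ≠ 0 := by
  by_contra hcon
  have hk : ∀ β ∈ RR F g E, ∀ β' ∈ RR F g E, β ≠ β' → kp (β - β') = 0 := by
    intro β hβ β' hβ' hne
    by_contra h0
    exact hcon ⟨β, hβ, β', hβ', hne, h0⟩
  have hterm : ∀ (e : F → ZMod ℓ), ∀ β ∈ RR F g E, ∀ β' ∈ RR F g E,
      kp (β - β') * (e β - e β') = 0 := by
    intro e β hβ β' hβ'
    by_cases hne : β = β'
    · rw [hne, sub_self (e β'), mul_zero]
    · rw [hk β hβ β' hβ' hne, zero_mul]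
  have key := h (fun x => (if x = β₁ then (1 : ZMod ℓ) else 0) - (if x = β₂ then 1 else 0)) 0
    (fun _ => 0) ?_ ?_ β₁ h1 (Set.mem_univ _)
  · simp only [if_true, if_neg h12, sub_zero] at key
    exact one_ne_zero key
  · intro β hβ
    rw [Finset.sum_sub_distrib, Finset.sum_ite_eq', Finset.sum_ite_eq']
    by_cases hc : aeval β₁ g = aeval β g
    · rw [if_pos (Finset.mem_filter.2 ⟨h1, hc⟩), if_pos (Finset.mem_filter.2 ⟨h2, hg ▸ hc⟩),
        sub_self]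
    · have n1 : β₁ ∉ (RR F g E).filter (fun β' => aeval β' g = aeval β g) :=
        fun hm => hc (Finset.mem_filter.1 hm).2
      have n2 : β₂ ∉ (RR F g E).filter (fun β' => aeval β' g = aeval β g) :=
        fun hm => hc (hg.trans (Finset.mem_filter.1 hm).2)
      rw [if_neg n1, if_neg n2, sub_self]
  · intro β hβ _
    have a1 : sumO g E kp (fun x => (if x = β₁ then (1 : ZMod ℓ) else 0) -
        (if x = β₂ then 1 else 0)) β = 0 :=
      Finset.sum_eq_zero fun β' hβ' => hterm (fun x => (if x = β₁ then (1 : ZMod ℓ) else 0) -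
        (if x = β₂ then 1 else 0)) β hβ β' (Finset.mem_filter.1 hβ').1
    rw [a1, zero_mul, zero_mul, add_zero, add_zero]

end Pool.Agent.Lib.MP_89bcae_ag.Re

end
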