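import Mathlib
import Pool.Agent.Lib.MP_89bcae_ag.Rk.K026
import Pool.Agent.Lib.MP_89bcae_ag.Rk.K043
import Pool.Agent.Lib.MP_89bcae_ag.Rk.K044

section

/-!
# The local ring of a field at a prime of degree one over `p`
-/

open Polynomial

namespace Pool.Agent.Lib.MP_89bcae_ag

set_option linter.style.haveILetI false
set_option linter.unusedSectionVars false

universe u

/-- The elements of `k` which are integral for the embedding `φ` in `ℚ_p`. -/
def padicRing7 {k : Type u} [Field k] {p : ℕ} [Fact p.Prime] (φ : k →+* ℚ_[p]) :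
    ValuationSubring k where
  carrier := {x | ‖φ x‖ ≤ 1}
  mul_mem' := fun {a b} ha hb => by
    rw [Set.mem_ofPred_eq] at ha hb ⊢
    rw [map_mul, norm_mul]
    exact mul_le_one₀ ha (norm_nonneg _) hb
  one_mem' := by rw [Set.mem_ofPred_eq, map_one, norm_one]
  add_mem' := fun {a b} ha hb => by
    rw [Set.mem_ofPred_eq] at ha hb ⊢
    rw [map_add]
    exact (Padic.nonarchimedean _ _).trans (max_le ha hb)
  zero_mem' := by rw [Set.mem_ofPred_eq, map_zero, norm_zero]; exact zero_le_one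
  neg_mem' := fun {a} ha => by
    rw [Set.mem_ofPred_eq] at ha ⊢
    rwa [map_neg, norm_neg]
  mem_or_inv_mem' := fun x => by
    change ‖φ x‖ ≤ 1 ∨ ‖φ x⁻¹‖ ≤ 1
    rcases le_total ‖φ x‖ 1 with h | h
    · exact Or.inl h
    · right
      rw [map_inv₀, norm_inv]
      exact inv_le_one_of_one_le₀ h

section

variable {k : Type u} [Field k] {p : ℕ} [Fact p.Prime] (φ : k →+* ℚ_[p])

lemma mem_padicRing7 {x : k} : x ∈ padicRing7 φ ↔ ‖φ x‖ ≤ 1 := Iff.rfl

lemma isUnit_padicRing7 (x : padicRing7 φ) (h : ‖φ x‖ = 1) : IsUnit x := by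
  have hx0 : (x : k) ≠ 0 := by
    rintro h0
    rw [h0, map_zero, norm_zero] at h
    exact zero_ne_one h
  have hxi : (x : k)⁻¹ ∈ padicRing7 φ := by
    rw [mem_padicRing7, map_inv₀, norm_inv, h, inv_one]
  exact IsUnit.of_mul_eq_one (⟨(x : k)⁻¹, hxi⟩ : padicRing7 φ) (Subtype.ext (mul_inv_cancel₀ hx0))

lemma norm_of_isUnit7 (x : padicRing7 φ) (h : IsUnit x) : ‖φ x‖ = 1 := by
  obtain ⟨u, rfl⟩ := h
  have h1 : ‖φ ((u : padicRing7 φ) : k)‖ * ‖φ ((↑u⁻¹ : padicRing7 φ) : k)‖ = 1 := by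
    rw [← norm_mul, ← map_mul, ← Subring.coe_mul, Units.mul_inv]
    simp
  have h2 : ‖φ ((u : padicRing7 φ) : k)‖ ≤ 1 := (u : padicRing7 φ).2
  have h3 : ‖φ ((↑u⁻¹ : padicRing7 φ) : k)‖ ≤ 1 := (↑u⁻¹ : padicRing7 φ).2
  refine le_antisymm h2 ?_
  rw [← h1]
  exact mul_le_of_le_one_right (norm_nonneg _) h3

lemma norm_prime7 : ‖φ ((p : padicRing7 φ) : k)‖ = (p : ℝ)⁻¹ := by
  rw [SubringClass.coe_natCast, map_natCast]
  exact Padic.norm_p

lemma irreducible_prime7 : Irreducible (p : padicRing7 φ) := by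
  have hp : p.Prime := Fact.out
  have hp1 : (1 : ℝ) < p := by exact_mod_cast hp.one_lt
  constructor
  · intro h
    have h1 := norm_of_isUnit7 φ _ h
    rw [norm_prime7] at h1
    have h2 : (p : ℝ)⁻¹ < 1 := inv_lt_one_of_one_lt₀ hp1
    exact absurd h1 h2.ne
  · intro a b hab
    by_contra hcon
    push Not at hcon
    have h1 : ‖φ (a : k)‖ * ‖φ (b : k)‖ = (p : ℝ)⁻¹ := by
      rw [← norm_mul, ← map_mul, ← Subring.coe_mul, ← hab]
      exact norm_prime7 φ
    have hlt : ∀ c : padicRing7 φ, ¬ IsUnit c → ‖φ (c : k)‖ ≤ (p : ℝ)⁻¹ := by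
      intro c hc
      have h2 : ‖φ (c : k)‖ < 1 := by
        refine lt_of_le_of_ne c.2 fun h3 => hc (isUnit_padicRing7 φ c h3)
      have h3 := (Padic.norm_le_pow_iff_norm_lt_pow_add_one (φ (c : k)) (-1)).mpr (by simpa using h2)
      rwa [zpow_neg_one] at h3
    have h2 := mul_le_mul (hlt a hcon.1) (hlt b hcon.2) (norm_nonneg _) (by positivity)
    rw [h1] at h2
    have h3 : (p : ℝ)⁻¹ * (p : ℝ)⁻¹ < (p : ℝ)⁻¹ :=
      mul_lt_of_lt_one_right (by positivity) (inv_lt_one_of_one_lt₀ hp1)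
    exact absurd h2 (not_le.mpr h3)

lemma isDVR_padicRing7 : IsDiscreteValuationRing (padicRing7 φ) := by
  have hp : p.Prime := Fact.out
  have hp0 : (p : ℝ) ≠ 0 := by exact_mod_cast hp.ne_zero
  apply IsDiscreteValuationRing.ofHasUnitMulPowIrreducibleFactorization
  refine ⟨p, irreducible_prime7 φ, fun {x} hx => ?_⟩
  have hx0 : φ (x : k) ≠ 0 := by
    rw [_root_.map_ne_zero]
    intro h
    exact hx (Subtype.ext h)
  have h1 := Padic.norm_eq_zpow_neg_valuation hx0
  have h2 : ‖φ (x : k)‖ ≤ 1 := x.2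
  have h3 : 0 ≤ (φ (x : k)).valuation := by
    by_contra hlt
    rw [not_le] at hlt
    have h4 : (1 : ℝ) < (p : ℝ) ^ (-(φ (x : k)).valuation) :=
      one_lt_zpow₀ (by exact_mod_cast hp.one_lt) (by omega)
    rw [h1] at h2
    exact absurd h4 (not_lt.mpr h2)
  obtain ⟨n, hn⟩ := Int.eq_ofNat_of_zero_le h3
  have hpk : ((p : ℕ) : k) ≠ 0 := by
    intro h
    have h4 := norm_prime7 φ
    rw [SubringClass.coe_natCast, h, map_zero, norm_zero] at h4
    exact hp0 (inv_eq_zero.mp h4.symm)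
  have hnorm : ‖φ ((x : k) / (p : k) ^ n)‖ = 1 := by
    rw [map_div₀, map_pow, norm_div, norm_pow, map_natCast, Padic.norm_p, h1, hn, zpow_neg,
      zpow_natCast, inv_pow]
    exact div_self (inv_ne_zero (pow_ne_zero _ hp0))
  let y : padicRing7 φ := ⟨(x : k) / (p : k) ^ n, by rw [mem_padicRing7, hnorm]⟩
  have hy : IsUnit y := isUnit_padicRing7 φ y hnorm
  refine ⟨n, hy.unit, Subtype.ext ?_⟩
  change (((p : padicRing7 φ) ^ n : padicRing7 φ) : k) * ((x : k) / (p : k) ^ n) = x
  rw [SubmonoidClass.coe_pow, SubringClass.coe_natCast]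
  exact mul_div_cancel₀ _ (pow_ne_zero _ hpk)

/-- The residue map. -/
noncomputable def toZMod7 : padicRing7 φ →+* ZMod p :=
  (PadicInt.toZMod (p := p)).comp
    { toFun := fun x => (⟨φ x, x.2⟩ : ℤ_[p])
      map_one' := by
        apply Subtype.ext
        change φ ((1 : padicRing7 φ) : k) = ((1 : ℤ_[p]) : ℚ_[p])
        rw [PadicInt.coe_one]
        exact map_one φ
      map_mul' := fun x y => by
        apply Subtype.ext
        exact map_mul φ _ _
      map_zero' := by
        apply Subtype.ext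
        change φ ((0 : padicRing7 φ) : k) = ((0 : ℤ_[p]) : ℚ_[p])
        rw [PadicInt.coe_zero]
        exact map_zero φ
      map_add' := fun x y => by
        apply Subtype.ext
        exact map_add φ _ _ }

end

/-- The local ring of `k` at the prime of degree one over `p` given by an embedding in `ℚ_p`. -/
theorem exists_local_ring7 {k : Type u} [Field k] {p : ℕ} [Fact p.Prime] (φ : k →+* ℚ_[p]) :
    ∃ (R : Type u) (_ : CommRing R) (_ : IsDomain R) (_ : IsDiscreteValuationRing R)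
      (_ : Algebra R k) (_ : IsFractionRing R k) (π : R →+* ZMod p),
      Function.Surjective π ∧ RingHom.ker π = IsLocalRing.maximalIdeal R ∧
      IsLocalRing.maximalIdeal R = Ideal.span {(p : R)} ∧
      ∀ z : ℤ, (z : ZMod p) ≠ 0 → IsUnit (z : R) := by
  haveI := isDVR_padicRing7 φ
  have hsurj : Function.Surjective (toZMod7 φ) := by
    intro z
    refine ⟨((z.val : ℕ) : padicRing7 φ), ?_⟩
    rw [map_natCast, ZMod.natCast_zmod_val]
  have hker : RingHom.ker (toZMod7 φ) = IsLocalRing.maximalIdeal (padicRing7 φ) :=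
    IsLocalRing.eq_maximalIdeal (RingHom.ker_isMaximal_of_surjective _ hsurj)
  refine ⟨padicRing7 φ, inferInstance, inferInstance, inferInstance, inferInstance,
    inferInstance, toZMod7 φ, hsurj, hker, (irreducible_prime7 φ).maximalIdeal_eq, ?_⟩
  intro z hz
  by_contra hu
  have h1 : (z : padicRing7 φ) ∈ IsLocalRing.maximalIdeal (padicRing7 φ) := hu
  rw [← hker, RingHom.mem_ker, map_intCast] at h1
  exact hz h1

/-- A primitive `ℓ`-th root of unity in `ℚ_p`, when `p` is `1` modulo `ℓ`. -/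
theorem exists_primitiveRoot7 {ℓ p : ℕ} (hℓ : ℓ.Prime) [Fact p.Prime] (h : ℓ ∣ p - 1) :
    ∃ ζ : ℚ_[p], IsPrimitiveRoot ζ ℓ := by
  have hp : p.Prime := Fact.out
  haveI : Fact ℓ.Prime := ⟨hℓ⟩
  -- a primitive root modulo `p`
  obtain ⟨u, hu⟩ := exists_prime_orderOf_dvd_card (G := (ZMod p)ˣ) ℓ (by
    rw [ZMod.card_units_eq_totient, Nat.totient_prime hp]
    exact h)
  have hup : (u : ZMod p) ^ ℓ = 1 := by
    rw [← Units.val_pow_eq_pow_val, ← hu, pow_orderOf_eq_one, Units.val_one]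
  have hu1 : (u : ZMod p) ≠ 1 := by
    intro h1
    have h2 : u = 1 := Units.ext h1
    rw [h2, orderOf_one] at hu
    exact hℓ.one_lt.ne hu
  have hℓp : ((ℓ : ℕ) : ZMod p) ≠ 0 := by
    intro h1
    rw [ZMod.natCast_eq_zero_iff] at h1
    have h2 := (Nat.prime_dvd_prime_iff_eq hp hℓ).mp h1
    rw [← h2] at h
    have h3 := Nat.le_of_dvd (by have := hp.two_le; omega) h
    have := hp.two_le
    omega
  set a : ℤ_[p] := (((u : ZMod p).val : ℕ) : ℤ_[p]) with ha
  have hau : PadicInt.toZMod a = (u : ZMod p) := by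
    rw [ha, map_natCast, ZMod.natCast_zmod_val]
  have hzero : ∀ x : ℤ_[p], PadicInt.toZMod x = 0 ↔ ‖x‖ < 1 := by
    intro x
    rw [← RingHom.mem_ker, PadicInt.ker_toZMod, IsLocalRing.mem_maximalIdeal,
      PadicInt.mem_nonunits]
  have hder : ‖Polynomial.aeval a (derivative (X ^ ℓ - 1 : ℤ_[p][X]))‖ = 1 := by
    refine le_antisymm (PadicInt.norm_le_one _) (not_lt.mp fun h1 => ?_)
    rw [← hzero, derivative_sub, derivative_X_pow, derivative_one, sub_zero, map_mul, map_pow,
      aeval_C, aeval_X, map_mul, map_pow, hau] at h1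
    have h2 : ((ℓ : ℕ) : ZMod p) * (u : ZMod p) ^ (ℓ - 1) = 0 := by
      rw [← h1]
      congr 1
      simp
    exact mul_ne_zero hℓp (pow_ne_zero _ u.ne_zero) h2
  obtain ⟨z, hz, hza, -⟩ := hensels_lemma (p := p) (F := (X ^ ℓ - 1 : ℤ_[p][X])) (a := a) (by
    rw [hder, one_pow, ← hzero, map_sub, map_pow, aeval_X, map_one, map_sub, map_pow, hau, hup,
      map_one, sub_self])
  have hzℓ : z ^ ℓ = 1 := by
    rw [map_sub, map_pow, aeval_X, map_one, sub_eq_zero] at hz
    exact hz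
  have hz1 : z ≠ 1 := by
    intro h1
    rw [hder, ← hzero, map_sub, h1, map_one, hau, sub_eq_zero] at hza
    exact hu1 hza.symm
  refine ⟨(z : ℚ_[p]), ?_⟩
  have h1 : orderOf z = ℓ := orderOf_eq_prime hzℓ hz1
  have h2 : IsPrimitiveRoot z ℓ := by
    rw [← h1]
    exact IsPrimitiveRoot.orderOf z
  exact h2.map_of_injective (f := PadicInt.Coe.ringHom (p := p)) Subtype.val_injective

/-- The `ℓ`-th cyclotomic field embeds in `ℚ_p`, when `p` is `1` modulo `ℓ`. -/
theorem exists_embedding7 {ℓ p : ℕ} (hℓ : ℓ.Prime) [Fact p.Prime] (h : ℓ ∣ p - 1)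
    (k : Type u) [Field k] [Algebra ℚ k] [IsCyclotomicExtension {ℓ} ℚ k] :
    Nonempty (k →+* ℚ_[p]) := by
  haveI : NeZero ℓ := ⟨hℓ.ne_zero⟩
  obtain ⟨ζ, hζ⟩ := exists_primitiveRoot7 hℓ h
  haveI : IsSplittingField ℚ k (X ^ ℓ - 1) :=
    IsCyclotomicExtension.isSplittingField_X_pow_sub_one ℓ ℚ k
  refine ⟨(IsSplittingField.lift (F := ℚ_[p]) k (X ^ ℓ - 1 : ℚ[X]) ?_).toRingHom⟩
  have h1 := X_pow_sub_one_splits hζ
  simpa using h1

end Pool.Agent.Lib.MP_89bcae_ag

end

section

/-!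
# The Rédei maps of the surfaces `D(t) y² = g(x) - t`
-/

open Polynomial

open scoped Classical

namespace Pool.Agent.Lib.MP_89bcae_ag

section

variable {F : Type*} [Field F]

/-- The set `Z` has an even number of elements in each fibre of `g`. -/
def EvenOver (g : F[X]) (Z : Finset F) : Prop :=
  ∀ α : F, Even (Z.filter fun c => g.eval c = α).card

/-- The product `PZ g D Z b`, multiplied by the product of the differences `b - c` over the
`c ≠ b` with `g(c) = g(b)` for which exactly one of `b`, `c` belongs to `Z`. -/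
noncomputable def PZ1 (g D : F[X]) (Z : Finset F) (b : F) : F :=
  PZ g D Z b * ∏ c ∈ (g - C (g.eval b)).roots.toFinset.filter
    (fun c => c ≠ b ∧ (c ∈ Z ↔ b ∉ Z)), (b - c)

/-- The Rédei map of the products `P`: the set of the roots `b` of `G` for which `P Z b` has the
property `N`. -/
noncomputable def redei (N : F → Prop) (P : Finset F → F → F) (G : F[X]) (Z : Finset F) :
    Finset F :=
  G.roots.toFinset.filter fun b => N (P Z b)

/-- The Rédei map of the products `P` has no eigenvalue `0` or `1`: a nonempty set of roots of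
`D ∘ g`, even on the fibres of `g`, is not mapped to the empty set or to itself. -/
def NoEigen (N : F → Prop) (P : Finset F → F → F) (g D : F[X]) : Prop :=
  ∀ Z ⊆ (D.comp g).roots.toFinset, EvenOver g Z → Z.Nonempty →
    redei N P (D.comp g) Z ≠ ∅ ∧ redei N P (D.comp g) Z ≠ Z

end

end Pool.Agent.Lib.MP_89bcae_ag

end

section

/-!
# Rédei maps with prescribed weights: the algebra
-/

open Polynomial

open scoped Classical

set_option linter.unusedSimpArgs false
set_option linter.unusedVariables false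
set_option linter.unusedSectionVars false

namespace Pool.Agent.Lib.MP_89bcae_ag

section

variable {F : Type*} [Field F]

theorem eval_derivative_prod8 (R : Finset F) {b : F} (hb : b ∈ R) :
    (derivative (∏ c ∈ R, (X - C c))).eval b = ∏ c ∈ R.erase b, (b - c) := by
  rw [← Finset.mul_prod_erase R _ hb, derivative_mul, eval_add, eval_mul, eval_mul,
    derivative_X_sub_C, eval_one, one_mul, eval_sub, eval_X, eval_C, sub_self, zero_mul, add_zero,
    eval_prod]
  exact Finset.prod_congr rfl fun c _ => by rw [eval_sub, eval_X, eval_C]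

variable [IsAlgClosed F]

theorem eq_prod_of_separable8 {P : F[X]} (hP : P.Separable) :
    P = C P.leadingCoeff * ∏ c ∈ P.roots.toFinset, (X - C c) := by
  have h1 : P.roots.Nodup := nodup_roots hP
  have h2 : P.Splits := IsAlgClosed.splits P
  conv_lhs => rw [h2.eq_prod_roots]
  congr 1
  rw [Finset.prod_eq_multiset_prod, Multiset.toFinset_val, Multiset.dedup_eq_self.mpr h1]

theorem card_roots_of_separable8 {P : F[X]} (hP : P.Separable) :
    P.roots.toFinset.card = P.natDegree := by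
  rw [Multiset.toFinset_card_of_nodup (nodup_roots hP),
    (IsAlgClosed.splits P).natDegree_eq_card_roots]

variable {g D : F[X]}

theorem mem_R8 (hsep : (D.comp g).Separable) {b : F} :
    b ∈ (D.comp g).roots.toFinset ↔ D.eval (g.eval b) = 0 := by
  have hne : D.comp g ≠ 0 := hsep.ne_zero
  rw [Multiset.mem_toFinset, mem_roots hne, IsRoot.def, eval_comp]

theorem sep_fibre8 (hsep : (D.comp g).Separable) {b : F} (hb : b ∈ (D.comp g).roots.toFinset) :
    (g - C (g.eval b)).Separable := by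
  have h1 : D.eval (g.eval b) = 0 := (mem_R8 hsep).mp hb
  have h2 : X - C (g.eval b) ∣ D := dvd_iff_isRoot.mpr h1
  obtain ⟨q, hq⟩ := h2
  refine hsep.of_dvd ⟨q.comp g, ?_⟩
  conv_lhs => rw [hq, mul_comp, sub_comp, X_comp, C_comp]

theorem fibre_eq8 (hg : g.Monic) (hdeg : g.natDegree = 3) (hsep : (D.comp g).Separable) {b : F}
    (hb : b ∈ (D.comp g).roots.toFinset) :
    (D.comp g).roots.toFinset.filter (fun c => g.eval c = g.eval b) =
      (g - C (g.eval b)).roots.toFinset := by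
  have h1 : D.eval (g.eval b) = 0 := (mem_R8 hsep).mp hb
  have h2 : g - C (g.eval b) ≠ 0 := (sep_fibre8 hsep hb).ne_zero
  ext c
  rw [Finset.mem_filter, mem_R8 hsep, Multiset.mem_toFinset, mem_roots h2, IsRoot.def, eval_sub,
    eval_C, sub_eq_zero]
  constructor
  · exact fun h => h.2
  · intro h
    exact ⟨by rw [h]; exact h1, h⟩

theorem card_fibre8 (hg : g.Monic) (hdeg : g.natDegree = 3) (hsep : (D.comp g).Separable) {b : F}
    (hb : b ∈ (D.comp g).roots.toFinset) :
    ((D.comp g).roots.toFinset.filter (fun c => g.eval c = g.eval b)).card = 3 := by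
  rw [fibre_eq8 hg hdeg hsep hb, card_roots_of_separable8 (sep_fibre8 hsep hb), natDegree_sub_C,
    hdeg]

theorem card_image8 (hg : g.Monic) (hdeg : g.natDegree = 3) (hsep : (D.comp g).Separable) :
    ((D.comp g).roots.toFinset.image fun c => g.eval c).card = D.natDegree := by
  have h1 : (D.comp g).roots.toFinset.card = D.natDegree * 3 := by
    rw [card_roots_of_separable8 hsep, natDegree_comp, hdeg]
  have h2 := Finset.card_eq_sum_card_image (fun c => g.eval c) (D.comp g).roots.toFinset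
  have h3 : ∀ α ∈ (D.comp g).roots.toFinset.image (fun c => g.eval c),
      ((D.comp g).roots.toFinset.filter (fun c => g.eval c = α)).card = 3 := by
    intro α hα
    obtain ⟨b, hb, rfl⟩ := Finset.mem_image.mp hα
    exact card_fibre8 hg hdeg hsep hb
  rw [Finset.sum_congr rfl h3, Finset.sum_const, h1, smul_eq_mul] at h2
  omega

/-- The derivative of `D` at `g(b)` is the product of the differences. -/
theorem derivative_eq_prod8 (hg : g.Monic) (hdeg : g.natDegree = 3)
    (hsep : (D.comp g).Separable) {b : F} (hb : b ∈ (D.comp g).roots.toFinset) :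
    (derivative D).eval (g.eval b) = D.leadingCoeff *
      ∏ c ∈ (D.comp g).roots.toFinset.filter (fun c => g.eval c ≠ g.eval b), (b - c) := by
  have hlc : (D.comp g).leadingCoeff = D.leadingCoeff := by
    rw [leadingCoeff_comp (by rw [hdeg]; norm_num), hg.leadingCoeff, one_pow, mul_one]
  have h1 : (derivative (D.comp g)).eval b =
      D.leadingCoeff * ∏ c ∈ (D.comp g).roots.toFinset.erase b, (b - c) := by
    conv_lhs => rw [eq_prod_of_separable8 hsep, derivative_C_mul, eval_C_mul,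
      eval_derivative_prod8 _ hb, hlc]
  have h2 : (derivative g).eval b =
      ∏ c ∈ ((D.comp g).roots.toFinset.filter (fun c => g.eval c = g.eval b)).erase b,
        (b - c) := by
    have h3 : derivative g = derivative (g - C (g.eval b)) := by
      rw [derivative_sub, derivative_C, sub_zero]
    have hb' : b ∈ (g - C (g.eval b)).roots.toFinset := by
      rw [← fibre_eq8 hg hdeg hsep hb, Finset.mem_filter]
      exact ⟨hb, rfl⟩
    have hm : (g - C (g.eval b)).Monic := hg.sub_of_left (by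
      refine lt_of_le_of_lt degree_C_le ?_
      rw [degree_eq_natDegree hg.ne_zero, hdeg]
      norm_num)
    rw [h3, eq_prod_of_separable8 (sep_fibre8 hsep hb), hm.leadingCoeff, C_1, one_mul,
      eval_derivative_prod8 _ hb', fibre_eq8 hg hdeg hsep hb]
  have h4 : (derivative (D.comp g)).eval b =
      (derivative g).eval b * (derivative D).eval (g.eval b) := by
    rw [derivative_comp, eval_mul, eval_comp]
  have h5 : (D.comp g).roots.toFinset.erase b =
      (((D.comp g).roots.toFinset.filter (fun c => g.eval c = g.eval b)).erase b) ∪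
        (D.comp g).roots.toFinset.filter (fun c => g.eval c ≠ g.eval b) := by
    ext c
    simp only [Finset.mem_erase, Finset.mem_union, Finset.mem_filter]
    by_cases h : g.eval c = g.eval b
    · simp [h]
    · have h' : c ≠ b := fun h0 => h (by rw [h0])
      simp [h, h']
  have h6 : Disjoint (((D.comp g).roots.toFinset.filter
      (fun c => g.eval c = g.eval b)).erase b)
        ((D.comp g).roots.toFinset.filter (fun c => g.eval c ≠ g.eval b)) := by
    rw [Finset.disjoint_left]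
    intro c hc hc'
    rw [Finset.mem_erase, Finset.mem_filter] at hc
    rw [Finset.mem_filter] at hc'
    exact hc'.2 hc.2.2
  rw [h5, Finset.prod_union h6, ← h2, h4] at h1
  have h7 : (derivative g).eval b ≠ 0 := by
    rw [h2, Finset.prod_ne_zero_iff]
    intro c hc
    exact sub_ne_zero.mpr (Ne.symm (Finset.mem_erase.mp hc).1)
  apply mul_left_cancel₀ h7
  rw [h1]
  ring

/-- The value of `l` at a product. -/
theorem l_prod8 {K : Subfield F} {l : F → ZMod 2}
    (hmul : ∀ x ∈ K, ∀ y ∈ K, x ≠ 0 → y ≠ 0 → l (x * y) = l x + l y) {ι : Type*}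
    (s : Finset ι) (f : ι → F) (hf : ∀ i ∈ s, f i ∈ K ∧ f i ≠ 0) :
    (∏ i ∈ s, f i ∈ K ∧ ∏ i ∈ s, f i ≠ 0) ∧ l (∏ i ∈ s, f i) = ∑ i ∈ s, l (f i) := by
  have h1 : l 1 = 0 := by
    have := hmul 1 K.one_mem 1 K.one_mem one_ne_zero one_ne_zero
    rw [one_mul] at this
    have h2 : ∀ t : ZMod 2, t = t + t → t = 0 := by decide
    exact h2 _ this
  induction s using Finset.induction_on with
  | empty => simp [h1, K.one_mem]
  | insert a s ha ih =>
    have h2 := ih fun i hi => hf i (Finset.mem_insert_of_mem hi)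
    have h3 := hf a (Finset.mem_insert_self a s)
    rw [Finset.prod_insert ha, Finset.sum_insert ha]
    exact ⟨⟨K.mul_mem h3.1 h2.1.1, mul_ne_zero h3.2 h2.1.2⟩, by
      rw [hmul _ h3.1 _ h2.1.1 h3.2 h2.1.2, h2.2]⟩

/-- The products `PZ` and `PZ1` lie in the field generated by the roots and are not `0`. -/
theorem PZ_mem8 (hg : g.Monic) (hdeg : g.natDegree = 3) (hsep : (D.comp g).Separable)
    (K : Subfield F) (hK : ∀ x ∈ (D.comp g).roots.toFinset, x ∈ K) (hlc : D.leadingCoeff ∈ K)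
    {Z : Finset F} (hZ : Z ⊆ (D.comp g).roots.toFinset) {b : F}
    (hb : b ∈ (D.comp g).roots.toFinset) :
    (PZ g D Z b ∈ K ∧ PZ g D Z b ≠ 0) ∧ (PZ1 g D Z b ∈ K ∧ PZ1 g D Z b ≠ 0) := by
  have hD0 : D ≠ 0 := by
    rintro rfl
    rw [zero_comp] at hsep
    exact not_separable_zero hsep
  have hlc' : D.leadingCoeff ≠ 0 := leadingCoeff_ne_zero.mpr hD0
  have hdiff : ∀ c ∈ (D.comp g).roots.toFinset, b ≠ c → b - c ∈ K ∧ b - c ≠ 0 :=
    fun c hc hbc => ⟨K.sub_mem (hK b hb) (hK c hc), sub_ne_zero.mpr hbc⟩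
  have h1 : PZ g D Z b ∈ K ∧ PZ g D Z b ≠ 0 := by
    have h3 : -(derivative D).eval (g.eval b) ∈ K ∧ -(derivative D).eval (g.eval b) ≠ 0 := by
      rw [derivative_eq_prod8 hg hdeg hsep hb]
      have h4 : ∀ c ∈ (D.comp g).roots.toFinset.filter (fun c => g.eval c ≠ g.eval b),
          b - c ∈ K ∧ b - c ≠ 0 := fun c hc => by
        rw [Finset.mem_filter] at hc
        exact hdiff c hc.1 (fun h => hc.2 (by rw [h]))
      exact ⟨K.neg_mem (K.mul_mem hlc (K.prod_mem fun c hc => (h4 c hc).1)),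
        neg_ne_zero.mpr (mul_ne_zero hlc' (Finset.prod_ne_zero_iff.mpr fun c hc =>
          (h4 c hc).2))⟩
    have h4 : ∀ c ∈ Z.filter (fun β => g.eval β ≠ g.eval b), b - c ∈ K ∧ b - c ≠ 0 :=
      fun c hc => by
        rw [Finset.mem_filter] at hc
        exact hdiff c (hZ hc.1) (fun h => hc.2 (by rw [h]))
    unfold PZ
    refine ⟨K.mul_mem (K.prod_mem fun c hc => (h4 c hc).1) ?_,
      mul_ne_zero (Finset.prod_ne_zero_iff.mpr fun c hc => (h4 c hc).2) ?_⟩
    · split_ifs
      · exact h3.1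
      · exact K.one_mem
    · split_ifs
      · exact h3.2
      · exact one_ne_zero
  refine ⟨h1, ?_⟩
  have h4 : ∀ c ∈ (g - C (g.eval b)).roots.toFinset.filter (fun c => c ≠ b ∧ (c ∈ Z ↔ b ∉ Z)),
      b - c ∈ K ∧ b - c ≠ 0 := fun c hc => by
    rw [Finset.mem_filter, ← fibre_eq8 hg hdeg hsep hb, Finset.mem_filter] at hc
    exact hdiff c hc.1.1 (Ne.symm hc.2.1)
  unfold PZ1
  exact ⟨K.mul_mem h1.1 (K.prod_mem fun c hc => (h4 c hc).1),
    mul_ne_zero h1.2 (Finset.prod_ne_zero_iff.mpr fun c hc => (h4 c hc).2)⟩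

/-- **Existence of a Rédei map without eigenvalues**: the set `HH` of functions on `F` is closed
under addition, its members are homomorphisms on the subfield `K`, and for any two roots `x`, `y`
of `D(g(x))` in different fibres there is an `l` in `HH` whose weights are those of a matching of
the two fibres which matches `x` and `y`. -/
theorem exists_noEigen_of_match8 (hg : g.Monic) (hdeg : g.natDegree = 3)
    (hsep : (D.comp g).Separable) (hn : 3 ≤ D.natDegree) (K : Subfield F)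
    (hK : ∀ x ∈ (D.comp g).roots.toFinset, x ∈ K) (hlc : D.leadingCoeff ∈ K)
    (HH : Set (F → ZMod 2)) (hadd : ∀ l ∈ HH, ∀ l' ∈ HH, l + l' ∈ HH)
    (hmul : ∀ l ∈ HH, ∀ x ∈ K, ∀ y ∈ K, x ≠ 0 → y ≠ 0 → l (x * y) = l x + l y)
    (hneg : ∀ l ∈ HH, l (-1) = 0) (hlc0 : ∀ l ∈ HH, l D.leadingCoeff = 0)
    (hfib : ∀ l ∈ HH, ∀ x ∈ (D.comp g).roots.toFinset, ∀ y ∈ (D.comp g).roots.toFinset, x ≠ y →
      g.eval x = g.eval y → l (x - y) = 0)
    (hmatch : ∀ x ∈ (D.comp g).roots.toFinset, ∀ y ∈ (D.comp g).roots.toFinset,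
      g.eval x ≠ g.eval y → ∃ l ∈ HH, IsMatch7 (D.comp g).roots.toFinset (fun b => g.eval b)
        (g.eval x) (g.eval y) (fun b c => l (b - c)) ∧ l (x - y) = 1) :
    ∃ l ∈ HH, NoEigen (fun x => l x = 1) (PZ g D) g D ∧
      NoEigen (fun x => l x = 1) (PZ1 g D) g D := by
  set S := (D.comp g).roots.toFinset with hS
  obtain ⟨e, ⟨l, hl, rfl⟩, he⟩ := exists_pattern8 S (fun b => g.eval b)
    (fun b hb => card_fibre8 hg hdeg hsep hb) (by rw [hS, card_image8 hg hdeg hsep]; exact hn)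
    {e | ∃ l ∈ HH, e = fun b c => l (b - c)}
    (by
      rintro _ ⟨l, hl, rfl⟩ _ ⟨l', hl', rfl⟩
      exact ⟨l + l', hadd l hl l' hl', rfl⟩)
    (fun b hb c hc hbc => by
      obtain ⟨l, hl, h1, h2⟩ := hmatch b hb c hc hbc
      exact ⟨_, ⟨l, hl, rfl⟩, h1, h2⟩)
  have hmull := hmul l hl
  -- the differences
  have hdiff : ∀ b ∈ S, ∀ c ∈ S, b ≠ c → b - c ∈ K ∧ b - c ≠ 0 := fun b hb c hc hbc =>
    ⟨K.sub_mem (hK b hb) (hK c hc), sub_ne_zero.mpr hbc⟩
  have hlc' : D.leadingCoeff ≠ 0 := by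
    rw [Ne, leadingCoeff_eq_zero]
    rintro rfl
    rw [natDegree_zero] at hn
    omega
  -- the derivative
  have hder : ∀ b ∈ S, (-(derivative D).eval (g.eval b) ∈ K ∧
      -(derivative D).eval (g.eval b) ≠ 0) ∧ l (-(derivative D).eval (g.eval b)) =
        ∑ c ∈ S.filter (fun c => g.eval c ≠ g.eval b), l (b - c) := by
    intro b hb
    obtain ⟨⟨h1, h2⟩, h3⟩ := l_prod8 hmull (S.filter (fun c => g.eval c ≠ g.eval b))
      (fun c => b - c) (fun c hc => by
        rw [Finset.mem_filter] at hc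
        exact hdiff b hb c hc.1 (fun h => hc.2 (by rw [h])))
    rw [derivative_eq_prod8 hg hdeg hsep hb, neg_eq_neg_one_mul]
    have h4 : (-1 : F) ∈ K := K.neg_mem K.one_mem
    have h5 : (-1 : F) ≠ 0 := neg_ne_zero.mpr one_ne_zero
    refine ⟨⟨K.mul_mem h4 (K.mul_mem hlc h1), mul_ne_zero h5 (mul_ne_zero hlc' h2)⟩, ?_⟩
    rw [hmull _ h4 _ (K.mul_mem hlc h1) h5 (mul_ne_zero hlc' h2), hneg l hl, zero_add,
      hmull _ hlc _ h1 hlc' h2, hlc0 l hl, zero_add, h3]
  -- the values of `l` at the products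
  have hPZ : ∀ Z ⊆ S, ∀ b ∈ S, (PZ g D Z b ∈ K ∧ PZ g D Z b ≠ 0) ∧ l (PZ g D Z b) =
      ∑ c ∈ S.filter (fun c => g.eval c ≠ g.eval b),
        l (b - c) * ((if b ∈ Z then 1 else 0) + if c ∈ Z then 1 else 0) := by
    intro Z hZ b hb
    obtain ⟨⟨h1, h2⟩, h3⟩ := l_prod8 hmull (Z.filter (fun β => g.eval β ≠ g.eval b))
      (fun c => b - c) (fun c hc => by
        rw [Finset.mem_filter] at hc
        exact hdiff b hb c (hZ hc.1) (fun h => hc.2 (by rw [h])))
    have h4 : ∑ c ∈ Z.filter (fun β => g.eval β ≠ g.eval b), l (b - c) =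
        ∑ c ∈ S.filter (fun c => g.eval c ≠ g.eval b), l (b - c) * if c ∈ Z then 1 else 0 := by
      have h5 : Z.filter (fun β => g.eval β ≠ g.eval b) =
          (S.filter (fun c => g.eval c ≠ g.eval b)).filter (fun c => c ∈ Z) := by
        ext c
        simp only [Finset.mem_filter]
        exact ⟨fun h => ⟨⟨hZ h.1, h.2⟩, h.1⟩, fun h => ⟨h.2, h.1.2⟩⟩
      rw [h5, Finset.sum_filter]
      refine Finset.sum_congr rfl fun c _ => ?_
      split_ifs <;> simp
    unfold PZ
    by_cases hbZ : b ∈ Z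
    · obtain ⟨⟨h6, h7⟩, h8⟩ := hder b hb
      rw [if_pos hbZ]
      refine ⟨⟨K.mul_mem h1 h6, mul_ne_zero h2 h7⟩, ?_⟩
      rw [hmull _ h1 _ h6 h2 h7, h3, h4, h8, ← Finset.sum_add_distrib]
      refine Finset.sum_congr rfl fun c _ => ?_
      rw [if_pos hbZ]
      ring
    · rw [if_neg hbZ, mul_one]
      refine ⟨⟨h1, h2⟩, ?_⟩
      rw [h3, h4]
      refine Finset.sum_congr rfl fun c _ => ?_
      rw [if_neg hbZ, zero_add]
  have hPZ1 : ∀ Z ⊆ S, ∀ b ∈ S, l (PZ1 g D Z b) = l (PZ g D Z b) := by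
    intro Z hZ b hb
    have hsub : ∀ c, c ∈ (g - C (g.eval b)).roots.toFinset → c ∈ S ∧ g.eval c = g.eval b := by
      intro c hc
      rw [← fibre_eq8 hg hdeg hsep hb, Finset.mem_filter] at hc
      exact hc
    obtain ⟨⟨h1, h2⟩, h3⟩ := l_prod8 hmull ((g - C (g.eval b)).roots.toFinset.filter
      (fun c => c ≠ b ∧ (c ∈ Z ↔ b ∉ Z))) (fun c => b - c) (fun c hc => by
        rw [Finset.mem_filter] at hc
        exact hdiff b hb c (hsub c hc.1).1 (Ne.symm hc.2.1))
    obtain ⟨⟨h4, h5⟩, _⟩ := hPZ Z hZ b hb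
    unfold PZ1
    rw [hmull _ h4 _ h1 h5 h2, h3, Finset.sum_eq_zero, add_zero]
    intro c hc
    rw [Finset.mem_filter] at hc
    exact hfib l hl b hb c (hsub c hc.1).1 (Ne.symm hc.2.1) (hsub c hc.1).2.symm
  -- the conclusion
  have key : ∀ P : Finset F → F → F, (∀ Z ⊆ S, ∀ b ∈ S, l (P Z b) = l (PZ g D Z b)) →
      NoEigen (fun x => l x = 1) P g D := by
    intro P hP Z hZ hev hne
    have hz : ∀ b ∈ S, ∑ c ∈ S.filter (fun c => g.eval c = g.eval b),
        (if c ∈ Z then (1 : ZMod 2) else 0) = 0 := by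
      intro b _
      rw [Finset.sum_ite, Finset.sum_const_zero, add_zero, Finset.sum_const, nsmul_eq_mul,
        mul_one, Finset.filter_filter]
      have h1 : S.filter (fun c => g.eval c = g.eval b ∧ c ∈ Z) =
          Z.filter (fun c => g.eval c = g.eval b) := by
        ext c
        simp only [Finset.mem_filter]
        exact ⟨fun h => ⟨h.2.2, h.2.1⟩, fun h => ⟨hZ h.1, h.2, h.1⟩⟩
      rw [h1]
      exact (ZMod.natCast_eq_zero_iff_even).mpr (hev (g.eval b))
    have hT := he (fun c => if c ∈ Z then 1 else 0) hz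
    have hval : ∀ Z' : Finset F, redei (fun x => l x = 1) P (D.comp g) Z = Z' → Z' ⊆ S →
        ∀ b ∈ S, ∑ c ∈ S.filter (fun c => g.eval c ≠ g.eval b),
          l (b - c) * ((if b ∈ Z then 1 else 0) + if c ∈ Z then 1 else 0) =
            if b ∈ Z' then 1 else 0 := by
      intro Z' hZ' _ b hb
      rw [← (hPZ Z hZ b hb).2, ← hP Z hZ b hb, ← hZ']
      have h1 : b ∈ redei (fun x => l x = 1) P (D.comp g) Z ↔ l (P Z b) = 1 := by
        have h5 : ∀ N : F → Prop, b ∈ redei N P (D.comp g) Z ↔ N (P Z b) := by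
          intro N
          unfold redei
          rw [Finset.mem_filter]
          exact ⟨fun h => h.2, fun h => ⟨hb, h⟩⟩
        exact h5 _
      by_cases h2 : l (P Z b) = 1
      · rw [if_pos (h1.mpr h2), h2]
      · rw [if_neg (fun h => h2 (h1.mp h))]
        have h3 : ∀ t : ZMod 2, t ≠ 1 → t = 0 := by decide
        exact h3 _ h2
    obtain ⟨b0, hb0⟩ := hne
    constructor
    · intro h0
      have h1 := hT 0 (fun b hb => by
        rw [zero_mul]
        have h2 := hval ∅ h0 (Finset.empty_subset _) b hb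
        rw [if_neg (Finset.notMem_empty b)] at h2
        exact h2) b0 (hZ hb0)
      simp only [if_pos hb0] at h1
      exact one_ne_zero h1
    · intro h0
      have h1 := hT 1 (fun b hb => by
        rw [one_mul]
        exact hval Z h0 hZ b hb) b0 (hZ hb0)
      simp only [if_pos hb0] at h1
      exact one_ne_zero h1
  exact ⟨l, hl, key _ fun Z _ b _ => rfl, key _ hPZ1⟩

end

end Pool.Agent.Lib.MP_89bcae_ag

end

section

/-!
# Transitivity on the pairs of roots of `D` over the cyclotomic field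
-/

open Polynomial

set_option linter.unusedVariables false
set_option linter.unusedSectionVars false
set_option linter.style.haveILetI false

universe u v

namespace Pool.Agent.Lib.MP_89bcae_ag

/-- Type A over a ring with residue field `ZMod p`: separability. -/
theorem separable_of_typeAX14 {K : Type u} [Field K] [CharZero K] {D : ℤ[X]} {n : ℕ}
    (hD : D.natDegree ≤ n) (hn : 1 ≤ n) {p : ℕ} [Fact p.Prime]
    (h : TypeAX14 (D.map (Int.castRingHom (ZMod p))) n) :
    (D.map (Int.castRingHom K)).Separable := by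
  obtain ⟨hDn, hlc⟩ := lead_of_red14 hD hn h.2
  have h1 := separable_of_typeS14 K (g := X) (D := D) monic_X (by rw [natDegree_X]; exact one_ne_zero)
    hD hn (p := p) ⟨h.2, by
      rw [map_X, comp_X]
      exact PerfectField.separable_of_irreducible h.1⟩
  have h2 := h1.2
  rwa [comp_X] at h2

/-- **Transitivity on the pairs of roots of `D`**, `k` embedded in `ℚ_p` and in `ℚ_q`. -/
theorem pair2_of_types14 {k : Type u} [Field k] [CharZero k] {F : Type v} [Field F] [Algebra k F]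
    [IsAlgClosed F] [Algebra.IsAlgebraic k F] {p q : ℕ} [Fact p.Prime] [Fact q.Prime]
    (φ : k →+* ℚ_[p]) (ψ : k →+* ℚ_[q]) {D : ℤ[X]} {n : ℕ} (hD : D.natDegree ≤ n) (hn : 3 ≤ n)
    (hA : TypeAX14 (D.map (Int.castRingHom (ZMod p))) n)
    (hB : TypeBX14 (D.map (Int.castRingHom (ZMod q))) n) :
    (D.map (Int.castRingHom k)).Separable ∧
      IsPairTransitive7 k F X (D.map (Int.castRingHom k)) := by
  have hsep : (D.map (Int.castRingHom k)).Separable := separable_of_typeAX14 hD (by omega) hA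
  refine ⟨hsep, pairTransitiveX14 ?_ ?_⟩
  · obtain ⟨R, _, _, _, _, _, π, hπ, -, -, hunit⟩ := exists_local_ring7 φ
    exact typeAX_of_ring14 R π hπ hunit hD (by omega) hA
  · obtain ⟨R, _, _, _, _, _, π, hπ, -, -, hunit⟩ := exists_local_ring7 ψ
    exact typeBX_of_ring14 R π hπ hunit hD hn hsep hB

/-- The same over the cyclotomic field. -/
theorem pair2_cyclotomic14 {ℓ : ℕ} (hℓ : ℓ.Prime) {k : Type u} [Field k] [Algebra ℚ k]
    [IsCyclotomicExtension {ℓ} ℚ k] {F : Type v} [Field F] [Algebra k F]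
    [IsAlgClosed F] [Algebra.IsAlgebraic k F] {p q : ℕ} [Fact p.Prime] [Fact q.Prime]
    (hp : (p : ZMod ℓ) = 1) (hq : (q : ZMod ℓ) = 1) {D : ℤ[X]} {n : ℕ} (hD : D.natDegree ≤ n)
    (hn : 3 ≤ n) (hA : TypeAX14 (D.map (Int.castRingHom (ZMod p))) n)
    (hB : TypeBX14 (D.map (Int.castRingHom (ZMod q))) n) :
    (D.map (Int.castRingHom k)).Separable ∧
      IsPairTransitive7 k F X (D.map (Int.castRingHom k)) := by
  haveI : CharZero k := charZero_of_injective_algebraMap (algebraMap ℚ k).injective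
  have hdvd : ∀ (p : ℕ), p.Prime → (p : ZMod ℓ) = 1 → ℓ ∣ p - 1 := by
    intro p hp h
    rw [← ZMod.natCast_eq_zero_iff, Nat.cast_sub hp.one_le, h, Nat.cast_one, sub_self]
  obtain ⟨φ⟩ := exists_embedding7 hℓ (hdvd p Fact.out hp) k
  obtain ⟨ψ⟩ := exists_embedding7 hℓ (hdvd q Fact.out hq) k
  exact pair2_of_types14 φ ψ hD hn hA hB

end Pool.Agent.Lib.MP_89bcae_ag

end

section

open Polynomial WithZero

open scoped Classical

set_option linter.unusedSimpArgs false
set_option linter.unusedVariables false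
set_option linter.unusedSectionVars false
set_option linter.style.haveILetI false

namespace Pool.Agent.Lib.MP_89bcae_ag.Sup

universe u

theorem exists_mOrd (R k F : Type u) [CommRing R]
    [IsDomain R] [IsDiscreteValuationRing R] [Field k] [Algebra R k] [IsFractionRing R k]
    [Field F] [Algebra k F] [IsAlgClosure k F] (h2 : IsUnit (2 : R)) {g D : R[X]} (hg : g.Monic)
    (hgdeg : g.natDegree ≠ 0)
    (hlc : IsUnit D.leadingCoeff) (hcol : IsCollision7 g D)
    (hsep : ((D.comp g).map (algebraMap R k)).Separable)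
    (htr : IsPairTransitive7 k F (g.map (algebraMap R k)) (D.map (algebraMap R k)))
    (S : Finset F) (hS : ∀ b, b ∈ S ↔
      aeval (aeval b (g.map (algebraMap R k))) (D.map (algebraMap R k)) = 0) {α α' : F}
    (hα : aeval α (D.map (algebraMap R k)) = 0) (hα' : aeval α' (D.map (algebraMap R k)) = 0)
    (hne : α ≠ α') :
    ∃ (M : F → F) (o : F → ℤ), MOrd (IntermediateField.adjoin k (S : Set F)).toSubfield S
      (fun b => aeval b (g.map (algebraMap R k))) α α' M o := by
  have hF : IsAlgClosed F := IsAlgClosure.isAlgClosed k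
  have hkF : Algebra.IsAlgebraic k F := IsAlgClosure.isAlgebraic
  letI : Algebra R F := ((algebraMap k F).comp (algebraMap R k)).toAlgebra
  haveI : IsScalarTower R k F := IsScalarTower.of_algebraMap_eq fun _ => rfl
  have hinjk : Function.Injective (algebraMap R k) := IsFractionRing.injective R k
  have hinjF : Function.Injective (algebraMap R F) := (algebraMap k F).injective.comp hinjk
  have hmapF : ∀ p : R[X], (p.map (algebraMap R k)).map (algebraMap k F) =
      p.map (algebraMap R F) := fun p => by rw [Polynomial.map_map]; rfl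
  have hlcF : algebraMap R F D.leadingCoeff ≠ 0 := (hlc.map (algebraMap R F)).ne_zero
  have hlcF' : (D.map (algebraMap R F)).leadingCoeff = algebraMap R F D.leadingCoeff :=
    leadingCoeff_map_of_injective hinjF D
  have hcompF : (D.map (algebraMap R F)).comp (g.map (algebraMap R F)) =
      ((D.comp g).map (algebraMap R k)).map (algebraMap k F) := by
    rw [hmapF, Polynomial.map_comp]
  have hsepF : ((D.map (algebraMap R F)).comp (g.map (algebraMap R F))).Separable := by
    rw [hcompF]; exact hsep.map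
  have hgF : (g.map (algebraMap R F)).natDegree = g.natDegree := hg.natDegree_map _
  have hsepD : (D.map (algebraMap R F)).Separable := separable_left7 (by rw [hgF]; exact hgdeg) hsepF
  set gF := g.map (algebraMap R F) with hgFdef
  set DF := D.map (algebraMap R F) with hDFdef
  set A : Finset F := DF.roots.toFinset with hA
  have hev0 : ∀ b : F, aeval b (g.map (algebraMap R k)) = gF.eval b := by
    intro b
    rw [← eval_map_algebraMap, hmapF]
  have hevD : ∀ b : F, aeval b (D.map (algebraMap R k)) = DF.eval b := by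
    intro b
    rw [← eval_map_algebraMap, hmapF]
  have hmemS : ∀ b, b ∈ S ↔ DF.eval (gF.eval b) = 0 := by
    intro b
    rw [hS, hev0, hevD]
  have hSeq : S = (DF.comp gF).roots.toFinset := by
    ext b
    rw [hmemS, Multiset.mem_toFinset, mem_roots hsepF.ne_zero, IsRoot.def, eval_comp]
  have hmemA : ∀ α, α ∈ A ↔ DF.eval α = 0 := by
    intro α
    rw [hA, Multiset.mem_toFinset, mem_roots hsepD.ne_zero, IsRoot.def]
  have hSA : ∀ b ∈ S, gF.eval b ∈ A := fun b hb => (hmemA _).mpr ((hmemS b).mp hb)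
  have hDA : DF = C (algebraMap R F D.leadingCoeff) * ∏ α ∈ A, (X - C α) := by
    rw [← hlcF']
    exact eq_prod_roots7 hsepD
  have hdvd : ∀ α ∈ A, (gF - C α) ∣ DF.comp gF := by
    intro α hα
    obtain ⟨w, hw⟩ := dvd_iff_isRoot.mpr ((hmemA α).mp hα)
    refine ⟨w.comp gF, ?_⟩
    rw [hw, mul_comp, sub_comp, X_comp, C_comp]
  have hmon : ∀ α, (gF - C α).Monic := by
    intro α
    have h5 : (C α).degree < gF.degree := by
      rw [degree_eq_natDegree (p := gF) (hg.map _).ne_zero, hgF]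
      refine (degree_C_le).trans_lt ?_
      exact_mod_cast Nat.pos_of_ne_zero hgdeg
    exact (hg.map _).sub_of_left h5
  have hroots : ∀ α ∈ A, (gF - C α).roots.toFinset = S.filter (fun b => gF.eval b = α) := by
    intro α hα
    ext b
    rw [Finset.mem_filter, Multiset.mem_toFinset, mem_roots (hmon α).ne_zero, IsRoot.def, eval_sub,
      eval_C, sub_eq_zero, hmemS]
    constructor
    · exact fun h => ⟨by rw [h]; exact (hmemA α).mp hα, h⟩
    · exact fun h => h.2
  have hgS : ∀ α ∈ A, gF - C α = ∏ b ∈ S.filter (fun b => gF.eval b = α), (X - C b) := by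
    intro α hα
    have h3 := eq_prod_roots7 (hsepF.of_dvd (hdvd α hα))
    rw [(hmon α).leadingCoeff, C_1, one_mul, hroots α hα] at h3
    exact h3
  have hcardS : ∀ α ∈ A, (S.filter (fun b => gF.eval b = α)).card = g.natDegree := by
    intro α hα
    rw [← hroots α hα, card_roots_of_separable8 (hsepF.of_dvd (hdvd α hα)), natDegree_sub_C, hgF]
  have hAS : ∀ α ∈ A, ∃ b ∈ S, gF.eval b = α := by
    intro α hα
    have h1 : (S.filter (fun b => gF.eval b = α)).Nonempty := by
      rw [← Finset.card_pos, hcardS α hα]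
      exact Nat.pos_of_ne_zero hgdeg
    obtain ⟨b, hb⟩ := h1
    exact ⟨b, (Finset.mem_filter.mp hb).1, (Finset.mem_filter.mp hb).2⟩
  have hSroot : (S : Set F) = ((D.comp g).map (algebraMap R k)).rootSet F := by
    rw [rootSet, hSeq, hcompF, aroots]
  obtain ⟨hfin, hgal⟩ := galois7 (F := F) hsep
  obtain ⟨K, hK⟩ : ∃ K, K = IntermediateField.adjoin k (S : Set F) := ⟨_, rfl⟩
  haveI : FiniteDimensional k K := by rw [hK, hSroot]; exact hfin
  haveI : IsGalois k K := by rw [hK, hSroot]; exact hgal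
  obtain ⟨w, hw1, hw2, hw3, α₁, hα₁, α₂, hα₂, h12, hw4, hw5⟩ := exists_ord7 (R := R) (k := k)
    (F := F) h2 hgdeg hg hlc S A hDA hgS hSA hAS K hK hcol
  have hSK : ∀ b ∈ S, b ∈ K := by
    intro b hb
    rw [hK]
    exact IntermediateField.subset_adjoin _ _ hb
  have hev : ∀ b : F, aeval b (g.map (algebraMap R k)) = gF.eval b := by
    intro b
    rw [← eval_map_algebraMap, hmapF]
  -- the sums of the orders over the fibres
  let o : F → ℤ := fun x => - ordF7 w x
  have ho0 : ∀ b ∈ S, ∀ c ∈ S, 0 ≤ o (b - c) := fun b hb c hc => by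
    have := hw2 b hb c hc
    show 0 ≤ - ordF7 w (b - c)
    omega
  have hsum : ∀ b ∈ S, ∀ α ∈ A, gF.eval b ≠ α →
      ∑ c ∈ S.filter (fun c => gF.eval c = α), o (b - c) = - ordF7 w (gF.eval b - α) := by
    intro b hb α hα hne
    have h3 := congrArg (eval b) (hgS α hα)
    rw [eval_sub, eval_C, eval_prod] at h3
    rw [h3, Finset.prod_congr rfl fun c _ => by rw [eval_sub, eval_X, eval_C],
      ordF7_prod w _ _ (fun c hc => K.sub_mem (hSK b hb) (hSK c (Finset.mem_filter.mp hc).1))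
        (fun c hc => sub_ne_zero.mpr fun h0 => hne (by
          rw [h0]; exact (Finset.mem_filter.mp hc).2)), ← Finset.sum_neg_distrib]
  -- zero outside of the two fibres
  have hzero : ∀ b ∈ S, ∀ α ∈ A, gF.eval b ≠ α → ¬ (gF.eval b = α₁ ∧ α = α₂) →
      ¬ (gF.eval b = α₂ ∧ α = α₁) → ∀ c ∈ S, gF.eval c = α → o (b - c) = 0 := by
    intro b hb α hα hne h1 h3 c hc hcα
    have h4 := hsum b hb α hα hne
    rw [hw5 _ (hSA b hb) α hα hne h1 h3, neg_zero] at h4
    exact (Finset.sum_eq_zero_iff_of_nonneg (fun c hc =>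
      ho0 b hb c (Finset.mem_filter.mp hc).1)).mp h4 c (Finset.mem_filter.mpr ⟨hc, hcα⟩)
  -- one partner in the two fibres
  have hone : ∀ b ∈ S, ∀ α ∈ A, gF.eval b ≠ α → ordF7 w (gF.eval b - α) = -1 →
      ∀ c ∈ S, gF.eval c = α → o (b - c) ≠ 0 → ∀ c' ∈ S, gF.eval c' = α →
        o (b - c') = if c' = c then 1 else 0 := by
    intro b hb α hα hne h1 c hc hcα hc0 c' hc' hcα'
    have h4 := hsum b hb α hα hne
    rw [h1, neg_neg] at h4
    have hmem : c ∈ S.filter (fun c => gF.eval c = α) := Finset.mem_filter.mpr ⟨hc, hcα⟩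
    rw [← Finset.add_sum_erase _ _ hmem] at h4
    have h5 : 0 ≤ ∑ x ∈ (S.filter (fun c => gF.eval c = α)).erase c, o (b - x) :=
      Finset.sum_nonneg fun x hx => ho0 b hb x
        (Finset.mem_filter.mp (Finset.mem_of_mem_erase hx)).1
    have h6 := ho0 b hb c hc
    have h7 : o (b - c) = 1 := by omega
    have h8 : ∑ x ∈ (S.filter (fun c => gF.eval c = α)).erase c, o (b - x) = 0 := by omega
    by_cases hcc : c' = c
    · rw [if_pos hcc, hcc, h7]
    · rw [if_neg hcc]
      exact (Finset.sum_eq_zero_iff_of_nonneg (fun x hx =>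
        ho0 b hb x (Finset.mem_filter.mp (Finset.mem_of_mem_erase hx)).1)).mp h8 c'
        (Finset.mem_erase.mpr ⟨hcc, Finset.mem_filter.mpr ⟨hc', hcα'⟩⟩)
  have hsymm : ∀ x y : F, o (x - y) = o (y - x) := fun x y => by
    show - ordF7 w (x - y) = - ordF7 w (y - x)
    rw [ordF7_sub_comm]
  have hpart : ∀ b, ∃ c, b ∈ S → gF.eval b = α₁ → c ∈ S ∧ gF.eval c = α₂ ∧ o (b - c) ≠ 0 := by
    intro b
    by_cases hb : b ∈ S ∧ gF.eval b = α₁
    · have hbα : gF.eval b ≠ α₂ := by rw [hb.2]; exact h12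
      by_contra hcon
      push Not at hcon
      have h4 := hsum b hb.1 α₂ hα₂ hbα
      rw [Finset.sum_eq_zero fun c hc => ?_, hb.2, hw4] at h4
      · omega
      · by_contra h5
        have h6 := hcon c
        exact h5 (h6.2.2 (Finset.mem_filter.mp hc).1 (Finset.mem_filter.mp hc).2)
    · exact ⟨b, fun h1 h3 => absurd ⟨h1, h3⟩ hb⟩
  choose M₀ hM₀ using hpart
  have hleft : ∀ β ∈ S, gF.eval β = α₁ → ∀ β' ∈ S, gF.eval β' = α₂ →
      o (β - β') = if β' = M₀ β then 1 else 0 := by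
    intro β hβ h1 β' hβ' h3
    obtain ⟨q1, q2, q3⟩ := hM₀ β hβ h1
    exact hone β hβ α₂ hα₂ (by rw [h1]; exact h12) (by rw [h1]; exact hw4) (M₀ β) q1 q2 q3 β' hβ' h3
  have hbase : MOrd K.toSubfield S (fun b => gF.eval b) α₁ α₂ M₀ o := by
    refine ⟨fun a ha b hb ha0 hb0 => ?_, fun β hβ β' hβ' h1 h3 => ?_,
      fun β hβ β' hβ' h1 h3 h4 => ?_, fun β hβ h1 => ?_, fun β hβ β' hβ' h1 h3 h4 => ?_,
      fun β' hβ' h1 => ?_, hleft⟩
    · show - ordF7 w (a * b) = - ordF7 w a + - ordF7 w b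
      rw [ordF7_mul w ha hb ha0 hb0]
      ring
    · show - ordF7 w (β - β') = 0
      rw [hw3 β hβ β' hβ' h1 h3, neg_zero]
    · exact hzero β hβ _ (hSA β' hβ') h1 h3 h4 β' hβ' rfl
    · exact ⟨(hM₀ β hβ h1).1, (hM₀ β hβ h1).2.1⟩
    · obtain ⟨q1, q2, q3⟩ := hM₀ β hβ h1
      obtain ⟨r1, r2, r3⟩ := hM₀ β' hβ' h3
      rw [← h4] at r3
      rw [hsymm] at q3 r3
      have h5 := hone (M₀ β) q1 α₁ hα₁ (by rw [q2]; exact h12.symm)
        (by rw [q2, ordF7_sub_comm]; exact hw4) β hβ h1 q3 β' hβ' h3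
      by_contra hcon
      rw [if_neg (fun h => hcon h.symm)] at h5
      exact r3 h5
    · have hbα : gF.eval β' ≠ α₁ := by
        rw [show gF.eval β' = α₂ from h1]
        exact h12.symm
      obtain ⟨β, hβ, hβ1, hβ2⟩ : ∃ β ∈ S, gF.eval β = α₁ ∧ o (β' - β) ≠ 0 := by
        by_contra hcon
        push Not at hcon
        have h4 := hsum β' hβ' α₁ hα₁ hbα
        rw [Finset.sum_eq_zero fun c hc => hcon c (Finset.mem_filter.mp hc).1
          (Finset.mem_filter.mp hc).2, show gF.eval β' = α₂ from h1, ordF7_sub_comm, hw4] at h4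
        omega
      refine ⟨β, hβ, hβ1, ?_⟩
      have h5 := hleft β hβ hβ1 β' hβ' h1
      by_contra hcon
      rw [if_neg (fun h => hcon h.symm), hsymm] at h5
      exact hβ2 h5
  -- the Galois conjugates
  have hmemS' : ∀ b, b ∈ S ↔ aeval b ((D.map (algebraMap R k)).comp
      (g.map (algebraMap R k))) = 0 := by
    intro b
    rw [hmemS, aeval_comp, ← eval_map_algebraMap, hmapF, hev]
  have hσS : ∀ (σ : F ≃ₐ[k] F), ∀ x ∈ S, σ x ∈ S := by
    intro σ x hx
    rw [hmemS'] at hx ⊢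
    rw [Polynomial.aeval_algHom_apply, hx, map_zero]
  have hσK : ∀ (σ : F ≃ₐ[k] F), ∀ x ∈ K, σ x ∈ K := by
    intro σ x hx
    rw [hK] at hx ⊢
    refine IntermediateField.adjoin_induction k (p := fun x _ =>
      σ x ∈ IntermediateField.adjoin k (S : Set F)) ?_ ?_ ?_ ?_ ?_ hx
    · intro y hy
      exact IntermediateField.subset_adjoin k _ (hσS σ y hy)
    · intro y
      rw [AlgEquiv.commutes]
      exact IntermediateField.algebraMap_mem _ y
    · intro y z _ _ hy hz
      rw [map_add]; exact add_mem hy hz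
    · intro y _ hy
      rw [map_inv₀]; exact inv_mem hy
    · intro y z _ _ hy hz
      rw [map_mul]; exact mul_mem hy hz
  have hσg : ∀ (σ : F ≃ₐ[k] F) (x : F), gF.eval (σ x) = σ (gF.eval x) := fun σ x => by
    rw [← hev, ← hev]
    exact Polynomial.aeval_algHom_apply (σ : F →ₐ[k] F) x _
  -- the pair of roots
  have hαA : α ∈ A := (hmemA α).mpr (by rw [← hevD]; exact hα)
  have hαA' : α' ∈ A := (hmemA α').mpr (by rw [← hevD]; exact hα')
  obtain ⟨x, hx, hgx⟩ := hAS α hαA
  obtain ⟨y, hy, hgy⟩ := hAS α' hαA'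
  obtain ⟨b₀, hb₀, hgb₀⟩ := hAS α₁ hα₁
  obtain ⟨c₀, hc₀, hgc₀⟩ := hAS α₂ hα₂
  obtain ⟨σ, hσ1, hσ2⟩ := htr x y b₀ c₀ ((hmemS' x).mp hx) ((hmemS' y).mp hy)
      ((hmemS' b₀).mp hb₀) ((hmemS' c₀).mp hc₀) (by rw [hev, hev, hgx, hgy]; exact hne) (by
        rw [hev, hev, hgb₀, hgc₀]; exact h12)
  have hσα : σ α = α₁ := by rw [← hgx, ← hσg, hσ1, hgb₀]
  have hσα' : σ α' = α₂ := by rw [← hgy, ← hσg, hσ2, hgc₀]
  have k1 : ∀ z, gF.eval (σ z) = α₁ ↔ aeval z (g.map (algebraMap R k)) = α := by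
    intro z
    rw [hσg, hev, ← hσα]
    exact σ.injective.eq_iff
  have k2 : ∀ z, gF.eval (σ z) = α₂ ↔ aeval z (g.map (algebraMap R k)) = α' := by
    intro z
    rw [hσg, hev, ← hσα']
    exact σ.injective.eq_iff
  have k3 : ∀ z z', gF.eval (σ z) = gF.eval (σ z') ↔
      aeval z (g.map (algebraMap R k)) = aeval z' (g.map (algebraMap R k)) := by
    intro z z'
    rw [hσg, hσg, hev, hev]
    exact σ.injective.eq_iff
  have k4 : ∀ z, σ (σ.symm z) = z := fun z => σ.apply_symm_apply z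
  refine ⟨fun z => σ.symm (M₀ (σ z)), fun z => o (σ z), ?_⟩
  rw [← hK]
  refine ⟨fun a ha b hb ha0 hb0 => ?_, fun β hβ β' hβ' h1 h3 => ?_,
      fun β hβ β' hβ' h1 h3 h4 => ?_, fun β hβ h1 => ?_, fun β hβ β' hβ' h1 h3 h4 => ?_,
      fun β' hβ' h1 => ?_, fun β hβ h1 β' hβ' h3 => ?_⟩
  · show o (σ (a * b)) = o (σ a) + o (σ b)
    rw [map_mul]
    exact hbase.mul _ (hσK σ a ha) _ (hσK σ b hb) ((_root_.map_ne_zero σ).mpr ha0)
      ((_root_.map_ne_zero σ).mpr hb0)
  · show o (σ (β - β')) = 0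
    rw [map_sub]
    exact hbase.same _ (hσS σ β hβ) _ (hσS σ β' hβ') (fun h => h1 (σ.injective h))
      ((k3 β β').mpr h3)
  · show o (σ (β - β')) = 0
    rw [map_sub]
    exact hbase.out _ (hσS σ β hβ) _ (hσS σ β' hβ') (fun h => h1 ((k3 β β').mp h))
      (fun h => h3 ⟨(k1 β).mp h.1, (k2 β').mp h.2⟩) (fun h => h4 ⟨(k2 β).mp h.1, (k1 β').mp h.2⟩)
  · obtain ⟨q1, q2⟩ := hbase.mem _ (hσS σ β hβ) ((k1 β).mpr h1)
    refine ⟨hσS σ.symm _ q1, (k2 _).mp ?_⟩
    rw [k4]
    exact q2
  · have h5 : M₀ (σ β) = M₀ (σ β') := σ.symm.injective h4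
    exact σ.injective (hbase.inj _ (hσS σ β hβ) _ (hσS σ β' hβ') ((k1 β).mpr h1)
      ((k1 β').mpr h3) h5)
  · obtain ⟨β, hβ, hβ1, hβ2⟩ := hbase.surj _ (hσS σ β' hβ') ((k2 β').mpr h1)
    refine ⟨σ.symm β, hσS σ.symm _ hβ, (k1 _).mp (by rw [k4]; exact hβ1), ?_⟩
    show σ.symm (M₀ (σ (σ.symm β))) = β'
    rw [k4, hβ2]
    exact σ.symm_apply_apply β'
  · show o (σ (β - β')) = _
    rw [map_sub, hbase.left _ (hσS σ β hβ) ((k1 β).mpr h1) _ (hσS σ β' hβ') ((k2 β').mpr h3)]
    refine if_congr ⟨fun h => ?_, fun h => ?_⟩ rfl rfl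
    · rw [← h]
      exact (σ.symm_apply_apply β').symm
    · rw [h]
      exact k4 _

end Pool.Agent.Lib.MP_89bcae_ag.Sup

end
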