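import Mathlib
import Pool.Agent.Lib.MP_89bcae_ag.Rk.K026
import Pool.Agent.Lib.MP_89bcae_ag.Rk.K044

section

namespace Pool.Agent.Lib.MP_89bcae_ag.Re

/-- Powers in a prime field. Proof: the group of units of `ZMod q` is cyclic of order `q - 1`, divisible
by `ℓ` (the order of `ζ`); `a` is an `ℓ`-th power iff `a ^ ((q - 1) / ℓ) = 1`. In detail: let `u` be a
generator (`IsCyclic (ZMod q)ˣ`), `a = u ^ i`; `a ^ ((q-1)/ℓ)` is an `ℓ`-th root of unity, so it is
`ζ ^ j` with `j < ℓ` (`IsPrimitiveRoot.eq_pow_of_pow_eq_one`); if `j = 0` then `q - 1` divides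
`i (q-1)/ℓ`, so `ℓ ∣ i` and `a` is an `ℓ`-th power. -/
theorem exists_symbol {ℓ q : ℕ} (hℓ : ℓ.Prime) [Fact q.Prime] {ζ : ZMod q}
    (hζ : IsPrimitiveRoot ζ ℓ) {a : ZMod q} (ha : a ≠ 0) (hpow : ∀ y : ZMod q, y ^ ℓ ≠ a) :
    ℓ ∣ q - 1 ∧ ∃ i : ZMod ℓ, i ≠ 0 ∧ a ^ ((q - 1) / ℓ) = ζ ^ i.val := by
  have hζ0 : ζ ≠ 0 := hζ.ne_zero hℓ.ne_zero
  have hdvd : ℓ ∣ q - 1 := by
    rw [hζ.eq_orderOf]
    exact ZMod.orderOf_dvd_card_sub_one hζ0
  refine ⟨hdvd, ?_⟩
  obtain ⟨m, hm⟩ := hdvd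
  have hq1 : 0 < q - 1 := by
    have := (Fact.out : q.Prime).two_le
    omega
  have hm0 : 0 < m := by
    rcases Nat.eq_zero_or_pos m with h | h
    · rw [h, mul_zero] at hm
      omega
    · exact h
  have hdiv : (q - 1) / ℓ = m := by
    rw [hm]
    exact Nat.mul_div_cancel_left m hℓ.pos
  rw [hdiv]
  have hNe : NeZero ℓ := ⟨hℓ.ne_zero⟩
  have h1 : (a ^ m) ^ ℓ = 1 := by
    rw [← pow_mul, mul_comm m ℓ, ← hm]
    exact ZMod.pow_card_sub_one_eq_one ha
  obtain ⟨j, hj, hj'⟩ := hζ.eq_pow_of_pow_eq_one h1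
  refine ⟨(j : ZMod ℓ), ?_, ?_⟩
  · intro h0
    rw [ZMod.natCast_eq_zero_iff] at h0
    have hj0 : j = 0 := Nat.eq_zero_of_dvd_of_lt h0 hj
    rw [hj0, pow_zero] at hj'
    obtain ⟨u, hu⟩ := IsCyclic.exists_generator (α := (ZMod q)ˣ)
    obtain ⟨i, hi⟩ := (Submonoid.mem_powers_iff _ _).1 ((mem_powers_iff_mem_zpowers).2 (hu (Units.mk0 a ha)))
    have hord : orderOf u = q - 1 := by
      rw [orderOf_eq_card_of_forall_mem_zpowers hu, Nat.card_eq_fintype_card, ZMod.card_units]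
    have h2 : u ^ (i * m) = 1 := by
      rw [pow_mul, hi]
      ext
      rw [Units.val_pow_eq_pow_val, Units.val_mk0, Units.val_one]
      exact hj'.symm
    have h3 : ℓ * m ∣ i * m := by
      rw [← hm, ← hord]
      exact orderOf_dvd_of_pow_eq_one h2
    obtain ⟨n, hn⟩ := Nat.dvd_of_mul_dvd_mul_right hm0 h3
    refine hpow ((u ^ n : (ZMod q)ˣ) : ZMod q) ?_
    have h4 : (u ^ n) ^ ℓ = Units.mk0 a ha := by
      rw [← hi, hn, mul_comm ℓ n, pow_mul]
    rw [← Units.val_pow_eq_pow_val, h4, Units.val_mk0]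
  · rw [ZMod.val_natCast, Nat.mod_eq_of_lt hj, hj']

/-- Proof: `(w ^ ℓ) ^ ((q - 1) / ℓ) = w ^ (q - 1) = 1` and
`(ζ ^ i.val) ^ j = ζ ^ (i * j : ZMod ℓ).val` (`ζ ^ ℓ = 1`, `ZMod.val_mul`, `pow_mod_orderOf`...). -/
theorem symbol_of_pow_mul {ℓ q : ℕ} (hℓ : ℓ.Prime) [Fact q.Prime] {ζ : ZMod q}
    (hζ : IsPrimitiveRoot ζ ℓ) (hdvd : ℓ ∣ q - 1) {w a z : ZMod q} {j : ℕ} (hw : w ≠ 0)
    (h : w ^ ℓ * a ^ j = z) {i : ZMod ℓ} (hi : a ^ ((q - 1) / ℓ) = ζ ^ i.val) :
    z ^ ((q - 1) / ℓ) = ζ ^ (i * j : ZMod ℓ).val := by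
  have hNe : NeZero ℓ := ⟨hℓ.ne_zero⟩
  obtain ⟨m, hm⟩ := hdvd
  have hdiv : (q - 1) / ℓ = m := by
    rw [hm]
    exact Nat.mul_div_cancel_left m hℓ.pos
  rw [hdiv] at hi ⊢
  have h1 : w ^ (ℓ * m) = 1 := by
    rw [← hm]
    exact ZMod.pow_card_sub_one_eq_one hw
  have h2 : ∀ n : ℕ, ζ ^ (n % ℓ) = ζ ^ n := by
    intro n
    conv_rhs => rw [← Nat.div_add_mod n ℓ, pow_add, pow_mul, hζ.pow_eq_one, one_pow, one_mul]
  rw [← h, mul_pow, ← pow_mul, h1, one_mul, ← pow_mul, mul_comm j m, pow_mul, hi, ← pow_mul,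
    ZMod.val_mul, ZMod.val_natCast, Nat.mul_mod_mod, h2]

end Pool.Agent.Lib.MP_89bcae_ag.Re

end

section

/-!
Simply transitive finite sets of automorphisms on the fibre over any root of `D`.
-/

open Polynomial WithZero

open scoped Classical Pointwise

set_option linter.unusedSimpArgs false
set_option linter.unusedVariables false
set_option linter.unusedSectionVars false
set_option linter.style.haveILetI false

namespace Pool.Agent.Lib.MP_89bcae_ag

theorem exists_simply_transitive (R k F : Type*) [CommRing R] [IsDomain R]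
    [IsDiscreteValuationRing R] [Field k] [Algebra R k]
    [IsFractionRing R k] [Field F] [Algebra k F] [IsAlgClosure k F] {g D : R[X]} (hg : g.Monic)
    (hgm : (g.natDegree : IsLocalRing.ResidueField R) ≠ 0) {n : ℕ} (hn : D.natDegree = n + 1)
    (h1 : D.leadingCoeff ∈ IsLocalRing.maximalIdeal R)
    (h2 : D.leadingCoeff ∉ IsLocalRing.maximalIdeal R ^ 2)
    (h3 : D.coeff n ∉ IsLocalRing.maximalIdeal R)
    (hsepκ : ((D.map (IsLocalRing.residue R)).comp (g.map (IsLocalRing.residue R))).Separable)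
    (hsep : ((D.comp g).map (algebraMap R k)).Separable)
    (hX : IsPairTransitive7 k F X (D.map (algebraMap R k))) (α : F)
    (hα : aeval α (D.map (algebraMap R k)) = 0) :
    ∃ J : Finset (F ≃ₐ[k] F),
      (∀ x y : F, aeval x (g.map (algebraMap R k)) = α → aeval y (g.map (algebraMap R k)) = α →
        ∃ σ ∈ J, σ x = y ∧ ∀ τ ∈ J, τ x = y → τ = σ) ∧
      ∀ σ ∈ J, ∀ b : F,
        aeval b ((D.map (algebraMap R k)).comp (g.map (algebraMap R k))) = 0 →
          aeval b (g.map (algebraMap R k)) ≠ α → σ b = b := by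
  have hgdeg : g.natDegree ≠ 0 := by
    intro h
    rw [h, Nat.cast_zero] at hgm
    exact hgm rfl
  have hF : IsAlgClosed F := IsAlgClosure.isAlgClosed k
  have hkF : Algebra.IsAlgebraic k F := IsAlgClosure.isAlgebraic
  letI : Algebra R F := ((algebraMap k F).comp (algebraMap R k)).toAlgebra
  haveI : IsScalarTower R k F := IsScalarTower.of_algebraMap_eq fun _ => rfl
  have hinjk : Function.Injective (algebraMap R k) := IsFractionRing.injective R k
  have hinjF : Function.Injective (algebraMap R F) := (algebraMap k F).injective.comp hinjk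
  have hmapF : ∀ p : R[X], (p.map (algebraMap R k)).map (algebraMap k F) =
      p.map (algebraMap R F) := fun p => by rw [Polynomial.map_map]; rfl
  have hlcF' : (D.map (algebraMap R F)).leadingCoeff = algebraMap R F D.leadingCoeff :=
    leadingCoeff_map_of_injective hinjF D
  have hcompF : (D.map (algebraMap R F)).comp (g.map (algebraMap R F)) =
      ((D.comp g).map (algebraMap R k)).map (algebraMap k F) := by
    rw [hmapF, Polynomial.map_comp]
  have hsepF : ((D.map (algebraMap R F)).comp (g.map (algebraMap R F))).Separable := by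
    rw [hcompF]; exact hsep.map
  have hgF : (g.map (algebraMap R F)).natDegree ≠ 0 := by rwa [hg.natDegree_map]
  have hsepD : (D.map (algebraMap R F)).Separable := separable_left7 hgF hsepF
  set gF := g.map (algebraMap R F) with hgFdef
  set DF := D.map (algebraMap R F) with hDFdef
  set S : Finset F := (DF.comp gF).roots.toFinset with hS
  set A : Finset F := DF.roots.toFinset with hA
  have hmemS : ∀ b, b ∈ S ↔ DF.eval (gF.eval b) = 0 := by
    intro b
    rw [hS, Multiset.mem_toFinset, mem_roots hsepF.ne_zero, IsRoot.def, eval_comp]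
  have hmemA : ∀ α, α ∈ A ↔ DF.eval α = 0 := by
    intro α
    rw [hA, Multiset.mem_toFinset, mem_roots hsepD.ne_zero, IsRoot.def]
  have hSA : ∀ b ∈ S, gF.eval b ∈ A := fun b hb => (hmemA _).mpr ((hmemS b).mp hb)
  have hDA : DF = C (algebraMap R F D.leadingCoeff) * ∏ α ∈ A, (X - C α) := by
    rw [← hlcF']
    exact eq_prod_roots7 hsepD
  have hgS : ∀ α ∈ A, gF - C α = ∏ b ∈ S.filter (fun b => gF.eval b = α), (X - C b) := by
    intro α hα
    have h1 : (gF - C α) ∣ DF.comp gF := by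
      obtain ⟨w, hw⟩ := dvd_iff_isRoot.mpr ((hmemA α).mp hα)
      refine ⟨w.comp gF, ?_⟩
      rw [hw, mul_comp, sub_comp, X_comp, C_comp]
    have h3 := eq_prod_roots7 (hsepF.of_dvd h1)
    have h4 : (gF - C α).Monic := by
      have h5 : (C α).degree < gF.degree := by
        rw [degree_eq_natDegree (p := gF) (fun h => hgF (by rw [h, natDegree_zero]))]
        exact (degree_C_le).trans_lt (by exact_mod_cast Nat.pos_of_ne_zero hgF)
      exact (hg.map _).sub_of_left h5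
    rw [h4.leadingCoeff, C_1, one_mul] at h3
    rw [h3]
    congr 1
    ext b
    rw [Finset.mem_filter, Multiset.mem_toFinset, mem_roots h4.ne_zero, IsRoot.def, eval_sub,
      eval_C, sub_eq_zero, hmemS]
    constructor
    · exact fun h => ⟨by rw [h]; exact (hmemA α).mp hα, h⟩
    · exact fun h => h.2
  have hAS : ∀ α ∈ A, ∃ b ∈ S, gF.eval b = α := by
    intro α hα
    have h1 : (gF - C α).degree ≠ 0 := by
      intro h4
      have h3 : (gF - C α).natDegree = gF.natDegree := natDegree_sub_C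
      rw [natDegree_eq_of_degree_eq_some h4] at h3
      exact hgF h3.symm
    obtain ⟨b, hb⟩ := IsAlgClosed.exists_root _ h1
    rw [IsRoot.def, eval_sub, eval_C, sub_eq_zero] at hb
    exact ⟨b, (hmemS b).mpr (by rw [hb]; exact (hmemA α).mp hα), hb⟩
  have hSroot : (S : Set F) = ((D.comp g).map (algebraMap R k)).rootSet F := by
    rw [rootSet, hS, hcompF, aroots]
  obtain ⟨hfin, hgal⟩ := galois7 (F := F) hsep
  obtain ⟨K, hK⟩ : ∃ K, K = IntermediateField.adjoin k (S : Set F) := ⟨_, rfl⟩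
  haveI : FiniteDimensional k K := by rw [hK, hSroot]; exact hfin
  haveI : IsGalois k K := by rw [hK, hSroot]; exact hgal
  have hSK : ∀ b ∈ S, b ∈ K := by
    intro b hb
    rw [hK]
    exact IntermediateField.subset_adjoin _ _ hb
  have hRK : ∀ r : R, algebraMap R F r ∈ K := by
    intro r
    rw [IsScalarTower.algebraMap_apply R k F]
    exact K.algebraMap_mem _
  have hgK : ∀ b ∈ K, gF.eval b ∈ K := by
    intro b hb
    rw [hgFdef, eval_map, eval₂_eq_sum_range]
    exact K.sum_mem fun i _ => K.mul_mem (hRK _) (pow_mem hb i)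
  have hAK : ∀ α ∈ A, α ∈ K := by
    intro α hα
    obtain ⟨b, hb, rfl⟩ := hAS α hα
    exact hgK b (hSK b hb)
  have hcomp : (algebraMap K F).comp (algebraMap R K) = algebraMap R F := RingHom.ext fun r => rfl
  have hinj : Function.Injective (Polynomial.map (algebraMap K F)) :=
    Polynomial.map_injective _ (algebraMap K F).injective
  have hev : ∀ b : K, (((g.map (algebraMap R K)).eval b : K) : F) = gF.eval (b : F) := by
    intro b
    rw [hgFdef, ← hcomp, ← Polynomial.map_map, eval_map (algebraMap K F)]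
    exact (eval₂_at_apply (algebraMap K F) b).symm
  obtain ⟨α₀, hα₀, J, hJ1, hJ2⟩ := exists_cycleT (k := k) (K := K) hg hgm hn h1 h2 h3 hsepκ
    (S.subtype (· ∈ K)) (A.subtype (· ∈ K)) (by
      apply hinj
      rw [Polynomial.map_map, hcomp, ← hDFdef, hDA, Polynomial.map_mul, map_C, Polynomial.map_prod]
      congr 1
      have h1 := prod_subtype7 (· ∈ K) A hAK (fun _ => True) (fun _ => True) (fun _ => Iff.rfl)
        (fun b => (X - C b : F[X]))
      rw [Finset.filter_true, Finset.filter_true] at h1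
      rw [← h1]
      refine Finset.prod_congr rfl fun b _ => ?_
      rw [Polynomial.map_sub, map_X, map_C]
      rfl) (by
      intro α hα
      apply hinj
      rw [Polynomial.map_sub, Polynomial.map_map, hcomp, map_C, Polynomial.map_prod]
      rw [Finset.mem_subtype] at hα
      have h1 := prod_subtype7 (· ∈ K) S hSK (fun b => (g.map (algebraMap R K)).eval b = α)
        (fun b => gF.eval b = (α : F))
        (fun b => by rw [← hev, Subtype.coe_inj]) (fun b => (X - C b : F[X]))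
      refine (hgS α hα).trans (h1.symm.trans ?_)
      refine Finset.prod_congr rfl fun b _ => ?_
      rw [Polynomial.map_sub, map_X, map_C]
      rfl) (by
      intro b hb
      rw [Finset.mem_subtype] at hb ⊢
      rw [hev]
      exact hSA b hb) (by
      intro σ hσ
      subst hK
      ext x
      have h1 : (σ : _ ≃ₐ[k] _).toAlgHom = AlgHom.id k _ := by
        apply IntermediateField.algHom_ext_of_eq_adjoin _ rfl
        intro y hy
        exact hσ ⟨y, IntermediateField.subset_adjoin _ _ hy⟩ (Finset.mem_subtype.mpr hy)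
      exact congrArg Subtype.val (congrArg (fun f => f x) h1))
  rw [Finset.mem_subtype] at hα₀
  have heva : ∀ b : F, aeval b (g.map (algebraMap R k)) = gF.eval b := by
    intro b
    rw [← eval_map_algebraMap, hmapF]
  have hevD : ∀ b : F, aeval b (D.map (algebraMap R k)) = DF.eval b := by
    intro b
    rw [← eval_map_algebraMap, hmapF]
  -- the lifts
  choose lft hlft using fun σ : K ≃ₐ[k] K =>
    AlgEquiv.restrictNormalHom_surjective (F := k) (K₁ := K) F σ
  have hτK : ∀ (σ : K ≃ₐ[k] K) (z : K), lft σ z = (σ z : K) := by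
    intro σ z
    have h := (AlgEquiv.restrictNormal_commutes (lft σ) K z).symm
    have h' : (lft σ).restrictNormal K = σ := hlft σ
    rw [h'] at h
    exact h
  have hcmp : (D.map (algebraMap R k)).comp (g.map (algebraMap R k)) =
      (D.comp g).map (algebraMap R k) := (Polynomial.map_comp _ _ _).symm
  -- the statement for `α₀`
  have key1 : ∀ x y : F, aeval x (g.map (algebraMap R k)) = (α₀ : F) →
      aeval y (g.map (algebraMap R k)) = (α₀ : F) →
        ∃ σ ∈ J.image lft, σ x = y ∧ ∀ τ ∈ J.image lft, τ x = y → τ = σ := by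
    intro x y hx hy
    rw [heva] at hx hy
    have hxS : x ∈ S := (hmemS x).mpr (by rw [hx]; exact (hmemA _).mp hα₀)
    have hyS : y ∈ S := (hmemS y).mpr (by rw [hy]; exact (hmemA _).mp hα₀)
    obtain ⟨σ, hσJ, hσ, huni⟩ := hJ1 ⟨x, hSK x hxS⟩ (Finset.mem_subtype.mpr hxS) ⟨y, hSK y hyS⟩
      (Finset.mem_subtype.mpr hyS) (Subtype.ext (by rw [hev]; exact hx))
      (Subtype.ext (by rw [hev]; exact hy))
    refine ⟨lft σ, Finset.mem_image_of_mem _ hσJ, ?_, ?_⟩
    · have h4 := hτK σ ⟨x, hSK x hxS⟩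
      rw [hσ] at h4
      exact h4
    · intro τ hτ hτx
      obtain ⟨σ', hσ'J, rfl⟩ := Finset.mem_image.mp hτ
      have h4 := hτK σ' ⟨x, hSK x hxS⟩
      have h5 : σ' ⟨x, hSK x hxS⟩ = ⟨y, hSK y hyS⟩ := by
        apply Subtype.ext
        rw [← h4]
        exact hτx
      rw [huni σ' hσ'J h5]
  have key2 : ∀ σ ∈ J.image lft, ∀ b : F,
      aeval b ((D.map (algebraMap R k)).comp (g.map (algebraMap R k))) = 0 →
        aeval b (g.map (algebraMap R k)) ≠ (α₀ : F) → σ b = b := by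
    intro τ hτ b hb hne
    obtain ⟨σ, hσJ, rfl⟩ := Finset.mem_image.mp hτ
    rw [aeval_comp, heva, hevD] at hb
    have hbS : b ∈ S := (hmemS b).mpr hb
    have h4 := hτK σ ⟨b, hSK b hbS⟩
    rw [hJ2 σ hσJ ⟨b, hSK b hbS⟩ (Finset.mem_subtype.mpr hbS) ?_] at h4
    · exact h4
    · intro h5
      apply hne
      rw [heva, ← hev ⟨b, hSK b hbS⟩, h5]
  -- the general fibre
  have hρ : ∃ ρ : F ≃ₐ[k] F, ρ (α₀ : F) = α := by
    by_cases hc : (α₀ : F) = α
    · exact ⟨AlgEquiv.refl, hc⟩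
    · have hα₀r : aeval (α₀ : F) (D.map (algebraMap R k)) = 0 := by
        rw [hevD]; exact (hmemA _).mp hα₀
      obtain ⟨ρ, h, -⟩ := hX (α₀ : F) α α (α₀ : F) (by simpa using hα₀r) (by simpa using hα)
        (by simpa using hα) (by simpa using hα₀r) (by simpa using hc)
        (by simpa using Ne.symm hc)
      exact ⟨ρ, h⟩
  obtain ⟨ρ, hρ⟩ := hρ
  have hσev : ∀ (σ : F ≃ₐ[k] F) (p : k[X]) (x : F), aeval (σ x) p = σ (aeval x p) := fun σ p x =>
    Polynomial.aeval_algHom_apply σ x p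
  have hρ' : ρ.symm α = (α₀ : F) := by rw [← hρ, AlgEquiv.symm_apply_apply]
  refine ⟨(J.image lft).image fun σ => (ρ.symm.trans σ).trans ρ, ?_, ?_⟩
  · intro x y hx hy
    obtain ⟨σ, hσJ, hσ, huni⟩ := key1 (ρ.symm x) (ρ.symm y) (by rw [hσev, hx, hρ'])
      (by rw [hσev, hy, hρ'])
    refine ⟨(ρ.symm.trans σ).trans ρ, Finset.mem_image_of_mem _ hσJ, ?_, ?_⟩
    · change ρ (σ (ρ.symm x)) = y
      rw [hσ, AlgEquiv.apply_symm_apply]
    · intro τ hτ hτx
      obtain ⟨σ', hσ'J, rfl⟩ := Finset.mem_image.mp hτ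
      have h5 : ρ (σ' (ρ.symm x)) = y := hτx
      rw [huni σ' hσ'J (by rw [← h5, AlgEquiv.symm_apply_apply])]
  · intro τ hτ b hb hne
    obtain ⟨σ, hσJ, rfl⟩ := Finset.mem_image.mp hτ
    change ρ (σ (ρ.symm b)) = b
    rw [key2 σ hσJ (ρ.symm b) (by rw [hσev, hb, map_zero]) ?_, AlgEquiv.apply_symm_apply]
    intro h6
    rw [hσev] at h6
    apply hne
    rw [← hρ, ← h6, AlgEquiv.apply_symm_apply]

end Pool.Agent.Lib.MP_89bcae_ag

end

section

/-!
Kummer duality: automorphisms with prescribed symbols.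
-/

open Polynomial

open scoped Classical

set_option linter.unusedSectionVars false
set_option linter.unusedVariables false

namespace Pool.Agent.Lib.MP_89bcae_ag.Sup

universe u

theorem te04_lam_one {k F : Type u} [Field k] [Field F] [Algebra k F] {ℓ : ℕ}
    (K : IntermediateField k F) (lam : F → ZMod ℓ)
    (hmul : ∀ x ∈ K, ∀ y ∈ K, x ≠ 0 → y ≠ 0 → lam (x * y) = lam x + lam y) : lam 1 = 0 := by
  have h := hmul 1 K.one_mem 1 K.one_mem one_ne_zero one_ne_zero
  rw [mul_one] at h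
  exact left_eq_add.1 h

theorem te04_lam_pow {k F : Type u} [Field k] [Field F] [Algebra k F] {ℓ : ℕ}
    (K : IntermediateField k F) (lam : F → ZMod ℓ)
    (hmul : ∀ x ∈ K, ∀ y ∈ K, x ≠ 0 → y ≠ 0 → lam (x * y) = lam x + lam y) {x : F} (hx : x ∈ K)
    (hx0 : x ≠ 0) (n : ℕ) : lam (x ^ n) = n * lam x := by
  induction n with
  | zero => simp [te04_lam_one K lam hmul]
  | succ n ih =>
    rw [pow_succ, hmul _ (pow_mem hx n) _ hx (pow_ne_zero _ hx0) hx0, ih]
    push_cast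
    ring

theorem te04_lam_prod {k F : Type u} [Field k] [Field F] [Algebra k F] {ℓ : ℕ}
    (K : IntermediateField k F) (lam : F → ZMod ℓ)
    (hmul : ∀ x ∈ K, ∀ y ∈ K, x ≠ 0 → y ≠ 0 → lam (x * y) = lam x + lam y) {ι : Type*}
    (S : Finset ι) (z : ι → F) (hz : ∀ i ∈ S, z i ∈ K) (hz0 : ∀ i ∈ S, z i ≠ 0) :
    lam (∏ i ∈ S, z i) = ∑ i ∈ S, lam (z i) := by
  classical
  induction S using Finset.induction_on with
  | empty => simp [te04_lam_one K lam hmul]
  | insert a S ha ih =>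
    rw [Finset.prod_insert ha, Finset.sum_insert ha,
      hmul _ (hz a (Finset.mem_insert_self a S)) _
        (K.prod_mem fun i hi => hz i (Finset.mem_insert_of_mem hi))
        (hz0 a (Finset.mem_insert_self a S))
        (Finset.prod_ne_zero_iff.2 fun i hi => hz0 i (Finset.mem_insert_of_mem hi)),
      ih (fun i hi => hz i (Finset.mem_insert_of_mem hi))
        (fun i hi => hz0 i (Finset.mem_insert_of_mem hi))]

/-- The symbols of a product of two automorphisms. -/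
theorem te04_kap_comp {k F : Type u} [Field k] [Field F] [Algebra k F] [IsAlgClosed F]
    {ℓ : ℕ} (hℓ : ℓ.Prime) {ζ : k} (hζ : IsPrimitiveRoot ζ ℓ) (U V : F ≃ₐ[k] F) {z : F}
    (hz0 : z ≠ 0) (hU : U z = z) (hV : V z = z) :
    kap ℓ (algebraMap k F ζ) (U.trans V) z =
      kap ℓ (algebraMap k F ζ) U z + kap ℓ (algebraMap k F ζ) V z := by
  have : NeZero ℓ := ⟨hℓ.ne_zero⟩
  have hζF : IsPrimitiveRoot (algebraMap k F ζ) ℓ :=
    hζ.map_of_injective (algebraMap k F).injective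
  obtain ⟨x, hx⟩ := IsAlgClosed.exists_pow_nat_eq z hℓ.pos
  have hx0 : x ≠ 0 := by
    rintro rfl
    rw [zero_pow hℓ.ne_zero] at hx
    exact hz0 hx.symm
  have h1 := kap_spec U.toRingEquiv hℓ hζF (by simp) hz0 hU hx
  have h2 := kap_spec V.toRingEquiv hℓ hζF (by simp) hz0 hV hx
  have h3 : (U.trans V).toRingEquiv x = (algebraMap k F ζ) ^
      (((kap ℓ (algebraMap k F ζ) U z).val + (kap ℓ (algebraMap k F ζ) V z).val : ℕ) : ℤ) * x := by
    rw [zpow_natCast, pow_add]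
    show V (U x) = _
    have h1' : U x = (algebraMap k F ζ) ^ (kap ℓ (algebraMap k F ζ) U z).val * x := h1
    have h2' : V x = (algebraMap k F ζ) ^ (kap ℓ (algebraMap k F ζ) V z).val * x := h2
    rw [h1', map_mul, map_pow, V.commutes, h2']
    ring
  have h4 := kap_of (U.trans V).toRingEquiv hℓ hζF (by simp) hx0 h3
  rw [hx] at h4
  have h5 : kap ℓ (algebraMap k F ζ) (U.trans V) z =
    ((((kap ℓ (algebraMap k F ζ) U z).val + (kap ℓ (algebraMap k F ζ) V z).val : ℕ) : ℤ) : ZMod ℓ) := h4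
  rw [h5]
  push_cast
  rw [ZMod.natCast_zmod_val, ZMod.natCast_zmod_val]

theorem te04_kap_id {k F : Type u} [Field k] [Field F] [Algebra k F] [IsAlgClosed F]
    {ℓ : ℕ} (hℓ : ℓ.Prime) {ζ : k} (hζ : IsPrimitiveRoot ζ ℓ) {z : F}
    (hz0 : z ≠ 0) : kap ℓ (algebraMap k F ζ) (AlgEquiv.refl : F ≃ₐ[k] F) z = 0 := by
  have hζF : IsPrimitiveRoot (algebraMap k F ζ) ℓ :=
    hζ.map_of_injective (algebraMap k F).injective
  exact kap_eq_zero (AlgEquiv.refl : F ≃ₐ[k] F).toRingEquiv hℓ hζF (by simp) hz0 (fun x _ => rfl)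

theorem te04_fixed {k F : Type u} [Field k] [Field F] [Algebra k F] [IsAlgClosed F]
    [Algebra.IsAlgebraic k F] {ℓ : ℕ} (hℓ : ℓ.Prime) (hne : (ℓ : k) ≠ 0)
    (K : IntermediateField k F) {y z : F} (hz : z ∈ K) (hz0 : z ≠ 0) (hy : y ^ ℓ = z)
    (hfix : ∀ U : F ≃ₐ[k] F, (∀ x ∈ K, U x = x) → U y = y) : y ∈ K := by
  have halg : Algebra.IsAlgebraic K F := Algebra.IsAlgebraic.tower_top (K := k) K
  have hneK : (ℓ : K) ≠ 0 := by
    intro h
    apply hne
    have h2 : algebraMap k K (ℓ : k) = 0 := by rw [map_natCast]; exact h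
    exact (map_eq_zero_iff _ (algebraMap k K).injective).1 h2
  have hsep : (X ^ ℓ - C (⟨z, hz⟩ : K)).Separable := by
    apply separable_X_pow_sub_C _ hneK
    intro h
    exact hz0 (congrArg Subtype.val h)
  have hroot : aeval y (X ^ ℓ - C (⟨z, hz⟩ : K)) = 0 := by
    rw [map_sub, map_pow, aeval_X, aeval_C, hy]
    exact sub_self _
  have hys : IsSeparable K y := hsep.of_dvd (minpoly.dvd K y hroot)
  by_contra hcon
  have hn : y ∉ (⊥ : Subalgebra K F) := by
    intro h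
    rw [Algebra.mem_bot] at h
    obtain ⟨w, hw⟩ := h
    apply hcon
    rw [← hw]
    exact w.2
  rw [notMem_iff_exists_ne_and_isConjRoot hys (IsAlgClosed.splits _)] at hn
  obtain ⟨y', hne', hconj⟩ := hn
  have hnorm : Normal K F := by
    have : IsAlgClosure K F := ⟨inferInstance, halg⟩
    exact IsAlgClosure.normal K F
  obtain ⟨σ, hσ⟩ := isConjRoot_iff_exists_algEquiv.1 hconj
  have h1 : (σ.symm : F ≃ₐ[K] F) y = y' := by
    rw [← hσ]; exact σ.symm_apply_apply y'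
  have h2 := hfix (σ.symm.restrictScalars k) (fun x hx => by
    have := σ.symm.commutes (⟨x, hx⟩ : K)
    exact this)
  apply hne'
  rw [← h1]
  exact h2.symm

theorem exists_U_of_lam {k F : Type u} [Field k] [Field F] [Algebra k F] [IsAlgClosed F]
    [Algebra.IsAlgebraic k F] {ℓ : ℕ} (hℓ : ℓ.Prime) (hne : (ℓ : k) ≠ 0) {ζ : k}
    (hζ : IsPrimitiveRoot ζ ℓ) (K : IntermediateField k F) (lam : F → ZMod ℓ)
    (hmul : ∀ x ∈ K, ∀ y ∈ K, x ≠ 0 → y ≠ 0 → lam (x * y) = lam x + lam y) (T : Finset F)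
    (hT : ∀ x ∈ T, x ∈ K ∧ x ≠ 0) :
    ∃ U : F ≃ₐ[k] F, (∀ x ∈ K, U x = x) ∧
      ∀ x ∈ T, kap ℓ (algebraMap k F ζ) U x = lam x := by
  classical
  have : NeZero ℓ := ⟨hℓ.ne_zero⟩
  have : Fact ℓ.Prime := ⟨hℓ⟩
  have hζF : IsPrimitiveRoot (algebraMap k F ζ) ℓ :=
    hζ.map_of_injective (algebraMap k F).injective
  let V : AddSubmonoid (T → ZMod ℓ) :=
    { carrier := {v | ∃ U : F ≃ₐ[k] F, (∀ x ∈ K, U x = x) ∧
        ∀ x : T, kap ℓ (algebraMap k F ζ) U x = v x}
      add_mem' := by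
        rintro v w ⟨U, hU, hUv⟩ ⟨U', hU', hUw⟩
        refine ⟨U.trans U', fun x hx => ?_, fun x => ?_⟩
        · show U' (U x) = x
          rw [hU x hx, hU' x hx]
        · rw [te04_kap_comp hℓ hζ U U' (hT x x.2).2 (hU _ (hT x x.2).1) (hU' _ (hT x x.2).1),
            hUv, hUw]
          rfl
      zero_mem' := ⟨AlgEquiv.refl, fun x _ => rfl, fun x => te04_kap_id hℓ hζ (hT x x.2).2⟩ }
  let W : Submodule (ZMod ℓ) (T → ZMod ℓ) :=
    { V with
      smul_mem' := by
        intro c v hv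
        have h : c • v = c.val • v := by
          ext i
          simp only [Pi.smul_apply, smul_eq_mul, nsmul_eq_mul]
          rw [ZMod.natCast_zmod_val]
        rw [h]
        exact V.nsmul_mem hv c.val }
  by_cases hlam : (fun x : T => lam x) ∈ W
  · obtain ⟨U, hU, hUv⟩ := hlam
    exact ⟨U, hU, fun x hx => hUv ⟨x, hx⟩⟩
  exfalso
  obtain ⟨φ, hφ, hφW⟩ := Submodule.exists_le_ker_of_notMem hlam
  let c : T → ℕ := fun x => (φ (Pi.single x 1)).val
  have hφv : ∀ v : T → ZMod ℓ, φ v = ∑ x : T, (c x : ZMod ℓ) * v x := by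
    intro v
    rw [LinearMap.pi_apply_eq_sum_univ φ v]
    apply Finset.sum_congr rfl
    intro x _
    have h1 : (c x : ZMod ℓ) = φ (Pi.single x 1) := ZMod.natCast_zmod_val _
    rw [h1, smul_eq_mul, mul_comm]
    congr 2
    ext i
    simp [Pi.single_apply, eq_comm]
  set z : F := ∏ x : T, (x : F) ^ c x with hzdef
  have hzK : z ∈ K := K.prod_mem fun x _ => pow_mem (hT x x.2).1 _
  have hz0 : z ≠ 0 := Finset.prod_ne_zero_iff.2 fun x _ => pow_ne_zero _ (hT x x.2).2
  obtain ⟨y, hy⟩ := IsAlgClosed.exists_pow_nat_eq z hℓ.pos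
  have hy0 : y ≠ 0 := by
    rintro rfl
    rw [zero_pow hℓ.ne_zero] at hy
    exact hz0 hy.symm
  have hfix : ∀ U : F ≃ₐ[k] F, (∀ x ∈ K, U x = x) → U y = y := by
    intro U hU
    have h1 := kap_prod U.toRingEquiv hℓ hζF (by simp) Finset.univ
      (fun x : T => (x : F) ^ c x) (fun x _ => pow_ne_zero _ (hT x x.2).2)
      (fun x _ => hU _ (pow_mem (hT x x.2).1 _))
    have h2 : ∀ x : T, kap ℓ (algebraMap k F ζ) U.toRingEquiv ((x : F) ^ c x) =
        (c x : ZMod ℓ) * kap ℓ (algebraMap k F ζ) U x := by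
      intro x
      have := kap_zpow U.toRingEquiv hℓ hζF (by simp) (hT x x.2).2 (hU _ (hT x x.2).1) (c x : ℤ)
      rw [zpow_natCast] at this
      rw [this]
      push_cast
      rfl
    have h3 : kap ℓ (algebraMap k F ζ) U.toRingEquiv z = 0 := by
      rw [hzdef, h1, Finset.sum_congr rfl fun x _ => h2 x]
      have h4 : (fun x : T => kap ℓ (algebraMap k F ζ) U x) ∈ W := ⟨U, hU, fun x => rfl⟩
      have h5 := hφW h4
      rw [LinearMap.mem_ker, hφv] at h5
      exact h5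
    have h6 := kap_spec U.toRingEquiv hℓ hζF (by simp) hz0 (hU z hzK) hy
    rw [h3, ZMod.val_zero, pow_zero, one_mul] at h6
    exact h6
  have hyK := te04_fixed hℓ hne K hzK hz0 hy hfix
  have h7 : lam z = 0 := by
    rw [← hy, te04_lam_pow K lam hmul hyK hy0, ZMod.natCast_self, zero_mul]
  have h8 : lam z = φ (fun x : T => lam x) := by
    rw [hφv, hzdef, te04_lam_prod K lam hmul Finset.univ (fun x : T => (x : F) ^ c x)
      (fun x _ => pow_mem (hT x x.2).1 _) (fun x _ => pow_ne_zero _ (hT x x.2).2)]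
    apply Finset.sum_congr rfl
    intro x _
    exact te04_lam_pow K lam hmul (hT x x.2).1 (hT x x.2).2 (c x)
  exact hφ (by rw [← h8]; exact h7)

end Pool.Agent.Lib.MP_89bcae_ag.Sup

end

section

open Polynomial

open scoped Classical

set_option linter.unusedSectionVars false

namespace Pool.Agent.Lib.MP_89bcae_ag.Sup

universe u

lemma te06_ord_neg {F : Type u} [Field F] {K : Subfield F} {S : Finset F} {p : F → F} {α α' : F}
    {M : F → F} {o : F → ℤ} (h : MOrd K S p α α' M o) :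
    o (-1) = 0 := by
  have h1 : o (1 * 1) = o 1 + o 1 := h.mul 1 K.one_mem 1 K.one_mem one_ne_zero one_ne_zero
  have h2 : o ((-1) * (-1)) = o (-1) + o (-1) :=
    h.mul (-1) (K.neg_mem K.one_mem) (-1) (K.neg_mem K.one_mem) (neg_ne_zero.2 one_ne_zero)
      (neg_ne_zero.2 one_ne_zero)
  rw [mul_one] at h1
  rw [neg_one_mul, neg_neg] at h2
  omega

theorem exists_lam {k F : Type u} [Field k] [Field F] [Algebra k F] {ℓ : ℕ}
    {g E : k[X]} (S : Finset F) (hS : ∀ b, b ∈ S ↔ aeval (aeval b g) E = 0) {α α' α'' : F}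
    (h1 : α ≠ α') (h2 : α ≠ α'') (h3 : α' ≠ α'') {J : Finset (F ≃ₐ[k] F)}
    (hJ1 : ∀ x y : F, aeval x g = α → aeval y g = α →
      ∃ σ ∈ J, σ x = y ∧ ∀ τ ∈ J, τ x = y → τ = σ)
    (hJ2 : ∀ σ ∈ J, ∀ b : F, aeval b (E.comp g) = 0 → aeval b g ≠ α → σ b = b)
    {M M'' : F → F} {o o'' : F → ℤ}
    (ho : MOrd (IntermediateField.adjoin k (S : Set F)).toSubfield S
      (fun b => aeval b g) α α' M o)
    (ho'' : MOrd (IntermediateField.adjoin k (S : Set F)).toSubfield S
      (fun b => aeval b g) α α'' M'' o'') (c : ZMod ℓ) :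
    ∃ lam : F → ZMod ℓ, (∀ x ∈ IntermediateField.adjoin k (S : Set F),
        ∀ y ∈ IntermediateField.adjoin k (S : Set F), x ≠ 0 → y ≠ 0 →
          lam (x * y) = lam x + lam y) ∧ lam (-1) = 0 ∧
      KpOk S (fun b => aeval b g) α α' α'' M c lam := by
  -- action on `S`
  have hp : ∀ (σ : F ≃ₐ[k] F) (b : F), aeval (σ b) g = σ (aeval b g) := fun σ b => by
    have := Polynomial.aeval_algHom_apply (σ : F →ₐ[k] F) b g
    simpa using this
  have hE : ∀ (σ : F ≃ₐ[k] F) (b : F), aeval (σ b) E = σ (aeval b E) := fun σ b => by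
    have := Polynomial.aeval_algHom_apply (σ : F →ₐ[k] F) b E
    simpa using this
  have hSσ : ∀ (σ : F ≃ₐ[k] F) (b : F), b ∈ S → σ b ∈ S := fun σ b hb => by
    rw [hS] at hb ⊢
    rw [hp, hE, hb, map_zero]
  have hinv : ∀ (σ : F ≃ₐ[k] F) (b : F), σ (σ⁻¹ b) = b := fun σ b => by
    rw [← AlgEquiv.mul_apply, mul_inv_cancel, AlgEquiv.one_apply]
  have hinv' : ∀ (σ : F ≃ₐ[k] F) (b : F), σ⁻¹ (σ b) = b := fun σ b => by
    rw [← AlgEquiv.mul_apply, inv_mul_cancel, AlgEquiv.one_apply]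
  have hfix : ∀ σ ∈ J, ∀ b ∈ S, aeval b g ≠ α → σ⁻¹ b = b := fun σ hσ b hb hba => by
    have h : σ b = b := hJ2 σ hσ b (by rw [aeval_comp]; exact (hS b).1 hb) hba
    have h' := hinv' σ b
    rwa [h] at h'
  have hal : ∀ σ ∈ J, ∀ b ∈ S, aeval b g = α → aeval (σ⁻¹ b) g = α := fun σ hσ b hb hba => by
    by_contra hne
    have hmem : σ⁻¹ b ∈ S := hSσ _ _ hb
    have h : σ (σ⁻¹ b) = σ⁻¹ b :=
      hJ2 σ hσ (σ⁻¹ b) (by rw [aeval_comp]; exact (hS _).1 hmem) hne
    rw [hinv] at h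
    rw [← h] at hne
    exact hne hba
  -- the field `K`
  have hK : ∀ (σ : F ≃ₐ[k] F) (x : F), x ∈ IntermediateField.adjoin k (S : Set F) →
      σ x ∈ IntermediateField.adjoin k (S : Set F) := fun σ x hx => by
    have h1 : σ x ∈ (IntermediateField.adjoin k (S : Set F)).map (σ : F →ₐ[k] F) :=
      ⟨x, hx, rfl⟩
    rw [IntermediateField.adjoin_map] at h1
    refine IntermediateField.adjoin.mono k _ _ ?_ h1
    rintro _ ⟨b, hb, rfl⟩
    exact hSσ σ b hb
  have hSK : ∀ b ∈ S, b ∈ IntermediateField.adjoin k (S : Set F) := fun b hb =>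
    IntermediateField.subset_adjoin k _ hb
  set lam : F → ZMod ℓ := fun z => (o z : ZMod ℓ) + c * ∑ σ ∈ J, (o'' (σ⁻¹ z) : ZMod ℓ)
    with hlam
  have hmul : ∀ x ∈ IntermediateField.adjoin k (S : Set F),
        ∀ y ∈ IntermediateField.adjoin k (S : Set F), x ≠ 0 → y ≠ 0 →
          lam (x * y) = lam x + lam y := by
    intro x hx y hy hx0 hy0
    have e1 : o (x * y) = o x + o y := ho.mul x hx y hy hx0 hy0
    have e2 : ∀ σ : F ≃ₐ[k] F, o'' (σ⁻¹ (x * y)) = o'' (σ⁻¹ x) + o'' (σ⁻¹ y) := fun σ => by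
      rw [map_mul]
      exact ho''.mul _ (hK _ _ hx) _ (hK _ _ hy) (by simpa using hx0) (by simpa using hy0)
    simp only [hlam]
    rw [e1]
    simp only [e2]
    push_cast
    rw [Finset.sum_add_distrib]
    ring
  have hneg1 : lam (-1) = 0 := by
    have e1 : o (-1) = 0 := te06_ord_neg ho
    have e2 : ∀ σ : F ≃ₐ[k] F, o'' (σ⁻¹ (-1)) = 0 := fun σ => by
      rw [map_neg, map_one]
      exact te06_ord_neg ho''
    simp only [hlam]
    rw [e1, Finset.sum_eq_zero (fun σ _ => by rw [e2 σ, Int.cast_zero]), Int.cast_zero, mul_zero,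
      add_zero]
  have hneg : ∀ β ∈ S, ∀ β' ∈ S, β ≠ β' → lam (β - β') = lam (β' - β) := by
    intro β hβ β' hβ' hne
    have e : β - β' = (-1) * (β' - β) := by ring
    rw [e, hmul (-1) (neg_mem (one_mem _)) _ (sub_mem (hSK _ hβ') (hSK _ hβ))
      (neg_ne_zero.2 one_ne_zero) (sub_ne_zero.2 hne.symm), hneg1, zero_add]
  have hab : ∀ β ∈ S, aeval β g = α → ∀ β' ∈ S, aeval β' g = α' →
      lam (β - β') = if β' = M β then 1 else 0 := by
    intro β hβ hβa β' hβ' hβa'
    have e1 : o (β - β') = if β' = M β then 1 else 0 := ho.left β hβ hβa β' hβ' hβa'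
    have e2 : ∀ σ ∈ J, (o'' (σ⁻¹ (β - β')) : ZMod ℓ) = 0 := fun σ hσ => by
      have hb' : σ⁻¹ β' = β' := hfix σ hσ β' hβ' (by rw [hβa']; exact h1.symm)
      have hb : aeval (σ⁻¹ β) g = α := hal σ hσ β hβ hβa
      rw [map_sub, hb']
      have : o'' (σ⁻¹ β - β') = 0 := ho''.out (σ⁻¹ β) (hSσ _ _ hβ) β' hβ'
        (by simp only [hb, hβa']; exact h1) (fun h => h3 (hβa'.symm.trans h.2))
        (fun h => h1 (h.2.symm.trans hβa'))
      rw [this, Int.cast_zero]
    simp only [hlam]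
    rw [e1, Finset.sum_eq_zero e2, mul_zero, add_zero]
    split_ifs <;> simp
  refine ⟨lam, hmul, hneg1, ?_⟩
  refine ⟨ho.mem, ho.inj, ho.surj, ?_, hab, ?_, ?_, ?_, ?_⟩
  · intro β hβ β' hβ' hne hpp
    have e1 : o (β - β') = 0 := ho.same β hβ β' hβ' hne hpp
    have e2 : ∀ σ : F ≃ₐ[k] F, o'' (σ⁻¹ (β - β')) = 0 := fun σ => by
      rw [map_sub]
      refine ho''.same _ (hSσ _ _ hβ) _ (hSσ _ _ hβ') (fun h => hne (σ⁻¹.injective h)) ?_
      simp only [hp]
      exact congrArg _ hpp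
    simp only [hlam]
    rw [e1, Finset.sum_eq_zero (fun σ _ => by rw [e2 σ, Int.cast_zero]), Int.cast_zero, mul_zero,
      add_zero]
  · intro β hβ hβa β' hβ' hβa'
    have hne : β ≠ β' := by
      rintro rfl
      exact h1 (hβa'.symm.trans hβa)
    rw [hneg β hβ β' hβ' hne]
    exact hab β' hβ' hβa' β hβ hβa
  · intro β hβ hβa β' hβ' hβa'
    have e1 : o (β - β') = 0 := ho.out β hβ β' hβ'
      (fun h => h2 (hβa.symm.trans (h.trans hβa'))) (fun h => h3 (h.2.symm.trans hβa'))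
      (fun h => h1 (hβa.symm.trans h.1))
    obtain ⟨x₀, hx₀, hx₀a, hx₀M⟩ := ho''.surj β' hβ' hβa'
    obtain ⟨σ₀, hσ₀, hσ₀x, huniq⟩ := hJ1 x₀ β hx₀a hβa
    have e2 : ∀ σ ∈ J, (o'' (σ⁻¹ (β - β')) : ZMod ℓ) = if σ = σ₀ then 1 else 0 := fun σ hσ => by
      have hb' : σ⁻¹ β' = β' := hfix σ hσ β' hβ' (by rw [hβa']; exact h2.symm)
      have hb : aeval (σ⁻¹ β) g = α := hal σ hσ β hβ hβa
      rw [map_sub, hb']
      have : o'' (σ⁻¹ β - β') = if β' = M'' (σ⁻¹ β) then 1 else 0 :=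
        ho''.left (σ⁻¹ β) (hSσ _ _ hβ) hb β' hβ' hβa'
      rw [this]
      have hiff : β' = M'' (σ⁻¹ β) ↔ σ = σ₀ := by
        constructor
        · intro h
          refine huniq σ hσ ?_
          have : x₀ = σ⁻¹ β := ho''.inj x₀ hx₀ _ (hSσ _ _ hβ) hx₀a hb (hx₀M.trans h)
          rw [this, hinv]
        · rintro rfl
          rw [← hσ₀x, hinv', hx₀M]
      by_cases h : σ = σ₀
      · rw [if_pos h, if_pos (hiff.2 h), Int.cast_one]
      · rw [if_neg h, if_neg (fun h' => h (hiff.1 h')), Int.cast_zero]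
    simp only [hlam]
    rw [e1, Finset.sum_congr rfl e2]
    simp [hσ₀]
  · intro β hβ hβa β' hβ' hn1 hn2 hn3
    have e1 : o (β - β') = 0 := ho.out β hβ β' hβ'
      (fun h => hn1 (h.symm.trans hβa)) (fun h => hn2 h.2)
      (fun h => h1 (hβa.symm.trans h.1))
    have e2 : ∀ σ ∈ J, (o'' (σ⁻¹ (β - β')) : ZMod ℓ) = 0 := fun σ hσ => by
      have hb' : σ⁻¹ β' = β' := hfix σ hσ β' hβ' hn1
      have hb : aeval (σ⁻¹ β) g = α := hal σ hσ β hβ hβa
      rw [map_sub, hb']
      have : o'' (σ⁻¹ β - β') = 0 := ho''.out (σ⁻¹ β) (hSσ _ _ hβ) β' hβ'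
        (fun h => hn1 (h.symm.trans hb)) (fun h => hn3 h.2)
        (fun h => h2 (hb.symm.trans h.1))
      rw [this, Int.cast_zero]
    simp only [hlam]
    rw [e1, Finset.sum_eq_zero e2]
    simp
  · intro β hβ hβa β' hβ' hn1 hn2
    have e1 : o (β - β') = 0 := ho.out β hβ β' hβ'
      (fun h => hn1 (h.symm.trans hβa)) (fun h => h1 (h.1.symm.trans hβa))
      (fun h => hn2 h.2)
    have e2 : ∀ σ ∈ J, (o'' (σ⁻¹ (β - β')) : ZMod ℓ) = 0 := fun σ hσ => by
      have hb' : σ⁻¹ β' = β' := hfix σ hσ β' hβ' hn2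
      have hb : σ⁻¹ β = β := hfix σ hσ β hβ (fun h => h1 (h.symm.trans hβa))
      rw [map_sub, hb', hb]
      have : o'' (β - β') = 0 := ho''.out β hβ β' hβ'
        (fun h => hn1 (h.symm.trans hβa)) (fun h => h1 (h.1.symm.trans hβa))
        (fun h => h3 (hβa.symm.trans h.1))
      rw [this, Int.cast_zero]
    simp only [hlam]
    rw [e1, Finset.sum_eq_zero e2]
    simp

end Pool.Agent.Lib.MP_89bcae_ag.Sup

end

section

/-!
# The criterion for all towers
-/

open Polynomial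

open scoped Classical

set_option linter.unusedSectionVars false

namespace Pool.Agent.Lib.MP_89bcae_ag.Sup

universe u

/-- If `E ∘ g` is separable, so is `E`. -/
private lemma te07_separable {κ : Type*} [Field κ] {g D : κ[X]} (hg : g.natDegree ≠ 0)
    (h : (D.comp g).Separable) : D.Separable := by
  rw [Polynomial.Separable, isCoprime_iff_aeval_ne_zero_of_isAlgClosed (k := κ)
    (AlgebraicClosure κ)]
  intro a
  by_contra hcon
  push Not at hcon
  obtain ⟨h1, h2⟩ := hcon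
  have hdeg : (g.map (algebraMap κ (AlgebraicClosure κ)) - C a).degree ≠ 0 := by
    intro h3
    have h4 := natDegree_eq_zero_iff_degree_le_zero.mpr h3.le
    rw [natDegree_sub_C, natDegree_map] at h4
    exact hg h4
  obtain ⟨b, hb⟩ := IsAlgClosed.exists_root _ hdeg
  have hb2 : aeval b g = a := by
    rw [IsRoot.def, eval_sub, eval_C, sub_eq_zero, eval_map_algebraMap] at hb
    exact hb
  obtain ⟨u, v, huv⟩ := h
  have h3 := congrArg (aeval b) huv
  rw [derivative_comp, map_add, map_mul, map_mul, map_mul, aeval_comp, aeval_comp, hb2, h1, h2] at h3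
  simp at h3

/-- The fibres over the roots of `E` have `deg g` elements. -/
private lemma te07_card {k F : Type u} [Field k] [Field F] [Algebra k F] [IsAlgClosed F] {ℓ : ℕ}
    {g E : k[X]} {ζ : k} (H : GlobHyp ℓ g E ζ) {a : F} (ha : aeval a E = 0) :
    ((RR F g E).filter (fun β => aeval β g = a)).card = g.natDegree := by
  have h1 : g.map (algebraMap k F) - C a ∣ (E.comp g).map (algebraMap k F) := by
    rw [Polynomial.map_comp]
    have h2 : X - C a ∣ E.map (algebraMap k F) := by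
      rw [dvd_iff_isRoot, IsRoot.def, eval_map_algebraMap, ha]
    obtain ⟨q, hq⟩ := h2
    refine ⟨q.comp (g.map (algebraMap k F)), ?_⟩
    rw [hq, mul_comp, sub_comp, X_comp, C_comp]
  have hsep : (g.map (algebraMap k F) - C a).Separable :=
    Separable.of_dvd (H.sep.map (f := algebraMap k F)) h1
  have h0 : g.map (algebraMap k F) - C a ≠ 0 := hsep.ne_zero
  have h3 : (RR F g E).filter (fun β => aeval β g = a) =
      (g.map (algebraMap k F) - C a).roots.toFinset := by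
    ext β
    rw [Finset.mem_filter, mem_RR H, Multiset.mem_toFinset, mem_roots h0, IsRoot.def, eval_sub,
      eval_C, eval_map_algebraMap, sub_eq_zero]
    constructor
    · exact fun h => h.2
    · intro h
      exact ⟨by rw [h, ha], h⟩
  rw [h3, Multiset.toFinset_card_of_nodup (nodup_roots hsep),
    IsAlgClosed.card_roots_eq_natDegree, natDegree_sub_C, natDegree_map]

theorem exists_cRall {k F : Type u} [Field k] [Field F] [Algebra k F] [IsAlgClosure k F] {ℓ : ℕ}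
    {g E : k[X]} {ζ : k} (H : GlobHyp ℓ g E ζ) (h3 : 3 ≤ E.natDegree)
    (hJ : ∀ α : F, aeval α E = 0 → ∃ J : Finset (F ≃ₐ[k] F),
      (∀ x y : F, aeval x g = α → aeval y g = α →
        ∃ σ ∈ J, σ x = y ∧ ∀ τ ∈ J, τ x = y → τ = σ) ∧
      ∀ σ ∈ J, ∀ b : F, aeval b (E.comp g) = 0 → aeval b g ≠ α → σ b = b)
    (hM : ∀ α α' : F, aeval α E = 0 → aeval α' E = 0 → α ≠ α' →
      ∃ (M : F → F) (o : F → ℤ),
        MOrd (IntermediateField.adjoin k ((RR F g E : Finset F) : Set F)).toSubfield (RR F g E)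
          (fun b => aeval b g) α α' M o) :
    ∀ a : F, aeval a E = 0 → ∃ (U : F ≃ₐ[k] F) (B : Set F), a ∈ B ∧ CRall ℓ g E ζ U B := by
  intro a ha
  have : IsAlgClosed F := IsAlgClosure.isAlgClosed k
  have : Algebra.IsAlgebraic k F := IsAlgClosure.isAlgebraic
  have : Fact ℓ.Prime := ⟨H.prime⟩
  have hgdeg : g.natDegree ≠ 0 := by
    intro h0
    have h1 := H.cop
    rw [h0, Nat.coprime_zero_left] at h1
    exact H.prime.ne_one h1
  have hm0 : (g.natDegree : ZMod ℓ) ≠ 0 := by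
    rw [Ne, ZMod.natCast_eq_zero_iff]
    intro h1
    have h2 := H.cop
    rw [Nat.coprime_comm, H.prime.coprime_iff_not_dvd] at h2
    exact h2 h1
  have hsepE : E.Separable := te07_separable hgdeg H.sep
  have hE0 : E.map (algebraMap k F) ≠ 0 := hsepE.map.ne_zero
  -- three roots of `E`
  obtain ⟨a', a'', ha', ha'', h1, h2, h12⟩ : ∃ a' a'' : F, aeval a' E = 0 ∧ aeval a'' E = 0 ∧
      a ≠ a' ∧ a ≠ a'' ∧ a' ≠ a'' := by
    have hmem : ∀ x, x ∈ (E.map (algebraMap k F)).roots.toFinset ↔ aeval x E = 0 := by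
      intro x
      rw [Multiset.mem_toFinset, mem_roots hE0, IsRoot.def, eval_map_algebraMap]
    have hcard : (E.map (algebraMap k F)).roots.toFinset.card = E.natDegree := by
      rw [Multiset.toFinset_card_of_nodup (nodup_roots hsepE.map),
        IsAlgClosed.card_roots_eq_natDegree, natDegree_map]
    have h4 : 1 < ((E.map (algebraMap k F)).roots.toFinset.erase a).card := by
      rw [Finset.card_erase_of_mem ((hmem a).mpr ha), hcard]
      omega
    obtain ⟨a', ha', a'', ha'', hne⟩ := Finset.one_lt_card.mp h4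
    rw [Finset.mem_erase, hmem] at ha' ha''
    exact ⟨a', a'', ha'.2, ha''.2, ha'.1.symm, ha''.1.symm, hne⟩
  obtain ⟨c, hc⟩ := exists_delta (ℓ := ℓ) hm0
  obtain ⟨J, hJ1, hJ2⟩ := hJ a ha
  obtain ⟨M, o, ho⟩ := hM a a' ha ha' h1
  obtain ⟨M'', o'', ho''⟩ := hM a a'' ha ha'' h2
  obtain ⟨lam, hmul, hneg, hlam⟩ := exists_lam (RR F g E) (fun b => mem_RR H) h1 h2 h12 hJ1 hJ2
    ho ho'' c
  have hSK : ∀ β ∈ RR F g E, β ∈ IntermediateField.adjoin k ((RR F g E : Finset F) : Set F) :=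
    fun β hβ => IntermediateField.subset_adjoin k _ hβ
  obtain ⟨U, hU1, hU2⟩ := exists_U_of_lam H.prime H.ne H.zeta
    (IntermediateField.adjoin k ((RR F g E : Finset F) : Set F)) lam hmul
    (insert (-1) (((RR F g E ×ˢ RR F g E).filter (fun p => p.1 ≠ p.2)).image
      (fun p => p.1 - p.2))) (by
      intro x hx
      rw [Finset.mem_insert, Finset.mem_image] at hx
      rcases hx with rfl | ⟨⟨β, β'⟩, hp, rfl⟩
      · exact ⟨neg_mem (one_mem _), neg_ne_zero.mpr one_ne_zero⟩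
      · rw [Finset.mem_filter, Finset.mem_product] at hp
        exact ⟨sub_mem (hSK _ hp.1.1) (hSK _ hp.1.2), sub_ne_zero.mpr hp.2⟩)
  have hkey : ∀ β ∈ RR F g E, ∀ β' ∈ RR F g E, β ≠ β' →
      kap ℓ (algebraMap k F ζ) U (β - β') = lam (β - β') := by
    intro β hβ β' hβ' hne
    apply hU2
    rw [Finset.mem_insert, Finset.mem_image]
    refine Or.inr ⟨(β, β'), ?_, rfl⟩
    rw [Finset.mem_filter, Finset.mem_product]
    exact ⟨⟨hβ, hβ'⟩, hne⟩
  have hkp : KpOk (RR F g E) (fun β => aeval β g) a a' a'' M c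
      (kap ℓ (algebraMap k F ζ) U) :=
    { mem := hlam.mem
      inj := hlam.inj
      surj := hlam.surj
      same := fun β hβ β' hβ' hne hp => by
        rw [hkey β hβ β' hβ' hne]
        exact hlam.same β hβ β' hβ' hne hp
      ab := fun β hβ hp β' hβ' hp' => by
        rw [hkey β hβ β' hβ' (by
          rintro rfl
          exact h1 (hp.symm.trans hp'))]
        exact hlam.ab β hβ hp β' hβ' hp'
      ba := fun β hβ hp β' hβ' hp' => by
        rw [hkey β hβ β' hβ' (by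
          rintro rfl
          exact h1 (hp'.symm.trans hp))]
        exact hlam.ba β hβ hp β' hβ' hp'
      ac := fun β hβ hp β' hβ' hp' => by
        rw [hkey β hβ β' hβ' (by
          rintro rfl
          exact h2 (hp.symm.trans hp'))]
        exact hlam.ac β hβ hp β' hβ' hp'
      ao := fun β hβ hp β' hβ' hp1 hp2 hp3 => by
        rw [hkey β hβ β' hβ' (by
          rintro rfl
          exact hp1 hp)]
        exact hlam.ao β hβ hp β' hβ' hp1 hp2 hp3
      bo := fun β hβ hp β' hβ' hp1 hp2 => by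
        rw [hkey β hβ β' hβ' (by
          rintro rfl
          exact hp1 hp)]
        exact hlam.bo β hβ hp β' hβ' hp1 hp2 }
  refine ⟨U, {a, a'}, by simp, ⟨fun β hβ => hU1 β (hSK β hβ), ?_, fun μ => ?_⟩⟩
  · intro x hx
    have hζ : IsPrimitiveRoot (algebraMap k F ζ) ℓ :=
      H.zeta.map_of_injective (algebraMap k F).injective
    have h4 := kap_spec (U : F ≃+* F) H.prime hζ (U.commutes ζ)
      (neg_ne_zero.mpr (one_ne_zero (α := F))) (by simp) hx
    have h5 : kap ℓ (algebraMap k F ζ) (U : F ≃+* F) (-1) = 0 := by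
      have h6 := hU2 (-1) (Finset.mem_insert_self _ _)
      rw [hneg] at h6
      exact h6
    rw [h5, ZMod.val_zero, pow_zero, one_mul] at h4
    exact h4
  · refine hkp.sepU h1 h2 h12 (m := g.natDegree) ?_ hm0 hc μ
    rintro b (rfl | rfl | rfl)
    · exact te07_card H ha
    · exact te07_card H ha'
    · exact te07_card H ha''

end Pool.Agent.Lib.MP_89bcae_ag.Sup

end

section

open NumberField Polynomial

namespace Pool.Agent.Lib.MP_89bcae_ag.Re

/-- A number field over which the `ℓ`-th powers of the elements of `T` are seen through the symbol of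
`U`. Proof: choose for each nonzero `z ∈ T` an element `x_z ∈ F` with `x_z ^ ℓ = z`; let `x₀` be that of
`z₀` and for `z ∈ T` let `j_z` be the natural number below `ℓ` with
`kap z = j_z * kap z₀` (`ZMod ℓ` is a field); put `w_z = x_z / x₀ ^ j_z`. By `Sup.kap_spec`
`U x_z = ζ ^ kap(z) x_z`, `U x₀ = ζ ^ kap(z₀) x₀`, so `U w_z = w_z`. Let `E` be the field generated by
the `w_z` over `K`: it is finite over `K` (finitely many algebraic elements) and all its elements are
fixed by `U` (`IntermediateField.adjoin_induction`, or: it is contained in the fixed field). If `y ∈ E`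
and `y ^ ℓ = z₀`, then `U y = y`, but `kap_spec` says `U y = ζ ^ kap(z₀) y` with `kap z₀ ≠ 0`, `y ≠ 0`. -/
theorem exists_field {ℓ : ℕ} (hℓ : ℓ.Prime) (K F : Type) [Field K] [NumberField K] [Field F]
    [Algebra K F] [IsAlgClosure K F] {ζ : K} (hζ : IsPrimitiveRoot ζ ℓ) (U : F ≃ₐ[K] F)
    (T : Finset K) {z₀ : K} (hz₀ : z₀ ≠ 0)
    (hk₀ : Sup.kap ℓ (algebraMap K F ζ) U (algebraMap K F z₀) ≠ 0) :
    ∃ E : IntermediateField K F, FiniteDimensional K E ∧
      (∀ z ∈ T, z ≠ 0 → ∃ (w : E) (j : ℕ), w ≠ 0 ∧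
        w ^ ℓ * (algebraMap K E z₀) ^ j = algebraMap K E z ∧
        Sup.kap ℓ (algebraMap K F ζ) U (algebraMap K F z) =
          j * Sup.kap ℓ (algebraMap K F ζ) U (algebraMap K F z₀)) ∧
      ∀ y : E, y ^ ℓ ≠ algebraMap K E z₀ := by
  classical
  have : Fact ℓ.Prime := ⟨hℓ⟩
  have : NeZero ℓ := ⟨hℓ.ne_zero⟩
  have : IsAlgClosed F := IsAlgClosure.isAlgClosed K
  have halg : Algebra.IsAlgebraic K F := IsAlgClosure.isAlgebraic
  have hζF : IsPrimitiveRoot (algebraMap K F ζ) ℓ :=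
    hζ.map_of_injective (algebraMap K F).injective
  have hUζ : U (algebraMap K F ζ) = algebraMap K F ζ := U.commutes ζ
  have hne : ∀ z : K, z ≠ 0 → algebraMap K F z ≠ 0 := fun z hz =>
    (map_ne_zero_iff _ (algebraMap K F).injective).mpr hz
  have hspec : ∀ (z : K) (x : F), z ≠ 0 → x ^ ℓ = algebraMap K F z →
      U x = algebraMap K F ζ ^ (Sup.kap ℓ (algebraMap K F ζ) U (algebraMap K F z)).val * x :=
    fun z x hz hx => Sup.kap_spec (U : F ≃+* F) hℓ hζF hUζ (hne z hz) (U.commutes z) hx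
  choose x hx using fun z : K => IsAlgClosed.exists_pow_nat_eq (algebraMap K F z) hℓ.pos
  have hx0 : ∀ z : K, z ≠ 0 → x z ≠ 0 := by
    intro z hz h
    apply hne z hz
    rw [← hx z, h, zero_pow hℓ.ne_zero]
  set κ : K → ZMod ℓ := fun z => Sup.kap ℓ (algebraMap K F ζ) U (algebraMap K F z) with hκ
  set j : K → ℕ := fun z => (κ z / κ z₀).val with hj
  have hjκ : ∀ z : K, κ z = (j z : ZMod ℓ) * κ z₀ := by
    intro z
    have h1 : ((j z : ℕ) : ZMod ℓ) = κ z / κ z₀ := ZMod.natCast_zmod_val _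
    rw [h1]
    exact (div_mul_cancel₀ _ hk₀).symm
  set w : K → F := fun z => x z / x z₀ ^ j z with hw
  have hw0 : ∀ z : K, z ≠ 0 → w z ≠ 0 := fun z hz =>
    div_ne_zero (hx0 z hz) (pow_ne_zero _ (hx0 z₀ hz₀))
  have hwℓ : ∀ z : K, w z ^ ℓ * (algebraMap K F z₀) ^ j z = algebraMap K F z := by
    intro z
    have h1 : w z ^ ℓ = algebraMap K F z / (algebraMap K F z₀) ^ j z := by
      rw [hw]
      simp only
      rw [div_pow, hx z, ← pow_mul, mul_comm (j z) ℓ, pow_mul, hx z₀]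
    rw [h1]
    exact div_mul_cancel₀ _ (pow_ne_zero _ (hne z₀ hz₀))
  have hpow : ∀ z : K, algebraMap K F ζ ^ (κ z).val = algebraMap K F ζ ^ ((κ z₀).val * j z) := by
    intro z
    have h1 : (κ z).val ≡ (κ z₀).val * j z [MOD ℓ] := by
      rw [← ZMod.natCast_eq_natCast_iff]
      rw [Nat.cast_mul, ZMod.natCast_zmod_val, ZMod.natCast_zmod_val, hjκ z, mul_comm]
    have h2 : (κ z).val % orderOf (algebraMap K F ζ) =
        ((κ z₀).val * j z) % orderOf (algebraMap K F ζ) := by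
      rw [← hζF.eq_orderOf]
      exact h1
    rw [← pow_mod_orderOf, h2, pow_mod_orderOf]
  have hUw : ∀ z : K, z ≠ 0 → U (w z) = w z := by
    intro z hz
    have h1 : U (x z) = algebraMap K F ζ ^ (κ z).val * x z := hspec z (x z) hz (hx z)
    have h2 : U (x z₀) = algebraMap K F ζ ^ (κ z₀).val * x z₀ := hspec z₀ (x z₀) hz₀ (hx z₀)
    have h3 : algebraMap K F ζ ^ ((κ z₀).val * j z) ≠ 0 :=
      pow_ne_zero _ (hζF.ne_zero hℓ.ne_zero)
    have h4 : U (w z) = U (x z) / U (x z₀) ^ j z := by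
      rw [hw]
      simp only
      rw [map_div₀, map_pow]
    rw [h4, h1, h2, hpow z, mul_pow, ← pow_mul]
    exact mul_div_mul_left _ _ h3
  set S : Set F := w '' {z : K | z ∈ T ∧ z ≠ 0} with hS
  have hSfin : S.Finite := by
    apply Set.Finite.image
    exact T.finite_toSet.subset fun z hz => hz.1
  have : Finite S := hSfin
  have hmem : ∀ z ∈ T, z ≠ 0 → w z ∈ IntermediateField.adjoin K S := fun z hz hz0 =>
    IntermediateField.subset_adjoin K S ⟨z, ⟨hz, hz0⟩, rfl⟩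
  have hfix : ∀ y ∈ IntermediateField.adjoin K S, U y = y := by
    intro y hy
    induction hy using IntermediateField.adjoin_induction with
    | mem y hy =>
      obtain ⟨z, hz, rfl⟩ := hy
      exact hUw z hz.2
    | algebraMap a => exact U.commutes a
    | add a b _ _ ha hb => rw [map_add, ha, hb]
    | inv a _ ha => rw [map_inv₀, ha]
    | mul a b _ _ ha hb => rw [map_mul, ha, hb]
  refine ⟨IntermediateField.adjoin K S,
    IntermediateField.finiteDimensional_adjoin fun y _ => (halg.isAlgebraic y).isIntegral, ?_, ?_⟩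
  · intro z hz hz0
    refine ⟨⟨w z, hmem z hz hz0⟩, j z, ?_, ?_, hjκ z⟩
    · intro h
      exact hw0 z hz0 (congrArg Subtype.val h)
    · apply Subtype.ext
      exact hwℓ z
  · intro y hy
    have h1 : (y : F) ^ ℓ = algebraMap K F z₀ := congrArg Subtype.val hy
    have h2 := hspec z₀ y hz₀ h1
    rw [hfix y y.2] at h2
    have hy0 : (y : F) ≠ 0 := by
      intro h
      apply hne z₀ hz₀
      rw [← h1, h, zero_pow hℓ.ne_zero]
    have h3 : algebraMap K F ζ ^ (κ z₀).val = 1 := by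
      have h4 : (1 : F) * y = algebraMap K F ζ ^ (κ z₀).val * y := by
        rw [one_mul]
        exact h2
      exact (mul_right_cancel₀ hy0 h4).symm
    have h5 : ℓ ∣ (κ z₀).val := (hζF.pow_eq_one_iff_dvd _).mp h3
    have h6 : (κ z₀).val = 0 := Nat.eq_zero_of_dvd_of_lt h5 (ZMod.val_lt _)
    exact hk₀ ((ZMod.val_eq_zero _).mp h6)

end Pool.Agent.Lib.MP_89bcae_ag.Re

end

section

open NumberField Polynomial

namespace Pool.Agent.Lib.MP_89bcae_ag.Re

/-- **A prime with given Kummer symbols, up to a scalar.** Proof: let `E` be the field of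
`exists_field` (with `z₀ ∈ T`, `kap z₀ ≠ 0`), a number field. Some `n ≠ 0` in `ℕ` is such that
`b = n ^ ℓ z₀` is in `𝓞 E`; it is not an `ℓ`-th power in `E`. `exists_nonresidue` for `E` (with `ζ` in
`𝓞 E`) and a large bound gives `q` and `φ : 𝓞 E →+* ZMod q` with `φ b ≠ 0` not an `ℓ`-th power.
`exists_subring` for `E` and the set of the images of `T`, of `ζ`, of `n` and of the `w_z` (all nonzero)
gives `A' ≤ E` and `Φ'`. Let `A` be the inverse image of `A'` in `K` (`Subring.comap`) and `Φ` the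
composite. `Φ z₀` is not an `ℓ`-th power, because `Φ' b = (Φ' n) ^ ℓ * Φ z₀` is not; by `exists_symbol`
(`isPrimitiveRoot_map` for `φ ζ`) `(Φ z₀) ^ ((q-1)/ℓ) = (Φ ζ) ^ i.val` with `i ≠ 0`. For `z ∈ T`,
`w_z ^ ℓ z₀ ^ j = z`, so by `symbol_of_pow_mul` the symbol of `Φ z` is `i * j` and
`kap z = j * kap z₀`: take `c = i / kap z₀`. -/
theorem exists_reduction {ℓ : ℕ} (hℓ : ℓ.Prime) (K F : Type) [Field K] [NumberField K] [Field F]
    [Algebra K F] [IsAlgClosure K F] {ζ : K} (hζ : IsPrimitiveRoot ζ ℓ) (U : F ≃ₐ[K] F)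
    (T : Finset K)
    (hT : ∃ z ∈ T, z ≠ 0 ∧ Sup.kap ℓ (algebraMap K F ζ) U (algebraMap K F z) ≠ 0) (N : ℕ) :
    ∃ (q : ℕ) (_ : Fact q.Prime) (A : Subring K) (Φ : A →+* ZMod q) (c : ZMod ℓ) (hζA : ζ ∈ A),
      N < q ∧ ℓ ∣ q - 1 ∧ c ≠ 0 ∧ IsPrimitiveRoot (Φ ⟨ζ, hζA⟩) ℓ ∧
      ∀ z ∈ T, ∃ hz : z ∈ A, z ≠ 0 → Φ ⟨z, hz⟩ ≠ 0 ∧ (Φ ⟨z, hz⟩) ^ ((q - 1) / ℓ) =
        (Φ ⟨ζ, hζA⟩) ^ (c * Sup.kap ℓ (algebraMap K F ζ) U (algebraMap K F z)).val := by
  obtain ⟨z₀, hz₀T, hz₀, hk₀⟩ := hT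
  obtain ⟨E, hfin, hw, hy⟩ := exists_field hℓ K F hζ U T hz₀ hk₀
  have : FiniteDimensional K E := hfin
  have : NumberField E := NumberField.of_module_finite K E
  have : NeZero ℓ := ⟨hℓ.ne_zero⟩
  have : Fact ℓ.Prime := ⟨hℓ⟩
  set kz : K → ZMod ℓ := fun z => Sup.kap ℓ (algebraMap K F ζ) U (algebraMap K F z) with hkz
  choose! w j hw0 hwz hwk using hw
  set e₀ : E := algebraMap K E z₀ with he₀
  have he₀' : e₀ ≠ 0 := by
    rw [he₀]
    exact (map_ne_zero (algebraMap K E)).2 hz₀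
  -- an integral multiple of `z₀`
  obtain ⟨n, hn, hint⟩ : ∃ n : ℕ, n ≠ 0 ∧ IsIntegral ℤ ((n : E) ^ ℓ * e₀) := by
    obtain ⟨y, hy0, hyi⟩ := ((IsFractionRing.isAlgebraic_iff ℤ ℚ E).2
      (Algebra.IsAlgebraic.isAlgebraic e₀)).exists_integral_multiple
    refine ⟨y.natAbs, Int.natAbs_ne_zero.2 hy0, ?_⟩
    have h1 : IsIntegral ℤ ((y.natAbs : E) * e₀) := by
      rw [zsmul_eq_mul] at hyi
      rcases Int.natAbs_eq y with h | h
      · have h2 : (y : E) = (y.natAbs : E) := by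
          conv_lhs => rw [h]
          rw [Int.cast_natCast]
        rw [← h2]; exact hyi
      · have h2 : (y : E) = -(y.natAbs : E) := by
          conv_lhs => rw [h]
          rw [Int.cast_neg, Int.cast_natCast]
        have h3 : (y.natAbs : E) * e₀ = -((y : E) * e₀) := by rw [h2]; ring
        rw [h3]; exact hyi.neg
    have h4 : (y.natAbs : E) ^ ℓ * e₀ = (y.natAbs : E) ^ (ℓ - 1) * ((y.natAbs : E) * e₀) := by
      rw [← mul_assoc, ← pow_succ, Nat.sub_add_cancel hℓ.one_le]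
    rw [h4]
    refine IsIntegral.mul (IsIntegral.pow ?_ _) h1
    exact isIntegral_algebraMap (R := ℤ) (A := E) (x := (y.natAbs : ℤ)) |> fun h => by simpa using h
  have hn' : (n : E) ≠ 0 := Nat.cast_ne_zero.2 hn
  let b : 𝓞 E := ⟨(n : E) ^ ℓ * e₀, hint⟩
  have hbE : (b : E) = (n : E) ^ ℓ * e₀ := rfl
  have hb : b ≠ 0 := by
    intro h
    have h1 : (b : E) = 0 := by rw [h]; rfl
    rw [hbE] at h1
    exact mul_ne_zero (pow_ne_zero _ hn') he₀' h1
  have hb' : ∀ x : E, x ^ ℓ ≠ b := by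
    intro x hx
    apply hy (x / n)
    rw [hbE] at hx
    rw [div_pow, hx, mul_div_cancel_left₀ _ (pow_ne_zero _ hn')]
  have hζ' : IsPrimitiveRoot (algebraMap K E ζ) ℓ :=
    hζ.map_of_injective (algebraMap K E).injective
  set ζE : 𝓞 E := hζ'.toInteger with hζE
  have hζEp : IsPrimitiveRoot ζE ℓ := hζ'.toInteger_isPrimitiveRoot
  have hζEE : (ζE : E) = algebraMap K E ζ := hζ'.coe_toInteger
  -- the finite set
  classical
  let T' : Finset E := T.image (algebraMap K E) ∪ T.image w ∪ {(n : E)}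
  obtain ⟨N₁, hN₁⟩ := exists_subring E T'
  obtain ⟨q, hqp, hq, φ, hφb, hφb'⟩ :=
    exists_nonresidue E hℓ hζEp hb hb' (max N (max N₁ ℓ))
  have : Fact q.Prime := hqp
  have hqN : N < q := lt_of_le_of_lt (le_max_left _ _) hq
  have hqN₁ : N₁ < q := lt_of_le_of_lt ((le_max_left _ _).trans (le_max_right _ _)) hq
  have hqℓ : ℓ < q := lt_of_le_of_lt ((le_max_right _ _).trans (le_max_right _ _)) hq
  obtain ⟨A', Φ', hA', hT'⟩ := hN₁ q hqN₁ φ
  have hne : ∀ x ∈ T', x ≠ 0 → ∀ hx : x ∈ A', Φ' ⟨x, hx⟩ ≠ 0 := by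
    intro x hx hx0 hxA h
    have hi := (hT' x hx).2 hx0
    have h1 : (⟨x, hxA⟩ : A') * ⟨x⁻¹, hi⟩ = 1 := Subtype.ext (mul_inv_cancel₀ hx0)
    have h2 := congrArg Φ' h1
    rw [map_mul, h, zero_mul, map_one] at h2
    exact zero_ne_one h2
  have hmemT : ∀ z ∈ T, algebraMap K E z ∈ T' := fun z hz =>
    Finset.mem_union_left _ (Finset.mem_union_left _ (Finset.mem_image_of_mem _ hz))
  have hmemw : ∀ z ∈ T, w z ∈ T' := fun z hz =>
    Finset.mem_union_left _ (Finset.mem_union_right _ (Finset.mem_image_of_mem _ hz))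
  have hmemn : (n : E) ∈ T' := Finset.mem_union_right _ (Finset.mem_singleton_self _)
  have hnA : (n : E) ∈ A' := (hT' _ hmemn).1
  have hz₀A : e₀ ∈ A' := (hT' _ (hmemT z₀ hz₀T)).1
  obtain ⟨hζA', hζΦ⟩ := hA' ζE
  obtain ⟨hbA', hbΦ⟩ := hA' b
  have hbval : φ b = (Φ' ⟨n, hnA⟩) ^ ℓ * Φ' ⟨e₀, hz₀A⟩ := by
    rw [← hbΦ, ← map_pow, ← map_mul]
    congr 1
  have hpow : ∀ y : ZMod q, y ^ ℓ ≠ Φ' ⟨e₀, hz₀A⟩ := by
    intro y hyy
    apply hφb' (Φ' ⟨n, hnA⟩ * y)
    rw [hbval, mul_pow, hyy]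
  have hζφ : IsPrimitiveRoot (φ ζE) ℓ := isPrimitiveRoot_map hℓ hζEp hqℓ φ
  obtain ⟨hdvd, i, hi0, hi⟩ := exists_symbol hℓ hζφ
    (hne e₀ (hmemT z₀ hz₀T) he₀' hz₀A) hpow
  have hζA : algebraMap K E ζ ∈ A' := hζEE ▸ hζA'
  let A : Subring K := A'.comap (algebraMap K E)
  let g : A →+* A' := (algebraMap K E).restrict A A' (fun x hx => hx)
  have hΦζ : Φ' ⟨algebraMap K E ζ, hζA⟩ = φ ζE := by
    have h1 : (⟨algebraMap K E ζ, hζA⟩ : A') = ⟨(ζE : E), hζA'⟩ := Subtype.ext hζEE.symm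
    rw [h1, hζΦ]
  refine ⟨q, hqp, A, Φ'.comp g, i / kz z₀, hζA, hqN, hdvd, div_ne_zero hi0 hk₀, ?_, ?_⟩
  · show IsPrimitiveRoot (Φ' ⟨algebraMap K E ζ, hζA⟩) ℓ
    rw [hΦζ]; exact hζφ
  · intro z hz
    have hzA : algebraMap K E z ∈ A' := (hT' _ (hmemT z hz)).1
    refine ⟨hzA, fun hz0 => ⟨?_, ?_⟩⟩
    · exact hne _ (hmemT z hz) ((map_ne_zero (algebraMap K E)).2 hz0) hzA
    · show (Φ' ⟨algebraMap K E z, hzA⟩) ^ ((q - 1) / ℓ) =
        (Φ' ⟨algebraMap K E ζ, hζA⟩) ^ (i / kz z₀ * kz z).val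
      have hwA : w z ∈ A' := (hT' _ (hmemw z hz)).1
      have h1 : (Φ' ⟨w z, hwA⟩) ^ ℓ * (Φ' ⟨e₀, hz₀A⟩) ^ (j z) = Φ' ⟨algebraMap K E z, hzA⟩ := by
        rw [← map_pow, ← map_pow, ← map_mul]
        congr 1
        exact Subtype.ext (hwz z hz hz0)
      have h2 := symbol_of_pow_mul hℓ hζφ hdvd (hne _ (hmemw z hz) (hw0 z hz hz0) hwA) h1 hi
      have h3 : i / kz z₀ * kz z = i * (j z : ZMod ℓ) := by
        have h4 : kz z = j z * kz z₀ := hwk z hz hz0
        have h5 : kz z₀ ≠ 0 := hk₀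
        rw [h4]
        field_simp
      rw [h2, hΦζ, h3]

end Pool.Agent.Lib.MP_89bcae_ag.Re

end
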