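import Mathlib

section

open Finset

namespace Pool.Agent.Lib.MP_89bcae_ag.Sup

theorem td01_root {ℓ : ℕ} (hℓ : ℓ.Prime) :
    ∃ (A : Type) (_ : CommRing A) (_ : IsDomain A) (ζ : A), IsPrimitiveRoot ζ ℓ ∧
      ∀ {R : Type*} [CommRing R] (ξ : R), ∑ i ∈ range ℓ, ξ ^ i = 0 →
        ∃ f : A →+* R, f ζ = ξ := by
  have hirr : Irreducible (Polynomial.cyclotomic ℓ ℤ) := Polynomial.cyclotomic.irreducible hℓ.pos
  have hpr : Prime (Polynomial.cyclotomic ℓ ℤ) := hirr.prime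
  have hmon : (Polynomial.cyclotomic ℓ ℤ).Monic := Polynomial.cyclotomic.monic ℓ ℤ
  have : Fact ℓ.Prime := ⟨hℓ⟩
  have hdom : IsDomain (AdjoinRoot (Polynomial.cyclotomic ℓ ℤ)) :=
    AdjoinRoot.isDomain_of_prime hpr
  have hdeg : (Polynomial.cyclotomic ℓ ℤ).natDegree = ℓ - 1 := by
    rw [Polynomial.natDegree_cyclotomic, Nat.totient_prime hℓ]
  have hne : ((ℓ : ℕ) : AdjoinRoot (Polynomial.cyclotomic ℓ ℤ)) ≠ 0 := by
    intro h
    have h1 : AdjoinRoot.mk (Polynomial.cyclotomic ℓ ℤ) (Polynomial.C (ℓ : ℤ)) = 0 := by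
      rw [AdjoinRoot.mk_C]
      simpa using h
    rw [AdjoinRoot.mk_eq_zero] at h1
    have h2 := Polynomial.natDegree_le_of_dvd h1 (by
      rw [Ne, Polynomial.C_eq_zero]; exact_mod_cast hℓ.ne_zero)
    rw [hdeg, Polynomial.natDegree_C] at h2
    have := hℓ.two_le
    omega
  have hNe : NeZero ((ℓ : ℕ) : AdjoinRoot (Polynomial.cyclotomic ℓ ℤ)) := ⟨hne⟩
  refine ⟨AdjoinRoot (Polynomial.cyclotomic ℓ ℤ), inferInstance, hdom,
    AdjoinRoot.root _, ?_, ?_⟩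
  · rw [← Polynomial.isRoot_cyclotomic_iff]
    have h := AdjoinRoot.isRoot_root (Polynomial.cyclotomic ℓ ℤ)
    have hm : (Polynomial.cyclotomic ℓ ℤ).map (AdjoinRoot.of (Polynomial.cyclotomic ℓ ℤ))
        = Polynomial.cyclotomic ℓ (AdjoinRoot (Polynomial.cyclotomic ℓ ℤ)) :=
      Polynomial.map_cyclotomic _ _
    rwa [hm] at h
  · intro R _ ξ hξ
    have he : (Polynomial.cyclotomic ℓ ℤ).eval₂ (Int.castRingHom R) ξ = 0 := by
      rw [Polynomial.cyclotomic_prime, Polynomial.eval₂_finsetSum]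
      simpa using hξ
    exact ⟨AdjoinRoot.lift (Int.castRingHom R) ξ he, AdjoinRoot.lift_root he⟩

theorem prod_sub_pow {R : Type*} [CommRing R] {ℓ : ℕ} (hℓ : ℓ.Prime) (ξ x y : R)
    (hξ : ∑ i ∈ range ℓ, ξ ^ i = 0) : ∏ c ∈ range ℓ, (x - ξ ^ c * y) = x ^ ℓ - y ^ ℓ := by
  classical
  obtain ⟨A, _, _, ζ, hζ, hlift⟩ := td01_root hℓ
  obtain ⟨f, hf⟩ := hlift ξ hξ
  have hζ' : IsPrimitiveRoot (MvPolynomial.C (σ := Fin 2) ζ) ℓ :=
    hζ.map_of_injective (f := (MvPolynomial.C (σ := Fin 2) : A →+* _))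
      (MvPolynomial.C_injective _ _)
  have hid := hζ'.pow_sub_pow_eq_prod_sub_mul (MvPolynomial.X 0 : MvPolynomial (Fin 2) A)
    (MvPolynomial.X 1) hℓ.pos
  have hset : Polynomial.nthRootsFinset ℓ (1 : MvPolynomial (Fin 2) A)
      = (range ℓ).image (fun c => (MvPolynomial.C (σ := Fin 2) ζ) ^ c) := by
    symm
    apply Finset.eq_of_subset_of_card_le
    · intro z hz
      obtain ⟨c, -, rfl⟩ := Finset.mem_image.1 hz
      rw [Polynomial.mem_nthRootsFinset hℓ.pos, ← pow_mul, mul_comm, pow_mul, hζ'.pow_eq_one,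
        one_pow]
    · rw [hζ'.card_nthRootsFinset, Finset.card_image_of_injOn, Finset.card_range]
      intro i hi j hj hij
      exact hζ'.pow_inj (by simpa using hi) (by simpa using hj) hij
  rw [hset, Finset.prod_image] at hid
  swap
  · intro i hi j hj hij
    exact hζ'.pow_inj (by simpa using hi) (by simpa using hj) hij
  have := congrArg (MvPolynomial.eval₂Hom f ![x, y]) hid
  simp only [map_sub, map_pow, map_prod, map_mul, MvPolynomial.eval₂Hom_X', Matrix.cons_val_zero,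
    Matrix.cons_val_one, MvPolynomial.eval₂Hom_C, hf] at this
  exact this.symm

theorem td01_list {M : Type*} [CommMonoid M] (g : ℕ → M) (n : ℕ) :
    ∏ c ∈ range n, g c = ((List.range n).map g).prod := by
  induction n with
  | zero => simp
  | succ n ih => rw [Finset.prod_range_succ, List.range_succ, ih]; simp

theorem prod_sub_pow_comm {R : Type*} [Ring R] {ℓ : ℕ} (hℓ : ℓ.Prime) (ξ x : R)
    (hc : Commute ξ x) (hξ : ∑ i ∈ range ℓ, ξ ^ i = 0) :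
    ((List.range ℓ).map fun c => x - ξ ^ c).prod = x ^ ℓ - 1 := by
  have hcomm : ∀ a ∈ ({x, ξ} : Set R), ∀ b ∈ ({x, ξ} : Set R), a * b = b * a := by
    intro a ha b hb
    rcases ha with rfl | ha <;> rcases hb with rfl | hb
    · rfl
    · rw [Set.mem_singleton_iff.1 hb]; exact hc.eq.symm
    · rw [Set.mem_singleton_iff.1 ha]; exact hc.eq
    · rw [Set.mem_singleton_iff.1 ha, Set.mem_singleton_iff.1 hb]
  let : CommRing (Subring.closure ({x, ξ} : Set R)) := Subring.closureCommRingOfComm hcomm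
  let x' : Subring.closure ({x, ξ} : Set R) := ⟨x, Subring.subset_closure (by simp)⟩
  let ξ' : Subring.closure ({x, ξ} : Set R) := ⟨ξ, Subring.subset_closure (by simp)⟩
  have hξ' : ∑ i ∈ range ℓ, ξ' ^ i = 0 := by
    apply Subtype.ext
    have : (((∑ i ∈ range ℓ, ξ' ^ i : Subring.closure ({x, ξ} : Set R))) : R)
        = ∑ i ∈ range ℓ, ξ ^ i := by
      rw [← Subring.coe_subtype, map_sum]
      simp [ξ']
    rw [this, hξ]; rfl
  have h := prod_sub_pow hℓ ξ' x' 1 hξ'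
  have h2 : ((List.range ℓ).map fun c => x' - ξ' ^ c * 1).prod = x' ^ ℓ - 1 ^ ℓ := by
    rw [← h, td01_list]
  have h3 := congrArg (Subring.subtype (Subring.closure ({x, ξ} : Set R))) h2
  rw [map_list_prod] at h3
  simpa [x', ξ', Function.comp_def] using h3

end Pool.Agent.Lib.MP_89bcae_ag.Sup

end

section

open Polynomial

namespace Pool.Agent.Lib.MP_89bcae_ag.Tw

theorem ne_of_orderOf {ℓ m : ℕ} (hℓ : ℓ.Prime) (hm : m.Prime)
    (hgen : orderOf (ℓ : ZMod (m ^ 2)) = m * (m - 1)) : m.Coprime ℓ := by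
  rw [hm.coprime_iff_not_dvd]
  intro hdvd
  have h2 := hm.two_le
  have hpos : m * (m - 1) ≠ 0 := by
    apply mul_ne_zero <;> omega
  have h1 := pow_orderOf_eq_one (ℓ : ZMod (m ^ 2))
  rw [hgen] at h1
  have h3 : ((ℓ ^ (m * (m - 1)) : ℕ) : ZMod (m ^ 2)) = ((1 : ℕ) : ZMod (m ^ 2)) := by
    push_cast
    exact h1
  rw [ZMod.natCast_eq_natCast_iff] at h3
  have h4 : ℓ ^ (m * (m - 1)) ≡ 1 [MOD m] := h3.of_dvd (dvd_pow_self m two_ne_zero)
  have h5 : m ∣ ℓ ^ (m * (m - 1)) := hdvd.trans (dvd_pow_self ℓ hpos)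
  have h6 : m ∣ 1 := (h4.dvd_iff dvd_rfl).1 h5
  exact hm.one_lt.ne' (Nat.dvd_one.1 h6)

/-- the order modulo `m` -/
theorem t09_order_mod {ℓ m : ℕ} (hm : m.Prime)
    (hgen : orderOf (ℓ : ZMod (m ^ 2)) = m * (m - 1)) {d : ℕ} (h : ℓ ^ d ≡ 1 [MOD m]) :
    m - 1 ∣ d := by
  have h1 : ((m : ℕ) : ℤ) ∣ (ℓ : ℤ) ^ d - 1 ^ d := by
    rw [one_pow]
    have := (Nat.modEq_iff_dvd.1 h.symm)
    push_cast at this
    exact this
  rw [one_pow] at h1
  have h2 := dvd_sub_pow_of_dvd_sub (R := ℤ) (p := m) h1 1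
  rw [pow_one, one_pow] at h2
  have h3 : ((ℓ : ZMod (m ^ 2)) ^ (d * m)) = 1 := by
    have h4 : (((ℓ : ℤ) ^ d) ^ m - 1 : ℤ) = ((ℓ ^ (d * m) : ℕ) : ℤ) - ((1 : ℕ) : ℤ) := by
      push_cast
      rw [pow_mul]
    rw [h4] at h2
    have h5 : (1 : ℕ) ≡ ℓ ^ (d * m) [MOD m ^ 2] := by
      rw [Nat.modEq_iff_dvd]
      push_cast at h2 ⊢
      exact h2
    have h6 := (ZMod.natCast_eq_natCast_iff _ _ _).2 h5
    push_cast at h6
    exact h6.symm
  have h4 := orderOf_dvd_of_pow_eq_one h3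
  rw [hgen, mul_comm d m] at h4
  exact Nat.dvd_of_mul_dvd_mul_left hm.pos h4

/-- the order modulo `m ^ (j + 1)` -/
theorem t09_dvd {ℓ m : ℕ} (hℓ : ℓ.Prime) (hm : m.Prime) (hm2 : m ≠ 2)
    (hgen : orderOf (ℓ : ZMod (m ^ 2)) = m * (m - 1)) {j d : ℕ}
    (h : m ^ (j + 1) ∣ ℓ ^ d - 1) : m ^ j * (m - 1) ∣ d := by
  have hcop := ne_of_orderOf hℓ hm hgen
  have hmf : Fact m.Prime := ⟨hm⟩
  rcases Nat.eq_zero_or_pos d with rfl | hd
  · exact dvd_zero _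
  have h1 : 1 ≤ ℓ ^ d := Nat.one_le_pow _ _ hℓ.pos
  have h2 : m ∣ ℓ ^ d - 1 := (dvd_pow_self m (Nat.succ_ne_zero j)).trans h
  have h3 : ℓ ^ d ≡ 1 [MOD m] := ((Nat.modEq_iff_dvd' h1).2 h2).symm
  obtain ⟨e, rfl⟩ := t09_order_mod hm hgen h3
  have he : e ≠ 0 := by
    rintro rfl
    simp at hd
  rw [mul_comm (m ^ j)]
  apply Nat.mul_dvd_mul_left
  have hm1 : m - 1 ≠ 0 := by
    have := hm.two_le
    omega
  have hx : 1 < ℓ ^ (m - 1) := Nat.one_lt_pow hm1 hℓ.one_lt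
  have hnd : ¬ m ∣ ℓ ^ (m - 1) := fun h4 =>
    (hm.coprime_iff_not_dvd.1 hcop) (hm.dvd_of_dvd_pow h4)
  have hfer : m ∣ ℓ ^ (m - 1) - 1 := by
    have h5 : ℓ ^ (m - 1) ≡ 1 [MOD m] := by
      have := Nat.ModEq.pow_totient hcop.symm
      rwa [Nat.totient_prime hm] at this
    exact (Nat.modEq_iff_dvd' hx.le).1 h5.symm
  have hne : ℓ ^ (m - 1) - 1 ≠ 0 := by omega
  have hval : padicValNat m (ℓ ^ (m - 1) - 1) = 1 := by
    apply le_antisymm
    · by_contra hcon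
      push Not at hcon
      have h6 : m ^ 2 ∣ ℓ ^ (m - 1) - 1 := (padicValNat_dvd_iff_le hne).2 hcon
      have h7 := (Nat.modEq_iff_dvd' hx.le).2 h6
      have h8 := (ZMod.natCast_eq_natCast_iff _ _ _).2 h7
      push_cast at h8
      have h9 := orderOf_dvd_of_pow_eq_one h8.symm
      rw [hgen] at h9
      have h10 := Nat.le_of_dvd (Nat.pos_of_ne_zero hm1) h9
      have h11 := hm.two_le
      have h12 : 2 * (m - 1) ≤ m * (m - 1) := Nat.mul_le_mul_right _ h11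
      omega
    · have := (padicValNat_dvd_iff_le (p := m) (n := 1) hne).1 (by rwa [pow_one])
      exact this
  rw [pow_mul] at h
  have h5 : padicValNat m ((ℓ ^ (m - 1)) ^ e - 1 ^ e) =
      padicValNat m (ℓ ^ (m - 1) - 1) + padicValNat m e :=
    padicValNat.pow_sub_pow (p := m) (hm.odd_of_ne_two hm2) hx hfer hnd he
  have hne2 : (ℓ ^ (m - 1)) ^ e - 1 ^ e ≠ 0 := by
    have : 1 < (ℓ ^ (m - 1)) ^ e := Nat.one_lt_pow he hx
    rw [one_pow]
    omega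
  have h6 : j + 1 ≤ padicValNat m ((ℓ ^ (m - 1)) ^ e - 1 ^ e) := by
    rw [← padicValNat_dvd_iff_le hne2, one_pow]
    exact h
  rw [h5, hval] at h6
  rw [padicValNat_dvd_iff_le he]
  omega

theorem cyclotomic_irreducible {ℓ m : ℕ} (hℓ : ℓ.Prime) (hm : m.Prime) (hm2 : m ≠ 2)
    (hgen : orderOf (ℓ : ZMod (m ^ 2)) = m * (m - 1)) (j : ℕ) :
    Irreducible (cyclotomic (m ^ (j + 1)) (ZMod ℓ)) := by
  have hp : Fact ℓ.Prime := ⟨hℓ⟩
  have hcop := ne_of_orderOf hℓ hm hgen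
  have hN : NeZero (m ^ (j + 1)) := ⟨pow_ne_zero _ hm.ne_zero⟩
  have hnd : ¬ ℓ ∣ m ^ (j + 1) := by
    intro h
    have h1 := hℓ.dvd_of_dvd_pow h
    exact (hℓ.coprime_iff_not_dvd.1 hcop.symm) h1
  apply ZMod.irreducible_of_dvd_cyclotomic_of_natDegree (p := ℓ) hnd dvd_rfl
  rw [natDegree_cyclotomic]
  apply Nat.dvd_antisymm ?_ ?_
  · rw [Nat.totient_prime_pow hm (Nat.succ_pos j), Nat.succ_sub_one]
    apply t09_dvd hℓ hm hm2 hgen
    have h1 := pow_orderOf_eq_one (ZMod.unitOfCoprime ℓ ((Nat.coprime_pow_right_iff (Nat.succ_pos j) _ _).2 hcop.symm))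
    have h2 := congrArg Units.val h1
    rw [Units.val_pow_eq_pow_val, ZMod.coe_unitOfCoprime, Units.val_one] at h2
    have h3 : ((ℓ ^ orderOf (ZMod.unitOfCoprime ℓ
        ((Nat.coprime_pow_right_iff (Nat.succ_pos j) _ _).2 hcop.symm)) - 1 : ℕ) :
        ZMod (m ^ (j + 1))) = 0 := by
      rw [Nat.cast_sub (Nat.one_le_pow _ _ hℓ.pos), Nat.cast_pow, Nat.cast_one, h2, sub_self]
    exact (ZMod.natCast_eq_zero_iff _ _).mp h3
  · apply orderOf_dvd_of_pow_eq_one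
    exact ZMod.pow_totient _

end Pool.Agent.Lib.MP_89bcae_ag.Tw

end
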