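import Mathlib
import Pool.Agent.Lib.MP_89bcae_ag.Rk.K047

section

open Finset

namespace Pool.Agent.Lib.MP_89bcae_ag.Sup

open Polynomial in
theorem td02_taylor (P : Polynomial ℤ) :
    ∃ P' : Polynomial ℤ, P = C (P.eval 1) + (1 - X) * P' := by
  obtain ⟨R, hR⟩ := Polynomial.X_sub_C_dvd_sub_C_eval (a := (1 : ℤ)) (p := P)
  refine ⟨-R, ?_⟩
  have h1 : P = C (P.eval 1) + (X - C 1) * R := by rw [← hR]; ring
  calc P = C (P.eval 1) + (X - C 1) * R := h1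
    _ = C (P.eval 1) + (1 - X) * -R := by rw [C_1]; ring

open Polynomial in
theorem td02_frob {ℓ : ℕ} (hℓ : ℓ.Prime) (n₀ : ℕ) :
    ∃ R : Polynomial ℤ, (1 - X : Polynomial ℤ) ^ ℓ ^ n₀ =
      1 - X ^ ℓ ^ n₀ + (ℓ : Polynomial ℤ) * ((1 - X) * R) := by
  have : Fact ℓ.Prime := ⟨hℓ⟩
  have hN : 0 < ℓ ^ n₀ := pow_pos hℓ.pos _
  set P : Polynomial ℤ := (1 - X) ^ ℓ ^ n₀ - (1 - X ^ ℓ ^ n₀) with hP
  have h0 : P.map (Int.castRingHom (ZMod ℓ)) = 0 := by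
    rw [hP]
    simp only [Polynomial.map_sub, Polynomial.map_pow, Polynomial.map_one, Polynomial.map_X]
    rw [sub_pow_char_pow, one_pow, sub_self]
  have h1 : C (ℓ : ℤ) ∣ P := by
    rw [Polynomial.C_dvd_iff_dvd_coeff]
    intro i
    have := congrArg (fun Q : Polynomial (ZMod ℓ) => Q.coeff i) h0
    simp only [Polynomial.coeff_map, Polynomial.coeff_zero] at this
    rwa [eq_intCast, ZMod.intCast_zmod_eq_zero_iff_dvd] at this
  obtain ⟨R, hR⟩ := h1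
  obtain ⟨R', hR'⟩ := td02_taylor R
  have hev : P.eval 1 = 0 := by
    rw [hP]
    simp [zero_pow hN.ne']
  have hR1 : R.eval 1 = 0 := by
    rw [hR, eval_mul, eval_C] at hev
    rcases mul_eq_zero.1 hev with h | h
    · exact absurd (by exact_mod_cast h) hℓ.ne_zero
    · exact h
  refine ⟨R', ?_⟩
  rw [hR1, C_0, zero_add] at hR'
  have h2 : (1 - X : Polynomial ℤ) ^ ℓ ^ n₀ = 1 - X ^ ℓ ^ n₀ + P := by rw [hP]; ring
  rw [h2, hR]
  congr 1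
  rw [hR']
  simp

open Polynomial in
/-- `ℓ = (1 - X ^ N) κ + Φ` -/
theorem td02_kappa (ℓ N : ℕ) :
    ∃ κ : Polynomial ℤ, (ℓ : Polynomial ℤ) =
      (1 - X ^ N) * κ + ∑ j ∈ range ℓ, X ^ (j * N) := by
  refine ⟨∑ j ∈ range ℓ, ∑ i ∈ range j, (X ^ N) ^ i, ?_⟩
  rw [Finset.mul_sum]
  have h : ∀ j ∈ range ℓ, (1 - X ^ N : Polynomial ℤ) * ∑ i ∈ range j, (X ^ N) ^ i
      = 1 - X ^ (j * N) := by
    intro j _
    rw [mul_neg_geom_sum, ← pow_mul, mul_comm N j]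
  rw [Finset.sum_congr rfl h, Finset.sum_sub_distrib]
  simp

section
variable {Q : Type*} [AddCommGroup Q]

open Polynomial in
theorem td02_phi {ℓ N : ℕ} (t : AddMonoid.End Q)
    (hΦ : ∑ j ∈ range ℓ, t ^ (j * N) = 0) :
    aeval t (∑ j ∈ range ℓ, X ^ (j * N) : Polynomial ℤ) = 0 := by
  rw [map_sum]
  simpa using hΦ

open Polynomial in
/-- `ℓ = (1 - t ^ N) κ(t)` -/
theorem td02_ell {ℓ N : ℕ} (t : AddMonoid.End Q)
    (hΦ : ∑ j ∈ range ℓ, t ^ (j * N) = 0) :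
    ∃ κ : Polynomial ℤ, (ℓ : AddMonoid.End Q) = (1 - t ^ N) * aeval t κ := by
  obtain ⟨κ, hκ⟩ := td02_kappa ℓ N
  refine ⟨κ, ?_⟩
  have h := congrArg (aeval t) hκ
  rw [map_add, td02_phi t hΦ, add_zero] at h
  simpa using h

open Polynomial in
theorem td02_comm (t : AddMonoid.End Q) (A B : Polynomial ℤ) :
    aeval t A * aeval t B = aeval t B * aeval t A := by
  rw [← map_mul, mul_comm, map_mul]

open Polynomial in
/-- `(1 - t)^N = (1 - t^N) (1 + κ(t) (1 - t) R(t))` -/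
theorem td02_key {ℓ : ℕ} (hℓ : ℓ.Prime) (n₀ : ℕ)
    (t : AddMonoid.End Q) (hΦ : ∑ j ∈ range ℓ, t ^ (j * ℓ ^ n₀) = 0) :
    ∃ κ R : Polynomial ℤ, (1 - t) ^ ℓ ^ n₀ =
      (1 - t ^ ℓ ^ n₀) * (1 + aeval t κ * ((1 - t) * aeval t R)) := by
  obtain ⟨κ, hκ⟩ := td02_ell t hΦ
  obtain ⟨R, hR⟩ := td02_frob hℓ n₀
  refine ⟨κ, R, ?_⟩
  have h := congrArg (aeval t) hR
  simp only [map_pow, map_sub, map_one, aeval_X, map_add, map_mul, map_natCast] at h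
  rw [h, hκ]
  noncomm_ring

end

theorem pw_lemma {Q : Type*} [AddCommGroup Q] {ℓ : ℕ} (hℓ : ℓ.Prime) (n₀ : ℕ)
    (t : AddMonoid.End Q) (hΦ : ∑ j ∈ range ℓ, t ^ (j * ℓ ^ n₀) = 0) (a : Q) :
    ∃ a' : Q, ((1 - t) ^ ℓ ^ n₀) a = a' - (t ^ ℓ ^ n₀) a' := by
  obtain ⟨κ, R, h⟩ := td02_key hℓ n₀ t hΦ
  refine ⟨(1 + Polynomial.aeval t κ * ((1 - t) * Polynomial.aeval t R)) a, ?_⟩
  rw [h]
  rfl

theorem td02_inj {Q : Type*} [AddCommGroup Q] (t : AddMonoid.End Q)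
    (hinj : ∀ a, a - t a = 0 → a = 0) (n : ℕ) (a : Q) (h : ((1 - t) ^ n) a = 0) : a = 0 := by
  induction n with
  | zero => simpa using h
  | succ n ih =>
    apply ih
    apply hinj
    rw [pow_succ'] at h
    exact h

theorem div_lemma {Q : Type*} [AddCommGroup Q] {ℓ : ℕ} (hℓ : ℓ.Prime) (n₀ : ℕ)
    (t : AddMonoid.End Q) (hΦ : ∑ j ∈ range ℓ, t ^ (j * ℓ ^ n₀) = 0)
    (hinj : ∀ a, a - t a = 0 → a = 0) {a y : Q}
    (h : y - (t ^ ℓ ^ n₀) y = ((1 - t) ^ (ℓ ^ n₀ - 1)) a) : ∃ a', a = a' - t a' := by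
  obtain ⟨κ, R, hk⟩ := td02_key hℓ n₀ t hΦ
  have hN : 0 < ℓ ^ n₀ := pow_pos hℓ.pos _
  set w : AddMonoid.End Q := 1 + Polynomial.aeval t κ * ((1 - t) * Polynomial.aeval t R) with hw
  have h1t : (1 - t) = Polynomial.aeval t (1 - Polynomial.X : Polynomial ℤ) := by simp
  have hwp : w = Polynomial.aeval t (1 + κ * ((1 - Polynomial.X) * R)) := by
    rw [hw]; simp
  have hpowp : ∀ n : ℕ, (1 - t) ^ n = Polynomial.aeval t ((1 - Polynomial.X : Polynomial ℤ) ^ n) := by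
    intro n; rw [map_pow, ← h1t]
  have hxip : (1 - t ^ ℓ ^ n₀) =
      Polynomial.aeval t (1 - Polynomial.X ^ ℓ ^ n₀ : Polynomial ℤ) := by simp
  -- the identity
  have e1 : (1 - t ^ ℓ ^ n₀) y = ((1 - t) ^ (ℓ ^ n₀ - 1)) a := h
  have e2 : ((1 - t) ^ ℓ ^ n₀) y = ((1 - t) ^ (ℓ ^ n₀ - 1)) (w a) := by
    have c1 : (1 - t) ^ ℓ ^ n₀ = w * (1 - t ^ ℓ ^ n₀) := by
      rw [hk, hxip, hwp]; exact td02_comm t _ _
    have c2 : w * (1 - t) ^ (ℓ ^ n₀ - 1) = (1 - t) ^ (ℓ ^ n₀ - 1) * w := by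
      rw [hpowp, hwp]; exact td02_comm t _ _
    rw [c1]
    show w ((1 - t ^ ℓ ^ n₀) y) = _
    rw [e1]
    show (w * (1 - t) ^ (ℓ ^ n₀ - 1)) a = _
    rw [c2]; rfl
  have e3 : ((1 - t) ^ (ℓ ^ n₀ - 1)) ((1 - t) y - w a) = 0 := by
    rw [map_sub, ← e2]
    have : (1 - t) ^ ℓ ^ n₀ = (1 - t) ^ (ℓ ^ n₀ - 1) * (1 - t) := by
      rw [← pow_succ]; congr 1; omega
    rw [this]
    exact sub_self _
  have e4 := td02_inj t hinj _ _ e3
  have e5 : (1 - t) y = w a := sub_eq_zero.1 e4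
  have c3 : w = 1 + (1 - t) * (Polynomial.aeval t κ * Polynomial.aeval t R) := by
    rw [hw, ← mul_assoc, ← mul_assoc]
    congr 2
    rw [h1t]; exact td02_comm t _ _
  rw [c3] at e5
  refine ⟨y - (Polynomial.aeval t κ * Polynomial.aeval t R) a, ?_⟩
  have e6 : (1 - t) y = a + (1 - t) ((Polynomial.aeval t κ * Polynomial.aeval t R) a) := e5
  have e7 : a = (1 - t) (y - (Polynomial.aeval t κ * Polynomial.aeval t R) a) := by
    rw [map_sub, e6]; abel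
  exact e7

open Polynomial in
/-- `(1 + t + ... + t^(q-1))^n = 1 + (1 - t) s` modulo `(1 - t)²`. -/
theorem eps_lemma {Q : Type*} [AddCommGroup Q] {ℓ : ℕ} (hℓ : ℓ.Prime) (n₀ q n : ℕ)
    (hq0 : 0 < q) (hq1 : ℓ ∣ q - 1)
    (t : AddMonoid.End Q) (hΦ : ∑ j ∈ range ℓ, t ^ (j * ℓ ^ n₀) = 0) :
    ∃ s : ℤ, ∀ a : Q, ∃ a' : Q, ((∑ i ∈ range q, t ^ i) ^ n) a =
      a + (1 - t) (s • a + (1 - t) a') := by
  obtain ⟨κ, hκ⟩ := td02_kappa ℓ (ℓ ^ n₀)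
  obtain ⟨R, hR⟩ := td02_taylor ((∑ i ∈ range q, X ^ i : Polynomial ℤ) ^ n)
  have hev : ((∑ i ∈ range q, X ^ i : Polynomial ℤ) ^ n).eval 1 = (q : ℤ) ^ n := by
    simp [eval_finsetSum]
  rw [hev] at hR
  have hdvd : (ℓ : ℤ) ∣ (q : ℤ) ^ n - 1 := by
    have h1 : (ℓ : ℤ) ∣ (q : ℤ) - 1 := by
      have : ((q - 1 : ℕ) : ℤ) = (q : ℤ) - 1 := by
        rw [Nat.cast_sub hq0]; simp
      rw [← this]; exact_mod_cast hq1
    have h2 : (q : ℤ) - 1 ∣ (q : ℤ) ^ n - 1 ^ n := sub_dvd_pow_sub_pow _ _ n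
    rw [one_pow] at h2
    exact h1.trans h2
  obtain ⟨y, hy⟩ := hdvd
  set G : Polynomial ℤ := ∑ i ∈ range (ℓ ^ n₀), X ^ i with hG
  have hGe : (1 - X ^ (ℓ ^ n₀) : Polynomial ℤ) = (1 - X) * G := by
    rw [hG, mul_neg_geom_sum]
  obtain ⟨R₂, hR₂⟩ := td02_taylor R
  obtain ⟨K₂, hK₂⟩ := td02_taylor (G * κ * C y)
  set s : ℤ := R.eval 1 + (G * κ * C y).eval 1 with hs
  have hmain : (∑ i ∈ range q, X ^ i : Polynomial ℤ) ^ n =
      1 + (1 - X) * (C s + (1 - X) * (R₂ + K₂)) +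
        (∑ j ∈ range ℓ, X ^ (j * ℓ ^ n₀)) * C y := by
    have h1 : (C ((q : ℤ) ^ n) : Polynomial ℤ) = 1 + (ℓ : Polynomial ℤ) * C y := by
      have : (q : ℤ) ^ n = 1 + ℓ * y := by rw [← hy]; ring
      rw [this]; simp
    have h2 : (ℓ : Polynomial ℤ) * C y = (1 - X) * (G * κ * C y) +
        (∑ j ∈ range ℓ, X ^ (j * ℓ ^ n₀)) * C y := by
      rw [hκ, hGe]; ring
    have h3 : (C s : Polynomial ℤ) = C (R.eval 1) + C ((G * κ * C y).eval 1) := by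
      rw [hs, C_add]
    have h4 : (1 - X) * R = (1 - X) * (C (R.eval 1) + (1 - X) * R₂) := by rw [← hR₂]
    have h5 : (1 - X) * (G * κ * C y) =
        (1 - X) * (C ((G * κ * C y).eval 1) + (1 - X) * K₂) := by rw [← hK₂]
    rw [hR, h1, h2, h3, h4, h5]
    ring
  refine ⟨s, fun a => ⟨aeval t (R₂ + K₂) a, ?_⟩⟩
  have h := congrArg (aeval t) hmain
  rw [map_add, map_mul (aeval t) (∑ j ∈ range ℓ, X ^ (j * ℓ ^ n₀)), td02_phi t hΦ, zero_mul,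
    add_zero] at h
  have hl : aeval t ((∑ i ∈ range q, X ^ i : Polynomial ℤ) ^ n) = (∑ i ∈ range q, t ^ i) ^ n := by
    simp
  rw [hl] at h
  rw [h]
  have hr : aeval t (1 + (1 - X) * (C s + (1 - X) * (R₂ + K₂)) : Polynomial ℤ) =
      1 + (1 - t) * ((s : AddMonoid.End Q) + (1 - t) * aeval t (R₂ + K₂)) := by
    simp only [map_add, map_mul, map_sub, map_one, aeval_X, aeval_C]
    simp
  rw [hr]
  show a + (1 - t) ((s : AddMonoid.End Q) a + (1 - t) (aeval t (R₂ + K₂) a)) = _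
  have hs' : (s : AddMonoid.End Q) a = s • a := by
    rw [← zsmul_one s]; rfl
  rw [hs']

end Pool.Agent.Lib.MP_89bcae_ag.Sup

end

section

/-!
# The order lemma
-/

open Finset

namespace Pool.Agent.Lib.MP_89bcae_ag.Sup

section poly

open Polynomial

lemma td05_p1 (f : ℤ[X]) : ∃ g : ℤ[X], f = C (f.eval 1) + (1 - X) * g := by
  obtain ⟨g, hg⟩ := X_sub_C_dvd_sub_C_eval (a := (1 : ℤ)) (p := f)
  refine ⟨-g, ?_⟩
  rw [C_1] at hg
  linear_combination hg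

lemma td05_p2 (n : ℕ) : (∃ g : ℤ[X], (X : ℤ[X]) ^ n = 1 - (n : ℤ[X]) * (1 - X) + (1 - X) ^ 2 * g) ∧
    ∃ g : ℤ[X], ∑ i ∈ range n, (X : ℤ[X]) ^ i =
      (n : ℤ[X]) - ((n.choose 2 : ℕ) : ℤ[X]) * (1 - X) + (1 - X) ^ 2 * g := by
  induction n with
  | zero => exact ⟨⟨0, by simp⟩, ⟨0, by simp⟩⟩
  | succ n ih =>
    obtain ⟨⟨g, hg⟩, ⟨h, hh⟩⟩ := ih
    refine ⟨⟨(n : ℤ[X]) + g - (1 - X) * g, ?_⟩, ⟨h + g, ?_⟩⟩
    · rw [pow_succ, hg]
      push_cast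
      ring
    · rw [sum_range_succ, hh, hg, Nat.choose_succ_succ' n 1, Nat.choose_one_right]
      push_cast
      ring

end poly

section arith

/-- the arithmetic hypothesis on `q` -/
def td05_H (ℓ q : ℕ) : Prop := ∃ x : ℕ, q = 1 + ℓ * x ∧ (ℓ = 2 → 2 ∣ x)

lemma td05_H_of {ℓ q : ℕ} (hq0 : 0 < q) (hq1 : ℓ ∣ q - 1) (hq2 : ℓ ∣ q.choose 2) :
    td05_H ℓ q := by
  obtain ⟨x, hx⟩ := hq1
  refine ⟨x, by omega, ?_⟩
  rintro rfl
  have hq : q = 2 * x + 1 := by omega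
  have h1 : q.choose 2 = (2 * x + 1) * x := by
    rw [hq, Nat.choose_two_right]
    have : (2 * x + 1) * (2 * x + 1 - 1) = (2 * x + 1) * x * 2 := by
      rw [Nat.add_sub_cancel]
      ring
    rw [this, Nat.mul_div_cancel _ two_pos]
  rw [h1] at hq2
  rcases (Nat.prime_two.dvd_mul).1 hq2 with h | h
  · omega
  · exact h

lemma td05_H_pow {ℓ q : ℕ} (h : td05_H ℓ q) (n : ℕ) : td05_H ℓ (q ^ n) := by
  obtain ⟨x, hx, h2⟩ := h
  induction n with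
  | zero => exact ⟨0, by simp, fun _ => dvd_zero _⟩
  | succ n ih =>
    obtain ⟨y, hy, hy2⟩ := ih
    refine ⟨x + y + ℓ * y * x, ?_, fun h => ?_⟩
    · rw [pow_succ, hy, hx]
      ring
    · exact dvd_add (dvd_add (h2 h) (hy2 h)) ((h2 h).mul_left _)

lemma td05_geom (x n : ℕ) : ∃ z, ∑ i ∈ range n, (1 + x) ^ i = n + n.choose 2 * x + x ^ 2 * z := by
  have h1 : ∀ n : ℕ, ∃ z, (1 + x) ^ n = 1 + n * x + x ^ 2 * z := by
    intro n
    induction n with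
    | zero => exact ⟨0, by simp⟩
    | succ n ih =>
      obtain ⟨z, hz⟩ := ih
      refine ⟨n + z + x * z, ?_⟩
      rw [pow_succ, hz]
      ring
  induction n with
  | zero => exact ⟨0, by simp⟩
  | succ n ih =>
    obtain ⟨z, hz⟩ := ih
    obtain ⟨w, hw⟩ := h1 n
    refine ⟨z + w, ?_⟩
    rw [sum_range_succ, hz, hw, Nat.choose_succ_succ' n 1, Nat.choose_one_right]
    ring

/-- `∑_{i<ℓ} q^i = ℓ v` with `v` prime to `ℓ` -/
lemma td05_S {ℓ q : ℕ} (hℓ : ℓ.Prime) (h : td05_H ℓ q) :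
    ∃ y, ∑ i ∈ range ℓ, q ^ i = ℓ * (1 + ℓ * y) := by
  obtain ⟨x, hx, h2⟩ := h
  obtain ⟨z, hz⟩ := td05_geom (ℓ * x) ℓ
  rw [hx, hz]
  obtain ⟨c, hc⟩ : ∃ c, ℓ.choose 2 * x = ℓ * c := by
    rcases eq_or_ne ℓ 2 with h | h
    · obtain ⟨c, hc⟩ := h2 h
      refine ⟨c, ?_⟩
      rw [hc, h]
      norm_num
    · obtain ⟨c, hc⟩ := hℓ.dvd_choose_self (k := 2) two_ne_zero (by
        have := hℓ.two_le
        omega)
      refine ⟨c * x, ?_⟩
      rw [hc]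
      ring
  refine ⟨c + x ^ 2 * z, ?_⟩
  have : ℓ.choose 2 * (ℓ * x) = ℓ * (ℓ.choose 2 * x) := by ring
  rw [this, hc]
  ring

lemma td05_choose {ℓ q : ℕ} (hℓ : ℓ.Prime) (h : td05_H ℓ q) : ∃ c, q.choose 2 = ℓ * c := by
  obtain ⟨x, hx, h2⟩ := h
  have h3 : 2 * q.choose 2 = ℓ * (x * q) := by
    rw [Nat.choose_two_right, Nat.mul_div_cancel']
    · rw [hx, Nat.add_sub_cancel_left]
      ring
    · exact (Nat.even_mul_pred_self q).two_dvd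
  rcases eq_or_ne ℓ 2 with h | h
  · obtain ⟨c, hc⟩ := h2 h
    refine ⟨c * q, ?_⟩
    subst h
    rw [hc] at h3
    have : 2 * (2 * c * q) = 2 * (2 * (c * q)) := by ring
    rw [this] at h3
    exact Nat.eq_of_mul_eq_mul_left two_pos h3
  · have h4 : ℓ ∣ 2 * q.choose 2 := ⟨_, h3⟩
    rcases (hℓ.dvd_mul).1 h4 with h5 | h5
    · exact absurd ((Nat.prime_dvd_prime_iff_eq hℓ Nat.prime_two).1 h5) h
    · exact h5

lemma td05_sq {ℓ q : ℕ} (hℓ : ℓ.Prime) (h : td05_H ℓ q) : ∃ y, q ^ ℓ = 1 + ℓ ^ 2 * y := by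
  obtain ⟨y, hy⟩ := td05_S hℓ h
  obtain ⟨x, hx, h2⟩ := h
  refine ⟨x * (1 + ℓ * y), ?_⟩
  have h3 : (q : ℤ) ^ ℓ = 1 + ((q : ℤ) - 1) * ∑ i ∈ range ℓ, (q : ℤ) ^ i := by
    rw [mul_geom_sum]
    ring
  have h4 : (∑ i ∈ range ℓ, (q : ℤ) ^ i) = ℓ * (1 + ℓ * y) := by exact_mod_cast hy
  have h5 : (q : ℤ) = 1 + ℓ * x := by exact_mod_cast hx
  have h6 : (q : ℤ) - 1 = ℓ * x := by rw [h5]; ring
  rw [h4, h6] at h3
  have h7 : ((q ^ ℓ : ℕ) : ℤ) = ((1 + ℓ ^ 2 * (x * (1 + ℓ * y)) : ℕ) : ℤ) := by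
    push_cast
    rw [h3]
    ring
  exact_mod_cast h7

/-- the exponent `e` with `ℓ N ∣ n + e S` -/
lemma td05_solve {ℓ : ℕ} (hℓ : ℓ.Prime) (n₀ n' y : ℕ) :
    ∃ e k : ℕ, ℓ * n' + e * (ℓ * (1 + ℓ * y)) = ℓ * ℓ ^ n₀ * k := by
  have hcop : Nat.Coprime (1 + ℓ * y) (ℓ ^ n₀) := by
    apply Nat.Coprime.pow_right
    rw [Nat.coprime_comm, hℓ.coprime_iff_not_dvd]
    intro h
    have h1 : ℓ ∣ 1 := (Nat.dvd_add_left (dvd_mul_right ℓ y)).1 h
    exact hℓ.one_lt.ne' (Nat.dvd_one.1 h1)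
  have hN : 0 < ℓ ^ n₀ := pow_pos hℓ.pos _
  obtain ⟨w, -, hw'⟩ := Nat.exists_mul_mod_eq_of_coprime 1 hcop hN.ne'
  have hw : (1 + ℓ * y) * w ≡ 1 [MOD ℓ ^ n₀] := hw'
  refine ⟨w * (n' * (ℓ ^ n₀ - 1)), ?_⟩
  have h1 : n' + w * (n' * (ℓ ^ n₀ - 1)) * (1 + ℓ * y) ≡ 0 [MOD ℓ ^ n₀] := by
    have h2 : w * (n' * (ℓ ^ n₀ - 1)) * (1 + ℓ * y) ≡ 1 * (n' * (ℓ ^ n₀ - 1)) [MOD ℓ ^ n₀] := by
      have h3 : w * (n' * (ℓ ^ n₀ - 1)) * (1 + ℓ * y) = ((1 + ℓ * y) * w) * (n' * (ℓ ^ n₀ - 1)) := by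
        ring
      rw [h3]
      exact hw.mul_right _
    have h4 : n' + 1 * (n' * (ℓ ^ n₀ - 1)) = n' * ℓ ^ n₀ := by
      obtain ⟨M, hM⟩ := Nat.exists_eq_succ_of_ne_zero hN.ne'
      rw [hM, Nat.succ_sub_one, Nat.succ_eq_add_one]
      ring
    refine (h2.add_left n').trans ?_
    rw [h4]
    exact (Nat.modEq_zero_iff_dvd.2 (dvd_mul_left _ _))
  obtain ⟨k, hk⟩ := Nat.modEq_zero_iff_dvd.1 h1
  refine ⟨k, ?_⟩
  calc ℓ * n' + w * (n' * (ℓ ^ n₀ - 1)) * (ℓ * (1 + ℓ * y))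
      = ℓ * (n' + w * (n' * (ℓ ^ n₀ - 1)) * (1 + ℓ * y)) := by ring
    _ = ℓ * ℓ ^ n₀ * k := by rw [hk]; ring

end arith

section ring

open Polynomial

variable {R : Type*} [Ring R]

/-- the value of a polynomial at `t` -/
noncomputable def td05_v (t : R) : ℤ[X] →+* R := (aeval t : ℤ[X] →ₐ[ℤ] R).toRingHom

lemma td05_v_X (t : R) : td05_v t X = t := aeval_X t

lemma td05_v_pi (t : R) : td05_v t (1 - X) = 1 - t := by
  rw [map_sub, map_one, td05_v_X]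

lemma td05_v_C (t : R) (a : ℤ) : td05_v t (C a) = a := by
  change aeval t (C a) = _
  rw [aeval_C]
  exact eq_intCast _ a

lemma td05_comm (t : R) (f g : ℤ[X]) : Commute (td05_v t f) (td05_v t g) := by
  unfold Commute SemiconjBy
  rw [← map_mul, ← map_mul, mul_comm]

lemma td05_comm_pi (t : R) (f : ℤ[X]) : Commute (td05_v t f) (1 - t) := by
  rw [← td05_v_pi]
  exact td05_comm t f _

/-- `ℓ = (1 - t) κ(t)` -/
lemma td05_kappa {ℓ n₀ : ℕ} (t : R) (hΦ : ∑ j ∈ range ℓ, t ^ (j * ℓ ^ n₀) = 0) :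
    ∃ K : ℤ[X], (ℓ : R) = (1 - t) * td05_v t K := by
  obtain ⟨g, hg⟩ := td05_p1 ((ℓ : ℤ[X]) - ∑ j ∈ range ℓ, X ^ (j * ℓ ^ n₀))
  have h1 : ((ℓ : ℤ[X]) - ∑ j ∈ range ℓ, X ^ (j * ℓ ^ n₀)).eval 1 = 0 := by
    rw [eval_sub, eval_natCast, eval_finsetSum]
    simp
  rw [h1, C_0, zero_add] at hg
  refine ⟨g, ?_⟩
  have h2 := congrArg (td05_v t) hg
  rw [map_mul, td05_v_pi, map_sub, map_natCast, map_sum] at h2
  rw [← h2]
  have h3 : ∑ j ∈ range ℓ, td05_v t (X ^ (j * ℓ ^ n₀)) = 0 := by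
    rw [← hΦ]
    refine sum_congr rfl fun j _ => ?_
    rw [map_pow, td05_v_X]
  rw [h3, sub_zero]

/-- `ε^m = 1 + π (s + π z)` with a natural number `s` -/
lemma td05_eps0 {ℓ q : ℕ} (hℓ : ℓ.Prime) (t : R) {K : ℤ[X]}
    (hK : (ℓ : R) = (1 - t) * td05_v t K) (h : td05_H ℓ q) (m : ℕ) :
    ∃ (s : ℕ) (z : ℤ[X]), (∑ i ∈ range q, t ^ i) ^ m =
      1 + (1 - t) * ((s : R) + (1 - t) * td05_v t z) := by
  obtain ⟨x, hx, -⟩ := td05_H_pow h m
  obtain ⟨g, hg⟩ := td05_p1 ((∑ i ∈ range q, (X : ℤ[X]) ^ i) ^ m)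
  have h1 : ((∑ i ∈ range q, (X : ℤ[X]) ^ i) ^ m).eval 1 = 1 + ℓ * x := by
    rw [eval_pow, eval_finsetSum]
    have : ∑ i ∈ range q, eval 1 ((X : ℤ[X]) ^ i) = q := by simp
    rw [this]
    exact_mod_cast hx
  obtain ⟨g₂, hg₂⟩ := td05_p1 (K * (x : ℤ[X]) + g)
  set a : ℤ := (K * (x : ℤ[X]) + g).eval 1 with ha
  have hℓ0 : (ℓ : ℤ) ≠ 0 := by exact_mod_cast hℓ.ne_zero
  obtain ⟨s, hs⟩ : ∃ s : ℕ, (s : ℤ) = a % ℓ := ⟨(a % ℓ).toNat, Int.toNat_of_nonneg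
    (Int.emod_nonneg a hℓ0)⟩
  refine ⟨s, K * C (a / ℓ) + g₂, ?_⟩
  have h2 := congrArg (td05_v t) hg
  have h3 := congrArg (td05_v t) hg₂
  have hsum : td05_v t (∑ i ∈ range q, (X : ℤ[X]) ^ i) = ∑ i ∈ range q, t ^ i := by
    rw [map_sum]
    refine sum_congr rfl fun j _ => ?_
    rw [map_pow, td05_v_X]
  rw [map_pow, hsum, h1, map_add, map_mul, td05_v_pi, td05_v_C] at h2
  rw [map_add, map_mul, map_add, map_mul, td05_v_pi, td05_v_C, map_natCast] at h3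
  have h4 : (a : R) = (s : R) + (1 - t) * (td05_v t K * ((a / ℓ : ℤ) : R)) := by
    have h5 : a = (s : ℤ) + ℓ * (a / ℓ) := by
      rw [hs]
      exact (Int.emod_add_mul_ediv a ℓ).symm
    rw [← mul_assoc, ← hK]
    conv_lhs => rw [h5]
    push_cast
    rfl
  have h5 : td05_v t g = (s : R) + (1 - t) * (td05_v t K * ((a / ℓ : ℤ) : R)) +
      (1 - t) * td05_v t g₂ - td05_v t K * (x : R) := by
    rw [← h4, ← h3, add_sub_cancel_left]
  rw [h2, h5, map_add, map_mul, td05_v_C]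
  have h6 : ((1 + ℓ * x : ℤ) : R) = 1 + (1 - t) * (td05_v t K * (x : R)) := by
    rw [← mul_assoc, ← hK]
    push_cast
    rfl
  rw [h6]
  noncomm_ring

/-- `ε^m = 1 + π² z` if `q ≡ 1` modulo `ℓ²` -/
lemma td05_eps1 {ℓ q : ℕ} (t : R) {K : ℤ[X]}
    (hK : (ℓ : R) = (1 - t) * td05_v t K) (h1 : ∃ y, q = 1 + ℓ ^ 2 * y)
    (h2 : ∃ c, q.choose 2 = ℓ * c) (m : ℕ) :
    ∃ z : ℤ[X], (∑ i ∈ range q, t ^ i) ^ m = 1 + (1 - t) * ((1 - t) * td05_v t z) := by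
  obtain ⟨y, hy⟩ := h1
  obtain ⟨c, hc⟩ := h2
  obtain ⟨-, g, hg⟩ := td05_p2 q
  have hsum : td05_v t (∑ i ∈ range q, (X : ℤ[X]) ^ i) = ∑ i ∈ range q, t ^ i := by
    rw [map_sum]
    refine sum_congr rfl fun j _ => ?_
    rw [map_pow, td05_v_X]
  induction m with
  | zero => exact ⟨0, by simp⟩
  | succ m ih =>
    obtain ⟨z, hz⟩ := ih
    have hK2 : (ℓ : R) * ℓ = (1 - t) * ((1 - t) * td05_v t (K * K)) := by
      have e1 : (ℓ : R) * ℓ = (1 - t) * (td05_v t K * (1 - t)) * td05_v t K := by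
        conv_lhs => rw [hK]
        noncomm_ring
      rw [e1, (td05_comm_pi t K).eq, map_mul]
      noncomm_ring
    have h3 : ∑ i ∈ range q, t ^ i = 1 + (1 - t) * ((1 - t) *
        td05_v t (K * K * (y : ℤ[X]) - K * (c : ℤ[X]) + g)) := by
      have h4 := congrArg (td05_v t) hg
      rw [hsum] at h4
      rw [h4, map_add, map_sub, map_mul, map_mul, map_pow, td05_v_pi, map_natCast, map_natCast,
        map_add, map_sub, map_mul _ (K * K), map_mul _ K (c : ℤ[X]), map_natCast, map_natCast, hc]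
      have e2 : ((q : ℕ) : R) = 1 + (1 - t) * ((1 - t) * td05_v t (K * K)) * (y : R) := by
        rw [← hK2, hy]
        push_cast
        rw [pow_two]
      have e3 : ((ℓ * c : ℕ) : R) * (1 - t) = (1 - t) * ((1 - t) * (td05_v t K * (c : R))) := by
        have e4 : ((ℓ * c : ℕ) : R) * (1 - t) = (1 - t) * ((ℓ * c : ℕ) : R) :=
          (Nat.cast_commute _ _).eq
        rw [e4]
        push_cast
        rw [hK]
        noncomm_ring
      rw [e2, e3]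
      noncomm_ring
    refine ⟨z + (K * K * (y : ℤ[X]) - K * (c : ℤ[X]) + g) +
      z * ((1 - X) * (1 - X)) * (K * K * (y : ℤ[X]) - K * (c : ℤ[X]) + g), ?_⟩
    have h4 : ∀ f : ℤ[X], 1 + (1 - t) * ((1 - t) * td05_v t f) =
        td05_v t (1 + (1 - X) * ((1 - X) * f)) := by
      intro f
      rw [map_add, map_one, map_mul, map_mul, td05_v_pi]
    rw [pow_succ, hz, h3, h4, h4, h4, ← map_mul]
    congr 1
    ring

/-- `t^n (1 + ... + t^(s-1)) = s + π y` -/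
lemma td05_ts (t : R) (n s : ℕ) : ∃ y : R,
    t ^ (n + s) - t ^ n = -((1 - t) * ((s : R) + (1 - t) * y)) := by
  obtain ⟨g, hg⟩ := td05_p1 (X ^ n * ∑ i ∈ range s, (X : ℤ[X]) ^ i)
  have h1 : ((X : ℤ[X]) ^ n * ∑ i ∈ range s, (X : ℤ[X]) ^ i).eval 1 = s := by
    rw [eval_mul, eval_pow, eval_X, one_pow, one_mul, eval_finsetSum]
    simp
  refine ⟨td05_v t g, ?_⟩
  have h2 := congrArg (td05_v t) hg
  rw [h1, map_add, map_mul (td05_v t) (1 - X), td05_v_pi, td05_v_C] at h2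
  have h3 : ((s : ℤ) : R) = (s : R) := Int.cast_natCast s
  rw [h3] at h2
  rw [← h2, map_mul, map_pow, td05_v_X]
  have hsum : td05_v t (∑ i ∈ range s, (X : ℤ[X]) ^ i) = ∑ i ∈ range s, t ^ i := by
    rw [map_sum]
    refine sum_congr rfl fun j _ => ?_
    rw [map_pow, td05_v_X]
  rw [hsum, ← mul_assoc, ((Commute.one_left _).sub_left (Commute.pow_right (Commute.refl t) n)).eq,
    mul_assoc, mul_neg_geom_sum, pow_add]
  noncomm_ring

lemma td05_semi {t u : R} {q : ℕ} (hc : u * t = t ^ q * u) (c : ℕ) :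
    SemiconjBy (u ^ c) t (t ^ q ^ c) := by
  induction c with
  | zero =>
    rw [pow_zero, pow_zero, pow_one]
    exact SemiconjBy.one_left t
  | succ c ih =>
    have h1 : SemiconjBy u t (t ^ q) := hc
    have h2 := h1.pow_right (q ^ c)
    rw [← pow_mul, ← pow_succ'] at h2
    rw [pow_succ']
    exact h2.mul_left ih

lemma td05_commt (t : R) (n m : ℕ) : Commute (∑ i ∈ range n, t ^ i) ((1 - t) ^ m) := by
  apply Commute.pow_right
  apply Commute.sub_right (Commute.one_right _)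
  exact Commute.sum_left _ _ _ fun i _ => (Commute.refl t).pow_left i

lemma td05_upi {t u : R} {q : ℕ} (hc : u * t = t ^ q * u) (c m : ℕ) :
    u ^ c * (1 - t) ^ m = (1 - t) ^ m * ((∑ i ∈ range (q ^ c), t ^ i) ^ m * u ^ c) := by
  have h1 : SemiconjBy (u ^ c) (1 - t) (1 - t ^ q ^ c) :=
    (SemiconjBy.one_right _).sub_right (td05_semi hc c)
  have h2 := (h1.pow_right m).eq
  have h3 : (1 - t ^ q ^ c) ^ m = (1 - t) ^ m * (∑ i ∈ range (q ^ c), t ^ i) ^ m := by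
    rw [← mul_neg_geom_sum, Commute.mul_pow]
    have := td05_commt t (q ^ c) 1
    rw [pow_one] at this
    exact this.symm
  rw [h2, h3, mul_assoc]

lemma td05_u1 {t u w : R} (hw : u - 1 = (1 - t) * w) (c : ℕ) :
    ∃ B, u ^ c = 1 + (1 - t) * B := by
  refine ⟨w * ∑ i ∈ range c, u ^ i, ?_⟩
  rw [← mul_assoc, ← hw, mul_geom_sum]
  abel

lemma td05_u2 {ℓ q : ℕ} (hℓ : ℓ.Prime) {t u w : R} (hc : u * t = t ^ q * u)
    (hw : u - 1 = (1 - t) * w) {K : ℤ[X]} (hK : (ℓ : R) = (1 - t) * td05_v t K)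
    (h : td05_H ℓ q) : ∃ D, u ^ ℓ = 1 + (1 - t) * ((1 - t) * D) := by
  have h1 : ∀ c : ℕ, ∃ C : R, (∑ i ∈ range (q ^ c), t ^ i) * u ^ c = 1 + (1 - t) * C := by
    intro c
    obtain ⟨s, z, hz⟩ := td05_eps0 hℓ t hK (td05_H_pow h c) 1
    obtain ⟨B, hB⟩ := td05_u1 hw c
    rw [pow_one] at hz
    rw [hz, hB]
    generalize (s : R) + (1 - t) * td05_v t z = A
    refine ⟨A + B + A * ((1 - t) * B), ?_⟩
    noncomm_ring
  choose C hC using h1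
  refine ⟨(td05_v t K + ∑ c ∈ range ℓ, C c) * w, ?_⟩
  have h2 : (∑ c ∈ range ℓ, u ^ c) * (1 - t) = (1 - t) * ((1 - t) *
      (td05_v t K + ∑ c ∈ range ℓ, C c)) := by
    rw [sum_mul]
    have h3 : ∀ c ∈ range ℓ, u ^ c * (1 - t) = (1 - t) * (1 + (1 - t) * C c) := by
      intro c _
      have h4 := td05_upi hc c 1
      rw [pow_one, pow_one] at h4
      rw [h4, hC]
    rw [sum_congr rfl h3, ← mul_sum, sum_add_distrib, sum_const, card_range, nsmul_one, hK,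
      ← mul_sum]
    congr 1
    rw [mul_add]
  have h5 : u ^ ℓ - 1 = (∑ c ∈ range ℓ, u ^ c) * (u - 1) := (geom_sum_mul u ℓ).symm
  rw [hw, ← mul_assoc, h2] at h5
  rw [← mul_assoc (1 - t) _ w, ← mul_assoc (1 - t) _ w, ← h5]
  abel

lemma td05_u3 {ℓ q : ℕ} (hℓ : ℓ.Prime) {t u w : R} (hc : u * t = t ^ q * u)
    (hw : u - 1 = (1 - t) * w) {K : ℤ[X]} (hK : (ℓ : R) = (1 - t) * td05_v t K)
    (h : td05_H ℓ q) (j : ℕ) : ∃ D, u ^ ℓ ^ (j + 1) = 1 + (1 - t) * ((1 - t) * D) := by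
  obtain ⟨D, hD⟩ := td05_u2 hℓ hc hw hK h
  refine ⟨D * ∑ i ∈ range (ℓ ^ j), (u ^ ℓ) ^ i, ?_⟩
  have h1 : u ^ ℓ - 1 = (1 - t) * ((1 - t) * D) := by rw [hD, add_sub_cancel_left]
  rw [← mul_assoc (1 - t) D, ← mul_assoc (1 - t) _ (∑ i ∈ range (ℓ ^ j), (u ^ ℓ) ^ i), ← h1,
    mul_geom_sum, ← pow_mul, ← pow_succ']
  abel

/-- the identity for `j = 0` -/
lemma td05_id0 {ℓ q : ℕ} (hℓ : ℓ.Prime) {t u w : R}
    (hw : u - 1 = (1 - t) * w) {K : ℤ[X]} (hK : (ℓ : R) = (1 - t) * td05_v t K)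
    (h : td05_H ℓ q) (m n : ℕ) : ∃ (s : ℕ) (Y : R),
      (∑ i ∈ range q, t ^ i) ^ m * u - t ^ n = (u - t ^ (n + s)) + (1 - t) * ((1 - t) * Y) := by
  obtain ⟨s, z, hz⟩ := td05_eps0 hℓ t hK h m
  obtain ⟨y, hy⟩ := td05_ts t n s
  refine ⟨s, (s : R) * w - y + td05_v t z * u, ?_⟩
  have h1 : (s : R) * (u - 1) = (1 - t) * ((s : R) * w) := by
    rw [hw, ← mul_assoc, (Nat.cast_commute s (1 - t)).eq, mul_assoc]
  have h2 : t ^ n = t ^ (n + s) + (1 - t) * ((s : R) + (1 - t) * y) := by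
    have := hy
    rw [sub_eq_iff_eq_add] at this
    rw [this]
    abel
  have h3 : (∑ i ∈ range q, t ^ i) ^ m * u - t ^ n = (u - t ^ (n + s)) +
      (1 - t) * ((s : R) * (u - 1) + (1 - t) * (td05_v t z * u) - (1 - t) * y) := by
    rw [hz, h2]
    noncomm_ring
  rw [h3, h1]
  noncomm_ring

/-- the identity for `j > 0`, `n` prime to `ℓ` -/
lemma td05_id1 {ℓ q j : ℕ} (hℓ : ℓ.Prime) {t u w : R} (hc : u * t = t ^ q * u)
    (hw : u - 1 = (1 - t) * w) {K : ℤ[X]} (hK : (ℓ : R) = (1 - t) * td05_v t K)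
    (h : td05_H ℓ q) (m n : ℕ) : ∃ Y : R,
      (∑ i ∈ range (q ^ ℓ ^ (j + 1)), t ^ i) ^ m * u ^ ℓ ^ (j + 1) - t ^ n =
        (1 - t) * ((n : R) + (1 - t) * Y) := by
  have h1 : ∃ y, q ^ ℓ ^ (j + 1) = 1 + ℓ ^ 2 * y := by
    have := td05_sq hℓ (td05_H_pow h (ℓ ^ j))
    rw [← pow_mul, ← pow_succ] at this
    exact this
  obtain ⟨z, hz⟩ := td05_eps1 t hK h1 (td05_choose hℓ (td05_H_pow h (ℓ ^ (j + 1)))) m
  obtain ⟨D, hD⟩ := td05_u3 hℓ hc hw hK h j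
  obtain ⟨y, hy⟩ := td05_ts t 0 n
  rw [zero_add, pow_zero, sub_eq_iff_eq_add] at hy
  refine ⟨y + td05_v t z + D + td05_v t z * ((1 - t) * ((1 - t) * D)), ?_⟩
  rw [hz, hD, hy]
  noncomm_ring

/-- the factorisation for `n` divisible by `ℓ` -/
lemma td05_fact {ℓ n₀ q j : ℕ} (hℓ : ℓ.Prime) {t u : R} (hc : u * t = t ^ q * u)
    (hΦ : ∑ j ∈ range ℓ, t ^ (j * ℓ ^ n₀) = 0) (h : td05_H ℓ q) (n' : ℕ) :
    ∃ e f : ℕ, u ^ ℓ ^ (j + 1) - t ^ (ℓ * n') = t ^ (ℓ * n') *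
      ((List.range ℓ).map fun c => t ^ e * (u ^ ℓ ^ j - t ^ (ℓ ^ n₀ * c + f))).prod := by
  set N := ℓ ^ n₀ with hN
  have hT : t ^ (ℓ * N) = 1 := by
    have h1 := geom_sum_mul (t ^ N) ℓ
    have h2 : ∑ i ∈ range ℓ, (t ^ N) ^ i = 0 := by
      rw [← hΦ]
      refine sum_congr rfl fun i _ => ?_
      rw [← pow_mul, mul_comm]
    rw [h2, zero_mul] at h1
    rw [mul_comm, pow_mul]
    exact (sub_eq_zero.1 h1.symm)
  have hT' : ∀ k, t ^ (ℓ * N * k) = 1 := fun k => by rw [pow_mul, hT, one_pow]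
  have hj := td05_H_pow h (ℓ ^ j)
  obtain ⟨y, hy⟩ := td05_S hℓ hj
  obtain ⟨e, k, hek⟩ := td05_solve hℓ n₀ n' y
  rw [← hN] at hek
  set U := u ^ ℓ ^ j with hU
  set Q' := q ^ ℓ ^ j with hQ'
  have hsemi : SemiconjBy U t (t ^ Q') := td05_semi hc (ℓ ^ j)
  have hpw : ∀ a : ℕ, U * t ^ a = t ^ (Q' * a) * U := by
    intro a
    have := (hsemi.pow_right a).eq
    rw [← pow_mul] at this
    exact this
  -- the powers of `t ^ e * U`
  have hpow : ∀ i : ℕ, (t ^ e * U) ^ i = t ^ (e * ∑ l ∈ range i, Q' ^ l) * U ^ i := by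
    intro i
    induction i with
    | zero => simp
    | succ i ih =>
      rw [pow_succ', ih, geom_sum_succ, mul_assoc, ← mul_assoc U, hpw, pow_succ' U, mul_assoc,
        ← mul_assoc (t ^ e), ← pow_add]
      congr 2
      ring
  obtain ⟨x, hx, -⟩ := hj
  have hcomm : Commute (t ^ N) (t ^ e * U) := by
    have h1 : U * t ^ N = t ^ N * U := by
      rw [hpw, hx]
      have : (1 + ℓ * x) * N = N + ℓ * N * x := by ring
      rw [this, pow_add, hT', mul_one]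
    unfold Commute SemiconjBy
    rw [← mul_assoc, ← pow_add, mul_assoc, h1, ← mul_assoc, ← pow_add, add_comm]
  have hfac := prod_sub_pow_comm hℓ (t ^ N) (t ^ e * U) hcomm (by
    rw [← hΦ]
    refine sum_congr rfl fun i _ => ?_
    rw [← pow_mul, mul_comm])
  refine ⟨e, (ℓ * N - 1) * e, ?_⟩
  have hfun : (fun c => t ^ e * (U - t ^ (N * c + (ℓ * N - 1) * e))) =
      fun c => t ^ e * U - (t ^ N) ^ c := by
    funext c
    rw [mul_sub, ← pow_mul, ← pow_add]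
    have h1 : 0 < ℓ * N := Nat.mul_pos hℓ.pos (pow_pos hℓ.pos _)
    obtain ⟨T, hT1⟩ := Nat.exists_eq_succ_of_ne_zero h1.ne'
    have h2 : e + (N * c + (ℓ * N - 1) * e) = N * c + ℓ * N * e := by
      rw [hT1, Nat.succ_sub_one, Nat.succ_eq_add_one]
      ring
    rw [h2, pow_add, hT', mul_one]
  rw [hfun, hfac, hpow, hy, mul_sub, mul_one, ← mul_assoc, ← pow_add, hek, hT', one_mul, hU,
    ← pow_mul, ← pow_succ]

end ring

section order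

variable {Q : Type*} [AddCommGroup Q]

/-- `b = (1 - t)^m a` with `a` not in `P` -/
def td05_Lev (t : AddMonoid.End Q) (P : AddSubgroup Q) (b : Q) : Prop :=
  ∃ (m : ℕ) (a : Q), a ∉ P ∧ b = ((1 - t) ^ m) a

lemma td05_add {t : AddMonoid.End Q} {P : AddSubgroup Q} (hP : ∀ a, a - t a ∈ P) {a : Q}
    (ha : a ∉ P) (w : Q) : a + (1 - t) w ∉ P := by
  intro h
  apply ha
  have h1 : (1 - t) w ∈ P := hP w
  have h2 := P.sub_mem h h1
  rwa [add_sub_cancel_right] at h2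

lemma td05_lev_pi {t : AddMonoid.End Q} {P : AddSubgroup Q} {b : Q} (h : td05_Lev t P b)
    (k : ℕ) : td05_Lev t P (((1 - t) ^ k) b) := by
  obtain ⟨m, a, ha, rfl⟩ := h
  refine ⟨k + m, a, ha, ?_⟩
  rw [pow_add]
  rfl

lemma td05_lev_t {t : AddMonoid.End Q} {P : AddSubgroup Q} (hP : ∀ a, a - t a ∈ P) {b : Q}
    (h : td05_Lev t P b) (i : ℕ) : td05_Lev t P ((t ^ i) b) := by
  obtain ⟨m, a, ha, rfl⟩ := h
  refine ⟨m, (t ^ i) a, ?_, ?_⟩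
  · obtain ⟨y, hy⟩ := td05_ts t 0 i
    rw [zero_add, pow_zero, sub_eq_iff_eq_add] at hy
    have h1 : (t ^ i) a = a + (1 - t) (-(((i : AddMonoid.End Q) + (1 - t) * y) a)) := by
      rw [hy, map_neg]
      change -((1 - t) (((i : AddMonoid.End Q) + (1 - t) * y) a)) + a = _
      abel
    rw [h1]
    exact td05_add hP ha _
  · have h1 : Commute (t ^ i) ((1 - t) ^ m) :=
      ((Commute.one_right _).sub_right ((Commute.refl t).pow_left i)).pow_right m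
    exact congrArg (fun f : AddMonoid.End Q => f a) h1.eq

lemma td05_claim {ℓ : ℕ} (hℓ : ℓ.Prime) (n₀ q : ℕ) (h : td05_H ℓ q)
    (t u : AddMonoid.End Q) (hc : u * t = t ^ q * u)
    (hΦ : ∑ j ∈ range ℓ, t ^ (j * ℓ ^ n₀) = 0) (w : AddMonoid.End Q) (hw : u - 1 = (1 - t) * w)
    (P : AddSubgroup Q) (hP : ∀ a, a - t a ∈ P)
    (hu : ∀ a, a ∉ P → ∀ n : ℕ, ∃ a', a' ∉ P ∧ u a - (t ^ n) a = a' - t a') (j : ℕ) :
    ∀ (n : ℕ) (b : Q), td05_Lev t P b → td05_Lev t P ((u ^ ℓ ^ j - t ^ n) b) := by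
  obtain ⟨K, hK⟩ := td05_kappa t hΦ
  -- the reduction to `a`
  have hred : ∀ (j n m : ℕ) (a : Q), td05_Lev t P
      (((∑ i ∈ range (q ^ ℓ ^ j), t ^ i) ^ m * u ^ ℓ ^ j - t ^ n) a) →
        td05_Lev t P ((u ^ ℓ ^ j - t ^ n) (((1 - t) ^ m) a)) := by
    intro j n m a ha
    have h1 : (u ^ ℓ ^ j - t ^ n) * (1 - t) ^ m =
        (1 - t) ^ m * ((∑ i ∈ range (q ^ ℓ ^ j), t ^ i) ^ m * u ^ ℓ ^ j - t ^ n) := by
      have h2 : Commute (t ^ n) ((1 - t) ^ m) :=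
        ((Commute.one_right _).sub_right ((Commute.refl t).pow_left n)).pow_right m
      rw [sub_mul, td05_upi hc, mul_sub, h2.eq]
    have h2 : (u ^ ℓ ^ j - t ^ n) (((1 - t) ^ m) a) = ((1 - t) ^ m)
        (((∑ i ∈ range (q ^ ℓ ^ j), t ^ i) ^ m * u ^ ℓ ^ j - t ^ n) a) :=
      congrArg (fun f : AddMonoid.End Q => f a) h1
    rw [h2]
    exact td05_lev_pi ha m
  induction j with
  | zero =>
    rintro n b ⟨m, a, ha, rfl⟩
    apply hred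
    rw [pow_zero, pow_one, pow_one]
    obtain ⟨s, Y, hY⟩ := td05_id0 hℓ hw hK h m n
    obtain ⟨a', ha', ha''⟩ := hu a ha (n + s)
    rw [hY]
    refine ⟨1, a' + (1 - t) (Y a), td05_add hP ha' _, ?_⟩
    rw [pow_one, map_add]
    have h1 : (u - t ^ (n + s)) a = (1 - t) a' := ha''
    rw [← h1]
    rfl
  | succ j ih =>
    intro n b hb
    by_cases hn : ℓ ∣ n
    · obtain ⟨n', rfl⟩ := hn
      obtain ⟨e, f, hef⟩ := td05_fact (j := j) hℓ hc hΦ h n'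
      rw [hef]
      have h1 : ∀ (l : List ℕ) (b : Q), td05_Lev t P b → td05_Lev t P
          ((l.map fun c => t ^ e * (u ^ ℓ ^ j - t ^ (ℓ ^ n₀ * c + f))).prod b) := by
        intro l
        induction l with
        | nil =>
          intro b hb
          rw [List.map_nil, List.prod_nil]
          exact hb
        | cons c l ihl =>
          intro b hb
          rw [List.map_cons, List.prod_cons]
          have h2 := td05_lev_t hP (ih (ℓ ^ n₀ * c + f) _ (ihl b hb)) e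
          exact h2
      exact td05_lev_t hP (h1 (List.range ℓ) b hb) (ℓ * n')
    · obtain ⟨m, a, ha, rfl⟩ := hb
      apply hred
      obtain ⟨Y, hY⟩ := td05_id1 (j := j) hℓ hc hw hK h m n
      rw [hY]
      have hna : n • a ∉ P := by
        intro hna
        apply ha
        have h1 : ℓ • a ∈ P := by
          have h2 : ℓ • a = (1 - t) (td05_v t K a) := by
            have h3 := congrArg (fun f : AddMonoid.End Q => f a) hK
            have h4 : ((ℓ : ℕ) : AddMonoid.End Q) a = ℓ • a := rfl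
            exact h4.symm.trans h3
          rw [h2]
          exact hP _
        have h3 : IsCoprime (ℓ : ℤ) (n : ℤ) :=
          Nat.isCoprime_iff_coprime.2 ((Nat.Prime.coprime_iff_not_dvd hℓ).2 hn)
        obtain ⟨x, y, hxy⟩ := h3
        have h4 : a = x • (ℓ • a) + y • (n • a) := by
          rw [← natCast_zsmul, ← natCast_zsmul, smul_smul, smul_smul, ← add_smul, hxy, one_smul]
        rw [h4]
        exact P.add_mem (P.zsmul_mem h1 x) (P.zsmul_mem hna y)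
      refine ⟨1, n • a + (1 - t) (Y a), td05_add hP hna _, ?_⟩
      rw [pow_one]
      rfl

theorem order_lemma {Q : Type*} [AddCommGroup Q] {ℓ : ℕ} (hℓ : ℓ.Prime) (n₀ q : ℕ)
    (hq0 : 0 < q) (hq1 : ℓ ∣ q - 1) (hq2 : ℓ ∣ q.choose 2)
    (t u : AddMonoid.End Q) (hc : u * t = t ^ q * u)
    (hΦ : ∑ j ∈ range ℓ, t ^ (j * ℓ ^ n₀) = 0) (hinj : ∀ a, a - t a = 0 → a = 0)
    (P : AddSubgroup Q) (hP : ∀ a, a - t a ∈ P) (hu1 : ∀ a, ∃ a', u a - a = a' - t a')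
    (hu : ∀ a, a ∉ P → ∀ n : ℕ, ∃ a', a' ∉ P ∧ u a - (t ^ n) a = a' - t a')
    (hfin : ∀ a, ∃ M : ℕ, 0 < M ∧ (u ^ M) a = a) : ∀ a, a ∈ P := by
  have h := td05_H_of hq0 hq1 hq2
  obtain ⟨K, hK⟩ := td05_kappa t hΦ
  -- the operator `w`
  obtain ⟨w, hw⟩ : ∃ w : AddMonoid.End Q, u - 1 = (1 - t) * w := by
    choose f hf using hu1
    have hinj' : ∀ a b, (1 - t) a = (1 - t) b → a = b := by
      intro a b hab
      have h1 : (1 - t) (a - b) = 0 := by rw [map_sub, hab, sub_self]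
      exact sub_eq_zero.1 (hinj _ h1)
    have hf' : ∀ a, u a - a = (1 - t) (f a) := hf
    refine ⟨AddMonoidHom.mk' f fun a b => ?_, ?_⟩
    · apply hinj'
      rw [map_add, ← hf', ← hf', ← hf', map_add]
      abel
    · ext a
      exact hf a
  intro a
  by_contra ha
  obtain ⟨M, hM0, hM⟩ := hfin a
  obtain ⟨j, M', hM', rfl⟩ := Nat.exists_eq_pow_mul_and_not_dvd hM0.ne' ℓ hℓ.ne_one
  have hM'a : M' • a ∉ P := by
    intro hna
    apply ha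
    have h1 : ℓ • a ∈ P := by
      have h2 : ℓ • a = (1 - t) (td05_v t K a) := by
        have h3 := congrArg (fun f : AddMonoid.End Q => f a) hK
        have h4 : ((ℓ : ℕ) : AddMonoid.End Q) a = ℓ • a := rfl
        exact h4.symm.trans h3
      rw [h2]
      exact hP _
    have h3 : IsCoprime (ℓ : ℤ) (M' : ℤ) :=
      Nat.isCoprime_iff_coprime.2 ((Nat.Prime.coprime_iff_not_dvd hℓ).2 hM')
    obtain ⟨x, y, hxy⟩ := h3
    have h4 : a = x • (ℓ • a) + y • (M' • a) := by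
      rw [← natCast_zsmul, ← natCast_zsmul, smul_smul, smul_smul, ← add_smul, hxy, one_smul]
    rw [h4]
    exact P.add_mem (P.zsmul_mem h1 x) (P.zsmul_mem hna y)
  -- `a₁ = ∑ X^c a`
  have h1 : ∀ c : ℕ, ∃ B : AddMonoid.End Q, (u ^ ℓ ^ j) ^ c = 1 + (1 - t) * B := by
    intro c
    rw [← pow_mul]
    exact td05_u1 hw _
  choose B hB using h1
  have h2 : (∑ c ∈ range M', (u ^ ℓ ^ j) ^ c) a = M' • a + (1 - t) ((∑ c ∈ range M', B c) a) := by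
    rw [sum_congr rfl fun c _ => hB c, sum_add_distrib, sum_const, card_range, ← mul_sum]
    rfl
  have h3 : (u ^ ℓ ^ j - t ^ 0) ((∑ c ∈ range M', (u ^ ℓ ^ j) ^ c) a) = 0 := by
    have h4 : (u ^ ℓ ^ j - t ^ 0) * (∑ c ∈ range M', (u ^ ℓ ^ j) ^ c) = u ^ (ℓ ^ j * M') - 1 := by
      rw [pow_zero, mul_geom_sum, ← pow_mul]
    have h5 := congrArg (fun f : AddMonoid.End Q => f a) h4
    refine h5.trans ?_
    change (u ^ (ℓ ^ j * M')) a - a = 0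
    rw [hM, sub_self]
  have hL : td05_Lev t P ((∑ c ∈ range M', (u ^ ℓ ^ j) ^ c) a) := by
    rw [h2]
    exact ⟨0, _, td05_add hP hM'a _, rfl⟩
  have h4 := td05_claim hℓ n₀ q h t u hc hΦ w hw P hP hu j 0 _ hL
  rw [h3] at h4
  obtain ⟨m, a', ha', h0⟩ := h4
  have h5 : ∀ (m : ℕ) (a' : Q), ((1 - t) ^ m) a' = 0 → a' = 0 := by
    intro m
    induction m with
    | zero => intro a' h; exact h
    | succ m ih =>
      intro a' h
      rw [pow_succ] at h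
      exact hinj _ (ih _ h)
  rw [h5 m a' h0.symm] at ha'
  exact ha' P.zero_mem

end order

end Pool.Agent.Lib.MP_89bcae_ag.Sup

end

section

/-!
The killing lemma.
-/

open Finset

namespace Pool.Agent.Lib.MP_89bcae_ag.Sup

theorem td03_sub {Q : Type*} [AddCommGroup Q] (f : AddMonoid.End Q) (a : Q) : (1 - f) a = a - f a := rfl

theorem td03_mul {Q : Type*} [AddCommGroup Q] (f g : AddMonoid.End Q) (a : Q) : (f * g) a = f (g a) := rfl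

theorem td03_pow_fix {Q : Type*} [AddCommGroup Q] (f : AddMonoid.End Q) (a : Q) (h : f a = a) (n : ℕ) :
    (f ^ n) a = a := by
  induction n with
  | zero => rfl
  | succ n ih => rw [pow_succ, td03_mul, h, ih]

theorem td03_geom {Q : Type*} [AddCommGroup Q] (x : AddMonoid.End Q) (n : ℕ) (y : Q) :
    y - (x ^ n) y = (∑ i ∈ range n, x ^ i) y - x ((∑ i ∈ range n, x ^ i) y) := by
  have h := mul_neg_geom_sum x n
  have h2 : ((1 - x) * ∑ i ∈ range n, x ^ i) y = (1 - x ^ n) y := by rw [h]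
  rw [td03_mul, td03_sub, td03_sub] at h2
  exact h2.symm

theorem td03_perm {R : Type*} [Ring R] (ℓ b b' : ℕ) (hℓ : 0 < ℓ) (hbb : b * b' ≡ 1 [MOD ℓ]) (z : R)
    (hz1 : z ^ ℓ = 1) : ∑ j ∈ range ℓ, z ^ (b * j) = ∑ i ∈ range ℓ, z ^ i := by
  have hmod : ∀ n : ℕ, z ^ (n % ℓ) = z ^ n := by
    intro n
    conv_rhs => rw [← Nat.mod_add_div n ℓ]
    rw [pow_add, pow_mul, hz1, one_pow, mul_one]
  refine Finset.sum_nbij' (fun j => (b * j) % ℓ) (fun i => (b' * i) % ℓ) ?_ ?_ ?_ ?_ ?_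
  · intro j _
    exact mem_range.mpr (Nat.mod_lt _ hℓ)
  · intro j _
    exact mem_range.mpr (Nat.mod_lt _ hℓ)
  · intro j hj
    have hj' := mem_range.mp hj
    have h1 : b' * (b * j % ℓ) ≡ j [MOD ℓ] := by
      calc b' * (b * j % ℓ) ≡ b' * (b * j) [MOD ℓ] := (Nat.mod_modEq _ _).mul_left _
        _ = (b * b') * j := by ring
        _ ≡ 1 * j [MOD ℓ] := hbb.mul_right _
        _ = j := one_mul j
    change b' * (b * j % ℓ) % ℓ = j
    rw [h1, Nat.mod_eq_of_lt hj']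
  · intro j hj
    have hj' := mem_range.mp hj
    have h1 : b * (b' * j % ℓ) ≡ j [MOD ℓ] := by
      calc b * (b' * j % ℓ) ≡ b * (b' * j) [MOD ℓ] := (Nat.mod_modEq _ _).mul_left _
        _ = (b * b') * j := by ring
        _ ≡ 1 * j [MOD ℓ] := hbb.mul_right _
        _ = j := one_mul j
    change b * (b' * j % ℓ) % ℓ = j
    rw [h1, Nat.mod_eq_of_lt hj']
  · intro j _
    exact (hmod (b * j)).symm

theorem kill_lemma {Q : Type*} [AddCommGroup Q] {ℓ : ℕ} (hℓ : ℓ.Prime) (n₀ b : ℕ)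
    (hb : ¬ ℓ ∣ b) (t z : AddMonoid.End Q) (hc : t * z = z * t)
    (hz : ∑ i ∈ range ℓ, z ^ i = 0) (heig : t ^ ℓ ^ n₀ = z ^ b)
    (hinj : ∀ a, a - z a = 0 → a = 0)
    (hsep : ∀ a, (∀ n : ℕ, ∃ y, a = ((1 - z) ^ n) y) → a = 0)
    {ι : Type*} (P : ι → AddSubgroup Q) (hP : ∀ i a, a - t a ∈ P i)
    (q : ι → ℕ) (hq0 : ∀ i, 0 < q i) (hq1 : ∀ i, ℓ ∣ q i - 1) (hq2 : ∀ i, ℓ ∣ (q i).choose 2)
    (u : ι → AddMonoid.End Q) (hut : ∀ i, u i * t = t ^ q i * u i)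
    (hu1 : ∀ i a, ∃ a', u i a - a = a' - t a')
    (hu : ∀ i a, a ∉ P i → ∀ n : ℕ, ∃ a', a' ∉ P i ∧ u i a - (t ^ n) a = a' - t a')
    (hfin : ∀ i a, ∃ M : ℕ, 0 < M ∧ (u i ^ M) a = a)
    (hdiv : ∀ a, (∀ i, a ∈ P i) → ∃ y, ((1 - t) ^ (ℓ ^ n₀ - 1)) a = y - z y) :
    ∀ a : Q, a = 0 := by
  have hz1 : z ^ ℓ = 1 := by
    have h := mul_neg_geom_sum z ℓ
    rw [hz, mul_zero] at h
    exact (sub_eq_zero.mp h.symm).symm
  obtain ⟨b', hbb⟩ : ∃ b', b * b' ≡ 1 [MOD ℓ] := by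
    have hco : Nat.Coprime b ℓ := ((Nat.Prime.coprime_iff_not_dvd hℓ).mpr hb).symm
    obtain ⟨m, hm⟩ := Nat.exists_mul_mod_eq_one_of_coprime hco hℓ.one_lt
    refine ⟨m, ?_⟩
    change b * m % ℓ = 1 % ℓ
    rw [hm.2, Nat.mod_eq_of_lt hℓ.one_lt]
  have hzb : z ^ (b * b') = z := by
    have h1 : z ^ (b * b') = z ^ ((b * b') % ℓ) := by
      conv_lhs => rw [← Nat.mod_add_div (b * b') ℓ]
      rw [pow_add, pow_mul, hz1, one_pow, mul_one]
    rw [h1, hbb, Nat.mod_eq_of_lt hℓ.one_lt, pow_one]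
  have htz : (t ^ ℓ ^ n₀) ^ b' = z := by
    rw [heig, ← pow_mul, hzb]
  have hΦ : ∑ j ∈ range ℓ, t ^ (j * ℓ ^ n₀) = 0 := by
    rw [← hz, ← td03_perm ℓ b b' hℓ.pos hbb z hz1]
    refine Finset.sum_congr rfl (fun j _ => ?_)
    rw [mul_comm j, pow_mul, heig, ← pow_mul]
  have hinj' : ∀ a, a - t a = 0 → a = 0 := by
    intro a ha
    have h1 : t a = a := (sub_eq_zero.mp ha).symm
    have h2 : (t ^ ℓ ^ n₀) a = a := td03_pow_fix t a h1 _
    have h3 : ((t ^ ℓ ^ n₀) ^ b') a = a := td03_pow_fix _ a h2 _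
    rw [htz] at h3
    exact hinj a (by rw [h3, sub_self])
  have hall : ∀ i a, a ∈ P i := fun i =>
    order_lemma hℓ n₀ (q i) (hq0 i) (hq1 i) (hq2 i) t (u i) (hut i) hΦ hinj' (P i) (hP i) (hu1 i)
      (hu i) (hfin i)
  have hsurj : ∀ a, ∃ a', a = (1 - t) a' := by
    intro a
    obtain ⟨y, hy⟩ := hdiv a (fun i => hall i a)
    have h1 : y - z y = (∑ i ∈ range b', (t ^ ℓ ^ n₀) ^ i) y -
        (t ^ ℓ ^ n₀) ((∑ i ∈ range b', (t ^ ℓ ^ n₀) ^ i) y) := by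
      rw [← td03_geom, htz]
    rw [h1] at hy
    obtain ⟨a', ha'⟩ := div_lemma hℓ n₀ t hΦ hinj' hy.symm
    exact ⟨a', ha'⟩
  have hsurjn : ∀ (n : ℕ) (a : Q), ∃ a', a = ((1 - t) ^ n) a' := by
    intro n
    induction n with
    | zero => exact fun a => ⟨a, rfl⟩
    | succ n ih =>
      intro a
      obtain ⟨a1, h1⟩ := ih a
      obtain ⟨a2, h2⟩ := hsurj a1
      exact ⟨a2, by rw [pow_succ, td03_mul, ← h2, h1]⟩
  have hzs : ∀ a, ∃ w, a = (1 - z) w := by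
    intro a
    obtain ⟨x, hx⟩ := hsurjn (ℓ ^ n₀) a
    obtain ⟨x', hx'⟩ := pw_lemma hℓ n₀ t hΦ x
    refine ⟨(∑ i ∈ range b, z ^ i) x', ?_⟩
    rw [hx, hx', td03_sub, ← td03_geom, heig]
  have hzsn : ∀ (n : ℕ) (a : Q), ∃ a', a = ((1 - z) ^ n) a' := by
    intro n
    induction n with
    | zero => exact fun a => ⟨a, rfl⟩
    | succ n ih =>
      intro a
      obtain ⟨a1, h1⟩ := ih a
      obtain ⟨a2, h2⟩ := hzs a1
      exact ⟨a2, by rw [pow_succ, td03_mul, ← h2, h1]⟩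
  exact fun a => hsep a (fun n => hzsn n a)

end Pool.Agent.Lib.MP_89bcae_ag.Sup

end
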