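import Mathlib
import Pool.Agent.Lib.MP_89bcae_ag.Rk.K048

open Finset

namespace Pool.Agent.Lib.MP_89bcae_ag.Sup

theorem td04_mul_app {Q : Type*} [AddCommGroup Q] (F G : AddMonoid.End Q) (x : Q) :
    (F * G) x = F (G x) := rfl

theorem td04_one_app {Q : Type*} [AddCommGroup Q] (x : Q) : (1 : AddMonoid.End Q) x = x := rfl

theorem td04_add_app {Q : Type*} [AddCommGroup Q] (F G : AddMonoid.End Q) (x : Q) :
    (F + G) x = F x + G x := rfl

theorem td04_sub_app {Q : Type*} [AddCommGroup Q] (F G : AddMonoid.End Q) (x : Q) :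
    (F - G) x = F x - G x := rfl

theorem td04_comm {R : Type*} [Ring R] (t u : R) (q : ℕ) (hut : u * t = t ^ q * u) (m : ℕ) :
    u * (1 - t) ^ m = (1 - t) ^ m * ((∑ i ∈ range q, t ^ i) ^ m * u) := by
  generalize hE : (∑ i ∈ range q, t ^ i) = E
  have hEt : Commute t E := by
    rw [← hE]
    exact Commute.sum_right _ _ _ fun i _ => Commute.pow_right (Commute.refl _) i
  have hE1 : Commute (1 - t) E := Commute.sub_left (Commute.one_left _) hEt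
  have hu1 : u * (1 - t) = (1 - t) * E * u := by
    rw [mul_sub, mul_one, hut, ← hE, mul_neg_geom_sum, sub_mul, one_mul]
  induction m with
  | zero => rw [pow_zero, pow_zero, one_mul, one_mul, mul_one]
  | succ m ih =>
    have h1 : E ^ m * ((1 - t) * E * u) = (1 - t) * (E ^ (m + 1) * u) := by
      rw [← mul_assoc, ← mul_assoc, ← (hE1.pow_right m).eq, mul_assoc (1 - t), ← pow_succ,
        mul_assoc]
    rw [pow_succ, ← mul_assoc, ih, mul_assoc, mul_assoc, hu1, h1, mul_assoc]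

section Rel

variable {A : Type*} [AddCommGroup A]

/-- the quotient of `W` by `T` -/
abbrev Td04Q (W T : AddSubgroup A) : Type _ := W ⧸ T.addSubgroupOf W

variable (W T : AddSubgroup A)

/-- the class of an element of `W` -/
def td04_mk (a : A) (ha : a ∈ W) : Td04Q W T := QuotientAddGroup.mk ⟨a, ha⟩

variable {W T}

theorem td04_zero {a : A} {ha : a ∈ W} : td04_mk W T a ha = 0 ↔ a ∈ T := by
  unfold td04_mk
  rw [QuotientAddGroup.eq_zero_iff, AddSubgroup.mem_addSubgroupOf]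

theorem td04_sub {a b : A} {ha : a ∈ W} {hb : b ∈ W} :
    td04_mk W T a ha - td04_mk W T b hb = td04_mk W T (a - b) (W.sub_mem ha hb) := rfl

theorem td04_add {a b : A} {ha : a ∈ W} {hb : b ∈ W} :
    td04_mk W T a ha + td04_mk W T b hb = td04_mk W T (a + b) (W.add_mem ha hb) := rfl

theorem td04_smul {a : A} {ha : a ∈ W} (s : ℤ) :
    s • td04_mk W T a ha = td04_mk W T (s • a) (W.zsmul_mem ha s) := rfl

theorem td04_eq {a b : A} {ha : a ∈ W} {hb : b ∈ W} :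
    td04_mk W T a ha = td04_mk W T b hb ↔ a - b ∈ T := by
  rw [← sub_eq_zero, td04_sub, td04_zero]

theorem td04_surj (x : Td04Q W T) : ∃ a, ∃ ha : a ∈ W, x = td04_mk W T a ha := by
  induction x using QuotientAddGroup.induction_on with
  | H a => exact ⟨a.1, a.2, rfl⟩

/-- the endomorphism `F` of the quotient is induced by the map `f` -/
def Td04I (F : AddMonoid.End (Td04Q W T)) (f : A → A) : Prop :=
  ∀ a (ha : a ∈ W), ∃ h : f a ∈ W, F (td04_mk W T a ha) = td04_mk W T (f a) h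

/-- the induced endomorphism -/
def td04_bar (f : A →+ A) (fW : ∀ a ∈ W, f a ∈ W) (fT : ∀ a ∈ T, f a ∈ T) :
    AddMonoid.End (Td04Q W T) :=
  QuotientAddGroup.map _ _ ((f.comp W.subtype).codRestrict W fun a => fW a a.2) (by
    intro a ha
    rw [AddSubgroup.mem_comap, AddSubgroup.mem_addSubgroupOf]
    rw [AddSubgroup.mem_addSubgroupOf] at ha
    exact fT _ ha)

theorem td04_bar_I (f : A →+ A) (fW : ∀ a ∈ W, f a ∈ W) (fT : ∀ a ∈ T, f a ∈ T) :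
    Td04I (td04_bar f fW fT) f := fun a ha => ⟨fW a ha, rfl⟩

theorem Td04I.mul {F G : AddMonoid.End (Td04Q W T)} {f g : A → A} (hF : Td04I F f)
    (hG : Td04I G g) : Td04I (F * G) (fun x => f (g x)) := by
  intro a ha
  obtain ⟨h1, h2⟩ := hG a ha
  obtain ⟨h3, h4⟩ := hF _ h1
  exact ⟨h3, by rw [td04_mul_app, h2, h4]⟩

theorem Td04I.pow {F : AddMonoid.End (Td04Q W T)} {f : A → A} (hF : Td04I F f) (n : ℕ) :
    Td04I (F ^ n) (f^[n]) := by
  induction n with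
  | zero => exact fun a ha => ⟨ha, rfl⟩
  | succ n ih =>
    intro a ha
    obtain ⟨h1, h2⟩ := hF a ha
    obtain ⟨h3, h4⟩ := ih _ h1
    refine ⟨by rw [Function.iterate_succ_apply]; exact h3, ?_⟩
    rw [pow_succ, td04_mul_app, h2, h4]
    rfl

theorem Td04I.one_sub {F : AddMonoid.End (Td04Q W T)} {f : A → A} (hF : Td04I F f) :
    Td04I (1 - F) (fun x => x - f x) := by
  intro a ha
  obtain ⟨h1, h2⟩ := hF a ha
  refine ⟨W.sub_mem ha h1, ?_⟩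
  rw [td04_sub_app, td04_one_app, h2]
  rfl

theorem Td04I.sum {F : ℕ → AddMonoid.End (Td04Q W T)} {f : ℕ → A → A} (n : ℕ)
    (hF : ∀ i, Td04I (F i) (f i)) :
    Td04I (∑ i ∈ range n, F i) (fun x => ∑ i ∈ range n, f i x) := by
  intro a ha
  induction n with
  | zero => exact ⟨by simp [W.zero_mem], by simp; rfl⟩
  | succ n ih =>
    obtain ⟨h1, h2⟩ := ih
    obtain ⟨h3, h4⟩ := hF n a ha
    have h5 : ∑ i ∈ range (n + 1), f i a = ∑ i ∈ range n, f i a + f n a := sum_range_succ _ _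
    have h6 : ∑ i ∈ range (n + 1), f i a ∈ W := by
      rw [h5]
      exact W.add_mem h1 h3
    refine ⟨h6, ?_⟩
    rw [sum_range_succ, td04_add_app, h2, h4, td04_add, td04_eq]
    show ∑ i ∈ range n, f i a + f n a - ∑ i ∈ range (n + 1), f i a ∈ T
    rw [h5, sub_self]
    exact T.zero_mem

/-- equality of endomorphisms -/
theorem Td04I.ext {F G : AddMonoid.End (Td04Q W T)} {f g : A → A} (hF : Td04I F f)
    (hG : Td04I G g) (h : ∀ a ∈ W, f a - g a ∈ T) : F = G := by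
  refine DFunLike.ext _ _ fun x => ?_
  obtain ⟨a, ha, rfl⟩ := td04_surj x
  obtain ⟨h1, h2⟩ := hF a ha
  obtain ⟨h3, h4⟩ := hG a ha
  exact h2.trans ((td04_eq.2 (h a ha)).trans h4.symm)

theorem td04_zero_I : Td04I (0 : AddMonoid.End (Td04Q W T)) (fun _ => 0) :=
  fun _ _ => ⟨W.zero_mem, rfl⟩

/-! ### Formulas for endomorphisms -/

theorem td04_pow_one {Q : Type*} [AddCommGroup Q] {ℓ : ℕ} (z : AddMonoid.End Q)
    (hz : ∑ i ∈ range ℓ, z ^ i = 0) : z ^ ℓ = 1 := by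
  have h := mul_neg_geom_sum z ℓ
  rw [hz, mul_zero] at h
  exact (sub_eq_zero.1 h.symm).symm

theorem td04_pow_mod {Q : Type*} [AddCommGroup Q] {ℓ : ℕ} (z : AddMonoid.End Q)
    (h1 : z ^ ℓ = 1) (m : ℕ) : z ^ m = z ^ (m % ℓ) := by
  conv_lhs => rw [← Nat.mod_add_div m ℓ, pow_add, pow_mul, h1, one_pow, mul_one]

theorem td04_inv {ℓ : ℕ} (hℓ : ℓ.Prime) {b : ℕ} (hb : ¬ ℓ ∣ b) :
    ∃ b' : ℕ, b * b' % ℓ = 1 % ℓ := by
  have hc : Nat.Coprime b ℓ := ((Nat.Prime.coprime_iff_not_dvd hℓ).2 hb).symm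
  obtain ⟨b', -, h⟩ := Nat.exists_mul_mod_eq_one_of_coprime hc hℓ.one_lt
  exact ⟨b', by rw [h, Nat.mod_eq_of_lt hℓ.one_lt]⟩

/-- the sum of the powers of `z ^ b` vanishes -/
theorem td04_phi {Q : Type*} [AddCommGroup Q] {ℓ : ℕ} (hℓ : ℓ.Prime) (n₀ b : ℕ)
    (hb : ¬ ℓ ∣ b) (t z : AddMonoid.End Q)
    (hz : ∑ i ∈ range ℓ, z ^ i = 0) (heig : t ^ ℓ ^ n₀ = z ^ b) :
    ∑ j ∈ range ℓ, t ^ (j * ℓ ^ n₀) = 0 := by
  have h1 := td04_pow_one z hz
  have h2 : ∀ j, t ^ (j * ℓ ^ n₀) = z ^ (b * j % ℓ) := by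
    intro j
    rw [mul_comm, pow_mul, heig, ← pow_mul, td04_pow_mod z h1]
  rw [sum_congr rfl fun j _ => h2 j, ← hz]
  refine sum_nbij (fun j => b * j % ℓ) ?_ ?_ ?_ fun _ _ => rfl
  · intro j _
    exact mem_range.2 (Nat.mod_lt _ hℓ.pos)
  · intro i hi j hj hij
    rw [coe_range, Set.mem_Iio] at hi hj
    have hc : Nat.Coprime ℓ b := (Nat.Prime.coprime_iff_not_dvd hℓ).2 hb
    have h3 : i ≡ j [MOD ℓ] := Nat.ModEq.cancel_left_of_coprime hc hij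
    exact Nat.ModEq.eq_of_lt_of_lt h3 hi hj
  · intro i hi
    obtain ⟨b', hb'⟩ := td04_inv hℓ hb
    rw [coe_range, Set.mem_Iio] at hi
    refine ⟨b' * i % ℓ, ?_, ?_⟩
    · rw [coe_range, Set.mem_Iio]
      exact Nat.mod_lt _ hℓ.pos
    · have h3 : b * (b' * i % ℓ) ≡ i [MOD ℓ] := by
        calc b * (b' * i % ℓ) ≡ b * (b' * i) [MOD ℓ] := (Nat.mod_modEq _ _).mul_left b
          _ = b * b' * i := by ring
          _ ≡ 1 * i [MOD ℓ] := Nat.ModEq.mul_right i hb'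
          _ = i := one_mul i
      have h4 : b * (b' * i % ℓ) % ℓ = i % ℓ := h3
      show b * (b' * i % ℓ) % ℓ = i
      rw [h4, Nat.mod_eq_of_lt hi]

/-- `1 - x ^ m` in terms of `1 - x` -/
theorem td04_geom {Q : Type*} [AddCommGroup Q] (x : AddMonoid.End Q) (m : ℕ) (y : Q) :
    y - (x ^ m) y = (∑ c ∈ range m, x ^ c) y - x ((∑ c ∈ range m, x ^ c) y) := by
  have h := mul_neg_geom_sum x m
  have h1 := congrArg (fun f : AddMonoid.End Q => f y) h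
  simp only [td04_mul_app, td04_sub_app, td04_one_app] at h1
  exact h1.symm

theorem td04_inj {Q : Type*} [AddCommGroup Q] {ℓ : ℕ} (hℓ : ℓ.Prime) (n₀ b : ℕ)
    (hb : ¬ ℓ ∣ b) (t z : AddMonoid.End Q)
    (hz : ∑ i ∈ range ℓ, z ^ i = 0) (heig : t ^ ℓ ^ n₀ = z ^ b)
    (hinj : ∀ a, a - z a = 0 → a = 0) : ∀ a, a - t a = 0 → a = 0 := by
  intro a ha
  have h0 : t a = a := (sub_eq_zero.1 ha).symm
  have h1 : ∀ m, (t ^ m) a = a := by
    intro m
    induction m with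
    | zero => rfl
    | succ m ih => rw [pow_succ, td04_mul_app, h0, ih]
  obtain ⟨b', hb'⟩ := td04_inv hℓ hb
  have h2 : z = t ^ (ℓ ^ n₀ * b') := by
    rw [pow_mul, heig, ← pow_mul, td04_pow_mod z (td04_pow_one z hz), hb',
      ← td04_pow_mod z (td04_pow_one z hz), pow_one]
  apply hinj
  have h3 : z a = a := by
    conv_lhs => rw [h2]
    exact h1 _
  rw [h3, sub_self]

end Rel

theorem kill_rel {A : Type*} [AddCommGroup A] {ℓ : ℕ} (hℓ : ℓ.Prime) (n₀ b : ℕ)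
    (hb : ¬ ℓ ∣ b) (W T : AddSubgroup A) (hTW : T ≤ W) (t z : A →+ A)
    (tW : ∀ a ∈ W, t a ∈ W) (tT : ∀ a ∈ T, t a ∈ T) (zW : ∀ a ∈ W, z a ∈ W)
    (zT : ∀ a ∈ T, z a ∈ T) (hzt : ∀ a ∈ W, t (z a) - z (t a) ∈ T)
    (hz : ∀ a ∈ W, ∑ i ∈ range ℓ, z^[i] a ∈ T)
    (heig : ∀ a ∈ W, t^[ℓ ^ n₀] a - z^[b] a ∈ T)
    (hinj : ∀ a ∈ W, a - z a ∈ T → a ∈ T)
    (hsep : ∀ a ∈ W, (∀ n : ℕ, ∃ y ∈ W, a - (fun x => x - z x)^[n] y ∈ T) → a ∈ T)
    {ι : Type*} (P : ι → AddSubgroup A) (TP : ∀ i, T ≤ P i)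
    (hP : ∀ i, ∀ a ∈ W, a - t a ∈ P i)
    (q : ι → ℕ) (hq0 : ∀ i, 0 < q i) (hq1 : ∀ i, ℓ ∣ q i - 1) (hq2 : ∀ i, ℓ ∣ (q i).choose 2)
    (u : ι → A →+ A) (uW : ∀ i, ∀ a ∈ W, u i a ∈ W)
    (uT : ∀ i, ∀ a ∈ T, u i a ∈ T) (hut : ∀ i, ∀ a ∈ W, u i (t a) - t^[q i] (u i a) ∈ T)
    (hu1 : ∀ i, ∀ a ∈ W, ∃ a' ∈ W, u i a - a - (a' - t a') ∈ T)
    (hu : ∀ i, ∀ a ∈ W, a ∉ P i → ∀ n : ℕ, ∃ a' ∈ W, a' ∉ P i ∧
      u i a - t^[n] a - (a' - t a') ∈ T)
    (hfin : ∀ i, ∀ a ∈ W, ∃ M : ℕ, 0 < M ∧ (u i)^[M] a - a ∈ T)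
    (hdiv : ∀ a ∈ W, (∀ i, a ∈ P i) →
      ∃ y ∈ W, (fun x => x - t x)^[ℓ ^ n₀ - 1] a - (y - z y) ∈ T) :
    ∀ a ∈ W, a ∈ T := by
  have It := td04_bar_I t tW tT
  have Iz := td04_bar_I z zW zT
  have Iu := fun i => td04_bar_I (u i) (uW i) (uT i)
  have hc : td04_bar t tW tT * td04_bar z zW zT = td04_bar z zW zT * td04_bar t tW tT :=
    (It.mul Iz).ext (Iz.mul It) hzt
  have hz' : ∑ i ∈ range ℓ, td04_bar z zW zT ^ i = 0 :=
    (Td04I.sum ℓ fun i => Iz.pow i).ext td04_zero_I fun a ha => by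
      rw [sub_zero]
      exact hz a ha
  have heig' : td04_bar t tW tT ^ ℓ ^ n₀ = td04_bar z zW zT ^ b :=
    (It.pow _).ext (Iz.pow _) heig
  let PP : ι → AddSubgroup (Td04Q W T) := fun i =>
    ((P i).addSubgroupOf W).map (QuotientAddGroup.mk' (T.addSubgroupOf W))
  have hPP : ∀ i a (ha : a ∈ W), td04_mk W T a ha ∈ PP i ↔ a ∈ P i := by
    intro i a ha
    constructor
    · rintro ⟨w, hw, hwa⟩
      have h1 : td04_mk W T w.1 w.2 = td04_mk W T a ha := hwa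
      rw [td04_eq] at h1
      have h2 := TP i h1
      have h3 : (w : A) ∈ P i := hw
      have h4 : a = w - (w - a) := by abel
      rw [h4]
      exact (P i).sub_mem h3 h2
    · intro h
      exact ⟨⟨a, ha⟩, h, rfl⟩
  have hmain := kill_lemma (Q := Td04Q W T) hℓ n₀ b hb (td04_bar t tW tT) (td04_bar z zW zT) hc hz' heig'
    (by
      intro x hx
      obtain ⟨a, ha, rfl⟩ := td04_surj x
      have hx' : td04_mk W T (a - z a) (W.sub_mem ha (zW a ha)) = 0 := hx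
      rw [td04_zero] at hx' ⊢
      exact hinj a ha hx')
    (by
      intro x hx
      obtain ⟨a, ha, rfl⟩ := td04_surj x
      rw [td04_zero]
      refine hsep a ha fun n => ?_
      obtain ⟨y, hy⟩ := hx n
      obtain ⟨y, hyW, rfl⟩ := td04_surj y
      obtain ⟨h1, h2⟩ := (Iz.one_sub.pow n) y hyW
      rw [h2, td04_eq] at hy
      exact ⟨y, hyW, hy⟩)
    PP
    (by
      intro i x
      obtain ⟨a, ha, rfl⟩ := td04_surj x
      exact (hPP i _ (W.sub_mem ha (tW a ha))).2 (hP i a ha))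
    q hq0 hq1 hq2 (fun i => td04_bar (u i) (uW i) (uT i))
    (fun i => ((Iu i).mul It).ext ((It.pow (q i)).mul (Iu i)) (hut i))
    (by
      intro i x
      obtain ⟨a, ha, rfl⟩ := td04_surj x
      obtain ⟨a', ha', h⟩ := hu1 i a ha
      refine ⟨td04_mk W T a' ha', ?_⟩
      exact (td04_eq (ha := W.sub_mem (uW i a ha) ha) (hb := W.sub_mem ha' (tW a' ha'))).2 h)
    (by
      intro i x hx n
      obtain ⟨a, ha, rfl⟩ := td04_surj x
      have ha1 : a ∉ P i := fun h => hx ((hPP i a ha).2 h)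
      obtain ⟨a', ha', hP', h⟩ := hu i a ha ha1 n
      refine ⟨td04_mk W T a' ha', fun h' => hP' ((hPP i a' ha').1 h'), ?_⟩
      obtain ⟨h1, h2⟩ := (It.pow n) a ha
      rw [h2]
      exact (td04_eq (ha := W.sub_mem (uW i a ha) h1) (hb := W.sub_mem ha' (tW a' ha'))).2 h)
    (by
      intro i x
      obtain ⟨a, ha, rfl⟩ := td04_surj x
      obtain ⟨M, hM, h⟩ := hfin i a ha
      refine ⟨M, hM, ?_⟩
      obtain ⟨h1, h2⟩ := ((Iu i).pow M) a ha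
      rw [h2, td04_eq]
      exact h)
    (by
      intro x hx
      obtain ⟨a, ha, rfl⟩ := td04_surj x
      obtain ⟨y, hy, h⟩ := hdiv a ha fun i => (hPP i a ha).1 (hx i)
      refine ⟨td04_mk W T y hy, ?_⟩
      obtain ⟨h1, h2⟩ := (It.one_sub.pow (ℓ ^ n₀ - 1)) a ha
      rw [h2]
      exact (td04_eq (ha := h1) (hb := W.sub_mem hy (zW y hy))).2 h)
  intro a ha
  exact td04_zero.1 (hmain (td04_mk W T a ha))

theorem pw_rel {A : Type*} [AddCommGroup A] {ℓ : ℕ} (hℓ : ℓ.Prime) (n₀ b : ℕ)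
    (hb : ¬ ℓ ∣ b) (W T : AddSubgroup A) (hTW : T ≤ W) (t z : A →+ A)
    (tW : ∀ a ∈ W, t a ∈ W) (tT : ∀ a ∈ T, t a ∈ T) (zW : ∀ a ∈ W, z a ∈ W)
    (zT : ∀ a ∈ T, z a ∈ T) (hzt : ∀ a ∈ W, t (z a) - z (t a) ∈ T)
    (hz : ∀ a ∈ W, ∑ i ∈ range ℓ, z^[i] a ∈ T)
    (heig : ∀ a ∈ W, t^[ℓ ^ n₀] a - z^[b] a ∈ T) :
    ∀ a ∈ W, ∃ y ∈ W, (fun x => x - t x)^[ℓ ^ n₀] a - (y - z y) ∈ T := by
  have It := td04_bar_I t tW tT
  have Iz := td04_bar_I z zW zT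
  have hz' : ∑ i ∈ range ℓ, td04_bar z zW zT ^ i = 0 :=
    (Td04I.sum ℓ fun i => Iz.pow i).ext td04_zero_I fun a ha => by
      rw [sub_zero]
      exact hz a ha
  have heig' : td04_bar t tW tT ^ ℓ ^ n₀ = td04_bar z zW zT ^ b :=
    (It.pow _).ext (Iz.pow _) heig
  have hΦ := td04_phi hℓ n₀ b hb _ _ hz' heig'
  intro a ha
  obtain ⟨x, hx⟩ := pw_lemma hℓ n₀ (td04_bar t tW tT) hΦ (td04_mk W T a ha)
  rw [heig', td04_geom] at hx
  obtain ⟨y, hy, hy'⟩ := td04_surj ((∑ c ∈ range b, td04_bar z zW zT ^ c) x)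
  obtain ⟨h1, h2⟩ := (It.one_sub.pow (ℓ ^ n₀)) a ha
  rw [hy', h2] at hx
  exact ⟨y, hy, (td04_eq (ha := h1) (hb := W.sub_mem hy (zW y hy))).1 hx⟩

theorem div_rel {A : Type*} [AddCommGroup A] {ℓ : ℕ} (hℓ : ℓ.Prime) (n₀ b : ℕ)
    (hb : ¬ ℓ ∣ b) (W T : AddSubgroup A) (hTW : T ≤ W) (t z : A →+ A)
    (tW : ∀ a ∈ W, t a ∈ W) (tT : ∀ a ∈ T, t a ∈ T) (zW : ∀ a ∈ W, z a ∈ W)
    (zT : ∀ a ∈ T, z a ∈ T) (hzt : ∀ a ∈ W, t (z a) - z (t a) ∈ T)
    (hz : ∀ a ∈ W, ∑ i ∈ range ℓ, z^[i] a ∈ T)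
    (heig : ∀ a ∈ W, t^[ℓ ^ n₀] a - z^[b] a ∈ T)
    (hinj : ∀ a ∈ W, a - z a ∈ T → a ∈ T) :
    ∀ a ∈ W, (∃ y ∈ W, (fun x => x - t x)^[ℓ ^ n₀ - 1] a - (y - z y) ∈ T) →
      ∃ a' ∈ W, a - (a' - t a') ∈ T := by
  have It := td04_bar_I t tW tT
  have Iz := td04_bar_I z zW zT
  have hz' : ∑ i ∈ range ℓ, td04_bar z zW zT ^ i = 0 :=
    (Td04I.sum ℓ fun i => Iz.pow i).ext td04_zero_I fun a ha => by
      rw [sub_zero]
      exact hz a ha
  have heig' : td04_bar t tW tT ^ ℓ ^ n₀ = td04_bar z zW zT ^ b :=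
    (It.pow _).ext (Iz.pow _) heig
  have hΦ := td04_phi hℓ n₀ b hb _ _ hz' heig'
  have hinjz : ∀ x, x - td04_bar z zW zT x = 0 → x = 0 := by
    intro x hx
    obtain ⟨a, ha, rfl⟩ := td04_surj x
    have hx' : td04_mk W T (a - z a) (W.sub_mem ha (zW a ha)) = 0 := hx
    rw [td04_zero] at hx' ⊢
    exact hinj a ha hx'
  have hinjt := td04_inj hℓ n₀ b hb _ _ hz' heig' hinjz
  intro a ha hya
  obtain ⟨y, hy, h⟩ := hya
  obtain ⟨h1, h2⟩ := (It.one_sub.pow (ℓ ^ n₀ - 1)) a ha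
  have h3 : td04_mk W T y hy - td04_bar z zW zT (td04_mk W T y hy) =
      ((1 - td04_bar t tW tT) ^ (ℓ ^ n₀ - 1)) (td04_mk W T a ha) := by
    rw [h2]
    exact ((td04_eq (ha := h1) (hb := W.sub_mem hy (zW y hy))).2 h).symm
  obtain ⟨b', hb'⟩ := td04_inv hℓ hb
  have h4 : td04_bar z zW zT = (td04_bar t tW tT ^ ℓ ^ n₀) ^ b' := by
    rw [heig', ← pow_mul, td04_pow_mod _ (td04_pow_one _ hz'), hb',
      ← td04_pow_mod _ (td04_pow_one _ hz'), pow_one]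
  rw [h4, td04_geom] at h3
  obtain ⟨x, hx⟩ := div_lemma hℓ n₀ (td04_bar t tW tT) hΦ hinjt h3
  obtain ⟨a', ha', rfl⟩ := td04_surj x
  exact ⟨a', ha', (td04_eq (ha := ha) (hb := W.sub_mem ha' (tW a' ha'))).1 hx⟩

theorem eps_rel {A : Type*} [AddCommGroup A] {ℓ : ℕ} (hℓ : ℓ.Prime) (n₀ b q n : ℕ)
    (hb : ¬ ℓ ∣ b) (hq0 : 0 < q) (hq1 : ℓ ∣ q - 1) (W T : AddSubgroup A) (hTW : T ≤ W)
    (t z u : A →+ A)
    (tW : ∀ a ∈ W, t a ∈ W) (tT : ∀ a ∈ T, t a ∈ T) (zW : ∀ a ∈ W, z a ∈ W)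
    (zT : ∀ a ∈ T, z a ∈ T) (hzt : ∀ a ∈ W, t (z a) - z (t a) ∈ T)
    (hz : ∀ a ∈ W, ∑ i ∈ range ℓ, z^[i] a ∈ T)
    (heig : ∀ a ∈ W, t^[ℓ ^ n₀] a - z^[b] a ∈ T)
    (uW : ∀ a ∈ W, u a ∈ W) (uT : ∀ a ∈ T, u a ∈ T)
    (hut : ∀ a ∈ W, u (t a) - t^[q] (u a) ∈ T) :
    ∃ s : ℤ, ∀ a ∈ W, ∃ a' ∈ W,
      u ((fun x => x - t x)^[n] a) - ((fun x => x - t x)^[n] (u a) +
        (fun x => x - t x)^[n + 1] (s • u a + (a' - t a'))) ∈ T := by
  have It := td04_bar_I t tW tT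
  have Iz := td04_bar_I z zW zT
  have Iu := td04_bar_I u uW uT
  have hz' : ∑ i ∈ range ℓ, td04_bar z zW zT ^ i = 0 :=
    (Td04I.sum ℓ fun i => Iz.pow i).ext td04_zero_I fun a ha => by
      rw [sub_zero]
      exact hz a ha
  have heig' : td04_bar t tW tT ^ ℓ ^ n₀ = td04_bar z zW zT ^ b :=
    (It.pow _).ext (Iz.pow _) heig
  have hΦ := td04_phi hℓ n₀ b hb _ _ hz' heig'
  have hut' : td04_bar u uW uT * td04_bar t tW tT = td04_bar t tW tT ^ q * td04_bar u uW uT :=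
    (Iu.mul It).ext ((It.pow q).mul Iu) hut
  obtain ⟨s, hs⟩ := eps_lemma hℓ n₀ q n hq0 hq1 (td04_bar t tW tT) hΦ
  refine ⟨s, fun a ha => ?_⟩
  obtain ⟨x, hx⟩ := hs (td04_bar u uW uT (td04_mk W T a ha))
  obtain ⟨a', ha', rfl⟩ := td04_surj x
  refine ⟨a', ha', ?_⟩
  have hun : td04_bar u uW uT * (1 - td04_bar t tW tT) ^ n =
      (1 - td04_bar t tW tT) ^ n * ((∑ i ∈ range q, td04_bar t tW tT ^ i) ^ n * td04_bar u uW uT) :=
    td04_comm (R := AddMonoid.End (Td04Q W T)) (td04_bar t tW tT) (td04_bar u uW uT) q hut' n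
  have hkey := congrArg (fun f : AddMonoid.End (Td04Q W T) => f (td04_mk W T a ha)) hun
  simp only [td04_mul_app] at hkey
  rw [hx, map_add] at hkey
  -- the left side
  obtain ⟨h1, h2⟩ := (It.one_sub.pow n) a ha
  obtain ⟨h3, h4⟩ := Iu _ h1
  rw [h2, h4] at hkey
  -- the right side
  obtain ⟨h5, h6⟩ := Iu a ha
  obtain ⟨h7, h8⟩ := (It.one_sub.pow n) _ h5
  have h9 : s • td04_mk W T (u a) h5 + (1 - td04_bar t tW tT) (td04_mk W T a' ha') =
      td04_mk W T (s • u a + (a' - t a')) (W.add_mem (W.zsmul_mem h5 s) (W.sub_mem ha' (tW a' ha'))) := rfl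
  obtain ⟨h10, h11⟩ := (It.one_sub.pow (n + 1)) _
    (W.add_mem (W.zsmul_mem h5 s) (W.sub_mem ha' (tW a' ha')))
  rw [h6, h8, h9] at hkey
  have h12 : ((1 - td04_bar t tW tT) ^ n) ((1 - td04_bar t tW tT)
      (td04_mk W T (s • u a + (a' - t a'))
        (W.add_mem (W.zsmul_mem h5 s) (W.sub_mem ha' (tW a' ha'))))) =
      ((1 - td04_bar t tW tT) ^ (n + 1)) (td04_mk W T (s • u a + (a' - t a'))
        (W.add_mem (W.zsmul_mem h5 s) (W.sub_mem ha' (tW a' ha')))) := by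
    rw [pow_succ, td04_mul_app]
  rw [h12, h11, td04_add, td04_eq] at hkey
  exact hkey

theorem tower_rel {A : Type*} [AddCommGroup A] {ℓ : ℕ} (hℓ : ℓ.Prime) (r : ℕ)
    (W T : AddSubgroup A) (hTW : T ≤ W) (t z : A →+ A)
    (tW : ∀ a ∈ W, t a ∈ W) (tT : ∀ a ∈ T, t a ∈ T) (zW : ∀ a ∈ W, z a ∈ W)
    (zT : ∀ a ∈ T, z a ∈ T) (hzt : ∀ a ∈ W, t (z a) - z (t a) ∈ T)
    (hz : ∀ a ∈ W, ∑ i ∈ range ℓ, z^[i] a ∈ T)
    (ht : ∀ a ∈ W, t^[ℓ ^ r] a - a ∈ T) (h0 : ∀ a ∈ W, t a - a ∈ T → a ∈ T)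
    (hib : ∀ i < r, ∀ b : ℕ, ¬ ℓ ∣ b → ∀ a ∈ W, t^[ℓ ^ i] a - z^[b] a ∈ T → a ∈ T) :
    ∀ a ∈ W, a ∈ T := by
  have It := td04_bar_I t tW tT
  have Iz := td04_bar_I z zW zT
  have hc : td04_bar t tW tT * td04_bar z zW zT = td04_bar z zW zT * td04_bar t tW tT :=
    (It.mul Iz).ext (Iz.mul It) hzt
  have hz' : ∑ i ∈ range ℓ, td04_bar z zW zT ^ i = 0 :=
    (Td04I.sum ℓ fun i => Iz.pow i).ext td04_zero_I fun a ha => by
      rw [sub_zero]
      exact hz a ha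
  have key : ∀ i ≤ r, ∀ x : Td04Q W T, (td04_bar t tW tT ^ ℓ ^ i) x = x → x = 0 := by
    intro i
    induction i with
    | zero =>
      intro _ x hx
      obtain ⟨a, ha, rfl⟩ := td04_surj x
      rw [pow_zero, pow_one] at hx
      have hx' : td04_mk W T (t a) (tW a ha) = td04_mk W T a ha := hx
      rw [td04_eq] at hx'
      rw [td04_zero]
      exact h0 a ha hx'
    | succ i ih =>
      intro hi x hx
      have hcx : Commute (td04_bar z zW zT) (td04_bar t tW tT ^ ℓ ^ i) :=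
        ((show Commute (td04_bar t tW tT) (td04_bar z zW zT) from hc).pow_left _).symm
      have hprod := prod_sub_pow_comm hℓ (td04_bar z zW zT) (td04_bar t tW tT ^ ℓ ^ i) hcx hz'
      obtain ⟨m, hm⟩ : ∃ m, ℓ = m + 1 := ⟨ℓ - 1, by have := hℓ.pos; omega⟩
      have hr : List.range ℓ = 0 :: (List.range m).map Nat.succ := by
        rw [hm, List.range_succ_eq_map]
      rw [hr, List.map_cons, List.prod_cons, pow_zero] at hprod
      have h1 := congrArg (fun f : AddMonoid.End (Td04Q W T) => f x) hprod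
      simp only [td04_mul_app] at h1
      rw [← pow_mul, ← pow_succ, td04_sub_app, td04_sub_app,
        td04_one_app, td04_one_app, hx, sub_self, sub_eq_zero] at h1
      have h2 := ih (by omega) _ h1
      -- the other factors are injective
      have h3 : ∀ L : List ℕ, (∀ c ∈ L, ¬ ℓ ∣ c) → ∀ y : Td04Q W T,
          (L.map fun c => td04_bar t tW tT ^ ℓ ^ i - td04_bar z zW zT ^ c).prod y = 0 → y = 0 := by
        intro L
        induction L with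
        | nil => intro _ y hy; exact hy
        | cons c L ihL =>
          intro hL y hy
          rw [List.map_cons, List.prod_cons, td04_mul_app] at hy
          refine ihL (fun c' hc' => hL c' (List.mem_cons_of_mem _ hc')) y ?_
          generalize (L.map fun c => td04_bar t tW tT ^ ℓ ^ i - td04_bar z zW zT ^ c).prod y = w
            at hy ⊢
          obtain ⟨a, ha, rfl⟩ := td04_surj w
          obtain ⟨h4, h5⟩ := (It.pow (ℓ ^ i)) a ha
          obtain ⟨h6, h7⟩ := (Iz.pow c) a ha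
          rw [td04_sub_app, h5, h7, td04_sub, td04_zero] at hy
          rw [td04_zero]
          exact hib i (by omega) c (hL c List.mem_cons_self) a ha hy
      refine h3 ((List.range m).map Nat.succ) ?_ x h2
      intro c hc' hdvd
      rw [List.mem_map] at hc'
      obtain ⟨k, hk, rfl⟩ := hc'
      rw [List.mem_range] at hk
      have := Nat.le_of_dvd (Nat.succ_pos k) hdvd
      omega
  intro a ha
  refine td04_zero.1 (key r le_rfl (td04_mk W T a ha) ?_)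
  obtain ⟨h1, h2⟩ := (It.pow (ℓ ^ r)) a ha
  rw [h2, td04_eq]
  exact ht a ha

end Pool.Agent.Lib.MP_89bcae_ag.Sup
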