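import Mathlib
import Pool.Agent.Lib.MP_89bcae_ag.Rk.K044
import Pool.Agent.Lib.MP_89bcae_ag.Rk.K050

open Polynomial IsDedekindDomain

open scoped Classical

set_option linter.unusedSectionVars false

namespace Pool.Agent.Lib.MP_89bcae_ag.Sup

universe u

variable {k F L Ω : Type u} [Field k] [Field F] [Algebra k F] [Field L] [Algebra F[X] L]
  [Field Ω] [Algebra L Ω] [IsAlgClosure k F] [IsFractionRing F[X] L] [IsAlgClosure L Ω]
  [Algebra F Ω] {ℓ : ℕ} {g E : k[X]} [hG : IsGood ℓ (cOver k F L Ω g 1)] {ζ : k}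
  {hζ : (zA F L Ω ζ) ^ ℓ = 1} {r : ℕ} {ζr : F} {s : Ω}

lemma tf03_zC_add (c c' : Coch ℓ k F L Ω g 1) :
    Sup.zC ζ hζ (c + c') = Sup.zC ζ hζ c + Sup.zC ζ hζ c' := by
  exact map_add _ _ _

lemma tf03_zC_zero : Sup.zC ζ hζ (0 : Coch ℓ k F L Ω g 1) = 0 := by
  exact map_zero _

/-- the sum `∑_{j<b} Z^j c`. -/
lemma tf03_sum (c : Coch ℓ k F L Ω g 1) (b : ℕ) :
    (∑ j ∈ Finset.range b, (Sup.zC ζ hζ)^[j] c) -
      Sup.zC ζ hζ (∑ j ∈ Finset.range b, (Sup.zC ζ hζ)^[j] c) = c - (Sup.zC ζ hζ)^[b] c := by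
  induction b with
  | zero =>
    rw [Finset.sum_range_zero, tf03_zC_zero, Function.iterate_zero, id, sub_self, sub_self]
  | succ b ih =>
    rw [Finset.sum_range_succ, tf03_zC_add, ← Function.iterate_succ_apply' (Sup.zC ζ hζ) b c]
    have h1 : ∀ x y z w : Coch ℓ k F L Ω g 1, x + y - (z + w) = (x - z) + (y - w) := by
      intro x y z w
      abel
    rw [h1, ih]
    abel

theorem formula_zero (hF : CompatF F L Ω) (hD : TowDat (L := L) ℓ r g E ζ ζr s)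
    {τ : Ω ≃ₐ[L] Ω} (hτ : τ s = xA F L Ω ζr * s) {b : ℕ} (hb : ¬ ℓ ∣ b)
    {c c₁ : Coch ℓ k F L Ω g 1} (hc : IsW hζ s τ 0 b c) (hc₁ : IsW hζ s τ 0 b c₁)
    {e e₁ : F → ℤ} (he : HasExpT hζ E s τ 0 c e) (he₁ : HasExpT hζ E s τ 0 c₁ e₁)
    {γ : AutO k F L Ω} (hγs : (γ : Ω ≃+* Ω) s = s) (hU : ∀ β ∈ RR F g E, resF γ β = β)
    (hS0 : ∀ x₀ : F, x₀ ^ ℓ = -1 → resF γ x₀ = x₀)
    (hrel : TTs (Nst s) (Sup.act γ c - c - (c₁ - Sup.act (galA k F τ) c₁))) :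
    ∃ n₁ : ZMod ℓ, ∀ a : F, aeval a E = 0 → ∃ cst : ZMod ℓ, ∀ β : F, aeval β g = a →
      sumO g E (kap ℓ (algebraMap k F ζ) (resF γ)) (fun x => (e x : ZMod ℓ)) β +
        (1 - (b : ZMod ℓ)⁻¹) *
          sumS g E (kap ℓ (algebraMap k F ζ) (resF γ)) (fun x => (e x : ZMod ℓ)) β +
        n₁ * (e β : ZMod ℓ) = (e₁ β : ZMod ℓ) + cst := by
  have H : GlobHyp ℓ g E ζ := hD.glob
  have : Fact ℓ.Prime := ⟨H.prime⟩
  have hb0 : (b : ZMod ℓ) ≠ 0 := by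
    rw [Ne, ZMod.natCast_eq_zero_iff]
    exact hb
  obtain ⟨hcW, hcT⟩ := hc
  obtain ⟨hc₁W, hc₁T⟩ := id hc₁
  rw [pow_zero, pow_one] at hcT hc₁T
  -- the iterates
  have hit : ∀ j, IsW hζ s τ 0 b ((Sup.zC ζ hζ)^[j] c₁) ∧ HasExpT hζ E s τ 0 ((Sup.zC ζ hζ)^[j] c₁) e₁ := by
    intro j
    induction j with
    | zero => exact ⟨hc₁, he₁⟩
    | succ j ih =>
      rw [Function.iterate_succ_apply']
      exact ⟨ih.1.zC hD, ih.2.zC hF hD ih.1.1.1⟩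
  have hy : ∀ b' : ℕ, IsW hζ s τ 0 b (∑ j ∈ Finset.range b', (Sup.zC ζ hζ)^[j] c₁) ∧
      HasExpT hζ E s τ 0 (∑ j ∈ Finset.range b', (Sup.zC ζ hζ)^[j] c₁) (fun β => (b' : ℤ) * e₁ β) := by
    intro b'
    induction b' with
    | zero =>
      rw [Finset.sum_range_zero]
      refine ⟨TTs.zero'.isW hD, ?_⟩
      have h1 := HasExpT.zero (hζ := hζ) hF hD τ 0
      have h2 : (fun β : F => ((0 : ℕ) : ℤ) * e₁ β) = fun _ => 0 := by
        funext β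
        simp
      rw [h2]
      exact h1
    | succ b' ih =>
      rw [Finset.sum_range_succ]
      refine ⟨ih.1.add hD (hit b').1, ?_⟩
      have h1 := ih.2.add hF hD (hit b').2
      have h2 : (fun β : F => ((b' + 1 : ℕ) : ℤ) * e₁ β) = fun β => (b' : ℤ) * e₁ β + e₁ β := by
        funext β
        push_cast
        ring
      rw [h2]
      exact h1
  set y : Coch ℓ k F L Ω g 1 := ∑ j ∈ Finset.range b, (Sup.zC ζ hζ)^[j] c₁ with hyd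
  have hyW := (hy b).1
  have hyE := (hy b).2
  have hsum := tf03_sum (hζ := hζ) c₁ b
  rw [← hyd] at hsum
  have hrel' : TTs (Nst s) (Sup.act γ c - c - (y - Sup.zC ζ hζ y)) := by
    have h1 := hrel.sub hc₁T
    have h2 : Sup.act γ c - c - (y - Sup.zC ζ hζ y) =
        Sup.act γ c - c - (c₁ - Sup.act (galA k F τ) c₁) -
          (Sup.act (galA k F τ) c₁ - (Sup.zC ζ hζ)^[b] c₁) := by
      rw [hsum]
      abel
    rw [h2]
    exact h1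
  obtain ⟨h, m, hh, hhe, hm⟩ := he
  obtain ⟨h', m', hh', hhe', hm'⟩ := hyE
  refine ⟨kap ℓ (algebraMap k F ζ) (resF γ) (algebraMap k F E.leadingCoeff), fun a ha => ?_⟩
  obtain ⟨cst, hform⟩ := TowDat.form1 hF hD hcW.1 hcW.2.1 hyW.1.1 hyW.1.2.1 hτ hcT hγs hU hS0 hrel'
    hh hh' hm hm' hhe hhe' ha
  refine ⟨(cst : ZMod ℓ) * (b : ZMod ℓ)⁻¹, fun β hβ => ?_⟩
  have hk := hform.kap H (resF γ) hU ha β hβ
  push_cast at hk
  generalize sumO g E (kap ℓ (algebraMap k F ζ) (resF γ)) (fun x => (e x : ZMod ℓ)) β = A at hk ⊢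
  generalize sumS g E (kap ℓ (algebraMap k F ζ) (resF γ)) (fun x => (e x : ZMod ℓ)) β = B at hk ⊢
  generalize kap ℓ (algebraMap k F ζ) (resF γ) (algebraMap k F E.leadingCoeff) = κ at hk ⊢
  refine mul_left_cancel₀ hb0 ?_
  have hbb : (b : ZMod ℓ) * (b : ZMod ℓ)⁻¹ = 1 := mul_inv_cancel₀ hb0
  linear_combination hk + (-B + (-1) * (cst : ZMod ℓ)) * hbb

end Pool.Agent.Lib.MP_89bcae_ag.Sup
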