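import Mathlib
import Pool.Agent.Lib.MP_89bcae_ag.Rk.K044
import Pool.Agent.Lib.MP_89bcae_ag.Rk.K050

/-!
TF09: the formula for eigenclasses, `i > 0`.
-/

open Polynomial IsDedekindDomain

open scoped Classical

set_option linter.unusedSectionVars false

namespace Pool.Agent.Lib.MP_89bcae_ag.Sup

universe u

variable {k F L Ω : Type u} [Field k] [Field F] [Algebra k F] [Field L] [Algebra F[X] L]
  [Field Ω] [Algebra L Ω] [IsAlgClosure k F] [IsFractionRing F[X] L] [IsAlgClosure L Ω]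
  [Algebra F Ω] {ℓ : ℕ} {g E : k[X]} [hG : IsGood ℓ (cOver k F L Ω g 1)] {ζ : k}
  {hζ : (zA F L Ω ζ) ^ ℓ = 1} {r : ℕ} {ζr : F} {s : Ω}

private lemma tf09_pw_sub (τ : Ω ≃ₐ[L] Ω) (n : ℕ) (c c' : Coch ℓ k F L Ω g 1) :
    pw τ n (c - c') = pw τ n c - pw τ n c' := by
  rw [sub_eq_add_neg, pw_add, pw_neg, ← sub_eq_add_neg]

theorem formula_succ (hF : CompatF F L Ω) (hD : TowDat (L := L) ℓ r g E ζ ζr s)
    {τ : Ω ≃ₐ[L] Ω} (hτ : τ s = xA F L Ω ζr * s) {i b : ℕ} (hi : 0 < i) (hb : ¬ ℓ ∣ b)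
    {c c₁ : Coch ℓ k F L Ω g 1} (hc : IsW hζ s τ i b c) (hc₁ : IsW hζ s τ i b c₁)
    {e e₁ : F → ℤ} (he : HasExpT hζ E s τ (ℓ ^ i - 1) c e)
    (he₁ : HasExpT hζ E s τ (ℓ ^ i - 1) c₁ e₁)
    {γ : AutO k F L Ω} (hγs : (γ : Ω ≃+* Ω) s = s) (hU : ∀ β ∈ RR F g E, resF γ β = β)
    (hS0 : ∀ x₀ : F, x₀ ^ ℓ = -1 → resF γ x₀ = x₀)
    (hrel : TTs (Nst s) (Sup.act γ c - c - (c₁ - Sup.act (galA k F τ) c₁))) :
    ∃ n₁ : ZMod ℓ, ∀ a : F, aeval a E = 0 → ∃ cst : ZMod ℓ, ∀ β : F, aeval β g = a →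
      sumO g E (kap ℓ (algebraMap k F ζ) (resF γ)) (fun x => (e x : ZMod ℓ)) β +
        1 * sumS g E (kap ℓ (algebraMap k F ζ) (resF γ)) (fun x => (e x : ZMod ℓ)) β +
        n₁ * (e β : ZMod ℓ) = (e₁ β : ZMod ℓ) + cst := by
  have hℓ : ℓ.Prime := hD.glob.prime
  obtain ⟨n, hn⟩ : ∃ n, ℓ ^ i - 1 = n + 1 := by
    have h1 : 2 ≤ ℓ ^ i := by
      calc 2 ≤ ℓ := hℓ.two_le
        _ = ℓ ^ 1 := (pow_one ℓ).symm
        _ ≤ ℓ ^ i := Nat.pow_le_pow_right hℓ.pos hi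
    exact ⟨ℓ ^ i - 2, by omega⟩
  obtain ⟨q, hqo, hq⟩ := hD.exists_q (resF γ) hS0
  obtain ⟨s', hs'⟩ := pw_act_rel (hζ := hζ) hD hτ hb (i := i) n γ hqo hq
  obtain ⟨w, hw, hrelw⟩ := hs' c hc
  have hη : IsW hζ s τ i b (Sup.pw τ n c) := IsW.pw hD hτ n hc
  have hact : HasExpT hζ E s τ (ℓ ^ i - 1) (Sup.act γ c) e :=
    HasExpT.act hF hD hτ hb hc he γ hqo hq hU
  have h2 : HasExpT hζ E s τ (ℓ ^ i - 1)
      (c₁ + (s' • Sup.act γ c + (w - Sup.act (galA k F τ) w)))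
      (fun β => e₁ β + (s' * e β + 0)) :=
    HasExpT.add hF hD he₁ (HasExpT.add hF hD (HasExpT.zsmul hF hD hact s')
      (IsW.exp_sub_act hF hD hτ hb hw))
  have htts : TTs (Nst s) ((Sup.act γ (Sup.pw τ n c) - Sup.pw τ n c) -
      Sup.pw τ (n + 1) (c₁ + (s' • Sup.act γ c + (w - Sup.act (galA k F τ) w)))) := by
    have h3 := TTs.pw hD τ n hrel
    have h4 := hrelw.add h3
    have h5 : (Sup.act γ (Sup.pw τ n c) - Sup.pw τ n c) -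
      Sup.pw τ (n + 1) (c₁ + (s' • Sup.act γ c + (w - Sup.act (galA k F τ) w))) =
      Sup.act γ (Sup.pw τ n c) - (Sup.pw τ n (Sup.act γ c) +
          Sup.pw τ (n + 1) (s' • Sup.act γ c + (w - Sup.act (galA k F τ) w))) +
        Sup.pw τ n (Sup.act γ c - c - (c₁ - Sup.act (galA k F τ) c₁)) := by
      rw [tf09_pw_sub τ n (Sup.act γ c - c), tf09_pw_sub τ n (Sup.act γ c), ← pw_succ' τ n c₁,
        pw_add τ (n + 1) c₁]
      abel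
    rw [h5]
    exact h4
  obtain ⟨m₃, hm₃⟩ := vJ_trivial (hζ := hζ) hD htts
  obtain ⟨h, m, hM, hE, hm⟩ := he
  obtain ⟨h', m', hM', hE', hm'⟩ := h2
  rw [hn] at hm hm'
  have key : ∀ a : F, aeval a E = 0 → ∃ cst : ℤ,
      Formula ℓ g E ζ (resF γ) a 1 0 e (fun β => e₁ β + (s' * e β + 0)) cst := by
    intro a ha
    refine hD.form2 hF hη.1.1 hη.1.2.1 hτ hγs hU hS0 hM hM' (m := m)
      (m' := fun θ => m' θ - m₃ θ) ?_ ?_ hE hE' ha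
    · intro σ hσ
      rw [hm σ hσ, pw_succ]
    · intro σ hσ
      rw [hm' σ hσ]
      have h5 : vJ (zA F L Ω ζ) hζ ((Sup.act γ (Sup.pw τ n c) - Sup.pw τ n c) 1 σ) -
          vJ (zA F L Ω ζ) hζ (Sup.pw τ (n + 1)
            (c₁ + (s' • Sup.act γ c + (w - Sup.act (galA k F τ) w))) 1 σ) =
          cob (ram m₃) σ := by
        rw [← vJ_sub]
        exact hm₃ σ hσ
      have h6 : cob (ram fun θ => m' θ - m₃ θ) σ =
          (cob (ram m') : Ch ℓ k F L Ω g 1) σ - cob (ram m₃) σ := by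
        rw [ram_sub, cob_sub]
        rfl
      rw [h6, ← h5]
      abel
  refine ⟨kap ℓ (algebraMap k F ζ) (resF γ) (algebraMap k F E.leadingCoeff) - s',
    fun a ha => ?_⟩
  obtain ⟨cst, hcst⟩ := key a ha
  refine ⟨cst, fun β hβ => ?_⟩
  have h6 := Formula.kap hD.glob (resF γ) hU ha hcst β hβ
  push_cast at h6 ⊢
  linear_combination h6

end Pool.Agent.Lib.MP_89bcae_ag.Sup
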