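import Mathlib
import Pool.Agent.Lib.MP_89bcae_ag.Rk.K036
import Pool.Agent.Lib.MP_89bcae_ag.Rk.K039
import Pool.Agent.Lib.MP_89bcae_ag.Rk.K042

section

open Polynomial IsDedekindDomain

open scoped Classical

set_option linter.unusedSectionVars false

namespace Pool.Agent.Lib.MP_89bcae_ag.Sup

universe u

variable {k F L Ω : Type u} [Field k] [Field F] [Algebra k F] [Field L] [Algebra F[X] L]
  [Field Ω] [Algebra L Ω] [IsAlgClosure k F] [IsFractionRing F[X] L] [IsAlgClosure L Ω]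
  [Algebra F Ω] {ℓ : ℕ} {g E : k[X]} [hG : IsGood ℓ (cOver k F L Ω g 1)] {ζ : k}
  {hζ : (zA F L Ω ζ) ^ ℓ = 1} {r : ℕ} {ζr : F} {s : Ω}

/-- The class of `c` is fixed by all of `Gal(Ω/L)`. -/
lemma tc14_inv (hD : TowDat (L := L) ℓ r g E ζ ζr s) {c : Coch ℓ k F L Ω g 1}
    (hc : TCs (Nst s) c) {τ₀ : Ω ≃ₐ[L] Ω} (hτ₀ : τ₀ s = xA F L Ω ζr * s)
    (hinv : TTs (Nst s) (act (galA k F τ₀) c - c)) (γ : Ω ≃ₐ[L] Ω) :
    TTs (Nst s) (act (galA k F γ) c - c) := by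
  obtain ⟨i, η, hη, rfl⟩ := hD.exists_mul hτ₀ γ
  have hpow : ∀ i : ℕ, TTs (Nst s) (act (galA k F (τ₀ ^ i)) c - c) := by
    intro i
    induction i with
    | zero =>
      rw [pow_zero, map_one, act_one, sub_self]
      exact TTs.zero'
    | succ i ih =>
      have h1 : act (galA k F (τ₀ ^ (i + 1))) c - c =
          act (galA k F τ₀) (act (galA k F (τ₀ ^ i)) c - c) + (act (galA k F τ₀) c - c) := by
        rw [pow_succ', map_mul, act_mul, act_sub]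
        abel
      rw [h1]
      exact (ih.act hD.nrm _).add hinv
  have h1 : act (galA k F (τ₀ ^ i * η)) c - c =
      act (galA k F (τ₀ ^ i)) (act (galA k F η) c - c) + (act (galA k F (τ₀ ^ i)) c - c) := by
    rw [map_mul, act_mul, act_sub]
    abel
  rw [h1]
  exact ((act_galA_subs hD.nrm hc hη).act hD.nrm _).add (hpow i)

/-- Powers of an automorphism which fixes the value of the cocycle. -/
lemma tc14_pow {x : Ch ℓ k F L Ω g 1} (hx : C1s ⊤ x) {σ' : Ω ≃ₐ[L] Ω}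
    (hfix : symJ (toSym g 1 (galA k F σ')) (x σ') = x σ') (i : ℕ) :
    x (σ' ^ i) = i • x σ' := by
  induction i with
  | zero => rw [pow_zero, hx.map_one, zero_smul]
  | succ i ih =>
    rw [pow_succ', hx.cocycle σ' trivial (σ' ^ i) trivial, ih, map_nsmul, hfix, succ_nsmul']

lemma tc14_smul {N : Subgroup (Ω ≃ₐ[L] Ω)} {c : Coch ℓ k F L Ω g 1} (hc : TCs N c) (n : ℕ)
    {σ : Ω ≃ₐ[L] Ω} (hσ : σ ∈ N) (r : ℕ) : ℓ ^ r • c (n + r) σ = c n σ := by
  induction r with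
  | zero => rw [pow_zero, one_smul, add_zero]
  | succ r ih =>
    rw [pow_succ, mul_smul, ← add_assoc, hc.smul (n + r) σ hσ, ih]

/-- The fibre of `g` over a root of `E` has `deg g` elements. -/
lemma tc14_card (H : GlobHyp ℓ g E ζ) {a : F} (ha : aeval a E = 0) :
    ((RR F g E).filter (fun β => aeval β g = a)).card = g.natDegree := by
  have : IsAlgClosed F := IsAlgClosure.isAlgClosed k
  set P : F[X] := g.map (algebraMap k F) - C a with hP
  have hm : g.natDegree ≠ 0 := by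
    intro h0
    have h1 := H.cop
    rw [h0, Nat.coprime_zero_left] at h1
    exact H.prime.ne_one h1
  have hdiv : P ∣ (E.comp g).map (algebraMap k F) := by
    have h1 : (X - C a : F[X]) ∣ E.map (algebraMap k F) := by
      rw [dvd_iff_isRoot, IsRoot.def, eval_map_algebraMap]
      exact ha
    obtain ⟨Q, hQ⟩ := h1
    rw [Polynomial.map_comp, hQ, mul_comp, sub_comp, X_comp, C_comp]
    exact Dvd.intro _ rfl
  have hsep : P.Separable := (H.sep.map (f := algebraMap k F)).of_dvd hdiv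
  have hroots : (RR F g E).filter (fun β => aeval β g = a) = P.roots.toFinset := by
    ext β
    rw [Finset.mem_filter, mem_RR H, Multiset.mem_toFinset, mem_roots hsep.ne_zero, IsRoot.def, hP,
      eval_sub, eval_C, eval_map_algebraMap, sub_eq_zero]
    constructor
    · exact fun h => h.2
    · intro h
      exact ⟨by rw [h]; exact ha, h⟩
  rw [hroots, Multiset.toFinset_card_of_nodup (nodup_roots hsep), IsAlgClosed.card_roots_eq_natDegree,
    hP, natDegree_sub_C, natDegree_map]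

/-- `E(t)` over an extension `A` of `L`. -/
lemma tc14_aeval {A : Type u} [Field A] [Algebra L A] [Algebra F A] (hF : CompatF F L A)
    (p : k[X]) : aeval (tA F L A) (p.map (algebraMap k F)) = base k F L A p := by
  have h1 : ((aeval (tA F L A) : F[X] →ₐ[F] A) : F[X] →+* A) =
      (algebraMap L A).comp (algebraMap F[X] L) := by
    apply Polynomial.ringHom_ext
    · intro c
      rw [AlgHom.coe_toRingHom, aeval_C]
      exact hF c
    · rw [AlgHom.coe_toRingHom, aeval_X]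
      rfl
  exact congrArg (fun f : F[X] →+* A => f (p.map (algebraMap k F))) h1

section

variable {a : F} {M : Type u} [Field M] [Algebra ((plc a).adicCompletion L) M]
  [IsAlgClosure ((plc a).adicCompletion L) M] [Algebra L M]
  [IsScalarTower L ((plc a).adicCompletion L) M] [Algebra F M] {v : AbsoluteValue M ℝ}

/-- A tame automorphism with `σ' s = ζr s` multiplies the `ℓ`-th root of `t - a` by `ζ`. -/
lemma tc14_tame (hD : TowDat (L := L) ℓ r g E ζ ζr s) (hd : LocDat F L a M v)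
    (ha : aeval a E = 0) (j : Ω →ₐ[L] M) {σ : M ≃ₐ[(plc a).adicCompletion L] M}
    {σ' : Ω ≃ₐ[L] Ω} (hσ : ∀ x, j (σ' x) = σ (j x)) (hσs : σ' s = xA F L Ω ζr * s)
    {ϖ : M} (hϖ : ϖ ^ ℓ = tA F L M - algebraMap F M a) :
    (∃ δ : M, BadCtx (g.map (algebraMap k F)) (E.map (algebraMap k F)) a (tA F L M) δ ℓ) ∧
      σ ϖ = zA F L M ζ * ϖ := by
  have H := hD.glob
  have hL : ∀ x : L, σ (algebraMap L M x) = algebraMap L M x := by
    intro x
    rw [IsScalarTower.algebraMap_apply L ((plc a).adicCompletion L) M]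
    exact σ.commutes _
  have hcF : ∀ c : F, σ (algebraMap F M c) = algebraMap F M c := by
    intro c
    rw [hd.compat]
    exact hL _
  have ht : σ (tA F L M) = tA F L M := hL _
  set δ : M := j (s ^ ℓ ^ (r - 1)) with hδdef
  have hrr : r - 1 + 1 = r := by
    have := hD.rpos
    omega
  have hδ : δ ^ ℓ = aeval (tA F L M) (E.map (algebraMap k F)) := by
    rw [hδdef, ← map_pow, ← pow_mul, ← pow_succ, hrr, hD.hs, tc14_aeval hd.compat]
    exact j.commutes _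
  have hB := H.badCtx hd.compat ha hδ
  refine ⟨⟨δ, hB⟩, ?_⟩
  have hσδ : σ δ = zA F L M ζ * δ := by
    rw [hδdef, ← hσ, map_pow, hσs, mul_pow, ← xA_pow, hD.pow, ← zA_eq, map_mul, map_zA]
  have hta : tA F L M - algebraMap F M a ≠ 0 := sub_ne_zero.mpr hd.ctx.ne
  have hϖ0 : ϖ ≠ 0 := by
    intro h0
    rw [h0, zero_pow H.prime.ne_zero] at hϖ
    exact hta hϖ.symm
  have hδ0 : δ ≠ 0 := by
    intro h0
    apply hB.ne
    rw [← hδ, h0, zero_pow H.prime.ne_zero]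
  set y : M := δ / ϖ with hy
  have hyℓ : y ^ ℓ = aeval (tA F L M) (E.map (algebraMap k F)) /
      (tA F L M - algebraMap F M a) := by
    rw [hy, div_pow, hδ, hϖ]
  have hvy : v y = 1 := by
    have h1 : v y ^ ℓ = 1 := by
      rw [← map_pow, hyℓ, map_div₀, (hd.ctx.v_bad hB).1, div_self ((map_ne_zero v).mpr hta)]
    exact (pow_eq_one_iff_of_nonneg (v.nonneg y) H.prime.ne_zero).mp h1
  have hσE : σ (aeval (tA F L M) (E.map (algebraMap k F))) =
      aeval (tA F L M) (E.map (algebraMap k F)) := by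
    rw [tc14_aeval hd.compat]
    exact hL _
  have hyfix : σ (y ^ ℓ) = y ^ ℓ := by
    rw [hyℓ, map_div₀, hσE, map_sub, ht, hcF]
  have hζF : IsPrimitiveRoot (algebraMap k F ζ) ℓ :=
    H.zeta.map_of_injective (algebraMap k F).injective
  have h2 : (σ : M ≃+* M) y = y :=
    hd.ctx.root_of_unit_fixed H.prime.ne_zero hζF (σ : M ≃+* M) (fun x => hd.inv σ x) hcF hvy hyfix
  have h3 : σ y = y := h2
  have hy0 : y ≠ 0 := div_ne_zero hδ0 hϖ0
  have h4 : δ = y * ϖ := by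
    rw [hy, div_mul_cancel₀ _ hϖ0]
  rw [h4, map_mul, h3] at hσδ
  apply mul_left_cancel₀ hy0
  rw [hσδ]
  ring

end

theorem TowDat.exp_zero (hF : CompatF F L Ω) (hD : TowDat (L := L) ℓ r g E ζ ζr s)
    {c : Coch ℓ k F L Ω g 1} (hc : TCs (Nst s) c) (hcl : LTs (Nst s) c)
    {τ₀ : Ω ≃ₐ[L] Ω} (hτ₀ : τ₀ s = xA F L Ω ζr * s)
    (hinv : TTs (Nst s) (act (galA k F τ₀) c - c))
    {h : Ch ℓ k F L Ω g 1} (hh : MCs ζ hζ ⊤ h) {m : Ω → ℤ}
    (hm : ∀ σ ∈ (Nst s : Subgroup (Ω ≃ₐ[L] Ω)),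
      h σ = vJ (zA F L Ω ζ) hζ (c 1 σ) + cob (ram m) σ)
    {e : F → ℤ} (he : HasExpM ζ E h e) : ∀ β ∈ RR F g E, (ℓ : ℤ) ∣ e β := by
  have H := hD.glob
  have hcl' : IsAlgClosed F := IsAlgClosure.isAlgClosed k
  have hζ' : IsPrimitiveRoot (zA F L Ω ζ) ℓ := zA_primitive H
  have hz0 : vJ (zA F L Ω ζ) hζ (0 : JacOver ℓ (curvePoly k F L g 1) Ω) = 0 :=
    (AddMonoidHom.mk' (vJ (zA F L Ω ζ) hζ) (vJ_add (zA F L Ω ζ) hζ)).map_zero
  obtain ⟨c', hc', hcc'⟩ := exists_extT hζ' hD.trs hD.nrm (opn_nst s) hc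
    (fun γ => tc14_inv hD hc hτ₀ hinv γ)
  -- `h` is given by the extended cocycle
  have hramk : ∀ σ : Ω ≃ₐ[L] Ω, ℓ • (cob (ram m) : Ch ℓ k F L Ω g 1) σ = 0 := by
    intro σ
    have h1 : ℓ • (cob (ram m) : Ch ℓ k F L Ω g 1) = 0 := by
      rw [← cob_nsmul, smul_ram, cob_zero]
    exact congrFun h1 σ
  have heq : ∀ σ, h σ = ((fun σ => vJ (zA F L Ω ζ) hζ (c' 1 σ)) + cob (ram m) :
      Ch ℓ k F L Ω g 1) σ := by
    refine C1s.eq_of_eqOn hζ' hD.trs hD.nrm 1 hh.toC1s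
      (((hc'.c1 1).vJ ζ hζ).add (C1s.cob (ram m))) ?_ ?_ ?_
    · intro σ
      obtain ⟨q, hq⟩ := exists_ram_of_zJ_eq (zA F L Ω ζ) hζ' (h σ) (hh.fixed σ trivial)
      rw [hq, pow_one, smul_ram]
    · intro σ
      rw [pow_one, Pi.add_apply, smul_add, hramk, add_zero, ← vJ_smul,
        hc'.smul 0 σ trivial, hc'.zero σ trivial, hz0]
    · intro σ hσ
      rw [hm σ hσ, Pi.add_apply, hcc' 1 σ hσ]
  intro β hβ
  set a : F := aeval β g with ha'
  have ha : aeval a E = 0 := (mem_RR H).1 hβ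
  obtain ⟨M, i1, i2, i3, i4, i5, i6, v, j, hd⟩ := exists_locDat (L := L) (Ω := Ω) a
  obtain ⟨σ, σ', hσ, hσs⟩ := hD.exists_tame_loc hd ha j
  have hσi : ∀ (i : ℕ) (x : Ω), j ((σ' ^ i) x) = (σ ^ i) (j x) := by
    intro i
    induction i with
    | zero => intro x; rfl
    | succ i ih =>
      intro x
      rw [pow_succ', pow_succ', AlgEquiv.mul_apply, AlgEquiv.mul_apply, hσ, ih]
  have hloc : ∀ i : ℕ, IsLoc F L a (σ' ^ i) := fun i =>
    ⟨M, i1, i2, i3, i4, i5, i6, v, j, σ ^ i, hd, hσi i⟩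
  have hfixt : ∀ (n : ℕ) (Q : JacOver ℓ (curvePoly k F L g 1) Ω), ℓ ^ n • Q = 0 →
      symJ (toSym g 1 (galA k F σ')) Q = Q := by
    intro n Q hQ
    have h1 := hloc 1
    rw [pow_one] at h1
    exact hD.fixt ha h1 n Q hQ
  have hmem : σ' ^ ℓ ^ r ∈ (Nst s : Subgroup (Ω ≃ₐ[L] Ω)) := hD.pow_mem hσs
  have hc0 : c' 1 σ' = 0 := by
    have h1 := tc14_pow (hc'.c1 (1 + r)) (hfixt (1 + r) _ (hc'.pow_smul (1 + r) trivial)) (ℓ ^ r)
    have h2 : c' (1 + r) (σ' ^ ℓ ^ r) = 0 := by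
      rw [hcc' (1 + r) _ hmem]
      exact hD.vanish ha hc hcl (1 + r) (hloc _) hmem
    rw [← tc14_smul hc' 1 trivial r, ← h1, h2]
  have hh0 : h σ' = 0 := by
    have h3 : symJ (toSym g 1 (galA k F σ')) (ram m) = ram m :=
      hfixt 1 _ (by rw [pow_one, smul_ram])
    rw [heq σ', Pi.add_apply, hc0, hz0, cob_apply, h3, sub_self, add_zero]
  -- the local character
  have hMc : IsAlgClosed M := IsAlgClosure.isAlgClosed ((plc a).adicCompletion L)
  have hGM : IsGood ℓ (cOver k F L M g 1) := goodAll_one H M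
  obtain ⟨ϖ, hϖ⟩ := IsAlgClosed.exists_pow_nat_eq (tA F L M - algebraMap F M a) H.prime.pos
  obtain ⟨⟨δ, hB⟩, hσϖ⟩ := tc14_tame hD hd ha j hσ hσs hϖ
  have hchar := he.local_char hF H ha hd.compat hd.ctx hd.inv j hϖ σ σ' hσ 1
    (by rw [zpow_one]; exact hσϖ)
  rw [hh0, map_zero] at hchar
  obtain ⟨c₀, hc₀⟩ := (ram_eq_zero_iff (zA F L M ζ) (zA_primitive H) _).1 hchar.symm
  have hconst : ∀ β' : F, aeval β' g = a → (ℓ : ℤ) ∣ e β' - c₀ := by
    intro β' hβ'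
    obtain ⟨θ, hθ, hrs⟩ := hd.ctx.exists_root hB (β := β') (by
      rw [eval_map_algebraMap]
      exact hβ')
    have h1 : θ ∈ rts (cOver k F L M g 1) := (mem_rts_one H hd.compat).2 hθ
    have h2 := hc₀ θ ((mem_rts hGM.separable.ne_zero).1 h1)
    rw [hrs, one_mul] at h2
    exact h2
  have hsum := he.sum a
  have hsum2 : (ℓ : ℤ) ∣ ∑ β' ∈ (RR F g E).filter (fun β' => aeval β' g = a), (e β' - c₀) :=
    Finset.dvd_sum fun β' hβ' => hconst β' (Finset.mem_filter.1 hβ').2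
  rw [Finset.sum_sub_distrib, Finset.sum_const, tc14_card H ha, nsmul_eq_mul] at hsum2
  have h5 : (ℓ : ℤ) ∣ (g.natDegree : ℤ) * c₀ := (dvd_sub_right hsum).1 hsum2
  have h6 : IsCoprime (ℓ : ℤ) (g.natDegree : ℤ) := Nat.isCoprime_iff_coprime.2 H.cop.symm
  have h7 : (ℓ : ℤ) ∣ c₀ := h6.dvd_of_dvd_mul_left h5
  have h8 := dvd_add (hconst β rfl) h7
  rw [sub_add_cancel] at h8
  exact h8

end Pool.Agent.Lib.MP_89bcae_ag.Sup

end

section

/-!
There are no non-trivial classes in `WWs N` which are fixed by `τ`.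
-/

open Polynomial IsDedekindDomain

open scoped Classical

set_option linter.unusedSectionVars false

namespace Pool.Agent.Lib.MP_89bcae_ag.Sup

universe u

variable {k F L Ω : Type u} [Field k] [Field F] [Algebra k F] [Field L] [Algebra F[X] L]
  [Field Ω] [Algebra L Ω] [IsAlgClosure k F] [IsFractionRing F[X] L] [IsAlgClosure L Ω]
  [Algebra F Ω] {ℓ : ℕ} {g E : k[X]} [hG : IsGood ℓ (cOver k F L Ω g 1)] {ζ : k}
  {hζ : (zA F L Ω ζ) ^ ℓ = 1} {r : ℕ} {ζr : F} {s : Ω}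

/-- The operator `1 - Z`. -/
noncomputable def tf05_pi (hζ : (zA F L Ω ζ) ^ ℓ = 1) (x : Coch ℓ k F L Ω g 1) :
    Coch ℓ k F L Ω g 1 :=
  x - Sup.zC ζ hζ x

lemma tf05_pi_sub (n : ℕ) (x y : Coch ℓ k F L Ω g 1) :
    (tf05_pi hζ)^[n] (x - y) = (tf05_pi hζ)^[n] x - (tf05_pi hζ)^[n] y := by
  induction n generalizing x y with
  | zero => rfl
  | succ n ih =>
    rw [Function.iterate_succ_apply, Function.iterate_succ_apply, Function.iterate_succ_apply,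
      ← ih]
    congr 1
    unfold tf05_pi
    rw [map_sub]
    abel

lemma tf05_pi_tts {N : Subgroup (Ω ≃ₐ[L] Ω)} (n : ℕ) {x : Coch ℓ k F L Ω g 1}
    (hx : TTs N x) : TTs N ((tf05_pi hζ)^[n] x) := by
  induction n generalizing x with
  | zero => exact hx
  | succ n ih =>
    rw [Function.iterate_succ_apply]
    exact ih (hx.sub (hx.zC ζ hζ))

/-- The condition on `γ` in the extension theorem. -/
def tf05_P (N : Subgroup (Ω ≃ₐ[L] Ω)) (x : Ch ℓ k F L Ω g 1) (γ : Ω ≃ₐ[L] Ω) : Prop :=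
  ∃ A : JacOver ℓ (curvePoly k F L g 1) Ω, ℓ • A = 0 ∧
    ∀ σ ∈ N, act1 (galA k F γ) x σ = x σ + cob A σ

lemma tf05_P_mul {N : Subgroup (Ω ≃ₐ[L] Ω)} (hN : Nrm k F N) {x : Ch ℓ k F L Ω g 1}
    {γ γ' : Ω ≃ₐ[L] Ω} (h : tf05_P N x γ) (h' : tf05_P N x γ') : tf05_P N x (γ * γ') := by
  obtain ⟨A, hA, hA2⟩ := h
  obtain ⟨B, hB, hB2⟩ := h'
  refine ⟨A + symJ (toSym g 1 (galA k F γ)) B, ?_, fun σ hσ => ?_⟩
  · rw [smul_add, hA, ← map_nsmul, hB, map_zero, add_zero]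
  · have h1 : act1 (galA k F γ) (act1 (galA k F γ') x) σ =
        act1 (galA k F γ) (x + cob B) σ :=
      act1_congr hN (galA k F γ) (fun σ hσ => hB2 σ hσ) σ hσ
    rw [map_mul, act1_mul, h1, act1_add, act1_cob, cob_add]
    change act1 (galA k F γ) x σ + cob (symJ (toSym g 1 (galA k F γ)) B) σ =
      x σ + (cob A σ + cob (symJ (toSym g 1 (galA k F γ)) B) σ)
    rw [hA2 σ hσ]
    abel

lemma tf05_P_one {N : Subgroup (Ω ≃ₐ[L] Ω)} {x : Ch ℓ k F L Ω g 1} : tf05_P N x 1 := by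
  refine ⟨0, smul_zero _, fun σ _ => ?_⟩
  rw [map_one, act1_one, cob_zero]
  change x σ = x σ + 0
  rw [add_zero]

lemma tf05_P_pow {N : Subgroup (Ω ≃ₐ[L] Ω)} (hN : Nrm k F N) {x : Ch ℓ k F L Ω g 1}
    {γ : Ω ≃ₐ[L] Ω} (h : tf05_P N x γ) (n : ℕ) : tf05_P N x (γ ^ n) := by
  induction n with
  | zero =>
    rw [pow_zero]
    exact tf05_P_one
  | succ n ih =>
    rw [pow_succ]
    exact tf05_P_mul hN ih h

/-- Division by `1 - Z` of the invariant classes. -/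
lemma tf05_div (hF : CompatF F L Ω) (hD : TowDat (L := L) ℓ r g E ζ ζr s)
    (hζ' : IsPrimitiveRoot (zA F L Ω ζ) ℓ)
    {τ : Ω ≃ₐ[L] Ω} (hτ : τ s = xA F L Ω ζr * s) {c : Coch ℓ k F L Ω g 1}
    (hc : WWs (Nst s) c) (h : TTs (Nst s) (act (galA k F τ) c - c)) :
    ∃ y : Coch ℓ k F L Ω g 1, WWs (Nst s) y ∧ TTs (Nst s) (act (galA k F τ) y - y) ∧
      TTs (Nst s) (c - (y - Sup.zC ζ hζ'.pow_eq_one y)) := by
  have hN := hD.nrm
  have hT : Trs (cOver k F L Ω g 1) (Nst s : Subgroup (Ω ≃ₐ[L] Ω)) := hD.trs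
  have v0 : vJ (zA F L Ω ζ) hζ'.pow_eq_one (0 : JacOver ℓ (curvePoly k F L g 1) Ω) = 0 := by
    have h1 := vJ_sub (zA F L Ω ζ) hζ'.pow_eq_one (0 : JacOver ℓ (curvePoly k F L g 1) Ω) 0
    rw [sub_self, sub_self] at h1
    exact h1
  set x : Ch ℓ k F L Ω g 1 := fun σ => vJ (zA F L Ω ζ) hζ'.pow_eq_one (c 1 σ) with hx
  have hkill : ∀ σ ∈ (Nst s : Subgroup (Ω ≃ₐ[L] Ω)), ℓ • c 1 σ = 0 := by
    intro σ hσ
    have := hc.1.pow_smul 1 hσ
    rwa [pow_one] at this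
  have hxC : C1s (Nst s) x := (hc.1.c1 1).vJ ζ hζ'.pow_eq_one
  have hxM : MCs ζ hζ'.pow_eq_one (Nst s) x := by
    refine ⟨hxC, fun σ hσ => ?_⟩
    have h1 := vJ_sub_zJ (zA F L Ω ζ) hζ' (c 1 σ)
    rw [hkill σ hσ] at h1
    exact (sub_eq_zero.mp h1).symm
  have hPτ : tf05_P (Nst s) x τ := by
    obtain ⟨A, hA, hA2⟩ := h.2 1
    rw [pow_one] at hA
    refine ⟨vJ (zA F L Ω ζ) hζ'.pow_eq_one A, ?_, fun σ hσ => ?_⟩
    · rw [← vJ_smul, hA, v0]
    · have h1 : act1 (galA k F τ) (c 1) σ = c 1 σ + cob A σ := by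
        have h2 : act1 (galA k F τ) (c 1) σ - c 1 σ = cob A σ := hA2 σ hσ
        rw [← h2]
        abel
      rw [hx, act1_vJ]
      change vJ (zA F L Ω ζ) hζ'.pow_eq_one (act1 (galA k F τ) (c 1) σ) = _
      rw [h1, vJ_add, vJ_cob]
  have hPN : ∀ η ∈ (Nst s : Subgroup (Ω ≃ₐ[L] Ω)), tf05_P (Nst s) x η := by
    intro η hη
    refine ⟨x η, ?_, fun σ hσ => act1_galA_sub hxC hη σ hσ⟩
    change ℓ • vJ (zA F L Ω ζ) hζ'.pow_eq_one (c 1 η) = 0
    rw [← vJ_smul, hkill η hη, v0]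
  have hP : ∀ γ : Ω ≃ₐ[L] Ω, tf05_P (Nst s) x γ := by
    intro γ
    obtain ⟨j, η, hη, rfl⟩ := hD.exists_mul hτ γ
    exact tf05_P_mul hN (tf05_P_pow hN hPτ j) (hPN η hη)
  obtain ⟨y₀, hy₀, hy₀x, -⟩ := exists_extM hζ' hT hN (opn_nst s) hxM hP
  have hram0 : cob (ram (fun _ => 0) : JacOver ℓ (curvePoly k F L g 1) Ω) =
      (0 : Ch ℓ k F L Ω g 1) := by
    have h1 := ram_sub (f := cOver k F L Ω g 1) (ℓ := ℓ) (fun _ => (0 : ℤ)) (fun _ => (0 : ℤ))
    rw [sub_self] at h1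
    have h2 : (ram (fun _ => 0) : JacOver ℓ (curvePoly k F L g 1) Ω) = 0 := by
      simpa using h1
    rw [h2, cob_zero]
  have hm : ∀ σ ∈ (Nst s : Subgroup (Ω ≃ₐ[L] Ω)),
      y₀ σ = vJ (zA F L Ω ζ) hζ'.pow_eq_one (c 1 σ) + cob (ram (fun _ => 0)) σ := by
    intro σ hσ
    rw [hram0, hy₀x σ hσ]
    change _ = _ + (0 : JacOver ℓ (curvePoly k F L g 1) Ω)
    rw [add_zero]
  obtain ⟨e, he⟩ := exists_hasExpM hF hD.glob hD.unr hy₀ hc.2.1 (fun _ => 0) hm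
  have hd := hD.exp_zero hF hc.1 hc.2.1 hτ h hy₀ hm he
  obtain ⟨m, hmm⟩ := he.cob_of_dvd hF hD.glob hd
  obtain ⟨y, hy, hy2⟩ := exists_divisionN hD.glob hζ' hT hN hc m (fun σ hσ => by
    rw [← hmm σ, hy₀x σ hσ])
  refine ⟨y, hy, ?_, hy2⟩
  have hyC : TCs (Nst s) (act (galA k F τ) y - y) := (hy.1.act hN _).sub hy.1
  refine TTs.of_sub_zC hζ' hT hyC ?_
  have h3 : act (galA k F τ) y - y - Sup.zC ζ hζ'.pow_eq_one (act (galA k F τ) y - y) =
      (act (galA k F τ) c - c) - (act (galA k F τ) (c - (y - Sup.zC ζ hζ'.pow_eq_one y)) -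
        (c - (y - Sup.zC ζ hζ'.pow_eq_one y))) := by
    rw [map_sub, act_sub, act_sub, act_zC]
    abel
  rw [h3]
  exact h.sub ((hy2.act hN _).sub hy2)

theorem TowDat.ker0 (hF : CompatF F L Ω) (hD : TowDat (L := L) ℓ r g E ζ ζr s)
    {τ : Ω ≃ₐ[L] Ω} (hτ : τ s = xA F L Ω ζr * s) {c : Coch ℓ k F L Ω g 1}
    (hc : WWs (Nst s) c) (h : TTs (Nst s) (act (galA k F τ) c - c)) : TTs (Nst s) c := by
  have hζ' : IsPrimitiveRoot (zA F L Ω ζ) ℓ := zA_primitive hD.glob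
  have hT : Trs (cOver k F L Ω g 1) (Nst s : Subgroup (Ω ≃ₐ[L] Ω)) := hD.trs
  have key : ∀ n : ℕ, ∃ y : Coch ℓ k F L Ω g 1, WWs (Nst s) y ∧
      TTs (Nst s) (act (galA k F τ) y - y) ∧
      TTs (Nst s) (c - (tf05_pi hζ'.pow_eq_one)^[n] y) := by
    intro n
    induction n with
    | zero =>
      refine ⟨c, hc, h, ?_⟩
      have h1 : c - (tf05_pi hζ'.pow_eq_one)^[0] c = 0 := sub_self c
      rw [h1]
      exact TTs.zero'
    | succ n ih =>
      obtain ⟨y, hy, hy2, hy3⟩ := ih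
      obtain ⟨y', hy', hy2', hy3'⟩ := tf05_div hF hD hζ' hτ hy hy2
      refine ⟨y', hy', hy2', ?_⟩
      have h1 := tf05_pi_tts (hζ := hζ'.pow_eq_one) n hy3'
      rw [tf05_pi_sub] at h1
      have h2 := hy3.add h1
      have h3 : c - (tf05_pi hζ'.pow_eq_one)^[n + 1] y' =
          c - (tf05_pi hζ'.pow_eq_one)^[n] y + ((tf05_pi hζ'.pow_eq_one)^[n] y -
            (tf05_pi hζ'.pow_eq_one)^[n] (y' - Sup.zC ζ hζ'.pow_eq_one y')) := by
        rw [Function.iterate_succ_apply]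
        change c - (tf05_pi hζ'.pow_eq_one)^[n] (y' - Sup.zC ζ hζ'.pow_eq_one y') = _
        abel
      rw [h3]
      exact h2
  refine TTs.of_separated hζ' hT hc.1 (fun n => ?_)
  obtain ⟨y, hy, -, hy3⟩ := key n
  exact ⟨y, hy.1, hy3⟩

end Pool.Agent.Lib.MP_89bcae_ag.Sup

end
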