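import Mathlib
import Pool.Agent.Lib.MP_89bcae_ag.DefsSupTow7
import Pool.Agent.Lib.MP_89bcae_ag.Rk.K033
import Pool.Agent.Lib.MP_89bcae_ag.Rk.K037
import Pool.Agent.Lib.MP_89bcae_ag.Rk.K042

section

/-!
# The definitions for a subfield `K`, in terms of `Sup.JacOver`
-/

open Polynomial IsDedekindDomain

open scoped Classical

namespace Pool.Agent.Lib.MP_89bcae_ag.Sup

universe u

section

variable {L Ω : Type u} [Field L] [Field Ω] [Algebra L Ω]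

/-- See `Superelliptic.IsTateCocycleOver`. -/
structure IsTateCocycleOver (ℓ : ℕ) (f : L[X]) (K : Subfield Ω)
    (c : ℕ → galOver L K → JacOver ℓ f Ω) : Prop where
  zero : ∀ σ, c 0 σ = 0
  smul : ∀ n σ, ℓ • c (n + 1) σ = c n σ
  cocycle : ∀ n (σ τ : galOver L K),
    c n (σ * τ) = c n σ + push ℓ f ((σ : Ω ≃ₐ[L] Ω) : Ω →ₐ[L] Ω) (c n τ)
  locallyConstant : ∀ n, IsLocallyConstant (c n)

/-- See `Superelliptic.IsLocallyTrivialOver`. -/
def IsLocallyTrivialOver (ℓ : ℕ) (f : L[X]) (K : Subfield Ω) (c : galOver L K → JacOver ℓ f Ω)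
    (Lv : Type u) [Field Lv] [Algebra L Lv] : Prop :=
  ∀ (M : Type u) [Field M] [Algebra Lv M] [IsAlgClosure Lv M] [Algebra L M] [IsScalarTower L Lv M]
    (j : Ω →ₐ[L] M), ∃ Q : JacOver ℓ f M, ∀ (g : M ≃ₐ[Lv] M) (g' : galOver L K),
      (∀ x, j ((g' : Ω ≃ₐ[L] Ω) x) = g (j x)) →
        push ℓ f j (c g') = push ℓ f (g.restrictScalars L : M →ₐ[L] M) Q - Q

/-- See `Superelliptic.IsFixedByOver`. -/
def IsFixedByOver (ℓ : ℕ) (f : L[X]) (K : Subfield Ω) (c : ℕ → galOver L K → JacOver ℓ f Ω)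
    (γ : Ω ≃+* Ω)
    (hγ : (f.map (algebraMap L Ω)).map (γ : Ω →+* Ω) = f.map (algebraMap L Ω)) : Prop :=
  ∃ m : ℕ, 0 < m ∧ ∀ n, ∃ A : JacOver ℓ f Ω, ℓ ^ n • A = 0 ∧
    ∀ g h : galOver L K, (∀ x, γ ((g : Ω ≃ₐ[L] Ω) x) = (h : Ω ≃ₐ[L] Ω) (γ x)) →
      m • (jacMap ℓ (γ : Ω →+* Ω) hγ (c n g) - c n h) =
        push ℓ f ((h : Ω ≃ₐ[L] Ω) : Ω →ₐ[L] Ω) A - A

/-- See `Superelliptic.IsTrivialOver`. -/
def IsTrivialOver (ℓ : ℕ) (f : L[X]) (K : Subfield Ω)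
    (c : ℕ → galOver L K → JacOver ℓ f Ω) : Prop :=
  ∀ n, ∃ A : JacOver ℓ f Ω, ℓ ^ n • A = 0 ∧ ∀ g : galOver L K,
    c n g = push ℓ f ((g : Ω ≃ₐ[L] Ω) : Ω →ₐ[L] Ω) A - A

end

/-- See `Superelliptic.NoTateClassOver`. -/
def NoTateClassOver (ℓ : ℕ) (k F L : Type u) {Ω : Type u} [Field k] [Field F] [Algebra k F]
    [Field L] [Algebra F[X] L] [IsFractionRing F[X] L] [Field Ω] [Algebra L Ω] (g D : k[X])
    (K : Subfield Ω) : Prop :=
  ∀ c : ℕ → galOver L K → JacOver ℓ (curvePoly k F L g D) Ω,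
    IsTateCocycleOver ℓ (curvePoly k F L g D) K c →
    (∀ (v : HeightOneSpectrum F[X]) (n : ℕ),
      IsLocallyTrivialOver ℓ (curvePoly k F L g D) K (c n) (v.adicCompletion L)) →
    (∀ (γ : Ω ≃+* Ω) hγ, (∀ x ∈ K, γ x = x) →
      IsFixedByOver ℓ (curvePoly k F L g D) K c γ hγ) →
    IsTrivialOver ℓ (curvePoly k F L g D) K c

end Pool.Agent.Lib.MP_89bcae_ag.Sup

namespace Pool.Agent.Lib.MP_89bcae_ag.Superelliptic

universe u

theorem NoTateClassOver.ofSup {ℓ : ℕ} {k F L Ω : Type u} [Field k] [Field F] [Algebra k F]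
    [Field L] [Algebra F[X] L] [IsFractionRing F[X] L] [Field Ω] [Algebra L Ω] {g D : k[X]}
    {K : Subfield Ω} (h : Sup.NoTateClassOver ℓ k F L g D K) :
    NoTateClassOver ℓ k F L g D K := by
  intro c hc hloc hfix
  exact h c ⟨hc.zero, hc.smul, hc.cocycle, hc.locallyConstant⟩ hloc hfix

end Pool.Agent.Lib.MP_89bcae_ag.Superelliptic

end

section

open Polynomial IsDedekindDomain

open scoped Classical

set_option linter.unusedSectionVars false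

namespace Pool.Agent.Lib.MP_89bcae_ag.Sup

universe u

variable {k F L Ω : Type u} [Field k] [Field F] [Algebra k F] [Field L] [Algebra F[X] L]
  [Field Ω] [Algebra L Ω] [IsAlgClosure k F] [IsFractionRing F[X] L] [IsAlgClosure L Ω]
  {ℓ : ℕ} {g E : k[X]}

lemma mem_galOver_cover (k' : IntermediateField k F) (s : Ω) (σ : Ω ≃ₐ[L] Ω) :
    σ ∈ galOver L (cover k' F L s) ↔ σ ∈ (Nst s : Subgroup (Ω ≃ₐ[L] Ω)) := by
  constructor
  · intro h
    exact h s (Subfield.subset_closure (Set.mem_insert _ _))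
  · intro h x hx
    have h' : σ s = s := h
    unfold cover at hx
    induction hx using Subfield.closure_induction with
    | mem x hx =>
      rcases hx with rfl | ⟨p, rfl⟩
      · exact h'
      · exact σ.commutes _
    | one => exact map_one σ
    | add x y _ _ hx hy => rw [map_add, hx, hy]
    | neg x _ hx => rw [map_neg, hx]
    | inv x _ hx => rw [map_inv₀, hx]
    | mul x y _ _ hx hy => rw [map_mul, hx, hy]

private lemma tg02_pow (γ : AutO k F L Ω) {x : Ω} (h : (γ : Ω ≃+* Ω) x = x) (n : ℕ) :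
    ((γ ^ n : AutO k F L Ω) : Ω ≃+* Ω) x = x := by
  induction n with
  | zero => rfl
  | succ n ih =>
    have e : ((γ ^ (n + 1) : AutO k F L Ω) : Ω ≃+* Ω) x =
        ((γ ^ n : AutO k F L Ω) : Ω ≃+* Ω) ((γ : Ω ≃+* Ω) x) := by
      rw [pow_succ]
      rfl
    rw [e, h, ih]

lemma exists_pow_cover (hℓ : ℓ ≠ 0) (k' : IntermediateField k F) [FiniteDimensional k k']
    {r : ℕ} {s : Ω} (hs : s ^ ℓ ^ r = base k F L Ω E) (γ : AutO k F L Ω) :
    ∃ M : ℕ, 0 < M ∧ ∀ x ∈ cover k' F L s,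
      ((γ ^ M : AutO k F L Ω) : Ω ≃+* Ω) x = x := by
  obtain ⟨M₁, hM₁, hMx⟩ := G20_exists_pow k' (resF γ)
  have hpos : 0 < ℓ ^ r := Nat.pos_of_ne_zero (pow_ne_zero _ hℓ)
  have hroot : ∀ n : ℕ, ((γ ^ n : AutO k F L Ω) : Ω ≃+* Ω) s ∈
      (nthRoots (ℓ ^ r) (base k F L Ω E)).toFinset := by
    intro n
    rw [Multiset.mem_toFinset, mem_nthRoots hpos, ← map_pow, hs]
    exact (γ ^ n).2 E
  obtain ⟨a, b, hab, h⟩ := Finite.exists_ne_map_eq_of_infinite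
    (fun n : ℕ => (⟨((γ ^ n : AutO k F L Ω) : Ω ≃+* Ω) s, hroot n⟩ :
      {x // x ∈ (nthRoots (ℓ ^ r) (base k F L Ω E)).toFinset}))
  have hm : ∃ m : ℕ, 0 < m ∧ ((γ ^ m : AutO k F L Ω) : Ω ≃+* Ω) s = s := by
    have h1 : ((γ ^ a : AutO k F L Ω) : Ω ≃+* Ω) s = ((γ ^ b : AutO k F L Ω) : Ω ≃+* Ω) s :=
      congrArg Subtype.val h
    clear h
    wlog hlt : a < b generalizing a b with H
    · exact H b a hab.symm h1.symm (lt_of_le_of_ne (not_lt.mp hlt) hab.symm)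
    refine ⟨b - a, Nat.sub_pos_of_lt hlt, ?_⟩
    have e : ((γ ^ b : AutO k F L Ω) : Ω ≃+* Ω) s =
        ((γ ^ a : AutO k F L Ω) : Ω ≃+* Ω) (((γ ^ (b - a) : AutO k F L Ω) : Ω ≃+* Ω) s) := by
      have e1 : γ ^ b = γ ^ a * γ ^ (b - a) := by
        rw [← pow_add, Nat.add_sub_cancel' hlt.le]
      rw [e1]
      rfl
    rw [e] at h1
    exact (((γ ^ a : AutO k F L Ω) : Ω ≃+* Ω).injective h1).symm
  obtain ⟨m, hm0, hms⟩ := hm
  refine ⟨M₁ * m, Nat.mul_pos hM₁ hm0, fun x hx => ?_⟩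
  have hs' : ((γ ^ (M₁ * m) : AutO k F L Ω) : Ω ≃+* Ω) s = s := by
    rw [Nat.mul_comm, pow_mul]
    exact tg02_pow (γ ^ m) hms M₁
  have hp : ∀ p : k'[X], ((γ ^ (M₁ * m) : AutO k F L Ω) : Ω ≃+* Ω) (base k' F L Ω p) =
      base k' F L Ω p := by
    intro p
    rw [pow_mul]
    refine tg02_pow (γ ^ M₁) ?_ m
    have h1 : base k' F L Ω p =
        algebraMap L Ω (algebraMap F[X] L (p.map (algebraMap k' F))) := rfl
    rw [h1, resF_spec, Polynomial.map_map]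
    have h2 : ((resF (γ ^ M₁) : F ≃ₐ[k] F) : F →+* F).comp (algebraMap k' F) =
        algebraMap k' F := by
      refine RingHom.ext fun x => ?_
      rw [map_pow]
      exact hMx x
    rw [h2]
  unfold cover at hx
  induction hx using Subfield.closure_induction with
  | mem x hx =>
    rcases hx with rfl | ⟨p, rfl⟩
    · exact hs'
    · exact hp p
  | one => exact map_one _
  | add x y _ _ hx hy => rw [map_add, hx, hy]
  | neg x _ hx => rw [map_neg, hx]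
  | inv x _ hx => rw [map_inv₀, hx]
  | mul x y _ _ hx hy => rw [map_mul, hx, hy]

end Pool.Agent.Lib.MP_89bcae_ag.Sup

end

section

open Polynomial IsDedekindDomain

open scoped Classical

set_option linter.unusedSectionVars false

namespace Pool.Agent.Lib.MP_89bcae_ag.Sup

universe u

variable {k F L Ω : Type u} [Field k] [Field F] [Algebra k F] [Field L] [Algebra F[X] L]
  [Field Ω] [Algebra L Ω] [IsAlgClosure k F] [IsFractionRing F[X] L] [IsAlgClosure L Ω]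
  {ℓ : ℕ} {g E : k[X]} [hG : IsGood ℓ (cOver k F L Ω g 1)] {ζ : k}

lemma tg03_fix (S : Finset Ω) (K₀ : IntermediateField L Ω)
    (hS : IntermediateField.adjoin L (S : Set Ω) = K₀) {σ : Ω ≃ₐ[L] Ω}
    (hσ : ∀ y ∈ S, σ y = y) : ∀ x ∈ K₀, σ x = x := by
  intro x hx
  rw [← hS] at hx
  induction hx using IntermediateField.adjoin_induction with
  | mem x hx => exact hσ x hx
  | algebraMap x => exact σ.commutes x
  | add x y _ _ h1 h2 => rw [map_add, h1, h2]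
  | inv x _ h1 => rw [map_inv₀, h1]
  | mul x y _ _ h1 h2 => rw [map_mul, h1, h2]

/-- The extension by zero of a cochain of `galOver L K`. -/
noncomputable def tg03_ext (K : Subfield Ω)
    (c : ℕ → galOver L K → JacOver ℓ (curvePoly k F L g 1) Ω) : Coch ℓ k F L Ω g 1 :=
  fun n σ => if h : σ ∈ galOver L K then c n ⟨σ, h⟩ else 0

lemma tg03_apply (K : Subfield Ω)
    (c : ℕ → galOver L K → JacOver ℓ (curvePoly k F L g 1) Ω) (n : ℕ) {σ : Ω ≃ₐ[L] Ω}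
    (h : σ ∈ galOver L K) : tg03_ext K c n σ = c n ⟨σ, h⟩ := dif_pos h

lemma tg03_cont {K : Subfield Ω}
    {c : ℕ → galOver L K → JacOver ℓ (curvePoly k F L g 1) Ω}
    (hc : IsTateCocycleOver ℓ (curvePoly k F L g 1) K c) (n : ℕ) :
    ∃ S : Finset Ω, ∀ σ ∈ galOver L K, (∀ y ∈ S, σ y = y) → tg03_ext K c n σ = 0 := by
  have hc1 : c n 1 = 0 := by
    have h2 := hc.cocycle n 1 1
    rw [mul_one] at h2
    have h3 : push ℓ (curvePoly k F L g 1)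
        (((1 : galOver L K) : Ω ≃ₐ[L] Ω) : Ω →ₐ[L] Ω) (c n 1) = 0 := by
      have h4 := add_left_cancel ((add_zero (c n 1)).trans h2)
      exact h4.symm
    have h5 : (((1 : galOver L K) : Ω ≃ₐ[L] Ω)) = 1 := rfl
    rw [h5, push_eq (k := k) (F := F) (g := g) (D := 1), map_one, map_one, symJ_one] at h3
    exact h3
  have hopen : {σ : galOver L K | c n σ = 0} ∈ nhds (1 : galOver L K) :=
    ((hc.locallyConstant n).isOpen_fiber 0).mem_nhds hc1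
  rw [nhds_subtype_eq_comap, Filter.mem_comap] at hopen
  obtain ⟨t, ht, hts⟩ := hopen
  obtain ⟨K₀, hK₀, hKt⟩ := (krullTopology_mem_nhds_one_iff L Ω t).1 ht
  obtain ⟨S, hS⟩ := (IntermediateField.essFiniteType_iff (K := K₀)).1 inferInstance
  refine ⟨S, fun σ hσ hSσ => ?_⟩
  rw [tg03_apply K c n hσ]
  have h1 : σ ∈ t := by
    apply hKt
    rw [SetLike.mem_coe, IntermediateField.mem_fixingSubgroup_iff]
    exact tg03_fix S K₀ hS hSσ
  exact hts (a := (⟨σ, hσ⟩ : galOver L K)) h1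

theorem noTateClassOver_of_wws (H : GlobHyp ℓ g E ζ) {r : ℕ} {s : Ω}
    (hs : s ^ ℓ ^ r = base k F L Ω E) (hN : Nrm k F (Nst s : Subgroup (Ω ≃ₐ[L] Ω)))
    (hT : Trs (cOver k F L Ω g 1) (Nst s : Subgroup (Ω ≃ₐ[L] Ω)))
    (hW : ∀ c : Coch ℓ k F L Ω g 1, WWs (Nst s) c → TTs (Nst s) c)
    (k' : IntermediateField k F) [FiniteDimensional k k'] :
    NoTateClassOver ℓ k F L g 1 (cover k' F L s) := by
  intro c hc hloc hfix
  have hmem : ∀ σ : Ω ≃ₐ[L] Ω, σ ∈ galOver L (cover k' F L s) ↔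
      σ ∈ (Nst s : Subgroup (Ω ≃ₐ[L] Ω)) := mem_galOver_cover k' s
  have hζ : IsPrimitiveRoot (zA F L Ω ζ) ℓ := zA_primitive H
  have hTC : TCs (Nst s : Subgroup (Ω ≃ₐ[L] Ω)) (tg03_ext (cover k' F L s) c) := by
    refine ⟨fun n => ⟨?_, ?_⟩, ?_, ?_⟩
    · intro σ hσ τ hτ
      have hσ' := (hmem σ).2 hσ
      have hτ' := (hmem τ).2 hτ
      rw [tg03_apply _ c n (mul_mem hσ' hτ'), tg03_apply _ c n hσ', tg03_apply _ c n hτ']
      exact hc.cocycle n ⟨σ, hσ'⟩ ⟨τ, hτ'⟩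
    · obtain ⟨S, hS⟩ := tg03_cont hc n
      exact ⟨S, fun σ hσ => hS σ ((hmem σ).2 hσ)⟩
    · intro σ hσ
      rw [tg03_apply _ c 0 ((hmem σ).2 hσ)]
      exact hc.zero _
    · intro n σ hσ
      rw [tg03_apply _ c _ ((hmem σ).2 hσ), tg03_apply _ c _ ((hmem σ).2 hσ)]
      exact hc.smul n _
  have hLT : LTs (Nst s : Subgroup (Ω ≃ₐ[L] Ω)) (tg03_ext (cover k' F L s) c) := by
    intro a n M _ _ _ _ _ j
    obtain ⟨Q, hQ⟩ := hloc (plc a) n M j
    refine ⟨Q, fun σ σ' hσ' hj => ?_⟩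
    rw [tg03_apply _ c n ((hmem σ').2 hσ')]
    exact hQ σ ⟨σ', (hmem σ').2 hσ'⟩ hj
  have hWW : WWs (Nst s : Subgroup (Ω ≃ₐ[L] Ω)) (tg03_ext (cover k' F L s) c) := by
    refine ⟨hTC, hLT, fun γ => ?_⟩
    obtain ⟨M, hM, hMx⟩ := exists_pow_cover H.prime.ne_zero k' hs γ
    refine ⟨M, hM, ?_⟩
    obtain ⟨m, hm, h1⟩ := hfix ((γ ^ M : AutO k F L Ω) : Ω ≃+* Ω) (toSym g 1 (γ ^ M)).2 hMx
    have hcoc : TCs (Nst s : Subgroup (Ω ≃ₐ[L] Ω))
        (Sup.act (γ ^ M) (tg03_ext (cover k' F L s) c) - tg03_ext (cover k' F L s) c) :=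
      (hTC.act hN (γ ^ M)).sub hTC
    have hcocm : TCs (Nst s : Subgroup (Ω ≃ₐ[L] Ω))
        (m • (Sup.act (γ ^ M) (tg03_ext (cover k' F L s) c) - tg03_ext (cover k' F L s) c)) := by
      clear h1 hm
      induction m with
      | zero =>
        rw [zero_smul]
        exact TCs.zero'
      | succ m ih =>
        rw [succ_nsmul]
        exact ih.add hcoc
    refine TTs.of_smul hζ hT hcoc hm ⟨hcocm, fun n => ?_⟩
    obtain ⟨A, hA, hA2⟩ := h1 n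
    refine ⟨A, hA, fun σ hσ => ?_⟩
    have hσ' := (hmem σ).2 hσ
    have hτ := (hmem _).2 (hN (γ ^ M)⁻¹ σ hσ)
    have h2 := hA2 ⟨conjG (γ ^ M)⁻¹ σ, hτ⟩ ⟨σ, hσ'⟩ (by
      intro x
      have h2 := conjG_spec (γ ^ M)⁻¹ σ (((γ ^ M : AutO k F L Ω) : Ω ≃+* Ω) x)
      have h3 : (((γ ^ M)⁻¹ : AutO k F L Ω) : Ω ≃+* Ω)
          (((γ ^ M : AutO k F L Ω) : Ω ≃+* Ω) x) = x :=
        ((γ ^ M : AutO k F L Ω) : Ω ≃+* Ω).symm_apply_apply x
      rw [h3] at h2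
      change ((γ ^ M : AutO k F L Ω) : Ω ≃+* Ω) ((conjG (γ ^ M)⁻¹ σ) x) =
        σ (((γ ^ M : AutO k F L Ω) : Ω ≃+* Ω) x)
      rw [h2]
      exact ((γ ^ M : AutO k F L Ω) : Ω ≃+* Ω).apply_symm_apply _)
    rw [← tg03_apply (cover k' F L s) c n hτ, ← tg03_apply (cover k' F L s) c n hσ'] at h2
    exact h2
  intro n
  obtain ⟨A, hA, hA2⟩ := (hW _ hWW).2 n
  refine ⟨A, hA, fun σ => ?_⟩
  have h1 := hA2 σ.1 ((hmem σ.1).1 σ.2)
  rw [tg03_apply _ c n σ.2] at h1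
  exact h1

end Pool.Agent.Lib.MP_89bcae_ag.Sup

end
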