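import Mathlib
import Pool.Agent.Lib.MP_89bcae_ag.Rk.K026

/-!
# The transposition attached to a simple collision, on an algebraic closure, and transitivity on
pairs over a normal extension
-/

open Polynomial IsDedekindDomain

open scoped Classical

namespace Pool.Agent.Lib.MP_89bcae_ag

set_option linter.style.haveILetI false
set_option linter.unusedSectionVars false
set_option linter.unusedVariables false

universe u

/-- An automorphism of the algebraic closure which exchanges two roots of `D` and fixes the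
others. -/
def HasSwap7 (k F : Type*) [Field k] [Field F] [Algebra k F] (D : k[X]) : Prop :=
  ∃ (σ : F ≃ₐ[k] F) (α₁ α₂ : F), aeval α₁ D = 0 ∧ aeval α₂ D = 0 ∧ α₁ ≠ α₂ ∧ σ α₁ = α₂ ∧
    σ α₂ = α₁ ∧ ∀ α : F, aeval α D = 0 → α ≠ α₁ → α ≠ α₂ → σ α = α

/-- A simple collision gives a transposition. -/
theorem hasSwap_of_collision7 (R k : Type*) (F : Type u) [CommRing R] [IsDomain R]
    [IsDiscreteValuationRing R] [Field k]
    [Algebra R k] [IsFractionRing R k] [Field F] [Algebra k F] [IsAlgClosure k F]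
    (h2 : IsUnit (2 : R)) {g D : R[X]}
    (hgdeg : g.natDegree ≠ 0) (hg : g.Monic) (hlc : IsUnit D.leadingCoeff)
    (hcol : IsCollision7 g D) (hsep : ((D.comp g).map (algebraMap R k)).Separable) :
    HasSwap7 k F (D.map (algebraMap R k)) := by
  have hF : IsAlgClosed F := IsAlgClosure.isAlgClosed k
  have hkF : Algebra.IsAlgebraic k F := IsAlgClosure.isAlgebraic
  letI : Algebra R F := ((algebraMap k F).comp (algebraMap R k)).toAlgebra
  haveI : IsScalarTower R k F := IsScalarTower.of_algebraMap_eq fun _ => rfl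
  have hinjk : Function.Injective (algebraMap R k) := IsFractionRing.injective R k
  have hinjF : Function.Injective (algebraMap R F) := (algebraMap k F).injective.comp hinjk
  have hmapF : ∀ p : R[X], (p.map (algebraMap R k)).map (algebraMap k F) =
      p.map (algebraMap R F) := fun p => by rw [Polynomial.map_map]; rfl
  have hlcF' : (D.map (algebraMap R F)).leadingCoeff = algebraMap R F D.leadingCoeff :=
    leadingCoeff_map_of_injective hinjF D
  have hcompF : (D.map (algebraMap R F)).comp (g.map (algebraMap R F)) =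
      ((D.comp g).map (algebraMap R k)).map (algebraMap k F) := by
    rw [hmapF, Polynomial.map_comp]
  have hsepF : ((D.map (algebraMap R F)).comp (g.map (algebraMap R F))).Separable := by
    rw [hcompF]; exact hsep.map
  have hgF : (g.map (algebraMap R F)).natDegree ≠ 0 := by rwa [hg.natDegree_map]
  have hsepD : (D.map (algebraMap R F)).Separable := separable_left7 hgF hsepF
  set gF := g.map (algebraMap R F) with hgFdef
  set DF := D.map (algebraMap R F) with hDFdef
  set S : Finset F := (DF.comp gF).roots.toFinset with hS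
  set A : Finset F := DF.roots.toFinset with hA
  have hmemS : ∀ b, b ∈ S ↔ DF.eval (gF.eval b) = 0 := by
    intro b
    rw [hS, Multiset.mem_toFinset, mem_roots hsepF.ne_zero, IsRoot.def, eval_comp]
  have hmemA : ∀ α, α ∈ A ↔ DF.eval α = 0 := by
    intro α
    rw [hA, Multiset.mem_toFinset, mem_roots hsepD.ne_zero, IsRoot.def]
  have hSA : ∀ b ∈ S, gF.eval b ∈ A := fun b hb => (hmemA _).mpr ((hmemS b).mp hb)
  have hDA : DF = C (algebraMap R F D.leadingCoeff) * ∏ α ∈ A, (X - C α) := by
    rw [← hlcF']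
    exact eq_prod_roots7 hsepD
  have hgS : ∀ α ∈ A, gF - C α = ∏ b ∈ S.filter (fun b => gF.eval b = α), (X - C b) := by
    intro α hα
    have h1 : (gF - C α) ∣ DF.comp gF := by
      obtain ⟨w, hw⟩ := dvd_iff_isRoot.mpr ((hmemA α).mp hα)
      refine ⟨w.comp gF, ?_⟩
      rw [hw, mul_comp, sub_comp, X_comp, C_comp]
    have h3 := eq_prod_roots7 (hsepF.of_dvd h1)
    have h4 : (gF - C α).Monic := by
      have h5 : (C α).degree < gF.degree := by
        rw [degree_eq_natDegree (p := gF) (fun h => hgF (by rw [h, natDegree_zero]))]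
        exact (degree_C_le).trans_lt (by exact_mod_cast Nat.pos_of_ne_zero hgF)
      exact (hg.map _).sub_of_left h5
    rw [h4.leadingCoeff, C_1, one_mul] at h3
    rw [h3]
    congr 1
    ext b
    rw [Finset.mem_filter, Multiset.mem_toFinset, mem_roots h4.ne_zero, IsRoot.def, eval_sub,
      eval_C, sub_eq_zero, hmemS]
    constructor
    · exact fun h => ⟨by rw [h]; exact (hmemA α).mp hα, h⟩
    · exact fun h => h.2
  have hAS : ∀ α ∈ A, ∃ b ∈ S, gF.eval b = α := by
    intro α hα
    have h1 : (gF - C α).degree ≠ 0 := by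
      intro h4
      have h3 : (gF - C α).natDegree = gF.natDegree := natDegree_sub_C
      rw [natDegree_eq_of_degree_eq_some h4] at h3
      exact hgF h3.symm
    obtain ⟨b, hb⟩ := IsAlgClosed.exists_root _ h1
    rw [IsRoot.def, eval_sub, eval_C, sub_eq_zero] at hb
    exact ⟨b, (hmemS b).mpr (by rw [hb]; exact (hmemA α).mp hα), hb⟩
  have hSroot : (S : Set F) = ((D.comp g).map (algebraMap R k)).rootSet F := by
    rw [rootSet, hS, hcompF, aroots]
  obtain ⟨hfin, hgal⟩ := galois7 (F := F) hsep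
  obtain ⟨K, hK⟩ : ∃ K, K = IntermediateField.adjoin k (S : Set F) := ⟨_, rfl⟩
  haveI : FiniteDimensional k K := by rw [hK, hSroot]; exact hfin
  haveI : IsGalois k K := by rw [hK, hSroot]; exact hgal
  have hSK : ∀ b ∈ S, b ∈ K := by
    intro b hb
    rw [hK]
    exact IntermediateField.subset_adjoin _ _ hb
  have hRK : ∀ r : R, algebraMap R F r ∈ K := by
    intro r
    rw [IsScalarTower.algebraMap_apply R k F]
    exact K.algebraMap_mem _
  have hgK : ∀ b ∈ K, gF.eval b ∈ K := by
    intro b hb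
    rw [hgFdef, eval_map, eval₂_eq_sum_range]
    exact K.sum_mem fun i _ => K.mul_mem (hRK _) (pow_mem hb i)
  have hAK : ∀ α ∈ A, α ∈ K := by
    intro α hα
    obtain ⟨b, hb, rfl⟩ := hAS α hα
    exact hgK b (hSK b hb)
  have hcomp : (algebraMap K F).comp (algebraMap R K) = algebraMap R F := RingHom.ext fun r => rfl
  have hinj : Function.Injective (Polynomial.map (algebraMap K F)) :=
    Polynomial.map_injective _ (algebraMap K F).injective
  have hev : ∀ b : K, (((g.map (algebraMap R K)).eval b : K) : F) = gF.eval (b : F) := by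
    intro b
    rw [hgFdef, ← hcomp, ← Polynomial.map_map, eval_map (algebraMap K F)]
    exact (eval₂_at_apply (algebraMap K F) b).symm
  obtain ⟨σ, α₁, α₂, hα₁, hα₂, h12, hs1, hs2, hfix⟩ := exists_swap7 (k := k) (K := K) h2 hgdeg hg hlc
    (S.subtype (· ∈ K)) (A.subtype (· ∈ K)) (by
      apply hinj
      rw [Polynomial.map_map, hcomp, ← hDFdef, hDA, Polynomial.map_mul, map_C, Polynomial.map_prod]
      congr 1
      have h1 := prod_subtype7 (· ∈ K) A hAK (fun _ => True) (fun _ => True) (fun _ => Iff.rfl)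
        (fun b => (X - C b : F[X]))
      rw [Finset.filter_true, Finset.filter_true] at h1
      rw [← h1]
      refine Finset.prod_congr rfl fun b _ => ?_
      rw [Polynomial.map_sub, map_X, map_C]
      rfl) (by
      intro α hα
      apply hinj
      rw [Polynomial.map_sub, Polynomial.map_map, hcomp, map_C, Polynomial.map_prod]
      rw [Finset.mem_subtype] at hα
      have h1 := prod_subtype7 (· ∈ K) S hSK (fun b => (g.map (algebraMap R K)).eval b = α)
        (fun b => gF.eval b = (α : F))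
        (fun b => by rw [← hev, Subtype.coe_inj]) (fun b => (X - C b : F[X]))
      refine (hgS α hα).trans (h1.symm.trans ?_)
      refine Finset.prod_congr rfl fun b _ => ?_
      rw [Polynomial.map_sub, map_X, map_C]
      rfl) (by
      intro b hb
      rw [Finset.mem_subtype] at hb ⊢
      rw [hev]
      exact hSA b hb) (by
      intro σ hσ
      subst hK
      ext x
      have h1 : (σ : _ ≃ₐ[k] _).toAlgHom = AlgHom.id k _ := by
        apply IntermediateField.algHom_ext_of_eq_adjoin _ rfl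
        intro y hy
        exact hσ ⟨y, IntermediateField.subset_adjoin _ _ hy⟩ (Finset.mem_subtype.mpr hy)
      exact congrArg Subtype.val (congrArg (fun f => f x) h1)) hcol
  rw [Finset.mem_subtype] at hα₁ hα₂
  have hevD : ∀ b : F, aeval b (D.map (algebraMap R k)) = DF.eval b := by
    intro b
    rw [← eval_map_algebraMap, hmapF]
  obtain ⟨τ, hτ⟩ := AlgEquiv.restrictNormalHom_surjective (F := k) (K₁ := K) F σ
  have hτK : ∀ z : K, τ z = (σ z : K) := by
    intro z
    rw [← hτ]
    exact (AlgEquiv.restrictNormal_commutes τ K z).symm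
  refine ⟨τ, α₁, α₂, by rw [hevD]; exact (hmemA _).mp hα₁, by rw [hevD]; exact (hmemA _).mp hα₂,
    fun h => h12 (Subtype.ext h), by rw [hτK, hs1], by rw [hτK, hs2], fun α hα h1 h3 => ?_⟩
  rw [hevD] at hα
  have hαA : α ∈ A := (hmemA _).mpr hα
  have h4 := hτK ⟨α, hAK α hαA⟩
  rw [hfix ⟨α, hAK α hαA⟩ (Finset.mem_subtype.mpr hαA) (fun h => h1 (congrArg Subtype.val h))
    (fun h => h3 (congrArg Subtype.val h))] at h4
  exact h4

/-- **Transitivity on pairs over a normal extension** `K/k`, from the same over `k` and one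
transposition over `K`. -/
theorem isPairTransitive_of_swap7 {k K F : Type*} [Field k] [Field K] [Field F] [Algebra k K]
    [Algebra K F] [Algebra k F] [IsScalarTower k K F] [Normal k K] {D : k[X]}
    (hX : IsPairTransitive7 k F X D) (hs : HasSwap7 K F (D.map (algebraMap k K))) :
    IsPairTransitive7 K F X (D.map (algebraMap k K)) := by
  obtain ⟨σ, α₁, α₂, h1, h2, h12, hs1, hs2, hfix⟩ := hs
  have hae : ∀ α : F, aeval α (D.map (algebraMap k K)) = aeval α D := fun α =>
    aeval_map_algebraMap K α D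
  rw [hae] at h1 h2
  have hX' : ∀ α β α' β' : F, aeval α D = 0 → aeval β D = 0 → aeval α' D = 0 → aeval β' D = 0 →
      α ≠ β → α' ≠ β' → ∃ σ : F ≃ₐ[k] F, σ α = α' ∧ σ β = β' := by
    intro α β α' β' h1 h2 h3 h4 h5 h6
    apply hX α β α' β' <;> simpa
  -- all the transpositions
  have hT : ∀ a b : F, aeval a D = 0 → aeval b D = 0 → a ≠ b → ∃ ρ : F ≃ₐ[K] F, ρ a = b ∧
      ρ b = a ∧ ∀ c : F, aeval c D = 0 → c ≠ a → c ≠ b → ρ c = c := by
    intro a b ha hb hab
    obtain ⟨τ, hτ1, hτ2⟩ := hX' α₁ α₂ a b h1 h2 ha hb h12 hab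
    have hτ1' : τ.symm a = α₁ := by rw [← hτ1, AlgEquiv.symm_apply_apply]
    have hτ2' : τ.symm b = α₂ := by rw [← hτ2, AlgEquiv.symm_apply_apply]
    have hcomm : ∀ x : K, τ (σ (τ.symm (algebraMap K F x))) = algebraMap K F x := by
      intro x
      have h3 : τ.symm (algebraMap K F x) = algebraMap K F (τ.symm.restrictNormal K x) :=
        (AlgEquiv.restrictNormal_commutes τ.symm K x).symm
      rw [h3, σ.commutes, ← h3, AlgEquiv.apply_symm_apply]
    let ρ₀ : F ≃+* F := ((τ.symm : F ≃+* F).trans (σ : F ≃+* F)).trans (τ : F ≃+* F)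
    let ρ : F ≃ₐ[K] F := AlgEquiv.ofRingEquiv (f := ρ₀) hcomm
    have hρ : ∀ x : F, ρ x = τ (σ (τ.symm x)) := fun x => rfl
    refine ⟨ρ, by rw [hρ, hτ1', hs1, hτ2], by rw [hρ, hτ2', hs2, hτ1], fun c hc hca hcb => ?_⟩
    rw [hρ, hfix (τ.symm c) ?_ ?_ ?_, AlgEquiv.apply_symm_apply]
    · rw [hae]
      have h3 : aeval (τ.symm c) D = τ.symm (aeval c D) :=
        Polynomial.aeval_algHom_apply τ.symm c D
      rw [h3, hc, map_zero]
    · intro h
      apply hca
      rw [← hτ1, ← h, AlgEquiv.apply_symm_apply]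
    · intro h
      apply hcb
      rw [← hτ2, ← h, AlgEquiv.apply_symm_apply]
  have hroot : ∀ (ρ : F ≃ₐ[K] F) (c : F), aeval c D = 0 → aeval (ρ c) D = 0 := by
    intro ρ c hc
    rw [← hae] at hc ⊢
    have h3 : aeval (ρ c) (D.map (algebraMap k K)) = ρ (aeval c (D.map (algebraMap k K))) :=
      Polynomial.aeval_algHom_apply ρ c _
    rw [h3, hc, map_zero]
  intro b c b' c' hb hc hb' hc' hbc hbc'
  rw [comp_X, hae] at hb hc hb' hc'
  rw [aeval_X, aeval_X] at hbc hbc'
  -- first move `b` to `b'`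
  obtain ⟨ρ₁, hρ₁⟩ : ∃ ρ₁ : F ≃ₐ[K] F, ρ₁ b = b' := by
    by_cases h : b = b'
    · exact ⟨AlgEquiv.refl, h⟩
    · obtain ⟨ρ, h3, -⟩ := hT b b' hb hb' h
      exact ⟨ρ, h3⟩
  have hc1 := hroot ρ₁ c hc
  have hne : ρ₁ c ≠ b' := by
    rw [← hρ₁]
    exact fun h => hbc (ρ₁.injective h).symm
  by_cases h : ρ₁ c = c'
  · exact ⟨ρ₁, hρ₁, h⟩
  · obtain ⟨ρ₂, h3, -, h4⟩ := hT (ρ₁ c) c' hc1 hc' h
    refine ⟨ρ₁.trans ρ₂, ?_, h3⟩
    change ρ₂ (ρ₁ b) = b'
    rw [hρ₁]
    exact h4 b' hb' hne.symm hbc'

end Pool.Agent.Lib.MP_89bcae_ag
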