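import Mathlib
import Pool.Agent.Lib.MP_89bcae_ag.Rk.K045
import Pool.Agent.Lib.MP_89bcae_ag.Rk.K046

namespace Pool.Agent.Lib.MP_89bcae_ag.Sup
end Pool.Agent.Lib.MP_89bcae_ag.Sup

section

open Finset

namespace Pool.Agent.Lib.MP_89bcae_ag.Re

private def p02D (a b c d : ZMod 2) : ℕ → ZMod 2
  | 0 => a
  | 1 => b
  | 2 => c
  | 3 => d
  | _ + 4 => 0

private def p02K (D : ℕ → ZMod 2) (z : ZMod 2) : ℕ → ZMod 2
  | 0 => 1
  | 1 => D 0 + z
  | i + 2 => (D (i + 1) + z) * p02K D z (i + 1) + p02K D z i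

private theorem p02_neg (z : ZMod 2) : -z = z := by
  revert z; decide

private theorem p02_path {n : ℕ} (hn : 3 ≤ n) (D : ℕ → ZMod 2) (hK : ∀ z, p02K D z n = 1) :
    PathInj n D := by
  intro z v hv
  have hsub : ∀ x : ZMod 2, x - z = x + z := fun x => by rw [sub_eq_add_neg, p02_neg]
  have key : ∀ i, i < n → v i = v 0 * p02K D z i := by
    intro i
    induction i using Nat.strong_induction_on with
    | _ i ih =>
      intro hi
      match i, ih, hi with
      | 0, _, _ => simp [p02K]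
      | 1, _, hi =>
        have h := hv 0 (by omega)
        rw [if_pos rfl, if_neg (by omega), zero_add, hsub] at h
        have h' : v 1 = (D 0 + z) * v 0 := h.symm
        rw [h', p02K]
        ring
      | i + 2, ih, hi =>
        have h := hv (i + 1) (by omega)
        rw [if_neg (by omega), if_neg (by omega), hsub] at h
        have e1 : i + 1 - 1 = i := by omega
        rw [e1, ih (i + 1) (by omega) (by omega), ih i (by omega) (by omega)] at h
        have h2 : v (i + 2) = (D (i + 1) + z) * (v 0 * p02K D z (i + 1)) - v 0 * p02K D z i := by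
          rw [h]; ring
        rw [h2, p02K, sub_eq_add_neg, p02_neg]
        ring
  have hlast := hv (n - 1) (by omega)
  rw [if_neg (by omega), if_pos (by omega), hsub, add_zero, key (n - 1) (by omega),
    key (n - 1 - 1) (by omega)] at hlast
  obtain ⟨m, rfl⟩ : ∃ m, n = m + 2 := ⟨n - 2, by omega⟩
  have e1 : m + 2 - 1 = m + 1 := by omega
  have e2 : m + 1 - 1 = m := by omega
  rw [e1, e2] at hlast
  have hz := hK z
  rw [p02K] at hz
  have h0 : v 0 = 0 := by
    have h3 : v 0 * ((D (m + 1) + z) * p02K D z (m + 1) + p02K D z m) = 0 := by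
      have h4 : v 0 * ((D (m + 1) + z) * p02K D z (m + 1) + p02K D z m) =
        (D (m + 1) + z) * (v 0 * p02K D z (m + 1)) + v 0 * p02K D z m := by ring
      rw [h4, hlast]
      have h5 : v 0 * p02K D z m + v 0 * p02K D z m =
        v 0 * p02K D z m + -(v 0 * p02K D z m) := by rw [p02_neg]
      rw [h5, add_neg_cancel]
    rwa [hz, mul_one] at h3
  intro i hi
  rw [key i hi, h0, zero_mul]

private theorem p02_period (a b c d z : ZMod 2) (i : ℕ) :
    p02K (p02D a b c d) z (i + 9) = p02K (p02D a b c d) z (i + 3) := by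
  have h : ∀ j, p02K (p02D a b c d) z (j + 5) =
      z * p02K (p02D a b c d) z (j + 4) + p02K (p02D a b c d) z (j + 3) := by
    intro j
    rw [p02K]
    show (0 + z) * _ + _ = _
    rw [zero_add]
  have h4 := h (i + 4)
  have h3 := h (i + 3)
  have h2 := h (i + 2)
  have h1 := h (i + 1)
  have h0 := h i
  simp only [add_assoc] at h4 h3 h2 h1 h0
  norm_num at h4 h3 h2 h1 h0
  rw [h4, h3, h2, h1, h0]
  have key : ∀ z x y : ZMod 2,
      z * (z * (z * (z * (z * x + y) + x) + (z * x + y)) + (z * (z * x + y) + x)) +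
        (z * (z * (z * x + y) + x) + (z * x + y)) = y := by decide
  exact key _ _ _

private theorem p02_per (a b c d z : ZMod 2) (r k : ℕ) :
    p02K (p02D a b c d) z (r + 3 + 6 * k) = p02K (p02D a b c d) z (r + 3) := by
  induction k with
  | zero => rfl
  | succ k ih =>
    rw [← ih]
    have h := p02_period a b c d z (r + 6 * k)
    have e1 : r + 3 + 6 * (k + 1) = r + 6 * k + 9 := by ring
    have e2 : r + 3 + 6 * k = r + 6 * k + 3 := by ring
    rw [e1, e2, h]

private theorem p02_sum (a b c d : ZMod 2) (j : ℕ) :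
    ∑ i ∈ range (4 + j), p02D a b c d i = a + b + c + d := by
  induction j with
  | zero => simp [Finset.sum_range_succ, p02D]
  | succ j ih =>
    rw [← add_assoc, Finset.sum_range_succ, ih]
    have : p02D a b c d (4 + j) = 0 := by
      rw [add_comm]; rfl
    rw [this, add_zero]

private theorem p02_main (a b c d : ZMod 2) (r : ℕ)
    (h1 : ∀ z, p02K (p02D a b c d) z (r + 3) = 1)
    (h2 : a + b + c + d = 0) (h3 : d = 0 ∨ r ≠ 0) (k : ℕ) :
    ∃ D : ℕ → ZMod 2, PathInj (r + 3 + 6 * k) D ∧ ∑ i ∈ range (r + 3 + 6 * k), D i = 0 := by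
  refine ⟨p02D a b c d, p02_path (by omega) _ fun z => ?_, ?_⟩
  · rw [p02_per, h1]
  · by_cases h : r + 3 + 6 * k = 3
    · rw [h]
      have hd : d = 0 := by
        rcases h3 with h3 | h3
        · exact h3
        · omega
      rw [hd, add_zero] at h2
      simpa [Finset.sum_range_succ, p02D] using h2
    · obtain ⟨j, hj⟩ : ∃ j, r + 3 + 6 * k = 4 + j := ⟨r + 3 + 6 * k - 4, by omega⟩
      rw [hj, p02_sum, h2]

/-- The case `ℓ = 2`, with the sum of the diagonal equal to zero. Proof: for `D` and `z` let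
`K D z : ℕ → ZMod 2`, `K 0 = 1`, `K 1 = D 0 + z`, `K (i+2) = (D (i+1) + z) K (i+1) + K i` (signs do not
matter). As in `exists_path`, a solution `v` is `v 0 * K` on `[0, n-1]` and the last equation says
`v 0 * K D z n = 0`; so `PathInj n D` holds iff `K D 0 n = 1` and `K D 1 n = 1`. Take `D i = 0` for
`i ≥ 4` and the first four values: `n % 6 = 0` or `4`: `0 0 0 0`; `n % 6 = 3` or `5`: `1 1 0 0`;
`n % 6 = 1`: `1 0 0 1`; `n % 6 = 2`: `1 0 1 0`. (Checked by computer for `n ≤ 15`.) With `D i = 0` for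
`i ≥ 4` the sequence `K D 0` has period `2` and `K D 1` has period `3` from `i = 3` on
(`K (i+2) = K i`, respectively `K (i+2) = K (i+1) + K i`), so both have period `6`: induction from the
values at `n = 3, .., 9`, which are checked by `decide`. -/
theorem exists_path_two {n : ℕ} (hn : 3 ≤ n) :
    ∃ D : ℕ → ZMod 2, PathInj n D ∧ ∑ i ∈ range n, D i = 0 := by
  obtain ⟨m, rfl⟩ : ∃ m, n = m + 3 := ⟨n - 3, by omega⟩
  obtain ⟨r, k, hr, rfl⟩ : ∃ r k, r < 6 ∧ m = r + 6 * k := ⟨m % 6, m / 6, Nat.mod_lt _ (by omega),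
    (Nat.mod_add_div m 6).symm⟩
  have e : r + 6 * k + 3 = r + 3 + 6 * k := by ring
  rw [e]
  interval_cases r
  · exact p02_main 1 1 0 0 0 (by decide) (by decide) (Or.inl rfl) k
  · exact p02_main 0 0 0 0 1 (by decide) (by decide) (Or.inl rfl) k
  · exact p02_main 1 1 0 0 2 (by decide) (by decide) (Or.inl rfl) k
  · exact p02_main 0 0 0 0 3 (by decide) (by decide) (Or.inl rfl) k
  · exact p02_main 1 0 0 1 4 (by decide) (by decide) (Or.inr (by decide)) k
  · exact p02_main 1 0 1 0 5 (by decide) (by decide) (Or.inl rfl) k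

end Pool.Agent.Lib.MP_89bcae_ag.Re

end

section

open Polynomial

open scoped Classical

namespace Pool.Agent.Lib.MP_89bcae_ag.Re

open Sup

/-- The function `o` is a homomorphism on `K`, zero on the differences of elements of `S`, except for
the pairs between the fibres of `p` over `α` and `α'`, where it is `1`. -/
structure AOne {F : Type*} [Field F] (K : Subfield F) (S : Finset F) (p : F → F) (α α' : F)
    (o : F → ℤ) : Prop where
  mul : ∀ a ∈ K, ∀ b ∈ K, a ≠ 0 → b ≠ 0 → o (a * b) = o a + o b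
  same : ∀ β ∈ S, ∀ β' ∈ S, β ≠ β' → p β = p β' → o (β - β') = 0
  out : ∀ β ∈ S, ∀ β' ∈ S, p β ≠ p β' → ¬ (p β = α ∧ p β' = α') →
    ¬ (p β = α' ∧ p β' = α) → o (β - β') = 0
  left : ∀ β ∈ S, p β = α → ∀ β' ∈ S, p β' = α' → o (β - β') = 1

/-- Proof: `o₁ z = ∑ σ ∈ J, o (σ⁻¹ z)`. This is contained in the proof of `Sup.exists_lam` (file
`Tow/M11`), for the term with `c` there (`o''`): copy it. -/
theorem exists_aOne {k F : Type*} [Field k] [Field F] [Algebra k F]
    {g E : k[X]} (S : Finset F) (hS : ∀ b, b ∈ S ↔ aeval (aeval b g) E = 0) {α α' : F}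
    (h1 : α ≠ α') {J : Finset (F ≃ₐ[k] F)}
    (hJ1 : ∀ x y : F, aeval x g = α → aeval y g = α →
      ∃ σ ∈ J, σ x = y ∧ ∀ τ ∈ J, τ x = y → τ = σ)
    (hJ2 : ∀ σ ∈ J, ∀ b : F, aeval b (E.comp g) = 0 → aeval b g ≠ α → σ b = b)
    {M : F → F} {o : F → ℤ}
    (ho : MOrd (IntermediateField.adjoin k (S : Set F)).toSubfield S
      (fun b => aeval b g) α α' M o) :
    ∃ o₁ : F → ℤ, AOne (IntermediateField.adjoin k (S : Set F)).toSubfield S
      (fun b => aeval b g) α α' o₁ := by
  have hp : ∀ (σ : F ≃ₐ[k] F) (b : F), aeval (σ b) g = σ (aeval b g) := fun σ b => by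
    have := Polynomial.aeval_algHom_apply (σ : F →ₐ[k] F) b g
    simpa using this
  have hE : ∀ (σ : F ≃ₐ[k] F) (b : F), aeval (σ b) E = σ (aeval b E) := fun σ b => by
    have := Polynomial.aeval_algHom_apply (σ : F →ₐ[k] F) b E
    simpa using this
  have hSσ : ∀ (σ : F ≃ₐ[k] F) (b : F), b ∈ S → σ b ∈ S := fun σ b hb => by
    rw [hS] at hb ⊢
    rw [hp, hE, hb, map_zero]
  have hinv : ∀ (σ : F ≃ₐ[k] F) (b : F), σ (σ⁻¹ b) = b := fun σ b => by
    rw [← AlgEquiv.mul_apply, mul_inv_cancel, AlgEquiv.one_apply]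
  have hinv' : ∀ (σ : F ≃ₐ[k] F) (b : F), σ⁻¹ (σ b) = b := fun σ b => by
    rw [← AlgEquiv.mul_apply, inv_mul_cancel, AlgEquiv.one_apply]
  have hfix : ∀ σ ∈ J, ∀ b ∈ S, aeval b g ≠ α → σ⁻¹ b = b := fun σ hσ b hb hba => by
    have h : σ b = b := hJ2 σ hσ b (by rw [aeval_comp]; exact (hS b).1 hb) hba
    have h' := hinv' σ b
    rwa [h] at h'
  have hal : ∀ σ ∈ J, ∀ b ∈ S, aeval b g = α → aeval (σ⁻¹ b) g = α := fun σ hσ b hb hba => by
    by_contra hne
    have hmem : σ⁻¹ b ∈ S := hSσ _ _ hb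
    have h : σ (σ⁻¹ b) = σ⁻¹ b :=
      hJ2 σ hσ (σ⁻¹ b) (by rw [aeval_comp]; exact (hS _).1 hmem) hne
    rw [hinv] at h
    rw [← h] at hne
    exact hne hba
  have hpp : ∀ σ ∈ J, ∀ b ∈ S, aeval (σ⁻¹ b) g = aeval b g := fun σ hσ b hb => by
    by_cases h : aeval b g = α
    · rw [hal σ hσ b hb h, h]
    · rw [hfix σ hσ b hb h]
  have hK : ∀ (σ : F ≃ₐ[k] F) (x : F), x ∈ IntermediateField.adjoin k (S : Set F) →
      σ x ∈ IntermediateField.adjoin k (S : Set F) := fun σ x hx => by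
    have h1 : σ x ∈ (IntermediateField.adjoin k (S : Set F)).map (σ : F →ₐ[k] F) :=
      ⟨x, hx, rfl⟩
    rw [IntermediateField.adjoin_map] at h1
    refine IntermediateField.adjoin.mono k _ _ ?_ h1
    rintro _ ⟨b, hb, rfl⟩
    exact hSσ σ b hb
  refine ⟨fun z => ∑ σ ∈ J, o (σ⁻¹ z), ?_, ?_, ?_, ?_⟩
  · intro x hx y hy hx0 hy0
    have e2 : ∀ σ : F ≃ₐ[k] F, o (σ⁻¹ (x * y)) = o (σ⁻¹ x) + o (σ⁻¹ y) := fun σ => by
      rw [map_mul]
      exact ho.mul _ (hK _ _ hx) _ (hK _ _ hy) (by simpa using hx0) (by simpa using hy0)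
    simp only [e2]
    rw [Finset.sum_add_distrib]
  · intro β hβ β' hβ' hne hb
    refine Finset.sum_eq_zero fun σ _ => ?_
    rw [map_sub]
    refine ho.same _ (hSσ _ _ hβ) _ (hSσ _ _ hβ') (fun h => hne (σ⁻¹.injective h)) ?_
    simp only [hp]
    exact congrArg _ hb
  · intro β hβ β' hβ' hne hn1 hn2
    refine Finset.sum_eq_zero fun σ hσ => ?_
    rw [map_sub]
    have e1 := hpp σ hσ β hβ
    have e2 := hpp σ hσ β' hβ'
    refine ho.out _ (hSσ _ _ hβ) _ (hSσ _ _ hβ') ?_ ?_ ?_
    · simp only [e1, e2]; exact hne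
    · simp only [e1, e2]; exact hn1
    · simp only [e1, e2]; exact hn2
  · intro β hβ hβa β' hβ' hβa'
    obtain ⟨x₀, hx₀, hx₀a, hx₀M⟩ := ho.surj β' hβ' hβa'
    obtain ⟨σ₀, hσ₀, hσ₀x, huniq⟩ := hJ1 x₀ β hx₀a hβa
    have e2 : ∀ σ ∈ J, o (σ⁻¹ (β - β')) = if σ = σ₀ then 1 else 0 := fun σ hσ => by
      have hb' : σ⁻¹ β' = β' := hfix σ hσ β' hβ' (by
        have : aeval β' g = α' := hβa'
        rw [this]; exact h1.symm)
      have hb : aeval (σ⁻¹ β) g = α := hal σ hσ β hβ hβa
      rw [map_sub, hb']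
      have : o (σ⁻¹ β - β') = if β' = M (σ⁻¹ β) then 1 else 0 :=
        ho.left (σ⁻¹ β) (hSσ _ _ hβ) hb β' hβ' hβa'
      rw [this]
      have hiff : β' = M (σ⁻¹ β) ↔ σ = σ₀ := by
        constructor
        · intro h
          refine huniq σ hσ ?_
          have : x₀ = σ⁻¹ β := ho.inj x₀ hx₀ _ (hSσ _ _ hβ) hx₀a hb (hx₀M.trans h)
          rw [this, hinv]
        · rintro rfl
          rw [← hσ₀x, hinv', hx₀M]
      by_cases h : σ = σ₀
      · rw [if_pos h, if_pos (hiff.2 h)]
      · rw [if_neg h, if_neg (fun h' => h (hiff.1 h'))]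
    show ∑ σ ∈ J, o (σ⁻¹ (β - β')) = 1
    rw [Finset.sum_congr rfl e2]
    simp [hσ₀]

end Pool.Agent.Lib.MP_89bcae_ag.Re

end

section

open Polynomial Finset

open scoped Classical

namespace Pool.Agent.Lib.MP_89bcae_ag.Re

open Sup

/-- Combination of the matchings and of the all-ones functions. Here `K` is a subfield containing `S`.
Proof: `lam z = ∑ i ∈ range n, ∑ j ∈ (range n).filter (i < ·), (x i j * o i j z + y i j * o₁ i j z)`.
On the difference of an element over `a i` and one over `a j`, `i < j`, only the term `(i, j)` is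
different from zero (`MOrd.out`, `AOne.out`, injectivity of `a` on `[0, n)`); on differences in the same
fibre all terms are zero; `lam (-1) = 0` because `2 * o (-1) = o 1 = 0` in `ℤ` (see
`Sup.te06_ord_neg`), and `β - β' = (-1) * (β' - β)`. -/
theorem exists_lam_sum {F : Type*} [Field F] {ℓ n : ℕ} (K : Subfield F) (S : Finset F)
    (hSK : ∀ b ∈ S, b ∈ K) (p : F → F) (a : ℕ → F)
    (ha : ∀ i < n, ∀ j < n, a i = a j → i = j) (M : ℕ → ℕ → F → F) (o o₁ : ℕ → ℕ → F → ℤ)
    (ho : ∀ i j, i < j → j < n → MOrd K S p (a i) (a j) (M i j) (o i j))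
    (ho₁ : ∀ i j, i < j → j < n → AOne K S p (a i) (a j) (o₁ i j)) (x y : ℕ → ℕ → ZMod ℓ) :
    ∃ lam : F → ZMod ℓ,
      (∀ z ∈ K, ∀ w ∈ K, z ≠ 0 → w ≠ 0 → lam (z * w) = lam z + lam w) ∧ lam (-1) = 0 ∧
      (∀ β ∈ S, ∀ β' ∈ S, β ≠ β' → p β = p β' → lam (β - β') = 0) ∧
      (∀ β ∈ S, ∀ β' ∈ S, β ≠ β' → lam (β - β') = lam (β' - β)) ∧
      (∀ i j, i < j → j < n → ∀ β ∈ S, p β = a i → ∀ β' ∈ S, p β' = a j →
        lam (β - β') = x i j * (if β' = M i j β then 1 else 0) + y i j) := by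
  let lam : F → ZMod ℓ := fun z => ∑ i ∈ range n, ∑ j ∈ (range n).filter (fun j => i < j),
    (x i j * (o i j z : ZMod ℓ) + y i j * (o₁ i j z : ZMod ℓ))
  have hlam : ∀ z, lam z = ∑ i ∈ range n, ∑ j ∈ (range n).filter (fun j => i < j),
    (x i j * (o i j z : ZMod ℓ) + y i j * (o₁ i j z : ZMod ℓ)) := fun z => rfl
  have hzero : ∀ z, (∀ i j, i < j → j < n → o i j z = 0) → (∀ i j, i < j → j < n → o₁ i j z = 0) →
      lam z = 0 := by
    intro z h1 h2
    rw [hlam]
    refine Finset.sum_eq_zero fun i _ => Finset.sum_eq_zero fun j hj => ?_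
    have hj' := Finset.mem_filter.1 hj
    have hjn := Finset.mem_range.1 hj'.1
    rw [h1 i j hj'.2 hjn, h2 i j hj'.2 hjn]
    simp
  have hmul : ∀ z ∈ K, ∀ w ∈ K, z ≠ 0 → w ≠ 0 → lam (z * w) = lam z + lam w := by
    intro z hz w hw hz0 hw0
    rw [hlam, hlam, hlam, ← Finset.sum_add_distrib]
    refine Finset.sum_congr rfl fun i _ => ?_
    rw [← Finset.sum_add_distrib]
    refine Finset.sum_congr rfl fun j hj => ?_
    have hj' := Finset.mem_filter.1 hj
    have hjn := Finset.mem_range.1 hj'.1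
    rw [(ho i j hj'.2 hjn).mul z hz w hw hz0 hw0, (ho₁ i j hj'.2 hjn).mul z hz w hw hz0 hw0]
    push_cast
    ring
  have hneg1 : lam (-1) = 0 := by
    have gen : ∀ f : F → ℤ, (∀ a ∈ K, ∀ b ∈ K, a ≠ 0 → b ≠ 0 → f (a * b) = f a + f b) →
        f (-1) = 0 := by
      intro f hf
      have h1 : f (1 * 1) = f 1 + f 1 := hf 1 K.one_mem 1 K.one_mem one_ne_zero one_ne_zero
      have h2 : f ((-1) * (-1)) = f (-1) + f (-1) :=
        hf (-1) (K.neg_mem K.one_mem) (-1) (K.neg_mem K.one_mem) (neg_ne_zero.2 one_ne_zero)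
          (neg_ne_zero.2 one_ne_zero)
      rw [mul_one] at h1
      rw [neg_one_mul, neg_neg] at h2
      omega
    exact hzero _ (fun i j h1 h2 => gen _ (ho i j h1 h2).mul) (fun i j h1 h2 => gen _ (ho₁ i j h1 h2).mul)
  have hsame : ∀ β ∈ S, ∀ β' ∈ S, β ≠ β' → p β = p β' → lam (β - β') = 0 := by
    intro β hβ β' hβ' hne hpp
    exact hzero _ (fun i j h1 h2 => (ho i j h1 h2).same β hβ β' hβ' hne hpp)
      (fun i j h1 h2 => (ho₁ i j h1 h2).same β hβ β' hβ' hne hpp)
  refine ⟨lam, hmul, hneg1, hsame, ?_, ?_⟩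
  · intro β hβ β' hβ' hne
    have e : β - β' = (-1) * (β' - β) := by ring
    rw [e, hmul (-1) (K.neg_mem K.one_mem) _ (K.sub_mem (hSK _ hβ') (hSK _ hβ))
      (neg_ne_zero.2 one_ne_zero) (sub_ne_zero.2 hne.symm), hneg1, zero_add]
  · intro i j hij hj β hβ hβa β' hβ' hβa'
    have hi : i < n := hij.trans hj
    have hpne : p β ≠ p β' := by
      intro h
      rw [hβa, hβa'] at h
      exact hij.ne (ha i hi j hj h)
    -- other pairs
    have hoth : ∀ i' j', i' < j' → j' < n → ¬ (i' = i ∧ j' = j) →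
        ¬ (p β = a i' ∧ p β' = a j') ∧ ¬ (p β = a j' ∧ p β' = a i') := by
      intro i' j' h1 h2 h3
      have hi' : i' < n := h1.trans h2
      constructor
      · rintro ⟨e1, e2⟩
        rw [hβa] at e1
        rw [hβa'] at e2
        exact h3 ⟨(ha i hi i' hi' e1).symm, (ha j hj j' h2 e2).symm⟩
      · rintro ⟨e1, e2⟩
        rw [hβa] at e1
        rw [hβa'] at e2
        have := ha i hi j' h2 e1
        have := ha j hj i' hi' e2
        omega
    rw [hlam, Finset.sum_eq_single i, Finset.sum_eq_single j]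
    · have e1 : o i j (β - β') = if β' = M i j β then 1 else 0 :=
        (ho i j hij hj).left β hβ hβa β' hβ' hβa'
      have e2 : o₁ i j (β - β') = 1 := (ho₁ i j hij hj).left β hβ hβa β' hβ' hβa'
      rw [e1, e2]
      split_ifs <;> simp
    · intro j' hj' hne
      have h4 := Finset.mem_filter.1 hj'
      have h5 := Finset.mem_range.1 h4.1
      obtain ⟨h6, h7⟩ := hoth i j' h4.2 h5 (fun h => hne h.2)
      rw [(ho i j' h4.2 h5).out β hβ β' hβ' hpne h6 h7,
        (ho₁ i j' h4.2 h5).out β hβ β' hβ' hpne h6 h7]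
      simp
    · intro h
      exact absurd (Finset.mem_filter.2 ⟨Finset.mem_range.2 hj, hij⟩) h
    · intro i' _ hne
      refine Finset.sum_eq_zero fun j' hj' => ?_
      have h4 := Finset.mem_filter.1 hj'
      have h5 := Finset.mem_range.1 h4.1
      obtain ⟨h6, h7⟩ := hoth i' j' h4.2 h5 (fun h => hne h.1)
      rw [(ho i' j' h4.2 h5).out β hβ β' hβ' hpne h6 h7,
        (ho₁ i' j' h4.2 h5).out β hβ β' hβ' hpne h6 h7]
      simp
    · intro h
      exact absurd (Finset.mem_range.2 hi) h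

end Pool.Agent.Lib.MP_89bcae_ag.Re

end

section

open Polynomial Finset

open scoped Classical

namespace Pool.Agent.Lib.MP_89bcae_ag.Re

open Sup

universe u

/-- the orbit of the matchings -/
private noncomputable def p07_orb {F : Type*} (M : ℕ → F → F) (s : F) : ℕ → F
  | 0 => s
  | i + 1 => M i (p07_orb M s i)

private theorem p07_orb_mem {F : Type*} [Field F] {ℓ : ℕ} {n m : ℕ} {S : Finset F} {p : F → F}
    {a : ℕ → F} {M : ℕ → F → F} {y : ℕ → ℕ → ZMod ℓ} {kp : F → ZMod ℓ}
    (h : PathSym n m S p a M y kp) {s : F} (hs : s ∈ S) (hs0 : p s = a 0) :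
    ∀ i < n, p07_orb M s i ∈ S ∧ p (p07_orb M s i) = a i := by
  intro i
  induction i with
  | zero => intro _; exact ⟨hs, hs0⟩
  | succ i ih =>
    intro hi
    obtain ⟨h1, h2⟩ := ih (by omega)
    exact h.mmem i hi _ h1 h2

private theorem p07_orb_surj {F : Type*} [Field F] {ℓ : ℕ} {n m : ℕ} {S : Finset F} {p : F → F}
    {a : ℕ → F} {M : ℕ → F → F} {y : ℕ → ℕ → ZMod ℓ} {kp : F → ZMod ℓ}
    (h : PathSym n m S p a M y kp) :
    ∀ i < n, ∀ β ∈ S, p β = a i → ∃ s ∈ S, p s = a 0 ∧ p07_orb M s i = β := by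
  intro i
  induction i with
  | zero => intro _ β hβ hβ0; exact ⟨β, hβ, hβ0, rfl⟩
  | succ i ih =>
    intro hi β hβ hβi
    obtain ⟨β₁, h1, h2, h3⟩ := h.msurj i hi β hβ hβi
    obtain ⟨s, hs, hs0, hs1⟩ := ih (by omega) β₁ h1 h2
    refine ⟨s, hs, hs0, ?_⟩
    show M i (p07_orb M s i) = β
    rw [hs1, h3]

/-- the constants vanish -/
private theorem p07_cst {F : Type*} [Field F] {ℓ : ℕ} [Fact ℓ.Prime] {n m : ℕ} {S : Finset F} {p : F → F}
    {a : ℕ → F} {M : ℕ → F → F} {y : ℕ → ℕ → ZMod ℓ} {kp : F → ZMod ℓ}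
    (h : PathSym n m S p a M y kp) (hm : (m : ZMod ℓ) ≠ 0) {D : ℕ → ZMod ℓ}
    (hD : ∀ i < n, ∑ j ∈ (range n).erase i,
      ((if j = i + 1 ∨ i = j + 1 then 1 else 0) + (m : ZMod ℓ) * y i j) = D i)
    (e : F → ZMod ℓ) (N : ZMod ℓ) (cst : F → ZMod ℓ)
    (he : ∀ i < n, ∑ β ∈ S.filter (fun β => p β = a i), e β = 0)
    (heq : ∀ β ∈ S, ∑ β' ∈ S.filter (fun β' => p β' ≠ p β), kp (β - β') * (e β - e β') + N * e β =
      cst (p β)) {i : ℕ} (hi : i < n) : cst (a i) = 0 := by
  have hpr : ∀ β : F, ∃ β₀ : F, β ∈ S → p β = a i → i ≠ 0 → β₀ ∈ S ∧ p β₀ = a (i - 1) ∧ M (i - 1) β₀ = β := by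
    intro β
    by_cases hc : β ∈ S ∧ p β = a i ∧ i ≠ 0
    · obtain ⟨h1, h2, h3⟩ := hc
      have hi1 : i - 1 + 1 = i := by omega
      obtain ⟨β₀, k1, k2, k3⟩ := h.msurj (i - 1) (by omega) β h1 (by rw [hi1]; exact h2)
      exact ⟨β₀, fun _ _ _ => ⟨k1, k2, k3⟩⟩
    · exact ⟨β, fun h1 h2 h3 => absurd ⟨h1, h2, h3⟩ hc⟩
  choose pr hpr using hpr
  have h1 : ∀ β ∈ S.filter (fun β => p β = a i), cst (a i) = D i * e β - (if i = 0 then 0 else e (pr β)) -
      (if i + 1 = n then 0 else e (M i β)) + N * e β := by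
    intro β hβ
    obtain ⟨hβS, hβi⟩ := Finset.mem_filter.1 hβ
    rw [← h.sum_eq hD e he hi hβS hβi (β₀ := pr β) (hpr β hβS hβi), heq β hβS, hβi]
  have h2 : (m : ZMod ℓ) * cst (a i) = 0 := by
    have h3 : ∑ _β ∈ S.filter (fun β => p β = a i), cst (a i) = (m : ZMod ℓ) * cst (a i) := by
      rw [Finset.sum_const, h.card i hi, nsmul_eq_mul]
    rw [← h3, Finset.sum_congr rfl h1, Finset.sum_add_distrib, Finset.sum_sub_distrib, Finset.sum_sub_distrib,
      ← Finset.mul_sum, ← Finset.mul_sum, he i hi]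
    have h4 : ∑ β ∈ S.filter (fun β => p β = a i), (if i = 0 then 0 else e (pr β)) = 0 := by
      by_cases h0 : i = 0
      · exact Finset.sum_eq_zero fun β _ => if_pos h0
      · rw [Finset.sum_congr rfl fun β _ => if_neg h0, ← he (i - 1) (by omega)]
        refine Finset.sum_nbij' pr (M (i - 1)) ?_ ?_ ?_ ?_ ?_
        · intro β hβ
          obtain ⟨k1, k2⟩ := Finset.mem_filter.1 hβ
          exact Finset.mem_filter.2 ⟨(hpr β k1 k2 h0).1, (hpr β k1 k2 h0).2.1⟩
        · intro β hβ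
          obtain ⟨k1, k2⟩ := Finset.mem_filter.1 hβ
          have := h.mmem (i - 1) (by omega) β k1 k2
          rw [Nat.sub_add_cancel (Nat.one_le_iff_ne_zero.2 h0)] at this
          exact Finset.mem_filter.2 this
        · intro β hβ
          obtain ⟨k1, k2⟩ := Finset.mem_filter.1 hβ
          exact (hpr β k1 k2 h0).2.2
        · intro β hβ
          obtain ⟨k1, k2⟩ := Finset.mem_filter.1 hβ
          have k3 := h.mmem (i - 1) (by omega) β k1 k2
          rw [Nat.sub_add_cancel (Nat.one_le_iff_ne_zero.2 h0)] at k3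
          obtain ⟨q1, q2, q3⟩ := hpr _ k3.1 k3.2 h0
          exact h.minj (i - 1) (by omega) _ q1 _ k1 q2 k2 q3
        · intro β _; rfl
    have h5 : ∑ β ∈ S.filter (fun β => p β = a i), (if i + 1 = n then 0 else e (M i β)) = 0 := by
      by_cases h0 : i + 1 = n
      · exact Finset.sum_eq_zero fun β _ => if_pos h0
      · have hi1 : i + 1 < n := by omega
        rw [Finset.sum_congr rfl fun β _ => if_neg h0, ← he (i + 1) hi1]
        refine Finset.sum_nbij (M i) ?_ ?_ ?_ ?_
        · intro β hβ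
          obtain ⟨k1, k2⟩ := Finset.mem_filter.1 hβ
          exact Finset.mem_filter.2 (h.mmem i hi1 β k1 k2)
        · intro β hβ β' hβ' hM
          obtain ⟨k1, k2⟩ := Finset.mem_filter.1 (Finset.mem_coe.1 hβ)
          obtain ⟨k3, k4⟩ := Finset.mem_filter.1 (Finset.mem_coe.1 hβ')
          exact h.minj i hi1 β k1 β' k3 k2 k4 hM
        · intro β hβ
          obtain ⟨k1, k2⟩ := Finset.mem_filter.1 (Finset.mem_coe.1 hβ)
          obtain ⟨β₁, q1, q2, q3⟩ := h.msurj i hi1 β k1 k2
          exact ⟨β₁, Finset.mem_coe.2 (Finset.mem_filter.2 ⟨q1, q2⟩), q3⟩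
        · intro β _; rfl
    rw [h4, h5]
    ring
  exact (mul_eq_zero.1 h2).resolve_left hm

private theorem p07_core {F : Type*} [Field F] {ℓ : ℕ} [Fact ℓ.Prime] {n m : ℕ} {S : Finset F} {p : F → F}
    {a : ℕ → F} {M : ℕ → F → F} {y : ℕ → ℕ → ZMod ℓ} {kp : F → ZMod ℓ}
    (h : PathSym n m S p a M y kp) (hm : (m : ZMod ℓ) ≠ 0) {D : ℕ → ZMod ℓ}
    (hD : ∀ i < n, ∑ j ∈ (range n).erase i,
      ((if j = i + 1 ∨ i = j + 1 then 1 else 0) + (m : ZMod ℓ) * y i j) = D i)
    (hP : PathInj n D)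
    (e : F → ZMod ℓ) (N : ZMod ℓ) (cst : F → ZMod ℓ)
    (he : ∀ i < n, ∑ β ∈ S.filter (fun β => p β = a i), e β = 0)
    (heq : ∀ β ∈ S, ∑ β' ∈ S.filter (fun β' => p β' ≠ p β), kp (β - β') * (e β - e β') + N * e β =
      cst (p β)) : ∀ β ∈ S, e β = 0 := by
  intro β hβ
  obtain ⟨i, hi, hβi⟩ := h.fib β hβ
  obtain ⟨s, hs, hs0, rfl⟩ := p07_orb_surj h i hi β hβ hβi
  have key : ∀ j < n, (D j - (-N)) * e (p07_orb M s j) = (if j = 0 then 0 else e (p07_orb M s (j - 1))) +
      (if j + 1 = n then 0 else e (p07_orb M s (j + 1))) := by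
    intro j hj
    obtain ⟨k1, k2⟩ := p07_orb_mem h hs hs0 j hj
    have h1 := h.sum_eq hD e he hj k1 k2 (β₀ := p07_orb M s (j - 1)) (fun hj0 => by
      obtain ⟨q1, q2⟩ := p07_orb_mem h hs hs0 (j - 1) (by omega)
      refine ⟨q1, q2, ?_⟩
      have hj1 : j = j - 1 + 1 := by omega
      conv_rhs => rw [hj1]
      rfl)
    have h2 := heq _ k1
    rw [h1, k2, p07_cst h hm hD e N cst he heq hj] at h2
    have h3 : M j (p07_orb M s j) = p07_orb M s (j + 1) := rfl
    rw [h3] at h2
    linear_combination h2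
  exact hP (-N) (fun j => e (p07_orb M s j)) key i hi

/-- Proof: let `e`, `N`, `cst` be as in `SepU` with the equation on all fibres (`B = univ`); the sum
`sumS` over the same fibre is zero (`same`; the term `β' = β` is zero). So for `β` over `a i`, with the
notations of `PathSym.sum_eq`, `D i * e β - e β₀ - e (M i β) + N * e β = cst (a i)` (boundary terms
omitted). Sum over the fibre of `a i` (the maps `β ↦ β₀`, `β ↦ M i β` are bijections to the neighbouring
fibres, all sums of `e` over fibres are zero): `m * cst (a i) = 0`, so `cst (a i) = 0`. Now let `β` over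
`a 0` be given, put `b 0 = β`, `b (i+1) = M i (b i)`, `v i = e (b i)` for `i < n` and `v i = 0` for
`i ≥ n`: `(D i - (-N)) * v i = v (i-1) + v (i+1)` (with boundary terms), so `v i = 0` for `i < n` by
`PathInj` with `z = -N`. Every element over `a i` is `b i` for some `β` over `a 0`
(induction with `msurj`). -/
theorem PathSym.sepU {k F : Type u} [Field k] [Field F] [Algebra k F] {ℓ : ℕ} [Fact ℓ.Prime]
    {g E : k[X]} {n m : ℕ} {a : ℕ → F} {M : ℕ → F → F} {y : ℕ → ℕ → ZMod ℓ} {kp : F → ZMod ℓ}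
    (h : PathSym n m (RR F g E) (fun β => aeval β g) a M y kp) (hn : 0 < n)
    (hm : (m : ZMod ℓ) ≠ 0) {D : ℕ → ZMod ℓ}
    (hD : ∀ i < n, ∑ j ∈ (range n).erase i,
      ((if j = i + 1 ∨ i = j + 1 then 1 else 0) + (m : ZMod ℓ) * y i j) = D i)
    (hP : PathInj n D) (μ : ZMod ℓ) : SepU g E kp μ Set.univ := by
  intro e N cst hsum heq β hβ _
  refine p07_core h hm hD hP e N cst ?_ ?_ β hβ
  · intro i _
    rcases ((RR F g E).filter (fun β => aeval β g = a i)).eq_empty_or_nonempty with h0 | ⟨γ, hγ⟩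
    · rw [h0, Finset.sum_empty]
    · obtain ⟨h1, h2⟩ := Finset.mem_filter.1 hγ
      have h3 := hsum γ h1
      rw [h2] at h3
      exact h3
  · intro γ hγ
    have h1 := heq γ hγ (Set.mem_univ _)
    have h2 : sumS g E kp e γ = 0 := by
      unfold sumS
      refine Finset.sum_eq_zero fun β' hβ' => ?_
      obtain ⟨k1, k2⟩ := Finset.mem_filter.1 hβ'
      by_cases hc : γ = β'
      · rw [hc, sub_self (e β'), mul_zero]
      · rw [h.same γ hγ β' k1 hc k2.symm, zero_mul]
    rw [h2, mul_zero, add_zero] at h1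
    exact h1

end Pool.Agent.Lib.MP_89bcae_ag.Re

end

section

open Polynomial Finset

open scoped Classical

namespace Pool.Agent.Lib.MP_89bcae_ag.Re

open Sup

/-- If `E ∘ g` is separable, so is `E`. -/
private lemma p08_separable {κ : Type*} [Field κ] {g D : κ[X]} (hg : g.natDegree ≠ 0)
    (h : (D.comp g).Separable) : D.Separable := by
  rw [Polynomial.Separable, isCoprime_iff_aeval_ne_zero_of_isAlgClosed (k := κ)
    (AlgebraicClosure κ)]
  intro a
  by_contra hcon
  push Not at hcon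
  obtain ⟨h1, h2⟩ := hcon
  have hdeg : (g.map (algebraMap κ (AlgebraicClosure κ)) - C a).degree ≠ 0 := by
    intro h3
    have h4 := natDegree_eq_zero_iff_degree_le_zero.mpr h3.le
    rw [natDegree_sub_C, natDegree_map] at h4
    exact hg h4
  obtain ⟨b, hb⟩ := IsAlgClosed.exists_root _ hdeg
  have hb2 : aeval b g = a := by
    rw [IsRoot.def, eval_sub, eval_C, sub_eq_zero, eval_map_algebraMap] at hb
    exact hb
  obtain ⟨u, v, huv⟩ := h
  have h3 := congrArg (aeval b) huv
  rw [derivative_comp, map_add, map_mul, map_mul, map_mul, aeval_comp, aeval_comp, hb2, h1, h2] at h3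
  simp at h3

/-- The fibres over the roots of `E` have `deg g` elements. -/
private lemma p08_card {k F : Type} [Field k] [Field F] [Algebra k F] [IsAlgClosed F] {ℓ : ℕ}
    {g E : k[X]} {ζ : k} (H : GlobHyp ℓ g E ζ) {a : F} (ha : aeval a E = 0) :
    ((RR F g E).filter (fun β => aeval β g = a)).card = g.natDegree := by
  have h1 : g.map (algebraMap k F) - C a ∣ (E.comp g).map (algebraMap k F) := by
    rw [Polynomial.map_comp]
    have h2 : X - C a ∣ E.map (algebraMap k F) := by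
      rw [dvd_iff_isRoot, IsRoot.def, eval_map_algebraMap, ha]
    obtain ⟨q, hq⟩ := h2
    refine ⟨q.comp (g.map (algebraMap k F)), ?_⟩
    rw [hq, mul_comp, sub_comp, X_comp, C_comp]
  have hsep : (g.map (algebraMap k F) - C a).Separable :=
    Separable.of_dvd (H.sep.map (f := algebraMap k F)) h1
  have h0 : g.map (algebraMap k F) - C a ≠ 0 := hsep.ne_zero
  have h3 : (RR F g E).filter (fun β => aeval β g = a) =
      (g.map (algebraMap k F) - C a).roots.toFinset := by
    ext β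
    rw [Finset.mem_filter, mem_RR H, Multiset.mem_toFinset, mem_roots h0, IsRoot.def, eval_sub,
      eval_C, eval_map_algebraMap, sub_eq_zero]
    constructor
    · exact fun h => h.2
    · intro h
      exact ⟨by rw [h, ha], h⟩
  rw [h3, Multiset.toFinset_card_of_nodup (nodup_roots hsep),
    IsAlgClosed.card_roots_eq_natDegree, natDegree_sub_C, natDegree_map]

/-- The roots of `E`, as a sequence. -/
private lemma p08_roots {k F : Type} [Field k] [Field F] [Algebra k F] [IsAlgClosed F]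
    {E : k[X]} (hE : E.Separable) :
    ∃ a : ℕ → F, (∀ i < E.natDegree, ∀ j < E.natDegree, a i = a j → i = j) ∧
      (∀ i < E.natDegree, aeval (a i) E = 0) ∧
      ∀ α : F, aeval α E = 0 → ∃ i < E.natDegree, α = a i := by
  have hE0 : E.map (algebraMap k F) ≠ 0 := hE.map.ne_zero
  have hmem : ∀ x, x ∈ (E.map (algebraMap k F)).roots.toFinset ↔ aeval x E = 0 := by
    intro x
    rw [Multiset.mem_toFinset, mem_roots hE0, IsRoot.def, eval_map_algebraMap]
  have hcard : (E.map (algebraMap k F)).roots.toFinset.card = E.natDegree := by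
    rw [Multiset.toFinset_card_of_nodup (nodup_roots hE.map),
      IsAlgClosed.card_roots_eq_natDegree, natDegree_map]
  let e := Finset.equivFinOfCardEq hcard
  refine ⟨fun i => if h : i < E.natDegree then ((e.symm ⟨i, h⟩ : _) : F) else 0, ?_, ?_, ?_⟩
  · intro i hi j hj h
    simp only [hi, hj, dif_pos] at h
    have h1 := e.symm.injective (Subtype.ext h)
    exact congrArg Fin.val h1
  · intro i hi
    simp only [hi, dif_pos]
    exact (hmem _).1 (e.symm ⟨i, hi⟩).2
  · intro α hα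
    refine ⟨(e ⟨α, (hmem α).2 hα⟩).val, (e ⟨α, (hmem α).2 hα⟩).isLt, ?_⟩
    simp

/-- **One automorphism which is good on all fibres.** Proof: like that of `Sup.exists_cRall` (file
`Tow/M11`), with all roots `a 0, .., a (n-1)` of `E` in `F`, `n = E.natDegree` (`Finset.equivFin` or
`Finset.equivFinOfCardEq` of the set of roots, extended by anything for `i ≥ n`). Choose `M i j`, `o i j`
by `hM` and `o₁ i j` by `exists_aOne` and `hJ`. `D` from `exists_path` (`ℓ ≠ 2`) or `exists_path_two`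
(`ℓ = 2`), `y` from `exists_weights` with `m = g.natDegree`, `lam` from `exists_lam_sum` with
`x i j = if j = i + 1 then 1 else 0`, `U` from `exists_U_of_lam` for the set of all differences of
distinct elements of `RR` and `-1`; `PathSym` holds with `M i = M i (i+1)`; `PathSym.sepU`. -/
theorem exists_U_univ {k F : Type} [Field k] [Field F] [Algebra k F] [IsAlgClosure k F] {ℓ : ℕ}
    {g E : k[X]} {ζ : k} (H : GlobHyp ℓ g E ζ) (h3 : 3 ≤ E.natDegree)
    (hJ : ∀ α : F, aeval α E = 0 → ∃ J : Finset (F ≃ₐ[k] F),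
      (∀ x y : F, aeval x g = α → aeval y g = α →
        ∃ σ ∈ J, σ x = y ∧ ∀ τ ∈ J, τ x = y → τ = σ) ∧
      ∀ σ ∈ J, ∀ b : F, aeval b (E.comp g) = 0 → aeval b g ≠ α → σ b = b)
    (hM : ∀ α α' : F, aeval α E = 0 → aeval α' E = 0 → α ≠ α' →
      ∃ (M : F → F) (o : F → ℤ),
        MOrd (IntermediateField.adjoin k ((RR F g E : Finset F) : Set F)).toSubfield (RR F g E)
          (fun b => aeval b g) α α' M o) :
    ∃ U : F ≃ₐ[k] F,
      (∀ x ∈ IntermediateField.adjoin k ((RR F g E : Finset F) : Set F), U x = x) ∧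
      kap ℓ (algebraMap k F ζ) U (-1) = 0 ∧
      ∀ μ : ZMod ℓ, SepU g E (kap ℓ (algebraMap k F ζ) U) μ Set.univ := by
  have : IsAlgClosed F := IsAlgClosure.isAlgClosed k
  have : Algebra.IsAlgebraic k F := IsAlgClosure.isAlgebraic
  have : Fact ℓ.Prime := ⟨H.prime⟩
  have hgdeg : g.natDegree ≠ 0 := by
    intro h0
    have h1 := H.cop
    rw [h0, Nat.coprime_zero_left] at h1
    exact H.prime.ne_one h1
  have hm0 : (g.natDegree : ZMod ℓ) ≠ 0 := by
    rw [Ne, ZMod.natCast_eq_zero_iff]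
    intro h1
    have h2 := H.cop
    rw [Nat.coprime_comm, H.prime.coprime_iff_not_dvd] at h2
    exact h2 h1
  have hsepE : E.Separable := p08_separable hgdeg H.sep
  obtain ⟨a, ha1, ha2, ha3⟩ := p08_roots (F := F) hsepE
  set n := E.natDegree with hn
  have hne : ∀ i j, i < j → j < n → a i ≠ a j := fun i j hij hj h =>
    absurd (ha1 i (hij.trans hj) j hj h) hij.ne
  -- the matchings
  have hMM : ∀ i j, ∃ (M : F → F) (o : F → ℤ), i < j → j < n →
      MOrd (IntermediateField.adjoin k ((RR F g E : Finset F) : Set F)).toSubfield (RR F g E)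
        (fun b => aeval b g) (a i) (a j) M o := by
    intro i j
    by_cases h : i < j ∧ j < n
    · obtain ⟨M, o, ho⟩ := hM (a i) (a j) (ha2 i (h.1.trans h.2)) (ha2 j h.2) (hne i j h.1 h.2)
      exact ⟨M, o, fun _ _ => ho⟩
    · exact ⟨id, fun _ => 0, fun h1 h2 => absurd ⟨h1, h2⟩ h⟩
  choose M o ho using hMM
  have hOO : ∀ i j, ∃ o₁ : F → ℤ, i < j → j < n →
      AOne (IntermediateField.adjoin k ((RR F g E : Finset F) : Set F)).toSubfield (RR F g E)
        (fun b => aeval b g) (a i) (a j) o₁ := by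
    intro i j
    by_cases h : i < j ∧ j < n
    · obtain ⟨J, hJ1, hJ2⟩ := hJ (a i) (ha2 i (h.1.trans h.2))
      obtain ⟨o₁, h1⟩ := exists_aOne (RR F g E) (fun b => mem_RR H) (hne i j h.1 h.2) hJ1 hJ2
        (ho i j h.1 h.2)
      exact ⟨o₁, fun _ _ => h1⟩
    · exact ⟨fun _ => 0, fun h1 h2 => absurd ⟨h1, h2⟩ h⟩
  choose o₁ ho₁ using hOO
  -- the diagonal
  obtain ⟨D, hD1, hD2⟩ : ∃ D : ℕ → ZMod ℓ, PathInj n D ∧ (ℓ = 2 → ∑ i ∈ range n, D i = 0) := by
    by_cases h2 : ℓ = 2
    · clear * - h2 h3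
      subst h2
      obtain ⟨D, h4, h5⟩ := exists_path_two h3
      exact ⟨D, h4, fun _ => h5⟩
    · obtain ⟨D, h4⟩ := exists_path (ℓ := ℓ) h3
      exact ⟨D, h4, fun h5 => absurd h5 h2⟩
  obtain ⟨y, hy1, hy2⟩ := exists_weights (ℓ := ℓ) h3 hm0 D hD2
  have hSK : ∀ β ∈ RR F g E, β ∈ IntermediateField.adjoin k ((RR F g E : Finset F) : Set F) :=
    fun β hβ => IntermediateField.subset_adjoin k _ hβ
  obtain ⟨lam, hmul, hneg, hsame, hsymm, hval⟩ := exists_lam_sum (ℓ := ℓ) (n := n)
    (IntermediateField.adjoin k ((RR F g E : Finset F) : Set F)).toSubfield (RR F g E)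
    hSK (fun b => aeval b g) a ha1 M o o₁ ho ho₁ (fun i j => if j = i + 1 then 1 else 0) y
  obtain ⟨U, hU1, hU2⟩ := exists_U_of_lam H.prime H.ne H.zeta
    (IntermediateField.adjoin k ((RR F g E : Finset F) : Set F)) lam hmul
    (insert (-1) (((RR F g E ×ˢ RR F g E).filter (fun p => p.1 ≠ p.2)).image
      (fun p => p.1 - p.2))) (by
      intro x hx
      rw [Finset.mem_insert, Finset.mem_image] at hx
      rcases hx with rfl | ⟨⟨β, β'⟩, hp, rfl⟩
      · exact ⟨neg_mem (one_mem _), neg_ne_zero.mpr one_ne_zero⟩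
      · rw [Finset.mem_filter, Finset.mem_product] at hp
        exact ⟨sub_mem (hSK _ hp.1.1) (hSK _ hp.1.2), sub_ne_zero.mpr hp.2⟩)
  have hkey : ∀ β ∈ RR F g E, ∀ β' ∈ RR F g E, β ≠ β' →
      kap ℓ (algebraMap k F ζ) U (β - β') = lam (β - β') := by
    intro β hβ β' hβ' hne
    apply hU2
    rw [Finset.mem_insert, Finset.mem_image]
    refine Or.inr ⟨(β, β'), ?_, rfl⟩
    rw [Finset.mem_filter, Finset.mem_product]
    exact ⟨⟨hβ, hβ'⟩, hne⟩
  have hkp : PathSym n g.natDegree (RR F g E) (fun β => aeval β g) a (fun i => M i (i + 1)) y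
      (kap ℓ (algebraMap k F ζ) U) :=
    { inj := ha1
      fib := fun β hβ => ha3 _ ((mem_RR H).1 hβ)
      card := fun i hi => p08_card H (ha2 i hi)
      mmem := fun i hi => (ho i (i + 1) (Nat.lt_succ_self i) hi).mem
      minj := fun i hi => (ho i (i + 1) (Nat.lt_succ_self i) hi).inj
      msurj := fun i hi => (ho i (i + 1) (Nat.lt_succ_self i) hi).surj
      ysymm := hy1
      same := fun β hβ β' hβ' h1 h2 => by
        rw [hkey β hβ β' hβ' h1]
        exact hsame β hβ β' hβ' h1 h2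
      symm := fun β hβ β' hβ' h1 => by
        rw [hkey β hβ β' hβ' h1, hkey β' hβ' β hβ h1.symm]
        exact hsymm β hβ β' hβ' h1
      val := fun i j hij hj β hβ h1 β' hβ' h2 => by
        rw [hkey β hβ β' hβ' (by
          rintro rfl
          exact hne i j hij hj (h1.symm.trans h2)), hval i j hij hj β hβ h1 β' hβ' h2]
        by_cases h : j = i + 1
        · subst h
          simp
        · simp [h] }
  refine ⟨U, hU1, ?_, fun μ => hkp.sepU (by omega) hm0 hy2 hD1 μ⟩
  have h6 := hU2 (-1) (Finset.mem_insert_self _ _)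
  rw [hneg] at h6
  exact h6

end Pool.Agent.Lib.MP_89bcae_ag.Re

end

section

/-!
# One automorphism which is good on all fibres: the arithmetic part
-/

open Polynomial

open scoped Classical

set_option linter.unusedSimpArgs false
set_option linter.unusedVariables false
set_option linter.unusedSectionVars false
set_option linter.style.haveILetI false

namespace Pool.Agent.Lib.MP_89bcae_ag

/-- **One automorphism which is good on all fibres**, from the residual data. -/
theorem exists_U_of_pair7 {ℓ : ℕ} (hℓ : ℓ.Prime) (F : Type) [Field F] [Algebra ℚ F]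
    [IsAlgClosure ℚ F] {g D : ℤ[X]} (hg : g.Monic) (hcop : g.natDegree.Coprime ℓ) {n : ℕ}
    (hn : 2 ≤ n) (hdegD : D.natDegree = n + 1)
    (hsep : ((D.comp g).map (Int.castRingHom ℚ)).Separable)
    {p : ℕ} (hp : p.Prime) (hp2 : p ≠ 2) (hpℓ : p ≠ ℓ) (hlc : ¬ (p : ℤ) ∣ D.leadingCoeff)
    (hcol : IsCollisionZ8 p g D)
    {q : ℕ} (hq : q.Prime) (hqℓ : q ≠ ℓ) (hqm : ¬ q ∣ g.natDegree)
    (hE1 : (q : ℤ) ∣ D.leadingCoeff) (hE2 : ¬ (q : ℤ) ^ 2 ∣ D.leadingCoeff)
    (hE3 : ¬ (q : ℤ) ∣ D.coeff n)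
    (hE4 : ((D.map (Int.castRingHom (ZMod q))).comp
      (g.map (Int.castRingHom (ZMod q)))).Separable)
    (K : Type) [Field K] [Algebra ℚ K] [Algebra K F] [IsScalarTower ℚ K F] [FiniteDimensional ℚ K]
    [IsGalois ℚ K] {ζ : K}
    (hζ : IsPrimitiveRoot ζ ℓ) (hgen : ∀ σ : K ≃ₐ[ℚ] K, σ ζ = ζ → σ = 1)
    (hX : IsPairTransitive7 K F X (D.map (Int.castRingHom K))) :
    Sup.GlobHyp ℓ (g.map (Int.castRingHom K)) (D.map (Int.castRingHom K)) ζ ∧
    ∃ U : F ≃ₐ[K] F,
      (∀ x ∈ IntermediateField.adjoin K ((Sup.RR F (g.map (Int.castRingHom K))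
        (D.map (Int.castRingHom K)) : Finset F) : Set F), U x = x) ∧
      Sup.kap ℓ (algebraMap K F ζ) U (-1) = 0 ∧
      ∀ μ : ZMod ℓ, Sup.SepU (g.map (Int.castRingHom K)) (D.map (Int.castRingHom K))
        (Sup.kap ℓ (algebraMap K F ζ) U) μ Set.univ := by
  have hF : IsAlgClosed F := IsAlgClosure.isAlgClosed ℚ
  have hQF : Algebra.IsAlgebraic ℚ F := IsAlgClosure.isAlgebraic
  have hKFa : Algebra.IsAlgebraic K F := Algebra.IsAlgebraic.tower_top (K := ℚ) K
  have hKF : IsAlgClosure K F := ⟨hF, hKFa⟩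
  have hchar : CharZero K := charZero_of_injective_algebraMap (algebraMap ℚ K).injective
  have hg0 : g.natDegree ≠ 0 := by
    intro h0
    rw [h0, Nat.coprime_zero_left] at hcop
    exact hℓ.one_lt.ne' hcop
  have hinjK : Function.Injective (Int.castRingHom K) := (Int.castRingHom K).injective_int
  have hQK : (algebraMap ℚ K).comp (Int.castRingHom ℚ) = Int.castRingHom K := RingHom.ext_int _ _
  have hmapK : ∀ f : ℤ[X], (f.map (Int.castRingHom ℚ)).map (algebraMap ℚ K) =
      f.map (Int.castRingHom K) := fun f => by rw [Polynomial.map_map, hQK]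
  have hsepK : ((D.comp g).map (Int.castRingHom K)).Separable := by
    rw [← hmapK]
    exact hsep.map
  -- the discrete valuation rings
  have hmapR : ∀ (R : Type) [CommRing R] [Algebra R K] (f : ℤ[X]),
      (f.map (Int.castRingHom R)).map (algebraMap R K) = f.map (Int.castRingHom K) := by
    intro R _ _ f
    rw [Polynomial.map_map]
    congr 1
    exact RingHom.ext_int _ _
  have hinjR : ∀ (R : Type) [CommRing R] [Algebra R K], Function.Injective (Int.castRingHom R) := by
    intro R _ _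
    have h1 : Function.Injective ((algebraMap R K).comp (Int.castRingHom R)) := by
      have h2 : (algebraMap R K).comp (Int.castRingHom R) = Int.castRingHom K := RingHom.ext_int _ _
      rw [h2]
      exact hinjK
    exact Function.Injective.of_comp h1
  -- the place `q`
  have hq2 : IsPairTransitive7 K F (g.map (Int.castRingHom K)) (D.map (Int.castRingHom K)) ∧
      ∀ α : F, aeval α (D.map (Int.castRingHom K)) = 0 → ∃ J : Finset (F ≃ₐ[K] F),
        (∀ x y : F, aeval x (g.map (Int.castRingHom K)) = α →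
          aeval y (g.map (Int.castRingHom K)) = α →
            ∃ σ ∈ J, σ x = y ∧ ∀ τ ∈ J, τ x = y → τ = σ) ∧
        ∀ σ ∈ J, ∀ b : F,
          aeval b ((D.map (Int.castRingHom K)).comp (g.map (Int.castRingHom K))) = 0 →
            aeval b (g.map (Int.castRingHom K)) ≠ α → σ b = b := by
    obtain ⟨R, i1, i2, i3, i4, i5, hR⟩ := exists_dvrK8 hℓ hq hqℓ K hζ hgen
    obtain ⟨φ, hφ⟩ := residue_map8 hq hR
    have hR1 : ∀ z : ℤ, (z : R) ∈ IsLocalRing.maximalIdeal R ↔ (q : ℤ) ∣ z := by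
      intro z
      have h1 := hR z 1
      rwa [pow_one, pow_one] at h1
    have hDdeg : (D.map (Int.castRingHom R)).natDegree = n + 1 := by
      rw [natDegree_map_eq_of_injective (hinjR R), hdegD]
    have hDlc : (D.map (Int.castRingHom R)).leadingCoeff = ((D.leadingCoeff : ℤ) : R) := by
      rw [leadingCoeff_map_of_injective (hinjR R)]
      rfl
    have hgmR : ((g.map (Int.castRingHom R)).natDegree : IsLocalRing.ResidueField R) ≠ 0 := by
      rw [hg.natDegree_map]
      intro h0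
      have h1 : IsLocalRing.residue R ((g.natDegree : ℤ) : R) = 0 := by
        rw [Int.cast_natCast, map_natCast]
        exact h0
      rw [IsLocalRing.residue_eq_zero_iff, hR1] at h1
      exact hqm (Int.natCast_dvd_natCast.mp h1)
    have hq1 : (D.map (Int.castRingHom R)).leadingCoeff ∈ IsLocalRing.maximalIdeal R := by
      rw [hDlc, hR1]; exact hE1
    have hq2 : (D.map (Int.castRingHom R)).leadingCoeff ∉ IsLocalRing.maximalIdeal R ^ 2 := by
      rw [hDlc, hR]; exact hE2
    have hq3 : (D.map (Int.castRingHom R)).coeff n ∉ IsLocalRing.maximalIdeal R := by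
      rw [coeff_map]
      have h1 : Int.castRingHom R (D.coeff n) = ((D.coeff n : ℤ) : R) := rfl
      rw [h1, hR1]
      exact hE3
    have hq4 : (((D.map (Int.castRingHom R)).map (IsLocalRing.residue R)).comp
        ((g.map (Int.castRingHom R)).map (IsLocalRing.residue R))).Separable := by
      rw [hφ, hφ, ← Polynomial.map_comp]
      exact hE4.map
    have hq5 : (((D.map (Int.castRingHom R)).comp (g.map (Int.castRingHom R))).map
        (algebraMap R K)).Separable := by
      rw [← Polynomial.map_comp, hmapR]; exact hsepK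
    have hq6 : IsPairTransitive7 K F X ((D.map (Int.castRingHom R)).map (algebraMap R K)) := by
      rw [hmapR]; exact hX
    have h := isPairTransitive_of_cycle7 R K F (g := g.map (Int.castRingHom R))
      (D := D.map (Int.castRingHom R)) (hg.map _) hgmR hDdeg hq1 hq2 hq3 hq4 hq5 hq6
    rw [hmapR, hmapR] at h
    refine ⟨h, fun α hα => ?_⟩
    have h' := exists_simply_transitive R K F (g := g.map (Int.castRingHom R))
      (D := D.map (Int.castRingHom R)) (hg.map _) hgmR hDdeg hq1 hq2 hq3 hq4 hq5 hq6 α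
      (by rw [hmapR]; exact hα)
    rw [hmapR, hmapR] at h'
    exact h'
  obtain ⟨htr, hJ⟩ := hq2
  have hdegK : (D.map (Int.castRingHom K)).natDegree = n + 1 := by
    rw [natDegree_map_eq_of_injective hinjK, hdegD]
  have H : Sup.GlobHyp ℓ (g.map (Int.castRingHom K)) (D.map (Int.castRingHom K)) ζ :=
    ⟨hℓ, by exact_mod_cast hℓ.ne_zero, hζ, hg.map _, by rw [hg.natDegree_map]; exact hcop,
      by rw [← Polynomial.map_comp]; exact hsepK, by rw [hdegK]; omega⟩
  -- the criterion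
  have hCR := Re.exists_U_univ (F := F) H (by rw [hdegK]; omega) hJ (by
    obtain ⟨R, i1, i2, i3, i4, i5, hR⟩ := exists_dvrK8 hℓ hp hpℓ K hζ hgen
    have hR1 : ∀ z : ℤ, ¬ (p : ℤ) ∣ z → IsUnit (z : R) := by
      intro z hz
      have h1 := hR z 1
      rw [pow_one, pow_one] at h1
      rw [← IsLocalRing.notMem_maximalIdeal, h1]
      exact hz
    have h2 : IsUnit (2 : R) := by
      have h1 := hR1 2 (by
        intro h
        have h3 : p ∣ 2 := by exact_mod_cast h
        exact hp2 ((Nat.prime_dvd_prime_iff_eq hp Nat.prime_two).mp h3))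
      simpa using h1
    have hDlc : (D.map (Int.castRingHom R)).leadingCoeff = ((D.leadingCoeff : ℤ) : R) := by
      rw [leadingCoeff_map_of_injective (hinjR R)]
      rfl
    intro α α' hα hα' hne
    have h := Sup.exists_mOrd R K F h2 (g := g.map (Int.castRingHom R))
      (D := D.map (Int.castRingHom R)) (hg.map _) (by rw [hg.natDegree_map]; exact hg0)
      (by rw [hDlc]; exact hR1 _ hlc) (isCollision7_of_Z8 hp hR hcol)
      (by rw [← Polynomial.map_comp, hmapR]; exact hsepK)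
      (by rw [hmapR, hmapR]; exact htr)
      (Sup.RR F (g.map (Int.castRingHom K)) (D.map (Int.castRingHom K)))
      (fun b => by rw [hmapR, hmapR]; exact Sup.mem_RR H) (α := α) (α' := α')
      (by rw [hmapR]; exact hα) (by rw [hmapR]; exact hα') hne
    rw [hmapR] at h
    exact h)
  exact ⟨H, hCR⟩

/-- From one automorphism which is good on all fibres to the criterion for all towers. -/
theorem cRall_of_univ7 {k F : Type} [Field k] [Field F] [Algebra k F] [IsAlgClosure k F] {ℓ : ℕ}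
    {g E : k[X]} {ζ : k} (H : Sup.GlobHyp ℓ g E ζ) {U : F ≃ₐ[k] F}
    (hU : ∀ x ∈ IntermediateField.adjoin k ((Sup.RR F g E : Finset F) : Set F), U x = x)
    (hneg : Sup.kap ℓ (algebraMap k F ζ) U (-1) = 0)
    (hsep : ∀ μ : ZMod ℓ, Sup.SepU g E (Sup.kap ℓ (algebraMap k F ζ) U) μ Set.univ) :
    Sup.CRall ℓ g E ζ U Set.univ := by
  have hF : IsAlgClosed F := IsAlgClosure.isAlgClosed k
  refine ⟨fun β hβ => hU β (IntermediateField.subset_adjoin k _ hβ), fun x hx => ?_, hsep⟩
  have h := Sup.kap_spec (U : F ≃+* F) H.prime (H.zeta.map_of_injective (algebraMap k F).injective)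
    (by exact U.commutes ζ) (neg_ne_zero.mpr one_ne_zero) (by simp) hx
  have h0 : Sup.kap ℓ (algebraMap k F ζ) (U : F ≃+* F) (-1) = 0 := hneg
  rw [h0] at h
  simpa using h

end Pool.Agent.Lib.MP_89bcae_ag

end
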