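import Mathlib
import Pool.Agent.Lib.MP_89bcae_ag.DefsSupTow7

/-!
# Absence of Tate classes over the finite extensions of `F_q` for the reductions modulo `q`
-/

open Polynomial

namespace Pool.Agent.Lib.MP_89bcae_ag.Superelliptic

/-- Let `κ` be the field with `q` elements, `q` a prime number. For every algebraic closure `F` of
`κ`, every field `L` of rational functions `F(t)`, every algebraic closure `Ω` of `L`, every finite
extension `κ'` of `κ` in `F`, every `r ≥ 0` and every `s` in `Ω` with `s ^ (ℓ ^ r) = E(t)`, there are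
no Tate classes over `κ'(t, s)` for the curve `y ^ ℓ = g(x) - t`, where `g`, `E` in `ℤ[x]`, `ℤ[t]` are
reduced modulo `q`: see `NoTateClassOver`. -/
def NoTateTowerModPrime (ℓ q : ℕ) [Fact q.Prime] (g E : ℤ[X]) : Prop :=
  ∀ (F L Ω : Type) [Field F] [Algebra (ZMod q) F] [IsAlgClosure (ZMod q) F] [Field L]
    [Algebra F[X] L] [IsFractionRing F[X] L] [Field Ω] [Algebra L Ω] [IsAlgClosure L Ω]
    (κ' : IntermediateField (ZMod q) F), FiniteDimensional (ZMod q) κ' →
    ∀ (r : ℕ) (s : Ω), s ^ ℓ ^ r = base (ZMod q) F L Ω (E.map (Int.castRingHom (ZMod q))) →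
      NoTateClassOver ℓ (ZMod q) F L (g.map (Int.castRingHom (ZMod q))) 1 (cover κ' F L s)

end Pool.Agent.Lib.MP_89bcae_ag.Superelliptic
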