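import Mathlib
import Pool.Agent.Lib.MP_89bcae_ag.Rk.K046
import Pool.Agent.Lib.MP_89bcae_ag.Rk.K055
import Pool.Agent.Lib.MP_89bcae_ag.Rk.K059

namespace Pool.Agent.Lib.MP_89bcae_ag.Sup
end Pool.Agent.Lib.MP_89bcae_ag.Sup

section

open Polynomial

namespace Pool.Agent.Lib.MP_89bcae_ag.Re

open Sup

/-- The symbols of the Frobenius automorphism. Proof: `U` is the `q`-th power map
(`FiniteField.frobeniusAlgEquivOfAlgebraic (ZMod q) F`, `F` is algebraic over `ZMod q`). If `x ^ ℓ = z`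
then `U x = x ^ q = x ^ (q - 1) * x = z ^ ((q - 1) / ℓ) * x = ζ ^ i.val * x`; conclude with `kap_of`
(`n = i.val`). -/
theorem kap_frobenius {ℓ q : ℕ} (hℓ : ℓ.Prime) [Fact q.Prime] (F : Type) [Field F]
    [Algebra (ZMod q) F] [IsAlgClosure (ZMod q) F] {ζ : ZMod q} (hζ : IsPrimitiveRoot ζ ℓ)
    (hdvd : ℓ ∣ q - 1) :
    ∃ U : F ≃ₐ[ZMod q] F, ∀ z : ZMod q, z ≠ 0 → ∀ i : ZMod ℓ,
      z ^ ((q - 1) / ℓ) = ζ ^ i.val →
        kap ℓ (algebraMap (ZMod q) F ζ) U (algebraMap (ZMod q) F z) = i := by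
  have hF : IsAlgClosed F := IsAlgClosure.isAlgClosed (ZMod q)
  have hA : Algebra.IsAlgebraic (ZMod q) F := IsAlgClosure.isAlgebraic
  have hUx : ∀ x : F, FiniteField.frobeniusAlgEquivOfAlgebraic (ZMod q) F x = x ^ q := by
    intro x
    have h1 : FiniteField.frobeniusAlgEquivOfAlgebraic (ZMod q) F x =
        x ^ Fintype.card (ZMod q) := rfl
    rw [h1, ZMod.card]
  refine ⟨FiniteField.frobeniusAlgEquivOfAlgebraic (ZMod q) F, fun z hz i hi => ?_⟩
  have hz' : algebraMap (ZMod q) F z ≠ 0 := by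
    rw [Ne, FaithfulSMul.algebraMap_eq_zero_iff]
    exact hz
  obtain ⟨x, hx⟩ := IsAlgClosed.exists_pow_nat_eq (algebraMap (ZMod q) F z) hℓ.pos
  have hx0 : x ≠ 0 := by
    rintro rfl
    rw [zero_pow hℓ.ne_zero] at hx
    exact hz' hx.symm
  have hq1 : 1 ≤ q := (Fact.out : q.Prime).one_le
  have h1 : x ^ (q - 1) = (algebraMap (ZMod q) F ζ) ^ i.val := by
    obtain ⟨m, hm⟩ := hdvd
    have h2 : (q - 1) / ℓ = m := by rw [hm, Nat.mul_div_cancel_left m hℓ.pos]
    rw [h2] at hi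
    rw [hm, pow_mul, hx, ← map_pow, hi, map_pow]
  have h2 : (FiniteField.frobeniusAlgEquivOfAlgebraic (ZMod q) F).toRingEquiv x =
      (algebraMap (ZMod q) F ζ) ^ ((i.val : ℕ) : ℤ) * x := by
    have h3 : (FiniteField.frobeniusAlgEquivOfAlgebraic (ZMod q) F).toRingEquiv x = x ^ q := hUx x
    rw [h3, zpow_natCast, ← h1, ← pow_succ]
    congr 1
    omega
  have hζ' : IsPrimitiveRoot (algebraMap (ZMod q) F ζ) ℓ :=
    hζ.map_of_injective (algebraMap (ZMod q) F).injective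
  have h4 := kap_of (FiniteField.frobeniusAlgEquivOfAlgebraic (ZMod q) F).toRingEquiv hℓ hζ'
    (AlgEquiv.commutes _ ζ) hx0 h2
  rw [hx] at h4
  have : NeZero ℓ := ⟨hℓ.ne_zero⟩
  refine Eq.trans h4 ?_
  rw [Int.cast_natCast, ZMod.natCast_val, ZMod.cast_id]

end Pool.Agent.Lib.MP_89bcae_ag.Re

end

section

open Polynomial

open scoped Classical

namespace Pool.Agent.Lib.MP_89bcae_ag.Re

open Sup

/-- The roots of the reduction. Here `S` is a finite set of elements of a field `K` which are all the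
roots of `D(g(x))`, `A` a subring of `K` and `Φ : A → F_q`. Proof: in `K[X]`,
`(D.comp g) = C lc * ∏ β ∈ S, (X - C β)` where `lc` is the leading coefficient of `D` (`g` is monic of
positive degree); both sides have coefficients in `A`, so the equation holds in `A[X]`
(`A.subtype` is injective, `Polynomial.map_injective`); apply `Φ`:
`(D mod q)(g mod q) = C lc * ∏ β ∈ S, (X - C (Φ β))` in `(ZMod q)[X]`, with `lc ≠ 0` in `ZMod q` and
distinct `Φ β`. So it is separable (`separable_prod_X_sub_C_iff`), `D mod q` has the same degree as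
`D`, and in the algebraically closed `G` the set of roots is the image of `S`. The last statement:
`Φ` commutes with the evaluation of integral polynomials. -/
theorem reduction_roots {K : Type} [Field K] [CharZero K] {g D : ℤ[X]} (hg : g.Monic)
    (hg0 : g.natDegree ≠ 0) (S : Finset K)
    (hS : (D.comp g).map (Int.castRingHom K) =
      C ((D.leadingCoeff : ℤ) : K) * ∏ β ∈ S, (X - C β))
    {q : ℕ} [Fact q.Prime] (A : Subring K) (Φ : A →+* ZMod q) (hA : ∀ β ∈ S, β ∈ A)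
    (hne : ∀ β ∈ S, ∀ β' ∈ S, β ≠ β' → ∀ h : β - β' ∈ A, Φ ⟨β - β', h⟩ ≠ 0)
    (hlc : ((D.leadingCoeff : ℤ) : ZMod q) ≠ 0)
    (G : Type) [Field G] [Algebra (ZMod q) G] [IsAlgClosure (ZMod q) G] :
    (D.map (Int.castRingHom (ZMod q))).natDegree = D.natDegree ∧
    ((D.map (Int.castRingHom (ZMod q))).comp (g.map (Int.castRingHom (ZMod q)))).Separable ∧
    (∀ x : G, aeval (aeval x (g.map (Int.castRingHom (ZMod q))))
        (D.map (Int.castRingHom (ZMod q))) = 0 ↔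
      ∃ β, ∃ h : β ∈ S, x = algebraMap (ZMod q) G (Φ ⟨β, hA β h⟩)) ∧
    (∀ (β : K) (h : β ∈ A), ∃ h' : eval₂ (Int.castRingHom K) β g ∈ A,
      aeval (algebraMap (ZMod q) G (Φ ⟨β, h⟩)) (g.map (Int.castRingHom (ZMod q))) =
        algebraMap (ZMod q) G (Φ ⟨eval₂ (Int.castRingHom K) β g, h'⟩)) := by
  have hdist : ∀ β (h : β ∈ S) β' (h' : β' ∈ S), Φ ⟨β, hA β h⟩ = Φ ⟨β', hA β' h'⟩ → β = β' := by
    intro β h β' h' he
    by_contra hcon
    refine hne β h β' h' hcon (A.sub_mem (hA β h) (hA β' h')) ?_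
    have e1 : (⟨β - β', A.sub_mem (hA β h) (hA β' h')⟩ : A) = ⟨β, hA β h⟩ - ⟨β', hA β' h'⟩ := rfl
    rw [e1, map_sub, he, sub_self]
  have hA1 : (D.comp g).map (Int.castRingHom A) =
      C ((D.leadingCoeff : ℤ) : A) * ∏ β ∈ S.attach, (X - C (⟨β.1, hA β.1 β.2⟩ : A)) := by
    apply Polynomial.map_injective A.subtype Subtype.val_injective
    have e2 : A.subtype.comp (Int.castRingHom A) = Int.castRingHom K := RingHom.ext_int _ _
    rw [Polynomial.map_map, e2, hS, Polynomial.map_mul, Polynomial.map_C, Polynomial.map_prod, map_intCast]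
    congr 1
    rw [← Finset.prod_attach]
    refine Finset.prod_congr rfl fun β _ => ?_
    rw [Polynomial.map_sub, Polynomial.map_X, Polynomial.map_C]
    rfl
  have hq1 : (D.map (Int.castRingHom (ZMod q))).comp (g.map (Int.castRingHom (ZMod q))) =
      C ((D.leadingCoeff : ℤ) : ZMod q) * ∏ β ∈ S.attach, (X - C (Φ ⟨β.1, hA β.1 β.2⟩)) := by
    have e3 : Φ.comp (Int.castRingHom A) = Int.castRingHom (ZMod q) := RingHom.ext_int _ _
    rw [← Polynomial.map_comp, ← e3, ← Polynomial.map_map, hA1, Polynomial.map_mul, Polynomial.map_C,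
      Polynomial.map_prod, map_intCast]
    congr 1
    refine Finset.prod_congr rfl fun β _ => ?_
    rw [Polynomial.map_sub, Polynomial.map_X, Polynomial.map_C]
  refine ⟨?_, ?_, ?_, ?_⟩
  · exact Polynomial.natDegree_map_of_leadingCoeff_ne_zero _ hlc
  · rw [hq1]
    refine Separable.unit_mul (Polynomial.isUnit_C.2 (isUnit_iff_ne_zero.2 hlc)) ?_
    rw [separable_prod_X_sub_C_iff']
    intro x _ y _ hxy
    exact Subtype.ext (hdist x.1 x.2 y.1 y.2 hxy)
  · intro x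
    rw [← Polynomial.aeval_comp, hq1, map_mul, map_prod, aeval_C, mul_eq_zero, Finset.prod_eq_zero_iff]
    constructor
    · rintro (h | ⟨β, -, h⟩)
      · exact absurd ((map_eq_zero _).1 h) hlc
      · rw [map_sub, aeval_X, aeval_C, sub_eq_zero] at h
        exact ⟨β.1, β.2, h⟩
    · rintro ⟨β, h, hx⟩
      refine Or.inr ⟨⟨β, h⟩, Finset.mem_attach _ _, ?_⟩
      rw [map_sub, aeval_X, aeval_C, hx, sub_self]
  · intro β h
    have e4 : eval₂ (Int.castRingHom K) β g = A.subtype (eval₂ (Int.castRingHom A) ⟨β, h⟩ g) := by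
      rw [Polynomial.hom_eval₂]
      congr 1
    have h' : eval₂ (Int.castRingHom K) β g ∈ A := by
      rw [e4]
      exact (eval₂ (Int.castRingHom A) ⟨β, h⟩ g).2
    refine ⟨h', ?_⟩
    have e5 : (⟨eval₂ (Int.castRingHom K) β g, h'⟩ : A) = eval₂ (Int.castRingHom A) ⟨β, h⟩ g := Subtype.ext e4
    rw [e5, Polynomial.hom_eval₂, Polynomial.aeval_algebraMap_apply, Polynomial.aeval_def, Polynomial.eval₂_map]
    congr 2
    exact RingHom.ext_int _ _

end Pool.Agent.Lib.MP_89bcae_ag.Re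

end

section

open Polynomial NumberField

open scoped Classical

namespace Pool.Agent.Lib.MP_89bcae_ag.Re

open Sup

/-- separability of `D(g(x))` over `K` -/
private lemma Q04_glob {ℓ : ℕ} (hℓ : ℓ.Prime) (K : Type) [Field K] [CharZero K] {ζ : K}
    (hζ : IsPrimitiveRoot ζ ℓ) {g D : ℤ[X]} (hg : g.Monic) (hcop : g.natDegree.Coprime ℓ)
    (hD0 : D.natDegree ≠ 0) (S : Finset K)
    (hS : (D.comp g).map (Int.castRingHom K) =
      C ((D.leadingCoeff : ℤ) : K) * ∏ β ∈ S, (X - C β)) :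
    GlobHyp ℓ (g.map (Int.castRingHom K)) (D.map (Int.castRingHom K)) ζ := by
  have hD : D ≠ 0 := by
    rintro rfl
    exact hD0 natDegree_zero
  have hlc : ((D.leadingCoeff : ℤ) : K) ≠ 0 := by
    rw [Ne, Int.cast_eq_zero, leadingCoeff_eq_zero]
    exact hD
  refine ⟨hℓ, by exact_mod_cast hℓ.ne_zero, hζ, hg.map _, by rw [hg.natDegree_map]; exact hcop, ?_, ?_⟩
  · rw [← Polynomial.map_comp, hS]
    exact Separable.unit_mul (isUnit_C.2 (isUnit_iff_ne_zero.2 hlc))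
      ((separable_prod_X_sub_C_iff' (f := fun β : K => β)).2 fun x _ y _ h => h)
  · rw [natDegree_map_eq_of_injective (RingHom.injective_int _)]
    exact hD0

/-- the roots of `D(g(x))` in `F` -/
private lemma Q04_roots {ℓ : ℕ} {K F : Type} [Field K] [CharZero K] [Field F] [Algebra K F] {ζ : K}
    {g D : ℤ[X]} (hD0 : D.natDegree ≠ 0)
    (H : GlobHyp ℓ (g.map (Int.castRingHom K)) (D.map (Int.castRingHom K)) ζ) (S : Finset K)
    (hS : (D.comp g).map (Int.castRingHom K) =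
      C ((D.leadingCoeff : ℤ) : K) * ∏ β ∈ S, (X - C β)) (x : F) :
    x ∈ RR F (g.map (Int.castRingHom K)) (D.map (Int.castRingHom K)) ↔
      ∃ β ∈ S, x = algebraMap K F β := by
  have hD : D ≠ 0 := by
    rintro rfl
    exact hD0 natDegree_zero
  have hlc : ((D.leadingCoeff : ℤ) : K) ≠ 0 := by
    rw [Ne, Int.cast_eq_zero, leadingCoeff_eq_zero]
    exact hD
  rw [mem_RR H, ← aeval_comp, ← Polynomial.map_comp, hS, map_mul, aeval_C, map_prod, mul_eq_zero,
    Finset.prod_eq_zero_iff]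
  constructor
  · rintro (h | ⟨β, hβ, h⟩)
    · exact absurd ((map_eq_zero _).1 h) hlc
    · refine ⟨β, hβ, ?_⟩
      rw [map_sub, aeval_X, aeval_C, sub_eq_zero] at h
      exact h
  · rintro ⟨β, hβ, rfl⟩
    refine Or.inr ⟨β, hβ, ?_⟩
    rw [map_sub, aeval_X, aeval_C, sub_self]

/-- The criterion over `F_q`. Proof: `κ = ZMod q`, `U` the automorphism of `kap_frobenius` for `G`,
`ρ β = algebraMap (Φ β)` on the roots `S` of `D(g(x))` in `K` (`F` is the algebraic closure of `K`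
containing them). `GlobHyp ℓ (g mod q) (D mod q) (Φ ζ)`: `reduction_roots`. `CRall`: `fix` because all the
roots are in the image of `ZMod q`; `neg` from `kap (-1) = c * 0 = 0` by `kap_spec`; `sep` by
`sepU_transport` (`RR` is described by `mem_RR`, its elements in `F` are the images of `S`; `hfib` from
the differences of the roots `α = g(β)` of `D`, which are in `T` and nonzero, so not killed by `Φ`).
Then `Sup.main_tower (ZMod q) F L Ω`. -/
theorem noTate_of_reduction {ℓ : ℕ} (hℓ : ℓ.Prime) (K F : Type) [Field K] [NumberField K] [Field F]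
    [Algebra K F] [IsAlgClosure K F] {ζ : K} (hζ : IsPrimitiveRoot ζ ℓ) {g D : ℤ[X]} (hg : g.Monic)
    (hcop : g.natDegree.Coprime ℓ) (hD0 : D.natDegree ≠ 0)
    (S : Finset K) (hS : (D.comp g).map (Int.castRingHom K) =
      C ((D.leadingCoeff : ℤ) : K) * ∏ β ∈ S, (X - C β))
    (U : F ≃ₐ[K] F) (hneg : kap ℓ (algebraMap K F ζ) U (-1) = 0)
    (hsep : ∀ μ : ZMod ℓ, SepU (g.map (Int.castRingHom K)) (D.map (Int.castRingHom K))
      (kap ℓ (algebraMap K F ζ) U) μ Set.univ)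
    {q : ℕ} [Fact q.Prime] (A : Subring K) (Φ : A →+* ZMod q) {c : ZMod ℓ} (hζA : ζ ∈ A)
    (hqℓ : ℓ < q) (hdvd : ℓ ∣ q - 1) (hc : c ≠ 0) (hΦζ : IsPrimitiveRoot (Φ ⟨ζ, hζA⟩) ℓ)
    (hlc : ((D.leadingCoeff : ℤ) : ZMod q) ≠ 0)
    (T : Finset K) (hT : ∀ z ∈ T, ∃ hz : z ∈ A, z ≠ 0 → Φ ⟨z, hz⟩ ≠ 0 ∧
      (Φ ⟨z, hz⟩) ^ ((q - 1) / ℓ) =
        (Φ ⟨ζ, hζA⟩) ^ (c * kap ℓ (algebraMap K F ζ) U (algebraMap K F z)).val)
    (hT0 : (-1 : K) ∈ T) (hT1 : ∀ β ∈ S, β ∈ T) (hT2 : ∀ β ∈ S, ∀ β' ∈ S, β - β' ∈ T)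
    (hT3 : ∀ β ∈ S, ∀ β' ∈ S, eval₂ (Int.castRingHom K) β g - eval₂ (Int.castRingHom K) β' g ∈ T) :
    Superelliptic.NoTateTowerModPrime ℓ q g D := by
  have : Fact ℓ.Prime := ⟨hℓ⟩
  have : NeZero ℓ := ⟨hℓ.ne_zero⟩
  have hg0 : g.natDegree ≠ 0 := by
    intro h0
    rw [h0, Nat.coprime_zero_left] at hcop
    exact hℓ.one_lt.ne' hcop
  have hA : ∀ β ∈ S, β ∈ A := fun β hβ => (hT β (hT1 β hβ)).1
  have hne : ∀ β ∈ S, ∀ β' ∈ S, β ≠ β' → ∀ h : β - β' ∈ A, Φ ⟨β - β', h⟩ ≠ 0 := by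
    intro β hβ β' hβ' hββ' h
    obtain ⟨hz, h1⟩ := hT _ (hT2 β hβ β' hβ')
    exact (h1 (sub_ne_zero.2 hββ')).1
  intro G L Ω _ _ _ _ _ _ _ _ _ κ' hκ' r s hs
  obtain ⟨hdeg, hsepq, hroots, heval⟩ := reduction_roots hg hg0 S hS A Φ hA hne hlc G
  have hq0 : (ℓ : ZMod q) ≠ 0 := by
    rw [Ne, ZMod.natCast_eq_zero_iff]
    intro h
    exact absurd (Nat.le_of_dvd hℓ.pos h) (not_le.2 hqℓ)
  have H' : GlobHyp ℓ (g.map (Int.castRingHom (ZMod q))) (D.map (Int.castRingHom (ZMod q)))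
      (Φ ⟨ζ, hζA⟩) :=
    ⟨hℓ, hq0, hΦζ, hg.map _, by rw [hg.natDegree_map]; exact hcop, hsepq, by rw [hdeg]; exact hD0⟩
  have H := Q04_glob hℓ K hζ hg hcop hD0 S hS
  obtain ⟨U', hU'⟩ := kap_frobenius hℓ G hΦζ hdvd
  obtain ⟨φ, hφ⟩ : ∃ φ : K → ZMod q, ∀ z (h : z ∈ A), φ z = Φ ⟨z, h⟩ :=
    ⟨fun z => if h : z ∈ A then Φ ⟨z, h⟩ else 0, fun z h => dif_pos h⟩
  have hφS : ∀ β ∈ S, ∀ β' ∈ S, φ β - φ β' = φ (β - β') := by
    intro β hβ β' hβ'
    rw [hφ β (hA β hβ), hφ β' (hA β' hβ'), hφ (β - β') (A.sub_mem (hA β hβ) (hA β' hβ')), ← map_sub]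
    rfl
  have hsym : ∀ z ∈ T, z ≠ 0 → φ z ≠ 0 ∧
      kap ℓ (algebraMap (ZMod q) G (Φ ⟨ζ, hζA⟩)) U' (algebraMap (ZMod q) G (φ z)) =
        c * kap ℓ (algebraMap K F ζ) U (algebraMap K F z) := by
    intro z hz hz0
    obtain ⟨hzA, h1⟩ := hT z hz
    obtain ⟨h2, h3⟩ := h1 hz0
    rw [hφ z hzA]
    exact ⟨h2, hU' _ h2 _ h3⟩
  have hinjK : Function.Injective (algebraMap K F) := (algebraMap K F).injective
  have hinjG : Function.Injective (algebraMap (ZMod q) G) := (algebraMap (ZMod q) G).injective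
  obtain ⟨ρ, hρ⟩ : ∃ ρ : F → G, ∀ β : K, ρ (algebraMap K F β) = algebraMap (ZMod q) G (φ β) :=
    ⟨fun x => algebraMap (ZMod q) G (φ (Function.invFun (algebraMap K F) x)), fun β => by
      change algebraMap (ZMod q) G (φ (Function.invFun (algebraMap K F) (algebraMap K F β))) = _
      rw [Function.leftInverse_invFun hinjK β]⟩
  have hRF := Q04_roots (F := F) hD0 H S hS
  have hRG : ∀ x : G, x ∈ RR G (g.map (Int.castRingHom (ZMod q))) (D.map (Int.castRingHom (ZMod q))) ↔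
      ∃ β ∈ S, x = algebraMap (ZMod q) G (φ β) := by
    intro x
    rw [mem_RR H', hroots x]
    constructor
    · rintro ⟨β, h, rfl⟩
      exact ⟨β, h, by rw [hφ β (hA β h)]⟩
    · rintro ⟨β, h, rfl⟩
      exact ⟨β, h, by rw [hφ β (hA β h)]⟩
  have himg : RR G (g.map (Int.castRingHom (ZMod q))) (D.map (Int.castRingHom (ZMod q))) =
      (RR F (g.map (Int.castRingHom K)) (D.map (Int.castRingHom K))).image ρ := by
    ext x
    rw [hRG, Finset.mem_image]
    constructor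
    · rintro ⟨β, h, rfl⟩
      exact ⟨algebraMap K F β, (hRF _).2 ⟨β, h, rfl⟩, hρ β⟩
    · rintro ⟨y, hy, rfl⟩
      obtain ⟨β, h, rfl⟩ := (hRF y).1 hy
      exact ⟨β, h, hρ β⟩
  have hgK : ∀ β : K, aeval (algebraMap K F β) (g.map (Int.castRingHom K)) =
      algebraMap K F (eval₂ (Int.castRingHom K) β g) := by
    intro β
    rw [aeval_algebraMap_apply, coe_aeval_eq_eval, eval_map]
  have hgG : ∀ β ∈ S, aeval (algebraMap (ZMod q) G (φ β)) (g.map (Int.castRingHom (ZMod q))) =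
      algebraMap (ZMod q) G (φ (eval₂ (Int.castRingHom K) β g)) ∧
        eval₂ (Int.castRingHom K) β g ∈ A := by
    intro β hβ
    obtain ⟨h', h1⟩ := heval β (hA β hβ)
    rw [hφ β (hA β hβ), h1, hφ _ h']
    exact ⟨rfl, h'⟩
  have hsepG : ∀ μ : ZMod ℓ, SepU (g.map (Int.castRingHom (ZMod q)))
      (D.map (Int.castRingHom (ZMod q)))
      (kap ℓ (algebraMap (ZMod q) G (Φ ⟨ζ, hζA⟩)) U') μ Set.univ := by
    intro μ
    refine sepU_transport ρ ?_ himg ?_ hc ?_ (hsep μ)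
    · intro x hx x' hx' h
      obtain ⟨β, hβ, rfl⟩ := (hRF x).1 hx
      obtain ⟨β', hβ', rfl⟩ := (hRF x').1 hx'
      by_contra hcon
      have hββ' : β ≠ β' := fun h0 => hcon (by rw [h0])
      rw [hρ, hρ] at h
      have h1 := hinjG h
      have h2 := hφS β hβ β' hβ'
      rw [h1, sub_self] at h2
      exact (hsym _ (hT2 β hβ β' hβ') (sub_ne_zero.2 hββ')).1 h2.symm
    · intro x hx x' hx'
      obtain ⟨β, hβ, rfl⟩ := (hRF x).1 hx
      obtain ⟨β', hβ', rfl⟩ := (hRF x').1 hx'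
      obtain ⟨e1, a1⟩ := hgG β hβ
      obtain ⟨e2, a2⟩ := hgG β' hβ'
      rw [hρ, hρ, hgK, hgK, e1, e2, hinjG.eq_iff, hinjK.eq_iff]
      constructor
      · intro h
        by_contra hcon
        have h3 := (hsym _ (hT3 β hβ β' hβ') (sub_ne_zero.2 hcon)).1
        apply h3
        rw [hφ _ (A.sub_mem a1 a2)]
        rw [hφ _ a1, hφ _ a2, ← sub_eq_zero, ← map_sub] at h
        exact h
      · intro h
        rw [h]
    · intro x hx x' hx' hne'
      obtain ⟨β, hβ, rfl⟩ := (hRF x).1 hx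
      obtain ⟨β', hβ', rfl⟩ := (hRF x').1 hx'
      have hββ' : β ≠ β' := fun h0 => hne' (by rw [h0])
      have h1 := (hsym _ (hT2 β hβ β' hβ') (sub_ne_zero.2 hββ')).2
      rw [hρ, hρ, ← map_sub, ← map_sub, hφS β hβ β' hβ']
      exact h1
  have hCR : CRall ℓ (g.map (Int.castRingHom (ZMod q))) (D.map (Int.castRingHom (ZMod q)))
      (Φ ⟨ζ, hζA⟩) U' Set.univ := by
    refine ⟨?_, ?_, hsepG⟩
    · intro x hx
      obtain ⟨β, hβ, rfl⟩ := (hRG x).1 hx
      exact U'.commutes _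
    · intro x hx
      have hm1 : (-1 : K) ∈ A := A.neg_mem A.one_mem
      have hφ1 : φ (-1) = -1 := by
        rw [hφ _ hm1]
        have : (⟨-1, hm1⟩ : A) = -1 := rfl
        rw [this, map_neg, map_one]
      have h1 := (hsym _ hT0 (neg_ne_zero.2 one_ne_zero)).2
      rw [hφ1, map_neg, map_one, map_neg, map_one, hneg, mul_zero] at h1
      have : IsAlgClosed G := IsAlgClosure.isAlgClosed (ZMod q)
      have hζG : IsPrimitiveRoot (algebraMap (ZMod q) G (Φ ⟨ζ, hζA⟩)) ℓ := hΦζ.map_of_injective hinjG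
      have h2 := kap_spec (U' : G ≃+* G) hℓ hζG (U'.commutes _) (z := (-1 : G))
        (neg_ne_zero.2 one_ne_zero) (by rw [map_neg, map_one]) hx
      have h3 : kap ℓ (algebraMap (ZMod q) G (Φ ⟨ζ, hζA⟩)) ((U' : G ≃+* G) : G → G) (-1) = 0 := h1
      rw [h3, ZMod.val_zero, pow_zero, one_mul] at h2
      exact h2
  have hmain := Sup.main_tower (ZMod q) G L Ω H' (fun a _ => ⟨U', Set.univ, Set.mem_univ a, hCR⟩)
    κ' r s hs
  exact Superelliptic.NoTateClassOver.ofSup hmain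

end Pool.Agent.Lib.MP_89bcae_ag.Re

end

section

open Polynomial NumberField

open scoped Classical

namespace Pool.Agent.Lib.MP_89bcae_ag.Re

open Sup

private lemma q05_eval {k F : Type} [Field k] [Field F] [Algebra k F] (g : ℤ[X]) (β : F) :
    aeval β (g.map (Int.castRingHom k)) = eval₂ (Int.castRingHom F) β g := by
  rw [aeval_def, eval₂_map]
  congr 1
  exact RingHom.ext_int _ _

private lemma q05_RR {k F : Type} [Field k] [Field F] [Algebra k F] (g D : ℤ[X]) :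
    RR F (g.map (Int.castRingHom k)) (D.map (Int.castRingHom k)) =
      ((D.comp g).map (Int.castRingHom F)).roots.toFinset := by
  unfold RR
  rw [← Polynomial.map_comp, Polynomial.map_map]
  have h : (algebraMap k F).comp (Int.castRingHom k) = Int.castRingHom F := RingHom.ext_int _ _
  rw [h]

private lemma q05_sepU {k k₁ F : Type} [Field k] [Field k₁] [Field F] [Algebra k F] [Algebra k₁ F]
    {ℓ : ℕ} (g D : ℤ[X]) {kp : F → ZMod ℓ} {μ : ZMod ℓ}
    (h : SepU (g.map (Int.castRingHom k)) (D.map (Int.castRingHom k)) kp μ Set.univ) :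
    SepU (g.map (Int.castRingHom k₁)) (D.map (Int.castRingHom k₁)) kp μ Set.univ := by
  have hR : RR F (g.map (Int.castRingHom k₁)) (D.map (Int.castRingHom k₁)) =
      RR F (g.map (Int.castRingHom k)) (D.map (Int.castRingHom k)) := by
    rw [q05_RR, q05_RR]
  have hA : ∀ β : F, aeval β (g.map (Int.castRingHom k₁)) = aeval β (g.map (Int.castRingHom k)) :=
    fun β => by rw [q05_eval, q05_eval]
  unfold SepU sumO sumS at h ⊢
  simp only [hR, hA]
  exact h

private lemma q05_lc {F : Type} [Field F] [CharZero F] {g D : ℤ[X]} (hg : g.Monic)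
    (hg0 : g.natDegree ≠ 0) :
    ((D.comp g).map (Int.castRingHom F)).leadingCoeff = ((D.leadingCoeff : ℤ) : F) := by
  rw [leadingCoeff_map_of_injective (RingHom.injective_int (Int.castRingHom F)),
    leadingCoeff_comp hg0, hg.leadingCoeff, one_pow, mul_one]
  rfl

private lemma q05_prod {F : Type} [Field F] [CharZero F] [IsAlgClosed F] {g D : ℤ[X]} (hg : g.Monic)
    (hg0 : g.natDegree ≠ 0) (hsep : ((D.comp g).map (Int.castRingHom F)).Separable) :
    (D.comp g).map (Int.castRingHom F) = C ((D.leadingCoeff : ℤ) : F) *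
      ∏ β ∈ ((D.comp g).map (Int.castRingHom F)).roots.toFinset, (X - C β) := by
  have h1 := C_leadingCoeff_mul_prod_multiset_X_sub_C
    (IsAlgClosed.card_roots_eq_natDegree (p := (D.comp g).map (Int.castRingHom F)))
  rw [q05_lc hg hg0] at h1
  have h2 : ∏ β ∈ ((D.comp g).map (Int.castRingHom F)).roots.toFinset, (X - C β) =
      (((D.comp g).map (Int.castRingHom F)).roots.map fun a => X - C a).prod := by
    rw [Finset.prod_eq_multiset_prod, Multiset.toFinset_val, Multiset.dedup_eq_self.2 (nodup_roots hsep)]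
  rw [h2]
  exact h1.symm

/-- two roots in the same fibre -/
private lemma q05_two {F : Type} [Field F] [CharZero F] [IsAlgClosed F] {g D : ℤ[X]} (_hg : g.Monic)
    (hg2 : 2 ≤ g.natDegree) (hD0 : D.natDegree ≠ 0)
    (hsep : ((D.comp g).map (Int.castRingHom F)).Separable) :
    ∃ β₁ ∈ ((D.comp g).map (Int.castRingHom F)).roots.toFinset,
      ∃ β₂ ∈ ((D.comp g).map (Int.castRingHom F)).roots.toFinset, β₁ ≠ β₂ ∧
        eval₂ (Int.castRingHom F) β₁ g = eval₂ (Int.castRingHom F) β₂ g := by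
  obtain ⟨α, hα⟩ : ∃ α : F, IsRoot (D.map (Int.castRingHom F)) α := by
    refine IsAlgClosed.exists_root _ ?_
    rw [degree_map_eq_of_injective (RingHom.injective_int (Int.castRingHom F))]
    intro h
    exact hD0 (natDegree_eq_of_degree_eq_some h)
  obtain ⟨p, hp⟩ : ∃ p : F[X], p = g.map (Int.castRingHom F) - C α := ⟨_, rfl⟩
  have hdvd : p ∣ (D.comp g).map (Int.castRingHom F) := by
    obtain ⟨r, hr⟩ := dvd_iff_isRoot.2 hα
    refine ⟨r.comp (g.map (Int.castRingHom F)), ?_⟩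
    rw [Polynomial.map_comp, hr, mul_comp, sub_comp, X_comp, C_comp, hp]
  have hps : p.Separable := hsep.of_dvd hdvd
  have hdeg : p.natDegree = g.natDegree := by
    rw [hp, natDegree_sub_C, natDegree_map_eq_of_injective (RingHom.injective_int (Int.castRingHom F))]
  have hp0 : p ≠ 0 := hps.ne_zero
  have hcard : p.roots.toFinset.card = g.natDegree := by
    rw [Multiset.toFinset_card_of_nodup (nodup_roots hps), IsAlgClosed.card_roots_eq_natDegree, hdeg]
  obtain ⟨β₁, h1, β₂, h2, h12⟩ := Finset.one_lt_card.1 (show 1 < p.roots.toFinset.card by omega)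
  have hroot : ∀ β ∈ p.roots.toFinset, β ∈ ((D.comp g).map (Int.castRingHom F)).roots.toFinset ∧
      eval₂ (Int.castRingHom F) β g = α := by
    intro β hβ
    rw [Multiset.mem_toFinset, mem_roots hp0, IsRoot.def] at hβ
    refine ⟨?_, ?_⟩
    · rw [Multiset.mem_toFinset, mem_roots hsep.ne_zero, IsRoot.def]
      exact eval_eq_zero_of_dvd_of_eval_eq_zero hdvd hβ
    · rw [hp, eval_sub, eval_C, eval_map, sub_eq_zero] at hβ
      exact hβ
  exact ⟨β₁, (hroot _ h1).1, β₂, (hroot _ h2).1, h12, (hroot _ h1).2.trans (hroot _ h2).2.symm⟩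

/-- Infinitely many good reductions from one automorphism of `F` over the number field `K`. Proof: let
`K₁ = IntermediateField.adjoin K (RR F g D)`, a number field containing all roots of `D(g(x))`;
`U₁ : F ≃ₐ[K₁] F` given by `U` (it fixes `K₁`), with the same symbols; `F` is an algebraic closure of
`K₁`; `S₁` the finite set of the roots in `K₁`; `SepU` over `K₁` is `SepU` over `K`
(`RR` is the same set, `aeval β (g.map _)` is the same element). `T` = `-1`, the elements of `S₁`, their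
differences, and the differences of their values under `g`. Some element of `T` has nonzero symbol:
`exists_kap_ne_zero` (`g.natDegree ≥ 2`: each fibre has two elements, since `D(g(x))` is
separable). Apply `exists_reduction` to `K₁` with the bound `max N (max ℓ |leading coefficient|)` and
`noTate_of_reduction`. -/
theorem exists_good_prime {ℓ : ℕ} (hℓ : ℓ.Prime) (K F : Type) [Field K] [NumberField K] [Field F]
    [Algebra K F] [IsAlgClosure K F] {ζ : K} (hζ : IsPrimitiveRoot ζ ℓ) {g D : ℤ[X]} (hg : g.Monic)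
    (hg2 : 2 ≤ g.natDegree) (hcop : g.natDegree.Coprime ℓ) (hD0 : D.natDegree ≠ 0)
    (hsepD : ((D.comp g).map (Int.castRingHom ℚ)).Separable) (U : F ≃ₐ[K] F)
    (hU : ∀ x ∈ IntermediateField.adjoin K ((RR F (g.map (Int.castRingHom K))
      (D.map (Int.castRingHom K)) : Finset F) : Set F), U x = x)
    (hneg : kap ℓ (algebraMap K F ζ) U (-1) = 0)
    (hsep : ∀ μ : ZMod ℓ, SepU (g.map (Int.castRingHom K)) (D.map (Int.castRingHom K))
      (kap ℓ (algebraMap K F ζ) U) μ Set.univ) (N : ℕ) :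
    ∃ (q : ℕ) (_ : Fact q.Prime), N < q ∧ (D.map (Int.castRingHom (ZMod q))).natDegree = D.natDegree ∧
      ((D.map (Int.castRingHom (ZMod q))).comp (g.map (Int.castRingHom (ZMod q)))).Separable ∧
      Superelliptic.NoTateTowerModPrime ℓ q g D := by
  have : Fact ℓ.Prime := ⟨hℓ⟩
  have : CharZero F := charZero_of_injective_algebraMap (algebraMap K F).injective
  have : IsAlgClosed F := IsAlgClosure.isAlgClosed K
  have hg0 : g.natDegree ≠ 0 := by omega
  have hsepF : ((D.comp g).map (Int.castRingHom F)).Separable := by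
    have h1 := hsepD.map (f := algebraMap ℚ F)
    rw [Polynomial.map_map] at h1
    have h2 : (algebraMap ℚ F).comp (Int.castRingHom ℚ) = Int.castRingHom F := RingHom.ext_int _ _
    rwa [h2] at h1
  obtain ⟨R, hR⟩ : ∃ R : Finset F, R = RR F (g.map (Int.castRingHom K)) (D.map (Int.castRingHom K)) :=
    ⟨_, rfl⟩
  have hR' : R = ((D.comp g).map (Int.castRingHom F)).roots.toFinset := by rw [hR, q05_RR]
  rw [← hR] at hU
  obtain ⟨K₁, hK₁⟩ : ∃ K₁ : IntermediateField K F, K₁ = IntermediateField.adjoin K (R : Set F) :=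
    ⟨_, rfl⟩
  rw [← hK₁] at hU
  have hfin : FiniteDimensional K K₁ := by
    rw [hK₁]
    have : Finite (R : Set F) := Finset.finite_toSet R |>.to_subtype
    exact IntermediateField.finiteDimensional_adjoin fun x _ =>
      (IsAlgClosure.isAlgebraic (R := K) (K := F)).isAlgebraic x |>.isIntegral
  have : NumberField K₁ := NumberField.of_module_finite K K₁
  have : Algebra.IsAlgebraic K F := IsAlgClosure.isAlgebraic
  have : IsAlgClosure K₁ F := ⟨inferInstance, Algebra.IsAlgebraic.tower_top (K := K) K₁⟩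
  have hRK : ∀ x ∈ R, x ∈ K₁ := by
    intro x hx
    rw [hK₁]
    exact IntermediateField.subset_adjoin K _ hx
  -- the automorphism over `K₁`
  obtain ⟨U₁, hU₁⟩ : ∃ U₁ : F ≃ₐ[K₁] F, ∀ x, U₁ x = U x :=
    ⟨AlgEquiv.ofRingEquiv (f := U.toRingEquiv) fun r => hU r r.2, fun x => rfl⟩
  have hUf : (U₁ : F → F) = (U : F → F) := funext hU₁
  obtain ⟨ζ₁, hζ₁d⟩ : ∃ ζ₁ : K₁, ζ₁ = algebraMap K K₁ ζ := ⟨_, rfl⟩
  have hζ₁F : algebraMap K₁ F ζ₁ = algebraMap K F ζ := by
    rw [hζ₁d, ← IsScalarTower.algebraMap_apply]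
  have hζ₁ : IsPrimitiveRoot ζ₁ ℓ := by
    rw [hζ₁d]
    exact hζ.map_of_injective (algebraMap K K₁).injective
  have hkap : kap ℓ (algebraMap K₁ F ζ₁) U₁ = kap ℓ (algebraMap K F ζ) U := by
    rw [hζ₁F, hUf]
  -- the roots in `K₁`
  obtain ⟨S, hS⟩ : ∃ S : Finset K₁, S = R.subtype (fun x => x ∈ K₁) := ⟨_, rfl⟩
  have hmS : ∀ β : K₁, β ∈ S ↔ (β : F) ∈ R := by
    intro β
    rw [hS]
    exact Finset.mem_subtype
  have hSprod : (D.comp g).map (Int.castRingHom K₁) =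
      C ((D.leadingCoeff : ℤ) : K₁) * ∏ β ∈ S, (X - C β) := by
    apply Polynomial.map_injective (algebraMap K₁ F) (algebraMap K₁ F).injective
    have h1 : (algebraMap K₁ F).comp (Int.castRingHom K₁) = Int.castRingHom F := RingHom.ext_int _ _
    rw [Polynomial.map_map, h1, Polynomial.map_mul, Polynomial.map_prod, Polynomial.map_C, map_intCast]
    have h2 : ∏ β ∈ S, Polynomial.map (algebraMap K₁ F) (X - C β) = ∏ β ∈ R, (X - C β) := by
      rw [hS, ← Finset.prod_subtype_of_mem (fun β : F => (X - C β : F[X])) hRK]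
      refine Finset.prod_congr rfl fun β _ => ?_
      rw [Polynomial.map_sub, Polynomial.map_X, Polynomial.map_C]
      rfl
    rw [h2, hR']
    exact q05_prod hg hg0 hsepF
  have hsep₁ : ∀ μ : ZMod ℓ, SepU (g.map (Int.castRingHom K₁)) (D.map (Int.castRingHom K₁))
      (kap ℓ (algebraMap K₁ F ζ₁) U₁) μ Set.univ := by
    intro μ
    rw [hkap]
    exact q05_sepU (k := K) g D (hsep μ)
  -- the finite set
  obtain ⟨ev, hev⟩ : ∃ ev : K₁ → K₁, ∀ β, ev β = eval₂ (Int.castRingHom K₁) β g := ⟨_, fun _ => rfl⟩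
  obtain ⟨T, hTd⟩ : ∃ T : Finset K₁, T = {(-1 : K₁)} ∪ S ∪ (S ×ˢ S).image (fun x => x.1 - x.2) ∪
      (S ×ˢ S).image (fun x => ev x.1 - ev x.2) := ⟨_, rfl⟩
  have hT0 : (-1 : K₁) ∈ T := by
    rw [hTd]
    simp
  have hT1 : ∀ β ∈ S, β ∈ T := by
    intro β hβ
    rw [hTd]
    simp [hβ]
  have hT2 : ∀ β ∈ S, ∀ β' ∈ S, β - β' ∈ T := by
    intro β hβ β' hβ'
    rw [hTd]
    refine Finset.mem_union_left _ (Finset.mem_union_right _ ?_)
    exact Finset.mem_image.2 ⟨(β, β'), Finset.mem_product.2 ⟨hβ, hβ'⟩, rfl⟩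
  have hT3 : ∀ β ∈ S, ∀ β' ∈ S, eval₂ (Int.castRingHom K₁) β g - eval₂ (Int.castRingHom K₁) β' g ∈ T := by
    intro β hβ β' hβ'
    rw [hTd, ← hev, ← hev]
    refine Finset.mem_union_right _ ?_
    exact Finset.mem_image.2 ⟨(β, β'), Finset.mem_product.2 ⟨hβ, hβ'⟩, rfl⟩
  have hTne : ∃ z ∈ T, z ≠ 0 ∧ kap ℓ (algebraMap K₁ F ζ₁) U₁ (algebraMap K₁ F z) ≠ 0 := by
    obtain ⟨β₁, h1, β₂, h2, h12, h3⟩ := q05_two hg hg2 hD0 hsepF
    obtain ⟨β, hβ, β', hβ', hne, hk⟩ := exists_kap_ne_zero (k := K) (F := F) (hsep 0)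
      (β₁ := β₁) (β₂ := β₂) (by rw [q05_RR]; exact h1) (by rw [q05_RR]; exact h2) h12
      (by rw [q05_eval, q05_eval]; exact h3)
    rw [← hR] at hβ hβ'
    refine ⟨⟨β, hRK β hβ⟩ - ⟨β', hRK β' hβ'⟩, hT2 _ ((hmS _).2 hβ) _ ((hmS _).2 hβ'), ?_, ?_⟩
    · intro h
      exact hne (congrArg (fun x : K₁ => (x : F)) (sub_eq_zero.1 h))
    · rw [hkap]
      exact hk
  obtain ⟨q, hq, A, Φ, c, hζA, hqN, hdvd, hc, hΦζ, hTT⟩ := exists_reduction hℓ K₁ F hζ₁ U₁ T hTne
    (max N (max ℓ D.leadingCoeff.natAbs))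
  have := hq
  have hqN1 : N < q := lt_of_le_of_lt (le_max_left _ _) hqN
  have hqℓ : ℓ < q := lt_of_le_of_lt ((le_max_left _ _).trans (le_max_right _ _)) hqN
  have hql : D.leadingCoeff.natAbs < q := lt_of_le_of_lt ((le_max_right _ _).trans (le_max_right _ _)) hqN
  have hlc : ((D.leadingCoeff : ℤ) : ZMod q) ≠ 0 := by
    intro h
    rw [ZMod.intCast_zmod_eq_zero_iff_dvd] at h
    have h1 : D.leadingCoeff ≠ 0 := by
      rw [Ne, leadingCoeff_eq_zero]
      rintro rfl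
      exact hD0 natDegree_zero
    have h2 : q ∣ D.leadingCoeff.natAbs := Int.natCast_dvd.1 h
    have h3 := Nat.le_of_dvd (Int.natAbs_pos.2 h1) h2
    omega
  have hA : ∀ β ∈ S, β ∈ A := fun β hβ => (hTT β (hT1 β hβ)).1
  have hneS : ∀ β ∈ S, ∀ β' ∈ S, β ≠ β' → ∀ h : β - β' ∈ A, Φ ⟨β - β', h⟩ ≠ 0 := by
    intro β hβ β' hβ' hbb h
    obtain ⟨hz, hz'⟩ := hTT _ (hT2 β hβ β' hβ')
    exact (hz' (sub_ne_zero.2 hbb)).1
  obtain ⟨r1, r2, -, -⟩ := reduction_roots hg hg0 S hSprod A Φ hA hneS hlc (AlgebraicClosure (ZMod q))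
  refine ⟨q, hq, hqN1, r1, r2, ?_⟩
  exact noTate_of_reduction hℓ K₁ F hζ₁ hg hcop hD0 S hSprod U₁ (by rw [hkap]; exact hneg) hsep₁ A Φ hζA
    hqℓ hdvd hc hΦζ hlc T hTT hT0 hT1 hT2 hT3

end Pool.Agent.Lib.MP_89bcae_ag.Re

end
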