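import Mathlib
import Pool.Agent.Lib.MP_89bcae_ag.DefsRf7
import Pool.Agent.Lib.MP_89bcae_ag.Rk.K057
import Pool.Agent.Lib.MP_89bcae_ag.Rk.K058
import Pool.Agent.Lib.MP_89bcae_ag.Rk.K060

namespace Pool.Agent.Lib.MP_89bcae_ag.Superelliptic
end Pool.Agent.Lib.MP_89bcae_ag.Superelliptic

section

/-!
# Absence of Tate classes over number fields and over finite fields, for general polynomials
-/

open Polynomial

open scoped Classical

set_option linter.unusedSimpArgs false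
set_option linter.unusedVariables false
set_option linter.unusedSectionVars false
set_option linter.style.haveILetI false

namespace Pool.Agent.Lib.MP_89bcae_ag

open Superelliptic

/-- An algebraic closure with the standard algebra structure. -/
theorem exists_algClosure7 (k : Type) [Field k] : ∃ (F : Type) (_ : Field F) (_ : Algebra k F),
    IsAlgClosure k F ∧ Nonempty (F ≃+* AlgebraicClosure k) :=
  ⟨AlgebraicClosure k, inferInstance, inferInstance, inferInstance, ⟨RingEquiv.refl _⟩⟩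

/-- Double transitivity, for any algebraic closure. -/
theorem general_pair7 {g D : ℤ[X]} (h : IsGeneral g D) (F : Type) [Field F] [Algebra ℚ F]
    [IsAlgClosure ℚ F] : IsPairTransitive7 ℚ F X (D.map (Int.castRingHom ℚ)) := by
  obtain ⟨F', i1, i2, i3, ⟨e'⟩⟩ := exists_algClosure7 ℚ
  let e : F ≃+* AlgebraicClosure ℚ := (IsAlgClosure.equiv ℚ F F').toRingEquiv.trans e'
  have he : ∀ b : F, aeval b ((D.map (Int.castRingHom ℚ)).comp X) = 0 → aeval (e b) D = 0 := by
    intro b hb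
    have h0 : (D.map (Int.castRingHom ℚ)).map (algebraMap ℚ F) = D.map (Int.castRingHom F) := by
      rw [Polynomial.map_map]
      congr 1
      exact RingHom.ext_int _ _
    rw [comp_X, aeval_def, ← eval_map, h0, eval_map] at hb
    have h1 : aeval (e b) D = e (D.eval₂ (Int.castRingHom F) b) := by
      rw [aeval_def, ← RingEquiv.coe_toRingHom e, hom_eval₂]
      congr 1
      exact RingHom.ext_int _ _
    rw [h1, hb, map_zero]
  intro b c b' c' hb hc hb' hc' hne hne'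
  rw [aeval_X, aeval_X] at hne hne'
  obtain ⟨σ, h1, h2⟩ := h.galois (e b) (e c) (e b') (e c') (he b hb) (he c hc) (he b' hb')
    (he c' hc') (fun h => hne (e.injective h)) (fun h => hne' (e.injective h))
  let τ : F ≃+* F := (e.trans σ).trans e.symm
  refine ⟨AlgEquiv.ofRingEquiv (f := τ) (fun x => ?_), ?_, ?_⟩
  · rw [eq_ratCast (algebraMap ℚ F), map_ratCast]
  · change e.symm (σ (e b)) = b'
    rw [h1, e.symm_apply_apply]
  · change e.symm (σ (e c)) = c'
    rw [h2, e.symm_apply_apply]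

/-- **General polynomials.** -/
theorem noTateTower_of_general7 {g D : ℤ[X]} (hg : g.Monic) (hg2 : 2 ≤ g.natDegree)
    (hn : 3 ≤ D.natDegree) (h : IsGeneral g D) {ℓ : ℕ} (hℓ : ℓ.Prime)
    (hcop : g.natDegree.Coprime ℓ) :
    NoTateTower ℓ ℚ g D ∧ ∀ N : ℕ, ∃ (q : ℕ) (_ : Fact q.Prime), N < q ∧
      (D.map (Int.castRingHom (ZMod q))).natDegree = D.natDegree ∧
      ((D.map (Int.castRingHom (ZMod q))).comp (g.map (Int.castRingHom (ZMod q)))).Separable ∧
      NoTateTower ℓ (ZMod q) g D := by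
  haveI : NeZero ℓ := ⟨hℓ.ne_zero⟩
  -- the two places
  obtain ⟨p, hpℓ, hp, hp2, hlc, hcol⟩ : ∃ p : ℕ, p ≠ ℓ ∧ HasCollision p g D := by
    obtain ⟨p, p', hpp, h1, h2⟩ := h.collision
    by_cases hp : p = ℓ
    · exact ⟨p', fun h => hpp (hp.trans h.symm), h2⟩
    · exact ⟨p, hp, h1⟩
  obtain ⟨q, hqℓ, hq, hqm, hE1, hE2, hE3, hE4⟩ : ∃ q : ℕ, q ≠ ℓ ∧ HasPole q g D := by
    obtain ⟨p, p', hpp, h1, h2⟩ := h.pole
    by_cases hp : p = ℓ
    · exact ⟨p', fun h => hpp (hp.trans h.symm), h2⟩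
    · exact ⟨p, hp, h1⟩
  have hqm' : ¬ q ∣ g.natDegree := fun h1 => by
    have h2 := Nat.le_of_dvd (by omega) h1
    omega
  obtain ⟨m, hm⟩ : ∃ m, D.natDegree = m + 1 := ⟨D.natDegree - 1, by omega⟩
  rw [hm, Nat.add_sub_cancel] at hE3
  -- for any algebraic closure: the cyclotomic field and the automorphism
  have key : ∀ (F : Type) [Field F] [Algebra ℚ F] [IsAlgClosure ℚ F],
      ∃ (K : Type) (_ : Field K) (_ : Algebra ℚ K) (_ : Algebra K F) (_ : IsScalarTower ℚ K F)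
        (_ : FiniteDimensional ℚ K) (_ : NumberField K) (_ : IsAlgClosure K F) (ζ : K),
        IsPrimitiveRoot ζ ℓ ∧
        Sup.GlobHyp ℓ (g.map (Int.castRingHom K)) (D.map (Int.castRingHom K)) ζ ∧
        ∃ U : F ≃ₐ[K] F,
          (∀ x ∈ IntermediateField.adjoin K ((Sup.RR F (g.map (Int.castRingHom K))
            (D.map (Int.castRingHom K)) : Finset F) : Set F), U x = x) ∧
          Sup.kap ℓ (algebraMap K F ζ) U (-1) = 0 ∧
          ∀ μ : ZMod ℓ, Sup.SepU (g.map (Int.castRingHom K)) (D.map (Int.castRingHom K))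
            (Sup.kap ℓ (algebraMap K F ζ) U) μ Set.univ := by
    intro F _ _ _
    have hF : IsAlgClosed F := IsAlgClosure.isAlgClosed ℚ
    have hQF : Algebra.IsAlgebraic ℚ F := IsAlgClosure.isAlgebraic
    obtain ⟨K, iK1, iK2, iK3⟩ : ∃ (K : Type) (_ : Field K) (_ : Algebra ℚ K),
        IsCyclotomicExtension {ℓ} ℚ K :=
      ⟨CyclotomicField ℓ ℚ, inferInstance, CyclotomicField.algebra ℓ ℚ, inferInstance⟩
    haveI hfin : FiniteDimensional ℚ K := IsCyclotomicExtension.finiteDimensional {ℓ} ℚ K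
    haveI hgal : IsGalois ℚ K := IsCyclotomicExtension.isGalois {ℓ} ℚ K
    haveI hnf : NumberField K := IsCyclotomicExtension.numberField {ℓ} ℚ K
    let e : K →ₐ[ℚ] F := IsAlgClosed.lift
    letI iKF : Algebra K F := e.toRingHom.toAlgebra
    haveI iT : IsScalarTower ℚ K F := IsScalarTower.of_algebraMap_eq fun x => (e.commutes x).symm
    haveI hKFa : Algebra.IsAlgebraic K F := Algebra.IsAlgebraic.tower_top (K := ℚ) K
    have hKF : IsAlgClosure K F := ⟨hF, hKFa⟩
    have hζ : IsPrimitiveRoot (IsCyclotomicExtension.zeta ℓ ℚ K) ℓ :=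
      IsCyclotomicExtension.zeta_spec ℓ ℚ K
    have hgen : ∀ σ : K ≃ₐ[ℚ] K, σ (IsCyclotomicExtension.zeta ℓ ℚ K) =
        IsCyclotomicExtension.zeta ℓ ℚ K → σ = 1 := by
      intro σ hσ
      apply AlgEquiv.coe_toAlgHom_injective
      apply (hζ.powerBasis ℚ).algHom_ext
      rw [IsPrimitiveRoot.powerBasis_gen]
      simpa using hσ
    have hX := pair2_of_collision7 hℓ F hg (by omega) h.separable hp hp2 hpℓ hlc hcol K hζ hgen
      (general_pair7 h F)
    obtain ⟨H, U, hU⟩ := exists_U_of_pair7 hℓ F hg hcop (n := m) (by omega) hm h.separable hp hp2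
      hpℓ hlc hcol hq hqℓ hqm' hE1 hE2 hE3 hE4 K hζ hgen hX
    exact ⟨K, iK1, iK2, iKF, iT, hfin, hnf, hKF, _, hζ, H, U, hU⟩
  refine ⟨?_, fun N => ?_⟩
  · intro F L Ω _ _ _ _ _ _ _ _ _ k' hk' r s hs
    obtain ⟨K, iK1, iK2, iKF, iT, hfin, hnf, hKF, ζ, hζ, H, U, hU, hneg, hsep⟩ := key F
    have hCR := cRall_of_univ7 H hU hneg hsep
    have hQK : (algebraMap ℚ K).comp (Int.castRingHom ℚ) = Int.castRingHom K :=
      RingHom.ext_int _ _
    have hmapK : ∀ f : ℤ[X], (f.map (Int.castRingHom ℚ)).map (algebraMap ℚ K) =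
        f.map (Int.castRingHom K) := fun f => by rw [Polynomial.map_map, hQK]
    obtain ⟨K', hK', hle⟩ := Superelliptic.exists_finite8 (K := K) k'
    have hs' : s ^ ℓ ^ r = base K F L Ω (D.map (Int.castRingHom K)) := by
      rw [hs, ← hmapK]
      exact (Superelliptic.base_map8 (K := K) _).symm
    have hmain := Sup.main_tower K F L Ω H (fun a _ => ⟨U, Set.univ, Set.mem_univ a, hCR⟩) K' r s
      hs'
    have h := Superelliptic.NoTateClassOver.ofSup hmain
    apply Superelliptic.noTateClassOver_base (K := K) hle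
    rw [hmapK]
    exact h
  · obtain ⟨F, i1, i2, i3, -⟩ := exists_algClosure7 ℚ
    obtain ⟨K, iK1, iK2, iKF, iT, hfin, hnf, hKF, ζ, hζ, H, U, hU, hneg, hsep⟩ := key F
    obtain ⟨q, hqp, hN, hdeg, hsq, hno⟩ := Re.exists_good_prime hℓ K F hζ hg hg2
      hcop (by omega) h.separable U hU hneg hsep N
    exact ⟨q, hqp, hN, hdeg, hsq, hno⟩

end Pool.Agent.Lib.MP_89bcae_ag

end

section

/-!
# Density one for the general polynomials
-/

open Polynomial Filter Topology

open scoped Classical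

set_option linter.unusedSimpArgs false
set_option linter.unusedVariables false
set_option linter.unusedSectionVars false
set_option linter.style.haveILetI false

namespace Pool.Agent.Lib.MP_89bcae_ag

/-- Double transitivity of the Galois group from the two factorisation types. -/
theorem doubly_of_types7 {D : ℤ[X]} {n : ℕ} (hD : D.natDegree = n) (hn : 3 ≤ n) {pA pB : ℕ}
    [Fact pA.Prime] [Fact pB.Prime]
    (hA : TypeAX14 (D.map (Int.castRingHom (ZMod pA))) n)
    (hB : TypeBX14 (D.map (Int.castRingHom (ZMod pB))) n) (a b a' b' : AlgebraicClosure ℚ)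
    (ha : aeval a D = 0) (hb : aeval b D = 0) (ha' : aeval a' D = 0) (hb' : aeval b' D = 0)
    (hab : a ≠ b) (hab' : a' ≠ b') :
    ∃ σ : AlgebraicClosure ℚ ≃+* AlgebraicClosure ℚ, σ a = a' ∧ σ b = b' := by
  obtain ⟨F, i1, i2, i3, ⟨e⟩⟩ := exists_algClosure7 ℚ
  have hF : IsAlgClosed F := IsAlgClosure.isAlgClosed ℚ
  have hQF : Algebra.IsAlgebraic ℚ F := IsAlgClosure.isAlgebraic
  have hXQ : IsPairTransitive7 ℚ F X (D.map (Int.castRingHom ℚ)) :=
    (pair2_of_types14 (k := ℚ) (F := F) (algebraMap ℚ ℚ_[pA]) (algebraMap ℚ ℚ_[pB]) hD.le hn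
      hA hB).2
  have he : ∀ x : AlgebraicClosure ℚ, aeval x D = 0 →
      aeval (e.symm x) ((D.map (Int.castRingHom ℚ)).comp X) = 0 := by
    intro x hx
    have h0 : (D.map (Int.castRingHom ℚ)).map (algebraMap ℚ F) = D.map (Int.castRingHom F) := by
      rw [Polynomial.map_map]
      congr 1
      exact RingHom.ext_int _ _
    have h1 : D.eval₂ (Int.castRingHom F) (e.symm x) = e.symm (aeval x D) := by
      rw [aeval_def, ← RingEquiv.coe_toRingHom e.symm, hom_eval₂]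
      congr 1
      exact RingHom.ext_int _ _
    rw [comp_X, aeval_def, ← eval_map, h0, eval_map, h1, hx, map_zero]
  obtain ⟨σ, h1, h2⟩ := hXQ (e.symm a) (e.symm b) (e.symm a') (e.symm b') (he a ha) (he b hb)
    (he a' ha') (he b' hb') (by rw [aeval_X, aeval_X]; exact fun h => hab (e.symm.injective h))
    (by rw [aeval_X, aeval_X]; exact fun h => hab' (e.symm.injective h))
  refine ⟨(e.symm.trans (σ : F ≃+* F)).trans e, ?_, ?_⟩
  · change e (σ (e.symm a)) = a'
    rw [h1, e.apply_symm_apply]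
  · change e (σ (e.symm b)) = b'
    rw [h2, e.apply_symm_apply]

/-- **Density one.** -/
theorem density_general7 {g : ℤ[X]} (hg : g.Monic) (hg0 : g.natDegree ≠ 0) {n : ℕ}
    (hn : 3 ≤ n) :
    Tendsto (fun H : ℕ => ({a : Fin (n + 1) → ℤ | (∀ i, |a i| ≤ H) ∧
      ((vecPoly7 a).natDegree = n ∧ Superelliptic.IsGeneral g (vecPoly7 a))}.ncard : ℝ) /
          (2 * H + 1) ^ (n + 1)) atTop (𝓝 1) := by
  let Cond : ZMod 4 → (Fin (n + 1) → ℤ) → Prop := fun u a =>
    (vecPoly7 a).natDegree = n ∧ (((vecPoly7 a).comp g).map (Int.castRingHom ℚ)).Separable ∧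
    (∃ (p : ℕ) (_ : Fact p.Prime), TypeAX14 ((vecPoly7 a).map (Int.castRingHom (ZMod p))) n) ∧
    (∃ (p : ℕ) (_ : Fact p.Prime), TypeBX14 ((vecPoly7 a).map (Int.castRingHom (ZMod p))) n) ∧
    (∃ p : ℕ, p.Prime ∧ (p : ZMod 4) = u ∧ IsCollisionZ8 p g (vecPoly7 a) ∧
        ¬ (p : ℤ) ∣ (vecPoly7 a).coeff n) ∧
    (∃ p : ℕ, p.Prime ∧ 3 + g.natDegree ≤ p ∧ (p : ZMod 4) = u ∧
      IsPoleZ14 p g (vecPoly7 a) n)
  have hden : ∀ u : ZMod 4, IsUnit u →
      Tendsto (fun H : ℕ => ({a : Fin (n + 1) → ℤ | (∀ i, |a i| ≤ H) ∧ Cond u a}.ncard : ℝ) /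
        (2 * H + 1) ^ (n + 1)) atTop (𝓝 1) := by
    intro u hu
    refine superDensityUnit7 4 hu hg hg0 hn (3 + g.natDegree) (Cond u) ?_
    intro a hdeg hsep hA hB hC hE
    obtain ⟨pA, fA, -, -, hA2⟩ := hA
    obtain ⟨pB, fB, -, -, hB2⟩ := hB
    obtain ⟨p, hp, hpP, hpu, hcol, hlc⟩ := hC
    obtain ⟨q, hq, hqP, hqu, hE1⟩ := hE
    exact ⟨hdeg, hsep, ⟨pA, fA, hA2⟩, ⟨pB, fB, hB2⟩, ⟨p, hp, hpu, hcol, hlc⟩,
      ⟨q, hq, hqP, hqu, hE1⟩⟩
  have h1 := hden 1 isUnit_one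
  have h3 := hden 3 (by decide)
  have hne : (1 : ZMod 4) ≠ 3 := by decide
  have h13 := density_inter7 h1 h3
  refine tendsto_of_tendsto_of_tendsto_of_le_of_le h13 tendsto_const_nhds (fun H => ?_)
    (fun H => ?_)
  · apply div_le_div_of_nonneg_right _ (by positivity)
    rw [Nat.cast_le]
    apply Set.ncard_le_ncard
    · rintro a ⟨hbox, ⟨hdeg, hsep, hA, hB, hC1, hE1⟩, ⟨-, -, -, -, hC3, hE3⟩⟩
      obtain ⟨pA, fA, hA⟩ := hA
      obtain ⟨pB, fB, hB⟩ := hB
      obtain ⟨p₁, hp₁, hp₁u, hcol₁, hlc₁⟩ := hC1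
      obtain ⟨p₃, hp₃, hp₃u, hcol₃, hlc₃⟩ := hC3
      obtain ⟨q₁, hq₁, hq₁P, hq₁u, hpol₁⟩ := hE1
      obtain ⟨q₃, hq₃, hq₃P, hq₃u, hpol₃⟩ := hE3
      have h2u : ∀ u : ZMod 4, u = 1 ∨ u = 3 → ((2 : ℕ) : ZMod 4) ≠ u := by decide
      have hco : (vecPoly7 a).coeff n = (vecPoly7 a).leadingCoeff := by
        rw [leadingCoeff, hdeg]
      rw [hco] at hlc₁ hlc₃
      unfold IsPoleZ14 at hpol₁ hpol₃
      rw [hco] at hpol₁ hpol₃
      refine ⟨hbox, hdeg, hsep, doubly_of_types7 hdeg hn hA hB, ?_, ?_⟩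
      · refine ⟨p₁, p₃, ?_, ⟨hp₁, ?_, hlc₁, hcol₁⟩, ⟨hp₃, ?_, hlc₃, hcol₃⟩⟩
        · rintro rfl
          exact hne (hp₁u.symm.trans hp₃u)
        · rintro rfl
          exact h2u 1 (Or.inl rfl) hp₁u
        · rintro rfl
          exact h2u 3 (Or.inr rfl) hp₃u
      · refine ⟨q₁, q₃, ?_, ⟨hq₁, by omega, hpol₁.1, hpol₁.2.1, ?_, hpol₁.2.2.2⟩,
          ⟨hq₃, by omega, hpol₃.1, hpol₃.2.1, ?_, hpol₃.2.2.2⟩⟩
        · rintro rfl
          exact hne (hq₁u.symm.trans hq₃u)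
        · rw [hdeg]
          exact hpol₁.2.2.1
        · rw [hdeg]
          exact hpol₃.2.2.1
    · apply Set.Finite.subset (Finset.finite_toSet
        (Fintype.piFinset fun _ : Fin (n + 1) => Finset.Icc (-(H : ℤ)) H))
      rintro a ⟨h2, -⟩
      rw [Finset.mem_coe, Fintype.mem_piFinset]
      intro i
      rw [Finset.mem_Icc]
      exact abs_le.mp (h2 i)
  · have hpos : (0 : ℝ) < (2 * H + 1) ^ (n + 1) := by positivity
    rw [div_le_one hpos]
    have hbox : ((Fintype.piFinset fun _ : Fin (n + 1) => Finset.Icc (-(H : ℤ)) H).card : ℝ) =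
        (2 * H + 1) ^ (n + 1) := by
      rw [Fintype.card_piFinset]
      simp only [Int.card_Icc, Finset.prod_const, Finset.card_univ, Fintype.card_fin]
      have h1 : ((H : ℤ) + 1 - -(H : ℤ)).toNat = 2 * H + 1 := by omega
      rw [h1]
      push_cast
      rfl
    rw [← hbox, ← Set.ncard_coe_finset, Nat.cast_le]
    apply Set.ncard_le_ncard _ (Finset.finite_toSet _)
    rintro a ⟨h3, -⟩
    rw [Finset.mem_coe, Fintype.mem_piFinset]
    intro i
    rw [Finset.mem_Icc]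
    exact abs_le.mp (h3 i)

end Pool.Agent.Lib.MP_89bcae_ag

end
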