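import Mathlib

open Polynomial Finset

namespace Pool.Agent.Lib.MP_89bcae_ag.Tw

variable {F : Type*} [Field F]

/-- the exponent `i` with `ψ w = ζ ^ i w`, where `w ^ ℓ = x` -/
noncomputable def lam (ℓ : ℕ) (ψ : F ≃+* F) (ζ : F) (x : F) : ZMod ℓ := by
  classical
  exact if h : ∃ i : ℕ, ∃ w : F, w ^ ℓ = x ∧ ψ w = ζ ^ i * w then ((h.choose : ℕ) : ZMod ℓ) else 0

variable {ℓ : ℕ} {ψ : F ≃+* F} {ζ : F}

/-- powers of a primitive root are equal iff the exponents agree modulo `ℓ`. -/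
lemma t11_pow_eq (hℓ : 0 < ℓ) (hζ : IsPrimitiveRoot ζ ℓ) (i j : ℕ) :
    ζ ^ i = ζ ^ j ↔ (i : ZMod ℓ) = j := by
  rw [ZMod.natCast_eq_natCast_iff]
  have h1 : ∀ k : ℕ, ζ ^ k = ζ ^ (k % ℓ) := by
    intro k
    conv_lhs => rw [← Nat.mod_add_div k ℓ, pow_add, pow_mul, hζ.pow_eq_one, one_pow, mul_one]
  constructor
  · intro h
    rw [h1 i, h1 j] at h
    exact hζ.pow_inj (Nat.mod_lt _ hℓ) (Nat.mod_lt _ hℓ) h
  · intro h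
    rw [h1 i, h1 j]
    congr 1

/-- two `ℓ`-th roots differ by a power of `ζ` -/
lemma t11_root (hℓ : 0 < ℓ) (hζ : IsPrimitiveRoot ζ ℓ) {x u w : F} (hx0 : x ≠ 0)
    (hu : u ^ ℓ = x) (hw : w ^ ℓ = x) : ∃ j : ℕ, u = ζ ^ j * w := by
  have hw0 : w ≠ 0 := by
    rintro rfl
    rw [zero_pow hℓ.ne'] at hw
    exact hx0 hw.symm
  have h1 : (u / w) ^ ℓ = 1 := by
    rw [div_pow, hu, hw, div_self hx0]
  have : NeZero ℓ := ⟨hℓ.ne'⟩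
  obtain ⟨j, _, hj⟩ := hζ.eq_pow_of_pow_eq_one h1
  exact ⟨j, by rw [hj, div_mul_cancel₀ _ hw0]⟩

lemma lam_spec (hℓ : 0 < ℓ) (hζ : IsPrimitiveRoot ζ ℓ) {x w : F} (hx0 : x ≠ 0) (hx : ψ x = x)
    (hw : w ^ ℓ = x) (hψ : ψ ζ = ζ) : ∀ i : ℕ, ((i : ZMod ℓ) = lam ℓ ψ ζ x ↔ ψ w = ζ ^ i * w) := by
  intro i
  have hw0 : w ≠ 0 := by
    rintro rfl
    rw [zero_pow hℓ.ne'] at hw
    exact hx0 hw.symm
  have hψw : (ψ w) ^ ℓ = x := by rw [← map_pow, hw, hx]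
  obtain ⟨j, hj⟩ := t11_root hℓ hζ hx0 hψw hw
  have h : ∃ i : ℕ, ∃ w : F, w ^ ℓ = x ∧ ψ w = ζ ^ i * w := ⟨j, w, hw, hj⟩
  have hlam : lam ℓ ψ ζ x = ((h.choose : ℕ) : ZMod ℓ) := by
    unfold lam
    rw [dif_pos h]
  obtain ⟨w0, hw0x, hψ0⟩ := h.choose_spec
  obtain ⟨k, hk⟩ := t11_root hℓ hζ hx0 hw hw0x
  have h2 : ψ w = ζ ^ h.choose * w := by
    rw [hk, map_mul, map_pow, hψ, hψ0]
    ring
  rw [hlam, ← t11_pow_eq hℓ hζ, h2]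
  constructor
  · intro h3
    rw [h3]
  · intro h3
    exact (mul_right_cancel₀ hw0 h3).symm

/-- every class is represented by a natural number exponent -/
lemma t11_exists (hℓ : 0 < ℓ) (hζ : IsPrimitiveRoot ζ ℓ) {x w : F} (hx0 : x ≠ 0) (hx : ψ x = x)
    (hw : w ^ ℓ = x) (hψ : ψ ζ = ζ) : ∃ i : ℕ, (i : ZMod ℓ) = lam ℓ ψ ζ x ∧ ψ w = ζ ^ i * w := by
  have : NeZero ℓ := ⟨hℓ.ne'⟩
  refine ⟨(lam ℓ ψ ζ x).val, ZMod.natCast_zmod_val _, ?_⟩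
  exact (lam_spec hℓ hζ hx0 hx hw hψ _).1 (ZMod.natCast_zmod_val _)

lemma lam_mul [IsAlgClosed F] (hℓ : 0 < ℓ) (hζ : IsPrimitiveRoot ζ ℓ) (hψ : ψ ζ = ζ) {x y : F}
    (hx0 : x ≠ 0) (hx : ψ x = x) (hy0 : y ≠ 0) (hy : ψ y = y) :
    lam ℓ ψ ζ (x * y) = lam ℓ ψ ζ x + lam ℓ ψ ζ y := by
  obtain ⟨u, hu⟩ := IsAlgClosed.exists_pow_nat_eq x hℓ
  obtain ⟨v, hv⟩ := IsAlgClosed.exists_pow_nat_eq y hℓ
  obtain ⟨i, hi, hui⟩ := t11_exists hℓ hζ hx0 hx hu hψ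
  obtain ⟨j, hj, hvj⟩ := t11_exists hℓ hζ hy0 hy hv hψ
  have h := (lam_spec hℓ hζ (mul_ne_zero hx0 hy0) (by rw [map_mul, hx, hy])
    (by rw [mul_pow, hu, hv] : (u * v) ^ ℓ = x * y) hψ (i + j)).2 (by
      rw [map_mul, hui, hvj, pow_add]
      ring)
  rw [← h, ← hi, ← hj, Nat.cast_add]

lemma lam_one (hℓ : 0 < ℓ) (hζ : IsPrimitiveRoot ζ ℓ) (hψ : ψ ζ = ζ) : lam ℓ ψ ζ 1 = 0 := by
  have h := (lam_spec hℓ hζ (one_ne_zero (α := F)) (map_one ψ) (one_pow ℓ) hψ 0).2 (by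
    rw [map_one, pow_zero, one_mul])
  rw [← h, Nat.cast_zero]

/-- `lam` on natural powers -/
lemma t11_lam_pow [IsAlgClosed F] (hℓ : 0 < ℓ) (hζ : IsPrimitiveRoot ζ ℓ) (hψ : ψ ζ = ζ) {x : F}
    (hx0 : x ≠ 0) (hx : ψ x = x) (n : ℕ) : lam ℓ ψ ζ (x ^ n) = n * lam ℓ ψ ζ x := by
  induction n with
  | zero => rw [pow_zero, lam_one hℓ hζ hψ, Nat.cast_zero, zero_mul]
  | succ n ih =>
    rw [pow_succ, lam_mul hℓ hζ hψ (pow_ne_zero n hx0) (by rw [map_pow, hx]) hx0 hx, ih]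
    push_cast
    ring

/-- `lam` on inverses -/
lemma t11_lam_inv [IsAlgClosed F] (hℓ : 0 < ℓ) (hζ : IsPrimitiveRoot ζ ℓ) (hψ : ψ ζ = ζ) {x : F}
    (hx0 : x ≠ 0) (hx : ψ x = x) : lam ℓ ψ ζ x⁻¹ = - lam ℓ ψ ζ x := by
  have h := lam_mul hℓ hζ hψ (inv_ne_zero hx0) (by rw [map_inv₀, hx]) hx0 hx
  rw [inv_mul_cancel₀ hx0, lam_one hℓ hζ hψ] at h
  exact eq_neg_of_add_eq_zero_left h.symm

lemma lam_zpow [IsAlgClosed F] (hℓ : 0 < ℓ) (hζ : IsPrimitiveRoot ζ ℓ) (hψ : ψ ζ = ζ) {x : F}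
    (hx0 : x ≠ 0) (hx : ψ x = x) (i : ℤ) : lam ℓ ψ ζ (x ^ i) = i * lam ℓ ψ ζ x := by
  obtain ⟨n, rfl | rfl⟩ := i.eq_nat_or_neg
  · rw [zpow_natCast, t11_lam_pow hℓ hζ hψ hx0 hx, Int.cast_natCast]
  · rw [zpow_neg, zpow_natCast, t11_lam_inv hℓ hζ hψ (pow_ne_zero n hx0) (by rw [map_pow, hx]),
      t11_lam_pow hℓ hζ hψ hx0 hx]
    push_cast
    ring

lemma lam_prod [IsAlgClosed F] (hℓ : 0 < ℓ) (hζ : IsPrimitiveRoot ζ ℓ) (hψ : ψ ζ = ζ) {ι : Type*}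
    (s : Finset ι) (f : ι → F) (h0 : ∀ i ∈ s, f i ≠ 0) (h : ∀ i ∈ s, ψ (f i) = f i) :
    lam ℓ ψ ζ (∏ i ∈ s, f i) = ∑ i ∈ s, lam ℓ ψ ζ (f i) := by
  classical
  induction s using Finset.induction_on with
  | empty => rw [Finset.prod_empty, Finset.sum_empty, lam_one hℓ hζ hψ]
  | insert a s ha ih =>
    rw [Finset.prod_insert ha, Finset.sum_insert ha]
    have h0' : ∀ i ∈ s, f i ≠ 0 := fun i hi => h0 i (Finset.mem_insert_of_mem hi)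
    have h' : ∀ i ∈ s, ψ (f i) = f i := fun i hi => h i (Finset.mem_insert_of_mem hi)
    rw [lam_mul hℓ hζ hψ (h0 a (Finset.mem_insert_self a s)) (h a (Finset.mem_insert_self a s))
      (Finset.prod_ne_zero_iff.2 h0') (by rw [map_prod]; exact Finset.prod_congr rfl h'),
      ih h0' h']

/-- `lam` vanishes exactly at the `ℓ`-th powers of elements fixed by `ψ`. -/
lemma lam_eq_zero_iff [IsAlgClosed F] (hℓ : 0 < ℓ) (hζ : IsPrimitiveRoot ζ ℓ) (hψ : ψ ζ = ζ) {x : F}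
    (hx0 : x ≠ 0) (hx : ψ x = x) : lam ℓ ψ ζ x = 0 ↔ ∃ w, w ^ ℓ = x ∧ ψ w = w := by
  constructor
  · intro h
    obtain ⟨w, hw⟩ := IsAlgClosed.exists_pow_nat_eq x hℓ
    refine ⟨w, hw, ?_⟩
    have h1 := (lam_spec hℓ hζ hx0 hx hw hψ 0).1 (by rw [h, Nat.cast_zero])
    rwa [pow_zero, one_mul] at h1
  · rintro ⟨w, hw, hψw⟩
    have h1 := (lam_spec hℓ hζ hx0 hx hw hψ 0).2 (by rw [pow_zero, one_mul, hψw])
    rw [← h1, Nat.cast_zero]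

/-- invariance under an automorphism which commutes with `ψ` -/
lemma lam_apply [IsAlgClosed F] (hℓ : 0 < ℓ) (hζ : IsPrimitiveRoot ζ ℓ) (hψ : ψ ζ = ζ)
    (φ : F ≃+* F) (hφζ : φ ζ = ζ) (hcomm : ∀ x, φ (ψ x) = ψ (φ x)) {x : F}
    (hx0 : x ≠ 0) (hx : ψ x = x) : lam ℓ ψ ζ (φ x) = lam ℓ ψ ζ x := by
  obtain ⟨w, hw⟩ := IsAlgClosed.exists_pow_nat_eq x hℓ
  obtain ⟨i, hi, hwi⟩ := t11_exists hℓ hζ hx0 hx hw hψ
  have h1 := (lam_spec (ψ := ψ) hℓ hζ (x := φ x) (w := φ w)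
    ((map_ne_zero_iff φ φ.injective).2 hx0) (by rw [← hcomm, hx]) (by rw [← map_pow, hw]) hψ i).2 (by
      rw [← hcomm, hwi, map_mul, map_pow, hφζ])
  rw [← h1, hi]

end Pool.Agent.Lib.MP_89bcae_ag.Tw
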