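import Mathlib
import Pool.Agent.Lib.MP_89bcae_ag.DefsFam45
import Pool.Agent.Lib.MP_89bcae_ag.Rk.K021

namespace Pool.Agent.Lib.MP_89bcae_ag
end Pool.Agent.Lib.MP_89bcae_ag
namespace Pool.Agent.Lib.MP_89bcae_ag.Frob14
end Pool.Agent.Lib.MP_89bcae_ag.Frob14

/-!
# Finite fields: norms, products over the elements of a subfield (from Exc8.lean and Fam45.lean)
-/

open Polynomial

namespace Pool.Agent.Lib.MP_89bcae_ag.Tw

open Pool.Agent.Lib.MP_89bcae_ag Pool.Agent.Lib.MP_89bcae_ag.Frob14

universe u

section Norm

set_option linter.unusedSectionVars false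

variable {k F : Type*} [Field k] [Fintype k] [Field F] [Algebra k F] [Algebra.IsAlgebraic k F]
  [IsAlgClosed F]

lemma frob8_pow_inj {x : F} {n : ℕ} (h : ∀ i, (frob8 k F ^ i) x = x ↔ n ∣ i) {a b : ℕ} :
    (frob8 k F ^ a) x = (frob8 k F ^ b) x ↔ a ≡ b [MOD n] := by
  rcases le_total a b with hle | hle
  · have h1 : (frob8 k F ^ a) x = (frob8 k F ^ b) x ↔ (frob8 k F ^ (b - a)) x = x := by
      constructor
      · intro h1
        apply (frob8 k F ^ a).injective
        rw [← AlgEquiv.mul_apply, ← pow_add, Nat.add_sub_cancel' hle]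
        exact h1.symm
      · intro h1
        rw [← Nat.add_sub_cancel' hle, pow_add, AlgEquiv.mul_apply, h1]
    rw [h1, h, Nat.modEq_iff_dvd' hle]
  · have h1 : (frob8 k F ^ a) x = (frob8 k F ^ b) x ↔ (frob8 k F ^ (a - b)) x = x := by
      constructor
      · intro h1
        apply (frob8 k F ^ b).injective
        rw [← AlgEquiv.mul_apply, ← pow_add, Nat.add_sub_cancel' hle]
        exact h1
      · intro h1
        rw [← Nat.add_sub_cancel' hle, pow_add, AlgEquiv.mul_apply, h1]
    rw [h1, h, Nat.ModEq.comm, Nat.modEq_iff_dvd' hle]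

lemma mem_range_of_frob8 {x : F} (h : frob8 k F x = x) : ∃ a : k, algebraMap k F a = x := by
  classical
  have h1 : (frob8 k F ^ 1) x = x := by rw [pow_one]; exact h
  rw [frob8_pow_eq_iff, Nat.dvd_one] at h1
  have hint : IsIntegral k x := Algebra.IsIntegral.isIntegral x
  have h3 := (minpoly.natDegree_eq_one_iff).mp h1
  exact h3

/-- A product over the roots of `X ^ q ^ i - X` as a product over a finite field. -/
lemma prod_fixS_eq {K : Type*} [Field K] [Fintype K] [Algebra k K] (f : F → F) :
    ∀ σ : K →ₐ[k] F, ∏ c ∈ fixS k F (Module.finrank k K), f c = ∏ c : K, f (σ c) := by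
  classical
  intro σ
  have hcard : Fintype.card K = Fintype.card k ^ Module.finrank k K :=
    Module.card_eq_pow_finrank (K := k) (V := K)
  have hpos : 0 < Module.finrank k K := by
    have : Module.Finite k K := Module.Finite.of_finite
    exact Module.finrank_pos
  have h1 : 1 < Fintype.card k ^ Module.finrank k K := by
    rw [← hcard]; exact Fintype.one_lt_card
  have hne : (X ^ (Fintype.card k ^ Module.finrank k K) - X : F[X]) ≠ 0 :=
    FiniteField.X_pow_card_sub_X_ne_zero F h1
  have himg : (Finset.univ.image (fun c : K => σ c)) = fixS k F (Module.finrank k K) := by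
    apply Finset.eq_of_subset_of_card_le
    · intro x hx
      obtain ⟨c, -, rfl⟩ := Finset.mem_image.mp hx
      unfold fixS
      rw [Multiset.mem_toFinset, mem_roots hne, IsRoot.def, eval_sub, eval_pow, eval_X, ← hcard,
        ← map_pow, FiniteField.pow_card, sub_self]
    · have hc : (Finset.univ.image (fun c : K => σ c)).card = Fintype.card K :=
        (Finset.card_image_of_injective _ σ.injective).trans Finset.card_univ
      rw [hc, hcard]
      unfold fixS
      refine (Multiset.toFinset_card_le _).trans ((card_roots' _).trans ?_)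
      rw [FiniteField.X_pow_card_sub_X_natDegree_eq F h1]
  rw [← himg, Finset.prod_image]
  intro x _ y _ hxy
  exact σ.injective hxy

/-- The values of `D` in terms of one of its roots. -/
lemma aeval_eq_prod {D : k[X]} (hm : D.Monic) (hirr : Irreducible D) {n : ℕ}
    (hn : D.natDegree = n) {α : F} (hα : aeval α D = 0) (x : F) :
    aeval x D = ∏ m ∈ Finset.range n, (x - (frob8 k F ^ m) α) := by
  classical
  have hmin : minpoly k α = D := (minpoly.eq_of_irreducible_of_monic hirr hα hm).symm
  have hiff : ∀ i : ℕ, (frob8 k F ^ i) α = α ↔ n ∣ i := fun i => by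
    rw [frob8_pow_eq_iff, hmin, hn]
  set S : Finset F := (Finset.range n).image (fun m => (frob8 k F ^ m) α) with hS
  have hinj : Set.InjOn (fun m => (frob8 k F ^ m) α) (Finset.range n : Set ℕ) := by
    intro a ha b hb hab
    rw [Finset.mem_coe, Finset.mem_range] at ha hb
    have h1 := (frob8_pow_inj hiff).mp hab
    rwa [Nat.ModEq, Nat.mod_eq_of_lt ha, Nat.mod_eq_of_lt hb] at h1
  have hcard : S.card = n := by
    rw [hS, Finset.card_image_of_injOn hinj, Finset.card_range]
  have hmon : (D.map (algebraMap k F)).Monic := hm.map _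
  have hdeg : (D.map (algebraMap k F)).natDegree = n := by rw [natDegree_map, hn]
  have heq : S.val = (D.map (algebraMap k F)).roots := by
    apply Multiset.eq_of_le_of_card_le
    · rw [Finset.val_le_iff_val_subset]
      intro y hy
      have hy' : y ∈ S := hy
      obtain ⟨m, -, rfl⟩ := Finset.mem_image.mp hy'
      rw [mem_roots hmon.ne_zero, IsRoot.def, eval_map_algebraMap,
        ← AlgEquiv.coe_toAlgHom (frob8 k F ^ m), aeval_algHom_apply, hα, map_zero]
    · refine (card_roots' _).trans ?_
      rw [hdeg]
      exact hcard.ge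
  have hprod := (IsAlgClosed.splits (D.map (algebraMap k F))).eq_prod_roots
  rw [hmon.leadingCoeff, C_1, one_mul, ← heq] at hprod
  have h3 := congrArg (eval x) hprod
  rw [eval_map_algebraMap] at h3
  rw [h3]
  change eval x (∏ c ∈ S, (X - C c)) = _
  rw [eval_prod, hS, Finset.prod_image hinj]
  simp only [eval_sub, eval_X, eval_C]

open scoped Classical in
lemma frob8_mem_fixS {i : ℕ} (hi : 0 < i) {c : F} (m : ℕ) :
    (frob8 k F ^ m) c ∈ fixS k F i ↔ c ∈ fixS k F i := by
  have h1 : 1 < Fintype.card k ^ i := Nat.one_lt_pow hi.ne' Fintype.one_lt_card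
  have hne : (X ^ (Fintype.card k ^ i) - X : F[X]) ≠ 0 := FiniteField.X_pow_card_sub_X_ne_zero F h1
  unfold fixS
  rw [Multiset.mem_toFinset, Multiset.mem_toFinset, mem_roots hne, mem_roots hne, IsRoot.def,
    IsRoot.def, eval_sub, eval_sub, eval_pow, eval_pow, eval_X, eval_X, ← map_pow, ← map_sub,
    EmbeddingLike.map_eq_zero_iff]

end Norm

section Basic

variable {k : Type u} [Field k]

lemma family_finite [Finite k] (g : k[X]) (n : ℕ) : (family g n).Finite := by
  have hinj : Set.InjOn (fun D : k[X] => fun i : Fin (n + 1) => D.coeff i) (family g n) := by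
    rintro D ⟨-, h1, -⟩ D' ⟨-, h1', -⟩ h
    ext i
    by_cases hi : i < n + 1
    · exact congrFun h ⟨i, hi⟩
    · rw [coeff_eq_zero_of_natDegree_lt (by omega), coeff_eq_zero_of_natDegree_lt (by omega)]
  exact Set.Finite.of_finite_image (Set.toFinite _) hinj

end Basic

section Count

variable {k F : Type u} [Field k] [Fintype k] [Field F] [Algebra k F] [IsAlgClosure k F]

open scoped Classical in
/-- The roots of the polynomials of a finite set of monic irreducible polynomials of degree `n`. -/
lemma exists_roots_card (n : ℕ) (S : Finset k[X])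
    (hS : ∀ D ∈ S, D.Monic ∧ D.natDegree = n ∧ Irreducible D) :
    ∃ A : Finset F, (∀ a, a ∈ A ↔ minpoly k a ∈ S) ∧ A.card = n * S.card := by
  have hF : IsAlgClosed F := IsAlgClosure.isAlgClosed k
  have hkF : Algebra.IsAlgebraic k F := IsAlgClosure.isAlgebraic
  have key : ∀ D ∈ S, ∀ a : F, a ∈ (D.aroots F).toFinset ↔ minpoly k a = D := by
    intro D hD a
    obtain ⟨h1, -, h3⟩ := hS D hD
    rw [Multiset.mem_toFinset, mem_aroots]
    constructor
    · rintro ⟨-, h4⟩
      exact (minpoly.eq_of_irreducible_of_monic h3 h4 h1).symm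
    · intro h4
      exact ⟨h3.ne_zero, by rw [← h4, minpoly.aeval]⟩
  refine ⟨S.biUnion fun D => (D.aroots F).toFinset, fun a => ?_, ?_⟩
  · rw [Finset.mem_biUnion]
    constructor
    · rintro ⟨D, hD, h⟩
      rw [(key D hD a).mp h]
      exact hD
    · intro h
      exact ⟨_, h, (key _ h a).mpr rfl⟩
  · rw [Finset.card_biUnion]
    · rw [Finset.sum_const_nat (m := n), mul_comm]
      intro D hD
      obtain ⟨h1, h2, h3⟩ := hS D hD
      have hsep : D.Separable := PerfectField.separable_of_irreducible h3
      have h4 : (D.aroots F).Nodup := nodup_roots hsep.map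
      rw [Multiset.toFinset_card_of_nodup h4, aroots_def,
        ← (IsAlgClosed.splits (D.map (algebraMap k F))).natDegree_eq_card_roots, natDegree_map, h2]
    · intro D hD D' hD' hne
      rw [Function.onFun, Finset.disjoint_left]
      intro a ha ha'
      exact hne (((key D hD a).mp ha).symm.trans ((key D' hD' a).mp ha'))

end Count

end Pool.Agent.Lib.MP_89bcae_ag.Tw
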