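import Mathlib
import Pool.Agent.Lib.MP_89bcae_ag.DefsSup
import Pool.Agent.Lib.MP_89bcae_ag.Rk.K044
import Pool.Agent.Lib.MP_89bcae_ag.Rk.K063
import Pool.Agent.Lib.MP_89bcae_ag.Rk.K064
import Pool.Agent.Lib.MP_89bcae_ag.Rk.K066

namespace Pool.Agent.Lib.MP_89bcae_ag
end Pool.Agent.Lib.MP_89bcae_ag

section

/-!
# An eigenvector up to constants on the fibres forces a scalar
-/

open Polynomial Finset

namespace Pool.Agent.Lib.MP_89bcae_ag.Tw

theorem scalar_of_eigenvector_all {ℓ m j : ℕ} [Fact ℓ.Prime] (hm : m.Prime)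
    (hirr : Irreducible (cyclotomic (m ^ (j + 1)) (ZMod ℓ)))
    (r : ZMod (m * m ^ j) → ZMod ℓ) (c : ZMod ℓ) (e : ZMod (m * m ^ j) → ZMod ℓ) (he : e ≠ 0)
    (hsum : ∀ i : ZMod (m * m ^ j), ∑ t ∈ range m, e (i + (m ^ j * t : ℕ)) = 0)
    [NeZero (m * m ^ j)]
    (heig : ∀ i, ∑ s, r s * (e i - e (i + s)) = c * e i) :
    ∀ s : ZMod (m * m ^ j), ZMod.castHom (dvd_mul_left (m ^ j) m) (ZMod (m ^ j)) s ≠ 0 →
      r s = r (s + (m ^ j : ℕ)) := by
  classical
  intro s hs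
  set T : Module.End (ZMod ℓ) (ZMod (m * m ^ j) → ZMod ℓ) := t10_T (m * m ^ j) with hT
  set P : (ZMod ℓ)[X] := C (∑ s, r s - c) - ∑ s, C (r s) * X ^ s.val with hP
  have hPe : ∀ (v : ZMod (m * m ^ j) → ZMod ℓ) (i : ZMod (m * m ^ j)), (aeval T P) v i =
      (∑ s, r s - c) * v i - ∑ s, r s * v (i + s) := by
    intro v i
    rw [hP, map_sub, map_sum, aeval_C, LinearMap.sub_apply, Pi.sub_apply, LinearMap.sum_apply,
      Finset.sum_apply, Module.algebraMap_end_apply, Pi.smul_apply, smul_eq_mul]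
    congr 1
    refine Finset.sum_congr rfl fun s _ => ?_
    rw [map_mul, aeval_C, map_pow, aeval_X, Module.End.mul_apply, Module.algebraMap_end_apply,
      Pi.smul_apply, smul_eq_mul, hT, t10_T_pow, ZMod.natCast_zmod_val]
  have hΦ : ∀ (v : ZMod (m * m ^ j) → ZMod ℓ) (i : ZMod (m * m ^ j)),
      (aeval T (cyclotomic (m ^ (j + 1)) (ZMod ℓ))) v i =
      ∑ t ∈ range m, v (i + (m ^ j * t : ℕ)) := by
    intro v i
    have : Fact m.Prime := ⟨hm⟩
    rw [cyclotomic_prime_pow_eq_geom_sum hm, map_sum, LinearMap.sum_apply, Finset.sum_apply]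
    refine Finset.sum_congr rfl fun t _ => ?_
    rw [map_pow, map_pow, aeval_X, ← pow_mul, hT, t10_T_pow]
  have hPe0 : (aeval T P) e = 0 := by
    funext i
    rw [hPe, Pi.zero_apply]
    have h1 := heig i
    have h2 : ∑ s, r s * (e i - e (i + s)) = (∑ s, r s) * e i - ∑ s, r s * e (i + s) := by
      rw [Finset.sum_mul, ← Finset.sum_sub_distrib]
      refine Finset.sum_congr rfl fun s _ => ?_
      ring
    rw [h2] at h1
    linear_combination h1
  have hΦe0 : (aeval T (cyclotomic (m ^ (j + 1)) (ZMod ℓ))) e = 0 := by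
    funext i
    rw [hΦ, Pi.zero_apply]
    exact hsum i
  have hdvd : cyclotomic (m ^ (j + 1)) (ZMod ℓ) ∣ P := by
    by_contra hnd
    obtain ⟨a, b, hab⟩ := (hirr.coprime_iff_not_dvd).2 hnd
    apply he
    have h1 := congrArg (fun q => (aeval T q) e) hab
    simp only [map_add, map_mul, map_one, LinearMap.add_apply, Module.End.mul_apply, hPe0, hΦe0,
      map_zero, add_zero, Module.End.one_apply] at h1
    exact h1.symm
  obtain ⟨Q, hQ⟩ := hdvd
  set v : ZMod (m * m ^ j) → ZMod ℓ :=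
    Pi.single 0 1 - Pi.single ((m ^ j : ℕ) : ZMod (m * m ^ j)) 1 with hv
  have hΦv : (aeval T (cyclotomic (m ^ (j + 1)) (ZMod ℓ))) v = 0 := by
    funext i
    rw [hΦ, Pi.zero_apply]
    exact t10_telescope rfl i
  have hPv : (aeval T P) v = 0 := by
    rw [hQ, mul_comm (cyclotomic (m ^ (j + 1)) (ZMod ℓ)) Q, map_mul, Module.End.mul_apply, hΦv,
      map_zero]
  have h3 := congrFun hPv (-s)
  rw [hPe, Pi.zero_apply] at h3
  have hpn : ZMod.castHom (dvd_mul_left (m ^ j) m) (ZMod (m ^ j))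
      (((m ^ j : ℕ) : ZMod (m * m ^ j))) = 0 := by
    rw [map_natCast, ZMod.natCast_self]
  have hv1 : v (-s) = 0 := by
    rw [hv, Pi.sub_apply, Pi.single_apply, Pi.single_apply, if_neg, if_neg, sub_zero]
    · intro h4
      apply hs
      have h5 := congrArg (ZMod.castHom (dvd_mul_left (m ^ j) m) (ZMod (m ^ j))) h4
      rw [hpn, map_neg, neg_eq_zero] at h5
      exact h5
    · intro h4
      apply hs
      rw [neg_eq_zero] at h4
      rw [h4, map_zero]
  have hsum2 : ∑ s', r s' * v (-s + s') = r s - r (s + ((m ^ j : ℕ) : ZMod (m * m ^ j))) := by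
    have h4 : ∀ s' ∈ (Finset.univ : Finset (ZMod (m * m ^ j))),
        r s' * v (-s + s') = (if s' = s then r s' else 0) -
        (if s' = s + ((m ^ j : ℕ) : ZMod (m * m ^ j)) then r s' else 0) := by
      intro s' _
      rw [hv, Pi.sub_apply, Pi.single_apply, Pi.single_apply]
      have e1 : (-s + s' = 0) ↔ (s' = s) := by
        rw [neg_add_eq_zero]; exact eq_comm
      have e2 : (-s + s' = ((m ^ j : ℕ) : ZMod (m * m ^ j))) ↔
          (s' = s + ((m ^ j : ℕ) : ZMod (m * m ^ j))) := by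
        rw [neg_add_eq_iff_eq_add]
      simp only [e1, e2]
      split_ifs <;> ring
    rw [Finset.sum_congr rfl h4, Finset.sum_sub_distrib, Finset.sum_ite_eq', Finset.sum_ite_eq',
      if_pos (Finset.mem_univ _), if_pos (Finset.mem_univ _)]
  rw [hv1, hsum2, mul_zero, zero_sub, neg_eq_zero, sub_eq_zero] at h3
  exact h3

/-- The same up to constants on the fibres. -/
theorem scalar_of_eigenvector_cst {ℓ m j : ℕ} [Fact ℓ.Prime] (hm : m.Prime)
    (hmℓ : (m : ZMod ℓ) ≠ 0)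
    (hirr : Irreducible (cyclotomic (m ^ (j + 1)) (ZMod ℓ)))
    (r : ZMod (m * m ^ j) → ZMod ℓ) (c : ZMod ℓ) (e : ZMod (m * m ^ j) → ZMod ℓ) (he : e ≠ 0)
    (hsum : ∀ i : ZMod (m * m ^ j), ∑ t ∈ range m, e (i + (m ^ j * t : ℕ)) = 0)
    [NeZero (m * m ^ j)] (cst : ZMod (m * m ^ j) → ZMod ℓ)
    (hcst : ∀ i, cst (i + (m ^ j : ℕ)) = cst i)
    (heig : ∀ i, ∑ s, r s * (e i - e (i + s)) = c * e i + cst i) :
    ∀ s : ZMod (m * m ^ j), ZMod.castHom (dvd_mul_left (m ^ j) m) (ZMod (m ^ j)) s ≠ 0 →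
      r s = r (s + (m ^ j : ℕ)) := by
  classical
  have hcst2 : ∀ (t : ℕ) (i : ZMod (m * m ^ j)), cst (i + (m ^ j * t : ℕ)) = cst i := by
    intro t
    induction t with
    | zero => intro i; simp
    | succ t ih =>
      intro i
      have h1 : i + ((m ^ j * (t + 1) : ℕ) : ZMod (m * m ^ j)) =
          (i + (m ^ j * t : ℕ)) + (m ^ j : ℕ) := by
        push_cast
        ring
      rw [h1, hcst, ih]
  refine scalar_of_eigenvector_all hm hirr r c e he hsum fun i => ?_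
  have h2 : cst i = 0 := by
    have h3 : ∑ t ∈ range m, (∑ s, r s * (e (i + (m ^ j * t : ℕ)) - e (i + (m ^ j * t : ℕ) + s))) =
        ∑ t ∈ range m, (c * e (i + (m ^ j * t : ℕ)) + cst i) := by
      refine Finset.sum_congr rfl fun t _ => ?_
      rw [heig, hcst2]
    rw [Finset.sum_comm, Finset.sum_add_distrib, ← Finset.mul_sum, hsum, mul_zero, zero_add,
      Finset.sum_const, card_range, nsmul_eq_mul] at h3
    have h4 : ∑ s, ∑ t ∈ range m,
        r s * (e (i + (m ^ j * t : ℕ)) - e (i + (m ^ j * t : ℕ) + s)) = 0 := by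
      refine Finset.sum_eq_zero fun s _ => ?_
      rw [← Finset.mul_sum, Finset.sum_sub_distrib, hsum]
      have h5 : ∑ t ∈ range m, e (i + (m ^ j * t : ℕ) + s) = 0 := by
        rw [← hsum (i + s)]
        exact Finset.sum_congr rfl fun t _ => by rw [add_right_comm]
      rw [h5, sub_zero, mul_zero]
    rw [h4] at h3
    exact (mul_eq_zero.mp h3.symm).resolve_left hmℓ
  rw [heig, h2, add_zero]

end Pool.Agent.Lib.MP_89bcae_ag.Tw

end

section

/-!
# From a relation between the differences of the roots to `ℓ`-th powers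
-/

open Polynomial Finset

namespace Pool.Agent.Lib.MP_89bcae_ag.Tw

open Pool.Agent.Lib.MP_89bcae_ag

universe u

/-- an automorphism which fixes the roots fixes the field generated by them -/
lemma t12_fix {k F : Type u} [Field k] [Field F] [Algebra k F] {σ : F ≃ₐ[k] F} {S : Set F}
    (hS : ∀ x ∈ S, σ x = x) {x : F} (hx : x ∈ IntermediateField.adjoin k S) : σ x = x := by
  induction hx using IntermediateField.adjoin_induction with
  | mem x hx => exact hS x hx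
  | algebraMap x => exact AlgEquiv.commutes σ x
  | add x y _ _ hx hy => rw [map_add, hx, hy]
  | inv x _ hx => rw [map_inv₀, hx]
  | mul x y _ _ hx hy => rw [map_mul, hx, hy]

/-- the kernel of the projection `ℤ/mn → ℤ/n` -/
lemma t12_ker {m n : ℕ} [NeZero (m * n)] (w : ZMod (m * n)) :
    ZMod.castHom (dvd_mul_left n m) (ZMod n) w = 0 ↔
      ∃ t ∈ range m, ((n * t : ℕ) : ZMod (m * n)) = w := by
  constructor
  · intro h
    have h1 : ((w.val : ℕ) : ZMod n) = 0 := by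
      rw [← h]
      conv_rhs => rw [← ZMod.natCast_zmod_val w]
      rw [map_natCast]
    rw [ZMod.natCast_eq_zero_iff] at h1
    obtain ⟨t, ht⟩ := h1
    refine ⟨t, ?_, ?_⟩
    · rw [mem_range]
      have h2 : w.val < m * n := ZMod.val_lt w
      rw [ht, mul_comm] at h2
      exact Nat.lt_of_mul_lt_mul_right h2
    · rw [← ht, ZMod.natCast_zmod_val]
  · rintro ⟨t, -, rfl⟩
    rw [map_natCast, ZMod.natCast_eq_zero_iff]
    exact dvd_mul_right n t

/-- the classes `n t`, `t < m`, are distinct modulo `mn` -/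
lemma t12_inj {m n : ℕ} (hn : 0 < n) {t t' : ℕ} (ht : t < m) (ht' : t' < m)
    (h : ((n * t : ℕ) : ZMod (m * n)) = ((n * t' : ℕ) : ZMod (m * n))) : t = t' := by
  rw [ZMod.natCast_eq_natCast_iff] at h
  have h1 : n * t < m * n := by rw [mul_comm]; exact Nat.mul_lt_mul_of_pos_right ht hn
  have h2 : n * t' < m * n := by rw [mul_comm]; exact Nat.mul_lt_mul_of_pos_right ht' hn
  have h3 := Nat.ModEq.eq_of_lt_of_lt h h1 h2
  exact Nat.eq_of_mul_eq_mul_left hn h3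

theorem exists_power_of_not_indep {k F : Type u} [Field k] [Field F] [Algebra k F] [IsAlgClosed F]
    {ℓ m j : ℕ} (hℓ : ℓ.Prime) (hm : m.Prime)
    (hirr : Irreducible (cyclotomic (m ^ (j + 1)) (ZMod ℓ))) {φ : F ≃ₐ[k] F} {g D : k[X]}
    {α β : F} (ho : Orb φ g D m (m ^ j) α β) {ζ : k} (hζ : IsPrimitiveRoot ζ ℓ)
    (hI : ¬ Superelliptic.IsIndependent ℓ k F g D) (u : ℕ) (hu : ¬ m ^ j ∣ u) :
    ∃ w : F, w ^ ℓ = ((φ ^ u) β - β) * ((φ ^ (u + m ^ j)) β - β) ^ (ℓ - 1) ∧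
      (φ ^ (m * m ^ j)) w = w := by
  classical
  have : Fact ℓ.Prime := ⟨hℓ⟩
  have hmpos : 0 < m := hm.pos
  have hnpos : 0 < m ^ j := pow_pos hmpos j
  have : NeZero (m * m ^ j) := ⟨(Nat.mul_pos hmpos hnpos).ne'⟩
  have hℓ0 : 0 < ℓ := hℓ.pos
  -- the automorphism ψ
  set ψ : F ≃+* F := ((φ ^ (m * m ^ j) : F ≃ₐ[k] F) : F ≃+* F) with hψdef
  have hψ : ∀ x, ψ x = (φ ^ (m * m ^ j)) x := fun _ => rfl
  set z : F := algebraMap k F ζ with hz
  have hzprim : IsPrimitiveRoot z ℓ := hζ.map_of_injective (algebraMap k F).injective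
  have hψz : ψ z = z := AlgEquiv.commutes _ _
  have hψee : ∀ v : ZMod (m * m ^ j), ψ (ee φ β v) = ee φ β v := fun v => ho.pow_ee v
  have hβ : ee φ β (0 : ZMod (m * m ^ j)) = β := Orb.ee_zero φ _ β
  have hψβ : ψ β = β := by rw [← hβ]; exact hψee 0
  have hmemroot : ∀ x : F, x ∈ Superelliptic.roots k F g D ↔ aeval x (D.comp g) = 0 := by
    intro x
    rw [aeval_comp]
    rfl
  have hfix : ∀ x ∈ IntermediateField.adjoin k (Superelliptic.roots k F g D), ψ x = x := by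
    intro x hx
    rw [hψ]
    refine t12_fix (σ := φ ^ (m * m ^ j)) (fun y hy => ?_) hx
    rw [hmemroot] at hy
    obtain ⟨v, rfl⟩ := ho.ee_surj hy
    exact ho.pow_ee v
  -- unfold the failure of independence
  rw [Superelliptic.IsIndependent] at hI
  push Not at hI
  obtain ⟨e, κ, hκ0, hκmem, hsumdvd, hrel, b₁, hb₁, hb₁e⟩ := hI
  set e' : ZMod (m * m ^ j) → ZMod ℓ := fun v => ((e (ee φ β v) : ℤ) : ZMod ℓ) with he'
  have he'0 : e' ≠ 0 := by
    intro h0
    rw [hmemroot] at hb₁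
    obtain ⟨v, rfl⟩ := ho.ee_surj hb₁
    have h1 := congrFun h0 v
    simp only [he', Pi.zero_apply] at h1
    rw [ZMod.intCast_zmod_eq_zero_iff_dvd] at h1
    exact hb₁e h1
  -- the fibre sums
  have hsum : ∀ i : ZMod (m * m ^ j), ∑ t ∈ range m, e' (i + (m ^ j * t : ℕ)) = 0 := by
    intro i
    have h1 := hsumdvd (ee φ β i) ((hmemroot _).2 (ho.ee_root i))
    have hset : {β' : F | aeval β' g = aeval (ee φ β i) g} =
        (fun t : ℕ => ee φ β (i + ((m ^ j * t : ℕ) : ZMod (m * m ^ j)))) '' ((range m : Finset ℕ) : Set ℕ) := by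
      ext β'
      rw [Set.mem_ofPred_eq, Set.mem_image]
      constructor
      · intro hβ'
        have hroot : aeval β' (D.comp g) = 0 := by
          have h2 := ho.ee_root i
          rw [aeval_comp] at h2 ⊢
          rw [hβ', h2]
        obtain ⟨v, rfl⟩ := ho.ee_surj hroot
        rw [ho.g_ee_eq_iff, t12_ker] at hβ'
        obtain ⟨t, ht, htv⟩ := hβ'
        refine ⟨t, by exact_mod_cast ht, ?_⟩
        rw [htv, add_sub_cancel]
      · rintro ⟨t, ht, rfl⟩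
        rw [ho.g_ee_eq_iff, t12_ker]
        exact ⟨t, by exact_mod_cast ht, by rw [add_sub_cancel_left]⟩
    have hinj : Set.InjOn (fun t : ℕ => ee φ β (i + ((m ^ j * t : ℕ) : ZMod (m * m ^ j))))
        ((range m : Finset ℕ) : Set ℕ) := by
      intro t ht t' ht' htt
      have h2 := ho.ee_injective htt
      rw [mem_coe, mem_range] at ht ht'
      exact t12_inj hnpos ht ht' (add_left_cancel h2)
    rw [hset, finsum_mem_image hinj, finsum_mem_coe_finset, ← ZMod.intCast_zmod_eq_zero_iff_dvd,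
      Int.cast_sum] at h1
    exact h1
  -- the Kummer character
  have hne : ∀ {v v' : ZMod (m * m ^ j)}, v ≠ v' → ee φ β v - ee φ β v' ≠ 0 := by
    intro v v' hvv h0
    exact hvv (ho.ee_injective (sub_eq_zero.1 h0))
  have hψsub : ∀ v v' : ZMod (m * m ^ j), ψ (ee φ β v - ee φ β v') = ee φ β v - ee φ β v' := by
    intro v v'
    rw [map_sub, hψee, hψee]
  set pr := ZMod.castHom (dvd_mul_left (m ^ j) m) (ZMod (m ^ j)) with hpr
  set r : ZMod (m * m ^ j) → ZMod ℓ := fun s => lam ℓ ψ z (β - ee φ β s) with hr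
  have hs0 : ∀ s : ZMod (m * m ^ j), pr s ≠ 0 → s ≠ 0 := by
    intro s hs h0
    rw [h0, map_zero] at hs
    exact hs rfl
  have hnb : ∀ v : ZMod (m * m ^ j), pr v ≠ 0 → β - ee φ β v ≠ 0 := by
    intro v hv h0
    exact hs0 v hv (ho.ee_injective (hβ.trans (sub_eq_zero.1 h0))).symm
  have hlam : ∀ i s : ZMod (m * m ^ j), pr s ≠ 0 →
      lam ℓ ψ z (ee φ β i - ee φ β (i + s)) = r s := by
    intro i s hs
    have h1 : ee φ β i - ee φ β (i + s) = (φ ^ i.val) (β - ee φ β s) := by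
      rw [add_comm i s, ho.ee_add s i, map_sub]
      congr 1
    rw [h1]
    have h2 : β - ee φ β s ≠ 0 := hnb s hs
    have h3 : ψ (β - ee φ β s) = β - ee φ β s := by rw [map_sub, hψβ, hψee]
    exact lam_apply hℓ0 hzprim hψz ((φ ^ i.val : F ≃ₐ[k] F) : F ≃+* F) (AlgEquiv.commutes _ _)
      (fun x => by
        change (φ ^ i.val) ((φ ^ (m * m ^ j)) x) = (φ ^ (m * m ^ j)) ((φ ^ i.val) x)
        rw [← AlgEquiv.mul_apply, ← AlgEquiv.mul_apply, ← pow_add, ← pow_add, add_comm]) h2 h3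
  have heig : ∀ i, ∑ s with pr s ≠ 0, r s * (e' i - e' (i + s)) = (-lam ℓ ψ z κ) * e' i := by
    intro i
    obtain ⟨w, hwmem, hw⟩ := hrel (ee φ β i) ((hmemroot _).2 (ho.ee_root i))
    have hset : {β' ∈ Superelliptic.roots k F g D | aeval β' g ≠ aeval (ee φ β i) g} =
        (fun s : ZMod (m * m ^ j) => ee φ β (i + s)) ''
          ((univ.filter (fun s => pr s ≠ 0) : Finset (ZMod (m * m ^ j))) : Set (ZMod (m * m ^ j))) := by
      ext β'
      rw [Set.mem_ofPred_eq, Set.mem_image]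
      constructor
      · rintro ⟨hroot, hβ'⟩
        rw [hmemroot] at hroot
        obtain ⟨v, rfl⟩ := ho.ee_surj hroot
        rw [Ne, ho.g_ee_eq_iff] at hβ'
        refine ⟨v - i, ?_, ?_⟩
        · rw [mem_coe, mem_filter]
          exact ⟨mem_univ _, hβ'⟩
        · rw [add_sub_cancel]
      · rintro ⟨s, hs, rfl⟩
        rw [mem_coe, mem_filter] at hs
        refine ⟨(hmemroot _).2 (ho.ee_root _), ?_⟩
        rw [Ne, ho.g_ee_eq_iff, add_sub_cancel_left]
        exact hs.2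
    have hinj : Set.InjOn (fun s : ZMod (m * m ^ j) => ee φ β (i + s))
        ((univ.filter (fun s => pr s ≠ 0) : Finset (ZMod (m * m ^ j))) : Set (ZMod (m * m ^ j))) := by
      intro s _ s' _ hss
      exact add_left_cancel (ho.ee_injective hss)
    rw [hset, finprod_mem_image hinj, finprod_mem_coe_finset] at hw
    have hfac : ∀ s ∈ univ.filter (fun s => pr s ≠ 0), ee φ β i - ee φ β (i + s) ≠ 0 := by
      intro s hs
      rw [mem_filter] at hs
      refine hne fun h0 => hs0 s hs.2 ?_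
      have h2 : i + 0 = i + s := by rw [add_zero]; exact h0
      exact (add_left_cancel h2).symm
    have hψκ : ψ κ = κ := hfix κ hκmem
    have hne0 : ∀ s ∈ univ.filter (fun s => pr s ≠ 0),
        (ee φ β i - ee φ β (i + s)) ^ (e (ee φ β i) - e (ee φ β (i + s))) ≠ 0 :=
      fun s hs => zpow_ne_zero _ (hfac s hs)
    have hψ0 : ∀ s ∈ univ.filter (fun s => pr s ≠ 0),
        ψ ((ee φ β i - ee φ β (i + s)) ^ (e (ee φ β i) - e (ee φ β (i + s)))) =
          (ee φ β i - ee φ β (i + s)) ^ (e (ee φ β i) - e (ee φ β (i + s))) := by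
      intro s _
      rw [map_zpow₀, hψsub]
    have hκne : κ ^ e (ee φ β i) ≠ 0 := zpow_ne_zero _ hκ0
    have hprodne : ∏ s ∈ univ.filter (fun s => pr s ≠ 0),
        (ee φ β i - ee φ β (i + s)) ^ (e (ee φ β i) - e (ee φ β (i + s))) ≠ 0 :=
      prod_ne_zero_iff.2 hne0
    have hψκe : ψ (κ ^ e (ee φ β i)) = κ ^ e (ee φ β i) := by rw [map_zpow₀, hψκ]
    have hψprod : ψ (∏ s ∈ univ.filter (fun s => pr s ≠ 0),
        (ee φ β i - ee φ β (i + s)) ^ (e (ee φ β i) - e (ee φ β (i + s)))) =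
        ∏ s ∈ univ.filter (fun s => pr s ≠ 0),
        (ee φ β i - ee φ β (i + s)) ^ (e (ee φ β i) - e (ee φ β (i + s))) := by
      rw [map_prod]
      exact prod_congr rfl hψ0
    have hleft : lam ℓ ψ z (w ^ ℓ) = 0 := by
      rw [lam_eq_zero_iff hℓ0 hzprim hψz]
      · exact ⟨w, rfl, hfix w hwmem⟩
      · rw [hw]; exact mul_ne_zero hκne hprodne
      · rw [map_pow, hfix w hwmem]
    rw [hw, lam_mul hℓ0 hzprim hψz hκne hψκe hprodne hψprod, lam_zpow hℓ0 hzprim hψz hκ0 hψκ,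
      lam_prod hℓ0 hzprim hψz _ _ hne0 hψ0] at hleft
    have hterm : ∀ s ∈ univ.filter (fun s => pr s ≠ 0),
        lam ℓ ψ z ((ee φ β i - ee φ β (i + s)) ^ (e (ee φ β i) - e (ee φ β (i + s)))) =
          r s * (e' i - e' (i + s)) := by
      intro s hs
      rw [lam_zpow hℓ0 hzprim hψz (hfac s hs) (hψsub _ _), hlam i s (mem_filter.1 hs).2,
        Int.cast_sub, mul_comm]
    rw [sum_congr rfl hterm] at hleft
    have h3 : (e (ee φ β i) : ZMod ℓ) = e' i := rfl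
    rw [h3] at hleft
    linear_combination hleft
  have hT10 := scalar_of_eigenvector hm hirr r (-lam ℓ ψ z κ) e' he'0 hsum heig
  -- the conclusion
  set s : ZMod (m * m ^ j) := (u : ZMod (m * m ^ j)) with hs
  have hprs : pr s ≠ 0 := by
    rw [hs, map_natCast, Ne, ZMod.natCast_eq_zero_iff]
    exact hu
  have hprs' : pr (s + ((m ^ j : ℕ) : ZMod (m * m ^ j))) ≠ 0 := by
    have h5 : pr ((m ^ j : ℕ) : ZMod (m * m ^ j)) = 0 := by
      rw [map_natCast, ZMod.natCast_self]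
    rw [map_add, h5, add_zero]
    exact hprs
  have hX : (φ ^ u) β = ee φ β s := (ho.ee_natCast u).symm
  have hY : (φ ^ (u + m ^ j)) β = ee φ β (s + ((m ^ j : ℕ) : ZMod (m * m ^ j))) := by
    rw [← ho.ee_natCast (u + m ^ j), Nat.cast_add]
  rw [hX, hY]
  have hm1 : ψ (-1) = -1 := by rw [map_neg, map_one]
  have hm10 : (-1 : F) ≠ 0 := neg_ne_zero.2 one_ne_zero
  have hψb : ∀ v : ZMod (m * m ^ j), ψ (β - ee φ β v) = β - ee φ β v := by
    intro v
    rw [map_sub, hψβ, hψee]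
  have hneg : ∀ v : ZMod (m * m ^ j), ee φ β v - β = -1 * (β - ee φ β v) := by
    intro v; ring
  have hlneg : ∀ v : ZMod (m * m ^ j), pr v ≠ 0 →
      lam ℓ ψ z (ee φ β v - β) = lam ℓ ψ z (-1) + r v := by
    intro v hv
    rw [hneg, lam_mul hℓ0 hzprim hψz hm10 hm1 (hnb v hv) (hψb v)]
  have hne1 : ∀ v : ZMod (m * m ^ j), pr v ≠ 0 → ee φ β v - β ≠ 0 := by
    intro v hv
    rw [hneg]
    exact mul_ne_zero hm10 (hnb v hv)
  have hψ1 : ∀ v : ZMod (m * m ^ j), ψ (ee φ β v - β) = ee φ β v - β := by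
    intro v
    rw [map_sub, hψβ, hψee]
  have hψpow : ψ ((ee φ β (s + ((m ^ j : ℕ) : ZMod (m * m ^ j))) - β) ^ (ℓ - 1)) =
      (ee φ β (s + ((m ^ j : ℕ) : ZMod (m * m ^ j))) - β) ^ (ℓ - 1) := by
    rw [map_pow, hψ1]
  have hnepow : (ee φ β (s + ((m ^ j : ℕ) : ZMod (m * m ^ j))) - β) ^ (ℓ - 1) ≠ 0 := pow_ne_zero _ (hne1 _ hprs')
  have hlampow : lam ℓ ψ z ((ee φ β (s + ((m ^ j : ℕ) : ZMod (m * m ^ j))) - β) ^ (ℓ - 1)) =
      - lam ℓ ψ z (ee φ β (s + ((m ^ j : ℕ) : ZMod (m * m ^ j))) - β) := by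
    rw [← zpow_natCast, lam_zpow hℓ0 hzprim hψz (hne1 _ hprs') (hψ1 _)]
    have h4 : (((ℓ - 1 : ℕ) : ℤ) : ZMod ℓ) = -1 := by
      rw [Int.cast_natCast, Nat.cast_sub hℓ.one_lt.le, Nat.cast_one, ZMod.natCast_self, zero_sub]
    rw [h4, neg_one_mul]
  have htot : lam ℓ ψ z ((ee φ β s - β) * (ee φ β (s + ((m ^ j : ℕ) : ZMod (m * m ^ j))) - β) ^ (ℓ - 1)) = 0 := by
    rw [lam_mul hℓ0 hzprim hψz (hne1 s hprs) (hψ1 s) hnepow hψpow, hlampow, hlneg s hprs,
      hlneg _ hprs', hT10 s hprs]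
    ring
  obtain ⟨w, hw1, hw2⟩ := (lam_eq_zero_iff hℓ0 hzprim hψz (mul_ne_zero (hne1 s hprs) hnepow)
    (by rw [map_mul, hψ1, hψpow])).1 htot
  exact ⟨w, hw1, hw2⟩

end Pool.Agent.Lib.MP_89bcae_ag.Tw

end

section

/-!
# The separation condition for a power of the automorphism
-/

open Polynomial Finset

namespace Pool.Agent.Lib.MP_89bcae_ag.Tw

open Pool.Agent.Lib.MP_89bcae_ag

universe u

lemma kap_eq_lam {F : Type u} [Field F] [IsAlgClosed F] {ℓ : ℕ} {ζ : F} (ψ : F ≃+* F)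
    (hℓ : ℓ.Prime) (hζ : IsPrimitiveRoot ζ ℓ) (hψ : ψ ζ = ζ) {x : F} (hx0 : x ≠ 0)
    (hx : ψ x = x) : Sup.kap ℓ ζ ψ x = lam ℓ ψ ζ x := by
  have : NeZero ℓ := ⟨hℓ.ne_zero⟩
  obtain ⟨w, hw⟩ := IsAlgClosed.exists_pow_nat_eq x hℓ.pos
  have h1 := Sup.kap_spec ψ hℓ hζ hψ hx0 hx hw
  have h2 := (lam_spec hℓ.pos hζ hx0 hx hw hψ _).2 h1
  rw [← h2, ZMod.natCast_zmod_val]

section

variable {k F : Type u} [Field k] [Field F] [Algebra k F] [IsAlgClosed F]
  {ℓ m j : ℕ} {φ : F ≃ₐ[k] F} {g D : k[X]} {α β : F}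

/-- The last step. -/
theorem exists_power_of_lam (hℓ : ℓ.Prime) (hm : m.Prime) (ho : Orb φ g D m (m ^ j) α β) {ζ : k}
    (hζ : IsPrimitiveRoot ζ ℓ) (u : ℕ) (hu : ¬ m ^ j ∣ u)
    (hT10 : lam ℓ ((φ ^ (m * m ^ j) : F ≃ₐ[k] F) : F ≃+* F) (algebraMap k F ζ)
        (β - ee φ β (u : ZMod (m * m ^ j))) =
      lam ℓ ((φ ^ (m * m ^ j) : F ≃ₐ[k] F) : F ≃+* F) (algebraMap k F ζ)
        (β - ee φ β ((u : ZMod (m * m ^ j)) + ((m ^ j : ℕ) : ZMod (m * m ^ j))))) :
    ∃ w : F, w ^ ℓ = ((φ ^ u) β - β) * ((φ ^ (u + m ^ j)) β - β) ^ (ℓ - 1) ∧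
      (φ ^ (m * m ^ j)) w = w := by
  classical
  have : Fact ℓ.Prime := ⟨hℓ⟩
  have hmpos : 0 < m := hm.pos
  have hnpos : 0 < m ^ j := pow_pos hmpos j
  have : NeZero (m * m ^ j) := ⟨(Nat.mul_pos hmpos hnpos).ne'⟩
  have hℓ0 : 0 < ℓ := hℓ.pos
  set ψ : F ≃+* F := ((φ ^ (m * m ^ j) : F ≃ₐ[k] F) : F ≃+* F) with hψdef
  have hψ : ∀ x, ψ x = (φ ^ (m * m ^ j)) x := fun _ => rfl
  set z : F := algebraMap k F ζ with hz
  have hzprim : IsPrimitiveRoot z ℓ := hζ.map_of_injective (algebraMap k F).injective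
  have hψz : ψ z = z := AlgEquiv.commutes _ _
  have hψee : ∀ v : ZMod (m * m ^ j), ψ (ee φ β v) = ee φ β v := fun v => ho.pow_ee v
  have hβ : ee φ β (0 : ZMod (m * m ^ j)) = β := Orb.ee_zero φ _ β
  have hψβ : ψ β = β := by rw [← hβ]; exact hψee 0
  set pr := ZMod.castHom (dvd_mul_left (m ^ j) m) (ZMod (m ^ j)) with hpr
  have hs0 : ∀ s : ZMod (m * m ^ j), pr s ≠ 0 → s ≠ 0 := by
    intro s hs h0
    rw [h0, map_zero] at hs
    exact hs rfl
  have hnb : ∀ v : ZMod (m * m ^ j), pr v ≠ 0 → β - ee φ β v ≠ 0 := by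
    intro v hv h0
    exact hs0 v hv (ho.ee_injective (hβ.trans (sub_eq_zero.1 h0))).symm
  set s : ZMod (m * m ^ j) := (u : ZMod (m * m ^ j)) with hs
  have hprs : pr s ≠ 0 := by
    rw [hs, map_natCast, Ne, ZMod.natCast_eq_zero_iff]
    exact hu
  have hprs' : pr (s + ((m ^ j : ℕ) : ZMod (m * m ^ j))) ≠ 0 := by
    have h5 : pr ((m ^ j : ℕ) : ZMod (m * m ^ j)) = 0 := by
      rw [map_natCast, ZMod.natCast_self]
    rw [map_add, h5, add_zero]
    exact hprs
  have hX : (φ ^ u) β = ee φ β s := (ho.ee_natCast u).symm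
  have hY : (φ ^ (u + m ^ j)) β = ee φ β (s + ((m ^ j : ℕ) : ZMod (m * m ^ j))) := by
    rw [← ho.ee_natCast (u + m ^ j), Nat.cast_add]
  rw [hX, hY]
  have hm1 : ψ (-1) = -1 := by rw [map_neg, map_one]
  have hm10 : (-1 : F) ≠ 0 := neg_ne_zero.2 one_ne_zero
  have hψb : ∀ v : ZMod (m * m ^ j), ψ (β - ee φ β v) = β - ee φ β v := by
    intro v
    rw [map_sub, hψβ, hψee]
  have hneg : ∀ v : ZMod (m * m ^ j), ee φ β v - β = -1 * (β - ee φ β v) := by
    intro v; ring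
  have hlneg : ∀ v : ZMod (m * m ^ j), pr v ≠ 0 →
      lam ℓ ψ z (ee φ β v - β) = lam ℓ ψ z (-1) + lam ℓ ψ z (β - ee φ β v) := by
    intro v hv
    rw [hneg, lam_mul hℓ0 hzprim hψz hm10 hm1 (hnb v hv) (hψb v)]
  have hne1 : ∀ v : ZMod (m * m ^ j), pr v ≠ 0 → ee φ β v - β ≠ 0 := by
    intro v hv
    rw [hneg]
    exact mul_ne_zero hm10 (hnb v hv)
  have hψ1 : ∀ v : ZMod (m * m ^ j), ψ (ee φ β v - β) = ee φ β v - β := by
    intro v
    rw [map_sub, hψβ, hψee]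
  have hψpow : ψ ((ee φ β (s + ((m ^ j : ℕ) : ZMod (m * m ^ j))) - β) ^ (ℓ - 1)) =
      (ee φ β (s + ((m ^ j : ℕ) : ZMod (m * m ^ j))) - β) ^ (ℓ - 1) := by
    rw [map_pow, hψ1]
  have hnepow : (ee φ β (s + ((m ^ j : ℕ) : ZMod (m * m ^ j))) - β) ^ (ℓ - 1) ≠ 0 :=
    pow_ne_zero _ (hne1 _ hprs')
  have hlampow : lam ℓ ψ z ((ee φ β (s + ((m ^ j : ℕ) : ZMod (m * m ^ j))) - β) ^ (ℓ - 1)) =
      - lam ℓ ψ z (ee φ β (s + ((m ^ j : ℕ) : ZMod (m * m ^ j))) - β) := by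
    rw [← zpow_natCast, lam_zpow hℓ0 hzprim hψz (hne1 _ hprs') (hψ1 _)]
    have h4 : (((ℓ - 1 : ℕ) : ℤ) : ZMod ℓ) = -1 := by
      rw [Int.cast_natCast, Nat.cast_sub hℓ.one_lt.le, Nat.cast_one, ZMod.natCast_self, zero_sub]
    rw [h4, neg_one_mul]
  have htot : lam ℓ ψ z ((ee φ β s - β) *
      (ee φ β (s + ((m ^ j : ℕ) : ZMod (m * m ^ j))) - β) ^ (ℓ - 1)) = 0 := by
    rw [lam_mul hℓ0 hzprim hψz (hne1 s hprs) (hψ1 s) hnepow hψpow, hlampow, hlneg s hprs,
      hlneg _ hprs', hT10]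
    ring
  obtain ⟨w, hw1, hw2⟩ := (lam_eq_zero_iff hℓ0 hzprim hψz (mul_ne_zero (hne1 s hprs) hnepow)
    (by rw [map_mul, hψ1, hψpow])).1 htot
  exact ⟨w, hw1, hw2⟩

theorem exists_power_of_not_sepU (hℓ : ℓ.Prime) (hm : m.Prime) (hmℓ : (m : ZMod ℓ) ≠ 0)
    (hirr : Irreducible (cyclotomic (m ^ (j + 1)) (ZMod ℓ)))
    (ho : Orb φ g D m (m ^ j) α β) {ζ : k} (hζ : IsPrimitiveRoot ζ ℓ) (μ : ZMod ℓ)
    (hS : ¬ Sup.SepU g D (Sup.kap ℓ (algebraMap k F ζ) (φ ^ (m * m ^ j) : F ≃ₐ[k] F)) μ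
      (Set.univ : Set F)) (u : ℕ) (hu : ¬ m ^ j ∣ u) :
    ∃ w : F, w ^ ℓ = ((φ ^ u) β - β) * ((φ ^ (u + m ^ j)) β - β) ^ (ℓ - 1) ∧
      (φ ^ (m * m ^ j)) w = w := by
  classical
  have : Fact ℓ.Prime := ⟨hℓ⟩
  have hmpos : 0 < m := hm.pos
  have hnpos : 0 < m ^ j := pow_pos hmpos j
  have : NeZero (m * m ^ j) := ⟨(Nat.mul_pos hmpos hnpos).ne'⟩
  have hℓ0 : 0 < ℓ := hℓ.pos
  set ψ : F ≃+* F := ((φ ^ (m * m ^ j) : F ≃ₐ[k] F) : F ≃+* F) with hψdef
  have hψ : ∀ x, ψ x = (φ ^ (m * m ^ j)) x := fun _ => rfl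
  set z : F := algebraMap k F ζ with hz
  have hzprim : IsPrimitiveRoot z ℓ := hζ.map_of_injective (algebraMap k F).injective
  have hψz : ψ z = z := AlgEquiv.commutes _ _
  have hψee : ∀ v : ZMod (m * m ^ j), ψ (ee φ β v) = ee φ β v := fun v => ho.pow_ee v
  have hβ : ee φ β (0 : ZMod (m * m ^ j)) = β := Orb.ee_zero φ _ β
  have hψβ : ψ β = β := by rw [← hβ]; exact hψee 0
  have hkapψ : Sup.kap ℓ z (φ ^ (m * m ^ j) : F ≃ₐ[k] F) = Sup.kap ℓ z ψ := rfl
  rw [hkapψ] at hS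
  -- the roots
  have hRR : Sup.RR F g D = univ.image (ee φ β : ZMod (m * m ^ j) → F) := by
    ext x
    rw [Sup.RR, Multiset.mem_toFinset, mem_roots
      ((Polynomial.map_ne_zero_iff (algebraMap k F).injective).2 ho.comp_ne), IsRoot.def,
      eval_map_algebraMap, Finset.mem_image]
    constructor
    · intro hx
      obtain ⟨v, hv⟩ := ho.ee_surj hx
      exact ⟨v, mem_univ _, hv⟩
    · rintro ⟨v, -, rfl⟩
      exact ho.ee_root v
  have hsumRR : ∀ (P : F → Prop) [DecidablePred P] (f : F → ZMod ℓ) (i : ZMod (m * m ^ j)),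
      ∑ β' ∈ (Sup.RR F g D).filter P, f β' =
        ∑ s : ZMod (m * m ^ j), if P (ee φ β (i + s)) then f (ee φ β (i + s)) else 0 := by
    intro P _ f i
    rw [Finset.sum_filter, hRR, Finset.sum_image fun a _ b _ h => ho.ee_injective h]
    exact (Equiv.sum_comp (Equiv.addLeft i)
      (fun v : ZMod (m * m ^ j) => if P (ee φ β v) then f (ee φ β v) else 0)).symm
  set pr := ZMod.castHom (dvd_mul_left (m ^ j) m) (ZMod (m ^ j)) with hpr
  have hgee : ∀ i s : ZMod (m * m ^ j),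
      (aeval (ee φ β (i + s)) g = aeval (ee φ β i) g) ↔ pr s = 0 := by
    intro i s
    rw [ho.g_ee_eq_iff, add_sub_cancel_left]
  -- the negation of the separation condition
  rw [Sup.SepU] at hS
  push Not at hS
  obtain ⟨e, n, cst, hsumE, heq, b₁, hb₁, -, hb₁e⟩ := hS
  set e' : ZMod (m * m ^ j) → ZMod ℓ := fun v => e (ee φ β v) with he'
  have hmemee : ∀ v : ZMod (m * m ^ j), ee φ β v ∈ Sup.RR F g D := by
    intro v
    rw [hRR]
    exact mem_image_of_mem _ (mem_univ _)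
  have he'0 : e' ≠ 0 := by
    intro h0
    rw [hRR, Finset.mem_image] at hb₁
    obtain ⟨v, -, rfl⟩ := hb₁
    exact hb₁e (congrFun h0 v)
  -- the fibre sums
  have hsum : ∀ i : ZMod (m * m ^ j), ∑ t ∈ range m, e' (i + (m ^ j * t : ℕ)) = 0 := by
    intro i
    have h1 := hsumE (ee φ β i) (hmemee i)
    rw [hsumRR _ _ i] at h1
    rw [← h1]
    simp only [hgee]
    rw [← Finset.sum_filter]
    have h2 : univ.filter (fun s : ZMod (m * m ^ j) => pr s = 0) =
        (range m).image (fun t : ℕ => ((m ^ j * t : ℕ) : ZMod (m * m ^ j))) := by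
      ext s
      rw [mem_filter, hpr, t12_ker, Finset.mem_image]
      constructor
      · rintro ⟨-, t, ht, h⟩
        exact ⟨t, ht, h⟩
      · rintro ⟨t, ht, h⟩
        exact ⟨mem_univ _, t, ht, h⟩
    rw [h2, Finset.sum_image]
    intro t ht t' ht' htt
    rw [mem_coe, mem_range] at ht ht'
    exact t12_inj hnpos ht ht' htt
  -- the symbol
  have hne : ∀ {v v' : ZMod (m * m ^ j)}, v ≠ v' → ee φ β v - ee φ β v' ≠ 0 := by
    intro v v' hvv h0
    exact hvv (ho.ee_injective (sub_eq_zero.1 h0))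
  have hψsub : ∀ v v' : ZMod (m * m ^ j), ψ (ee φ β v - ee φ β v') = ee φ β v - ee φ β v' := by
    intro v v'
    rw [map_sub, hψee, hψee]
  have hlam : ∀ i s : ZMod (m * m ^ j), s ≠ 0 →
      Sup.kap ℓ z ψ (ee φ β i - ee φ β (i + s)) = lam ℓ ψ z (β - ee φ β s) := by
    intro i s hs
    have h1 : ee φ β i - ee φ β (i + s) = (φ ^ i.val) (β - ee φ β s) := by
      rw [add_comm i s, ho.ee_add s i, map_sub]
      congr 1
    have h2 : β - ee φ β s ≠ 0 := by
      have := hne (v := 0) (v' := s) hs.symm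
      rwa [hβ] at this
    have h3 : ψ (β - ee φ β s) = β - ee φ β s := by rw [map_sub, hψβ, hψee]
    have h4 : ee φ β i - ee φ β (i + s) ≠ 0 := by
      rw [h1]
      exact (map_ne_zero_iff _ (φ ^ i.val).injective).2 h2
    rw [kap_eq_lam ψ hℓ hzprim hψz h4 (hψsub _ _), h1]
    exact lam_apply hℓ0 hzprim hψz ((φ ^ i.val : F ≃ₐ[k] F) : F ≃+* F) (AlgEquiv.commutes _ _)
      (fun x => by
        change (φ ^ i.val) ((φ ^ (m * m ^ j)) x) = (φ ^ (m * m ^ j)) ((φ ^ i.val) x)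
        rw [← AlgEquiv.mul_apply, ← AlgEquiv.mul_apply, ← pow_add, ← pow_add, add_comm]) h2 h3
  set r : ZMod (m * m ^ j) → ZMod ℓ := fun s =>
    if pr s = 0 then μ * lam ℓ ψ z (β - ee φ β s) else lam ℓ ψ z (β - ee φ β s) with hr
  set cst' : ZMod (m * m ^ j) → ZMod ℓ := fun i => cst (aeval (ee φ β i) g) with hcst'
  have hcst : ∀ i, cst' (i + (m ^ j : ℕ)) = cst' i := by
    intro i
    have h1 : aeval (ee φ β (i + ((m ^ j : ℕ) : ZMod (m * m ^ j)))) g = aeval (ee φ β i) g := by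
      rw [hgee, map_natCast, ZMod.natCast_self]
    simp only [hcst', h1]
  have heig : ∀ i, ∑ s, r s * (e' i - e' (i + s)) = (-n) * e' i + cst' i := by
    intro i
    have h1 := heq (ee φ β i) (hmemee i) (Set.mem_univ _)
    rw [Sup.sumO, Sup.sumS, hsumRR _ _ i, hsumRR _ _ i, Finset.mul_sum, ← Finset.sum_add_distrib]
      at h1
    have h2 : ∀ s ∈ (univ : Finset (ZMod (m * m ^ j))), r s * (e' i - e' (i + s)) =
        (if aeval (ee φ β (i + s)) g ≠ aeval (ee φ β i) g then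
          Sup.kap ℓ z ψ (ee φ β i - ee φ β (i + s)) * (e (ee φ β i) - e (ee φ β (i + s))) else 0) +
        μ * (if aeval (ee φ β (i + s)) g = aeval (ee φ β i) g then
          Sup.kap ℓ z ψ (ee φ β i - ee φ β (i + s)) * (e (ee φ β i) - e (ee φ β (i + s)))
            else 0) := by
      intro s _
      simp only [he', hr, hgee, ne_eq]
      by_cases h0 : s = 0
      · subst h0
        rw [add_zero, sub_self]
        simp
      · rw [hlam i s h0]
        by_cases h3 : pr s = 0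
        · simp only [h3, not_true_eq_false, if_false, if_pos, zero_add]
          ring
        · simp only [h3, not_false_eq_true, if_false, if_true, mul_zero, add_zero]
    rw [Finset.sum_congr rfl h2]
    linear_combination h1
  have hT10 := scalar_of_eigenvector_cst hm hmℓ hirr r (-n) e' he'0 hsum cst' hcst heig
  -- the conclusion
  have hprs : pr (u : ZMod (m * m ^ j)) ≠ 0 := by
    rw [map_natCast, Ne, ZMod.natCast_eq_zero_iff]
    exact hu
  have hprs' : pr ((u : ZMod (m * m ^ j)) + ((m ^ j : ℕ) : ZMod (m * m ^ j))) ≠ 0 := by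
    have h5 : pr ((m ^ j : ℕ) : ZMod (m * m ^ j)) = 0 := by
      rw [map_natCast, ZMod.natCast_self]
    rw [map_add, h5, add_zero]
    exact hprs
  have h6 := hT10 u hprs
  simp only [hr, if_neg hprs, if_neg hprs'] at h6
  exact exists_power_of_lam hℓ hm ho hζ u hu h6

end

end Pool.Agent.Lib.MP_89bcae_ag.Tw

end
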