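import Mathlib
import Pool.Agent.Lib.MP_89bcae_ag.Rk.K001
import Pool.Agent.Lib.MP_89bcae_ag.Rk.K021

namespace Pool.Agent.Lib.MP_89bcae_ag
end Pool.Agent.Lib.MP_89bcae_ag

section

/-!
# Roots and their reductions (from SpecB14.lean)
-/

open Polynomial

namespace Pool.Agent.Lib.MP_89bcae_ag.Tw

open Pool.Agent.Lib.MP_89bcae_ag

set_option linter.unusedSectionVars false
set_option linter.style.haveILetI false

variable {R K F κ Fκ : Type*} [CommRing R] [IsDomain R] [IsIntegrallyClosed R] [Field K]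
  [Algebra R K] [IsFractionRing R K] [Field F] [Algebra K F] [Algebra R F] [IsScalarTower R K F]
  [IsAlgClosed F] [Algebra.IsAlgebraic K F]
  [Field κ] [Fintype κ] [Field Fκ] [Algebra κ Fκ] [Algebra.IsAlgebraic κ Fκ] [IsAlgClosed Fκ]

/-- A root of a polynomial with invertible leading coefficient is integral. -/
lemma integral_root {f : R[X]} (hu : IsUnit f.leadingCoeff) {x : F} (hx : aeval x f = 0) :
    IsIntegral R x := by
  obtain ⟨u, hu⟩ := hu
  refine ⟨C (↑u⁻¹ : R) * f, ?_, ?_⟩
  · rw [Monic, leadingCoeff_mul, leadingCoeff_C, ← hu]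
    exact u.inv_mul
  · rw [eval₂_mul]
    change _ * aeval x f = 0
    rw [hx, mul_zero]

/-- The reduction of a root is a root. -/
lemma red_root {π : R →+* κ} {ρ : integralClosure R F →+* Fκ}
    (hρ : ∀ r, ρ (algebraMap R (integralClosure R F) r) = algebraMap κ Fκ (π r))
    {f : R[X]} {x : F} (hi : IsIntegral R x) (hx : aeval x f = 0) :
    aeval (ρ ⟨x, hi⟩) (f.map π) = 0 := by
  have h1 : aeval (⟨x, hi⟩ : integralClosure R F) f = 0 := by
    apply Subtype.ext
    have h2 : ((aeval (⟨x, hi⟩ : integralClosure R F) f : integralClosure R F) : F) = aeval x f := by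
      rw [← Subalgebra.coe_val, ← aeval_algHom_apply]
      rfl
    rw [h2, hx]
    rfl
  rw [aeval_def, eval₂_map]
  have h2 : (algebraMap κ Fκ).comp π = ρ.comp (algebraMap R (integralClosure R F)) :=
    RingHom.ext fun r => (hρ r).symm
  rw [h2, ← hom_eval₂]
  change ρ (aeval (⟨x, hi⟩ : integralClosure R F) f) = 0
  rw [h1, map_zero]

variable (F) in
/-- The polynomial is separable if its reduction is. -/
lemma separable_of_red [FaithfulSMul R F] {π : R →+* κ} (hπ : Function.Surjective π) {f : R[X]}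
    (hu : IsUnit f.leadingCoeff) (hs : (f.map π).Separable) :
    (f.map (algebraMap R K)).Separable := by
  obtain ⟨ρ, hρ⟩ := exists_red14 (F := F) (Fκ := AlgebraicClosure κ) π hπ
  rw [← separable_map (algebraMap K F), Polynomial.map_map, ← IsScalarTower.algebraMap_eq,
    Polynomial.Separable, isCoprime_iff_aeval_ne_zero_of_isAlgClosed (k := F) F]
  intro a
  by_contra hcon
  push Not at hcon
  obtain ⟨h1, h2⟩ := hcon
  rw [← eval_map_algebraMap, Polynomial.map_map, Algebra.algebraMap_self, RingHom.id_comp,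
    eval_map_algebraMap] at h1
  rw [derivative_map, ← eval_map_algebraMap, Polynomial.map_map, Algebra.algebraMap_self,
    RingHom.id_comp, eval_map_algebraMap] at h2
  have hi := integral_root hu h1
  have h3 := red_root hρ hi h1
  have h4 := red_root hρ hi h2
  rw [← derivative_map] at h4
  obtain ⟨a', b', hab⟩ := hs
  have h5 := congrArg (aeval (ρ ⟨a, hi⟩)) hab
  rw [map_add, map_mul, map_mul, h3, h4, mul_zero, mul_zero, add_zero, map_one] at h5
  exact zero_ne_one h5

/-- A reduction map and a root with a given reduction. -/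
lemma exists_root_red [FaithfulSMul R F] {π : R →+* κ} (hπ : Function.Surjective π) {f : R[X]}
    (hu : IsUnit f.leadingCoeff) (hirr : Irreducible (f.map π)) {β' : Fκ}
    (hβ' : aeval β' (f.map π) = 0) :
    ∃ (ρ : integralClosure R F →+* Fκ) (β : F) (hi : IsIntegral R β),
      (∀ r, ρ (algebraMap R (integralClosure R F) r) = algebraMap κ Fκ (π r)) ∧
      aeval β f = 0 ∧ ρ ⟨β, hi⟩ = β' := by
  obtain ⟨ρ, hρ⟩ := exists_red14 (F := F) (Fκ := Fκ) π hπ
  have hdeg : (f.map (algebraMap R F)).degree ≠ 0 := by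
    have h1 : (f.map (algebraMap R F)).natDegree = f.natDegree :=
      natDegree_map_eq_of_injective (FaithfulSMul.algebraMap_injective R F) f
    have h2 : 0 < f.natDegree := lt_of_lt_of_le hirr.natDegree_pos natDegree_map_le
    intro h3
    have h4 := natDegree_eq_zero_iff_degree_le_zero.mpr h3.le
    omega
  obtain ⟨β, hβ⟩ := IsAlgClosed.exists_root _ hdeg
  have hβ2 : aeval β f = 0 := by
    rw [IsRoot.def, eval_map_algebraMap] at hβ
    exact hβ
  have hi := integral_root hu hβ2
  obtain ⟨m, -, hm⟩ := exists_frob8_pow hirr hβ' (red_root hρ hi hβ2)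
  refine ⟨(((frob8 κ Fκ ^ m)⁻¹ : Fκ ≃ₐ[κ] Fκ) : Fκ →+* Fκ).comp ρ, β, hi, fun r => ?_, hβ2, ?_⟩
  · rw [RingHom.comp_apply, hρ]
    exact AlgEquiv.commutes _ _
  · rw [RingHom.comp_apply, hm]
    change ((frob8 κ Fκ ^ m)⁻¹ * (frob8 κ Fκ ^ m)) β' = β'
    rw [inv_mul_cancel]
    rfl

end Pool.Agent.Lib.MP_89bcae_ag.Tw

end

section

/-!
# The automorphism which lifts Frobenius
-/

open Polynomial

namespace Pool.Agent.Lib.MP_89bcae_ag.Tw

open Pool.Agent.Lib.MP_89bcae_ag

open scoped Classical in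
theorem frob_spec {R K F κ Fκ : Type*} [CommRing R] [IsDomain R] [IsIntegrallyClosed R] [Field K]
    [Algebra R K] [IsFractionRing R K] [Field F] [Algebra K F] [Algebra R F] [IsScalarTower R K F]
    [IsAlgClosed F] [Algebra.IsAlgebraic K F]
    [Field κ] [Fintype κ] [Field Fκ] [Algebra κ Fκ] [Algebra.IsAlgebraic κ Fκ] [IsAlgClosed Fκ]
    {π : R →+* κ} (hπ : Function.Surjective π) {ℓ : ℕ} (hℓ : ℓ.Prime) (hℓκ : (ℓ : κ) ≠ 0)
    {f : R[X]} (hu : IsUnit f.leadingCoeff) {N : ℕ} (hN : f.natDegree = N)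
    (hirr : Irreducible (f.map π)) {β' : Fκ} (hβ' : aeval β' (f.map π) = 0) :
    ∃ (φ : F ≃ₐ[K] F) (β : F), aeval β f = 0 ∧ (∀ γ : F, aeval γ f = 0 → ∃ i, (φ ^ i) β = γ) ∧
      (∀ i, (φ ^ i) β = β ↔ N ∣ i) ∧
      ∀ i j : ℕ, (∀ w : Fκ,
          w ^ ℓ = ((frob8 κ Fκ ^ i) β' - β') * ((frob8 κ Fκ ^ j) β' - β') ^ (ℓ - 1) →
            (frob8 κ Fκ ^ N) w ≠ w) →
        ∀ w : F, w ^ ℓ = ((φ ^ i) β - β) * ((φ ^ j) β - β) ^ (ℓ - 1) → (φ ^ N) w ≠ w := by
  have hinjR : Function.Injective (algebraMap R F) := by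
    rw [IsScalarTower.algebraMap_eq R K F]
    exact (algebraMap K F).injective.comp (IsFractionRing.injective R K)
  have hfaith : FaithfulSMul R F := (faithfulSMul_iff_algebraMap_injective R F).mpr hinjR
  obtain ⟨ρ, β, hi, hρ, hβ, hρβ⟩ := exists_root_red (F := F) hπ hu hirr hβ'
  have hsepκ : (f.map π).Separable := PerfectField.separable_of_irreducible hirr
  have hsep : (f.map (algebraMap R K)).Separable := separable_of_red F hπ hu hsepκ
  have h2F : (ℓ : F) ≠ 0 := by
    intro h0
    have h1 : (ℓ : R) = 0 := hinjR (by rw [map_natCast, map_zero]; exact h0)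
    apply hℓκ
    rw [← map_natCast π, h1, map_zero]
  have hf0 : f ≠ 0 := by
    rintro rfl
    rw [Polynomial.map_zero] at hirr
    exact hirr.ne_zero rfl
  have hfF0 : f.map (algebraMap R F) ≠ 0 := (Polynomial.map_ne_zero_iff hinjR).mpr hf0
  -- the roots
  set B : Finset F := (f.map (algebraMap R F)).roots.toFinset with hB
  have hmemB : ∀ γ, γ ∈ B ↔ aeval γ f = 0 := by
    intro γ
    rw [hB, Multiset.mem_toFinset, mem_roots hfF0, IsRoot.def, eval_map_algebraMap]
  have hBsep : ∀ γ ∈ B, γ ∈ separableClosure K F := by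
    intro γ hγ
    rw [mem_separableClosure_iff]
    apply Separable.of_dvd hsep
    apply minpoly.dvd
    rw [aeval_map_algebraMap]
    exact (hmemB γ).mp hγ
  have hBint : ∀ γ ∈ B, IsIntegral R γ := fun γ hγ => integral_root hu ((hmemB γ).mp hγ)
  -- the roots of the products
  let T : Finset F := (B ×ˢ (B ×ˢ B)).biUnion fun p =>
    (nthRoots ℓ ((p.1 - p.2.1) * (p.2.2 - p.2.1) ^ (ℓ - 1))).toFinset
  obtain ⟨φ, M, hSM, hM⟩ := exists_frob_lift14 (κ := κ) π hπ ρ hρ (B ∪ T) (by
    intro x hx
    rw [Finset.mem_union] at hx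
    rcases hx with hx | hx
    · exact mem_separableClosure_iff.mp (hBsep x hx)
    · rw [Finset.mem_biUnion] at hx
      obtain ⟨⟨a, b, c⟩, hp, hw⟩ := hx
      rw [Finset.mem_product, Finset.mem_product] at hp
      obtain ⟨ha, hb, hc⟩ := hp
      rw [Multiset.mem_toFinset, mem_nthRoots hℓ.pos] at hw
      set y := (a - b) * (c - b) ^ (ℓ - 1) with hy
      change x ^ ℓ = y at hw
      have hxs : y ∈ separableClosure K F :=
        mul_mem (sub_mem (hBsep a ha) (hBsep b hb))
          (pow_mem (sub_mem (hBsep c hc) (hBsep b hb)) _)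
      by_cases hx0 : y = 0
      · have h3 : x = 0 := by
          rw [hx0] at hw
          exact pow_eq_zero_iff hℓ.ne_zero |>.mp hw
        rw [h3]
        exact mem_separableClosure_iff.mp (zero_mem _)
      · apply IsSeparable.of_algebra_isSeparable_of_isSeparable K (E := separableClosure K F)
        have h3 : (X ^ ℓ - C (⟨y, hxs⟩ : separableClosure K F)).Separable := by
          apply separable_X_pow_sub_C
          · intro h4
            apply h2F
            have h5 := congrArg (algebraMap (separableClosure K F) F) h4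
            rw [map_natCast, map_zero] at h5
            exact h5
          · intro h4
            exact hx0 (congrArg Subtype.val h4)
        apply Separable.of_dvd h3
        apply minpoly.dvd
        rw [map_sub, map_pow, aeval_X, aeval_C, hw]
        exact sub_self _)
  have hMi : ∀ (i : ℕ) (x : F), x ∈ M → ∀ hx : IsIntegral R x, (φ ^ i) x ∈ M ∧
      ∃ hx' : IsIntegral R ((φ ^ i) x), ρ ⟨(φ ^ i) x, hx'⟩ = (frob8 κ Fκ ^ i) (ρ ⟨x, hx⟩) := by
    intro i
    induction i with
    | zero => exact fun x hxM hx => ⟨hxM, hx, rfl⟩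
    | succ i ih =>
      intro x hxM hx
      obtain ⟨h3, h4, h5⟩ := ih x hxM hx
      obtain ⟨h6, h7⟩ := hM _ h3
      obtain ⟨h8, h9⟩ := h7 h4
      have h10 : (φ ^ (i + 1)) x = φ ((φ ^ i) x) := by rw [pow_succ', AlgEquiv.mul_apply]
      refine ⟨by rw [h10]; exact h6, by rw [h10]; exact h8, ?_⟩
      have h11 : ρ ⟨(φ ^ (i + 1)) x, by rw [h10]; exact h8⟩ = ρ ⟨φ ((φ ^ i) x), h8⟩ := by
        congr 1
        exact Subtype.ext h10
      rw [h11, h9, h5, pow_succ' (frob8 κ Fκ), AlgEquiv.mul_apply, frob8_apply,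
        Nat.card_eq_fintype_card]
  have hβB : β ∈ B := (hmemB β).mpr hβ
  have hβM : β ∈ M := hSM β (Finset.mem_union_left _ hβB)
  have hroot : ∀ i, (φ ^ i) β ∈ B := by
    intro i
    rw [hmemB]
    have h3 : aeval ((φ ^ i) β) (f.map (algebraMap R K)) = 0 := by
      rw [← AlgEquiv.coe_toAlgHom (φ ^ i), aeval_algHom_apply, aeval_map_algebraMap, hβ, map_zero]
    rwa [aeval_map_algebraMap] at h3
  have hred : ∀ i, ρ ⟨(φ ^ i) β, hBint _ (hroot i)⟩ = (frob8 κ Fκ ^ i) β' := by
    intro i
    obtain ⟨-, h4, h5⟩ := hMi i β hβM hi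
    rw [h5, hρβ]
  have hdegκ : (f.map π).natDegree = N := by
    rw [← hN]
    exact natDegree_map_of_leadingCoeff_ne_zero π (hu.map π).ne_zero
  have hmin : (minpoly κ β').natDegree = N := by
    rw [← minpoly.eq_of_irreducible hirr hβ', natDegree_mul_leadingCoeff_inv _ hirr.ne_zero, hdegκ]
  have hiff : ∀ i, (frob8 κ Fκ ^ i) β' = β' ↔ N ∣ i := fun i => by
    rw [frob8_pow_eq_iff, hmin]
  have hBcard : B.card ≤ N := by
    rw [← hN, ← natDegree_map_eq_of_injective hinjR f]
    exact (Multiset.toFinset_card_le _).trans (card_roots' _)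
  -- the orbit
  have horb : ∀ γ ∈ B, ∃ i < N, (φ ^ i) β = γ := by
    have h3 : ((Finset.range N).image fun i => (φ ^ i) β) = B := by
      apply Finset.eq_of_subset_of_card_le
      · intro γ hγ
        rw [Finset.mem_image] at hγ
        obtain ⟨i, -, rfl⟩ := hγ
        exact hroot i
      · rw [Finset.card_image_of_injOn, Finset.card_range]
        · exact hBcard
        · intro a ha b hb hab
          have ha' := Finset.mem_range.mp ha
          have hb' := Finset.mem_range.mp hb
          have h4 : (frob8 κ Fκ ^ a) β' = (frob8 κ Fκ ^ b) β' := by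
            rw [← hred, ← hred]
            congr 1
            exact Subtype.ext hab
          wlog hle : a ≤ b generalizing a b
          · exact (this hb ha hab.symm hb' ha' h4.symm (by omega)).symm
          have h5 : (frob8 κ Fκ ^ (b - a)) β' = β' := by
            apply (frob8 κ Fκ ^ a).injective
            rw [← AlgEquiv.mul_apply, ← pow_add, Nat.add_sub_cancel' hle]
            exact h4.symm
          rw [hiff] at h5
          have := Nat.eq_zero_of_dvd_of_lt h5 (by omega)
          omega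
    intro γ hγ
    rw [← h3, Finset.mem_image] at hγ
    obtain ⟨i, hi, hiγ⟩ := hγ
    exact ⟨i, Finset.mem_range.mp hi, hiγ⟩
  refine ⟨φ, β, hβ, fun γ hγ => ?_, fun i => ?_, fun i j hm w hw hwφ => ?_⟩
  · obtain ⟨i, -, hi⟩ := horb γ ((hmemB γ).mpr hγ)
    exact ⟨i, hi⟩
  · have hper : (φ ^ N) β = β := by
      obtain ⟨i, hiN, hi'⟩ := horb _ (hroot N)
      have h3 : (frob8 κ Fκ ^ i) β' = (frob8 κ Fκ ^ N) β' := by
        rw [← hred, ← hred]
        congr 1
        exact Subtype.ext hi'
      rw [(hiff N).mpr dvd_rfl, hiff] at h3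
      have h4 := Nat.eq_zero_of_dvd_of_lt h3 hiN
      rw [h4, pow_zero] at hi'
      exact hi'.symm
    constructor
    · intro h3
      rw [← hiff, ← hred, ← hρβ]
      congr 1
      exact Subtype.ext h3
    · rintro ⟨m, rfl⟩
      induction m with
      | zero => rfl
      | succ m ih => rw [Nat.mul_succ, pow_add, AlgEquiv.mul_apply, hper, ih]
  · -- the roots
    have h4 : w ∈ M := by
      apply hSM
      apply Finset.mem_union_right
      rw [Finset.mem_biUnion]
      refine ⟨((φ ^ i) β, β, (φ ^ j) β), ?_, ?_⟩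
      · rw [Finset.mem_product, Finset.mem_product]
        exact ⟨hroot i, hβB, hroot j⟩
      · rw [Multiset.mem_toFinset, mem_nthRoots hℓ.pos]
        exact hw
    have h5 : IsIntegral R w := by
      apply IsIntegral.of_pow (n := ℓ) hℓ.pos
      rw [hw]
      exact ((hBint _ (hroot i)).sub hi).mul (((hBint _ (hroot j)).sub hi).pow _)
    obtain ⟨-, h6, h7⟩ := hMi N _ h4 h5
    refine hm (ρ ⟨w, h5⟩) ?_ ?_
    · rw [← map_pow, ← hred i, ← hred j, ← hρβ, ← map_sub, ← map_sub, ← map_pow, ← map_mul]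
      congr 1
      exact Subtype.ext hw
    · rw [← h7]
      congr 1
      exact Subtype.ext hwφ

end Pool.Agent.Lib.MP_89bcae_ag.Tw

end

section

/-!
# The automorphism which lifts Frobenius, with the square roots of `-1`
-/

open Polynomial

namespace Pool.Agent.Lib.MP_89bcae_ag.Tw

open Pool.Agent.Lib.MP_89bcae_ag

open scoped Classical in
theorem frob_spec2 {R K F κ Fκ : Type*} [CommRing R] [IsDomain R] [IsIntegrallyClosed R] [Field K]
    [Algebra R K] [IsFractionRing R K] [Field F] [Algebra K F] [Algebra R F] [IsScalarTower R K F]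
    [IsAlgClosed F] [Algebra.IsAlgebraic K F]
    [Field κ] [Fintype κ] [Field Fκ] [Algebra κ Fκ] [Algebra.IsAlgebraic κ Fκ] [IsAlgClosed Fκ]
    {π : R →+* κ} (hπ : Function.Surjective π) {ℓ : ℕ} (hℓ : ℓ.Prime) (hℓκ : (ℓ : κ) ≠ 0)
    {f : R[X]} (hu : IsUnit f.leadingCoeff) {N : ℕ} (hN : f.natDegree = N)
    (hirr : Irreducible (f.map π)) {β' : Fκ} (hβ' : aeval β' (f.map π) = 0) :
    ∃ (φ : F ≃ₐ[K] F) (β : F), aeval β f = 0 ∧ (∀ γ : F, aeval γ f = 0 → ∃ i, (φ ^ i) β = γ) ∧
      (∀ i, (φ ^ i) β = β ↔ N ∣ i) ∧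
      ((2 : κ) ≠ 0 → (∃ a : κ, a ^ 2 = -1) → ∀ x : F, x ^ 2 = -1 → φ x = x) ∧
      ∀ i j : ℕ, (∀ w : Fκ,
          w ^ ℓ = ((frob8 κ Fκ ^ i) β' - β') * ((frob8 κ Fκ ^ j) β' - β') ^ (ℓ - 1) →
            (frob8 κ Fκ ^ N) w ≠ w) →
        ∀ w : F, w ^ ℓ = ((φ ^ i) β - β) * ((φ ^ j) β - β) ^ (ℓ - 1) → (φ ^ N) w ≠ w := by
  have hinjR : Function.Injective (algebraMap R F) := by
    rw [IsScalarTower.algebraMap_eq R K F]
    exact (algebraMap K F).injective.comp (IsFractionRing.injective R K)
  have hfaith : FaithfulSMul R F := (faithfulSMul_iff_algebraMap_injective R F).mpr hinjR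
  obtain ⟨ρ, β, hi, hρ, hβ, hρβ⟩ := exists_root_red (F := F) hπ hu hirr hβ'
  have hsepκ : (f.map π).Separable := PerfectField.separable_of_irreducible hirr
  have hsep : (f.map (algebraMap R K)).Separable := separable_of_red F hπ hu hsepκ
  have h2F : (ℓ : F) ≠ 0 := by
    intro h0
    have h1 : (ℓ : R) = 0 := hinjR (by rw [map_natCast, map_zero]; exact h0)
    apply hℓκ
    rw [← map_natCast π, h1, map_zero]
  have hf0 : f ≠ 0 := by
    rintro rfl
    rw [Polynomial.map_zero] at hirr
    exact hirr.ne_zero rfl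
  have hfF0 : f.map (algebraMap R F) ≠ 0 := (Polynomial.map_ne_zero_iff hinjR).mpr hf0
  -- the roots
  set B : Finset F := (f.map (algebraMap R F)).roots.toFinset with hB
  have hmemB : ∀ γ, γ ∈ B ↔ aeval γ f = 0 := by
    intro γ
    rw [hB, Multiset.mem_toFinset, mem_roots hfF0, IsRoot.def, eval_map_algebraMap]
  have hBsep : ∀ γ ∈ B, γ ∈ separableClosure K F := by
    intro γ hγ
    rw [mem_separableClosure_iff]
    apply Separable.of_dvd hsep
    apply minpoly.dvd
    rw [aeval_map_algebraMap]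
    exact (hmemB γ).mp hγ
  have hBint : ∀ γ ∈ B, IsIntegral R γ := fun γ hγ => integral_root hu ((hmemB γ).mp hγ)
  -- the roots of the products
  let T : Finset F := (B ×ˢ (B ×ˢ B)).biUnion fun p =>
    (nthRoots ℓ ((p.1 - p.2.1) * (p.2.2 - p.2.1) ^ (ℓ - 1))).toFinset
  obtain ⟨φ, M, hSM, hM⟩ := exists_frob_lift14 (κ := κ) π hπ ρ hρ 
    ((B ∪ T) ∪ (nthRoots 2 (-1 : F)).toFinset) (by
    intro x hx
    rw [Finset.mem_union, Finset.mem_union] at hx
    rcases hx with (hx | hx) | hx
    · exact mem_separableClosure_iff.mp (hBsep x hx)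
    · rw [Finset.mem_biUnion] at hx
      obtain ⟨⟨a, b, c⟩, hp, hw⟩ := hx
      rw [Finset.mem_product, Finset.mem_product] at hp
      obtain ⟨ha, hb, hc⟩ := hp
      rw [Multiset.mem_toFinset, mem_nthRoots hℓ.pos] at hw
      set y := (a - b) * (c - b) ^ (ℓ - 1) with hy
      change x ^ ℓ = y at hw
      have hxs : y ∈ separableClosure K F :=
        mul_mem (sub_mem (hBsep a ha) (hBsep b hb))
          (pow_mem (sub_mem (hBsep c hc) (hBsep b hb)) _)
      by_cases hx0 : y = 0
      · have h3 : x = 0 := by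
          rw [hx0] at hw
          exact pow_eq_zero_iff hℓ.ne_zero |>.mp hw
        rw [h3]
        exact mem_separableClosure_iff.mp (zero_mem _)
      · apply IsSeparable.of_algebra_isSeparable_of_isSeparable K (E := separableClosure K F)
        have h3 : (X ^ ℓ - C (⟨y, hxs⟩ : separableClosure K F)).Separable := by
          apply separable_X_pow_sub_C
          · intro h4
            apply h2F
            have h5 := congrArg (algebraMap (separableClosure K F) F) h4
            rw [map_natCast, map_zero] at h5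
            exact h5
          · intro h4
            exact hx0 (congrArg Subtype.val h4)
        apply Separable.of_dvd h3
        apply minpoly.dvd
        rw [map_sub, map_pow, aeval_X, aeval_C, hw]
        exact sub_self _
    · rw [Multiset.mem_toFinset, mem_nthRoots two_pos] at hx
      by_cases h20 : (2 : K) = 0
      · have h3 : x = 1 := by
          have h20' : (2 : F) = 0 := by
            have := congrArg (algebraMap K F) h20
            rwa [map_ofNat, map_zero] at this
          have h4 : (x - 1) ^ 2 = 0 := by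
            linear_combination hx + (-x) * h20'
          exact sub_eq_zero.mp (pow_eq_zero_iff two_ne_zero |>.mp h4)
        rw [h3]
        exact mem_separableClosure_iff.mp (one_mem _)
      · have h3 : (X ^ 2 - C (-1 : K)).Separable := by
          apply separable_X_pow_sub_C
          · rw [Nat.cast_ofNat]
            exact h20
          · exact neg_ne_zero.mpr one_ne_zero
        apply Separable.of_dvd h3
        apply minpoly.dvd
        rw [map_sub, map_pow, aeval_X, aeval_C, hx, map_neg, map_one]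
        exact sub_self _)
  have hMi : ∀ (i : ℕ) (x : F), x ∈ M → ∀ hx : IsIntegral R x, (φ ^ i) x ∈ M ∧
      ∃ hx' : IsIntegral R ((φ ^ i) x), ρ ⟨(φ ^ i) x, hx'⟩ = (frob8 κ Fκ ^ i) (ρ ⟨x, hx⟩) := by
    intro i
    induction i with
    | zero => exact fun x hxM hx => ⟨hxM, hx, rfl⟩
    | succ i ih =>
      intro x hxM hx
      obtain ⟨h3, h4, h5⟩ := ih x hxM hx
      obtain ⟨h6, h7⟩ := hM _ h3
      obtain ⟨h8, h9⟩ := h7 h4
      have h10 : (φ ^ (i + 1)) x = φ ((φ ^ i) x) := by rw [pow_succ', AlgEquiv.mul_apply]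
      refine ⟨by rw [h10]; exact h6, by rw [h10]; exact h8, ?_⟩
      have h11 : ρ ⟨(φ ^ (i + 1)) x, by rw [h10]; exact h8⟩ = ρ ⟨φ ((φ ^ i) x), h8⟩ := by
        congr 1
        exact Subtype.ext h10
      rw [h11, h9, h5, pow_succ' (frob8 κ Fκ), AlgEquiv.mul_apply, frob8_apply,
        Nat.card_eq_fintype_card]
  have hβB : β ∈ B := (hmemB β).mpr hβ
  have hβM : β ∈ M := hSM β (Finset.mem_union_left _ (Finset.mem_union_left _ hβB))
  have hroot : ∀ i, (φ ^ i) β ∈ B := by
    intro i
    rw [hmemB]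
    have h3 : aeval ((φ ^ i) β) (f.map (algebraMap R K)) = 0 := by
      rw [← AlgEquiv.coe_toAlgHom (φ ^ i), aeval_algHom_apply, aeval_map_algebraMap, hβ, map_zero]
    rwa [aeval_map_algebraMap] at h3
  have hred : ∀ i, ρ ⟨(φ ^ i) β, hBint _ (hroot i)⟩ = (frob8 κ Fκ ^ i) β' := by
    intro i
    obtain ⟨-, h4, h5⟩ := hMi i β hβM hi
    rw [h5, hρβ]
  have hdegκ : (f.map π).natDegree = N := by
    rw [← hN]
    exact natDegree_map_of_leadingCoeff_ne_zero π (hu.map π).ne_zero
  have hmin : (minpoly κ β').natDegree = N := by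
    rw [← minpoly.eq_of_irreducible hirr hβ', natDegree_mul_leadingCoeff_inv _ hirr.ne_zero, hdegκ]
  have hiff : ∀ i, (frob8 κ Fκ ^ i) β' = β' ↔ N ∣ i := fun i => by
    rw [frob8_pow_eq_iff, hmin]
  have hBcard : B.card ≤ N := by
    rw [← hN, ← natDegree_map_eq_of_injective hinjR f]
    exact (Multiset.toFinset_card_le _).trans (card_roots' _)
  -- the orbit
  have horb : ∀ γ ∈ B, ∃ i < N, (φ ^ i) β = γ := by
    have h3 : ((Finset.range N).image fun i => (φ ^ i) β) = B := by
      apply Finset.eq_of_subset_of_card_le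
      · intro γ hγ
        rw [Finset.mem_image] at hγ
        obtain ⟨i, -, rfl⟩ := hγ
        exact hroot i
      · rw [Finset.card_image_of_injOn, Finset.card_range]
        · exact hBcard
        · intro a ha b hb hab
          have ha' := Finset.mem_range.mp ha
          have hb' := Finset.mem_range.mp hb
          have h4 : (frob8 κ Fκ ^ a) β' = (frob8 κ Fκ ^ b) β' := by
            rw [← hred, ← hred]
            congr 1
            exact Subtype.ext hab
          wlog hle : a ≤ b generalizing a b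
          · exact (this hb ha hab.symm hb' ha' h4.symm (by omega)).symm
          have h5 : (frob8 κ Fκ ^ (b - a)) β' = β' := by
            apply (frob8 κ Fκ ^ a).injective
            rw [← AlgEquiv.mul_apply, ← pow_add, Nat.add_sub_cancel' hle]
            exact h4.symm
          rw [hiff] at h5
          have := Nat.eq_zero_of_dvd_of_lt h5 (by omega)
          omega
    intro γ hγ
    rw [← h3, Finset.mem_image] at hγ
    obtain ⟨i, hi, hiγ⟩ := hγ
    exact ⟨i, Finset.mem_range.mp hi, hiγ⟩
  refine ⟨φ, β, hβ, fun γ hγ => ?_, fun i => ?_, fun h2κ ha x hx => ?_,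
    fun i j hm w hw hwφ => ?_⟩
  · obtain ⟨i, -, hi⟩ := horb γ ((hmemB γ).mpr hγ)
    exact ⟨i, hi⟩
  · have hper : (φ ^ N) β = β := by
      obtain ⟨i, hiN, hi'⟩ := horb _ (hroot N)
      have h3 : (frob8 κ Fκ ^ i) β' = (frob8 κ Fκ ^ N) β' := by
        rw [← hred, ← hred]
        congr 1
        exact Subtype.ext hi'
      rw [(hiff N).mpr dvd_rfl, hiff] at h3
      have h4 := Nat.eq_zero_of_dvd_of_lt h3 hiN
      rw [h4, pow_zero] at hi'
      exact hi'.symm
    constructor
    · intro h3
      rw [← hiff, ← hred, ← hρβ]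
      congr 1
      exact Subtype.ext h3
    · rintro ⟨m, rfl⟩
      induction m with
      | zero => rfl
      | succ m ih => rw [Nat.mul_succ, pow_add, AlgEquiv.mul_apply, hper, ih]
  · -- the square roots of `-1`
    obtain ⟨a, ha⟩ := ha
    have hxM : x ∈ M := by
      apply hSM
      apply Finset.mem_union_right
      rw [Multiset.mem_toFinset, mem_nthRoots two_pos]
      exact hx
    have hxi : IsIntegral R x := by
      apply IsIntegral.of_pow (n := 2) two_pos
      rw [hx]
      exact isIntegral_one.neg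
    obtain ⟨-, h6, h7⟩ := hMi 1 x hxM hxi
    simp only [pow_one] at h6 h7
    have h8 : (ρ ⟨x, hxi⟩) ^ 2 = -1 := by
      rw [← map_pow]
      have h9 : (⟨x, hxi⟩ : integralClosure R F) ^ 2 = -1 := Subtype.ext hx
      rw [h9, map_neg, map_one]
    have h10 : (ρ ⟨x, hxi⟩) ^ 2 = (algebraMap κ Fκ a) ^ 2 := by
      rw [h8, ← map_pow, ha, map_neg, map_one]
    have h11 : frob8 κ Fκ (ρ ⟨x, hxi⟩) = ρ ⟨x, hxi⟩ := by
      rcases sq_eq_sq_iff_eq_or_eq_neg.mp h10 with h12 | h12
      · rw [h12]
        exact AlgEquiv.commutes _ _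
      · rw [h12, map_neg, AlgEquiv.commutes]
    rw [h11] at h7
    have h13 : (φ x) ^ 2 = x ^ 2 := by
      rw [← map_pow, hx, map_neg, map_one]
    rcases sq_eq_sq_iff_eq_or_eq_neg.mp h13 with h14 | h14
    · exact h14
    · exfalso
      have h15 : (⟨φ x, h6⟩ : integralClosure R F) = -⟨x, hxi⟩ := Subtype.ext h14
      rw [h15, map_neg] at h7
      have h16 : (2 : Fκ) * ρ ⟨x, hxi⟩ = 0 := by linear_combination (-1 : Fκ) * h7
      rcases mul_eq_zero.mp h16 with h17 | h17
      · apply h2κ
        have h18 : algebraMap κ Fκ 2 = 0 := by rw [map_ofNat]; exact h17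
        exact (algebraMap κ Fκ).injective (h18.trans (map_zero _).symm)
      · rw [h17] at h8
        have h19 : (1 : Fκ) = 0 := by linear_combination h8
        exact one_ne_zero h19
  · -- the roots
    have h4 : w ∈ M := by
      apply hSM
      apply Finset.mem_union_left
      apply Finset.mem_union_right
      rw [Finset.mem_biUnion]
      refine ⟨((φ ^ i) β, β, (φ ^ j) β), ?_, ?_⟩
      · rw [Finset.mem_product, Finset.mem_product]
        exact ⟨hroot i, hβB, hroot j⟩
      · rw [Multiset.mem_toFinset, mem_nthRoots hℓ.pos]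
        exact hw
    have h5 : IsIntegral R w := by
      apply IsIntegral.of_pow (n := ℓ) hℓ.pos
      rw [hw]
      exact ((hBint _ (hroot i)).sub hi).mul (((hBint _ (hroot j)).sub hi).pow _)
    obtain ⟨-, h6, h7⟩ := hMi N _ h4 h5
    refine hm (ρ ⟨w, h5⟩) ?_ ?_
    · rw [← map_pow, ← hred i, ← hred j, ← hρβ, ← map_sub, ← map_sub, ← map_pow, ← map_mul]
      congr 1
      exact Subtype.ext hw
    · rw [← h7]
      congr 1
      exact Subtype.ext hwφ

end Pool.Agent.Lib.MP_89bcae_ag.Tw

end
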