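import Mathlib
import Pool.Agent.Lib.MP_89bcae_ag.Rk.K069

namespace Pool.Agent.Lib.MP_89bcae_ag
end Pool.Agent.Lib.MP_89bcae_ag

/-!
# The criterion for all towers from the reduction modulo a maximal ideal
-/

open Polynomial

namespace Pool.Agent.Lib.MP_89bcae_ag.Tw

open Pool.Agent.Lib.MP_89bcae_ag

universe u

set_option linter.unusedSectionVars false
set_option linter.style.haveILetI false

lemma u15_fix_pow {k F : Type*} [Field k] [Field F] [Algebra k F] (φ : F ≃ₐ[k] F) {x : F}
    (h : φ x = x) (n : ℕ) : (φ ^ n) x = x := by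
  induction n with
  | zero => rfl
  | succ n ih => rw [pow_succ, AlgEquiv.mul_apply, h, ih]

theorem crall_of_spec_unit {R κ : Type u} [CommRing R] [IsDomain R] [IsIntegrallyClosed R]
    [Field κ] [Fintype κ] {ℓ m j : ℕ} (hℓ : ℓ.Prime) (hm : m.Prime) (hm2 : m ≠ 2)
    (hgen : orderOf (ℓ : ZMod (m ^ 2)) = m * (m - 1)) (hq : ℓ ∣ Fintype.card κ - 1)
    (hneg : ∃ a : κ, a ^ ℓ = -1)
    {π : R →+* κ} (hπ : Function.Surjective π) {g D : R[X]} (hg : g.Monic)
    (hdeg : g.natDegree = m) (hDu : IsUnit D.leadingCoeff) (hD : D.natDegree = m ^ j)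
    (hfam : D.map π ∈ family (g.map π) (m ^ j))
    (hexc : D.map π ∉ Superelliptic.exceptional ℓ (g.map π) (m ^ j))
    (K F : Type u) [Field K] [Algebra R K] [IsFractionRing R K] [Field F] [Algebra K F]
    [IsAlgClosure K F] {ζ : K} (hζ : IsPrimitiveRoot ζ ℓ) :
    ((D.map (algebraMap R K)).comp (g.map (algebraMap R K))).Separable ∧
      ∃ U : F ≃ₐ[K] F,
        Sup.CRall ℓ (g.map (algebraMap R K)) (D.map (algebraMap R K)) ζ U Set.univ := by
  haveI hF : IsAlgClosed F := IsAlgClosure.isAlgClosed K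
  haveI hkF : Algebra.IsAlgebraic K F := IsAlgClosure.isAlgebraic
  letI : Algebra R F := ((algebraMap K F).comp (algebraMap R K)).toAlgebra
  haveI : IsScalarTower R K F := IsScalarTower.of_algebraMap_eq fun _ => rfl
  have hgd : (g.map π).natDegree = m := by rw [hg.natDegree_map, hdeg]
  have hn0 : 0 < m ^ j := pow_pos hm.pos j
  have hℓκ : (ℓ : κ) ≠ 0 := t15_ne_zero hq
  have hcop : m.Coprime ℓ := ne_of_orderOf hℓ hm hgen
  have hirrC := cyclotomic_irreducible hℓ hm hm2 hgen j
  obtain ⟨β', hβ'⟩ : ∃ β' : AlgebraicClosure κ, aeval β' ((D.map π).comp (g.map π)) = 0 := by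
    apply IsAlgClosed.exists_aeval_eq_zero
    intro h0
    have h1 := natDegree_eq_of_degree_eq_some (n := 0) (by rw [h0]; rfl)
    rw [natDegree_comp, hfam.2.1, hgd] at h1
    exact (Nat.mul_pos hn0 hm.pos).ne' h1
  obtain ⟨u, hu, hw⟩ := exists_moves (F := AlgebraicClosure κ) hℓ hm.pos hcop hn0 hq (hg.map π)
    hgd hfam hexc hβ'
  have hfu : IsUnit (D.comp g).leadingCoeff := by
    rw [leadingCoeff_comp (by rw [hdeg]; exact hm.pos.ne'), hg.leadingCoeff, one_pow, mul_one]
    exact hDu
  have hfN : (D.comp g).natDegree = m * m ^ j := by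
    rw [natDegree_comp, hD, hdeg, mul_comm]
  have hcomp : (D.comp g).map π = (D.map π).comp (g.map π) := Polynomial.map_comp _ _ _
  obtain ⟨φ, β, h1, h3, h4, h7, h5⟩ := frob_spec2 (K := K) (F := F) hπ hℓ hℓκ hfu hfN
    (by rw [hcomp]; exact hfam.2.2) (Fκ := AlgebraicClosure κ) (β' := β')
    (by rw [hcomp]; exact hβ')
  have h6 := h5 u (u + m ^ j) hw
  have hmap : (D.map (algebraMap R K)).comp (g.map (algebraMap R K)) =
      (D.comp g).map (algebraMap R K) := (Polynomial.map_comp _ _ _).symm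
  have hroot : ∀ γ : F, aeval γ ((D.map (algebraMap R K)).comp (g.map (algebraMap R K))) =
      aeval γ (D.comp g) := by
    intro γ
    rw [hmap, aeval_map_algebraMap]
  have ho : Orb φ (g.map (algebraMap R K)) (D.map (algebraMap R K)) m (m ^ j)
      (aeval β (g.map (algebraMap R K))) β := by
    refine ⟨hg.map _, by rw [hg.natDegree_map, hdeg], hm.pos, hn0, ?_, rfl, ?_, ?_, h4⟩
    · rw [natDegree_map_eq_of_injective (IsFractionRing.injective R K), hD]
    · rw [← aeval_comp, hroot, h1]
    · intro γ hγ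
      rw [hroot] at hγ
      obtain ⟨i, hi⟩ := h3 γ hγ
      exact ⟨i, hi.symm⟩
  have hmℓ : (m : ZMod ℓ) ≠ 0 := by
    intro h0
    rw [ZMod.natCast_eq_zero_iff] at h0
    have h8 := Nat.eq_one_of_dvd_coprimes hcop.symm dvd_rfl h0
    exact hℓ.one_lt.ne' h8
  refine ⟨ho.separable, φ ^ (m * m ^ j), ?_, ?_, ?_⟩
  · classical
    intro β₁ hβ₁
    have h8 : aeval β₁ ((D.map (algebraMap R K)).comp (g.map (algebraMap R K))) = 0 := by
      rw [Sup.RR, Multiset.mem_toFinset, mem_roots
        ((Polynomial.map_ne_zero_iff (algebraMap K F).injective).2 ho.comp_ne), IsRoot.def,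
        eval_map_algebraMap] at hβ₁
      exact hβ₁
    obtain ⟨v, rfl⟩ := ho.ee_surj h8
    exact ho.pow_ee v
  · intro x hx
    apply u15_fix_pow
    rcases hℓ.eq_two_or_odd' with h2 | hodd
    · rw [h2] at hx hℓκ hneg
      exact h7 (by exact_mod_cast hℓκ) hneg x hx
    · have h8 : (-x) ^ ℓ = 1 := by rw [hodd.neg_pow, hx, neg_neg]
      haveI : NeZero ℓ := ⟨hℓ.ne_zero⟩
      have hz : IsPrimitiveRoot (algebraMap K F ζ) ℓ :=
        hζ.map_of_injective (algebraMap K F).injective
      obtain ⟨i, -, hi⟩ := hz.eq_pow_of_pow_eq_one h8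
      have h9 : x = -(algebraMap K F ζ ^ i) := by rw [hi, neg_neg]
      rw [h9, map_neg, map_pow, AlgEquiv.commutes]
  · intro μ
    by_contra hS
    obtain ⟨w, hw1, hw2⟩ := exists_power_of_not_sepU hℓ hm hmℓ hirrC ho hζ μ hS u hu
    exact h6 w hw1 hw2

theorem crall_of_spec {R κ : Type u} [CommRing R] [IsDomain R] [IsIntegrallyClosed R]
    [Field κ] [Fintype κ] {ℓ m j : ℕ} (hℓ : ℓ.Prime) (hm : m.Prime) (hm2 : m ≠ 2)
    (hgen : orderOf (ℓ : ZMod (m ^ 2)) = m * (m - 1)) (hq : ℓ ∣ Fintype.card κ - 1)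
    (hneg : ∃ a : κ, a ^ ℓ = -1)
    {π : R →+* κ} (hπ : Function.Surjective π) {g D : R[X]} (hg : g.Monic)
    (hdeg : g.natDegree = m) (hD : D.natDegree = m ^ j)
    (hfam : D.map π ∈ family (g.map π) (m ^ j))
    (hexc : D.map π ∉ Superelliptic.exceptional ℓ (g.map π) (m ^ j))
    (K F : Type u) [Field K] [Algebra R K] [IsFractionRing R K] [Field F] [Algebra K F]
    [IsAlgClosure K F] {ζ : K} (hζ : IsPrimitiveRoot ζ ℓ) :
    ((D.map (algebraMap R K)).comp (g.map (algebraMap R K))).Separable ∧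
      ∃ U : F ≃ₐ[K] F,
        Sup.CRall ℓ (g.map (algebraMap R K)) (D.map (algebraMap R K)) ζ U Set.univ := by
  let p : Ideal R := RingHom.ker π
  have hp : p.IsPrime := RingHom.ker_isPrime π
  let S := Localization.AtPrime p
  have hM : p.primeCompl ≤ nonZeroDivisors R := p.primeCompl_le_nonZeroDivisors
  haveI : IsDomain S := IsLocalization.isDomain_localization hM
  haveI : IsIntegrallyClosed S := isIntegrallyClosed_of_isLocalization S p.primeCompl hM
  have hK : ∀ y : p.primeCompl, IsUnit (algebraMap R K y) := by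
    intro y
    rw [isUnit_iff_ne_zero]
    intro h0
    have h1 : (y : R) = 0 := IsFractionRing.injective R K (h0.trans (map_zero _).symm)
    exact y.2 (by rw [h1]; exact p.zero_mem)
  let iK : S →+* K := IsLocalization.lift (M := p.primeCompl) hK
  have hiK : ∀ x : R, iK (algebraMap R S x) = algebraMap R K x := fun x =>
    IsLocalization.lift_eq hK x
  letI : Algebra S K := iK.toAlgebra
  haveI : IsScalarTower R S K := IsScalarTower.of_algebraMap_eq fun x => (hiK x).symm
  haveI : IsFractionRing S K :=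
    IsFractionRing.isFractionRing_of_isDomain_of_isLocalization p.primeCompl S K
  have hκ : ∀ y : p.primeCompl, IsUnit (π y) := by
    intro y
    rw [isUnit_iff_ne_zero]
    exact fun h0 => y.2 h0
  let πS : S →+* κ := IsLocalization.lift (M := p.primeCompl) hκ
  have hπS : ∀ x : R, πS (algebraMap R S x) = π x := fun x => IsLocalization.lift_eq hκ x
  have hsurj : Function.Surjective πS := by
    intro y
    obtain ⟨x, rfl⟩ := hπ y
    exact ⟨algebraMap R S x, hπS x⟩
  have hcompκ : πS.comp (algebraMap R S) = π := RingHom.ext hπS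
  have hcompK : (algebraMap S K).comp (algebraMap R S) = algebraMap R K := RingHom.ext hiK
  have hinj : Function.Injective (algebraMap R S) := IsLocalization.injective S hM
  have hlc : π D.leadingCoeff ≠ 0 := by
    intro h0
    have h1 : (D.map π).natDegree < m ^ j := by
      rw [← hD]
      apply natDegree_map_lt' h0
      rw [hD]
      exact pow_pos hm.pos j
    rw [hfam.2.1] at h1
    exact lt_irrefl _ h1
  have hDu : IsUnit (D.map (algebraMap R S)).leadingCoeff := by
    rw [leadingCoeff_map_of_injective hinj]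
    exact IsLocalization.map_units S (⟨D.leadingCoeff, hlc⟩ : p.primeCompl)
  have hg' : (g.map (algebraMap R S)).map πS = g.map π := by rw [Polynomial.map_map, hcompκ]
  have hD' : (D.map (algebraMap R S)).map πS = D.map π := by rw [Polynomial.map_map, hcompκ]
  have hgK : (g.map (algebraMap R S)).map (algebraMap S K) = g.map (algebraMap R K) := by
    rw [Polynomial.map_map, hcompK]
  have hDK : (D.map (algebraMap R S)).map (algebraMap S K) = D.map (algebraMap R K) := by
    rw [Polynomial.map_map, hcompK]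
  have h := crall_of_spec_unit hℓ hm hm2 hgen hq hneg hsurj (g := g.map (algebraMap R S))
    (D := D.map (algebraMap R S)) (hg.map _) (by rw [hg.natDegree_map, hdeg]) hDu
    (by rw [natDegree_map_eq_of_injective hinj, hD]) (by rw [hg', hD']; exact hfam)
    (by rw [hg', hD']; exact hexc) K F hζ
  rw [hgK, hDK] at h
  exact h

end Pool.Agent.Lib.MP_89bcae_ag.Tw
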