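import Mathlib
import Pool.Agent.Lib.MP_89bcae_ag.Rk.K065
import Pool.Agent.Lib.MP_89bcae_ag.Rk.K074
import Pool.Agent.Lib.MP_89bcae_ag.Rk.K075
import Pool.Agent.Lib.MP_89bcae_ag.Rk.K076
import Pool.Agent.Lib.MP_89bcae_ag.Tw.TDefs

namespace Pool.Agent.Lib.MP_89bcae_ag
end Pool.Agent.Lib.MP_89bcae_ag

section

/-!
# The exceptional polynomials in terms of their roots
-/

open Polynomial Finset

namespace Pool.Agent.Lib.MP_89bcae_ag.Tw

open Pool.Agent.Lib.MP_89bcae_ag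

universe u

lemma irreducible_of_comp {k : Type*} [Field k] {g D : k[X]} (hdeg : g.natDegree ≠ 0)
    (h : Irreducible (D.comp g)) : Irreducible D := by
  refine ⟨fun hu => ?_, fun a b hab => ?_⟩
  · have h1 := h.natDegree_pos
    rw [natDegree_comp, natDegree_eq_zero_of_isUnit hu] at h1
    omega
  · have h1 : IsUnit (a.comp g) ∨ IsUnit (b.comp g) := h.isUnit_or_isUnit (by rw [hab, mul_comp])
    have key : ∀ c : k[X], c ≠ 0 → IsUnit (c.comp g) → IsUnit c := by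
      intro c hc hu
      have h2 := natDegree_eq_zero_of_isUnit hu
      rw [natDegree_comp] at h2
      have h3 : c.natDegree = 0 := (Nat.mul_eq_zero.mp h2).resolve_right hdeg
      obtain ⟨r, hr⟩ := natDegree_eq_zero.mp h3
      rw [← hr] at hc ⊢
      rw [isUnit_C]
      exact (isUnit_iff_ne_zero).mpr (fun h0 => hc (by rw [h0, C_0]))
    have hD0 : D ≠ 0 := by
      rintro rfl
      exact h.ne_zero zero_comp
    rcases h1 with h1 | h1
    · exact Or.inl (key a (by rintro rfl; exact hD0 (by rw [hab, zero_mul])) h1)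
    · exact Or.inr (key b (by rintro rfl; exact hD0 (by rw [hab, mul_zero])) h1)

section

set_option linter.unusedSectionVars false

variable {k F : Type*} [Field k] [Fintype k] [Field F] [Algebra k F] [Algebra.IsAlgebraic k F]
  [IsAlgClosed F]

/-- a product over the fixed points can be permuted by the Frobenius -/
lemma t16_prod_perm {i : ℕ} (hi : 0 < i) (m : ℕ) (f f' : F → F)
    (h : ∀ c, (frob8 k F ^ m) (f c) = f' ((frob8 k F ^ m) c)) :
    (frob8 k F ^ m) (∏ c ∈ Frob14.fixS k F i, f c) = ∏ c ∈ Frob14.fixS k F i, f' c := by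
  rw [map_prod]
  apply Finset.prod_bij (fun c _ => (frob8 k F ^ m) c)
  · intro c hc
    exact (frob8_mem_fixS hi m).mpr hc
  · intro a _ b _ hab
    exact (frob8 k F ^ m).injective hab
  · intro b hb
    refine ⟨(frob8 k F ^ m).symm b, ?_, (frob8 k F ^ m).apply_symm_apply b⟩
    rw [← frob8_mem_fixS hi m, (frob8 k F ^ m).apply_symm_apply]
    exact hb
  · intro c _
    exact h c

/-- an element of the field with `q ^ n` elements whose norm is an `ℓ`-th power is an `ℓ`-th power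
in this field -/
lemma t16_root {ℓ n : ℕ} (hℓ : ℓ.Prime) (hq : ℓ ∣ Fintype.card k - 1) {H : F} {b : k}
    (hb : algebraMap k F (b ^ ℓ) = ∏ m ∈ Finset.range n, (frob8 k F ^ m) H) :
    ∃ u : F, u ^ (Fintype.card k ^ n) = u ∧ u ^ ℓ = H := by
  have hq1 : 1 < Fintype.card k := Fintype.one_lt_card
  by_cases h0 : H = 0
  · refine ⟨0, zero_pow (pow_ne_zero _ (by omega)), ?_⟩
    rw [h0, zero_pow hℓ.ne_zero]
  · have hprod : ∏ m ∈ Finset.range n, (frob8 k F ^ m) H =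
        H ^ (∑ m ∈ Finset.range n, Fintype.card k ^ m) := by
      rw [← Finset.prod_pow_eq_pow_sum]
      exact Finset.prod_congr rfl fun m _ => frob8_pow_apply m H
    rw [hprod] at hb
    have hb0 : b ≠ 0 := by
      rintro rfl
      rw [zero_pow hℓ.ne_zero, map_zero] at hb
      exact pow_ne_zero _ h0 hb.symm
    obtain ⟨e, he⟩ := hq
    have hgeo : (∑ m ∈ Finset.range n, Fintype.card k ^ m) * (ℓ * e) = Fintype.card k ^ n - 1 := by
      have h4 := Nat.geomSum_eq (m := Fintype.card k) Fintype.one_lt_card n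
      have h5 : Fintype.card k - 1 ∣ Fintype.card k ^ n - 1 := by
        simpa using Nat.sub_dvd_pow_sub_pow (Fintype.card k) 1 n
      rw [h4, ← he]
      exact Nat.div_mul_cancel h5
    obtain ⟨u, hu⟩ := IsAlgClosed.exists_pow_nat_eq H hℓ.pos
    refine ⟨u, ?_, hu⟩
    have hpos : 1 ≤ Fintype.card k ^ n := Nat.one_le_pow _ _ (by omega)
    have h6 : Fintype.card k ^ n =
        ℓ * ((∑ m ∈ Finset.range n, Fintype.card k ^ m) * e) + 1 := by
      have h7 : ℓ * ((∑ m ∈ Finset.range n, Fintype.card k ^ m) * e) = Fintype.card k ^ n - 1 := by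
        rw [← hgeo]
        ring
      omega
    rw [h6, pow_succ, pow_mul, hu, pow_mul, ← hb, ← map_pow, ← pow_mul, ← he,
      FiniteField.pow_card_sub_one_eq_one b hb0, map_one, one_mul]

/-- the norm of the product -/
lemma t16_norm {g D : k[X]} (hm : D.Monic) (hirr : Irreducible D) {n : ℕ}
    (hn : D.natDegree = n) {α : F} (hα : aeval α D = 0) {i : ℕ} (hi : 0 < i) {ℓ : ℕ}
    (hℓ : 0 < ℓ) :
    ∏ m ∈ Finset.range n, (frob8 k F ^ m)
        (∏ c ∈ Frob14.fixS k F i, ((α - aeval c g) * (α - c) ^ (ℓ - 1))) =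
      (∏ _c ∈ Frob14.fixS k F i, ((-1 : F) ^ n)) ^ ℓ *
        ((∏ c ∈ Frob14.fixS k F i, aeval c (D.comp g)) *
          (∏ c ∈ Frob14.fixS k F i, aeval c D) ^ (ℓ - 1)) := by
  have h1 : ∀ m, (frob8 k F ^ m)
        (∏ c ∈ Frob14.fixS k F i, ((α - aeval c g) * (α - c) ^ (ℓ - 1))) =
      ∏ c ∈ Frob14.fixS k F i,
        (((frob8 k F ^ m) α - aeval c g) * ((frob8 k F ^ m) α - c) ^ (ℓ - 1)) := by
    intro m
    apply t16_prod_perm hi m
    intro c
    rw [map_mul, map_pow, map_sub, map_sub, ← aeval_algHom_apply (frob8 k F ^ m : F ≃ₐ[k] F)]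
  simp only [h1]
  rw [Finset.prod_comm, ← Finset.prod_pow, ← Finset.prod_pow, ← Finset.prod_mul_distrib,
    ← Finset.prod_mul_distrib]
  apply Finset.prod_congr rfl
  intro c _
  have h2 : ∀ x : F, ∏ m ∈ Finset.range n, ((frob8 k F ^ m) α - x) = (-1) ^ n * aeval x D := by
    intro x
    rw [aeval_eq_prod hm hirr hn hα x]
    have h3 : ∀ m ∈ Finset.range n, ((frob8 k F ^ m) α - x) =
        (-1) * (x - (frob8 k F ^ m) α) := fun m _ => by ring
    rw [Finset.prod_congr rfl h3, Finset.prod_mul_distrib, Finset.prod_const, Finset.card_range]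
  rw [Finset.prod_mul_distrib, Finset.prod_pow, h2, h2, aeval_comp]
  obtain ⟨r, rfl⟩ : ∃ r, ℓ = r + 1 := ⟨ℓ - 1, by omega⟩
  simp only [Nat.add_sub_cancel]
  rw [mul_pow, pow_succ]
  ring

end

theorem exists_root_of_exceptional {k : Type u} {F : Type*} [Field k] [Fintype k] [Field F]
    [Algebra k F] [Algebra.IsAlgebraic k F] [IsAlgClosed F] {ℓ n : ℕ} (hℓ : ℓ.Prime)
    (hq : ℓ ∣ Fintype.card k - 1) {g D : k[X]} (hg : g.Monic) (hdeg : g.natDegree ≠ 0)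
    (hD : D ∈ Superelliptic.exceptional ℓ g n) {α : F} (hα : aeval α D = 0) {i : ℕ} (hi : 0 < i)
    (hin : i < n) :
    ∃ u : F, u ^ (Fintype.card k ^ n) = u ∧
      u ^ ℓ = ∏ c ∈ Frob14.fixS k F i, ((α - aeval c g) * (α - c) ^ (ℓ - 1)) := by
  obtain ⟨⟨hm, hn, hirr'⟩, hK⟩ := hD
  have hirr := irreducible_of_comp hdeg hirr'
  obtain ⟨p, hp⟩ := CharP.exists k
  have hpp : Fact p.Prime := ⟨CharP.char_is_prime k p⟩
  have hi' : NeZero i := ⟨hi.ne'⟩
  let K := FiniteField.Extension k p i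
  have hfin : Finite K := Module.finite_of_finite k
  let _ : Fintype K := Fintype.ofFinite K
  have hrank : Module.finrank k K = i := FiniteField.finrank_extension k p i
  obtain ⟨a, ha⟩ := hK K (by rw [hrank]; exact hin)
  let σ : K →ₐ[k] F := IsAlgClosed.lift
  have h1 : algebraMap k F (a ^ ℓ) * ∏ c ∈ Frob14.fixS k F i, aeval c D =
      ∏ c ∈ Frob14.fixS k F i, aeval c (D.comp g) := by
    have h2 := prod_fixS_eq (K := K) (fun c : F => aeval c D) σ
    have h3 := prod_fixS_eq (K := K) (fun c : F => aeval c (D.comp g)) σ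
    rw [hrank] at h2 h3
    rw [h2, h3]
    have h4 := congrArg σ ha
    rw [map_mul, AlgHom.commutes, map_prod, map_prod] at h4
    simpa only [aeval_algHom_apply] using h4
  -- the product over the fixed points is in `k`
  have h5 : frob8 k F (∏ c ∈ Frob14.fixS k F i, aeval c D) =
      ∏ c ∈ Frob14.fixS k F i, aeval c D := by
    have h6 := t16_prod_perm (k := k) (F := F) hi 1 (fun c => aeval c D) (fun c => aeval c D)
      (fun c => (aeval_algHom_apply (frob8 k F ^ 1 : F ≃ₐ[k] F) c D).symm)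
    rwa [pow_one] at h6
  obtain ⟨d, hd⟩ := mem_range_of_frob8 h5
  have h7 := t16_norm (g := g) hm hirr hn hα hi hℓ.pos
  apply t16_root hℓ hq (b := (∏ _c ∈ Frob14.fixS k F i, ((-1 : k) ^ n)) * a * d)
  rw [h7, ← h1, ← hd]
  have h8 : (∏ _c ∈ Frob14.fixS k F i, ((-1 : F) ^ n)) =
      algebraMap k F (∏ _c ∈ Frob14.fixS k F i, ((-1 : k) ^ n)) := by
    rw [map_prod]
    simp only [map_pow, map_neg, map_one]
  rw [h8]
  obtain ⟨r, rfl⟩ : ∃ r, ℓ = r + 1 := ⟨ℓ - 1, by have := hℓ.pos; omega⟩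
  simp only [Nat.add_sub_cancel, map_mul, map_pow]
  ring

end Pool.Agent.Lib.MP_89bcae_ag.Tw

end

section

/-!
ROW T17 (250-350 lines). THE NUMBER OF EXCEPTIONAL `D`. Uses TBase.lean (`exists_roots_card`), Dens14.lean; compare DensInf8.lean, Dens45.lean (do not import).

PROOF. `q = card k = p ^ f`, `n = m ^ j` is odd, `F = AlgebraicClosure k`. `n * card (exceptional) = card A`, `A` the set of the roots in `F` of
the exceptional `D` (`exists_roots_card`, the `D` are irreducible by T16), all in `L = fixI k F n` (Dens14.lean; `q ^ n` elements).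
`U = n / (4 (m - 1))`. If `U < 4`: `card (exceptional) * n ≤ q ^ n` (as `A ⊆ L`) and the right side is at least this: `n < 16 (m - 1)`, so
`ℓ ^ (-n / (4 m)) ≥ ℓ ^ (-4) ≥ q ^ (-4)` (`ℓ ≤ q`). If `U ≥ 4`: `S = {(m - 1) u : 4 ≤ u ≤ U}`, `card S = U - 3`, all
`s ∈ S` satisfy `s ≤ n / 4 < n`. `h` from T06, `v s` from T07: `m ∣ q ^ (m - 1) - 1 ∣ q ^ s - 1` (Fermat, `m ≠ p`: `hmk`) and
`m * ∑ d ∈ Icc 1 (s / 2), q ^ d ≤ 2 m q ^ (s / 2) ≤ q ^ s - 1` (as `s ≥ 4 (m - 1) ≥ 2 (m + 1)`, `q ^ (s / 2) ≥ 2 ^ (m + 1) ≥ 2 m + 1`).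
`v s ^ (q ^ t) ≠ v s` for `t < s` in `S` and the roots of `h t` are fixed by `x ↦ x ^ (q ^ t)` (T06), so `hvj`; the multiplicity is
`ℓ - 1`, so `hv`. By T16 all `α ∈ A` have `h s (α)` an `ℓ`-th power in `L`. T05 with
`p ^ a = q ^ ((n - 1) / 2)`, `p ^ b = q ^ ((n + 1) / 2)`, both `≡ 1` mod `ℓ`: `ℓ ^ (U - 3) * card A ≤ q ^ n + ℓ ^ (U - 3) * (ℓ ^ 4 (Δ + 1) q ^ ((n + 1) / 2))`,
`Δ = ∑ s ∈ S, ℓ q ^ s ≤ 2 ℓ q ^ (n / 4)`. So `card A / q ^ n ≤ ℓ ^ (3 - U) + 3 ℓ ^ 5 q ^ (1 / 2) q ^ (- n / 4)`, `ℓ ^ (3 - U) ≤ ℓ ^ 4 ℓ ^ (-n / (4 m))` (`U ≥ n / (4 (m - 1)) - 1`),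
and `ℓ ^ 5 q ^ (1 / 2) q ^ (-n / 4) ≤ q ^ 4 ℓ ^ (-n / (4 m))` since `ℓ ≤ q`, `n (1 - 1 / m) / 4 ≥ n / 6 ≥ 3 / 2` (here `n ≥ 32`).
The constant `4` leaves room. (`real` powers: write everything with `Real.rpow`, or bound `ℓ ^ (n / (4 m))` by the natural power
`ℓ ^ U * ℓ`.)
-/

open Polynomial Finset

namespace Pool.Agent.Lib.MP_89bcae_ag.Tw

open Pool.Agent.Lib.MP_89bcae_ag

universe u

theorem t17_sum_pow {q : ℕ} (hq : 2 ≤ q) (N : ℕ) : ∑ d ∈ Icc 1 N, q ^ d ≤ 2 * q ^ N := by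
  induction N with
  | zero => simp
  | succ N ih =>
    have e : Icc 1 (N + 1) = insert (N + 1) (Icc 1 N) := by
      ext a
      simp only [mem_insert, mem_Icc]
      omega
    rw [e, sum_insert (by simp), pow_succ]
    nlinarith [pow_pos (show 0 < q by omega) N]

theorem t17_big {q m s : ℕ} (hq : 2 ≤ q) (hm : 3 ≤ m) (hs : 4 * (m - 1) ≤ s) :
    m * ∑ d ∈ Icc 1 (s / 2), q ^ d ≤ q ^ s - 1 := by
  have h1 := t17_sum_pow hq (s / 2)
  have h2 : 2 * m + 1 ≤ q ^ (s / 2) := by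
    calc 2 * m + 1 ≤ 2 * (m + 1) := by omega
      _ ≤ 2 * 2 ^ m := Nat.mul_le_mul_left 2 (Nat.lt_two_pow_self (n := m))
      _ = 2 ^ (m + 1) := by ring
      _ ≤ 2 ^ (s / 2) := Nat.pow_le_pow_right (by norm_num) (by omega)
      _ ≤ q ^ (s / 2) := Nat.pow_le_pow_left hq _
  have h3 : q ^ (s / 2) * q ^ (s / 2) ≤ q ^ s := by
    rw [← pow_add]
    exact Nat.pow_le_pow_right (by omega) (by omega)
  have h4 : (2 * m + 1) * q ^ (s / 2) ≤ q ^ s := (Nat.mul_le_mul_right _ h2).trans h3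
  have h5 : m * ∑ d ∈ Icc 1 (s / 2), q ^ d ≤ m * (2 * q ^ (s / 2)) := Nat.mul_le_mul_left m h1
  have h6 : 1 ≤ q ^ (s / 2) := Nat.one_le_pow _ _ (by omega)
  have h7 : (2 * m + 1) * q ^ (s / 2) = m * (2 * q ^ (s / 2)) + q ^ (s / 2) := by ring
  omega

theorem t17_dvd_sub {ℓ q : ℕ} (hq : 1 ≤ q) (h : ℓ ∣ q - 1) (t : ℕ) :
    ∃ M, q ^ t = ℓ * M + 1 := by
  have h1 : ℓ ∣ q ^ t - 1 := h.trans (by simpa using Nat.sub_dvd_pow_sub_pow q 1 t)
  obtain ⟨M, hM⟩ := h1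
  refine ⟨M, ?_⟩
  have : 1 ≤ q ^ t := Nat.one_le_pow _ _ hq
  omega

theorem t17_fermat {q m s : ℕ} (hm : m.Prime) (hco : ¬ m ∣ q) (hs : (m - 1) ∣ s) :
    m ∣ q ^ s - 1 := by
  obtain ⟨u, rfl⟩ := hs
  have h1 : Nat.Coprime q m := ((Nat.Prime.coprime_iff_not_dvd hm).mpr hco).symm
  have h2 : q ^ (m - 1) ≡ 1 [MOD m] := by
    have := Nat.ModEq.pow_totient h1
    rwa [Nat.totient_prime hm] at this
  have h3 : q ^ ((m - 1) * u) ≡ 1 [MOD m] := by
    rw [pow_mul]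
    simpa using h2.pow u
  have hq : 1 ≤ q := by
    rcases Nat.eq_zero_or_pos q with h | h
    · exact absurd (h ▸ dvd_zero m) hco
    · exact h
  exact (Nat.modEq_iff_dvd' (Nat.one_le_pow _ _ hq)).mp h3.symm

/-- the final numerical estimate -/
theorem t17_final {Q L N n m U : ℕ} (hL : 2 ≤ L) (hLQ : L ≤ Q) (hm : 3 ≤ m) (hn : 32 ≤ n)
    (hU : 4 ≤ U) (hnU : n < 4 * (m - 1) * (U + 1))
    (h : L ^ (U - 3) * N ≤ Q ^ n + L ^ (U - 3) * (3 * L ^ 5 * Q ^ (n / 4) * Q ^ ((n + 1) / 2))) :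
    (N : ℝ) ≤ 4 * (Q : ℝ) ^ 4 * (L : ℝ) ^ (-(n : ℝ) / (4 * m)) * (Q : ℝ) ^ n := by
  have hLr : (2 : ℝ) ≤ L := by exact_mod_cast hL
  have hLp : (0 : ℝ) < L := by linarith
  have hL1 : (1 : ℝ) ≤ L := by linarith
  have hLQr : (L : ℝ) ≤ Q := by exact_mod_cast hLQ
  have hQp : (0 : ℝ) < Q := by linarith
  have hQ1 : (1 : ℝ) ≤ Q := by linarith
  have hmr : (3 : ℝ) ≤ m := by exact_mod_cast hm
  have hmp : (0 : ℝ) < m := by linarith
  have hnr : (32 : ℝ) ≤ n := by exact_mod_cast hn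
  obtain ⟨E, hE⟩ : ∃ E : ℝ, E = (L : ℝ) ^ (-(n : ℝ) / (4 * m)) := ⟨_, rfl⟩
  have hEp : 0 < E := by rw [hE]; exact Real.rpow_pos_of_pos hLp _
  rw [← hE]
  -- first estimate
  have hA : ((L : ℝ) ^ (U - 3))⁻¹ ≤ (Q : ℝ) ^ 4 * E := by
    have a1 : ((L : ℝ) ^ (U - 3))⁻¹ = (L : ℝ) ^ (-((U : ℝ) - 3)) := by
      rw [Real.rpow_neg hLp.le, ← Real.rpow_natCast, Nat.cast_sub (by omega)]
      norm_num
    have a2 : (n : ℝ) / (4 * m) ≤ U + 1 := by
      rw [div_le_iff₀ (by positivity)]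
      have b1 : n ≤ 4 * m * (U + 1) := by
        refine hnU.le.trans (Nat.mul_le_mul_right _ (Nat.mul_le_mul_left _ (Nat.sub_le _ _)))
      have b2 : (n : ℝ) ≤ 4 * m * (U + 1) := by exact_mod_cast b1
      linarith
    have a3 : (L : ℝ) ^ (-((U : ℝ) - 3)) ≤ (L : ℝ) ^ ((4 : ℝ) + -(n : ℝ) / (4 * m)) := by
      apply Real.rpow_le_rpow_of_exponent_le hL1
      rw [neg_div]
      linarith
    have a4 : (L : ℝ) ^ ((4 : ℝ) + -(n : ℝ) / (4 * m)) = (L : ℝ) ^ 4 * E := by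
      rw [Real.rpow_add hLp, hE]
      congr 1
      rw [← Real.rpow_natCast]
      norm_num
    rw [a1]
    refine a3.trans ?_
    rw [a4]
    exact mul_le_mul_of_nonneg_right (pow_le_pow_left₀ hLp.le hLQr 4) hEp.le
  -- second estimate
  have hB : (L : ℝ) ^ 5 * (Q : ℝ) ^ (n / 4) * (Q : ℝ) ^ ((n + 1) / 2) ≤
      (Q : ℝ) ^ 4 * E * (Q : ℝ) ^ n := by
    have b1 : (L : ℝ) ^ 5 * (Q : ℝ) ^ (n / 4) * (Q : ℝ) ^ ((n + 1) / 2) ≤
        (Q : ℝ) ^ (((5 + n / 4 + (n + 1) / 2 : ℕ)) : ℝ) := by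
      rw [Real.rpow_natCast, pow_add, pow_add]
      refine mul_le_mul_of_nonneg_right (mul_le_mul_of_nonneg_right ?_ (by positivity))
        (by positivity)
      exact pow_le_pow_left₀ hLp.le hLQr 5
    have b2 : (Q : ℝ) ^ (-(n : ℝ) / (4 * m)) ≤ E := by
      rw [hE]
      apply Real.rpow_le_rpow_of_nonpos hLp hLQr
      rw [neg_div, neg_nonpos]
      positivity
    have b3 : (Q : ℝ) ^ ((4 : ℝ) + -(n : ℝ) / (4 * m) + n) ≤ (Q : ℝ) ^ 4 * E * (Q : ℝ) ^ n := by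
      rw [Real.rpow_add hQp, Real.rpow_add hQp, Real.rpow_natCast]
      have c1 : (Q : ℝ) ^ (4 : ℝ) = (Q : ℝ) ^ 4 := by
        rw [← Real.rpow_natCast]
        norm_num
      rw [c1]
      exact mul_le_mul_of_nonneg_right (mul_le_mul_of_nonneg_left b2 (by positivity))
        (by positivity)
    refine (b1.trans ?_).trans b3
    apply Real.rpow_le_rpow_of_exponent_le hQ1
    have c1 : (((n / 4 : ℕ)) : ℝ) ≤ n / 4 := Nat.cast_div_le
    have c2 : ((((n + 1) / 2 : ℕ)) : ℝ) ≤ (n + 1) / 2 := by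
      have := Nat.cast_div_le (α := ℝ) (m := n + 1) (n := 2)
      push_cast at this
      exact this
    have c3 : (n : ℝ) / (4 * m) ≤ n / 12 := by
      apply div_le_div_of_nonneg_left (by positivity) (by norm_num)
      linarith
    have c4 : (((5 + n / 4 + (n + 1) / 2 : ℕ)) : ℝ) = 5 + ((n / 4 : ℕ) : ℝ) +
        (((n + 1) / 2 : ℕ) : ℝ) := by
      push_cast
      ring
    rw [c4, neg_div]
    linarith
  have hr : (L : ℝ) ^ (U - 3) * N ≤ (Q : ℝ) ^ n +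
      (L : ℝ) ^ (U - 3) * (3 * (L : ℝ) ^ 5 * (Q : ℝ) ^ (n / 4) * (Q : ℝ) ^ ((n + 1) / 2)) := by
    exact_mod_cast h
  have hLK : (0 : ℝ) < (L : ℝ) ^ (U - 3) := by positivity
  have h2 : (N : ℝ) ≤ (Q : ℝ) ^ n * ((L : ℝ) ^ (U - 3))⁻¹ +
      3 * (L : ℝ) ^ 5 * (Q : ℝ) ^ (n / 4) * (Q : ℝ) ^ ((n + 1) / 2) := by
    rw [← mul_le_mul_iff_right₀ hLK]
    refine hr.trans (le_of_eq ?_)
    field_simp
  have h3 : (Q : ℝ) ^ n * ((L : ℝ) ^ (U - 3))⁻¹ ≤ (Q : ℝ) ^ n * ((Q : ℝ) ^ 4 * E) :=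
    mul_le_mul_of_nonneg_left hA (by positivity)
  nlinarith

/-- the small case -/
theorem t17_small {Q L n m : ℕ} {N : ℝ} (hL : 2 ≤ L) (hLQ : L ≤ Q) (hm : 3 ≤ m)
    (hn : n < 16 * (m - 1)) (h : N ≤ (Q : ℝ) ^ n) :
    N ≤ 4 * (Q : ℝ) ^ 4 * (L : ℝ) ^ (-(n : ℝ) / (4 * m)) * (Q : ℝ) ^ n := by
  have hLr : (2 : ℝ) ≤ L := by exact_mod_cast hL
  have hLp : (0 : ℝ) < L := by linarith
  have hL1 : (1 : ℝ) ≤ L := by linarith
  have hLQr : (L : ℝ) ≤ Q := by exact_mod_cast hLQ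
  have hQp : (0 : ℝ) < Q := by linarith
  have hmr : (3 : ℝ) ≤ m := by exact_mod_cast hm
  have a1 : (n : ℝ) / (4 * m) ≤ 4 := by
    rw [div_le_iff₀ (by positivity)]
    have b1 : n ≤ 16 * m := by omega
    have b2 : (n : ℝ) ≤ 16 * m := by exact_mod_cast b1
    linarith
  have a2 : (L : ℝ) ^ (-4 : ℝ) ≤ (L : ℝ) ^ (-(n : ℝ) / (4 * m)) := by
    apply Real.rpow_le_rpow_of_exponent_le hL1
    rw [neg_div]
    linarith
  have a3 : (L : ℝ) ^ (-4 : ℝ) = ((L : ℝ) ^ 4)⁻¹ := by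
    rw [Real.rpow_neg hLp.le, ← Real.rpow_natCast]
    norm_num
  have a4 : ((L : ℝ) ^ 4) ≤ (Q : ℝ) ^ 4 := pow_le_pow_left₀ hLp.le hLQr 4
  have a5 : 1 ≤ (Q : ℝ) ^ 4 * (L : ℝ) ^ (-(n : ℝ) / (4 * m)) := by
    have c1 : (L : ℝ) ^ 4 * ((L : ℝ) ^ 4)⁻¹ = 1 := mul_inv_cancel₀ (by positivity)
    have c2 : (L : ℝ) ^ 4 * ((L : ℝ) ^ 4)⁻¹ ≤ (Q : ℝ) ^ 4 * (L : ℝ) ^ (-(n : ℝ) / (4 * m)) := by
      rw [← a3]
      exact mul_le_mul a4 a2 (by positivity) (by positivity)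
    linarith
  have a6 : 0 < (Q : ℝ) ^ n := by positivity
  calc N ≤ (Q : ℝ) ^ n := h
    _ ≤ 4 * ((Q : ℝ) ^ 4 * (L : ℝ) ^ (-(n : ℝ) / (4 * m))) * (Q : ℝ) ^ n := by nlinarith
    _ = _ := by ring

theorem exceptional_card {k : Type u} [Field k] [Fintype k] {ℓ m j : ℕ} (hℓ : ℓ.Prime)
    (hm : m.Prime) (hm2 : m ≠ 2) (hmk : (m : k) ≠ 0) (hq : ℓ ∣ Fintype.card k - 1) {g : k[X]}
    (hg : g.Monic) (hdeg : g.natDegree = m) :
    (m ^ j : ℝ) * ((Superelliptic.exceptional ℓ g (m ^ j)).ncard : ℝ) ≤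
      4 * (Fintype.card k : ℝ) ^ 4 * (ℓ : ℝ) ^ (-(m ^ j : ℝ) / (4 * m)) *
        (Fintype.card k : ℝ) ^ (m ^ j) := by
  classical
  have hm3 : 3 ≤ m := by
    have := hm.two_le
    omega
  have hq2 : 2 ≤ Fintype.card k := Fintype.one_lt_card
  have hLQ : ℓ ≤ Fintype.card k := by
    have := Nat.le_of_dvd (by omega) hq
    omega
  obtain ⟨n, hn⟩ : ∃ n : ℕ, n = m ^ j := ⟨_, rfl⟩
  have hn0 : 0 < n := by rw [hn]; exact pow_pos hm.pos j
  have hnodd : Odd n := by rw [hn]; exact (hm.odd_of_ne_two hm2).pow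
  have hnR : ((m : ℝ) ^ j) = n := by rw [hn]; push_cast; rfl
  rw [hnR, ← hn]
  let F := AlgebraicClosure k
  have hfin : (Superelliptic.exceptional ℓ g n).Finite := (family_finite g n).subset fun D hD => hD.1
  have hncard : (Superelliptic.exceptional ℓ g n).ncard = hfin.toFinset.card :=
    Set.ncard_eq_toFinset_card _ hfin
  obtain ⟨A, hA1, hA2⟩ := exists_roots_card (F := F) n hfin.toFinset (by
    intro D hD
    rw [Set.Finite.mem_toFinset] at hD
    exact ⟨hD.1.1, hD.1.2.1, irreducible_of_comp (by rw [hdeg]; exact hm.ne_zero) hD.1.2.2⟩)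
  have hA3 : ∀ a ∈ A, a ^ (Fintype.card k ^ n) = a := by
    intro a ha
    rw [hA1, Set.Finite.mem_toFinset] at ha
    rw [← frob8_pow_apply, frob8_pow_eq_iff, ha.1.2.1]
  have hcast : ((n : ℝ) * ((Superelliptic.exceptional ℓ g n).ncard : ℝ)) = (A.card : ℝ) := by
    rw [hncard, hA2]
    push_cast
    ring
  rw [hcast]
  obtain ⟨U, hU⟩ : ∃ U : ℕ, U = n / (4 * (m - 1)) := ⟨_, rfl⟩
  by_cases hU4 : U < 4
  · -- few elements
    refine t17_small hℓ.two_le hLQ hm3 ?_ ?_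
    · rw [hU, Nat.div_lt_iff_lt_mul (by omega)] at hU4
      omega
    · have h1 : A ⊆ Frob14.fixS k F n := fun a ha => (Frob14.mem_fixS hn0).mpr (hA3 a ha)
      have h2 := card_le_card h1
      rw [Frob14.card_fixS hn0] at h2
      exact_mod_cast h2
  · rw [not_lt] at hU4
    have hUn : 4 * (m - 1) * U ≤ n := by
      rw [hU]
      exact Nat.mul_div_le n _
    have hnU : n < 4 * (m - 1) * (U + 1) := by
      rw [hU]
      exact Nat.lt_mul_div_succ n (by omega)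
    have hn32 : 32 ≤ n := by
      have : 4 * 2 * 4 ≤ 4 * (m - 1) * U :=
        Nat.mul_le_mul (Nat.mul_le_mul_left 4 (by omega)) hU4
      omega
    -- the set of exponents
    obtain ⟨S, hS⟩ : ∃ S : Finset ℕ, S = (Icc 4 U).image (fun u => (m - 1) * u) := ⟨_, rfl⟩
    have hScard : S.card = U - 3 := by
      rw [hS, card_image_of_injective _ (fun a b hab => Nat.eq_of_mul_eq_mul_left (by omega) hab),
        Nat.card_Icc]
      omega
    have hSm : ∀ s ∈ S, (m - 1) ∣ s ∧ 4 * (m - 1) ≤ s ∧ s ≤ n / 4 := by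
      intro s hs
      rw [hS, mem_image] at hs
      obtain ⟨u, hu, rfl⟩ := hs
      rw [mem_Icc] at hu
      refine ⟨dvd_mul_right _ _, ?_, ?_⟩
      · rw [mul_comm]
        exact Nat.mul_le_mul_left _ hu.1
      · rw [Nat.le_div_iff_mul_le (by norm_num)]
        calc (m - 1) * u * 4 = 4 * (m - 1) * u := by ring
          _ ≤ 4 * (m - 1) * U := Nat.mul_le_mul_left _ hu.2
          _ ≤ n := hUn
    have hS0 : ∀ s ∈ S, 0 < s ∧ s < n := by
      intro s hs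
      obtain ⟨-, h1, h2⟩ := hSm s hs
      omega
    obtain ⟨h, hh⟩ := exists_H F hℓ.two_le g
    -- the characteristic
    obtain ⟨p, hp⟩ := CharP.exists k
    have hpp : Fact p.Prime := ⟨CharP.char_is_prime k p⟩
    obtain ⟨f, hf, hqf⟩ := FiniteField.card k p
    have hmp : ¬ m ∣ Fintype.card k := by
      intro hdvd
      rw [hqf] at hdvd
      have h1 := hm.dvd_of_dvd_pow hdvd
      have h2 : m = p := (Nat.prime_dvd_prime_iff_eq hm hpp.out).mp h1
      apply hmk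
      rw [h2]
      exact CharP.cast_eq_zero k p
    have hspec : ∀ s ∈ S, ∃ v : F, v ^ (Fintype.card k ^ s) = v ∧
        (∀ x : F, x ^ (Fintype.card k ^ s) = x → aeval x g ≠ v) ∧
        ∀ j, 0 < j → j < s → v ^ (Fintype.card k ^ j) ≠ v := by
      intro s hs
      obtain ⟨h1, h2, -⟩ := hSm s hs
      exact exists_special hg hdeg hm.two_le (hS0 s hs).1 (t17_fermat hm hmp h1)
        (t17_big hq2 hm3 h2)
    choose! v hv using hspec
    -- the field with `q ^ n` elements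
    have hfinL := Frob14.finite_fixI (k := k) (F := F) hn0
    let _ : Fintype (Frob14.fixI k F n) := Fintype.ofFinite _
    have hLcard : Fintype.card (Frob14.fixI k F n) = Fintype.card k ^ n := by
      rw [← Nat.card_eq_fintype_card, Frob14.natCard_fixI hn0]
    have hLp : CharP (Frob14.fixI k F n) p :=
      charP_of_injective_algebraMap (algebraMap k (Frob14.fixI k F n)).injective p
    obtain ⟨A', hA'⟩ : ∃ A' : Finset (Frob14.fixI k F n),
        A' = A.attach.image (fun a => ⟨a.1, Frob14.mem_fixI.mpr (hA3 a.1 a.2)⟩) := ⟨_, rfl⟩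
    have hA'card : A'.card = A.card := by
      rw [hA', card_image_of_injective, card_attach]
      intro a b hab
      exact Subtype.ext (congrArg (fun x : Frob14.fixI k F n => (x : F)) hab)
    have hA'm : ∀ α ∈ A', (α : F) ∈ A := by
      intro α hα
      rw [hA', mem_image] at hα
      obtain ⟨a, -, rfl⟩ := hα
      exact a.2
    obtain ⟨Ma, hMa⟩ := t17_dvd_sub (by omega : 1 ≤ Fintype.card k) hq ((n - 1) / 2)
    obtain ⟨Qb, hQb⟩ := t17_dvd_sub (by omega : 1 ≤ Fintype.card k) hq ((n + 1) / 2)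
    have hmain := count_powers (k := k) (L := Frob14.fixI k F n) (F := F) (p := p) (ℓ := ℓ)
      (a := f * ((n - 1) / 2)) (b := f * ((n + 1) / 2)) (Ma := Ma) (Qb := Qb) hℓ
      (Nat.mul_le_mul_left _ (Nat.div_le_div_right (by omega)))
      (by rw [pow_mul, ← hqf]; exact hMa) (by rw [pow_mul, ← hqf]; exact hQb)
      (by
        rw [hLcard, pow_mul, pow_mul, ← hqf, ← pow_add]
        congr 1
        obtain ⟨r, hr⟩ := hnodd
        omega)
      (h := h) (v := v) (S := S) (fun i hi => (hh i (hS0 i hi).1).1)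
      (fun i hi => by
        obtain ⟨-, -, -, -, h5⟩ := hh i (hS0 i hi).1
        obtain ⟨v1, v2, -⟩ := hv i hi
        rw [h5 (v i) v1 v2]
        intro hdvd
        have := Nat.le_of_dvd (by have := hℓ.two_le; omega) hdvd
        have := hℓ.two_le
        omega)
      (fun i hi t ht hti hroot => by
        obtain ⟨-, -, -, h4, -⟩ := hh t (hS0 t ht).1
        obtain ⟨-, -, v3⟩ := hv i hi
        exact v3 t (hS0 t ht).1 hti (h4 _ hroot))
      (A := A') (fun α hα i hi => by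
        have hαA := hA'm α hα
        have hαS := (hA1 _).mp hαA
        rw [Set.Finite.mem_toFinset] at hαS
        obtain ⟨u, hu1, hu2⟩ := exists_root_of_exceptional hℓ hq hg
          (by rw [hdeg]; exact hm.ne_zero) hαS (minpoly.aeval k (α : F)) (hS0 i hi).1 (hS0 i hi).2
        obtain ⟨-, -, h3, -, -⟩ := hh i (hS0 i hi).1
        refine ⟨⟨u, Frob14.mem_fixI.mpr hu1⟩, Subtype.ext ?_⟩
        have e1 : ((aeval α (h i) : Frob14.fixI k F n) : F) = aeval (α : F) (h i) :=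
          (aeval_algebraMap_apply F α (h i)).symm
        rw [e1, h3]
        exact hu2)
    rw [hA'card, hLcard, hScard, pow_mul, ← hqf] at hmain
    -- the sum of the degrees
    have hΔ : ∑ i ∈ S, (h i).natDegree ≤ ℓ * (2 * Fintype.card k ^ (n / 4)) := by
      rw [sum_congr rfl fun i hi => (hh i (hS0 i hi).1).2.1, ← mul_sum]
      refine Nat.mul_le_mul_left _ (le_trans ?_ (t17_sum_pow hq2 (n / 4)))
      apply sum_le_sum_of_subset
      intro s hs
      rw [mem_Icc]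
      exact ⟨(hS0 s hs).1, (hSm s hs).2.2⟩
    refine t17_final hℓ.two_le hLQ hm3 hn32 hU4 hnU (hmain.trans ?_)
    refine Nat.add_le_add_left (Nat.mul_le_mul_left _ ?_) _
    have h1 : 1 ≤ ℓ * Fintype.card k ^ (n / 4) :=
      Nat.one_le_iff_ne_zero.mpr (Nat.mul_ne_zero hℓ.ne_zero (pow_ne_zero _ (by omega)))
    have h2 : (∑ i ∈ S, (h i).natDegree) + 1 ≤ 3 * (ℓ * Fintype.card k ^ (n / 4)) := by
      have : ℓ * (2 * Fintype.card k ^ (n / 4)) = 2 * (ℓ * Fintype.card k ^ (n / 4)) := by ring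
      omega
    calc ℓ ^ 4 * ((∑ i ∈ S, (h i).natDegree) + 1) * Fintype.card k ^ ((n + 1) / 2)
        ≤ ℓ ^ 4 * (3 * (ℓ * Fintype.card k ^ (n / 4))) * Fintype.card k ^ ((n + 1) / 2) :=
          Nat.mul_le_mul_right _ (Nat.mul_le_mul_left _ h2)
      _ = 3 * ℓ ^ 5 * Fintype.card k ^ (n / 4) * Fintype.card k ^ ((n + 1) / 2) := by ring

end Pool.Agent.Lib.MP_89bcae_ag.Tw

end
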